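import Mathlib

/-!
# MP_ca1492_al, p-adic side: basic definitions

Smooth representations of topological groups, averages over compact subgroups, parabolic data
inside an ambient group, Jacquet modules, parabolic induction.
-/

set_option autoImplicit false

namespace Pool.Agent.Lib.MP_ca1492_al.P

open Topology

noncomputable section

section Abstract

variable {G : Type} [Group G]
variable {V W X : Type} [AddCommGroup V] [Module ℂ V] [AddCommGroup W] [Module ℂ W]
  [AddCommGroup X] [Module ℂ X]

/-- a representation of a topological group is smooth if all stabilizers are open -/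
def IsSm [TopologicalSpace G] (π : Representation ℂ G V) : Prop :=
  ∀ v : V, IsOpen {g : G | π g v = v}

/-- equivariant linear maps -/
def Equi (π : Representation ℂ G V) (σ : Representation ℂ G W) (f : V →ₗ[ℂ] W) : Prop :=
  ∀ (g : G) (v : V), f (π g v) = σ g (f v)

/-- the space of equivariant linear maps -/
def homG (π : Representation ℂ G V) (σ : Representation ℂ G W) : Submodule ℂ (V →ₗ[ℂ] W) where
  carrier := {f | Equi π σ f}
  add_mem' := by
    intro a b ha hb g v
    simp [ha g v, hb g v]
  zero_mem' := by
    intro g v
    simp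
  smul_mem' := by
    intro c a ha g v
    simp [ha g v]

/-- two representations are isomorphic -/
def Iso (π : Representation ℂ G V) (σ : Representation ℂ G W) : Prop :=
  ∃ e : V ≃ₗ[ℂ] W, Equi π σ (e : V →ₗ[ℂ] W)

/-- stable subspaces -/
def Stab (π : Representation ℂ G V) (U : Submodule ℂ V) : Prop :=
  ∀ (g : G), ∀ v ∈ U, π g v ∈ U

/-- the representation on a stable subspace -/
def subRep (π : Representation ℂ G V) (U : Submodule ℂ V) (h : Stab π U) :
    Representation ℂ G U where
  toFun g := (π g).restrict (fun v hv => h g v hv)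
  map_one' := by
    ext v
    simp
  map_mul' := by
    intro a b
    ext v
    simp [LinearMap.restrict_apply]

/-- the representation on the quotient by a stable subspace -/
def quoRep (π : Representation ℂ G V) (U : Submodule ℂ V) (h : Stab π U) :
    Representation ℂ G (V ⧸ U) where
  toFun g := U.mapQ U (π g) (fun v hv => h g v hv)
  map_one' := by
    ext v
    simp
  map_mul' := by
    intro a b
    ext v
    simp

/-- irreducible: nonzero and without proper stable subspace -/
def Irr (π : Representation ℂ G V) : Prop :=
  (∃ v : V, v ≠ 0) ∧ ∀ U : Submodule ℂ V, Stab π U → U = ⊥ ∨ U = ⊤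

/-- finitely generated representation -/
def Fg (π : Representation ℂ G V) : Prop :=
  ∃ s : Finset V, ∀ U : Submodule ℂ V, Stab π U → (∀ v ∈ s, v ∈ U) → U = ⊤

/-- the invariants of a subgroup -/
def fix (π : Representation ℂ G V) (K : Subgroup G) : Submodule ℂ V where
  carrier := {v | ∀ k ∈ K, π k v = v}
  add_mem' := by
    intro a b ha hb k hk
    simp [ha k hk, hb k hk]
  zero_mem' := by
    intro k _
    simp
  smul_mem' := by
    intro c a ha k hk
    simp [ha k hk]

/-- admissible: finite dimensional invariants for all open subgroups -/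
def Adm [TopologicalSpace G] (π : Representation ℂ G V) : Prop :=
  ∀ K : Subgroup G, IsOpen (K : Set G) → FiniteDimensional ℂ (fix π K)

/-- restriction to a subgroup -/
def res (K : Subgroup G) (π : Representation ℂ G V) : Representation ℂ K V :=
  π.comp K.subtype

/-- restriction from a subgroup `H` to a smaller subgroup `M` -/
def resLE {H M : Subgroup G} (h : M ≤ H) (π : Representation ℂ H V) : Representation ℂ M V :=
  π.comp (Subgroup.inclusion h)

/-- twist by a character -/
def twist (χ : G →* ℂˣ) (π : Representation ℂ G V) : Representation ℂ G V where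
  toFun g := (χ g : ℂ) • π g
  map_one' := by simp
  map_mul' := by
    intro a b
    ext v
    simp [smul_smul, mul_comm]

/-- the orbit of a vector under a subgroup -/
def orb (π : Representation ℂ G V) (K : Subgroup G) (v : V) : Set V :=
  {w | ∃ k ∈ K, w = π k v}

/-- the average of `v` over the subgroup `K`, i.e. the mean value of the orbit `K v`
(useful if the orbit is finite) -/
def avg (π : Representation ℂ G V) (K : Subgroup G) (v : V) : V :=
  ((Nat.card (orb π K v) : ℂ))⁻¹ • ∑ᶠ w ∈ orb π K v, w

/-- smooth representation `σ` with the extension property (injective object): every equivariant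
map from a stable subspace of a smooth representation to `σ` extends. -/
def IsInjSm [TopologicalSpace G] (σ : Representation ℂ G W) : Prop :=
  ∀ (E : Type) [AddCommGroup E] [Module ℂ E] (π : Representation ℂ G E) (_ : IsSm π)
    (U : Submodule ℂ E) (hU : Stab π U) (f : U →ₗ[ℂ] W) (_ : Equi (subRep π U hU) σ f),
    ∃ F : E →ₗ[ℂ] W, Equi π σ F ∧ ∀ u : U, F u = f u

end Abstract

/-! ## parabolic data -/

/-- A parabolic datum inside the ambient topological group `G`, for subgroups `M ≤ H`: a subgroup
`N ≤ H` normalized by `M`, `M ∩ N = 1`, and `N` a union of compact subgroups (in the strong sense: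
every compact subset of `N` lies in a compact subgroup of `N`). -/
structure PD {G : Type} [Group G] [TopologicalSpace G] (H M : Subgroup G) where
  N : Subgroup G
  hM : M ≤ H
  hN : N ≤ H
  norm : ∀ m ∈ M, ∀ n ∈ N, m * n * m⁻¹ ∈ N
  disj : ∀ g : G, g ∈ M → g ∈ N → g = 1
  exh : ∀ C : Set G, IsCompact C → C ⊆ (N : Set G) →
    ∃ K : Subgroup G, K ≤ N ∧ IsCompact (K : Set G) ∧ C ⊆ (K : Set G)

namespace PD

variable {G : Type} [Group G] [TopologicalSpace G] {H M : Subgroup G} (D : PD H M)
variable {V W : Type} [AddCommGroup V] [Module ℂ V] [AddCommGroup W] [Module ℂ W]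

/-- `V(N)`: the span of the vectors `π(n) v - v`, `n ∈ N` -/
def kerJ (π : Representation ℂ H V) : Submodule ℂ V :=
  Submodule.span ℂ {x | ∃ (n : G) (hn : n ∈ D.N) (v : V), x = π ⟨n, D.hN hn⟩ v - v}

theorem kerJ_stab (π : Representation ℂ H V) :
    Stab (resLE D.hM π) (D.kerJ π) := by
  intro m v hv
  refine Submodule.span_induction (p := fun x _ => (resLE D.hM π) m x ∈ D.kerJ π)
    ?_ ?_ ?_ ?_ hv
  · rintro x ⟨n, hn, v, rfl⟩
    have h1 : (resLE D.hM π) m (π ⟨n, D.hN hn⟩ v - v) =
        π ⟨m.1 * n * m.1⁻¹, D.hN (D.norm m.1 m.2 n hn)⟩ ((resLE D.hM π) m v) -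
          (resLE D.hM π) m v := by
      simp only [resLE, MonoidHom.coe_comp, Function.comp_apply, map_sub]
      rw [← Module.End.mul_apply, ← Module.End.mul_apply, ← map_mul, ← map_mul]
      congr 3
      apply Subtype.ext
      simp
    rw [h1]
    exact Submodule.subset_span ⟨_, D.norm m.1 m.2 n hn, _, rfl⟩
  · simp
  · intro x y _ _ hx hy
    rw [map_add]
    exact Submodule.add_mem _ hx hy
  · intro c x _ hx
    rw [map_smul]
    exact Submodule.smul_mem _ _ hx

/-- the (unnormalized) Jacquet module, a representation of `M` on `V / V(N)` -/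
def Jac (π : Representation ℂ H V) : Representation ℂ M (V ⧸ D.kerJ π) :=
  quoRep (resLE D.hM π) (D.kerJ π) (D.kerJ_stab π)

/-- the space of (unnormalized) parabolic induction: functions `f : H → W` with
`f (m n g) = σ(m) f(g)`, right invariant under an open subgroup of `H` -/
def IndSp (σ : Representation ℂ M W) : Submodule ℂ (H → W) where
  carrier := {f | (∀ (m : G) (hm : m ∈ M) (n : G) (hn : n ∈ D.N) (g : H),
      f (⟨m, D.hM hm⟩ * ⟨n, D.hN hn⟩ * g) = σ ⟨m, hm⟩ (f g)) ∧
    ∃ U : Subgroup H, IsOpen (U : Set H) ∧ ∀ (g : H), ∀ u ∈ U, f (g * u) = f g}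
  add_mem' := by
    rintro a b ⟨ha, Ua, hUa, ha'⟩ ⟨hb, Ub, hUb, hb'⟩
    refine ⟨fun m hm n hn g => ?_, Ua ⊓ Ub, hUa.inter hUb, fun g u hu => ?_⟩
    · show a _ + b _ = σ _ (a g + b g)
      rw [ha m hm n hn g, hb m hm n hn g, map_add]
    · simp [ha' g u hu.1, hb' g u hu.2]
  zero_mem' := ⟨fun m hm n hn g => by simp, ⊤, isOpen_univ, fun g u _ => rfl⟩
  smul_mem' := by
    rintro c a ⟨ha, Ua, hUa, ha'⟩
    refine ⟨fun m hm n hn g => ?_, Ua, hUa, fun g u hu => ?_⟩
    · show c • a _ = σ _ (c • a g)
      rw [ha m hm n hn g, map_smul]
    · simp [ha' g u hu]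

/-- (unnormalized) parabolic induction; the group acts by right translation -/
def Ind [IsTopologicalGroup G] (σ : Representation ℂ M W) :
    Representation ℂ H (D.IndSp σ) where
  toFun g :=
    { toFun := fun f => ⟨fun x => f.1 (x * g), by
        obtain ⟨h1, U, hU, h2⟩ := f.2
        refine ⟨fun m hm n hn x => ?_, U.map (MulAut.conj g).toMonoidHom, ?_, ?_⟩
        · have := h1 m hm n hn (x * g)
          rw [← mul_assoc] at this
          exact this
        · have : ((U.map (MulAut.conj g).toMonoidHom : Subgroup H) : Set H) =
              (fun x => g⁻¹ * x * g) ⁻¹' (U : Set H) := by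
            ext x
            simp only [Subgroup.coe_map, Set.mem_image, Set.mem_preimage, SetLike.mem_coe]
            constructor
            · rintro ⟨y, hy, rfl⟩
              simpa [MulAut.conj_apply, mul_assoc] using hy
            · intro hx
              exact ⟨_, hx, by simp [MulAut.conj_apply, mul_assoc]⟩
          rw [this]
          exact hU.preimage (by fun_prop)
        · rintro x u ⟨y, hy, rfl⟩
          have := h2 (x * g) y hy
          simp only [MulEquiv.coe_toMonoidHom, MulAut.conj_apply, Subgroup.coe_mul] at *
          rw [← this]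
          congr 1
          group⟩
      map_add' := fun a b => rfl
      map_smul' := fun c a => rfl }
  map_one' := by
    refine LinearMap.ext fun f => Subtype.ext (funext fun x => ?_)
    simp
  map_mul' := by
    intro a b
    refine LinearMap.ext fun f => Subtype.ext (funext fun x => ?_)
    simp [mul_assoc]

end PD

end

end Pool.Agent.Lib.MP_ca1492_al.P
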