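import Mathlib
import Pool.Agent.Lib.MP_ca1492_al.P.Base

/-!
# MP_ca1492_al, p-adic side, module Avg: averages over compact subgroups

`avg π K v` is the mean value of the orbit `K v`. Proofs:

* `avg_sum`: `K ∩ U` is open in the compact group `K`, so it has finite index; let `s` be a set of
  representatives (`K = ⋃ k (K ∩ U)`, disjoint). For `v` fixed by `U` the map `s → orb π K v`,
  `k ↦ π k v`, is onto and all its fibres have the same cardinality `[Stab_K(v) : K ∩ U]`
  (the stabilizer of `v` in `K` contains `K ∩ U`; the fibre over `w = π k₀ v` is the set of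
  representatives in `k₀ Stab_K(v)`), hence the mean over `s` is the mean over the orbit.
* everything else follows from `avg_sum` applied to a common open subgroup `U` (for smooth `π`
  and finitely many vectors `v_i` take for `U` an open subgroup in all the stabilizers; the
  stabilizer `{g | π g v = v}` is itself a subgroup and it is open).
-/

set_option autoImplicit false

namespace Pool.Agent.Lib.MP_ca1492_al.P

open Topology

noncomputable section

variable {G : Type} [Group G] [TopologicalSpace G] [IsTopologicalGroup G]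
variable {V W : Type} [AddCommGroup V] [Module ℂ V] [AddCommGroup W] [Module ℂ W]

/-- the stabilizer of a vector -/
def stabV (π : Representation ℂ G V) (v : V) : Subgroup G where
  carrier := {g | π g v = v}
  mul_mem' := by
    intro a b ha hb
    simp only [Set.mem_setOf_eq, map_mul, Module.End.mul_apply] at *
    rw [hb, ha]
  one_mem' := by simp
  inv_mem' := by
    intro g hg
    simp only [Set.mem_setOf_eq] at *
    calc π g⁻¹ v = π g⁻¹ (π g v) := by rw [hg]
      _ = v := by
        rw [← Module.End.mul_apply, ← map_mul]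
        simp

/-- the average depends only on the orbit -/
theorem Avg_congr (π : Representation ℂ G V) (K K' : Subgroup G) (v w : V)
    (h : orb π K v = orb π K' w) : avg π K v = avg π K' w := by
  unfold avg
  rw [h]

theorem Avg_orb_of_mem (π : Representation ℂ G V) (K : Subgroup G) (k : G) (hk : k ∈ K)
    (v : V) : orb π K (π k v) = orb π K v := by
  ext w
  constructor
  · rintro ⟨x, hx, rfl⟩
    exact ⟨x * k, K.mul_mem hx hk, by rw [map_mul, Module.End.mul_apply]⟩
  · rintro ⟨x, hx, rfl⟩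
    refine ⟨x * k⁻¹, K.mul_mem hx (K.inv_mem hk), ?_⟩
    rw [← Module.End.mul_apply, ← map_mul, inv_mul_cancel_right]

/-- the mean value over a finite homogeneous set -/
theorem Avg_mean {K Q : Type} [Group K] [MulAction K Q] [Fintype Q] [MulAction.IsPretransitive K Q]
    [Nonempty Q] {V : Type} [AddCommGroup V] [Module ℂ V] (π : Representation ℂ K V) (F : Q → V)
    (hF : ∀ (k : K) (q : Q), F (k • q) = π k (F q)) :
    ((Nat.card (Set.range F) : ℂ))⁻¹ • ∑ᶠ w ∈ Set.range F, w =
      ((Fintype.card Q : ℂ))⁻¹ • ∑ q, F q := by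
  classical
  set O : Finset V := Finset.univ.image F with hO
  have hOr : (O : Set V) = Set.range F := by
    rw [hO, Finset.coe_image, Finset.coe_univ, Set.image_univ]
  obtain ⟨q₀⟩ := ‹Nonempty Q›
  set m : ℕ := (Finset.univ.filter (fun q => F q = F q₀)).card with hm
  have hm0 : m ≠ 0 := by
    rw [hm]
    apply Finset.card_ne_zero_of_mem (a := q₀)
    simp
  have hle : ∀ q₁ q₂ : Q, (Finset.univ.filter (fun q => F q = F q₁)).card ≤
      (Finset.univ.filter (fun q => F q = F q₂)).card := by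
    intro q₁ q₂
    obtain ⟨k, hk⟩ := MulAction.exists_smul_eq K q₁ q₂
    refine Finset.card_le_card_of_injOn (fun q => k • q) ?_ ?_
    · intro q hq
      have hq' : F q = F q₁ := by simpa using hq
      have : F (k • q) = F q₂ := by rw [hF, hq', ← hF, hk]
      simpa using this
    · intro a _ b _ hab
      exact MulAction.injective k hab
  have hcount : ∀ w ∈ O, (Finset.univ.filter (fun q => F q = w)).card = m := by
    intro w hw
    rw [hO, Finset.mem_image] at hw
    obtain ⟨q, _, rfl⟩ := hw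
    exact le_antisymm (hle q q₀) (hle q₀ q)
  have hsum : ∑ q, F q = (m : ℂ) • ∑ w ∈ O, w := by
    have h1 := Finset.sum_comp (s := (Finset.univ : Finset Q)) (fun w : V => w) F
    rw [h1, Finset.smul_sum]
    apply Finset.sum_congr rfl
    intro w hw
    rw [hcount w hw, Nat.cast_smul_eq_nsmul]
  have hcard : Fintype.card Q = O.card * m := by
    rw [← Finset.card_univ, Finset.card_eq_sum_card_image F Finset.univ]
    rw [Finset.sum_congr rfl (fun w hw => hcount w hw), Finset.sum_const, smul_eq_mul]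
  have hcardO : Nat.card (Set.range F) = O.card := by
    rw [← hOr]
    simp
  have hfin : ∑ᶠ w ∈ Set.range F, w = ∑ w ∈ O, w := by
    rw [← hOr, finsum_mem_coe_finset]
  rw [hcardO, hfin, hsum, hcard, Nat.cast_mul, smul_smul, mul_inv, mul_assoc,
    inv_mul_cancel₀ (Nat.cast_ne_zero.2 hm0), mul_one]

theorem avg_sum (K : Subgroup G) (hK : IsCompact (K : Set G)) (U : Subgroup G)
    (hU : IsOpen (U : Set G)) :
    ∃ s : Finset G, s.Nonempty ∧ (∀ k ∈ s, k ∈ K) ∧
      (∀ k ∈ K, ∃! x, x ∈ s ∧ x⁻¹ * k ∈ U) ∧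
      ∀ (V : Type) [AddCommGroup V] [Module ℂ V] (π : Representation ℂ G V) (v : V),
        v ∈ fix π U → avg π K v = ((s.card : ℂ))⁻¹ • ∑ k ∈ s, π k v := by
  classical
  haveI : CompactSpace K := isCompact_iff_compactSpace.1 hK
  have hUo : IsOpen ((U.subgroupOf K : Subgroup K) : Set K) := hU.preimage continuous_subtype_val
  haveI : Finite (K ⧸ U.subgroupOf K) := Subgroup.quotient_finite_of_isOpen _ hUo
  letI : Fintype (K ⧸ U.subgroupOf K) := Fintype.ofFinite _
  have hinj : Function.Injective (fun q : K ⧸ U.subgroupOf K => ((q.out : K) : G)) := by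
    intro a b hab
    have h1 : (a.out : K) = b.out := Subtype.ext hab
    rw [← QuotientGroup.out_eq' a, ← QuotientGroup.out_eq' b, h1]
  refine ⟨Finset.univ.image (fun q : K ⧸ U.subgroupOf K => ((q.out : K) : G)), ?_, ?_, ?_, ?_⟩
  · exact Finset.univ_nonempty.image _
  · intro k hk
    rw [Finset.mem_image] at hk
    obtain ⟨q, _, rfl⟩ := hk
    exact (q.out : K).2
  · intro k hk
    have hspec : ∀ q : K ⧸ U.subgroupOf K, ((q.out : K) : G)⁻¹ * k ∈ U ↔
        q = ((⟨k, hk⟩ : K) : K ⧸ U.subgroupOf K) := by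
      intro q
      conv_rhs => rw [← QuotientGroup.out_eq' q]
      rw [QuotientGroup.eq, Subgroup.mem_subgroupOf]
      rfl
    refine ⟨(((((⟨k, hk⟩ : K) : K ⧸ U.subgroupOf K)).out : K) : G), ⟨?_, ?_⟩, ?_⟩
    · exact Finset.mem_image_of_mem _ (Finset.mem_univ _)
    · exact (hspec _).2 rfl
    · rintro y ⟨hy, hyU⟩
      rw [Finset.mem_image] at hy
      obtain ⟨q, _, rfl⟩ := hy
      have := (hspec q).1 hyU
      rw [this]
  · intro V _ _ π v hv
    have hFmk : ∀ k : K, π ((((k : K ⧸ U.subgroupOf K)).out : K) : G) v = π (k : G) v := by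
      intro k
      have h1 : ((((k : K ⧸ U.subgroupOf K)).out : K) : G)⁻¹ * (k : G) ∈ U := by
        have h2 : (((k : K ⧸ U.subgroupOf K).out : K) : K ⧸ U.subgroupOf K) = k :=
          QuotientGroup.out_eq' _
        rw [QuotientGroup.eq, Subgroup.mem_subgroupOf] at h2
        exact h2
      have h3 := hv _ h1
      calc π ((((k : K ⧸ U.subgroupOf K)).out : K) : G) v
          = π ((((k : K ⧸ U.subgroupOf K)).out : K) : G)
              (π (((((k : K ⧸ U.subgroupOf K)).out : K) : G)⁻¹ * (k : G)) v) := by rw [h3]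
        _ = π (k : G) v := by
          rw [← Module.End.mul_apply, ← map_mul, mul_inv_cancel_left]
    have hmean := Avg_mean (K := K) (Q := K ⧸ U.subgroupOf K) (π.comp K.subtype)
      (fun q => π ((q.out : K) : G) v) (by
        intro k q
        obtain ⟨x, rfl⟩ := QuotientGroup.mk_surjective q
        have h1 : k • ((x : K) : K ⧸ U.subgroupOf K) = ((k * x : K) : K ⧸ U.subgroupOf K) := rfl
        rw [h1, hFmk, hFmk]
        change π ((k : G) * (x : G)) v = π (k : G) (π (x : G) v)
        rw [map_mul, Module.End.mul_apply])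
    have hrange : Set.range (fun q : K ⧸ U.subgroupOf K => π ((q.out : K) : G) v) =
        orb π K v := by
      ext w
      constructor
      · rintro ⟨q, rfl⟩
        exact ⟨((q.out : K) : G), (q.out : K).2, rfl⟩
      · rintro ⟨k, hk, rfl⟩
        exact ⟨((⟨k, hk⟩ : K) : K ⧸ U.subgroupOf K), hFmk ⟨k, hk⟩⟩
    rw [hrange] at hmean
    unfold avg
    rw [hmean, Finset.sum_image (fun a _ b _ h => hinj h),
      Finset.card_image_of_injective _ hinj, Finset.card_univ]

/-- smooth vectors: every finite family of vectors is fixed by an open subgroup -/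
theorem exists_open_fix (π : Representation ℂ G V) (hπ : IsSm π) (s : Finset V) :
    ∃ U : Subgroup G, IsOpen (U : Set G) ∧ ∀ v ∈ s, v ∈ fix π U := by
  classical
  induction s using Finset.induction_on with
  | empty => exact ⟨⊤, isOpen_univ, by simp⟩
  | insert a s _ ih =>
    obtain ⟨U, hU, h⟩ := ih
    refine ⟨U ⊓ stabV π a, hU.inter (hπ a), ?_⟩
    intro v hv k hk
    rw [Finset.mem_insert] at hv
    rcases hv with rfl | hv
    · exact hk.2
    · exact h v hv k hk.1

theorem Avg_open_fix₂ (π : Representation ℂ G V) (hπ : IsSm π) (v w : V) :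
    ∃ U : Subgroup G, IsOpen (U : Set G) ∧ v ∈ fix π U ∧ w ∈ fix π U := by
  classical
  obtain ⟨U, hU, h⟩ := exists_open_fix π hπ {v, w}
  exact ⟨U, hU, h v (by simp), h w (by simp)⟩

theorem avg_add (π : Representation ℂ G V) (hπ : IsSm π) (K : Subgroup G)
    (hK : IsCompact (K : Set G)) (v w : V) :
    avg π K (v + w) = avg π K v + avg π K w := by
  obtain ⟨U, hU, hv, hw⟩ := Avg_open_fix₂ π hπ v w
  obtain ⟨s, -, -, -, hs⟩ := avg_sum K hK U hU
  rw [hs V π v hv, hs V π w hw, hs V π (v + w) (Submodule.add_mem _ hv hw), ← smul_add,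
    ← Finset.sum_add_distrib]
  simp only [map_add]

theorem avg_smul (π : Representation ℂ G V) (hπ : IsSm π) (K : Subgroup G)
    (hK : IsCompact (K : Set G)) (c : ℂ) (v : V) :
    avg π K (c • v) = c • avg π K v := by
  obtain ⟨U, hU, hv, -⟩ := Avg_open_fix₂ π hπ v v
  obtain ⟨s, -, -, -, hs⟩ := avg_sum K hK U hU
  rw [hs V π v hv, hs V π (c • v) (Submodule.smul_mem _ c hv)]
  simp only [map_smul]
  rw [← Finset.smul_sum, smul_comm]

/-- the average as a linear map -/
def avgL (π : Representation ℂ G V) (hπ : IsSm π) (K : Subgroup G)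
    (hK : IsCompact (K : Set G)) : V →ₗ[ℂ] V where
  toFun v := avg π K v
  map_add' := avg_add π hπ K hK
  map_smul' := avg_smul π hπ K hK

theorem avg_of_mem_fix (π : Representation ℂ G V) (K : Subgroup G) (v : V) (hv : v ∈ fix π K) :
    avg π K v = v := by
  have h : orb π K v = {v} := by
    ext w
    constructor
    · rintro ⟨k, hk, rfl⟩
      exact hv k hk
    · rintro rfl
      exact ⟨1, K.one_mem, by simp⟩
  unfold avg
  rw [h]
  simp

/-- averages of an element of `K v` -/
theorem avg_apply_of_mem (π : Representation ℂ G V) (K : Subgroup G) (k : G) (hk : k ∈ K)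
    (v : V) : avg π K (π k v) = avg π K v :=
  Avg_congr π K K _ _ (Avg_orb_of_mem π K k hk v)

/-- equivariance for `K` is enough -/
theorem avg_equi_of_mem (π : Representation ℂ G V) (σ : Representation ℂ G W) (hπ : IsSm π)
    (hσ : IsSm σ) (K : Subgroup G) (hK : IsCompact (K : Set G)) (f : V →ₗ[ℂ] W)
    (hf : ∀ k ∈ K, ∀ v, f (π k v) = σ k (f v)) (v : V) : f (avg π K v) = avg σ K (f v) := by
  obtain ⟨U, hU, hv, -⟩ := Avg_open_fix₂ π hπ v v
  obtain ⟨U', hU', hv', -⟩ := Avg_open_fix₂ σ hσ (f v) (f v)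
  obtain ⟨s, -, hsK, -, hs⟩ := avg_sum K hK (U ⊓ U') (hU.inter hU')
  rw [hs V π v (fun k hk => hv k hk.1), hs W σ (f v) (fun k hk => hv' k hk.2), map_smul, map_sum]
  congr 1
  exact Finset.sum_congr rfl fun k hk => hf k (hsK k hk) v

theorem avg_equi (π : Representation ℂ G V) (σ : Representation ℂ G W) (hπ : IsSm π)
    (hσ : IsSm σ) (K : Subgroup G) (hK : IsCompact (K : Set G)) (f : V →ₗ[ℂ] W)
    (hf : Equi π σ f) (v : V) : f (avg π K v) = avg σ K (f v) :=
  avg_equi_of_mem π σ hπ hσ K hK f (fun k _ v => hf k v) v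

theorem Avg_orb_finite (π : Representation ℂ G V) (hπ : IsSm π) (K : Subgroup G)
    (hK : IsCompact (K : Set G)) (v : V) : (orb π K v).Finite := by
  classical
  obtain ⟨U, hU, hv, -⟩ := Avg_open_fix₂ π hπ v v
  obtain ⟨s, -, hsK, hex, -⟩ := avg_sum K hK U hU
  refine (s.image (fun k => π k v)).finite_toSet.subset ?_
  rintro w ⟨k, hk, rfl⟩
  obtain ⟨x, ⟨hx, hxU⟩, -⟩ := hex k hk
  rw [Finset.coe_image]
  refine ⟨x, hx, ?_⟩
  have h3 := hv _ hxU
  calc π x v = π x (π (x⁻¹ * k) v) := by rw [h3]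
    _ = π k v := by rw [← Module.End.mul_apply, ← map_mul, mul_inv_cancel_left]

theorem avg_conj (π : Representation ℂ G V) (hπ : IsSm π) (K : Subgroup G)
    (hK : IsCompact (K : Set G)) (g : G) (v : V) :
    π g (avg π K v) = avg π (K.map (MulAut.conj g).toMonoidHom) (π g v) := by
  have hinj : Function.Injective (π g) := by
    intro a b hab
    have h1 := congrArg (π g⁻¹) hab
    rw [← Module.End.mul_apply, ← Module.End.mul_apply, ← map_mul, inv_mul_cancel, map_one] at h1
    simpa using h1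
  have horb : orb π (K.map (MulAut.conj g).toMonoidHom) (π g v) = (π g) '' orb π K v := by
    ext w
    constructor
    · rintro ⟨x, ⟨k, hk, rfl⟩, rfl⟩
      refine ⟨π k v, ⟨k, hk, rfl⟩, ?_⟩
      rw [← Module.End.mul_apply, ← Module.End.mul_apply, ← map_mul, ← map_mul]
      simp [MulAut.conj_apply]
    · rintro ⟨_, ⟨k, hk, rfl⟩, rfl⟩
      refine ⟨g * k * g⁻¹, ⟨k, hk, by simp [MulAut.conj_apply]⟩, ?_⟩
      rw [← Module.End.mul_apply, ← Module.End.mul_apply, ← map_mul, ← map_mul]
      simp
  unfold avg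
  rw [horb, map_smul, finsum_mem_image hinj.injOn]
  have hc : Nat.card ((π g) '' orb π K v) = Nat.card (orb π K v) :=
    Nat.card_image_of_injective hinj _
  rw [hc]
  congr 1
  exact AddMonoidHom.map_finsum_mem (fun w : V => w) ((π g : V →ₗ[ℂ] V) : V →+ V)
    (Avg_orb_finite π hπ K hK v)

theorem avg_mem_fix (π : Representation ℂ G V) (hπ : IsSm π) (K : Subgroup G)
    (hK : IsCompact (K : Set G)) (v : V) : avg π K v ∈ fix π K := by
  intro k hk
  have hmap : K.map (MulAut.conj k).toMonoidHom = K := by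
    ext x
    constructor
    · rintro ⟨y, hy, rfl⟩
      exact K.mul_mem (K.mul_mem hk hy) (K.inv_mem hk)
    · intro hx
      refine ⟨k⁻¹ * x * k, K.mul_mem (K.mul_mem (K.inv_mem hk) hx) hk, ?_⟩
      simp [MulAut.conj_apply, mul_assoc]
  rw [avg_conj π hπ K hK k v, hmap, avg_apply_of_mem π K k hk v]

theorem avg_mono (π : Representation ℂ G V) (hπ : IsSm π) (K K' : Subgroup G)
    (hK : IsCompact (K : Set G)) (hK' : IsCompact (K' : Set G)) (h : K ≤ K') (v : V) :
    avg π K' (avg π K v) = avg π K' v := by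
  obtain ⟨U, hU, hv, -⟩ := Avg_open_fix₂ π hπ v v
  obtain ⟨s, hne, hsK, -, hs⟩ := avg_sum K hK U hU
  have h1 : avg π K' (avg π K v) = avgL π hπ K' hK' (avg π K v) := rfl
  have h2 : ∀ k ∈ s, avgL π hπ K' hK' (π k v) = avg π K' v := fun k hk =>
    avg_apply_of_mem π K' k (h (hsK k hk)) v
  have hc : (s.card : ℂ) ≠ 0 := Nat.cast_ne_zero.2 (Finset.card_ne_zero.2 hne)
  rw [h1, hs V π v hv, map_smul, map_sum, Finset.sum_congr rfl h2, Finset.sum_const,
    ← Nat.cast_smul_eq_nsmul ℂ, smul_smul, inv_mul_cancel₀ hc, one_smul]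

/-- `v - avg v` is in the span of the `π k w - w` -/
theorem sub_avg_mem_span (π : Representation ℂ G V) (hπ : IsSm π) (K : Subgroup G)
    (hK : IsCompact (K : Set G)) (v : V) :
    avg π K v - v ∈ Submodule.span ℂ {x | ∃ k ∈ K, ∃ w : V, x = π k w - w} := by
  obtain ⟨U, hU, hv, -⟩ := Avg_open_fix₂ π hπ v v
  obtain ⟨s, hne, hsK, -, hs⟩ := avg_sum K hK U hU
  have hc : (s.card : ℂ) ≠ 0 := Nat.cast_ne_zero.2 (Finset.card_ne_zero.2 hne)
  have h1 : avg π K v - v = ((s.card : ℂ))⁻¹ • ∑ k ∈ s, (π k v - v) := by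
    rw [Finset.sum_sub_distrib, Finset.sum_const, smul_sub, hs V π v hv,
      ← Nat.cast_smul_eq_nsmul ℂ, smul_smul, inv_mul_cancel₀ hc, one_smul]
  rw [h1]
  refine Submodule.smul_mem _ _ (Submodule.sum_mem _ fun k hk => Submodule.subset_span ?_)
  exact ⟨k, hsK k hk, v, rfl⟩

/-- product of commuting compact groups: if `K = K₁ K₂` as sets, all compact, then the average over
`K` is the composition of the averages -/
theorem avg_mul (π : Representation ℂ G V) (hπ : IsSm π) (K K₁ K₂ : Subgroup G)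
    (hK : IsCompact (K : Set G)) (hK₁ : IsCompact (K₁ : Set G)) (hK₂ : IsCompact (K₂ : Set G))
    (h₁ : K₁ ≤ K) (h₂ : K₂ ≤ K) (h : ∀ k ∈ K, ∃ a ∈ K₁, ∃ b ∈ K₂, k = a * b) (v : V) :
    avg π K v = avg π K₁ (avg π K₂ v) := by
  rw [← avg_mono π hπ K₂ K hK₂ hK h₂ v]
  refine Avg_congr π K K₁ _ _ ?_
  ext w
  constructor
  · rintro ⟨k, hk, rfl⟩
    obtain ⟨a, ha, b, hb, rfl⟩ := h k hk
    refine ⟨a, ha, ?_⟩
    rw [map_mul, Module.End.mul_apply, avg_mem_fix π hπ K₂ hK₂ v b hb]
  · rintro ⟨a, ha, rfl⟩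
    exact ⟨a, h₁ ha, rfl⟩

end

end Pool.Agent.Lib.MP_ca1492_al.P
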