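import Mathlib
import Pool.Agent.Lib.MP_ca1492_al.P.Avg

/-!
# MP_ca1492_al, p-adic side, module SmBasic: elementary properties of smooth representations

All proofs are elementary:
* `smooth_sub, smooth_quo, smooth_res, smooth_twist`: stabilizers only grow (for the quotient the
  stabilizer of the class of `v` is a subgroup containing the open subgroup `stabV π v`, and a
  subgroup containing an open subgroup is open, `Subgroup.isOpen_mono`).
* `fix_surj`: take any preimage `v₀` of `w` and average it over `K` (`avg_equi`,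
  `avg_of_mem_fix`, `avg_mem_fix`).
* `fix_iSup`: `v` is fixed by the open subgroup `stabV π v`.
* `irr_equi`: kernel and image of an equivariant map are stable.
* `fg_of_irr`: a nonzero vector generates.
* `exists_irr_quo` (Zorn): let `s` be a finite set of generators. The set of stable subspaces
  `U ≠ ⊤` is closed under unions of nonempty chains (if the union is everything then it contains
  the finite set `s`, so some member of the chain contains `s`), and contains `⊥` as `V ≠ 0`.
  For a maximal one `U` the quotient `V / U` is irreducible.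
-/

set_option autoImplicit false

namespace Pool.Agent.Lib.MP_ca1492_al.P

open Topology

noncomputable section

variable {G : Type} [Group G] [TopologicalSpace G] [IsTopologicalGroup G]
variable {V W : Type} [AddCommGroup V] [Module ℂ V] [AddCommGroup W] [Module ℂ W]

theorem SmBasic_isOpen (π : Representation ℂ G V) (v : V) (U : Subgroup G)
    (hU : IsOpen (U : Set G)) (h : ∀ g ∈ U, π g v = v) : IsOpen {g : G | π g v = v} :=
  Subgroup.isOpen_mono (H₁ := U) (H₂ := stabV π v) (fun g hg => h g hg) hU

theorem isSm_iff (π : Representation ℂ G V) :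
    IsSm π ↔ ∀ v : V, ∃ U : Subgroup G, IsOpen (U : Set G) ∧ v ∈ fix π U := by
  constructor
  · intro h v
    exact ⟨stabV π v, h v, fun k hk => hk⟩
  · intro h v
    obtain ⟨U, hU, hv⟩ := h v
    exact SmBasic_isOpen π v U hU hv

theorem smooth_sub (π : Representation ℂ G V) (hπ : IsSm π) (U : Submodule ℂ V)
    (hU : Stab π U) : IsSm (subRep π U hU) := by
  intro v
  refine SmBasic_isOpen (subRep π U hU) v (stabV π v.1) (hπ v.1) ?_
  intro g hg
  exact Subtype.ext hg

theorem smooth_quo (π : Representation ℂ G V) (hπ : IsSm π) (U : Submodule ℂ V)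
    (hU : Stab π U) : IsSm (quoRep π U hU) := by
  intro w
  obtain ⟨v, rfl⟩ := U.mkQ_surjective w
  refine SmBasic_isOpen (quoRep π U hU) _ (stabV π v) (hπ v) ?_
  intro g hg
  have h1 : π g v = v := hg
  show U.mkQ (π g v) = U.mkQ v
  rw [h1]

theorem smooth_res (π : Representation ℂ G V) (hπ : IsSm π) (K : Subgroup G) :
    IsSm (res K π) := by
  intro v
  exact (hπ v).preimage continuous_subtype_val

theorem smooth_resLE {H M : Subgroup G} (h : M ≤ H) (π : Representation ℂ H V) (hπ : IsSm π) :
    IsSm (resLE h π) := by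
  intro v
  have hc : Continuous (Subgroup.inclusion h) :=
    Continuous.subtype_mk continuous_subtype_val _
  exact (hπ v).preimage hc

theorem smooth_twist (π : Representation ℂ G V) (hπ : IsSm π) (χ : G →* ℂˣ)
    (hχ : IsOpen {g : G | χ g = 1}) : IsSm (twist χ π) := by
  intro v
  refine SmBasic_isOpen (twist χ π) v (χ.ker ⊓ stabV π v) ?_ ?_
  · exact IsOpen.inter hχ (hπ v)
  · rintro g ⟨h1, h2⟩
    have h3 : χ g = 1 := h1
    have h4 : π g v = v := h2
    show ((χ g : ℂ) • π g) v = v
    rw [LinearMap.smul_apply, h3, h4]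
    simp

theorem smooth_of_inj (π : Representation ℂ G V) (σ : Representation ℂ G W) (hσ : IsSm σ)
    (f : V →ₗ[ℂ] W) (hf : Equi π σ f) (hi : Function.Injective f) : IsSm π := by
  intro v
  refine SmBasic_isOpen π v (stabV σ (f v)) (hσ (f v)) ?_
  intro g hg
  have h1 : σ g (f v) = f v := hg
  apply hi
  rw [hf g v, h1]

theorem smooth_of_surj (π : Representation ℂ G V) (σ : Representation ℂ G W) (hπ : IsSm π)
    (f : V →ₗ[ℂ] W) (hf : Equi π σ f) (hs : Function.Surjective f) : IsSm σ := by
  intro w
  obtain ⟨v, rfl⟩ := hs w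
  refine SmBasic_isOpen σ (f v) (stabV π v) (hπ v) ?_
  intro g hg
  have h1 : π g v = v := hg
  rw [← hf g v, h1]

/-- exactness of invariants of compact subgroups -/
theorem fix_surj (π : Representation ℂ G V) (σ : Representation ℂ G W) (hπ : IsSm π)
    (hσ : IsSm σ) (K : Subgroup G) (hK : IsCompact (K : Set G)) (f : V →ₗ[ℂ] W)
    (hf : Equi π σ f) (hs : Function.Surjective f) (w : W) (hw : w ∈ fix σ K) :
    ∃ v ∈ fix π K, f v = w := by
  obtain ⟨v, rfl⟩ := hs w
  refine ⟨avg π K v, avg_mem_fix π hπ K hK v, ?_⟩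
  rw [avg_equi π σ hπ hσ K hK f hf v, avg_of_mem_fix σ K (f v) hw]

theorem ker_stab (π : Representation ℂ G V) (σ : Representation ℂ G W) (f : V →ₗ[ℂ] W)
    (hf : Equi π σ f) : Stab π (LinearMap.ker f) := by
  intro g v hv
  rw [LinearMap.mem_ker] at hv ⊢
  rw [hf g v, hv, map_zero]

theorem range_stab (π : Representation ℂ G V) (σ : Representation ℂ G W) (f : V →ₗ[ℂ] W)
    (hf : Equi π σ f) : Stab σ (LinearMap.range f) := by
  rintro g _ ⟨v, rfl⟩
  exact ⟨π g v, hf g v⟩

/-- a nonzero equivariant map between irreducible representations is bijective -/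
theorem irr_equi (π : Representation ℂ G V) (σ : Representation ℂ G W) (f : V →ₗ[ℂ] W)
    (hf : Equi π σ f) (hπ : Irr π) (hσ : Irr σ) (h0 : f ≠ 0) : Function.Bijective f := by
  constructor
  · rw [← LinearMap.ker_eq_bot]
    rcases hπ.2 _ (ker_stab π σ f hf) with h | h
    · exact h
    · exact absurd (LinearMap.ker_eq_top.1 h) h0
  · rw [← LinearMap.range_eq_top]
    rcases hσ.2 _ (range_stab π σ f hf) with h | h
    · exact absurd (LinearMap.range_eq_bot.1 h) h0
    · exact h

theorem fg_of_irr (π : Representation ℂ G V) (hπ : Irr π) : Fg π := by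
  obtain ⟨⟨v, hv⟩, hU⟩ := hπ
  refine ⟨{v}, fun U hS hm => ?_⟩
  rcases hU U hS with h | h
  · exfalso
    apply hv
    have := hm v (Finset.mem_singleton_self v)
    rw [h] at this
    exact (Submodule.mem_bot ℂ).1 this
  · exact h

theorem exists_irr_quo (π : Representation ℂ G V) (hfg : Fg π) (h0 : ∃ v : V, v ≠ 0) :
    ∃ (U : Submodule ℂ V) (hU : Stab π U), Irr (quoRep π U hU) := by
  obtain ⟨s, hs⟩ := hfg
  obtain ⟨v₀, hv₀⟩ := h0
  let S : Set (Submodule ℂ V) := {U | Stab π U ∧ U ≠ ⊤}
  have hbot : (⊥ : Submodule ℂ V) ∈ S := by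
    refine ⟨?_, ?_⟩
    · intro g v hv
      rw [Submodule.mem_bot] at hv ⊢
      rw [hv, map_zero]
    · intro h
      apply hv₀
      have : v₀ ∈ (⊤ : Submodule ℂ V) := Submodule.mem_top
      rw [← h] at this
      exact (Submodule.mem_bot ℂ).1 this
  have hz := zorn_le_nonempty₀ S (by
    intro c hc hch y hy
    have hne : c.Nonempty := ⟨y, hy⟩
    have hdir : DirectedOn (· ≤ ·) c := hch.directedOn
    refine ⟨sSup c, ⟨?_, ?_⟩, fun z hz => le_sSup hz⟩
    · intro g v hv
      obtain ⟨z, hz, hvz⟩ := (Submodule.mem_sSup_of_directed hne hdir).1 hv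
      exact (le_sSup hz : z ≤ sSup c) ((hc hz).1 g v hvz)
    · intro htop
      have hfin : ∀ t : Finset V, ∃ z ∈ c, ∀ v ∈ t, v ∈ z := by
        classical
        intro t
        induction t using Finset.induction_on with
        | empty => exact ⟨y, hy, fun v hv => absurd hv (Finset.notMem_empty v)⟩
        | insert a t _ ih =>
          obtain ⟨z, hz, hzt⟩ := ih
          have ha : a ∈ sSup c := by
            rw [htop]
            exact Submodule.mem_top
          obtain ⟨z', hz', haz'⟩ := (Submodule.mem_sSup_of_directed hne hdir).1 ha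
          obtain ⟨z'', hz'', h1, h2⟩ := hdir z hz z' hz'
          refine ⟨z'', hz'', fun v hv => ?_⟩
          rcases Finset.mem_insert.1 hv with rfl | hv
          · exact h2 haz'
          · exact h1 (hzt v hv)
      obtain ⟨z, hz, hzs⟩ := hfin s
      exact (hc hz).2 (hs z (hc hz).1 hzs)) ⊥ hbot
  obtain ⟨U, -, hUmax⟩ := hz
  obtain ⟨hUS, hUt⟩ : Stab π U ∧ U ≠ ⊤ := hUmax.prop
  refine ⟨U, hUS, ?_, ?_⟩
  · by_contra hcon
    push Not at hcon
    apply hUt
    rw [eq_top_iff]
    intro v _
    exact (Submodule.Quotient.mk_eq_zero U).1 (hcon (U.mkQ v))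
  · intro W' hW'
    have hst : Stab π (W'.comap U.mkQ) := by
      intro g v hv
      rw [Submodule.mem_comap] at hv ⊢
      exact hW' g _ hv
    have hUle : U ≤ W'.comap U.mkQ := by
      intro u hu
      rw [Submodule.mem_comap]
      have : U.mkQ u = 0 := (Submodule.Quotient.mk_eq_zero U).2 hu
      rw [this]
      exact W'.zero_mem
    by_cases htop : W'.comap U.mkQ = ⊤
    · right
      rw [eq_top_iff]
      intro w _
      obtain ⟨v, rfl⟩ := U.mkQ_surjective w
      have : v ∈ W'.comap U.mkQ := by
        rw [htop]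
        exact Submodule.mem_top
      exact this
    · left
      have hle : W'.comap U.mkQ ≤ U := hUmax.le_of_ge ⟨hst, htop⟩ hUle
      rw [eq_bot_iff]
      intro w hw
      obtain ⟨v, rfl⟩ := U.mkQ_surjective w
      have : v ∈ U := hle hw
      rw [Submodule.mem_bot]
      exact (Submodule.Quotient.mk_eq_zero U).2 this

/-- the stable subspace generated by a vector is finitely generated -/
theorem exists_fg_sub (π : Representation ℂ G V) (v : V) :
    ∃ (U : Submodule ℂ V) (hU : Stab π U), v ∈ U ∧ Fg (subRep π U hU) := by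
  have hU : Stab π (sInf {U : Submodule ℂ V | Stab π U ∧ v ∈ U}) := by
    intro g w hw
    rw [Submodule.mem_sInf] at hw ⊢
    intro U hU
    exact hU.1 g w (hw U hU)
  have hv : v ∈ sInf {U : Submodule ℂ V | Stab π U ∧ v ∈ U} := by
    rw [Submodule.mem_sInf]
    exact fun U hU => hU.2
  refine ⟨_, hU, hv, {⟨v, hv⟩}, ?_⟩
  intro W' hW' hm
  have hvW : (⟨v, hv⟩ : (sInf {U : Submodule ℂ V | Stab π U ∧ v ∈ U} : Submodule ℂ V)) ∈ W' :=
    hm _ (Finset.mem_singleton_self _)
  have hst : Stab π (W'.map (Submodule.subtype _)) := by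
    rintro g _ ⟨x, hx, rfl⟩
    exact ⟨_, hW' g x hx, rfl⟩
  have hle : sInf {U : Submodule ℂ V | Stab π U ∧ v ∈ U} ≤ W'.map (Submodule.subtype _) :=
    sInf_le ⟨hst, ⟨_, hvW, rfl⟩⟩
  rw [eq_top_iff]
  intro x _
  obtain ⟨y, hy, hyx⟩ := hle x.2
  have : y = x := Subtype.ext hyx
  rw [← this]
  exact hy

end

end Pool.Agent.Lib.MP_ca1492_al.P
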