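import Mathlib
import Pool.Agent.Lib.MP_ca1492_al.P.SmBasic

/-!
# MP_ca1492_al, p-adic side, module Jac: Jacquet modules, Frobenius reciprocity

`D : PD H M` a parabolic datum, `π` a smooth representation of `H`, `V(N) = D.kerJ π`.

* `mem_kerJ_iff` (Jacquet's lemma): if `x = Σ (π n_i v_i - v_i)`, the finite set `{n_i}` lies in a
  compact subgroup `K ≤ N` (`D.exh`), and `avg K` kills every `π n v - v` with `n ∈ K`
  (`avg_apply_of_mem`, linearity of `avgL`). Conversely if `avg K x = 0` then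
  `x = x - avg K x` is in the span of `π k w - w`, `k ∈ K ≤ N` (`sub_avg_mem_span`). Here `K` is
  compact in `G` and `K.subgroupOf H` is compact in `H` (`K ≤ H`; the inclusion `H → G` is an
  embedding and `K ⊆ H`).
* `kerJ_larger`: `avg K' x = avg K' (avg K x)` for `K ≤ K'` (`avg_mono`).
* `jac_inj` (exactness): if `f v ∈ W(N)` then `0 = avg K (f v) = f (avg K v)`, so `avg K v = 0`.
* `jac_exact`: if the class of `v` in `(V/U)(N)`..., i.e. `q v ∈ (V/U)(N)`: then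
  `v - Σ(π n_i v_i - v_i) ∈ U`.
* `jac_smooth`: quotient of the restriction to `M`.
-/

set_option autoImplicit false

namespace Pool.Agent.Lib.MP_ca1492_al.P

open Topology

noncomputable section

namespace PD

variable {G : Type} [Group G] [TopologicalSpace G] [IsTopologicalGroup G]
  {H M : Subgroup G} (D : PD H M)
variable {V W E : Type} [AddCommGroup V] [Module ℂ V] [AddCommGroup W] [Module ℂ W]
  [AddCommGroup E] [Module ℂ E]

theorem compact_subgroupOf {G : Type} [Group G] [TopologicalSpace G] {H : Subgroup G}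
    (K : Subgroup G) (hKH : K ≤ H) (hK : IsCompact (K : Set G)) :
    IsCompact ((K.subgroupOf H : Subgroup H) : Set H) := by
  rw [Topology.IsEmbedding.subtypeVal.isCompact_iff]
  have h : (Subtype.val '' ((K.subgroupOf H : Subgroup H) : Set H)) = (K : Set G) := by
    ext x
    simp only [Set.mem_image, SetLike.mem_coe, Subgroup.mem_subgroupOf]
    constructor
    · rintro ⟨y, hy, rfl⟩
      exact hy
    · intro hx
      exact ⟨⟨x, hKH hx⟩, hx, rfl⟩
  rw [h]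
  exact hK

include D in
theorem jac_directed (K₁ K₂ : Subgroup G) (h₁ : K₁ ≤ D.N) (h₂ : K₂ ≤ D.N)
    (hc₁ : IsCompact (K₁ : Set G)) (hc₂ : IsCompact (K₂ : Set G)) :
    ∃ K : Subgroup G, K ≤ D.N ∧ IsCompact (K : Set G) ∧ K₁ ≤ K ∧ K₂ ≤ K := by
  obtain ⟨K, hK, hc, hsub⟩ := D.exh ((K₁ : Set G) ∪ K₂) (hc₁.union hc₂)
    (Set.union_subset h₁ h₂)
  exact ⟨K, hK, hc, fun x hx => hsub (Or.inl hx), fun x hx => hsub (Or.inr hx)⟩

theorem jac_avg_zero (π : Representation ℂ H V) (K : Subgroup H) : avg π K (0 : V) = 0 :=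
  avg_of_mem_fix π K 0 (Submodule.zero_mem _)

theorem jac_avg_zero_of_le (π : Representation ℂ H V) (hπ : IsSm π) (x : V)
    (K K' : Subgroup G)
    (hK : K ≤ D.N) (hK' : K' ≤ D.N) (hc : IsCompact (K : Set G)) (hc' : IsCompact (K' : Set G))
    (h : K ≤ K') (h0 : avg π (K.subgroupOf H) x = 0) : avg π (K'.subgroupOf H) x = 0 := by
  have h1 := avg_mono π hπ (K.subgroupOf H) (K'.subgroupOf H)
    (compact_subgroupOf K (hK.trans D.hN) hc) (compact_subgroupOf K' (hK'.trans D.hN) hc')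
    (fun y hy => h hy) x
  rw [← h1, h0, jac_avg_zero]

theorem mem_kerJ_iff (π : Representation ℂ H V) (hπ : IsSm π) (x : V) :
    x ∈ D.kerJ π ↔ ∃ K : Subgroup G, K ≤ D.N ∧ IsCompact (K : Set G) ∧
      avg π (K.subgroupOf H) x = 0 := by
  constructor
  · intro hx
    refine Submodule.span_induction (p := fun x _ => ∃ K : Subgroup G, K ≤ D.N ∧
      IsCompact (K : Set G) ∧ avg π (K.subgroupOf H) x = 0) ?_ ?_ ?_ ?_ hx
    · rintro y ⟨n, hn, v, rfl⟩
      obtain ⟨K, hK, hc, hsub⟩ := D.exh {n} isCompact_singleton (by simpa using hn)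
      refine ⟨K, hK, hc, ?_⟩
      have hcH := compact_subgroupOf K (hK.trans D.hN) hc
      have h1 := (avgL π hπ (K.subgroupOf H) hcH).map_sub (π ⟨n, D.hN hn⟩ v) v
      have h2 := avg_apply_of_mem π (K.subgroupOf H) ⟨n, D.hN hn⟩
        (show (⟨n, D.hN hn⟩ : H) ∈ K.subgroupOf H from hsub rfl) v
      change avg π (K.subgroupOf H) _ = avg π (K.subgroupOf H) _ - avg π (K.subgroupOf H) _ at h1
      rw [h1, h2, sub_self]
    · obtain ⟨K, hK, hc, hsub⟩ := D.exh ∅ isCompact_empty (Set.empty_subset _)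
      exact ⟨K, hK, hc, jac_avg_zero π _⟩
    · rintro a b _ _ ⟨K₁, hK₁, hc₁, h₁⟩ ⟨K₂, hK₂, hc₂, h₂⟩
      obtain ⟨K, hK, hc, hle₁, hle₂⟩ := D.jac_directed K₁ K₂ hK₁ hK₂ hc₁ hc₂
      refine ⟨K, hK, hc, ?_⟩
      have hcH := compact_subgroupOf K (hK.trans D.hN) hc
      rw [avg_add π hπ _ hcH, D.jac_avg_zero_of_le π hπ a K₁ K hK₁ hK hc₁ hc hle₁ h₁,
        D.jac_avg_zero_of_le π hπ b K₂ K hK₂ hK hc₂ hc hle₂ h₂, add_zero]
    · rintro c a _ ⟨K, hK, hc, h⟩
      refine ⟨K, hK, hc, ?_⟩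
      have hcH := compact_subgroupOf K (hK.trans D.hN) hc
      rw [avg_smul π hπ _ hcH, h, smul_zero]
  · rintro ⟨K, hK, hc, h⟩
    have hcH := compact_subgroupOf K (hK.trans D.hN) hc
    have h1 := sub_avg_mem_span π hπ (K.subgroupOf H) hcH x
    have h2 : Submodule.span ℂ {x | ∃ k ∈ K.subgroupOf H, ∃ w : V, x = π k w - w} ≤ D.kerJ π := by
      rw [Submodule.span_le]
      rintro y ⟨k, hk, w, rfl⟩
      exact Submodule.subset_span ⟨k.1, hK hk, w, rfl⟩
    have h3 := h2 h1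
    rw [h, zero_sub] at h3
    exact (Submodule.neg_mem_iff _).1 h3

/-- compact subgroups of `N` are directed -/
theorem compact_directed (K₁ K₂ : Subgroup G) (h₁ : K₁ ≤ D.N) (h₂ : K₂ ≤ D.N)
    (hc₁ : IsCompact (K₁ : Set G)) (hc₂ : IsCompact (K₂ : Set G)) :
    ∃ K : Subgroup G, K ≤ D.N ∧ IsCompact (K : Set G) ∧ K₁ ≤ K ∧ K₂ ≤ K :=
  D.jac_directed K₁ K₂ h₁ h₂ hc₁ hc₂

theorem avg_zero_of_le (π : Representation ℂ H V) (hπ : IsSm π) (x : V) (K K' : Subgroup G)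
    (hK : K ≤ D.N) (hK' : K' ≤ D.N) (hc : IsCompact (K : Set G)) (hc' : IsCompact (K' : Set G))
    (h : K ≤ K') (h0 : avg π (K.subgroupOf H) x = 0) : avg π (K'.subgroupOf H) x = 0 :=
  D.jac_avg_zero_of_le π hπ x K K' hK hK' hc hc' h h0

/-- finitely many elements of `V(N)` are killed by one compact subgroup -/
theorem kerJ_finset (π : Representation ℂ H V) (hπ : IsSm π) (s : Finset V)
    (hs : ∀ x ∈ s, x ∈ D.kerJ π) :
    ∃ K : Subgroup G, K ≤ D.N ∧ IsCompact (K : Set G) ∧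
      ∀ x ∈ s, avg π (K.subgroupOf H) x = 0 := by
  classical
  revert hs
  refine Finset.induction_on s ?_ ?_
  · intro _
    obtain ⟨K, hK, hc, hsub⟩ := D.exh ∅ isCompact_empty (Set.empty_subset _)
    exact ⟨K, hK, hc, fun x hx => absurd hx (by simp)⟩
  · intro a t _ ih hs
    obtain ⟨K₁, hK₁, hc₁, h₁⟩ := ih (fun x hx => hs x (Finset.mem_insert_of_mem hx))
    obtain ⟨K₂, hK₂, hc₂, h₂⟩ := (D.mem_kerJ_iff π hπ a).1 (hs a (Finset.mem_insert_self _ _))
    obtain ⟨K, hK, hc, hle₁, hle₂⟩ := D.jac_directed K₁ K₂ hK₁ hK₂ hc₁ hc₂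
    refine ⟨K, hK, hc, fun x hx => ?_⟩
    rcases Finset.mem_insert.1 hx with rfl | hx
    · exact D.jac_avg_zero_of_le π hπ x K₂ K hK₂ hK hc₂ hc hle₂ h₂
    · exact D.jac_avg_zero_of_le π hπ x K₁ K hK₁ hK hc₁ hc hle₁ (h₁ x hx)

theorem kerJ_map (π : Representation ℂ H V) (σ : Representation ℂ H W) (f : V →ₗ[ℂ] W)
    (hf : Equi π σ f) : D.kerJ π ≤ (D.kerJ σ).comap f := by
  unfold kerJ
  rw [Submodule.span_le]
  rintro x ⟨n, hn, v, rfl⟩
  simp only [Submodule.comap_coe, Set.mem_preimage, SetLike.mem_coe]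
  rw [map_sub, hf]
  exact Submodule.subset_span ⟨n, hn, f v, rfl⟩

/-- the map induced on Jacquet modules -/
def JMap (π : Representation ℂ H V) (σ : Representation ℂ H W) (f : V →ₗ[ℂ] W)
    (hf : Equi π σ f) : (V ⧸ D.kerJ π) →ₗ[ℂ] (W ⧸ D.kerJ σ) :=
  (D.kerJ π).mapQ (D.kerJ σ) f (D.kerJ_map π σ f hf)

theorem jac_JMap_mk (π : Representation ℂ H V) (σ : Representation ℂ H W) (f : V →ₗ[ℂ] W)
    (hf : Equi π σ f) (v : V) :
    D.JMap π σ f hf (Submodule.Quotient.mk v) = Submodule.Quotient.mk (f v) := rfl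

theorem jac_Jac_mk (π : Representation ℂ H V) (m : M) (v : V) :
    D.Jac π m (Submodule.Quotient.mk v) =
      Submodule.Quotient.mk (π ⟨m.1, D.hM m.2⟩ v) := rfl

theorem JMap_equi (π : Representation ℂ H V) (σ : Representation ℂ H W) (f : V →ₗ[ℂ] W)
    (hf : Equi π σ f) : Equi (D.Jac π) (D.Jac σ) (D.JMap π σ f hf) := by
  intro m x
  obtain ⟨v, rfl⟩ := Submodule.Quotient.mk_surjective _ x
  rw [jac_JMap_mk, jac_Jac_mk, jac_Jac_mk, jac_JMap_mk, hf]

theorem jac_inj (π : Representation ℂ H V) (σ : Representation ℂ H W) (hπ : IsSm π)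
    (hσ : IsSm σ) (f : V →ₗ[ℂ] W) (hf : Equi π σ f) (hi : Function.Injective f) :
    Function.Injective (D.JMap π σ f hf) := by
  rw [injective_iff_map_eq_zero]
  intro x hx
  obtain ⟨v, rfl⟩ := Submodule.Quotient.mk_surjective _ x
  rw [jac_JMap_mk, Submodule.Quotient.mk_eq_zero] at hx
  rw [Submodule.Quotient.mk_eq_zero]
  obtain ⟨K, hK, hc, h⟩ := (D.mem_kerJ_iff σ hσ (f v)).1 hx
  refine (D.mem_kerJ_iff π hπ v).2 ⟨K, hK, hc, ?_⟩
  rw [← avg_equi π σ hπ hσ (K.subgroupOf H) (compact_subgroupOf K (hK.trans D.hN) hc) f hf] at h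
  exact hi (h.trans (map_zero f).symm)

theorem jac_surj (π : Representation ℂ H V) (σ : Representation ℂ H W)
    (f : V →ₗ[ℂ] W) (hf : Equi π σ f) (hs : Function.Surjective f) :
    Function.Surjective (D.JMap π σ f hf) := by
  intro y
  obtain ⟨w, rfl⟩ := Submodule.Quotient.mk_surjective _ y
  obtain ⟨v, rfl⟩ := hs w
  exact ⟨Submodule.Quotient.mk v, D.jac_JMap_mk π σ f hf v⟩

theorem jac_exact (π : Representation ℂ H V) (U : Submodule ℂ V) (hU : Stab π U) (x : V)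
    (hx : Submodule.Quotient.mk x ∈ D.kerJ (quoRep π U hU)) :
    ∃ u ∈ U, x - u ∈ D.kerJ π := by
  have h1 : D.kerJ (quoRep π U hU) ≤ (D.kerJ π).map U.mkQ := by
    conv_lhs => unfold kerJ
    rw [Submodule.span_le]
    rintro y ⟨n, hn, v, rfl⟩
    obtain ⟨w, rfl⟩ := Submodule.Quotient.mk_surjective _ v
    exact ⟨π ⟨n, D.hN hn⟩ w - w, Submodule.subset_span ⟨n, hn, w, rfl⟩, rfl⟩
  obtain ⟨y, hy, hyx⟩ := h1 hx
  refine ⟨x - y, ?_, ?_⟩
  · rw [Submodule.mkQ_apply, eq_comm, Submodule.Quotient.eq] at hyx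
    exact hyx
  · rw [sub_sub_cancel]
    exact hy

theorem jac_smooth (π : Representation ℂ H V) (hπ : IsSm π) : IsSm (D.Jac π) :=
  smooth_quo (resLE D.hM π) (smooth_resLE D.hM π hπ) (D.kerJ π) (D.kerJ_stab π)

end PD

end

end Pool.Agent.Lib.MP_ca1492_al.P
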