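import Mathlib
import Pool.Agent.Lib.MP_ca1492_al.P.Jac

/-!
# MP_ca1492_al, p-adic side, module Frob: Frobenius reciprocity, injectives

* `frob`: `Φ ↦ (v ↦ Φ(v)(1))`, inverse `φ ↦ (v ↦ (g ↦ φ [π g v]))`; the function
  `g ↦ φ [π g v]` is right invariant under the stabilizer of `v`.
* `ind_inj`: `U ≤ E` stable, `f : U → Ind σ` corresponds to `φ : J(U) → σ`; `J(U) → J(E)` is
  injective (`jac_inj`), so `J(U)` is a stable subspace of `J(E)` (its image), extend `φ` to
  `J(E) → σ` by injectivity of `σ`, and go back by Frobenius.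
* `ind_smooth`: `f` is fixed by the open subgroup of its definition.
-/

set_option autoImplicit false

namespace Pool.Agent.Lib.MP_ca1492_al.P

open Topology

noncomputable section

namespace PD

variable {G : Type} [Group G] [TopologicalSpace G] [IsTopologicalGroup G]
  {H M : Subgroup G} (D : PD H M)
variable {V W E : Type} [AddCommGroup V] [Module ℂ V] [AddCommGroup W] [Module ℂ W]
  [AddCommGroup E] [Module ℂ E]

theorem frob_Ind_apply (σ : Representation ℂ M W) (g x : H) (f : D.IndSp σ) :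
    (D.Ind σ g f).1 x = f.1 (x * g) := rfl

theorem ind_smooth (σ : Representation ℂ M W) : IsSm (D.Ind σ) := by
  rw [isSm_iff]
  intro f
  obtain ⟨_, U, hU, h2⟩ := f.2
  refine ⟨U, hU, fun u hu => ?_⟩
  refine Subtype.ext (funext fun x => ?_)
  rw [frob_Ind_apply]
  exact h2 x u hu

theorem frob_mk_apply (π : Representation ℂ H V) (n : G) (hn : n ∈ D.N) (w : V) :
    (Submodule.Quotient.mk (π ⟨n, D.hN hn⟩ w) : V ⧸ D.kerJ π) = Submodule.Quotient.mk w := by
  rw [Submodule.Quotient.eq]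
  exact Submodule.subset_span ⟨n, hn, w, rfl⟩

/-- Frobenius reciprocity, inverse direction: the function -/
def frobFun (π : Representation ℂ H V) (hπ : IsSm π) (σ : Representation ℂ M W)
    (φ : (V ⧸ D.kerJ π) →ₗ[ℂ] W) (hφ : Equi (D.Jac π) σ φ) : V →ₗ[ℂ] D.IndSp σ where
  toFun v := ⟨fun g => φ (Submodule.Quotient.mk (π g v)), by
    refine ⟨fun m hm n hn g => ?_, stabV π v, hπ v, fun g u hu => ?_⟩
    · show φ (Submodule.Quotient.mk (π (⟨m, D.hM hm⟩ * ⟨n, D.hN hn⟩ * g) v)) =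
        σ ⟨m, hm⟩ (φ (Submodule.Quotient.mk (π g v)))
      rw [map_mul, map_mul, Module.End.mul_apply, Module.End.mul_apply, ← hφ, jac_Jac_mk]
      have h := congrArg (D.Jac π ⟨m, hm⟩) (D.frob_mk_apply π n hn (π g v))
      rw [jac_Jac_mk, jac_Jac_mk] at h
      rw [h]
    · have h : π u v = v := hu
      show φ (Submodule.Quotient.mk (π (g * u) v)) = φ (Submodule.Quotient.mk (π g v))
      rw [map_mul, Module.End.mul_apply, h]⟩
  map_add' a b := Subtype.ext (funext fun g => by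
    show φ _ = φ _ + φ _
    rw [map_add, Submodule.Quotient.mk_add, map_add])
  map_smul' c a := Subtype.ext (funext fun g => by
    show φ _ = c • φ _
    rw [map_smul, Submodule.Quotient.mk_smul, map_smul])

theorem frobFun_apply (π : Representation ℂ H V) (hπ : IsSm π) (σ : Representation ℂ M W)
    (φ : (V ⧸ D.kerJ π) →ₗ[ℂ] W) (hφ : Equi (D.Jac π) σ φ) (v : V) (g : H) :
    (D.frobFun π hπ σ φ hφ v).1 g = φ (Submodule.Quotient.mk (π g v)) := rfl

theorem frobFun_equi (π : Representation ℂ H V) (hπ : IsSm π) (σ : Representation ℂ M W)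
    (φ : (V ⧸ D.kerJ π) →ₗ[ℂ] W) (hφ : Equi (D.Jac π) σ φ) :
    Equi π (D.Ind σ) (D.frobFun π hπ σ φ hφ) := by
  intro g v
  refine Subtype.ext (funext fun x => ?_)
  rw [frob_Ind_apply, frobFun_apply, frobFun_apply, map_mul, Module.End.mul_apply]

theorem frob_ker (π : Representation ℂ H V) (σ : Representation ℂ M W)
    (f : V →ₗ[ℂ] D.IndSp σ) (hf : Equi π (D.Ind σ) f) (x : V) (hx : x ∈ D.kerJ π) :
    (f x).1 1 = 0 := by
  refine Submodule.span_induction (p := fun x _ => (f x).1 1 = 0) ?_ ?_ ?_ ?_ hx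
  · rintro y ⟨n, hn, v, rfl⟩
    rw [map_sub, hf]
    have h1 : ((D.Ind σ ⟨n, D.hN hn⟩ (f v)).1 1) = (f v).1 1 := by
      rw [frob_Ind_apply]
      have h2 := (f v).2.1 1 M.one_mem n hn 1
      have h3 : σ ⟨1, M.one_mem⟩ = 1 := map_one σ
      rw [h3, Module.End.one_apply] at h2
      rw [← h2]
      exact congrArg (f v).1 (Subtype.ext (by simp))
    show (D.Ind σ ⟨n, D.hN hn⟩ (f v)).1 1 - (f v).1 1 = 0
    rw [h1, sub_self]
  · rw [map_zero]
    rfl
  · intro a b _ _ ha hb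
    rw [map_add]
    show (f a).1 1 + (f b).1 1 = 0
    rw [ha, hb, add_zero]
  · intro c a _ ha
    rw [map_smul]
    show c • (f a).1 1 = 0
    rw [ha, smul_zero]

/-- evaluation at `1` -/
def frobEv (σ : Representation ℂ M W) : D.IndSp σ →ₗ[ℂ] W where
  toFun f := f.1 1
  map_add' _ _ := rfl
  map_smul' _ _ := rfl

/-- Frobenius reciprocity: the map -/
def frobMap (π : Representation ℂ H V) (σ : Representation ℂ M W)
    (f : V →ₗ[ℂ] D.IndSp σ) (hf : Equi π (D.Ind σ) f) : (V ⧸ D.kerJ π) →ₗ[ℂ] W :=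
  (D.kerJ π).liftQ (D.frobEv σ ∘ₗ f) (fun x hx => D.frob_ker π σ f hf x hx)

theorem frobMap_mk (π : Representation ℂ H V) (σ : Representation ℂ M W)
    (f : V →ₗ[ℂ] D.IndSp σ) (hf : Equi π (D.Ind σ) f) (v : V) :
    D.frobMap π σ f hf (Submodule.Quotient.mk v) = (f v).1 1 := rfl

theorem frobMap_equi (π : Representation ℂ H V) (σ : Representation ℂ M W)
    (f : V →ₗ[ℂ] D.IndSp σ) (hf : Equi π (D.Ind σ) f) :
    Equi (D.Jac π) σ (D.frobMap π σ f hf) := by
  intro m x
  obtain ⟨v, rfl⟩ := Submodule.Quotient.mk_surjective _ x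
  rw [jac_Jac_mk, frobMap_mk, frobMap_mk, hf, frob_Ind_apply]
  have h2 := (f v).2.1 m.1 m.2 1 D.N.one_mem 1
  rw [show (⟨m.1, m.2⟩ : M) = m from rfl] at h2
  rw [← h2]
  exact congrArg (f v).1 (Subtype.ext (by simp))

theorem frob_apply (π : Representation ℂ H V) (σ : Representation ℂ M W)
    (f : V →ₗ[ℂ] D.IndSp σ) (hf : Equi π (D.Ind σ) f) (v : V) (g : H) :
    (f v).1 g = D.frobMap π σ f hf (Submodule.Quotient.mk (π g v)) := by
  rw [frobMap_mk, hf, frob_Ind_apply, one_mul]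

/-- Frobenius reciprocity -/
theorem frob (π : Representation ℂ H V) (hπ : IsSm π) (σ : Representation ℂ M W) :
    ∃ e : homG π (D.Ind σ) ≃ₗ[ℂ] homG (D.Jac π) σ,
      ∀ (f : homG π (D.Ind σ)) (v : V),
        (e f).1 (Submodule.Quotient.mk v) = (f.1 v).1 1 := by
  refine ⟨{ toFun := fun f => ⟨D.frobMap π σ f.1 f.2, D.frobMap_equi π σ f.1 f.2⟩
            map_add' := fun a b => ?_
            map_smul' := fun c a => ?_
            invFun := fun φ => ⟨D.frobFun π hπ σ φ.1 φ.2, D.frobFun_equi π hπ σ φ.1 φ.2⟩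
            left_inv := fun f => ?_
            right_inv := fun φ => ?_ }, fun f v => rfl⟩
  · refine Subtype.ext (LinearMap.ext fun x => ?_)
    obtain ⟨v, rfl⟩ := Submodule.Quotient.mk_surjective _ x
    rfl
  · refine Subtype.ext (LinearMap.ext fun x => ?_)
    obtain ⟨v, rfl⟩ := Submodule.Quotient.mk_surjective _ x
    rfl
  · refine Subtype.ext (LinearMap.ext fun v => Subtype.ext (funext fun g => ?_))
    exact (D.frob_apply π σ f.1 f.2 v g).symm
  · refine Subtype.ext (LinearMap.ext fun x => ?_)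
    obtain ⟨v, rfl⟩ := Submodule.Quotient.mk_surjective _ x
    show φ.1 (Submodule.Quotient.mk (π 1 v)) = φ.1 (Submodule.Quotient.mk v)
    rw [map_one, Module.End.one_apply]

/-- Frobenius reciprocity, inverse direction, explicit -/
theorem frob_inv (π : Representation ℂ H V) (hπ : IsSm π) (σ : Representation ℂ M W)
    (φ : (V ⧸ D.kerJ π) →ₗ[ℂ] W) (hφ : Equi (D.Jac π) σ φ) :
    ∃ f : V →ₗ[ℂ] D.IndSp σ, Equi π (D.Ind σ) f ∧
      ∀ v (g : H), (f v).1 g = φ (Submodule.Quotient.mk (π g v)) :=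
  ⟨D.frobFun π hπ σ φ hφ, D.frobFun_equi π hπ σ φ hφ, fun _ _ => rfl⟩

/-- functoriality of induction -/
def IndMap {X : Type} [AddCommGroup X] [Module ℂ X] (σ : Representation ℂ M W)
    (τ : Representation ℂ M X) (f : W →ₗ[ℂ] X) (hf : Equi σ τ f) :
    D.IndSp σ →ₗ[ℂ] D.IndSp τ where
  toFun φ := ⟨fun g => f (φ.1 g), by
    obtain ⟨h1, U, hU, h2⟩ := φ.2
    refine ⟨fun m hm n hn g => ?_, U, hU, fun g u hu => ?_⟩
    · show f _ = _
      rw [h1 m hm n hn g, hf]
    · show f _ = _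
      rw [h2 g u hu]⟩
  map_add' a b := Subtype.ext (funext fun g => by simp)
  map_smul' c a := Subtype.ext (funext fun g => by simp)

theorem IndMap_equi {X : Type} [AddCommGroup X] [Module ℂ X] (σ : Representation ℂ M W)
    (τ : Representation ℂ M X) (f : W →ₗ[ℂ] X) (hf : Equi σ τ f) :
    Equi (D.Ind σ) (D.Ind τ) (D.IndMap σ τ f hf) := by
  intro g φ
  rfl

theorem frob_sub_equi (π : Representation ℂ H V) (U : Submodule ℂ V) (hU : Stab π U) :
    Equi (subRep π U hU) π U.subtype := by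
  intro g v
  rfl

/-- parabolic induction preserves injectives -/
theorem ind_inj (σ : Representation ℂ M W) (hσ : IsSm σ) (hi : IsInjSm σ) :
    IsInjSm (D.Ind σ) := by
  intro E _ _ π hπ U hU f hf
  have hπU : IsSm (subRep π U hU) := smooth_sub π hπ U hU
  set J := D.JMap (subRep π U hU) π U.subtype (frob_sub_equi π U hU) with hJ
  have hJi : Function.Injective J := D.jac_inj (subRep π U hU) π hπU hπ U.subtype
    (frob_sub_equi π U hU) Subtype.val_injective
  have hJe : Equi (D.Jac (subRep π U hU)) (D.Jac π) J :=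
    D.JMap_equi (subRep π U hU) π U.subtype (frob_sub_equi π U hU)
  have hR : Stab (D.Jac π) (LinearMap.range J) := by
    rintro m _ ⟨x, rfl⟩
    exact ⟨D.Jac (subRep π U hU) m x, hJe m x⟩
  set e := LinearEquiv.ofInjective J hJi with he
  set φ := D.frobMap (subRep π U hU) σ f hf with hφ
  have hφe : Equi (D.Jac (subRep π U hU)) σ φ := D.frobMap_equi (subRep π U hU) σ f hf
  have hsymm : ∀ x, e.symm ⟨J x, ⟨x, rfl⟩⟩ = x := by
    intro x
    rw [LinearEquiv.symm_apply_eq]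
    rfl
  have hfe : Equi (subRep (D.Jac π) (LinearMap.range J) hR) σ (φ ∘ₗ (e.symm : _ →ₗ[ℂ] _)) := by
    rintro m ⟨_, x, rfl⟩
    have h1 : (subRep (D.Jac π) (LinearMap.range J) hR) m ⟨J x, ⟨x, rfl⟩⟩ =
        ⟨J (D.Jac (subRep π U hU) m x), ⟨_, rfl⟩⟩ := Subtype.ext (hJe m x).symm
    rw [h1]
    show φ (e.symm _) = σ m (φ (e.symm _))
    rw [hsymm, hsymm, hφe]
  obtain ⟨F, hFe, hF⟩ := hi (E ⧸ D.kerJ π) (D.Jac π) (D.jac_smooth π hπ) (LinearMap.range J) hR
    (φ ∘ₗ (e.symm : _ →ₗ[ℂ] _)) hfe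
  refine ⟨D.frobFun π hπ σ F hFe, D.frobFun_equi π hπ σ F hFe, fun u => ?_⟩
  refine Subtype.ext (funext fun g => ?_)
  rw [frobFun_apply, D.frob_apply (subRep π U hU) σ f hf u g, ← hφ]
  have h1 : (Submodule.Quotient.mk (π g u) : E ⧸ D.kerJ π) =
      J (Submodule.Quotient.mk (subRep π U hU g u)) := rfl
  have h2 := hF ⟨J (Submodule.Quotient.mk (subRep π U hU g u)), ⟨_, rfl⟩⟩
  rw [h1]
  refine h2.trans ?_
  show φ (e.symm _) = _
  rw [hsymm]

end PD

end

end Pool.Agent.Lib.MP_ca1492_al.P
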