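import Mathlib

/-!
# MP_ca1492_al, p-adic side: block subgroups of `GL κ F`
-/

set_option autoImplicit false

namespace Pool.Agent.Lib.MP_ca1492_al.P

open Topology Matrix

noncomputable section

variable {F : Type} [Field F] {κ : Type} [Fintype κ] [DecidableEq κ]

/-- block diagonal matrices for the colouring `c` -/
def lev (F : Type) [Field F] {κ : Type} [Fintype κ] [DecidableEq κ] {ι : Type} (c : κ → ι) :
    Subgroup (GL κ F) where
  carrier := {g | ∀ i j, c i ≠ c j → (g : Matrix κ κ F) i j = 0}
  mul_mem' := by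
    intro a b ha hb i j hij
    rw [Units.val_mul, Matrix.mul_apply]
    refine Finset.sum_eq_zero fun k _ => ?_
    by_cases h : c i = c k
    · rw [hb k j (fun h' => hij (h.trans h')), mul_zero]
    · rw [ha i k h, zero_mul]
  one_mem' := by
    intro i j hij
    rw [Units.val_one, Matrix.one_apply_ne]
    rintro rfl
    exact hij rfl
  inv_mem' := by
    classical
    intro g hg i j hij
    set t : κ → F := fun x => if c x = c i then 1 else 0 with ht
    have h1 : (g : Matrix κ κ F) * Matrix.diagonal t = Matrix.diagonal t * (g : Matrix κ κ F) := by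
      ext a b
      rw [Matrix.mul_diagonal, Matrix.diagonal_mul]
      by_cases h : c a = c b
      · rw [ht]
        simp only [h]
        ring
      · rw [hg a b h]
        simp
    have h2 : Matrix.diagonal t * ((g⁻¹ : GL κ F) : Matrix κ κ F) =
        ((g⁻¹ : GL κ F) : Matrix κ κ F) * Matrix.diagonal t := by
      have h3 : ((g⁻¹ : GL κ F) : Matrix κ κ F) * (g : Matrix κ κ F) = 1 := by
        rw [← Units.val_mul]
        simp
      have h4 : (g : Matrix κ κ F) * ((g⁻¹ : GL κ F) : Matrix κ κ F) = 1 := by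
        rw [← Units.val_mul]
        simp
      calc Matrix.diagonal t * ((g⁻¹ : GL κ F) : Matrix κ κ F)
          = (((g⁻¹ : GL κ F) : Matrix κ κ F) * (g : Matrix κ κ F)) *
              (Matrix.diagonal t * ((g⁻¹ : GL κ F) : Matrix κ κ F)) := by rw [h3, one_mul]
        _ = ((g⁻¹ : GL κ F) : Matrix κ κ F) * ((g : Matrix κ κ F) * Matrix.diagonal t) *
              ((g⁻¹ : GL κ F) : Matrix κ κ F) := by simp only [Matrix.mul_assoc]
        _ = ((g⁻¹ : GL κ F) : Matrix κ κ F) * (Matrix.diagonal t * (g : Matrix κ κ F)) *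
              ((g⁻¹ : GL κ F) : Matrix κ κ F) := by rw [h1]
        _ = ((g⁻¹ : GL κ F) : Matrix κ κ F) * Matrix.diagonal t *
              ((g : Matrix κ κ F) * ((g⁻¹ : GL κ F) : Matrix κ κ F)) := by
            simp only [Matrix.mul_assoc]
        _ = ((g⁻¹ : GL κ F) : Matrix κ κ F) * Matrix.diagonal t := by rw [h4, mul_one]
    have h5 := congrFun (congrFun h2 i) j
    rw [Matrix.mul_diagonal, Matrix.diagonal_mul] at h5
    have h6 : c j ≠ c i := fun h => hij h.symm
    simpa [ht, h6] using h5

/-- block upper triangular matrices: block diagonal for `cb`, and upper triangular for the order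
function `o` -/
def upp (F : Type) [Field F] {κ : Type} [Fintype κ] [DecidableEq κ] {ι : Type} (cb : κ → ι)
    (o : κ → ℤ) : Subgroup (GL κ F) where
  carrier := {g | g ∈ lev F cb ∧ ∀ i j, o j < o i → (g : Matrix κ κ F) i j = 0}
  mul_mem' := by
    rintro a b ⟨ha, ha'⟩ ⟨hb, hb'⟩
    refine ⟨(lev F cb).mul_mem ha hb, fun i j hij => ?_⟩
    rw [Units.val_mul, Matrix.mul_apply]
    refine Finset.sum_eq_zero fun k _ => ?_
    by_cases h : o k < o i
    · rw [ha' i k h, zero_mul]
    · rw [hb' k j (by omega), mul_zero]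
  one_mem' := by
    refine ⟨(lev F cb).one_mem, fun i j hij => ?_⟩
    rw [Units.val_one, Matrix.one_apply_ne]
    rintro rfl
    exact lt_irrefl _ hij
  inv_mem' := by
    rintro g ⟨hg, hg'⟩
    refine ⟨(lev F cb).inv_mem hg, fun i j hij => ?_⟩
    have h1 : Matrix.BlockTriangular (g : Matrix κ κ F) o := fun i j h => hg' i j h
    haveI : Invertible (g : Matrix κ κ F) := g.invertible
    have h2 := Matrix.blockTriangular_inv_of_blockTriangular h1
    have h3 : ((g⁻¹ : GL κ F) : Matrix κ κ F) = (g : Matrix κ κ F)⁻¹ :=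
      Matrix.coe_units_inv g
    rw [h3]
    exact h2 hij

/-- the unipotent radical of `upp F cb o` -/
def uni (F : Type) [Field F] {κ : Type} [Fintype κ] [DecidableEq κ] {ι : Type} (cb : κ → ι)
    (o : κ → ℤ) : Subgroup (GL κ F) where
  carrier := {g | g ∈ upp F cb o ∧
    ∀ i j, o i = o j → (g : Matrix κ κ F) i j = (1 : Matrix κ κ F) i j}
  mul_mem' := by
    rintro a b ⟨ha, ha'⟩ ⟨hb, hb'⟩
    refine ⟨(upp F cb o).mul_mem ha hb, fun i j hij => ?_⟩
    rw [Units.val_mul, Matrix.mul_apply]
    rw [Finset.sum_eq_single i]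
    · rw [ha' i i rfl, hb' i j hij, Matrix.one_apply_eq, one_mul]
    · intro k _ hk
      rcases lt_trichotomy (o i) (o k) with h | h | h
      · rw [hb.2 k j (by omega), mul_zero]
      · rw [ha' i k h, Matrix.one_apply_ne (Ne.symm hk), zero_mul]
      · rw [ha.2 i k h, zero_mul]
    · intro h
      exact absurd (Finset.mem_univ i) h
  one_mem' := ⟨(upp F cb o).one_mem, fun i j _ => by rw [Units.val_one]⟩
  inv_mem' := by
    rintro g ⟨hg, hg'⟩
    have hi := (upp F cb o).inv_mem hg
    refine ⟨hi, fun i j hij => ?_⟩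
    have h4 : (g : Matrix κ κ F) * ((g⁻¹ : GL κ F) : Matrix κ κ F) = 1 := by
      rw [← Units.val_mul]
      simp
    have h5 := congrFun (congrFun h4 i) j
    rw [Matrix.mul_apply, Finset.sum_eq_single i] at h5
    · rw [hg' i i rfl, Matrix.one_apply_eq, one_mul] at h5
      exact h5
    · intro k _ hk
      rcases lt_trichotomy (o i) (o k) with h | h | h
      · rw [hi.2 k j (by omega), mul_zero]
      · rw [hg' i k h, Matrix.one_apply_ne (Ne.symm hk), zero_mul]
      · rw [hg.2 i k h, zero_mul]
    · intro h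
      exact absurd (Finset.mem_univ i) h

theorem mem_lev {ι : Type} {c : κ → ι} {g : GL κ F} :
    g ∈ lev F c ↔ ∀ i j, c i ≠ c j → (g : Matrix κ κ F) i j = 0 := Iff.rfl

theorem mem_upp {ι : Type} {cb : κ → ι} {o : κ → ℤ} {g : GL κ F} :
    g ∈ upp F cb o ↔ g ∈ lev F cb ∧ ∀ i j, o j < o i → (g : Matrix κ κ F) i j = 0 := Iff.rfl

theorem mem_uni {ι : Type} {cb : κ → ι} {o : κ → ℤ} {g : GL κ F} :
    g ∈ uni F cb o ↔ g ∈ upp F cb o ∧
      ∀ i j, o i = o j → (g : Matrix κ κ F) i j = (1 : Matrix κ κ F) i j := Iff.rfl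

/-- the permutation matrix of `w`: `(permG w) i j = 1` iff `w j = i` -/
def permG (F : Type) [Field F] {κ : Type} [Fintype κ] [DecidableEq κ] (w : Equiv.Perm κ) :
    GL κ F where
  val := Matrix.of fun i j => if w j = i then 1 else 0
  inv := Matrix.of fun i j => if w i = j then 1 else 0
  val_inv := by
    ext i j
    rw [Matrix.mul_apply]
    simp only [Matrix.of_apply, Matrix.one_apply]
    rw [Finset.sum_eq_single (w.symm i)]
    · simp
    · intro k _ hk
      have : w k ≠ i := fun h => hk (by rw [← h]; simp)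
      simp [this]
    · intro h
      exact absurd (Finset.mem_univ _) h
  inv_val := by
    ext i j
    rw [Matrix.mul_apply]
    simp only [Matrix.of_apply, Matrix.one_apply]
    rw [Finset.sum_eq_single (w i)]
    · simp [eq_comm]
    · intro k _ hk
      have : w i ≠ k := fun h => hk h.symm
      simp [this]
    · intro h
      exact absurd (Finset.mem_univ _) h

end

end Pool.Agent.Lib.MP_ca1492_al.P
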