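import Mathlib

/-!
# MP_ca1492_al, p-adic side, module Loc: the valuation of a local field, lattices

`ordF x ∈ ℤ` (`ordF 0 = 0` is junk), `lat m = {x | x = 0 ∨ m ≤ ordF x}`.

Everything follows from `IsNonarchimedeanLocalField.valueGroupWithZeroIsoInt : ValueGroupWithZero F
≃*o ℤᵐ⁰`, `ValuativeRel.valuation_surjective`, `IsNonarchimedeanLocalField.isCompact_closedBall`,
`IsValuativeTopology.hasBasis_nhds_zero'` (the sets `{x | v x < γ}` form a basis at `0`), and the
ultrametric inequality of `valuation F`. Note `lat m = {x | v x ≤ iso.symm (exp (-m))}` is a closed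
ball, so it is compact, and it is open (an additive subgroup containing the open ball).
* `lat_index`: `lat m / lat m'` is finite for `m ≤ m'`: `lat m` is compact and `lat m'` is open.
-/

set_option autoImplicit false

namespace Pool.Agent.Lib.MP_ca1492_al.P

open Topology ValuativeRel

noncomputable section

variable (F : Type) [Field F] [ValuativeRel F] [TopologicalSpace F]
  [IsNonarchimedeanLocalField F]

/-- the normalized valuation, with the junk value `0` at `0` -/
def ordF (x : F) : ℤ :=
  - WithZero.log (IsNonarchimedeanLocalField.valueGroupWithZeroIsoInt F (valuation F x))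

/-- the number of elements of the residue field -/
def qF : ℕ := Nat.card (IsLocalRing.ResidueField (Valuation.integer (valuation F)))

variable {F}


/-- the valuation with values in `ℤᵐ⁰` -/
def Loc_v (x : F) : WithZero (Multiplicative ℤ) :=
  IsNonarchimedeanLocalField.valueGroupWithZeroIsoInt F (valuation F x)

theorem Loc_ord (x : F) : ordF F x = - WithZero.log (Loc_v x) := rfl

theorem Loc_v_zero : Loc_v (0 : F) = 0 := by
  rw [Loc_v, map_zero, map_zero]

theorem Loc_v_ne {x : F} (hx : x ≠ 0) : Loc_v x ≠ 0 := by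
  intro h
  apply hx
  have h1 : valuation F x = 0 := by
    apply (IsNonarchimedeanLocalField.valueGroupWithZeroIsoInt F).injective
    rw [map_zero]
    exact h
  simpa using h1

theorem Loc_v_mul (x y : F) : Loc_v (x * y) = Loc_v x * Loc_v y := by
  rw [Loc_v, map_mul, map_mul]
  rfl

theorem Loc_v_one : Loc_v (1 : F) = 1 := by
  rw [Loc_v, map_one, map_one]

theorem Loc_v_eq {x : F} (hx : x ≠ 0) : Loc_v x = WithZero.exp (- ordF F x) := by
  rw [Loc_ord, neg_neg, WithZero.exp_log (Loc_v_ne hx)]

theorem Loc_le_iff {x : F} {m : ℤ} :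
    (x = 0 ∨ m ≤ ordF F x) ↔ Loc_v x ≤ WithZero.exp (-m) := by
  by_cases hx : x = 0
  · subst hx
    rw [Loc_v_zero]
    simp
  · rw [Loc_v_eq hx, WithZero.exp_le_exp, neg_le_neg_iff]
    simp [hx]

theorem Loc_mono {x y : F} : Loc_v x ≤ Loc_v y ↔ valuation F x ≤ valuation F y :=
  (IsNonarchimedeanLocalField.valueGroupWithZeroIsoInt F).strictMono.le_iff_le

theorem ordF_zero : ordF F 0 = 0 := by
  rw [Loc_ord, Loc_v_zero, WithZero.log_zero, neg_zero]

theorem ordF_one : ordF F 1 = 0 := by
  rw [Loc_ord, Loc_v_one, WithZero.log_one, neg_zero]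

theorem ordF_mul (x y : F) (hx : x ≠ 0) (hy : y ≠ 0) : ordF F (x * y) = ordF F x + ordF F y := by
  rw [Loc_ord, Loc_v_mul, WithZero.log_mul (Loc_v_ne hx) (Loc_v_ne hy), Loc_ord, Loc_ord]
  ring

theorem ordF_inv (x : F) : ordF F x⁻¹ = - ordF F x := by
  by_cases hx : x = 0
  · subst hx
    rw [inv_zero, ordF_zero, neg_zero]
  · have h := ordF_mul x x⁻¹ hx (inv_ne_zero hx)
    rw [mul_inv_cancel₀ hx, ordF_one] at h
    linarith

theorem ordF_neg (x : F) : ordF F (-x) = ordF F x := by
  rw [ordF, ordF, Valuation.map_neg]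

theorem ordF_add (x y : F) (h : x + y ≠ 0) (hx : x ≠ 0) (hy : y ≠ 0) :
    min (ordF F x) (ordF F y) ≤ ordF F (x + y) := by
  have h1 : Loc_v (x + y) ≤ max (Loc_v x) (Loc_v y) := by
    rcases le_total (valuation F x) (valuation F y) with h' | h'
    · refine le_trans ?_ (le_max_right _ _)
      rw [Loc_mono]
      exact (Valuation.map_add _ _ _).trans (max_le h' le_rfl)
    · refine le_trans ?_ (le_max_left _ _)
      rw [Loc_mono]
      exact (Valuation.map_add _ _ _).trans (max_le le_rfl h')
  rw [Loc_v_eq h, Loc_v_eq hx, Loc_v_eq hy] at h1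
  rcases le_max_iff.1 h1 with h2 | h2
  · rw [WithZero.exp_le_exp] at h2
    exact min_le_of_left_le (by linarith)
  · rw [WithZero.exp_le_exp] at h2
    exact min_le_of_right_le (by linarith)

theorem ordF_surj (m : ℤ) : ∃ x : F, x ≠ 0 ∧ ordF F x = m := by
  obtain ⟨x, hx⟩ := ValuativeRel.valuation_surjective
    ((IsNonarchimedeanLocalField.valueGroupWithZeroIsoInt F).symm (WithZero.exp (-m)))
  have h : Loc_v x = WithZero.exp (-m) := by
    rw [Loc_v, hx]
    exact OrderMonoidIso.apply_symm_apply _ _
  refine ⟨x, ?_, ?_⟩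
  · rintro rfl
    rw [Loc_v_zero] at h
    exact WithZero.exp_ne_zero h.symm
  · rw [Loc_ord, h, WithZero.log_exp, neg_neg]

theorem exists_unif : ∃ x : F, x ≠ 0 ∧ ordF F x = 1 := ordF_surj 1

variable (F) in
/-- the fractional ideal of elements of valuation at least `m` -/
def lat (m : ℤ) : AddSubgroup F where
  carrier := {x | x = 0 ∨ m ≤ ordF F x}
  add_mem' := by
    rintro a b ha hb
    by_cases h : a + b = 0
    · exact Or.inl h
    · by_cases h1 : a = 0
      · subst h1
        simpa using hb
      · by_cases h2 : b = 0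
        · subst h2
          simpa using ha
        · have := ordF_add a b h h1 h2
          rcases ha with ha | ha
          · exact absurd ha h1
          · rcases hb with hb | hb
            · exact absurd hb h2
            · exact Or.inr (le_trans (le_min ha hb) this)
  zero_mem' := Or.inl rfl
  neg_mem' := by
    rintro a (rfl | ha)
    · exact Or.inl (by simp)
    · exact Or.inr (by rwa [ordF_neg])

theorem mem_lat {m : ℤ} {x : F} : x ∈ lat F m ↔ x = 0 ∨ m ≤ ordF F x := Iff.rfl


theorem Loc_mem {m : ℤ} {x : F} : x ∈ lat F m ↔ Loc_v x ≤ WithZero.exp (-m) :=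
  mem_lat.trans Loc_le_iff

theorem lat_mul {m m' : ℤ} {x y : F} (hx : x ∈ lat F m) (hy : y ∈ lat F m') :
    x * y ∈ lat F (m + m') := by
  rw [mem_lat] at hx hy ⊢
  by_cases h1 : x = 0
  · left
    rw [h1, zero_mul]
  · by_cases h2 : y = 0
    · left
      rw [h2, mul_zero]
    · right
      rw [ordF_mul x y h1 h2]
      exact add_le_add (hx.resolve_left h1) (hy.resolve_left h2)

theorem lat_anti {m m' : ℤ} (h : m ≤ m') : lat F m' ≤ lat F m := by
  intro x hx
  rw [mem_lat] at hx ⊢
  exact hx.imp_right h.trans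

theorem lat_isOpen (m : ℤ) : IsOpen (lat F m : Set F) := by
  refine AddSubgroup.isOpen_of_mem_nhds (lat F m) (g := 0) ?_
  refine (IsValuativeTopology.hasBasis_nhds_zero' F).mem_iff.2
    ⟨(IsNonarchimedeanLocalField.valueGroupWithZeroIsoInt F).symm (WithZero.exp (-m)), ?_, ?_⟩
  · intro h
    have h' := congrArg (IsNonarchimedeanLocalField.valueGroupWithZeroIsoInt F) h
    rw [OrderMonoidIso.apply_symm_apply, map_zero] at h'
    exact WithZero.exp_ne_zero h'
  · intro x hx
    have hx' : valuation F x < (IsNonarchimedeanLocalField.valueGroupWithZeroIsoInt F).symm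
      (WithZero.exp (-m)) := hx
    rw [SetLike.mem_coe, Loc_mem]
    have := (IsNonarchimedeanLocalField.valueGroupWithZeroIsoInt F).strictMono hx'
    rw [OrderMonoidIso.apply_symm_apply] at this
    exact this.le

theorem lat_isCompact (m : ℤ) : IsCompact (lat F m : Set F) := by
  have h : (lat F m : Set F) = {x | valuation F x ≤
      (IsNonarchimedeanLocalField.valueGroupWithZeroIsoInt F).symm (WithZero.exp (-m))} := by
    ext x
    rw [SetLike.mem_coe, Loc_mem, Set.mem_ofPred_eq,
      ← (IsNonarchimedeanLocalField.valueGroupWithZeroIsoInt F).strictMono.le_iff_le,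
      OrderMonoidIso.apply_symm_apply]
    rfl
  rw [h]
  exact IsNonarchimedeanLocalField.isCompact_closedBall F _

/-- the lattices form a basis of neighbourhoods of zero -/
theorem lat_basis (U : Set F) (hU : U ∈ nhds (0 : F)) : ∃ m : ℕ, (lat F m : Set F) ⊆ U := by
  obtain ⟨γ, hγ, hU'⟩ := (IsValuativeTopology.hasBasis_nhds_zero' F).mem_iff.1 hU
  have hγ' : IsNonarchimedeanLocalField.valueGroupWithZeroIsoInt F γ ≠ 0 := by
    intro h
    apply hγ
    apply (IsNonarchimedeanLocalField.valueGroupWithZeroIsoInt F).injective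
    rw [map_zero]
    exact h
  refine ⟨(1 - WithZero.log (IsNonarchimedeanLocalField.valueGroupWithZeroIsoInt F γ)).toNat, ?_⟩
  intro x hx
  apply hU'
  rw [SetLike.mem_coe, Loc_mem] at hx
  change valuation F x < γ
  rw [← (IsNonarchimedeanLocalField.valueGroupWithZeroIsoInt F).strictMono.lt_iff_lt]
  refine lt_of_le_of_lt hx ?_
  rw [← WithZero.lt_log_iff_exp_lt hγ']
  have := Int.self_le_toNat
    (1 - WithZero.log (IsNonarchimedeanLocalField.valueGroupWithZeroIsoInt F γ))
  linarith

theorem lat_exhaust (C : Set F) (hC : IsCompact C) : ∃ m : ℕ, C ⊆ lat F (-(m : ℤ)) := by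
  obtain ⟨m, hm⟩ := hC.elim_directed_cover (fun m : ℕ => (lat F (-(m : ℤ)) : Set F))
    (fun m => lat_isOpen _) (by
      intro x _
      rw [Set.mem_iUnion]
      refine ⟨(- ordF F x).toNat, Or.inr ?_⟩
      have := Int.self_le_toNat (- ordF F x)
      linarith) (by
      intro a b
      refine ⟨max a b, ?_, ?_⟩
      · exact lat_anti (by simp)
      · exact lat_anti (by simp))
  exact ⟨m, hm⟩

theorem eq_zero_of_lat (x : F) (h : ∀ m : ℕ, x ∈ lat F m) : x = 0 := by
  by_contra hx
  have h1 := (h ((ordF F x).toNat + 1)).resolve_left hx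
  have := Int.self_le_toNat (ordF F x)
  push_cast at h1
  linarith

theorem one_lt_qF : 1 < qF F := by
  have : Finite (IsLocalRing.ResidueField (Valuation.integer (valuation F))) :=
    inferInstanceAs (Finite 𝓀[F])
  exact Finite.one_lt_card


theorem Loc_index_one (m : ℤ) : (lat F (m + 1)).relIndex (lat F m) = qF F := by
  obtain ⟨c, hc, hcm⟩ := ordF_surj (F := F) (-m)
  have hint : ∀ x : lat F m, c * x.1 ∈ Valuation.integer (valuation F) := by
    intro x
    have h1 : c * x.1 ∈ lat F (-m + m) := lat_mul (Or.inr hcm.ge) x.2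
    rw [Loc_mem, neg_add_cancel, neg_zero, WithZero.exp_zero, ← Loc_v_one (F := F), Loc_mono,
      map_one] at h1
    exact h1
  let f : lat F m →+ IsLocalRing.ResidueField (Valuation.integer (valuation F)) :=
    { toFun := fun x => IsLocalRing.residue _ ⟨c * x.1, hint x⟩
      map_zero' := by
        rw [IsLocalRing.residue_eq_zero_iff]
        have : (⟨c * (0 : lat F m).1, hint 0⟩ : Valuation.integer (valuation F)) = 0 := by
          apply Subtype.ext
          simp
        rw [this]
        exact zero_mem _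
      map_add' := by
        intro x y
        rw [← map_add]
        congr 1
        apply Subtype.ext
        change c * (x.1 + y.1) = c * x.1 + c * y.1
        ring }
  have hker : f.ker = (lat F (m + 1)).addSubgroupOf (lat F m) := by
    ext x
    rw [AddMonoidHom.mem_ker, AddSubgroup.mem_addSubgroupOf]
    change IsLocalRing.residue _ (⟨c * x.1, hint x⟩ : Valuation.integer (valuation F)) = 0 ↔ _
    rw [IsLocalRing.residue_eq_zero_iff, IsLocalRing.mem_maximalIdeal, mem_nonunits_iff,
      Valuation.Integer.not_isUnit_iff_valuation_lt_one]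
    change valuation F (c * x.1) < 1 ↔ _
    rw [mem_lat]
    by_cases hx : x.1 = 0
    · simp [hx]
    · have h0 : valuation F (c * x.1) < 1 ↔ Loc_v (c * x.1) < 1 := by
        rw [← (IsNonarchimedeanLocalField.valueGroupWithZeroIsoInt F).strictMono.lt_iff_lt, map_one]
        rfl
      rw [h0, Loc_v_eq (mul_ne_zero hc hx), ← WithZero.exp_zero, WithZero.exp_lt_exp,
        ordF_mul c _ hc hx, hcm]
      simp only [hx, false_or]
      constructor
      · intro h
        omega
      · intro h
        omega
  have hsurj : Function.Surjective f := by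
    intro y
    obtain ⟨z, hz⟩ := IsLocalRing.residue_surjective y
    have hz1 : z.1 ∈ lat F 0 := by
      rw [Loc_mem, neg_zero, WithZero.exp_zero, ← Loc_v_one (F := F), Loc_mono, map_one]
      exact z.2
    have hz2 : c⁻¹ * z.1 ∈ lat F m := by
      have h1 : c⁻¹ * z.1 ∈ lat F (m + 0) := by
        refine lat_mul (Or.inr ?_) hz1
        rw [ordF_inv, hcm, neg_neg]
      rwa [add_zero] at h1
    refine ⟨⟨c⁻¹ * z.1, hz2⟩, ?_⟩
    rw [← hz]
    change IsLocalRing.residue _ _ = _
    congr 1
    apply Subtype.ext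
    change c * (c⁻¹ * z.1) = z.1
    rw [← mul_assoc, mul_inv_cancel₀ hc, one_mul]
  rw [AddSubgroup.relIndex, ← hker, AddSubgroup.index_ker, qF]
  exact Nat.card_congr ((Equiv.setCongr (by
    rw [AddMonoidHom.coe_range]
    exact hsurj.range_eq)).trans (Equiv.Set.univ _))

/-- `lat m / lat (m + k)` has `q ^ k` elements -/
theorem lat_index (m : ℤ) (k : ℕ) :
    ((lat F (m + k)).relIndex (lat F m)) = qF F ^ k := by
  induction k with
  | zero => simp
  | succ k ih =>
    have h1 := AddSubgroup.relIndex_mul_relIndex (lat F (m + (k + 1 : ℕ))) (lat F (m + k))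
      (lat F m) (lat_anti (by push_cast; linarith)) (lat_anti (by linarith))
    rw [← h1, ih]
    have h2 := Loc_index_one (F := F) (m + k)
    have h3 : m + ((k + 1 : ℕ) : ℤ) = m + k + 1 := by
      push_cast
      ring
    rw [h3, h2, pow_succ']

theorem locF_t2 : T2Space F := by
  refine IsTopologicalAddGroup.t2Space_of_zero_sep fun x hx => ?_
  by_contra hcon
  push Not at hcon
  exact hx (eq_zero_of_lat x fun m => hcon _ ((lat_isOpen _).mem_nhds (zero_mem _)))

theorem locF_sigma : SigmaCompactSpace F := by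
  refine ⟨fun m : ℕ => (lat F (-(m : ℤ)) : Set F), fun m => lat_isCompact _, ?_⟩
  refine Set.eq_univ_of_forall fun x => ?_
  obtain ⟨m, hm⟩ := lat_exhaust {x} isCompact_singleton
  exact Set.mem_iUnion.2 ⟨m, hm rfl⟩

end

end Pool.Agent.Lib.MP_ca1492_al.P
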