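import Mathlib
import Pool.Agent.Lib.MP_ca1492_al.P.GLDefs
import Pool.Agent.Lib.MP_ca1492_al.P.Loc

/-!
# MP_ca1492_al, p-adic side, module Cong: congruence subgroups, topology of `GL κ F`

`Kc m` (`m : ℕ`) = matrices `g` such that all entries of `g - 1` and `g⁻¹ - 1` are in `lat m`
(`m = 0`: all entries of `g`, `g⁻¹` integral).

* the topology of `GL κ F` is the one of units (embedding `g ↦ (g, g⁻¹)`), see
  `Mathlib.Topology.Algebra.Group.Matrix`. `Kc m` is open: finite intersection of preimages of open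
  sets. `Kc m` is compact: its image under the closed embedding
  `Units.embedProduct : GL → M × Mᵐᵒᵖ` is a closed subset of the compact set of pairs of matrices
  with entries in `1 + lat m` (compact: product of compact sets).
* `Kc_basis`: neighbourhoods of `1` in the unit topology.
* `gl_hasCO`, `gl_sigma`: every compact set is covered by finitely many cosets; `F` is sigma compact
  (`locF_sigma`), the set `{g | entries of g and g⁻¹ in lat (-m)}` is compact and these sets
  exhaust.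
* subgroups: `levClosed` etc.: the defining conditions are closed (entries are continuous, `F` is
  `T2`).
-/

set_option autoImplicit false

namespace Pool.Agent.Lib.MP_ca1492_al.P

open Topology Matrix ValuativeRel

noncomputable section

variable {F : Type} [Field F] [ValuativeRel F] [TopologicalSpace F]
  [IsNonarchimedeanLocalField F]
variable {κ : Type} [Fintype κ] [DecidableEq κ]

/-- congruence subgroups of `GL κ F`, `m : ℕ` -/
def Kc (F : Type) [Field F] [ValuativeRel F] [TopologicalSpace F]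
    [IsNonarchimedeanLocalField F] (κ : Type) [Fintype κ] [DecidableEq κ] (m : ℕ) :
    Subgroup (GL κ F) where
  carrier := {g | (∀ i j, ((g : Matrix κ κ F) - 1) i j ∈ lat F m) ∧
    ∀ i j, (((g⁻¹ : GL κ F) : Matrix κ κ F) - 1) i j ∈ lat F m}
  mul_mem' := by
    have key : ∀ a b : Matrix κ κ F, (∀ i j, (a - 1) i j ∈ lat F m) →
        (∀ i j, (b - 1) i j ∈ lat F m) → ∀ i j, (a * b - 1) i j ∈ lat F m := by
      intro a b ha hb i j
      have h1 : a * b - 1 = (a - 1) * (b - 1) + (a - 1) + (b - 1) := by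
        noncomm_ring
      rw [h1, Matrix.add_apply, Matrix.add_apply, Matrix.mul_apply]
      refine (lat F m).add_mem ((lat F m).add_mem ?_ (ha i j)) (hb i j)
      refine (lat F m).sum_mem fun k _ => ?_
      exact lat_anti (by omega : (m : ℤ) ≤ (m : ℤ) + (m : ℤ)) (lat_mul (ha i k) (hb k j))
    rintro a b ⟨ha, ha'⟩ ⟨hb, hb'⟩
    refine ⟨?_, ?_⟩
    · rw [Units.val_mul]
      exact key _ _ ha hb
    · rw [_root_.mul_inv_rev, Units.val_mul]
      exact key _ _ hb' ha'
  one_mem' := by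
    refine ⟨fun i j => ?_, fun i j => ?_⟩ <;> simp [(lat F m).zero_mem]
  inv_mem' := by
    rintro a ⟨ha, ha'⟩
    exact ⟨ha', by simpa using ha⟩

theorem Cong_entry (i j : κ) : Continuous fun g : GL κ F => (g : Matrix κ κ F) i j :=
  Units.continuous_val.matrix_elem i j

theorem Cong_entry_inv (i j : κ) :
    Continuous fun g : GL κ F => ((g⁻¹ : GL κ F) : Matrix κ κ F) i j :=
  Units.continuous_coe_inv.matrix_elem i j

theorem Cong_mem {m : ℕ} {g : GL κ F} :
    g ∈ Kc F κ m ↔ (∀ i j, ((g : Matrix κ κ F) - 1) i j ∈ lat F m) ∧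
      ∀ i j, (((g⁻¹ : GL κ F) : Matrix κ κ F) - 1) i j ∈ lat F m := Iff.rfl

theorem Cong_mem' {m : ℕ} {g : GL κ F} :
    g ∈ Kc F κ m ↔ (∀ i j, (g : Matrix κ κ F) i j - (1 : Matrix κ κ F) i j ∈ lat F m) ∧
      ∀ i j, ((g⁻¹ : GL κ F) : Matrix κ κ F) i j - (1 : Matrix κ κ F) i j ∈ lat F m := Iff.rfl

theorem Kc_isOpen (m : ℕ) : IsOpen (Kc F κ m : Set (GL κ F)) := by
  have h : (Kc F κ m : Set (GL κ F)) =
      (⋂ i : κ, ⋂ j : κ, (fun g : GL κ F => (g : Matrix κ κ F) i j - (1 : Matrix κ κ F) i j) ⁻¹'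
        (lat F m : Set F)) ∩
      (⋂ i : κ, ⋂ j : κ, (fun g : GL κ F => ((g⁻¹ : GL κ F) : Matrix κ κ F) i j -
        (1 : Matrix κ κ F) i j) ⁻¹' (lat F m : Set F)) := by
    ext g
    rw [SetLike.mem_coe, Cong_mem']
    simp only [Set.mem_inter_iff, Set.mem_iInter, Set.mem_preimage, SetLike.mem_coe]
  rw [h]
  refine IsOpen.inter ?_ ?_
  · exact isOpen_iInter_of_finite fun i => isOpen_iInter_of_finite fun j =>
      (lat_isOpen (F := F) m).preimage ((Cong_entry i j).sub continuous_const)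
  · exact isOpen_iInter_of_finite fun i => isOpen_iInter_of_finite fun j =>
      (lat_isOpen (F := F) m).preimage ((Cong_entry_inv i j).sub continuous_const)

theorem Cong_compact_mat (m : ℤ) :
    IsCompact {A : Matrix κ κ F | ∀ i j, A i j - (1 : Matrix κ κ F) i j ∈ lat F m} := by
  have h1 : ∀ c : F, IsCompact {x : F | x - c ∈ lat F m} := by
    intro c
    have h2 : {x : F | x - c ∈ lat F m} = (fun x => x + c) '' (lat F m : Set F) := by
      ext x
      constructor
      · intro hx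
        exact ⟨x - c, hx, sub_add_cancel x c⟩
      · rintro ⟨y, hy, rfl⟩
        show y + c - c ∈ lat F m
        rw [add_sub_cancel_right]
        exact hy
    rw [h2]
    exact (lat_isCompact m).image (continuous_id.add continuous_const)
  have h3 : IsCompact (Set.pi Set.univ (fun i : κ => Set.pi Set.univ
      (fun j : κ => {x : F | x - (1 : Matrix κ κ F) i j ∈ lat F m}))) :=
    isCompact_univ_pi fun i => isCompact_univ_pi fun j => h1 _
  have h4 : {A : Matrix κ κ F | ∀ i j, A i j - (1 : Matrix κ κ F) i j ∈ lat F m} =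
      (Set.pi Set.univ (fun i : κ => Set.pi Set.univ
      (fun j : κ => {x : F | x - (1 : Matrix κ κ F) i j ∈ lat F m}))) := by
    ext A
    constructor
    · intro h i _ j _
      exact h i j
    · intro h i j
      exact h i trivial j trivial
  rw [h4]
  exact h3

theorem Kc_isCompact' (m : ℤ) : IsCompact {g : GL κ F |
    (∀ i j, (g : Matrix κ κ F) i j - (1 : Matrix κ κ F) i j ∈ lat F m) ∧
      ∀ i j, ((g⁻¹ : GL κ F) : Matrix κ κ F) i j - (1 : Matrix κ κ F) i j ∈ lat F m} := by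
  have : T2Space F := locF_t2
  have h1 := Cong_compact_mat (F := F) (κ := κ) m
  have h2 := h1.prod (h1.image MulOpposite.continuous_op)
  have h3 := (Units.isClosedEmbedding_embedProduct (α := Matrix κ κ F)).isCompact_preimage h2
  refine (congrArg IsCompact ?_).mp h3
  ext g
  constructor
  · rintro ⟨ha, B, hB, hB'⟩
    refine ⟨ha, ?_⟩
    have h4 : B = ((g⁻¹ : GL κ F) : Matrix κ κ F) := MulOpposite.op_injective hB'
    rw [h4] at hB
    exact hB
  · rintro ⟨ha, hb⟩
    exact ⟨ha, _, hb, rfl⟩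

theorem Kc_isCompact (m : ℕ) : IsCompact (Kc F κ m : Set (GL κ F)) :=
  Kc_isCompact' (m : ℤ)

theorem Kc_anti {m m' : ℕ} (h : m ≤ m') : Kc F κ m' ≤ Kc F κ m := by
  rintro g ⟨h1, h2⟩
  have h3 : (m : ℤ) ≤ m' := by exact_mod_cast h
  exact ⟨fun i j => lat_anti h3 (h1 i j), fun i j => lat_anti h3 (h2 i j)⟩

omit [Fintype κ] in
theorem Cong_one_entry (i j : κ) : (1 : Matrix κ κ F) i j ∈ lat F 0 := by
  by_cases h : i = j
  · subst h
    rw [Matrix.one_apply_eq]
    exact Or.inr ordF_one.ge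
  · rw [Matrix.one_apply_ne h]
    exact (lat F 0).zero_mem

theorem Cong_K0_entry {g : GL κ F} (hg : g ∈ Kc F κ 0) (i j : κ) :
    (g : Matrix κ κ F) i j ∈ lat F 0 := by
  have h1 := (Cong_mem'.1 hg).1 i j
  have h2 := (lat F 0).add_mem h1 (Cong_one_entry i j)
  rwa [sub_add_cancel] at h2

omit [DecidableEq κ] in
theorem Cong_mulmem {A B : Matrix κ κ F} {m m' : ℤ} (hA : ∀ i j, A i j ∈ lat F m)
    (hB : ∀ i j, B i j ∈ lat F m') (i j : κ) : (A * B) i j ∈ lat F (m + m') := by
  rw [Matrix.mul_apply]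
  exact (lat F (m + m')).sum_mem fun k _ => lat_mul (hA i k) (hB k j)

/-- `Kc m` is normalized by `Kc 0` -/
theorem Kc_normal (m : ℕ) (g k : GL κ F) (hg : g ∈ Kc F κ 0) (hk : k ∈ Kc F κ m) :
    g * k * g⁻¹ ∈ Kc F κ m := by
  have key : ∀ k : GL κ F, (∀ i j, ((k : Matrix κ κ F) - 1) i j ∈ lat F m) →
      ∀ i j, (((g * k * g⁻¹ : GL κ F) : Matrix κ κ F) - 1) i j ∈ lat F m := by
    intro k hk i j
    have h0 : (g : Matrix κ κ F) * ((g⁻¹ : GL κ F) : Matrix κ κ F) = 1 := by
      rw [← Units.val_mul]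
      simp
    have h1 : ((g * k * g⁻¹ : GL κ F) : Matrix κ κ F) - 1 =
        (g : Matrix κ κ F) * ((k : Matrix κ κ F) - 1) * ((g⁻¹ : GL κ F) : Matrix κ κ F) := by
      rw [Units.val_mul, Units.val_mul, Matrix.mul_sub, Matrix.sub_mul, Matrix.mul_one, h0]
    rw [h1]
    have h2 := Cong_mulmem (Cong_mulmem (Cong_K0_entry hg) hk)
      (Cong_K0_entry ((Kc F κ 0).inv_mem hg)) i j
    rwa [zero_add, add_zero] at h2
  refine ⟨key k hk.1, ?_⟩
  have h3 : (g * k * g⁻¹)⁻¹ = g * k⁻¹ * g⁻¹ := by group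
  rw [h3]
  exact key k⁻¹ hk.2

theorem Kc_basis (U : Set (GL κ F)) (hU : U ∈ nhds (1 : GL κ F)) :
    ∃ m : ℕ, (Kc F κ m : Set (GL κ F)) ⊆ U := by
  have h1 : T2Space F := locF_t2
  have h2 : T2Space (GL κ F) := Units.instT2Space
  refine exists_subset_nhds_of_isCompact (V := fun m : ℕ => (Kc F κ m : Set (GL κ F))) ?_
    (fun m => Kc_isCompact m) ?_
  · intro a b
    exact ⟨max a b, Kc_anti (le_max_left a b), Kc_anti (le_max_right a b)⟩
  · intro g hg
    have h3 : g = 1 := by
      apply Units.ext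
      ext i j
      have h4 : (g : Matrix κ κ F) i j - (1 : Matrix κ κ F) i j = 0 :=
        eq_zero_of_lat _ fun m => (Cong_mem'.1 (Set.mem_iInter.1 hg m)).1 i j
      rw [Units.val_one]
      exact sub_eq_zero.1 h4
    rw [h3]
    exact hU

theorem gl_t2 : T2Space (GL κ F) := by
  have h1 : T2Space F := locF_t2
  exact Units.instT2Space

theorem gl_sigma : SigmaCompactSpace (GL κ F) := by
  refine ⟨fun m : ℕ => {g : GL κ F |
    (∀ i j, (g : Matrix κ κ F) i j - (1 : Matrix κ κ F) i j ∈ lat F (-(m : ℤ))) ∧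
      ∀ i j, ((g⁻¹ : GL κ F) : Matrix κ κ F) i j - (1 : Matrix κ κ F) i j ∈ lat F (-(m : ℤ))},
    fun m => Kc_isCompact' _, ?_⟩
  refine Set.eq_univ_of_forall fun g => ?_
  obtain ⟨m, hm⟩ := lat_exhaust
    (Set.range (fun p : κ × κ => (g : Matrix κ κ F) p.1 p.2 - (1 : Matrix κ κ F) p.1 p.2) ∪
      Set.range (fun p : κ × κ => ((g⁻¹ : GL κ F) : Matrix κ κ F) p.1 p.2 -
        (1 : Matrix κ κ F) p.1 p.2))
    ((Set.finite_range _).union (Set.finite_range _)).isCompact
  refine Set.mem_iUnion.2 ⟨m, fun i j => hm (Or.inl ⟨(i, j), rfl⟩),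
    fun i j => hm (Or.inr ⟨(i, j), rfl⟩)⟩

theorem gl_locallyCompact : LocallyCompactSpace (GL κ F) := by
  have h2 : T2Space (GL κ F) := gl_t2
  have h3 : WeaklyLocallyCompactSpace (GL κ F) := by
    refine ⟨fun g => ⟨(fun x => g * x) '' (Kc F κ 0 : Set (GL κ F)),
      (Kc_isCompact 0).image (continuous_const.mul continuous_id), ?_⟩⟩
    have h4 : IsOpen ((fun x => g * x) '' (Kc F κ 0 : Set (GL κ F))) :=
      (isOpenMap_mul_left g) _ (Kc_isOpen 0)
    exact h4.mem_nhds ⟨1, (Kc F κ 0).one_mem, mul_one g⟩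
  infer_instance

theorem lev_isClosed {ι : Type} (c : κ → ι) : IsClosed (lev F c : Set (GL κ F)) := by
  have h1 : T2Space F := locF_t2
  have h2 : (lev F c : Set (GL κ F)) =
      ⋂ i : κ, ⋂ j : κ, ⋂ _ : c i ≠ c j, {g : GL κ F | (g : Matrix κ κ F) i j = 0} := by
    ext g
    simp only [Set.mem_iInter]
    rfl
  rw [h2]
  exact isClosed_iInter fun i => isClosed_iInter fun j => isClosed_iInter fun _ =>
    isClosed_eq (Cong_entry i j) continuous_const

theorem upp_isClosed {ι : Type} (cb : κ → ι) (o : κ → ℤ) :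
    IsClosed (upp F cb o : Set (GL κ F)) := by
  have h1 : T2Space F := locF_t2
  have h2 : (upp F cb o : Set (GL κ F)) = (lev F cb : Set (GL κ F)) ∩
      ⋂ i : κ, ⋂ j : κ, ⋂ _ : o j < o i, {g : GL κ F | (g : Matrix κ κ F) i j = 0} := by
    ext g
    simp only [Set.mem_inter_iff, Set.mem_iInter]
    rfl
  rw [h2]
  exact (lev_isClosed cb).inter (isClosed_iInter fun i => isClosed_iInter fun j =>
    isClosed_iInter fun _ => isClosed_eq (Cong_entry i j) continuous_const)

theorem uni_isClosed {ι : Type} (cb : κ → ι) (o : κ → ℤ) :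
    IsClosed (uni F cb o : Set (GL κ F)) := by
  have h1 : T2Space F := locF_t2
  have h2 : (uni F cb o : Set (GL κ F)) = (upp F cb o : Set (GL κ F)) ∩
      ⋂ i : κ, ⋂ j : κ, ⋂ _ : o i = o j,
        {g : GL κ F | (g : Matrix κ κ F) i j = (1 : Matrix κ κ F) i j} := by
    ext g
    simp only [Set.mem_inter_iff, Set.mem_iInter]
    rfl
  rw [h2]
  exact (upp_isClosed cb o).inter (isClosed_iInter fun i => isClosed_iInter fun j =>
    isClosed_iInter fun _ => isClosed_eq (Cong_entry i j) continuous_const)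

/-- for a closed subgroup `H` the compact open subgroups of `H` form a basis (for `HasCO` see
`Dual.lean`) -/
theorem co_closed {G : Type} [Group G] [TopologicalSpace G] [IsTopologicalGroup G]
    (H : Subgroup G) (hH : IsClosed (H : Set G))
    (hB : ∀ U ∈ nhds (1 : G), ∃ K : Subgroup G, IsOpen (K : Set G) ∧ IsCompact (K : Set G) ∧
      (K : Set G) ⊆ U) :
    ∀ U ∈ nhds (1 : H), ∃ K : Subgroup H, IsOpen (K : Set H) ∧ IsCompact (K : Set H) ∧
      (K : Set H) ⊆ U := by
  intro U hU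
  rw [nhds_subtype_eq_comap] at hU
  obtain ⟨V, hV, hVU⟩ := Filter.mem_comap.1 hU
  obtain ⟨K, hK1, hK2, hK3⟩ := hB V hV
  refine ⟨K.subgroupOf H, ?_, ?_, ?_⟩
  · exact hK1.preimage continuous_subtype_val
  · exact hH.isClosedEmbedding_subtypeVal.isCompact_preimage hK2
  · intro x hx
    exact hVU (hK3 hx)

end

end Pool.Agent.Lib.MP_ca1492_al.P
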