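import Mathlib
import Pool.Agent.Lib.MP_ca1492_al.P.Cong

/-!
# MP_ca1492_al, p-adic side, module Cartan: `lev cb = K A K`, `K = Kc 0 ∩ lev cb`

`unifF` a uniformizer, `dia l = diag(unifF ^ (l i))`, `l : κ → ℤ`.

Proof of `cartan`: induction on the number of nonzero off diagonal rows, or: among all matrices
`k₁ g k₂` (`k₁, k₂ ∈ K`) process the indices one by one. For a set `S ⊆ κ` of processed indices the
matrix `x = k₁ g k₂` has `x i j = 0` for `i ≠ j` with `i ∈ S` or `j ∈ S`, and `x i i = unifF ^ l i`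
for `i ∈ S`. If `S ≠ κ` choose a pair `(i, j) ∉ S × S`... i.e. `i, j ∉ S`, with `x i j ≠ 0` of
minimal valuation (there is one since `x` is invertible; then `cb i = cb j`). Multiply by the
permutation matrix exchanging `i` and `j` on the right to move it to the position `(i,i)`; multiply by
a diagonal unit to make it `unifF ^ m`; eliminate the rest of row `i` and column `i` by integral
column and row operations (the quotients are integral by minimality). Put `i` into `S`.
-/

set_option autoImplicit false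

namespace Pool.Agent.Lib.MP_ca1492_al.P

open Topology Matrix ValuativeRel

noncomputable section

variable {F : Type} [Field F] [ValuativeRel F] [TopologicalSpace F]
  [IsNonarchimedeanLocalField F]
variable {κ : Type} [Fintype κ] [DecidableEq κ]

variable (F) in
/-- a uniformizer -/
def unifF : F := (exists_unif (F := F)).choose

theorem unifF_ne_zero : unifF F ≠ 0 := (exists_unif (F := F)).choose_spec.1

theorem ord_unifF : ordF F (unifF F) = 1 := (exists_unif (F := F)).choose_spec.2

variable (F) in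
/-- the diagonal matrix with entries `unifF ^ (l i)` -/
def dia (l : κ → ℤ) : GL κ F where
  val := Matrix.diagonal fun i => unifF F ^ (l i)
  inv := Matrix.diagonal fun i => unifF F ^ (-(l i))
  val_inv := by
    rw [Matrix.diagonal_mul_diagonal, ← Matrix.diagonal_one]
    congr 1
    funext i
    rw [← zpow_add₀ unifF_ne_zero, add_neg_cancel, zpow_zero]
  inv_val := by
    rw [Matrix.diagonal_mul_diagonal, ← Matrix.diagonal_one]
    congr 1
    funext i
    rw [← zpow_add₀ unifF_ne_zero, neg_add_cancel, zpow_zero]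

theorem dia_apply (l : κ → ℤ) (i j : κ) :
    (dia F l : Matrix κ κ F) i j = if i = j then unifF F ^ (l i) else 0 := by
  change Matrix.diagonal (fun i => unifF F ^ (l i)) i j = _
  rw [Matrix.diagonal_apply]

theorem dia_inv (l : κ → ℤ) : (dia F l)⁻¹ = dia F (fun i => - l i) := by
  refine Units.ext ?_
  change Matrix.diagonal (fun i => unifF F ^ (-(l i))) =
    Matrix.diagonal (fun i => unifF F ^ (-(l i)))
  rfl

theorem dia_add (l l' : κ → ℤ) : dia F (fun i => l i + l' i) = dia F l * dia F l' := by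
  refine Units.ext ?_
  rw [Units.val_mul]
  change Matrix.diagonal (fun i => unifF F ^ (l i + l' i)) =
    Matrix.diagonal (fun i => unifF F ^ (l i)) * Matrix.diagonal (fun i => unifF F ^ (l' i))
  rw [Matrix.diagonal_mul_diagonal]
  congr 1
  funext i
  rw [zpow_add₀ unifF_ne_zero]

theorem dia_mem_lev {ι : Type} (cb : κ → ι) (l : κ → ℤ) : dia F l ∈ lev F cb := by
  intro i j hij
  rw [dia_apply, if_neg]
  rintro rfl
  exact hij rfl

variable (F) in
/-- `Kc 0 ∩ lev cb` -/
def Cartan_K {ι : Type} (cb : κ → ι) : Subgroup (GL κ F) := Kc F κ 0 ⊓ lev F cb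

theorem Cartan_one_lat : (1 : F) ∈ lat F ((0 : ℕ) : ℤ) := by
  rw [mem_lat]
  right
  rw [ordF_one]
  rfl

theorem Cartan_one (i j : κ) : (1 : Matrix κ κ F) i j ∈ lat F ((0 : ℕ) : ℤ) := by
  rw [Matrix.one_apply]
  split_ifs
  · exact Cartan_one_lat
  · exact (lat F _).zero_mem

theorem Cartan_memK {ι : Type} (cb : κ → ι) (g : GL κ F)
    (h1 : ∀ i j, (g : Matrix κ κ F) i j ∈ lat F ((0 : ℕ) : ℤ))
    (h2 : ∀ i j, ((g⁻¹ : GL κ F) : Matrix κ κ F) i j ∈ lat F ((0 : ℕ) : ℤ))
    (h3 : ∀ i j, cb i ≠ cb j → (g : Matrix κ κ F) i j = 0) : g ∈ Cartan_K F cb := by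
  refine ⟨⟨fun i j => ?_, fun i j => ?_⟩, h3⟩
  · rw [Matrix.sub_apply]
    exact (lat F _).sub_mem (h1 i j) (Cartan_one i j)
  · rw [Matrix.sub_apply]
    exact (lat F _).sub_mem (h2 i j) (Cartan_one i j)

/-- matrices `1 + N`, `N ^ 2 = 0` -/
def Cartan_T (N : Matrix κ κ F) (hN : N * N = 0) : GL κ F where
  val := 1 + N
  inv := 1 - N
  val_inv := by
    have h : (1 + N) * (1 - N) = 1 - N * N := by noncomm_ring
    rw [h, hN, sub_zero]
  inv_val := by
    have h : (1 - N) * (1 + N) = 1 - N * N := by noncomm_ring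
    rw [h, hN, sub_zero]

theorem Cartan_T_mem {ι : Type} (cb : κ → ι) (N : Matrix κ κ F) (hN : N * N = 0)
    (h1 : ∀ i j, N i j ∈ lat F ((0 : ℕ) : ℤ)) (h2 : ∀ i j, cb i ≠ cb j → N i j = 0) :
    Cartan_T N hN ∈ Cartan_K F cb := by
  refine Cartan_memK cb _ (fun i j => ?_) (fun i j => ?_) (fun i j hij => ?_)
  · change (1 + N) i j ∈ _
    rw [Matrix.add_apply]
    exact (lat F _).add_mem (Cartan_one i j) (h1 i j)
  · change (1 - N) i j ∈ _
    rw [Matrix.sub_apply]
    exact (lat F _).sub_mem (Cartan_one i j) (h1 i j)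
  · change (1 + N) i j = 0
    rw [Matrix.add_apply, h2 i j hij, Matrix.one_apply_ne, add_zero]
    rintro rfl
    exact hij rfl

/-- the diagonal matrix with the entry `u` at `i`, otherwise `1` -/
def Cartan_D (i : κ) (u : F) (hu : u ≠ 0) : GL κ F where
  val := Matrix.diagonal fun a => if a = i then u else 1
  inv := Matrix.diagonal fun a => if a = i then u⁻¹ else 1
  val_inv := by
    rw [Matrix.diagonal_mul_diagonal, ← Matrix.diagonal_one]
    congr 1
    funext a
    split_ifs
    · rw [mul_inv_cancel₀ hu]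
    · rw [one_mul]
  inv_val := by
    rw [Matrix.diagonal_mul_diagonal, ← Matrix.diagonal_one]
    congr 1
    funext a
    split_ifs
    · rw [inv_mul_cancel₀ hu]
    · rw [one_mul]

theorem Cartan_D_mem {ι : Type} (cb : κ → ι) (i : κ) (u : F) (hu : u ≠ 0)
    (h : ordF F u = 0) : Cartan_D i u hu ∈ Cartan_K F cb := by
  refine Cartan_memK cb _ (fun a b => ?_) (fun a b => ?_) (fun a b hab => ?_)
  · change Matrix.diagonal (fun a => if a = i then u else 1) a b ∈ _
    rw [Matrix.diagonal_apply]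
    split_ifs
    · rw [mem_lat]
      right
      rw [h]
      rfl
    · exact Cartan_one_lat
    · exact (lat F _).zero_mem
  · change Matrix.diagonal (fun a => if a = i then u⁻¹ else 1) a b ∈ _
    rw [Matrix.diagonal_apply]
    split_ifs
    · rw [mem_lat]
      right
      rw [ordF_inv, h, neg_zero]
      rfl
    · exact Cartan_one_lat
    · exact (lat F _).zero_mem
  · change Matrix.diagonal (fun a => if a = i then u else 1) a b = 0
    rw [Matrix.diagonal_apply_ne]
    rintro rfl
    exact hab rfl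

/-- transposition matrix -/
def Cartan_P (i j : κ) : GL κ F where
  val := Matrix.of fun a b => if a = Equiv.swap i j b then 1 else 0
  inv := Matrix.of fun a b => if a = Equiv.swap i j b then 1 else 0
  val_inv := by
    ext a b
    simp only [Matrix.mul_apply, Matrix.of_apply, mul_ite, mul_one, mul_zero,
      Finset.sum_ite_eq', Finset.mem_univ, if_true, Equiv.swap_apply_self, Matrix.one_apply]
  inv_val := by
    ext a b
    simp only [Matrix.mul_apply, Matrix.of_apply, mul_ite, mul_one, mul_zero,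
      Finset.sum_ite_eq', Finset.mem_univ, if_true, Equiv.swap_apply_self, Matrix.one_apply]

theorem Cartan_P_mul (i j : κ) (x : Matrix κ κ F) (a b : κ) :
    (x * ((Cartan_P i j : GL κ F) : Matrix κ κ F)) a b = x a (Equiv.swap i j b) := by
  change (x * (Matrix.of fun a b => if a = Equiv.swap i j b then (1 : F) else 0 :
    Matrix κ κ F)) a b = _
  simp only [Matrix.mul_apply, Matrix.of_apply, mul_ite, mul_one, mul_zero,
    Finset.sum_ite_eq', Finset.mem_univ, if_true]

theorem Cartan_P_mem {ι : Type} (cb : κ → ι) (i j : κ) (h : cb i = cb j) :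
    (Cartan_P i j : GL κ F) ∈ Cartan_K F cb := by
  have h0 : ∀ a b : κ, (Matrix.of fun a b => if a = Equiv.swap i j b then (1 : F) else 0) a b ∈
      lat F ((0 : ℕ) : ℤ) := by
    intro a b
    rw [Matrix.of_apply]
    split_ifs
    · exact Cartan_one_lat
    · exact (lat F _).zero_mem
  refine Cartan_memK cb _ h0 h0 (fun a b hab => ?_)
  change (Matrix.of fun a b => if a = Equiv.swap i j b then (1 : F) else 0) a b = 0
  rw [Matrix.of_apply, if_neg]
  rintro rfl
  apply hab
  by_cases h1 : b = i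
  · subst h1
    rw [Equiv.swap_apply_left, h]
  · by_cases h2 : b = j
    · subst h2
      rw [Equiv.swap_apply_right, h]
    · rw [Equiv.swap_apply_of_ne_of_ne h1 h2]

theorem Cartan_ord_zpow (m : ℤ) : ordF F (unifF F ^ m) = m := by
  induction m using Int.induction_on with
  | zero => rw [zpow_zero, ordF_one]
  | succ n ih =>
    rw [zpow_add_one₀ unifF_ne_zero, ordF_mul _ _ (zpow_ne_zero _ unifF_ne_zero) unifF_ne_zero,
      ih, ord_unifF]
  | pred n ih =>
    rw [zpow_sub_one₀ unifF_ne_zero, ordF_mul _ _ (zpow_ne_zero _ unifF_ne_zero)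
      (inv_ne_zero unifF_ne_zero), ih, ordF_inv, ord_unifF]
    ring

theorem Cartan_left (X : Matrix κ κ F) (i : κ) (p : F) (a b : κ) :
    ((1 + Matrix.of fun a b => if b = i ∧ a ≠ i then -(X a i / p) else 0) * X) a b =
      X a b + (if a ≠ i then -(X a i / p) else 0) * X i b := by
  rw [add_mul, one_mul, Matrix.add_apply, Matrix.mul_apply]
  congr 1
  rw [Finset.sum_eq_single i]
  · rw [Matrix.of_apply]
    by_cases h : a = i
    · simp [h]
    · simp [h]
  · intro c _ hc
    rw [Matrix.of_apply, if_neg (fun h => hc h.1), zero_mul]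
  · intro h
    exact absurd (Finset.mem_univ i) h

theorem Cartan_right (X Y : Matrix κ κ F) (i : κ) (p : F) (a b : κ) :
    (Y * (1 + Matrix.of fun a b => if a = i ∧ b ≠ i then -(X i b / p) else 0)) a b =
      Y a b + Y a i * (if b ≠ i then -(X i b / p) else 0) := by
  rw [mul_add, mul_one, Matrix.add_apply, Matrix.mul_apply]
  congr 1
  rw [Finset.sum_eq_single i]
  · rw [Matrix.of_apply]
    by_cases h : b = i
    · simp [h]
    · simp [h]
  · intro c _ hc
    rw [Matrix.of_apply, if_neg (fun h => hc h.1), mul_zero]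
  · intro h
    exact absurd (Finset.mem_univ i) h

theorem Cartan_N1 (X : Matrix κ κ F) (i : κ) (p : F) :
    (Matrix.of fun a b => if b = i ∧ a ≠ i then -(X a i / p) else 0) *
      (Matrix.of fun a b => if b = i ∧ a ≠ i then -(X a i / p) else 0) =
        (0 : Matrix κ κ F) := by
  ext a b
  rw [Matrix.mul_apply, Matrix.zero_apply]
  refine Finset.sum_eq_zero fun c _ => ?_
  rw [Matrix.of_apply, Matrix.of_apply]
  by_cases h : c = i
  · rw [if_neg (c := b = i ∧ c ≠ i) (fun h' => h'.2 h), mul_zero]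
  · rw [if_neg (c := c = i ∧ a ≠ i) (fun h' => h h'.1), zero_mul]

theorem Cartan_N2 (X : Matrix κ κ F) (i : κ) (p : F) :
    (Matrix.of fun a b => if a = i ∧ b ≠ i then -(X i b / p) else 0) *
      (Matrix.of fun a b => if a = i ∧ b ≠ i then -(X i b / p) else 0) =
        (0 : Matrix κ κ F) := by
  ext a b
  rw [Matrix.mul_apply, Matrix.zero_apply]
  refine Finset.sum_eq_zero fun c _ => ?_
  rw [Matrix.of_apply, Matrix.of_apply]
  by_cases h : c = i
  · rw [if_neg (c := a = i ∧ c ≠ i) (fun h' => h'.2 h), zero_mul]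
  · rw [if_neg (c := c = i ∧ b ≠ i) (fun h' => h h'.1), mul_zero]

theorem Cartan_div {x p : F} (hp : p ≠ 0) (h : x ≠ 0 → ordF F p ≤ ordF F x) :
    -(x / p) ∈ lat F ((0 : ℕ) : ℤ) := by
  refine (lat F _).neg_mem ?_
  rw [mem_lat]
  by_cases hx : x = 0
  · left
    rw [hx, zero_div]
  · right
    rw [div_eq_mul_inv, ordF_mul _ _ hx (inv_ne_zero hp), ordF_inv]
    have := h hx
    push_cast
    linarith

theorem Cartan_elim {ι : Type} (cb : κ → ι) (x : GL κ F) (hx : x ∈ lev F cb) (S : Finset κ)
    (hS0 : ∀ a b, a ≠ b → (a ∈ S ∨ b ∈ S) → (x : Matrix κ κ F) a b = 0)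
    (hS1 : ∀ a ∈ S, ∃ l : ℤ, (x : Matrix κ κ F) a a = unifF F ^ l) (i : κ) (hi : i ∉ S)
    (hp : (x : Matrix κ κ F) i i ≠ 0)
    (hmin : ∀ a b, a ∉ S → b ∉ S → (x : Matrix κ κ F) a b ≠ 0 →
      ordF F ((x : Matrix κ κ F) i i) ≤ ordF F ((x : Matrix κ κ F) a b)) :
    ∃ k₁ ∈ Cartan_K F cb, ∃ k₂ ∈ Cartan_K F cb,
      (∀ a b, a ≠ b → (a ∈ insert i S ∨ b ∈ insert i S) →
        ((k₁ * x * k₂ : GL κ F) : Matrix κ κ F) a b = 0) ∧
      ∀ a ∈ insert i S, ∃ l : ℤ, ((k₁ * x * k₂ : GL κ F) : Matrix κ κ F) a a = unifF F ^ l := by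
  set X : Matrix κ κ F := (x : Matrix κ κ F) with hX
  set p : F := X i i with hpd
  have hu : unifF F ^ (ordF F p) / p ≠ 0 := div_ne_zero (zpow_ne_zero _ unifF_ne_zero) hp
  have hm1 : ∀ a, a ≠ i → X a i ≠ 0 → ordF F p ≤ ordF F (X a i) := by
    intro a ha h
    refine hmin a i (fun haS => h (hS0 a i ha (Or.inl haS))) hi h
  have hm2 : ∀ b, b ≠ i → X i b ≠ 0 → ordF F p ≤ ordF F (X i b) := by
    intro b hb h
    refine hmin i b hi (fun hbS => h (hS0 i b hb.symm (Or.inr hbS))) h
  refine ⟨Cartan_T _ (Cartan_N1 X i p), Cartan_T_mem cb _ _ (fun a b => ?_) (fun a b hab => ?_),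
    Cartan_T _ (Cartan_N2 X i p) * Cartan_D i (unifF F ^ (ordF F p) / p) hu,
    (Cartan_K F cb).mul_mem (Cartan_T_mem cb _ _ (fun a b => ?_) (fun a b hab => ?_))
      (Cartan_D_mem cb i _ hu ?_), ?_⟩
  · rw [Matrix.of_apply]
    split_ifs with h
    · exact Cartan_div hp (hm1 a h.2)
    · exact (lat F _).zero_mem
  · rw [Matrix.of_apply]
    split_ifs with h
    · obtain ⟨rfl, h⟩ := h
      have h5 : X a b = 0 := hx a b hab
      rw [h5, zero_div, neg_zero]
    · rfl
  · rw [Matrix.of_apply]
    split_ifs with h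
    · exact Cartan_div hp (hm2 b h.2)
    · exact (lat F _).zero_mem
  · rw [Matrix.of_apply]
    split_ifs with h
    · obtain ⟨rfl, h⟩ := h
      have h5 : X a b = 0 := hx a b hab
      rw [h5, zero_div, neg_zero]
    · rfl
  · rw [div_eq_mul_inv, ordF_mul _ _ (zpow_ne_zero _ unifF_ne_zero) (inv_ne_zero hp), ordF_inv,
      Cartan_ord_zpow, add_neg_cancel]
  · have hz : ∀ a b, ((Cartan_T _ (Cartan_N1 X i p) * x * (Cartan_T _ (Cartan_N2 X i p) *
        Cartan_D i (unifF F ^ (ordF F p) / p) hu) : GL κ F) : Matrix κ κ F) a b =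
        (X a b + (if a ≠ i then -(X a i / p) else 0) * X i b +
          (X a i + (if a ≠ i then -(X a i / p) else 0) * X i i) *
            (if b ≠ i then -(X i b / p) else 0)) *
          (if b = i then unifF F ^ (ordF F p) / p else 1) := by
      intro a b
      rw [← mul_assoc, Units.val_mul, Units.val_mul, Units.val_mul]
      change ((((1 + Matrix.of fun a b => if b = i ∧ a ≠ i then -(X a i / p) else 0) * X) *
        (1 + Matrix.of fun a b => if a = i ∧ b ≠ i then -(X i b / p) else 0)) *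
        Matrix.diagonal fun a => if a = i then unifF F ^ (ordF F p) / p else 1) a b = _
      rw [Matrix.mul_diagonal, Cartan_right, Cartan_left, Cartan_left]
    refine ⟨fun a b hab hm => ?_, fun a ha => ?_⟩
    · rw [hz]
      by_cases ha : a = i
      · subst ha
        have hb : b ≠ a := hab.symm
        rw [if_neg (fun h => h rfl), if_pos hb, if_neg hb, zero_mul, zero_mul, mul_one]
        field_simp
        ring
      · by_cases hb : b = i
        · subst hb
          rw [if_pos ha, if_neg (c := b ≠ b) (fun h => h rfl), if_pos rfl]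
          have : X a b + -(X a b / p) * X b b = 0 := by
            rw [← hpd]
            field_simp
            ring
          rw [this]
          ring
        · have hS : a ∈ S ∨ b ∈ S := by
            rcases hm with h | h
            · exact Or.inl ((Finset.mem_insert.1 h).resolve_left ha)
            · exact Or.inr ((Finset.mem_insert.1 h).resolve_left hb)
          have h1 : X a b = 0 := hS0 a b hab hS
          have h2 : X a i = 0 ∨ X i b = 0 := by
            rcases hS with h | h
            · exact Or.inl (hS0 a i ha (Or.inl h))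
            · exact Or.inr (hS0 i b (Ne.symm hb) (Or.inr h))
          rw [h1, if_pos ha, if_pos hb]
          rcases h2 with h2 | h2 <;> rw [h2] <;> simp
    · rw [hz]
      by_cases hai : a = i
      · subst hai
        refine ⟨ordF F p, ?_⟩
        rw [if_neg (c := a ≠ a) (fun h => h rfl), if_pos rfl]
        rw [← hpd]
        field_simp
        ring
      · have haS : a ∈ S := (Finset.mem_insert.1 ha).resolve_left hai
        obtain ⟨l, hl⟩ := hS1 a haS
        refine ⟨l, ?_⟩
        rw [if_pos hai, if_pos hai, if_neg hai, hS0 a i hai (Or.inl haS), hl]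
        simp

theorem Cartan_main {ι : Type} (cb : κ → ι) : ∀ (n : ℕ) (S : Finset κ), Sᶜ.card = n →
    ∀ (x : GL κ F), x ∈ lev F cb →
    (∀ a b, a ≠ b → (a ∈ S ∨ b ∈ S) → (x : Matrix κ κ F) a b = 0) →
    (∀ a ∈ S, ∃ l : ℤ, (x : Matrix κ κ F) a a = unifF F ^ l) →
    ∃ k₁ ∈ Cartan_K F cb, ∃ k₂ ∈ Cartan_K F cb, ∃ l : κ → ℤ, x = k₁ * dia F l * k₂ := by
  classical
  intro n
  induction n with
  | zero =>
    intro S hS x hx hS0 hS1
    have hu : ∀ a, a ∈ S := by
      intro a
      by_contra h
      have : a ∈ Sᶜ := Finset.mem_compl.2 h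
      rw [Finset.card_eq_zero.1 hS] at this
      exact absurd this (Finset.notMem_empty a)
    choose l hl using fun a => hS1 a (hu a)
    refine ⟨1, (Cartan_K F cb).one_mem, 1, (Cartan_K F cb).one_mem, l, ?_⟩
    rw [one_mul, mul_one]
    refine Units.ext (Matrix.ext fun a b => ?_)
    rw [dia_apply]
    split_ifs with h
    · subst h
      exact hl a
    · exact hS0 a b h (Or.inl (hu a))
  | succ n ih =>
    intro S hS x hx hS0 hS1
    have hne : (Sᶜ).Nonempty := Finset.card_pos.1 (by omega)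
    obtain ⟨i0, hi0⟩ := hne
    have hi0' : i0 ∉ S := Finset.mem_compl.1 hi0
    have hrow : ∃ j0, (x : Matrix κ κ F) i0 j0 ≠ 0 := by
      by_contra h
      push Not at h
      have h1 : ((x : Matrix κ κ F) * ((x⁻¹ : GL κ F) : Matrix κ κ F)) i0 i0 = 1 := by
        rw [← Units.val_mul, mul_inv_cancel, Units.val_one, Matrix.one_apply_eq]
      rw [Matrix.mul_apply, Finset.sum_eq_zero (fun c _ => by rw [h c, zero_mul])] at h1
      exact zero_ne_one h1
    obtain ⟨j0, hj0⟩ := hrow
    have hj0' : j0 ∉ S := by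
      intro h
      by_cases h1 : i0 = j0
      · exact hi0' (h1 ▸ h)
      · exact hj0 (hS0 i0 j0 h1 (Or.inr h))
    obtain ⟨⟨i, j⟩, hij, hmin⟩ := Finset.exists_min_image
      ((Finset.univ : Finset (κ × κ)).filter fun q =>
        q.1 ∉ S ∧ q.2 ∉ S ∧ (x : Matrix κ κ F) q.1 q.2 ≠ 0)
      (fun q => ordF F ((x : Matrix κ κ F) q.1 q.2))
      ⟨(i0, j0), Finset.mem_filter.2 ⟨Finset.mem_univ _, hi0', hj0', hj0⟩⟩
    obtain ⟨_, hi, hj, hxij⟩ := Finset.mem_filter.1 hij
    simp only at hi hj hxij
    have hcb : cb i = cb j := by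
      by_contra h
      exact hxij (hx i j h)
    have hP : (Cartan_P i j : GL κ F) ∈ Cartan_K F cb := Cartan_P_mem cb i j hcb
    have hxP : x * Cartan_P i j ∈ lev F cb := (lev F cb).mul_mem hx hP.2
    have hsw : ∀ b, b ∈ S → Equiv.swap i j b = b := by
      intro b hb
      refine Equiv.swap_apply_of_ne_of_ne ?_ ?_
      · rintro rfl
        exact hi hb
      · rintro rfl
        exact hj hb
    have hsw' : ∀ b, b ∉ S → Equiv.swap i j b ∉ S := by
      intro b hb h
      have h1 := hsw _ h
      rw [Equiv.swap_apply_self] at h1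
      rw [← h1] at h
      exact hb h
    obtain ⟨k₁, hk₁, k₂, hk₂, hz0, hz1⟩ := Cartan_elim cb (x * Cartan_P i j) hxP S
      (fun a b hab hm => by
        rw [Units.val_mul, Cartan_P_mul]
        rcases hm with h | h
        · refine hS0 a _ (fun h' => hab ?_) (Or.inl h)
          have h2 := hsw a h
          rw [h', Equiv.swap_apply_self] at h2
          rw [h']
          exact h2.symm
        · rw [hsw b h]
          exact hS0 a b hab (Or.inr h))
      (fun a ha => by
        rw [Units.val_mul, Cartan_P_mul, hsw a ha]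
        exact hS1 a ha) i hi
      (by
        rw [Units.val_mul, Cartan_P_mul, Equiv.swap_apply_left]
        exact hxij)
      (fun a b ha hb h => by
        rw [Units.val_mul, Cartan_P_mul, Cartan_P_mul, Equiv.swap_apply_left]
        rw [Units.val_mul, Cartan_P_mul] at h
        exact hmin (a, Equiv.swap i j b) (Finset.mem_filter.2
          ⟨Finset.mem_univ _, ha, hsw' b hb, h⟩))
    have hz : k₁ * (x * Cartan_P i j) * k₂ ∈ lev F cb :=
      (lev F cb).mul_mem ((lev F cb).mul_mem hk₁.2 hxP) hk₂.2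
    have hcard : ((insert i S)ᶜ).card = n := by
      rw [Finset.card_compl] at hS ⊢
      rw [Finset.card_insert_of_notMem hi]
      omega
    obtain ⟨a₁, ha₁, a₂, ha₂, l, hl⟩ := ih (insert i S) hcard _ hz hz0 hz1
    refine ⟨k₁⁻¹ * a₁, (Cartan_K F cb).mul_mem ((Cartan_K F cb).inv_mem hk₁) ha₁,
      a₂ * (Cartan_P i j * k₂)⁻¹, (Cartan_K F cb).mul_mem ha₂
        ((Cartan_K F cb).inv_mem ((Cartan_K F cb).mul_mem hP hk₂)), l, ?_⟩
    have h1 : k₁⁻¹ * a₁ * dia F l * (a₂ * (Cartan_P i j * k₂)⁻¹) =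
        k₁⁻¹ * (a₁ * dia F l * a₂) * (Cartan_P i j * k₂)⁻¹ := by group
    rw [h1, ← hl]
    group

theorem cartan {ι : Type} (cb : κ → ι) (g : GL κ F) (hg : g ∈ lev F cb) :
    ∃ k₁ ∈ Kc F κ 0, ∃ k₂ ∈ Kc F κ 0, k₁ ∈ lev F cb ∧ k₂ ∈ lev F cb ∧
      ∃ l : κ → ℤ, g = k₁ * dia F l * k₂ := by
  obtain ⟨k₁, hk₁, k₂, hk₂, l, hl⟩ := Cartan_main cb _ ∅ rfl g hg
    (fun a b _ h => by
      rcases h with h | h
      · exact absurd h (Finset.notMem_empty a)
      · exact absurd h (Finset.notMem_empty b))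
    (fun a h => absurd h (Finset.notMem_empty a))
  exact ⟨k₁, hk₁.1, k₂, hk₂.1, hk₁.2, hk₂.2, l, hl⟩

end

end Pool.Agent.Lib.MP_ca1492_al.P
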