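import Mathlib
import Pool.Agent.Lib.MP_ca1492_al.P.Base

/-!
# MP_ca1492_al, p-adic side, module Chain: transitivity of Jacquet modules and induction

`D₁ : PD H M`, `D₂ : PD M L`, `D : PD H L` with `D.N = D₁.N D₂.N`.

* `jac_trans`: `D.kerJ π` is the preimage of `D₂.kerJ (D₁.Jac π)` under `V → V / D₁.kerJ π`:
  for `n = a b`: `π(ab) v - v = (π(a) w - w) + (π(b) v - v)` with `w = π(b) v`; conversely
  `D₁.N, D₂.N ≤ D.N`. Then use the third isomorphism theorem (or build the maps with `liftQ`).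
* `ind_trans`: `f ↦ (g ↦ (f g)(1))`, inverse `f ↦ (g ↦ (m ↦ f (m g)))`: the inner function is
  right invariant under the open subgroup `{m | g⁻¹ m g ∈ U}` of `M`, left equivariant since
  `D₂.N ≤ D.N`; the outer one: `f(m m' n₁ g) = f((m m') n₁ (m m')⁻¹ (m m' g)) = f(m m' g)` for
  `n₁ ∈ D₁.N` because `M` normalizes `D₁.N ≤ D.N`.
-/

set_option autoImplicit false

namespace Pool.Agent.Lib.MP_ca1492_al.P

open Topology

noncomputable section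

namespace PD

variable {G : Type} [Group G] [TopologicalSpace G] [IsTopologicalGroup G]
  {H M L : Subgroup G}
variable {V W : Type} [AddCommGroup V] [Module ℂ V] [AddCommGroup W] [Module ℂ W]

/-- `D` is the composition of the parabolic data `D₁` and `D₂` -/
def IsChain (D₁ : PD H M) (D₂ : PD M L) (D : PD H L) : Prop :=
  ∀ g : G, g ∈ D.N ↔ ∃ a ∈ D₁.N, ∃ b ∈ D₂.N, g = a * b

theorem Chain_le₁ {D₁ : PD H M} {D₂ : PD M L} {D : PD H L} (hD : IsChain D₁ D₂ D) {g : G}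
    (hg : g ∈ D₁.N) : g ∈ D.N :=
  (hD g).2 ⟨g, hg, 1, D₂.N.one_mem, (mul_one g).symm⟩

theorem Chain_le₂ {D₁ : PD H M} {D₂ : PD M L} {D : PD H L} (hD : IsChain D₁ D₂ D) {g : G}
    (hg : g ∈ D₂.N) : g ∈ D.N :=
  (hD g).2 ⟨1, D₁.N.one_mem, g, hg, (one_mul g).symm⟩

theorem Chain_kerJ_le {D₁ : PD H M} {D₂ : PD M L} {D : PD H L} (hD : IsChain D₁ D₂ D)
    (π : Representation ℂ H V) : D₁.kerJ π ≤ D.kerJ π := by
  refine Submodule.span_le.2 ?_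
  rintro x ⟨n, hn, v, rfl⟩
  exact Submodule.subset_span ⟨n, Chain_le₁ hD hn, v, rfl⟩

theorem Chain_ker {D₁ : PD H M} {D₂ : PD M L} {D : PD H L} (hD : IsChain D₁ D₂ D)
    (π : Representation ℂ H V) :
    D.kerJ π = LinearMap.ker ((D₂.kerJ (D₁.Jac π)).mkQ.comp (D₁.kerJ π).mkQ) := by
  apply le_antisymm
  · refine Submodule.span_le.2 ?_
    rintro x ⟨n, hn, v, rfl⟩
    obtain ⟨a, ha, b, hb, hab⟩ := (hD n).1 hn
    subst hab
    have haH : a ∈ H := D₁.hN ha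
    have hbH : b ∈ H := D₁.hM (D₂.hN hb)
    have h1 : π ⟨a * b, D.hN hn⟩ v - v =
        (π ⟨a, haH⟩ (π ⟨b, hbH⟩ v) - π ⟨b, hbH⟩ v) + (π ⟨b, hbH⟩ v - v) := by
      have h2 : (⟨a * b, D.hN hn⟩ : H) = ⟨a, haH⟩ * ⟨b, hbH⟩ := rfl
      rw [h2, map_mul, Module.End.mul_apply]
      abel
    have h3 : π ⟨a, haH⟩ (π ⟨b, hbH⟩ v) - π ⟨b, hbH⟩ v ∈ D₁.kerJ π :=
      Submodule.subset_span ⟨a, ha, _, rfl⟩
    have h4 : (D₁.kerJ π).mkQ (π ⟨b, hbH⟩ v - v) ∈ D₂.kerJ (D₁.Jac π) :=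
      Submodule.subset_span ⟨b, hb, (D₁.kerJ π).mkQ v, rfl⟩
    have h5 : (D₁.kerJ π).mkQ (π ⟨a, haH⟩ (π ⟨b, hbH⟩ v) - π ⟨b, hbH⟩ v) = 0 := by
      rw [Submodule.mkQ_apply, Submodule.Quotient.mk_eq_zero]
      exact h3
    have h6 : (D₂.kerJ (D₁.Jac π)).mkQ ((D₁.kerJ π).mkQ (π ⟨b, hbH⟩ v - v)) = 0 := by
      rw [Submodule.mkQ_apply (D₂.kerJ (D₁.Jac π)), Submodule.Quotient.mk_eq_zero]
      exact h4
    rw [SetLike.mem_coe, LinearMap.mem_ker, LinearMap.comp_apply, h1, map_add, h5, zero_add, h6]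
  · intro v hv
    rw [LinearMap.mem_ker, LinearMap.comp_apply, Submodule.mkQ_apply (D₂.kerJ (D₁.Jac π)),
      Submodule.Quotient.mk_eq_zero] at hv
    have h1 : D₂.kerJ (D₁.Jac π) ≤ (D.kerJ π).map (D₁.kerJ π).mkQ := by
      refine Submodule.span_le.2 ?_
      rintro x ⟨n, hn, y, rfl⟩
      obtain ⟨v, rfl⟩ := (D₁.kerJ π).mkQ_surjective y
      refine ⟨π ⟨n, D.hN (Chain_le₂ hD hn)⟩ v - v,
        Submodule.subset_span ⟨n, Chain_le₂ hD hn, v, rfl⟩, ?_⟩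
      rfl
    obtain ⟨w, hw, hwv⟩ := h1 hv
    have h2 : v - w ∈ D₁.kerJ π := by
      rw [← Submodule.Quotient.mk_eq_zero, Submodule.Quotient.mk_sub, sub_eq_zero]
      exact hwv.symm
    have h3 : v = (v - w) + w := by abel
    rw [h3]
    exact Submodule.add_mem _ (Chain_kerJ_le hD π h2) hw

theorem jac_trans (D₁ : PD H M) (D₂ : PD M L) (D : PD H L) (hD : IsChain D₁ D₂ D)
    (π : Representation ℂ H V) :
    ∃ e : (V ⧸ D.kerJ π) ≃ₗ[ℂ] ((V ⧸ D₁.kerJ π) ⧸ D₂.kerJ (D₁.Jac π)),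
      (∀ (g : L) (x : V ⧸ D.kerJ π), e (D.Jac π g x) = D₂.Jac (D₁.Jac π) g (e x)) ∧
      ∀ v : V, e (Submodule.Quotient.mk v) = Submodule.Quotient.mk (Submodule.Quotient.mk v) := by
  have hs : Function.Surjective ((D₂.kerJ (D₁.Jac π)).mkQ.comp (D₁.kerJ π).mkQ) := by
    rw [LinearMap.coe_comp]
    exact (Submodule.mkQ_surjective _).comp (Submodule.mkQ_surjective _)
  have key : ∀ v : V, ((Submodule.quotEquivOfEq _ _ (Chain_ker hD π)).trans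
      (LinearMap.quotKerEquivOfSurjective _ hs)) (Submodule.Quotient.mk v)
      = Submodule.Quotient.mk (Submodule.Quotient.mk v) := fun v => rfl
  refine ⟨(Submodule.quotEquivOfEq _ _ (Chain_ker hD π)).trans
    (LinearMap.quotKerEquivOfSurjective _ hs), ?_, key⟩
  intro g x
  obtain ⟨v, rfl⟩ := (D.kerJ π).mkQ_surjective x
  have h1 : D.Jac π g ((D.kerJ π).mkQ v) =
      Submodule.Quotient.mk (π (Subgroup.inclusion D.hM g) v) := rfl
  rw [h1, key, Submodule.mkQ_apply, key]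
  rfl

/-- the map `f ↦ (g ↦ (f g)(1))` -/
def Chain_to (D₁ : PD H M) (D₂ : PD M L) (D : PD H L) (hD : IsChain D₁ D₂ D)
    (σ : Representation ℂ L W) (f : D₁.IndSp (D₂.Ind σ)) : D.IndSp σ :=
  ⟨fun g => (f.1 g).1 1, by
    obtain ⟨h1, U, hU, h2⟩ := f.2
    refine ⟨?_, U, hU, fun g u hu => congrArg (fun y => y.1 1) (h2 g u hu)⟩
    intro m hm n hn g
    show (f.1 _).1 1 = σ ⟨m, hm⟩ ((f.1 g).1 1)
    obtain ⟨a, ha, b, hb, hab⟩ := (hD n).1 hn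
    subst hab
    have hmM : m ∈ M := D₂.hM hm
    have hbM : b ∈ M := D₂.hN hb
    have hc : b⁻¹ * a * b ∈ D₁.N := by
      have := D₁.norm b⁻¹ (M.inv_mem hbM) a ha
      rwa [inv_inv] at this
    have h3 := h1 (m * b) (M.mul_mem hmM hbM) (b⁻¹ * a * b) hc g
    have h4 : (⟨m, D.hM hm⟩ * ⟨a * b, D.hN hn⟩ * g : H) =
        ⟨m * b, D₁.hM (M.mul_mem hmM hbM)⟩ * ⟨b⁻¹ * a * b, D₁.hN hc⟩ * g := by
      apply Subtype.ext
      simp only [Subgroup.coe_mul]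
      group
    rw [h4, h3]
    have h5 := (f.1 g).2.1 m hm b hb 1
    have h6 : (D₂.Ind σ ⟨m * b, M.mul_mem hmM hbM⟩ (f.1 g)).1 1 =
        (f.1 g).1 (⟨m, D₂.hM hm⟩ * ⟨b, D₂.hN hb⟩ * 1) := by
      show (f.1 g).1 (1 * ⟨m * b, M.mul_mem hmM hbM⟩) = _
      refine congrArg _ (Subtype.ext ?_)
      simp
    rw [h6, h5]⟩

/-- the inner function of the inverse map -/
def Chain_in (D₁ : PD H M) (D₂ : PD M L) (D : PD H L) (hD : IsChain D₁ D₂ D)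
    (σ : Representation ℂ L W) (f : D.IndSp σ) (g : H) : D₂.IndSp σ :=
  ⟨fun m => f.1 (⟨m.1, D₁.hM m.2⟩ * g), by
    obtain ⟨h1, U, hU, h2⟩ := f.2
    refine ⟨?_, U.comap (((MulAut.conj g⁻¹).toMonoidHom).comp (Subgroup.inclusion D₁.hM)),
      ?_, ?_⟩
    · intro l hl n hn m
      have h3 := h1 l hl n (Chain_le₂ hD hn) (⟨m.1, D₁.hM m.2⟩ * g)
      rw [← h3]
      refine congrArg _ (Subtype.ext ?_)
      simp only [Subgroup.coe_mul, mul_assoc]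
    · rw [Subgroup.coe_comap]
      refine hU.preimage ?_
      have h3 : Continuous (Subgroup.inclusion D₁.hM) :=
        Continuous.subtype_mk continuous_subtype_val _
      have h4 : ⇑(((MulAut.conj g⁻¹).toMonoidHom).comp (Subgroup.inclusion D₁.hM)) =
          fun m : M => g⁻¹ * (Subgroup.inclusion D₁.hM m) * g := by
        funext m
        simp [MulAut.conj_apply]
      rw [h4]
      fun_prop
    · intro m u hu
      have hu' : g⁻¹ * ⟨u.1, D₁.hM u.2⟩ * g ∈ U := by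
        have h0 := Subgroup.mem_comap.1 hu
        have h1' : (((MulAut.conj g⁻¹).toMonoidHom).comp (Subgroup.inclusion D₁.hM)) u =
            g⁻¹ * ⟨u.1, D₁.hM u.2⟩ * g := by
          simp [MulAut.conj_apply, Subgroup.inclusion]
        rwa [h1'] at h0
      have h3 := h2 (⟨m.1, D₁.hM m.2⟩ * g) _ hu'
      show f.1 (⟨(m * u).1, D₁.hM (m * u).2⟩ * g) = f.1 (⟨m.1, D₁.hM m.2⟩ * g)
      rw [← h3]
      refine congrArg _ (Subtype.ext ?_)
      simp only [Subgroup.coe_mul, Subgroup.coe_inv]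
      group⟩

/-- the inverse map -/
def Chain_inv (D₁ : PD H M) (D₂ : PD M L) (D : PD H L) (hD : IsChain D₁ D₂ D)
    (σ : Representation ℂ L W) (f : D.IndSp σ) : D₁.IndSp (D₂.Ind σ) :=
  ⟨fun g => Chain_in D₁ D₂ D hD σ f g, by
    obtain ⟨h1, U, hU, h2⟩ := f.2
    refine ⟨?_, U, hU, ?_⟩
    · intro m hm n hn g
      refine Subtype.ext (funext fun m' => ?_)
      show f.1 (⟨m'.1, D₁.hM m'.2⟩ * (⟨m, D₁.hM hm⟩ * ⟨n, D₁.hN hn⟩ * g)) =
        f.1 (⟨(m' * ⟨m, hm⟩).1, D₁.hM (m' * ⟨m, hm⟩).2⟩ * g)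
      have hk : (m'.1 * m) * n * (m'.1 * m)⁻¹ ∈ D₁.N :=
        D₁.norm _ (M.mul_mem m'.2 hm) n hn
      have h3 := h1 1 L.one_mem _ (Chain_le₁ hD hk)
        (⟨(m' * ⟨m, hm⟩).1, D₁.hM (m' * ⟨m, hm⟩).2⟩ * g)
      have h4 : (⟨1, L.one_mem⟩ : L) = 1 := rfl
      rw [h4, map_one, Module.End.one_apply] at h3
      rw [← h3]
      refine congrArg _ (Subtype.ext ?_)
      simp only [Subgroup.coe_mul]
      group
    · intro g u hu
      refine Subtype.ext (funext fun m' => ?_)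
      show f.1 (⟨m'.1, D₁.hM m'.2⟩ * (g * u)) = f.1 (⟨m'.1, D₁.hM m'.2⟩ * g)
      rw [← mul_assoc, h2 _ u hu]⟩

/-- the linear equivalence -/
def Chain_equiv (D₁ : PD H M) (D₂ : PD M L) (D : PD H L) (hD : IsChain D₁ D₂ D)
    (σ : Representation ℂ L W) : D₁.IndSp (D₂.Ind σ) ≃ₗ[ℂ] D.IndSp σ where
  toFun := Chain_to D₁ D₂ D hD σ
  map_add' _ _ := rfl
  map_smul' _ _ := rfl
  invFun := Chain_inv D₁ D₂ D hD σ
  left_inv f := by
    refine Subtype.ext (funext fun g => Subtype.ext (funext fun m => ?_))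
    show (f.1 (⟨m.1, D₁.hM m.2⟩ * g)).1 1 = (f.1 g).1 m
    have h1 := f.2.1 m.1 m.2 1 D₁.N.one_mem g
    have h2 : (⟨m.1, D₁.hM m.2⟩ * ⟨1, D₁.hN D₁.N.one_mem⟩ * g : H) =
        ⟨m.1, D₁.hM m.2⟩ * g := by
      apply Subtype.ext
      simp
    rw [h2] at h1
    rw [h1]
    show (f.1 g).1 (1 * m) = (f.1 g).1 m
    rw [one_mul]
  right_inv f := by
    refine Subtype.ext (funext fun g => ?_)
    show f.1 (⟨1, _⟩ * g) = f.1 g
    refine congrArg _ (Subtype.ext ?_)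
    simp

theorem ind_trans (D₁ : PD H M) (D₂ : PD M L) (D : PD H L) (hD : IsChain D₁ D₂ D)
    (σ : Representation ℂ L W) :
    ∃ e : D₁.IndSp (D₂.Ind σ) ≃ₗ[ℂ] D.IndSp σ,
      (∀ (g : H) (f : D₁.IndSp (D₂.Ind σ)), e (D₁.Ind (D₂.Ind σ) g f) = D.Ind σ g (e f)) ∧
      (∀ (f : D₁.IndSp (D₂.Ind σ)) (g : H), (e f).1 g = (f.1 g).1 1) ∧
      (∀ (f : D.IndSp σ) (g : H) (m : M),
        ((e.symm f).1 g).1 m = f.1 (⟨m.1, D₁.hM m.2⟩ * g)) :=
  ⟨Chain_equiv D₁ D₂ D hD σ, fun _ _ => rfl, fun _ _ => rfl, fun _ _ _ => rfl⟩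

end PD

end

end Pool.Agent.Lib.MP_ca1492_al.P
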