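import Mathlib
import Pool.Agent.Lib.MP_ca1492_al.P.Chain
import Pool.Agent.Lib.MP_ca1492_al.P.Cong

/-!
# MP_ca1492_al, p-adic side, module ParD: the parabolic data of block triangular matrices

`c : κ → ι` the colouring of the Levi subgroup, `cb : κ → ι'` the colouring of the big group,
`o : κ → ℤ` the order, with `c i = c j ↔ cb i = cb j ∧ o i = o j`.

* `lev_le`: clear.
* `uni_norm`: `(m n m⁻¹) i j = Σ m i k * n k l * m⁻¹ l j`; nonzero terms have `c i = c k`,
  `c l = c j`, and `cb k = cb l`, `o k ≤ o l`. So the product is in `upp`; if `o i = o j` then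
  `o k = o l`, so `n k l = δ_kl` and the sum is `(m m⁻¹) i j = δ_ij`.
* `uni_disj`: `g ∈ lev c ∩ uni`: if `o i = o j` then `g i j = δ`; if `o i ≠ o j` then `c i ≠ c j`
  and `g i j = 0`.
* `uni_exh`: let `t = diag(ϖ ^ (o i))`. `(t^(-k) g t^k) i j = ϖ^(k (o j - o i)) g i j`. The group
  `K_k = {g ∈ uni | t^(-k) g t^k ∈ Kc 0}` is compact (`uni` closed, `Kc 0` compact). For compact
  `C ⊆ uni` there is `m` with all entries of `g`, `g⁻¹` (`g ∈ C`) in `lat (-m)` (`lat_exhaust` for
  the images of `C` under the finitely many entry maps); take `k = m`.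
* `upp_decomp`: for `g ∈ upp` let `m i j = g i j` if `o i = o j` (equivalently, for nonzero entries,
  `c i = c j`) and `0` otherwise; the same for `g⁻¹` gives the inverse of `m` (entries of
  `g g⁻¹ = 1` with `o i = o j` only involve `o k = o i`); `m ∈ lev c` and `n = m⁻¹ g ∈ uni`.
* `parD_chain`: for `g ∈ uni c'' o` let `b` be the part of `g` with `c' i = c' j` (equivalently
  `o₁ i = o₁ j` for nonzero entries), as in `upp_decomp` for `o₁`: `g = a' b` with `b ∈ lev c'` the
  block part and `a' ∈ uni c'' o₁` (take the decomposition `g = m n = (m n m⁻¹) m`); `b ∈ uni c' o₂`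
  because inside a `c'` class `o` and `o₂` define the same order. Conversely both groups are
  contained in `uni c'' o`.
-/

set_option autoImplicit false

namespace Pool.Agent.Lib.MP_ca1492_al.P

open Topology Matrix ValuativeRel

noncomputable section

variable {F : Type} [Field F] [ValuativeRel F] [TopologicalSpace F]
  [IsNonarchimedeanLocalField F]
variable {κ : Type} [Fintype κ] [DecidableEq κ]

theorem lev_le {ι ι' : Type} (c : κ → ι) (cb : κ → ι')
    (h : ∀ i j, c i = c j → cb i = cb j) : lev F c ≤ lev F cb := by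
  intro g hg i j hij
  exact hg i j (fun h' => hij (h i j h'))

theorem uni_le {ι : Type} (cb : κ → ι) (o : κ → ℤ) : uni F cb o ≤ lev F cb :=
  fun _ hg => hg.1.1

theorem parD_lev_le_upp {ι ι' : Type} (c : κ → ι) (cb : κ → ι') (o : κ → ℤ)
    (h : ∀ i j, c i = c j ↔ cb i = cb j ∧ o i = o j) : lev F c ≤ upp F cb o := by
  intro m hm
  refine ⟨lev_le c cb (fun i j hij => ((h i j).1 hij).1) hm, fun i j hij => ?_⟩
  refine hm i j (fun h' => ?_)
  have := ((h i j).1 h').2
  omega

theorem uni_norm {ι ι' : Type} (c : κ → ι) (cb : κ → ι') (o : κ → ℤ)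
    (h : ∀ i j, c i = c j ↔ cb i = cb j ∧ o i = o j) (m n : GL κ F) (hm : m ∈ lev F c)
    (hn : n ∈ uni F cb o) : m * n * m⁻¹ ∈ uni F cb o := by
  have hmu := parD_lev_le_upp c cb o h hm
  refine ⟨(upp F cb o).mul_mem ((upp F cb o).mul_mem hmu hn.1) ((upp F cb o).inv_mem hmu),
    fun i j hij => ?_⟩
  have hmi : m⁻¹ ∈ lev F c := (lev F c).inv_mem hm
  have h1 : ((m * n * m⁻¹ : GL κ F) : Matrix κ κ F) =
      1 + (m : Matrix κ κ F) * ((n : Matrix κ κ F) - 1) * ((m⁻¹ : GL κ F) : Matrix κ κ F) := by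
    have h2 : (m : Matrix κ κ F) * ((m⁻¹ : GL κ F) : Matrix κ κ F) = 1 := by
      rw [← Units.val_mul]
      simp
    rw [mul_sub, sub_mul, mul_one, h2, Units.val_mul, Units.val_mul]
    abel
  rw [h1, Matrix.add_apply, Matrix.mul_apply, Finset.sum_eq_zero, add_zero]
  intro k _
  by_cases hkj : c k = c j
  · rw [Matrix.mul_apply, Finset.sum_eq_zero, zero_mul]
    intro l _
    by_cases hil : c i = c l
    · have h3 := ((h i l).1 hil).2
      have h4 := ((h k j).1 hkj).2
      rw [Matrix.sub_apply, hn.2 l k (by omega), sub_self, mul_zero]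
    · rw [hm i l hil, zero_mul]
  · rw [hmi k j hkj, mul_zero]

theorem uni_disj {ι ι' : Type} (c : κ → ι) (cb : κ → ι') (o : κ → ℤ)
    (h : ∀ i j, c i = c j ↔ cb i = cb j ∧ o i = o j) (g : GL κ F) (hm : g ∈ lev F c)
    (hn : g ∈ uni F cb o) : g = 1 := by
  refine Units.ext (Matrix.ext fun i j => ?_)
  by_cases hij : o i = o j
  · rw [hn.2 i j hij, Units.val_one]
  · have h1 : c i ≠ c j := fun h' => hij ((h i j).1 h').2
    rw [hm i j h1, Units.val_one, Matrix.one_apply_ne]
    rintro rfl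
    exact hij rfl

theorem uni_exh {ι' : Type} (cb : κ → ι') (o : κ → ℤ) (C : Set (GL κ F))
    (hC : IsCompact C) (hCN : C ⊆ (uni F cb o : Set (GL κ F))) :
    ∃ K : Subgroup (GL κ F), K ≤ uni F cb o ∧ IsCompact (K : Set (GL κ F)) ∧
      C ⊆ (K : Set (GL κ F)) := by
  -- a common bound for the entries
  have hC' : IsCompact (C ∪ C⁻¹) := hC.union hC.inv
  have hent : ∀ i j : κ, ∃ m : ℕ, ∀ g ∈ C ∪ C⁻¹, (g : Matrix κ κ F) i j ∈ lat F (-(m : ℤ)) := by
    intro i j
    have hcont : Continuous fun g : GL κ F => (g : Matrix κ κ F) i j :=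
      (Units.continuous_val (M := Matrix κ κ F)).matrix_elem i j
    obtain ⟨m, hm⟩ := lat_exhaust _ (hC'.image hcont)
    exact ⟨m, fun g hg => hm ⟨g, hg, rfl⟩⟩
  choose m hm using hent
  obtain ⟨M, hM⟩ : ∃ M : ℕ, ∀ i j, m i j ≤ M :=
    ⟨∑ i, ∑ j, m i j, fun i j => le_trans
      (Finset.single_le_sum (f := fun j => m i j) (fun _ _ => Nat.zero_le _) (Finset.mem_univ j))
      (Finset.single_le_sum (f := fun i => ∑ j, m i j) (fun _ _ => Nat.zero_le _)
        (Finset.mem_univ i))⟩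
  have hMent : ∀ g ∈ C ∪ C⁻¹, ∀ i j, (g : Matrix κ κ F) i j ∈ lat F (-(M : ℤ)) :=
    fun g hg i j => lat_anti (by have := hM i j; omega) (hm i j g hg)
  have hCN' : ∀ g ∈ C ∪ C⁻¹, g ∈ uni F cb o := by
    rintro g (hg | hg)
    · exact hCN hg
    · have := hCN (Set.mem_inv.1 hg)
      exact inv_inv g ▸ (uni F cb o).inv_mem this
  -- the conjugating diagonal matrix
  obtain ⟨ϖ, hϖ0, hϖ⟩ := exists_unif (F := F)
  set d : κ → F := fun i => ϖ ^ ((M : ℤ) * o i) with hd
  have hd0 : ∀ i, d i ≠ 0 := fun i => zpow_ne_zero _ hϖ0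
  set t : GL κ F :=
    { val := Matrix.diagonal d
      inv := Matrix.diagonal fun i => (d i)⁻¹
      val_inv := by
        rw [Matrix.diagonal_mul_diagonal, ← Matrix.diagonal_one]
        congr 1
        funext i
        exact mul_inv_cancel₀ (hd0 i)
      inv_val := by
        rw [Matrix.diagonal_mul_diagonal, ← Matrix.diagonal_one]
        congr 1
        funext i
        exact inv_mul_cancel₀ (hd0 i) } with ht
  have hordpow : ∀ e : ℤ, ordF F (ϖ ^ e) = e := by
    have hnat : ∀ n : ℕ, ordF F (ϖ ^ n) = n := by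
      intro n
      induction n with
      | zero => simpa using ordF_one (F := F)
      | succ n ih =>
        rw [pow_succ, ordF_mul _ _ (pow_ne_zero _ hϖ0) hϖ0, ih, hϖ]
        push_cast
        ring
    intro e
    obtain ⟨n, rfl | rfl⟩ := e.eq_nat_or_neg
    · rw [zpow_natCast, hnat]
    · rw [_root_.zpow_neg, zpow_natCast, ordF_inv, hnat]
  -- conjugates of the elements of `C` are integral
  have hconj : ∀ g ∈ C ∪ C⁻¹, ∀ i j,
      (((t⁻¹ * g * t : GL κ F) : Matrix κ κ F) - 1) i j ∈ lat F ((0 : ℕ) : ℤ) := by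
    intro g hg i j
    have hgu := hCN' g hg
    have h1 : ((t⁻¹ * g * t : GL κ F) : Matrix κ κ F) i j =
        (d i)⁻¹ * (g : Matrix κ κ F) i j * d j := by
      rw [Units.val_mul, Units.val_mul]
      show (Matrix.diagonal (fun i => (d i)⁻¹) * (g : Matrix κ κ F) * Matrix.diagonal d) i j = _
      rw [Matrix.mul_diagonal, Matrix.diagonal_mul]
    rw [Matrix.sub_apply, h1]
    rcases lt_trichotomy (o i) (o j) with hij | hij | hij
    · have hne : i ≠ j := by
        rintro rfl
        exact lt_irrefl _ hij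
      rw [Matrix.one_apply_ne hne, sub_zero]
      have h2 : (d i)⁻¹ * (g : Matrix κ κ F) i j * d j =
          ϖ ^ ((M : ℤ) * (o j - o i)) * (g : Matrix κ κ F) i j := by
        rw [hd]
        simp only
        rw [mul_sub, zpow_sub₀ hϖ0]
        field_simp
      rw [h2]
      have h3 : ϖ ^ ((M : ℤ) * (o j - o i)) ∈ lat F ((M : ℤ) * (o j - o i)) :=
        Or.inr (le_of_eq (hordpow _).symm)
      refine lat_anti ?_ (lat_mul h3 (hMent g hg i j))
      have h4 : (M : ℤ) * 1 ≤ (M : ℤ) * (o j - o i) :=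
        mul_le_mul_of_nonneg_left (by omega) (by positivity)
      push_cast
      linarith
    · rw [hgu.2 i j hij]
      by_cases hne : i = j
      · subst hne
        rw [Matrix.one_apply_eq, mul_one, inv_mul_cancel₀ (hd0 i), sub_self]
        exact (lat F _).zero_mem
      · rw [Matrix.one_apply_ne hne]
        rw [sub_zero, mul_zero, zero_mul]
        exact (lat F _).zero_mem
    · have hne : i ≠ j := by
        rintro rfl
        exact lt_irrefl _ hij
      rw [hgu.1.2 i j hij, Matrix.one_apply_ne hne]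
      rw [sub_zero, mul_zero, zero_mul]
      exact (lat F _).zero_mem
  refine ⟨uni F cb o ⊓ (Kc F κ 0).map (MulAut.conj t).toMonoidHom, inf_le_left, ?_, ?_⟩
  · have h1 : ((uni F cb o ⊓ (Kc F κ 0).map (MulAut.conj t).toMonoidHom : Subgroup (GL κ F)) :
        Set (GL κ F)) = (uni F cb o : Set (GL κ F)) ∩ (fun x => t * x * t⁻¹) ''
          (Kc F κ 0 : Set (GL κ F)) := by
      ext x
      simp [MulAut.conj_apply]
    rw [h1]
    exact ((Kc_isCompact 0).image (by fun_prop)).inter_left (uni_isClosed cb o)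
  · intro g hg
    refine ⟨hCN hg, ⟨t⁻¹ * g * t, ⟨fun i j => hconj g (Or.inl hg) i j, fun i j => ?_⟩, ?_⟩⟩
    · have h2 : (t⁻¹ * g * t)⁻¹ = t⁻¹ * g⁻¹ * t := by group
      rw [h2]
      exact hconj g⁻¹ (Or.inr (by simpa using hg)) i j
    · show t * (t⁻¹ * g * t) * t⁻¹ = g
      group

/-- the parabolic datum of the block upper triangular matrices -/
def parD {ι ι' : Type} (c : κ → ι) (cb : κ → ι') (o : κ → ℤ)
    (h : ∀ i j, c i = c j ↔ cb i = cb j ∧ o i = o j) : PD (lev F cb) (lev F c) where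
  N := uni F cb o
  hM := lev_le c cb (fun i j hij => ((h i j).1 hij).1)
  hN := uni_le cb o
  norm := fun m hm n hn => uni_norm c cb o h m n hm hn
  disj := fun g hm hn => uni_disj c cb o h g hm hn
  exh := uni_exh cb o

/-- the block part of a matrix -/
def parD_blk {ι : Type} (c : κ → ι) (a : Matrix κ κ F) : Matrix κ κ F :=
  open Classical in Matrix.of fun i j => if c i = c j then a i j else 0

theorem parD_blk_mul {ι ι' : Type} (c : κ → ι) (cb : κ → ι') (o : κ → ℤ)
    (h : ∀ i j, c i = c j ↔ cb i = cb j ∧ o i = o j) (a b : GL κ F) (ha : a ∈ upp F cb o)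
    (hb : b ∈ upp F cb o) :
    parD_blk c (a : Matrix κ κ F) * parD_blk c (b : Matrix κ κ F) =
      parD_blk c ((a : Matrix κ κ F) * (b : Matrix κ κ F)) := by
  classical
  ext i j
  rw [Matrix.mul_apply]
  simp only [parD_blk, Matrix.of_apply]
  by_cases hij : c i = c j
  · rw [if_pos hij, Matrix.mul_apply]
    refine Finset.sum_congr rfl fun k _ => ?_
    by_cases hik : c i = c k
    · rw [if_pos hik, if_pos (hik.symm.trans hij)]
    · rw [if_neg hik, zero_mul]
      by_cases hb1 : cb i = cb k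
      · have ho : o i ≠ o k := fun h' => hik ((h i k).2 ⟨hb1, h'⟩)
        have hoj := ((h i j).1 hij).2
        rcases lt_or_gt_of_ne ho with h1 | h1
        · rw [hb.2 k j (by omega), mul_zero]
        · rw [ha.2 i k h1, zero_mul]
      · rw [ha.1 i k hb1, zero_mul]
  · rw [if_neg hij]
    refine Finset.sum_eq_zero fun k _ => ?_
    by_cases hik : c i = c k
    · rw [if_neg (fun h' => hij (hik.trans h')), mul_zero]
    · rw [if_neg hik, zero_mul]

theorem parD_blk_one {ι : Type} (c : κ → ι) :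
    parD_blk c (1 : Matrix κ κ F) = 1 := by
  classical
  ext i j
  simp only [parD_blk, Matrix.of_apply]
  by_cases hij : i = j
  · subst hij
    rw [if_pos rfl]
  · rw [Matrix.one_apply_ne hij]
    simp

theorem upp_decomp_aux {ι ι' : Type} (c : κ → ι) (cb : κ → ι') (o : κ → ℤ)
    (h : ∀ i j, c i = c j ↔ cb i = cb j ∧ o i = o j) (g : GL κ F) (hg : g ∈ upp F cb o) :
    ∃ m ∈ lev F c, ∃ n ∈ uni F cb o, g = m * n ∧
      ∀ i j, c i = c j → (m : Matrix κ κ F) i j = (g : Matrix κ κ F) i j := by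
  classical
  have hgi : g⁻¹ ∈ upp F cb o := (upp F cb o).inv_mem hg
  have h1 : (g : Matrix κ κ F) * ((g⁻¹ : GL κ F) : Matrix κ κ F) = 1 := by
    rw [← Units.val_mul]
    simp
  have h2 : ((g⁻¹ : GL κ F) : Matrix κ κ F) * (g : Matrix κ κ F) = 1 := by
    rw [← Units.val_mul]
    simp
  set m : GL κ F :=
    { val := parD_blk c (g : Matrix κ κ F)
      inv := parD_blk c ((g⁻¹ : GL κ F) : Matrix κ κ F)
      val_inv := by rw [parD_blk_mul c cb o h g g⁻¹ hg hgi, h1, parD_blk_one]
      inv_val := by rw [parD_blk_mul c cb o h g⁻¹ g hgi hg, h2, parD_blk_one] } with hmdef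
  have hmv : ∀ i j, (m : Matrix κ κ F) i j = if c i = c j then (g : Matrix κ κ F) i j else 0 := by
    intro i j
    rfl
  have hm : m ∈ lev F c := by
    intro i j hij
    rw [hmv, if_neg hij]
  have hmi : m⁻¹ ∈ lev F c := (lev F c).inv_mem hm
  refine ⟨m, hm, m⁻¹ * g, ⟨(upp F cb o).mul_mem (parD_lev_le_upp c cb o h hmi) hg,
    fun i j hij => ?_⟩, by group, fun i j hij => by rw [hmv, if_pos hij]⟩
  have h3 : ((m⁻¹ * g : GL κ F) : Matrix κ κ F) =
      1 + ((m⁻¹ : GL κ F) : Matrix κ κ F) * ((g : Matrix κ κ F) - (m : Matrix κ κ F)) := by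
    have h4 : ((m⁻¹ : GL κ F) : Matrix κ κ F) * (m : Matrix κ κ F) = 1 := by
      rw [← Units.val_mul]
      simp
    rw [mul_sub, h4, Units.val_mul]
    abel
  rw [h3, Matrix.add_apply, Matrix.mul_apply, Finset.sum_eq_zero, add_zero]
  intro k _
  by_cases hik : c i = c k
  · have h5 := ((h i k).1 hik).2
    rw [Matrix.sub_apply, hmv]
    by_cases hkj : c k = c j
    · rw [if_pos hkj, sub_self, mul_zero]
    · rw [if_neg hkj, sub_zero, hg.1 k j, mul_zero]
      intro h6
      exact hkj ((h k j).2 ⟨h6, by omega⟩)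
  · rw [hmi i k hik, zero_mul]

/-- every element of `upp` is a product `m n` -/
theorem upp_decomp {ι ι' : Type} (c : κ → ι) (cb : κ → ι') (o : κ → ℤ)
    (h : ∀ i j, c i = c j ↔ cb i = cb j ∧ o i = o j) (g : GL κ F) :
    g ∈ upp F cb o ↔ ∃ m ∈ lev F c, ∃ n ∈ uni F cb o, g = m * n := by
  constructor
  · intro hg
    obtain ⟨m, hm, n, hn, h1, _⟩ := upp_decomp_aux c cb o h g hg
    exact ⟨m, hm, n, hn, h1⟩
  · rintro ⟨m, hm, n, hn, rfl⟩
    exact (upp F cb o).mul_mem (parD_lev_le_upp c cb o h hm) hn.1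

/-- composition of parabolic data: if `o` refines `o₁` and `o₂` lexicographically -/
theorem parD_chain {ι ι' ι'' : Type} (c : κ → ι) (c' : κ → ι') (c'' : κ → ι'') (o₁ o₂ o : κ → ℤ)
    (h₁ : ∀ i j, c' i = c' j ↔ c'' i = c'' j ∧ o₁ i = o₁ j)
    (h₂ : ∀ i j, c i = c j ↔ c' i = c' j ∧ o₂ i = o₂ j)
    (h : ∀ i j, c i = c j ↔ c'' i = c'' j ∧ o i = o j)
    (ho : ∀ i j, c'' i = c'' j → (o i < o j ↔ o₁ i < o₁ j ∨ (o₁ i = o₁ j ∧ o₂ i < o₂ j))) :
    PD.IsChain (parD (F := F) c' c'' o₁ h₁) (parD c c' o₂ h₂) (parD c c'' o h) := by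
  intro g
  show g ∈ uni F c'' o ↔ ∃ a ∈ uni F c'' o₁, ∃ b ∈ uni F c' o₂, g = a * b
  -- inside a class of `c''`
  have hlt : ∀ i j, c'' i = c'' j → o j < o i → o₁ j < o₁ i ∨ (o₁ i = o₁ j ∧ o₂ j < o₂ i) := by
    intro i j hc hij
    rcases (ho j i hc.symm).1 hij with h3 | ⟨h3, h4⟩
    · exact Or.inl h3
    · exact Or.inr ⟨h3.symm, h4⟩
  have heq : ∀ i j, c'' i = c'' j → o i = o j → o₁ i = o₁ j ∧ o₂ i = o₂ j := by
    intro i j hc hij
    have h3 : ¬ (o₁ i < o₁ j ∨ (o₁ i = o₁ j ∧ o₂ i < o₂ j)) := fun h' => by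
      have := (ho i j hc).2 h'
      omega
    have h4 : ¬ (o₁ j < o₁ i ∨ (o₁ j = o₁ i ∧ o₂ j < o₂ i)) := fun h' => by
      have := (ho j i hc.symm).2 h'
      omega
    omega
  have hne : ∀ i j : κ, c'' i ≠ c'' j → (1 : Matrix κ κ F) i j = 0 := by
    intro i j hc
    rw [Matrix.one_apply_ne]
    rintro rfl
    exact hc rfl
  constructor
  · intro hg
    have hg1 : g ∈ upp F c'' o₁ := by
      refine ⟨hg.1.1, fun i j hij => ?_⟩
      by_cases hc : c'' i = c'' j
      · exact hg.1.2 i j ((ho j i hc.symm).2 (Or.inl hij))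
      · exact hg.1.1 i j hc
    obtain ⟨m, hm, n, hn, h3, h4⟩ := upp_decomp_aux c' c'' o₁ h₁ g hg1
    refine ⟨m * n * m⁻¹, uni_norm c' c'' o₁ h₁ m n hm hn, m, ⟨⟨hm, ?_⟩, ?_⟩, by
      rw [h3]
      group⟩
    · intro i j hij
      by_cases hc : c' i = c' j
      · rw [h4 i j hc]
        have h5 := (h₁ i j).1 hc
        exact hg.1.2 i j ((ho j i h5.1.symm).2 (Or.inr ⟨h5.2.symm, hij⟩))
      · exact hm i j hc
    · intro i j hij
      by_cases hc : c' i = c' j
      · rw [h4 i j hc]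
        have h5 := (h₁ i j).1 hc
        refine hg.2 i j ?_
        by_contra hne'
        rcases lt_or_gt_of_ne hne' with h6 | h6
        · have := (ho i j h5.1).1 h6
          omega
        · have := (ho j i h5.1.symm).1 h6
          omega
      · rw [hm i j hc, Matrix.one_apply_ne]
        rintro rfl
        exact hc rfl
  · rintro ⟨a, ha, b, hb, rfl⟩
    refine (uni F c'' o).mul_mem ⟨⟨ha.1.1, ?_⟩, ?_⟩ ⟨⟨?_, ?_⟩, ?_⟩
    · intro i j hij
      by_cases hc : c'' i = c'' j
      · rcases hlt i j hc hij with h3 | ⟨h3, h4⟩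
        · exact ha.1.2 i j h3
        · rw [ha.2 i j h3, Matrix.one_apply_ne]
          rintro rfl
          omega
      · exact ha.1.1 i j hc
    · intro i j hij
      by_cases hc : c'' i = c'' j
      · exact ha.2 i j (heq i j hc hij).1
      · rw [ha.1.1 i j hc, hne i j hc]
    · exact lev_le c' c'' (fun i j hij => ((h₁ i j).1 hij).1) hb.1.1
    · intro i j hij
      by_cases hc : c' i = c' j
      · have h5 := (h₁ i j).1 hc
        have := hlt i j h5.1 hij
        exact hb.1.2 i j (by omega)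
      · exact hb.1.1 i j hc
    · intro i j hij
      by_cases hc : c' i = c' j
      · have h5 := (h₁ i j).1 hc
        exact hb.2 i j (heq i j h5.1 hij).2
      · rw [hb.1.1 i j hc, Matrix.one_apply_ne]
        rintro rfl
        exact hc rfl

end

end Pool.Agent.Lib.MP_ca1492_al.P
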