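import Mathlib
import Pool.Agent.Lib.MP_ca1492_al.P.Cartan
import Pool.Agent.Lib.MP_ca1492_al.P.ParD

/-!
# MP_ca1492_al, p-adic side, module CuspDefs: cuspidal representations, block valuations

* `bdet_mul`: for `g, h ∈ lev c` the block `x` of `g h` is the product of the blocks
  (`(g h) i j = Σ_k g i k h k j`, and `g i k = 0` unless `c k = c i = x`; reindex the sum over the
  subtype).
* `vl_surj`: choose a section `s` of `c` on its range; take `dia l` with `l i = x (c i)` if
  `i = s (c i)` and `0` otherwise.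
* `vl_Kc`, `vl_uni`: the determinants of the blocks of `g` and `g⁻¹` are integral and their product
  is one; for `g ∈ uni c o` the block matrices are unitriangular for `o` (determinant one:
  `Matrix.det_of_upperTriangular` for a refinement of `o`, or: `g` lies in a compact subgroup, so
  `vl g` is in a bounded subgroup of `ℤ`, so it is zero).
* `lev0_open`: contains `Kc 0 ∩ lev c`.
* `lev_finite_index`: `lev c` is the union of finitely many cosets of `lev0 c · Z` where `Z` is the
  group of the block scalar matrices `dia (a ∘ c)`: `vl (dia (a ∘ c)) x = a x * n_x`,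
  `n_x = #{i | c i = x}`; representatives: `dia l` with `0 ≤ l i < n_(c i)` supported on a section.
-/

set_option autoImplicit false

namespace Pool.Agent.Lib.MP_ca1492_al.P

open Topology Matrix ValuativeRel

noncomputable section

variable {F : Type} [Field F] [ValuativeRel F] [TopologicalSpace F]
  [IsNonarchimedeanLocalField F]
variable {κ : Type} [Fintype κ] [DecidableEq κ]
variable {V W : Type} [AddCommGroup V] [Module ℂ V] [AddCommGroup W] [Module ℂ W]

variable (F) in
/-- the standard parabolic datum of `lev cb` given by the order function `o` -/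
def stdD {ι : Type} (cb : κ → ι) (o : κ → ℤ) : PD (lev F cb) (lev F (fun i => (cb i, o i))) :=
  parD (fun i => (cb i, o i)) cb o (by intro i j; exact Prod.mk.injEq _ _ _ _ ▸ Iff.rfl)

/-- cuspidal: all proper Jacquet modules vanish -/
def Cusp {ι : Type} (c : κ → ι) (π : Representation ℂ (lev F c) V) : Prop :=
  ∀ o : κ → ℤ, (∃ i j, c i = c j ∧ o i ≠ o j) → (stdD F c o).kerJ π = ⊤

/-- determinant of the block `x` of a matrix -/
def bdet {ι : Type} [DecidableEq ι] (c : κ → ι) (x : ι) (g : Matrix κ κ F) : F :=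
  (g.submatrix (Subtype.val : {i // c i = x} → κ) Subtype.val).det

theorem bdet_mul {ι : Type} [DecidableEq ι] (c : κ → ι) (x : ι) (g h : GL κ F)
    (hg : g ∈ lev F c) (hh : h ∈ lev F c) :
    bdet c x ((g * h : GL κ F) : Matrix κ κ F) = bdet c x (g : Matrix κ κ F) *
      bdet c x (h : Matrix κ κ F) := by
  unfold bdet
  rw [← Matrix.det_mul]
  congr 1
  ext i j
  rw [Matrix.submatrix_apply, Units.val_mul, Matrix.mul_apply, Matrix.mul_apply,
    ← Fintype.sum_subtype_add_sum_subtype (fun k => c k = x)]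
  have h0 : ∑ k : {k // ¬ c k = x}, (g : Matrix κ κ F) i.1 k.1 * (h : Matrix κ κ F) k.1 j.1 = 0 := by
    refine Finset.sum_eq_zero fun k _ => ?_
    rw [hg i.1 k.1 (fun h' => k.2 (h'.symm.trans i.2)), zero_mul]
  rw [h0, add_zero]
  rfl

theorem bdet_one {ι : Type} [DecidableEq ι] (c : κ → ι) (x : ι) :
    bdet c x ((1 : GL κ F) : Matrix κ κ F) = 1 := by
  unfold bdet
  rw [Units.val_one, Matrix.submatrix_one _ Subtype.val_injective, Matrix.det_one]

theorem bdet_ne_zero {ι : Type} [DecidableEq ι] (c : κ → ι) (x : ι) (g : GL κ F)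
    (hg : g ∈ lev F c) : bdet c x (g : Matrix κ κ F) ≠ 0 := by
  have h := bdet_mul c x g g⁻¹ hg ((lev F c).inv_mem hg)
  rw [mul_inv_cancel, bdet_one] at h
  intro h0
  rw [h0, zero_mul] at h
  exact one_ne_zero h

/-- the valuations of the determinants of the blocks -/
def vl {ι : Type} [DecidableEq ι] (c : κ → ι) (g : GL κ F) (x : ι) : ℤ :=
  ordF F (bdet c x (g : Matrix κ κ F))

theorem vl_mul {ι : Type} [DecidableEq ι] (c : κ → ι) (g h : GL κ F)
    (hg : g ∈ lev F c) (hh : h ∈ lev F c) (x : ι) : vl c (g * h) x = vl c g x + vl c h x := by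
  unfold vl
  rw [bdet_mul c x g h hg hh, ordF_mul _ _ (bdet_ne_zero c x g hg) (bdet_ne_zero c x h hh)]

theorem vl_one {ι : Type} [DecidableEq ι] (c : κ → ι) (x : ι) : vl c (1 : GL κ F) x = 0 := by
  unfold vl
  rw [bdet_one, ordF_one]

theorem vl_inv {ι : Type} [DecidableEq ι] (c : κ → ι) (g : GL κ F)
    (hg : g ∈ lev F c) (x : ι) : vl c g⁻¹ x = - vl c g x := by
  have h := vl_mul c g g⁻¹ hg ((lev F c).inv_mem hg) x
  rw [mul_inv_cancel, vl_one] at h
  omega

theorem cusp_ord_pow (n : ℕ) : ordF F (unifF F ^ n) = n := by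
  induction n with
  | zero => rw [pow_zero, ordF_one]; rfl
  | succ n ih =>
    rw [pow_succ, ordF_mul _ _ (pow_ne_zero _ unifF_ne_zero) unifF_ne_zero, ih, ord_unifF]
    push_cast
    ring

theorem cusp_ord_zpow (n : ℤ) : ordF F (unifF F ^ n) = n := by
  obtain ⟨m, rfl | rfl⟩ := Int.eq_nat_or_neg n
  · rw [zpow_natCast, cusp_ord_pow]
  · rw [_root_.zpow_neg, ordF_inv, zpow_natCast, cusp_ord_pow]

theorem cusp_ord_prod {α : Type} (s : Finset α) (l : α → ℤ) :
    ordF F (∏ i ∈ s, unifF F ^ (l i)) = ∑ i ∈ s, l i := by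
  classical
  induction s using Finset.induction_on with
  | empty => rw [Finset.prod_empty, Finset.sum_empty, ordF_one]
  | insert a s ha ih =>
    rw [Finset.prod_insert ha, Finset.sum_insert ha, ordF_mul _ _ (zpow_ne_zero _ unifF_ne_zero)
      (Finset.prod_ne_zero_iff.2 fun i _ => zpow_ne_zero _ unifF_ne_zero), ih, cusp_ord_zpow]

theorem vl_dia {ι : Type} [DecidableEq ι] (c : κ → ι) (l : κ → ℤ) (x : ι) :
    vl c (dia F l) x = ∑ i ∈ Finset.univ.filter (fun i => c i = x), l i := by
  unfold vl bdet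
  have h : ((dia F l : GL κ F) : Matrix κ κ F).submatrix (Subtype.val : {i // c i = x} → κ)
      Subtype.val = Matrix.diagonal fun i : {i // c i = x} => unifF F ^ (l i.1) := by
    ext i j
    rw [Matrix.submatrix_apply, dia_apply, Matrix.diagonal_apply]
    by_cases hij : i = j
    · subst hij
      simp
    · rw [if_neg hij, if_neg (fun h => hij (Subtype.ext h))]
  rw [h, Matrix.det_diagonal, cusp_ord_prod, Finset.sum_subtype (Finset.univ.filter
    (fun i => c i = x)) (p := fun i => c i = x) (by simp)]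

theorem vl_surj {ι : Type} [DecidableEq ι] (c : κ → ι) (hc : Function.Surjective c)
    (x : ι → ℤ) : ∃ l : κ → ℤ, vl c (dia F l) = x := by
  classical
  obtain ⟨s, hs⟩ := hc.hasRightInverse
  refine ⟨fun i => if s (c i) = i then x (c i) else 0, ?_⟩
  funext y
  rw [vl_dia, Finset.sum_eq_single (s y)]
  · rw [hs y, if_pos rfl]
  · intro i hi hne
    rw [Finset.mem_filter] at hi
    rw [if_neg]
    intro h
    apply hne
    rw [← h, hi.2]
  · intro h
    have h2 : s y ∈ Finset.univ.filter (fun i => c i = y) :=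
      Finset.mem_filter.2 ⟨Finset.mem_univ _, hs y⟩
    exact absurd h2 h

theorem cusp_one_mem : (1 : F) ∈ lat F 0 := Or.inr (by rw [ordF_one])

theorem cusp_prod_mem {α : Type} (s : Finset α) (f : α → F) (h : ∀ i, f i ∈ lat F 0) :
    ∏ i ∈ s, f i ∈ lat F 0 := by
  classical
  induction s using Finset.induction_on with
  | empty => rw [Finset.prod_empty]; exact cusp_one_mem
  | insert a s ha ih =>
    rw [Finset.prod_insert ha]
    have := lat_mul (h a) ih
    rwa [add_zero] at this

theorem cusp_det_mem {α : Type} [Fintype α] [DecidableEq α] (M : Matrix α α F)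
    (h : ∀ i j, M i j ∈ lat F 0) : M.det ∈ lat F 0 := by
  rw [Matrix.det_apply]
  refine (lat F 0).sum_mem fun σ _ => ?_
  have h1 := cusp_prod_mem Finset.univ (fun i => M (σ i) i) (fun i => h _ _)
  rcases Int.units_eq_one_or (Equiv.Perm.sign σ) with h2 | h2
  · rw [h2, one_smul]
    exact h1
  · rw [h2, Units.neg_smul, one_smul]
    exact (lat F 0).neg_mem h1

theorem cusp_Kc_entry (g : GL κ F) (hk : g ∈ Kc F κ 0) (i j : κ) :
    (g : Matrix κ κ F) i j ∈ lat F 0 := by
  have h1 : ((g : Matrix κ κ F) - 1) i j ∈ lat F 0 := hk.1 i j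
  have h2 : (1 : Matrix κ κ F) i j ∈ lat F 0 := by
    rw [Matrix.one_apply]
    split_ifs
    · exact cusp_one_mem
    · exact zero_mem _
  have h3 := (lat F 0).add_mem h1 h2
  rwa [Matrix.sub_apply, sub_add_cancel] at h3

theorem cusp_vl_nonneg {ι : Type} [DecidableEq ι] (c : κ → ι) (g : GL κ F) (hg : g ∈ lev F c)
    (hk : g ∈ Kc F κ 0) (x : ι) : 0 ≤ vl c g x := by
  have h1 : bdet c x (g : Matrix κ κ F) ∈ lat F 0 :=
    cusp_det_mem _ fun i j => cusp_Kc_entry g hk i.1 j.1
  exact h1.resolve_left (bdet_ne_zero c x g hg)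

theorem vl_Kc {ι : Type} [DecidableEq ι] (c : κ → ι) (g : GL κ F) (hg : g ∈ lev F c)
    (hk : g ∈ Kc F κ 0) (x : ι) : vl c g x = 0 := by
  have h1 := cusp_vl_nonneg c g hg hk x
  have h2 := cusp_vl_nonneg c g⁻¹ ((lev F c).inv_mem hg) ((Kc F κ 0).inv_mem hk) x
  rw [vl_inv c g hg] at h2
  omega

theorem vl_uni {ι : Type} [DecidableEq ι] (c : κ → ι) (o : κ → ℤ) (g : GL κ F)
    (hg : g ∈ uni F c o) (x : ι) : vl c g x = 0 := by
  have ht : Matrix.BlockTriangular ((g : Matrix κ κ F).submatrix
      (Subtype.val : {i // c i = x} → κ) Subtype.val) (fun i : {i // c i = x} => o i.1) := by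
    intro i j hij
    exact hg.1.2 i.1 j.1 hij
  have hd : bdet c x (g : Matrix κ κ F) = 1 := by
    unfold bdet
    rw [ht.det]
    refine Finset.prod_eq_one fun a _ => ?_
    have h1 : ((g : Matrix κ κ F).submatrix (Subtype.val : {i // c i = x} → κ)
        Subtype.val).toSquareBlock (fun i : {i // c i = x} => o i.1) a = 1 := by
      ext i j
      have h2 : (g : Matrix κ κ F) i.1.1 j.1.1 = (1 : Matrix κ κ F) i.1.1 j.1.1 :=
        hg.2 i.1.1 j.1.1 (i.2.trans j.2.symm)
      change (g : Matrix κ κ F) i.1.1 j.1.1 = _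
      rw [h2, Matrix.one_apply, Matrix.one_apply]
      congr 1
      exact propext ⟨fun h => Subtype.ext (Subtype.ext h), fun h => by rw [h]⟩
    rw [h1, Matrix.det_one]
  unfold vl
  rw [hd, ordF_one]

/-- the elements of the Levi subgroup all of whose blocks have determinant of valuation `0` -/
def lev0 (F : Type) [Field F] [ValuativeRel F] [TopologicalSpace F]
    [IsNonarchimedeanLocalField F] {κ : Type} [Fintype κ] [DecidableEq κ]
    {ι : Type} [DecidableEq ι] (c : κ → ι) : Subgroup (GL κ F) where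
  carrier := {g | g ∈ lev F c ∧ ∀ x, vl c g x = 0}
  mul_mem' := by
    rintro a b ⟨ha, ha'⟩ ⟨hb, hb'⟩
    exact ⟨(lev F c).mul_mem ha hb, fun x => by rw [vl_mul c a b ha hb, ha', hb', add_zero]⟩
  one_mem' := ⟨(lev F c).one_mem, fun x => vl_one c x⟩
  inv_mem' := by
    rintro a ⟨ha, ha'⟩
    exact ⟨(lev F c).inv_mem ha, fun x => by rw [vl_inv c a ha, ha', neg_zero]⟩

theorem lev0_le {ι : Type} [DecidableEq ι] (c : κ → ι) : lev0 F c ≤ lev F c := fun _ h => h.1

theorem lev0_open {ι : Type} [DecidableEq ι] (c : κ → ι) :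
    IsOpen (((lev0 F c).subgroupOf (lev F c) : Subgroup (lev F c)) : Set (lev F c)) := by
  refine Subgroup.isOpen_mono (H₁ := (Kc F κ 0).subgroupOf (lev F c)) ?_ ?_
  · intro g hg
    rw [Subgroup.mem_subgroupOf] at hg ⊢
    exact ⟨g.2, fun x => vl_Kc c g.1 g.2 hg x⟩
  · exact (Kc_isOpen (F := F) (κ := κ) 0).preimage continuous_subtype_val

theorem uni_le_lev0 {ι : Type} [DecidableEq ι] (c : κ → ι) (o : κ → ℤ) :
    uni F c o ≤ lev0 F c := fun g hg => ⟨hg.1.1, fun x => vl_uni c o g hg x⟩

/-- block scalar matrices are central in the Levi subgroup -/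
theorem dia_central {ι : Type} (c : κ → ι) (a : ι → ℤ) (g : GL κ F) (hg : g ∈ lev F c) :
    dia F (fun i => a (c i)) * g = g * dia F (fun i => a (c i)) := by
  refine Units.ext (Matrix.ext fun i j => ?_)
  have h1 : ((dia F (fun i => a (c i)) : GL κ F) : Matrix κ κ F) =
      Matrix.diagonal fun i => unifF F ^ (a (c i)) := rfl
  rw [Units.val_mul, Units.val_mul, h1, Matrix.diagonal_mul, Matrix.mul_diagonal]
  by_cases h : c i = c j
  · rw [h, mul_comm]
  · rw [hg i j h, mul_zero, zero_mul]

theorem lev_finite_index {ι : Type} [DecidableEq ι] (c : κ → ι) :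
    ∃ s : Finset (GL κ F), (∀ g ∈ s, g ∈ lev F c) ∧ ∀ g ∈ lev F c, ∃ h ∈ lev0 F c, ∃ r ∈ s,
      ∃ a : ι → ℤ, g = h * r * dia F (fun i => a (c i)) := by
  classical
  refine ⟨Finset.univ.image (fun l : κ → Fin (Fintype.card κ + 1) =>
    dia F (fun i => ((l i : ℕ) : ℤ))), ?_, ?_⟩
  · intro g hg
    obtain ⟨l, _, rfl⟩ := Finset.mem_image.1 hg
    exact dia_mem_lev c _
  intro g hg
  set n : ι → ℤ := fun x => ((Finset.univ.filter (fun i => c i = x)).card : ℤ) with hn
  set a : ι → ℤ := fun x => vl c g x / n x with ha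
  set r : ι → ℤ := fun x => if n x = 0 then 0 else vl c g x % n x with hr
  set l : κ → ℤ := fun i => if ∃ h : (∃ j, c j = c i), h.choose = i then r (c i) else 0 with hl
  have hn0 : ∀ i, n (c i) ≠ 0 := by
    intro i h
    rw [hn] at h
    dsimp only at h
    have h' : (Finset.univ.filter (fun j => c j = c i)).card = 0 := by exact_mod_cast h
    rw [Finset.card_eq_zero] at h'
    have : i ∈ Finset.univ.filter (fun j => c j = c i) :=
      Finset.mem_filter.2 ⟨Finset.mem_univ _, rfl⟩
    rw [h'] at this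
    exact absurd this (Finset.notMem_empty _)
  have hnn : ∀ x, 0 ≤ n x := fun x => by rw [hn]; positivity
  have hr0 : ∀ x, 0 ≤ r x ∧ r x ≤ Fintype.card κ := by
    intro x
    rw [hr]
    dsimp only
    split_ifs with h
    · exact ⟨le_rfl, by positivity⟩
    · have h1 := Int.emod_nonneg (vl c g x) h
      have h2 := Int.emod_lt_of_pos (vl c g x) (lt_of_le_of_ne (hnn x) (Ne.symm h))
      refine ⟨h1, ?_⟩
      have h3 : n x ≤ Fintype.card κ := by
        rw [hn]
        dsimp only
        exact_mod_cast Finset.card_le_univ _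
      omega
  have hl0 : ∀ i, 0 ≤ l i ∧ l i ≤ Fintype.card κ := by
    intro i
    rw [hl]
    dsimp only
    split_ifs
    · exact hr0 _
    · exact ⟨le_rfl, by positivity⟩
  have hsuml : ∀ x, n x ≠ 0 → ∑ i ∈ Finset.univ.filter (fun i => c i = x), l i = r x := by
    intro x hx
    have hex : ∃ j, c j = x := by
      by_contra hcon
      push Not at hcon
      apply hx
      rw [hn]
      have : Finset.univ.filter (fun i => c i = x) = ∅ := by
        rw [Finset.filter_eq_empty_iff]
        intro i _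
        exact hcon i
      dsimp only
      rw [this]
      rfl
    have hch : c hex.choose = x := hex.choose_spec
    rw [Finset.sum_eq_single hex.choose]
    · rw [hl]
      dsimp only
      rw [if_pos, hch]
      have h2 : ∃ j, c j = c hex.choose := ⟨_, rfl⟩
      refine ⟨h2, ?_⟩
      congr 1
      funext j
      rw [hch]
    · intro i hi hne
      rw [hl]
      dsimp only
      rw [if_neg]
      rintro ⟨h2, h3⟩
      apply hne
      rw [← h3]
      congr 1
      funext j
      rw [(Finset.mem_filter.1 hi).2]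
    · intro h
      have h4 : hex.choose ∈ Finset.univ.filter (fun i => c i = x) :=
        Finset.mem_filter.2 ⟨Finset.mem_univ _, hch⟩
      exact absurd h4 h
  have hsuma : ∀ x, ∑ i ∈ Finset.univ.filter (fun i => c i = x), a (c i) = n x * a x := by
    intro x
    rw [Finset.sum_congr rfl (g := fun _ => a x)
      (fun i hi => by rw [(Finset.mem_filter.1 hi).2]), Finset.sum_const, nsmul_eq_mul]
  have hv0 : ∀ x, n x = 0 → ∀ g' : GL κ F, vl c g' x = 0 := by
    intro x hx g'
    have : IsEmpty {i // c i = x} := by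
      refine ⟨fun i => ?_⟩
      have := hn0 i.1
      rw [i.2] at this
      exact this hx
    unfold vl bdet
    rw [Matrix.det_isEmpty, ordF_one]
  have hda := dia_mem_lev (F := F) c (fun i => a (c i))
  have hdl := dia_mem_lev (F := F) c l
  refine ⟨g * (dia F (fun i => a (c i)))⁻¹ * (dia F l)⁻¹, ⟨?_, ?_⟩, dia F l, ?_, a, ?_⟩
  · exact (lev F c).mul_mem ((lev F c).mul_mem hg ((lev F c).inv_mem hda))
      ((lev F c).inv_mem hdl)
  · intro x
    by_cases hx : n x = 0
    · exact hv0 x hx _
    · rw [vl_mul c _ _ ((lev F c).mul_mem hg ((lev F c).inv_mem hda)) ((lev F c).inv_mem hdl),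
        vl_mul c _ _ hg ((lev F c).inv_mem hda), vl_inv c _ hda, vl_inv c _ hdl, vl_dia, vl_dia,
        hsuml x hx, hsuma x]
      have h1 : r x = vl c g x % n x := by
        rw [hr]
        dsimp only
        rw [if_neg hx]
      have h2 := Int.emod_add_mul_ediv (vl c g x) (n x)
      rw [h1]
      rw [ha]
      dsimp only
      linarith
  · refine Finset.mem_image.2 ⟨fun i => ⟨(l i).toNat, ?_⟩, Finset.mem_univ _, ?_⟩
    · have := hl0 i
      omega
    · congr 1
      funext i
      exact Int.toNat_of_nonneg (hl0 i).1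
  · group

end

end Pool.Agent.Lib.MP_ca1492_al.P
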