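import Mathlib
import Pool.Agent.Lib.MP_ca1492_al.P.SmBasic

/-!
# MP_ca1492_al, p-adic side, module Dual: the smooth dual (contragredient)

`dualSp π` = linear forms on `V` invariant under some open subgroup. Hypothesis `hB`: every
neighbourhood of `1` contains a compact open subgroup.

Proofs.
* `dual_smooth`: by definition.
* `dual_sep`: let `v ≠ 0` be fixed by the compact open `K`. Choose a linear form `λ` on `V` with
  `λ v ≠ 0` and put `μ(x) = λ(avg π K x)`; `μ` is `K`-invariant (`avg_apply_of_mem`) and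
  `μ v = λ v ≠ 0`.
* `dual_surj` (exactness): `f : V → W` injective equivariant, `μ ∈ dualSp π`, invariant under the
  compact open `K` (shrink). Choose any linear form `λ` on `W` with `λ ∘ f = μ` (extension of
  linear forms) and put `λ'(w) = λ(avg σ K w)`. Then `λ'(f v) = λ(f(avg π K v)) = μ(avg π K v) = μ v`
  because `μ` is `K`-invariant (write `avg π K v = (1/|s|) Σ π k v`).
* `dual_inj`: obvious for surjective `f`.
* `homDual`: an equivariant `A : V → dualSp σ` corresponds to the invariant bilinear form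
  `B(v,w) = A(v)(w)`, and `w ↦ B(·,w)` takes values in smooth forms because `w` is smooth.
-/

set_option autoImplicit false

namespace Pool.Agent.Lib.MP_ca1492_al.P

open Topology

noncomputable section

variable {G : Type} [Group G] [TopologicalSpace G] [IsTopologicalGroup G]
variable {V W : Type} [AddCommGroup V] [Module ℂ V] [AddCommGroup W] [Module ℂ W]

/-- every neighbourhood of `1` contains a compact open subgroup -/
def HasCO (G : Type) [Group G] [TopologicalSpace G] : Prop :=
  ∀ U ∈ nhds (1 : G), ∃ K : Subgroup G, IsOpen (K : Set G) ∧ IsCompact (K : Set G) ∧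
    (K : Set G) ⊆ U

/-- smooth linear forms -/
def dualSp (π : Representation ℂ G V) : Submodule ℂ (Module.Dual ℂ V) where
  carrier := {l | ∃ U : Subgroup G, IsOpen (U : Set G) ∧ ∀ u ∈ U, ∀ v, l (π u v) = l v}
  add_mem' := by
    rintro a b ⟨Ua, hUa, ha⟩ ⟨Ub, hUb, hb⟩
    exact ⟨Ua ⊓ Ub, hUa.inter hUb, fun u hu v => by simp [ha u hu.1 v, hb u hu.2 v]⟩
  zero_mem' := ⟨⊤, isOpen_univ, fun u _ v => by simp⟩
  smul_mem' := by
    rintro c a ⟨Ua, hUa, ha⟩
    exact ⟨Ua, hUa, fun u hu v => by simp [ha u hu v]⟩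

theorem dualSp_aux (π : Representation ℂ G V) (g : G) (l : Module.Dual ℂ V)
    (hl : l ∈ dualSp π) : l ∘ₗ (π g⁻¹) ∈ dualSp π := by
  obtain ⟨U, hU, h⟩ := hl
  refine ⟨U.comap (MulAut.conj g⁻¹).toMonoidHom, ?_, fun u hu v => ?_⟩
  · have h1 : ((U.comap (MulAut.conj g⁻¹).toMonoidHom : Subgroup G) : Set G) =
        (fun x => g⁻¹ * x * g) ⁻¹' (U : Set G) := by
      ext x
      simp [MulAut.conj_apply]
    rw [h1]
    exact hU.preimage (by fun_prop)
  · have h1 : g⁻¹ * u * g ∈ U := by
      simpa [MulAut.conj_apply] using hu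
    have h2 := h _ h1 (π g⁻¹ v)
    simp only [LinearMap.coe_comp, Function.comp_apply]
    rw [← h2]
    congr 1
    rw [← Module.End.mul_apply, ← Module.End.mul_apply, ← map_mul, ← map_mul]
    congr 2
    group

/-- the contragredient -/
def dual (π : Representation ℂ G V) : Representation ℂ G (dualSp π) where
  toFun g :=
    { toFun := fun l => ⟨l.1 ∘ₗ (π g⁻¹), dualSp_aux π g l.1 l.2⟩
      map_add' := fun a b => rfl
      map_smul' := fun c a => rfl }
  map_one' := by
    refine LinearMap.ext fun l => Subtype.ext (LinearMap.ext fun v => ?_)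
    simp
  map_mul' := by
    intro a b
    refine LinearMap.ext fun l => Subtype.ext (LinearMap.ext fun v => ?_)
    simp

theorem dual_smooth (π : Representation ℂ G V) : IsSm (dual π) := by
  rw [isSm_iff]
  rintro ⟨l, U, hU, h⟩
  refine ⟨U, hU, fun u hu => Subtype.ext (LinearMap.ext fun v => ?_)⟩
  exact h u⁻¹ (U.inv_mem hu) v

theorem dual_sep (hB : HasCO G) (π : Representation ℂ G V) (hπ : IsSm π) (v : V) (hv : v ≠ 0) :
    ∃ l : dualSp π, l.1 v ≠ 0 := by
  obtain ⟨K, hK, hKc, hKs⟩ := hB {g : G | π g v = v} ((hπ v).mem_nhds (by simp))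
  obtain ⟨l, hl⟩ : ∃ l : Module.Dual ℂ V, l v ≠ 0 := by
    by_contra hcon
    push Not at hcon
    exact hv ((Module.forall_dual_apply_eq_zero_iff ℂ v).1 hcon)
  refine ⟨⟨l ∘ₗ avgL π hπ K hKc, K, hK, fun k hk x => ?_⟩, ?_⟩
  · show l (avg π K (π k x)) = l (avg π K x)
    rw [avg_apply_of_mem π K k hk x]
  · show l (avg π K v) ≠ 0
    rw [avg_of_mem_fix π K v (fun k hk => hKs hk)]
    exact hl

/-- transpose of an equivariant map -/
theorem transp_mem (π : Representation ℂ G V) (σ : Representation ℂ G W) (f : V →ₗ[ℂ] W)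
    (hf : Equi π σ f) (l : Module.Dual ℂ W) (hl : l ∈ dualSp σ) : l ∘ₗ f ∈ dualSp π := by
  obtain ⟨U, hU, h⟩ := hl
  refine ⟨U, hU, fun u hu v => ?_⟩
  show l (f (π u v)) = l (f v)
  rw [hf u v, h u hu]

/-- the transpose -/
def transp (π : Representation ℂ G V) (σ : Representation ℂ G W) (f : V →ₗ[ℂ] W)
    (hf : Equi π σ f) : dualSp σ →ₗ[ℂ] dualSp π where
  toFun l := ⟨l.1 ∘ₗ f, transp_mem π σ f hf l.1 l.2⟩
  map_add' := fun a b => rfl
  map_smul' := fun c a => rfl

theorem transp_equi (π : Representation ℂ G V) (σ : Representation ℂ G W) (f : V →ₗ[ℂ] W)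
    (hf : Equi π σ f) : Equi (dual σ) (dual π) (transp π σ f hf) := by
  intro g l
  refine Subtype.ext (LinearMap.ext fun v => ?_)
  show l.1 (σ g⁻¹ (f v)) = l.1 (f (π g⁻¹ v))
  rw [hf]

/-- a `K`-invariant linear form does not change under averaging -/
theorem Dual_inv_avg (π : Representation ℂ G V) (hπ : IsSm π) (K : Subgroup G)
    (hK : IsCompact (K : Set G)) (m : Module.Dual ℂ V) (hm : ∀ k ∈ K, ∀ w, m (π k w) = m w)
    (v : V) : m (avg π K v) = m v := by
  have h1 := sub_avg_mem_span π hπ K hK v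
  have h2 : Submodule.span ℂ {x | ∃ k ∈ K, ∃ w : V, x = π k w - w} ≤ LinearMap.ker m := by
    rw [Submodule.span_le]
    rintro x ⟨k, hk, w, rfl⟩
    simp [hm k hk w]
  have h3 := h2 h1
  rw [LinearMap.mem_ker, map_sub] at h3
  exact sub_eq_zero.1 h3

theorem dual_surj (hB : HasCO G) (π : Representation ℂ G V) (σ : Representation ℂ G W)
    (hπ : IsSm π) (hσ : IsSm σ) (f : V →ₗ[ℂ] W) (hf : Equi π σ f)
    (hi : Function.Injective f) : Function.Surjective (transp π σ f hf) := by
  rintro ⟨m, U, hU, hm⟩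
  obtain ⟨K, hK, hKc, hKs⟩ := hB (U : Set G) (hU.mem_nhds U.one_mem)
  obtain ⟨r, hr⟩ := LinearMap.exists_leftInverse_of_injective f (LinearMap.ker_eq_bot.2 hi)
  refine ⟨⟨(m ∘ₗ r) ∘ₗ avgL σ hσ K hKc, K, hK, fun k hk x => ?_⟩, ?_⟩
  · show m (r (avg σ K (σ k x))) = m (r (avg σ K x))
    rw [avg_apply_of_mem σ K k hk x]
  · refine Subtype.ext (LinearMap.ext fun v => ?_)
    show m (r (avg σ K (f v))) = m v
    rw [← avg_equi π σ hπ hσ K hKc f hf v]
    have h1 : r (f (avg π K v)) = avg π K v := by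
      have := LinearMap.congr_fun hr (avg π K v)
      simpa using this
    rw [h1]
    exact Dual_inv_avg π hπ K hKc m (fun k hk w => hm k (hKs hk) w) v

theorem dual_inj (π : Representation ℂ G V) (σ : Representation ℂ G W) (f : V →ₗ[ℂ] W)
    (hf : Equi π σ f) (hs : Function.Surjective f) :
    Function.Injective (transp π σ f hf) := by
  intro a b hab
  refine Subtype.ext (LinearMap.ext fun w => ?_)
  obtain ⟨v, rfl⟩ := hs w
  exact LinearMap.congr_fun (congrArg Subtype.val hab) v

/-- `Hom(V, W^∨) → Hom(W, V^∨)` -/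
theorem homDual (π : Representation ℂ G V) (σ : Representation ℂ G W) (hπ : IsSm π)
    (hσ : IsSm σ) (A : V →ₗ[ℂ] dualSp σ) (hA : Equi π (dual σ) A) :
    ∃ B : W →ₗ[ℂ] dualSp π, Equi σ (dual π) B ∧ ∀ v w, (B w).1 v = (A v).1 w := by
  have key : ∀ (g : G) (v : V) (w : W), (A (π g v)).1 w = (A v).1 (σ g⁻¹ w) := by
    intro g v w
    rw [hA g v]
    rfl
  refine ⟨{ toFun := fun w => ⟨{ toFun := fun v => (A v).1 w
                                 map_add' := ?_
                                 map_smul' := ?_ }, stabV σ w, hσ w, ?_⟩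
            map_add' := ?_
            map_smul' := ?_ }, ?_, ?_⟩
  · intro a b
    rw [map_add]
    rfl
  · intro c a
    rw [map_smul]
    rfl
  · intro u hu v
    show (A (π u v)).1 w = (A v).1 w
    rw [key]
    have h1 : u⁻¹ ∈ stabV σ w := (stabV σ w).inv_mem hu
    have h2 : σ u⁻¹ w = w := h1
    rw [h2]
  · intro a b
    refine Subtype.ext (LinearMap.ext fun v => ?_)
    exact map_add (A v).1 a b
  · intro c a
    refine Subtype.ext (LinearMap.ext fun v => ?_)
    exact map_smul (A v).1 c a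
  · intro g w
    refine Subtype.ext (LinearMap.ext fun v => ?_)
    show (A v).1 (σ g w) = (A (π g⁻¹ v)).1 w
    rw [key, inv_inv]
  · intro v w
    rfl

end

end Pool.Agent.Lib.MP_ca1492_al.P
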