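import Mathlib
import Pool.Agent.Lib.MP_ca1492_al.P.CuspDefs
import Pool.Agent.Lib.MP_ca1492_al.P.Dual
import Pool.Agent.Lib.MP_ca1492_al.P.Jac

/-!
# MP_ca1492_al, p-adic side, module CuspCompact: cuspidal representations have compact coefficients

Proof of `cusp_compact`. The `Kc 0 ∩ lev c`-orbit `S` of `v` is finite (`orb_finite`, or finite
index of an open subgroup in a compact group). For each of the finitely many functions
`o : κ → {0,1} ⊆ ℤ` which are nonconstant on some class of `c` there is a compact subgroup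
`K_o ≤ uni c o` with `avg K_o s = 0` for all `s ∈ S` (`Cusp`, `PD.kerJ_finset`). Let `j : ℕ` be such
that all entries of `n - 1`, `n⁻¹ - 1` are in `lat (-j)` for all `n ∈ K_o` and all `o`
(`lat_exhaust`). Put `L₀ = m + j` and `L = (card κ) * L₀ + 1`.
Let `g = k₁ a k₂`, `a = dia l`, `c i = c i'`, `l i - l i' > L`. By the pigeonhole principle there is
an integer `t` with `l i' ≤ t`, `t + L₀ ≤ l i`, such that no `x` with `c x = c i` has
`t < l x < t + L₀`. (Sort the values of `l` on the class of `i`; the total length of the interval is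
more than the number of gaps times `L₀`.) Put `o x = 0` if `c x = c i` and `l x ≥ t + L₀` , or
`c x ≠ c i`, and `o x = 1` if `c x = c i` and `l x ≤ t`. Then for `n ∈ K_o`: the entries
`(a n a⁻¹ - 1) x y = ϖ^(l x - l y) (n - 1) x y` are nonzero only if `o x = 0`, `o y = 1`,
`c x = c y = c i`, and then `l x - l y ≥ L₀`, so they lie in `lat m`; the same for the inverse. So
`a K_o a⁻¹ ≤ Kc m ∩ lev c`. Hence, with `s = π k₂ v ∈ S`, `avg_{Kc m} (π a s)
= avg_{Kc m} (avg_{a K_o a⁻¹} (π a s)) = avg_{Kc m} (π a (avg_{K_o} s)) = 0` (`avg_mono`,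
`avg_conj`), and `avg_{Kc m} (π k₁ x) = π k₁ (avg_{Kc m} x)` since `Kc 0` normalizes `Kc m`
(`Kc_normal`, `avg_conj`).
-/

set_option autoImplicit false

namespace Pool.Agent.Lib.MP_ca1492_al.P

open Topology Matrix ValuativeRel

noncomputable section

variable {F : Type} [Field F] [ValuativeRel F] [TopologicalSpace F]
  [IsNonarchimedeanLocalField F]
variable {κ : Type} [Fintype κ] [DecidableEq κ]
variable {V : Type} [AddCommGroup V] [Module ℂ V]

variable (F) in
/-- the congruence subgroups of the Levi subgroup -/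
def Kl {ι : Type} (c : κ → ι) (m : ℕ) : Subgroup (lev F c) := (Kc F κ m).subgroupOf (lev F c)

variable (F) in
/-- `dia l` as an element of the Levi subgroup -/
def dial {ι : Type} (c : κ → ι) (l : κ → ℤ) : lev F c := ⟨dia F l, dia_mem_lev c l⟩

theorem Kl_isOpen {ι : Type} (c : κ → ι) (m : ℕ) : IsOpen (Kl F c m : Set (lev F c)) :=
  (Kc_isOpen m).preimage continuous_subtype_val

theorem Kl_isCompact {ι : Type} (c : κ → ι) (m : ℕ) : IsCompact (Kl F c m : Set (lev F c)) :=
  (lev_isClosed c).isClosedEmbedding_subtypeVal.isCompact_preimage (Kc_isCompact m)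

theorem Kl_basis {ι : Type} (c : κ → ι) (U : Set (lev F c)) (hU : U ∈ nhds (1 : lev F c)) :
    ∃ m : ℕ, (Kl F c m : Set (lev F c)) ⊆ U := by
  rw [mem_nhds_subtype] at hU
  obtain ⟨u, hu, huU⟩ := hU
  obtain ⟨m, hm⟩ := Kc_basis u hu
  exact ⟨m, fun x hx => huU (hm hx)⟩

theorem lev_hasCO {ι : Type} (c : κ → ι) : HasCO (lev F c) := by
  intro U hU
  obtain ⟨m, hm⟩ := Kl_basis c U hU
  exact ⟨Kl F c m, Kl_isOpen c m, Kl_isCompact c m, hm⟩

theorem pigeon (s : Finset κ) (l : κ → ℤ) (L₀ : ℕ) (i i' : κ) (hi : i ∈ s) (hi' : i' ∈ s)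
    (h : ((s.card * L₀ : ℕ) : ℤ) < l i - l i') :
    ∃ t : ℤ, l i' ≤ t ∧ t + L₀ ≤ l i ∧ ∀ x ∈ s, l x ≤ t ∨ t + L₀ ≤ l x := by
  classical
  by_contra hcon
  push Not at hcon
  have hc : ∀ j ∈ Finset.range s.card, ∃ x ∈ s, l i' + ((j * L₀ : ℕ) : ℤ) < l x ∧
      l x < l i' + ((j * L₀ : ℕ) : ℤ) + L₀ := by
    intro j hj
    have hj' : j + 1 ≤ s.card := Finset.mem_range.1 hj
    have h1 : (j + 1) * L₀ ≤ s.card * L₀ := Nat.mul_le_mul_right _ hj'
    have h2 : ((j * L₀ : ℕ) : ℤ) + L₀ ≤ ((s.card * L₀ : ℕ) : ℤ) := by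
      have : j * L₀ + L₀ ≤ s.card * L₀ := by
        rw [← Nat.succ_mul]
        exact h1
      exact_mod_cast this
    refine hcon _ ?_ ?_
    · have : (0 : ℤ) ≤ ((j * L₀ : ℕ) : ℤ) := Int.natCast_nonneg _
      linarith
    · linarith
  haveI : Nonempty κ := ⟨i⟩
  choose! f hf hf1 hf2 using hc
  have hmap : ∀ j ∈ Finset.range s.card, f j ∈ s.erase i' := by
    intro j hj
    rw [Finset.mem_erase]
    refine ⟨?_, hf j hj⟩
    intro he
    have h1 := hf1 j hj
    rw [he] at h1
    have : (0 : ℤ) ≤ ((j * L₀ : ℕ) : ℤ) := Int.natCast_nonneg _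
    linarith
  have hinj : Set.InjOn f (Finset.range s.card : Set ℕ) := by
    have key : ∀ a ∈ Finset.range s.card, ∀ b ∈ Finset.range s.card, a < b → f a ≠ f b := by
      intro a ha b hb hab he
      have h1 := hf2 a ha
      have h2 := hf1 b hb
      rw [← he] at h2
      have h3 : a * L₀ + L₀ ≤ b * L₀ := by
        rw [← Nat.succ_mul]
        exact Nat.mul_le_mul_right _ hab
      have h4 : ((a * L₀ : ℕ) : ℤ) + L₀ ≤ ((b * L₀ : ℕ) : ℤ) := by exact_mod_cast h3
      linarith
    intro a ha b hb he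
    rcases lt_trichotomy a b with h1 | h1 | h1
    · exact absurd he (key a ha b hb h1)
    · exact h1
    · exact absurd he.symm (key b hb a ha h1)
  have h1 := Finset.card_le_card_of_injOn f hmap hinj
  rw [Finset.card_range, Finset.card_erase_of_mem hi'] at h1
  have h2 : 0 < s.card := Finset.card_pos.2 ⟨i', hi'⟩
  omega

theorem CuspCompact_zpow (z : ℤ) : unifF F ^ z ∈ lat F z := by
  have h1 : ∀ k : ℕ, ordF F (unifF F ^ k) = k := by
    intro k
    induction k with
    | zero => rw [pow_zero, ordF_one, Nat.cast_zero]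
    | succ k ih =>
      rw [pow_succ, ordF_mul _ _ (pow_ne_zero _ unifF_ne_zero) unifF_ne_zero, ih, ord_unifF]
      push_cast
      ring
  refine Or.inr ?_
  obtain ⟨k, rfl | rfl⟩ := z.eq_nat_or_neg
  · rw [zpow_natCast, h1]
  · rw [_root_.zpow_neg, zpow_natCast, ordF_inv, h1]

/-- entries of the conjugates by diagonal matrices -/
theorem CuspCompact_conj (l : κ → ℤ) (n : GL κ F) (x y : κ) :
    (((dia F l * n * (dia F l)⁻¹ : GL κ F) : Matrix κ κ F) - 1) x y =
      unifF F ^ (l x - l y) * ((n : Matrix κ κ F) - 1) x y := by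
  have h1 : ((dia F l * n * (dia F l)⁻¹ : GL κ F) : Matrix κ κ F) x y =
      unifF F ^ (l x - l y) * (n : Matrix κ κ F) x y := by
    have e1 : ((dia F l : GL κ F) : Matrix κ κ F) = Matrix.diagonal fun i => unifF F ^ (l i) := rfl
    have e2 : (((dia F l)⁻¹ : GL κ F) : Matrix κ κ F) =
      Matrix.diagonal fun i => unifF F ^ (-(l i)) := rfl
    rw [Units.val_mul, Units.val_mul, e1, e2, Matrix.mul_diagonal, Matrix.diagonal_mul,
      sub_eq_add_neg, zpow_add₀ unifF_ne_zero]
    ring
  rw [Matrix.sub_apply, Matrix.sub_apply, h1, mul_sub]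
  congr 1
  by_cases hxy : x = y
  · subst hxy
    rw [sub_self, zpow_zero, one_mul]
  · rw [Matrix.one_apply_ne hxy, mul_zero]

/-- `Kl m` is normalized by `Kl 0` -/
theorem CuspCompact_map {ι : Type} (c : κ → ι) (m : ℕ) (k : lev F c) (hk : k ∈ Kl F c 0) :
    (Kl F c m).map (MulAut.conj k).toMonoidHom = Kl F c m := by
  ext x
  constructor
  · rintro ⟨y, hy, rfl⟩
    exact Kc_normal m k.1 y.1 hk hy
  · intro hx
    refine ⟨k⁻¹ * x * k, ?_, by simp [MulAut.conj_apply, mul_assoc]⟩
    have h1 := Kc_normal m (k.1)⁻¹ x.1 ((Kc F κ 0).inv_mem hk) hx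
    rw [inv_inv] at h1
    exact h1

theorem cusp_compact {ι : Type} (c : κ → ι) (π : Representation ℂ (lev F c) V) (hπ : IsSm π)
    (hc : Cusp c π) (v : V) (m : ℕ) :
    ∃ L : ℕ, ∀ k₁ ∈ Kl F c 0, ∀ k₂ ∈ Kl F c 0, ∀ l : κ → ℤ,
      (∃ i j, c i = c j ∧ (L : ℤ) < l i - l j) →
      avg π (Kl F c m) (π (k₁ * dial F c l * k₂) v) = 0 := by
  classical
  have hfin := Avg_orb_finite π hπ (Kl F c 0) (Kl_isCompact c 0) v
  have hK : ∀ o : κ → Bool, ∃ j : ℕ,
      (∃ x y, c x = c y ∧ (if o x then (1 : ℤ) else 0) ≠ (if o y then (1 : ℤ) else 0)) →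
      ∃ K : Subgroup (GL κ F), K ≤ uni F c (fun x => if o x then (1 : ℤ) else 0) ∧
        IsCompact (K : Set (GL κ F)) ∧
        (∀ x ∈ hfin.toFinset, avg π (K.subgroupOf (lev F c)) x = 0) ∧
        ∀ n ∈ K, ∀ x y, ((n : Matrix κ κ F) - 1) x y ∈ lat F (-(j : ℤ)) := by
    intro o
    by_cases ho : ∃ x y, c x = c y ∧ (if o x then (1 : ℤ) else 0) ≠ (if o y then (1 : ℤ) else 0)
    · have hker := hc (fun x => if o x then (1 : ℤ) else 0) ho
      obtain ⟨K, hKN, hKc, hKS⟩ := (stdD F c (fun x => if o x then (1 : ℤ) else 0)).kerJ_finset π hπ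
        hfin.toFinset (fun x _ => by rw [hker]; exact Submodule.mem_top)
      have hent : ∀ p : κ × κ, ∃ j : ℕ, ∀ n ∈ K,
          ((n : Matrix κ κ F) - 1) p.1 p.2 ∈ lat F (-(j : ℤ)) := by
        intro p
        have hcont : Continuous fun g : GL κ F => ((g : Matrix κ κ F) - 1) p.1 p.2 :=
          ((Units.continuous_val (M := Matrix κ κ F)).sub continuous_const).matrix_elem p.1 p.2
        obtain ⟨j, hj⟩ := lat_exhaust _ (hKc.image hcont)
        exact ⟨j, fun n hn => hj ⟨n, hn, rfl⟩⟩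
      choose j hj using hent
      refine ⟨∑ p, j p, fun _ => ⟨K, hKN, hKc, hKS, fun n hn x y => ?_⟩⟩
      refine lat_anti ?_ (hj (x, y) n hn)
      have : j (x, y) ≤ ∑ p, j p :=
        Finset.single_le_sum (f := j) (fun _ _ => Nat.zero_le _) (Finset.mem_univ (x, y))
      omega
    · exact ⟨0, fun h => absurd h ho⟩
  choose j hj using hK
  refine ⟨Fintype.card κ * (m + (∑ o, j o) + 1), ?_⟩
  rintro k₁ hk₁ k₂ hk₂ l ⟨i, i', hii, hL⟩
  set J := ∑ o, j o with hJ
  set L₀ := m + J + 1 with hL₀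
  obtain ⟨t, ht1, ht2, ht3⟩ := pigeon (Finset.univ.filter (fun x => c x = c i)) l L₀ i i'
    (by simp) (by simp [hii]) (by
      refine lt_of_le_of_lt ?_ hL
      have : (Finset.univ.filter (fun x => c x = c i)).card * L₀ ≤ Fintype.card κ * L₀ :=
        Nat.mul_le_mul_right _ (Finset.card_le_univ _)
      exact_mod_cast this)
  set o : κ → Bool := fun x => decide (c x = c i ∧ l x ≤ t) with ho
  have ho1 : ∀ x, o x = true ↔ (c x = c i ∧ l x ≤ t) := by
    intro x
    rw [ho]
    simp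
  have hoi' : o i' = true := (ho1 i').2 ⟨hii.symm, ht1⟩
  have hoi : ¬ o i = true := by
    rw [ho1]
    rintro ⟨-, h⟩
    have : (0 : ℤ) ≤ ((m + J : ℕ) : ℤ) := Int.natCast_nonneg _
    push_cast at *
    omega
  obtain ⟨K, hKN, hKc, hKS, hKe⟩ := hj o ⟨i, i', hii, by rw [if_neg hoi, if_pos hoi']; norm_num⟩
  have hjJ : j o ≤ J := Finset.single_le_sum (f := j) (fun _ _ => Nat.zero_le _) (Finset.mem_univ o)
  -- conjugation
  have hent : ∀ n ∈ K, ∀ x y,
      (((dia F l * n * (dia F l)⁻¹ : GL κ F) : Matrix κ κ F) - 1) x y ∈ lat F m := by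
    intro n hn x y
    rw [CuspCompact_conj]
    by_cases h0 : ((n : Matrix κ κ F) - 1) x y = 0
    · rw [h0, mul_zero]
      exact (lat F m).zero_mem
    · obtain ⟨⟨hn1, hn2⟩, hn3⟩ := hKN hn
      have hcxy : c x = c y := by
        by_contra hne
        apply h0
        rw [Matrix.sub_apply, hn1 x y hne, Matrix.one_apply_ne, sub_zero]
        rintro rfl
        exact hne rfl
      have hoxy : (if o x then (1 : ℤ) else 0) < (if o y then (1 : ℤ) else 0) := by
        rcases lt_trichotomy (if o x then (1 : ℤ) else 0) (if o y then (1 : ℤ) else 0) with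
          h | h | h
        · exact h
        · exfalso
          apply h0
          rw [Matrix.sub_apply, hn3 x y h, sub_self]
        · exfalso
          apply h0
          rw [Matrix.sub_apply, hn2 x y h, Matrix.one_apply_ne, sub_zero]
          rintro rfl
          exact lt_irrefl _ h
      have hoy : o y = true := by
        by_contra hne
        rw [if_neg hne] at hoxy
        split_ifs at hoxy <;> omega
      have hox : ¬ o x = true := by
        intro he
        rw [if_pos he, if_pos hoy] at hoxy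
        exact lt_irrefl _ hoxy
      have h1 := (ho1 y).1 hoy
      have hcx : c x = c i := hcxy.trans h1.1
      have h2 : t + L₀ ≤ l x := by
        rcases ht3 x (by simp [hcx]) with h | h
        · exact absurd ((ho1 x).2 ⟨hcx, h⟩) hox
        · exact h
      have h3 := lat_mul (CuspCompact_zpow (F := F) (l x - l y)) (hKe n hn x y)
      refine lat_anti ?_ h3
      have h4 := h1.2
      rw [hL₀] at h2
      push_cast at h2
      omega
  have hconj : ∀ n ∈ K, dia F l * n * (dia F l)⁻¹ ∈ Kc F κ m := by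
    intro n hn
    refine ⟨hent n hn, ?_⟩
    have h1 : (dia F l * n * (dia F l)⁻¹)⁻¹ = dia F l * n⁻¹ * (dia F l)⁻¹ := by group
    rw [h1]
    exact hent n⁻¹ (K.inv_mem hn)
  have hK'c : IsCompact ((K.subgroupOf (lev F c) : Subgroup (lev F c)) : Set (lev F c)) :=
    PD.compact_subgroupOf K (hKN.trans (uni_le c _)) hKc
  have hmapc : IsCompact (((K.subgroupOf (lev F c)).map
      (MulAut.conj (dial F c l)).toMonoidHom : Subgroup (lev F c)) : Set (lev F c)) := by
    rw [Subgroup.coe_map]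
    refine hK'c.image ?_
    have : (fun x : lev F c => (MulAut.conj (dial F c l)).toMonoidHom x) =
        fun x => dial F c l * x * (dial F c l)⁻¹ := by
      funext x
      simp [MulAut.conj_apply]
    change Continuous (fun x : lev F c => (MulAut.conj (dial F c l)).toMonoidHom x)
    rw [this]
    fun_prop
  have hle : (K.subgroupOf (lev F c)).map (MulAut.conj (dial F c l)).toMonoidHom ≤ Kl F c m := by
    rintro _ ⟨y, hy, rfl⟩
    exact hconj y.1 hy
  have hs : π k₂ v ∈ hfin.toFinset := by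
    rw [Set.Finite.mem_toFinset]
    exact ⟨k₂, hk₂, rfl⟩
  have h1 : avg π (Kl F c m) (π (dial F c l) (π k₂ v)) = 0 := by
    rw [← avg_mono π hπ _ (Kl F c m) hmapc (Kl_isCompact c m) hle, ← avg_conj π hπ _ hK'c,
      hKS _ hs, map_zero]
    exact PD.jac_avg_zero π _
  rw [map_mul, map_mul, Module.End.mul_apply, Module.End.mul_apply]
  have h2 := avg_conj π hπ (Kl F c m) (Kl_isCompact c m) k₁ (π (dial F c l) (π k₂ v))
  rw [CuspCompact_map c m k₁ hk₁] at h2
  rw [← h2, h1, map_zero]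

end

end Pool.Agent.Lib.MP_ca1492_al.P
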