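import Mathlib
import Pool.Agent.Lib.MP_ca1492_al.P.Base

/-!
# MP_ca1492_al, p-adic side, module Schur: Schur's lemma and tensor products with multiplicity

* `schur`: `π` irreducible admissible smooth, `T` an equivariant endomorphism. There is an open
  `K` with `fix π K ≠ 0` (a nonzero vector is fixed by an open subgroup); `T` preserves the finite
  dimensional space `fix π K`, so it has an eigenvalue `c` there; `ker (T - c)` is stable and
  nonzero, so it is everything.
* `isotyp`: `T : V → V ⊗ O` equivariant (trivial action on `O`) is `v ↦ v ⊗ o`: for every linear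
  form `l` on `O` the map `(id ⊗ l) ∘ T` is an equivariant endomorphism of `V`, so a scalar `c(l)`;
  fix `v₀ ≠ 0`, `T v₀ = Σ v_i ⊗ o_i` with `v_i` independent, `v_1 = v₀` (complete `v₀` to a basis):
  then `c(l) v₀ = Σ l(o_i) v_i` for all `l`, so `o_i = 0` for `i ≠ 1`, `c(l) = l(o_1)`, and
  `(id ⊗ l)(T v) = l(o_1) v` for all `v` and `l`, so `T v = v ⊗ o_1`.
* `tens_sub`: every stable subspace of `V ⊗ O` is `V ⊗ O'`: let `U` be stable and let
  `O' = {o | ∀ v, v ⊗ o ∈ U}`. Replacing `O` by `O / O'` we may assume `O' = 0`. Let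
  `x = Σ_{i=1}^r v_i ⊗ o_i ∈ U` be nonzero with `r` minimal (`v_i`, `o_i` independent). If `r = 1`:
  the stable subspace generated by `v_1 ⊗ o_1` is `V ⊗ o_1`, so `o_1 ∈ O'`, contradiction. If
  `r > 1`: the set of `(Σ)` `A = {(a_1, ..., a_r) ∈ V^r | Σ a_i ⊗ o_i ∈ U}` is stable, its
  projection to the first coordinate is everything (nonzero stable) and injective (an element with
  `a_1 = 0` has smaller rank), so `a_i = T_i a_1` with `T_i` equivariant, `T_i = c_i`, and
  `x = v_1 ⊗ (Σ c_i o_i)` has rank one. Contradiction.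
-/

set_option autoImplicit false

namespace Pool.Agent.Lib.MP_ca1492_al.P

open Topology TensorProduct

noncomputable section

variable {G : Type} [Group G] [TopologicalSpace G] [IsTopologicalGroup G]
variable {V W O : Type} [AddCommGroup V] [Module ℂ V] [AddCommGroup W] [Module ℂ W]
  [AddCommGroup O] [Module ℂ O]

/-- `S.module` of the algebra generated by the group: density of its action -/
theorem schur_density (π : Representation ℂ G V) (hi : Irr π)
    (hs : ∀ T : V →ₗ[ℂ] V, Equi π π T → ∃ c : ℂ, ∀ v, T v = c • v)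
    (f : V →ₗ[ℂ] V) (s : Finset V) :
    ∃ a ∈ Algebra.adjoin ℂ (Set.range (fun g : G => (π g : Module.End ℂ V))),
      ∀ v ∈ s, f v = a v := by
  classical
  let R := Algebra.adjoin ℂ (Set.range (fun g : G => (π g : Module.End ℂ V)))
  have hmem : ∀ g : G, (π g : Module.End ℂ V) ∈ R := fun g => Algebra.subset_adjoin ⟨g, rfl⟩
  obtain ⟨⟨v₀, hv₀⟩, hirr⟩ := hi
  have : Nontrivial V := ⟨v₀, 0, hv₀⟩
  have hsmul : ∀ (c : ℂ) (v : V), (algebraMap ℂ R c) • v = c • v := fun c v => rfl
  have : IsSimpleModule R V := by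
    rw [isSimpleModule_iff]
    refine { exists_pair_ne := ⟨⊥, ⊤, bot_ne_top⟩, eq_bot_or_eq_top := fun N => ?_ }
    let N' : Submodule ℂ V :=
      { carrier := N
        add_mem' := fun ha hb => N.add_mem ha hb
        zero_mem' := N.zero_mem
        smul_mem' := fun c v hv => by
          rw [← hsmul]
          exact N.smul_mem _ hv }
    have hN' : Stab π N' := fun g v hv => N.smul_mem (⟨π g, hmem g⟩ : R) hv
    rcases hirr N' hN' with h | h
    · left
      rw [eq_bot_iff]
      intro v hv
      have : v ∈ N' := hv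
      rw [h] at this
      exact this
    · right
      rw [eq_top_iff]
      intro v _
      have : v ∈ N' := by rw [h]; trivial
      exact this
  have hend : ∀ φ : Module.End R V, ∃ c : ℂ, ∀ v, φ v = c • v := by
    intro φ
    let T : V →ₗ[ℂ] V :=
      { toFun := φ
        map_add' := φ.map_add
        map_smul' := fun c v => by
          have := φ.map_smul (algebraMap ℂ R c) v
          rw [hsmul, hsmul] at this
          exact this }
    exact hs T (fun g v => φ.map_smul (⟨π g, hmem g⟩ : R) v)
  let F : Module.End (Module.End R V) V :=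
    { toFun := f
      map_add' := f.map_add
      map_smul' := fun φ v => by
        obtain ⟨c, hc⟩ := hend φ
        show f (φ v) = φ (f v)
        rw [hc, hc, map_smul] }
  obtain ⟨a, ha⟩ := jacobson_density F s
  exact ⟨a.1, a.2, fun v hv => ha v hv⟩

theorem schur (π : Representation ℂ G V) (hπ : IsSm π) (hi : Irr π) (ha : Adm π)
    (T : V →ₗ[ℂ] V) (hT : Equi π π T) : ∃ c : ℂ, ∀ v, T v = c • v := by
  obtain ⟨⟨v₀, hv₀⟩, hirr⟩ := hi
  let K : Subgroup G :=
    { carrier := {g : G | π g v₀ = v₀}
      mul_mem' := by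
        intro a b ha hb
        simp only [Set.mem_ofPred_eq] at *
        rw [map_mul, Module.End.mul_apply, hb, ha]
      one_mem' := by simp
      inv_mem' := by
        intro a ha
        simp only [Set.mem_ofPred_eq] at *
        have h1 : π a⁻¹ (π a v₀) = v₀ := by
          rw [← Module.End.mul_apply, ← map_mul]
          simp
        rwa [ha] at h1 }
  have hKo : IsOpen (K : Set G) := hπ v₀
  have hv₀K : v₀ ∈ fix π K := fun k hk => hk
  have _i1 := ha K hKo
  have : Nontrivial (fix π K) := ⟨⟨v₀, hv₀K⟩, 0, fun h => hv₀ (congrArg Subtype.val h)⟩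
  have hTK : ∀ v ∈ fix π K, T v ∈ fix π K := by
    intro v hv k hk
    rw [← hT k v, hv k hk]
  obtain ⟨c, hc⟩ := Module.End.exists_eigenvalue (T.restrict hTK)
  obtain ⟨w, hw⟩ := hc.exists_hasEigenvector
  refine ⟨c, ?_⟩
  let N : Submodule ℂ V := LinearMap.ker (T - c • LinearMap.id)
  have hN : Stab π N := by
    intro g v hv
    simp only [N, LinearMap.mem_ker, LinearMap.sub_apply, LinearMap.smul_apply,
      LinearMap.id_coe, id_eq, sub_eq_zero] at *
    rw [hT g v, hv, map_smul]
  rcases hirr N hN with h | h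
  · exfalso
    have h1 : (w : V) ∈ N := by
      simp only [N, LinearMap.mem_ker, LinearMap.sub_apply, LinearMap.smul_apply,
        LinearMap.id_coe, id_eq, sub_eq_zero]
      exact congrArg Subtype.val hw.apply_eq_smul
    rw [h, Submodule.mem_bot] at h1
    exact hw.2 (Subtype.ext h1)
  · intro v
    have h1 : v ∈ N := by rw [h]; trivial
    simpa only [N, LinearMap.mem_ker, LinearMap.sub_apply, LinearMap.smul_apply,
      LinearMap.id_coe, id_eq, sub_eq_zero] using h1

/-- the representation on `V ⊗ O` with trivial action on `O` -/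
def tens (π : Representation ℂ G V) (O : Type) [AddCommGroup O] [Module ℂ O] :
    Representation ℂ G (V ⊗[ℂ] O) where
  toFun g := TensorProduct.map (π g) LinearMap.id
  map_one' := by
    ext v o
    simp
  map_mul' := by
    intro a b
    ext v o
    simp

theorem schur_sep (x y : V ⊗[ℂ] O)
    (h : ∀ l : O →ₗ[ℂ] ℂ, TensorProduct.rid ℂ V (l.lTensor V x) =
      TensorProduct.rid ℂ V (l.lTensor V y)) : x = y := by
  classical
  apply (TensorProduct.equivFinsuppOfBasisRight (M := V) (Module.Basis.ofVectorSpace ℂ O)).injective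
  refine Finsupp.ext fun i => ?_
  rw [TensorProduct.equivFinsuppOfBasisRight_apply, TensorProduct.equivFinsuppOfBasisRight_apply]
  exact h _

theorem isotyp (π : Representation ℂ G V) (hi : Irr π)
    (hs : ∀ T : V →ₗ[ℂ] V, Equi π π T → ∃ c : ℂ, ∀ v, T v = c • v)
    (T : V →ₗ[ℂ] V ⊗[ℂ] O) (hT : Equi π (tens π O) T) : ∃ o : O, ∀ v, T v = v ⊗ₜ[ℂ] o := by
  obtain ⟨⟨v₀, hv₀⟩, -⟩ := hi
  have hc : ∀ l : O →ₗ[ℂ] ℂ, ∃ c : ℂ, ∀ v,
      TensorProduct.rid ℂ V (l.lTensor V (T v)) = c • v := by
    intro l
    refine hs ((TensorProduct.rid ℂ V).toLinearMap ∘ₗ l.lTensor V ∘ₗ T) ?_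
    intro g v
    have h1 : ∀ x : V ⊗[ℂ] O, TensorProduct.rid ℂ V (l.lTensor V (tens π O g x)) =
        π g (TensorProduct.rid ℂ V (l.lTensor V x)) := by
      intro x
      induction x using TensorProduct.induction_on with
      | zero => simp
      | tmul v o => simp [tens]
      | add a b ha hb => rw [map_add, map_add, map_add, ha, hb, map_add, map_add, map_add]
    simp only [LinearMap.comp_apply, LinearEquiv.coe_coe]
    rw [hT g v, h1]
  obtain ⟨φ, hφ⟩ : ∃ φ : V →ₗ[ℂ] ℂ, φ v₀ = 1 := by
    by_contra hcon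
    apply hv₀
    rw [← Module.forall_dual_apply_eq_zero_iff ℂ v₀]
    intro φ
    by_contra h1
    apply hcon
    exact ⟨(φ v₀)⁻¹ • φ, by simp [h1]⟩
  refine ⟨TensorProduct.lid ℂ O (φ.rTensor O (T v₀)), fun v => ?_⟩
  apply schur_sep
  intro l
  obtain ⟨c, hc⟩ := hc l
  rw [hc v]
  have h2 : ∀ x : V ⊗[ℂ] O, l (TensorProduct.lid ℂ O (φ.rTensor O x)) =
      φ (TensorProduct.rid ℂ V (l.lTensor V x)) := by
    intro x
    induction x using TensorProduct.induction_on with
    | zero => simp
    | tmul v o => simp [mul_comm]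
    | add a b ha hb => simp only [map_add, ha, hb]
  rw [LinearMap.lTensor_tmul, TensorProduct.rid_tmul, h2, hc v₀, map_smul, hφ]
  simp

theorem tens_sub (π : Representation ℂ G V) (hi : Irr π)
    (hs : ∀ T : V →ₗ[ℂ] V, Equi π π T → ∃ c : ℂ, ∀ v, T v = c • v)
    (U : Submodule ℂ (V ⊗[ℂ] O)) (hU : Stab (tens π O) U) :
    ∃ O' : Submodule ℂ O, U = LinearMap.range (TensorProduct.map (LinearMap.id : V →ₗ[ℂ] V)
      O'.subtype) := by
  classical
  let O' : Submodule ℂ O :=
    { carrier := {o | ∀ v : V, v ⊗ₜ[ℂ] o ∈ U}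
      add_mem' := fun {a b} ha hb v => by
        rw [TensorProduct.tmul_add]
        exact U.add_mem (ha v) (hb v)
      zero_mem' := fun v => by
        rw [TensorProduct.tmul_zero]
        exact U.zero_mem
      smul_mem' := fun c a ha v => by
        rw [TensorProduct.tmul_smul]
        exact U.smul_mem c (ha v) }
  have hadj : ∀ a ∈ Algebra.adjoin ℂ (Set.range (fun g : G => (π g : Module.End ℂ V))),
      ∀ x ∈ U, TensorProduct.map a (LinearMap.id : O →ₗ[ℂ] O) x ∈ U := by
    intro a ha
    induction ha using Algebra.adjoin_induction with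
    | mem a ha =>
      obtain ⟨g, rfl⟩ := ha
      exact fun x hx => hU g x hx
    | algebraMap c =>
      have h0 : ∀ x : V ⊗[ℂ] O,
          TensorProduct.map (algebraMap ℂ (Module.End ℂ V) c) (LinearMap.id : O →ₗ[ℂ] O) x
            = c • x := by
        intro x
        induction x using TensorProduct.induction_on with
        | zero => simp
        | tmul v o => simp [Algebra.algebraMap_eq_smul_one, TensorProduct.smul_tmul']
        | add a b ha hb => rw [map_add, ha, hb, smul_add]
      intro x hx
      rw [h0]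
      exact U.smul_mem c hx
    | add a b _ _ ha hb =>
      intro x hx
      rw [TensorProduct.map_add_left, LinearMap.add_apply]
      exact U.add_mem (ha x hx) (hb x hx)
    | mul a b _ _ ha hb =>
      intro x hx
      have : TensorProduct.map (a * b) (LinearMap.id : O →ₗ[ℂ] O) x =
          TensorProduct.map a (LinearMap.id : O →ₗ[ℂ] O)
            (TensorProduct.map b (LinearMap.id : O →ₗ[ℂ] O) x) := by
        rw [← LinearMap.comp_apply, ← TensorProduct.map_comp]
        rfl
      rw [this]
      exact ha _ (hb _ hx)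
  refine ⟨O', le_antisymm ?_ ?_⟩
  · intro x hx
    let b := Module.Basis.ofVectorSpace ℂ V
    let e := TensorProduct.equivFinsuppOfBasisLeft (N := O) b
    have hex : x = (e x).sum fun i n => b i ⊗ₜ[ℂ] n := by
      rw [← TensorProduct.equivFinsuppOfBasisLeft_symm_apply]
      exact (e.symm_apply_apply x).symm
    have hO : ∀ i ∈ (e x).support, e x i ∈ O' := by
      intro i hi' v
      obtain ⟨a, ha, hav⟩ := schur_density π hi hs
        (b.constr ℂ (fun j => if j = i then v else 0)) ((e x).support.image b)
      have h1 := hadj a ha x hx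
      have h2 : TensorProduct.map a (LinearMap.id : O →ₗ[ℂ] O) x = v ⊗ₜ[ℂ] (e x i) := by
        conv_lhs => rw [hex]
        rw [Finsupp.sum, map_sum]
        rw [Finset.sum_eq_single_of_mem i hi']
        · rw [TensorProduct.map_tmul, ← hav (b i) (Finset.mem_image_of_mem _ hi'),
            Module.Basis.constr_basis, if_pos rfl]
          rfl
        · intro j hj hji
          rw [TensorProduct.map_tmul, ← hav (b j) (Finset.mem_image_of_mem _ hj),
            Module.Basis.constr_basis, if_neg hji, TensorProduct.zero_tmul]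
      rwa [h2] at h1
    rw [hex]
    refine Submodule.sum_mem _ fun i hi' => ?_
    exact ⟨b i ⊗ₜ[ℂ] (⟨e x i, hO i hi'⟩ : O'), by simp⟩
  · rintro _ ⟨x, rfl⟩
    induction x using TensorProduct.induction_on with
    | zero => simp
    | tmul v o =>
      rw [TensorProduct.map_tmul]
      exact o.2 v
    | add a b ha hb =>
      rw [map_add]
      exact U.add_mem ha hb

end

end Pool.Agent.Lib.MP_ca1492_al.P
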