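import Mathlib
import Pool.Agent.Lib.MP_ca1492_al.P.CuspCompact
import Pool.Agent.Lib.MP_ca1492_al.P.Schur

/-!
# MP_ca1492_al, p-adic side, module CuspAdm: irreducible cuspidal representations are admissible

Let `π` be irreducible, smooth, cuspidal, `c` with finite range, `v ≠ 0`, `m : ℕ`.
(1) `fix π (Kl m)` is spanned by the vectors `avg (Kl m) (π g v)` (`V` is spanned by the `π g v`,
    and `avg` is a linear projector onto `fix`). By `cartan` write `g = k₁ (dia l) k₂`; by
    `cusp_compact` only those `l` with `|l i - l j| ≤ L` for `c i = c j` matter, and such an `l` is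
    `l₀ + a ∘ c` with `l₀` in a finite set (subtract the value at a chosen index of each class).
    Since `dia (a ∘ c)` is central and `avg (Kl m)` commutes with `π k₁`, the vectors are
    `π (dia (a ∘ c))` applied to the finite set
    `T = {π k₁ (avg (Kl m) (π (dia l₀) (π k₂ v)))}` (finite since the `Kl 0`-orbits of smooth vectors
    are finite). So `N = fix π (Kl m)` is a finitely generated module over the commutative finitely
    generated algebra `A` generated by the operators `z_x^{±1}`, `z_x = π (dia (indicator of the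
    class x))`, `x` in the range of `c`.
(2) Let `A'` be the subalgebra of `End V` generated by the `z_x^{±1}`. Its elements commute with the
    group, so each nonzero `a ∈ A'` is bijective on `V` (kernel and image are stable), and `A'` is a
    domain; also `a N = N` for `a ≠ 0` (the preimage of a fixed vector under an injective map
    commuting with the group is fixed).
(3) If `N ≠ 0` (otherwise nothing to prove): for `0 ≠ a ∈ A'`, `a N = N` with `N` finitely
    generated; by Nakayama (`Submodule.exists_sub_one_mem_and_smul_eq_zero_of_fg_of_le_smul`) there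
    is `b ∈ A'` with `(1 - a b) N = 0`, so `1 - a b = 0` as nonzero elements are injective. So `A'`
    is a field, finitely generated as an algebra over `ℂ`; by Zariski's lemma it is finite over `ℂ`,
    so `A' = ℂ` (algebraically closed), and `N` is finite dimensional.
-/

set_option autoImplicit false

namespace Pool.Agent.Lib.MP_ca1492_al.P

open Topology Matrix ValuativeRel

noncomputable section

section abs

variable {G : Type} [Group G] {V : Type} [AddCommGroup V] [Module ℂ V]

theorem CuspAdm_inj (π : Representation ℂ G V) (hi : Irr π) (T : Module.End ℂ V)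
    (hT : ∀ g v, T (π g v) = π g (T v)) (h0 : T ≠ 0) :
    Function.Injective T ∧ Function.Surjective T := by
  have hk : Stab π (LinearMap.ker T) := by
    intro g v hv
    rw [LinearMap.mem_ker] at hv ⊢
    rw [hT, hv, map_zero]
  have hr : Stab π (LinearMap.range T) := by
    rintro g _ ⟨v, rfl⟩
    exact ⟨π g v, hT g v⟩
  have hne : LinearMap.ker T ≠ ⊤ := by
    intro h
    exact h0 (LinearMap.ker_eq_top.1 h)
  have hne' : LinearMap.range T ≠ ⊥ := by
    intro h
    exact h0 (LinearMap.range_eq_bot.1 h)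
  refine ⟨?_, ?_⟩
  · rcases hi.2 _ hk with h | h
    · exact LinearMap.ker_eq_bot.1 h
    · exact absurd h hne
  · rcases hi.2 _ hr with h | h
    · exact absurd h hne'
    · exact LinearMap.range_eq_top.1 h

theorem CuspAdm_abs {A : Type} [CommRing A] [Algebra ℂ A] [Algebra.FiniteType ℂ A]
    (ρ : A →ₐ[ℂ] Module.End ℂ V) (π : Representation ℂ G V) (hi : Irr π)
    (hG : ∀ a g v, ρ a (π g v) = π g (ρ a v)) (K : Subgroup G) (T : Set V) (hT : T.Finite)
    (hTN : ∀ t ∈ T, t ∈ fix π K)
    (hspan : ∀ w ∈ fix π K, w ∈ Submodule.span ℂ {y | ∃ a : A, ∃ t ∈ T, y = ρ a t}) :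
    FiniteDimensional ℂ (fix π K) := by
  classical
  by_cases hN0 : fix π K = ⊥
  · rw [hN0]
    infer_instance
  let _ : Module A V := Module.compHom V ρ.toRingHom
  have hsm : ∀ (a : A) (v : V), a • v = ρ a v := fun _ _ => rfl
  obtain ⟨N, hN⟩ : ∃ N : Submodule A V, ∀ v, v ∈ N ↔ v ∈ fix π K := by
    refine ⟨{ carrier := fix π K
              add_mem' := fun ha hb => (fix π K).add_mem ha hb
              zero_mem' := (fix π K).zero_mem
              smul_mem' := ?_ }, fun v => Iff.rfl⟩
    intro a v hv k hk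
    rw [hsm, ← hG, hv k hk]
  have hNspan : N = Submodule.span A T := by
    apply le_antisymm
    · intro w hw
      have h1 := hspan w ((hN w).1 hw)
      refine Submodule.span_induction (p := fun x _ => x ∈ Submodule.span A T) ?_ ?_ ?_ ?_ h1
      · rintro _ ⟨a, t, ht, rfl⟩
        exact Submodule.smul_mem _ a (Submodule.subset_span ht)
      · exact Submodule.zero_mem _
      · intro x y _ _ hx hy
        exact Submodule.add_mem _ hx hy
      · intro c x _ hx
        have e : c • x = (algebraMap ℂ A c) • x := by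
          rw [hsm, AlgHom.commutes]
          rfl
        rw [e]
        exact Submodule.smul_mem _ _ hx
    · refine Submodule.span_le.2 fun t ht => (hN t).2 (hTN t ht)
  have hfg : N.FG := by
    rw [hNspan]
    exact Submodule.fg_span hT
  have hJ : N.annihilator ≠ ⊤ := by
    intro h
    rw [Submodule.annihilator_eq_top_iff] at h
    apply hN0
    rw [eq_bot_iff]
    intro v hv
    have h1 := (hN v).2 hv
    rw [h] at h1
    exact h1
  obtain ⟨𝔪, hm, hJm⟩ := Ideal.exists_le_maximal _ hJ
  have hzero : ∀ t ∈ 𝔪, ρ t = 0 := by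
    intro t ht
    by_contra h0
    obtain ⟨hinj, hsurj⟩ := CuspAdm_inj π hi (ρ t) (hG t) h0
    have hle : N ≤ 𝔪 • N := by
      intro n hn
      obtain ⟨u, hu⟩ := hsurj n
      have hu' : u ∈ N := by
        rw [hN]
        intro k hk
        apply hinj
        rw [hG, hu]
        exact (hN n).1 hn k hk
      have h1 := Submodule.smul_mem_smul ht hu'
      rw [hsm, hu] at h1
      exact h1
    obtain ⟨r, hr, hr'⟩ :=
      Submodule.exists_sub_one_mem_and_smul_eq_zero_of_fg_of_le_smul 𝔪 N hfg hle
    have h2 : r ∈ 𝔪 := hJm (Submodule.mem_annihilator.2 hr')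
    have h3 : (1 : A) ∈ 𝔪 := by
      have := 𝔪.sub_mem h2 hr
      rwa [sub_sub_cancel] at this
    exact hm.ne_top ((Ideal.eq_top_iff_one _).2 h3)
  have hscal : ∀ a : A, ∃ c : ℂ, ∀ v, ρ a v = c • v := by
    intro a
    let _ := Ideal.Quotient.field 𝔪
    have := finite_of_finite_type_of_isJacobsonRing ℂ (A ⧸ 𝔪)
    obtain ⟨c, hc⟩ := (IsAlgClosed.algebraMap_bijective_of_isIntegral (k := ℂ)
      (K := A ⧸ 𝔪)).2 (Ideal.Quotient.mk 𝔪 a)
    refine ⟨c, fun v => ?_⟩
    have h1 : a - algebraMap ℂ A c ∈ 𝔪 := by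
      rw [← Ideal.Quotient.eq, ← hc]
      rfl
    have h2 := hzero _ h1
    rw [map_sub, AlgHom.commutes, sub_eq_zero] at h2
    rw [h2]
    rfl
  have hfin : fix π K = Submodule.span ℂ T := by
    apply le_antisymm
    · intro w hw
      refine Submodule.span_le.2 ?_ (hspan w hw)
      rintro _ ⟨a, t, ht, rfl⟩
      obtain ⟨c, hc⟩ := hscal a
      rw [hc]
      exact Submodule.smul_mem _ c (Submodule.subset_span ht)
    · exact Submodule.span_le.2 hTN
  rw [hfin]
  exact FiniteDimensional.span_of_finite ℂ hT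

theorem CuspAdm_abs2 (S : Set (Module.End ℂ V)) (hS : S.Finite)
    (hcomm : ∀ x ∈ S, ∀ y ∈ S, x * y = y * x) (π : Representation ℂ G V) (hi : Irr π)
    (hG : ∀ a ∈ S, ∀ g v, a (π g v) = π g (a v)) (K : Subgroup G) (T : Set V) (hT : T.Finite)
    (hTN : ∀ t ∈ T, t ∈ fix π K)
    (hspan : ∀ w ∈ fix π K, w ∈ Submodule.span ℂ
      {y | ∃ a ∈ Algebra.adjoin ℂ S, ∃ t ∈ T, y = a t}) :
    FiniteDimensional ℂ (fix π K) := by
  let _ : CommRing (Algebra.adjoin ℂ S) :=
    { (Algebra.adjoin ℂ S).toRing with
      mul_comm := fun x y => (Algebra.isMulCommutative_adjoin ℂ hcomm).is_comm.comm x y }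
  have : Algebra.FiniteType ℂ (Algebra.adjoin ℂ S) := by
    rw [← Subalgebra.fg_iff_finiteType]
    obtain ⟨s, hs⟩ := hS.exists_finset_coe
    rw [← hs]
    exact Subalgebra.fg_adjoin_finset s
  have hG' : ∀ a ∈ Algebra.adjoin ℂ S, ∀ g v, a (π g v) = π g (a v) := by
    intro a ha
    induction ha using Algebra.adjoin_induction with
    | mem a ha => exact hG a ha
    | algebraMap c =>
      intro g v
      rw [Module.algebraMap_end_apply, Module.algebraMap_end_apply, map_smul]
    | add a b _ _ ha hb =>
      intro g v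
      rw [LinearMap.add_apply, LinearMap.add_apply, ha, hb, map_add]
    | mul a b _ _ ha hb =>
      intro g v
      rw [Module.End.mul_apply, Module.End.mul_apply, hb, ha]
  refine CuspAdm_abs (A := Algebra.adjoin ℂ S) (Algebra.adjoin ℂ S).val π hi
    (fun a g v => hG' a.1 a.2 g v) K T hT hTN ?_
  intro w hw
  refine Submodule.span_mono ?_ (hspan w hw)
  rintro _ ⟨a, ha, t, ht, rfl⟩
  exact ⟨⟨a, ha⟩, t, ht, rfl⟩

end abs

variable {F : Type} [Field F] [ValuativeRel F] [TopologicalSpace F]
  [IsNonarchimedeanLocalField F]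
variable {κ : Type} [Fintype κ] [DecidableEq κ]
variable {V : Type} [AddCommGroup V] [Module ℂ V]

theorem CuspAdm_dial_add {ι : Type} (c : κ → ι) (l l' : κ → ℤ) :
    dial F c (fun i => l i + l' i) = dial F c l * dial F c l' :=
  Subtype.ext (dia_add l l')

theorem CuspAdm_dial_zero {ι : Type} (c : κ → ι) : dial F c (fun _ => 0) = 1 := by
  have h := CuspAdm_dial_add (F := F) c (fun _ => 0) (fun _ => 0)
  have e : (fun _ : κ => (0 : ℤ) + 0) = fun _ => 0 := by
    funext _
    exact add_zero 0
  rw [e] at h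
  exact left_eq_mul.1 h

theorem CuspAdm_central {ι : Type} (c : κ → ι) (a : ι → ℤ) (g : lev F c) :
    dial F c (fun i => a (c i)) * g = g * dial F c (fun i => a (c i)) :=
  Subtype.ext (dia_central c a g.1 g.2)

theorem CuspAdm_comm {ι : Type} (c : κ → ι) (π : Representation ℂ (lev F c) V) (a : ι → ℤ)
    (g : lev F c) (v : V) :
    π (dial F c (fun i => a (c i))) (π g v) = π g (π (dial F c (fun i => a (c i))) v) := by
  rw [← Module.End.mul_apply, ← Module.End.mul_apply, ← map_mul, ← map_mul, CuspAdm_central]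

open Classical in
/-- the generators of the algebra of central elements -/
def CuspAdm_S {ι : Type} (c : κ → ι) (π : Representation ℂ (lev F c) V) :
    Set (Module.End ℂ V) :=
  (fun q : ι × Bool => (π (dial F c (fun i => if c i = q.1 then (if q.2 then 1 else -1) else 0)) :
    Module.End ℂ V)) '' ((Finset.univ.image c ×ˢ (Finset.univ : Finset Bool) : Finset (ι × Bool)) :
      Set (ι × Bool))

theorem CuspAdm_S_finite {ι : Type} (c : κ → ι) (π : Representation ℂ (lev F c) V) :
    (CuspAdm_S c π).Finite := by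
  classical
  exact (Finset.finite_toSet _).image _

theorem CuspAdm_S_form {ι : Type} (c : κ → ι) (π : Representation ℂ (lev F c) V)
    (x : Module.End ℂ V) (hx : x ∈ CuspAdm_S c π) :
    ∃ a : ι → ℤ, x = π (dial F c (fun i => a (c i))) := by
  classical
  obtain ⟨q, -, rfl⟩ := hx
  refine ⟨fun y => if y = q.1 then (if q.2 then 1 else -1) else 0, ?_⟩
  congr

theorem CuspAdm_mem {ι : Type} (c : κ → ι) (π : Representation ℂ (lev F c) V) (a : ι → ℤ) :
    (π (dial F c (fun i => a (c i))) : Module.End ℂ V) ∈ Algebra.adjoin ℂ (CuspAdm_S c π) := by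
  classical
  obtain ⟨A, hA⟩ : ∃ A, A = Algebra.adjoin ℂ (CuspAdm_S c π) := ⟨_, rfl⟩
  rw [← hA]
  have hzero : (π (dial F c (fun _ => 0)) : Module.End ℂ V) ∈ A := by
    rw [CuspAdm_dial_zero, map_one]
    exact A.one_mem
  have hadd : ∀ l l' : κ → ℤ, (π (dial F c l) : Module.End ℂ V) ∈ A →
      (π (dial F c l') : Module.End ℂ V) ∈ A →
      (π (dial F c (fun i => l i + l' i)) : Module.End ℂ V) ∈ A := by
    intro l l' h1 h2
    rw [CuspAdm_dial_add, map_mul]
    exact A.mul_mem h1 h2
  have hgen : ∀ x ∈ Finset.univ.image c, ∀ b : Bool,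
      (π (dial F c (fun i => if c i = x then (if b then 1 else -1) else 0)) :
        Module.End ℂ V) ∈ A := by
    intro x hx b
    rw [hA]
    apply Algebra.subset_adjoin
    refine ⟨(x, b), ?_, ?_⟩
    · exact Finset.mem_coe.2 (Finset.mem_product.2 ⟨hx, Finset.mem_univ _⟩)
    · rfl
  have hpow : ∀ x ∈ Finset.univ.image c, ∀ n : ℤ,
      (π (dial F c (fun i => if c i = x then n else 0)) : Module.End ℂ V) ∈ A := by
    intro x hx n
    induction n using Int.induction_on with
    | zero =>
      have e : (fun i => if c i = x then (0 : ℤ) else 0) = fun _ => 0 := by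
        funext i
        exact ite_self 0
      rw [e]
      exact hzero
    | succ n ih =>
      have h1 := hadd _ _ ih (hgen x hx true)
      have e : (fun i => (if c i = x then (n : ℤ) else 0) +
          (if c i = x then (if true then 1 else -1) else 0)) =
          fun i => if c i = x then ((n : ℤ) + 1) else 0 := by
        funext i
        by_cases h : c i = x
        · rw [if_pos h, if_pos h, if_pos h, if_pos rfl]
        · rw [if_neg h, if_neg h, if_neg h, add_zero]
      rw [e] at h1
      exact h1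
    | pred n ih =>
      have h1 := hadd _ _ ih (hgen x hx false)
      have e : (fun i => (if c i = x then (-(n : ℤ)) else 0) +
          (if c i = x then (if false = true then 1 else -1) else 0)) =
          fun i => if c i = x then (-(n : ℤ) - 1) else 0 := by
        funext i
        by_cases h : c i = x
        · rw [if_pos h, if_pos h, if_pos h, if_neg Bool.false_ne_true, sub_eq_add_neg]
        · rw [if_neg h, if_neg h, if_neg h, add_zero]
      rw [e] at h1
      exact h1
  have hs : ∀ s : Finset ι, s ⊆ Finset.univ.image c →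
      (π (dial F c (fun i => if c i ∈ s then a (c i) else 0)) : Module.End ℂ V) ∈ A := by
    intro s
    induction s using Finset.induction_on with
    | empty =>
      intro _
      have e : (fun i => if c i ∈ (∅ : Finset ι) then a (c i) else 0) = fun _ => 0 := by
        funext i
        exact if_neg (Finset.notMem_empty _)
      rw [e]
      exact hzero
    | insert x s hx ih =>
      intro hsub
      have h1 := hadd _ _ (hpow x (hsub (Finset.mem_insert_self x s)) (a x))
        (ih (fun y hy => hsub (Finset.mem_insert_of_mem hy)))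
      have e : (fun i => (if c i = x then a x else 0) + (if c i ∈ s then a (c i) else 0)) =
          fun i => if c i ∈ insert x s then a (c i) else 0 := by
        funext i
        by_cases h : c i = x
        · have h2 : c i ∉ s := by
            rw [h]
            exact hx
          have h3 : c i ∈ insert x s := by
            rw [h]
            exact Finset.mem_insert_self x s
          rw [if_pos h, if_neg h2, if_pos h3, add_zero, h]
        · by_cases h2 : c i ∈ s
          · rw [if_neg h, if_pos h2, if_pos (Finset.mem_insert_of_mem h2), zero_add]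
          · have h3 : c i ∉ insert x s := by
              intro h4
              rcases Finset.mem_insert.1 h4 with h5 | h5
              · exact h h5
              · exact h2 h5
            rw [if_neg h, if_neg h2, if_neg h3, add_zero]
      rw [e] at h1
      exact h1
  have h1 := hs (Finset.univ.image c) (Finset.Subset.refl _)
  have e : (fun i => if c i ∈ Finset.univ.image c then a (c i) else 0) = fun i => a (c i) := by
    funext i
    exact if_pos (Finset.mem_image_of_mem c (Finset.mem_univ i))
  rw [e] at h1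
  exact h1

theorem CuspAdm_split {ι : Type} (c : κ → ι) (l : κ → ℤ) (L : ℕ)
    (h : ¬ ∃ i j, c i = c j ∧ (L : ℤ) < l i - l j) :
    ∃ (a : ι → ℤ) (l₀ : κ → ℤ), l₀ ∈ Set.Icc (fun _ : κ => -(L : ℤ)) (fun _ => (L : ℤ)) ∧
      l = fun i => a (c i) + l₀ i := by
  classical
  have h' : ∀ i j, c i = c j → l i - l j ≤ L := by
    intro i j hij
    by_contra hcon
    exact h ⟨i, j, hij, not_le.1 hcon⟩
  obtain ⟨a, ha⟩ : ∃ a : ι → ℤ, ∀ i, ∃ j, c j = c i ∧ a (c i) = l j := by
    refine ⟨fun x => if hx : ∃ i, c i = x then l hx.choose else 0, fun i => ?_⟩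
    have hx : ∃ j, c j = c i := ⟨i, rfl⟩
    refine ⟨hx.choose, hx.choose_spec, ?_⟩
    exact dif_pos hx
  refine ⟨a, fun i => l i - a (c i), ⟨?_, ?_⟩, ?_⟩
  · intro i
    obtain ⟨j, h1, h2⟩ := ha i
    have h3 := h' j i h1
    show -(L : ℤ) ≤ l i - a (c i)
    rw [h2]
    omega
  · intro i
    obtain ⟨j, h1, h2⟩ := ha i
    have h3 := h' i j h1.symm
    show l i - a (c i) ≤ (L : ℤ)
    rw [h2]
    exact h3
  · funext i
    ring

theorem CuspAdm_fd {ι : Type} (c : κ → ι) (π : Representation ℂ (lev F c) V) (hπ : IsSm π)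
    (hi : Irr π) (hc : Cusp c π) (m : ℕ) : FiniteDimensional ℂ (fix π (Kl F c m)) := by
  classical
  obtain ⟨v, hv⟩ := hi.1
  obtain ⟨L, hL⟩ := cusp_compact c π hπ hc v m
  have hKm := Kl_isCompact (F := F) c m
  have hK0 := Kl_isCompact (F := F) c 0
  obtain ⟨T, hTdef⟩ : ∃ T : Set V, T = ⋃ l₀ ∈ Set.Icc (fun _ : κ => -(L : ℤ)) (fun _ => (L : ℤ)),
      ⋃ u ∈ orb π (Kl F c 0) v,
        (fun y => avg π (Kl F c m) y) '' orb π (Kl F c 0) (π (dial F c l₀) u) := ⟨_, rfl⟩
  have hTfin : T.Finite := by
    rw [hTdef]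
    refine Set.Finite.biUnion (Set.finite_Icc _ _) fun l₀ _ => ?_
    refine Set.Finite.biUnion (Avg_orb_finite π hπ _ hK0 v) fun u _ => ?_
    exact (Avg_orb_finite π hπ _ hK0 _).image _
  have hTN : ∀ t ∈ T, t ∈ fix π (Kl F c m) := by
    intro t ht
    rw [hTdef] at ht
    simp only [Set.mem_iUnion] at ht
    obtain ⟨l₀, -, u, -, y, -, rfl⟩ := ht
    exact avg_mem_fix π hπ _ hKm y
  refine CuspAdm_abs2 (CuspAdm_S c π) (CuspAdm_S_finite c π) ?_ π hi ?_ (Kl F c m) T hTfin hTN ?_
  · intro x hx y hy
    obtain ⟨a, rfl⟩ := CuspAdm_S_form c π x hx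
    obtain ⟨b, rfl⟩ := CuspAdm_S_form c π y hy
    rw [← map_mul, ← map_mul, CuspAdm_central]
  · intro x hx g w
    obtain ⟨a, rfl⟩ := CuspAdm_S_form c π x hx
    exact CuspAdm_comm c π a g w
  · intro w hw
    have hU : Stab π (Submodule.span ℂ (Set.range fun g => π g v)) := by
      intro g x hx
      refine Submodule.span_induction (p := fun y _ => π g y ∈
        Submodule.span ℂ (Set.range fun g => π g v)) ?_ ?_ ?_ ?_ hx
      · rintro _ ⟨h, rfl⟩
        refine Submodule.subset_span ⟨g * h, ?_⟩
        show π (g * h) v = π g (π h v)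
        rw [map_mul, Module.End.mul_apply]
      · rw [map_zero]
        exact Submodule.zero_mem _
      · intro y z _ _ hy hz
        rw [map_add]
        exact Submodule.add_mem _ hy hz
      · intro b y _ hy
        rw [map_smul]
        exact Submodule.smul_mem _ _ hy
    have hUtop : Submodule.span ℂ (Set.range fun g => π g v) = ⊤ := by
      rcases hi.2 _ hU with h | h
      · exfalso
        apply hv
        have h1 : v ∈ Submodule.span ℂ (Set.range fun g => π g v) := by
          refine Submodule.subset_span ⟨1, ?_⟩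
          show π 1 v = v
          rw [map_one, Module.End.one_apply]
        rw [h] at h1
        exact (Submodule.mem_bot ℂ).1 h1
      · exact h
    have hwU : w ∈ Submodule.span ℂ (Set.range fun g => π g v) := by
      rw [hUtop]
      exact Submodule.mem_top
    have key : ∀ x ∈ Submodule.span ℂ (Set.range fun g => π g v),
        avgL π hπ (Kl F c m) hKm x ∈ Submodule.span ℂ
          {y | ∃ a ∈ Algebra.adjoin ℂ (CuspAdm_S c π), ∃ t ∈ T, y = a t} := by
      intro x hx
      refine Submodule.span_induction (p := fun x _ => avgL π hπ (Kl F c m) hKm x ∈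
        Submodule.span ℂ {y | ∃ a ∈ Algebra.adjoin ℂ (CuspAdm_S c π), ∃ t ∈ T, y = a t})
        ?_ ?_ ?_ ?_ hx
      · rintro _ ⟨g, rfl⟩
        obtain ⟨k₁, hk₁, k₂, hk₂, hk₁', hk₂', l, hg⟩ := cartan c g.1 g.2
        have hg' : g = ⟨k₁, hk₁'⟩ * dial F c l * ⟨k₂, hk₂'⟩ := Subtype.ext hg
        obtain ⟨κ₁, hκ₁⟩ : ∃ x : lev F c, x = ⟨k₁, hk₁'⟩ := ⟨_, rfl⟩
        obtain ⟨κ₂, hκ₂⟩ : ∃ x : lev F c, x = ⟨k₂, hk₂'⟩ := ⟨_, rfl⟩
        have hm₁ : κ₁ ∈ Kl F c 0 := by
          rw [hκ₁]
          exact hk₁
        have hm₂ : κ₂ ∈ Kl F c 0 := by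
          rw [hκ₂]
          exact hk₂
        rw [← hκ₁, ← hκ₂] at hg'
        show avg π (Kl F c m) (π g v) ∈ _
        by_cases hcase : ∃ i j, c i = c j ∧ (L : ℤ) < l i - l j
        · rw [hg', hL κ₁ hm₁ κ₂ hm₂ l hcase]
          exact Submodule.zero_mem _
        · obtain ⟨a, l₀, hl₀, hl⟩ := CuspAdm_split c l L hcase
          have e1 : g = dial F c (fun i => a (c i)) * (κ₁ * dial F c l₀ * κ₂) := by
            rw [hg', hl, CuspAdm_dial_add, ← mul_assoc κ₁, ← CuspAdm_central, mul_assoc, mul_assoc,
              mul_assoc]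
          have e2 : π g v = π (dial F c (fun i => a (c i)))
              (π κ₁ (π (dial F c l₀) (π κ₂ v))) := by
            rw [e1, map_mul, map_mul, map_mul]
            rfl
          have e3 := avg_equi π π hπ hπ (Kl F c m) hKm (π (dial F c (fun i => a (c i))))
            (fun g w => CuspAdm_comm c π a g w) (π κ₁ (π (dial F c l₀) (π κ₂ v)))
          rw [e2, ← e3]
          refine Submodule.subset_span ⟨_, CuspAdm_mem c π a, _, ?_, rfl⟩
          rw [hTdef]
          simp only [Set.mem_iUnion]
          exact ⟨l₀, hl₀, π κ₂ v, ⟨κ₂, hm₂, rfl⟩, π κ₁ (π (dial F c l₀) (π κ₂ v)),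
            ⟨κ₁, hm₁, rfl⟩, rfl⟩
      · rw [map_zero]
        exact Submodule.zero_mem _
      · intro y z _ _ hy hz
        rw [map_add]
        exact Submodule.add_mem _ hy hz
      · intro b y _ hy
        rw [map_smul]
        exact Submodule.smul_mem _ _ hy
    have h1 := key w hwU
    have h2 : avgL π hπ (Kl F c m) hKm w = w := avg_of_mem_fix π _ w hw
    rw [h2] at h1
    exact h1

theorem cusp_adm {ι : Type} (c : κ → ι) (π : Representation ℂ (lev F c) V) (hπ : IsSm π)
    (hi : Irr π) (hc : Cusp c π) : Adm π := by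
  intro K hK
  obtain ⟨m, hm⟩ := Kl_basis (F := F) c (K : Set (lev F c)) (hK.mem_nhds K.one_mem)
  have h1 := CuspAdm_fd c π hπ hi hc m
  have hle : fix π K ≤ fix π (Kl F c m) := fun v hv k hk => hv k (hm hk)
  exact Submodule.finiteDimensional_of_le hle

/-- central character: block scalar matrices act by scalars -/
theorem cusp_central {ι : Type} (c : κ → ι) (π : Representation ℂ (lev F c) V) (hπ : IsSm π)
    (hi : Irr π) (hc : Cusp c π) (a : ι → ℤ) :
    ∃ z : ℂ, z ≠ 0 ∧ ∀ v, π (dial F c (fun i => a (c i))) v = z • v := by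
  obtain ⟨z, hz⟩ := schur π hπ hi (cusp_adm c π hπ hi hc) (π (dial F c (fun i => a (c i))))
    (fun g v => CuspAdm_comm c π a g v)
  refine ⟨z, ?_, hz⟩
  intro h0
  obtain ⟨v, hv⟩ := hi.1
  apply hv
  have h1 : π (dial F c (fun i => a (c i)))⁻¹ (π (dial F c (fun i => a (c i))) v) = v := by
    rw [← Module.End.mul_apply, ← map_mul, inv_mul_cancel, map_one, Module.End.one_apply]
  rw [hz, h0, zero_smul, map_zero] at h1
  exact h1.symm

/-- uniform version of `cusp_compact` on the invariants of `Kl m` -/
theorem cusp_compact_unif {ι : Type} (c : κ → ι) (π : Representation ℂ (lev F c) V)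
    (hπ : IsSm π) (hi : Irr π) (hc : Cusp c π) (m : ℕ) :
    ∃ L : ℕ, ∀ v ∈ fix π (Kl F c m), ∀ k₁ ∈ Kl F c 0, ∀ k₂ ∈ Kl F c 0, ∀ l : κ → ℤ,
      (∃ i j, c i = c j ∧ (L : ℤ) < l i - l j) →
      avg π (Kl F c m) (π (k₁ * dial F c l * k₂) v) = 0 := by
  classical
  have h1 := CuspAdm_fd c π hπ hi hc m
  have h2 : (fix π (Kl F c m)).FG := Module.Finite.iff_fg.1 h1
  obtain ⟨s, hs⟩ := h2
  choose Lf hLf using fun v => cusp_compact c π hπ hc v m
  refine ⟨s.sup Lf, ?_⟩
  intro v hv k₁ hk₁ k₂ hk₂ l hl
  obtain ⟨i, j, hij, hlt⟩ := hl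
  have hKm := Kl_isCompact (F := F) c m
  rw [← hs] at hv
  have key : ((avgL π hπ (Kl F c m) hKm) ∘ₗ (π (k₁ * dial F c l * k₂))) v = 0 := by
    refine Submodule.span_induction (p := fun x _ =>
      ((avgL π hπ (Kl F c m) hKm) ∘ₗ (π (k₁ * dial F c l * k₂))) x = 0) ?_ ?_ ?_ ?_ hv
    · intro x hx
      have h3 : Lf x ≤ s.sup Lf := Finset.le_sup (f := Lf) hx
      have h4 : (Lf x : ℤ) < l i - l j := lt_of_le_of_lt (by exact_mod_cast h3) hlt
      exact hLf x k₁ hk₁ k₂ hk₂ l ⟨i, j, hij, h4⟩
    · exact map_zero _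
    · intro x y _ _ hx hy
      rw [map_add, hx, hy, add_zero]
    · intro b x _ hx
      rw [map_smul, hx, smul_zero]
  exact key

end

end Pool.Agent.Lib.MP_ca1492_al.P
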