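import Mathlib
import Pool.Agent.Lib.MP_ca1492_al.P.Dual

/-!
# MP_ca1492_al, p-adic side, module Dual2: biduality for admissible representations

* `biDual_bij`: if `π` is admissible, the map `V → (V^∨)^∨`, `v ↦ (λ ↦ λ v)` is bijective: for a
  compact open `K` the restriction map `fix (dual π) K → (fix π K)^*` is a linear isomorphism
  (a `K`-invariant form is determined by its restriction to `fix π K` since `λ v = λ(avg v)`, and
  any form on `fix π K` extends by composing with `avg`), so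
  `fix (dual (dual π)) K = (fix π K)^{**} = fix π K`.
* `dual_adm`: same isomorphism `fix (dual π) K = (fix π K)^*`.
* `dual_irr`: let `U ≤ V^∨` be stable, `U ≠ 0`. Its annihilator `U^⊥ = {v | λ v = 0 ∀ λ ∈ U}` is
  stable, hence `0` (it is not everything). For each compact open `K`: if `fix U K ≠ (fix π K)^*`
  there is `0 ≠ v ∈ fix π K` killed by `fix U K` (finite dimension), and then by all of `U`
  (`λ v = λ(avg v) = (avg λ)(v)`), contradiction. So `fix U K = fix V^∨ K` for all `K`, `U = ⊤`.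
* `inj_of_dual_proj`: let `U ≤ E` be stable (inclusion `i`), `f : U → V` equivariant. Transposing
  `f` and using biduality: `f^t : V^∨ → U^∨`, and `i^t : E^∨ → U^∨` is surjective (`dual_surj`).
  Lift `f^t` through `i^t` to `g : V^∨ → E^∨`; `homDual` applied to `g` gives an equivariant
  `E → V^{∨∨}`, `x ↦ (l ↦ g(l)(x))`; compose with the inverse of `V ≅ V^{∨∨}`. On `U` it is `f`.
-/

set_option autoImplicit false

namespace Pool.Agent.Lib.MP_ca1492_al.P

open Topology

noncomputable section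

variable {G : Type} [Group G] [TopologicalSpace G] [IsTopologicalGroup G]
variable {V W : Type} [AddCommGroup V] [Module ℂ V] [AddCommGroup W] [Module ℂ W]

/-- a `K`-invariant form does not change under averaging -/
theorem Dual2_form (ρ : Representation ℂ G V) (hρ : IsSm ρ) (K : Subgroup G)
    (hK : IsCompact (K : Set G)) (l : V →ₗ[ℂ] ℂ) (hl : ∀ k ∈ K, ∀ v, l (ρ k v) = l v) (v : V) :
    l (avg ρ K v) = l v := by
  let τ : Representation ℂ G ℂ := 1
  have hτ : IsSm τ := by
    intro z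
    have e : {g : G | τ g z = z} = Set.univ := by
      ext g
      exact ⟨fun _ => Set.mem_univ _, fun _ => rfl⟩
    rw [e]
    exact isOpen_univ
  rw [avg_equi_of_mem ρ τ hρ hτ K hK l (fun k hk v => hl k hk v) v]
  exact avg_of_mem_fix τ K (l v) (fun k _ => rfl)

theorem Dual2_fix (π : Representation ℂ G V) (K : Subgroup G) (l : dualSp π)
    (hl : l ∈ fix (dual π) K) : ∀ k ∈ K, ∀ v, l.1 (π k v) = l.1 v := by
  intro k hk v
  have h := hl k⁻¹ (K.inv_mem hk)
  have h2 : ((dual π) k⁻¹ l).1 v = l.1 v := by rw [h]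
  have h3 : ((dual π) k⁻¹ l).1 v = l.1 (π (k⁻¹)⁻¹ v) := rfl
  rw [h3, inv_inv] at h2
  exact h2

/-- restriction of `K`-invariant smooth forms -/
def Dual2_R (π : Representation ℂ G V) (K : Subgroup G) :
    fix (dual π) K →ₗ[ℂ] Module.Dual ℂ (fix π K) where
  toFun l := l.1.1 ∘ₗ (fix π K).subtype
  map_add' _ _ := rfl
  map_smul' _ _ := rfl

theorem Dual2_R_inj (π : Representation ℂ G V) (hπ : IsSm π) (K : Subgroup G)
    (hK : IsCompact (K : Set G)) : Function.Injective (Dual2_R π K) := by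
  intro l l' h
  refine Subtype.ext (Subtype.ext (LinearMap.ext fun v => ?_))
  rw [← Dual2_form π hπ K hK l.1.1 (Dual2_fix π K l.1 l.2) v,
    ← Dual2_form π hπ K hK l'.1.1 (Dual2_fix π K l'.1 l'.2) v]
  exact congrArg (fun x : Module.Dual ℂ (fix π K) => x ⟨avg π K v, avg_mem_fix π hπ K hK v⟩) h

/-- the average as a map to the invariants -/
def Dual2_avg (π : Representation ℂ G V) (hπ : IsSm π) (K : Subgroup G)
    (hK : IsCompact (K : Set G)) : V →ₗ[ℂ] fix π K :=
  LinearMap.codRestrict (fix π K) (avgL π hπ K hK) (avg_mem_fix π hπ K hK)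

/-- extension of forms from the invariants -/
def Dual2_S (π : Representation ℂ G V) (hπ : IsSm π) (K : Subgroup G)
    (hK : IsCompact (K : Set G)) (hKo : IsOpen (K : Set G)) :
    Module.Dual ℂ (fix π K) →ₗ[ℂ] dualSp π where
  toFun μ := ⟨μ ∘ₗ Dual2_avg π hπ K hK, K, hKo, fun k hk v => by
    show μ (Dual2_avg π hπ K hK (π k v)) = μ (Dual2_avg π hπ K hK v)
    congr 1
    exact Subtype.ext (avg_apply_of_mem π K k hk v)⟩
  map_add' _ _ := rfl
  map_smul' _ _ := rfl

theorem Dual2_SR (π : Representation ℂ G V) (hπ : IsSm π) (K : Subgroup G)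
    (hK : IsCompact (K : Set G)) (hKo : IsOpen (K : Set G)) (l : fix (dual π) K) :
    Dual2_S π hπ K hK hKo (Dual2_R π K l) = l.1 := by
  refine Subtype.ext (LinearMap.ext fun v => ?_)
  exact Dual2_form π hπ K hK l.1.1 (Dual2_fix π K l.1 l.2) v

theorem Dual2_ev (π : Representation ℂ G V) (K : Subgroup G)
    (hK : IsCompact (K : Set G)) (l : dualSp π) (v : V) (hv : v ∈ fix π K) :
    (avg (dual π) K l).1 v = l.1 v := by
  let ev : dualSp π →ₗ[ℂ] ℂ :=
    { toFun := fun l => l.1 v
      map_add' := fun _ _ => rfl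
      map_smul' := fun _ _ => rfl }
  refine Dual2_form (dual π) (dual_smooth π) K hK ev (fun k hk l => ?_) l
  show l.1 (π k⁻¹ v) = l.1 v
  rw [hv k⁻¹ (K.inv_mem hk)]

theorem biDual_bij (hB : HasCO G) (π : Representation ℂ G V) (hπ : IsSm π) (ha : Adm π) :
    ∃ e : V ≃ₗ[ℂ] dualSp (dual π), Equi π (dual (dual π)) (e : V →ₗ[ℂ] _) ∧
      ∀ (v : V) (l : dualSp π), (e v).1 l = l.1 v := by
  obtain ⟨B, hBe, hBv⟩ := homDual (dual π) π (dual_smooth π) hπ LinearMap.id (fun _ _ => rfl)
  have hinj : Function.Injective B := by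
    rw [← LinearMap.ker_eq_bot, LinearMap.ker_eq_bot']
    intro v hv
    by_contra h0
    obtain ⟨l, hl⟩ := dual_sep hB π hπ v h0
    apply hl
    have h := hBv l v
    rw [hv] at h
    exact h.symm
  have hsurj : Function.Surjective B := by
    intro Λ
    obtain ⟨U, hU, hΛ⟩ := Λ.2
    obtain ⟨K, hKo, hK, hKU⟩ := hB U (hU.mem_nhds U.one_mem)
    have hfin : FiniteDimensional ℂ (fix π K) := ha K hKo
    set Λ' : Module.Dual ℂ (Module.Dual ℂ (fix π K)) := Λ.1 ∘ₗ Dual2_S π hπ K hK hKo with hΛ'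
    set v₀ := (Module.evalEquiv ℂ (fix π K)).symm Λ' with hv₀
    refine ⟨v₀.1, Subtype.ext (LinearMap.ext fun l => ?_)⟩
    rw [hBv l v₀.1]
    show l.1 v₀.1 = Λ.1 l
    have h1 : Λ.1 (avg (dual π) K l) = Λ.1 l :=
      Dual2_form (dual π) (dual_smooth π) K hK Λ.1 (fun k hk l => hΛ k (hKU hk) l) l
    have h2 := Dual2_SR π hπ K hK hKo
      ⟨avg (dual π) K l, avg_mem_fix (dual π) (dual_smooth π) K hK l⟩
    have h3 : Λ' (Dual2_R π K ⟨avg (dual π) K l,
        avg_mem_fix (dual π) (dual_smooth π) K hK l⟩) = Λ.1 (avg (dual π) K l) := by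
      rw [hΛ', LinearMap.comp_apply, h2]
    have h4 := Module.apply_evalEquiv_symm_apply ℂ (fix π K) (Dual2_R π K ⟨avg (dual π) K l,
        avg_mem_fix (dual π) (dual_smooth π) K hK l⟩) Λ'
    rw [← h1, ← h3, ← h4]
    exact (Dual2_ev π K hK l v₀.1 v₀.2).symm
  exact ⟨LinearEquiv.ofBijective B ⟨hinj, hsurj⟩, hBe, fun v l => hBv l v⟩

theorem dual_adm (hB : HasCO G) (π : Representation ℂ G V) (hπ : IsSm π) (ha : Adm π) :
    Adm (dual π) := by
  intro U hU
  obtain ⟨K, hKo, hK, hKU⟩ := hB U (hU.mem_nhds U.one_mem)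
  have hfin : FiniteDimensional ℂ (fix π K) := ha K hKo
  have hle : fix (dual π) U ≤ fix (dual π) K := fun l hl k hk => hl k (hKU hk)
  exact FiniteDimensional.of_injective (Dual2_R π K ∘ₗ Submodule.inclusion hle)
    ((Dual2_R_inj π hπ K hK).comp (Submodule.inclusion_injective hle))

theorem Dual2_avg_mem (ρ : Representation ℂ G V) (hρ : IsSm ρ) (K : Subgroup G)
    (hK : IsCompact (K : Set G)) (U : Submodule ℂ V) (hU : Stab ρ U) (v : V) (hv : v ∈ U) :
    avg ρ K v ∈ U := by
  classical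
  obtain ⟨W, hW, hvW⟩ := exists_open_fix ρ hρ {v}
  obtain ⟨s, -, -, -, hs⟩ := avg_sum K hK W hW
  rw [hs V ρ v (hvW v (Finset.mem_singleton_self v))]
  exact U.smul_mem _ (U.sum_mem fun k _ => hU k v hv)

theorem dual_irr (hB : HasCO G) (π : Representation ℂ G V) (hπ : IsSm π) (ha : Adm π)
    (hi : Irr π) : Irr (dual π) := by
  obtain ⟨⟨v, hv⟩, hirr⟩ := hi
  refine ⟨?_, ?_⟩
  · obtain ⟨l, hl⟩ := dual_sep hB π hπ v hv
    refine ⟨l, fun h0 => hl ?_⟩
    rw [h0]
    rfl
  · intro U hU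
    by_cases hUb : U = ⊥
    · exact Or.inl hUb
    right
    -- the annihilator
    let A : Submodule ℂ V :=
      { carrier := {v | ∀ l ∈ U, l.1 v = 0}
        add_mem' := fun {a b} ha hb l hl => by rw [map_add, ha l hl, hb l hl, add_zero]
        zero_mem' := fun l _ => map_zero _
        smul_mem' := fun c a ha l hl => by rw [map_smul, ha l hl, smul_zero] }
    have hAs : Stab π A := by
      intro g x hx l hl
      have h := hx ((dual π) g⁻¹ l) (hU g⁻¹ l hl)
      have h2 : ((dual π) g⁻¹ l).1 x = l.1 (π (g⁻¹)⁻¹ x) := rfl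
      rw [h2, inv_inv] at h
      exact h
    have hA : A = ⊥ := by
      rcases hirr A hAs with h | h
      · exact h
      · exfalso
        apply hUb
        rw [Submodule.eq_bot_iff]
        intro l hl
        refine Subtype.ext (LinearMap.ext fun x => ?_)
        have hx : x ∈ A := by rw [h]; trivial
        exact hx l hl
    rw [Submodule.eq_top_iff']
    intro l
    obtain ⟨W, hW, hlW⟩ := exists_open_fix (dual π) (dual_smooth π) {l}
    obtain ⟨K, hKo, hK, hKW⟩ := hB W (hW.mem_nhds W.one_mem)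
    have hlK : l ∈ fix (dual π) K := fun k hk =>
      hlW l (Finset.mem_singleton_self l) k (hKW hk)
    have hfin : FiniteDimensional ℂ (fix π K) := ha K hKo
    set Φ : Submodule ℂ (Module.Dual ℂ (fix π K)) :=
      (U.comap (fix (dual π) K).subtype).map (Dual2_R π K) with hΦ
    have hco : Φ.dualCoannihilator = ⊥ := by
      rw [Submodule.eq_bot_iff]
      intro x hx
      rw [Submodule.mem_dualCoannihilator] at hx
      have hxA : x.1 ∈ A := by
        intro l' hl'
        rw [← Dual2_ev π K hK l' x.1 x.2]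
        refine hx (Dual2_R π K ⟨avg (dual π) K l',
          avg_mem_fix (dual π) (dual_smooth π) K hK l'⟩) ?_
        exact Submodule.mem_map_of_mem
          (Dual2_avg_mem (dual π) (dual_smooth π) K hK U hU l' hl')
      rw [hA] at hxA
      exact Subtype.ext hxA
    have htop : Φ = ⊤ := by
      have h := Subspace.dualCoannihilator_dualAnnihilator_eq (W := Φ)
      rw [← h, hco, Submodule.dualAnnihilator_bot]
    have hmem : Dual2_R π K ⟨l, hlK⟩ ∈ Φ := by rw [htop]; trivial
    obtain ⟨l', hl', he⟩ := Submodule.mem_map.1 hmem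
    have h := Dual2_R_inj π hπ K hK he
    have h' : l'.1 = l := congrArg Subtype.val h
    rw [← h']
    exact hl'

/-- if the contragredient of an admissible `π` is injective... dual version: if `dual π` is
projective then `π` is injective. `hproj`: every equivariant map from `dual π` to a quotient
lifts. -/
theorem inj_of_dual_proj (hB : HasCO G) (π : Representation ℂ G V) (hπ : IsSm π) (ha : Adm π)
    (hproj : ∀ (E₁ E₂ : Type) [AddCommGroup E₁] [Module ℂ E₁] [AddCommGroup E₂] [Module ℂ E₂]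
      (ρ₁ : Representation ℂ G E₁) (ρ₂ : Representation ℂ G E₂) (_ : IsSm ρ₁) (_ : IsSm ρ₂)
      (p : E₁ →ₗ[ℂ] E₂) (_ : Equi ρ₁ ρ₂ p) (_ : Function.Surjective p)
      (f : dualSp π →ₗ[ℂ] E₂) (_ : Equi (dual π) ρ₂ f),
      ∃ F : dualSp π →ₗ[ℂ] E₁, Equi (dual π) ρ₁ F ∧ p ∘ₗ F = f) :
    IsInjSm π := by
  intro E _ _ ρ hρ U hU f hf
  have hi : Equi (subRep ρ U hU) ρ U.subtype := fun _ _ => rfl
  have hsub : IsSm (subRep ρ U hU) := smooth_sub ρ hρ U hU
  obtain ⟨g, hg, hgf⟩ := hproj (dualSp ρ) (dualSp (subRep ρ U hU)) (dual ρ)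
    (dual (subRep ρ U hU)) (dual_smooth ρ) (dual_smooth _)
    (transp (subRep ρ U hU) ρ U.subtype hi) (transp_equi _ _ _ hi)
    (dual_surj hB _ _ hsub hρ U.subtype hi U.injective_subtype)
    (transp (subRep ρ U hU) π f hf) (transp_equi _ _ _ hf)
  obtain ⟨B, hBe, hBv⟩ := homDual (dual π) ρ (dual_smooth π) hρ g hg
  obtain ⟨e, he, hev⟩ := biDual_bij hB π hπ ha
  refine ⟨(e.symm : dualSp (dual π) →ₗ[ℂ] V) ∘ₗ B, ?_, ?_⟩
  · intro x y
    show e.symm (B (ρ x y)) = π x (e.symm (B y))
    rw [hBe, LinearEquiv.symm_apply_eq]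
    have h := he x (e.symm (B y))
    have h2 : (e : V →ₗ[ℂ] dualSp (dual π)) (π x (e.symm (B y))) = e (π x (e.symm (B y))) := rfl
    have h3 : (e : V →ₗ[ℂ] dualSp (dual π)) (e.symm (B y)) = B y := e.apply_symm_apply _
    rw [h2, h3] at h
    exact h.symm
  · intro u
    show e.symm (B u) = f u
    rw [LinearEquiv.symm_apply_eq]
    refine Subtype.ext (LinearMap.ext fun l => ?_)
    rw [hev, hBv]
    have h := congrArg (fun T : dualSp π →ₗ[ℂ] dualSp (subRep ρ U hU) => (T l).1 u) hgf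
    exact h

end

end Pool.Agent.Lib.MP_ca1492_al.P
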