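import Mathlib
import Pool.Agent.Lib.MP_ca1492_al.P.Cong

/-!
# MP_ca1492_al, p-adic side, module IwFac: Iwahori factorization of the congruence subgroups

For `m ≥ 1`: `Kc m ∩ lev cb = (Kc m ∩ uni cb o)(Kc m ∩ lev (cb, o))(Kc m ∩ uni cb (-o))`.

Proof. Let `k ∈ Kc m ∩ lev cb`. Induction on the number of values of `o`. Let `t` be the largest
value of `o` (on `κ`), `S = {i | o i = t}`. The block `d = k_{SS}` is invertible with inverse
`≡ 1 mod lat m` (its determinant is `1 + (element of lat m)`, `m ≥ 1`, so a unit; the adjugate is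
integral, and `d⁻¹ - 1 = d⁻¹ (1 - d)`). Put `n = 1 + k_{S'S} d⁻¹` (blocks `(S', S)`,
`S' = complement`), `n' = 1 + d⁻¹ k_{SS'}` (block `(S, S')`); then `n⁻¹ k n'⁻¹` is block diagonal for
`(S', S)`, with blocks `k_{S'S'} - k_{S'S} d⁻¹ k_{SS'}` and `d`. Entries outside the classes of `cb`
stay zero. Apply the induction hypothesis to the block `S'` (or: to the function `o` restricted,
i.e. prove the statement for elements of `Kc m ∩ lev (cb, min(o, r))` by induction over `r`).
Then `k = n₁ h n₁'` and the unipotent groups are closed under products.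
-/

set_option autoImplicit false

namespace Pool.Agent.Lib.MP_ca1492_al.P

open Topology Matrix ValuativeRel

noncomputable section

variable {F : Type} [Field F] [ValuativeRel F] [TopologicalSpace F]
  [IsNonarchimedeanLocalField F]
variable {κ : Type} [Fintype κ] [DecidableEq κ]

/-- the ring of integers -/
def IwFac_R (F : Type) [Field F] [ValuativeRel F] [TopologicalSpace F]
    [IsNonarchimedeanLocalField F] : Subring F where
  carrier := (lat F 0 : Set F)
  mul_mem' := fun hx hy => by
    have h := lat_mul hx hy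
    rwa [add_zero] at h
  one_mem' := Or.inr (le_of_eq ordF_one.symm)
  add_mem' := fun hx hy => (lat F 0).add_mem hx hy
  zero_mem' := (lat F 0).zero_mem
  neg_mem' := fun hx => (lat F 0).neg_mem hx

/-- the ideal `lat m` of the ring of integers -/
def IwFac_I (F : Type) [Field F] [ValuativeRel F] [TopologicalSpace F]
    [IsNonarchimedeanLocalField F] (m : ℕ) : Ideal (IwFac_R F) where
  carrier := {x | (x : F) ∈ lat F m}
  add_mem' := fun hx hy => (lat F m).add_mem hx hy
  zero_mem' := (lat F m).zero_mem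
  smul_mem' := fun c x hx => by
    have h := lat_mul c.2 hx
    rwa [zero_add] at h

theorem IwFac_one_notMem : (1 : F) ∉ lat F 1 := by
  rintro (h | h)
  · exact one_ne_zero h
  · rw [ordF_one] at h
    omega

theorem IwFac_isUnit (x : IwFac_R F) (hx : (x : F) - 1 ∈ lat F 1) : IsUnit x := by
  have h0 : (x : F) ≠ 0 := by
    intro h
    rw [h, zero_sub] at hx
    have h1 := (lat F 1).neg_mem hx
    rw [neg_neg] at h1
    exact IwFac_one_notMem h1
  have h1 : ordF F (x : F) ≤ 0 := by
    by_contra h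
    have h2 : (x : F) ∈ lat F 1 := Or.inr (by omega)
    have h3 := (lat F 1).sub_mem h2 hx
    rw [sub_sub_cancel] at h3
    exact IwFac_one_notMem h3
  have h2 : (x : F)⁻¹ ∈ IwFac_R F := by
    refine Or.inr ?_
    rw [ordF_inv]
    omega
  exact isUnit_iff_exists_inv.2 ⟨⟨(x : F)⁻¹, h2⟩, Subtype.ext (mul_inv_cancel₀ h0)⟩

omit [Fintype κ] in
theorem IwFac_one_mem (i j : κ) : (1 : Matrix κ κ F) i j ∈ lat F 0 := by
  rw [Matrix.one_apply]
  split_ifs
  · exact Or.inr (le_of_eq ordF_one.symm)
  · exact (lat F 0).zero_mem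

theorem IwFac_unit (m : ℕ) (hm : 1 ≤ m) (g : Matrix κ κ F)
    (hg : ∀ i j, (g - 1) i j ∈ lat F m) : ∃ G ∈ Kc F κ m, (G : Matrix κ κ F) = g := by
  have h0 : ∀ i j, g i j ∈ lat F 0 := by
    intro i j
    have h2 : g i j = (g - 1) i j + (1 : Matrix κ κ F) i j := by
      rw [Matrix.sub_apply]
      ring
    rw [h2]
    exact (lat F 0).add_mem (lat_anti (by omega) (hg i j)) (IwFac_one_mem i j)
  let g' : Matrix κ κ (IwFac_R F) := Matrix.of fun i j => ⟨g i j, h0 i j⟩
  have hmap : (Ideal.Quotient.mk (IwFac_I F m)).mapMatrix g' = 1 := by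
    have h1 : (Ideal.Quotient.mk (IwFac_I F m)).mapMatrix g' =
        (Ideal.Quotient.mk (IwFac_I F m)).mapMatrix 1 := by
      ext i j
      rw [RingHom.mapMatrix_apply, Matrix.map_apply, RingHom.mapMatrix_apply, Matrix.map_apply,
        Ideal.Quotient.eq]
      show ((g' i j - (1 : Matrix κ κ (IwFac_R F)) i j : IwFac_R F) : F) ∈ lat F m
      have h2 : ((g' i j - (1 : Matrix κ κ (IwFac_R F)) i j : IwFac_R F) : F) =
          (g - 1) i j := by
        rw [Matrix.sub_apply]
        by_cases hij : i = j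
        · subst hij
          rw [Matrix.one_apply_eq, Matrix.one_apply_eq]
          rfl
        · rw [Matrix.one_apply_ne hij, Matrix.one_apply_ne hij]
          rfl
      rw [h2]
      exact hg i j
    rw [h1, map_one]
  have hdet : g'.det - 1 ∈ IwFac_I F m := by
    rw [← Ideal.Quotient.eq, RingHom.map_det, hmap, Matrix.det_one, map_one]
  have hu : IsUnit g'.det := by
    refine IwFac_isUnit _ ?_
    have h1 : ((g'.det - 1 : IwFac_R F) : F) ∈ lat F m := hdet
    exact lat_anti (by omega : (1 : ℤ) ≤ (m : ℤ)) h1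
  obtain ⟨U, hU⟩ := (Matrix.isUnit_iff_isUnit_det g').2 hu
  let G : GL κ F := Units.map ((IwFac_R F).subtype.mapMatrix (m := κ)).toMonoidHom U
  have hG : (G : Matrix κ κ F) = g := by
    ext i j
    show ((U : Matrix κ κ (IwFac_R F)) i j : F) = g i j
    rw [hU]
    rfl
  have hGi : ∀ i j, ((G⁻¹ : GL κ F) : Matrix κ κ F) i j ∈ lat F 0 := fun i j =>
    (((U⁻¹ : (Matrix κ κ (IwFac_R F))ˣ) : Matrix κ κ (IwFac_R F)) i j).2
  refine ⟨G, ⟨?_, ?_⟩, hG⟩
  · rw [hG]
    exact hg
  · intro i j
    have h1 : ((G⁻¹ : GL κ F) : Matrix κ κ F) - 1 =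
        - (((G⁻¹ : GL κ F) : Matrix κ κ F) * (g - 1)) := by
      have h2 : ((G⁻¹ : GL κ F) : Matrix κ κ F) * (G : Matrix κ κ F) = 1 := by
        rw [← Units.val_mul]
        simp
      rw [mul_sub, ← hG, h2, mul_one, neg_sub]
    rw [h1, Matrix.neg_apply, Matrix.mul_apply]
    refine (lat F m).neg_mem ((lat F m).sum_mem fun l _ => ?_)
    have h3 := lat_mul (hGi i l) (hg l j)
    rwa [zero_add] at h3

/-- one step of the elimination -/
theorem IwFac_step {ι : Type} (cb : κ → ι) (o : κ → ℤ) (m : ℕ) (hm : 1 ≤ m) (r : ℤ) (k : GL κ F)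
    (hk : k ∈ Kc F κ m) (hk' : k ∈ lev F cb)
    (hr : ∀ i j, o i ≠ o j → (r < o i ∨ r < o j) → (k : Matrix κ κ F) i j = 0) :
    ∃ a ∈ uni F cb o, ∃ b ∈ uni F cb (fun i => - o i), a ∈ Kc F κ m ∧ b ∈ Kc F κ m ∧
      ∀ i j, o i ≠ o j → (r - 1 < o i ∨ r - 1 < o j) →
        ((a * k * b : GL κ F) : Matrix κ κ F) i j = 0 := by
  classical
  -- the middle block
  obtain ⟨G, hG, hGv⟩ := IwFac_unit m hm (Matrix.of fun i j : κ =>
      if o i = r ∧ o j = r then (k : Matrix κ κ F) i j else (1 : Matrix κ κ F) i j) (by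
    intro i j
    rw [Matrix.sub_apply, Matrix.of_apply]
    split_ifs
    · exact hk.1 i j
    · rw [sub_self]
      exact (lat F m).zero_mem)
  have hGa : ∀ i j, (G : Matrix κ κ F) i j =
      if o i = r ∧ o j = r then (k : Matrix κ κ F) i j else (1 : Matrix κ κ F) i j := by
    intro i j
    rw [hGv, Matrix.of_apply]
  have hGl : G ∈ lev F cb := by
    intro i j hij
    rw [hGa]
    split_ifs
    · exact hk' i j hij
    · rw [Matrix.one_apply_ne]
      rintro rfl
      exact hij rfl
  have hGi : (G : Matrix κ κ F) * ((G⁻¹ : GL κ F) : Matrix κ κ F) = 1 := by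
    rw [← Units.val_mul]
    simp
  have hGi' : ((G⁻¹ : GL κ F) : Matrix κ κ F) * (G : Matrix κ κ F) = 1 := by
    rw [← Units.val_mul]
    simp
  -- the products with the inverse of the middle block
  have hX : k * G⁻¹ ∈ Kc F κ m := (Kc F κ m).mul_mem hk ((Kc F κ m).inv_mem hG)
  have hX' : k * G⁻¹ ∈ lev F cb := (lev F cb).mul_mem hk' ((lev F cb).inv_mem hGl)
  have hY : G⁻¹ * k ∈ Kc F κ m := (Kc F κ m).mul_mem ((Kc F κ m).inv_mem hG) hk
  have hY' : G⁻¹ * k ∈ lev F cb := (lev F cb).mul_mem ((lev F cb).inv_mem hGl) hk'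
  have hne : ∀ i j : κ, o i ≠ o j → (1 : Matrix κ κ F) i j = 0 := by
    intro i j hij
    rw [Matrix.one_apply_ne]
    rintro rfl
    exact hij rfl
  have hmem : ∀ (x : GL κ F), x ∈ Kc F κ m → ∀ i j : κ, o i ≠ o j →
      (x : Matrix κ κ F) i j ∈ lat F m := by
    intro x hx i j hij
    have h1 := hx.1 i j
    rwa [Matrix.sub_apply, hne i j hij, sub_zero] at h1
  obtain ⟨a, ha, hav⟩ := IwFac_unit m hm (Matrix.of fun i j : κ =>
      (1 : Matrix κ κ F) i j - if o i < r ∧ o j = r then
        ((k * G⁻¹ : GL κ F) : Matrix κ κ F) i j else 0) (by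
    intro i j
    rw [Matrix.sub_apply, Matrix.of_apply, sub_sub_cancel_left]
    refine (lat F m).neg_mem ?_
    split_ifs with h
    · exact hmem _ hX i j (by omega)
    · exact (lat F m).zero_mem)
  obtain ⟨b, hb, hbv⟩ := IwFac_unit m hm (Matrix.of fun i j : κ =>
      (1 : Matrix κ κ F) i j - if o i = r ∧ o j < r then
        ((G⁻¹ * k : GL κ F) : Matrix κ κ F) i j else 0) (by
    intro i j
    rw [Matrix.sub_apply, Matrix.of_apply, sub_sub_cancel_left]
    refine (lat F m).neg_mem ?_
    split_ifs with h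
    · exact hmem _ hY i j (by omega)
    · exact (lat F m).zero_mem)
  have haa : ∀ i j, (a : Matrix κ κ F) i j = (1 : Matrix κ κ F) i j -
      if o i < r ∧ o j = r then ((k * G⁻¹ : GL κ F) : Matrix κ κ F) i j else 0 := by
    intro i j
    rw [hav, Matrix.of_apply]
  have hba : ∀ i j, (b : Matrix κ κ F) i j = (1 : Matrix κ κ F) i j -
      if o i = r ∧ o j < r then ((G⁻¹ * k : GL κ F) : Matrix κ κ F) i j else 0 := by
    intro i j
    rw [hbv, Matrix.of_apply]
  have hcne : ∀ i j : κ, cb i ≠ cb j → (1 : Matrix κ κ F) i j = 0 := by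
    intro i j hij
    rw [Matrix.one_apply_ne]
    rintro rfl
    exact hij rfl
  refine ⟨a, ⟨⟨?_, ?_⟩, ?_⟩, b, ⟨⟨?_, ?_⟩, ?_⟩, ha, hb, ?_⟩
  · intro i j hij
    rw [haa, hcne i j hij, hX' i j hij]
    simp
  · intro i j hij
    rw [haa, hne i j (by omega), if_neg (by omega), sub_zero]
  · intro i j hij
    rw [haa, if_neg (by omega), sub_zero]
  · intro i j hij
    rw [hba, hcne i j hij, hY' i j hij]
    simp
  · intro i j hij
    have hij' : - o j < - o i := hij
    rw [hba, hne i j (by omega), if_neg (by omega), sub_zero]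
  · intro i j hij
    have hij' : - o i = - o j := hij
    rw [hba, if_neg (by omega), sub_zero]
  -- rows of `a`, columns of `b`
  have hrow : ∀ (x : Matrix κ κ F) (i j : κ), r ≤ o i →
      ((a : Matrix κ κ F) * x) i j = x i j := by
    intro x i j hi
    have h1 : ((a : Matrix κ κ F) * x) i j = ((1 : Matrix κ κ F) * x) i j := by
      rw [Matrix.mul_apply, Matrix.mul_apply]
      refine Finset.sum_congr rfl fun l _ => ?_
      rw [haa, if_neg (by omega), sub_zero]
    rw [h1, one_mul]
  have hcol : ∀ (x : Matrix κ κ F) (i j : κ), r ≤ o j →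
      (x * (b : Matrix κ κ F)) i j = x i j := by
    intro x i j hj
    have h1 : (x * (b : Matrix κ κ F)) i j = (x * (1 : Matrix κ κ F)) i j := by
      rw [Matrix.mul_apply, Matrix.mul_apply]
      refine Finset.sum_congr rfl fun l _ => ?_
      rw [hba, if_neg (by omega), sub_zero]
    rw [h1, mul_one]
  intro i j hij hij'
  rw [Units.val_mul, Units.val_mul]
  by_cases hi : r ≤ o i
  · rw [Matrix.mul_assoc, hrow _ i j hi]
    by_cases hj : r ≤ o j
    · rw [hcol _ i j hj]
      exact hr i j hij (by omega)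
    · -- `o j < r ≤ o i`
      have h1 : ((k : Matrix κ κ F) * (b : Matrix κ κ F)) i j = (k : Matrix κ κ F) i j -
          ∑ l, (if o l = r then (k : Matrix κ κ F) i l else 0) *
            ((G⁻¹ * k : GL κ F) : Matrix κ κ F) l j := by
        rw [Matrix.mul_apply]
        have h2 : ∀ l, (k : Matrix κ κ F) i l * (b : Matrix κ κ F) l j =
            (k : Matrix κ κ F) i l * (1 : Matrix κ κ F) l j -
            (if o l = r then (k : Matrix κ κ F) i l else 0) *
            ((G⁻¹ * k : GL κ F) : Matrix κ κ F) l j := by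
          intro l
          rw [hba]
          by_cases hl : o l = r
          · rw [if_pos ⟨hl, by omega⟩, if_pos hl]
            ring
          · rw [if_neg (fun h => hl h.1), if_neg hl]
            ring
        rw [Finset.sum_congr rfl fun l _ => h2 l, Finset.sum_sub_distrib, ← Matrix.mul_apply,
          mul_one]
      rw [h1]
      rcases eq_or_lt_of_le hi with hi' | hi'
      · -- `o i = r`
        have h3 : ∀ l, (if o l = r then (k : Matrix κ κ F) i l else 0) =
            (G : Matrix κ κ F) i l := by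
          intro l
          rw [hGa]
          by_cases hl : o l = r
          · rw [if_pos hl, if_pos ⟨hi'.symm, hl⟩]
          · rw [if_neg hl, if_neg (fun h => hl h.2), hne i l (by omega)]
        rw [Finset.sum_congr rfl fun l _ => by rw [h3 l], ← Matrix.mul_apply, Units.val_mul,
          ← Matrix.mul_assoc, hGi, one_mul, sub_self]
      · rw [hr i j hij (Or.inl hi'), zero_sub, neg_eq_zero]
        refine Finset.sum_eq_zero fun l _ => ?_
        by_cases hl : o l = r
        · rw [if_pos hl, hr i l (by omega) (Or.inl hi'), zero_mul]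
        · rw [if_neg hl, zero_mul]
  · have hj : r ≤ o j := by omega
    rw [hcol _ i j hj]
    have h1 : ((a : Matrix κ κ F) * (k : Matrix κ κ F)) i j = (k : Matrix κ κ F) i j -
        ∑ l, ((k * G⁻¹ : GL κ F) : Matrix κ κ F) i l *
          (if o l = r then (k : Matrix κ κ F) l j else 0) := by
      rw [Matrix.mul_apply]
      have h2 : ∀ l, (a : Matrix κ κ F) i l * (k : Matrix κ κ F) l j =
          (1 : Matrix κ κ F) i l * (k : Matrix κ κ F) l j -
          ((k * G⁻¹ : GL κ F) : Matrix κ κ F) i l *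
          (if o l = r then (k : Matrix κ κ F) l j else 0) := by
        intro l
        rw [haa]
        by_cases hl : o l = r
        · rw [if_pos ⟨by omega, hl⟩, if_pos hl]
          ring
        · rw [if_neg (fun h => hl h.2), if_neg hl]
          ring
      rw [Finset.sum_congr rfl fun l _ => h2 l, Finset.sum_sub_distrib, ← Matrix.mul_apply,
        one_mul]
    rw [h1]
    rcases eq_or_lt_of_le hj with hj' | hj'
    · have h3 : ∀ l, (if o l = r then (k : Matrix κ κ F) l j else 0) =
          (G : Matrix κ κ F) l j := by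
        intro l
        rw [hGa]
        by_cases hl : o l = r
        · rw [if_pos hl, if_pos ⟨hl, hj'.symm⟩]
        · rw [if_neg hl, if_neg (fun h => hl h.1), hne l j (by omega)]
      rw [Finset.sum_congr rfl fun l _ => by rw [h3 l], ← Matrix.mul_apply, Units.val_mul,
        Matrix.mul_assoc, hGi', mul_one, sub_self]
    · rw [hr i j hij (Or.inr hj'), zero_sub, neg_eq_zero]
      refine Finset.sum_eq_zero fun l _ => ?_
      by_cases hl : o l = r
      · rw [if_pos hl, hr l j (by omega) (Or.inr hj'), mul_zero]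
      · rw [if_neg hl, mul_zero]

theorem iwahori_fac {ι : Type} (cb : κ → ι) (o : κ → ℤ) (m : ℕ) (hm : 1 ≤ m) (k : GL κ F)
    (hk : k ∈ Kc F κ m) (hk' : k ∈ lev F cb) :
    ∃ n ∈ uni F cb o, ∃ h ∈ lev F (fun i => (cb i, o i)), ∃ n' ∈ uni F cb (fun i => - o i),
      n ∈ Kc F κ m ∧ h ∈ Kc F κ m ∧ n' ∈ Kc F κ m ∧ k = n * h * n' := by
  obtain ⟨B, hB⟩ : ∃ B : ℕ, ∀ i, (o i).natAbs ≤ B :=
    ⟨∑ i, (o i).natAbs, fun i => Finset.single_le_sum (f := fun i => (o i).natAbs)
      (fun _ _ => Nat.zero_le _) (Finset.mem_univ i)⟩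
  have key : ∀ s : ℕ, ∃ n ∈ uni F cb o, ∃ h ∈ lev F cb, ∃ n' ∈ uni F cb (fun i => - o i),
      n ∈ Kc F κ m ∧ h ∈ Kc F κ m ∧ n' ∈ Kc F κ m ∧ k = n * h * n' ∧
      ∀ i j, o i ≠ o j → ((B : ℤ) - s < o i ∨ (B : ℤ) - s < o j) →
        (h : Matrix κ κ F) i j = 0 := by
    intro s
    induction s with
    | zero =>
      refine ⟨1, (uni F cb o).one_mem, k, hk', 1, (uni F cb _).one_mem, (Kc F κ m).one_mem, hk,
        (Kc F κ m).one_mem, by simp, ?_⟩
      intro i j _ hij
      have h1 := hB i
      have h2 := hB j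
      exfalso
      push_cast at hij
      omega
    | succ s ih =>
      obtain ⟨n, hn, h, hh, n', hn', hn1, hh1, hn1', hk1, hz⟩ := ih
      obtain ⟨a, ha, b, hb, ha1, hb1, hz'⟩ := IwFac_step cb o m hm ((B : ℤ) - s) h hh1 hh hz
      refine ⟨n * a⁻¹, (uni F cb o).mul_mem hn ((uni F cb o).inv_mem ha), a * h * b,
        (lev F cb).mul_mem ((lev F cb).mul_mem ha.1.1 hh) hb.1.1, b⁻¹ * n',
        (uni F cb _).mul_mem ((uni F cb _).inv_mem hb) hn',
        (Kc F κ m).mul_mem hn1 ((Kc F κ m).inv_mem ha1),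
        (Kc F κ m).mul_mem ((Kc F κ m).mul_mem ha1 hh1) hb1,
        (Kc F κ m).mul_mem ((Kc F κ m).inv_mem hb1) hn1', ?_, ?_⟩
      · rw [hk1]
        group
      · intro i j hij hij'
        refine hz' i j hij ?_
        push_cast at hij'
        omega
  obtain ⟨n, hn, h, hh, n', hn', hn1, hh1, hn1', hk1, hz⟩ := key (2 * B + 1)
  refine ⟨n, hn, h, ?_, n', hn', hn1, hh1, hn1', hk1⟩
  intro i j hij
  by_cases hc : cb i = cb j
  · have ho : o i ≠ o j := fun h' => hij (Prod.ext hc h')
    refine hz i j ho (Or.inl ?_)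
    have h1 := hB i
    push_cast
    omega
  · exact hh i j hc

end

end Pool.Agent.Lib.MP_ca1492_al.P
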