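import Mathlib
import Pool.Agent.Lib.MP_ca1492_al.P.CuspAdm
import Pool.Agent.Lib.MP_ca1492_al.P.Dual2
import Pool.Agent.Lib.MP_ca1492_al.P.IwFac

/-!
# MP_ca1492_al, p-adic side, module CuspDual: the contragredient of a cuspidal representation

Let `π` be irreducible smooth cuspidal, `l ∈ V^∨`, `o` nonconstant on some class of `c`; we show
`l ∈ kerJ`. Let `m ≥ 1` be such that `l` is fixed by `Kl m`. Let `a = dia (-k o)` with `k : ℕ` large
(`k > L` of `cusp_compact_unif`). 
(1) `avg (Kl m) (π^∨(a) l) = 0`: this form is `Kl m`-invariant, so it is enough to evaluate it on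
    `u ∈ fix π (Kl m)` (`form (v) = form (avg v)`); for such `u` its value is
    `(π^∨(a) l)(u) = l (π a⁻¹ u) = l (avg (Kl m) (π a⁻¹ u)) = 0` by `cusp_compact_unif` for
    `a⁻¹ = dia (k o)`.
(2) `u' = π^∨(a) l` is fixed by `Kc m ∩ lev (c,o)` (which commutes with `a`) and by
    `Kc m ∩ uni c (-o)`: `a⁻¹ n a` has the entries `ϖ^(k (o i) - k (o j)) n i j`, nonzero only for
    `o j ≤ o i`, so it is in `Kc m`. So by `iwahori_fac` the orbit of `u'` under `Kl m` is its
    orbit under `N_m = Kc m ∩ uni c o`, hence `0 = avg (Kl m) u' = avg N_m u' = π^∨(a) (avg (a⁻¹ N_m a) l)`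
    (`avg_conj`), and `avg (a⁻¹ N_m a) l = 0`, `a⁻¹ N_m a ≤ uni c o` compact. `mem_kerJ_iff`.
-/

set_option autoImplicit false

namespace Pool.Agent.Lib.MP_ca1492_al.P

open Topology Matrix ValuativeRel

noncomputable section

variable {F : Type} [Field F] [ValuativeRel F] [TopologicalSpace F]
  [IsNonarchimedeanLocalField F]
variable {κ : Type} [Fintype κ] [DecidableEq κ]
variable {V : Type} [AddCommGroup V] [Module ℂ V]

/-- conjugation by `dia (k o)`, `k ≥ 0`, maps the part of `Kc m` which is lower triangular for `o`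
into `Kc m` -/
theorem CuspDual_conj {ι : Type} (c : κ → ι) (o : κ → ℤ) (k m : ℕ) (x : GL κ F)
    (hx : x ∈ Kc F κ m) (hx' : x ∈ upp F c (fun i => - o i)) :
    dia F (fun i => (k : ℤ) * o i) * x * (dia F (fun i => (k : ℤ) * o i))⁻¹ ∈ Kc F κ m := by
  have hpow : ∀ e : ℤ, ordF F (unifF F ^ e) = e := by
    have hnat : ∀ n : ℕ, ordF F (unifF F ^ n) = n := by
      intro n
      induction n with
      | zero => simpa using ordF_one (F := F)
      | succ n ih =>
        rw [pow_succ, ordF_mul _ _ (pow_ne_zero _ unifF_ne_zero) unifF_ne_zero, ih, ord_unifF]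
        push_cast
        ring
    intro e
    obtain ⟨n, rfl | rfl⟩ := e.eq_nat_or_neg
    · rw [zpow_natCast, hnat]
    · rw [_root_.zpow_neg, zpow_natCast, ordF_inv, hnat]
  have key : ∀ y : GL κ F, (∀ i j, ((y : Matrix κ κ F) - 1) i j ∈ lat F m) →
      y ∈ upp F c (fun i => - o i) → ∀ i j,
      (((dia F (fun i => (k : ℤ) * o i) * y * (dia F (fun i => (k : ℤ) * o i))⁻¹ : GL κ F) :
        Matrix κ κ F) - 1) i j ∈ lat F m := by
    intro y hy hy' i j
    rw [dia_inv]
    have h1 : ((dia F (fun i => (k : ℤ) * o i) * y * dia F (fun i => -((k : ℤ) * o i)) :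
        GL κ F) : Matrix κ κ F) i j =
        unifF F ^ ((k : ℤ) * o i) * (y : Matrix κ κ F) i j * unifF F ^ (-((k : ℤ) * o j)) := by
      rw [Units.val_mul, Units.val_mul]
      show (Matrix.diagonal (fun i => unifF F ^ ((k : ℤ) * o i)) * (y : Matrix κ κ F) *
        Matrix.diagonal (fun i => unifF F ^ (-((k : ℤ) * o i)))) i j = _
      rw [Matrix.mul_diagonal, Matrix.diagonal_mul]
    rw [Matrix.sub_apply, h1]
    by_cases hij : i = j
    · subst hij
      have h2 : unifF F ^ ((k : ℤ) * o i) * (y : Matrix κ κ F) i i *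
          unifF F ^ (-((k : ℤ) * o i)) = (y : Matrix κ κ F) i i := by
        rw [mul_comm (unifF F ^ ((k : ℤ) * o i)), mul_assoc, ← zpow_add₀ unifF_ne_zero,
          add_neg_cancel, zpow_zero, mul_one]
      rw [h2]
      exact hy i i
    · rw [Matrix.one_apply_ne hij, sub_zero]
      have h3 := hy i j
      rw [Matrix.sub_apply, Matrix.one_apply_ne hij, sub_zero] at h3
      rcases lt_or_ge (o i) (o j) with h4 | h4
      · rw [hy'.2 i j (by simpa using h4), mul_zero, zero_mul]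
        exact (lat F _).zero_mem
      · have h5 : unifF F ^ ((k : ℤ) * o i) * (y : Matrix κ κ F) i j *
            unifF F ^ (-((k : ℤ) * o j)) =
            unifF F ^ ((k : ℤ) * (o i - o j)) * (y : Matrix κ κ F) i j := by
          rw [mul_right_comm, ← zpow_add₀ unifF_ne_zero]
          congr 2
          ring
        rw [h5]
        have h6 : unifF F ^ ((k : ℤ) * (o i - o j)) ∈ lat F ((k : ℤ) * (o i - o j)) :=
          Or.inr (le_of_eq (hpow _).symm)
        refine lat_anti ?_ (lat_mul h6 h3)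
        have h7 : 0 ≤ (k : ℤ) * (o i - o j) := mul_nonneg (by positivity) (by linarith)
        linarith
  refine ⟨key x hx.1 hx', fun i j => ?_⟩
  have h8 : (dia F (fun i => (k : ℤ) * o i) * x * (dia F (fun i => (k : ℤ) * o i))⁻¹)⁻¹ =
      dia F (fun i => (k : ℤ) * o i) * x⁻¹ * (dia F (fun i => (k : ℤ) * o i))⁻¹ := by
    group
  rw [h8]
  exact key x⁻¹ hx.2 ((upp F c _).inv_mem hx') i j

theorem cusp_dual {ι : Type} (c : κ → ι) (π : Representation ℂ (lev F c) V) (hπ : IsSm π)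
    (hi : Irr π) (hc : Cusp c π) : Cusp c (dual π) := by
  intro o ho
  rw [Submodule.eq_top_iff']
  intro l
  -- `l` is fixed by `Kl m`, `m ≥ 1`
  obtain ⟨m, hm1, hlm⟩ : ∃ m : ℕ, 1 ≤ m ∧ l ∈ fix (dual π) (Kl F c m) := by
    obtain ⟨m, hm⟩ := Kl_basis c {g | dual π g l = l} ((dual_smooth π l).mem_nhds (by simp))
    refine ⟨m + 1, by omega, fun g hg => hm ?_⟩
    exact Kc_anti (Nat.le_succ m) hg
  obtain ⟨L, hL⟩ := cusp_compact_unif c π hπ hi hc m
  set b : lev F c := dial F c (fun i => ((L + 1 : ℕ) : ℤ) * o i) with hb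
  have hex : ∃ i j, c i = c j ∧
      (L : ℤ) < ((L + 1 : ℕ) : ℤ) * o i - ((L + 1 : ℕ) : ℤ) * o j := by
    obtain ⟨i, j, hij, hne⟩ := ho
    rcases lt_or_gt_of_ne hne with h | h
    · refine ⟨j, i, hij.symm, ?_⟩
      push_cast
      nlinarith
    · refine ⟨i, j, hij, ?_⟩
      push_cast
      nlinarith
  have hKc : IsCompact (Kl F c m : Set (lev F c)) := Kl_isCompact c m
  -- (1)
  have h1 : avg (dual π) (Kl F c m) (dual π b⁻¹ l) = 0 := by
    set w := avg (dual π) (Kl F c m) (dual π b⁻¹ l) with hw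
    have hwf : w ∈ fix (dual π) (Kl F c m) := avg_mem_fix (dual π) (dual_smooth π) _ hKc _
    refine Subtype.ext (LinearMap.ext fun v => ?_)
    rw [← Dual2_form π hπ (Kl F c m) hKc w.1 (Dual2_fix π _ w hwf) v]
    have h2 : w.1 (avg π (Kl F c m) v) = (dual π b⁻¹ l).1 (avg π (Kl F c m) v) :=
      Dual2_ev π (Kl F c m) hKc _ _ (avg_mem_fix π hπ _ hKc v)
    rw [h2]
    show l.1 (π (b⁻¹)⁻¹ (avg π (Kl F c m) v)) = 0
    rw [inv_inv, ← Dual2_form π hπ (Kl F c m) hKc l.1 (Dual2_fix π _ l hlm)]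
    have h3 := hL (avg π (Kl F c m) v) (avg_mem_fix π hπ _ hKc v) 1 (Subgroup.one_mem _) 1
      (Subgroup.one_mem _) (fun i => ((L + 1 : ℕ) : ℤ) * o i) hex
    rw [one_mul, mul_one] at h3
    rw [hb, h3, map_zero]
  -- elements of `Kc m` which are lower triangular for `o` fix `dual π b⁻¹ l`
  have h4 : ∀ g : lev F c, (g : GL κ F) ∈ Kc F κ m → (g : GL κ F) ∈ upp F c (fun i => - o i) →
      dual π g (dual π b⁻¹ l) = dual π b⁻¹ l := by
    intro g hg hg'
    have hbv : (b : GL κ F) = dia F (fun i => ((L + 1 : ℕ) : ℤ) * o i) := rfl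
    have h5 : b * g * b⁻¹ ∈ Kl F c m := by
      have h5' := CuspDual_conj c o (L + 1) m (g : GL κ F) hg hg'
      rw [← hbv] at h5'
      exact h5'
    have h6 : g * b⁻¹ = b⁻¹ * (b * g * b⁻¹) := by group
    rw [← Module.End.mul_apply, ← map_mul, h6, map_mul, Module.End.mul_apply, hlm _ h5]
  -- (2)
  set Nm : Subgroup (lev F c) := (Kc F κ m ⊓ uni F c o).subgroupOf (lev F c) with hNm
  have h7 : avg (dual π) Nm (dual π b⁻¹ l) = 0 := by
    rw [← h1]
    refine Avg_congr (dual π) _ _ _ _ ?_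
    ext w
    constructor
    · rintro ⟨g, hg, rfl⟩
      exact ⟨g, hg.1, rfl⟩
    · rintro ⟨g, hg, rfl⟩
      obtain ⟨n, hn, h, hh, n', hn', hnm, hhm, hnm', hprod⟩ :=
        iwahori_fac c o m hm1 (g : GL κ F) hg g.2
      have hhl : h ∈ upp F c (fun i => - o i) := by
        refine parD_lev_le_upp (fun i => (c i, o i)) c (fun i => - o i) ?_ hh
        intro i j
        simp
      have hnl : n ∈ lev F c := hn.1.1
      have hhl' : h ∈ lev F c := hhl.1
      have hnl' : n' ∈ lev F c := hn'.1.1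
      refine ⟨⟨n, hnl⟩, ⟨hnm, hn⟩, ?_⟩
      have hg' : g = ⟨n, hnl⟩ * ⟨h, hhl'⟩ * ⟨n', hnl'⟩ := Subtype.ext hprod
      rw [hg', map_mul, map_mul, Module.End.mul_apply, Module.End.mul_apply,
        h4 ⟨n', hnl'⟩ hnm' hn'.1, h4 ⟨h, hhl'⟩ hhm hhl]
  -- (3)
  have hcomp : IsCompact ((Kc F κ m ⊓ uni F c o : Subgroup (GL κ F)) : Set (GL κ F)) :=
    (Kc_isCompact m).inter_right (uni_isClosed c o)
  have hNmc : IsCompact (Nm : Set (lev F c)) :=
    PD.compact_subgroupOf _ (inf_le_right.trans (uni_le c o)) hcomp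
  have h8 := avg_conj (dual π) (dual_smooth π) Nm hNmc b (dual π b⁻¹ l)
  rw [h7, map_zero, ← Module.End.mul_apply, ← map_mul, mul_inv_cancel, map_one,
    Module.End.one_apply] at h8
  refine ((stdD F c o).mem_kerJ_iff (dual π) (dual_smooth π) l).2
    ⟨(Kc F κ m ⊓ uni F c o).map (MulAut.conj (b : GL κ F)).toMonoidHom, ?_, ?_, ?_⟩
  · rintro x ⟨y, hy, rfl⟩
    exact uni_norm (fun i => (c i, o i)) c o (by intro i j; simp) (b : GL κ F) y
      (dia_mem_lev _ _) hy.2
  · have h9 : (((Kc F κ m ⊓ uni F c o).map (MulAut.conj (b : GL κ F)).toMonoidHom :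
        Subgroup (GL κ F)) : Set (GL κ F)) = (fun x => (b : GL κ F) * x * (b : GL κ F)⁻¹) ''
          ((Kc F κ m ⊓ uni F c o : Subgroup (GL κ F)) : Set (GL κ F)) := by
      ext x
      simp [MulAut.conj_apply]
    rw [h9]
    exact hcomp.image (by fun_prop)
  · rw [h8]
    congr 1
    ext x
    constructor
    · rintro ⟨y, hy, hyx⟩
      refine ⟨⟨y, uni_le c o hy.2⟩, hy, ?_⟩
      exact Subtype.ext hyx
    · rintro ⟨y, hy, rfl⟩
      exact ⟨(y : GL κ F), hy, rfl⟩

end

end Pool.Agent.Lib.MP_ca1492_al.P
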