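import Mathlib
import Pool.Agent.Lib.MP_ca1492_al.P.Dual2

/-!
# MP_ca1492_al, p-adic side, module ProjAbs: unitary compact representations are projective

`CptCoef`: for all `v` and compact open `K` the function `g ↦ avg K (π g v)` has compact support.
`PosForm`: invariant positive definite hermitian form (linear in the first variable).
`HasLift`: projective object.

Proof of `proj_of_compact`. Let `w_1, ..., w_r` generate, `K` compact open fixing all the `w_i`. For
`v ∈ V` the function `g ↦ B v (π g w_i) = B (π g⁻¹ v) w_i` is right `K`-invariant, and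
`B x w_i = B (avg K x) w_i` (invariance of `B`, `avg_sum`), so it vanishes for `g⁻¹ ∉ C`, `C` compact;
a compact set meets only finitely many cosets `g K`. Put
`T_i v = Σ_{gK ∈ G/K} B v (π g w_i) • π g w_i` (a finite sum; the summand depends only on `g K`; use
`finsum` over `G ⧸ K` with `Quotient.out`, or a sum over a finite set of representatives),
`S = Σ_i T_i`. `S` is linear and commutes with the group (substitution `g ↦ h g`). We have
`B (S v) v = Σ_i Σ_g |B v (π g w_i)|² > 0` for `v ≠ 0` (otherwise `v` is orthogonal to the stable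
subspace generated by the `w_i`, i.e. to `V`, and `B v v = 0`). So `S` is injective; it maps the
finite dimensional space `fix π K'` into itself for every open `K'` (admissible), so it is bijective
on it, and `V = ⋃ fix π K'`: `S` is bijective, `S⁻¹` is equivariant.
Given `p : E₁ → E₂` surjective and `f : V → E₂`: `f (S⁻¹ w_i)` is fixed by `K`, by `fix_surj` choose
`x_i ∈ fix ρ₁ K` with `p x_i = f (S⁻¹ w_i)`. Put `F v = Σ_i Σ_{gK} B v (π g w_i) • ρ₁ g x_i`.
It is linear, equivariant, and `p (F v) = f (S⁻¹ (S v)) = f v`.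
-/

set_option autoImplicit false

namespace Pool.Agent.Lib.MP_ca1492_al.P

open Topology

noncomputable section

variable {G : Type} [Group G] [TopologicalSpace G] [IsTopologicalGroup G]
variable {V W : Type} [AddCommGroup V] [Module ℂ V] [AddCommGroup W] [Module ℂ W]

/-- compact coefficients -/
def CptCoef (π : Representation ℂ G V) : Prop :=
  ∀ (v : V) (K : Subgroup G), IsOpen (K : Set G) → IsCompact (K : Set G) →
    ∃ C : Set G, IsCompact C ∧ ∀ g : G, g ∉ C → avg π K (π g v) = 0

/-- invariant positive definite hermitian form -/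
def PosForm (π : Representation ℂ G V) (B : V → V → ℂ) : Prop :=
  (∀ u v w, B (u + v) w = B u w + B v w) ∧ (∀ (c : ℂ) u w, B (c • u) w = c * B u w) ∧
  (∀ u v, B v u = (starRingEnd ℂ) (B u v)) ∧ (∀ g u v, B (π g u) (π g v) = B u v) ∧
  ∀ v, v ≠ 0 → 0 < (B v v).re

/-- projective in the category of smooth representations -/
def HasLift (π : Representation ℂ G V) : Prop :=
  ∀ (E₁ E₂ : Type) [AddCommGroup E₁] [Module ℂ E₁] [AddCommGroup E₂] [Module ℂ E₂]
    (ρ₁ : Representation ℂ G E₁) (ρ₂ : Representation ℂ G E₂) (_ : IsSm ρ₁) (_ : IsSm ρ₂)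
    (p : E₁ →ₗ[ℂ] E₂) (_ : Equi ρ₁ ρ₂ p) (_ : Function.Surjective p)
    (f : V →ₗ[ℂ] E₂) (_ : Equi π ρ₂ f),
    ∃ F : V →ₗ[ℂ] E₁, Equi π ρ₁ F ∧ p ∘ₗ F = f

/-- the sum `v ↦ Σ_q c v q • y q` with finitely supported coefficients -/
def ProjAbs_T {Q : Type} {E : Type} [AddCommGroup E] [Module ℂ E] (c : V → Q → ℂ)
    (hadd : ∀ u v q, c (u + v) q = c u q + c v q) (hsmul : ∀ (a : ℂ) v q, c (a • v) q = a * c v q)
    (hfin : ∀ v, (Function.support (c v)).Finite) (y : Q → E) : V →ₗ[ℂ] E where
  toFun v := ∑ᶠ q, c v q • y q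
  map_add' u v := by
    rw [← finsum_add_distrib]
    · apply finsum_congr
      intro q
      rw [hadd, add_smul]
    · exact (hfin u).subset (Function.support_smul_subset_left _ _)
    · exact (hfin v).subset (Function.support_smul_subset_left _ _)
  map_smul' a v := by
    rw [RingHom.id_apply, smul_finsum']
    · apply finsum_congr
      intro q
      rw [hsmul, mul_smul]
    · exact (hfin v).subset (Function.support_smul_subset_left _ _)

theorem ProjAbs_map {Q : Type} {E E' : Type} [AddCommGroup E] [Module ℂ E] [AddCommGroup E']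
    [Module ℂ E'] (c : V → Q → ℂ)
    (hadd : ∀ u v q, c (u + v) q = c u q + c v q) (hsmul : ∀ (a : ℂ) v q, c (a • v) q = a * c v q)
    (hfin : ∀ v, (Function.support (c v)).Finite) (y : Q → E) (p : E →ₗ[ℂ] E') (v : V) :
    p (ProjAbs_T c hadd hsmul hfin y v) = ProjAbs_T c hadd hsmul hfin (fun q => p (y q)) v := by
  show p (∑ᶠ q, c v q • y q) = ∑ᶠ q, c v q • p (y q)
  have h := p.toAddMonoidHom.map_finsum (f := fun q => c v q • y q)
    ((hfin v).subset (Function.support_smul_subset_left _ _))
  refine h.trans (finsum_congr fun q => ?_)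
  exact map_smul p _ _

/-- the form as a linear map in the first variable -/
def ProjAbs_lin (B : V → V → ℂ) (h1 : ∀ u v w, B (u + v) w = B u w + B v w)
    (h2 : ∀ (c : ℂ) u w, B (c • u) w = c * B u w) (w : V) : V →ₗ[ℂ] ℂ where
  toFun v := B v w
  map_add' u v := h1 u v w
  map_smul' c v := h2 c v w

theorem ProjAbs_move (π : Representation ℂ G V) (B : V → V → ℂ) (hpos : PosForm π B)
    (g : G) (v w : V) : B (π g v) w = B v (π g⁻¹ w) := by
  rw [← hpos.2.2.2.1 g⁻¹ (π g v) w]
  congr 1
  rw [← Module.End.mul_apply, ← map_mul, inv_mul_cancel, map_one, Module.End.one_apply]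

/-- finite support of the coefficients -/
theorem ProjAbs_fin (π : Representation ℂ G V) (hπ : IsSm π) (hC : CptCoef π) (B : V → V → ℂ)
    (hpos : PosForm π B) (K : Subgroup G) (hKo : IsOpen (K : Set G)) (hK : IsCompact (K : Set G))
    (w : V) (hw : w ∈ fix π K) (v : V) :
    {q : G ⧸ K | B v (π q.out w) ≠ 0}.Finite := by
  obtain ⟨C, hCc, hC0⟩ := hC v K hKo hK
  have : DiscreteTopology (G ⧸ K) := QuotientGroup.discreteTopology hKo
  have h1 : IsCompact ((fun g : G => (g : G ⧸ K)) '' (C⁻¹)) :=
    hCc.inv.image QuotientGroup.continuous_mk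
  refine (h1.finite_of_discrete).subset ?_
  intro q hq
  refine ⟨q.out, ?_, QuotientGroup.out_eq' q⟩
  rw [Set.mem_inv]
  by_contra hcon
  apply hq
  have h2 := hC0 _ hcon
  have h3 : B v (π q.out w) = B (π (q.out)⁻¹ v) w := by
    rw [ProjAbs_move π B hpos, inv_inv]
  rw [h3]
  have h4 := Dual2_form π hπ K hK (ProjAbs_lin B hpos.1 hpos.2.1 w) (by
    intro k hk x
    show B (π k x) w = B x w
    rw [ProjAbs_move π B hpos, hw k⁻¹ (K.inv_mem hk)]) (π (q.out)⁻¹ v)
  rw [h2, map_zero] at h4
  exact h4.symm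

/-- equivariance of the sums -/
theorem ProjAbs_equi {E : Type} [AddCommGroup E] [Module ℂ E] (π : Representation ℂ G V)
    (ρ : Representation ℂ G E) (B : V → V → ℂ) (hpos : PosForm π B) (K : Subgroup G)
    (s : Finset V) (hs : ∀ w ∈ s, w ∈ fix π K) (x : s → E) (hx : ∀ w, x w ∈ fix ρ K)
    (c : V → (s × (G ⧸ K)) → ℂ) (hc : ∀ v q, c v q = B v (π q.2.out q.1.1))
    (hadd : ∀ u v q, c (u + v) q = c u q + c v q) (hsmul : ∀ (a : ℂ) v q, c (a • v) q = a * c v q)
    (hfin : ∀ v, (Function.support (c v)).Finite) :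
    Equi π ρ (ProjAbs_T c hadd hsmul hfin (fun q => ρ q.2.out (x q.1))) := by
  intro h v
  rw [ProjAbs_map]
  show ∑ᶠ q : s × (G ⧸ K), c (π h v) q • ρ q.2.out (x q.1) =
    ∑ᶠ q : s × (G ⧸ K), c v q • ρ h (ρ q.2.out (x q.1))
  let e : (s × (G ⧸ K)) ≃ (s × (G ⧸ K)) :=
    Equiv.prodCongr (Equiv.refl _) (MulAction.toPerm h)
  rw [← finsum_comp_equiv e]
  apply finsum_congr
  rintro ⟨w, q⟩
  show c (π h v) (w, h • q) • ρ (h • q).out (x w) = c v (w, q) • ρ h (ρ q.out (x w))
  obtain ⟨k, hk⟩ : ∃ k : K, (h • q).out = h * q.out * k := by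
    have h1 : ((h * q.out : G) : G ⧸ K) = ((h • q).out : G) := by
      rw [QuotientGroup.out_eq']
      conv_rhs => rw [← QuotientGroup.out_eq' q]
      rfl
    rw [QuotientGroup.eq] at h1
    exact ⟨⟨_, h1⟩, (mul_inv_cancel_left (h * q.out) (h • q).out).symm⟩
  have e1 : ρ (h • q).out (x w) = ρ h (ρ q.out (x w)) := by
    rw [hk, map_mul, map_mul, Module.End.mul_apply, Module.End.mul_apply, hx w k.1 k.2]
  have e2 : π (h • q).out w.1 = π h (π q.out w.1) := by
    rw [hk, map_mul, map_mul, Module.End.mul_apply, Module.End.mul_apply, hs w.1 w.2 k.1 k.2]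
  rw [e1, hc, hc]
  congr 1
  show B (π h v) (π (h • q).out w.1) = B v (π q.out w.1)
  rw [e2, hpos.2.2.2.1]

theorem proj_of_compact (hB : HasCO G) (π : Representation ℂ G V) (hπ : IsSm π) (ha : Adm π)
    (hfg : Fg π) (hC : CptCoef π) (B : V → V → ℂ) (hpos : PosForm π B) : HasLift π := by
  classical
  obtain ⟨s, hs⟩ := hfg
  -- a compact open subgroup fixing the generators
  obtain ⟨K, hKo, hK, hKs⟩ : ∃ K : Subgroup G, IsOpen (K : Set G) ∧ IsCompact (K : Set G) ∧
      ∀ w ∈ s, w ∈ fix π K := by
    have h1 : (⋂ w ∈ s, {g : G | π g w = w}) ∈ nhds (1 : G) := by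
      rw [Filter.biInter_finset_mem]
      intro w _
      exact (hπ w).mem_nhds (by simp)
    obtain ⟨K, hKo, hK, hKs⟩ := hB _ h1
    refine ⟨K, hKo, hK, fun w hw k hk => ?_⟩
    have h2 := hKs hk
    rw [Set.mem_iInter₂] at h2
    exact h2 w hw
  let c : V → (s × (G ⧸ K)) → ℂ := fun v q => B v (π q.2.out q.1.1)
  have hadd : ∀ u v q, c (u + v) q = c u q + c v q := fun u v q => hpos.1 u v _
  have hsmul : ∀ (a : ℂ) v q, c (a • v) q = a * c v q := fun a v q => hpos.2.1 a v _
  have hfin : ∀ v, (Function.support (c v)).Finite := by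
    intro v
    have h1 : (⋃ w : s, (fun q : G ⧸ K => (w, q)) ''
        {q : G ⧸ K | B v (π q.out w.1) ≠ 0}).Finite :=
      Set.finite_iUnion fun w =>
        (ProjAbs_fin π hπ hC B hpos K hKo hK w.1 (hKs w.1 w.2) v).image _
    refine h1.subset ?_
    rintro ⟨w, q⟩ hq
    rw [Set.mem_iUnion]
    exact ⟨w, q, hq, rfl⟩
  let S : V →ₗ[ℂ] V := ProjAbs_T c hadd hsmul hfin (fun q => π q.2.out q.1.1)
  have hSe : Equi π π S := ProjAbs_equi π π B hpos K s hKs (fun w => w.1)
    (fun w => hKs w.1 w.2) c (fun _ _ => rfl) hadd hsmul hfin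
  -- injectivity
  have hinj : Function.Injective S := by
    rw [← LinearMap.ker_eq_bot, LinearMap.ker_eq_bot']
    intro v hv
    by_contra hv0
    -- all coefficients vanish
    have hsum : ∑ᶠ q, c v q • (starRingEnd ℂ (c v q)) = 0 := by
      have h1 := ProjAbs_map c hadd hsmul hfin (fun q => π q.2.out q.1.1)
        (ProjAbs_lin B hpos.1 hpos.2.1 v) v
      have h2 : (ProjAbs_lin B hpos.1 hpos.2.1 v) (S v) = 0 := by
        rw [hv, map_zero]
      have h3 : ProjAbs_T c hadd hsmul hfin
          (fun q => (ProjAbs_lin B hpos.1 hpos.2.1 v) (π q.2.out q.1.1)) v = 0 := by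
        rw [← h1]
        exact h2
      rw [← h3]
      show _ = ∑ᶠ q, c v q • B (π q.2.out q.1.1) v
      apply finsum_congr
      intro q
      rw [hpos.2.2.1 v (π q.2.out q.1.1)]
    have hzero : ∀ q, c v q = 0 := by
      have h1 : (∑ᶠ q, c v q • (starRingEnd ℂ (c v q))) =
          ((∑ᶠ q, Complex.normSq (c v q) : ℝ) : ℂ) := by
        have h2 := Complex.ofRealHom.toAddMonoidHom.map_finsum
          (f := fun q => Complex.normSq (c v q)) ((hfin v).subset (by
            intro q hq hq'
            apply hq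
            show Complex.normSq (c v q) = 0
            rw [hq', map_zero]))
        refine Eq.trans ?_ h2.symm
        apply finsum_congr
        intro q
        show c v q • (starRingEnd ℂ (c v q)) = ((Complex.normSq (c v q) : ℝ) : ℂ)
        rw [smul_eq_mul, Complex.mul_conj]
      rw [hsum] at h1
      have h3 : (∑ᶠ q, Complex.normSq (c v q) : ℝ) = 0 := by exact_mod_cast h1.symm
      intro q
      have hf : (Function.support (fun q => Complex.normSq (c v q))).Finite :=
        (hfin v).subset (by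
            intro q hq hq'
            apply hq
            show Complex.normSq (c v q) = 0
            rw [hq', map_zero])
      rw [finsum_eq_sum _ hf] at h3
      rw [Finset.sum_eq_zero_iff_of_nonneg (fun _ _ => Complex.normSq_nonneg _)] at h3
      by_contra hne
      have h4 : q ∈ hf.toFinset := by
        rw [Set.Finite.mem_toFinset, Function.mem_support]
        intro h5
        exact hne (Complex.normSq_eq_zero.1 h5)
      exact hne (Complex.normSq_eq_zero.1 (h3 q h4))
    have hconj : ∀ u, B v u = starRingEnd ℂ (B u v) := fun u => hpos.2.2.1 u v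
    let U : Submodule ℂ V :=
      { carrier := {u | ∀ g : G, B v (π g u) = 0}
        add_mem' := by
          intro a b ha' hb' g
          rw [map_add, hconj, hpos.1, map_add, ← hconj, ← hconj, ha' g, hb' g, add_zero]
        zero_mem' := by
          intro g
          rw [map_zero, hconj]
          have : B 0 v = 0 := by
            have := hpos.2.1 0 0 v
            rw [zero_smul, zero_mul] at this
            exact this
          rw [this, map_zero]
        smul_mem' := by
          intro a b hb' g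
          rw [map_smul, hconj, hpos.2.1, map_mul, ← hconj, hb' g, mul_zero] }
    have hU : U = ⊤ := by
      apply hs
      · intro g u hu h
        show B v (π h (π g u)) = 0
        rw [← Module.End.mul_apply, ← map_mul]
        exact hu (h * g)
      · intro w hw g
        have h1 := hzero (⟨w, hw⟩, (g : G ⧸ K))
        have h2 : ((g : G) : G ⧸ K) = (((g : G ⧸ K).out : G) : G ⧸ K) :=
          (QuotientGroup.out_eq' _).symm
        rw [QuotientGroup.eq] at h2
        have h3 : π (g : G ⧸ K).out w = π g w := by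
          have h4 := hKs w hw _ h2
          rw [map_mul, Module.End.mul_apply] at h4
          have h5 := congrArg (π g) h4
          rw [← Module.End.mul_apply, ← map_mul, mul_inv_cancel, map_one,
            Module.End.one_apply] at h5
          exact h5
        have h6 : B v (π (g : G ⧸ K).out w) = 0 := h1
        rw [h3] at h6
        exact h6
    have hvU : v ∈ U := by
      rw [hU]
      exact Submodule.mem_top
    have h7 : B v v = 0 := by
      have h8 := hvU 1
      rw [map_one, Module.End.one_apply] at h8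
      exact h8
    have h9 := hpos.2.2.2.2 v hv0
    rw [h7] at h9
    simp at h9
  have hsurj : Function.Surjective S := by
    intro v
    have : FiniteDimensional ℂ (fix π (stabV π v)) := ha (stabV π v) (hπ v)
    let S' : fix π (stabV π v) →ₗ[ℂ] fix π (stabV π v) :=
      S.restrict (fun u hu k hk => by rw [← hSe k u, hu k hk])
    have h1 : Function.Injective S' := by
      intro a b hab
      apply Subtype.ext
      apply hinj
      exact congrArg Subtype.val hab
    obtain ⟨u, hu⟩ := (LinearMap.injective_iff_surjective.1 h1) ⟨v, fun k hk => hk⟩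
    exact ⟨u.1, congrArg Subtype.val hu⟩
  let e : V ≃ₗ[ℂ] V := LinearEquiv.ofBijective S ⟨hinj, hsurj⟩
  have heS : ∀ v, e v = S v := fun v => rfl
  have hsym : ∀ g v, e.symm (π g v) = π g (e.symm v) := by
    intro g v
    apply e.injective
    rw [LinearEquiv.apply_symm_apply, heS, hSe g, ← heS, LinearEquiv.apply_symm_apply]
  intro E₁ E₂ _ _ _ _ ρ₁ ρ₂ h₁ h₂ p hp hps f hf
  have hx : ∀ w : s, ∃ x ∈ fix ρ₁ K, p x = f (e.symm w.1) := by
    intro w
    apply fix_surj ρ₁ ρ₂ h₁ h₂ K hK p hp hps
    intro k hk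
    rw [← hf k, ← hsym, hKs w.1 w.2 k hk]
  choose x hxK hxp using hx
  refine ⟨ProjAbs_T c hadd hsmul hfin (fun q => ρ₁ q.2.out (x q.1)),
    ProjAbs_equi π ρ₁ B hpos K s hKs x hxK c (fun _ _ => rfl) hadd hsmul hfin, ?_⟩
  refine LinearMap.ext fun v => ?_
  rw [LinearMap.comp_apply, ProjAbs_map]
  have h1 : (fun q : s × (G ⧸ K) => p (ρ₁ q.2.out (x q.1))) =
      fun q => (f ∘ₗ (e.symm : V →ₗ[ℂ] V)) (π q.2.out q.1.1) := by
    funext q
    rw [hp, hxp, LinearMap.comp_apply, LinearEquiv.coe_coe, hsym, hf]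
  rw [h1, ← ProjAbs_map c hadd hsmul hfin (fun q => π q.2.out q.1.1)
    (f ∘ₗ (e.symm : V →ₗ[ℂ] V)) v, LinearMap.comp_apply]
  show f (e.symm (S v)) = f v
  rw [← heS, LinearEquiv.symm_apply_apply]

/-- projectivity is invariant under isomorphisms -/
theorem HasLift.of_iso (π : Representation ℂ G V) (σ : Representation ℂ G W)
    (h : HasLift π) (hi : Iso π σ) : HasLift σ := by
  obtain ⟨e, he⟩ := hi
  intro E₁ E₂ _ _ _ _ ρ₁ ρ₂ h₁ h₂ p hp hps f hf
  obtain ⟨F, hF, hpF⟩ := h E₁ E₂ ρ₁ ρ₂ h₁ h₂ p hp hps (f ∘ₗ (e : V →ₗ[ℂ] W)) (by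
    intro g v
    have h1 : e (π g v) = σ g (e v) := he g v
    show f (e (π g v)) = ρ₂ g (f (e v))
    rw [h1, hf])
  refine ⟨F ∘ₗ (e.symm : W →ₗ[ℂ] V), ?_, ?_⟩
  · intro g w
    have h1 : e (π g (e.symm w)) = σ g w := by
      have h2 : e (π g (e.symm w)) = σ g (e (e.symm w)) := he g (e.symm w)
      rw [h2, LinearEquiv.apply_symm_apply]
    show F (e.symm (σ g w)) = ρ₁ g (F (e.symm w))
    rw [← h1, LinearEquiv.symm_apply_apply, hF]
  · refine LinearMap.ext fun w => ?_
    have h1 := congrArg (fun T : V →ₗ[ℂ] E₂ => T (e.symm w)) hpF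
    have h2 : p (F (e.symm w)) = f (e (e.symm w)) := h1
    rw [LinearEquiv.apply_symm_apply] at h2
    exact h2

end

end Pool.Agent.Lib.MP_ca1492_al.P
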