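import Mathlib
import Pool.Agent.Lib.MP_ca1492_al.P.CuspAdm
import Pool.Agent.Lib.MP_ca1492_al.P.ProjAbs

/-!
# MP_ca1492_al, p-adic side, module CuspInj: cuspidal representations restricted to `M⁰`

`π` irreducible smooth cuspidal representation of `M = lev c`, `π⁰` its restriction to
`M⁰ = lev0 c` (an open subgroup).
* `cusp0_adm`, `cusp0_fg`: `M⁰` is open in `M`; `M = ⋃ M⁰ r Z` (finite union, `lev_finite_index`)
  and `Z` acts by scalars (`cusp_central`), so the `π r v` generate over `M⁰`.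
* `cusp0_cpt`: by `cartan` and `cusp_compact`, `avg (Kl m) (π g v) ≠ 0` implies `g = k₁ (dia l) k₂`
  with bounded `l i - l j` (`c i = c j`); if `g ∈ M⁰` then the sum of `l` over each class is zero
  (`vl_dia`, `vl_Kc`), so `l` is bounded: finitely many `l`, and `⋃ Kl 0 (dia l) Kl 0` is compact.
  (`CptCoef` is required for all compact open `K ≤ M⁰`: `K` contains some `Kl m`, and
  `avg K = avg K ∘ avg (Kl m)`, `avg_mono`.)
* `cusp0_form`: choose `0 ≠ λ ∈ V^∨` (`dual_sep`), fixed by the compact open `K ≤ M⁰`, and the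
  representatives `r ∈ s` of `lev_finite_index`. Put
  `B v v' = Σ_{r ∈ s} Σ_{K g ∈ K \ M⁰} λ(π(g r) v) * conj (λ(π(g r) v'))`; the summand depends only on
  `K g`, and it is zero outside finitely many cosets because
  `λ(π(g r) v) = λ(avg K (π g (π r v)))`. Invariance under `h ∈ M⁰`: `g r h = g (r h r⁻¹) r` and
  `r h r⁻¹ ∈ M⁰`. Positive: if `B v v = 0` then `λ(π(g r z) v) = 0` for all `g ∈ M⁰`, `r ∈ s`, `z ∈ Z`
  (scalars), so `λ` vanishes on the stable subspace generated by `v`; if `v ≠ 0` this is `V`.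
-/

set_option autoImplicit false
set_option linter.unusedSectionVars false

namespace Pool.Agent.Lib.MP_ca1492_al.P

open Topology Matrix ValuativeRel

noncomputable section

section abs

variable {G : Type} [Group G] [TopologicalSpace G] [IsTopologicalGroup G]
variable {V : Type} [AddCommGroup V] [Module ℂ V]

/-- a left invariant function at the representative of a coset -/
theorem CuspInj_out (K : Subgroup G) (f : G → ℂ) (hf : ∀ k ∈ K, ∀ g, f (k * g) = f g) (g : G) :
    f ((QuotientGroup.mk g : G ⧸ K).out)⁻¹ = f g⁻¹ := by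
  obtain ⟨k, hk⟩ := QuotientGroup.mk_out_eq_mul K g
  rw [hk, _root_.mul_inv_rev, ← Subgroup.coe_inv]
  exact hf _ (k⁻¹).2 _

theorem CuspInj_fin (K : Subgroup G) (hK : IsOpen (K : Set G)) (f : G → ℂ) (C : Set G)
    (hC : IsCompact C) (h : ∀ g, g ∉ C → f g = 0) :
    (Function.support fun q : G ⧸ K => f (q.out)⁻¹).Finite := by
  have hd : DiscreteTopology (G ⧸ K) := QuotientGroup.discreteTopology hK
  have h1 : IsCompact ((QuotientGroup.mk : G → G ⧸ K) '' C⁻¹) :=
    hC.inv.image QuotientGroup.continuous_mk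
  refine h1.finite_of_discrete.subset ?_
  intro q hq
  refine ⟨q.out, ?_, QuotientGroup.out_eq' q⟩
  rw [Set.mem_inv]
  by_contra hcon
  exact hq (h _ hcon)

theorem CuspInj_form (π : Representation ℂ G V) (K : Subgroup G) (hK : IsOpen (K : Set G))
    {ι' : Type} (s : Finset ι') (f : ι' → V → G → ℂ)
    (hadd : ∀ r v w g, f r (v + w) g = f r v g + f r w g)
    (hsmul : ∀ r (c : ℂ) v g, f r (c • v) g = c * f r v g)
    (hinv : ∀ r v, ∀ k ∈ K, ∀ g, f r v (k * g) = f r v g)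
    (hcpt : ∀ r ∈ s, ∀ v, ∃ C : Set G, IsCompact C ∧ ∀ g, g ∉ C → f r v g = 0)
    (θ : ι' → G → G) (hθ : ∀ r ∈ s, ∀ h v g, f r (π h v) g = f r v (g * θ r h))
    (hpos : ∀ v, v ≠ 0 → ∃ r ∈ s, ∃ g, f r v g ≠ 0) :
    ∃ B : V → V → ℂ, PosForm π B := by
  have hfin : ∀ r ∈ s, ∀ v, (Function.support fun q : G ⧸ K => f r v (q.out)⁻¹).Finite := by
    intro r hr v
    obtain ⟨C, hC, h⟩ := hcpt r hr v
    exact CuspInj_fin K hK (f r v) C hC h
  have hfin2 : ∀ r ∈ s, ∀ v w, (Function.support fun q : G ⧸ K =>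
      f r v (q.out)⁻¹ * (starRingEnd ℂ) (f r w (q.out)⁻¹)).Finite := by
    intro r hr v w
    refine (hfin r hr v).subset ?_
    intro q hq h0
    apply hq
    show _ * _ = (0 : ℂ)
    rw [show f r v (q.out)⁻¹ = 0 from h0, zero_mul]
  refine ⟨fun v w => ∑ r ∈ s, ∑ᶠ q : G ⧸ K,
    f r v (q.out)⁻¹ * (starRingEnd ℂ) (f r w (q.out)⁻¹), ?_, ?_, ?_, ?_, ?_⟩
  · intro u v w
    rw [← Finset.sum_add_distrib]
    refine Finset.sum_congr rfl fun r hr => ?_
    rw [← finsum_add_distrib (hfin2 r hr u w) (hfin2 r hr v w)]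
    refine finsum_congr fun q => ?_
    rw [hadd, add_mul]
  · intro c u w
    rw [Finset.mul_sum]
    refine Finset.sum_congr rfl fun r hr => ?_
    rw [mul_finsum]
    refine finsum_congr fun q => ?_
    rw [hsmul, mul_assoc]
  · intro u v
    rw [map_sum]
    refine Finset.sum_congr rfl fun r hr => ?_
    have h1 := (starRingEnd ℂ : ℂ →+* ℂ).toAddMonoidHom.map_finsum (hfin2 r hr u v)
    have h2 : (starRingEnd ℂ) (∑ᶠ q : G ⧸ K, f r u (q.out)⁻¹ *
        (starRingEnd ℂ) (f r v (q.out)⁻¹)) = ∑ᶠ q : G ⧸ K, (starRingEnd ℂ) (f r u (q.out)⁻¹ *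
        (starRingEnd ℂ) (f r v (q.out)⁻¹)) := h1
    rw [h2]
    refine finsum_congr fun q => ?_
    rw [map_mul, Complex.conj_conj, mul_comm]
  · intro h u v
    refine Finset.sum_congr rfl fun r hr => ?_
    have key : ∀ q : G ⧸ K, ∀ w, f r (π h w) (q.out)⁻¹ =
        f r w (((θ r h)⁻¹ • q : G ⧸ K).out)⁻¹ := by
      intro q w
      obtain ⟨g, rfl⟩ := QuotientGroup.mk_surjective q
      have e1 : ((θ r h)⁻¹ • (QuotientGroup.mk g : G ⧸ K)) =
        (QuotientGroup.mk ((θ r h)⁻¹ * g) : G ⧸ K) := rfl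
      rw [e1, CuspInj_out K (f r w) (hinv r w), CuspInj_out K (f r (π h w)) (hinv r _),
        hθ r hr, _root_.mul_inv_rev, inv_inv]
    have h1 : (fun q : G ⧸ K => f r (π h u) (q.out)⁻¹ *
        (starRingEnd ℂ) (f r (π h v) (q.out)⁻¹)) = fun q : G ⧸ K =>
          (fun q' : G ⧸ K => f r u (q'.out)⁻¹ * (starRingEnd ℂ) (f r v (q'.out)⁻¹))
            ((MulAction.toPerm ((θ r h)⁻¹ : G) : Equiv.Perm (G ⧸ K)) q) := by
      funext q
      rw [key, key]
      rfl
    rw [h1]
    exact finsum_comp_equiv (f := fun q' : G ⧸ K => f r u (q'.out)⁻¹ *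
      (starRingEnd ℂ) (f r v (q'.out)⁻¹))
      (MulAction.toPerm ((θ r h)⁻¹ : G) : Equiv.Perm (G ⧸ K))
  · intro v hv
    have hterm : ∀ r ∈ s, ∀ q : G ⧸ K, 0 ≤ (f r v (q.out)⁻¹ *
        (starRingEnd ℂ) (f r v (q.out)⁻¹)).re := by
      intro r _ q
      rw [Complex.mul_conj, Complex.ofReal_re]
      exact Complex.normSq_nonneg _
    have hre : ∀ r ∈ s, (∑ᶠ q : G ⧸ K, f r v (q.out)⁻¹ *
        (starRingEnd ℂ) (f r v (q.out)⁻¹)).re = ∑ᶠ q : G ⧸ K, (f r v (q.out)⁻¹ *
        (starRingEnd ℂ) (f r v (q.out)⁻¹)).re := by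
      intro r hr
      exact Complex.reAddGroupHom.map_finsum (hfin2 r hr v v)
    obtain ⟨r₀, hr₀, g, hg⟩ := hpos v hv
    rw [Complex.re_sum]
    refine Finset.sum_pos' (fun r hr => ?_) ⟨r₀, hr₀, ?_⟩
    · rw [hre r hr]
      exact finsum_nonneg (hterm r hr)
    · rw [hre r₀ hr₀]
      refine finsum_pos (hterm r₀ hr₀) ⟨(QuotientGroup.mk g⁻¹ : G ⧸ K), ?_⟩ ?_
      · rw [CuspInj_out K (f r₀ v) (hinv r₀ v), inv_inv, Complex.mul_conj, Complex.ofReal_re]
        exact Complex.normSq_pos.2 hg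
      · refine (hfin2 r₀ hr₀ v v).subset ?_
        intro q hq h0
        apply hq
        show (_ : ℂ).re = 0
        rw [show f r₀ v (q.out)⁻¹ * (starRingEnd ℂ) (f r₀ v (q.out)⁻¹) = 0 from h0,
          Complex.zero_re]

end abs

variable {F : Type} [Field F] [ValuativeRel F] [TopologicalSpace F]
  [IsNonarchimedeanLocalField F]
variable {κ : Type} [Fintype κ] [DecidableEq κ]
variable {V : Type} [AddCommGroup V] [Module ℂ V]
variable {ι : Type} [DecidableEq ι] (c : κ → ι) (π : Representation ℂ (lev F c) V)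

theorem CuspInj_closed : IsClosed (lev0 F c : Set (GL κ F)) := by
  have h1 : IsClosed (((lev0 F c).subgroupOf (lev F c) : Subgroup (lev F c)) :
    Set (lev F c)) := Subgroup.isClosed_of_isOpen _ (lev0_open c)
  have h2 := (lev_isClosed (F := F) c).isClosedEmbedding_subtypeVal.isClosedMap _ h1
  have h3 : (lev0 F c : Set (GL κ F)) = Subtype.val ''
      (((lev0 F c).subgroupOf (lev F c) : Subgroup (lev F c)) : Set (lev F c)) := by
    ext g
    constructor
    · intro hg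
      exact ⟨⟨g, lev0_le c hg⟩, hg, rfl⟩
    · rintro ⟨x, hx, rfl⟩
      exact hx
  rw [h3]
  exact h2

/-- open subgroups of `M⁰` are open in `M` -/
theorem CuspInj_open (K : Subgroup (lev0 F c)) (hK : IsOpen (K : Set (lev0 F c))) :
    IsOpen ((K.map (Subgroup.inclusion (lev0_le c)) : Subgroup (lev F c)) : Set (lev F c)) := by
  obtain ⟨O, hO, hKO⟩ := isOpen_induced_iff.1 hK
  have h3 : ((K.map (Subgroup.inclusion (lev0_le c)) : Subgroup (lev F c)) : Set (lev F c)) =
      Subtype.val ⁻¹' O ∩ (((lev0 F c).subgroupOf (lev F c) : Subgroup (lev F c)) :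
        Set (lev F c)) := by
    ext g
    constructor
    · rintro ⟨x, hx, rfl⟩
      have hx' : x ∈ Subtype.val ⁻¹' O := by rw [hKO]; exact hx
      exact ⟨hx', x.2⟩
    · rintro ⟨h1, h2⟩
      have h4 : (⟨g.1, h2⟩ : lev0 F c) ∈ Subtype.val ⁻¹' O := h1
      rw [hKO] at h4
      exact ⟨⟨g.1, h2⟩, h4, rfl⟩
  rw [h3]
  exact (hO.preimage continuous_subtype_val).inter (lev0_open c)

theorem lev0_hasCO : HasCO (lev0 F c) :=
  co_closed (lev0 F c) (CuspInj_closed c) fun U hU => by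
    obtain ⟨m, hm⟩ := Kc_basis U hU
    exact ⟨Kc F κ m, Kc_isOpen m, Kc_isCompact m, hm⟩

theorem cusp0_adm (hπ : IsSm π) (hi : Irr π) (hc : Cusp c π) :
    Adm (resLE (lev0_le c) π) := by
  intro K hK
  have h1 := cusp_adm c π hπ hi hc _ (CuspInj_open c K hK)
  have h2 : fix (resLE (lev0_le c) π) K =
      fix π (K.map (Subgroup.inclusion (lev0_le c))) := by
    ext v
    constructor
    · rintro h _ ⟨x, hx, rfl⟩
      exact h x hx
    · intro h x hx
      exact h _ ⟨x, hx, rfl⟩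
  rw [h2]
  exact h1

/-- the span of the orbit of a nonzero vector is everything -/
theorem CuspInj_span (hi : Irr π) (v : V) (hv : v ≠ 0) :
    Submodule.span ℂ (Set.range fun g => π g v) = ⊤ := by
  have hS : Stab π (Submodule.span ℂ (Set.range fun g => π g v)) := by
    intro g w hw
    refine Submodule.span_induction (p := fun x _ => π g x ∈
      Submodule.span ℂ (Set.range fun g => π g v)) ?_ ?_ ?_ ?_ hw
    · rintro _ ⟨h, rfl⟩
      refine Submodule.subset_span ⟨g * h, ?_⟩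
      show π (g * h) v = π g (π h v)
      rw [map_mul, Module.End.mul_apply]
    · rw [map_zero]
      exact Submodule.zero_mem _
    · intro x y _ _ hx hy
      rw [map_add]
      exact Submodule.add_mem _ hx hy
    · intro a x _ hx
      rw [map_smul]
      exact Submodule.smul_mem _ _ hx
  rcases hi.2 _ hS with h | h
  · exfalso
    apply hv
    have h1 : v ∈ Submodule.span ℂ (Set.range fun g => π g v) :=
      Submodule.subset_span ⟨1, by simp⟩
    rw [h] at h1
    exact (Submodule.mem_bot ℂ).1 h1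
  · exact h

/-- the vectors `π x v` in terms of `M⁰`, representatives and scalars -/
theorem CuspInj_rep (hπ : IsSm π) (hi : Irr π) (hc : Cusp c π) :
    ∃ s : Finset (lev F c), ∀ x : lev F c, ∃ h : lev0 F c, ∃ r ∈ s, ∃ z : ℂ,
      ∀ v, π x v = z • π (Subgroup.inclusion (lev0_le c) h) (π r v) := by
  classical
  obtain ⟨s, hs, hfi⟩ := lev_finite_index (F := F) c
  refine ⟨s.attach.image (fun r => ⟨r.1, hs r.1 r.2⟩), fun x => ?_⟩
  obtain ⟨h, hh, r, hr, a, hx⟩ := hfi x.1 x.2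
  obtain ⟨z, -, hz⟩ := cusp_central c π hπ hi hc a
  refine ⟨⟨h, hh⟩, ⟨r, hs r hr⟩, Finset.mem_image.2 ⟨⟨r, hr⟩, Finset.mem_attach _ _, rfl⟩, z,
    fun v => ?_⟩
  have h1 : x = Subgroup.inclusion (lev0_le c) ⟨h, hh⟩ * ⟨r, hs r hr⟩ *
      dial F c (fun i => a (c i)) := Subtype.ext hx
  rw [h1, map_mul, map_mul, Module.End.mul_apply, Module.End.mul_apply, hz, map_smul, map_smul]

theorem cusp0_fg (hπ : IsSm π) (hi : Irr π) (hc : Cusp c π) :
    Fg (resLE (lev0_le c) π) := by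
  classical
  obtain ⟨v, hv⟩ := hi.1
  obtain ⟨s, hs⟩ := CuspInj_rep c π hπ hi hc
  refine ⟨s.image (fun r => π r v), fun U hU hm => ?_⟩
  rw [eq_top_iff, ← CuspInj_span c π hi v hv, Submodule.span_le]
  rintro _ ⟨x, rfl⟩
  obtain ⟨h, r, hr, z, hz⟩ := hs x
  show π x v ∈ U
  rw [hz v]
  exact Submodule.smul_mem _ _ (hU h _ (hm _ (Finset.mem_image_of_mem _ hr)))

theorem CuspInj_box (l : κ → ℤ) (L : ℤ) (h0 : ∀ x, ∑ i ∈ Finset.univ.filter
    (fun i => c i = x), l i = 0) (h : ∀ i j, c i = c j → l i - l j ≤ L) (i : κ) :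
    -L ≤ l i ∧ l i ≤ L := by
  classical
  set s := Finset.univ.filter (fun j => c j = c i) with hs
  have hi : i ∈ s := by simp [hs]
  have hpos : 0 < (s.card : ℤ) := by exact_mod_cast Finset.card_pos.2 ⟨i, hi⟩
  have h1 : (s.card : ℤ) * l i = ∑ j ∈ s, (l i - l j) := by
    rw [Finset.sum_sub_distrib, h0, sub_zero, Finset.sum_const, nsmul_eq_mul]
  have h2 : ∑ j ∈ s, (l i - l j) ≤ ∑ j ∈ s, L := Finset.sum_le_sum fun j hj => by
    simp only [hs, Finset.mem_filter, Finset.mem_univ, true_and] at hj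
    exact h i j hj.symm
  have h3 : ∑ j ∈ s, (-L) ≤ ∑ j ∈ s, (l i - l j) := Finset.sum_le_sum fun j hj => by
    simp only [hs, Finset.mem_filter, Finset.mem_univ, true_and] at hj
    have := h j i hj
    linarith
  rw [Finset.sum_const, nsmul_eq_mul] at h2 h3
  constructor
  · nlinarith
  · nlinarith

theorem cusp0_cpt (hπ : IsSm π) (hi : Irr π) (hc : Cusp c π) :
    CptCoef (resLE (lev0_le c) π) := by
  intro v K hK hKc
  have hsm := smooth_resLE (lev0_le c) π hπ
  obtain ⟨m, hm⟩ := Kl_basis c _ ((CuspInj_open c K hK).mem_nhds (Subgroup.one_mem _))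
  obtain ⟨L, hL⟩ := cusp_compact c π hπ hc v m
  set Km : Subgroup (lev0 F c) := (Kl F c m).comap (Subgroup.inclusion (lev0_le c)) with hKm
  have hcont : Continuous (Subgroup.inclusion (lev0_le (F := F) c)) :=
    Continuous.subtype_mk continuous_subtype_val _
  have hKmK : Km ≤ K := by
    intro x hx
    obtain ⟨y, hy, hxy⟩ := hm hx
    have h1 : y = x := Subgroup.inclusion_injective _ hxy
    rw [← h1]
    exact hy
  have hKmc : IsCompact (Km : Set (lev0 F c)) := by
    refine hKc.of_isClosed_subset ?_ hKmK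
    exact (Subgroup.isClosed_of_isOpen _ (Kl_isOpen c m)).preimage hcont
  have horb : ∀ w, orb (resLE (lev0_le c) π) Km w = orb π (Kl F c m) w := by
    intro w
    ext u
    constructor
    · rintro ⟨k, hk, rfl⟩
      exact ⟨_, hk, rfl⟩
    · rintro ⟨k, hk, rfl⟩
      obtain ⟨y, hy, hky⟩ := hm hk
      refine ⟨y, ?_, ?_⟩
      · show Subgroup.inclusion (lev0_le c) y ∈ Kl F c m
        rw [hky]
        exact hk
      · show _ = π (Subgroup.inclusion (lev0_le c) y) w
        rw [hky]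
  have havg : ∀ w, avg π (Kl F c m) w = 0 → avg (resLE (lev0_le c) π) K w = 0 := by
    intro w hw
    have h1 : avg (resLE (lev0_le c) π) Km w = 0 := by
      unfold avg at hw ⊢
      rw [horb w]
      exact hw
    rw [← avg_mono (resLE (lev0_le c) π) hsm Km K hKmc hKc hKmK w, h1]
    have h2 := avg_smul (resLE (lev0_le c) π) hsm K hKc 0 (0 : V)
    rw [zero_smul, zero_smul] at h2
    exact h2
  have hfin : (Set.Icc (fun _ : κ => -(L : ℤ)) (fun _ => (L : ℤ))).Finite := Set.finite_Icc _ _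
  refine ⟨Subtype.val ⁻¹' (⋃ l ∈ Set.Icc (fun _ : κ => -(L : ℤ)) (fun _ => (L : ℤ)),
    (fun p : GL κ F × GL κ F => p.1 * dia F l * p.2) ''
      ((Kc F κ 0 : Set (GL κ F)) ×ˢ (Kc F κ 0 : Set (GL κ F)))), ?_, ?_⟩
  · refine (CuspInj_closed c).isClosedEmbedding_subtypeVal.isCompact_preimage ?_
    refine hfin.isCompact_biUnion fun l _ => ?_
    refine ((Kc_isCompact 0).prod (Kc_isCompact 0)).image ?_
    exact (continuous_fst.mul continuous_const).mul continuous_snd
  · intro g hg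
    obtain ⟨k₁, hk₁, k₂, hk₂, hk₁', hk₂', l, hgl⟩ := cartan c g.1 (lev0_le c g.2)
    have hl0 : ∀ x, ∑ i ∈ Finset.univ.filter (fun i => c i = x), l i = 0 := by
      intro x
      have h1 := g.2.2 x
      rw [hgl, vl_mul c _ _ ((lev F c).mul_mem hk₁' (dia_mem_lev c l)) hk₂',
        vl_mul c _ _ hk₁' (dia_mem_lev c l), vl_Kc c _ hk₁' hk₁, vl_Kc c _ hk₂' hk₂, zero_add,
        add_zero, vl_dia] at h1
      exact h1
    have hex : ∃ i j, c i = c j ∧ (L : ℤ) < l i - l j := by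
      by_contra hcon
      push Not at hcon
      have hb := CuspInj_box c l L hl0 hcon
      apply hg
      rw [Set.mem_preimage]
      simp only [Set.mem_iUnion]
      refine ⟨l, ⟨fun i => (hb i).1, fun i => (hb i).2⟩, ⟨k₁, k₂⟩, ⟨hk₁, hk₂⟩, hgl.symm⟩
    have h1 := hL ⟨k₁, hk₁'⟩ hk₁ ⟨k₂, hk₂'⟩ hk₂ l hex
    apply havg
    have h2 : Subgroup.inclusion (lev0_le c) g =
        (⟨k₁, hk₁'⟩ * dial F c l * ⟨k₂, hk₂'⟩ : lev F c) := Subtype.ext hgl
    show avg π (Kl F c m) (π (Subgroup.inclusion (lev0_le c) g) v) = 0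
    rw [h2]
    exact h1

theorem cusp0_form (hπ : IsSm π) (hi : Irr π) (hc : Cusp c π) :
    ∃ B : V → V → ℂ, PosForm (resLE (lev0_le c) π) B := by
  have hsm := smooth_resLE (lev0_le c) π hπ
  obtain ⟨v₀, hv₀⟩ := hi.1
  obtain ⟨lam, hlam⟩ := dual_sep (lev_hasCO c) π hπ v₀ hv₀
  obtain ⟨U, hU, hUl⟩ := lam.2
  have hcont : Continuous (Subgroup.inclusion (lev0_le (F := F) c)) :=
    Continuous.subtype_mk continuous_subtype_val _
  obtain ⟨K, hK, hKc, hKU⟩ := lev0_hasCO c (Subgroup.inclusion (lev0_le c) ⁻¹' (U : Set (lev F c)))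
    ((hU.preimage hcont).mem_nhds (by
      show Subgroup.inclusion (lev0_le c) 1 ∈ U
      rw [map_one]
      exact U.one_mem))
  obtain ⟨s, hs⟩ := CuspInj_rep c π hπ hi hc
  have hcpt := cusp0_cpt c π hπ hi hc
  have hnorm : ∀ (r : lev F c) (h : lev0 F c), r.1 * h.1 * r.1⁻¹ ∈ lev0 F c := by
    intro r h
    have hr := r.2
    have hh := lev0_le c h.2
    refine ⟨(lev F c).mul_mem ((lev F c).mul_mem hr hh) ((lev F c).inv_mem hr), fun x => ?_⟩
    rw [vl_mul c _ _ ((lev F c).mul_mem hr hh) ((lev F c).inv_mem hr), vl_mul c _ _ hr hh,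
      vl_inv c _ hr, h.2.2 x]
    ring
  refine CuspInj_form (resLE (lev0_le c) π) K hK s
    (fun r v g => lam.1 (π (Subgroup.inclusion (lev0_le c) g) (π r v))) ?_ ?_ ?_ ?_
    (fun r h => ⟨r.1 * h.1 * r.1⁻¹, hnorm r h⟩) ?_ ?_
  · intro r v w g
    simp only [map_add]
  · intro r a v g
    simp only [map_smul, smul_eq_mul]
  · intro r v k hk g
    show lam.1 (π (Subgroup.inclusion (lev0_le c) (k * g)) (π r v)) = _
    rw [map_mul, map_mul, Module.End.mul_apply]
    exact hUl _ (hKU hk) _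
  · intro r _ v
    obtain ⟨C, hC, h⟩ := hcpt (π r v) K hK hKc
    refine ⟨C, hC, fun g hg => ?_⟩
    have h1 := Dual_inv_avg (resLE (lev0_le c) π) hsm K hKc lam.1
      (fun k hk w => hUl _ (hKU hk) w) (resLE (lev0_le c) π g (π r v))
    rw [h g hg, map_zero] at h1
    exact h1.symm
  · intro r _ h v g
    have h1 : (Subgroup.inclusion (lev0_le c) g) * r * Subgroup.inclusion (lev0_le c) h =
        Subgroup.inclusion (lev0_le c) (g * ⟨r.1 * h.1 * r.1⁻¹, hnorm r h⟩) * r := by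
      apply Subtype.ext
      show g.1 * r.1 * h.1 = g.1 * (r.1 * h.1 * r.1⁻¹) * r.1
      group
    show lam.1 (π (Subgroup.inclusion (lev0_le c) g) (π r
      (π (Subgroup.inclusion (lev0_le c) h) v))) = lam.1 (π (Subgroup.inclusion (lev0_le c)
        (g * ⟨r.1 * h.1 * r.1⁻¹, hnorm r h⟩)) (π r v))
    rw [← Module.End.mul_apply, ← Module.End.mul_apply, ← Module.End.mul_apply, ← map_mul,
      ← map_mul, ← map_mul, h1]
  · intro v hv
    by_contra hcon
    push Not at hcon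
    have h1 : ∀ x, lam.1 (π x v) = 0 := by
      intro x
      obtain ⟨h, r, hr, z, hz⟩ := hs x
      rw [hz v, map_smul, hcon r hr h, smul_zero]
    have h2 : (⊤ : Submodule ℂ V) ≤ LinearMap.ker lam.1 := by
      rw [← CuspInj_span c π hi v hv, Submodule.span_le]
      rintro _ ⟨x, rfl⟩
      exact h1 x
    exact hlam (h2 (Submodule.mem_top (x := v₀)))

end

end Pool.Agent.Lib.MP_ca1492_al.P
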