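import Mathlib
import Pool.Agent.Lib.MP_ca1492_al.P.CuspDual
import Pool.Agent.Lib.MP_ca1492_al.P.CuspInj

/-!
# MP_ca1492_al, p-adic side, module CuspInj2: cuspidal representations are injective over `M⁰`

* `cusp0_lift`: `proj_of_compact`.
* `cusp0_inj`: `dual π` is irreducible (`dual_irr`), smooth and cuspidal (`cusp_dual`), so its
  restriction to `M⁰` has lifts; this restriction is isomorphic (equal space) to
  `dual (π⁰)` since a form is invariant under an open subgroup of `M` iff it is invariant under an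
  open subgroup of `M⁰`. Conclude by `inj_of_dual_proj`.
-/

set_option autoImplicit false

namespace Pool.Agent.Lib.MP_ca1492_al.P

open Topology Matrix ValuativeRel

noncomputable section

variable {F : Type} [Field F] [ValuativeRel F] [TopologicalSpace F]
  [IsNonarchimedeanLocalField F]
variable {κ : Type} [Fintype κ] [DecidableEq κ]
variable {V : Type} [AddCommGroup V] [Module ℂ V]
variable {ι : Type} [DecidableEq ι] (c : κ → ι) (π : Representation ℂ (lev F c) V)

theorem cusp0_lift (hπ : IsSm π) (hi : Irr π) (hc : Cusp c π) :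
    HasLift (resLE (lev0_le c) π) := by
  obtain ⟨B, hB⟩ := cusp0_form c π hπ hi hc
  exact proj_of_compact (lev0_hasCO c) _ (smooth_resLE (lev0_le c) π hπ) (cusp0_adm c π hπ hi hc)
    (cusp0_fg c π hπ hi hc) (cusp0_cpt c π hπ hi hc) B hB

/-- a form is smooth for `M` iff it is smooth for the open subgroup `M⁰` -/
theorem CuspInj2_dualSp : dualSp π = dualSp (resLE (lev0_le c) π) := by
  ext l
  constructor
  · rintro ⟨U, hU, h⟩
    refine ⟨U.comap (Subgroup.inclusion (lev0_le c)), ?_, fun u hu v => h _ hu v⟩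
    have hcont : Continuous (Subgroup.inclusion (lev0_le c : lev0 F c ≤ lev F c)) :=
      Continuous.subtype_mk continuous_subtype_val _
    exact hU.preimage hcont
  · rintro ⟨U, hU, h⟩
    refine ⟨U.map (Subgroup.inclusion (lev0_le c)), ?_, ?_⟩
    · obtain ⟨O, hO, hOU⟩ := isOpen_induced_iff.1 hU
      have h1 : ((U.map (Subgroup.inclusion (lev0_le c)) : Subgroup (lev F c)) : Set (lev F c)) =
          (Subtype.val ⁻¹' O : Set (lev F c)) ∩
            (((lev0 F c).subgroupOf (lev F c) : Subgroup (lev F c)) : Set (lev F c)) := by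
        ext x
        constructor
        · rintro ⟨y, hy, rfl⟩
          have hy' : y ∈ (U : Set (lev0 F c)) := hy
          rw [← hOU] at hy'
          exact ⟨hy', y.2⟩
        · rintro ⟨hx, hx0⟩
          have hx0' : (x : GL κ F) ∈ lev0 F c := hx0
          have hy : (⟨x.1, hx0'⟩ : lev0 F c) ∈ (U : Set (lev0 F c)) := by
            rw [← hOU]
            exact hx
          exact ⟨⟨x.1, hx0'⟩, hy, rfl⟩
      rw [h1]
      exact (hO.preimage continuous_subtype_val).inter (lev0_open c)
    · rintro _ ⟨u, hu, rfl⟩ v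
      exact h u hu v

theorem CuspInj2_iso : Iso (resLE (lev0_le c) (dual π)) (dual (resLE (lev0_le c) π)) :=
  ⟨LinearEquiv.ofEq _ _ (CuspInj2_dualSp c π), fun _ _ => rfl⟩

theorem cusp0_inj (hπ : IsSm π) (hi : Irr π) (hc : Cusp c π) :
    IsInjSm (resLE (lev0_le c) π) := by
  have hadm := cusp_adm c π hπ hi hc
  have hlift : HasLift (dual (resLE (lev0_le c) π)) :=
    HasLift.of_iso _ _ (cusp0_lift c (dual π) (dual_smooth π)
      (dual_irr (lev_hasCO c) π hπ hadm hi) (cusp_dual c π hπ hi hc)) (CuspInj2_iso c π)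
  exact inj_of_dual_proj (lev0_hasCO c) _ (smooth_resLE (lev0_le c) π hπ)
    (cusp0_adm c π hπ hi hc) hlift

end

end Pool.Agent.Lib.MP_ca1492_al.P
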