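import Mathlib

/-!
# MP_ca1492_al, p-adic side, module PolInj: polynomials are an injective representation of `ℤ^n`

`shiftP x : p(u) ↦ p(u + x)`, `polRep ι` the representation of `ℤ^ι` on polynomials.

`pol_fun`: a function `h : ℤ^n → ℂ` which is killed by all products of `d` difference operators
`(Δ_y h)(x) = h (x + y) - h x` is given by a polynomial. Proof: induction on `d` and the variables:
`Δ_{e_i}` is surjective on polynomials (in the variable `u_i`, over the ring of polynomials in the
other variables). By induction `Δ_{e_1} h` is a polynomial `p_1`; choose a polynomial `H_1` with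
`Δ_{e_1} H_1 = p_1`; then `h - H_1` does not depend on `x_1` (and is still killed by products of
sufficiently many difference operators); go on with the variable `x_2` (choosing `H_2` independent
of `u_1`, which is possible as `Δ_{e_2}(h - H_1)` is a polynomial function independent of `x_1`), etc.
At the end `h - H_1 - ... - H_n` is constant.

-/

set_option autoImplicit false

namespace Pool.Agent.Lib.MP_ca1492_al.P

open MvPolynomial

noncomputable section

variable {ι : Type}

/-- `p(u) ↦ p(u + x)` -/
def shiftP (x : ι → ℤ) : MvPolynomial ι ℂ →ₗ[ℂ] MvPolynomial ι ℂ :=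
  (MvPolynomial.aeval (fun i => (X i + C (x i : ℂ) : MvPolynomial ι ℂ))).toLinearMap

theorem shiftP_zero : shiftP (0 : ι → ℤ) = LinearMap.id := by
  have h : (MvPolynomial.aeval (fun i => (X i + C (((0 : ι → ℤ) i : ℤ) : ℂ) :
      MvPolynomial ι ℂ))) = AlgHom.id ℂ (MvPolynomial ι ℂ) := by
    refine MvPolynomial.algHom_ext fun i => ?_
    rw [MvPolynomial.aeval_X, Pi.zero_apply, Int.cast_zero, map_zero, add_zero, AlgHom.id_apply]
  unfold shiftP
  rw [h]
  rfl

theorem shiftP_add (x y : ι → ℤ) : shiftP (x + y) = shiftP x ∘ₗ shiftP y := by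
  have h : (MvPolynomial.aeval (fun i => (X i + C (((x + y) i : ℤ) : ℂ) : MvPolynomial ι ℂ))) =
      (MvPolynomial.aeval (fun i => (X i + C ((x i : ℤ) : ℂ) : MvPolynomial ι ℂ))).comp
        (MvPolynomial.aeval (fun i => (X i + C ((y i : ℤ) : ℂ) : MvPolynomial ι ℂ))) := by
    refine MvPolynomial.algHom_ext fun i => ?_
    rw [MvPolynomial.aeval_X, AlgHom.comp_apply, MvPolynomial.aeval_X, map_add,
      MvPolynomial.aeval_X, MvPolynomial.aeval_C, Pi.add_apply, Int.cast_add, map_add, add_assoc]
    rfl
  unfold shiftP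
  rw [h]
  rfl

variable (ι) in
/-- translation representation of `ℤ^ι` on polynomials -/
def polRep : Representation ℂ (Multiplicative (ι → ℤ)) (MvPolynomial ι ℂ) where
  toFun x := shiftP (Multiplicative.toAdd x)
  map_one' := by
    rw [toAdd_one, shiftP_zero]
    rfl
  map_mul' := by
    intro a b
    rw [toAdd_mul, shiftP_add]
    rfl

/-- evaluation at an integral point -/
def evZ (x : ι → ℤ) (p : MvPolynomial ι ℂ) : ℂ := MvPolynomial.eval (fun i => (x i : ℂ)) p

theorem evZ_shift (x y : ι → ℤ) (p : MvPolynomial ι ℂ) : evZ x (shiftP y p) = evZ (x + y) p := by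
  have h : (MvPolynomial.aeval (fun i => ((x i : ℤ) : ℂ))).comp
      (MvPolynomial.aeval (fun i => (X i + C ((y i : ℤ) : ℂ) : MvPolynomial ι ℂ))) =
      (MvPolynomial.aeval (fun i => (((x + y) i : ℤ) : ℂ)) : MvPolynomial ι ℂ →ₐ[ℂ] ℂ) := by
    refine MvPolynomial.algHom_ext fun i => ?_
    rw [AlgHom.comp_apply, MvPolynomial.aeval_X, map_add, MvPolynomial.aeval_X,
      MvPolynomial.aeval_C, MvPolynomial.aeval_X, Pi.add_apply, Int.cast_add]
    rfl
  have h2 := DFunLike.congr_fun h p
  exact h2

/-- a polynomial is determined by its values at integral points -/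
theorem evZ_ext [Finite ι] (p q : MvPolynomial ι ℂ) (h : ∀ x : ι → ℤ, evZ x p = evZ x q) :
    p = q := by
  refine MvPolynomial.funext_set (fun _ => Set.range (fun n : ℤ => (n : ℂ)))
    (fun _ => Set.infinite_range_of_injective Int.cast_injective) fun z hz => ?_
  have h1 : ∀ i, ∃ n : ℤ, (n : ℂ) = z i := fun i => hz i (Set.mem_univ i)
  choose x hx using h1
  have h2 := h x
  unfold evZ at h2
  have h3 : (fun i => ((x i : ℤ) : ℂ)) = z := funext hx
  rw [h3] at h2
  exact h2

/-- difference operator -/
def dif (y : ι → ℤ) (h : (ι → ℤ) → ℂ) : (ι → ℤ) → ℂ := fun x => h (x + y) - h x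

/-- killed by all products of `d` difference operators, recursive form -/
def PolInj_K : ℕ → ((ι → ℤ) → ℂ) → Prop
  | 0, h => h = 0
  | d + 1, h => ∀ y, PolInj_K d (dif y h)

theorem PolInj_dif_zero (y : ι → ℤ) : dif y (0 : (ι → ℤ) → ℂ) = 0 := by
  funext x
  exact sub_self _

theorem PolInj_dif_comm (y z : ι → ℤ) (h : (ι → ℤ) → ℂ) : dif y (dif z h) = dif z (dif y h) := by
  funext x
  unfold dif
  rw [add_right_comm]
  ring

theorem PolInj_K_dif (d : ℕ) : ∀ (h : (ι → ℤ) → ℂ) (y : ι → ℤ), PolInj_K d h →
    PolInj_K d (dif y h) := by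
  induction d with
  | zero =>
    intro h y hh
    have hh' : h = 0 := hh
    rw [hh']
    exact PolInj_dif_zero y
  | succ d ih =>
    intro h y hh a
    rw [PolInj_dif_comm]
    exact ih _ _ (hh a)

theorem PolInj_K_iter (d : ℕ) (h : (ι → ℤ) → ℂ) (y : ι → ℤ) (hh : PolInj_K d h) (k : ℕ) :
    PolInj_K d ((dif y)^[k] h) := by
  induction k with
  | zero => exact hh
  | succ k ih =>
    rw [Function.iterate_succ_apply']
    exact PolInj_K_dif d _ _ ih

theorem PolInj_K_vanish (d : ℕ) : ∀ (h : (ι → ℤ) → ℂ) (y : ι → ℤ), PolInj_K d h →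
    (dif y)^[d] h = 0 := by
  induction d with
  | zero => exact fun h y hh => hh
  | succ d ih =>
    intro h y hh
    rw [Function.iterate_succ_apply]
    exact ih _ _ (hh y)

/-- composition with an additive map -/
theorem PolInj_K_comp (r : (ι → ℤ) → (ι → ℤ)) (hr : ∀ x y, r (x + y) = r x + r y) (d : ℕ) :
    ∀ h : (ι → ℤ) → ℂ, PolInj_K d h → PolInj_K d (fun x => h (r x)) := by
  induction d with
  | zero =>
    intro h hh
    have hh' : h = 0 := hh
    rw [hh']
    rfl
  | succ d ih =>
    intro h hh y
    have h1 : dif y (fun x => h (r x)) = fun x => (dif (r y) h) (r x) := by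
      funext x
      change h (r (x + y)) - h (r x) = h (r x + r y) - h (r x)
      rw [hr]
    rw [h1]
    exact ih _ (hh (r y))

theorem PolInj_K_of_foldr (d : ℕ) : ∀ h : (ι → ℤ) → ℂ,
    (∀ y : Fin d → (ι → ℤ), (List.ofFn y).foldr dif h = 0) → PolInj_K d h := by
  induction d with
  | zero => exact fun h hd => hd Fin.elim0
  | succ d ih =>
    intro h hd a
    refine ih _ fun y => ?_
    have h1 := hd (Fin.snoc y a : Fin (d + 1) → (ι → ℤ))
    rw [List.ofFn_succ', List.concat_eq_append, List.foldr_append] at h1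
    simpa only [Fin.snoc_castSucc, Fin.snoc_last, List.foldr_cons, List.foldr_nil] using h1

/-- binomial polynomials -/
def PolInj_b (k : ℕ) : Polynomial ℂ := Polynomial.C ((k.factorial : ℂ)⁻¹) * descPochhammer ℂ k

theorem PolInj_b_zero (z : ℂ) : (PolInj_b 0).eval z = 1 := by
  unfold PolInj_b
  simp

theorem PolInj_b_succ_zero (k : ℕ) : (PolInj_b (k + 1)).eval 0 = 0 := by
  unfold PolInj_b
  simp [descPochhammer_eval_zero]

theorem PolInj_b_succ (k : ℕ) (z : ℂ) :
    (PolInj_b (k + 1)).eval (z + 1) - (PolInj_b (k + 1)).eval z = (PolInj_b k).eval z := by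
  unfold PolInj_b
  have h1 : (descPochhammer ℂ (k + 1)).eval (z + 1) = (z + 1) * (descPochhammer ℂ k).eval z := by
    rw [descPochhammer_succ_left, Polynomial.eval_mul, Polynomial.eval_comp]
    simp
  simp only [Polynomial.eval_mul, Polynomial.eval_C, h1, descPochhammer_succ_eval,
    Nat.factorial_succ]
  have h2 : (k.factorial : ℂ) ≠ 0 := Nat.cast_ne_zero.2 (Nat.factorial_ne_zero k)
  have h3 : ((k : ℂ) + 1) ≠ 0 := Nat.cast_add_one_ne_zero k
  push_cast
  field_simp
  ring

/-- Newton interpolation in one variable -/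
theorem PolInj_newton [DecidableEq ι] (i : ι) (m : ℕ) : ∀ h : (ι → ℤ) → ℂ,
    (dif (Pi.single i 1))^[m] h = 0 → ∀ x, h x = ∑ k ∈ Finset.range m,
      (PolInj_b k).eval ((x i : ℤ) : ℂ) *
        ((dif (Pi.single i 1))^[k] h) (Function.update x i 0) := by
  induction m with
  | zero =>
    intro h hh x
    have hh' : h = 0 := hh
    rw [hh']
    simp
  | succ m ih =>
    intro h hh
    rw [Function.iterate_succ_apply] at hh
    have h1 := ih _ hh
    -- the difference is periodic and vanishes at `0`
    set F : (ι → ℤ) → ℂ := fun x => h x - ∑ k ∈ Finset.range (m + 1),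
      (PolInj_b k).eval ((x i : ℤ) : ℂ) *
        ((dif (Pi.single i 1))^[k] h) (Function.update x i 0) with hF
    have hup : ∀ x : ι → ℤ, Function.update (x + Pi.single i 1) i 0 = Function.update x i 0 := by
      intro x
      funext j
      by_cases hj : j = i
      · subst hj
        simp
      · simp [Function.update_of_ne hj, Pi.single_eq_of_ne hj]
    have hper : ∀ x, F (x + Pi.single i 1) = F x := by
      intro x
      have h2 : h (x + Pi.single i 1) - h x = ∑ k ∈ Finset.range m,
          (PolInj_b k).eval ((x i : ℤ) : ℂ) *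
            ((dif (Pi.single i 1))^[k] (dif (Pi.single i 1) h)) (Function.update x i 0) := h1 x
      simp only [hF]
      rw [Finset.sum_range_succ', Finset.sum_range_succ' (n := m)]
      simp only [hup, Pi.add_apply, Pi.single_eq_same, Int.cast_add, Int.cast_one, PolInj_b_zero]
      have h3 : ∑ k ∈ Finset.range m, (PolInj_b (k + 1)).eval (((x i : ℤ) : ℂ) + 1) *
          ((dif (Pi.single i 1))^[k + 1] h) (Function.update x i 0) =
          ∑ k ∈ Finset.range m, (PolInj_b (k + 1)).eval ((x i : ℤ) : ℂ) *
          ((dif (Pi.single i 1))^[k + 1] h) (Function.update x i 0) +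
          (h (x + Pi.single i 1) - h x) := by
        rw [h2, ← Finset.sum_add_distrib]
        refine Finset.sum_congr rfl fun k _ => ?_
        rw [← PolInj_b_succ k, Function.iterate_succ_apply]
        ring
      rw [h3]
      ring
    have hperN : ∀ (n : ℕ) x, F (x + Pi.single i (n : ℤ)) = F x := by
      intro n
      induction n with
      | zero => intro x; simp
      | succ n ihn =>
        intro x
        rw [Nat.cast_succ, Pi.single_add, ← add_assoc, hper, ihn]
    have hperZ : ∀ (n : ℤ) x, F (x + Pi.single i n) = F x := by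
      intro n x
      obtain ⟨k, rfl | rfl⟩ := n.eq_nat_or_neg
      · exact hperN k x
      · have := hperN k (x + Pi.single i (-(k : ℤ)))
        rw [add_assoc, ← Pi.single_add, neg_add_cancel, Pi.single_zero, add_zero] at this
        exact this.symm
    have hF0 : ∀ x : ι → ℤ, x i = 0 → F x = 0 := by
      intro x hx
      have hux : Function.update x i 0 = x := by
        rw [← hx]
        exact Function.update_eq_self i x
      simp only [hF]
      rw [Finset.sum_range_succ', hux, hx, Int.cast_zero, PolInj_b_zero]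
      have h3 : ∑ k ∈ Finset.range m, (PolInj_b (k + 1)).eval (0 : ℂ) *
          ((dif (Pi.single i 1))^[k + 1] h) x = 0 :=
        Finset.sum_eq_zero fun k _ => by rw [PolInj_b_succ_zero, zero_mul]
      rw [h3]
      simp
    intro x
    have h4 : F x = 0 := by
      rw [← hperZ (-(x i)) x]
      apply hF0
      simp
    exact sub_eq_zero.1 h4

/-- `h` depends only on the coordinates in `s` -/
def PolInj_D (s : Finset ι) (h : (ι → ℤ) → ℂ) : Prop :=
  ∀ x y : ι → ℤ, (∀ j ∈ s, x j = y j) → h x = h y

theorem PolInj_D_dif (s : Finset ι) (h : (ι → ℤ) → ℂ) (y : ι → ℤ) (hh : PolInj_D s h) :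
    PolInj_D s (dif y h) := by
  intro x x' hx
  unfold dif
  rw [hh x x' hx, hh (x + y) (x' + y) fun j hj => by rw [Pi.add_apply, Pi.add_apply, hx j hj]]

theorem PolInj_D_iter (s : Finset ι) (h : (ι → ℤ) → ℂ) (y : ι → ℤ) (hh : PolInj_D s h) (k : ℕ) :
    PolInj_D s ((dif y)^[k] h) := by
  induction k with
  | zero => exact hh
  | succ k ih =>
    rw [Function.iterate_succ_apply']
    exact PolInj_D_dif s _ _ ih

theorem PolInj_main [DecidableEq ι] (d : ℕ) (s : Finset ι) : ∀ h : (ι → ℤ) → ℂ,
    PolInj_K d h → PolInj_D s h → ∃ p : MvPolynomial ι ℂ, ∀ x, h x = evZ x p := by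
  induction s using Finset.induction_on with
  | empty =>
    intro h _ hD
    refine ⟨MvPolynomial.C (h 0), fun x => ?_⟩
    unfold evZ
    rw [MvPolynomial.eval_C]
    exact hD x 0 fun j hj => absurd hj (Finset.notMem_empty j)
  | insert i s hi ih =>
    intro h hK hD
    have h1 : ∀ k : ℕ, ∃ p : MvPolynomial ι ℂ, ∀ x,
        ((dif (Pi.single i 1))^[k] h) (Function.update x i 0) = evZ x p := by
      intro k
      refine ih (fun x => ((dif (Pi.single i 1))^[k] h) (Function.update x i 0)) ?_ ?_
      · refine PolInj_K_comp (fun x => Function.update x i 0) ?_ d _ (PolInj_K_iter d h _ hK k)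
        intro x y
        funext j
        by_cases hj : j = i
        · subst hj
          simp
        · simp [Function.update_of_ne hj]
      · intro x y hxy
        refine PolInj_D_iter _ h _ hD k _ _ fun j hj => ?_
        by_cases hji : j = i
        · subst hji
          simp
        · rw [Function.update_of_ne hji, Function.update_of_ne hji]
          exact hxy j ((Finset.mem_insert.1 hj).resolve_left hji)
    choose P hP using h1
    refine ⟨∑ k ∈ Finset.range d, Polynomial.aeval (MvPolynomial.X i) (PolInj_b k) * P k,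
      fun x => ?_⟩
    rw [PolInj_newton i d h (PolInj_K_vanish d h _ hK) x]
    unfold evZ
    rw [map_sum]
    refine Finset.sum_congr rfl fun k _ => ?_
    rw [map_mul, hP k x]
    congr 1
    have h2 : MvPolynomial.eval (fun i => ((x i : ℤ) : ℂ))
        (Polynomial.aeval (MvPolynomial.X i : MvPolynomial ι ℂ) (PolInj_b k)) =
        Polynomial.aeval (((x i : ℤ) : ℂ)) (PolInj_b k) := by
      have h3 := Polynomial.aeval_algHom_apply
        (MvPolynomial.aeval (fun i => ((x i : ℤ) : ℂ)) : MvPolynomial ι ℂ →ₐ[ℂ] ℂ)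
        (MvPolynomial.X i) (PolInj_b k)
      rw [MvPolynomial.aeval_X] at h3
      exact h3.symm
    rw [h2, Polynomial.coe_aeval_eq_eval]

theorem pol_fun [Finite ι] (d : ℕ) (h : (ι → ℤ) → ℂ)
    (hd : ∀ y : Fin d → (ι → ℤ), (List.ofFn y).foldr dif h = 0) :
    ∃ p : MvPolynomial ι ℂ, ∀ x, h x = evZ x p := by
  classical
  have := Fintype.ofFinite ι
  refine PolInj_main d Finset.univ h (PolInj_K_of_foldr d h hd) fun x y hxy => ?_
  rw [funext fun j => hxy j (Finset.mem_univ j)]

end

end Pool.Agent.Lib.MP_ca1492_al.P
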