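import Mathlib
import Pool.Agent.Lib.MP_ca1492_al.P.Base
import Pool.Agent.Lib.MP_ca1492_al.P.PolInj

/-!
# MP_ca1492_al, p-adic side, module PolInj2: injectivity of the polynomials

`pol_inj` (injectivity): by Baer's criterion (`Module.Baer.injective`) for the noetherian
commutative ring `R = MonoidAlgebra ℂ (Multiplicative (ι → ℤ))` and the `R`-module of polynomials,
or directly by Zorn: it is enough to extend `g : I → Pol` from an ideal `I` to `R`. Let `𝔪` be the
augmentation ideal (generated by the `x - 1`); every polynomial is killed by a power of `𝔪`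
(`shiftP x - 1` lowers the degree), and `I` is finitely generated, so `g` kills `𝔪^N I` for some `N`.
By Artin-Rees (`Ideal.exists_pow_inf_eq_pow_smul`) there is `k` with `𝔪^k ∩ I ⊆ 𝔪^N I`. The linear
form `λ(a) = (g a)(0)` on `I` vanishes on `𝔪^k ∩ I`, so it extends to a linear form `λ'` on `R`
vanishing on `𝔪^k`. For `r ∈ R` the function `x ↦ λ'(x r)` on `ℤ^n` is killed by products of `k`
difference operators, so it is a polynomial `G(r)` (`pol_fun`), unique, linear in `r`, and
`G(y r) = shiftP y (G r)`; for `a ∈ I`: `G(a)(x) = λ(x a) = (g (x a))(0) = (shiftP x (g a))(0) = (g a)(x)`.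
(`R` is noetherian: a localization of, or a quotient of, a polynomial ring; finitely generated
algebra `Algebra.FiniteType`.)
`pol_retract`: apply `pol_inj` to `E` = all functions on `ℤ^n` with `(y h)(x) = h (x + y)`, `U` the
polynomial functions and `f` the inverse of `p ↦ (x ↦ evZ x p)` (`evZ_ext`, `evZ_shift`).
-/

set_option autoImplicit false

namespace Pool.Agent.Lib.MP_ca1492_al.P

open MvPolynomial

noncomputable section

variable {ι : Type}

/-- the group algebra of `ℤ^ι` -/
abbrev PolInj2_A (ι : Type) : Type := MonoidAlgebra ℂ (Multiplicative (ι → ℤ))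

/-- the polynomials as a module over the group algebra -/
abbrev PolInj2_Q (ι : Type) : Type := (polRep ι).asModule

/-- the augmentation ideal -/
def PolInj2_m (ι : Type) : Ideal (PolInj2_A ι) :=
  Ideal.span (Set.range fun x : Multiplicative (ι → ℤ) =>
    (MonoidAlgebra.single x (1 : ℂ) - 1 : PolInj2_A ι))

/-- a polynomial as an element of the module -/
abbrev PolInj2_t (p : MvPolynomial ι ℂ) : PolInj2_Q ι := p

theorem PolInj2_single (x : ι → ℤ) (c : ℂ) (p : MvPolynomial ι ℂ) :
    (MonoidAlgebra.single (Multiplicative.ofAdd x) c : PolInj2_A ι) • (PolInj2_t p) =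
      PolInj2_t (c • shiftP x p) :=
  Representation.single_smul (ρ := polRep ι) c (Multiplicative.ofAdd x) p

/-- the filtration of the polynomials by the powers of the augmentation ideal -/
def PolInj2_K (ι : Type) : ℕ → Submodule (PolInj2_A ι) (PolInj2_Q ι)
  | 0 => ⊥
  | d + 1 =>
    { carrier := {p | ∀ a ∈ PolInj2_m ι, a • p ∈ PolInj2_K ι d}
      add_mem' := by
        intro p q hp hq a ha
        rw [smul_add]
        exact (PolInj2_K ι d).add_mem (hp a ha) (hq a ha)
      zero_mem' := by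
        intro a _
        rw [smul_zero]
        exact (PolInj2_K ι d).zero_mem
      smul_mem' := by
        intro c p hp a ha
        rw [smul_smul, mul_comm, ← smul_smul]
        exact (PolInj2_K ι d).smul_mem c (hp a ha) }

theorem PolInj2_K_succ (d : ℕ) (p : PolInj2_Q ι) :
    p ∈ PolInj2_K ι (d + 1) ↔ ∀ a ∈ PolInj2_m ι, a • p ∈ PolInj2_K ι d := Iff.rfl

theorem PolInj2_K_of (d : ℕ) (p : MvPolynomial ι ℂ)
    (h : ∀ x : ι → ℤ, PolInj2_t (shiftP x p - p) ∈ PolInj2_K ι d) :
    PolInj2_t p ∈ PolInj2_K ι (d + 1) := by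
  rw [PolInj2_K_succ]
  have h1 : PolInj2_m ι ≤ (PolInj2_K ι d).comap
      (LinearMap.toSpanSingleton (PolInj2_A ι) (PolInj2_Q ι) (PolInj2_t p)) := by
    unfold PolInj2_m
    rw [Ideal.span, Submodule.span_le]
    rintro _ ⟨x, rfl⟩
    change (MonoidAlgebra.single x (1 : ℂ) - 1 : PolInj2_A ι) • (PolInj2_t p) ∈ PolInj2_K ι d
    have h2 := PolInj2_single (Multiplicative.toAdd x) 1 p
    rw [one_smul, ofAdd_toAdd] at h2
    rw [sub_smul, one_smul, h2]
    exact h _
  intro a ha
  exact h1 ha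

theorem PolInj2_K_sub (d : ℕ) (p : MvPolynomial ι ℂ) (h : PolInj2_t p ∈ PolInj2_K ι (d + 1))
    (x : ι → ℤ) : PolInj2_t (shiftP x p - p) ∈ PolInj2_K ι d := by
  have h1 := h (MonoidAlgebra.single (Multiplicative.ofAdd x) (1 : ℂ) - 1 : PolInj2_A ι)
    (Ideal.subset_span ⟨_, rfl⟩)
  rw [sub_smul, one_smul, PolInj2_single, one_smul] at h1
  exact h1

theorem PolInj2_K_shift (d : ℕ) (p : MvPolynomial ι ℂ) (h : PolInj2_t p ∈ PolInj2_K ι d)
    (x : ι → ℤ) (c : ℂ) : PolInj2_t (c • shiftP x p) ∈ PolInj2_K ι d := by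
  have h1 := (PolInj2_K ι d).smul_mem
    (MonoidAlgebra.single (Multiplicative.ofAdd x) c : PolInj2_A ι) h
  rw [PolInj2_single] at h1
  exact h1

theorem PolInj2_K_le (d : ℕ) : PolInj2_K ι d ≤ PolInj2_K ι (d + 1) := by
  induction d with
  | zero => exact bot_le
  | succ d ih =>
    intro p hp a ha
    exact ih (hp a ha)

theorem PolInj2_K_mono {d e : ℕ} (h : d ≤ e) : PolInj2_K ι d ≤ PolInj2_K ι e :=
  monotone_nat_of_le_succ PolInj2_K_le h

theorem PolInj2_shift_mul (x : ι → ℤ) (p : MvPolynomial ι ℂ) (i : ι) :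
    shiftP x (p * X i) = shiftP x p * (X i + C (x i : ℂ)) := by
  unfold shiftP
  rw [AlgHom.toLinearMap_apply, AlgHom.toLinearMap_apply, map_mul, MvPolynomial.aeval_X]

theorem PolInj2_shift_C (x : ι → ℤ) (a : ℂ) :
    shiftP x (C a : MvPolynomial ι ℂ) = C a := by
  unfold shiftP
  rw [AlgHom.toLinearMap_apply, ← MvPolynomial.algebraMap_eq, AlgHom.commutes]

theorem PolInj2_K_mul (d : ℕ) (i : ι) : ∀ p : MvPolynomial ι ℂ,
    PolInj2_t p ∈ PolInj2_K ι d → PolInj2_t (p * X i) ∈ PolInj2_K ι (d + 1) := by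
  induction d with
  | zero =>
    intro p hp
    have h0 : PolInj2_t p = 0 := (Submodule.mem_bot (PolInj2_A ι)).1 hp
    have h1 : p = 0 := h0
    rw [h1, zero_mul]
    exact (PolInj2_K ι 1).zero_mem
  | succ d ih =>
    intro p hp
    refine PolInj2_K_of _ _ fun x => ?_
    have h1 : (shiftP x (p * X i) - p * X i : MvPolynomial ι ℂ) =
        (shiftP x p - p) * X i + (x i : ℂ) • shiftP x p := by
      rw [PolInj2_shift_mul, MvPolynomial.smul_eq_C_mul]
      ring
    rw [h1]
    exact (PolInj2_K ι (d + 1)).add_mem (ih _ (PolInj2_K_sub d p hp x))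
      (PolInj2_K_shift (d + 1) p hp x _)

theorem PolInj2_exists (p : MvPolynomial ι ℂ) : ∃ d, PolInj2_t p ∈ PolInj2_K ι d := by
  induction p using MvPolynomial.induction_on with
  | C a =>
    refine ⟨1, PolInj2_K_of 0 _ fun x => ?_⟩
    rw [PolInj2_shift_C, sub_self]
    exact (PolInj2_K ι 0).zero_mem
  | add p q hp hq =>
    obtain ⟨d, hd⟩ := hp
    obtain ⟨e, he⟩ := hq
    exact ⟨max d e, (PolInj2_K ι (max d e)).add_mem (PolInj2_K_mono (le_max_left d e) hd)
      (PolInj2_K_mono (le_max_right d e) he)⟩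
  | mul_X p i hp =>
    obtain ⟨d, hd⟩ := hp
    exact ⟨d + 1, PolInj2_K_mul d i p hd⟩

theorem PolInj2_kill (d : ℕ) : ∀ p : PolInj2_Q ι, p ∈ PolInj2_K ι d →
    ∀ a ∈ PolInj2_m ι ^ d, a • p = 0 := by
  induction d with
  | zero =>
    intro p hp a _
    have h0 : p = 0 := (Submodule.mem_bot (PolInj2_A ι)).1 hp
    rw [h0, smul_zero]
  | succ d ih =>
    intro p hp a ha
    rw [pow_succ] at ha
    refine Submodule.mul_induction_on ha (fun b hb c hc => ?_) (fun b c hb hc => ?_)
    · rw [← smul_smul]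
      exact ih _ (hp c hc) b hb
    · rw [add_smul, hb, hc, add_zero]

theorem PolInj2_noeth (ι : Type) [Finite ι] : IsNoetherianRing (PolInj2_A ι) := by
  have : AddMonoid.FG (ι → ℤ) := by
    rw [← AddGroup.fg_iff_addMonoid_fg]
    exact Module.Finite.iff_addGroup_fg.1 inferInstance
  exact Algebra.FiniteType.isNoetherianRing ℂ (PolInj2_A ι)

/-- the function `x ↦ ψ (x a)` -/
def PolInj2_h (ψ : PolInj2_A ι →ₗ[ℂ] ℂ) (a : PolInj2_A ι) : (ι → ℤ) → ℂ :=
  fun x => ψ (MonoidAlgebra.single (Multiplicative.ofAdd x) 1 * a)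

theorem PolInj2_foldr (ψ : PolInj2_A ι →ₗ[ℂ] ℂ) (ys : List (ι → ℤ)) :
    ∃ b ∈ PolInj2_m ι ^ ys.length, ys.foldr dif (PolInj2_h ψ 1) = PolInj2_h ψ b := by
  induction ys with
  | nil =>
    refine ⟨1, ?_, rfl⟩
    rw [List.length_nil, pow_zero, Ideal.one_eq_top]
    trivial
  | cons y ys ih =>
    obtain ⟨b, hb, he⟩ := ih
    refine ⟨(MonoidAlgebra.single (Multiplicative.ofAdd y) (1 : ℂ) - 1) * b, ?_, ?_⟩
    · rw [List.length_cons, pow_succ, mul_comm (PolInj2_m ι ^ ys.length)]
      exact Ideal.mul_mem_mul (Ideal.subset_span ⟨_, rfl⟩) hb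
    · rw [List.foldr_cons, he]
      funext x
      unfold dif PolInj2_h
      rw [← map_sub]
      congr 1
      have h1 : (MonoidAlgebra.single (Multiplicative.ofAdd (x + y)) (1 : ℂ) : PolInj2_A ι) =
          MonoidAlgebra.single (Multiplicative.ofAdd x) 1 *
            MonoidAlgebra.single (Multiplicative.ofAdd y) 1 := by
        rw [MonoidAlgebra.single_mul_single, one_mul, ofAdd_add]
      rw [h1]
      ring

theorem PolInj2_baer (ι : Type) [Finite ι] : Module.Baer (PolInj2_A ι) (PolInj2_Q ι) := by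
  classical
  intro I g
  have := PolInj2_noeth ι
  -- the image of `g` lies in some `K N`
  obtain ⟨N, hN⟩ : ∃ N, ∀ (a : PolInj2_A ι) (ha : a ∈ I), g ⟨a, ha⟩ ∈ PolInj2_K ι N := by
    obtain ⟨s, hs⟩ := (isNoetherianRing_iff_ideal_fg (PolInj2_A ι)).1 inferInstance I
    have h1 : ∀ y : PolInj2_A ι, ∃ d, ∀ hy : y ∈ I, g ⟨y, hy⟩ ∈ PolInj2_K ι d := by
      intro y
      by_cases hy : y ∈ I
      · obtain ⟨d, hd⟩ := PolInj2_exists (g ⟨y, hy⟩)
        exact ⟨d, fun _ => hd⟩
      · exact ⟨0, fun h => absurd h hy⟩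
    choose d hd using h1
    refine ⟨s.sup d, ?_⟩
    have h2 : Ideal.span (s : Set (PolInj2_A ι)) ≤
        Submodule.map I.subtype ((PolInj2_K ι (s.sup d)).comap g) := by
      rw [Ideal.span, Submodule.span_le]
      intro y hy
      have hyI : y ∈ I := by
        rw [← hs]
        exact Ideal.subset_span hy
      exact ⟨⟨y, hyI⟩, PolInj2_K_mono (Finset.le_sup (Finset.mem_coe.1 hy)) (hd y hyI), rfl⟩
    intro a ha
    have ha' : a ∈ Ideal.span (s : Set (PolInj2_A ι)) := by
      rw [hs]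
      exact ha
    obtain ⟨⟨b, hb⟩, hb1, hb2⟩ := h2 ha'
    have hb3 : b = a := hb2
    subst hb3
    exact hb1
  -- Artin-Rees
  obtain ⟨k, hk⟩ := Ideal.exists_pow_inf_eq_pow_smul (PolInj2_m ι) I
  have hk2 := hk (N + k) (by omega)
  have hzero : ∀ (a : PolInj2_A ι) (ha : a ∈ I), a ∈ PolInj2_m ι ^ (N + k) → g ⟨a, ha⟩ = 0 := by
    intro a ha ham
    have h1 : a ∈ PolInj2_m ι ^ (N + k) • (⊤ : Submodule (PolInj2_A ι) (PolInj2_A ι)) ⊓ I := by
      refine ⟨?_, ha⟩
      have h2 := Submodule.smul_mem_smul ham (Submodule.mem_top (x := (1 : PolInj2_A ι)) (R := PolInj2_A ι))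
      have h3 : a • (1 : PolInj2_A ι) = a := by rw [smul_eq_mul, mul_one]
      rw [h3] at h2
      exact h2
    rw [hk2, Nat.add_sub_cancel] at h1
    have h3 : PolInj2_m ι ^ N • (PolInj2_m ι ^ k • (⊤ : Submodule (PolInj2_A ι) (PolInj2_A ι)) ⊓ I) ≤
        Submodule.map I.subtype (LinearMap.ker g) := by
      rw [Submodule.smul_le]
      intro r hr n hn
      have h4 : r • (⟨n, hn.2⟩ : I) ∈ LinearMap.ker g := by
        rw [LinearMap.mem_ker, LinearMap.map_smul]
        exact PolInj2_kill N _ (hN n hn.2) r hr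
      have h5 := Submodule.mem_map_of_mem (f := I.subtype) h4
      rw [LinearMap.map_smul] at h5
      exact h5
    obtain ⟨⟨b, hb⟩, hb1, hb2⟩ := h3 h1
    have hb3 : b = a := hb2
    subst hb3
    exact hb1
  -- the linear form
  let J : Submodule ℂ (PolInj2_A ι) := (PolInj2_m ι ^ (N + k)).restrictScalars ℂ
  let lam : I →ₗ[ℂ] ℂ :=
    { toFun := fun x => evZ 0 (g x)
      map_add' := by
        intro x y
        rw [map_add]
        exact map_add (MvPolynomial.eval _) _ _
      map_smul' := by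
        intro c x
        have h1 : g (c • x) = c • g x := by
          have h2 : c • x = (algebraMap ℂ (PolInj2_A ι) c) • x := (algebraMap_smul _ c x).symm
          rw [h2, map_smul, algebraMap_smul]
        rw [h1]
        exact MvPolynomial.smul_eval _ _ _ }
  let f : I →ₗ[ℂ] (PolInj2_A ι ⧸ J) := J.mkQ ∘ₗ (I.subtype.restrictScalars ℂ)
  have hker : LinearMap.ker f ≤ LinearMap.ker lam := by
    intro x hx
    rw [LinearMap.mem_ker] at hx ⊢
    have h1 : (x : PolInj2_A ι) ∈ J := by
      rw [← Submodule.Quotient.mk_eq_zero]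
      exact hx
    have h2 : g x = 0 := hzero x.1 x.2 h1
    change evZ 0 (g x) = 0
    rw [h2]
    exact map_zero (MvPolynomial.eval _)
  obtain ⟨φ, hφ⟩ : ∃ φ : Module.Dual ℂ (PolInj2_A ι ⧸ J), f.dualMap φ = lam := by
    have h1 : lam ∈ LinearMap.range f.dualMap := by
      rw [LinearMap.range_dualMap_eq_dualAnnihilator_ker, Submodule.mem_dualAnnihilator]
      intro w hw
      exact hker hw
    exact h1
  let ψ : PolInj2_A ι →ₗ[ℂ] ℂ := φ ∘ₗ J.mkQ
  have hψJ : ∀ a ∈ PolInj2_m ι ^ (N + k), ψ a = 0 := by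
    intro a ha
    change φ (J.mkQ a) = 0
    have h1 : J.mkQ a = 0 := (Submodule.Quotient.mk_eq_zero J).2 ha
    rw [h1, map_zero]
  have hψI : ∀ (a : PolInj2_A ι) (ha : a ∈ I), ψ a = evZ 0 (g ⟨a, ha⟩) := by
    intro a ha
    have h1 := congrArg (fun l : I →ₗ[ℂ] ℂ => l ⟨a, ha⟩) hφ
    exact h1
  -- the polynomial
  obtain ⟨p, hp⟩ := pol_fun (N + k) (PolInj2_h ψ 1) (by
    intro y
    obtain ⟨b, hb, he⟩ := PolInj2_foldr ψ (List.ofFn y)
    rw [he]
    rw [List.length_ofFn] at hb
    funext x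
    exact hψJ _ (Ideal.mul_mem_left _ _ hb))
  have key : ∀ (a : PolInj2_A ι) (x : ι → ℤ),
      evZ x (a • (PolInj2_t p)) = PolInj2_h ψ a x := by
    intro a x
    induction a using MonoidAlgebra.induction_linear with
    | zero =>
      rw [zero_smul]
      unfold PolInj2_h
      rw [mul_zero, map_zero]
      exact map_zero (MvPolynomial.eval _)
    | add a b ha hb =>
      rw [add_smul]
      unfold PolInj2_h at ha hb ⊢
      rw [mul_add, map_add, ← ha, ← hb]
      exact map_add (MvPolynomial.eval _) _ _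
    | single y c =>
      have h1 := PolInj2_single (Multiplicative.toAdd y) c p
      rw [ofAdd_toAdd] at h1
      rw [h1]
      have h3 : evZ x (c • shiftP (Multiplicative.toAdd y) p) =
          c * evZ x (shiftP (Multiplicative.toAdd y) p) := MvPolynomial.smul_eval _ _ _
      rw [h3, evZ_shift, ← hp]
      unfold PolInj2_h
      rw [mul_one, MonoidAlgebra.single_mul_single, one_mul, ofAdd_add, ofAdd_toAdd]
      have h4 : (MonoidAlgebra.single (Multiplicative.ofAdd x * y) c : PolInj2_A ι) =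
          c • MonoidAlgebra.single (Multiplicative.ofAdd x * y) 1 := by
        rw [MonoidAlgebra.smul_single, smul_eq_mul, mul_one]
      rw [h4, map_smul, smul_eq_mul]
  refine ⟨LinearMap.toSpanSingleton (PolInj2_A ι) (PolInj2_Q ι) (PolInj2_t p), fun a ha => ?_⟩
  rw [LinearMap.toSpanSingleton_apply]
  refine evZ_ext _ _ fun x => ?_
  rw [key]
  unfold PolInj2_h
  have ha2 : MonoidAlgebra.single (Multiplicative.ofAdd x) 1 * a ∈ I := Ideal.mul_mem_left _ _ ha
  rw [hψI _ ha2]
  have h5 : g ⟨MonoidAlgebra.single (Multiplicative.ofAdd x) 1 * a, ha2⟩ =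
      (MonoidAlgebra.single (Multiplicative.ofAdd x) (1 : ℂ) : PolInj2_A ι) • g ⟨a, ha⟩ := by
    rw [← map_smul]
    rfl
  have h6 := PolInj2_single x 1 (g ⟨a, ha⟩)
  rw [one_smul] at h6
  rw [h5]
  exact (congrArg (evZ 0) h6).trans ((evZ_shift 0 x _).trans (by rw [zero_add]))

theorem pol_inj [Finite ι] (E : Type) [AddCommGroup E] [Module ℂ E]
    (ρ : Representation ℂ (Multiplicative (ι → ℤ)) E) (U : Submodule ℂ E) (hU : Stab ρ U)
    (f : U →ₗ[ℂ] MvPolynomial ι ℂ) (hf : Equi (subRep ρ U hU) (polRep ι) f) :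
    ∃ g : E →ₗ[ℂ] MvPolynomial ι ℂ, Equi ρ (polRep ι) g ∧ ∀ u : U, g u = f u := by
  let i0 : (subRep ρ U hU).asModule →ₗ[ℂ] ρ.asModule := U.subtype
  let f0 : (subRep ρ U hU).asModule →ₗ[ℂ] (polRep ι).asModule := f
  let i : (subRep ρ U hU).asModule →ₗ[PolInj2_A ι] ρ.asModule :=
    MonoidAlgebra.equivariantOfLinearOfComm i0 (by
      intro x v
      rw [Representation.single_smul, Representation.single_smul, one_smul, one_smul]
      rfl)
  let f1 : (subRep ρ U hU).asModule →ₗ[PolInj2_A ι] (polRep ι).asModule :=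
    MonoidAlgebra.equivariantOfLinearOfComm f0 (by
      intro x v
      rw [Representation.single_smul, Representation.single_smul, one_smul, one_smul]
      exact hf x v)
  have hi : Function.Injective i := fun a b hab => Subtype.ext hab
  obtain ⟨h, hh⟩ := (PolInj2_baer ι).extension_property i hi f1
  let g : E →ₗ[ℂ] MvPolynomial ι ℂ := h.restrictScalars ℂ
  refine ⟨g, fun x v => ?_, fun u => ?_⟩
  · let v' : ρ.asModule := v
    have h1 := h.map_smul (MonoidAlgebra.single x (1 : ℂ)) v'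
    have h2 : (MonoidAlgebra.single x (1 : ℂ) : PolInj2_A ι) • v' = ρ x v := by
      rw [Representation.single_smul, one_smul]
      rfl
    have h3 : (MonoidAlgebra.single x (1 : ℂ) : PolInj2_A ι) • (h v') = polRep ι x (h v') := by
      rw [Representation.single_smul, one_smul]
      rfl
    rw [h2, h3] at h1
    exact h1
  · exact congrArg (fun l : (subRep ρ U hU).asModule →ₗ[PolInj2_A ι] (polRep ι).asModule => l u) hh

/-- equivariant retraction of the space of all functions on `ℤ^n` onto the polynomials -/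
theorem pol_retract [Finite ι] : ∃ r : ((ι → ℤ) → ℂ) →ₗ[ℂ] MvPolynomial ι ℂ,
    (∀ p : MvPolynomial ι ℂ, r (fun x => evZ x p) = p) ∧
    ∀ (y : ι → ℤ) (h : (ι → ℤ) → ℂ), r (fun x => h (x + y)) = shiftP y (r h) := by
  let ρ : Representation ℂ (Multiplicative (ι → ℤ)) ((ι → ℤ) → ℂ) :=
    { toFun := fun y =>
        { toFun := fun h x => h (x + Multiplicative.toAdd y)
          map_add' := fun _ _ => rfl
          map_smul' := fun _ _ => rfl }
      map_one' := by
        refine LinearMap.ext fun h => funext fun x => ?_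
        change h (x + 0) = h x
        rw [add_zero]
      map_mul' := by
        intro a b
        refine LinearMap.ext fun h => funext fun x => ?_
        change h (x + (Multiplicative.toAdd a + Multiplicative.toAdd b)) =
          h (x + Multiplicative.toAdd a + Multiplicative.toAdd b)
        rw [add_assoc] }
  let ev : MvPolynomial ι ℂ →ₗ[ℂ] ((ι → ℤ) → ℂ) :=
    { toFun := fun p x => evZ x p
      map_add' := fun p q => funext fun x => map_add (MvPolynomial.eval _) _ _
      map_smul' := fun c p => funext fun x => MvPolynomial.smul_eval _ _ _ }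
  have hev : Function.Injective ev := fun p q hpq => evZ_ext p q fun x => congrFun hpq x
  have hsh : ∀ (y : Multiplicative (ι → ℤ)) (p : MvPolynomial ι ℂ),
      ρ y (ev p) = ev (shiftP (Multiplicative.toAdd y) p) := by
    intro y p
    funext x
    exact (evZ_shift x (Multiplicative.toAdd y) p).symm
  let U : Submodule ℂ ((ι → ℤ) → ℂ) := LinearMap.range ev
  have hU : Stab ρ U := by
    rintro y _ ⟨p, rfl⟩
    rw [hsh]
    exact ⟨_, rfl⟩
  let e : MvPolynomial ι ℂ ≃ₗ[ℂ] U := LinearEquiv.ofInjective ev hev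
  have he : ∀ p (hp : ev p ∈ U), e.symm ⟨ev p, hp⟩ = p := by
    intro p hp
    rw [LinearEquiv.symm_apply_eq]
    rfl
  obtain ⟨r, hr1, hr2⟩ := pol_inj ((ι → ℤ) → ℂ) ρ U hU (e.symm : U →ₗ[ℂ] MvPolynomial ι ℂ) (by
    rintro y ⟨_, p, rfl⟩
    have h1 : (subRep ρ U hU y ⟨ev p, ⟨p, rfl⟩⟩ : U) =
        ⟨ev (shiftP (Multiplicative.toAdd y) p), ⟨_, rfl⟩⟩ := Subtype.ext (hsh y p)
    exact (congrArg e.symm h1).trans ((he _ _).trans
      (congrArg (shiftP (Multiplicative.toAdd y)) (he p _).symm)))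
  refine ⟨r, fun p => ?_, fun y h => ?_⟩
  · have h1 := hr2 ⟨ev p, ⟨p, rfl⟩⟩
    exact h1.trans (he p _)
  · exact hr1 (Multiplicative.ofAdd y) h

end

end Pool.Agent.Lib.MP_ca1492_al.P
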