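import Mathlib
import Pool.Agent.Lib.MP_ca1492_al.P.CuspInj2
import Pool.Agent.Lib.MP_ca1492_al.P.PolInj2

/-!
# MP_ca1492_al, p-adic side, module HatInj: `ρ ⊗ polynomials` is injective

`hat c π` on `V ⊗ ℂ[u_x]`, `m` acts by `π m ⊗ shiftP (vl c m)`.

`hat_smooth`: pure tensors `v ⊗ p` are fixed by `stabV v ∩ Kl 0` (`vl_Kc`).

`hat_inj`. Let `U ≤ E` be stable, `E` a smooth representation of `M = lev c`, `f : U → V ⊗ Pol`
equivariant. For `x ∈ ℤ^ι` choose `m_x ∈ M` with `vl m_x = x` (`vl_surj`, `c` surjective).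
(1) `f₀ = (id ⊗ ev_0) ∘ f : U → V` is equivariant for `M⁰ = lev0 c`; extend it to an `M⁰`-equivariant
    `F₀ : E → V` (`cusp0_inj`; `U` with the restricted action is a stable subspace for `M⁰`).
(2) For `e ∈ E` put `Φ_e(x) = π(m_x)⁻¹ F₀(e_x)`, `e_x = ` (`m_x` applied to `e`); it does not depend
    on the choice of `m_x` (two choices differ by an element of `M⁰`). If `K ≤ M⁰` is open, normal in
    a sense to be made precise, and fixes `e`: for `k ∈ K`, `π(k) Φ_e(x) = π(m_x)⁻¹ π(m_x k m_x⁻¹) F₀(m_x e)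
    = π(m_x)⁻¹ F₀(m_x k e) = Φ_e(x)` as `m_x k m_x⁻¹ ∈ M⁰`. So all values `Φ_e(x)` lie in the finite
    dimensional space `fix π K` (admissible), `K` any open subgroup of `M⁰` fixing `e`.
(3) Let `b` be a basis of `V` (`Module.Basis.ofVectorSpace`), `r` the retraction of `pol_retract`. For a
    function `Φ : ℤ^ι → V` with values in a finite dimensional subspace put
    `R(Φ) = Σ_j b_j ⊗ r(x ↦ b_j^*(Φ x))`; only finitely many `j` contribute (the coordinates of a
    finite dimensional subspace involve finitely many basis vectors). `R` is linear on such functions,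
    `R(x ↦ (id ⊗ ev_x) t) = t` for `t ∈ V ⊗ Pol`, `R(T ∘ Φ) = (T ⊗ id) R(Φ)` for linear `T : V → V`, and
    `R(x ↦ Φ(x + y)) = (id ⊗ shiftP y) R(Φ)`.
(4) `F e = R(Φ_e)`. Equivariance: for `m ∈ M` with `vl m = y`: `Φ_{m e}(x) = π(m) Φ_e(x + y)` (take
    `m_x m` as the choice for `x + y`: `Φ_e(x+y) = π(m_x m)⁻¹ F₀(m_x m e)`), so
    `F(m e) = (π m ⊗ shiftP y) F(e)`. For `e ∈ U`: `Φ_e(x) = π(m_x)⁻¹ (id ⊗ ev_0) f(m_x e)
    = (id ⊗ ev_0)(id ⊗ shiftP x) f(e) = (id ⊗ ev_x) f(e)`, so `F e = f e`.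
-/

set_option autoImplicit false

namespace Pool.Agent.Lib.MP_ca1492_al.P

open Topology Matrix ValuativeRel TensorProduct

noncomputable section

set_option linter.unusedSectionVars false

variable {F : Type} [Field F] [ValuativeRel F] [TopologicalSpace F]
  [IsNonarchimedeanLocalField F]
variable {κ : Type} [Fintype κ] [DecidableEq κ]
variable {V : Type} [AddCommGroup V] [Module ℂ V]
variable {ι : Type} [DecidableEq ι] (c : κ → ι) (π : Representation ℂ (lev F c) V)

/-- `π ⊗ ℂ[u]`, the group acts on polynomials by translation by the block valuations -/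
def hat : Representation ℂ (lev F c) (V ⊗[ℂ] MvPolynomial ι ℂ) where
  toFun m := TensorProduct.map (π m) (shiftP (vl c m.1))
  map_one' := by
    have h : vl c ((1 : lev F c) : GL κ F) = 0 := by
      funext x
      exact vl_one c x
    rw [h, shiftP_zero, map_one]
    exact TensorProduct.map_id
  map_mul' := by
    intro a b
    have h : vl c ((a * b : lev F c) : GL κ F) = vl c a.1 + vl c b.1 := by
      funext x
      exact vl_mul c a.1 b.1 a.2 b.2 x
    rw [h, shiftP_add, map_mul]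
    exact TensorProduct.map_comp _ _ _ _

theorem hat_apply (m : lev F c) (t : V ⊗[ℂ] MvPolynomial ι ℂ) :
    hat c π m t = TensorProduct.map (π m) (shiftP (vl c m.1)) t := rfl

theorem hat_smooth (hπ : IsSm π) : IsSm (hat c π) := by
  intro t
  induction t using TensorProduct.induction_on with
  | zero =>
    have e : {g : lev F c | hat c π g 0 = 0} = Set.univ := by
      ext g
      exact ⟨fun _ => Set.mem_univ _, fun _ => map_zero _⟩
    rw [e]
    exact isOpen_univ
  | tmul v p =>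
    refine SmBasic_isOpen (hat c π) (v ⊗ₜ p) (stabV π v ⊓ Kl F c 0) ?_ ?_
    · exact IsOpen.inter (hπ v) (Kl_isOpen c 0)
    · rintro g ⟨h1, h2⟩
      have h3 : π g v = v := h1
      have h4 : vl c g.1 = 0 := by
        funext x
        exact vl_Kc c g.1 g.2 (Subgroup.mem_subgroupOf.1 h2) x
      rw [hat_apply, TensorProduct.map_tmul, h3, h4, shiftP_zero, LinearMap.id_apply]
  | add a b ha hb =>
    refine SmBasic_isOpen (hat c π) (a + b) (stabV (hat c π) a ⊓ stabV (hat c π) b) ?_ ?_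
    · exact IsOpen.inter ha hb
    · rintro g ⟨h1, h2⟩
      have h3 : hat c π g a = a := h1
      have h4 : hat c π g b = b := h2
      rw [map_add, h3, h4]

/-- evaluation at an integral point as a linear form -/
def HatInj_evL (x : ι → ℤ) : MvPolynomial ι ℂ →ₗ[ℂ] ℂ :=
  (MvPolynomial.aeval (fun i => (x i : ℂ))).toLinearMap

theorem HatInj_evL_apply (x : ι → ℤ) (p : MvPolynomial ι ℂ) : HatInj_evL x p = evZ x p := rfl

/-- partial evaluation -/
def HatInj_E (V : Type) [AddCommGroup V] [Module ℂ V] (x : ι → ℤ) :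
    V ⊗[ℂ] MvPolynomial ι ℂ →ₗ[ℂ] V :=
  (TensorProduct.rid ℂ V).toLinearMap ∘ₗ TensorProduct.map LinearMap.id (HatInj_evL x)

theorem HatInj_E_tmul (x : ι → ℤ) (v : V) (p : MvPolynomial ι ℂ) :
    HatInj_E V x (v ⊗ₜ p) = evZ x p • v := by
  simp [HatInj_E, HatInj_evL_apply]

theorem HatInj_E_map (x y : ι → ℤ) (T : V →ₗ[ℂ] V) (t : V ⊗[ℂ] MvPolynomial ι ℂ) :
    HatInj_E V x (TensorProduct.map T (shiftP y) t) = T (HatInj_E V (x + y) t) := by
  induction t using TensorProduct.induction_on with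
  | zero => simp
  | tmul v p =>
    rw [TensorProduct.map_tmul, HatInj_E_tmul, HatInj_E_tmul, evZ_shift, map_smul]
  | add a b ha hb => rw [map_add, map_add, map_add, map_add, ha, hb]

/-- `v ⊗ h ↦ (x ↦ h x • v)` -/
def HatInj_J (V : Type) [AddCommGroup V] [Module ℂ V] (X : Type) :
    V ⊗[ℂ] (X → ℂ) →ₗ[ℂ] (X → V) :=
  TensorProduct.lift
    { toFun := fun v =>
        { toFun := fun h x => h x • v
          map_add' := fun a b => by
            funext x
            exact add_smul _ _ _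
          map_smul' := fun a b => by
            funext x
            exact mul_smul _ _ _ }
      map_add' := fun a b => by
        ext h x
        exact smul_add _ _ _
      map_smul' := fun a b => by
        ext h x
        exact smul_comm _ _ _ }

theorem HatInj_J_tmul {X : Type} (v : V) (h : X → ℂ) (x : X) :
    HatInj_J V X (v ⊗ₜ h) x = h x • v := rfl

theorem HatInj_J_coord {X κ' : Type} [DecidableEq κ'] (b : Module.Basis κ' ℂ V) (t : V ⊗[ℂ] (X → ℂ)) (x : X)
    (j : κ') : b.repr (HatInj_J V X t x) j = TensorProduct.equivFinsuppOfBasisLeft b t j x := by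
  induction t using TensorProduct.induction_on with
  | zero => simp
  | tmul v h =>
    rw [HatInj_J_tmul, TensorProduct.equivFinsuppOfBasisLeft_apply_tmul_apply, map_smul,
      Finsupp.smul_apply, Pi.smul_apply, smul_eq_mul, smul_eq_mul, mul_comm]
  | add a b ha hb =>
    rw [map_add, map_add, Pi.add_apply, map_add, Finsupp.add_apply, Finsupp.add_apply,
      Pi.add_apply, ha, hb]

theorem HatInj_J_inj (X : Type) : Function.Injective (HatInj_J V X) := by
  classical
  rw [← LinearMap.ker_eq_bot, LinearMap.ker_eq_bot']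
  intro t ht
  let b := Module.Basis.ofVectorSpace ℂ V
  have h1 : TensorProduct.equivFinsuppOfBasisLeft b t = 0 := by
    ext j x
    rw [← HatInj_J_coord b t x j, ht]
    simp
  exact (LinearEquiv.map_eq_zero_iff _).1 h1

theorem HatInj_J_range {X : Type} (Φ : X → V) (D : Submodule ℂ V) [FiniteDimensional ℂ D]
    (h : ∀ x, Φ x ∈ D) : Φ ∈ LinearMap.range (HatInj_J V X) := by
  classical
  let b := Module.finBasis ℂ D
  refine ⟨∑ i, (b i : V) ⊗ₜ (fun x => b.repr ⟨Φ x, h x⟩ i), ?_⟩
  funext x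
  rw [map_sum, Finset.sum_apply]
  have h1 := b.sum_repr ⟨Φ x, h x⟩
  have h2 := congrArg (fun y : D => (y : V)) h1
  simp only [Submodule.coe_sum, Submodule.coe_smul] at h2
  rw [← h2]
  rfl

/-- translation of functions -/
def HatInj_tr (y : ι → ℤ) : ((ι → ℤ) → ℂ) →ₗ[ℂ] ((ι → ℤ) → ℂ) where
  toFun h x := h (x + y)
  map_add' _ _ := rfl
  map_smul' _ _ := rfl

theorem HatInj_J_map (y x : ι → ℤ) (T : V →ₗ[ℂ] V) (t : V ⊗[ℂ] ((ι → ℤ) → ℂ)) :
    HatInj_J V _ (TensorProduct.map T (HatInj_tr y) t) x = T (HatInj_J V _ t (x + y)) := by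
  induction t using TensorProduct.induction_on with
  | zero => simp
  | tmul v p =>
    rw [TensorProduct.map_tmul, HatInj_J_tmul, HatInj_J_tmul, map_smul]
    rfl
  | add a b ha hb =>
    rw [map_add, map_add, map_add, Pi.add_apply, Pi.add_apply, map_add, ha, hb]

/-- polynomials as functions -/
def HatInj_fun (ι : Type) : MvPolynomial ι ℂ →ₗ[ℂ] ((ι → ℤ) → ℂ) :=
  LinearMap.pi fun x => HatInj_evL x

theorem HatInj_fun_apply (p : MvPolynomial ι ℂ) (x : ι → ℤ) :
    HatInj_fun ι p x = evZ x p := rfl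

theorem HatInj_J_fun (x : ι → ℤ) (t : V ⊗[ℂ] MvPolynomial ι ℂ) :
    HatInj_J V _ (TensorProduct.map LinearMap.id (HatInj_fun ι) t) x = HatInj_E V x t := by
  induction t using TensorProduct.induction_on with
  | zero => simp
  | tmul v p =>
    rw [TensorProduct.map_tmul, HatInj_J_tmul, HatInj_E_tmul, HatInj_fun_apply]
    rfl
  | add a b ha hb => rw [map_add, map_add, map_add, Pi.add_apply, ha, hb]

theorem hat_inj [Finite ι] (hcs : Function.Surjective c) (hπ : IsSm π) (hi : Irr π)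
    (hc : Cusp c π) : IsInjSm (hat c π) := by
  intro E _ _ ρ hρ U hU f hf
  have hadm : Adm π := cusp_adm c π hπ hi hc
  -- the restriction to `M⁰`
  have hU0 : Stab (resLE (lev0_le c) ρ) U := fun g v hv => hU _ v hv
  have hρ0 : IsSm (resLE (lev0_le c) ρ) := smooth_resLE (lev0_le c) ρ hρ
  have hv0 : ∀ g : lev0 F c, vl c g.1 = 0 := fun g => funext fun x => g.2.2 x
  obtain ⟨F₀, hF₀, hF₀U⟩ := cusp0_inj c π hπ hi hc E (resLE (lev0_le c) ρ) hρ0 U hU0
    (HatInj_E V 0 ∘ₗ f) (by
      intro g u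
      have h1 := hf (Subgroup.inclusion (lev0_le c) g) u
      have h2 : subRep (resLE (lev0_le c) ρ) U hU0 g u =
        subRep ρ U hU (Subgroup.inclusion (lev0_le c) g) u := rfl
      rw [LinearMap.comp_apply, LinearMap.comp_apply, h2, h1, hat_apply, HatInj_E_map]
      have h3 : vl c (Subgroup.inclusion (lev0_le c) g).1 = 0 := hv0 g
      rw [h3, add_zero]
      rfl)
  -- representatives
  choose l hl using fun x : ι → ℤ => vl_surj (F := F) c hcs x
  let mx : (ι → ℤ) → lev F c := fun x => dial F c (l x)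
  have hmx : ∀ x, vl c (mx x).1 = x := hl
  let Φ : E →ₗ[ℂ] ((ι → ℤ) → V) := LinearMap.pi fun x => π (mx x)⁻¹ ∘ₗ F₀ ∘ₗ ρ (mx x)
  have hΦ : ∀ e x, Φ e x = π (mx x)⁻¹ (F₀ (ρ (mx x) e)) := fun _ _ => rfl
  have hF₀' : ∀ (h : lev F c), vl c h.1 = 0 → ∀ e, F₀ (ρ h e) = π h (F₀ e) := by
    intro h hh e
    exact hF₀ ⟨h.1, h.2, fun x => congrFun hh x⟩ e
  have hA : ∀ (m : lev F c) (e : E), Φ e (vl c m.1) = π m⁻¹ (F₀ (ρ m e)) := by
    intro m e
    set x := vl c m.1 with hx
    have h1 : vl c (m * (mx x)⁻¹).1 = 0 := by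
      funext z
      have h2 := vl_mul c m.1 ((mx x)⁻¹).1 m.2 ((mx x)⁻¹).2 z
      have h3 := vl_inv c (mx x).1 (mx x).2 z
      have h4 : ((mx x)⁻¹ : lev F c).1 = ((mx x).1)⁻¹ := rfl
      have h5 : (m * (mx x)⁻¹).1 = m.1 * ((mx x)⁻¹).1 := rfl
      rw [h5, h2, h4, h3, hmx, hx]
      simp
    have h2 := hF₀' _ h1 (ρ (mx x) e)
    have h3 : ρ (m * (mx x)⁻¹) (ρ (mx x) e) = ρ m e := by
      rw [← Module.End.mul_apply, ← map_mul]
      congr 2
      group
    rw [h3] at h2
    rw [h2, hΦ, ← Module.End.mul_apply, ← map_mul]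
    congr 3
    group
  have hK : ∀ e, Φ e ∈ LinearMap.range (HatInj_J V (ι → ℤ)) := by
    intro e
    let K : Subgroup (lev F c) := stabV ρ e ⊓ Kl F c 0
    have hKo : IsOpen (K : Set (lev F c)) := IsOpen.inter (hρ e) (Kl_isOpen c 0)
    have := hadm K hKo
    refine HatInj_J_range (Φ e) (fix π K) ?_
    intro x k hk
    have hk1 : ρ k e = e := hk.1
    have hk2 : vl c k.1 = 0 := by
      funext z
      exact vl_Kc c k.1 k.2 (Subgroup.mem_subgroupOf.1 hk.2) z
    have h1 : vl c (mx x * k⁻¹).1 = x := by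
      funext z
      have h2 := vl_mul c (mx x).1 (k⁻¹).1 (mx x).2 (k⁻¹).2 z
      have h3 := vl_inv c k.1 k.2 z
      have h4 : (k⁻¹ : lev F c).1 = (k.1)⁻¹ := rfl
      have h5 : (mx x * k⁻¹).1 = (mx x).1 * (k⁻¹).1 := rfl
      rw [h5, h2, h4, h3, hmx, hk2]
      simp
    have h2 := hA (mx x * k⁻¹) e
    rw [h1] at h2
    have h3 : ρ (mx x * k⁻¹) e = ρ (mx x) e := by
      rw [map_mul, Module.End.mul_apply]
      congr 1
      have h6 : ρ k⁻¹ (ρ k e) = e := by
        rw [← Module.End.mul_apply, ← map_mul, inv_mul_cancel, map_one]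
        rfl
      rw [hk1] at h6
      exact h6
    rw [h3] at h2
    have h4 : (mx x * k⁻¹)⁻¹ = k * (mx x)⁻¹ := by group
    rw [h4, map_mul, Module.End.mul_apply, ← hΦ] at h2
    exact h2.symm
  obtain ⟨r, hr1, hr2⟩ := pol_retract (ι := ι)
  let Je := LinearEquiv.ofInjective (HatInj_J V (ι → ℤ)) (HatInj_J_inj (V := V) (ι → ℤ))
  obtain ⟨τ, hτ⟩ : ∃ τ : E →ₗ[ℂ] V ⊗[ℂ] ((ι → ℤ) → ℂ),
      ∀ e, HatInj_J V (ι → ℤ) (τ e) = Φ e := by
    refine ⟨(Je.symm : _ →ₗ[ℂ] V ⊗[ℂ] ((ι → ℤ) → ℂ)) ∘ₗ LinearMap.codRestrict _ Φ hK, ?_⟩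
    intro e
    have h1 : Je (Je.symm ⟨Φ e, hK e⟩) = ⟨Φ e, hK e⟩ := Je.apply_symm_apply _
    exact congrArg Subtype.val h1
  refine ⟨TensorProduct.map LinearMap.id r ∘ₗ τ, ?_, ?_⟩
  · intro m e
    have h1 : τ (ρ m e) = TensorProduct.map (π m) (HatInj_tr (vl c m.1)) (τ e) := by
      apply HatInj_J_inj (V := V) (ι → ℤ)
      rw [hτ]
      funext x
      rw [HatInj_J_map, hτ]
      -- `Φ (m e) x = π m (Φ e (x + vl m))`
      have h2 := hA (mx x * m) e
      have h3 : vl c (mx x * m).1 = x + vl c m.1 := by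
        funext z
        have h4 := vl_mul c (mx x).1 m.1 (mx x).2 m.2 z
        have h5 : (mx x * m).1 = (mx x).1 * m.1 := rfl
        rw [h5, h4, hmx]
        rfl
      rw [h3] at h2
      rw [h2, hΦ]
      have h6 : m * (mx x * m)⁻¹ = (mx x)⁻¹ := by group
      have h7 : ∀ y, π m (π (mx x * m)⁻¹ y) = π (mx x)⁻¹ y := by
        intro y
        rw [← Module.End.mul_apply, ← map_mul, h6]
      rw [h7, map_mul ρ, Module.End.mul_apply]
    rw [LinearMap.comp_apply, LinearMap.comp_apply, h1, hat_apply]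
    generalize τ e = t
    induction t using TensorProduct.induction_on with
    | zero => simp
    | tmul v p =>
      rw [TensorProduct.map_tmul, TensorProduct.map_tmul, TensorProduct.map_tmul,
        TensorProduct.map_tmul, LinearMap.id_apply, LinearMap.id_apply]
      congr 1
      exact hr2 (vl c m.1) p
    | add a b ha hb => rw [map_add, map_add, ha, hb, map_add, map_add]
  · intro u
    have h1 : τ u = TensorProduct.map LinearMap.id (HatInj_fun ι) (f u) := by
      apply HatInj_J_inj (V := V) (ι → ℤ)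
      rw [hτ]
      funext x
      rw [HatInj_J_fun, hΦ]
      have h2 : (ρ (mx x)) (u : E) = ((subRep ρ U hU (mx x) u : U) : E) := rfl
      rw [h2, hF₀U, LinearMap.comp_apply, hf, hat_apply, HatInj_E_map, hmx, zero_add,
        ← Module.End.mul_apply, ← map_mul, inv_mul_cancel, map_one]
      rfl
    rw [LinearMap.comp_apply, h1]
    generalize f u = t
    induction t using TensorProduct.induction_on with
    | zero => simp
    | tmul v p =>
      rw [TensorProduct.map_tmul, TensorProduct.map_tmul, LinearMap.id_apply,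
        LinearMap.id_apply]
      congr 1
      exact hr1 p
    | add a b ha hb => rw [map_add, map_add, ha, hb]

end

end Pool.Agent.Lib.MP_ca1492_al.P
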