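import Mathlib

/-!
# MP_ca1492_al, p-adic side, module CMeanA: means of functions over a subgroup

`rst K φ = {u ∈ K | φ (k u) = φ k for all k ∈ K}` is the right stabilizer of `φ` on `K`, `φ` is
tame on `K` if it has finite index in `K` (`Tm K φ`), and then
`mean K φ = (1 / [K : rst]) Σ_{q ∈ K / rst} φ(q)`. (Everything in this file up to `tm_of_open` is
pure algebra.)

* `mean_eq`: for a finite index subgroup `U` of `K` contained in `rst K φ` the mean can be computed
  over `K / U` (the fibres of `K / U → K / rst` all have `[rst : U]` elements, `φ` is constant on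
  them; `U.index = U.relIndex rst * rst.index`). Also any system of representatives can be used.
* `mean_add`, `mean_smul`, `mean_map`, `mean_mem`, `mean_const`, `mean_congr`: use `mean_eq` with
  `U = rst K φ ⊓ rst K ψ` etc.
* `mean_left`: translation `q ↦ k q` permutes `K / rst`. `mean_right`: the right stabilizer of
  `φ(· k)` is `k (rst φ) k⁻¹`; the map `q ↦ q k` from `K / k U k⁻¹` to `K / U`.
-/

set_option autoImplicit false

namespace Pool.Agent.Lib.MP_ca1492_al.P

open Topology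

noncomputable section

/-- the right stabilizer of `φ` on `K` -/
def rst {A E : Type} [Group A] (K : Subgroup A) (φ : A → E) : Subgroup K where
  carrier := {u | ∀ k : K, φ ((k : A) * u) = φ k}
  mul_mem' := by
    intro a b ha hb k
    have h1 := hb (k * a)
    have h2 := ha k
    simp only [Subgroup.coe_mul] at h1 ⊢
    rw [← mul_assoc, h1, h2]
  one_mem' := by intro k; simp
  inv_mem' := by
    intro a ha k
    have h := ha (k * a⁻¹)
    simp only [Subgroup.coe_mul, Subgroup.coe_inv, inv_mul_cancel_right] at h ⊢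
    exact h.symm

/-- `φ` is tame on `K` -/
def Tm {A E : Type} [Group A] (K : Subgroup A) (φ : A → E) : Prop := (rst K φ).FiniteIndex

/-- the mean of `φ` over the subgroup `K` -/
def mean {A E : Type} [Group A] [AddCommGroup E] [Module ℂ E] (K : Subgroup A) (φ : A → E) : E :=
  (((rst K φ).index : ℂ))⁻¹ • ∑ᶠ q : K ⧸ rst K φ, φ ((q.out : K) : A)

variable {A : Type} [Group A] {E E' : Type} [AddCommGroup E] [Module ℂ E] [AddCommGroup E']
  [Module ℂ E']

omit [AddCommGroup E] [Module ℂ E] in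
/-- the value at the chosen representative -/
theorem CMeanA_out {K : Subgroup A} {φ : A → E} (U : Subgroup K) (h : U ≤ rst K φ) (g : K) :
    φ ((Quotient.out (QuotientGroup.mk g : K ⧸ U) : K) : A) = φ g := by
  obtain ⟨u, hu⟩ := QuotientGroup.mk_out_eq_mul U g
  rw [hu, Subgroup.coe_mul]
  exact h u.2 g

theorem mean_eq (K : Subgroup A) (φ : A → E) (U : Subgroup K) (hU : U.FiniteIndex)
    (h : U ≤ rst K φ) :
    mean K φ = ((U.index : ℂ))⁻¹ • ∑ᶠ q : K ⧸ U, φ ((q.out : K) : A) := by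
  classical
  have hR : (rst K φ).FiniteIndex := Subgroup.finiteIndex_of_le h
  have f1 : Finite (K ⧸ U) := Subgroup.finite_quotient_of_finiteIndex
  have f2 : Finite (K ⧸ rst K φ) := Subgroup.finite_quotient_of_finiteIndex
  have hprod : Finite ((K ⧸ rst K φ) × (rst K φ ⧸ U.subgroupOf (rst K φ))) :=
    Finite.of_equiv _ (Subgroup.quotientEquivProdOfLE h)
  have f3 : Finite (rst K φ ⧸ U.subgroupOf (rst K φ)) := by
    have : Nonempty (K ⧸ rst K φ) := ⟨QuotientGroup.mk 1⟩
    exact Finite.prod_right (K ⧸ rst K φ)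
  let := Fintype.ofFinite (K ⧸ U)
  let := Fintype.ofFinite (K ⧸ rst K φ)
  let := Fintype.ofFinite (rst K φ ⧸ U.subgroupOf (rst K φ))
  have key : ∀ q : K ⧸ U, φ ((q.out : K) : A) =
      φ ((Quotient.out (Subgroup.quotientEquivProdOfLE h q).1 : K) : A) := by
    intro q
    induction q using QuotientGroup.induction_on with
    | H g =>
      rw [CMeanA_out U h g]
      exact (CMeanA_out (rst K φ) le_rfl g).symm
  have h1 : ∑ᶠ q : K ⧸ U, φ ((q.out : K) : A) =
      (U.relIndex (rst K φ)) • ∑ᶠ q : K ⧸ rst K φ, φ ((q.out : K) : A) := by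
    rw [finsum_congr key, finsum_eq_sum_of_fintype, finsum_eq_sum_of_fintype]
    rw [Equiv.sum_comp (Subgroup.quotientEquivProdOfLE h)
      (fun p => φ ((Quotient.out p.1 : K) : A)), Fintype.sum_prod_type, Finset.smul_sum]
    refine Finset.sum_congr rfl fun x _ => ?_
    show ∑ _y : (rst K φ ⧸ U.subgroupOf (rst K φ)), φ ((Quotient.out x : K) : A) = _
    rw [Finset.sum_const, Finset.card_univ, Subgroup.relIndex, Subgroup.index,
      Nat.card_eq_fintype_card]
  have h2 : (U.index : ℂ) = (U.relIndex (rst K φ) : ℂ) * ((rst K φ).index : ℂ) := by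
    rw [← Nat.cast_mul, Subgroup.relIndex_mul_index h]
  have h3 : (U.relIndex (rst K φ) : ℂ) ≠ 0 := by
    intro h0
    have := hU.index_ne_zero
    rw [h0, zero_mul] at h2
    exact this (by exact_mod_cast h2)
  rw [h1, h2, mean, ← Nat.cast_smul_eq_nsmul ℂ, smul_smul]
  congr 1
  rw [mul_inv]
  field_simp

/-- the mean over an arbitrary system of representatives `s` of `K / (K ∩ U)` -/
theorem mean_eq_sum (K U : Subgroup A) (φ : A → E) (hφ : ∀ k ∈ K, ∀ u ∈ U, u ∈ K → φ (k * u) = φ k)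
    (s : Finset A) (hs : ∀ x ∈ s, x ∈ K) (hs' : ∀ k ∈ K, ∃! x, x ∈ s ∧ x⁻¹ * k ∈ U) :
    mean K φ = ((s.card : ℂ))⁻¹ • ∑ x ∈ s, φ x := by
  classical
  have hb : Function.Bijective
      (fun x : s => (QuotientGroup.mk (⟨x.1, hs x.1 x.2⟩ : K) : K ⧸ U.subgroupOf K)) := by
    constructor
    · intro x y hxy
      have h1 : (⟨x.1, hs x.1 x.2⟩ : K)⁻¹ * ⟨y.1, hs y.1 y.2⟩ ∈ U.subgroupOf K :=
        QuotientGroup.eq.mp hxy
      have h2 : x.1⁻¹ * y.1 ∈ U := h1
      obtain ⟨z, _, hu⟩ := hs' y.1 (hs y.1 y.2)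
      have h3 := hu x.1 ⟨x.2, h2⟩
      have h4 := hu y.1 ⟨y.2, by rw [inv_mul_cancel]; exact U.one_mem⟩
      exact Subtype.ext (h3.trans h4.symm)
    · intro q
      induction q using QuotientGroup.induction_on with
      | H g =>
        obtain ⟨z, ⟨hz, hzu⟩, _⟩ := hs' g g.2
        exact ⟨⟨z, hz⟩, QuotientGroup.eq.mpr hzu⟩
  have f1 : Finite (K ⧸ U.subgroupOf K) := Finite.of_equiv s (Equiv.ofBijective _ hb)
  have f2 : (U.subgroupOf K).FiniteIndex := Subgroup.finiteIndex_of_finite_quotient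
  have hle : U.subgroupOf K ≤ rst K φ := fun u hu k => hφ k k.2 u hu u.2
  have hcard : (U.subgroupOf K).index = s.card := by
    rw [Subgroup.index, ← Nat.card_congr (Equiv.ofBijective _ hb), Nat.card_eq_fintype_card,
      Fintype.card_coe]
  rw [mean_eq K φ _ f2 hle, hcard]
  congr 1
  rw [← finsum_comp_equiv (Equiv.ofBijective _ hb), finsum_eq_sum_of_fintype,
    ← Finset.sum_coe_sort s]
  refine Finset.sum_congr rfl fun x _ => ?_
  exact CMeanA_out _ hle ⟨x.1, hs x.1 x.2⟩

omit [AddCommGroup E] [Module ℂ E] in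
theorem CMeanA_rst_congr (K : Subgroup A) (φ ψ : A → E) (h : ∀ k ∈ K, φ k = ψ k) :
    rst K φ = rst K ψ := by
  ext u
  constructor
  · intro hu k
    rw [← h _ (K.mul_mem k.2 u.2), ← h _ k.2]
    exact hu k
  · intro hu k
    rw [h _ (K.mul_mem k.2 u.2), h _ k.2]
    exact hu k

theorem tm_congr (K : Subgroup A) (φ ψ : A → E) (h : ∀ k ∈ K, φ k = ψ k) (hφ : Tm K φ) :
    Tm K ψ := by
  unfold Tm
  rw [← CMeanA_rst_congr K φ ψ h]
  exact hφ

theorem mean_congr (K : Subgroup A) (φ ψ : A → E) (h : ∀ k ∈ K, φ k = ψ k) :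
    mean K φ = mean K ψ := by
  unfold mean
  rw [← CMeanA_rst_congr K φ ψ h]
  congr 1
  exact finsum_congr fun q => h _ q.out.2

theorem mean_const (K : Subgroup A) (e : E) : mean K (fun _ => e) = e := by
  classical
  have h1 : rst K (fun _ : A => e) = ⊤ := by
    ext u
    exact ⟨fun _ => Subgroup.mem_top u, fun _ _ => rfl⟩
  have : Unique (K ⧸ (⊤ : Subgroup K)) :=
    { default := QuotientGroup.mk 1
      uniq := fun q => by
        induction q using QuotientGroup.induction_on with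
        | H g => exact QuotientGroup.eq.mpr (Subgroup.mem_top _) }
  unfold mean
  rw [h1, Subgroup.index_top, finsum_unique]
  simp

omit [Module ℂ E] in
theorem CMeanA_rst_add (K : Subgroup A) (φ ψ : A → E) :
    rst K φ ⊓ rst K ψ ≤ rst K (fun x => φ x + ψ x) := by
  intro u hu k
  show φ _ + ψ _ = φ _ + ψ _
  rw [hu.1 k, hu.2 k]

theorem tm_add (K : Subgroup A) (φ ψ : A → E) (hφ : Tm K φ) (hψ : Tm K ψ) :
    Tm K (fun x => φ x + ψ x) := by
  have : (rst K φ).FiniteIndex := hφ
  have : (rst K ψ).FiniteIndex := hψ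
  exact Subgroup.finiteIndex_of_le (CMeanA_rst_add K φ ψ)

theorem mean_add (K : Subgroup A) (φ ψ : A → E) (hφ : Tm K φ) (hψ : Tm K ψ) :
    mean K (fun x => φ x + ψ x) = mean K φ + mean K ψ := by
  have : (rst K φ).FiniteIndex := hφ
  have : (rst K ψ).FiniteIndex := hψ
  have hU : (rst K φ ⊓ rst K ψ).FiniteIndex := inferInstance
  have : Finite (K ⧸ (rst K φ ⊓ rst K ψ)) := Subgroup.finite_quotient_of_finiteIndex
  rw [mean_eq K _ _ hU (CMeanA_rst_add K φ ψ), mean_eq K φ _ hU inf_le_left,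
    mean_eq K ψ _ hU inf_le_right, ← smul_add, ← finsum_add_distrib (Set.toFinite _)
    (Set.toFinite _)]

theorem CMeanA_rst_map (K : Subgroup A) (φ : A → E) (L : E →ₗ[ℂ] E') :
    rst K φ ≤ rst K (fun x => L (φ x)) := by
  intro u hu k
  show L _ = L _
  rw [hu k]

theorem tm_map (K : Subgroup A) (φ : A → E) (hφ : Tm K φ) (L : E →ₗ[ℂ] E') :
    Tm K (fun x => L (φ x)) := by
  have : (rst K φ).FiniteIndex := hφ
  exact Subgroup.finiteIndex_of_le (CMeanA_rst_map K φ L)

/-- in particular for `L = c • id` -/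
theorem mean_map (K : Subgroup A) (φ : A → E) (hφ : Tm K φ) (L : E →ₗ[ℂ] E') :
    mean K (fun x => L (φ x)) = L (mean K φ) := by
  have : (rst K φ).FiniteIndex := hφ
  have : Finite (K ⧸ rst K φ) := Subgroup.finite_quotient_of_finiteIndex
  let := Fintype.ofFinite (K ⧸ rst K φ)
  rw [mean_eq K _ _ hφ (CMeanA_rst_map K φ L), mean_eq K φ _ hφ le_rfl, map_smul,
    finsum_eq_sum_of_fintype, finsum_eq_sum_of_fintype, map_sum]

theorem mean_mem (K : Subgroup A) (φ : A → E) (S : Submodule ℂ E) (h : ∀ k ∈ K, φ k ∈ S) :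
    mean K φ ∈ S := by
  unfold mean
  refine S.smul_mem _ (finsum_induction (fun e => e ∈ S) S.zero_mem ?_ ?_)
  · intro x y hx hy
    exact S.add_mem hx hy
  · intro q
    exact h _ q.out.2

omit [AddCommGroup E] [Module ℂ E] in
theorem CMeanA_rst_left (K : Subgroup A) (φ : A → E) (k : A) (hk : k ∈ K) :
    rst K φ ≤ rst K (fun x => φ (k * x)) := by
  intro u hu k'
  show φ (k * (k' * u)) = φ (k * k')
  rw [← mul_assoc]
  exact hu (⟨k, hk⟩ * k')

omit [AddCommGroup E] [Module ℂ E] in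
theorem CMeanA_rst_right (K : Subgroup A) (φ : A → E) (k : A) (hk : k ∈ K) :
    (rst K φ).normalCore ≤ rst K (fun x => φ (x * k)) := by
  intro u hu k'
  show φ (k' * u * k) = φ (k' * k)
  have h1 : (⟨k, hk⟩ : K)⁻¹ * u * (⟨k, hk⟩ : K)⁻¹⁻¹ ∈ (rst K φ).normalCore :=
    (rst K φ).normalCore_normal.conj_mem u hu _
  have h2 := (rst K φ).normalCore_le h1 (k' * ⟨k, hk⟩)
  have h3 : φ (k' * k) = φ ((k' * ⟨k, hk⟩ : K) : A) := by rw [Subgroup.coe_mul]
  rw [h3, ← h2]
  congr 1
  simp only [Subgroup.coe_mul, Subgroup.coe_inv]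
  group

theorem tm_left (K : Subgroup A) (φ : A → E) (hφ : Tm K φ) (k : A) (hk : k ∈ K) :
    Tm K (fun x => φ (k * x)) := by
  have : (rst K φ).FiniteIndex := hφ
  exact Subgroup.finiteIndex_of_le (CMeanA_rst_left K φ k hk)

theorem mean_left (K : Subgroup A) (φ : A → E) (hφ : Tm K φ) (k : A) (hk : k ∈ K) :
    mean K (fun x => φ (k * x)) = mean K φ := by
  have : (rst K φ).FiniteIndex := hφ
  have : Finite (K ⧸ rst K φ) := Subgroup.finite_quotient_of_finiteIndex
  rw [mean_eq K _ _ hφ (CMeanA_rst_left K φ k hk), mean_eq K φ _ hφ le_rfl]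
  congr 1
  rw [← finsum_comp_equiv (MulAction.toPerm (⟨k, hk⟩ : K))
    (f := fun q : K ⧸ rst K φ => φ ((q.out : K) : A))]
  refine finsum_congr fun q => ?_
  induction q using QuotientGroup.induction_on with
  | H g =>
    have h1 := CMeanA_out (rst K φ) le_rfl (⟨k, hk⟩ * g)
    have h2 := CMeanA_out (rst K φ) (CMeanA_rst_left K φ k hk) g
    exact h2.trans h1.symm

theorem tm_right (K : Subgroup A) (φ : A → E) (hφ : Tm K φ) (k : A) (hk : k ∈ K) :
    Tm K (fun x => φ (x * k)) := by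
  have : (rst K φ).FiniteIndex := hφ
  exact Subgroup.finiteIndex_of_le (CMeanA_rst_right K φ k hk)

theorem mean_right (K : Subgroup A) (φ : A → E) (hφ : Tm K φ) (k : A) (hk : k ∈ K) :
    mean K (fun x => φ (x * k)) = mean K φ := by
  have : (rst K φ).FiniteIndex := hφ
  have hU : (rst K φ).normalCore.FiniteIndex := inferInstance
  have : Finite (K ⧸ (rst K φ).normalCore) := Subgroup.finite_quotient_of_finiteIndex
  rw [mean_eq K _ _ hU (CMeanA_rst_right K φ k hk), mean_eq K φ _ hU (rst K φ).normalCore_le]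
  congr 1
  rw [← finsum_comp_equiv (Equiv.mulRight (QuotientGroup.mk ⟨k, hk⟩ : K ⧸ (rst K φ).normalCore))
    (f := fun q : K ⧸ (rst K φ).normalCore => φ ((q.out : K) : A))]
  refine finsum_congr fun q => ?_
  induction q using QuotientGroup.induction_on with
  | H g =>
    have h1 := CMeanA_out (rst K φ).normalCore (rst K φ).normalCore_le (g * ⟨k, hk⟩)
    have h2 := CMeanA_out (rst K φ).normalCore (CMeanA_rst_right K φ k hk) g
    exact h2.trans h1.symm

end

end Pool.Agent.Lib.MP_ca1492_al.P
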