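import Mathlib
import Pool.Agent.Lib.MP_ca1492_al.P.CMeanA

/-!
# MP_ca1492_al, p-adic side, module CDef: definitions for the geometric lemma

Abstract setting: `A` a topological group (later `A = ↥(lev F cb)`), `P` a closed subgroup with a
smooth representation `a` on `E`, `IS P a` = functions `f : A → E` with `f (p g) = a p (f g)`,
right invariant under an open subgroup. `Q = M N` (with `M` normalizing `N`), `w ∈ A`, and the cell
`P w M N`.
-/

set_option autoImplicit false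

namespace Pool.Agent.Lib.MP_ca1492_al.P

open Topology

noncomputable section

/-- the space of the representation induced from `P` -/
def IS {A E : Type} [Group A] [TopologicalSpace A] [AddCommGroup E] [Module ℂ E]
    (P : Subgroup A) (a : Representation ℂ P E) : Submodule ℂ (A → E) where
  carrier := {f | (∀ (p : P) (g : A), f (p * g) = a p (f g)) ∧
    ∃ U : Subgroup A, IsOpen (U : Set A) ∧ ∀ g, ∀ u ∈ U, f (g * u) = f g}
  add_mem' := by
    rintro f f' ⟨h1, U, hU, h2⟩ ⟨h1', U', hU', h2'⟩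
    refine ⟨fun p g => ?_, U ⊓ U', hU.inter hU', fun g u hu => ?_⟩
    · rw [Pi.add_apply, Pi.add_apply, h1, h1', map_add]
    · rw [Pi.add_apply, Pi.add_apply, h2 g u hu.1, h2' g u hu.2]
  zero_mem' := by
    refine ⟨fun p g => ?_, ⊤, isOpen_univ, fun g u _ => rfl⟩
    rw [Pi.zero_apply, Pi.zero_apply, map_zero]
  smul_mem' := by
    rintro c f ⟨h1, U, hU, h2⟩
    refine ⟨fun p g => ?_, U, hU, fun g u hu => ?_⟩
    · rw [Pi.smul_apply, Pi.smul_apply, h1, map_smul]
    · rw [Pi.smul_apply, Pi.smul_apply, h2 g u hu]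

/-- the double coset `P w Q` -/
def dc {A : Type} [Group A] (P Q : Subgroup A) (w : A) : Set A :=
  {g | ∃ p ∈ P, ∃ q ∈ Q, g = p * w * q}

/-- the cell `P w M N` -/
def cell {A : Type} [Group A] (P M N : Subgroup A) (w : A) : Set A :=
  {g | ∃ p ∈ P, ∃ m ∈ M, ∃ n ∈ N, g = p * w * m * n}

/-- the subgroup `w⁻¹ P w` -/
def cjS {A : Type} [Group A] (w : A) (P : Subgroup A) : Subgroup A :=
  P.map (MulAut.conj w⁻¹).toMonoidHom

theorem mem_cjS {A : Type} [Group A] {w : A} {P : Subgroup A} {x : A} :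
    x ∈ cjS w P ↔ w * x * w⁻¹ ∈ P := by
  unfold cjS
  rw [Subgroup.mem_map]
  constructor
  · rintro ⟨y, hy, rfl⟩
    simpa [MulAut.conj_apply, mul_assoc] using hy
  · intro h
    exact ⟨_, h, by simp [MulAut.conj_apply, mul_assoc]⟩

/-- the data for one cell: `P`, `M`, `N` closed subgroups, `M` normalizes `N`, `N` exhausted by
compact subgroups, `N₀` a compact open subgroup of `N`, `w⁻¹ P w ∩ M N` splits -/
structure CD (A : Type) [Group A] [TopologicalSpace A] where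
  P : Subgroup A
  M : Subgroup A
  N : Subgroup A
  N₀ : Subgroup A
  w : A
  P_cl : IsClosed (P : Set A)
  M_cl : IsClosed (M : Set A)
  N_cl : IsClosed (N : Set A)
  norm : ∀ m ∈ M, ∀ n ∈ N, m * n * m⁻¹ ∈ N
  exh : ∀ C : Set A, IsCompact C → C ⊆ (N : Set A) →
    ∃ K : Subgroup A, K ≤ N ∧ IsCompact (K : Set A) ∧ C ⊆ (K : Set A)
  N₀_le : N₀ ≤ N
  N₀_cpt : IsCompact (N₀ : Set A)
  N₀_op : ∃ O : Set A, IsOpen O ∧ (N₀ : Set A) = (N : Set A) ∩ O
  split : ∀ m ∈ M, ∀ n ∈ N, w * (m * n) * w⁻¹ ∈ P → w * m * w⁻¹ ∈ P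

/-- `B = N ∩ w⁻¹ P w` -/
def CD.B {A : Type} [Group A] [TopologicalSpace A] (D : CD A) : Subgroup A := D.N ⊓ cjS D.w D.P

/-- the support of `f` in the cell is compact modulo `P` -/
def CD.Csupp {A : Type} [Group A] [TopologicalSpace A] (D : CD A) {E : Type} [AddCommGroup E]
    (f : A → E) : Prop :=
  ∃ CM CN : Set A, IsCompact CM ∧ CM ⊆ (D.M : Set A) ∧ IsCompact CN ∧ CN ⊆ (D.N : Set A) ∧
    ∀ g ∈ cell D.P D.M D.N D.w, f g ≠ 0 → ∃ p ∈ D.P, ∃ c ∈ CM, ∃ d ∈ CN, g = p * D.w * c * d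

/-- the cell is dead for the representation `a`: the coinvariants of `P ∩ w N w⁻¹` vanish -/
def CD.Dead {A : Type} [Group A] [TopologicalSpace A] (D : CD A) {E : Type} [AddCommGroup E]
    [Module ℂ E] (a : Representation ℂ D.P E) : Prop :=
  ∀ e : E, e ∈ Submodule.span ℂ {x | ∃ (p : D.P) (v : E), D.w⁻¹ * (p : A) * D.w ∈ D.N ∧
    x = a p v - v}

/-- the cell is live: `P ∩ w N w⁻¹` acts trivially -/
def CD.Live {A : Type} [Group A] [TopologicalSpace A] (D : CD A) {E : Type} [AddCommGroup E]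
    [Module ℂ E] (a : Representation ℂ D.P E) : Prop :=
  ∀ (p : D.P), D.w⁻¹ * (p : A) * D.w ∈ D.N → ∀ v, a p v = v

/-! ### the invariant integral over `B \ N` -/

/-- `φ` on `N`: left `B`-invariant, right invariant under an open subgroup, compactly supported
modulo `B` -/
def LI {A E : Type} [Group A] [TopologicalSpace A] [AddCommGroup E] (N B : Subgroup A)
    (φ : A → E) : Prop :=
  (∀ b ∈ B, ∀ n ∈ N, φ (b * n) = φ n) ∧
  (∃ U : Subgroup A, IsOpen (U : Set A) ∧ ∀ n ∈ N, ∀ u ∈ U, u ∈ N → φ (n * u) = φ n) ∧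
  ∃ C : Set A, IsCompact C ∧ C ⊆ (N : Set A) ∧ ∀ n ∈ N, φ n ≠ 0 → ∃ b ∈ B, b⁻¹ * n ∈ C

/-- `K` is a compact subgroup of `N` containing `N₀` and (modulo `B`) the support of `φ` -/
def GoodK {A E : Type} [Group A] [TopologicalSpace A] [AddCommGroup E] (N B N₀ : Subgroup A)
    (φ : A → E) (K : Subgroup A) : Prop :=
  N₀ ≤ K ∧ K ≤ N ∧ IsCompact (K : Set A) ∧ ∀ n ∈ N, φ n ≠ 0 → ∃ b ∈ B, b⁻¹ * n ∈ K

/-- the volume of `B \ B K`, normalized by `N₀` -/
def ratio {A : Type} [Group A] (B N₀ K : Subgroup A) : ℂ :=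
  (N₀.relIndex K : ℂ) * (((N₀ ⊓ B).relIndex (K ⊓ B) : ℂ))⁻¹

open Classical in
/-- the integral of `φ` over `B \ N` -/
def iq {A E : Type} [Group A] [TopologicalSpace A] [AddCommGroup E] [Module ℂ E]
    (N B N₀ : Subgroup A) (φ : A → E) : E :=
  if h : ∃ K, GoodK N B N₀ φ K then ratio B N₀ h.choose • mean h.choose φ else 0

/-- the modulus of the conjugation `n ↦ m n m⁻¹`, computed with the compact open subgroup `N₀` -/
def chi {A : Type} [Group A] (N₀ : Subgroup A) (m : A) : ℂ :=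
  ((N₀ ⊓ N₀.map (MulAut.conj m).toMonoidHom).relIndex (N₀.map (MulAut.conj m).toMonoidHom) : ℂ) *
    (((N₀ ⊓ N₀.map (MulAut.conj m).toMonoidHom).relIndex N₀ : ℂ))⁻¹

/-- the cell functional `Λ_w f (m) = ∫ over B \ N of f (w n m) dn` -/
def CD.Lam {A : Type} [Group A] [TopologicalSpace A] (D : CD A) {E : Type} [AddCommGroup E]
    [Module ℂ E] (f : A → E) (m : A) : E :=
  iq D.N D.B D.N₀ (fun n => f (D.w * n * m))

end

end Pool.Agent.Lib.MP_ca1492_al.P
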