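import Mathlib
import Pool.Agent.Lib.MP_ca1492_al.P.CDef
import Pool.Agent.Lib.MP_ca1492_al.P.Dual
import Pool.Agent.Lib.MP_ca1492_al.P.ParD

/-!
# MP_ca1492_al, p-adic side, module CGLa: the parabolic subgroup of a block group, its Levi
projection, and the cell data

`blkO o g`: keep the entries with `o i = o j`. It is multiplicative on upper block triangular
matrices, so it defines `prL : upp F cb o → lev F c`, a homomorphism with
`prL (m n) = m` for `m ∈ lev c`, `n ∈ uni`.

* `prL_mem_uni`: `p ∈ uni ↔ prL p = 1`.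
* `prL_cont`: the entries (of `g` and `g⁻¹`) are continuous functions.
* `mem_IndSp_iff`: `f ∈ (parD c cb o h).IndSp σ ↔ f ∈ IS (PPs F cb o) (aP c cb o h σ)`: use
  `upp_decomp`; `m n ∈ upp` has `prL (m n) = m`.
* `aP_smooth`: the stabilizer of `v` in `P` is the preimage of the one in `lev c` under the
  continuous `prL`.
* topology of `lev F cb`: closed subgroup of `GL κ F`.
-/

set_option autoImplicit false

namespace Pool.Agent.Lib.MP_ca1492_al.P

open Topology Matrix ValuativeRel

noncomputable section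

variable {F : Type} [Field F] {κ : Type} [Fintype κ] [DecidableEq κ]

/-- keep only the entries with `o i = o j` -/
def blkO (o : κ → ℤ) (g : Matrix κ κ F) : Matrix κ κ F :=
  Matrix.of fun i j => if o i = o j then g i j else 0

theorem blkO_mul (o : κ → ℤ) (g h : Matrix κ κ F) (hg : ∀ i j, o j < o i → g i j = 0)
    (hh : ∀ i j, o j < o i → h i j = 0) : blkO o (g * h) = blkO o g * blkO o h := by
  ext i j
  simp only [blkO, Matrix.of_apply, Matrix.mul_apply]
  by_cases hij : o i = o j
  · rw [if_pos hij]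
    refine Finset.sum_congr rfl fun k _ => ?_
    rcases lt_trichotomy (o i) (o k) with h' | h' | h'
    · rw [hh k j (by omega), mul_zero]
      by_cases h1 : o k = o j
      · omega
      · rw [if_neg h1, mul_zero]
    · rw [if_pos h', if_pos (by omega)]
    · rw [hg i k h', zero_mul, if_neg (by omega), zero_mul]
  · rw [if_neg hij]
    symm
    refine Finset.sum_eq_zero fun k _ => ?_
    by_cases h1 : o i = o k
    · rw [if_neg (by omega : ¬ o k = o j), mul_zero]
    · rw [if_neg h1, zero_mul]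

theorem blkO_one (o : κ → ℤ) : blkO o (1 : Matrix κ κ F) = 1 := by
  ext i j
  simp only [blkO, Matrix.of_apply]
  by_cases hij : i = j
  · subst hij; simp
  · rw [Matrix.one_apply_ne hij]; simp

/-- the parabolic subgroup as a subgroup of `lev F cb` -/
def PPs (F : Type) [Field F] {κ : Type} [Fintype κ] [DecidableEq κ] {ι : Type} (cb : κ → ι)
    (o : κ → ℤ) : Subgroup (lev F cb) := (upp F cb o).subgroupOf (lev F cb)

/-- the Levi projection on `upp` -/
def prL {ι ι' : Type} (c : κ → ι) (cb : κ → ι') (o : κ → ℤ)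
    (h : ∀ i j, c i = c j ↔ cb i = cb j ∧ o i = o j) : PPs F cb o →* lev F c where
  toFun p := ⟨{ val := blkO o (p.1.1 : Matrix κ κ F)
                inv := blkO o ((p.1.1⁻¹ : GL κ F) : Matrix κ κ F)
                val_inv := by
                  have hp : p.1.1 ∈ upp F cb o := p.2
                  rw [← blkO_mul o _ _ hp.2 ((upp F cb o).inv_mem hp).2, ← Units.val_mul,
                    mul_inv_cancel, Units.val_one, blkO_one]
                inv_val := by
                  have hp : p.1.1 ∈ upp F cb o := p.2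
                  rw [← blkO_mul o _ _ ((upp F cb o).inv_mem hp).2 hp.2, ← Units.val_mul,
                    inv_mul_cancel, Units.val_one, blkO_one] }, by
    intro i j hij
    show blkO o (p.1.1 : Matrix κ κ F) i j = 0
    simp only [blkO, Matrix.of_apply]
    by_cases ho : o i = o j
    · rw [if_pos ho]
      refine p.1.2 i j fun hcb => hij ((h i j).2 ⟨hcb, ho⟩)
    · rw [if_neg ho]⟩
  map_one' := by
    apply Subtype.ext
    apply Units.ext
    show blkO o ((1 : GL κ F) : Matrix κ κ F) = 1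
    rw [Units.val_one, blkO_one]
  map_mul' a b := by
    apply Subtype.ext
    apply Units.ext
    have ha : a.1.1 ∈ upp F cb o := a.2
    have hb : b.1.1 ∈ upp F cb o := b.2
    show blkO o ((a.1.1 * b.1.1 : GL κ F) : Matrix κ κ F) = _
    rw [Units.val_mul, blkO_mul o _ _ ha.2 hb.2]
    rfl

theorem prL_apply {ι ι' : Type} (c : κ → ι) (cb : κ → ι') (o : κ → ℤ)
    (h : ∀ i j, c i = c j ↔ cb i = cb j ∧ o i = o j) (p : PPs F cb o) (i j : κ) :
    ((prL c cb o h p).1 : Matrix κ κ F) i j =
      if o i = o j then (p.1.1 : Matrix κ κ F) i j else 0 := rfl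

/-- the representation of `P` inflated from the Levi subgroup -/
def aP {ι ι' : Type} (c : κ → ι) (cb : κ → ι') (o : κ → ℤ)
    (h : ∀ i j, c i = c j ↔ cb i = cb j ∧ o i = o j) {E : Type} [AddCommGroup E] [Module ℂ E]
    (σ : Representation ℂ (lev F c) E) : Representation ℂ (PPs F cb o) E :=
  σ.comp (prL c cb o h)

theorem permG_conj (w : Equiv.Perm κ) (x : GL κ F) (i j : κ) :
    ((permG F w * x * (permG F w)⁻¹ : GL κ F) : Matrix κ κ F) (w i) (w j) =
      (x : Matrix κ κ F) i j := by
  have h1 : ((permG F w * x * (permG F w)⁻¹ : GL κ F) : Matrix κ κ F) =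
      (Matrix.of fun i j => if w j = i then (1 : F) else 0) * (x : Matrix κ κ F) *
        (Matrix.of fun i j => if w i = j then (1 : F) else 0) := rfl
  rw [h1, Matrix.mul_apply, Finset.sum_eq_single j]
  · rw [Matrix.mul_apply, Finset.sum_eq_single i]
    · simp
    · intro l _ hl
      rw [Matrix.of_apply, if_neg (fun h => hl (w.injective h)), zero_mul]
    · intro h
      exact absurd (Finset.mem_univ i) h
  · intro k _ hk
    rw [Matrix.of_apply, if_neg (fun h => hk (w.injective h)), mul_zero]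
  · intro h
    exact absurd (Finset.mem_univ j) h

theorem permG_mem_lev' {ι : Type} (cb : κ → ι) (w : Equiv.Perm κ) (hw : ∀ i, cb (w i) = cb i) :
    permG F w ∈ lev F cb := by
  intro i j hij
  show (if w j = i then (1 : F) else 0) = 0
  rw [if_neg]
  rintro rfl
  exact hij (hw j)

variable {E : Type} [AddCommGroup E] [Module ℂ E]

theorem prL_mem_uni {ι ι' : Type} (c : κ → ι) (cb : κ → ι') (o : κ → ℤ)
    (h : ∀ i j, c i = c j ↔ cb i = cb j ∧ o i = o j) (p : PPs F cb o) :
    prL c cb o h p = 1 ↔ p.1.1 ∈ uni F cb o := by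
  have hp : p.1.1 ∈ upp F cb o := p.2
  constructor
  · intro h1
    refine ⟨hp, fun i j hij => ?_⟩
    have h2 := prL_apply c cb o h p i j
    rw [if_pos hij, h1] at h2
    rw [← h2]
    rfl
  · intro h1
    apply Subtype.ext
    apply Units.ext
    ext i j
    rw [prL_apply]
    have h3 : ((1 : lev F c).1 : Matrix κ κ F) i j = (1 : Matrix κ κ F) i j := rfl
    rw [h3]
    by_cases hij : o i = o j
    · rw [if_pos hij]
      exact h1.2 i j hij
    · rw [if_neg hij, Matrix.one_apply_ne]
      rintro rfl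
      exact hij rfl

theorem prL_lev {ι ι' : Type} (c : κ → ι) (cb : κ → ι') (o : κ → ℤ)
    (h : ∀ i j, c i = c j ↔ cb i = cb j ∧ o i = o j) (m : GL κ F) (hm : m ∈ lev F c) :
    ∃ (h1 : m ∈ lev F cb) (h2 : (⟨m, h1⟩ : lev F cb) ∈ PPs F cb o),
      prL c cb o h ⟨⟨m, h1⟩, h2⟩ = ⟨m, hm⟩ := by
  have h1 : m ∈ lev F cb := fun i j hij => hm i j fun hc => hij ((h i j).1 hc).1
  have h2 : (⟨m, h1⟩ : lev F cb) ∈ PPs F cb o := by
    show m ∈ upp F cb o
    refine ⟨h1, fun i j hij => hm i j fun hc => ?_⟩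
    have := ((h i j).1 hc).2
    omega
  refine ⟨h1, h2, ?_⟩
  apply Subtype.ext
  apply Units.ext
  ext i j
  rw [prL_apply]
  by_cases hij : o i = o j
  · rw [if_pos hij]
  · rw [if_neg hij]
    exact (hm i j fun hc => hij ((h i j).1 hc).2).symm

variable [ValuativeRel F] [TopologicalSpace F] [IsNonarchimedeanLocalField F]

theorem prL_cont {ι ι' : Type} (c : κ → ι) (cb : κ → ι') (o : κ → ℤ)
    (h : ∀ i j, c i = c j ↔ cb i = cb j ∧ o i = o j) :
    Continuous (prL (F := F) c cb o h) := by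
  have hblk : ∀ (f : PPs F cb o → Matrix κ κ F), Continuous f →
      Continuous fun p => blkO o (f p) := by
    intro f hf
    refine continuous_matrix fun i j => ?_
    simp only [blkO, Matrix.of_apply]
    by_cases hij : o i = o j
    · simp only [if_pos hij]
      exact hf.matrix_elem i j
    · simp only [if_neg hij]
      exact continuous_const
  have hval : Continuous fun p : PPs F cb o => (p.1.1 : GL κ F) :=
    continuous_subtype_val.comp continuous_subtype_val
  refine Continuous.subtype_mk ?_ _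
  rw [Units.continuous_iff]
  refine ⟨?_, ?_⟩
  · exact hblk _ (Units.continuous_val.comp hval)
  · exact hblk _ (Units.continuous_val.comp hval.inv)

theorem aP_smooth {ι ι' : Type} (c : κ → ι) (cb : κ → ι') (o : κ → ℤ)
    (h : ∀ i j, c i = c j ↔ cb i = cb j ∧ o i = o j) (σ : Representation ℂ (lev F c) E)
    (hσ : IsSm σ) : IsSm (aP c cb o h σ) := by
  intro v
  exact (hσ v).preimage (prL_cont c cb o h)

theorem mem_IndSp_iff {ι ι' : Type} (c : κ → ι) (cb : κ → ι') (o : κ → ℤ)
    (h : ∀ i j, c i = c j ↔ cb i = cb j ∧ o i = o j) (σ : Representation ℂ (lev F c) E)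
    (f : lev F cb → E) :
    f ∈ (parD c cb o h).IndSp σ ↔ f ∈ IS (PPs F cb o) (aP c cb o h σ) := by
  have key : ∀ (m n : GL κ F) (hm : m ∈ lev F c) (hn : n ∈ uni F cb o)
      (hmn : (⟨m, (parD c cb o h).hM hm⟩ * ⟨n, (parD c cb o h).hN hn⟩ : lev F cb) ∈ PPs F cb o),
      prL c cb o h ⟨_, hmn⟩ = ⟨m, hm⟩ := by
    intro m n hm hn hmn
    obtain ⟨h1, h2, h3⟩ := prL_lev c cb o h m hm
    have hn' : (⟨n, (parD c cb o h).hN hn⟩ : lev F cb) ∈ PPs F cb o := hn.1
    have e1 : (⟨⟨m, (parD c cb o h).hM hm⟩ * ⟨n, (parD c cb o h).hN hn⟩, hmn⟩ : PPs F cb o) =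
        ⟨⟨m, h1⟩, h2⟩ * ⟨⟨n, (parD c cb o h).hN hn⟩, hn'⟩ := rfl
    rw [e1, map_mul, h3, (prL_mem_uni c cb o h ⟨_, hn'⟩).2 hn, mul_one]
  constructor
  · rintro ⟨hf, hU⟩
    refine ⟨fun p g => ?_, hU⟩
    obtain ⟨m, hm, n, hn, hmn⟩ := (upp_decomp c cb o h p.1.1).1 p.2
    have e1 : (p : lev F cb) =
        ⟨m, (parD c cb o h).hM hm⟩ * ⟨n, (parD c cb o h).hN hn⟩ := Subtype.ext hmn
    have hp : (⟨m, (parD c cb o h).hM hm⟩ * ⟨n, (parD c cb o h).hN hn⟩ : lev F cb) ∈
        PPs F cb o := by
      rw [← e1]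
      exact p.2
    have e2 : p = ⟨_, hp⟩ := Subtype.ext e1
    have e3 : aP c cb o h σ p = σ ⟨m, hm⟩ := by
      show σ (prL c cb o h p) = _
      rw [e2, key m n hm hn hp]
    rw [e3, e1]
    exact hf m hm n hn g
  · rintro ⟨hf, hU⟩
    refine ⟨fun m hm n hn g => ?_, hU⟩
    have hp : (⟨m, (parD c cb o h).hM hm⟩ * ⟨n, (parD c cb o h).hN hn⟩ : lev F cb) ∈
        PPs F cb o := (upp_decomp c cb o h (m * n)).2 ⟨m, hm, n, hn, rfl⟩
    have h1 := hf ⟨_, hp⟩ g
    have e3 : aP c cb o h σ ⟨_, hp⟩ = σ ⟨m, hm⟩ := by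
      show σ (prL c cb o h ⟨_, hp⟩) = _
      rw [key m n hm hn hp]
    rw [e3] at h1
    exact h1

theorem lev_t2 {ι : Type} (cb : κ → ι) : T2Space (lev F cb) := by
  haveI : T2Space (GL κ F) := gl_t2
  infer_instance

theorem lev_locallyCompact {ι : Type} (cb : κ → ι) : LocallyCompactSpace (lev F cb) := by
  haveI : LocallyCompactSpace (GL κ F) := gl_locallyCompact
  exact (lev_isClosed (F := F) cb).isClosedEmbedding_subtypeVal.locallyCompactSpace

theorem lev_sigma {ι : Type} (cb : κ → ι) : SigmaCompactSpace (lev F cb) := by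
  haveI : SigmaCompactSpace (GL κ F) := gl_sigma
  exact (lev_isClosed (F := F) cb).isClosedEmbedding_subtypeVal.sigmaCompactSpace

theorem CGLa_lev_hasCO {ι : Type} (cb : κ → ι) : HasCO (lev F cb) := by
  refine co_closed (lev F cb) (lev_isClosed cb) fun U hU => ?_
  obtain ⟨m, hm⟩ := Kc_basis U hU
  exact ⟨Kc F κ m, Kc_isOpen m, Kc_isCompact m, hm⟩

end

end Pool.Agent.Lib.MP_ca1492_al.P
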