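import Mathlib
import Pool.Agent.Lib.MP_ca1492_al.P.CGLa
import Pool.Agent.Lib.MP_ca1492_al.P.CuspDefs

/-!
# MP_ca1492_al, p-adic side, module CGLb: the cell data of block groups, dead and live cells

Definitions `prL`, `aP`, `PPs` in CGLa.

* `glCD`: the cell data for `P = upp cb o₁`, `M = lev c₂`, `N = uni cb o₂`, `w` a permutation matrix in
  `lev cb`. `N₀ = uni ∩ Kc 0`. `split`: `w (m n) w⁻¹ ∈ upp cb o₁`: the entries of `m` are the entries of
  `m n` with `o₂ i = o₂ j` (and `0` otherwise), and `(w x w⁻¹) (w i) (w j) = x i j`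
  (`permG_conj`), so `w m w⁻¹` has zero entries where `w (m n) w⁻¹` has.
* `gl_dead`: let `i, j` with `c₁ (w i) = c₁ (w j)` and `c₂ i ≠ c₂ j`; then `cb i = cb j`, `o₂ i ≠ o₂ j`,
  so the order function `o = o₂ ∘ w⁻¹` is not constant on the class of `w i` for `c₁` and
  `(stdD F c₁ o).kerJ σ = ⊤`; for `n ∈ uni F c₁ o`: `w⁻¹ n w ∈ uni F cb o₂`, `n ∈ upp cb o₁`,
  `prL n = n`.
* `gl_live`: `p ∈ upp cb o₁` with `w⁻¹ p w ∈ uni cb o₂`: for `o₁ k = o₁ l` and `cb k = cb l` (otherwise the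
  entry of `prL p` vanishes or is `0`), `k = w i`, `l = w j`: `c₁ k = c₁ l` so `c₂ i = c₂ j`, `o₂ i = o₂ j`,
  and `p k l = (w⁻¹ p w) i j = δ`. So `prL p = 1`.
-/

set_option autoImplicit false

namespace Pool.Agent.Lib.MP_ca1492_al.P

open Topology Matrix ValuativeRel

noncomputable section

variable {F : Type} [Field F] [ValuativeRel F] [TopologicalSpace F]
  [IsNonarchimedeanLocalField F] {κ : Type} [Fintype κ] [DecidableEq κ]
variable {E : Type} [AddCommGroup E] [Module ℂ E]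

theorem CGLb_conj (w : Equiv.Perm κ) (p : GL κ F) (i j : κ) :
    (((permG F w)⁻¹ * p * permG F w : GL κ F) : Matrix κ κ F) i j =
      (p : Matrix κ κ F) (w i) (w j) := by
  rw [← permG_conj w ((permG F w)⁻¹ * p * permG F w) i j]
  congr 1
  group

theorem CGLb_compact {G : Type} [Group G] [TopologicalSpace G] {H : Subgroup G}
    (K : Subgroup G) (hKH : K ≤ H) (hK : IsCompact (K : Set G)) :
    IsCompact ((K.subgroupOf H : Subgroup H) : Set H) := by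
  rw [Topology.IsEmbedding.subtypeVal.isCompact_iff]
  have h : (Subtype.val '' ((K.subgroupOf H : Subgroup H) : Set H)) = (K : Set G) := by
    ext x
    simp only [Set.mem_image, SetLike.mem_coe, Subgroup.mem_subgroupOf]
    constructor
    · rintro ⟨y, hy, rfl⟩
      exact hy
    · intro hx
      exact ⟨⟨x, hKH hx⟩, hx, rfl⟩
  rw [h]
  exact hK

theorem CGLb_split {ι₀ ι₂ : Type} (cb : κ → ι₀) (o₁ : κ → ℤ) (c₂ : κ → ι₂) (o₂ : κ → ℤ)
    (h₂ : ∀ i j, c₂ i = c₂ j ↔ cb i = cb j ∧ o₂ i = o₂ j) (w : Equiv.Perm κ)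
    (hw : ∀ i, cb (w i) = cb i) (m n : GL κ F) (hm : m ∈ lev F c₂) (hn : n ∈ uni F cb o₂)
    (h : permG F w * (m * n) * (permG F w)⁻¹ ∈ upp F cb o₁) :
    permG F w * m * (permG F w)⁻¹ ∈ upp F cb o₁ := by
  have hwl : permG F w ∈ lev F cb := permG_mem_lev' cb w hw
  have hml : m ∈ lev F cb := lev_le c₂ cb (fun i j hij => ((h₂ i j).1 hij).1) hm
  refine ⟨(lev F cb).mul_mem ((lev F cb).mul_mem hwl hml) ((lev F cb).inv_mem hwl),
    fun i j hij => ?_⟩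
  obtain ⟨i, rfl⟩ := w.surjective i
  obtain ⟨j, rfl⟩ := w.surjective j
  rw [permG_conj]
  have h1 := h.2 (w i) (w j) hij
  rw [permG_conj] at h1
  by_cases hc : c₂ i = c₂ j
  · have h2 : ((m * n : GL κ F) : Matrix κ κ F) i j = (m : Matrix κ κ F) i j := by
      rw [Units.val_mul, Matrix.mul_apply, Finset.sum_eq_single j]
      · rw [hn.2 j j rfl, Matrix.one_apply_eq, mul_one]
      · intro k _ hk
        by_cases hik : c₂ i = c₂ k
        · have h3 := ((h₂ i j).1 hc).2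
          have h4 := ((h₂ i k).1 hik).2
          rw [hn.2 k j (by omega), Matrix.one_apply_ne hk, mul_zero]
        · rw [hm i k hik, zero_mul]
      · intro h'
        exact absurd (Finset.mem_univ j) h'
    rw [← h2]
    exact h1
  · exact hm i j hc

/-- the cell data -/
def glCD {ι₀ ι₂ : Type} (cb : κ → ι₀) (o₁ : κ → ℤ) (c₂ : κ → ι₂) (o₂ : κ → ℤ)
    (h₂ : ∀ i j, c₂ i = c₂ j ↔ cb i = cb j ∧ o₂ i = o₂ j) (w : Equiv.Perm κ)
    (hw : ∀ i, cb (w i) = cb i) : CD (lev F cb) where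
  P := PPs F cb o₁
  M := (lev F c₂).subgroupOf (lev F cb)
  N := (uni F cb o₂).subgroupOf (lev F cb)
  N₀ := (uni F cb o₂ ⊓ Kc F κ 0).subgroupOf (lev F cb)
  w := ⟨permG F w, permG_mem_lev' cb w hw⟩
  P_cl := (upp_isClosed cb o₁).preimage continuous_subtype_val
  M_cl := (lev_isClosed c₂).preimage continuous_subtype_val
  N_cl := (uni_isClosed cb o₂).preimage continuous_subtype_val
  norm := fun m hm n hn => uni_norm c₂ cb o₂ h₂ m.1 n.1 hm hn
  exh := by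
    intro C hC hCN
    have hC' : IsCompact (Subtype.val '' C : Set (GL κ F)) := hC.image continuous_subtype_val
    obtain ⟨K, hK, hKc, hCK⟩ := uni_exh cb o₂ (Subtype.val '' C) hC' (by
      rintro _ ⟨x, hx, rfl⟩
      exact hCN hx)
    exact ⟨K.subgroupOf (lev F cb), fun x hx => hK hx,
      CGLb_compact K (hK.trans (uni_le cb o₂)) hKc, fun x hx => hCK ⟨x, hx, rfl⟩⟩
  N₀_le := fun x hx => hx.1
  N₀_cpt := by
    refine CGLb_compact _ (inf_le_left.trans (uni_le cb o₂)) ?_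
    exact (Kc_isCompact 0).inter_left (uni_isClosed cb o₂)
  N₀_op := ⟨Subtype.val ⁻¹' (Kc F κ 0 : Set (GL κ F)),
    (Kc_isOpen 0).preimage continuous_subtype_val, rfl⟩
  split := fun m hm n hn h => CGLb_split cb o₁ c₂ o₂ h₂ w hw m.1 n.1 hm hn h

theorem gl_dead {ι₀ ι₁ ι₂ : Type} (cb : κ → ι₀) (c₁ : κ → ι₁) (o₁ : κ → ℤ)
    (h₁ : ∀ i j, c₁ i = c₁ j ↔ cb i = cb j ∧ o₁ i = o₁ j) (c₂ : κ → ι₂) (o₂ : κ → ℤ)
    (h₂ : ∀ i j, c₂ i = c₂ j ↔ cb i = cb j ∧ o₂ i = o₂ j) (w : Equiv.Perm κ)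
    (hw : ∀ i, cb (w i) = cb i) (σ : Representation ℂ (lev F c₁) E) (hσ : Cusp c₁ σ)
    (hd : ¬ ∀ i j, c₁ (w i) = c₁ (w j) → c₂ i = c₂ j) :
    (glCD cb o₁ c₂ o₂ h₂ w hw).Dead (aP c₁ cb o₁ h₁ σ) := by
  push Not at hd
  obtain ⟨i, j, hij, hne⟩ := hd
  have hcb : cb i = cb j := by
    have h3 := ((h₁ (w i) (w j)).1 hij).1
    rw [hw, hw] at h3
    exact h3
  have ho : o₂ i ≠ o₂ j := fun h3 => hne ((h₂ i j).2 ⟨hcb, h3⟩)
  have hk := hσ (fun k => o₂ (w.symm k)) ⟨w i, w j, hij, by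
    show o₂ (w.symm (w i)) ≠ o₂ (w.symm (w j))
    rw [Equiv.symm_apply_apply, Equiv.symm_apply_apply]
    exact ho⟩
  have hwl : permG F w ∈ lev F cb := permG_mem_lev' cb w hw
  intro e
  have he : e ∈ (stdD F c₁ (fun k => o₂ (w.symm k))).kerJ σ := by
    rw [hk]
    exact Submodule.mem_top
  refine Submodule.span_mono ?_ he
  rintro x ⟨n, hn, v, rfl⟩
  have hn' : n ∈ uni F c₁ (fun k => o₂ (w.symm k)) := hn
  obtain ⟨h3, h4, h5⟩ := prL_lev c₁ cb o₁ h₁ n hn'.1.1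
  refine ⟨⟨⟨n, h3⟩, h4⟩, v, ?_, ?_⟩
  · show (permG F w)⁻¹ * n * permG F w ∈ uni F cb o₂
    refine ⟨⟨(lev F cb).mul_mem ((lev F cb).mul_mem ((lev F cb).inv_mem hwl) h3) hwl,
      fun k l hkl => ?_⟩, fun k l hkl => ?_⟩
    · rw [CGLb_conj]
      refine hn'.1.2 (w k) (w l) ?_
      show o₂ (w.symm (w l)) < o₂ (w.symm (w k))
      rw [Equiv.symm_apply_apply, Equiv.symm_apply_apply]
      exact hkl
    · rw [CGLb_conj, hn'.2 (w k) (w l) (by
        show o₂ (w.symm (w k)) = o₂ (w.symm (w l))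
        rw [Equiv.symm_apply_apply, Equiv.symm_apply_apply]
        exact hkl), Matrix.one_apply, Matrix.one_apply]
      simp only [w.injective.eq_iff]
  · show σ _ v - v = σ (prL c₁ cb o₁ h₁ ⟨⟨n, h3⟩, h4⟩) v - v
    rw [h5]

theorem gl_live {ι₀ ι₁ ι₂ : Type} (cb : κ → ι₀) (c₁ : κ → ι₁) (o₁ : κ → ℤ)
    (h₁ : ∀ i j, c₁ i = c₁ j ↔ cb i = cb j ∧ o₁ i = o₁ j) (c₂ : κ → ι₂) (o₂ : κ → ℤ)
    (h₂ : ∀ i j, c₂ i = c₂ j ↔ cb i = cb j ∧ o₂ i = o₂ j) (w : Equiv.Perm κ)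
    (hw : ∀ i, cb (w i) = cb i) (σ : Representation ℂ (lev F c₁) E)
    (hl : ∀ i j, c₁ (w i) = c₁ (w j) → c₂ i = c₂ j) :
    (glCD cb o₁ c₂ o₂ h₂ w hw).Live (aP c₁ cb o₁ h₁ σ) := by
  intro p hp v
  have hp' : (permG F w)⁻¹ * p.1.1 * permG F w ∈ uni F cb o₂ := hp
  have h3 : prL c₁ cb o₁ h₁ p = 1 := by
    apply Subtype.ext
    apply Units.ext
    ext k l
    rw [prL_apply]
    show (if o₁ k = o₁ l then (p.1.1 : Matrix κ κ F) k l else 0) = (1 : Matrix κ κ F) k l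
    by_cases hkl : o₁ k = o₁ l
    · rw [if_pos hkl]
      by_cases hcb : cb k = cb l
      · obtain ⟨i, rfl⟩ := w.surjective k
        obtain ⟨j, rfl⟩ := w.surjective l
        have h4 := hl i j ((h₁ (w i) (w j)).2 ⟨hcb, hkl⟩)
        have h5 := ((h₂ i j).1 h4).2
        have h6 := hp'.2 i j h5
        rw [CGLb_conj] at h6
        rw [h6, Matrix.one_apply, Matrix.one_apply]
        simp only [w.injective.eq_iff]
      · rw [p.1.2 k l hcb, Matrix.one_apply_ne]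
        rintro rfl
        exact hcb rfl
    · rw [if_neg hkl, Matrix.one_apply_ne]
      rintro rfl
      exact hkl rfl
  show σ (prL c₁ cb o₁ h₁ p) v = v
  rw [h3, map_one, Module.End.one_apply]

end

end Pool.Agent.Lib.MP_ca1492_al.P
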