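import Mathlib
import Pool.Agent.Lib.MP_ca1492_al.P.Avg
import Pool.Agent.Lib.MP_ca1492_al.P.CMeanA

/-!
# MP_ca1492_al, p-adic side, module CMeanB: Fubini, supports, cosets, compactness

* `mean_fub`: let `U` be the normal core in `K` of `rst K φ` (finite index, `Subgroup.normalCore`);
  then `h ↦ φ (h k)` is right invariant under `H ∩ U` for every `k ∈ K`; by `mean_left`,
  `mean K φ = mean K (φ(h ·))` for each `h ∈ H`; average over the finite set `H / (H ∩ U)` and
  exchange the two finite sums.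
* `mean_supp`: `φ` is right invariant under `U`; we may take `U ≤ K'`; then
  `Σ_{K/U} φ = Σ_{K'/U} φ`, `[K : U] = [K : K'] [K' : U]`.
* `mean_cosets`: `K ⊇ K₁`, `φ` left invariant under `B ≤ K`, and zero outside `B K₁`. Take
  `U ≤ K₁` of finite index in `K`, `φ` right `U`-invariant. `B K₁` is the disjoint union of the sets
  `b K₁`, `b ∈ B / (B ∩ K₁)`, and `Σ_{b K₁ / U} φ = Σ_{K₁ / U} φ`. So
  `Σ_{K/U} φ = [B : B ∩ K₁] Σ_{K₁/U} φ`; divide by `[K : U] = [K : K₁] [K₁ : U]`.
* `mean_conj`: transport of structure.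
* `tm_of_open`: `K` compact, `φ (k u) = φ k` for `u ∈ K ∩ O`, `O` an open subgroup: `K ∩ O` is an
  open subgroup of the compact group `K`.
* `tm_of_lc`: `K` compact and `φ` locally constant on `K`: the set of all `u ∈ K` with
  `φ (k u) = φ k` for all `k ∈ K` contains a neighbourhood of `1` (tube lemma:
  `{(k,u) | φ (k u) = φ k}` is open in `K × K` and contains `K × {1}`).
-/

set_option autoImplicit false

namespace Pool.Agent.Lib.MP_ca1492_al.P

open Topology

noncomputable section

variable {A : Type} [Group A] {E E' : Type} [AddCommGroup E] [Module ℂ E] [AddCommGroup E']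
  [Module ℂ E']

theorem CMeanB_comap_fi {G G' : Type*} [Group G] [Group G'] (f : G →* G') (H : Subgroup G')
    (hH : H.FiniteIndex) : (H.comap f).FiniteIndex := by
  have hfi : H.FiniteIndex := hH
  refine ⟨?_⟩
  rw [Subgroup.index_comap]
  intro h
  exact H.index_ne_zero_of_finite (Subgroup.index_eq_zero_of_relIndex_eq_zero h)

/-- a tame function is tame on a smaller subgroup -/
theorem CMeanB_tm_le (H K : Subgroup A) (hHK : H ≤ K) (φ : A → E) (hφ : Tm K φ) : Tm H φ := by
  unfold Tm at hφ ⊢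
  have hfi := CMeanB_comap_fi (Subgroup.inclusion hHK) (rst K φ) hφ
  refine Subgroup.finiteIndex_of_le (H := (rst K φ).comap (Subgroup.inclusion hHK)) ?_
  intro u hu h
  rw [Subgroup.mem_comap] at hu
  exact hu (Subgroup.inclusion hHK h)

theorem CMeanB_tm_const (K : Subgroup A) (e : E) : Tm K (fun _ : A => e) := by
  unfold Tm
  refine Subgroup.finiteIndex_of_le (H := (⊤ : Subgroup K)) ?_
  intro u _ k
  rfl

theorem CMeanB_tm_sum {ι : Type*} (K : Subgroup A) (s : Finset ι) (φ : ι → A → E)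
    (hφ : ∀ i ∈ s, Tm K (φ i)) : Tm K (fun x => ∑ i ∈ s, φ i x) := by
  classical
  induction s using Finset.induction_on with
  | empty =>
    simp only [Finset.sum_empty]
    exact CMeanB_tm_const K 0
  | insert i s hi ih =>
    simp only [Finset.sum_insert hi]
    exact tm_add K (φ i) (fun x => ∑ j ∈ s, φ j x) (hφ i (Finset.mem_insert_self i s))
      (ih (fun j hj => hφ j (Finset.mem_insert_of_mem hj)))

theorem CMeanB_mean_sum {ι : Type*} (K : Subgroup A) (s : Finset ι) (φ : ι → A → E)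
    (hφ : ∀ i ∈ s, Tm K (φ i)) : mean K (fun x => ∑ i ∈ s, φ i x) = ∑ i ∈ s, mean K (φ i) := by
  classical
  induction s using Finset.induction_on with
  | empty =>
    simp only [Finset.sum_empty]
    exact mean_const K 0
  | insert i s hi ih =>
    simp only [Finset.sum_insert hi]
    rw [mean_add K (φ i) (fun x => ∑ j ∈ s, φ j x) (hφ i (Finset.mem_insert_self i s))
      (CMeanB_tm_sum K s φ (fun j hj => hφ j (Finset.mem_insert_of_mem hj))),
      ih (fun j hj => hφ j (Finset.mem_insert_of_mem hj))]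

/-- the mean of an average of functions all having the same mean -/
theorem CMeanB_mean_avg {ι : Type*} (K : Subgroup A) (s : Finset ι) (hs : s.Nonempty)
    (φ : ι → A → E) (hφ : ∀ i ∈ s, Tm K (φ i)) (e : E) (he : ∀ i ∈ s, mean K (φ i) = e) :
    mean K (fun x => ((s.card : ℂ))⁻¹ • ∑ i ∈ s, φ i x) = e := by
  have h1 := mean_map K (fun x => ∑ i ∈ s, φ i x) (CMeanB_tm_sum K s φ hφ)
    (((s.card : ℂ))⁻¹ • (LinearMap.id : E →ₗ[ℂ] E))
  simp only [LinearMap.smul_apply, LinearMap.id_coe, id_eq] at h1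
  rw [h1, CMeanB_mean_sum K s φ hφ, Finset.sum_congr rfl he, Finset.sum_const,
    ← Nat.cast_smul_eq_nsmul ℂ, smul_smul, inv_mul_cancel₀, one_smul]
  exact Nat.cast_ne_zero.mpr (Finset.card_ne_zero.mpr hs)

/-- Fubini -/
theorem mean_fub (H K : Subgroup A) (hHK : H ≤ K) (φ : A → E) (hφ : Tm K φ) :
    mean K φ = mean K (fun k => mean H (fun h => φ (h * k))) := by
  classical
  have hfi : (rst K φ).FiniteIndex := hφ
  -- the normal core, as a subgroup of `H`
  have hcore : ((rst K φ).normalCore).FiniteIndex := inferInstance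
  set W : Subgroup H := ((rst K φ).normalCore).comap (Subgroup.inclusion hHK) with hW
  have hWfi : W.FiniteIndex := CMeanB_comap_fi _ _ hcore
  have hQ : Finite (H ⧸ W) := Subgroup.finite_quotient_of_finiteIndex
  let _ : Fintype (H ⧸ W) := Fintype.ofFinite _
  have hk : ∀ k ∈ K, mean H (fun h => φ (h * k)) =
      (((Finset.univ : Finset (H ⧸ W)).card : ℂ))⁻¹ •
        ∑ q : H ⧸ W, φ (((q.out : H) : A) * k) := by
    intro k hk
    have hle : W ≤ rst H (fun h => φ (h * k)) := by
      intro u hu h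
      rw [hW, Subgroup.mem_comap] at hu
      have hn : (rst K φ).normalCore.Normal := inferInstance
      have h1 := hn.conj_mem _ hu ⟨k, hk⟩⁻¹
      have h2 := Subgroup.normalCore_le _ h1 ((Subgroup.inclusion hHK h) * ⟨k, hk⟩)
      simp only [Subgroup.coe_mul, Subgroup.coe_inv, inv_inv] at h2
      have e : ((Subgroup.inclusion hHK h : K) : A) * k *
          (k⁻¹ * ((Subgroup.inclusion hHK u : K) : A) * k) = (h : A) * (u : A) * k := by
        rw [Subgroup.coe_inclusion, Subgroup.coe_inclusion]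
        group
      rw [e, Subgroup.coe_inclusion] at h2
      exact h2
    rw [mean_eq H (fun h => φ (h * k)) W hWfi hle, finsum_eq_sum_of_fintype, Finset.card_univ,
      ← Nat.card_eq_fintype_card]
    rfl
  rw [mean_congr K _ (fun k => (((Finset.univ : Finset (H ⧸ W)).card : ℂ))⁻¹ •
        ∑ q : H ⧸ W, φ (((q.out : H) : A) * k)) hk]
  symm
  refine CMeanB_mean_avg K Finset.univ Finset.univ_nonempty
    (fun (q : H ⧸ W) (k : A) => φ (((q.out : H) : A) * k)) ?_ _ ?_
  · intro q _
    exact tm_left K φ hφ _ (hHK (q.out : H).2)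
  · intro q _
    exact mean_left K φ hφ _ (hHK (q.out : H).2)

/-- Fubini, right version -/
theorem CMeanB_fub_right (H K : Subgroup A) (hHK : H ≤ K) (φ : A → E) (hφ : Tm K φ) :
    mean K (fun k => mean H (fun h => φ (k * h))) = mean K φ := by
  classical
  have hfi : (rst K φ).FiniteIndex := hφ
  set W : Subgroup H := (rst K φ).comap (Subgroup.inclusion hHK) with hW
  have hWfi : W.FiniteIndex := CMeanB_comap_fi _ _ hfi
  have hQ : Finite (H ⧸ W) := Subgroup.finite_quotient_of_finiteIndex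
  let _ : Fintype (H ⧸ W) := Fintype.ofFinite _
  have hk : ∀ k ∈ K, mean H (fun h => φ (k * h)) =
      (((Finset.univ : Finset (H ⧸ W)).card : ℂ))⁻¹ •
        ∑ q : H ⧸ W, φ (k * ((q.out : H) : A)) := by
    intro k hk
    have hle : W ≤ rst H (fun h => φ (k * h)) := by
      intro u hu h
      rw [hW, Subgroup.mem_comap] at hu
      have h2 := hu (⟨k, hk⟩ * (Subgroup.inclusion hHK h))
      simp only [Subgroup.coe_mul, Subgroup.coe_inclusion] at h2
      simp only
      rw [← mul_assoc]
      exact h2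
    rw [mean_eq H (fun h => φ (k * h)) W hWfi hle, finsum_eq_sum_of_fintype, Finset.card_univ,
      ← Nat.card_eq_fintype_card]
    rfl
  rw [mean_congr K _ (fun k => (((Finset.univ : Finset (H ⧸ W)).card : ℂ))⁻¹ •
        ∑ q : H ⧸ W, φ (k * ((q.out : H) : A))) hk]
  refine CMeanB_mean_avg K Finset.univ Finset.univ_nonempty
    (fun (q : H ⧸ W) (k : A) => φ (k * ((q.out : H) : A))) ?_ _ ?_
  · intro q _
    exact tm_right K φ hφ _ (hHK (q.out : H).2)
  · intro q _
    exact mean_right K φ hφ _ (hHK (q.out : H).2)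

theorem mean_cosets (B K₁ K : Subgroup A) (hB : B ≤ K) (hK : K₁ ≤ K) (hi : K₁.relIndex K ≠ 0)
    (φ : A → E) (hφ : Tm K φ) (hl : ∀ b ∈ B, ∀ k ∈ K, φ (b * k) = φ k)
    (h0 : ∀ k ∈ K, φ k ≠ 0 → ∃ b ∈ B, b⁻¹ * k ∈ K₁) :
    mean K φ = (((B ⊓ K₁).relIndex B : ℂ) * ((K₁.relIndex K : ℂ))⁻¹) • mean K₁ φ := by
  classical
  have hfi : (K₁.subgroupOf K).FiniteIndex := ⟨hi⟩
  have hQ : Finite (K ⧸ K₁.subgroupOf K) := Subgroup.finite_quotient_of_finiteIndex
  let _ : Fintype (K ⧸ K₁.subgroupOf K) := Fintype.ofFinite _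
  have hφ1 : Tm K₁ φ := CMeanB_tm_le K₁ K hK φ hφ
  set ψ : A → E := fun k => mean K₁ (fun h => φ (k * h)) with hψ
  -- `ψ` is right invariant under `K₁`
  have hinv : K₁.subgroupOf K ≤ rst K ψ := by
    intro u hu k
    rw [Subgroup.mem_subgroupOf] at hu
    have h1 := mean_left K₁ (fun h => φ ((k : A) * h))
      (CMeanB_tm_le K₁ K hK _ (tm_left K φ hφ k k.2)) (u : A) hu
    simp only [hψ]
    rw [← h1]
    congr 1
    funext x
    rw [mul_assoc]
  have e1 : mean K φ = mean K ψ := (CMeanB_fub_right K₁ K hK φ hφ).symm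
  have e2 : mean K ψ = ((K₁.relIndex K : ℂ))⁻¹ •
      ∑ q : K ⧸ K₁.subgroupOf K, ψ ((q.out : K) : A) := by
    rw [mean_eq K ψ (K₁.subgroupOf K) hfi hinv, finsum_eq_sum_of_fintype]
    rfl
  -- the values of `ψ` on `B K₁`
  have hval : ∀ b ∈ B, ψ b = mean K₁ φ := by
    intro b hb
    simp only [hψ]
    apply mean_congr
    intro k hk
    exact hl b hb k (hK hk)
  set F : (B ⧸ K₁.subgroupOf B) → (K ⧸ K₁.subgroupOf K) :=
    fun q => Subgroup.quotientSubgroupOfEmbeddingOfLE K₁ hB q with hF
  have hFinj : Function.Injective F := (Subgroup.quotientSubgroupOfEmbeddingOfLE K₁ hB).injective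
  have hQB : Finite (B ⧸ K₁.subgroupOf B) := Finite.of_injective F hFinj
  let _ : Fintype (B ⧸ K₁.subgroupOf B) := Fintype.ofFinite _
  have hout : ∀ k : K, ψ ((((k : K ⧸ K₁.subgroupOf K)).out : K) : A) = ψ k := by
    intro k
    have h1 : (((k : K ⧸ K₁.subgroupOf K)).out)⁻¹ * k ∈ K₁.subgroupOf K := by
      rw [← QuotientGroup.eq, QuotientGroup.out_eq']
    have h2 := hinv h1 (((k : K ⧸ K₁.subgroupOf K)).out)
    rw [← Subgroup.coe_mul, mul_inv_cancel_left] at h2
    exact h2.symm
  have hin : ∀ q : B ⧸ K₁.subgroupOf B, ψ (((F q).out : K) : A) = mean K₁ φ := by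
    intro q
    induction q using QuotientGroup.induction_on with
    | H b =>
      have h1 : F (b : B ⧸ K₁.subgroupOf B) =
          ((Subgroup.inclusion hB b : K) : K ⧸ K₁.subgroupOf K) := rfl
      rw [h1, hout]
      exact hval b b.2
  have hnin : ∀ q : K ⧸ K₁.subgroupOf K, q ∉ Finset.univ.image F → ψ ((q.out : K) : A) = 0 := by
    intro q hq
    have hz : ∀ x ∈ K₁, φ (((q.out : K) : A) * x) = 0 := by
      intro x hx
      by_contra hne
      obtain ⟨b, hb, hbx⟩ := h0 _ (K.mul_mem (q.out : K).2 (hK hx)) hne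
      apply hq
      rw [Finset.mem_image]
      refine ⟨((⟨b, hb⟩ : B) : B ⧸ K₁.subgroupOf B), Finset.mem_univ _, ?_⟩
      have h1 : F (((⟨b, hb⟩ : B)) : B ⧸ K₁.subgroupOf B) =
          ((Subgroup.inclusion hB ⟨b, hb⟩ : K) : K ⧸ K₁.subgroupOf K) := rfl
      rw [h1, ← QuotientGroup.out_eq' q, QuotientGroup.eq, Subgroup.mem_subgroupOf]
      simp only [Subgroup.coe_mul, Subgroup.coe_inv, Subgroup.coe_inclusion]
      rw [← mul_assoc] at hbx
      have h2 := K₁.mul_mem hbx (K₁.inv_mem hx)
      rwa [mul_inv_cancel_right] at h2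
    have h1 : ψ ((q.out : K) : A) = mean K₁ (fun _ => (0 : E)) := by
      simp only [hψ]
      exact mean_congr K₁ _ _ hz
    rw [h1]
    exact mean_const K₁ 0
  have hsum : ∑ q : K ⧸ K₁.subgroupOf K, ψ ((q.out : K) : A) =
      ((B ⊓ K₁).relIndex B : ℂ) • mean K₁ φ := by
    rw [← Finset.sum_subset (Finset.subset_univ (Finset.univ.image F))
      (fun q _ hq => hnin q hq), Finset.sum_image (fun a _ b _ hab => hFinj hab),
      Finset.sum_congr rfl (fun q _ => hin q), Finset.sum_const, Finset.card_univ,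
      ← Nat.card_eq_fintype_card, ← Nat.cast_smul_eq_nsmul ℂ, Subgroup.inf_relIndex_left]
    rfl
  rw [e1, e2, hsum, smul_smul, mul_comm]

theorem mean_supp (K' K : Subgroup A) (h : K' ≤ K) (hi : K'.relIndex K ≠ 0) (φ : A → E)
    (hφ : Tm K φ) (h0 : ∀ k ∈ K, k ∉ K' → φ k = 0) :
    mean K φ = ((K'.relIndex K : ℂ))⁻¹ • mean K' φ := by
  have h1 := mean_cosets ⊥ K' K bot_le h hi φ hφ (by
    intro b hb k _
    rw [Subgroup.mem_bot] at hb
    rw [hb, one_mul]) (by
    intro k hk hne
    refine ⟨1, Subgroup.one_mem _, ?_⟩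
    rw [inv_one, one_mul]
    by_contra hn
    exact hne (h0 k hk hn))
  rw [h1]
  congr 1
  have h2 : ((⊥ ⊓ K' : Subgroup A)).relIndex ⊥ = 1 := by
    simp
  rw [h2, Nat.cast_one, one_mul]

theorem mean_conj (K : Subgroup A) (g : A) (φ : A → E) :
    mean (K.map (MulAut.conj g).toMonoidHom) φ = mean K (fun x => φ (g * x * g⁻¹)) := by
  have hinj : Function.Injective ((MulAut.conj g).toMonoidHom : A →* A) := (MulAut.conj g).injective
  set e : K ≃* K.map (MulAut.conj g).toMonoidHom :=
    K.equivMapOfInjective (MulAut.conj g).toMonoidHom hinj with he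
  have hec : ∀ k : K, ((e k : K.map (MulAut.conj g).toMonoidHom) : A) = g * k * g⁻¹ := by
    intro k
    rw [he, Subgroup.coe_equivMapOfInjective_apply]
    simp [MulAut.conj_apply]
  have hr : rst K (fun x => φ (g * x * g⁻¹)) =
      (rst (K.map (MulAut.conj g).toMonoidHom) φ).comap e.toMonoidHom := by
    ext u
    rw [Subgroup.mem_comap]
    constructor
    · intro hu k
      obtain ⟨k', rfl⟩ := e.surjective k
      have h1 := hu k'
      simp only [MulEquiv.coe_toMonoidHom]
      rw [hec, hec]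
      simp only at h1
      rw [← h1]
      congr 1
      group
    · intro hu k
      have h1 := hu (e k)
      simp only [MulEquiv.coe_toMonoidHom] at h1
      rw [hec, hec] at h1
      simp only
      rw [← h1]
      congr 1
      group
  have hindex : (rst K (fun x => φ (g * x * g⁻¹))).index =
      (rst (K.map (MulAut.conj g).toMonoidHom) φ).index := by
    rw [hr]
    exact Subgroup.index_comap_of_surjective _ e.surjective
  have hQ : ∀ a b : K, (QuotientGroup.leftRel (rst K (fun x => φ (g * x * g⁻¹)))) a b ↔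
      (QuotientGroup.leftRel (rst (K.map (MulAut.conj g).toMonoidHom) φ)) (e a) (e b) := by
    intro a b
    rw [QuotientGroup.leftRel_apply, QuotientGroup.leftRel_apply, hr, Subgroup.mem_comap]
    have h1 : e.toMonoidHom (a⁻¹ * b) = (e a)⁻¹ * e b := by
      rw [map_mul, map_inv]
      rfl
    rw [h1]
  set Φ : (K ⧸ rst K (fun x => φ (g * x * g⁻¹))) ≃
      ((K.map (MulAut.conj g).toMonoidHom : Subgroup A) ⧸
        rst (K.map (MulAut.conj g).toMonoidHom) φ) := Quotient.congr e.toEquiv hQ with hΦ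
  unfold mean
  rw [hindex]
  congr 1
  rw [← finsum_comp_equiv Φ]
  apply finsum_congr
  intro q
  have hout1 : ∀ k : K, φ (g * (((k : K ⧸ rst K (fun x => φ (g * x * g⁻¹))).out : K) : A) * g⁻¹) =
      φ (g * k * g⁻¹) := by
    intro k
    have h1 : (((k : K ⧸ rst K (fun x => φ (g * x * g⁻¹))).out))⁻¹ * k ∈
        rst K (fun x => φ (g * x * g⁻¹)) := by
      rw [← QuotientGroup.eq, QuotientGroup.out_eq']
    have h2 := h1 (((k : K ⧸ rst K (fun x => φ (g * x * g⁻¹))).out))
    rw [← Subgroup.coe_mul, mul_inv_cancel_left] at h2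
    exact h2.symm
  have hout2 : ∀ k : (K.map (MulAut.conj g).toMonoidHom : Subgroup A),
      φ ((((k : _ ⧸ rst (K.map (MulAut.conj g).toMonoidHom) φ)).out :
        (K.map (MulAut.conj g).toMonoidHom : Subgroup A)) : A) = φ k := by
    intro k
    have h1 : (((k : _ ⧸ rst (K.map (MulAut.conj g).toMonoidHom) φ)).out)⁻¹ * k ∈
        rst (K.map (MulAut.conj g).toMonoidHom) φ := by
      rw [← QuotientGroup.eq, QuotientGroup.out_eq']
    have h2 := h1 (((k : _ ⧸ rst (K.map (MulAut.conj g).toMonoidHom) φ)).out)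
    rw [← Subgroup.coe_mul, mul_inv_cancel_left] at h2
    exact h2.symm
  induction q using QuotientGroup.induction_on with
  | H k =>
    have h1 : Φ (k : K ⧸ rst K (fun x => φ (g * x * g⁻¹))) =
      ((e k : (K.map (MulAut.conj g).toMonoidHom : Subgroup A)) : _ ⧸ rst (K.map (MulAut.conj g).toMonoidHom) φ) := rfl
    rw [h1, hout2, hec]
    exact (hout1 k).symm

variable [TopologicalSpace A] [IsTopologicalGroup A]

theorem tm_of_open (K : Subgroup A) (hK : IsCompact (K : Set A)) (φ : A → E) (U : Subgroup A)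
    (hU : IsOpen (U : Set A)) (h : ∀ k ∈ K, ∀ u ∈ U, u ∈ K → φ (k * u) = φ k) : Tm K φ := by
  haveI : CompactSpace K := isCompact_iff_compactSpace.1 hK
  have hUo : IsOpen ((U.subgroupOf K : Subgroup K) : Set K) := hU.preimage continuous_subtype_val
  haveI : Finite (K ⧸ U.subgroupOf K) := Subgroup.quotient_finite_of_isOpen _ hUo
  haveI : (U.subgroupOf K).FiniteIndex := Subgroup.finiteIndex_of_finite_quotient
  unfold Tm
  refine Subgroup.finiteIndex_of_le (H := U.subgroupOf K) ?_
  intro u hu k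
  rw [Subgroup.mem_subgroupOf] at hu
  exact h k k.2 u hu u.2

theorem tm_of_lc (K : Subgroup A) (hK : IsCompact (K : Set A)) (φ : A → E)
    (h : ∀ k ∈ K, ∃ O : Set A, IsOpen O ∧ k ∈ O ∧ ∀ k' ∈ K, k' ∈ O → φ k' = φ k) : Tm K φ := by
  haveI : CompactSpace K := isCompact_iff_compactSpace.1 hK
  letI : TopologicalSpace E := ⊥
  haveI : DiscreteTopology E := ⟨rfl⟩
  have hc : Continuous (fun k : K => φ (k : A)) := by
    rw [continuous_iff_continuousAt]
    intro k
    obtain ⟨O, hO, hkO, hO'⟩ := h k k.2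
    have h1 : (fun k' : K => φ (k' : A)) =ᶠ[𝓝 k] fun _ => φ (k : A) := by
      have h2 : {k' : K | (k' : A) ∈ O} ∈ 𝓝 k :=
        (hO.preimage continuous_subtype_val).mem_nhds hkO
      filter_upwards [h2] with k' hk'
      exact hO' k' k'.2 hk'
    exact (continuousAt_const (y := φ (k : A))).congr h1.symm
  set W : Set (K × K) := {p | φ ((p.1 * p.2 : K) : A) = φ (p.1 : A)} with hW
  have hWo : IsOpen W := by
    have h1 : W = (fun p : K × K => (φ ((p.1 * p.2 : K) : A), φ (p.1 : A))) ⁻¹'
        {x : E × E | x.1 = x.2} := rfl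
    rw [h1]
    apply (isOpen_discrete {x : E × E | x.1 = x.2}).preimage
    exact (hc.comp (continuous_fst.mul continuous_snd)).prodMk (hc.comp continuous_fst)
  have hsub : (Set.univ : Set K) ×ˢ ({1} : Set K) ⊆ W := by
    rintro ⟨k, u⟩ ⟨_, hu⟩
    simp only [Set.mem_singleton_iff] at hu
    subst hu
    simp [hW]
  obtain ⟨u, v, _, hv, hu1, hv1, huv⟩ :=
    generalized_tube_lemma isCompact_univ isCompact_singleton hWo hsub
  have hvr : v ⊆ (rst K φ : Set K) := by
    intro x hx k
    have h1 : (k, x) ∈ W := huv ⟨hu1 (Set.mem_univ k), hx⟩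
    exact h1
  have hopen : IsOpen ((rst K φ : Subgroup K) : Set K) :=
    Subgroup.isOpen_of_mem_nhds _ (g := 1)
      (Filter.mem_of_superset (hv.mem_nhds (hv1 (Set.mem_singleton 1))) hvr)
  haveI : Finite (K ⧸ rst K φ) := Subgroup.quotient_finite_of_isOpen _ hopen
  exact Subgroup.finiteIndex_of_finite_quotient

/-- the average of a vector is the mean of its orbit map -/
theorem avg_eq_mean {V : Type} [AddCommGroup V] [Module ℂ V] (π : Representation ℂ A V)
    (hπ : IsSm π) (K : Subgroup A) (hK : IsCompact (K : Set A)) (v : V) :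
    avg π K v = mean K (fun k => π k v) := by
  obtain ⟨s, _, hs1, hs2, hs3⟩ := avg_sum K hK (stabV π v) (hπ v)
  have h1 : v ∈ fix π (stabV π v) := by
    intro k hk
    exact hk
  rw [hs3 V π v h1]
  symm
  apply mean_eq_sum K (stabV π v) (fun k => π k v) _ s hs1 hs2
  intro k _ u hu _
  simp only [map_mul, Module.End.mul_apply]
  have h2 : π u v = v := hu
  rw [h2]

/-- evaluation of an average: if `L : V → E` is linear then `L (avg v)` is the mean of
`k ↦ L (π k v)` -/
theorem avg_mean_map {V : Type} [AddCommGroup V] [Module ℂ V] (π : Representation ℂ A V)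
    (hπ : IsSm π) (K : Subgroup A) (hK : IsCompact (K : Set A)) (v : V) (L : V →ₗ[ℂ] E) :
    L (avg π K v) = mean K (fun k => L (π k v)) := by
  rw [avg_eq_mean π hπ K hK v]
  symm
  apply mean_map K (fun k => π k v)
  apply tm_of_open K hK (fun k => π k v) (stabV π v) (hπ v)
  intro k _ u hu _
  simp only [map_mul, Module.End.mul_apply]
  have h2 : π u v = v := hu
  rw [h2]

end

end Pool.Agent.Lib.MP_ca1492_al.P
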