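import Mathlib
import Pool.Agent.Lib.MP_ca1492_al.P.CDef
import Pool.Agent.Lib.MP_ca1492_al.P.CMeanB

/-!
# MP_ca1492_al, p-adic side, module CDead: dead cells

`D : CD A`, `f ∈ IS P a`, the support of `f` in the cell `P w M N` is contained in `P w CM CN`.

CELL ARITHMETIC (`cell_arith`). Let `g = p w m n₀ ∈ P w M N` and `n₁ ∈ N` with `f (g n₁) ≠ 0`. Then
`w m n₀ n₁ = p₁ w c d`, `p₁ ∈ P`, `c ∈ CM`, `d ∈ CN`. Put `h = w⁻¹ p₁ w = m n₀ n₁ d⁻¹ c⁻¹ ∈ w⁻¹ P w`.
`h = (m c⁻¹) (c (n₀ n₁ d⁻¹) c⁻¹)` with `m c⁻¹ ∈ M`, `c (...) c⁻¹ ∈ N`; by `split`,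
`l = m c⁻¹` satisfies `w l w⁻¹ ∈ P`, hence also `b = c (n₀ n₁ d⁻¹) c⁻¹` satisfies `w b w⁻¹ ∈ P`.
So `m = l c`, `n₀ = (c⁻¹ b c) d n₁⁻¹`, and for all `x`:
`f (g x) = a(p) f (w l c (c⁻¹ b c) d n₁⁻¹ x) = a(p) a(w l w⁻¹) a(w b w⁻¹) f (w c d n₁⁻¹ x)`.

DEAD CELL. The set of values `f (w c d)`, `c ∈ CM`, `d ∈ CN` is finite (`f` is right invariant under
an open subgroup and `CM CN` is compact), say `e_1, ..., e_s`. By `Dead` each `e_j` is a finite sum
of vectors `a h v - v` with `h ∈ P ∩ w N w⁻¹`; the finitely many elements `w⁻¹ h w ∈ N` lie in a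
compact subgroup `K' ≤ N` (`exh`), and `K'' = w (K' ∩ w⁻¹ P w) w⁻¹` is a compact subgroup of `P` with
`avg a K'' e_j = 0` for all `j` (`avgL` kills `a h v - v` for `h ∈ K''`), and the same for every
compact subgroup of `P` containing `K''` (`avg_mono`). (Here `K''` is also considered as a subgroup of
`↥P`.)

Let `K ≤ N` be a compact subgroup containing `CN` and the compact set
`{c⁻¹ x c | c ∈ CM, x ∈ w⁻¹ K'' w}`. Let `K ≤ K₂ ≤ N`, `K₂` compact, `g ∈ P w M N`. If
`f (g n₁) = 0` for all `n₁ ∈ K₂` then the mean is `0`. Otherwise by the cell arithmetic and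
`mean_left` (`d n₁⁻¹ ∈ K₂`), `mean K₂ (f (g ·)) = a(..) mean K₂ (x ↦ f (w c x))`. Let `B' = K₂ ∩ c⁻¹
(w⁻¹ P w) c`; Fubini (`mean_fub`):
`mean K₂ (f(w c ·)) = mean over k ∈ K₂ of mean over b ∈ B' of f (w c b k)`. Fix `k ∈ K₂`. If
`f (w c b k) = 0` for all `b ∈ B'` fine. Otherwise for some `b₁ ∈ B'` (cell arithmetic for `g = w c`,
`n₁ = b₁ k`; or directly) `w c b₁ k = p₂ w c' d'`, and as above `m = c = l c'`, `b₁ k = (c'⁻¹ b' c') d'`
with `w l w⁻¹, w b' w⁻¹ ∈ P`; since `c'⁻¹ b' c' = c⁻¹ (l b' l⁻¹) c ∈ c⁻¹ (w⁻¹ P w) c` and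
`c'⁻¹ b' c' = b₁ k d'⁻¹ ∈ K₂` it is in `B'`; so `k = b₂ d'` with `b₂ ∈ B'`, and by `mean_right` on `B'`
`mean over b of f (w c b k) = mean over b of f (w c b d') = mean over b of a(w c b c⁻¹ w⁻¹) f(w c d')
= avg a (w c B' c⁻¹ w⁻¹) e_j = 0`, because `w c B' c⁻¹ w⁻¹ ⊇ K''` (`w⁻¹ K'' w ⊆ c K₂ c⁻¹`).
-/

set_option autoImplicit false

namespace Pool.Agent.Lib.MP_ca1492_al.P

open Topology

noncomputable section

variable {A : Type} [Group A] [TopologicalSpace A] [IsTopologicalGroup A]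
variable {E : Type} [AddCommGroup E] [Module ℂ E]

/-- cell arithmetic: if `w m n ∈ P w c d` then `m = l c`, `n = (c⁻¹ b c) d` with
`w l w⁻¹, w b w⁻¹ ∈ P`, `l ∈ M`, `b ∈ N` -/
theorem cell_arith (D : CD A) (m n c d p : A) (hm : m ∈ D.M) (hn : n ∈ D.N) (hc : c ∈ D.M)
    (hd : d ∈ D.N) (hp : p ∈ D.P) (h : D.w * m * n = p * D.w * c * d) :
    ∃ l ∈ D.M, ∃ b ∈ D.N, D.w * l * D.w⁻¹ ∈ D.P ∧ D.w * b * D.w⁻¹ ∈ D.P ∧ m = l * c ∧
      n = c⁻¹ * b * c * d ∧ p = (D.w * l * D.w⁻¹) * (D.w * b * D.w⁻¹) := by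
  have hp' : p = D.w * m * n * d⁻¹ * c⁻¹ * D.w⁻¹ := by
    rw [h]
    group
  have hl : m * c⁻¹ ∈ D.M := D.M.mul_mem hm (D.M.inv_mem hc)
  have hb : c * (n * d⁻¹) * c⁻¹ ∈ D.N := D.norm c hc _ (D.N.mul_mem hn (D.N.inv_mem hd))
  have hlP : D.w * (m * c⁻¹) * D.w⁻¹ ∈ D.P := by
    refine D.split _ hl _ hb ?_
    have h1 : D.w * (m * c⁻¹ * (c * (n * d⁻¹) * c⁻¹)) * D.w⁻¹ = p := by
      rw [hp']
      group
    rw [h1]
    exact hp
  have hbP : D.w * (c * (n * d⁻¹) * c⁻¹) * D.w⁻¹ ∈ D.P := by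
    have h1 : D.w * (c * (n * d⁻¹) * c⁻¹) * D.w⁻¹ = (D.w * (m * c⁻¹) * D.w⁻¹)⁻¹ * p := by
      rw [hp']
      group
    rw [h1]
    exact D.P.mul_mem (D.P.inv_mem hlP) hp
  refine ⟨m * c⁻¹, hl, c * (n * d⁻¹) * c⁻¹, hb, hlP, hbP, by group, by group, ?_⟩
  rw [hp']
  group

/-- the values of `f` on a compact set are finitely many -/
theorem finite_values (P : Subgroup A) (a : Representation ℂ P E) (f : A → E) (hf : f ∈ IS P a)
    (C : Set A) (hC : IsCompact C) : (f '' C).Finite := by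
  obtain ⟨-, U, hU, hfU⟩ := hf
  let _ : TopologicalSpace E := ⊥
  have _ : DiscreteTopology E := ⟨rfl⟩
  have hc : Continuous f := by
    rw [continuous_iff_continuousAt]
    intro g
    have h1 : f =ᶠ[𝓝 g] fun _ => f g := by
      have h2 : {x : A | g⁻¹ * x ∈ U} ∈ 𝓝 g := by
        have h3 : IsOpen {x : A | g⁻¹ * x ∈ U} :=
          hU.preimage (continuous_const.mul continuous_id)
        refine h3.mem_nhds ?_
        show g⁻¹ * g ∈ U
        rw [inv_mul_cancel]
        exact U.one_mem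
      filter_upwards [h2] with x hx
      have h4 := hfU g _ hx
      rwa [mul_inv_cancel_left] at h4
    exact (continuousAt_const (y := f g)).congr h1.symm
  exact isCompact_iff_finite.1 (hC.image hc)

/-- means and injective homomorphisms -/
theorem CDead_mean_map {A' : Type} [Group A'] (j : A' →* A) (hj : Function.Injective j)
    (K : Subgroup A') (φ : A → E) : mean (K.map j) φ = mean K (fun x => φ (j x)) := by
  set e : K ≃* K.map j := K.equivMapOfInjective j hj with he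
  have hec : ∀ k : K, ((e k : K.map j) : A) = j k := by
    intro k
    rw [he, Subgroup.coe_equivMapOfInjective_apply]
  have hr : rst K (fun x => φ (j x)) = (rst (K.map j) φ).comap e.toMonoidHom := by
    ext u
    rw [Subgroup.mem_comap]
    constructor
    · intro hu k
      obtain ⟨k', rfl⟩ := e.surjective k
      have h1 := hu k'
      simp only [MulEquiv.coe_toMonoidHom]
      rw [hec, hec]
      simp only at h1
      rw [← h1, map_mul]
    · intro hu k
      have h1 := hu (e k)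
      simp only [MulEquiv.coe_toMonoidHom] at h1
      rw [hec, hec] at h1
      simp only
      rw [← h1, map_mul]
  have hindex : (rst K (fun x => φ (j x))).index = (rst (K.map j) φ).index := by
    rw [hr]
    exact Subgroup.index_comap_of_surjective _ e.surjective
  have hQ : ∀ a b : K, (QuotientGroup.leftRel (rst K (fun x => φ (j x)))) a b ↔
      (QuotientGroup.leftRel (rst (K.map j) φ)) (e a) (e b) := by
    intro a b
    rw [QuotientGroup.leftRel_apply, QuotientGroup.leftRel_apply, hr, Subgroup.mem_comap]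
    have h1 : e.toMonoidHom (a⁻¹ * b) = (e a)⁻¹ * e b := by
      rw [map_mul, map_inv]
      rfl
    rw [h1]
  set Φ : (K ⧸ rst K (fun x => φ (j x))) ≃ ((K.map j : Subgroup A) ⧸ rst (K.map j) φ) :=
    Quotient.congr e.toEquiv hQ with hΦ
  unfold mean
  rw [hindex]
  congr 1
  rw [← finsum_comp_equiv Φ]
  apply finsum_congr
  intro q
  induction q using QuotientGroup.induction_on with
  | H k =>
    have h1 : Φ (k : K ⧸ rst K (fun x => φ (j x))) =
      ((e k : (K.map j : Subgroup A)) : _ ⧸ rst (K.map j) φ) := rfl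
    rw [h1, CMeanA_out (rst (K.map j) φ) le_rfl (e k), hec]
    exact (CMeanA_out (φ := fun x => φ (j x)) (rst K (fun x => φ (j x))) le_rfl k).symm

theorem CDead_span (D : CD A) (a : Representation ℂ D.P E) (ha : IsSm a) (e : E)
    (he : e ∈ Submodule.span ℂ {x | ∃ (p : D.P) (v : E), D.w⁻¹ * (p : A) * D.w ∈ D.N ∧
      x = a p v - v}) :
    ∃ L : Subgroup A, L ≤ D.N ∧ IsCompact (L : Set A) ∧ ∀ K : Subgroup D.P,
      IsCompact (K : Set D.P) → (∀ p : D.P, D.w⁻¹ * (p : A) * D.w ∈ L → p ∈ K) →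
        avg a K e = 0 := by
  refine Submodule.span_induction (p := fun x _ => ∃ L : Subgroup A, L ≤ D.N ∧
    IsCompact (L : Set A) ∧ ∀ K : Subgroup D.P, IsCompact (K : Set D.P) →
      (∀ p : D.P, D.w⁻¹ * (p : A) * D.w ∈ L → p ∈ K) → avg a K x = 0) ?_ ?_ ?_ ?_ he
  · rintro x ⟨p, v, hp, rfl⟩
    obtain ⟨L, hL, hLc, hLp⟩ := D.exh {D.w⁻¹ * (p : A) * D.w} isCompact_singleton
      (by
        rw [Set.singleton_subset_iff]
        exact hp)
    refine ⟨L, hL, hLc, fun K hK h => ?_⟩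
    have hpK : p ∈ K := h p (hLp (Set.mem_singleton _))
    have h1 : avgL a ha K hK (a p v - v) = avg a K (a p v) - avg a K v := by
      rw [map_sub]
      rfl
    have h2 : avg a K (a p v - v) = avgL a ha K hK (a p v - v) := rfl
    rw [h2, h1, avg_apply_of_mem a K p hpK, sub_self]
  · refine ⟨⊥, bot_le, ?_, fun K hK _ => ?_⟩
    · rw [Subgroup.coe_bot]
      exact isCompact_singleton
    · have h2 : avg a K 0 = avgL a ha K hK 0 := rfl
      rw [h2, map_zero]
  · rintro x y _ _ ⟨L, hL, hLc, hLp⟩ ⟨L', hL', hLc', hLp'⟩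
    obtain ⟨L₂, hL₂, hLc₂, hLp₂⟩ := D.exh (L ∪ L') (hLc.union hLc') (Set.union_subset hL hL')
    refine ⟨L₂, hL₂, hLc₂, fun K hK h => ?_⟩
    have h2 : avg a K (x + y) = avgL a ha K hK (x + y) := rfl
    have h3 : avg a K x = 0 := hLp K hK fun p hp => h p (hLp₂ (Or.inl hp))
    have h4 : avg a K y = 0 := hLp' K hK fun p hp => h p (hLp₂ (Or.inr hp))
    rw [h2, map_add]
    show avg a K x + avg a K y = 0
    rw [h3, h4, add_zero]
  · rintro c x _ ⟨L, hL, hLc, hLp⟩
    refine ⟨L, hL, hLc, fun K hK h => ?_⟩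
    have h2 : avg a K (c • x) = avgL a ha K hK (c • x) := rfl
    have h3 : avg a K x = 0 := hLp K hK h
    rw [h2, map_smul]
    show c • avg a K x = 0
    rw [h3, smul_zero]

theorem CDead_fin (D : CD A) (a : Representation ℂ D.P E) (ha : IsSm a) (hd : D.Dead a)
    (S : Finset E) :
    ∃ L : Subgroup A, L ≤ D.N ∧ IsCompact (L : Set A) ∧ ∀ e ∈ S, ∀ K : Subgroup D.P,
      IsCompact (K : Set D.P) → (∀ p : D.P, D.w⁻¹ * (p : A) * D.w ∈ L → p ∈ K) →
        avg a K e = 0 := by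
  classical
  induction S using Finset.induction_on with
  | empty =>
    refine ⟨⊥, bot_le, ?_, fun e he => absurd he (Finset.notMem_empty e)⟩
    rw [Subgroup.coe_bot]
    exact isCompact_singleton
  | insert x S _ ih =>
    obtain ⟨L, hL, hLc, hLp⟩ := ih
    obtain ⟨L', hL', hLc', hLp'⟩ := CDead_span D a ha x (hd x)
    obtain ⟨L₂, hL₂, hLc₂, hLp₂⟩ := D.exh (L ∪ L') (hLc.union hLc') (Set.union_subset hL hL')
    refine ⟨L₂, hL₂, hLc₂, fun e he K hK h => ?_⟩
    rcases Finset.mem_insert.1 he with rfl | he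
    · exact hLp' K hK fun p hp => h p (hLp₂ (Or.inr hp))
    · exact hLp e he K hK fun p hp => h p (hLp₂ (Or.inl hp))

theorem dead_cell (D : CD A) (a : Representation ℂ D.P E) (ha : IsSm a) (hd : D.Dead a)
    (f : A → E) (hf : f ∈ IS D.P a) (hc : D.Csupp f) :
    ∃ K : Subgroup A, K ≤ D.N ∧ IsCompact (K : Set A) ∧ ∀ K₂ : Subgroup A, K ≤ K₂ → K₂ ≤ D.N →
      IsCompact (K₂ : Set A) → ∀ g ∈ cell D.P D.M D.N D.w, mean K₂ (fun x => f (g * x)) = 0 := by
  classical
  obtain ⟨CM, CN, hCM, hCMM, hCN, hCNN, hsupp⟩ := hc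
  -- the finitely many values
  have hval : (f '' ((fun x : A × A => D.w * x.1 * x.2) '' (CM ×ˢ CN))).Finite :=
    finite_values D.P a f hf _ ((hCM.prod hCN).image (by fun_prop))
  obtain ⟨L, hL, hLc, hLp⟩ := CDead_fin D a ha hd hval.toFinset
  have hvS : ∀ c ∈ CM, ∀ d ∈ CN, f (D.w * c * d) ∈ hval.toFinset := by
    intro c hc d hd
    rw [Set.Finite.mem_toFinset]
    exact ⟨_, ⟨(c, d), ⟨hc, hd⟩, rfl⟩, rfl⟩
  -- the compact subgroup `K`
  have hconj : IsCompact ((fun x : A × A => x.1⁻¹ * x.2 * x.1) '' (CM ×ˢ (L : Set A))) :=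
    (hCM.prod hLc).image (by fun_prop)
  obtain ⟨K, hK, hKc, hKC⟩ := D.exh
    (CN ∪ ((fun x : A × A => x.1⁻¹ * x.2 * x.1) '' (CM ×ˢ (L : Set A)))) (hCN.union hconj)
    (by
      refine Set.union_subset hCNN ?_
      rintro _ ⟨⟨c, x⟩, ⟨hc, hx⟩, rfl⟩
      have h1 := D.norm c⁻¹ (D.M.inv_mem (hCMM hc)) x (hL hx)
      rw [inv_inv] at h1
      exact h1)
  refine ⟨K, hK, hKc, ?_⟩
  intro K₂ hK₂ hK₂N hK₂c g hg
  have hCNK : ∀ d ∈ CN, d ∈ K₂ := fun d hd => hK₂ (hKC (Or.inl hd))
  have hCLK : ∀ c ∈ CM, ∀ x ∈ L, c⁻¹ * x * c ∈ K₂ := fun c hc x hx =>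
    hK₂ (hKC (Or.inr ⟨(c, x), ⟨hc, hx⟩, rfl⟩))
  obtain ⟨hfP, U, hU, hfU⟩ := hf
  -- tameness
  have htm : ∀ (H : Subgroup A), IsCompact (H : Set A) → ∀ y : A, Tm H (fun x => f (y * x)) := by
    intro H hH y
    refine tm_of_open H hH _ U hU fun k _ u hu _ => ?_
    show f (y * (k * u)) = f (y * k)
    rw [← mul_assoc]
    exact hfU _ u hu
  -- the main claim
  have main : ∀ c ∈ CM, mean K₂ (fun x => f (D.w * c * x)) = 0 := by
    intro c hc
    have hcM := hCMM hc
    set B' : Subgroup A := K₂ ⊓ cjS (D.w * c) D.P with hB'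
    have hmemB : ∀ x, x ∈ B' ↔ x ∈ K₂ ∧ (D.w * c) * x * (D.w * c)⁻¹ ∈ D.P := by
      intro x
      rw [hB', Subgroup.mem_inf, mem_cjS]
    have hB'c : IsCompact (B' : Set A) := by
      have h1 : (B' : Set A) = (K₂ : Set A) ∩
          (fun x => (D.w * c) * x * (D.w * c)⁻¹) ⁻¹' (D.P : Set A) := by
        ext x
        exact hmemB x
      rw [h1]
      exact hK₂c.inter_right (D.P_cl.preimage (by fun_prop))
    rw [mean_fub B' K₂ inf_le_left _ (htm K₂ hK₂c (D.w * c))]
    have hzero : ∀ k ∈ K₂, mean B' (fun h => f (D.w * c * (h * k))) = 0 := by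
      intro k hk
      by_cases hall : ∀ b ∈ B', f (D.w * c * (b * k)) = 0
      · rw [mean_congr B' _ (fun _ => (0 : E)) hall]
        exact mean_const B' 0
      · push Not at hall
        obtain ⟨b₁, hb₁, hne⟩ := hall
        have hb₁' := (hmemB b₁).1 hb₁
        have hcell : D.w * c * (b₁ * k) ∈ cell D.P D.M D.N D.w :=
          ⟨1, D.P.one_mem, c, hcM, b₁ * k, hK₂N (K₂.mul_mem hb₁'.1 hk), by rw [one_mul]⟩
        obtain ⟨p₂, hp₂, c', hc', d', hd', heq⟩ := hsupp _ hcell hne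
        obtain ⟨l, hl, b, hb, hlP, hbP, hcl, hbk, -⟩ := cell_arith D c (b₁ * k) c' d' p₂ hcM
          (hK₂N (K₂.mul_mem hb₁'.1 hk)) (hCMM hc') (hCNN hd') hp₂ heq
        have hb₂ : c'⁻¹ * b * c' ∈ B' := by
          rw [hmemB]
          constructor
          · have h1 : c'⁻¹ * b * c' = b₁ * k * d'⁻¹ := by
              rw [hbk]
              group
            rw [h1]
            exact K₂.mul_mem (K₂.mul_mem hb₁'.1 hk) (K₂.inv_mem (hCNK d' hd'))
          · have h1 : (D.w * c) * (c'⁻¹ * b * c') * (D.w * c)⁻¹ =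
                (D.w * l * D.w⁻¹) * (D.w * b * D.w⁻¹) * (D.w * l * D.w⁻¹)⁻¹ := by
              rw [hcl]
              group
            rw [h1]
            exact D.P.mul_mem (D.P.mul_mem hlP hbP) (D.P.inv_mem hlP)
        have hk' : ∀ h : A, h * k = h * (b₁⁻¹ * (c'⁻¹ * b * c')) * d' := by
          intro h
          have h1 : k = b₁⁻¹ * (c'⁻¹ * b * c' * d') := by
            rw [← hbk]
            group
          rw [h1]
          group
        have hψ : Tm B' (fun h => f (D.w * c * (h * d'))) := by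
          refine tm_of_open B' hB'c _ (U.map (MulAut.conj d').toMonoidHom) ?_ fun k' _ u hu _ => ?_
          · have h1 : ((U.map (MulAut.conj d').toMonoidHom : Subgroup A) : Set A) =
                (fun x => d'⁻¹ * x * d') ⁻¹' (U : Set A) := by
              ext x
              simp only [Subgroup.coe_map, Set.mem_image, Set.mem_preimage, SetLike.mem_coe]
              constructor
              · rintro ⟨y, hy, rfl⟩
                simpa [MulAut.conj_apply, mul_assoc] using hy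
              · intro hx
                exact ⟨_, hx, by simp [MulAut.conj_apply, mul_assoc]⟩
            rw [h1]
            exact hU.preimage (by fun_prop)
          · obtain ⟨y, hy, rfl⟩ := hu
            simp only [MulEquiv.coe_toMonoidHom, MulAut.conj_apply]
            have h2 : D.w * c * (k' * (d' * y * d'⁻¹) * d') = D.w * c * (k' * d') * y := by
              group
            rw [h2]
            exact hfU _ y hy
        have h3 : mean B' (fun h => f (D.w * c * (h * k))) =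
            mean B' (fun h => f (D.w * c * (h * d'))) := by
          have h4 := mean_right B' (fun h => f (D.w * c * (h * d'))) hψ
            (b₁⁻¹ * (c'⁻¹ * b * c')) (B'.mul_mem (B'.inv_mem hb₁) hb₂)
          rw [← h4]
          refine mean_congr B' _ _ fun h _ => ?_
          show f (D.w * c * (h * k)) = f (D.w * c * (h * (b₁⁻¹ * (c'⁻¹ * b * c')) * d'))
          rw [hk' h]
        rw [h3]
        -- transport to `P`
        set j : D.P →* A := (MulAut.conj (D.w * c)⁻¹).toMonoidHom.comp D.P.subtype with hj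
        have hjv : ∀ p : D.P, j p = (D.w * c)⁻¹ * (p : A) * (D.w * c) := by
          intro p
          show (D.w * c)⁻¹ * (p : A) * ((D.w * c)⁻¹)⁻¹ = _
          rw [inv_inv]
        have hjinj : Function.Injective j := by
          intro p q hpq
          rw [hjv, hjv] at hpq
          exact Subtype.ext (mul_left_cancel (mul_right_cancel hpq))
        have hmap : (B'.comap j).map j = B' := by
          refine Subgroup.map_comap_eq_self fun x hx => ?_
          refine ⟨⟨_, ((hmemB x).1 hx).2⟩, ?_⟩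
          rw [hjv]
          group
        have hjc : IsClosedEmbedding j := by
          have h5 : (j : D.P → A) = (Homeomorph.mulRight (D.w * c)) ∘
              (Homeomorph.mulLeft (D.w * c)⁻¹) ∘ ((↑) : D.P → A) := by
            funext p
            rw [hjv]
            rfl
          rw [h5]
          exact (Homeomorph.isClosedEmbedding _).comp
            ((Homeomorph.isClosedEmbedding _).comp D.P_cl.isClosedEmbedding_subtypeVal)
        have hK₃c : IsCompact ((B'.comap j : Subgroup D.P) : Set D.P) :=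
          hjc.isCompact_preimage hB'c
        have h6 : mean B' (fun h => f (D.w * c * (h * d'))) =
            avg a (B'.comap j) (f (D.w * c * d')) := by
          rw [avg_eq_mean a ha _ hK₃c]
          conv_lhs => rw [← hmap]
          rw [CDead_mean_map j hjinj]
          refine mean_congr _ _ _ fun p _ => ?_
          show f (D.w * c * (j p * d')) = a p (f (D.w * c * d'))
          rw [← hfP, hjv]
          congr 1
          group
        rw [h6]
        refine hLp _ (hvS c hc d' hd') _ hK₃c fun p hp => ?_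
        rw [Subgroup.mem_comap, hmemB, hjv]
        constructor
        · have h7 : (D.w * c)⁻¹ * (p : A) * (D.w * c) = c⁻¹ * (D.w⁻¹ * (p : A) * D.w) * c := by
            group
          rw [h7]
          exact hCLK c hc _ hp
        · have h7 : (D.w * c) * ((D.w * c)⁻¹ * (p : A) * (D.w * c)) * (D.w * c)⁻¹ = (p : A) := by
            group
          rw [h7]
          exact p.2
    rw [mean_congr K₂ _ (fun _ => (0 : E)) hzero]
    exact mean_const K₂ 0
  -- reduction to the main claim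
  by_cases hall : ∀ n ∈ K₂, f (g * n) = 0
  · rw [mean_congr K₂ _ (fun _ => (0 : E)) hall]
    exact mean_const K₂ 0
  · push Not at hall
    obtain ⟨n₁, hn₁, hne⟩ := hall
    obtain ⟨p, hp, m, hm, n₀, hn₀, rfl⟩ := hg
    have hcell : p * D.w * m * n₀ * n₁ ∈ cell D.P D.M D.N D.w :=
      ⟨p, hp, m, hm, n₀ * n₁, D.N.mul_mem hn₀ (hK₂N hn₁), by group⟩
    obtain ⟨p₁, hp₁, c, hc, d, hd', heq⟩ := hsupp _ hcell hne
    have h1 : ∀ x : A, f (p * D.w * m * n₀ * x) =
        a ⟨p₁, hp₁⟩ (f (D.w * c * (d * n₁⁻¹ * x))) := by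
      intro x
      rw [← hfP]
      congr 1
      have h2 : p * D.w * m * n₀ = p₁ * D.w * c * d * n₁⁻¹ := by
        rw [← heq]
        group
      rw [h2]
      group
    have htm2 : Tm K₂ (fun x => f (D.w * c * (d * n₁⁻¹ * x))) := by
      have h3 := htm K₂ hK₂c (D.w * c * (d * n₁⁻¹))
      refine tm_congr K₂ _ _ (fun x _ => ?_) h3
      show f (D.w * c * (d * n₁⁻¹) * x) = f (D.w * c * (d * n₁⁻¹ * x))
      congr 1
      group
    rw [mean_congr K₂ _ (fun x => a ⟨p₁, hp₁⟩ (f (D.w * c * (d * n₁⁻¹ * x)))) fun x _ => h1 x,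
      mean_map K₂ (fun x => f (D.w * c * (d * n₁⁻¹ * x))) htm2 (a ⟨p₁, hp₁⟩)]
    have h4 := mean_left K₂ (fun x => f (D.w * c * x)) (htm K₂ hK₂c (D.w * c)) (d * n₁⁻¹)
      (K₂.mul_mem (hCNK d hd') (K₂.inv_mem hn₁))
    rw [h4, main c hc, map_zero]

end

end Pool.Agent.Lib.MP_ca1492_al.P
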