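import Mathlib
import Pool.Agent.Lib.MP_ca1492_al.P.CDef
import Pool.Agent.Lib.MP_ca1492_al.P.CMeanB

/-!
# MP_ca1492_al, p-adic side, module CIntA: the invariant integral over `B \ N`

`IQ N B N₀`: `B ≤ N` closed, `N` exhausted by compact subgroups, `N₀` a compact open subgroup
of `N`. `iq N B N₀ φ` = common value of `ratio B N₀ K • mean K φ` for all large `K`.

* `good_exists`: exhaust `N₀ ∪ C ∪ C_φ` by a compact subgroup.
* every compact `K` with `N₀ ≤ K ≤ N` is relatively open in `N`, so for two such groups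
  `K ≤ K'` the index `[K' : K]` is finite, and also `[K' ∩ B : K ∩ B]`.
* `tm_of_LI`: `tm_of_open`.
* `mean_step`: `N₀ ≤ K ≤ K' ≤ N` compact, `K` good for `φ` (then `K'` is good too):
  `ratio K' • mean K' φ = ratio K • mean K φ`. Use `mean_cosets` for `B ∩ K'` (if `n ∈ K'`,
  `φ n ≠ 0`, `b ∈ B`, `b⁻¹ n ∈ K` then `b ∈ K'`), the multiplicativity of indices
  `[K' : N₀] = [K' : K] [K : N₀]`, `[K' ∩ B : N₀ ∩ B] = [K' ∩ B : K ∩ B] [K ∩ B : N₀ ∩ B]`,
  all indices nonzero.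
* `iq_eq`: compare with `h.choose` through a compact group containing both (exhaustion).
* `iq_zero_iff`: `ratio ≠ 0`.
-/

set_option autoImplicit false

namespace Pool.Agent.Lib.MP_ca1492_al.P

open Topology

noncomputable section

variable {A : Type} [Group A] [TopologicalSpace A] [IsTopologicalGroup A]
variable {E E' : Type} [AddCommGroup E] [Module ℂ E] [AddCommGroup E'] [Module ℂ E']

/-- hypotheses for the integral over `B \ N` -/
structure IQ {A : Type} [Group A] [TopologicalSpace A] (N B N₀ : Subgroup A) : Prop where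
  B_le : B ≤ N
  B_cl : IsClosed (B : Set A)
  N₀_le : N₀ ≤ N
  N₀_cpt : IsCompact (N₀ : Set A)
  N₀_op : ∃ O : Set A, IsOpen O ∧ (N₀ : Set A) = (N : Set A) ∩ O
  exh : ∀ C : Set A, IsCompact C → C ⊆ (N : Set A) →
    ∃ K : Subgroup A, K ≤ N ∧ IsCompact (K : Set A) ∧ C ⊆ (K : Set A)

theorem CD.iqd (D : CD A) : IQ D.N D.B D.N₀ := by
  refine ⟨inf_le_left, ?_, D.N₀_le, D.N₀_cpt, D.N₀_op, D.exh⟩
  have e : ((D.B : Subgroup A) : Set A) =
      (D.N : Set A) ∩ (fun x => D.w * x * D.w⁻¹) ⁻¹' (D.P : Set A) := by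
    ext x
    constructor
    · rintro ⟨h1, h2⟩
      exact ⟨h1, mem_cjS.1 h2⟩
    · rintro ⟨h1, h2⟩
      exact ⟨h1, mem_cjS.2 h2⟩
  rw [e]
  exact D.N_cl.inter (D.P_cl.preimage (by fun_prop))

variable {N B N₀ : Subgroup A}

theorem good_exists (h : IQ N B N₀) (φ : A → E) (hφ : LI N B φ) (C : Set A) (hC : IsCompact C)
    (hCN : C ⊆ (N : Set A)) : ∃ K : Subgroup A, GoodK N B N₀ φ K ∧ C ⊆ (K : Set A) := by
  obtain ⟨_, _, C', hC', hC'N, hs⟩ := hφ
  obtain ⟨K, hKN, hKc, hK⟩ := h.exh ((N₀ : Set A) ∪ C ∪ C') ((h.N₀_cpt.union hC).union hC')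
    (Set.union_subset (Set.union_subset h.N₀_le hCN) hC'N)
  refine ⟨K, ⟨fun x hx => hK (Or.inl (Or.inl hx)), hKN, hKc, fun n hn h0 => ?_⟩,
    fun x hx => hK (Or.inl (Or.inr hx))⟩
  obtain ⟨b, hb, hbn⟩ := hs n hn h0
  exact ⟨b, hb, hK (Or.inr hbn)⟩

theorem good_mono (h : IQ N B N₀) (φ : A → E) (K K' : Subgroup A) (hK : GoodK N B N₀ φ K)
    (hKK : K ≤ K') (hK' : K' ≤ N) (hc : IsCompact (K' : Set A)) : GoodK N B N₀ φ K' := by
  obtain ⟨h1, _, _, h4⟩ := hK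
  refine ⟨h1.trans hKK, hK', hc, fun n hn h0 => ?_⟩
  obtain ⟨b, hb, hbn⟩ := h4 n hn h0
  exact ⟨b, hb, hKK hbn⟩

theorem index_ne_zero (h : IQ N B N₀) (K K' : Subgroup A) (h1 : N₀ ≤ K) (h2 : K ≤ K')
    (h3 : K' ≤ N) (hc : IsCompact (K' : Set A)) :
    K.relIndex K' ≠ 0 ∧ (K ⊓ B).relIndex (K' ⊓ B) ≠ 0 := by
  have hK : K.relIndex K' ≠ 0 := by
    haveI : CompactSpace K' := isCompact_iff_compactSpace.1 hc
    obtain ⟨O, hO, hN₀⟩ := h.N₀_op
    have ho : IsOpen ((N₀.subgroupOf K' : Subgroup K') : Set K') := by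
      have e : ((N₀.subgroupOf K' : Subgroup K') : Set K') =
          (fun x : K' => (x : A)) ⁻¹' O := by
        ext x
        constructor
        · intro hx
          have h4 : (x : A) ∈ (N₀ : Set A) := hx
          rw [hN₀] at h4
          exact h4.2
        · intro hx
          have h4 : (x : A) ∈ (N : Set A) ∩ O := ⟨h3 x.2, hx⟩
          rw [← hN₀] at h4
          exact h4
      rw [e]
      exact hO.preimage continuous_subtype_val
    have ho' : IsOpen ((K.subgroupOf K' : Subgroup K') : Set K') :=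
      Subgroup.isOpen_mono (H₁ := N₀.subgroupOf K') (fun x hx => h1 hx) ho
    haveI : Finite (K' ⧸ K.subgroupOf K') := Subgroup.quotient_finite_of_isOpen _ ho'
    have : (K.subgroupOf K').FiniteIndex := Subgroup.finiteIndex_of_finite_quotient
    exact this.index_ne_zero
  refine ⟨hK, ?_⟩
  refine Subgroup.relIndex_inf_ne_zero ?_ ?_
  · intro h0
    exact hK (Subgroup.relIndex_eq_zero_of_le_right inf_le_left h0)
  · rw [Subgroup.relIndex_eq_one.2 inf_le_right]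
    exact one_ne_zero

theorem ratio_ne_zero (h : IQ N B N₀) (K : Subgroup A) (h1 : N₀ ≤ K) (h2 : K ≤ N)
    (hc : IsCompact (K : Set A)) : ratio B N₀ K ≠ 0 := by
  obtain ⟨h3, h4⟩ := index_ne_zero h N₀ K le_rfl h1 h2 hc
  unfold ratio
  exact mul_ne_zero (Nat.cast_ne_zero.2 h3) (inv_ne_zero (Nat.cast_ne_zero.2 h4))

theorem tm_of_LI (φ : A → E) (hφ : LI N B φ) (K : Subgroup A) (hK : K ≤ N)
    (hc : IsCompact (K : Set A)) : Tm K φ := by
  obtain ⟨_, ⟨U, hU, hU'⟩, _⟩ := hφ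
  exact tm_of_open K hc φ U hU fun k hk u hu huK => hU' k (hK hk) u hu (hK huK)

theorem mean_step (h : IQ N B N₀) (φ : A → E) (hφ : LI N B φ) (K K' : Subgroup A)
    (hK : GoodK N B N₀ φ K) (hKK : K ≤ K') (hK' : K' ≤ N) (hc : IsCompact (K' : Set A)) :
    ratio B N₀ K' • mean K' φ = ratio B N₀ K • mean K φ := by
  have hT : Tm K' φ := tm_of_LI φ hφ K' hK' hc
  obtain ⟨hi, hi'⟩ := index_ne_zero h K K' hK.1 hKK hK' hc
  have hm := mean_cosets (B ⊓ K') K K' inf_le_right hKK hi φ hT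
    (fun b hb k hk => hφ.1 b hb.1 k (hK' hk)) (fun k hk h0 => by
      obtain ⟨b, hb, hbk⟩ := hK.2.2.2 k (hK' hk) h0
      refine ⟨b, ⟨hb, ?_⟩, hbk⟩
      have h5 : b = k * (b⁻¹ * k)⁻¹ := by group
      rw [h5]
      exact K'.mul_mem hk (K'.inv_mem (hKK hbk)))
  have e1 : B ⊓ K' ⊓ K = K ⊓ B := by
    ext x
    constructor
    · rintro ⟨⟨h1, _⟩, h3⟩
      exact ⟨h3, h1⟩
    · rintro ⟨h1, h2⟩
      exact ⟨⟨h2, hKK h1⟩, h1⟩
  have e2 : N₀.relIndex K * K.relIndex K' = N₀.relIndex K' :=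
    Subgroup.relIndex_mul_relIndex N₀ K K' hK.1 hKK
  have e3 : (N₀ ⊓ B).relIndex (K ⊓ B) * (K ⊓ B).relIndex (K' ⊓ B) =
      (N₀ ⊓ B).relIndex (K' ⊓ B) :=
    Subgroup.relIndex_mul_relIndex _ _ _ (inf_le_inf_right B hK.1) (inf_le_inf_right B hKK)
  rw [hm, smul_smul, e1, inf_comm B K']
  congr 1
  unfold ratio
  rw [← e2, ← e3]
  have a1 : ((K.relIndex K' : ℕ) : ℂ) ≠ 0 := Nat.cast_ne_zero.2 hi
  have a2 : (((K ⊓ B).relIndex (K' ⊓ B) : ℕ) : ℂ) ≠ 0 := Nat.cast_ne_zero.2 hi'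
  push_cast
  rw [mul_inv]
  field_simp

theorem iq_eq (h : IQ N B N₀) (φ : A → E) (hφ : LI N B φ) (K : Subgroup A)
    (hK : GoodK N B N₀ φ K) : iq N B N₀ φ = ratio B N₀ K • mean K φ := by
  classical
  have hex : ∃ K, GoodK N B N₀ φ K := ⟨K, hK⟩
  have h0 : GoodK N B N₀ φ hex.choose := hex.choose_spec
  obtain ⟨K', hK'N, hK'c, hK'⟩ := h.exh ((K : Set A) ∪ (hex.choose : Set A))
    (hK.2.2.1.union h0.2.2.1) (Set.union_subset hK.2.1 h0.2.1)
  have h1 := mean_step h φ hφ K K' hK (fun x hx => hK' (Or.inl hx)) hK'N hK'c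
  have h2 := mean_step h φ hφ hex.choose K' h0 (fun x hx => hK' (Or.inr hx)) hK'N hK'c
  unfold iq
  rw [dif_pos hex, ← h1, ← h2]

theorem iq_zero_iff (h : IQ N B N₀) (φ : A → E) (hφ : LI N B φ) :
    iq N B N₀ φ = 0 ↔ ∀ K, GoodK N B N₀ φ K → mean K φ = 0 := by
  constructor
  · intro h0 K hK
    rw [iq_eq h φ hφ K hK] at h0
    rcases smul_eq_zero.1 h0 with h1 | h1
    · exact absurd h1 (ratio_ne_zero h K hK.1 hK.2.1 hK.2.2.1)
    · exact h1
  · intro h0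
    obtain ⟨K, hK, _⟩ := good_exists h φ hφ ∅ isCompact_empty (Set.empty_subset _)
    rw [iq_eq h φ hφ K hK, h0 K hK, smul_zero]

end

end Pool.Agent.Lib.MP_ca1492_al.P
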