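import Mathlib
import Pool.Agent.Lib.MP_ca1492_al.P.CIntA

/-!
# MP_ca1492_al, p-adic side, module CIntB: properties of the integral over `B \ N`

See CIntA for the definitions and the basic statements.

* `iq_add`, `iq_map`, `iq_congr`: choose a common good `K`.
* `iq_right`: choose `K` good containing `n₀`, `mean_right`.
* `iq_conj`: `φ' n = φ (m n m⁻¹)`. Choose `K` good for `φ'` and with `K ⊇ m⁻¹ N₀ m`; then
  `K₁ = m K m⁻¹` is good for `φ` and `mean K φ' = mean K₁ φ` (`mean_conj`).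
  `[K₁ : N₀] = [K : N₀] * chi N₀ m`: both `N₀`, `m N₀ m⁻¹` are in `K₁`, `[K₁ : m N₀ m⁻¹] = [K : N₀]`,
  and `[K₁ : N₀] [N₀ : I] = [K₁ : I] = [K₁ : m N₀ m⁻¹] [m N₀ m⁻¹ : I]`, `I` the intersection. The same
  for `K₁ ∩ B = m (K ∩ B) m⁻¹`, `N₀ ∩ B`, `m (N₀ ∩ B) m⁻¹`.
* `iq_two`: `φ` takes on `N` only the values `0`, `e`, and `φ 1 = e`: for a good `K` and `U ≤ K` of
  finite index with `φ` right `U`-invariant, `mean K φ = (s / [K : U]) • e`, `s` = number of the cosets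
  on which `φ = e`, `s ≥ 1`. (If `e = 0` take `c = 1`.)
-/

set_option autoImplicit false

namespace Pool.Agent.Lib.MP_ca1492_al.P

open Topology

noncomputable section

variable {A : Type} [Group A] [TopologicalSpace A] [IsTopologicalGroup A]
variable {E E' : Type} [AddCommGroup E] [Module ℂ E] [AddCommGroup E'] [Module ℂ E']

variable {N B N₀ : Subgroup A}

theorem LI_congr (φ ψ : A → E) (hφ : LI N B φ) (hB : B ≤ N) (he : ∀ n ∈ N, φ n = ψ n) :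
    LI N B ψ := by
  obtain ⟨h1, ⟨U, hU, h2⟩, C, hC, hCN, h3⟩ := hφ
  refine ⟨fun b hb n hn => ?_, ⟨U, hU, fun n hn u hu huN => ?_⟩, C, hC, hCN, fun n hn h0 => ?_⟩
  · rw [← he _ (N.mul_mem (hB hb) hn), ← he n hn]
    exact h1 b hb n hn
  · rw [← he _ (N.mul_mem hn huN), ← he n hn]
    exact h2 n hn u hu huN
  · rw [← he n hn] at h0
    exact h3 n hn h0

/-- a common good subgroup -/
theorem CIntB_common (h : IQ N B N₀) (φ : A → E) (ψ : A → E') (hφ : LI N B φ) (hψ : LI N B ψ) :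
    ∃ K : Subgroup A, GoodK N B N₀ φ K ∧ GoodK N B N₀ ψ K := by
  obtain ⟨K₂, h2, _⟩ := good_exists h ψ hψ ∅ isCompact_empty (Set.empty_subset _)
  obtain ⟨K, hK, hs⟩ := good_exists h φ hφ (K₂ : Set A) h2.2.2.1 h2.2.1
  exact ⟨K, hK, good_mono h ψ K₂ K h2 hs hK.2.1 hK.2.2.1⟩

theorem iq_congr (h : IQ N B N₀) (φ ψ : A → E) (hφ : LI N B φ) (he : ∀ n ∈ N, φ n = ψ n) :
    iq N B N₀ φ = iq N B N₀ ψ := by
  obtain ⟨K, hK, _⟩ := good_exists h φ hφ ∅ isCompact_empty (Set.empty_subset _)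
  have hK' : GoodK N B N₀ ψ K := by
    refine ⟨hK.1, hK.2.1, hK.2.2.1, fun n hn h0 => ?_⟩
    rw [← he n hn] at h0
    exact hK.2.2.2 n hn h0
  rw [iq_eq h φ hφ K hK, iq_eq h ψ (LI_congr φ ψ hφ h.B_le he) K hK',
    mean_congr K φ ψ fun k hk => he k (hK.2.1 hk)]

theorem LI_add (h : IQ N B N₀) (φ ψ : A → E) (hφ : LI N B φ) (hψ : LI N B ψ) :
    LI N B (fun n => φ n + ψ n) := by
  obtain ⟨h1, ⟨U, hU, h2⟩, C, hC, hCN, h3⟩ := hφ
  obtain ⟨h1', ⟨U', hU', h2'⟩, C', hC', hCN', h3'⟩ := hψ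
  refine ⟨fun b hb n hn => ?_, ⟨U ⊓ U', hU.inter hU', fun n hn u hu huN => ?_⟩, C ∪ C',
    hC.union hC', Set.union_subset hCN hCN', fun n hn h0 => ?_⟩
  · show φ _ + ψ _ = φ _ + ψ _
    rw [h1 b hb n hn, h1' b hb n hn]
  · show φ _ + ψ _ = φ _ + ψ _
    rw [h2 n hn u hu.1 huN, h2' n hn u hu.2 huN]
  · have h4 : φ n ≠ 0 ∨ ψ n ≠ 0 := by
      by_contra h5
      push Not at h5
      apply h0
      show φ n + ψ n = 0
      rw [h5.1, h5.2, add_zero]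
    rcases h4 with h4 | h4
    · obtain ⟨b, hb, hbn⟩ := h3 n hn h4
      exact ⟨b, hb, Or.inl hbn⟩
    · obtain ⟨b, hb, hbn⟩ := h3' n hn h4
      exact ⟨b, hb, Or.inr hbn⟩

theorem iq_add (h : IQ N B N₀) (φ ψ : A → E) (hφ : LI N B φ) (hψ : LI N B ψ) :
    iq N B N₀ (fun n => φ n + ψ n) = iq N B N₀ φ + iq N B N₀ ψ := by
  obtain ⟨K, hK, hK'⟩ := CIntB_common h φ ψ hφ hψ
  have hK'' : GoodK N B N₀ (fun n => φ n + ψ n) K := by
    refine ⟨hK.1, hK.2.1, hK.2.2.1, fun n hn h0 => ?_⟩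
    by_cases h4 : φ n = 0
    · refine hK'.2.2.2 n hn fun h5 => h0 ?_
      show φ n + ψ n = 0
      rw [h4, h5, add_zero]
    · exact hK.2.2.2 n hn h4
  rw [iq_eq h φ hφ K hK, iq_eq h ψ hψ K hK', iq_eq h _ (LI_add h φ ψ hφ hψ) K hK'',
    mean_add K φ ψ (tm_of_LI φ hφ K hK.2.1 hK.2.2.1) (tm_of_LI ψ hψ K hK.2.1 hK.2.2.1), smul_add]

theorem LI_map (φ : A → E) (hφ : LI N B φ) (L : E →ₗ[ℂ] E') : LI N B (fun n => L (φ n)) := by
  obtain ⟨h1, ⟨U, hU, h2⟩, C, hC, hCN, h3⟩ := hφ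
  refine ⟨fun b hb n hn => ?_, ⟨U, hU, fun n hn u hu huN => ?_⟩, C, hC, hCN, fun n hn h0 => ?_⟩
  · show L _ = L _
    rw [h1 b hb n hn]
  · show L _ = L _
    rw [h2 n hn u hu huN]
  · refine h3 n hn fun h4 => h0 ?_
    show L (φ n) = 0
    rw [h4, map_zero]

theorem iq_map (h : IQ N B N₀) (φ : A → E) (hφ : LI N B φ) (L : E →ₗ[ℂ] E') :
    iq N B N₀ (fun n => L (φ n)) = L (iq N B N₀ φ) := by
  obtain ⟨K, hK, _⟩ := good_exists h φ hφ ∅ isCompact_empty (Set.empty_subset _)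
  have hK' : GoodK N B N₀ (fun n => L (φ n)) K := by
    refine ⟨hK.1, hK.2.1, hK.2.2.1, fun n hn h0 => ?_⟩
    refine hK.2.2.2 n hn fun h4 => h0 ?_
    show L (φ n) = 0
    rw [h4, map_zero]
  rw [iq_eq h φ hφ K hK, iq_eq h _ (LI_map φ hφ L) K hK',
    mean_map K φ (tm_of_LI φ hφ K hK.2.1 hK.2.2.1) L, map_smul]

theorem LI_right (φ : A → E) (hφ : LI N B φ) (n₀ : A) (hn : n₀ ∈ N) :
    LI N B (fun n => φ (n * n₀)) := by
  obtain ⟨h1, ⟨U, hU, h2⟩, C, hC, hCN, h3⟩ := hφ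
  refine ⟨fun b hb n hn' => ?_, ⟨U.comap (MulAut.conj n₀⁻¹).toMonoidHom, ?_,
    fun n hn' u hu huN => ?_⟩, (fun x => x * n₀⁻¹) '' C, hC.image (by fun_prop), ?_,
    fun n hn' h0 => ?_⟩
  · show φ (b * n * n₀) = φ (n * n₀)
    rw [mul_assoc]
    exact h1 b hb _ (N.mul_mem hn' hn)
  · have e : ((U.comap (MulAut.conj n₀⁻¹).toMonoidHom : Subgroup A) : Set A) =
        (fun x => n₀⁻¹ * x * n₀) ⁻¹' (U : Set A) := by
      ext x
      simp [MulAut.conj_apply]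
    rw [e]
    exact hU.preimage (by fun_prop)
  · show φ (n * u * n₀) = φ (n * n₀)
    have hu' : n₀⁻¹ * u * n₀ ∈ U := by
      have h4 : (MulAut.conj n₀⁻¹).toMonoidHom u ∈ U := hu
      simpa [MulAut.conj_apply] using h4
    have h5 := h2 (n * n₀) (N.mul_mem hn' hn) (n₀⁻¹ * u * n₀) hu'
      (N.mul_mem (N.mul_mem (N.inv_mem hn) huN) hn)
    rw [← h5]
    congr 1
    group
  · rintro _ ⟨x, hx, rfl⟩
    exact N.mul_mem (hCN hx) (N.inv_mem hn)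
  · obtain ⟨b, hb, hbn⟩ := h3 (n * n₀) (N.mul_mem hn' hn) h0
    refine ⟨b, hb, b⁻¹ * (n * n₀), hbn, ?_⟩
    show b⁻¹ * (n * n₀) * n₀⁻¹ = b⁻¹ * n
    group

theorem iq_right (h : IQ N B N₀) (φ : A → E) (hφ : LI N B φ) (n₀ : A) (hn : n₀ ∈ N) :
    iq N B N₀ (fun n => φ (n * n₀)) = iq N B N₀ φ := by
  obtain ⟨K, hK, hs⟩ := good_exists h φ hφ {n₀} isCompact_singleton
    (Set.singleton_subset_iff.2 hn)
  have hn₀ : n₀ ∈ K := hs (Set.mem_singleton _)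
  have hK' : GoodK N B N₀ (fun n => φ (n * n₀)) K := by
    refine ⟨hK.1, hK.2.1, hK.2.2.1, fun n hn' h0 => ?_⟩
    obtain ⟨b, hb, hbn⟩ := hK.2.2.2 (n * n₀) (N.mul_mem hn' hn) h0
    refine ⟨b, hb, ?_⟩
    have h4 : b⁻¹ * n = b⁻¹ * (n * n₀) * n₀⁻¹ := by group
    rw [h4]
    exact K.mul_mem hbn (K.inv_mem hn₀)
  rw [iq_eq h φ hφ K hK, iq_eq h _ (LI_right φ hφ n₀ hn) K hK',
    mean_right K φ (tm_of_LI φ hφ K hK.2.1 hK.2.2.1) n₀ hn₀]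

theorem LI_conj (φ : A → E) (hφ : LI N B φ) (m : A) (hN : ∀ n, m * n * m⁻¹ ∈ N ↔ n ∈ N)
    (hB : ∀ n, m * n * m⁻¹ ∈ B ↔ n ∈ B) : LI N B (fun n => φ (m * n * m⁻¹)) := by
  obtain ⟨h1, ⟨U, hU, h2⟩, C, hC, hCN, h3⟩ := hφ
  refine ⟨fun b hb n hn => ?_, ⟨U.comap (MulAut.conj m).toMonoidHom, ?_,
    fun n hn u hu huN => ?_⟩, (fun x => m⁻¹ * x * m) '' C, hC.image (by fun_prop), ?_,
    fun n hn h0 => ?_⟩
  · have h5 := h1 (m * b * m⁻¹) ((hB b).2 hb) (m * n * m⁻¹) ((hN n).2 hn)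
    show φ (m * (b * n) * m⁻¹) = φ (m * n * m⁻¹)
    rw [← h5]
    congr 1
    group
  · have e : ((U.comap (MulAut.conj m).toMonoidHom : Subgroup A) : Set A) =
        (fun x => m * x * m⁻¹) ⁻¹' (U : Set A) := by
      ext x
      simp [MulAut.conj_apply]
    rw [e]
    exact hU.preimage (by fun_prop)
  · have hu' : m * u * m⁻¹ ∈ U := by
      have h4 : (MulAut.conj m).toMonoidHom u ∈ U := hu
      simpa [MulAut.conj_apply] using h4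
    have h5 := h2 (m * n * m⁻¹) ((hN n).2 hn) (m * u * m⁻¹) hu' ((hN u).2 huN)
    show φ (m * (n * u) * m⁻¹) = φ (m * n * m⁻¹)
    rw [← h5]
    congr 1
    group
  · rintro _ ⟨x, hx, rfl⟩
    refine (hN _).1 ?_
    have h6 : m * (m⁻¹ * x * m) * m⁻¹ = x := by group
    rw [h6]
    exact hCN hx
  · obtain ⟨b, hb, hbn⟩ := h3 (m * n * m⁻¹) ((hN n).2 hn) h0
    refine ⟨m⁻¹ * b * m, (hB _).1 ?_, b⁻¹ * (m * n * m⁻¹), hbn, ?_⟩
    · have h6 : m * (m⁻¹ * b * m) * m⁻¹ = b := by group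
      rw [h6]
      exact hb
    · show m⁻¹ * (b⁻¹ * (m * n * m⁻¹)) * m = (m⁻¹ * b * m)⁻¹ * n
      group

omit [TopologicalSpace A] [IsTopologicalGroup A] in
/-- the index of `N₀` in `m K m⁻¹` -/
theorem CIntB_chi (N₀ K K₁ : Subgroup A) (m : A)
    (hK₁ : K₁ = K.map (MulAut.conj m).toMonoidHom) (h1 : N₀ ≤ K) (h2 : N₀ ≤ K₁)
    (h3 : N₀.relIndex K ≠ 0) (h4 : N₀.relIndex K₁ ≠ 0) :
    chi N₀ m ≠ 0 ∧ (N₀.relIndex K₁ : ℂ) = (N₀.relIndex K : ℂ) * chi N₀ m := by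
  unfold chi
  set N' : Subgroup A := N₀.map (MulAut.conj m).toMonoidHom with hN'
  have hle : N' ≤ K₁ := by
    rw [hK₁]
    exact Subgroup.map_mono h1
  have h5 : N'.relIndex K₁ = N₀.relIndex K := by
    rw [hK₁, hN']
    exact Subgroup.relIndex_map_map_of_injective _ _ (MulAut.conj m).injective
  have h6 : (N₀ ⊓ N').relIndex K₁ ≠ 0 :=
    Subgroup.relIndex_inf_ne_zero h4 (by rw [h5]; exact h3)
  have e1 : (N₀ ⊓ N').relIndex N₀ * N₀.relIndex K₁ = (N₀ ⊓ N').relIndex K₁ :=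
    Subgroup.relIndex_mul_relIndex _ _ _ inf_le_left h2
  have e2 : (N₀ ⊓ N').relIndex N' * N'.relIndex K₁ = (N₀ ⊓ N').relIndex K₁ :=
    Subgroup.relIndex_mul_relIndex _ _ _ inf_le_right hle
  have h7 : (N₀ ⊓ N').relIndex N₀ ≠ 0 := by
    intro h0
    rw [h0, zero_mul] at e1
    exact h6 e1.symm
  have h8 : (N₀ ⊓ N').relIndex N' ≠ 0 := by
    intro h0
    rw [h0, zero_mul] at e2
    exact h6 e2.symm
  have h7' : (((N₀ ⊓ N').relIndex N₀ : ℕ) : ℂ) ≠ 0 := Nat.cast_ne_zero.2 h7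
  have h8' : (((N₀ ⊓ N').relIndex N' : ℕ) : ℂ) ≠ 0 := Nat.cast_ne_zero.2 h8
  refine ⟨mul_ne_zero h8' (inv_ne_zero h7'), ?_⟩
  have e3 : (((N₀ ⊓ N').relIndex N₀ : ℕ) : ℂ) * (N₀.relIndex K₁ : ℂ) =
      ((N₀ ⊓ N').relIndex N' : ℂ) * (N₀.relIndex K : ℂ) := by
    rw [← h5, ← Nat.cast_mul, ← Nat.cast_mul, e1, e2]
  field_simp
  linear_combination e3

theorem iq_conj (h : IQ N B N₀) (φ : A → E) (hφ : LI N B φ) (m : A)
    (hN : ∀ n, m * n * m⁻¹ ∈ N ↔ n ∈ N) (hB : ∀ n, m * n * m⁻¹ ∈ B ↔ n ∈ B) :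
    iq N B N₀ (fun n => φ (m * n * m⁻¹)) =
      (chi (N₀ ⊓ B) m * (chi N₀ m)⁻¹) • iq N B N₀ φ := by
  have hψ := LI_conj φ hφ m hN hB
  set ψ : A → E := fun n => φ (m * n * m⁻¹) with hψd
  obtain ⟨K, hK, hs⟩ := good_exists h ψ hψ ((fun x => m⁻¹ * x * m) '' (N₀ : Set A))
    (h.N₀_cpt.image (by fun_prop)) (by
      rintro _ ⟨x, hx, rfl⟩
      refine (hN _).1 ?_
      have h6 : m * (m⁻¹ * x * m) * m⁻¹ = x := by group
      rw [h6]
      exact h.N₀_le hx)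
  set K₁ : Subgroup A := K.map (MulAut.conj m).toMonoidHom with hK₁
  have hmem : ∀ x, x ∈ K₁ ↔ m⁻¹ * x * m ∈ K := by
    intro x
    rw [hK₁, Subgroup.mem_map]
    constructor
    · rintro ⟨y, hy, rfl⟩
      simpa [MulAut.conj_apply, mul_assoc] using hy
    · intro hx
      exact ⟨_, hx, by simp [MulAut.conj_apply, mul_assoc]⟩
  have hN₀K₁ : N₀ ≤ K₁ := fun x hx => (hmem x).2 (hs ⟨x, hx, rfl⟩)
  have hK₁N : K₁ ≤ N := by
    intro x hx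
    have h5 := (hN _).2 (hK.2.1 ((hmem x).1 hx))
    have h6 : m * (m⁻¹ * x * m) * m⁻¹ = x := by group
    rwa [h6] at h5
  have hK₁c : IsCompact (K₁ : Set A) := by
    have e : (K₁ : Set A) = (fun x => m * x * m⁻¹) '' (K : Set A) := by
      ext x
      constructor
      · intro hx
        exact ⟨_, (hmem x).1 hx, by group⟩
      · rintro ⟨y, hy, rfl⟩
        refine (hmem _).2 ?_
        have h6 : m⁻¹ * (m * y * m⁻¹) * m = y := by group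
        rw [h6]
        exact hy
    rw [e]
    exact hK.2.2.1.image (by fun_prop)
  have hG : GoodK N B N₀ φ K₁ := by
    refine ⟨hN₀K₁, hK₁N, hK₁c, fun n hn h0 => ?_⟩
    have h6 : m * (m⁻¹ * n * m) * m⁻¹ = n := by group
    have hn' : m⁻¹ * n * m ∈ N := (hN _).1 (by rw [h6]; exact hn)
    have h0' : ψ (m⁻¹ * n * m) ≠ 0 := by
      show φ (m * (m⁻¹ * n * m) * m⁻¹) ≠ 0
      rw [h6]
      exact h0
    obtain ⟨b, hb, hbn⟩ := hK.2.2.2 _ hn' h0'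
    refine ⟨m * b * m⁻¹, (hB b).2 hb, (hmem _).2 ?_⟩
    have h7 : m⁻¹ * ((m * b * m⁻¹)⁻¹ * n) * m = b⁻¹ * (m⁻¹ * n * m) := by group
    rw [h7]
    exact hbn
  have hKB : K₁ ⊓ B = (K ⊓ B).map (MulAut.conj m).toMonoidHom := by
    ext x
    rw [Subgroup.mem_map]
    constructor
    · rintro ⟨hx, hxB⟩
      have h6 : m * (m⁻¹ * x * m) * m⁻¹ = x := by group
      refine ⟨m⁻¹ * x * m, ⟨(hmem x).1 hx, (hB _).1 (by rw [h6]; exact hxB)⟩, ?_⟩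
      simp [MulAut.conj_apply, mul_assoc]
    · rintro ⟨y, ⟨hy, hyB⟩, rfl⟩
      have h8 : (MulAut.conj m).toMonoidHom y = m * y * m⁻¹ := by simp [MulAut.conj_apply]
      rw [h8]
      refine ⟨(hmem _).2 ?_, (hB y).2 hyB⟩
      have h6 : m⁻¹ * (m * y * m⁻¹) * m = y := by group
      rw [h6]
      exact hy
  obtain ⟨i1, i2⟩ := index_ne_zero h N₀ K le_rfl hK.1 hK.2.1 hK.2.2.1
  obtain ⟨i3, i4⟩ := index_ne_zero h N₀ K₁ le_rfl hN₀K₁ hK₁N hK₁c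
  obtain ⟨c1, c2⟩ := CIntB_chi N₀ K K₁ m hK₁ hK.1 hN₀K₁ i1 i3
  obtain ⟨c3, c4⟩ := CIntB_chi (N₀ ⊓ B) (K ⊓ B) (K₁ ⊓ B) m hKB (inf_le_inf_right B hK.1)
    (inf_le_inf_right B hN₀K₁) i2 i4
  have hm : mean K₁ φ = mean K ψ := mean_conj K m φ
  rw [iq_eq h ψ hψ K hK, iq_eq h φ hφ K₁ hG, hm, smul_smul]
  congr 1
  unfold ratio
  rw [c2, c4]
  have i1' : ((N₀.relIndex K : ℕ) : ℂ) ≠ 0 := Nat.cast_ne_zero.2 i1
  have i2' : (((N₀ ⊓ B).relIndex (K ⊓ B) : ℕ) : ℂ) ≠ 0 := Nat.cast_ne_zero.2 i2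
  field_simp

theorem iq_two (h : IQ N B N₀) (φ : A → E) (hφ : LI N B φ) (e : E)
    (h2 : ∀ n ∈ N, φ n = 0 ∨ φ n = e) (h1 : φ 1 = e) :
    ∃ c : ℂ, c ≠ 0 ∧ iq N B N₀ φ = c • e := by
  classical
  obtain ⟨K, hK, _⟩ := good_exists h φ hφ ∅ isCompact_empty (Set.empty_subset _)
  have hT : Tm K φ := tm_of_LI φ hφ K hK.2.1 hK.2.2.1
  rw [iq_eq h φ hφ K hK]
  by_cases he : e = 0
  · refine ⟨1, one_ne_zero, ?_⟩
    have h3 : mean K φ ∈ (⊥ : Submodule ℂ E) := mean_mem K φ ⊥ fun k hk => by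
      rw [Submodule.mem_bot]
      rcases h2 k (hK.2.1 hk) with h4 | h4
      · exact h4
      · rw [h4, he]
    rw [Submodule.mem_bot] at h3
    rw [h3, he, smul_zero, smul_zero]
  · have hT' : (rst K φ).FiniteIndex := hT
    have hfin : Finite (K ⧸ rst K φ) := Subgroup.finite_quotient_of_finiteIndex
    let := Fintype.ofFinite (K ⧸ rst K φ)
    have h3 : ∑ᶠ q : K ⧸ rst K φ, φ ((q.out : K) : A) =
        (((Finset.univ.filter fun q : K ⧸ rst K φ => φ ((q.out : K) : A) = e).card : ℕ) : ℂ) • e := by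
      rw [finsum_eq_sum_of_fintype, Nat.cast_smul_eq_nsmul, ← Finset.sum_const,
        Finset.sum_filter]
      refine Finset.sum_congr rfl fun q _ => ?_
      rcases h2 _ (hK.2.1 (q.out : K).2) with h4 | h4
      · rw [if_neg (by rw [h4]; exact fun h5 => he h5.symm), h4]
      · rw [if_pos h4, h4]
    have hcard : ((Finset.univ.filter fun q : K ⧸ rst K φ =>
        φ ((q.out : K) : A) = e).card : ℂ) ≠ 0 := by
      refine Nat.cast_ne_zero.2 (Finset.card_ne_zero_of_mem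
        (a := (QuotientGroup.mk (1 : K) : K ⧸ rst K φ)) ?_)
      rw [Finset.mem_filter]
      refine ⟨Finset.mem_univ _, ?_⟩
      rw [CMeanA_out (rst K φ) le_rfl (1 : K)]
      exact h1
    have hidx : ((rst K φ).index : ℂ) ≠ 0 := Nat.cast_ne_zero.2 hT'.index_ne_zero
    refine ⟨ratio B N₀ K * (((rst K φ).index : ℂ))⁻¹ *
      ((Finset.univ.filter fun q : K ⧸ rst K φ => φ ((q.out : K) : A) = e).card : ℂ), ?_, ?_⟩
    · exact mul_ne_zero (mul_ne_zero (ratio_ne_zero h K hK.1 hK.2.1 hK.2.2.1)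
        (inv_ne_zero hidx)) hcard
    · unfold mean
      rw [h3, smul_smul, smul_smul]

end

end Pool.Agent.Lib.MP_ca1492_al.P
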