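import Mathlib
import Pool.Agent.Lib.MP_ca1492_al.P.CDead
import Pool.Agent.Lib.MP_ca1492_al.P.CIntB

/-!
# MP_ca1492_al, p-adic side, module CLive: live cells

`D : CD A`, `a` a representation of `P` with `P ∩ w N w⁻¹` acting trivially, `B = N ∩ w⁻¹ P w`,
`D.Lam f m = ∫ over B \ N of f (w n m) dn`, `f ∈ IS P a` with support in the cell compact mod `P`.

* `lam_LI`: the function `n ↦ f (w n m)` (`m ∈ M`) is in the class `LI N B`: left `B`-invariant since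
  `f (w b n m) = a(w b w⁻¹) f (w n m)`; right invariant under `m U m⁻¹`; support: if `f (w n m) ≠ 0`
  then `w n m = w m (m⁻¹ n m) = p w c d` and by `cell_arith` `m = l c`, `m⁻¹ n m = c⁻¹ b c d`, so
  `n = (l b l⁻¹) (m d m⁻¹)`, `l b l⁻¹ ∈ B`, `m d m⁻¹ ∈ m CN m⁻¹` compact.
* `lam_right`: `Lam (f (· m')) m = Lam f (m m')`: definition.
* `lam_inv`: `Lam (f (· n')) m = Lam f m` for `n' ∈ N`: `f (w n m n') = f (w (n (m n' m⁻¹)) m)`,
  `iq_right`.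
* `lam_left`: `h ∈ M` with `w h w⁻¹ ∈ P`: `f (w n h m) = a(w h w⁻¹) f (w (h⁻¹ n h) m)`; `iq_map`,
  `iq_conj` with `h⁻¹` (`h` normalizes `N` and `B`). Use the form given.
* `lam_add`, `lam_smul`, `lam_map` (naturality in `a`): `iq_add`, `iq_map`.
* `live_cell`: let `CM`, `CN` be as in `Csupp`. Let `K ≤ N` be a compact subgroup containing `N₀`,
  `CN` and the compact set `{c⁻¹ x c | c ∈ CM, x ∈ N₀}`. Let `K ≤ K₂ ≤ N` compact and
  `g = p w m n₀` in the cell. As in the module CDead (cell arithmetic, `mean_left`) we are reduced to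
  `mean K₂ (x ↦ f (w c x)) = 0` for `c ∈ CM`. With `ψ n = f (w n c)`: `f (w c x) = ψ (c x c⁻¹)`, so
  the mean is `mean (c K₂ c⁻¹) ψ` (`mean_conj`), and `c K₂ c⁻¹` is good for `ψ`: it contains `N₀` and,
  by the support computation in `lam_LI`, the support modulo `B` (`c CN c⁻¹ ⊆ c K₂ c⁻¹`). So the mean
  is `0` by `iq_zero_iff`.
-/

set_option autoImplicit false

namespace Pool.Agent.Lib.MP_ca1492_al.P

open Topology

noncomputable section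

variable {A : Type} [Group A] [TopologicalSpace A] [IsTopologicalGroup A]
variable {E E' : Type} [AddCommGroup E] [Module ℂ E] [AddCommGroup E'] [Module ℂ E']

omit [IsTopologicalGroup A] in
theorem CLive_norm' (D : CD A) {m n : A} (hm : m ∈ D.M) (hn : n ∈ D.N) :
    m⁻¹ * n * m ∈ D.N := by
  have h := D.norm m⁻¹ (D.M.inv_mem hm) n hn
  rwa [inv_inv] at h

omit [IsTopologicalGroup A] in
theorem CLive_mem_B (D : CD A) {x : A} : x ∈ D.B ↔ x ∈ D.N ∧ D.w * x * D.w⁻¹ ∈ D.P := by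
  unfold CD.B
  rw [Subgroup.mem_inf, mem_cjS]

/-- the support of `n ↦ f (w n m)` -/
theorem CLive_supp (D : CD A) (f : A → E) (CM CN : Set A) (hCM : CM ⊆ (D.M : Set A))
    (hCN : CN ⊆ (D.N : Set A))
    (hs : ∀ g ∈ cell D.P D.M D.N D.w, f g ≠ 0 → ∃ p ∈ D.P, ∃ c ∈ CM, ∃ d ∈ CN,
      g = p * D.w * c * d) (m : A) (hm : m ∈ D.M) (n : A) (hn : n ∈ D.N)
    (h0 : f (D.w * n * m) ≠ 0) : ∃ b ∈ D.B, ∃ d ∈ CN, b⁻¹ * n = m * d * m⁻¹ := by
  have hmn := CLive_norm' D hm hn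
  have hcell : D.w * n * m ∈ cell D.P D.M D.N D.w :=
    ⟨1, D.P.one_mem, m, hm, m⁻¹ * n * m, hmn, by group⟩
  obtain ⟨p, hp, c, hc, d, hd, he⟩ := hs _ hcell h0
  have he' : D.w * m * (m⁻¹ * n * m) = p * D.w * c * d := by
    rw [← he]
    group
  obtain ⟨l, hl, b, hb, hlP, hbP, hm2, hn2, -⟩ := cell_arith D m (m⁻¹ * n * m) c d p hm hmn
    (hCM hc) (hCN hd) hp he'
  refine ⟨l * b * l⁻¹, (CLive_mem_B D).2 ⟨D.norm l hl b hb, ?_⟩, d, hd, ?_⟩
  · have e : D.w * (l * b * l⁻¹) * D.w⁻¹ =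
        D.w * l * D.w⁻¹ * (D.w * b * D.w⁻¹) * (D.w * l * D.w⁻¹)⁻¹ := by group
    rw [e]
    exact D.P.mul_mem (D.P.mul_mem hlP hbP) (D.P.inv_mem hlP)
  · have hn3 : n = m * (c⁻¹ * b * c * d) * m⁻¹ := by
      rw [← hn2]
      group
    have hl2 : l = m * c⁻¹ := by
      rw [hm2]
      group
    rw [hn3, hl2]
    group

theorem lam_LI (D : CD A) (a : Representation ℂ D.P E) (hl : D.Live a) (f : A → E)
    (hf : f ∈ IS D.P a) (hc : D.Csupp f) (m : A) (hm : m ∈ D.M) :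
    LI D.N D.B (fun n => f (D.w * n * m)) := by
  obtain ⟨hf1, U, hU, hf2⟩ := hf
  obtain ⟨CM, CN, hCM, hCM', hCN, hCN', hs⟩ := hc
  refine ⟨?_, ⟨U.comap (MulAut.conj m⁻¹).toMonoidHom, ?_, ?_⟩,
    (fun d => m * d * m⁻¹) '' CN, hCN.image (by fun_prop), ?_, ?_⟩
  · intro b hb n _
    obtain ⟨hb1, hb2⟩ := (CLive_mem_B D).1 hb
    have e : D.w * (b * n) * m = (⟨D.w * b * D.w⁻¹, hb2⟩ : D.P) * (D.w * n * m) := by
      simp only
      group
    change f (D.w * (b * n) * m) = f (D.w * n * m)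
    rw [e, hf1]
    refine hl _ ?_ _
    have e2 : D.w⁻¹ * (D.w * b * D.w⁻¹) * D.w = b := by group
    change D.w⁻¹ * (D.w * b * D.w⁻¹) * D.w ∈ D.N
    rw [e2]
    exact hb1
  · have e : ((U.comap (MulAut.conj m⁻¹).toMonoidHom : Subgroup A) : Set A) =
        (fun x => m⁻¹ * x * m) ⁻¹' (U : Set A) := by
      ext x
      simp [MulAut.conj_apply]
    rw [e]
    exact hU.preimage (by fun_prop)
  · intro n _ u hu _
    have hu' : m⁻¹ * u * m ∈ U := by simpa [MulAut.conj_apply] using hu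
    change f (D.w * (n * u) * m) = f (D.w * n * m)
    rw [← hf2 (D.w * n * m) _ hu']
    congr 1
    group
  · rintro x ⟨d, hd, rfl⟩
    exact D.norm m hm d (hCN' hd)
  · intro n hn h0
    obtain ⟨b, hb, d, hd, he⟩ := CLive_supp D f CM CN hCM' hCN' hs m hm n hn h0
    exact ⟨b, hb, d, hd, he.symm⟩

theorem lam_right (D : CD A) (f : A → E) (m m' : A) :
    D.Lam (fun g => f (g * m')) m = D.Lam f (m * m') := by
  unfold CD.Lam
  congr 1
  funext n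
  change f (D.w * n * m * m') = f (D.w * n * (m * m'))
  rw [mul_assoc (D.w * n)]

theorem lam_inv (D : CD A) (a : Representation ℂ D.P E) (hl : D.Live a) (f : A → E)
    (hf : f ∈ IS D.P a) (hc : D.Csupp f) (m : A) (hm : m ∈ D.M) (n' : A) (hn : n' ∈ D.N) :
    D.Lam (fun g => f (g * n')) m = D.Lam f m := by
  have h := iq_right D.iqd (fun n => f (D.w * n * m)) (lam_LI D a hl f hf hc m hm)
    (m * n' * m⁻¹) (D.norm m hm n' hn)
  unfold CD.Lam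
  rw [← h]
  congr 1
  funext n
  congr 1
  group

theorem lam_left (D : CD A) (a : Representation ℂ D.P E) (hl : D.Live a) (f : A → E)
    (hf : f ∈ IS D.P a) (hc : D.Csupp f) (m : A) (hm : m ∈ D.M) (h : A) (hh : h ∈ D.M)
    (hP : D.w * h * D.w⁻¹ ∈ D.P) :
    D.Lam f (h * m) = (chi (D.N₀ ⊓ D.B) h⁻¹ * (chi D.N₀ h⁻¹)⁻¹) •
      a ⟨D.w * h * D.w⁻¹, hP⟩ (D.Lam f m) := by
  have hφ := lam_LI D a hl f hf hc m hm
  have hN : ∀ n, h⁻¹ * n * h⁻¹⁻¹ ∈ D.N ↔ n ∈ D.N := by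
    intro n
    constructor
    · intro hn
      have h1 := D.norm h hh _ hn
      have e : h * (h⁻¹ * n * h⁻¹⁻¹) * h⁻¹ = n := by group
      rwa [e] at h1
    · intro hn
      exact D.norm h⁻¹ (D.M.inv_mem hh) n hn
  have hB : ∀ n, h⁻¹ * n * h⁻¹⁻¹ ∈ D.B ↔ n ∈ D.B := by
    intro n
    rw [CLive_mem_B, CLive_mem_B, hN n]
    refine and_congr_right fun _ => ?_
    have e : D.w * (h⁻¹ * n * h⁻¹⁻¹) * D.w⁻¹ =
        (D.w * h * D.w⁻¹)⁻¹ * (D.w * n * D.w⁻¹) * (D.w * h * D.w⁻¹) := by group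
    rw [e]
    constructor
    · intro h1
      have h2 := D.P.mul_mem (D.P.mul_mem hP h1) (D.P.inv_mem hP)
      have e2 : D.w * h * D.w⁻¹ * ((D.w * h * D.w⁻¹)⁻¹ * (D.w * n * D.w⁻¹) *
          (D.w * h * D.w⁻¹)) * (D.w * h * D.w⁻¹)⁻¹ = D.w * n * D.w⁻¹ := by group
      rwa [e2] at h2
    · intro h1
      exact D.P.mul_mem (D.P.mul_mem (D.P.inv_mem hP) h1) hP
  have h1 := iq_conj D.iqd (fun n => f (D.w * n * m)) hφ h⁻¹ hN hB
  have h2 := iq_map D.iqd _ (LI_conj (fun n => f (D.w * n * m)) hφ h⁻¹ hN hB)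
    (a ⟨D.w * h * D.w⁻¹, hP⟩)
  rw [h1, map_smul] at h2
  unfold CD.Lam
  rw [← h2]
  congr 1
  funext n
  rw [← hf.1]
  congr 1
  simp only
  group

theorem lam_add (D : CD A) (a : Representation ℂ D.P E) (hl : D.Live a) (f f' : A → E)
    (hf : f ∈ IS D.P a) (hc : D.Csupp f) (hf' : f' ∈ IS D.P a) (hc' : D.Csupp f') (m : A)
    (hm : m ∈ D.M) : D.Lam (f + f') m = D.Lam f m + D.Lam f' m :=
  iq_add D.iqd _ _ (lam_LI D a hl f hf hc m hm) (lam_LI D a hl f' hf' hc' m hm)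

/-- naturality; also gives `lam_smul` -/
theorem lam_map (D : CD A) (a : Representation ℂ D.P E) (hl : D.Live a) (f : A → E)
    (hf : f ∈ IS D.P a) (hc : D.Csupp f) (L : E →ₗ[ℂ] E') (m : A) (hm : m ∈ D.M) :
    D.Lam (fun g => L (f g)) m = L (D.Lam f m) :=
  iq_map D.iqd _ (lam_LI D a hl f hf hc m hm) L

theorem live_cell (D : CD A) (a : Representation ℂ D.P E) (hl : D.Live a)
    (f : A → E) (hf : f ∈ IS D.P a) (hc : D.Csupp f) (h0 : ∀ m ∈ D.M, D.Lam f m = 0) :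
    ∃ K : Subgroup A, K ≤ D.N ∧ IsCompact (K : Set A) ∧ ∀ K₂ : Subgroup A, K ≤ K₂ → K₂ ≤ D.N →
      IsCompact (K₂ : Set A) → ∀ g ∈ cell D.P D.M D.N D.w, mean K₂ (fun x => f (g * x)) = 0 := by
  have hf' := hf
  obtain ⟨hf1, U, hU, hf2⟩ := hf'
  have hc' := hc
  obtain ⟨CM, CN, hCM, hCM', hCN, hCN', hs⟩ := hc'
  have hC1 : IsCompact ((fun q : A × A => q.1⁻¹ * q.2 * q.1) '' (CM ×ˢ (D.N₀ : Set A))) :=
    (hCM.prod D.N₀_cpt).image (by fun_prop)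
  have hC1N : ((fun q : A × A => q.1⁻¹ * q.2 * q.1) '' (CM ×ˢ (D.N₀ : Set A))) ⊆
      (D.N : Set A) := by
    rintro x ⟨q, hq, rfl⟩
    exact CLive_norm' D (hCM' hq.1) (D.N₀_le hq.2)
  obtain ⟨K, hKN, hKc, hK⟩ := D.exh _ (hCN.union hC1) (Set.union_subset hCN' hC1N)
  refine ⟨K, hKN, hKc, fun K₂ hKK₂ hK₂N hK₂c g hg => ?_⟩
  obtain ⟨p, hp, m, hm, n₀, hn₀, hgeq⟩ := hg
  by_cases hz : ∀ n₁ ∈ K₂, f (g * n₁) = 0
  · rw [mean_congr K₂ (fun x => f (g * x)) (fun _ => 0) hz, mean_const]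
  push Not at hz
  obtain ⟨n₁, hn₁, hne⟩ := hz
  have hn₁N := hK₂N hn₁
  have hcell : g * n₁ ∈ cell D.P D.M D.N D.w :=
    ⟨p, hp, m, hm, n₀ * n₁, D.N.mul_mem hn₀ hn₁N, by rw [hgeq, mul_assoc (p * D.w * m)]⟩
  obtain ⟨p₁, hp₁, c, hcM, d, hd, he⟩ := hs _ hcell hne
  have he' : D.w * m * (n₀ * n₁) = (p⁻¹ * p₁) * D.w * c * d := by
    have h1 : (p⁻¹ * p₁) * D.w * c * d = p⁻¹ * (p₁ * D.w * c * d) := by group
    rw [h1, ← he, hgeq]
    group
  obtain ⟨l, hlM, b, hb, hlP, hbP, hm2, hn2, -⟩ := cell_arith D m (n₀ * n₁) c d (p⁻¹ * p₁) hm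
    (D.N.mul_mem hn₀ hn₁N) (hCM' hcM) (hCN' hd) (D.P.mul_mem (D.P.inv_mem hp) hp₁) he'
  have hdK : d ∈ K₂ := hKK₂ (hK (Or.inl hd))
  have hkK : d * n₁⁻¹ ∈ K₂ := K₂.mul_mem hdK (K₂.inv_mem hn₁)
  have hq : p * (D.w * l * D.w⁻¹) * (D.w * b * D.w⁻¹) ∈ D.P :=
    D.P.mul_mem (D.P.mul_mem hp hlP) hbP
  have hn3 : n₀ = c⁻¹ * b * c * d * n₁⁻¹ := by
    rw [← hn2]
    group
  have hfg : ∀ x, f (g * x) = a ⟨_, hq⟩ (f (D.w * c * (d * n₁⁻¹ * x))) := by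
    intro x
    rw [← hf1]
    congr 1
    rw [hgeq, hn3, hm2]
    simp only
    group
  have hT : Tm K₂ (fun x => f (D.w * c * x)) :=
    tm_of_open K₂ hK₂c _ U hU fun k _ u hu _ => by
      change f (D.w * c * (k * u)) = f (D.w * c * k)
      rw [← mul_assoc, hf2 _ u hu]
  have hmean : mean K₂ (fun x => f (D.w * c * x)) = 0 := by
    have h1 : (fun x => f (D.w * c * x)) =
        fun x => (fun n => f (D.w * n * c)) (c * x * c⁻¹) := by
      funext x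
      change f (D.w * c * x) = f (D.w * (c * x * c⁻¹) * c)
      congr 1
      group
    rw [h1, ← mean_conj K₂ c (fun n => f (D.w * n * c))]
    refine (iq_zero_iff D.iqd (fun n => f (D.w * n * c))
      (lam_LI D a hl f hf hc c (hCM' hcM))).1 (h0 c (hCM' hcM)) _ ⟨?_, ?_, ?_, ?_⟩
    · intro x hx
      refine ⟨c⁻¹ * x * c, hKK₂ (hK (Or.inr ⟨(c, x), ⟨hcM, hx⟩, rfl⟩)), ?_⟩
      simp [MulAut.conj_apply, mul_assoc]
    · rintro x ⟨y, hy, rfl⟩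
      exact D.norm c (hCM' hcM) y (hK₂N hy)
    · have e : ((K₂.map (MulAut.conj c).toMonoidHom : Subgroup A) : Set A) =
          (fun x => c * x * c⁻¹) '' (K₂ : Set A) := by
        ext x
        simp [MulAut.conj_apply]
      rw [e]
      exact hK₂c.image (by fun_prop)
    · intro n hn hne'
      obtain ⟨b', hb', d', hd', he2⟩ := CLive_supp D f CM CN hCM' hCN' hs c (hCM' hcM) n hn hne'
      refine ⟨b', hb', ?_⟩
      rw [he2]
      exact ⟨d', hKK₂ (hK (Or.inl hd')), by simp [MulAut.conj_apply]⟩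
  rw [mean_congr K₂ (fun x => f (g * x))
    (fun x => a ⟨_, hq⟩ ((fun x => f (D.w * c * (d * n₁⁻¹ * x))) x)) (fun x _ => hfg x),
    mean_map K₂ (fun x => f (D.w * c * (d * n₁⁻¹ * x))) (tm_left K₂ _ hT _ hkK) (a ⟨_, hq⟩),
    mean_left K₂ (fun x => f (D.w * c * x)) hT _ hkK, hmean, map_zero]

end

end Pool.Agent.Lib.MP_ca1492_al.P
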