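import Mathlib
import Pool.Agent.Lib.MP_ca1492_al.P.GLDefs

/-!
# MP_ca1492_al, p-adic side, module Bruhat: `lev cb = ⋃ upp(o) w upp(o')`, over any field

Proof (Gaussian elimination). Refine `o`, `o'` to injective functions (lexicographically with
`Fintype.equivFin κ`; `upp` for the refinement is contained in `upp F cb o`). Process the rows `i`
in decreasing order of `o i`. At each stage the matrix is `p g q` with `p ∈ upp(o)`, `q ∈ upp(o')`;
the rows already processed have exactly one nonzero entry, and the pivot columns have exactly one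
nonzero entry. Row `i`: it is zero in the pivot columns used so far; it is nonzero (invertibility);
let `j` be the column with `(i,j)` entry nonzero and `o' j` minimal (then `cb j = cb i`). Adding
multiples of column `j` to the columns `j'` with `o' j < o' j'`, `cb j' = cb j` (right multiplication
by `1 + Σ c E_{j j'} ∈ upp(o')`) makes the other entries of row `i` zero; adding multiples of row `i`
to the rows `i'` with `o i' < o i`, `cb i' = cb i` (left multiplication by
`1 + Σ c E_{i' i} ∈ upp(o)`) makes the other entries of column `j` in the unprocessed rows zero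
(in the processed rows they are zero since these rows have only their pivot). Neither operation
changes the processed rows and pivot columns. At the end the matrix is monomial: a permutation matrix
times an invertible diagonal matrix (which belongs to `upp(o')`).
It may be convenient to do the induction on the number of processed rows, or on `κ` by an
ordering of the rows as a list.
-/

set_option autoImplicit false

namespace Pool.Agent.Lib.MP_ca1492_al.P

open Matrix

noncomputable section

variable {F : Type} [Field F] {κ : Type} [Fintype κ] [DecidableEq κ]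

/-- the unit `1 + N` for `N * N = 0` -/
def Bruhat_el (N : Matrix κ κ F) (h : N * N = 0) : GL κ F where
  val := 1 + N
  inv := 1 - N
  val_inv := by
    rw [mul_sub, mul_one, add_mul, one_mul, h, add_zero, add_sub_cancel_right]
  inv_val := by
    rw [mul_add, mul_one, sub_mul, one_mul, h, sub_zero, sub_add_cancel]

omit [Fintype κ] in
theorem Bruhat_one_ne (a b : κ) (h : a ≠ b) : (1 : Matrix κ κ F) a b = 0 :=
  Matrix.one_apply_ne h

theorem Bruhat_el_mem {ι : Type} (cb : κ → ι) (o : κ → ℤ) (N : Matrix κ κ F) (h : N * N = 0)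
    (h1 : ∀ a b, cb a ≠ cb b → N a b = 0) (h2 : ∀ a b, o b < o a → N a b = 0) :
    Bruhat_el N h ∈ upp F cb o := by
  refine ⟨fun a b hab => ?_, fun a b hab => ?_⟩
  · change (1 + N) a b = 0
    rw [Matrix.add_apply, h1 a b hab, Matrix.one_apply_ne (fun h' => hab (by rw [h'])), add_zero]
  · change (1 + N) a b = 0
    rw [Matrix.add_apply, h2 a b hab,
      Matrix.one_apply_ne (fun h' => by rw [h'] at hab; exact lt_irrefl _ hab), add_zero]

/-- the column matrix at column `i` -/
def Bruhat_L (i : κ) (c : κ → F) : Matrix κ κ F :=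
  Matrix.of fun a b => if b = i ∧ a ≠ i then c a else 0

/-- the row matrix at row `j` -/
def Bruhat_R (j : κ) (d : κ → F) : Matrix κ κ F :=
  Matrix.of fun a b => if a = j ∧ b ≠ j then d b else 0

theorem Bruhat_L_sq (i : κ) (c : κ → F) : Bruhat_L i c * Bruhat_L i c = 0 := by
  ext a b
  rw [Matrix.mul_apply]
  refine Finset.sum_eq_zero fun k _ => ?_
  simp only [Bruhat_L, Matrix.of_apply]
  by_cases h : k = i
  · rw [if_neg (fun h' : b = i ∧ k ≠ i => h'.2 h), mul_zero]
  · rw [if_neg (fun h' : k = i ∧ a ≠ i => h h'.1), zero_mul]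

theorem Bruhat_R_sq (j : κ) (d : κ → F) : Bruhat_R j d * Bruhat_R j d = 0 := by
  ext a b
  rw [Matrix.mul_apply]
  refine Finset.sum_eq_zero fun k _ => ?_
  simp only [Bruhat_R, Matrix.of_apply]
  by_cases h : k = j
  · rw [if_neg (fun h' : a = j ∧ k ≠ j => h'.2 h), zero_mul]
  · rw [if_neg (fun h' : k = j ∧ b ≠ j => h h'.1), mul_zero]

theorem Bruhat_L_mul (i : κ) (c : κ → F) (m : Matrix κ κ F) (a b : κ) :
    ((1 + Bruhat_L i c) * m) a b = m a b + if a ≠ i then c a * m i b else 0 := by
  rw [add_mul, one_mul, Matrix.add_apply, Matrix.mul_apply, Finset.sum_eq_single i]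
  · simp only [Bruhat_L, Matrix.of_apply]
    by_cases h : a = i
    · simp [h]
    · simp [h]
  · intro k _ hk
    simp only [Bruhat_L, Matrix.of_apply]
    rw [if_neg (fun h' : k = i ∧ a ≠ i => hk h'.1), zero_mul]
  · intro h
    exact absurd (Finset.mem_univ _) h

theorem Bruhat_mul_R (j : κ) (d : κ → F) (m : Matrix κ κ F) (a b : κ) :
    (m * (1 + Bruhat_R j d)) a b = m a b + if b ≠ j then m a j * d b else 0 := by
  rw [mul_add, mul_one, Matrix.add_apply, Matrix.mul_apply, Finset.sum_eq_single j]
  · simp only [Bruhat_R, Matrix.of_apply]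
    by_cases h : b = j
    · simp [h]
    · simp [h]
  · intro k _ hk
    simp only [Bruhat_R, Matrix.of_apply]
    rw [if_neg (fun h' : k = j ∧ b ≠ j => hk h'.1), mul_zero]
  · intro h
    exact absurd (Finset.mem_univ _) h

/-- the processed rows `s` have one nonzero entry, in the column `π i`, which has no other
nonzero entry -/
def Bruhat_P (m : Matrix κ κ F) (s : Finset κ) (π : κ → κ) : Prop :=
  ∀ i ∈ s, m i (π i) ≠ 0 ∧ (∀ j, j ≠ π i → m i j = 0) ∧ (∀ i', i' ≠ i → m i' (π i) = 0)

theorem Bruhat_row_ne (m : GL κ F) (i : κ) : ∃ j, (m : Matrix κ κ F) i j ≠ 0 := by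
  by_contra hcon
  push Not at hcon
  have h1 : (m : Matrix κ κ F) * ((m⁻¹ : GL κ F) : Matrix κ κ F) = 1 := by
    rw [← Units.val_mul]
    simp
  have h2 := congrFun (congrFun h1 i) i
  rw [Matrix.mul_apply, Matrix.one_apply_eq] at h2
  rw [Finset.sum_eq_zero (fun k _ => by rw [hcon k, zero_mul])] at h2
  exact zero_ne_one h2

theorem Bruhat_step {ι : Type} (cb : κ → ι) (o o' : κ → ℤ) (m : GL κ F) (hm : m ∈ lev F cb)
    (s : Finset κ) (π : κ → κ) (hP : Bruhat_P (m : Matrix κ κ F) s π) (i : κ) (hi : i ∉ s)
    (hmax : ∀ i', i' ∉ s → o i' ≤ o i) :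
    ∃ L ∈ upp F cb o, ∃ R ∈ upp F cb o', ∃ π' : κ → κ,
      Bruhat_P ((L * m * R : GL κ F) : Matrix κ κ F) (insert i s) π' := by
  classical
  obtain ⟨j, hj, hjmin⟩ : ∃ j, (m : Matrix κ κ F) i j ≠ 0 ∧
      ∀ j', (m : Matrix κ κ F) i j' ≠ 0 → o' j ≤ o' j' := by
    obtain ⟨j0, hj0⟩ := Bruhat_row_ne m i
    obtain ⟨j, hj, hmin⟩ := Finset.exists_min_image
      (Finset.univ.filter fun j => (m : Matrix κ κ F) i j ≠ 0) o'
      ⟨j0, Finset.mem_filter.2 ⟨Finset.mem_univ _, hj0⟩⟩
    exact ⟨j, (Finset.mem_filter.1 hj).2, fun j' hj' =>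
      hmin j' (Finset.mem_filter.2 ⟨Finset.mem_univ _, hj'⟩)⟩
  have hij : cb i = cb j := by
    by_contra hcon
    exact hj (hm i j hcon)
  -- entries of the processed rows in column `j`
  have hcol : ∀ a ∈ s, (m : Matrix κ κ F) a j = 0 := by
    intro a ha
    obtain ⟨_, h2, h3⟩ := hP a ha
    by_cases h : j = π a
    · exfalso
      apply hj
      rw [h]
      exact h3 i (fun h' => hi (by rw [h']; exact ha))
    · exact h2 j h
  -- entries of row `i` in the pivot columns
  have hrow : ∀ a ∈ s, (m : Matrix κ κ F) i (π a) = 0 := by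
    intro a ha
    exact (hP a ha).2.2 i (fun h' => hi (by rw [h']; exact ha))
  set c : κ → F := fun a => -((m : Matrix κ κ F) a j / (m : Matrix κ κ F) i j) with hc
  set d : κ → F := fun b => -((m : Matrix κ κ F) i b / (m : Matrix κ κ F) i j) with hd
  have hL : Bruhat_el (Bruhat_L i c) (Bruhat_L_sq i c) ∈ upp F cb o := by
    refine Bruhat_el_mem cb o _ _ (fun a b hab => ?_) (fun a b hab => ?_)
    · simp only [Bruhat_L, Matrix.of_apply]
      split_ifs with h
      · rw [hc]
        simp only
        rw [hm a j (fun h' => hab (by rw [h.1, hij, h'])), zero_div, neg_zero]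
      · rfl
    · simp only [Bruhat_L, Matrix.of_apply]
      split_ifs with h
      · rw [hc]
        simp only
        by_cases has : a ∈ s
        · rw [hcol a has, zero_div, neg_zero]
        · have := hmax a has
          rw [h.1] at hab
          omega
      · rfl
  have hR : Bruhat_el (Bruhat_R j d) (Bruhat_R_sq j d) ∈ upp F cb o' := by
    refine Bruhat_el_mem cb o' _ _ (fun a b hab => ?_) (fun a b hab => ?_)
    · simp only [Bruhat_R, Matrix.of_apply]
      split_ifs with h
      · rw [hd]
        simp only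
        rw [hm i b (fun h' => hab (by rw [h.1, ← hij, h'])), zero_div, neg_zero]
      · rfl
    · simp only [Bruhat_R, Matrix.of_apply]
      split_ifs with h
      · rw [hd]
        simp only
        by_cases h0 : (m : Matrix κ κ F) i b = 0
        · rw [h0, zero_div, neg_zero]
        · have := hjmin b h0
          rw [h.1] at hab
          omega
      · rfl
  refine ⟨_, hL, _, hR, Function.update π i j, ?_⟩
  -- the entries of the new matrix
  have hLe : ∀ a b, ((1 + Bruhat_L i c) * (m : Matrix κ κ F)) a b =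
      (m : Matrix κ κ F) a b + if a ≠ i then c a * (m : Matrix κ κ F) i b else 0 :=
    Bruhat_L_mul i c (m : Matrix κ κ F)
  have hLj : ∀ a, a ≠ i → ((1 + Bruhat_L i c) * (m : Matrix κ κ F)) a j = 0 := by
    intro a ha
    rw [hLe, if_pos ha, hc]
    simp only
    field_simp
    ring
  have hent : ∀ a b, ((Bruhat_el (Bruhat_L i c) (Bruhat_L_sq i c) * m *
      Bruhat_el (Bruhat_R j d) (Bruhat_R_sq j d) : GL κ F) : Matrix κ κ F) a b =
      ((1 + Bruhat_L i c) * (m : Matrix κ κ F)) a b +
        if b ≠ j then ((1 + Bruhat_L i c) * (m : Matrix κ κ F)) a j * d b else 0 := by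
    intro a b
    rw [Units.val_mul, Units.val_mul]
    exact Bruhat_mul_R j d _ a b
  have hne : ∀ a b, a ≠ i → ((Bruhat_el (Bruhat_L i c) (Bruhat_L_sq i c) * m *
      Bruhat_el (Bruhat_R j d) (Bruhat_R_sq j d) : GL κ F) : Matrix κ κ F) a b =
      (m : Matrix κ κ F) a b + c a * (m : Matrix κ κ F) i b := by
    intro a b ha
    rw [hent, hLj a ha, zero_mul, hLe, if_pos ha]
    split_ifs <;> rw [add_zero]
  have hie : ∀ b, ((Bruhat_el (Bruhat_L i c) (Bruhat_L_sq i c) * m *
      Bruhat_el (Bruhat_R j d) (Bruhat_R_sq j d) : GL κ F) : Matrix κ κ F) i b =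
      if b = j then (m : Matrix κ κ F) i j else 0 := by
    intro b
    rw [hent, hLe, hLe, if_neg (fun h : i ≠ i => h rfl), if_neg (fun h : i ≠ i => h rfl), add_zero,
      add_zero]
    by_cases hb : b = j
    · rw [hb, if_neg (fun h : j ≠ j => h rfl), if_pos rfl, add_zero]
    · rw [if_pos hb, if_neg hb, hd]
      simp only
      field_simp
      ring
  intro a ha
  rw [Finset.mem_insert] at ha
  by_cases hai : a = i
  · subst hai
    rw [Function.update_self]
    refine ⟨?_, fun b hb => ?_, fun b hb => ?_⟩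
    · rw [hie, if_pos rfl]
      exact hj
    · rw [hie, if_neg hb]
    · rw [hne b j hb, hc]
      simp only
      field_simp
      ring
  · have has : a ∈ s := ha.resolve_left hai
    have hca : c a = 0 := by
      rw [hc]
      simp only
      rw [hcol a has, zero_div, neg_zero]
    obtain ⟨h1, h2, h3⟩ := hP a has
    rw [Function.update_of_ne hai]
    refine ⟨?_, fun b hb => ?_, fun b hb => ?_⟩
    · rw [hne a _ hai, hca, zero_mul, add_zero]
      exact h1
    · rw [hne a _ hai, hca, zero_mul, add_zero]
      exact h2 b hb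
    · by_cases hbi : b = i
      · subst hbi
        rw [hie, if_neg]
        intro h
        exact h1 (by rw [h]; exact hcol a has)
      · rw [hne b _ hbi, hrow a has, mul_zero, add_zero]
        exact h3 b hb

theorem Bruhat_all {ι : Type} (cb : κ → ι) (o o' : κ → ℤ) (g : GL κ F) (hg : g ∈ lev F cb)
    (n : ℕ) (hn : n ≤ Fintype.card κ) :
    ∃ s : Finset κ, s.card = n ∧ (∀ i ∈ s, ∀ i', i' ∉ s → o i' ≤ o i) ∧
      ∃ p ∈ upp F cb o, ∃ q ∈ upp F cb o', ∃ π : κ → κ,
        Bruhat_P ((p * g * q : GL κ F) : Matrix κ κ F) s π := by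
  induction n with
  | zero =>
    refine ⟨∅, rfl, fun i hi => absurd hi (Finset.notMem_empty i), 1, (upp F cb o).one_mem, 1,
      (upp F cb o').one_mem, id, fun i hi => absurd hi (Finset.notMem_empty i)⟩
  | succ n ih =>
    obtain ⟨s, hs, hup, p, hp, q, hq, π, hP⟩ := ih (by omega)
    have hne : (sᶜ).Nonempty := by
      rw [← Finset.card_pos, Finset.card_compl]
      omega
    obtain ⟨i, hi, hmax⟩ := Finset.exists_max_image sᶜ o hne
    rw [Finset.mem_compl] at hi
    have hm : p * g * q ∈ lev F cb :=
      (lev F cb).mul_mem ((lev F cb).mul_mem hp.1 hg) hq.1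
    obtain ⟨L, hL, R, hR, π', hP'⟩ := Bruhat_step cb o o' (p * g * q) hm s π hP i hi
      (fun i' hi' => hmax i' (Finset.mem_compl.2 hi'))
    refine ⟨insert i s, ?_, ?_, L * p, (upp F cb o).mul_mem hL hp, q * R,
      (upp F cb o').mul_mem hq hR, π', ?_⟩
    · rw [Finset.card_insert_of_notMem hi, hs]
    · intro a ha a' ha'
      have ha's : a' ∉ s := fun h => ha' (Finset.mem_insert_of_mem h)
      rcases Finset.mem_insert.1 ha with h | h
      · rw [h]
        exact hmax a' (Finset.mem_compl.2 ha's)
      · exact hup a h a' ha's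
    · have he : L * p * g * (q * R) = L * (p * g * q) * R := by
        simp only [mul_assoc]
      rw [he]
      exact hP'

theorem bruhat {ι : Type} (cb : κ → ι) (o o' : κ → ℤ) (g : GL κ F) (hg : g ∈ lev F cb) :
    ∃ p ∈ upp F cb o, ∃ w : Equiv.Perm κ, (∀ i, cb (w i) = cb i) ∧
      ∃ q ∈ upp F cb o', g = p * permG F w * q := by
  obtain ⟨s, hs, _, p, hp, q, hq, π, hP⟩ := Bruhat_all cb o o' g hg _ le_rfl
  have hsu : s = Finset.univ := (Finset.card_eq_iff_eq_univ s).1 hs
  subst hsu
  have hinj : Function.Injective π := by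
    intro a b hab
    by_contra hne
    exact (hP a (Finset.mem_univ _)).1 (by rw [hab]; exact (hP b (Finset.mem_univ _)).2.2 a hne)
  have hbij : Function.Bijective π := Finite.injective_iff_bijective.1 hinj
  set e : Equiv.Perm κ := Equiv.ofBijective π hbij with he
  have heπ : ∀ a, e a = π a := fun a => rfl
  have hm : p * g * q ∈ lev F cb :=
    (lev F cb).mul_mem ((lev F cb).mul_mem hp.1 hg) hq.1
  have hw : ∀ i, cb (e.symm i) = cb i := by
    intro i
    by_contra hcon
    apply (hP (e.symm i) (Finset.mem_univ _)).1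
    rw [← heπ, Equiv.apply_symm_apply]
    exact hm _ _ hcon
  have hD : ((permG F e.symm)⁻¹ * (p * g * q)) ∈ upp F cb o' := by
    have hent : ∀ a b, (((permG F e.symm)⁻¹ * (p * g * q) : GL κ F) : Matrix κ κ F) a b =
        ((p * g * q : GL κ F) : Matrix κ κ F) (e.symm a) b := by
      intro a b
      rw [Units.val_mul]
      change (Matrix.of (fun i j => if e.symm i = j then (1 : F) else 0) *
        ((p * g * q : GL κ F) : Matrix κ κ F)) a b = _
      rw [Matrix.mul_apply, Finset.sum_eq_single (e.symm a)]
      · rw [Matrix.of_apply, if_pos rfl, one_mul]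
      · intro k _ hk
        rw [Matrix.of_apply, if_neg (Ne.symm hk), zero_mul]
      · intro h
        exact absurd (Finset.mem_univ _) h
    have hz : ∀ a b, a ≠ b →
        (((permG F e.symm)⁻¹ * (p * g * q) : GL κ F) : Matrix κ κ F) a b = 0 := by
      intro a b hab
      rw [hent]
      refine (hP (e.symm a) (Finset.mem_univ _)).2.1 b ?_
      rw [← heπ, Equiv.apply_symm_apply]
      exact Ne.symm hab
    refine ⟨fun a b hab => hz a b (fun h => hab (by rw [h])), fun a b hab => hz a b (fun h => ?_)⟩
    rw [h] at hab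
    exact lt_irrefl _ hab
  refine ⟨p⁻¹, (upp F cb o).inv_mem hp, e.symm, hw,
    ((permG F e.symm)⁻¹ * (p * g * q)) * q⁻¹,
    (upp F cb o').mul_mem hD ((upp F cb o').inv_mem hq), ?_⟩
  group

end

end Pool.Agent.Lib.MP_ca1492_al.P
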