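import Mathlib
import Pool.Agent.Lib.MP_ca1492_al.P.GLDefs

/-!
# MP_ca1492_al, p-adic side, module CRank: rank functions of the corners

`mask S T g` = the matrix `g` with all entries outside the rows `S` and columns `T` replaced by `0`;
`rkc cb o o' x a b g` = rank of the corner with rows `{cb i = x, a ≤ o i}` and columns
`{cb j = x, o' j < b}`.

* `rank_open` (lower semicontinuity): if `r ≤ rank M` there are injective `e : Fin r → m`,
  `f : Fin r → n` with `det (M.submatrix e f) ≠ 0` (choose `r` linearly independent rows, then `r`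
  linearly independent columns of the resulting matrix, whose rank is `r`); the set of matrices with
  this minor `≠ 0` is open and on it the rank is `≥ r`.
* `rkc_open`: `g ↦ mask g` is continuous.
* `rkc_mul`: for `p ∈ upp cb o`, `q ∈ upp cb o'`, `g ∈ lev cb`:
  `mask (p g q) = mask' p * mask g * mask'' q` where `mask' p` keeps the entries of `p` with both
  indices in the row set `R = {cb i = x, a ≤ o i}` and `mask'' q` those of `q` with both indices in the
  column set `C = {cb j = x, o' j < b}` (`p i k ≠ 0` with `i ∈ R` implies `k ∈ R`; `q l j ≠ 0` with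
  `j ∈ C` implies `l ∈ C`). So the rank does not increase, and the same for `p⁻¹`, `q⁻¹`.
* `rkc_permG`: the corner of a permutation matrix has rank `#{j | cb j = x, o' j < b, a ≤ o (w j)}`.
* `dc_of_rk` (cells with the same ranks coincide): from the numbers
  `#{j | cb j = x, o' j < b, a ≤ o (w j)}` for all `x, a, b` (`a`, `b` arbitrary integers) one gets
  by differences `#{j | cb j = x, o' j = b, o (w j) = a}`, so there is a permutation `v` of `κ` with
  `cb (v j) = cb j`, `o' (v j) = o' j`, `o (w' (v j)) = o (w j)` for all `j` (glue bijections between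
  the fibres, e.g. `Fintype.card_eq`/`Equiv` of sigma types or `Equiv.sigmaFiberEquiv`); `u = w' v w⁻¹`
  preserves `cb` and `o`; `permG w' = permG u * permG w * permG v⁻¹`, `permG u ∈ upp cb o`,
  `permG v⁻¹ ∈ upp cb o'`.
-/

set_option autoImplicit false

namespace Pool.Agent.Lib.MP_ca1492_al.P

open Topology Matrix ValuativeRel

noncomputable section

variable {F : Type} [Field F] {κ : Type} [Fintype κ] [DecidableEq κ]

open Classical in
/-- keep the entries in the rows `S` and the columns `T` -/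
def mask (S T : κ → Prop) (g : Matrix κ κ F) : Matrix κ κ F :=
  Matrix.of fun i j => if S i ∧ T j then g i j else 0

/-- rank of the corner with rows `{cb i = x, a ≤ o i}`, columns `{cb j = x, o' j < b}` -/
def rkc {ι : Type} (cb : κ → ι) (o o' : κ → ℤ) (x : ι) (a b : ℤ) (g : Matrix κ κ F) : ℕ :=
  (mask (fun i => cb i = x ∧ a ≤ o i) (fun j => cb j = x ∧ o' j < b) g).rank

open Classical in
/-- the sum of the ranks of all corners -/
def rkS {ι : Type} (cb : κ → ι) (o o' : κ → ℤ) (g : Matrix κ κ F) : ℕ :=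
  ∑ x ∈ Finset.univ.image cb, ∑ a ∈ Finset.univ.image o, ∑ b ∈ Finset.univ.image o',
    rkc cb o o' x a b g

open Classical in
/-- the indicator diagonal matrix -/
def CRank_D (F : Type) [Field F] {κ : Type} [Fintype κ] [DecidableEq κ] (S : κ → Prop) :
    Matrix κ κ F :=
  Matrix.diagonal fun i => if S i then 1 else 0

theorem CRank_mask (S T : κ → Prop) (g : Matrix κ κ F) :
    mask S T g = CRank_D F S * g * CRank_D F T := by
  classical
  ext i j
  unfold mask CRank_D
  rw [Matrix.mul_diagonal, Matrix.diagonal_mul, Matrix.of_apply]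
  by_cases h1 : S i
  · by_cases h2 : T j
    · rw [if_pos ⟨h1, h2⟩, if_pos h1, if_pos h2, one_mul, mul_one]
    · rw [if_neg (fun h => h2 h.2), if_neg h2, mul_zero]
  · rw [if_neg (fun h => h1 h.1), if_neg h1, zero_mul, zero_mul]

theorem CRank_left (S : κ → Prop) (p : Matrix κ κ F) (h : ∀ i k, S i → p i k ≠ 0 → S k) :
    CRank_D F S * p = CRank_D F S * p * CRank_D F S := by
  classical
  ext i k
  unfold CRank_D
  rw [Matrix.mul_diagonal, Matrix.diagonal_mul]
  by_cases h1 : S i
  · by_cases h2 : p i k = 0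
    · rw [h2, mul_zero, zero_mul]
    · rw [if_pos (h i k h1 h2), mul_one]
  · rw [if_neg h1, zero_mul, zero_mul]

theorem CRank_right (T : κ → Prop) (q : Matrix κ κ F) (h : ∀ l j, T j → q l j ≠ 0 → T l) :
    q * CRank_D F T = CRank_D F T * (q * CRank_D F T) := by
  classical
  ext l j
  unfold CRank_D
  rw [Matrix.diagonal_mul, Matrix.mul_diagonal]
  by_cases h1 : T j
  · by_cases h2 : q l j = 0
    · rw [h2, zero_mul, mul_zero]
    · rw [if_pos (h l j h1 h2), one_mul]
  · rw [if_neg h1, mul_zero, mul_zero]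

theorem CRank_le {ι : Type} (cb : κ → ι) (o o' : κ → ℤ) (x : ι) (a b : ℤ) (p g q : GL κ F)
    (hp : p ∈ upp F cb o) (hq : q ∈ upp F cb o') :
    rkc cb o o' x a b ((p * g * q : GL κ F) : Matrix κ κ F) ≤
      rkc cb o o' x a b (g : Matrix κ κ F) := by
  obtain ⟨S, hS⟩ : ∃ S : κ → Prop, S = fun i => cb i = x ∧ a ≤ o i := ⟨_, rfl⟩
  obtain ⟨T, hT⟩ : ∃ T : κ → Prop, T = fun j => cb j = x ∧ o' j < b := ⟨_, rfl⟩
  have h1 : ∀ i k, S i → (p : Matrix κ κ F) i k ≠ 0 → S k := by
    intro i k hi hik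
    rw [hS] at hi ⊢
    have e1 : cb i = cb k := by
      by_contra hne
      exact hik (hp.1 i k hne)
    have e2 : ¬ o k < o i := fun hlt => hik (hp.2 i k hlt)
    exact ⟨e1.symm.trans hi.1, by have := hi.2; omega⟩
  have h2 : ∀ l j, T j → (q : Matrix κ κ F) l j ≠ 0 → T l := by
    intro l j hj hlj
    rw [hT] at hj ⊢
    have e1 : cb l = cb j := by
      by_contra hne
      exact hlj (hq.1 l j hne)
    have e2 : ¬ o' j < o' l := fun hlt => hlj (hq.2 l j hlt)
    exact ⟨e1.trans hj.1, by have := hj.2; omega⟩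
  unfold rkc
  rw [← hS, ← hT, CRank_mask, CRank_mask, Units.val_mul, Units.val_mul]
  have e : CRank_D F S * ((p : Matrix κ κ F) * (g : Matrix κ κ F) * (q : Matrix κ κ F)) *
      CRank_D F T = (CRank_D F S * (p : Matrix κ κ F)) *
        ((CRank_D F S * (g : Matrix κ κ F) * CRank_D F T) *
          ((q : Matrix κ κ F) * CRank_D F T)) := by
    have e1 := CRank_left S (p : Matrix κ κ F) h1
    have e2 := CRank_right T (q : Matrix κ κ F) h2
    calc CRank_D F S * ((p : Matrix κ κ F) * (g : Matrix κ κ F) * (q : Matrix κ κ F)) *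
        CRank_D F T = (CRank_D F S * (p : Matrix κ κ F)) * (g : Matrix κ κ F) *
          ((q : Matrix κ κ F) * CRank_D F T) := by simp only [Matrix.mul_assoc]
      _ = (CRank_D F S * (p : Matrix κ κ F) * CRank_D F S) * (g : Matrix κ κ F) *
          (CRank_D F T * ((q : Matrix κ κ F) * CRank_D F T)) := by rw [← e1, ← e2]
      _ = _ := by simp only [Matrix.mul_assoc]
  rw [e]
  exact (Matrix.rank_mul_le_right _ _).trans (Matrix.rank_mul_le_left _ _)

theorem CRank_permG_mul (w w' : Equiv.Perm κ) :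
    permG F (w * w') = permG F w * permG F w' := by
  apply Units.ext
  ext i j
  rw [Units.val_mul, Matrix.mul_apply]
  have h : ∀ (u : Equiv.Perm κ) (a b : κ), (permG F u : Matrix κ κ F) a b =
      if u b = a then 1 else 0 := fun _ _ _ => rfl
  simp only [h]
  rw [Finset.sum_eq_single (w' j)]
  · rw [if_pos rfl, mul_one]
    rfl
  · intro k _ hk
    have h5 : ¬ (w' j = k) := fun h' => hk h'.symm
    rw [if_neg h5, mul_zero]
  · intro h'
    exact absurd (Finset.mem_univ _) h'

theorem CRank_permG_mem {ι : Type} (cb : κ → ι) (o : κ → ℤ) (u : Equiv.Perm κ)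
    (h1 : ∀ i, cb (u i) = cb i) (h2 : ∀ i, o (u i) = o i) : permG F u ∈ upp F cb o := by
  have h : ∀ (a b : κ), (permG F u : Matrix κ κ F) a b = if u b = a then 1 else 0 :=
    fun _ _ => rfl
  refine ⟨fun i j hij => ?_, fun i j hij => ?_⟩
  · rw [h, if_neg]
    intro h'
    apply hij
    rw [← h', h1]
  · rw [h, if_neg]
    intro h'
    rw [← h', h2] at hij
    exact lt_irrefl _ hij

theorem rkc_mul {ι : Type} (cb : κ → ι) (o o' : κ → ℤ) (x : ι) (a b : ℤ) (p g q : GL κ F)
    (hp : p ∈ upp F cb o) (hq : q ∈ upp F cb o') :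
    rkc cb o o' x a b ((p * g * q : GL κ F) : Matrix κ κ F) =
      rkc cb o o' x a b (g : Matrix κ κ F) := by
  apply le_antisymm (CRank_le cb o o' x a b p g q hp hq)
  have h := CRank_le cb o o' x a b p⁻¹ (p * g * q) q⁻¹ ((upp F cb o).inv_mem hp)
    ((upp F cb o').inv_mem hq)
  have e : p⁻¹ * (p * g * q) * q⁻¹ = g := by group
  rw [e] at h
  exact h

open Classical in
theorem rkc_permG {ι : Type} (cb : κ → ι) (o o' : κ → ℤ) (x : ι) (a b : ℤ)
    (w : Equiv.Perm κ) (hw : ∀ i, cb (w i) = cb i) :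
    rkc cb o o' x a b (permG F w : Matrix κ κ F) =
      (Finset.univ.filter fun j => cb j = x ∧ o' j < b ∧ a ≤ o (w j)).card := by
  have e : mask (fun i => cb i = x ∧ a ≤ o i) (fun j => cb j = x ∧ o' j < b)
      (permG F w : Matrix κ κ F) = (permG F w : Matrix κ κ F) *
        Matrix.diagonal (fun j => if cb j = x ∧ o' j < b ∧ a ≤ o (w j) then (1 : F) else 0) := by
    ext i j
    rw [Matrix.mul_diagonal]
    unfold mask
    rw [Matrix.of_apply]
    have h : (permG F w : Matrix κ κ F) i j = if w j = i then 1 else 0 := rfl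
    rw [h]
    by_cases hij : w j = i
    · rw [if_pos hij, one_mul]
      have hiff : ((cb i = x ∧ a ≤ o i) ∧ cb j = x ∧ o' j < b) ↔
          (cb j = x ∧ o' j < b ∧ a ≤ o (w j)) := by
        rw [← hij, hw]
        tauto
      by_cases hc : cb j = x ∧ o' j < b ∧ a ≤ o (w j)
      · rw [if_pos hc, if_pos (hiff.2 hc)]
      · rw [if_neg hc, if_neg (fun h' => hc (hiff.1 h'))]
    · rw [if_neg hij, zero_mul]
      exact ite_self 0
  unfold rkc
  rw [e, Matrix.rank_mul_eq_right_of_isUnit_det _ _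
    ((Matrix.isUnit_iff_isUnit_det _).1 (permG F w).isUnit), Matrix.rank_diagonal]
  rw [Fintype.card_subtype]
  congr 1
  ext j
  simp only [Finset.mem_filter, Finset.mem_univ, true_and]
  by_cases hc : cb j = x ∧ o' j < b ∧ a ≤ o (w j)
  · rw [if_pos hc]
    exact ⟨fun _ => hc, fun _ => one_ne_zero⟩
  · rw [if_neg hc]
    exact ⟨fun h => absurd rfl h, fun h => absurd h hc⟩

/-- it is enough to know the ranks for `x`, `a`, `b` in the images -/
theorem rkc_eq_of_image {ι : Type} (cb : κ → ι) (o o' : κ → ℤ) (w w' : Equiv.Perm κ)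
    (hw : ∀ i, cb (w i) = cb i) (hw' : ∀ i, cb (w' i) = cb i)
    (h : ∀ x ∈ Set.range cb, ∀ a ∈ Set.range o, ∀ b ∈ Set.range o',
      rkc cb o o' x a b (permG F w : Matrix κ κ F) =
        rkc cb o o' x a b (permG F w' : Matrix κ κ F)) (x : ι) (a b : ℤ) :
    rkc cb o o' x a b (permG F w : Matrix κ κ F) =
      rkc cb o o' x a b (permG F w' : Matrix κ κ F) := by
  classical
  rw [rkc_permG cb o o' x a b w hw, rkc_permG cb o o' x a b w' hw']
  -- `x` in the range
  by_cases hx : x ∈ Set.range cb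
  swap
  · have e : ∀ u : Equiv.Perm κ,
        (Finset.univ.filter fun j => cb j = x ∧ o' j < b ∧ a ≤ o (u j)) = ∅ := by
      intro u
      rw [Finset.filter_eq_empty_iff]
      rintro j - ⟨h1, -, -⟩
      exact hx ⟨j, h1⟩
    rw [e, e]
  by_cases ha : ∃ i, a ≤ o i
  swap
  · have e : ∀ u : Equiv.Perm κ,
        (Finset.univ.filter fun j => cb j = x ∧ o' j < b ∧ a ≤ o (u j)) = ∅ := by
      intro u
      rw [Finset.filter_eq_empty_iff]
      rintro j - ⟨-, -, h1⟩
      exact ha ⟨u j, h1⟩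
    rw [e, e]
  obtain ⟨a', ha', hiffa⟩ : ∃ a' ∈ Set.range o, ∀ i, a ≤ o i ↔ a' ≤ o i := by
    obtain ⟨i₀, hi₀⟩ := ha
    obtain ⟨i, hi, hmin⟩ := Finset.exists_min_image (Finset.univ.filter fun i => a ≤ o i) o
      ⟨i₀, Finset.mem_filter.2 ⟨Finset.mem_univ _, hi₀⟩⟩
    refine ⟨o i, ⟨i, rfl⟩, fun j => ⟨fun hj => ?_, fun hj => ?_⟩⟩
    · exact hmin j (Finset.mem_filter.2 ⟨Finset.mem_univ _, hj⟩)
    · exact le_trans (Finset.mem_filter.1 hi).2 hj
  by_cases hb : ∃ j, b ≤ o' j
  · obtain ⟨b', hb', hiffb⟩ : ∃ b' ∈ Set.range o', ∀ j, o' j < b ↔ o' j < b' := by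
      obtain ⟨j₀, hj₀⟩ := hb
      obtain ⟨j, hj, hmin⟩ := Finset.exists_min_image (Finset.univ.filter fun j => b ≤ o' j) o'
        ⟨j₀, Finset.mem_filter.2 ⟨Finset.mem_univ _, hj₀⟩⟩
      refine ⟨o' j, ⟨j, rfl⟩, fun i => ⟨fun hi => ?_, fun hi => ?_⟩⟩
      · exact lt_of_lt_of_le hi (Finset.mem_filter.1 hj).2
      · by_contra hcon
        have h1 := hmin i (Finset.mem_filter.2 ⟨Finset.mem_univ _, not_lt.1 hcon⟩)
        omega
    have e : ∀ u : Equiv.Perm κ,
        (Finset.univ.filter fun j => cb j = x ∧ o' j < b ∧ a ≤ o (u j)) =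
          Finset.univ.filter fun j => cb j = x ∧ o' j < b' ∧ a' ≤ o (u j) := by
      intro u
      apply Finset.filter_congr
      intro j _
      rw [hiffb j, hiffa (u j)]
    have h1 := h x hx a' ha' b' hb'
    rw [rkc_permG cb o o' x a' b' w hw, rkc_permG cb o o' x a' b' w' hw'] at h1
    rw [e, e]
    exact h1
  · have hb' : ∀ j, o' j < b := fun j => by
      by_contra hcon
      exact hb ⟨j, not_lt.1 hcon⟩
    have e : ∀ u : Equiv.Perm κ, (∀ i, cb (u i) = cb i) →
        (Finset.univ.filter fun j => cb j = x ∧ o' j < b ∧ a ≤ o (u j)).card =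
          (Finset.univ.filter fun i => cb i = x ∧ a ≤ o i).card := by
      intro u hu
      apply Finset.card_bij (fun j _ => u j)
      · intro j hj
        obtain ⟨-, h1, -, h2⟩ := Finset.mem_filter.1 hj
        exact Finset.mem_filter.2 ⟨Finset.mem_univ _, (hu j).trans h1, h2⟩
      · intro j _ j' _ hjj
        exact u.injective hjj
      · intro i hi
        obtain ⟨-, h1, h2⟩ := Finset.mem_filter.1 hi
        refine ⟨u.symm i, Finset.mem_filter.2 ⟨Finset.mem_univ _, ?_, hb' _, ?_⟩, ?_⟩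
        · have h3 := hu (u.symm i)
          rw [Equiv.apply_symm_apply] at h3
          rw [← h3]
          exact h1
        · rw [Equiv.apply_symm_apply]
          exact h2
        · exact Equiv.apply_symm_apply u i
    rw [e w hw, e w' hw']

theorem dc_of_rk {ι : Type} (cb : κ → ι) (o o' : κ → ℤ) (w w' : Equiv.Perm κ)
    (hw : ∀ i, cb (w i) = cb i) (hw' : ∀ i, cb (w' i) = cb i)
    (h : ∀ x a b, rkc cb o o' x a b (permG F w : Matrix κ κ F) =
        rkc cb o o' x a b (permG F w' : Matrix κ κ F)) :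
    ∃ p ∈ upp F cb o, ∃ q ∈ upp F cb o', permG F w' = p * permG F w * q := by
  classical
  obtain ⟨N, hN⟩ : ∃ N : Equiv.Perm κ → ι → ℤ → ℤ → ℕ, ∀ u x a b, N u x a b =
      (Finset.univ.filter fun j => cb j = x ∧ o' j < b ∧ a ≤ o (u j)).card := ⟨_, fun _ _ _ _ => rfl⟩
  have hNN : ∀ x a b, N w x a b = N w' x a b := by
    intro x a b
    rw [hN, hN, ← rkc_permG (F := F) cb o o' x a b w hw, ← rkc_permG (F := F) cb o o' x a b w' hw']
    exact h x a b
  have h1 : ∀ (u : Equiv.Perm κ) x a b, N u x a (b + 1) = N u x a b +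
      (Finset.univ.filter fun j => cb j = x ∧ o' j = b ∧ a ≤ o (u j)).card := by
    intro u x a b
    rw [hN, hN, ← Finset.card_union_of_disjoint]
    · congr 1
      ext j
      simp only [Finset.mem_filter, Finset.mem_union, Finset.mem_univ, true_and]
      constructor
      · rintro ⟨e1, e2, e3⟩
        by_cases e4 : o' j = b
        · exact Or.inr ⟨e1, e4, e3⟩
        · exact Or.inl ⟨e1, by omega, e3⟩
      · rintro (⟨e1, e2, e3⟩ | ⟨e1, e2, e3⟩)
        · exact ⟨e1, by omega, e3⟩
        · exact ⟨e1, by omega, e3⟩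
    · rw [Finset.disjoint_left]
      intro j hj hj'
      have e1 := (Finset.mem_filter.1 hj).2.2.1
      have e2 := (Finset.mem_filter.1 hj').2.2.1
      omega
  have h2 : ∀ (u : Equiv.Perm κ) x a b,
      (Finset.univ.filter fun j => cb j = x ∧ o' j = b ∧ a ≤ o (u j)).card =
      (Finset.univ.filter fun j => cb j = x ∧ o' j = b ∧ a + 1 ≤ o (u j)).card +
      (Finset.univ.filter fun j => cb j = x ∧ o' j = b ∧ o (u j) = a).card := by
    intro u x a b
    rw [← Finset.card_union_of_disjoint]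
    · congr 1
      ext j
      simp only [Finset.mem_filter, Finset.mem_union, Finset.mem_univ, true_and]
      constructor
      · rintro ⟨e1, e2, e3⟩
        by_cases e4 : o (u j) = a
        · exact Or.inr ⟨e1, e2, e4⟩
        · exact Or.inl ⟨e1, e2, by omega⟩
      · rintro (⟨e1, e2, e3⟩ | ⟨e1, e2, e3⟩)
        · exact ⟨e1, e2, by omega⟩
        · exact ⟨e1, e2, by omega⟩
    · rw [Finset.disjoint_left]
      intro j hj hj'
      have e1 := (Finset.mem_filter.1 hj).2.2.2
      have e2 := (Finset.mem_filter.1 hj').2.2.2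
      omega
  have h3 : ∀ x a b,
      (Finset.univ.filter fun j => cb j = x ∧ o' j = b ∧ o (w j) = a).card =
      (Finset.univ.filter fun j => cb j = x ∧ o' j = b ∧ o (w' j) = a).card := by
    intro x a b
    have e1 := h1 w x a b
    have e2 := h1 w' x a b
    have e3 := h1 w x (a + 1) b
    have e4 := h1 w' x (a + 1) b
    have e5 := h2 w x a b
    have e6 := h2 w' x a b
    rw [hNN, hNN x a b] at e1
    rw [hNN, hNN x (a + 1) b] at e3
    omega
  -- glue the fibres
  obtain ⟨f, hf⟩ : ∃ f : κ → ι × ℤ × ℤ, ∀ j, f j = (cb j, o' j, o (w j)) := ⟨_, fun _ => rfl⟩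
  obtain ⟨f', hf'⟩ : ∃ f' : κ → ι × ℤ × ℤ, ∀ j, f' j = (cb j, o' j, o (w' j)) :=
    ⟨_, fun _ => rfl⟩
  have hfib : ∀ y : ι × ℤ × ℤ, Nonempty ({j // f j = y} ≃ {j // f' j = y}) := by
    rintro ⟨x, b, a⟩
    have hcard : Fintype.card {j // f j = (x, b, a)} = Fintype.card {j // f' j = (x, b, a)} := by
      rw [Fintype.card_subtype, Fintype.card_subtype]
      have e1 : (Finset.univ.filter fun j => f j = (x, b, a)) =
          Finset.univ.filter fun j => cb j = x ∧ o' j = b ∧ o (w j) = a := by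
        apply Finset.filter_congr
        intro j _
        rw [hf j, Prod.mk.injEq, Prod.mk.injEq]
      have e2 : (Finset.univ.filter fun j => f' j = (x, b, a)) =
          Finset.univ.filter fun j => cb j = x ∧ o' j = b ∧ o (w' j) = a := by
        apply Finset.filter_congr
        intro j _
        rw [hf' j, Prod.mk.injEq, Prod.mk.injEq]
      rw [e1, e2]
      exact h3 x a b
    exact ⟨Fintype.equivOfCardEq hcard⟩
  obtain ⟨v, hv⟩ : ∃ v : Equiv.Perm κ, ∀ j, f' (v j) = f j := by
    refine ⟨(Equiv.sigmaFiberEquiv f).symm.trans ((Equiv.sigmaCongrRight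
      (fun y => (hfib y).some)).trans (Equiv.sigmaFiberEquiv f')), fun j => ?_⟩
    exact ((hfib (f j)).some ⟨j, rfl⟩).2
  have hv1 : ∀ j, cb (v j) = cb j ∧ o' (v j) = o' j ∧ o (w' (v j)) = o (w j) := by
    intro j
    have e := hv j
    rw [hf' (v j), hf j, Prod.mk.injEq, Prod.mk.injEq] at e
    exact e
  have hvs : ∀ j, cb (v⁻¹ j) = cb j ∧ o' (v⁻¹ j) = o' j := by
    intro j
    have e := hv1 (v⁻¹ j)
    have e' : v (v⁻¹ j) = j := v.apply_symm_apply j
    rw [e'] at e
    exact ⟨e.1.symm, e.2.1.symm⟩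
  refine ⟨permG F (w' * v * w⁻¹), ?_, permG F v⁻¹, ?_, ?_⟩
  · apply CRank_permG_mem
    · intro i
      have e1 : cb (w (w⁻¹ i)) = cb (w⁻¹ i) := hw _
      have e' : w (w⁻¹ i) = i := w.apply_symm_apply i
      rw [e'] at e1
      show cb (w' (v (w⁻¹ i))) = cb i
      rw [hw', (hv1 _).1, e1]
    · intro i
      have e1 := (hv1 (w⁻¹ i)).2.2
      have e' : w (w⁻¹ i) = i := w.apply_symm_apply i
      rw [e'] at e1
      exact e1
  · exact CRank_permG_mem cb o' v⁻¹ (fun i => (hvs i).1) (fun i => (hvs i).2)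
  · rw [← CRank_permG_mul, ← CRank_permG_mul]
    congr 1
    group

variable [TopologicalSpace F] [IsTopologicalRing F] [T1Space F]

omit [TopologicalSpace F] [IsTopologicalRing F] [T1Space F] in
theorem CRank_exists (r : ℕ) (M : Matrix κ κ F) (h : r ≤ M.rank) :
    ∃ (A : Matrix (Fin r) κ F) (B : Matrix κ (Fin r) F), A * M * B = 1 := by
  classical
  obtain ⟨f, hf⟩ := exists_linearIndependent_of_le_finrank
    (R := F) (M := LinearMap.range M.mulVecLin) h
  choose b hb using fun i => (f i).2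
  have hf' : LinearIndependent F (fun i => ((f i : LinearMap.range M.mulVecLin) : κ → F)) :=
    hf.map' (LinearMap.range M.mulVecLin).subtype (Submodule.ker_subtype _)
  obtain ⟨ψ, hψ⟩ : ∃ ψ : (κ → F) →ₗ[F] (Fin r → F), ∀ i, ψ (f i) = Pi.single i 1 := by
    obtain ⟨ψ, hψ⟩ := (Fintype.linearCombination F
      (fun i => ((f i : LinearMap.range M.mulVecLin) : κ → F))).exists_leftInverse_of_injective
      (LinearMap.ker_eq_bot.2 hf'.fintypeLinearCombination_injective)
    refine ⟨ψ, fun i => ?_⟩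
    have h1 := LinearMap.congr_fun hψ (Pi.single i 1)
    rw [LinearMap.comp_apply, Fintype.linearCombination_apply_single, one_smul] at h1
    exact h1
  refine ⟨LinearMap.toMatrix' ψ, Matrix.of fun k i => b i k, ?_⟩
  ext i j
  have h2 : (LinearMap.toMatrix' ψ * M * Matrix.of fun k i => b i k) i j =
      (LinearMap.toMatrix' ψ).mulVec (M.mulVec (b j)) i := by
    rw [Matrix.mulVec_mulVec]
    rfl
  have h3 : M.mulVec (b j) = f j := hb j
  rw [h2, h3, LinearMap.toMatrix'_mulVec, hψ, Matrix.one_apply, Pi.single_apply]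

theorem rank_open (r : ℕ) : IsOpen {M : Matrix κ κ F | r ≤ M.rank} := by
  classical
  rw [isOpen_iff_mem_nhds]
  intro M hM
  obtain ⟨A, B, hAB⟩ := CRank_exists r M hM
  have hcont : Continuous (fun M' : Matrix κ κ F => (A * M' * B).det) := by
    fun_prop
  have hopen : IsOpen {M' : Matrix κ κ F | (A * M' * B).det ≠ 0} :=
    isOpen_ne.preimage hcont
  have hmem : M ∈ {M' : Matrix κ κ F | (A * M' * B).det ≠ 0} := by
    show (A * M * B).det ≠ 0
    rw [hAB, Matrix.det_one]
    exact one_ne_zero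
  refine Filter.mem_of_superset (hopen.mem_nhds hmem) ?_
  intro M' hM'
  have h1 : (A * M' * B).rank = r := by
    rw [Matrix.rank_of_det_ne_zero hM', Fintype.card_fin]
  show r ≤ M'.rank
  calc r = (A * M' * B).rank := h1.symm
    _ ≤ (A * M').rank := Matrix.rank_mul_le_left _ _
    _ ≤ M'.rank := Matrix.rank_mul_le_right _ _

theorem rkc_open {ι : Type} (cb : κ → ι) (o o' : κ → ℤ) (x : ι) (a b : ℤ) (r : ℕ) :
    IsOpen {g : GL κ F | r ≤ rkc cb o o' x a b (g : Matrix κ κ F)} := by
  have hcont : Continuous (fun g : GL κ F =>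
      mask (fun i => cb i = x ∧ a ≤ o i) (fun j => cb j = x ∧ o' j < b) (g : Matrix κ κ F)) := by
    have e : (fun g : GL κ F =>
        mask (fun i => cb i = x ∧ a ≤ o i) (fun j => cb j = x ∧ o' j < b) (g : Matrix κ κ F)) =
        fun g : GL κ F => CRank_D F (fun i => cb i = x ∧ a ≤ o i) * (g : Matrix κ κ F) *
          CRank_D F (fun j => cb j = x ∧ o' j < b) := by
      funext g
      exact CRank_mask _ _ _
    rw [e]
    exact (continuous_const.mul Units.continuous_val).mul continuous_const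
  exact (rank_open r).preimage hcont

omit [Field F] [IsTopologicalRing F] [T1Space F] [TopologicalSpace F] in
theorem CRank_lsc_sum {X ι : Type} [TopologicalSpace X] (s : Finset ι) (f : ι → X → ℕ)
    (hf : ∀ i ∈ s, ∀ r : ℕ, IsOpen {g : X | r ≤ f i g}) (r : ℕ) :
    IsOpen {g : X | r ≤ ∑ i ∈ s, f i g} := by
  rw [isOpen_iff_mem_nhds]
  intro g hg
  have h1 : ∀ i ∈ s, {g' : X | f i g ≤ f i g'} ∈ 𝓝 g := fun i hi =>
    (hf i hi (f i g)).mem_nhds (le_refl (f i g))
  have h2 : (⋂ i ∈ s, {g' : X | f i g ≤ f i g'}) ∈ 𝓝 g := (Filter.biInter_finset_mem s).2 h1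
  refine Filter.mem_of_superset h2 ?_
  intro g' hg'
  rw [Set.mem_iInter₂] at hg'
  have h3 : ∀ i ∈ s, f i g ≤ f i g' := fun i hi => hg' i hi
  exact le_trans hg (Finset.sum_le_sum h3)

theorem rkS_open {ι : Type} (cb : κ → ι) (o o' : κ → ℤ) (r : ℕ) :
    IsOpen {g : GL κ F | r ≤ rkS cb o o' (g : Matrix κ κ F)} := by
  unfold rkS
  refine CRank_lsc_sum _ (fun x (g : GL κ F) => _) (fun x _ => ?_) r
  refine CRank_lsc_sum _ (fun a (g : GL κ F) => _) (fun a _ => ?_)
  refine CRank_lsc_sum _ (fun b (g : GL κ F) => _) (fun b _ => ?_)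
  exact fun r => rkc_open cb o o' x a b r

end

end Pool.Agent.Lib.MP_ca1492_al.P
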