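import Mathlib
import Pool.Agent.Lib.MP_ca1492_al.P.Bruhat
import Pool.Agent.Lib.MP_ca1492_al.P.CRank
import Pool.Agent.Lib.MP_ca1492_al.P.Loc

/-!
# MP_ca1492_al, p-adic side, module COrd: ordering of the cells by ranks

`U_k = ⋃_{i < k} P w_i P'` (in `lev F cb`), `P = upp cb o`, `P' = upp cb o'`.

Proof. Let `W` be the finite set of permutations with `cb ∘ w = cb`; `g ∈ lev cb` lies in
`P permG w P'` for some `w ∈ W` (`bruhat`). The function `rkS` is constant on cells (`rkc_mul`).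
Choose representatives `w_0, ..., w_{r-1} ∈ W` of the distinct cells, in an order with `rkS`
nonincreasing (sort). `U_k` is open: let `m = rkS (w_{k-1})` (k ≥ 1). The set
`{rkS ≥ m + 1}` is open (`rkS_open`) and contained in `U_k` (its cells come before). On
`L = {rkS ≥ m}` minus `{rkS ≥ m+1}` = `{rkS = m}` each `rkc` is lower semicontinuous and their sum is
constant, so each `rkc` is locally constant on `{rkS = m}`; precisely: for a point `g` of `{rkS = m}`
the set `V = {y | rkc y ≥ rkc g for all (x, a, b) in the images}` is an open neighbourhood of `g`, and a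
point `y ∈ V` has `rkS y ≥ m`, and if `rkS y = m` then all its ranks are equal to those of `g`, so `y`
is in the same cell (`bruhat`, `rkc_eq_of_image`, `dc_of_rk`). So `V ⊆ {rkS ≥ m + 1} ∪ cell of g`.
Hence `U_k` (which contains `{rkS ≥ m+1}` and is otherwise a union of cells of level `m`) is open.
-/

set_option autoImplicit false

namespace Pool.Agent.Lib.MP_ca1492_al.P

open Topology Matrix ValuativeRel

noncomputable section

variable {F : Type} [Field F] [ValuativeRel F] [TopologicalSpace F]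
  [IsNonarchimedeanLocalField F] {κ : Type} [Fintype κ] [DecidableEq κ]

/-- the cell `P w P'` in `lev F cb` -/
def gcell {ι : Type} (cb : κ → ι) (o o' : κ → ℤ) (w : Equiv.Perm κ) : Set (lev F cb) :=
  {g | ∃ p ∈ upp F cb o, ∃ q ∈ upp F cb o', g.1 = p * permG F w * q}

theorem COrd_cell {ι : Type} (cb : κ → ι) (o o' : κ → ℤ) (g : lev F cb) :
    ∃ w : Equiv.Perm κ, (∀ i, cb (w i) = cb i) ∧ g ∈ gcell (F := F) cb o o' w := by
  obtain ⟨p, hp, w, hw, q, hq, h⟩ := bruhat cb o o' g.1 g.2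
  exact ⟨w, hw, p, hp, q, hq, h⟩

theorem COrd_rk {ι : Type} (cb : κ → ι) (o o' : κ → ℤ) (w : Equiv.Perm κ) (g : lev F cb)
    (hg : g ∈ gcell (F := F) cb o o' w) (x : ι) (a b : ℤ) :
    rkc cb o o' x a b (g.1 : Matrix κ κ F) = rkc cb o o' x a b (permG F w : Matrix κ κ F) := by
  obtain ⟨p, hp, q, hq, h⟩ := hg
  rw [h]
  exact rkc_mul cb o o' x a b p (permG F w) q hp hq

theorem COrd_rkS {ι : Type} (cb : κ → ι) (o o' : κ → ℤ) (w : Equiv.Perm κ) (g : lev F cb)
    (hg : g ∈ gcell (F := F) cb o o' w) :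
    rkS cb o o' (g.1 : Matrix κ κ F) = rkS cb o o' (permG F w : Matrix κ κ F) := by
  unfold rkS
  refine Finset.sum_congr rfl fun x _ => Finset.sum_congr rfl fun a _ =>
    Finset.sum_congr rfl fun b _ => ?_
  exact COrd_rk cb o o' w g hg x a b

theorem COrd_sub {ι : Type} (cb : κ → ι) (o o' : κ → ℤ) (w w' : Equiv.Perm κ)
    (h : ∃ p ∈ upp F cb o, ∃ q ∈ upp F cb o', permG F w' = p * permG F w * q) :
    gcell (F := F) cb o o' w' ⊆ gcell (F := F) cb o o' w := by
  obtain ⟨p, hp, q, hq, h⟩ := h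
  rintro g ⟨p', hp', q', hq', hg⟩
  refine ⟨p' * p, (upp F cb o).mul_mem hp' hp, q * q', (upp F cb o').mul_mem hq hq', ?_⟩
  rw [hg, h]
  simp only [mul_assoc]

theorem COrd_same {ι : Type} (cb : κ → ι) (o o' : κ → ℤ) (w w' : Equiv.Perm κ)
    (hw : ∀ i, cb (w i) = cb i) (hw' : ∀ i, cb (w' i) = cb i)
    (h : ∀ x ∈ Set.range cb, ∀ a ∈ Set.range o, ∀ b ∈ Set.range o',
      rkc cb o o' x a b (permG F w : Matrix κ κ F) =
        rkc cb o o' x a b (permG F w' : Matrix κ κ F)) :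
    gcell (F := F) cb o o' w = gcell (F := F) cb o o' w' := by
  have h1 := rkc_eq_of_image (F := F) cb o o' w w' hw hw' h
  refine Set.Subset.antisymm ?_ ?_
  · exact COrd_sub cb o o' w' w
      (dc_of_rk cb o o' w' w hw' hw (fun x a b => (h1 x a b).symm))
  · exact COrd_sub cb o o' w w' (dc_of_rk cb o o' w w' hw hw' h1)

/-- the neighbourhood of `g` where the ranks do not drop -/
def COrd_V {ι : Type} (cb : κ → ι) (o o' : κ → ℤ) (g : lev F cb) : Set (lev F cb) :=
  {y | ∀ i j k : κ, rkc cb o o' (cb i) (o j) (o' k) (g.1 : Matrix κ κ F) ≤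
    rkc cb o o' (cb i) (o j) (o' k) (y.1 : Matrix κ κ F)}

theorem COrd_V_open {ι : Type} (cb : κ → ι) (o o' : κ → ℤ) (g : lev F cb) :
    IsOpen (COrd_V cb o o' g) := by
  haveI : T2Space F := locF_t2
  have h : COrd_V cb o o' g = ⋂ i : κ, ⋂ j : κ, ⋂ k : κ, Subtype.val ⁻¹'
      {y : GL κ F | rkc cb o o' (cb i) (o j) (o' k) (g.1 : Matrix κ κ F) ≤
        rkc cb o o' (cb i) (o j) (o' k) (y : Matrix κ κ F)} := by
    ext y
    simp only [COrd_V, Set.mem_ofPred_eq, Set.mem_iInter, Set.mem_preimage]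
  rw [h]
  refine isOpen_iInter_of_finite fun i => isOpen_iInter_of_finite fun j =>
    isOpen_iInter_of_finite fun k => ?_
  exact (rkc_open cb o o' (cb i) (o j) (o' k) _).preimage continuous_subtype_val

theorem COrd_V_mem {ι : Type} (cb : κ → ι) (o o' : κ → ℤ) (g : lev F cb) :
    g ∈ COrd_V cb o o' g := fun _ _ _ => le_rfl

theorem COrd_V_cell {ι : Type} (cb : κ → ι) (o o' : κ → ℤ) (g y : lev F cb)
    (hy : y ∈ COrd_V cb o o' g) :
    rkS cb o o' (g.1 : Matrix κ κ F) < rkS cb o o' (y.1 : Matrix κ κ F) ∨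
      ∀ w : Equiv.Perm κ, (∀ i, cb (w i) = cb i) → g ∈ gcell (F := F) cb o o' w →
        y ∈ gcell (F := F) cb o o' w := by
  classical
  by_cases hlt : rkS cb o o' (g.1 : Matrix κ κ F) < rkS cb o o' (y.1 : Matrix κ κ F)
  · exact Or.inl hlt
  right
  intro w hw hg
  obtain ⟨w', hw', hy'⟩ := COrd_cell cb o o' y
  have hle : ∀ x ∈ Finset.univ.image cb, ∀ a ∈ Finset.univ.image o, ∀ b ∈ Finset.univ.image o',
      rkc cb o o' x a b (g.1 : Matrix κ κ F) ≤ rkc cb o o' x a b (y.1 : Matrix κ κ F) := by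
    intro x hx a ha b hb
    obtain ⟨i, _, rfl⟩ := Finset.mem_image.1 hx
    obtain ⟨j, _, rfl⟩ := Finset.mem_image.1 ha
    obtain ⟨k, _, rfl⟩ := Finset.mem_image.1 hb
    exact hy i j k
  have heq : ∀ x ∈ Finset.univ.image cb, ∀ a ∈ Finset.univ.image o, ∀ b ∈ Finset.univ.image o',
      rkc cb o o' x a b (g.1 : Matrix κ κ F) = rkc cb o o' x a b (y.1 : Matrix κ κ F) := by
    by_contra hcon
    push Not at hcon
    obtain ⟨x, hx, a, ha, b, hb, hne⟩ := hcon
    apply hlt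
    unfold rkS
    refine Finset.sum_lt_sum (fun x hx => Finset.sum_le_sum fun a ha =>
      Finset.sum_le_sum fun b hb => hle x hx a ha b hb) ⟨x, hx, ?_⟩
    refine Finset.sum_lt_sum (fun a ha => Finset.sum_le_sum fun b hb => hle x hx a ha b hb)
      ⟨a, ha, ?_⟩
    exact Finset.sum_lt_sum (fun b hb => hle x hx a ha b hb)
      ⟨b, hb, lt_of_le_of_ne (hle x hx a ha b hb) hne⟩
  have hcell : gcell (F := F) cb o o' w = gcell (F := F) cb o o' w' := by
    refine COrd_same cb o o' w w' hw hw' ?_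
    rintro x ⟨i, rfl⟩ a ⟨j, rfl⟩ b ⟨k, rfl⟩
    rw [← COrd_rk cb o o' w g hg, ← COrd_rk cb o o' w' y hy']
    exact heq _ (Finset.mem_image_of_mem cb (Finset.mem_univ i)) _
      (Finset.mem_image_of_mem o (Finset.mem_univ j)) _
      (Finset.mem_image_of_mem o' (Finset.mem_univ k))
  rw [hcell]
  exact hy'

theorem COrd_disj {ι : Type} (cb : κ → ι) (o o' : κ → ℤ) (w w' : Equiv.Perm κ)
    (hw : ∀ i, cb (w i) = cb i) (hw' : ∀ i, cb (w' i) = cb i) (g : lev F cb)
    (hg : g ∈ gcell (F := F) cb o o' w) (hg' : g ∈ gcell (F := F) cb o o' w') :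
    gcell (F := F) cb o o' w = gcell (F := F) cb o o' w' := by
  refine COrd_same cb o o' w w' hw hw' fun x _ a _ b _ => ?_
  rw [← COrd_rk cb o o' w g hg, ← COrd_rk cb o o' w' g hg']

/-- enumeration of the cells in an order with nonincreasing ranks -/
theorem COrd_enum {ι : Type} (cb : κ → ι) (o o' : κ → ℤ) :
    ∃ (r : ℕ) (w : Fin r → Equiv.Perm κ), (∀ k i, cb (w k i) = cb i) ∧
      (∀ k l, gcell (F := F) cb o o' (w k) = gcell (F := F) cb o o' (w l) → k = l) ∧
      (∀ v : Equiv.Perm κ, (∀ i, cb (v i) = cb i) →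
        ∃ k, gcell (F := F) cb o o' (w k) = gcell (F := F) cb o o' v) ∧
      (∀ k l : Fin r, k ≤ l → rkS cb o o' (permG F (w l) : Matrix κ κ F) ≤
        rkS cb o o' (permG F (w k) : Matrix κ κ F)) := by
  classical
  set C : Finset (Set (lev F cb)) :=
    (Finset.univ.filter fun w : Equiv.Perm κ => ∀ i, cb (w i) = cb i).image
      (gcell (F := F) cb o o') with hC
  have hrep : ∀ c : C, ∃ w : Equiv.Perm κ, (∀ i, cb (w i) = cb i) ∧
      gcell (F := F) cb o o' w = c.1 := by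
    rintro ⟨c, hc⟩
    rw [hC, Finset.mem_image] at hc
    obtain ⟨w, hw, h⟩ := hc
    exact ⟨w, (Finset.mem_filter.1 hw).2, h⟩
  choose rep hrep1 hrep2 using hrep
  let e : Fin C.card ≃ C := C.equivFin.symm
  let f : Fin C.card → ℤ := fun i => -(rkS cb o o' (permG F (rep (e i)) : Matrix κ κ F) : ℤ)
  refine ⟨C.card, fun k => rep (e (Tuple.sort f k)), fun k i => hrep1 _ i, ?_, ?_, ?_⟩
  · intro k l h
    rw [hrep2, hrep2] at h
    exact (Tuple.sort f).injective (e.injective (Subtype.ext h))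
  · intro v hv
    have hmem : gcell (F := F) cb o o' v ∈ C := by
      rw [hC, Finset.mem_image]
      exact ⟨v, Finset.mem_filter.2 ⟨Finset.mem_univ _, hv⟩, rfl⟩
    refine ⟨(Tuple.sort f).symm (e.symm ⟨_, hmem⟩), ?_⟩
    rw [hrep2, Equiv.apply_symm_apply, Equiv.apply_symm_apply]
  · intro k l hkl
    have h := Tuple.monotone_sort f hkl
    change -(rkS cb o o' (permG F (rep (e (Tuple.sort f k))) : Matrix κ κ F) : ℤ) ≤
      -(rkS cb o o' (permG F (rep (e (Tuple.sort f l))) : Matrix κ κ F) : ℤ) at h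
    exact Int.ofNat_le.1 (neg_le_neg_iff.1 h)

theorem cell_order {ι : Type} (cb : κ → ι) (o o' : κ → ℤ) :
    ∃ (r : ℕ) (w : Fin r → Equiv.Perm κ), (∀ k i, cb (w k i) = cb i) ∧
      (∀ g : lev F cb, ∃! k, g ∈ gcell (F := F) cb o o' (w k)) ∧
      (∀ k l : Fin r, k ≤ l → rkS cb o o' (permG F (w l) : Matrix κ κ F) ≤
        rkS cb o o' (permG F (w k) : Matrix κ κ F)) ∧
      ∀ k : ℕ, IsOpen {g : lev F cb | ∃ i : Fin r, i.1 < k ∧ g ∈ gcell (F := F) cb o o' (w i)} := by
  obtain ⟨r, w, hw, hinj, hsurj, hord⟩ := COrd_enum (F := F) cb o o'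
  have hex : ∀ g : lev F cb, ∃ k, g ∈ gcell (F := F) cb o o' (w k) := by
    intro g
    obtain ⟨v, hv, hg⟩ := COrd_cell cb o o' g
    obtain ⟨k, hk⟩ := hsurj v hv
    exact ⟨k, by rw [hk]; exact hg⟩
  refine ⟨r, w, hw, fun g => ?_, hord, fun k => ?_⟩
  · obtain ⟨k, hk⟩ := hex g
    refine ⟨k, hk, fun l hl => ?_⟩
    exact hinj l k (COrd_disj cb o o' (w l) (w k) (hw l) (hw k) g hl hk)
  · rw [isOpen_iff_forall_mem_open]
    rintro g ⟨i, hi, hg⟩
    refine ⟨COrd_V cb o o' g, ?_, COrd_V_open cb o o' g, COrd_V_mem cb o o' g⟩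
    intro y hy
    rcases COrd_V_cell cb o o' g y hy with h | h
    · obtain ⟨j, hj⟩ := hex y
      refine ⟨j, ?_, hj⟩
      rw [COrd_rkS cb o o' (w i) g hg, COrd_rkS cb o o' (w j) y hj] at h
      by_contra hcon
      have hij : i ≤ j := by
        rw [Fin.le_def]
        omega
      exact absurd h (not_lt.2 (hord i j hij))
    · exact ⟨i, hi, h (w i) (hw i) hg⟩

/-- any union of cells of level `m` together with all the cells of higher rank is open -/
theorem level_open {ι : Type} (cb : κ → ι) (o o' : κ → ℤ) (m : ℕ)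
    (W : Set (Equiv.Perm κ)) (hW : ∀ w ∈ W, (∀ i, cb (w i) = cb i) ∧
      rkS cb o o' (permG F w : Matrix κ κ F) = m) :
    IsOpen {g : lev F cb | m < rkS cb o o' (g.1 : Matrix κ κ F) ∨
      ∃ w ∈ W, g ∈ gcell (F := F) cb o o' w} := by
  haveI : T2Space F := locF_t2
  rw [isOpen_iff_forall_mem_open]
  rintro g (hg | ⟨w, hw, hg⟩)
  · refine ⟨Subtype.val ⁻¹' {y : GL κ F | m + 1 ≤ rkS cb o o' (y : Matrix κ κ F)}, ?_,
      (rkS_open cb o o' (m + 1)).preimage continuous_subtype_val, hg⟩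
    intro y hy
    exact Or.inl hy
  · refine ⟨COrd_V cb o o' g, ?_, COrd_V_open cb o o' g, COrd_V_mem cb o o' g⟩
    intro y hy
    rcases COrd_V_cell cb o o' g y hy with h | h
    · left
      rw [COrd_rkS cb o o' w g hg, (hW w hw).2] at h
      exact h
    · exact Or.inr ⟨w, hw, h w (hW w hw).1 hg⟩

end

end Pool.Agent.Lib.MP_ca1492_al.P
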