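import Mathlib
import Pool.Agent.Lib.MP_ca1492_al.P.CDef

/-!
# MP_ca1492_al, p-adic side, module COrbB: compact sets in double cosets

* `orbit_compact`. `O = dc P Q w` is open in the closed set `A \ U'`, so it is locally closed in
  `A`, hence a locally compact Hausdorff space with a continuous transitive action of the sigma
  compact group `P × Q`; by `isOpenMap_smul_of_sigmaCompact` the orbit map `P × Q → O` is open. Cover
  `C` by the images of sets `V₁ × V₂` with `V₁`, `V₂` open with compact closure in `P`, `Q`; finitely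
  many suffice; `D` = union of the closures of the (inverses of the) `V₂`'s.
* `prod_compact`: same with `M × N` acting on the locally compact space `Q = M N` by
  `(m, n) q = m q n⁻¹`.
* `mul_isOpen`: `P' N'` open in `A` with `P'`, `N'` closed subgroups: `P' × N'` acts transitively on
  the open (so locally compact) set `P' N'` by `(p, n) g = p g n⁻¹`, the orbit map is open.
-/

set_option autoImplicit false

namespace Pool.Agent.Lib.MP_ca1492_al.P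

open Topology

variable {A : Type} [Group A] [TopologicalSpace A] [IsTopologicalGroup A] [T2Space A]
  [LocallyCompactSpace A] [SigmaCompactSpace A]

namespace COrbBAux

/-- the action of `P × Q` on the double coset -/
@[reducible] def act (P Q : Subgroup A) (w : A) : MulAction (P × Q) (dc P Q w) where
  smul x y := ⟨x.1 * y.1 * (x.2 : A)⁻¹, by
    obtain ⟨p, hp, q, hq, h⟩ := y.2
    refine ⟨x.1 * p, P.mul_mem x.1.2 hp, q * (x.2 : A)⁻¹, Q.mul_mem hq (Q.inv_mem x.2.2), ?_⟩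
    rw [h]
    simp only [mul_assoc]⟩
  one_smul y := by
    apply Subtype.ext
    show ((1 : P × Q).1 : A) * y.1 * (((1 : P × Q).2 : Q) : A)⁻¹ = y.1
    simp
  mul_smul a b y := by
    apply Subtype.ext
    show (((a * b).1 : P) : A) * y.1 * (((a * b).2 : Q) : A)⁻¹ =
      (a.1 : A) * ((b.1 : A) * y.1 * (b.2 : A)⁻¹) * (a.2 : A)⁻¹
    simp [mul_assoc]

/-- the orbit map of a locally closed double coset is open -/
theorem openMap (P Q : Subgroup A) (hP : IsClosed (P : Set A)) (hQ : IsClosed (Q : Set A))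
    (w : A) (hX : IsLocallyClosed (dc P Q w)) (hw : w ∈ dc P Q w) (V : Set (P × Q))
    (hV : IsOpen V) :
    ∃ O : Set A, IsOpen O ∧ ∀ g ∈ dc P Q w, (g ∈ O ↔ ∃ x ∈ V, g = x.1 * w * (x.2 : A)⁻¹) := by
  let _ := act P Q w
  have : ContinuousSMul (P × Q) (dc P Q w) := by
    refine ⟨?_⟩
    refine Continuous.subtype_mk ?_ _
    exact ((continuous_subtype_val.comp (continuous_fst.comp continuous_fst)).mul
      (continuous_subtype_val.comp continuous_snd)).mul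
      (continuous_subtype_val.comp (continuous_snd.comp continuous_fst)).inv
  have : MulAction.IsPretransitive (P × Q) (dc P Q w) := by
    refine ⟨fun y z => ?_⟩
    obtain ⟨p, hp, q, hq, h⟩ := y.2
    obtain ⟨p', hp', q', hq', h'⟩ := z.2
    refine ⟨(⟨p' * p⁻¹, P.mul_mem hp' (P.inv_mem hp)⟩,
      ⟨q'⁻¹ * q, Q.mul_mem (Q.inv_mem hq') hq⟩), ?_⟩
    apply Subtype.ext
    show (p' * p⁻¹) * y.1 * (q'⁻¹ * q)⁻¹ = z.1
    rw [h, h']
    group
  have : SigmaCompactSpace P := hP.sigmaCompactSpace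
  have : SigmaCompactSpace Q := hQ.sigmaCompactSpace
  have : LocallyCompactSpace (dc P Q w) :=
    IsInducing.subtypeVal.locallyCompactSpace (by rwa [Subtype.range_coe])
  have h1 := isOpenMap_smul_of_sigmaCompact (G := P × Q) (X := dc P Q w) ⟨w, hw⟩ V hV
  obtain ⟨O, hO, hO'⟩ := isOpen_induced_iff.1 h1
  refine ⟨O, hO, fun g hg => ?_⟩
  have h2 : g ∈ O ↔ (⟨g, hg⟩ : dc P Q w) ∈ Subtype.val ⁻¹' O := Iff.rfl
  rw [h2, hO']
  constructor
  · rintro ⟨x, hx, hx'⟩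
    exact ⟨x, hx, (congrArg Subtype.val hx').symm⟩
  · rintro ⟨x, hx, hx'⟩
    exact ⟨x, hx, Subtype.ext hx'.symm⟩

theorem self_mem (P Q : Subgroup A) (w : A) : w ∈ dc P Q w :=
  ⟨1, P.one_mem, 1, Q.one_mem, by simp⟩

/-- compact subsets of a locally closed double coset -/
theorem lift (P Q : Subgroup A) (hP : IsClosed (P : Set A)) (hQ : IsClosed (Q : Set A))
    (w : A) (hX : IsLocallyClosed (dc P Q w)) (C : Set A) (hC : IsCompact C)
    (hCw : C ⊆ dc P Q w) :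
    ∃ D₁ D₂ : Set A, IsCompact D₁ ∧ D₁ ⊆ (P : Set A) ∧ IsCompact D₂ ∧ D₂ ⊆ (Q : Set A) ∧
      ∀ g ∈ C, ∃ p ∈ D₁, ∃ q ∈ D₂, g = p * w * q := by
  have : SigmaCompactSpace P := hP.sigmaCompactSpace
  have : SigmaCompactSpace Q := hQ.sigmaCompactSpace
  have : LocallyCompactSpace P := hP.isClosedEmbedding_subtypeVal.locallyCompactSpace
  have : LocallyCompactSpace Q := hQ.isClosedEmbedding_subtypeVal.locallyCompactSpace
  let K : CompactExhaustion (P × Q) := CompactExhaustion.choice (P × Q)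
  choose O hO hO' using fun n : ℕ =>
    openMap P Q hP hQ w hX (self_mem P Q w) (interior (K n)) isOpen_interior
  have hcov : C ⊆ ⋃ n, O n := by
    intro g hg
    obtain ⟨p, hp, q, hq, h⟩ := hCw hg
    obtain ⟨n, hn⟩ := K.exists_mem (⟨p, hp⟩, ⟨q⁻¹, Q.inv_mem hq⟩)
    refine Set.mem_iUnion.2 ⟨n + 1, ?_⟩
    rw [hO' (n + 1) g (hCw hg)]
    refine ⟨_, K.subset_interior_succ n hn, ?_⟩
    show g = p * w * (q⁻¹)⁻¹
    rw [inv_inv, h]
  obtain ⟨t, ht⟩ := hC.elim_finite_subcover O hO hcov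
  obtain ⟨N, hN⟩ : ∃ N, ∀ n ∈ t, n ≤ N := ⟨t.sup id, fun n hn => Finset.le_sup (f := id) hn⟩
  refine ⟨(fun x : P × Q => (x.1 : A)) '' K N, (fun x : P × Q => (x.2 : A)⁻¹) '' K N,
    (K.isCompact N).image (continuous_subtype_val.comp continuous_fst), ?_,
    (K.isCompact N).image (continuous_subtype_val.comp continuous_snd).inv, ?_, ?_⟩
  · rintro _ ⟨x, -, rfl⟩
    exact x.1.2
  · rintro _ ⟨x, -, rfl⟩
    exact Q.inv_mem x.2.2
  · intro g hg
    obtain ⟨n, hn, hgn⟩ := Set.mem_iUnion₂.1 (ht hg)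
    obtain ⟨x, hx, hx'⟩ := (hO' n g (hCw hg)).1 hgn
    have hxN : x ∈ K N := K.subset (hN n hn) (interior_subset hx)
    exact ⟨_, ⟨x, hxN, rfl⟩, _, ⟨x, hxN, rfl⟩, hx'⟩

theorem lc_of (P Q : Subgroup A) (w : A) (U' : Set A) (hU' : IsOpen U')
    (hU : IsOpen (U' ∪ dc P Q w)) (hd : ∀ g ∈ dc P Q w, g ∉ U') :
    IsLocallyClosed (dc P Q w) := by
  refine ⟨U' ∪ dc P Q w, U'ᶜ, hU, hU'.isClosed_compl, ?_⟩
  ext g
  constructor
  · intro hg
    exact ⟨Or.inr hg, hd g hg⟩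
  · rintro ⟨h1 | h1, h2⟩
    · exact absurd h1 h2
    · exact h1

end COrbBAux

open COrbBAux

theorem orbit_compact (P Q : Subgroup A) (hP : IsClosed (P : Set A)) (hQ : IsClosed (Q : Set A))
    (w : A) (U' : Set A) (hU' : IsOpen U') (hU : IsOpen (U' ∪ dc P Q w))
    (hd : ∀ g ∈ dc P Q w, g ∉ U') (C : Set A) (hC : IsCompact C) (hCw : C ⊆ dc P Q w) :
    ∃ D : Set A, IsCompact D ∧ D ⊆ (Q : Set A) ∧ ∀ g ∈ C, ∃ p ∈ P, ∃ q ∈ D, g = p * w * q := by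
  obtain ⟨D₁, D₂, -, h2, h3, h4, h5⟩ :=
    lift P Q hP hQ w (lc_of P Q w U' hU' hU hd) C hC hCw
  refine ⟨D₂, h3, h4, fun g hg => ?_⟩
  obtain ⟨p, hp, q, hq, h⟩ := h5 g hg
  exact ⟨p, h2 hp, q, hq, h⟩

theorem prod_compact (M N Q : Subgroup A) (hM : IsClosed (M : Set A)) (hN : IsClosed (N : Set A))
    (hQ : IsClosed (Q : Set A)) (hQ' : ∀ g, g ∈ Q ↔ ∃ m ∈ M, ∃ n ∈ N, g = m * n) (C : Set A)
    (hC : IsCompact C) (hCQ : C ⊆ (Q : Set A)) :
    ∃ CM CN : Set A, IsCompact CM ∧ CM ⊆ (M : Set A) ∧ IsCompact CN ∧ CN ⊆ (N : Set A) ∧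
      ∀ g ∈ C, ∃ m ∈ CM, ∃ n ∈ CN, g = m * n := by
  have hX : dc M N (1 : A) = (Q : Set A) := by
    ext g
    constructor
    · rintro ⟨m, hm, n, hn, rfl⟩
      exact (hQ' _).2 ⟨m, hm, n, hn, by rw [mul_one]⟩
    · intro hg
      obtain ⟨m, hm, n, hn, rfl⟩ := (hQ' _).1 hg
      exact ⟨m, hm, n, hn, by rw [mul_one]⟩
  obtain ⟨D₁, D₂, h1, h2, h3, h4, h5⟩ :=
    lift M N hM hN 1 (by rw [hX]; exact hQ.isLocallyClosed) C hC (by rw [hX]; exact hCQ)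
  refine ⟨D₁, D₂, h1, h2, h3, h4, fun g hg => ?_⟩
  obtain ⟨p, hp, q, hq, h⟩ := h5 g hg
  exact ⟨p, hp, q, hq, by rw [h, mul_one]⟩

theorem mul_isOpen (P' N' : Subgroup A) (hP : IsClosed (P' : Set A)) (hN : IsClosed (N' : Set A))
    (ho : IsOpen {g | ∃ p ∈ P', ∃ n ∈ N', g = p * n})
    (V₁ V₂ : Set A) (h1 : IsOpen V₁) (h2 : IsOpen V₂) :
    IsOpen {g | ∃ p ∈ P', p ∈ V₁ ∧ ∃ n ∈ N', n ∈ V₂ ∧ g = p * n} := by
  have hX : dc P' N' (1 : A) = {g | ∃ p ∈ P', ∃ n ∈ N', g = p * n} := by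
    ext g
    constructor
    · rintro ⟨p, hp, n, hn, rfl⟩
      exact ⟨p, hp, n, hn, by rw [mul_one]⟩
    · rintro ⟨p, hp, n, hn, rfl⟩
      exact ⟨p, hp, n, hn, by rw [mul_one]⟩
  have hVo : IsOpen {x : P' × N' | (x.1 : A) ∈ V₁ ∧ (x.2 : A)⁻¹ ∈ V₂} :=
    (h1.preimage (continuous_subtype_val.comp continuous_fst)).inter
      (h2.preimage (continuous_subtype_val.comp continuous_snd).inv)
  obtain ⟨O, hO, hO'⟩ := openMap P' N' hP hN 1 (by rw [hX]; exact ho.isLocallyClosed)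
    (self_mem P' N' 1) _ hVo
  have h3 : {g | ∃ p ∈ P', p ∈ V₁ ∧ ∃ n ∈ N', n ∈ V₂ ∧ g = p * n} =
      O ∩ {g | ∃ p ∈ P', ∃ n ∈ N', g = p * n} := by
    ext g
    constructor
    · rintro ⟨p, hp, hp', n, hn, hn', rfl⟩
      have h4 : p * n ∈ dc P' N' (1 : A) := ⟨p, hp, n, hn, by rw [mul_one]⟩
      refine ⟨(hO' _ h4).2 ⟨(⟨p, hp⟩, ⟨n⁻¹, N'.inv_mem hn⟩), ⟨hp', ?_⟩, ?_⟩, ⟨p, hp, n, hn, rfl⟩⟩
      · show (n⁻¹)⁻¹ ∈ V₂
        rwa [inv_inv]
      · show p * n = p * 1 * (n⁻¹)⁻¹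
        rw [inv_inv, mul_one]
    · rintro ⟨hgO, hg⟩
      have h4 : g ∈ dc P' N' (1 : A) := by rw [hX]; exact hg
      obtain ⟨x, ⟨hx1, hx2⟩, hx⟩ := (hO' g h4).1 hgO
      exact ⟨x.1, x.1.2, hx1, (x.2 : A)⁻¹, N'.inv_mem x.2.2, hx2, by rw [hx, mul_one]⟩
  rw [h3]
  exact hO.inter ho

/-- the support of a function vanishing off `U' ∪ P w M N` is compact modulo `P` in the cell
(`A = P K`, `K` compact): `C = {k ∈ K | f k ≠ 0, k ∉ U'}` is compact (`{f ≠ 0}` is clopen), and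
`supp f ∩ P w M N = P C`; use `orbit_compact` and `prod_compact`. -/
theorem csupp_of (D : CD A) (Q : Subgroup A) (hQ : IsClosed (Q : Set A))
    (hQ' : ∀ g, g ∈ Q ↔ ∃ m ∈ D.M, ∃ n ∈ D.N, g = m * n) (K : Set A) (hK : IsCompact K)
    (hPK : ∀ g : A, ∃ p ∈ D.P, ∃ k ∈ K, g = p * k) (U' : Set A) (hU' : IsOpen U')
    (hU : IsOpen (U' ∪ dc D.P Q D.w)) (hd : ∀ g ∈ dc D.P Q D.w, g ∉ U') {E : Type}
    [AddCommGroup E] [Module ℂ E] (a : Representation ℂ D.P E) (f : A → E) (hf : f ∈ IS D.P a)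
    (h0 : ∀ g, g ∉ U' → g ∉ dc D.P Q D.w → f g = 0) : D.Csupp f := by
  obtain ⟨hf1, U, hUo, hf2⟩ := hf
  have hzero : IsOpen {g : A | f g = 0} := by
    rw [isOpen_iff_mem_nhds]
    intro g hg
    have h1 : (fun x => g⁻¹ * x) ⁻¹' (U : Set A) ∈ 𝓝 g := by
      apply (hUo.preimage (continuous_const.mul continuous_id)).mem_nhds
      show g⁻¹ * g ∈ U
      rw [inv_mul_cancel]
      exact U.one_mem
    refine Filter.mem_of_superset h1 ?_
    intro x hx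
    have h2 := hf2 g (g⁻¹ * x) hx
    rw [mul_inv_cancel_left] at h2
    show f x = 0
    rw [h2]
    exact hg
  have hCc : IsCompact (K ∩ ({g : A | f g = 0}ᶜ ∩ U'ᶜ)) :=
    hK.inter_right (hzero.isClosed_compl.inter hU'.isClosed_compl)
  have hCw : K ∩ ({g : A | f g = 0}ᶜ ∩ U'ᶜ) ⊆ dc D.P Q D.w := by
    rintro g ⟨-, hg1, hg2⟩
    by_contra hg3
    exact hg1 (h0 g hg2 hg3)
  obtain ⟨D₁, D₂, -, h2, h3, h4, h5⟩ :=
    lift D.P Q D.P_cl hQ D.w (lc_of D.P Q D.w U' hU' hU hd) _ hCc hCw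
  obtain ⟨CM, CN, c1, c2, c3, c4, c5⟩ :=
    prod_compact D.M D.N Q D.M_cl D.N_cl hQ hQ' D₂ h3 h4
  refine ⟨CM, CN, c1, c2, c3, c4, ?_⟩
  rintro g ⟨p, hp, m, hm, n, hn, rfl⟩ hne
  obtain ⟨p', hp', k, hk, hgk⟩ := hPK (p * D.w * m * n)
  have hkf : f k ≠ 0 := by
    intro h
    apply hne
    have h6 := hf1 ⟨p', hp'⟩ k
    rw [h, map_zero] at h6
    rw [hgk]
    exact h6
  have hkd : k ∈ dc D.P Q D.w := by
    refine ⟨p'⁻¹ * p, D.P.mul_mem (D.P.inv_mem hp') hp, m * n, (hQ' _).2 ⟨m, hm, n, hn, rfl⟩, ?_⟩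
    have h6 : k = p'⁻¹ * (p * D.w * m * n) := by rw [hgk, inv_mul_cancel_left]
    rw [h6]
    simp only [mul_assoc]
  obtain ⟨p1, hp1, q, hq, hk'⟩ := h5 k ⟨hk, hkf, hd k hkd⟩
  obtain ⟨c, hc, d, hd', hq'⟩ := c5 q hq
  refine ⟨p' * p1, D.P.mul_mem hp' (h2 hp1), c, hc, d, hd', ?_⟩
  rw [hgk, hk', hq']
  simp only [mul_assoc]

end Pool.Agent.Lib.MP_ca1492_al.P
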