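import Mathlib
import Pool.Agent.Lib.MP_ca1492_al.P.CIntB
import Pool.Agent.Lib.MP_ca1492_al.P.COrbB

/-!
# MP_ca1492_al, p-adic side, module CSurj: surjectivity of the cell functional

`D : CD A`, `a` smooth and live. `N'` a closed subgroup (opposite to `P' = w⁻¹ P w`) with
`P' ∩ N' = 1`, `P' N'` open in `A`, `N = B (N ∩ N')`. `U ∋ w` open, left `P`-invariant.

Let `e ∈ E`, `V = {x ∈ P' | a(w x w⁻¹) e = e}` (an open subgroup of `P'`, say `V = P' ∩ V₁`, `V₁` open).
Choose a compact open subgroup `T` of `N'` with `w T ⊆ U` (`hCO'`). Define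
`f g = a(p) e` if `g = p w t` with `p ∈ P`, `t ∈ T` (then `p`, `t` are unique), and `f g = 0` otherwise.
* `f (p g) = a(p) f g`: clear.
* right invariance under an open subgroup: `V T` is open in `A` (`mul_isOpen`) and contains the compact
  set `T`, so there is a neighbourhood `W` of `1` with `T W ⊆ V T` (tube lemma: for each `t` an open
  neighbourhood; `{(t,u) | t u ∈ V T}` open); the set of all `u` with `f (g u) = f g` for all `g` is a
  subgroup, and contains `W ∩ W⁻¹`: for `g = p w t`, `u ∈ W`: `t u = v t'`,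
  `f (g u) = a(p) a(w v w⁻¹) e = a(p) e = f g`; if `f`'s support `P w T` contains `g u` with
  `u ∈ W⁻¹` then it contains `g = (g u) u⁻¹`; so off the support both sides vanish.
* vanishing off `U`: `P w T ⊆ U`.
* for `n = b n' ∈ N` (`b ∈ B`, `n' ∈ N ∩ N'`): `f (w n) = a(w b w⁻¹) f (w n') = f (w n')`, which is `e` if
  `n' ∈ T` and `0` otherwise (if `w n' = p w t` then `w⁻¹ p w = n' t⁻¹ ∈ P' ∩ N' = 1`). So
  `n ↦ f (w n)` is in `LI N B` (support `B (N ∩ T)`, `N ∩ T` compact), has values in `{0, e}` and the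
  value `e` at `1`; `iq_two`: `Lam f 1 = c • e`, `c ≠ 0`. Replace `f` by `c⁻¹ • f`.
-/

set_option autoImplicit false

namespace Pool.Agent.Lib.MP_ca1492_al.P

open Topology

noncomputable section

variable {A : Type} [Group A] [TopologicalSpace A] [IsTopologicalGroup A] [T2Space A]
  [LocallyCompactSpace A] [SigmaCompactSpace A]
variable {E : Type} [AddCommGroup E] [Module ℂ E]

theorem CSurj_cj_closed (w : A) (P : Subgroup A) (hP : IsClosed (P : Set A)) :
    IsClosed ((cjS w P : Subgroup A) : Set A) := by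
  have e : ((cjS w P : Subgroup A) : Set A) = (fun x => w * x * w⁻¹) ⁻¹' (P : Set A) := by
    ext x
    exact mem_cjS
  rw [e]
  exact hP.preimage (by fun_prop)

open Classical in
/-- the function supported on `P w T` -/
def CSurj_f (P : Subgroup A) (w : A) (T : Subgroup A) (a : Representation ℂ P E) (e : E)
    (g : A) : E :=
  if h : ∃ p : P, ∃ t ∈ T, g = p * w * t then a h.choose e else 0

theorem CSurj_f_mem (P : Subgroup A) (w : A) (T N' : Subgroup A) (hT : T ≤ N')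
    (h1 : ∀ x ∈ N', w * x * w⁻¹ ∈ P → x = 1) (a : Representation ℂ P E) (e : E)
    (p : P) (t : A) (ht : t ∈ T) : CSurj_f P w T a e (p * w * t) = a p e := by
  classical
  have hex : ∃ q : P, ∃ s ∈ T, (p : A) * w * t = q * w * s := ⟨p, t, ht, rfl⟩
  unfold CSurj_f
  rw [dif_pos hex]
  obtain ⟨s, hs, hs'⟩ := hex.choose_spec
  set q := hex.choose with hq
  have h2 : s * t⁻¹ = 1 := by
    refine h1 _ (N'.mul_mem (hT hs) (N'.inv_mem (hT ht))) ?_
    have h3 : w * (s * t⁻¹) * w⁻¹ = (q : A)⁻¹ * p := by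
      have h4 : w * s = (q : A)⁻¹ * (p * w * t) := by
        rw [hs']
        group
      calc w * (s * t⁻¹) * w⁻¹ = (w * s) * t⁻¹ * w⁻¹ := by group
        _ = (q : A)⁻¹ * p := by
          rw [h4]
          group
    rw [h3]
    exact P.mul_mem (P.inv_mem q.2) p.2
  have h3 : s = t := by
    rw [mul_inv_eq_one] at h2
    exact h2
  rw [h3] at hs'
  have h4 : (p : A) = q := mul_right_cancel (mul_right_cancel hs')
  have h5 : q = p := Subtype.ext h4.symm
  rw [h5]

theorem CSurj_f_not (P : Subgroup A) (w : A) (T : Subgroup A) (a : Representation ℂ P E) (e : E)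
    (g : A) (hg : ¬ ∃ p : P, ∃ t ∈ T, g = p * w * t) : CSurj_f P w T a e g = 0 := by
  classical
  unfold CSurj_f
  rw [dif_neg hg]

theorem CSurj_IS (P : Subgroup A) (hPc : IsClosed (P : Set A)) (w : A) (T N' : Subgroup A)
    (hN' : IsClosed (N' : Set A)) (hT : T ≤ N')
    (hTc : IsCompact (T : Set A)) (O' : Set A) (hO' : IsOpen O')
    (hTO : (T : Set A) = (N' : Set A) ∩ O')
    (h1 : ∀ x ∈ N', w * x * w⁻¹ ∈ P → x = 1)
    (ho : IsOpen {g | ∃ p ∈ cjS w P, ∃ n ∈ N', g = p * n})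
    (a : Representation ℂ P E) (ha : IsSm a) (e : E) : CSurj_f P w T a e ∈ IS P a := by
  classical
  have hmem := CSurj_f_mem P w T N' hT h1 a e
  have hnot := CSurj_f_not P w T a e
  obtain ⟨O, hO, hOe⟩ := isOpen_induced_iff.1 (ha e)
  have hQo := mul_isOpen (cjS w P) N' (CSurj_cj_closed w P hPc) hN' ho
    ((fun x => w * x * w⁻¹) ⁻¹' O) O' (hO.preimage (by fun_prop)) hO'
  set Q : Set A := {g | ∃ p ∈ cjS w P, p ∈ (fun x => w * x * w⁻¹) ⁻¹' O ∧
    ∃ n ∈ N', n ∈ O' ∧ g = p * n} with hQ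
  have hTQ : (T : Set A) ⊆ Q := by
    intro t ht
    have ht' : t ∈ (N' : Set A) ∩ O' := by
      rw [← hTO]
      exact ht
    refine ⟨1, (cjS w P).one_mem, ?_, t, ht'.1, ht'.2, by rw [one_mul]⟩
    have h2 : (1 : P) ∈ {g : P | a g e = e} := by simp
    rw [← hOe] at h2
    have h3 : ((1 : P) : A) ∈ O := h2
    show w * 1 * w⁻¹ ∈ O
    have h4 : w * 1 * w⁻¹ = ((1 : P) : A) := by
      rw [mul_one, mul_inv_cancel]
      rfl
    rw [h4]
    exact h3
  obtain ⟨W, hW, hTW⟩ := compact_open_separated_mul_right hTc hQo hTQ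
  -- invariance on the support
  have key : ∀ g u : A, (∃ p : P, ∃ t ∈ T, g = p * w * t) → u ∈ W →
      (∃ p : P, ∃ t ∈ T, g * u = p * w * t) ∧ CSurj_f P w T a e (g * u) = CSurj_f P w T a e g := by
    rintro g u ⟨p, t, ht, rfl⟩ hu
    obtain ⟨v, hv, hvO, n, hn, hnO, hvn⟩ := hTW (Set.mul_mem_mul ht hu)
    have hnT : n ∈ T := by
      have : n ∈ (T : Set A) := by
        rw [hTO]
        exact ⟨hn, hnO⟩
      exact this
    have hvP : w * v * w⁻¹ ∈ P := mem_cjS.1 hv
    have e1 : (p : A) * w * t * u = ((p * ⟨w * v * w⁻¹, hvP⟩ : P) : A) * w * n := by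
      have h5 : (p : A) * w * t * u = p * w * (t * u) := by group
      have h6 : t * u = v * n := hvn
      rw [h5, h6]
      show (p : A) * w * (v * n) = p * (w * v * w⁻¹) * w * n
      group
    have e2 : a ⟨w * v * w⁻¹, hvP⟩ e = e := by
      have h7 : (⟨w * v * w⁻¹, hvP⟩ : P) ∈ Subtype.val ⁻¹' O := hvO
      rw [hOe] at h7
      exact h7
    refine ⟨⟨_, n, hnT, e1⟩, ?_⟩
    rw [e1, hmem _ n hnT, hmem p t ht, map_mul, Module.End.mul_apply, e2]
  refine ⟨?_, ?_⟩
  · intro p g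
    by_cases hg : ∃ q : P, ∃ t ∈ T, g = q * w * t
    · obtain ⟨q, t, ht, rfl⟩ := hg
      have e1 : (p : A) * (q * w * t) = ((p * q : P) : A) * w * t := by
        show (p : A) * (q * w * t) = (p * q) * w * t
        group
      rw [e1, hmem _ t ht, hmem q t ht, map_mul, Module.End.mul_apply]
    · rw [hnot g hg, map_zero]
      refine hnot _ ?_
      rintro ⟨q, t, ht, hq⟩
      refine hg ⟨p⁻¹ * q, t, ht, ?_⟩
      have e1 : g = (p : A)⁻¹ * (p * g) := by group
      rw [e1, hq]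
      show (p : A)⁻¹ * (q * w * t) = ((p : A)⁻¹ * q) * w * t
      group
  · let H : Subgroup A :=
      { carrier := {u | ∀ g, CSurj_f P w T a e (g * u) = CSurj_f P w T a e g}
        mul_mem' := by
          intro x y hx hy g
          rw [← mul_assoc, hy, hx]
        one_mem' := by
          intro g
          rw [mul_one]
        inv_mem' := by
          intro x hx g
          have := hx (g * x⁻¹)
          rw [inv_mul_cancel_right] at this
          exact this.symm }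
    refine ⟨H, ?_, fun g u hu => hu g⟩
    have hWi : W ∩ W⁻¹ ∈ 𝓝 (1 : A) := Filter.inter_mem hW (inv_mem_nhds_one A hW)
    refine Subgroup.isOpen_of_mem_nhds H (g := 1) (Filter.mem_of_superset hWi ?_)
    rintro u ⟨hu, hu'⟩ g
    by_cases hg : ∃ q : P, ∃ t ∈ T, g = q * w * t
    · exact (key g u hg hu).2
    · rw [hnot g hg]
      refine hnot _ ?_
      intro hgu
      have h8 := (key (g * u) u⁻¹ hgu hu').1
      rw [mul_inv_cancel_right] at h8
      exact hg h8

theorem live_surj (D : CD A) (a : Representation ℂ D.P E) (ha : IsSm a) (hl : D.Live a)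
    (N' : Subgroup A) (hN' : IsClosed (N' : Set A)) (h1 : ∀ x ∈ N', D.w * x * D.w⁻¹ ∈ D.P → x = 1)
    (ho : IsOpen {g | ∃ p ∈ cjS D.w D.P, ∃ n ∈ N', g = p * n})
    (hdec : ∀ n ∈ D.N, ∃ b ∈ D.B, ∃ n' ∈ N', n' ∈ D.N ∧ n = b * n')
    (hCO : ∀ O : Set A, IsOpen O → (1 : A) ∈ O → ∃ T : Subgroup A, T ≤ N' ∧ IsCompact (T : Set A) ∧
      (∃ O' : Set A, IsOpen O' ∧ (T : Set A) = (N' : Set A) ∩ O') ∧ (T : Set A) ⊆ O)
    (U : Set A) (hU : IsOpen U) (hwU : D.w ∈ U) (hPU : ∀ p ∈ D.P, ∀ g ∈ U, p * g ∈ U) (e : E) :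
    ∃ f ∈ IS D.P a, (∀ g, g ∉ U → f g = 0) ∧ D.Lam f 1 = e := by
  classical
  obtain ⟨T, hT, hTc, ⟨O', hO', hTO⟩, hTU⟩ := hCO ((fun x => D.w * x) ⁻¹' U)
    (hU.preimage (by fun_prop)) (by
      show D.w * 1 ∈ U
      rw [mul_one]
      exact hwU)
  set f := CSurj_f D.P D.w T a e with hf
  have hmem := CSurj_f_mem D.P D.w T N' hT h1 a e
  have hnot := CSurj_f_not D.P D.w T a e
  have hIS : f ∈ IS D.P a :=
    CSurj_IS D.P D.P_cl D.w T N' hN' hT hTc O' hO' hTO h1 ho a ha e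
  have hoff : ∀ g, g ∉ U → f g = 0 := by
    intro g hg
    refine hnot g ?_
    rintro ⟨p, t, ht, rfl⟩
    refine hg ?_
    rw [mul_assoc]
    exact hPU p p.2 _ (hTU ht)
  -- the values on `w B`
  have hB : ∀ b ∈ D.B, ∀ x : A, f (D.w * (b * x) * 1) = f (D.w * x * 1) := by
    intro b hb x
    have hbP : D.w * b * D.w⁻¹ ∈ D.P := mem_cjS.1 hb.2
    have e1 : D.w * (b * x) * 1 = ((⟨D.w * b * D.w⁻¹, hbP⟩ : D.P) : A) * (D.w * x * 1) := by
      show D.w * (b * x) * 1 = (D.w * b * D.w⁻¹) * (D.w * x * 1)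
      group
    rw [e1, hIS.1]
    refine hl _ ?_ _
    have e2 : D.w⁻¹ * ((⟨D.w * b * D.w⁻¹, hbP⟩ : D.P) : A) * D.w = b := by
      show D.w⁻¹ * (D.w * b * D.w⁻¹) * D.w = b
      group
    rw [e2]
    exact hb.1
  have hT1 : ∀ n' ∈ N', n' ∈ T → f (D.w * n' * 1) = e := by
    intro n' _ hn
    have e1 : D.w * n' * 1 = ((1 : D.P) : A) * D.w * n' := by
      show D.w * n' * 1 = 1 * D.w * n'
      group
    rw [e1]
    have := hmem 1 n' hn
    rw [map_one, Module.End.one_apply] at this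
    exact this
  have hT0 : ∀ n' ∈ N', n' ∉ T → f (D.w * n' * 1) = 0 := by
    intro n' hn' hn
    refine hnot _ ?_
    rintro ⟨p, t, ht, hpt⟩
    have e1 : n' * t⁻¹ = 1 := by
      refine h1 _ (N'.mul_mem hn' (N'.inv_mem (hT ht))) ?_
      have e2 : D.w * (n' * t⁻¹) * D.w⁻¹ = p := by
        have e3 : D.w * n' = p * D.w * t := by
          rw [← hpt, mul_one]
        calc D.w * (n' * t⁻¹) * D.w⁻¹ = (D.w * n') * t⁻¹ * D.w⁻¹ := by group
          _ = p := by
            rw [e3]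
            group
      rw [e2]
      exact p.2
    rw [mul_inv_eq_one] at e1
    rw [e1] at hn
    exact hn ht
  have hLI : LI D.N D.B (fun n => f (D.w * n * 1)) := by
    refine ⟨fun b hb n _ => hB b hb n, ?_, ?_⟩
    · obtain ⟨-, U₀, hU₀, hinv⟩ := hIS
      refine ⟨U₀, hU₀, fun n _ u hu _ => ?_⟩
      show f (D.w * (n * u) * 1) = f (D.w * n * 1)
      have e1 : D.w * (n * u) * 1 = D.w * n * 1 * u := by group
      rw [e1, hinv _ u hu]
    · refine ⟨(T : Set A) ∩ (D.N : Set A), hTc.inter_right D.N_cl, Set.inter_subset_right,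
        fun n hn h0 => ?_⟩
      obtain ⟨b, hb, n', hn', hnN, rfl⟩ := hdec n hn
      refine ⟨b, hb, ?_⟩
      rw [inv_mul_cancel_left]
      refine ⟨?_, hnN⟩
      by_contra hc
      apply h0
      show f (D.w * (b * n') * 1) = 0
      rw [hB b hb, hT0 n' hn' hc]
  obtain ⟨c, hc, hce⟩ := iq_two D.iqd (fun n => f (D.w * n * 1)) hLI e (by
    intro n hn
    obtain ⟨b, hb, n', hn', -, rfl⟩ := hdec n hn
    show f (D.w * (b * n') * 1) = 0 ∨ f (D.w * (b * n') * 1) = e
    rw [hB b hb]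
    by_cases h : n' ∈ T
    · exact Or.inr (hT1 n' hn' h)
    · exact Or.inl (hT0 n' hn' h)) (hT1 1 N'.one_mem T.one_mem)
  refine ⟨c⁻¹ • f, (IS D.P a).smul_mem _ hIS, fun g hg => ?_, ?_⟩
  · rw [Pi.smul_apply, hoff g hg, smul_zero]
  · have h9 := iq_map D.iqd (fun n => f (D.w * n * 1)) hLI (c⁻¹ • (LinearMap.id : E →ₗ[ℂ] E))
    have h10 : D.Lam (c⁻¹ • f) 1 =
        iq D.N D.B D.N₀ (fun n => (c⁻¹ • (LinearMap.id : E →ₗ[ℂ] E)) (f (D.w * n * 1))) := rfl
    rw [h10, h9, hce]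
    show c⁻¹ • (c • e) = e
    rw [smul_smul, inv_mul_cancel₀ hc, one_smul]

end

end Pool.Agent.Lib.MP_ca1492_al.P
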