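import Mathlib
import Pool.Agent.Lib.MP_ca1492_al.P.IwFac
import Pool.Agent.Lib.MP_ca1492_al.P.ParD

/-!
# MP_ca1492_al, p-adic side, module Cell0: Iwahori factorization and the open cell

* `iwahori`: every `g ∈ Kc F κ m ⊓ lev F cb`, `1 ≤ m`, is `p * n` with
  `p ∈ upp F cb o ⊓ Kc F κ m`, `n ∈ uni F cb (-o) ⊓ Kc F κ m`.
  Proof: choose an injective `x : κ → ℤ` with `o i < o j → x i < x j` (lexicographic refinement of
  `o` by `Fintype.equivFin κ`). Gaussian elimination with pivots on the diagonal: process the rows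
  `i` in decreasing order of `x`. The diagonal entry `g i i ∈ 1 + lat m` is a unit; right
  multiplication by the element of `uni F cb (-x)` with the entries `- g i j / g i i ∈ lat m`
  (`x j < x i`, row `i`) makes the entries `(i, j)`, `x j < x i`, zero, keeps the matrix in `Kc m`,
  and does not change the entries `(i', j')`, `x j' < x i'`, of the rows `i'` with `x i < x i'`
  (they are zero: only columns `j'` with `x j' ≤ x i` are changed by adding multiples of column `i`,
  and row `i'` has a zero in column `i`). At the end `g * n = u` with `u ∈ upp F cb x ⊓ Kc m`,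
  `n ∈ uni F cb (-x) ⊓ Kc m`; so `g = u n'` with `n' = n⁻¹`. Finally split `n'`: the entries with
  `o i = o j` give `b ∈ lev` (block part, in `Kc m`), `n' = b * n''`, `n'' ∈ uni F cb (-o) ⊓ Kc m`
  (as in `upp_decomp`, for `-o`), and `p = u b ∈ upp F cb o`.
* `open_cell`: `lev F cb ∩ (open set) = upp * uni(-o)`: the set `P N⁻` is a union of translates
  `p (Kc 1 ⊓ lev) n ⊆ P (P ∩ Kc 1)(N⁻ ∩ Kc 1) N⁻`, so `P N⁻ = lev F cb ∩ ⋃ p (Kc 1) n`.
* `cj_contract`: a compact subset of `uni F cb o` is moved into `Kc m` by conjugation with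
  `dia (k * o)⁻¹`..: `(dia l)⁻¹ g (dia l)` has entries `ϖ ^ (l j - l i) g i j`; for `l = k * o`, `k`
  large, and `g` in a compact subset of `uni F cb o` the off diagonal entries are in `lat m`.
-/

set_option autoImplicit false

namespace Pool.Agent.Lib.MP_ca1492_al.P

open Topology Matrix ValuativeRel

noncomputable section

variable {F : Type} [Field F] [ValuativeRel F] [TopologicalSpace F]
  [IsNonarchimedeanLocalField F]
variable {κ : Type} [Fintype κ] [DecidableEq κ]

theorem iwahori {ι : Type} (cb : κ → ι) (o : κ → ℤ) (m : ℕ) (hm : 1 ≤ m) (g : GL κ F)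
    (hg : g ∈ Kc F κ m) (hg' : g ∈ lev F cb) :
    ∃ p ∈ upp F cb o, ∃ n ∈ uni F cb (fun i => - o i),
      p ∈ Kc F κ m ∧ n ∈ Kc F κ m ∧ g = p * n := by
  obtain ⟨n, hn, h, hh, n', hn', hnK, hhK, hnK', rfl⟩ := iwahori_fac cb o m hm g hg hg'
  have hh' : h ∈ upp F cb o :=
    parD_lev_le_upp (fun i => (cb i, o i)) cb o (fun i j => Prod.mk_inj) hh
  exact ⟨n * h, (upp F cb o).mul_mem hn.1 hh', n', hn', (Kc F κ m).mul_mem hnK hhK, hnK', rfl⟩

theorem open_cell {ι : Type} (cb : κ → ι) (o : κ → ℤ) :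
    ∃ U : Set (GL κ F), IsOpen U ∧
      {g : GL κ F | ∃ p ∈ upp F cb o, ∃ n ∈ uni F cb (fun i => - o i), g = p * n} =
        (lev F cb : Set (GL κ F)) ∩ U := by
  refine ⟨⋃ p ∈ upp F cb o, ⋃ n ∈ uni F cb (fun i => - o i),
    (fun g : GL κ F => p⁻¹ * g * n⁻¹) ⁻¹' (Kc F κ 1 : Set (GL κ F)), ?_, ?_⟩
  · refine isOpen_biUnion fun p _ => isOpen_biUnion fun n _ => ?_
    exact (Kc_isOpen 1).preimage ((continuous_const.mul continuous_id).mul continuous_const)
  · ext g
    constructor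
    · rintro ⟨p, hp, n, hn, rfl⟩
      refine ⟨(lev F cb).mul_mem hp.1 hn.1.1, ?_⟩
      simp only [Set.mem_iUnion]
      refine ⟨p, hp, n, hn, ?_⟩
      show p⁻¹ * (p * n) * n⁻¹ ∈ Kc F κ 1
      rw [inv_mul_cancel_left, mul_inv_cancel]
      exact (Kc F κ 1).one_mem
    · rintro ⟨hg, hU⟩
      simp only [Set.mem_iUnion] at hU
      obtain ⟨p, hp, n, hn, hk⟩ := hU
      have hk1 : p⁻¹ * g * n⁻¹ ∈ Kc F κ 1 := hk
      have hk2 : p⁻¹ * g * n⁻¹ ∈ lev F cb :=
        (lev F cb).mul_mem ((lev F cb).mul_mem ((lev F cb).inv_mem hp.1) hg)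
          ((lev F cb).inv_mem hn.1.1)
      obtain ⟨p', hp', n', hn', -, -, he⟩ := iwahori cb o 1 le_rfl _ hk1 hk2
      refine ⟨p * p', (upp F cb o).mul_mem hp hp', n' * n,
        (uni F cb (fun i => - o i)).mul_mem hn' hn, ?_⟩
      have e : g = p * (p⁻¹ * g * n⁻¹) * n := by group
      rw [e, he]
      group

end

end Pool.Agent.Lib.MP_ca1492_al.P
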