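import Mathlib
import Pool.Agent.Lib.MP_ca1492_al.P.GLDefs

/-!
# MP_ca1492_al, p-adic side, module Pat: pattern subgroups

`Pat κ`: strict orders (transitive, irreflexive) on `κ`. `uniS F S`: all `g` which agree with the identity matrix
outside `S`. For example `uni F cb o = uniS F (patO cb o)`.

Proofs.
* `ht_exists`: a height function: `h i` = number of `k` with `S.r k i` (transitivity and
  irreflexivity give `S.r i j → h i < h j`).
* `mem_uniS_iff`: let `g i j = δ` outside `S`. Induction on the height (`ht_exists`), downwards in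
  `i`: if not `S.r i j` then `(g⁻¹) i j = δ`: from `(g g⁻¹) i j = δ` and `g i i = 1`,
  `(g⁻¹) i j = δ - Σ_{k, S.r i k} g i k (g⁻¹) k j`, and in the sum `(g⁻¹) k j ≠ 0` only if `k = j`
  or `S.r k j`, both of which imply `S.r i j`. (Prove: for all `i`, all `j`:
  `¬ S.r i j → g⁻¹ i j = δ i j` by strong induction on `(bound - h i)`.)
* `uniS_perm` etc.: `((permG w)⁻¹ g (permG w)) i j = g (w i) (w j)`.
* `uniS_nrm`: `(m g m⁻¹) i j = Σ m i k g k l m⁻¹ l j`, nonzero terms have `c i = c k`, `c l = c j`;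
  if not `S.r i j` then not `S.r k l`, so `g k l = δ k l`, and the sum is `(m m⁻¹) i j = δ i j`.
-/

set_option autoImplicit false

namespace Pool.Agent.Lib.MP_ca1492_al.P

open Matrix

noncomputable section

/-- a strict order (pattern) -/
structure Pat (κ : Type) where
  r : κ → κ → Prop
  tr : ∀ i j k, r i j → r j k → r i k
  ir : ∀ i, ¬ r i i

/-- the pattern depends on the colours only -/
def Pat.Dep {κ ι : Type} (S : Pat κ) (c : κ → ι) : Prop :=
  ∀ i i' j j', c i = c i' → c j = c j' → S.r i j → S.r i' j'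

/-- pull back of a pattern under a permutation -/
def Pat.pull {κ : Type} (S : Pat κ) (w : Equiv.Perm κ) : Pat κ where
  r i j := S.r (w i) (w j)
  tr i j k := S.tr (w i) (w j) (w k)
  ir i := S.ir (w i)

/-- the pattern of `uni F cb o` -/
def patO {κ ι : Type} (cb : κ → ι) (o : κ → ℤ) : Pat κ where
  r i j := cb i = cb j ∧ o i < o j
  tr _ _ _ h h' := ⟨h.1.trans h'.1, h.2.trans h'.2⟩
  ir _ h := lt_irrefl _ h.2

/-- the reversed pattern -/
def Pat.op {κ : Type} (S : Pat κ) : Pat κ where
  r i j := S.r j i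
  tr i j k h h' := S.tr k j i h' h
  ir i := S.ir i

variable {F : Type} [Field F] {κ : Type} [Fintype κ] [DecidableEq κ]

/-- the unipotent pattern subgroup -/
def uniS (F : Type) [Field F] {κ : Type} [Fintype κ] [DecidableEq κ] (S : Pat κ) :
    Subgroup (GL κ F) where
  carrier := {g | ∀ i j, ¬ S.r i j → (g : Matrix κ κ F) i j = (1 : Matrix κ κ F) i j ∧
    ((g⁻¹ : GL κ F) : Matrix κ κ F) i j = (1 : Matrix κ κ F) i j}
  mul_mem' := by
    have key : ∀ A B : Matrix κ κ F, (∀ i j, ¬ S.r i j → A i j = (1 : Matrix κ κ F) i j) →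
        (∀ i j, ¬ S.r i j → B i j = (1 : Matrix κ κ F) i j) → ∀ i j, ¬ S.r i j →
        (A * B) i j = (1 : Matrix κ κ F) i j := by
      intro A B hA hB i j hij
      have e : A * B = A + B - 1 + (A - 1) * (B - 1) := by
        rw [sub_mul, mul_sub, mul_sub, Matrix.mul_one, Matrix.one_mul, Matrix.one_mul]; abel
      rw [e, Matrix.add_apply, Matrix.sub_apply, Matrix.add_apply, hA i j hij, hB i j hij,
        Matrix.mul_apply, Finset.sum_eq_zero, add_zero, add_sub_cancel_right]
      intro k _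
      by_cases h : S.r i k
      · by_cases h' : S.r k j
        · exact absurd (S.tr i k j h h') hij
        · rw [Matrix.sub_apply B, hB k j h', sub_self, mul_zero]
      · rw [Matrix.sub_apply A, hA i k h, sub_self, zero_mul]
    intro x y hx hy i j hij
    refine ⟨?_, ?_⟩
    · rw [Units.val_mul]
      exact key _ _ (fun i j h => (hx i j h).1) (fun i j h => (hy i j h).1) i j hij
    · rw [_root_.mul_inv_rev, Units.val_mul]
      exact key _ _ (fun i j h => (hy i j h).2) (fun i j h => (hx i j h).2) i j hij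
  one_mem' := by
    intro i j _
    rw [inv_one, Units.val_one]
    exact ⟨rfl, rfl⟩
  inv_mem' := by
    intro x hx i j hij
    rw [inv_inv]
    exact ⟨(hx i j hij).2, (hx i j hij).1⟩

theorem ht_exists (S : Pat κ) : ∃ h : κ → ℤ, ∀ i j, S.r i j → h i < h j := by
  classical
  refine ⟨fun i => ((Finset.univ.filter fun k => S.r k i).card : ℤ), fun i j hij => ?_⟩
  have h1 : (Finset.univ.filter fun k => S.r k i) ⊂ (Finset.univ.filter fun k => S.r k j) := by
    rw [Finset.ssubset_iff_of_subset]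
    · exact ⟨i, Finset.mem_filter.2 ⟨Finset.mem_univ i, hij⟩,
        fun h => S.ir i (Finset.mem_filter.1 h).2⟩
    · intro k hk
      exact Finset.mem_filter.2 ⟨Finset.mem_univ k, S.tr k i j (Finset.mem_filter.1 hk).2 hij⟩
  exact Int.ofNat_lt.2 (Finset.card_lt_card h1)

theorem Pat_wf (S : Pat κ) : WellFounded fun k i : κ => S.r i k := by
  obtain ⟨h, hh⟩ := ht_exists S
  obtain ⟨b, hb⟩ : ∃ b : ℤ, ∀ i, h i ≤ b := by
    obtain ⟨b, hb⟩ := (Set.finite_range h).bddAbove
    exact ⟨b, fun i => hb ⟨i, rfl⟩⟩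
  have h2 : ∀ k i, S.r i k → (b - h k).toNat < (b - h i).toNat := by
    intro k i hik
    have h3 := hh i k hik
    have h4 := hb i
    have h5 := hb k
    omega
  exact Subrelation.wf (fun {k i} hik => h2 k i hik)
    (InvImage.wf (fun i => (b - h i).toNat) Nat.lt_wfRel.wf)

theorem mem_uniS_iff {S : Pat κ} {g : GL κ F} :
    g ∈ uniS F S ↔ ∀ i j, ¬ S.r i j → (g : Matrix κ κ F) i j = (1 : Matrix κ κ F) i j := by
  constructor
  · intro h i j hij
    exact (h i j hij).1
  · intro h
    have h1 : (g : Matrix κ κ F) * ((g⁻¹ : GL κ F) : Matrix κ κ F) = 1 := by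
      rw [← Units.val_mul, mul_inv_cancel, Units.val_one]
    have h2 : ∀ i, ∀ j, ¬ S.r i j →
        ((g⁻¹ : GL κ F) : Matrix κ κ F) i j = (1 : Matrix κ κ F) i j := by
      intro i
      refine (Pat_wf S).induction (C := fun i => ∀ j, ¬ S.r i j →
        ((g⁻¹ : GL κ F) : Matrix κ κ F) i j = (1 : Matrix κ κ F) i j) i ?_
      intro i ih j hij
      have h3 : (((g : Matrix κ κ F) - 1) * ((g⁻¹ : GL κ F) : Matrix κ κ F)) i j = 0 := by
        rw [Matrix.mul_apply]
        refine Finset.sum_eq_zero fun k _ => ?_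
        by_cases hk : S.r i k
        · have h4 : ¬ S.r k j := fun h' => hij (S.tr i k j hk h')
          have h5 : k ≠ j := fun h' => hij (h' ▸ hk)
          rw [ih k hk j h4, Matrix.one_apply_ne h5, mul_zero]
        · rw [Matrix.sub_apply, h i k hk, sub_self, zero_mul]
      rw [Matrix.sub_mul, Matrix.one_mul, h1, Matrix.sub_apply, sub_eq_zero] at h3
      exact h3.symm
    exact fun i j hij => ⟨h i j hij, h2 i j hij⟩

theorem uni_eq_uniS {ι : Type} (cb : κ → ι) (o : κ → ℤ) : uni F cb o = uniS F (patO cb o) := by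
  ext g
  rw [mem_uniS_iff, mem_uni, mem_upp, mem_lev]
  constructor
  · rintro ⟨⟨h1, h2⟩, h3⟩ i j hij
    by_cases hc : cb i = cb j
    · rcases lt_trichotomy (o i) (o j) with h | h | h
      · exact absurd ⟨hc, h⟩ hij
      · exact h3 i j h
      · rw [h2 i j h, Matrix.one_apply_ne]
        rintro rfl
        exact lt_irrefl _ h
    · rw [h1 i j hc, Matrix.one_apply_ne]
      rintro rfl
      exact hc rfl
  · intro h
    refine ⟨⟨fun i j hc => ?_, fun i j ho => ?_⟩, fun i j ho => ?_⟩
    · rw [h i j (fun h' => hc h'.1), Matrix.one_apply_ne]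
      rintro rfl
      exact hc rfl
    · rw [h i j (fun h' => lt_asymm h'.2 ho), Matrix.one_apply_ne]
      rintro rfl
      exact lt_irrefl _ ho
    · exact h i j (fun h' => absurd ho h'.2.ne)

theorem uniS_mono {S S' : Pat κ} (h : ∀ i j, S.r i j → S'.r i j) : uniS F S ≤ uniS F S' := by
  intro g hg i j hij
  exact hg i j (fun h' => hij (h i j h'))

/-- with a height function for `S` -/
theorem uniS_le_uni {S : Pat κ} {h : κ → ℤ} (hh : ∀ i j, S.r i j → h i < h j) :
    uniS F S ≤ uni F (fun _ : κ => ()) h := by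
  rw [uni_eq_uniS]
  exact uniS_mono fun i j hij => ⟨rfl, hh i j hij⟩

theorem uniS_inf_trivial {S S' : Pat κ} (h : ∀ i j, S.r i j → ¬ S'.r i j) (g : GL κ F)
    (hg : g ∈ uniS F S) (hg' : g ∈ uniS F S') : g = 1 := by
  apply Units.ext
  ext i j
  rw [Units.val_one]
  by_cases hij : S.r i j
  · exact (hg' i j (h i j hij)).1
  · exact (hg i j hij).1

theorem uniS_le_lev {ι : Type} {S : Pat κ} {cb : κ → ι} (h : ∀ i j, S.r i j → cb i = cb j) :
    uniS F S ≤ lev F cb := by
  intro g hg i j hij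
  rw [(hg i j (fun h' => hij (h i j h'))).1, Matrix.one_apply_ne]
  rintro rfl
  exact hij rfl

/-- an element of `uniS F S` with prescribed entries on `S` -/
theorem uniS_mk (S : Pat κ) (x : κ → κ → F) :
    ∃ g ∈ uniS F S, ∀ i j, S.r i j → (g : Matrix κ κ F) i j = x i j := by
  classical
  obtain ⟨A, hA⟩ : ∃ A : Matrix κ κ F, A = Matrix.of fun i j =>
      if S.r i j then x i j else (1 : Matrix κ κ F) i j := ⟨_, rfl⟩
  have hA1 : ∀ i j, S.r i j → A i j = x i j := by
    intro i j hij
    rw [hA, Matrix.of_apply, if_pos hij]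
  have hA0 : ∀ i j, ¬ S.r i j → A i j = (1 : Matrix κ κ F) i j := by
    intro i j hij
    rw [hA, Matrix.of_apply, if_neg hij]
  have hinj : Function.Injective A.mulVec := by
    intro v v' hv
    have h1 : A.mulVec (v - v') = 0 := by
      rw [Matrix.mulVec_sub]
      exact sub_eq_zero.2 hv
    have h2 : ∀ i, (v - v') i = 0 := by
      intro i
      refine (Pat_wf S).induction (C := fun i => (v - v') i = 0) i ?_
      intro i ih
      have h3 : ((A - 1).mulVec (v - v')) i = 0 := by
        rw [Matrix.mulVec, dotProduct]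
        refine Finset.sum_eq_zero fun k _ => ?_
        by_cases hk : S.r i k
        · rw [ih k hk, mul_zero]
        · rw [Matrix.sub_apply, hA0 i k hk, sub_self, zero_mul]
      rw [Matrix.sub_mulVec, Matrix.one_mulVec, h1, Pi.sub_apply, Pi.zero_apply, zero_sub,
        neg_eq_zero] at h3
      exact h3
    exact sub_eq_zero.1 (funext h2)
  have hu : IsUnit A := Matrix.mulVec_injective_iff_isUnit.1 hinj
  refine ⟨hu.unit, mem_uniS_iff.2 fun i j hij => ?_, fun i j hij => ?_⟩
  · rw [IsUnit.unit_spec]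
    exact hA0 i j hij
  · rw [IsUnit.unit_spec]
    exact hA1 i j hij

theorem uniS_nrm {ι : Type} {S : Pat κ} {c : κ → ι} (hS : S.Dep c) (m g : GL κ F)
    (hm : m ∈ lev F c) (hg : g ∈ uniS F S) : m * g * m⁻¹ ∈ uniS F S := by
  rw [mem_uniS_iff]
  intro i j hij
  have hm' : m⁻¹ ∈ lev F c := (lev F c).inv_mem hm
  have h1 : (m : Matrix κ κ F) * ((m⁻¹ : GL κ F) : Matrix κ κ F) = 1 := by
    rw [← Units.val_mul, mul_inv_cancel, Units.val_one]
  have h2 : ((m : Matrix κ κ F) * ((g : Matrix κ κ F) - 1) *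
      ((m⁻¹ : GL κ F) : Matrix κ κ F)) i j = 0 := by
    rw [Matrix.mul_apply]
    refine Finset.sum_eq_zero fun l _ => ?_
    by_cases hl : c l = c j
    · rw [Matrix.mul_apply, Finset.sum_eq_zero, zero_mul]
      intro k _
      by_cases hk : c i = c k
      · have h3 : ¬ S.r k l := fun h' => hij (hS k i l j hk.symm hl h')
        rw [Matrix.sub_apply, (hg k l h3).1, sub_self, mul_zero]
      · rw [hm i k hk, zero_mul]
    · rw [hm' l j hl, mul_zero]
  rw [Matrix.mul_sub, Matrix.mul_one, Matrix.sub_mul, h1, Matrix.sub_apply, sub_eq_zero] at h2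
  rw [Units.val_mul, Units.val_mul]
  exact h2

theorem permG_one : permG F (1 : Equiv.Perm κ) = 1 := by
  apply Units.ext
  ext i j
  rw [Units.val_one, Matrix.one_apply]
  show (if (1 : Equiv.Perm κ) j = i then (1 : F) else 0) = _
  simp only [Equiv.Perm.one_apply, eq_comm]

theorem permG_mul (w w' : Equiv.Perm κ) : permG F (w * w') = permG F w * permG F w' := by
  apply Units.ext
  ext i j
  rw [Units.val_mul, Matrix.mul_apply]
  show (if (w * w') j = i then (1 : F) else 0) =
    ∑ k, (if w k = i then (1 : F) else 0) * (if w' j = k then 1 else 0)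
  simp only [mul_ite, mul_one, mul_zero, Finset.sum_ite_eq, Finset.mem_univ, if_true,
    Equiv.Perm.mul_apply]
  congr

theorem permG_conj_apply (w : Equiv.Perm κ) (g : GL κ F) (i j : κ) :
    (((permG F w)⁻¹ * g * permG F w : GL κ F) : Matrix κ κ F) i j =
      (g : Matrix κ κ F) (w i) (w j) := by
  rw [Units.val_mul, Units.val_mul, Matrix.mul_apply]
  have h1 : ∀ l, ((((permG F w)⁻¹ : GL κ F) : Matrix κ κ F) * (g : Matrix κ κ F)) i l =
      (g : Matrix κ κ F) (w i) l := by
    intro l
    rw [Matrix.mul_apply]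
    show ∑ k, (if w i = k then (1 : F) else 0) * (g : Matrix κ κ F) k l = _
    simp only [ite_mul, one_mul, zero_mul, Finset.sum_ite_eq, Finset.mem_univ, if_true]
  rw [Finset.sum_congr rfl fun l _ => congrArg (fun z => z * (permG F w : Matrix κ κ F) l j) (h1 l)]
  show ∑ l, (g : Matrix κ κ F) (w i) l * (if w j = l then (1 : F) else 0) = _
  simp only [mul_ite, mul_one, mul_zero, Finset.sum_ite_eq, Finset.mem_univ, if_true]

omit [Fintype κ] [DecidableEq κ] in
theorem Pat_forall2 (w : Equiv.Perm κ) (P : κ → κ → Prop) :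
    (∀ i j, P (w i) (w j)) ↔ ∀ i j, P i j := by
  constructor
  · intro h i j
    have h1 := h (w.symm i) (w.symm j)
    rwa [Equiv.apply_symm_apply, Equiv.apply_symm_apply] at h1
  · exact fun h i j => h _ _

omit [Fintype κ] in
theorem Pat_one (w : Equiv.Perm κ) (i j : κ) :
    (1 : Matrix κ κ F) i j = (1 : Matrix κ κ F) (w i) (w j) := by
  rw [Matrix.one_apply, Matrix.one_apply]
  simp only [EmbeddingLike.apply_eq_iff_eq]

theorem uniS_perm (S : Pat κ) (w : Equiv.Perm κ) (g : GL κ F) :
    (permG F w)⁻¹ * g * permG F w ∈ uniS F (S.pull w) ↔ g ∈ uniS F S := by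
  rw [mem_uniS_iff, mem_uniS_iff,
    ← Pat_forall2 w fun i j => ¬ S.r i j → (g : Matrix κ κ F) i j = (1 : Matrix κ κ F) i j]
  refine forall_congr' fun i => forall_congr' fun j => ?_
  rw [permG_conj_apply, Pat_one w i j]
  rfl

theorem lev_perm {ι : Type} (c : κ → ι) (w : Equiv.Perm κ) (g : GL κ F) :
    (permG F w)⁻¹ * g * permG F w ∈ lev F (c ∘ w) ↔ g ∈ lev F c := by
  rw [mem_lev, mem_lev,
    ← Pat_forall2 w fun i j => c i ≠ c j → (g : Matrix κ κ F) i j = 0]
  refine forall_congr' fun i => forall_congr' fun j => ?_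
  rw [permG_conj_apply]
  rfl

theorem upp_perm {ι : Type} (cb : κ → ι) (o : κ → ℤ) (w : Equiv.Perm κ) (g : GL κ F) :
    (permG F w)⁻¹ * g * permG F w ∈ upp F (cb ∘ w) (o ∘ w) ↔ g ∈ upp F cb o := by
  rw [mem_upp, mem_upp, lev_perm,
    ← Pat_forall2 w fun i j => o j < o i → (g : Matrix κ κ F) i j = 0]
  refine and_congr Iff.rfl (forall_congr' fun i => forall_congr' fun j => ?_)
  rw [permG_conj_apply]
  rfl

theorem uni_perm {ι : Type} (cb : κ → ι) (o : κ → ℤ) (w : Equiv.Perm κ) (g : GL κ F) :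
    (permG F w)⁻¹ * g * permG F w ∈ uni F (cb ∘ w) (o ∘ w) ↔ g ∈ uni F cb o := by
  rw [mem_uni, mem_uni, upp_perm,
    ← Pat_forall2 w fun i j => o i = o j → (g : Matrix κ κ F) i j = (1 : Matrix κ κ F) i j]
  refine and_congr Iff.rfl (forall_congr' fun i => forall_congr' fun j => ?_)
  rw [permG_conj_apply, Pat_one w i j]
  rfl

end

end Pool.Agent.Lib.MP_ca1492_al.P
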