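import Mathlib
import Pool.Agent.Lib.MP_ca1492_al.P.Pat

/-!
# MP_ca1492_al, p-adic side, module Fact: factorizations of pattern groups (any field)

* `uniS_fact`: `S` is the disjoint union of the patterns `S₁`, `S₂`: every `g ∈ uniS F S` is
  uniquely `a * b`, `a ∈ uniS F S₁`, `b ∈ uniS F S₂`. Existence: height function `h` for `S`
  (`ht_exists`). Claim for `t : ℕ`: there are `a ∈ uniS F S₁`, `b ∈ uniS F S₂` such that
  `g' = a⁻¹ g b⁻¹` has `g' i j = δ` for all `i, j` with `h j - h i < t`. Step: let `a'` have the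
  entries of `g'` on the pairs of `S₁` with `h j - h i = t` and `δ` elsewhere, the same for `b'` and
  `S₂` (`mem_uniS_iff`; the invertible matrices exist by `uniS_mk`). Then `a'⁻¹ g' b'⁻¹` agrees with
  `1` for `h j - h i ≤ t`: write `a'⁻¹ = 1 - X + (height ≥ 2t)`, where `X = a' - 1` has only entries
  with height difference exactly `t ≥ 1`, similarly for `b'⁻¹`, `g'`. (For `t = 0` there is nothing to
  do since `S.r i j` implies `h i < h j`.) For `t` larger than all differences `g' = 1`.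
  It is convenient to have the filtration lemma: `Fil t = {A : Matrix | A i j = 0 unless
  h j - h i ≥ t}` satisfies `Fil s * Fil t ⊆ Fil (s + t)`.
* `uni_split`: special case `S = (cb, o)`, `S₁ = S ∧ o' i ≤ o' j`, `S₂ = S ∧ o' j < o' i`.
* `upp_meet`: `l ∈ lev c₂`, `n ∈ uni cb o₂`, `l n ∈ upp cb o₁` imply `l ∈ upp cb o₁`
  (`c₂ i = c₂ j ↔ cb i = cb j ∧ o₂ i = o₂ j`): for `c₂ i = c₂ j` one has `(l n) i j = l i j`, because
  `l i k ≠ 0` gives `o₂ k = o₂ i = o₂ j` and then `n k j = δ k j`; the other entries of `l` are `0`.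
* `upp_meet'`: hence `n ∈ upp cb o₁`.
-/

set_option autoImplicit false

namespace Pool.Agent.Lib.MP_ca1492_al.P

open Matrix

noncomputable section

variable {F : Type} [Field F] {κ : Type} [Fintype κ] [DecidableEq κ]

theorem Fact_aux {S S₁ S₂ : Pat κ} (h : ∀ i j, S.r i j ↔ S₁.r i j ∨ S₂.r i j) (ht : κ → ℤ)
    (hh : ∀ i j, S.r i j → ht i < ht j) (g : κ → κ → F) (t : ℕ) :
    ∃ X Y : Matrix κ κ F, (∀ i j, ¬ S₁.r i j → X i j = 0) ∧ (∀ i j, ¬ S₂.r i j → Y i j = 0) ∧
      ∀ i j, S.r i j → ht j - ht i ≤ t → (X + Y + X * Y) i j = g i j := by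
  classical
  induction t with
  | zero =>
    refine ⟨0, 0, fun _ _ _ => rfl, fun _ _ _ => rfl, fun i j hij hle => ?_⟩
    have := hh i j hij
    push_cast at hle
    omega
  | succ t ih =>
    obtain ⟨X, Y, hX, hY, hXY⟩ := ih
    have key : ∀ X' Y' : Matrix κ κ F, (∀ i j, ¬ S₁.r i j → X' i j = 0) →
        (∀ i j, ¬ S₂.r i j → Y' i j = 0) → (∀ i j, ht j - ht i ≤ t → X' i j = X i j) →
        (∀ i j, ht j - ht i ≤ t → Y' i j = Y i j) → ∀ i j, ht j - ht i ≤ (t : ℤ) + 1 →
        (X' * Y') i j = (X * Y) i j := by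
      intro X' Y' h1 h2 h3 h4 i j hij
      rw [Matrix.mul_apply, Matrix.mul_apply]
      refine Finset.sum_congr rfl fun k _ => ?_
      by_cases hik : S₁.r i k
      · by_cases hkj : S₂.r k j
        · have e1 := hh i k ((h i k).2 (Or.inl hik))
          have e2 := hh k j ((h k j).2 (Or.inr hkj))
          rw [h3 i k (by omega), h4 k j (by omega)]
        · rw [h2 k j hkj, hY k j hkj, mul_zero, mul_zero]
      · rw [h1 i k hik, hX i k hik, zero_mul, zero_mul]
    refine ⟨Matrix.of fun i j => if S₁.r i j ∧ ht j - ht i = (t : ℤ) + 1 then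
        g i j - (Y i j + (X * Y) i j) else X i j,
      Matrix.of fun i j => if (¬ S₁.r i j ∧ S₂.r i j) ∧ ht j - ht i = (t : ℤ) + 1 then
        g i j - (X i j + (X * Y) i j) else Y i j, ?_, ?_, ?_⟩
    · intro i j hij
      simp [hij, hX i j hij]
    · intro i j hij
      simp [hij, hY i j hij]
    · intro i j hij hle
      push_cast at hle
      rw [Matrix.add_apply, Matrix.add_apply, key _ _ ?_ ?_ ?_ ?_ i j hle]
      · by_cases heq : ht j - ht i = (t : ℤ) + 1
        · by_cases h1 : S₁.r i j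
          · simp only [Matrix.of_apply, h1, heq, not_true_eq_false, false_and, and_self, if_true,
              if_false]
            ring
          · have h2 : S₂.r i j := ((h i j).1 hij).resolve_left h1
            simp only [Matrix.of_apply, h1, h2, heq, not_false_eq_true, false_and, and_self,
              if_true, if_false]
            ring
        · have h3 := hXY i j hij (by omega)
          simp only [Matrix.of_apply, heq, and_false, if_false]
          rw [Matrix.add_apply, Matrix.add_apply] at h3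
          exact h3
      · intro i j hij
        simp [hij, hX i j hij]
      · intro i j hij
        simp [hij, hY i j hij]
      · intro i j hij
        have : ¬ (ht j - ht i = (t : ℤ) + 1) := by omega
        simp [this]
      · intro i j hij
        have : ¬ (ht j - ht i = (t : ℤ) + 1) := by omega
        simp [this]

theorem Fact_mat {S : Pat κ} {a : GL κ F} {X : Matrix κ κ F} (ha : a ∈ uniS F S)
    (ha' : ∀ i j, S.r i j → (a : Matrix κ κ F) i j = X i j) (hX : ∀ i j, ¬ S.r i j → X i j = 0) :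
    (a : Matrix κ κ F) = 1 + X := by
  ext i j
  rw [Matrix.add_apply]
  by_cases hij : S.r i j
  · have hne : i ≠ j := by
      rintro rfl
      exact S.ir i hij
    rw [ha' i j hij, Matrix.one_apply_ne hne, zero_add]
  · rw [(mem_uniS_iff.1 ha) i j hij, hX i j hij, add_zero]

theorem uniS_fact {S S₁ S₂ : Pat κ} (h : ∀ i j, S.r i j ↔ S₁.r i j ∨ S₂.r i j)
    (g : GL κ F) (hg : g ∈ uniS F S) : ∃ a ∈ uniS F S₁, ∃ b ∈ uniS F S₂, g = a * b := by
  classical
  obtain ⟨ht, hh⟩ := ht_exists S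
  obtain ⟨X, Y, hX, hY, hXY⟩ := Fact_aux h ht hh (fun i j => (g : Matrix κ κ F) i j)
    (∑ i, ∑ j, (ht j - ht i).natAbs)
  have hbd : ∀ i j, ht j - ht i ≤ ((∑ i, ∑ j, (ht j - ht i).natAbs : ℕ) : ℤ) := by
    intro i j
    have h1 : (ht j - ht i).natAbs ≤ ∑ j, (ht j - ht i).natAbs :=
      Finset.single_le_sum (f := fun j => (ht j - ht i).natAbs) (fun _ _ => Nat.zero_le _)
        (Finset.mem_univ j)
    have h2 : ∑ j, (ht j - ht i).natAbs ≤ ∑ i, ∑ j, (ht j - ht i).natAbs :=
      Finset.single_le_sum (f := fun i => ∑ j, (ht j - ht i).natAbs) (fun _ _ => Nat.zero_le _)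
        (Finset.mem_univ i)
    have h3 : ht j - ht i ≤ ((ht j - ht i).natAbs : ℤ) := Int.le_natAbs
    exact h3.trans (by exact_mod_cast h1.trans h2)
  obtain ⟨a, ha, ha'⟩ := uniS_mk (F := F) S₁ X
  obtain ⟨b, hb, hb'⟩ := uniS_mk (F := F) S₂ Y
  have eA : (a : Matrix κ κ F) = 1 + X := Fact_mat ha ha' hX
  have eB : (b : Matrix κ κ F) = 1 + Y := Fact_mat hb hb' hY
  refine ⟨a, ha, b, hb, Units.ext ?_⟩
  rw [Units.val_mul, eA, eB]
  have e : (1 + X) * (1 + Y) = 1 + (X + Y + X * Y) := by noncomm_ring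
  rw [e]
  ext i j
  rw [Matrix.add_apply]
  by_cases hij : S.r i j
  · have hne : i ≠ j := by
      rintro rfl
      exact S.ir i hij
    rw [Matrix.one_apply_ne hne, zero_add]
    exact (hXY i j hij (hbd i j)).symm
  · rw [(mem_uniS_iff.1 hg) i j hij]
    have h1 : ¬ S₁.r i j := fun h' => hij ((h i j).2 (Or.inl h'))
    have h2 : ¬ S₂.r i j := fun h' => hij ((h i j).2 (Or.inr h'))
    have h3 : (X * Y) i j = 0 := by
      rw [Matrix.mul_apply]
      refine Finset.sum_eq_zero fun k _ => ?_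
      by_cases hik : S₁.r i k
      · by_cases hkj : S₂.r k j
        · exact absurd (S.tr i k j ((h i k).2 (Or.inl hik)) ((h k j).2 (Or.inr hkj))) hij
        · rw [hY k j hkj, mul_zero]
      · rw [hX i k hik, zero_mul]
    rw [Matrix.add_apply, Matrix.add_apply, hX i j h1, hY i j h2, h3]
    ring

theorem uniS_fact_unique {S₁ S₂ : Pat κ} (h : ∀ i j, S₁.r i j → ¬ S₂.r i j)
    (a a' b b' : GL κ F) (ha : a ∈ uniS F S₁) (ha' : a' ∈ uniS F S₁) (hb : b ∈ uniS F S₂)
    (hb' : b' ∈ uniS F S₂) (he : a * b = a' * b') : a = a' ∧ b = b' := by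
  have h1 : a'⁻¹ * a = b' * b⁻¹ := by
    rw [eq_mul_inv_iff_mul_eq, mul_assoc, he, inv_mul_cancel_left]
  have h2 : a'⁻¹ * a = 1 := uniS_inf_trivial h _
    ((uniS F S₁).mul_mem ((uniS F S₁).inv_mem ha') ha)
    (h1 ▸ (uniS F S₂).mul_mem hb' ((uniS F S₂).inv_mem hb))
  have h3 : a = a' := by
    rw [inv_mul_eq_one] at h2
    exact h2.symm
  refine ⟨h3, ?_⟩
  rw [h3] at he
  exact mul_left_cancel he

/-- the part of the pattern `(cb, o)` on which `o'` does not decrease -/
def patUp {ι : Type} (cb : κ → ι) (o o' : κ → ℤ) : Pat κ where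
  r i j := cb i = cb j ∧ o i < o j ∧ o' i ≤ o' j
  tr _ _ _ h h' := ⟨h.1.trans h'.1, h.2.1.trans h'.2.1, h.2.2.trans h'.2.2⟩
  ir _ h := lt_irrefl _ h.2.1

/-- the part of the pattern `(cb, o)` on which `o'` decreases -/
def patDn {ι : Type} (cb : κ → ι) (o o' : κ → ℤ) : Pat κ where
  r i j := cb i = cb j ∧ o i < o j ∧ o' j < o' i
  tr _ _ _ h h' := ⟨h.1.trans h'.1, h.2.1.trans h'.2.1, h'.2.2.trans h.2.2⟩
  ir _ h := lt_irrefl _ h.2.1

theorem uniS_patUp {ι : Type} (cb : κ → ι) (o o' : κ → ℤ) :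
    uniS F (patUp cb o o') = uni F cb o ⊓ upp F cb o' := by
  ext g
  rw [Subgroup.mem_inf, uni_eq_uniS, mem_uniS_iff, mem_uniS_iff, mem_upp, mem_lev]
  constructor
  · intro hg
    refine ⟨fun i j hij => hg i j (fun h => hij ⟨h.1, h.2.1⟩), fun i j hij => ?_,
      fun i j hij => ?_⟩
    · rw [hg i j (fun h => hij h.1), Matrix.one_apply_ne]
      rintro rfl
      exact hij rfl
    · rw [hg i j (fun h => absurd h.2.2 (not_le.2 hij)), Matrix.one_apply_ne]
      rintro rfl
      exact lt_irrefl _ hij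
  · rintro ⟨h1, h2, h3⟩ i j hij
    by_cases h : (patO cb o).r i j
    · have h4 : o' j < o' i := by
        by_contra hcon
        exact hij ⟨h.1, h.2, not_lt.1 hcon⟩
      rw [h3 i j h4, Matrix.one_apply_ne]
      rintro rfl
      exact lt_irrefl _ h4
    · exact h1 i j h

theorem uniS_patDn {ι : Type} (cb : κ → ι) (o o' : κ → ℤ) :
    uniS F (patDn cb o o') = uni F cb o ⊓ uni F cb (fun i => - o' i) := by
  ext g
  rw [Subgroup.mem_inf, uni_eq_uniS, uni_eq_uniS, mem_uniS_iff, mem_uniS_iff, mem_uniS_iff]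
  constructor
  · intro hg
    refine ⟨fun i j hij => hg i j (fun h => hij ⟨h.1, h.2.1⟩),
      fun i j hij => hg i j (fun h => hij ⟨h.1, neg_lt_neg h.2.2⟩)⟩
  · rintro ⟨h1, h2⟩ i j hij
    by_cases h : (patO cb o).r i j
    · exact h2 i j (fun h' => hij ⟨h.1, h.2, neg_lt_neg_iff.1 h'.2⟩)
    · exact h1 i j h

theorem uni_split {ι : Type} (cb : κ → ι) (o o' : κ → ℤ) (g : GL κ F) (hg : g ∈ uni F cb o) :
    ∃ a ∈ uni F cb o ⊓ upp F cb o', ∃ b ∈ uni F cb o ⊓ uni F cb (fun i => - o' i),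
      g = a * b := by
  rw [← uniS_patUp, ← uniS_patDn]
  rw [uni_eq_uniS] at hg
  refine uniS_fact (fun i j => ?_) g hg
  show (cb i = cb j ∧ o i < o j) ↔ (cb i = cb j ∧ o i < o j ∧ o' i ≤ o' j) ∨
    (cb i = cb j ∧ o i < o j ∧ o' j < o' i)
  have := le_or_gt (o' i) (o' j)
  tauto

theorem uni_split' {ι : Type} (cb : κ → ι) (o o' : κ → ℤ) (g : GL κ F) (hg : g ∈ uni F cb o) :
    ∃ b ∈ uni F cb o ⊓ uni F cb (fun i => - o' i), ∃ a ∈ uni F cb o ⊓ upp F cb o',
      g = b * a := by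
  rw [← uniS_patUp, ← uniS_patDn]
  rw [uni_eq_uniS] at hg
  refine uniS_fact (fun i j => ?_) g hg
  show (cb i = cb j ∧ o i < o j) ↔ (cb i = cb j ∧ o i < o j ∧ o' j < o' i) ∨
    (cb i = cb j ∧ o i < o j ∧ o' i ≤ o' j)
  have := le_or_gt (o' i) (o' j)
  tauto

theorem upp_meet {ι ι' : Type} (c₂ : κ → ι) (cb : κ → ι') (o₁ o₂ : κ → ℤ)
    (h : ∀ i j, c₂ i = c₂ j ↔ cb i = cb j ∧ o₂ i = o₂ j) (l n : GL κ F) (hl : l ∈ lev F c₂)
    (hn : n ∈ uni F cb o₂) (hln : l * n ∈ upp F cb o₁) : l ∈ upp F cb o₁ ∧ n ∈ upp F cb o₁ := by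
  have h1 : l ∈ upp F cb o₁ := by
    rw [mem_upp]
    refine ⟨fun i j hij => hl i j (fun h' => hij ((h i j).1 h').1), fun i j hij => ?_⟩
    by_cases hc : c₂ i = c₂ j
    · have h2 := hln.2 i j hij
      rw [Units.val_mul, Matrix.mul_apply, Finset.sum_eq_single j] at h2
      · rwa [hn.2 j j rfl, Matrix.one_apply_eq, mul_one] at h2
      · intro k _ hk
        by_cases hik : c₂ i = c₂ k
        · have h3 : o₂ k = o₂ j := ((h i k).1 hik).2.symm.trans ((h i j).1 hc).2
          rw [hn.2 k j h3, Matrix.one_apply_ne hk, mul_zero]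
        · rw [hl i k hik, zero_mul]
      · intro h'
        exact absurd (Finset.mem_univ j) h'
    · exact hl i j hc
  refine ⟨h1, ?_⟩
  have h2 := (upp F cb o₁).mul_mem ((upp F cb o₁).inv_mem h1) hln
  rwa [inv_mul_cancel_left] at h2

/-- the product map `upp × opposite uni` is injective -/
theorem upp_opp_unique {ι : Type} (cb : κ → ι) (o : κ → ℤ) (p p' n n' : GL κ F)
    (hp : p ∈ upp F cb o) (hp' : p' ∈ upp F cb o) (hn : n ∈ uni F cb (fun i => - o i))
    (hn' : n' ∈ uni F cb (fun i => - o i)) (he : p * n = p' * n') : p = p' ∧ n = n' := by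
  have h1 : p'⁻¹ * p = n' * n⁻¹ := by
    rw [eq_mul_inv_iff_mul_eq, mul_assoc, he, inv_mul_cancel_left]
  have h2 : p'⁻¹ * p ∈ upp F cb o := (upp F cb o).mul_mem ((upp F cb o).inv_mem hp') hp
  have h3 : p'⁻¹ * p ∈ uni F cb (fun i => - o i) :=
    h1 ▸ (uni F cb (fun i => - o i)).mul_mem hn' ((uni F cb (fun i => - o i)).inv_mem hn)
  have h4 : p'⁻¹ * p = 1 := by
    apply Units.ext
    ext i j
    rw [Units.val_one]
    rcases lt_trichotomy (o i) (o j) with h | h | h
    · rw [h3.1.2 i j (neg_lt_neg h), Matrix.one_apply_ne]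
      rintro rfl
      exact lt_irrefl _ h
    · exact h3.2 i j (congrArg Neg.neg h)
    · rw [h2.2 i j h, Matrix.one_apply_ne]
      rintro rfl
      exact lt_irrefl _ h
  have h5 : p = p' := by
    rw [inv_mul_eq_one] at h4
    exact h4.symm
  refine ⟨h5, ?_⟩
  rw [h5] at he
  exact mul_left_cancel he

end

end Pool.Agent.Lib.MP_ca1492_al.P
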