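import Mathlib
import Pool.Agent.Lib.MP_ca1492_al.P.Cong

/-!
# MP_ca1492_al, p-adic side, module Iwasawa: `lev cb = upp · (Kc 0 ∩ lev cb)`

Proof. Choose an injective function `o' : κ → ℕ` (or ℤ) with `o i < o j → o' i < o' j`
(lexicographic refinement of `o` by `Fintype.equivFin κ`). We show: for `g ∈ lev cb` there is
`k ∈ Kc 0 ∩ lev cb` such that `g k` is upper triangular for `o'` (then `g k ∈ upp F cb o`,
`g = (g k) k⁻¹`). Process the rows in decreasing order of `o'`. Statement `P(r)`: there is `k` such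
that `(g k) i j = 0` whenever `o' j < o' i` and `o' i ≥ r`. Step for the row `i` with `o' i = r - 1`:
among the columns `j` with `cb j = cb i`, `o' j ≤ o' i` choose `j₀` such that the entry
`(g k) i j₀` is nonzero with minimal valuation (if all these entries vanish there is nothing to
do; in fact it cannot happen). Multiply on the right by the permutation matrix exchanging `i` and
`j₀` (in `Kc 0 ∩ lev cb`), and then by the elementary matrices which subtract the integral multiple
`x_ij / x_ii` of the column `i` from the columns `j`, `o' j < o' i`, `cb j = cb i` (all together: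
one unipotent matrix with integral entries, its inverse has the opposite entries). The rows `i'`
with `o' i' > o' i` are not changed in the columns `j`, `o' j < o' i'`, because only columns `j`
with `o' j ≤ o' i` are combined and there these rows are zero.
-/

set_option autoImplicit false

namespace Pool.Agent.Lib.MP_ca1492_al.P

open Topology Matrix ValuativeRel

noncomputable section

variable {F : Type} [Field F] [ValuativeRel F] [TopologicalSpace F]
  [IsNonarchimedeanLocalField F]
variable {κ : Type} [Fintype κ] [DecidableEq κ]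

theorem Iwasawa_one_mem : (1 : F) ∈ lat F 0 := Or.inr (by rw [ordF_one])

theorem Iwasawa_mem_Kc {g : GL κ F} (h1 : ∀ i j, (g : Matrix κ κ F) i j ∈ lat F 0)
    (h2 : ∀ i j, ((g⁻¹ : GL κ F) : Matrix κ κ F) i j ∈ lat F 0) : g ∈ Kc F κ 0 := by
  have h3 : ∀ i j, (1 : Matrix κ κ F) i j ∈ lat F 0 := by
    intro i j
    rw [Matrix.one_apply]
    split_ifs
    · exact Iwasawa_one_mem
    · exact (lat F 0).zero_mem
  refine ⟨fun i j => ?_, fun i j => ?_⟩
  · rw [Matrix.sub_apply, Nat.cast_zero]
    exact (lat F 0).sub_mem (h1 i j) (h3 i j)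
  · rw [Matrix.sub_apply, Nat.cast_zero]
    exact (lat F 0).sub_mem (h2 i j) (h3 i j)

theorem permG_mem_Kc (w : Equiv.Perm κ) : permG F w ∈ Kc F κ 0 := by
  refine Iwasawa_mem_Kc (fun i j => ?_) (fun i j => ?_)
  · change (if w j = i then (1 : F) else 0) ∈ lat F 0
    split_ifs
    · exact Iwasawa_one_mem
    · exact (lat F 0).zero_mem
  · change (if w i = j then (1 : F) else 0) ∈ lat F 0
    split_ifs
    · exact Iwasawa_one_mem
    · exact (lat F 0).zero_mem

theorem permG_mem_lev {ι : Type} (cb : κ → ι) (w : Equiv.Perm κ) (hw : ∀ i, cb (w i) = cb i) :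
    permG F w ∈ lev F cb := by
  intro i j hij
  change (if w j = i then (1 : F) else 0) = 0
  rw [if_neg]
  intro h
  apply hij
  rw [← h, hw]

/-- a matrix with one nonzero row -/
def Iwasawa_E {F : Type} [Field F] {κ : Type} [DecidableEq κ] (i : κ) (t : κ → F) :
    Matrix κ κ F :=
  Matrix.of fun a b => if a = i then t b else 0

theorem Iwasawa_mul_E {F : Type} [Field F] {κ : Type} [Fintype κ] [DecidableEq κ] (i : κ)
    (t : κ → F) (y : Matrix κ κ F) (a b : κ) : (y * Iwasawa_E i t) a b = y a i * t b := by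
  rw [Matrix.mul_apply, Finset.sum_eq_single i]
  · change y a i * (if i = i then t b else 0) = _
    rw [if_pos rfl]
  · intro c _ hc
    change y a c * (if c = i then t b else 0) = 0
    rw [if_neg hc, mul_zero]
  · intro h
    exact absurd (Finset.mem_univ _) h

theorem Iwasawa_EE {F : Type} [Field F] {κ : Type} [Fintype κ] [DecidableEq κ] (i : κ)
    (t : κ → F) (ht : t i = 0) : Iwasawa_E i t * Iwasawa_E i t = 0 := by
  ext a b
  rw [Iwasawa_mul_E]
  change (if a = i then t i else 0) * t b = 0
  rw [ht]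
  simp

/-- the elementary unipotent matrix -/
def Iwasawa_U {F : Type} [Field F] {κ : Type} [Fintype κ] [DecidableEq κ] (i : κ)
    (t : κ → F) (ht : t i = 0) : GL κ F where
  val := 1 - Iwasawa_E i t
  inv := 1 + Iwasawa_E i t
  val_inv := by
    have h := Iwasawa_EE i t ht
    rw [sub_mul, mul_add, mul_add, one_mul, one_mul, mul_one, h]
    simp
  inv_val := by
    have h := Iwasawa_EE i t ht
    rw [add_mul, mul_sub, mul_sub, one_mul, one_mul, mul_one, h]
    simp

theorem Iwasawa_U_mem (i : κ) (t : κ → F) (ht : t i = 0) (h : ∀ b, t b ∈ lat F 0) :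
    Iwasawa_U i t ht ∈ Kc F κ 0 := by
  have h3 : ∀ i j, (1 : Matrix κ κ F) i j ∈ lat F 0 := by
    intro i j
    rw [Matrix.one_apply]
    split_ifs
    · exact Iwasawa_one_mem
    · exact (lat F 0).zero_mem
  have h4 : ∀ a b, Iwasawa_E i t a b ∈ lat F 0 := by
    intro a b
    change (if a = i then t b else 0) ∈ lat F 0
    split_ifs
    · exact h b
    · exact (lat F 0).zero_mem
  refine Iwasawa_mem_Kc (fun a b => ?_) (fun a b => ?_)
  · change ((1 : Matrix κ κ F) - Iwasawa_E i t) a b ∈ lat F 0
    rw [Matrix.sub_apply]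
    exact (lat F 0).sub_mem (h3 a b) (h4 a b)
  · change ((1 : Matrix κ κ F) + Iwasawa_E i t) a b ∈ lat F 0
    rw [Matrix.add_apply]
    exact (lat F 0).add_mem (h3 a b) (h4 a b)

theorem Iwasawa_U_lev {ι : Type} (cb : κ → ι) (i : κ) (t : κ → F) (ht : t i = 0)
    (h : ∀ b, cb b ≠ cb i → t b = 0) : Iwasawa_U i t ht ∈ lev F cb := by
  intro a b hab
  change ((1 : Matrix κ κ F) - Iwasawa_E i t) a b = 0
  rw [Matrix.sub_apply, Matrix.one_apply_ne (fun h' => hab (by rw [h']))]
  change 0 - (if a = i then t b else 0) = 0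
  by_cases hai : a = i
  · rw [if_pos hai, h b (by rw [← hai]; exact hab.symm), sub_zero]
  · rw [if_neg hai, sub_zero]

theorem Iwasawa_mul_perm (y : GL κ F) (w : Equiv.Perm κ) (a b : κ) :
    ((y * permG F w : GL κ F) : Matrix κ κ F) a b = (y : Matrix κ κ F) a (w b) := by
  rw [Units.val_mul, Matrix.mul_apply, Finset.sum_eq_single (w b)]
  · change (y : Matrix κ κ F) a (w b) * (if w b = w b then (1 : F) else 0) = _
    rw [if_pos rfl, mul_one]
  · intro c _ hc
    change (y : Matrix κ κ F) a c * (if w b = c then (1 : F) else 0) = 0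
    rw [if_neg (Ne.symm hc), mul_zero]
  · intro h
    exact absurd (Finset.mem_univ _) h

/-- processing one row -/
theorem Iwasawa_step {ι : Type} (cb : κ → ι) (o : κ → ℤ) (ho : Function.Injective o)
    (g : GL κ F) (hg : g ∈ lev F cb) (i : κ)
    (hr : ∀ a, o i < o a → ∀ j, o j < o a → (g : Matrix κ κ F) a j = 0) :
    ∃ k ∈ Kc F κ 0, k ∈ lev F cb ∧ ∀ a, o i ≤ o a → ∀ j, o j < o a →
      ((g * k : GL κ F) : Matrix κ κ F) a j = 0 := by
  classical
  set J : Finset κ := Finset.univ.filter fun j => cb j = cb i ∧ o j ≤ o i ∧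
    (g : Matrix κ κ F) i j ≠ 0 with hJ
  by_cases hJe : J.Nonempty
  · obtain ⟨j₀, hj₀, hmin⟩ := Finset.exists_min_image J
      (fun j => ordF F ((g : Matrix κ κ F) i j)) hJe
    obtain ⟨hcb, hoj, hne⟩ : cb j₀ = cb i ∧ o j₀ ≤ o i ∧ (g : Matrix κ κ F) i j₀ ≠ 0 := by
      simpa [hJ] using hj₀
    set w : Equiv.Perm κ := Equiv.swap i j₀ with hw
    have hwc : ∀ b, cb (w b) = cb b := by
      intro b
      rw [hw, Equiv.swap_apply_def]
      split_ifs with h1 h2
      · rw [h1, hcb]
      · rw [h2, hcb]
      · rfl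
    have hwo : ∀ r : ℤ, o i ≤ r → ∀ b, o b ≤ r → o (w b) ≤ r := by
      intro r hr' b hb
      rw [hw, Equiv.swap_apply_def]
      split_ifs with h1 h2
      · omega
      · exact hr'
      · exact hb
    have hwi : w i = j₀ := Equiv.swap_apply_left i j₀
    set t : κ → F := fun b => if cb b = cb i ∧ o b < o i then
      (g : Matrix κ κ F) i (w b) / (g : Matrix κ κ F) i j₀ else 0 with ht
    have hti : t i = 0 := by
      rw [ht]
      exact if_neg fun h => lt_irrefl _ h.2
    have htm : ∀ b, t b ∈ lat F 0 := by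
      intro b
      by_cases hb : cb b = cb i ∧ o b < o i
      · have h1 : t b = (g : Matrix κ κ F) i (w b) / (g : Matrix κ κ F) i j₀ := if_pos hb
        rw [h1]
        by_cases h2 : (g : Matrix κ κ F) i (w b) = 0
        · rw [h2, zero_div]
          exact (lat F 0).zero_mem
        · refine Or.inr ?_
          have h3 : w b ∈ J := by
            rw [hJ, Finset.mem_filter]
            exact ⟨Finset.mem_univ _, (hwc b).trans hb.1, hwo _ le_rfl b hb.2.le, h2⟩
          have h4 : ordF F ((g : Matrix κ κ F) i j₀) ≤ ordF F ((g : Matrix κ κ F) i (w b)) :=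
            hmin _ h3
          rw [div_eq_mul_inv, ordF_mul _ _ h2 (inv_ne_zero hne), ordF_inv]
          omega
      · have h1 : t b = 0 := if_neg hb
        rw [h1]
        exact (lat F 0).zero_mem
    refine ⟨permG F w * Iwasawa_U i t hti, (Kc F κ 0).mul_mem (permG_mem_Kc w)
      (Iwasawa_U_mem i t hti htm), ?_, ?_⟩
    · refine (lev F cb).mul_mem (permG_mem_lev cb w hwc) (Iwasawa_U_lev cb i t hti ?_)
      intro b hb
      exact if_neg fun h => hb h.1
    · have hz : ∀ a b, ((g * (permG F w * Iwasawa_U i t hti) : GL κ F) : Matrix κ κ F) a b =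
          (g : Matrix κ κ F) a (w b) - (g : Matrix κ κ F) a j₀ * t b := by
        intro a b
        rw [← mul_assoc, Units.val_mul]
        change (((g * permG F w : GL κ F) : Matrix κ κ F) * (1 - Iwasawa_E i t)) a b = _
        rw [mul_sub, mul_one, Matrix.sub_apply, Iwasawa_mul_E, Iwasawa_mul_perm,
          Iwasawa_mul_perm, hwi]
      intro a ha j hj
      rw [hz]
      rcases lt_or_eq_of_le ha with ha' | ha'
      · have h1 : (g : Matrix κ κ F) a (w j) = 0 := by
          apply hr a ha'
          have := hwo (o a - 1) (by omega) j (by omega)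
          omega
        have h2 : (g : Matrix κ κ F) a j₀ = 0 := hr a ha' j₀ (by omega)
        rw [h1, h2]
        simp
      · have h0 : a = i := (ho ha').symm
        subst h0
        by_cases hc : cb j = cb a
        · have h1 : t j = (g : Matrix κ κ F) a (w j) / (g : Matrix κ κ F) a j₀ :=
            if_pos ⟨hc, hj⟩
          rw [h1, mul_div_cancel₀ _ hne, sub_self]
        · have h1 : t j = 0 := if_neg fun h => hc h.1
          have h2 : (g : Matrix κ κ F) a (w j) = 0 := by
            apply hg
            rw [hwc]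
            exact Ne.symm hc
          rw [h1, h2]
          simp
  · rw [Finset.not_nonempty_iff_eq_empty] at hJe
    refine ⟨1, (Kc F κ 0).one_mem, (lev F cb).one_mem, ?_⟩
    intro a ha j hj
    rw [mul_one]
    rcases lt_or_eq_of_le ha with ha' | ha'
    · exact hr a ha' j hj
    · have h0 : a = i := (ho ha').symm
      subst h0
      by_contra h1
      have h2 : j ∈ J := by
        rw [hJ, Finset.mem_filter]
        refine ⟨Finset.mem_univ _, ?_, hj.le, h1⟩
        by_contra hc
        exact h1 (hg a j (Ne.symm hc))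
      rw [hJe] at h2
      exact absurd h2 (Finset.notMem_empty _)

theorem Iwasawa_inj {ι : Type} (cb : κ → ι) (o : κ → ℤ) (ho : Function.Injective o) (g : GL κ F)
    (hg : g ∈ lev F cb) :
    ∃ k ∈ Kc F κ 0, k ∈ lev F cb ∧ ∀ a j, o j < o a →
      ((g * k : GL κ F) : Matrix κ κ F) a j = 0 := by
  classical
  obtain ⟨M, hM⟩ : ∃ M : ℤ, ∀ a, o a ≤ M :=
    ⟨∑ b, |o b|, fun a => (le_abs_self _).trans
      (Finset.single_le_sum (f := fun b => |o b|) (fun b _ => abs_nonneg _) (Finset.mem_univ a))⟩
  have key : ∀ m : ℕ, ∃ k ∈ Kc F κ 0, k ∈ lev F cb ∧ ∀ a, M - m < o a → ∀ j, o j < o a →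
      ((g * k : GL κ F) : Matrix κ κ F) a j = 0 := by
    intro m
    induction m with
    | zero =>
      refine ⟨1, (Kc F κ 0).one_mem, (lev F cb).one_mem, fun a ha => ?_⟩
      have := hM a
      simp at ha
      omega
    | succ m ih =>
      obtain ⟨k, hk, hkl, h⟩ := ih
      by_cases hi : ∃ i, o i = M - m
      · obtain ⟨i, hi⟩ := hi
        obtain ⟨k', hk', hkl', h'⟩ := Iwasawa_step cb o ho (g * k) ((lev F cb).mul_mem hg hkl) i
          (fun a ha => h a (by omega))
        refine ⟨k * k', (Kc F κ 0).mul_mem hk hk', (lev F cb).mul_mem hkl hkl', ?_⟩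
        intro a ha j hj
        rw [← mul_assoc]
        refine h' a ?_ j hj
        push_cast at ha
        omega
      · refine ⟨k, hk, hkl, fun a ha => h a ?_⟩
        have h1 : o a ≠ M - m := fun h2 => hi ⟨a, h2⟩
        push_cast at ha
        omega
  obtain ⟨k, hk, hkl, h⟩ := key (M + ∑ b, |o b| + 1).toNat
  refine ⟨k, hk, hkl, fun a j hj => h a ?_ j hj⟩
  have h1 : |o a| ≤ ∑ b, |o b| :=
    Finset.single_le_sum (f := fun b => |o b|) (fun b _ => abs_nonneg _) (Finset.mem_univ a)
  have h2 := neg_abs_le (o a)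
  have h3 := Int.self_le_toNat (M + ∑ b, |o b| + 1)
  omega

theorem iwasawa {ι : Type} (cb : κ → ι) (o : κ → ℤ) (g : GL κ F) (hg : g ∈ lev F cb) :
    ∃ p ∈ upp F cb o, ∃ k ∈ Kc F κ 0, k ∈ lev F cb ∧ g = p * k := by
  classical
  set N : ℕ := Fintype.card κ with hN
  set e := Fintype.equivFin κ with he
  set o' : κ → ℤ := fun i => o i * N + ((e i).val : ℤ) with ho'
  have hlt : ∀ i, ((e i).val : ℤ) < N := fun i => by exact_mod_cast (e i).isLt
  have hmono : ∀ i j, o j < o i → o' j < o' i := by
    intro i j hij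
    have h1 := hlt j
    have h2 : (0 : ℤ) ≤ ((e i).val : ℤ) := by positivity
    have h3 : (o j + 1) * (N : ℤ) ≤ o i * N := by
      apply mul_le_mul_of_nonneg_right (by omega)
      positivity
    rw [ho']
    simp only
    nlinarith
  have hinj : Function.Injective o' := by
    intro i j hij
    rcases lt_trichotomy (o i) (o j) with h | h | h
    · exact absurd hij (ne_of_lt (hmono j i h))
    · rw [ho'] at hij
      simp only [h] at hij
      have h1 : (e i).val = (e j).val := by
        have := add_left_cancel hij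
        exact_mod_cast this
      exact e.injective (Fin.ext h1)
    · exact absurd hij.symm (ne_of_lt (hmono i j h))
  obtain ⟨k, hk, hkl, h⟩ := Iwasawa_inj cb o' hinj g hg
  refine ⟨g * k, ⟨(lev F cb).mul_mem hg hkl, fun i j hij => h i j (hmono i j hij)⟩, k⁻¹,
    (Kc F κ 0).inv_mem hk, (lev F cb).inv_mem hkl, ?_⟩
  rw [mul_inv_cancel_right]

end

end Pool.Agent.Lib.MP_ca1492_al.P
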