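import Mathlib
import Pool.Agent.Lib.MP_ca1492_al.P.CGLb
import Pool.Agent.Lib.MP_ca1492_al.P.CLive
import Pool.Agent.Lib.MP_ca1492_al.P.COrd
import Pool.Agent.Lib.MP_ca1492_al.P.CSurj
import Pool.Agent.Lib.MP_ca1492_al.P.Cell0
import Pool.Agent.Lib.MP_ca1492_al.P.Fact
import Pool.Agent.Lib.MP_ca1492_al.P.Frob
import Pool.Agent.Lib.MP_ca1492_al.P.Iwasawa

/-!
# MP_ca1492_al, p-adic side, module CCell: one step of the geometric lemma for block groups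

Setting: `H = lev F cb`, `D₁ = parD c₁ cb o₁ h₁`, `D₂ = parD c₂ cb o₂ h₂`, `P₁ = upp cb o₁`,
`P₂ = upp cb o₂`, `w` a permutation with `cb ∘ w = cb`, `Ω' ⊆ H` open and left `P₁`, right
`P₂`-stable, `Ω = Ω' ∪ P₁ w P₂` open, the union disjoint. `glCD ...` = cell data (module CGLb).

* `gl_csupp`: `csupp_of` (module COrbB) with `Q = P₂` (`upp_decomp`), `K = Kc 0 ∩ lev cb`
  (`iwasawa`), `mem_IndSp_iff`.
* `avg_apply_eq`: `(avg (D₁.Ind σ) K f).1 g = mean K (x ↦ f.1 (g x))`: `avg_mean_map` for the linear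
  map evaluation at `g`.
* `gl_step_dead`: `dead_cell` gives `K ≤ N₂` compact with `mean K₂ (f (g ·)) = 0` for `g` in the cell
  and all larger `K₂`; for `g ∉ Ω`: `g K₂ ∩ Ω = ∅`, so all values vanish.
* `gl_step_live`: the same with `live_cell`.
* `gl_surj`: `live_surj` with `N' = w⁻¹ uni(cb, -o₁) w ∩ ...`: take
  `N' = uni F cb (-(o₁ ∘ w))` (= `w⁻¹ uni(cb,-o₁) w`); `w⁻¹ P₁ w = upp cb (o₁ ∘ w)`,
  `upp cb (o₁∘w) ∩ N' = 1`; `upp cb o * uni cb (-o)` is open (`big_open`) and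
  `uni cb o₂ = (uni cb o₂ ∩ upp cb (o₁∘w)) (uni cb o₂ ∩ N')` (`uni_split`).
* `big_open`: `upp cb o * uni cb (-o)` is the cell `P 1 P⁻`, `P⁻ = upp cb (-o) = lev c * uni cb (-o)`.
  All the ranks `rkc cb o (-o) x a b` take their maximal value at `1` (for the permutation `1`:
  `#{j | cb j = x, -o j < b, a ≤ o j}` is the minimum of the number of rows and of the number of
  columns of the corner, because the sets `{o ≥ a}` and `{o > -b}` are comparable), so the cell is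
  `{g | rkc g ≥ rkc 1 for all x, a, b in the images}` (`bruhat`, `dc_of_rk`, `rkc_eq_of_image`), open by
  `rkc_open`.
* `uni_split`: for `n ∈ uni cb o₂`, let `o = o₁ ∘ w`. The set of `(i,j)` with `cb i = cb j`,
  `o₂ i < o₂ j` is the disjoint union of the transitive sets `S₁ = {o i ≤ o j}`, `S₂ = {o i > o j}`.
  Every `n` is uniquely `b n'`. Induction: refine; or: `uni cb o₂` is a unipotent group, use the
  lower central filtration by `o₂`-distance: if `n ≡ 1` in all entries with `o₂`-distance `< d`, write the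
  entries of distance `d` as sum of an `S₁` part and an `S₂` part: `n ≡ (1 + x₁)(1 + x₂)` modulo
  distance `> d`, `1 + x₁ ∈ uniS S₁`, `1 + x₂ ∈ uniS S₂`, and `(1+x₁)⁻¹ n (1+x₂)⁻¹` is `≡ 1` up to
  distance `d`; then insert: if `n' = b m` then `n = (1+x₁) b m (1+x₂)`. (helper2 proves this in
  `P/Pat.lean` as `uniS S = uniS S₁ * uniS S₂`; cite it if it is there.)
-/

set_option autoImplicit false

namespace Pool.Agent.Lib.MP_ca1492_al.P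

open Topology Matrix ValuativeRel

noncomputable section

variable {F : Type} [Field F] [ValuativeRel F] [TopologicalSpace F]
  [IsNonarchimedeanLocalField F] {κ : Type} [Fintype κ] [DecidableEq κ]
variable {E E' : Type} [AddCommGroup E] [Module ℂ E] [AddCommGroup E'] [Module ℂ E']
variable {ι₀ ι₁ ι₂ : Type}

/-- one step in a chain of open sets: `Ω = Ω' ∪ P₁ w P₂` -/
structure CStep (cb : κ → ι₀) (o₁ o₂ : κ → ℤ) (w : Equiv.Perm κ) (Ω' Ω : Set (lev F cb)) :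
    Prop where
  hw : ∀ i, cb (w i) = cb i
  open' : IsOpen Ω'
  opn : IsOpen Ω
  left' : ∀ g p : lev F cb, p.1 ∈ upp F cb o₁ → g ∈ Ω' → p * g ∈ Ω'
  right' : ∀ g q : lev F cb, q.1 ∈ upp F cb o₂ → g ∈ Ω' → g * q ∈ Ω'
  union : ∀ g, g ∈ Ω ↔ g ∈ Ω' ∨ g ∈ gcell (F := F) cb o₁ o₂ w
  disj : ∀ g, g ∈ gcell (F := F) cb o₁ o₂ w → g ∉ Ω'

/-- the functions in the induced space vanishing off `Ω` -/
def IndOn {G : Type} [Group G] [TopologicalSpace G] {H M : Subgroup G} (D : PD H M) {E : Type}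
    [AddCommGroup E] [Module ℂ E] (σ : Representation ℂ M E) (Ω : Set H) :
    Submodule ℂ (D.IndSp σ) where
  carrier := {f | ∀ g, g ∉ Ω → f.1 g = 0}
  add_mem' := by
    intro a b ha hb g hg
    show a.1 g + b.1 g = 0
    rw [ha g hg, hb g hg, add_zero]
  zero_mem' := fun g _ => rfl
  smul_mem' := by
    intro c a ha g hg
    show c • a.1 g = 0
    rw [ha g hg, smul_zero]

theorem CCell_split (cb : κ → ι₀) (o₂ o : κ → ℤ) (n : GL κ F) (hn : n ∈ uni F cb o₂) :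
    ∃ b ∈ uni F cb o₂, b ∈ upp F cb o ∧ ∃ n' ∈ uni F cb o₂, n' ∈ uni F cb (fun i => - o i) ∧
      n = b * n' := by
  obtain ⟨a, ha, b, hb, h⟩ := uni_split cb o₂ o n hn
  exact ⟨a, ha.1, ha.2, b, hb.1, hb.2, h⟩

theorem big_open (cb : κ → ι₀) (o : κ → ℤ) :
    IsOpen {g : lev F cb | ∃ p ∈ upp F cb o, ∃ n ∈ uni F cb (fun i => - o i), g.1 = p * n} := by
  obtain ⟨U, hU, h⟩ := open_cell (F := F) cb o
  have h1 : {g : lev F cb | ∃ p ∈ upp F cb o, ∃ n ∈ uni F cb (fun i => - o i), g.1 = p * n} =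
      Subtype.val ⁻¹' U := by
    ext g
    constructor
    · intro hg
      have h2 : g.1 ∈ {g : GL κ F | ∃ p ∈ upp F cb o, ∃ n ∈ uni F cb (fun i => - o i),
        g = p * n} := hg
      rw [h] at h2
      exact h2.2
    · intro hg
      have h2 : g.1 ∈ (lev F cb : Set (GL κ F)) ∩ U := ⟨g.2, hg⟩
      rw [← h] at h2
      exact h2
  rw [h1]
  exact hU.preimage continuous_subtype_val

theorem big_disj (cb : κ → ι₀) (o : κ → ℤ) (g : GL κ F) (h : g ∈ upp F cb o)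
    (h' : g ∈ uni F cb (fun i => - o i)) : g = 1 := by
  apply Units.ext
  ext i j
  rw [Units.val_one]
  rcases lt_trichotomy (o i) (o j) with h1 | h1 | h1
  · rw [h'.1.2 i j (by show - o j < - o i; omega), Matrix.one_apply_ne]
    rintro rfl
    exact lt_irrefl _ h1
  · exact h'.2 i j (by show - o i = - o j; omega)
  · rw [h.2 i j h1, Matrix.one_apply_ne]
    rintro rfl
    exact lt_irrefl _ h1

theorem CCell_dc (cb : κ → ι₀) (o₁ : κ → ℤ) (c₂ : κ → ι₂) (o₂ : κ → ℤ)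
    (h₂ : ∀ i j, c₂ i = c₂ j ↔ cb i = cb j ∧ o₂ i = o₂ j) (w : Equiv.Perm κ)
    (hw : ∀ i, cb (w i) = cb i) (g : lev F cb) :
    g ∈ dc (glCD (F := F) cb o₁ c₂ o₂ h₂ w hw).P (PPs F cb o₂)
      (glCD (F := F) cb o₁ c₂ o₂ h₂ w hw).w ↔ g ∈ gcell (F := F) cb o₁ o₂ w := by
  constructor
  · rintro ⟨p, hp, q, hq, rfl⟩
    exact ⟨p.1, hp, q.1, hq, rfl⟩
  · rintro ⟨p, hp, q, hq, h⟩
    exact ⟨⟨p, hp.1⟩, hp, ⟨q, hq.1⟩, hq, Subtype.ext h⟩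

theorem CCell_cell (cb : κ → ι₀) (o₁ : κ → ℤ) (c₂ : κ → ι₂) (o₂ : κ → ℤ)
    (h₂ : ∀ i j, c₂ i = c₂ j ↔ cb i = cb j ∧ o₂ i = o₂ j) (w : Equiv.Perm κ)
    (hw : ∀ i, cb (w i) = cb i) (g : lev F cb) (hg : g ∈ gcell (F := F) cb o₁ o₂ w) :
    g ∈ cell (glCD (F := F) cb o₁ c₂ o₂ h₂ w hw).P (glCD (F := F) cb o₁ c₂ o₂ h₂ w hw).M
      (glCD (F := F) cb o₁ c₂ o₂ h₂ w hw).N (glCD (F := F) cb o₁ c₂ o₂ h₂ w hw).w := by
  obtain ⟨p, hp, q, hq, h⟩ := hg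
  obtain ⟨m, hm, n, hn, hmn⟩ := (upp_decomp c₂ cb o₂ h₂ q).1 hq
  have hml : m ∈ lev F cb := lev_le c₂ cb (fun i j hij => ((h₂ i j).1 hij).1) hm
  refine ⟨⟨p, hp.1⟩, hp, ⟨m, hml⟩, hm, ⟨n, hn.1.1⟩, hn, Subtype.ext ?_⟩
  show g.1 = p * permG F w * m * n
  rw [h, hmn]
  simp only [mul_assoc]

section

variable (cb : κ → ι₀) (c₁ : κ → ι₁) (o₁ : κ → ℤ)
  (h₁ : ∀ i j, c₁ i = c₁ j ↔ cb i = cb j ∧ o₁ i = o₁ j) (c₂ : κ → ι₂) (o₂ : κ → ℤ)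
  (h₂ : ∀ i j, c₂ i = c₂ j ↔ cb i = cb j ∧ o₂ i = o₂ j) (w : Equiv.Perm κ)
  (Ω' Ω : Set (lev F cb)) (hs : CStep cb o₁ o₂ w Ω' Ω)
  (σ : Representation ℂ (lev F c₁) E)

include hs in
theorem CCell_out (g : lev F cb) (hg : g ∉ Ω) (x : lev F cb)
    (hx : x.1 ∈ upp F cb o₂) : g * x ∉ Ω := by
  intro h
  apply hg
  rw [hs.union] at h ⊢
  rcases h with h | ⟨p, hp, q, hq, h⟩
  · left
    have h1 := hs.right' (g * x) x⁻¹ ((upp F cb o₂).inv_mem hx) h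
    rwa [mul_inv_cancel_right] at h1
  · right
    refine ⟨p, hp, q * x.1⁻¹, (upp F cb o₂).mul_mem hq ((upp F cb o₂).inv_mem hx), ?_⟩
    have h1 : g.1 * x.1 = p * permG F w * q := h
    rw [← mul_assoc, ← h1, mul_inv_cancel_right]

include hs in
theorem gl_csupp (hσ : IsSm σ) (f : (parD c₁ cb o₁ h₁).IndSp σ)
    (hf : f ∈ IndOn (parD c₁ cb o₁ h₁) σ Ω) :
    (glCD (F := F) cb o₁ c₂ o₂ h₂ w hs.hw).Csupp f.1 := by
  haveI : T2Space (lev F cb) := lev_t2 cb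
  haveI : LocallyCompactSpace (lev F cb) := lev_locallyCompact cb
  haveI : SigmaCompactSpace (lev F cb) := lev_sigma cb
  have hU : Ω' ∪ dc (glCD (F := F) cb o₁ c₂ o₂ h₂ w hs.hw).P (PPs F cb o₂)
      (glCD (F := F) cb o₁ c₂ o₂ h₂ w hs.hw).w = Ω := by
    ext g
    rw [Set.mem_union, CCell_dc, hs.union]
  refine csupp_of (glCD (F := F) cb o₁ c₂ o₂ h₂ w hs.hw) (PPs F cb o₂)
    ((upp_isClosed cb o₂).preimage continuous_subtype_val) ?_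
    (((Kc F κ 0 ⊓ lev F cb : Subgroup (GL κ F)).subgroupOf (lev F cb) : Subgroup (lev F cb)) :
      Set (lev F cb))
    (CGLb_compact _ inf_le_right ((Kc_isCompact 0).inter_right (lev_isClosed cb))) ?_
    Ω' hs.open' (by rw [hU]; exact hs.opn)
    (fun g hg => hs.disj g ((CCell_dc cb o₁ c₂ o₂ h₂ w hs.hw g).1 hg)) (aP c₁ cb o₁ h₁ σ) f.1
    ((mem_IndSp_iff c₁ cb o₁ h₁ σ f.1).1 f.2) ?_
  · intro g
    constructor
    · intro hg
      obtain ⟨m, hm, n, hn, hmn⟩ := (upp_decomp c₂ cb o₂ h₂ g.1).1 hg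
      have hml : m ∈ lev F cb := lev_le c₂ cb (fun i j hij => ((h₂ i j).1 hij).1) hm
      exact ⟨⟨m, hml⟩, hm, ⟨n, hn.1.1⟩, hn, Subtype.ext hmn⟩
    · rintro ⟨m, hm, n, hn, rfl⟩
      exact (upp_decomp c₂ cb o₂ h₂ (m.1 * n.1)).2 ⟨m.1, hm, n.1, hn, rfl⟩
  · intro g
    obtain ⟨p, hp, k, hk, hkl, h⟩ := iwasawa cb o₁ g.1 g.2
    exact ⟨⟨p, hp.1⟩, hp, ⟨k, hkl⟩, ⟨hk, hkl⟩, Subtype.ext h⟩
  · intro g hg hg'
    apply hf
    rw [← hU]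
    rintro (h | h)
    · exact hg h
    · exact hg' h

theorem avg_apply_eq (hσ : IsSm σ) (K : Subgroup (lev F cb)) (hK : IsCompact (K : Set (lev F cb)))
    (f : (parD c₁ cb o₁ h₁).IndSp σ) (g : lev F cb) :
    (avg ((parD c₁ cb o₁ h₁).Ind σ) K f).1 g = mean K (fun x => f.1 (g * x)) := by
  let L : (parD c₁ cb o₁ h₁).IndSp σ →ₗ[ℂ] E :=
    { toFun := fun f => f.1 g
      map_add' := fun a b => rfl
      map_smul' := fun c a => rfl }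
  exact avg_mean_map ((parD c₁ cb o₁ h₁).Ind σ) (PD.ind_smooth _ σ) K hK f L

include hs in
theorem CCell_step (hσ : IsSm σ) (f : (parD c₁ cb o₁ h₁).IndSp σ)
    (hf : f ∈ IndOn (parD c₁ cb o₁ h₁) σ Ω)
    (h : ∃ K : Subgroup (lev F cb), K ≤ (uni F cb o₂).subgroupOf (lev F cb) ∧
      IsCompact (K : Set (lev F cb)) ∧ ∀ K₂ : Subgroup (lev F cb), K ≤ K₂ →
      K₂ ≤ (uni F cb o₂).subgroupOf (lev F cb) → IsCompact (K₂ : Set (lev F cb)) →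
      ∀ g ∈ cell (glCD (F := F) cb o₁ c₂ o₂ h₂ w hs.hw).P
        (glCD (F := F) cb o₁ c₂ o₂ h₂ w hs.hw).M (glCD (F := F) cb o₁ c₂ o₂ h₂ w hs.hw).N
        (glCD (F := F) cb o₁ c₂ o₂ h₂ w hs.hw).w, mean K₂ (fun x => f.1 (g * x)) = 0) :
    ∃ K : Subgroup (lev F cb), K ≤ (uni F cb o₂).subgroupOf (lev F cb) ∧
      IsCompact (K : Set (lev F cb)) ∧ ∀ K₂ : Subgroup (lev F cb), K ≤ K₂ →
      K₂ ≤ (uni F cb o₂).subgroupOf (lev F cb) → IsCompact (K₂ : Set (lev F cb)) →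
      avg ((parD c₁ cb o₁ h₁).Ind σ) K₂ f ∈ IndOn (parD c₁ cb o₁ h₁) σ Ω' := by
  obtain ⟨K, hK, hKc, h⟩ := h
  refine ⟨K, hK, hKc, fun K₂ h1 h2 h3 g hg => ?_⟩
  rw [avg_apply_eq cb c₁ o₁ h₁ σ hσ K₂ h3 f g]
  by_cases hgΩ : g ∈ Ω
  · rcases (hs.union g).1 hgΩ with h4 | h4
    · exact absurd h4 hg
    · exact h K₂ h1 h2 h3 g (CCell_cell cb o₁ c₂ o₂ h₂ w hs.hw g h4)
  · rw [mean_congr K₂ _ (fun _ => (0 : E)) (fun x hx => hf _ (CCell_out cb o₁ o₂ w Ω' Ω hs g hgΩ x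
      (h2 hx).1))]
    exact mean_const K₂ 0

include h₂ hs in
theorem gl_step_dead (hσ : IsSm σ) (hc : Cusp c₁ σ)
    (hd : ¬ ∀ i j, c₁ (w i) = c₁ (w j) → c₂ i = c₂ j) (f : (parD c₁ cb o₁ h₁).IndSp σ)
    (hf : f ∈ IndOn (parD c₁ cb o₁ h₁) σ Ω) :
    ∃ K : Subgroup (lev F cb), K ≤ (uni F cb o₂).subgroupOf (lev F cb) ∧
      IsCompact (K : Set (lev F cb)) ∧ ∀ K₂ : Subgroup (lev F cb), K ≤ K₂ →
      K₂ ≤ (uni F cb o₂).subgroupOf (lev F cb) → IsCompact (K₂ : Set (lev F cb)) →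
      avg ((parD c₁ cb o₁ h₁).Ind σ) K₂ f ∈ IndOn (parD c₁ cb o₁ h₁) σ Ω' :=
  CCell_step cb c₁ o₁ h₁ c₂ o₂ h₂ w Ω' Ω hs σ hσ f hf
    (dead_cell (glCD (F := F) cb o₁ c₂ o₂ h₂ w hs.hw) (aP c₁ cb o₁ h₁ σ)
      (aP_smooth c₁ cb o₁ h₁ σ hσ) (gl_dead cb c₁ o₁ h₁ c₂ o₂ h₂ w hs.hw σ hc hd) f.1
      ((mem_IndSp_iff c₁ cb o₁ h₁ σ f.1).1 f.2)
      (gl_csupp cb c₁ o₁ h₁ c₂ o₂ h₂ w Ω' Ω hs σ hσ f hf))

include hs in
theorem gl_step_live (hσ : IsSm σ)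
    (hl : ∀ i j, c₁ (w i) = c₁ (w j) → c₂ i = c₂ j) (f : (parD c₁ cb o₁ h₁).IndSp σ)
    (hf : f ∈ IndOn (parD c₁ cb o₁ h₁) σ Ω)
    (h0 : ∀ m : lev F cb, m.1 ∈ lev F c₂ →
      (glCD (F := F) cb o₁ c₂ o₂ h₂ w hs.hw).Lam f.1 m = 0) :
    ∃ K : Subgroup (lev F cb), K ≤ (uni F cb o₂).subgroupOf (lev F cb) ∧
      IsCompact (K : Set (lev F cb)) ∧ ∀ K₂ : Subgroup (lev F cb), K ≤ K₂ →
      K₂ ≤ (uni F cb o₂).subgroupOf (lev F cb) → IsCompact (K₂ : Set (lev F cb)) →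
      avg ((parD c₁ cb o₁ h₁).Ind σ) K₂ f ∈ IndOn (parD c₁ cb o₁ h₁) σ Ω' :=
  CCell_step cb c₁ o₁ h₁ c₂ o₂ h₂ w Ω' Ω hs σ hσ f hf
    (live_cell (glCD (F := F) cb o₁ c₂ o₂ h₂ w hs.hw) (aP c₁ cb o₁ h₁ σ)
      (gl_live cb c₁ o₁ h₁ c₂ o₂ h₂ w hs.hw σ hl) f.1
      ((mem_IndSp_iff c₁ cb o₁ h₁ σ f.1).1 f.2)
      (gl_csupp cb c₁ o₁ h₁ c₂ o₂ h₂ w Ω' Ω hs σ hσ f hf) (fun m hm => h0 m hm))

theorem CCell_conj (w : Equiv.Perm κ) (hw : ∀ i, cb (w i) = cb i) (x : GL κ F)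
    (hx : x ∈ lev F cb) :
    permG F w * x * (permG F w)⁻¹ ∈ upp F cb o₁ ↔ x ∈ upp F cb (fun i => o₁ (w i)) := by
  have hwl : permG F w ∈ lev F cb := permG_mem_lev' cb w hw
  constructor
  · intro h
    refine ⟨hx, fun i j hij => ?_⟩
    rw [← permG_conj w]
    exact h.2 (w i) (w j) hij
  · intro h
    refine ⟨(lev F cb).mul_mem ((lev F cb).mul_mem hwl hx) ((lev F cb).inv_mem hwl),
      fun i j hij => ?_⟩
    obtain ⟨i, rfl⟩ := w.surjective i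
    obtain ⟨j, rfl⟩ := w.surjective j
    rw [permG_conj]
    exact h.2 i j hij

include hs in
theorem gl_surj (hσ : IsSm σ)
    (hl : ∀ i j, c₁ (w i) = c₁ (w j) → c₂ i = c₂ j) (e : E) :
    ∃ f ∈ IndOn (parD c₁ cb o₁ h₁) σ Ω,
      (glCD (F := F) cb o₁ c₂ o₂ h₂ w hs.hw).Lam f.1 1 = e := by
  haveI : T2Space (lev F cb) := lev_t2 cb
  haveI : LocallyCompactSpace (lev F cb) := lev_locallyCompact cb
  haveI : SigmaCompactSpace (lev F cb) := lev_sigma cb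
  have hcj : ∀ x : lev F cb, x ∈ cjS (glCD (F := F) cb o₁ c₂ o₂ h₂ w hs.hw).w
      (glCD (F := F) cb o₁ c₂ o₂ h₂ w hs.hw).P ↔ x.1 ∈ upp F cb (fun i => o₁ (w i)) := by
    intro x
    rw [mem_cjS]
    exact CCell_conj cb o₁ w hs.hw x.1 x.2
  obtain ⟨f, hf, hf0, hfe⟩ := live_surj (glCD (F := F) cb o₁ c₂ o₂ h₂ w hs.hw)
    (aP c₁ cb o₁ h₁ σ) (aP_smooth c₁ cb o₁ h₁ σ hσ)
    (gl_live cb c₁ o₁ h₁ c₂ o₂ h₂ w hs.hw σ hl)
    ((uni F cb (fun i => - o₁ (w i))).subgroupOf (lev F cb))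
    ((uni_isClosed cb _).preimage continuous_subtype_val)
    (by
      intro x hx h1
      have h2 : x.1 ∈ upp F cb (fun i => o₁ (w i)) := (hcj x).1 (mem_cjS.2 h1)
      exact Subtype.ext (big_disj cb (fun i => o₁ (w i)) x.1 h2 hx))
    (by
      have h1 : {g : lev F cb | ∃ p ∈ cjS (glCD (F := F) cb o₁ c₂ o₂ h₂ w hs.hw).w
          (glCD (F := F) cb o₁ c₂ o₂ h₂ w hs.hw).P,
          ∃ n ∈ (uni F cb (fun i => - o₁ (w i))).subgroupOf (lev F cb), g = p * n} =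
        {g : lev F cb | ∃ p ∈ upp F cb (fun i => o₁ (w i)),
          ∃ n ∈ uni F cb (fun i => - (fun i => o₁ (w i)) i), g.1 = p * n} := by
        ext g
        constructor
        · rintro ⟨p, hp, n, hn, rfl⟩
          exact ⟨p.1, (hcj p).1 hp, n.1, hn, rfl⟩
        · rintro ⟨p, hp, n, hn, h⟩
          exact ⟨⟨p, hp.1⟩, (hcj ⟨p, hp.1⟩).2 hp, ⟨n, hn.1.1⟩, hn, Subtype.ext h⟩
      rw [h1]
      exact big_open cb (fun i => o₁ (w i)))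
    (by
      intro n hn
      obtain ⟨b, hb, hb', n', hn', hn'', h⟩ := CCell_split cb o₂ (fun i => o₁ (w i)) n.1 hn
      exact ⟨⟨b, hb.1.1⟩, ⟨hb, (hcj ⟨b, hb.1.1⟩).2 hb'⟩, ⟨n', hn'.1.1⟩, hn'', hn', Subtype.ext h⟩)
    (by
      intro O hO h1
      obtain ⟨O₁, hO₁, rfl⟩ := isOpen_induced_iff.1 hO
      obtain ⟨m, hm⟩ := Kc_basis O₁ (hO₁.mem_nhds h1)
      refine ⟨(uni F cb (fun i => - o₁ (w i)) ⊓ Kc F κ m).subgroupOf (lev F cb),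
        fun x hx => hx.1, ?_, ⟨Subtype.val ⁻¹' (Kc F κ m : Set (GL κ F)),
          (Kc_isOpen m).preimage continuous_subtype_val, rfl⟩, fun x hx => hm hx.2⟩
      exact CGLb_compact _ (inf_le_left.trans (uni_le cb _))
        ((Kc_isCompact m).inter_left (uni_isClosed cb _)))
    Ω hs.opn
    ((hs.union _).2 (Or.inr ⟨1, (upp F cb o₁).one_mem, 1, (upp F cb o₂).one_mem, by
      rw [one_mul, mul_one]; rfl⟩))
    (by
      intro p hp g hg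
      rw [hs.union] at hg ⊢
      rcases hg with hg | ⟨p', hp', q, hq, h⟩
      · exact Or.inl (hs.left' g p hp hg)
      · refine Or.inr ⟨p.1 * p', (upp F cb o₁).mul_mem hp hp', q, hq, ?_⟩
        show p.1 * g.1 = _
        rw [h]
        simp only [mul_assoc])
    e
  exact ⟨⟨f, (mem_IndSp_iff c₁ cb o₁ h₁ σ f).2 hf⟩, hf0, hfe⟩

end

end

end Pool.Agent.Lib.MP_ca1492_al.P
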