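import Mathlib
import Pool.Agent.Lib.MP_ca1492_al.P.CCell

/-!
# MP_ca1492_al, p-adic side, module CFun: functionals on induced representations, cell by cell

`L : Ind σ → W` linear, invariant under the unipotent group `N₂ = uni F cb o₂`
(for instance `L f = (Φ f)(1)` for an equivariant `Φ : Ind σ → Ind' σ'`, or the class in a Jacquet
module). `Ω = Ω' ∪ P₁ w P₂` a step.

* `inv_avg`: `L f = L (avg K f)` for compact `K ≤ N₂`: `f - avg f` is a combination of `k f' - f'`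
  (`sub_avg_mem_span`).
* `fun_dead`: `gl_step_dead`.
* `fun_live_zero`: `gl_step_live`.
* `fun_live` (associate case `c₁ (w i) = c₁ (w j) ↔ c₂ i = c₂ j`): for `m ∈ lev c₂` we have
  `w m w⁻¹ ∈ lev c₁ ≤ P₁`, so by `lam_left` `Lam f m = Lam f (m * 1)` is an invertible transformation
  of `Lam f 1`; hence `Lam f 1 = 0` implies `Lam f m = 0` for all `m`, and `L f = 0`. So `L` factors
  through `f ↦ Lam f 1`, which is linear (`lam_add`, `lam_map` with `L = c • id`) and onto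
  (`gl_surj`).
* `fun_live_equi`: `Lam (R_m f) 1 = Lam f m` (`lam_right`) `= factor • σ(w m w⁻¹) (Lam f 1)`
  (`lam_left` with `h = m`, `m = 1`).
* `live_const` : naturality is `lam_map`.
-/

set_option autoImplicit false

namespace Pool.Agent.Lib.MP_ca1492_al.P

open Topology Matrix ValuativeRel

noncomputable section

variable {F : Type} [Field F] [ValuativeRel F] [TopologicalSpace F]
  [IsNonarchimedeanLocalField F] {κ : Type} [Fintype κ] [DecidableEq κ]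
variable {E W : Type} [AddCommGroup E] [Module ℂ E] [AddCommGroup W] [Module ℂ W]
variable {ι₀ ι₁ ι₂ : Type}

/-- conjugation by `w` maps `lev c₂` to `lev c₁` in the associate case -/
theorem permG_conj_mem (c₁ : κ → ι₁) (c₂ : κ → ι₂) (w : Equiv.Perm κ)
    (hl : ∀ i j, c₁ (w i) = c₁ (w j) ↔ c₂ i = c₂ j) (m : GL κ F) (hm : m ∈ lev F c₂) :
    permG F w * m * (permG F w)⁻¹ ∈ lev F c₁ := by
  intro i j hij
  obtain ⟨i, rfl⟩ := w.surjective i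
  obtain ⟨j, rfl⟩ := w.surjective j
  rw [permG_conj]
  exact hm i j fun h => hij ((hl i j).2 h)

/-- elements of `lev F c₂` belong to `upp F cb o₂` -/
theorem CFun_lev_upp (cb : κ → ι₀) (c₂ : κ → ι₂) (o₂ : κ → ℤ)
    (h₂ : ∀ i j, c₂ i = c₂ j ↔ cb i = cb j ∧ o₂ i = o₂ j) (m : GL κ F) (hm : m ∈ lev F c₂) :
    m ∈ upp F cb o₂ := by
  refine ⟨fun i j hij => hm i j fun hc => hij ((h₂ i j).1 hc).1,
    fun i j hij => hm i j fun hc => ?_⟩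
  have := ((h₂ i j).1 hc).2
  omega

/-- the modulus factor of the cell `w` -/
def cfac (cb : κ → ι₀) (o₁ : κ → ℤ) (c₂ : κ → ι₂) (o₂ : κ → ℤ)
    (h₂ : ∀ i j, c₂ i = c₂ j ↔ cb i = cb j ∧ o₂ i = o₂ j) (w : Equiv.Perm κ)
    (hw : ∀ i, cb (w i) = cb i) (m : lev F cb) : ℂ :=
  chi ((glCD (F := F) cb o₁ c₂ o₂ h₂ w hw).N₀ ⊓ (glCD (F := F) cb o₁ c₂ o₂ h₂ w hw).B) m⁻¹ *
    (chi (glCD (F := F) cb o₁ c₂ o₂ h₂ w hw).N₀ m⁻¹)⁻¹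

section

variable (cb : κ → ι₀) (c₁ : κ → ι₁) (o₁ : κ → ℤ)
  (h₁ : ∀ i j, c₁ i = c₁ j ↔ cb i = cb j ∧ o₁ i = o₁ j) (c₂ : κ → ι₂) (o₂ : κ → ℤ)
  (h₂ : ∀ i j, c₂ i = c₂ j ↔ cb i = cb j ∧ o₂ i = o₂ j) (w : Equiv.Perm κ)
  (Ω' Ω : Set (lev F cb)) (hs : CStep cb o₁ o₂ w Ω' Ω)
  (σ : Representation ℂ (lev F c₁) E)
  (L : (parD c₁ cb o₁ h₁).IndSp σ →ₗ[ℂ] W)
  (hL : ∀ (n : lev F cb), n.1 ∈ uni F cb o₂ → ∀ f, L ((parD c₁ cb o₁ h₁).Ind σ n f) = L f)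
  (h0 : ∀ f ∈ IndOn (parD c₁ cb o₁ h₁) σ Ω', L f = 0)

include hL in
theorem inv_avg (K : Subgroup (lev F cb)) (hK : K ≤ (uni F cb o₂).subgroupOf (lev F cb))
    (hc : IsCompact (K : Set (lev F cb))) (f : (parD c₁ cb o₁ h₁).IndSp σ) :
    L (avg ((parD c₁ cb o₁ h₁).Ind σ) K f) = L f := by
  have h1 := sub_avg_mem_span ((parD c₁ cb o₁ h₁).Ind σ) ((parD c₁ cb o₁ h₁).ind_smooth σ) K hc f
  have h2 : Submodule.span ℂ {x | ∃ k ∈ K, ∃ w : (parD c₁ cb o₁ h₁).IndSp σ,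
      x = (parD c₁ cb o₁ h₁).Ind σ k w - w} ≤ LinearMap.ker L := by
    rw [Submodule.span_le]
    rintro x ⟨k, hk, v, rfl⟩
    rw [SetLike.mem_coe, LinearMap.mem_ker, map_sub, hL k (hK hk) v, sub_self]
  have h3 := h2 h1
  rw [LinearMap.mem_ker, map_sub, sub_eq_zero] at h3
  exact h3

include hs hL h0 h₂ in
theorem fun_dead (hσ : IsSm σ) (hc : Cusp c₁ σ)
    (hd : ¬ ∀ i j, c₁ (w i) = c₁ (w j) → c₂ i = c₂ j) :
    ∀ f ∈ IndOn (parD c₁ cb o₁ h₁) σ Ω, L f = 0 := by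
  intro f hf
  obtain ⟨K, hK, hKc, h3⟩ : ∃ K : Subgroup (lev F cb), K ≤ (uni F cb o₂).subgroupOf (lev F cb) ∧
      IsCompact (K : Set (lev F cb)) ∧ ∀ K₂ : Subgroup (lev F cb), K ≤ K₂ →
      K₂ ≤ (uni F cb o₂).subgroupOf (lev F cb) → IsCompact (K₂ : Set (lev F cb)) →
      avg ((parD c₁ cb o₁ h₁).Ind σ) K₂ f ∈ IndOn (parD c₁ cb o₁ h₁) σ Ω' := by
    first
    | exact gl_step_dead cb c₁ o₁ h₁ c₂ o₂ h₂ w Ω' Ω hs σ hσ hc hd f hf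
    | exact gl_step_dead cb c₁ o₁ h₁ c₂ o₂ w Ω' Ω hs σ hσ hc hd f hf
  rw [← inv_avg cb c₁ o₁ h₁ o₂ σ L hL K hK hKc f]
  exact h0 _ (h3 K le_rfl hK hKc)

include hL h0 in
/-- general live cell -/
theorem fun_live_zero (hσ : IsSm σ) (hl : ∀ i j, c₁ (w i) = c₁ (w j) → c₂ i = c₂ j)
    (f : (parD c₁ cb o₁ h₁).IndSp σ) (hf : f ∈ IndOn (parD c₁ cb o₁ h₁) σ Ω)
    (hf0 : ∀ m : lev F cb, m.1 ∈ lev F c₂ →
      (glCD (F := F) cb o₁ c₂ o₂ h₂ w hs.hw).Lam f.1 m = 0) : L f = 0 := by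
  obtain ⟨K, hK, hKc, h3⟩ := gl_step_live cb c₁ o₁ h₁ c₂ o₂ h₂ w Ω' Ω hs σ hσ hl f hf hf0
  rw [← inv_avg cb c₁ o₁ h₁ o₂ σ L hL K hK hKc f]
  exact h0 _ (h3 K le_rfl hK hKc)

omit [AddCommGroup W] [Module ℂ W] in
include hs in
/-- transformation of the cell functional under `lev F c₂` in the associate case -/
theorem CFun_lam_left (hσ : IsSm σ) (hl : ∀ i j, c₁ (w i) = c₁ (w j) ↔ c₂ i = c₂ j)
    (f : (parD c₁ cb o₁ h₁).IndSp σ) (hf : f ∈ IndOn (parD c₁ cb o₁ h₁) σ Ω)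
    (m : lev F cb) (hm : m.1 ∈ lev F c₂) :
    (glCD (F := F) cb o₁ c₂ o₂ h₂ w hs.hw).Lam f.1 m =
      cfac cb o₁ c₂ o₂ h₂ w hs.hw m •
        σ ⟨permG F w * m.1 * (permG F w)⁻¹, permG_conj_mem c₁ c₂ w hl m.1 hm⟩
          ((glCD (F := F) cb o₁ c₂ o₂ h₂ w hs.hw).Lam f.1 1) := by
  have hfI := (mem_IndSp_iff c₁ cb o₁ h₁ σ f.1).1 f.2
  have hcs := gl_csupp cb c₁ o₁ h₁ c₂ o₂ h₂ w Ω' Ω hs σ hσ f hf
  have hlive := gl_live cb c₁ o₁ h₁ c₂ o₂ h₂ w hs.hw σ (fun i j h => (hl i j).1 h)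
  have hx := permG_conj_mem c₁ c₂ w hl m.1 hm
  obtain ⟨h3, h4, h5⟩ := prL_lev c₁ cb o₁ h₁ (permG F w * m.1 * (permG F w)⁻¹) hx
  have hm' : m ∈ (glCD (F := F) cb o₁ c₂ o₂ h₂ w hs.hw).M := hm
  have hP : (glCD (F := F) cb o₁ c₂ o₂ h₂ w hs.hw).w * m *
      ((glCD (F := F) cb o₁ c₂ o₂ h₂ w hs.hw).w)⁻¹ ∈
      (glCD (F := F) cb o₁ c₂ o₂ h₂ w hs.hw).P := h4
  have h6 := lam_left (glCD (F := F) cb o₁ c₂ o₂ h₂ w hs.hw) (aP c₁ cb o₁ h₁ σ) hlive f.1 hfI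
    hcs 1 (Subgroup.one_mem _) m hm' hP
  rw [mul_one] at h6
  rw [h6]
  have h7 : aP c₁ cb o₁ h₁ σ ⟨(glCD (F := F) cb o₁ c₂ o₂ h₂ w hs.hw).w * m *
      ((glCD (F := F) cb o₁ c₂ o₂ h₂ w hs.hw).w)⁻¹, hP⟩ =
      σ ⟨permG F w * m.1 * (permG F w)⁻¹, hx⟩ := by
    rw [← h5]
    rfl
  change cfac cb o₁ c₂ o₂ h₂ w hs.hw m • _ = cfac cb o₁ c₂ o₂ h₂ w hs.hw m • _
  congr 1
  exact LinearMap.congr_fun h7 _

include hs in
/-- the cell functional as a linear map -/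
theorem CFun_lin (hσ : IsSm σ) (hl : ∀ i j, c₁ (w i) = c₁ (w j) → c₂ i = c₂ j)
    (m : lev F cb) (hm : m.1 ∈ lev F c₂) :
    ∃ Λ : IndOn (parD c₁ cb o₁ h₁) σ Ω →ₗ[ℂ] E,
      ∀ f, Λ f = (glCD (F := F) cb o₁ c₂ o₂ h₂ w hs.hw).Lam f.1.1 m := by
  have hfI : ∀ f : (parD c₁ cb o₁ h₁).IndSp σ, f.1 ∈ IS (PPs F cb o₁) (aP c₁ cb o₁ h₁ σ) :=
    fun f => (mem_IndSp_iff c₁ cb o₁ h₁ σ f.1).1 f.2
  have hcs : ∀ f : IndOn (parD c₁ cb o₁ h₁) σ Ω,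
      (glCD (F := F) cb o₁ c₂ o₂ h₂ w hs.hw).Csupp f.1.1 :=
    fun f => gl_csupp cb c₁ o₁ h₁ c₂ o₂ h₂ w Ω' Ω hs σ hσ f.1 f.2
  have hlive := gl_live cb c₁ o₁ h₁ c₂ o₂ h₂ w hs.hw σ hl
  have hm' : m ∈ (glCD (F := F) cb o₁ c₂ o₂ h₂ w hs.hw).M := hm
  refine ⟨{ toFun := fun f => (glCD (F := F) cb o₁ c₂ o₂ h₂ w hs.hw).Lam f.1.1 m
            map_add' := ?_
            map_smul' := ?_ }, fun f => rfl⟩
  · intro f g
    exact lam_add (glCD (F := F) cb o₁ c₂ o₂ h₂ w hs.hw) (aP c₁ cb o₁ h₁ σ) hlive f.1.1 g.1.1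
      (hfI f.1) (hcs f) (hfI g.1) (hcs g) m hm'
  · intro c f
    exact lam_map (glCD (F := F) cb o₁ c₂ o₂ h₂ w hs.hw) (aP c₁ cb o₁ h₁ σ) hlive f.1.1
      (hfI f.1) (hcs f) (c • (LinearMap.id : E →ₗ[ℂ] E)) m hm'

include hL h0 in
/-- associate cell -/
theorem fun_live (hσ : IsSm σ) (hl : ∀ i j, c₁ (w i) = c₁ (w j) ↔ c₂ i = c₂ j) :
    ∃! a : E →ₗ[ℂ] W, ∀ f ∈ IndOn (parD c₁ cb o₁ h₁) σ Ω,
      L f = a ((glCD (F := F) cb o₁ c₂ o₂ h₂ w hs.hw).Lam f.1 1) := by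
  have h1m : ((1 : lev F cb)).1 ∈ lev F c₂ := (lev F c₂).one_mem
  obtain ⟨Λ, hΛ⟩ := CFun_lin cb c₁ o₁ h₁ c₂ o₂ h₂ w Ω' Ω hs σ hσ (fun i j h => (hl i j).1 h) 1 h1m
  have hsurj : Function.Surjective Λ := by
    intro e
    obtain ⟨f, hf, he⟩ := gl_surj cb c₁ o₁ h₁ c₂ o₂ h₂ w Ω' Ω hs σ hσ
      (fun i j h => (hl i j).1 h) e
    exact ⟨⟨f, hf⟩, by rw [hΛ]; exact he⟩
  obtain ⟨S, hS⟩ := Λ.exists_rightInverse_of_surjective (LinearMap.range_eq_top.2 hsurj)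
  have hS' : ∀ e, Λ (S e) = e := fun e => LinearMap.congr_fun hS e
  refine ⟨L ∘ₗ (IndOn (parD c₁ cb o₁ h₁) σ Ω).subtype ∘ₗ S, ?_, ?_⟩
  · intro f hf
    have hz : Λ (⟨f, hf⟩ - S (Λ ⟨f, hf⟩)) = 0 := by
      have hz1 := LinearMap.map_sub Λ ⟨f, hf⟩ (S (Λ ⟨f, hf⟩))
      rw [hz1, hS', sub_self]
    have h3 : L ((⟨f, hf⟩ - S (Λ ⟨f, hf⟩) : IndOn (parD c₁ cb o₁ h₁) σ Ω) :
        (parD c₁ cb o₁ h₁).IndSp σ) = 0 := by
      refine fun_live_zero cb c₁ o₁ h₁ c₂ o₂ h₂ w Ω' Ω hs σ L hL h0 hσ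
        (fun i j h => (hl i j).1 h) _ (Subtype.property _) ?_
      intro m hm
      rw [CFun_lam_left cb c₁ o₁ h₁ c₂ o₂ h₂ w Ω' Ω hs σ hσ hl _ (Subtype.property _) m hm,
        ← hΛ, hz, map_zero, smul_zero]
    rw [Submodule.coe_sub, map_sub, sub_eq_zero] at h3
    rw [h3, ← hΛ ⟨f, hf⟩]
    rfl
  · intro a ha
    refine LinearMap.ext fun e => ?_
    have h4 := ha (S e).1 (S e).2
    rw [← hΛ (S e), hS'] at h4
    exact h4.symm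

/-- equivariance of the cell functional in the associate case -/
theorem lam_equi (hσ : IsSm σ) (hl : ∀ i j, c₁ (w i) = c₁ (w j) ↔ c₂ i = c₂ j)
    (f : (parD c₁ cb o₁ h₁).IndSp σ) (hf : f ∈ IndOn (parD c₁ cb o₁ h₁) σ Ω)
    (m : lev F cb) (hm : m.1 ∈ lev F c₂) :
    (parD c₁ cb o₁ h₁).Ind σ m f ∈ IndOn (parD c₁ cb o₁ h₁) σ Ω ∧
    (glCD (F := F) cb o₁ c₂ o₂ h₂ w hs.hw).Lam ((parD c₁ cb o₁ h₁).Ind σ m f).1 1 =
      cfac cb o₁ c₂ o₂ h₂ w hs.hw m •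
        σ ⟨permG F w * m.1 * (permG F w)⁻¹, permG_conj_mem c₁ c₂ w hl m.1 hm⟩
          ((glCD (F := F) cb o₁ c₂ o₂ h₂ w hs.hw).Lam f.1 1) := by
  have hmu : m.1 ∈ upp F cb o₂ := CFun_lev_upp cb c₂ o₂ h₂ m.1 hm
  refine ⟨fun g hg => ?_, ?_⟩
  · have hgm : g * m ∉ Ω := by
      intro hgm
      apply hg
      rcases (hs.union (g * m)).1 hgm with h3 | h3
      · have h4 := hs.right' (g * m) m⁻¹ ((upp F cb o₂).inv_mem hmu) h3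
        rw [mul_inv_cancel_right] at h4
        exact (hs.union g).2 (Or.inl h4)
      · obtain ⟨p, hp, q, hq, he⟩ := h3
        refine (hs.union g).2 (Or.inr ⟨p, hp, q * m.1⁻¹,
          (upp F cb o₂).mul_mem hq ((upp F cb o₂).inv_mem hmu), ?_⟩)
        have h5 : g.1 = (g * m).1 * m.1⁻¹ := by
          rw [Subgroup.coe_mul, mul_inv_cancel_right]
        rw [h5, he]
        simp only [mul_assoc]
    exact hf (g * m) hgm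
  · rw [← CFun_lam_left cb c₁ o₁ h₁ c₂ o₂ h₂ w Ω' Ω hs σ hσ hl f hf m hm]
    have h6 := lam_right (glCD (F := F) cb o₁ c₂ o₂ h₂ w hs.hw) f.1 1 m
    rw [one_mul] at h6
    exact h6

/-- `Lam` is additive, homogeneous, and unchanged under right translation by `N₂` -/
theorem lam_lin (hσ : IsSm σ) (hl : ∀ i j, c₁ (w i) = c₁ (w j) → c₂ i = c₂ j)
    (m : lev F cb) (hm : m.1 ∈ lev F c₂) :
    ∃ Λ : IndOn (parD c₁ cb o₁ h₁) σ Ω →ₗ[ℂ] E,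
      (∀ f, Λ f = (glCD (F := F) cb o₁ c₂ o₂ h₂ w hs.hw).Lam f.1.1 m) ∧
      ∀ (n : lev F cb), n.1 ∈ uni F cb o₂ → ∀ f : IndOn (parD c₁ cb o₁ h₁) σ Ω,
        (glCD (F := F) cb o₁ c₂ o₂ h₂ w hs.hw).Lam ((parD c₁ cb o₁ h₁).Ind σ n f.1).1 m =
          (glCD (F := F) cb o₁ c₂ o₂ h₂ w hs.hw).Lam f.1.1 m := by
  obtain ⟨Λ, hΛ⟩ := CFun_lin cb c₁ o₁ h₁ c₂ o₂ h₂ w Ω' Ω hs σ hσ hl m hm
  refine ⟨Λ, hΛ, ?_⟩
  intro n hn f
  exact lam_inv (glCD (F := F) cb o₁ c₂ o₂ h₂ w hs.hw) (aP c₁ cb o₁ h₁ σ)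
    (gl_live cb c₁ o₁ h₁ c₂ o₂ h₂ w hs.hw σ hl) f.1.1
    ((mem_IndSp_iff c₁ cb o₁ h₁ σ f.1.1).1 f.1.2)
    (gl_csupp cb c₁ o₁ h₁ c₂ o₂ h₂ w Ω' Ω hs σ hσ f.1 f.2) m hm n hn

end

/-- no live cell: the Jacquet module vanishes -/
theorem all_dead (cb : κ → ι₀) (c₁ : κ → ι₁) (o₁ : κ → ℤ)
    (h₁ : ∀ i j, c₁ i = c₁ j ↔ cb i = cb j ∧ o₁ i = o₁ j) (c₂ : κ → ι₂) (o₂ : κ → ℤ)
    (h₂ : ∀ i j, c₂ i = c₂ j ↔ cb i = cb j ∧ o₂ i = o₂ j)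
    (σ : Representation ℂ (lev F c₁) E) (hσ : IsSm σ) (hc : Cusp c₁ σ)
    (hd : ∀ w : Equiv.Perm κ, (∀ i, cb (w i) = cb i) →
      ¬ ∀ i j, c₁ (w i) = c₁ (w j) → c₂ i = c₂ j) :
    (parD c₂ cb o₂ h₂).kerJ ((parD c₁ cb o₁ h₁).Ind σ) = ⊤ := by
  obtain ⟨r, w, hw, huniq, -, hopen⟩ := cell_order (F := F) cb o₁ o₂
  set L := ((parD c₂ cb o₂ h₂).kerJ ((parD c₁ cb o₁ h₁).Ind σ)).mkQ with hLdef
  have hL : ∀ (n : lev F cb), n.1 ∈ uni F cb o₂ → ∀ f,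
      L ((parD c₁ cb o₁ h₁).Ind σ n f) = L f := by
    intro n hn f
    rw [← sub_eq_zero, ← map_sub, hLdef, Submodule.mkQ_apply, Submodule.Quotient.mk_eq_zero]
    exact Submodule.subset_span ⟨n.1, hn, f, rfl⟩
  have key : ∀ k : ℕ, k ≤ r → ∀ f ∈ IndOn (parD c₁ cb o₁ h₁) σ
      {g : lev F cb | ∃ i : Fin r, i.1 < k ∧ g ∈ gcell (F := F) cb o₁ o₂ (w i)}, L f = 0 := by
    intro k
    induction k with
    | zero =>
      intro _ f hf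
      have h1 : f = 0 := by
        refine Subtype.ext (funext fun g => ?_)
        exact hf g (by rintro ⟨i, hi, _⟩; exact absurd hi (Nat.not_lt_zero _))
      rw [h1, map_zero]
    | succ k ih =>
      intro hk
      have hk' : k < r := hk
      refine fun_dead cb c₁ o₁ h₁ c₂ o₂ h₂ (w ⟨k, hk'⟩)
        {g : lev F cb | ∃ i : Fin r, i.1 < k ∧ g ∈ gcell (F := F) cb o₁ o₂ (w i)}
        {g : lev F cb | ∃ i : Fin r, i.1 < k + 1 ∧ g ∈ gcell (F := F) cb o₁ o₂ (w i)}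
        ?_ σ L hL (ih (Nat.le_of_lt hk')) hσ hc (hd (w ⟨k, hk'⟩) (hw ⟨k, hk'⟩))
      refine ⟨hw ⟨k, hk'⟩, hopen k, hopen (k + 1), ?_, ?_, ?_, ?_⟩
      · rintro g p hp ⟨i, hi, p', hp', q', hq', he⟩
        refine ⟨i, hi, p.1 * p', (upp F cb o₁).mul_mem hp hp', q', hq', ?_⟩
        rw [Subgroup.coe_mul, he]
        simp only [mul_assoc]
      · rintro g q hq ⟨i, hi, p', hp', q', hq', he⟩
        refine ⟨i, hi, p', hp', q' * q.1, (upp F cb o₂).mul_mem hq' hq, ?_⟩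
        rw [Subgroup.coe_mul, he]
        simp only [mul_assoc]
      · intro g
        constructor
        · rintro ⟨i, hi, hg⟩
          rcases Nat.lt_succ_iff_lt_or_eq.1 hi with h3 | h3
          · exact Or.inl ⟨i, h3, hg⟩
          · right
            have h4 : i = ⟨k, hk'⟩ := Fin.ext h3
            rw [← h4]
            exact hg
        · rintro (⟨i, hi, hg⟩ | hg)
          · exact ⟨i, Nat.lt_succ_of_lt hi, hg⟩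
          · exact ⟨⟨k, hk'⟩, Nat.lt_succ_self k, hg⟩
      · rintro g hg ⟨i, hi, hg'⟩
        obtain ⟨k₀, _, hk₀⟩ := huniq g
        have h3 := hk₀ i hg'
        have h4 := hk₀ ⟨k, hk'⟩ hg
        rw [h3, ← h4] at hi
        exact absurd hi (lt_irrefl _)
  refine eq_top_iff.2 fun f _ => ?_
  have h5 : L f = 0 := key r le_rfl f (fun g hg => by
    exfalso
    obtain ⟨k₀, hk₀, _⟩ := huniq g
    exact hg ⟨k₀, k₀.2, hk₀⟩)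
  rw [hLdef, Submodule.mkQ_apply, Submodule.Quotient.mk_eq_zero] at h5
  exact h5

end

end Pool.Agent.Lib.MP_ca1492_al.P
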