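import Mathlib
import Pool.Agent.Lib.MP_ca1492_al.P.CFun

/-!
# MP_ca1492_al, p-adic side, module CLead: leading terms of functionals

`cell_chain`: the cells `P₁ w P₂` in `lev F cb`, as a chain of steps `CStep`.
`cell_ind`: induction along the chain. `cell_lead`: a functional which is killed by the steps of
all cells except the one of `v₀` is determined by its restriction to the functions supported in
`Ω = Ω' ∪ P₁ v₀ P₂` (same `Ω` for all functionals and all `σ`), and vanishes on `IndOn Ω'`.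
`step_equi`, `step_nat`: equivariance and naturality of the map `a` of `fun_live`.
`step_big`: `P₁ v (v⁻¹ N₁⁻ v) ⊆ Ω` for a step of the cell of `v` (contraction by diagonal matrices).
-/

set_option autoImplicit false

namespace Pool.Agent.Lib.MP_ca1492_al.P

open Topology Matrix ValuativeRel

noncomputable section

/-- a live permutation is associate: if `c ∘ w` refines `c` then both have the same classes -/
theorem CLead_assoc {κ ι : Type} [Finite κ] (c : κ → ι) (w : Equiv.Perm κ)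
    (h : ∀ i j, c (w i) = c (w j) → c i = c j) (i j : κ) : c (w i) = c (w j) ↔ c i = c j := by
  classical
  refine ⟨h i j, fun hij => ?_⟩
  have := Fintype.ofFinite κ
  let R : Finset (κ × κ) := Finset.univ.filter fun p => c p.1 = c p.2
  let R' : Finset (κ × κ) := Finset.univ.filter fun p => c (w p.1) = c (w p.2)
  have h1 : R' ⊆ R := by
    intro p hp
    simp only [R, R', Finset.mem_filter, Finset.mem_univ, true_and] at hp ⊢
    exact h _ _ hp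
  have h2 : R.card ≤ R'.card := by
    refine Finset.card_le_card_of_injOn (fun p => (w.symm p.1, w.symm p.2)) ?_ ?_
    · intro p hp
      simp only [R, R', Finset.coe_filter, Finset.mem_univ, true_and, Set.mem_ofPred_eq,
        Equiv.apply_symm_apply] at hp ⊢
      exact hp
    · rintro ⟨a, b⟩ _ ⟨a', b'⟩ _ hab
      simp only [Prod.mk.injEq, EmbeddingLike.apply_eq_iff_eq] at hab
      rw [hab.1, hab.2]
  have h3 := Finset.eq_of_subset_of_card_le h1 h2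
  have h4 : (i, j) ∈ R := by
    simp only [R, Finset.mem_filter, Finset.mem_univ, true_and]
    exact hij
  rw [← h3] at h4
  simpa only [R', Finset.mem_filter, Finset.mem_univ, true_and] using h4

variable {F : Type} [Field F] [ValuativeRel F] [TopologicalSpace F]
  [IsNonarchimedeanLocalField F] {κ : Type} [Fintype κ] [DecidableEq κ]
variable {E W : Type} [AddCommGroup E] [Module ℂ E] [AddCommGroup W] [Module ℂ W]
variable {ι₀ ι₁ ι₂ : Type}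

theorem CStep.congr {cb : κ → ι₀} {o₁ o₂ : κ → ℤ} {v w : Equiv.Perm κ}
    {Ω' Ω : Set (lev F cb)} (hs : CStep cb o₁ o₂ w Ω' Ω) (hv : ∀ i, cb (v i) = cb i)
    (he : gcell (F := F) cb o₁ o₂ w = gcell (F := F) cb o₁ o₂ v) : CStep cb o₁ o₂ v Ω' Ω := by
  obtain ⟨-, h1, h2, h3, h4, h5, h6⟩ := hs
  refine ⟨hv, h1, h2, h3, h4, ?_, ?_⟩
  · rw [← he]
    exact h5
  · rw [← he]
    exact h6

theorem CLead_mem_self (cb : κ → ι₀) (o₁ o₂ : κ → ℤ) (w : Equiv.Perm κ)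
    (hw : ∀ i, cb (w i) = cb i) (g : lev F cb) (hg : g.1 = permG F w) :
    g ∈ gcell (F := F) cb o₁ o₂ w :=
  ⟨1, (upp F cb o₁).one_mem, 1, (upp F cb o₂).one_mem, by rw [hg, one_mul, mul_one]⟩

/-- the cells as a chain of steps -/
theorem cell_chain (cb : κ → ι₀) (o₁ o₂ : κ → ℤ) :
    ∃ (r : ℕ) (w : Fin r → Equiv.Perm κ) (Ω : ℕ → Set (lev F cb)),
      (∀ g, g ∉ Ω 0) ∧ (∀ g, g ∈ Ω r) ∧
      (∀ k : Fin r, CStep (F := F) cb o₁ o₂ (w k) (Ω k.1) (Ω (k.1 + 1))) ∧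
      (∀ k l : Fin r, gcell (F := F) cb o₁ o₂ (w k) = gcell (F := F) cb o₁ o₂ (w l) → k = l) ∧
      ∀ v : Equiv.Perm κ, (∀ i, cb (v i) = cb i) →
        ∃ k, gcell (F := F) cb o₁ o₂ (w k) = gcell (F := F) cb o₁ o₂ v := by
  obtain ⟨r, w, hw, huniq, -, hopen⟩ := cell_order (F := F) cb o₁ o₂
  have hne : ∀ v : Equiv.Perm κ, (∀ i, cb (v i) = cb i) →
      ∃ g : lev F cb, g ∈ gcell (F := F) cb o₁ o₂ v := by
    intro v hv
    have hv' : permG F v ∈ lev F cb := by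
      intro i j hij
      show (if v j = i then (1 : F) else 0) = 0
      rw [if_neg]
      rintro rfl
      exact hij (hv j)
    exact ⟨⟨permG F v, hv'⟩, CLead_mem_self cb o₁ o₂ v hv _ rfl⟩
  refine ⟨r, w, fun k => {g : lev F cb | ∃ i : Fin r, i.1 < k ∧
    g ∈ gcell (F := F) cb o₁ o₂ (w i)}, ?_, ?_, ?_, ?_, ?_⟩
  · rintro g ⟨i, hi, _⟩
    exact absurd hi (Nat.not_lt_zero _)
  · intro g
    obtain ⟨k₀, hk₀, _⟩ := huniq g
    exact ⟨k₀, k₀.2, hk₀⟩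
  · rintro ⟨k, hk'⟩
    refine ⟨hw ⟨k, hk'⟩, hopen k, hopen (k + 1), ?_, ?_, ?_, ?_⟩
    · rintro g p hp ⟨i, hi, p', hp', q', hq', he⟩
      refine ⟨i, hi, p.1 * p', (upp F cb o₁).mul_mem hp hp', q', hq', ?_⟩
      rw [Subgroup.coe_mul, he]
      simp only [mul_assoc]
    · rintro g q hq ⟨i, hi, p', hp', q', hq', he⟩
      refine ⟨i, hi, p', hp', q' * q.1, (upp F cb o₂).mul_mem hq' hq, ?_⟩
      rw [Subgroup.coe_mul, he]
      simp only [mul_assoc]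
    · intro g
      constructor
      · rintro ⟨i, hi, hg⟩
        rcases Nat.lt_succ_iff_lt_or_eq.1 hi with h3 | h3
        · exact Or.inl ⟨i, h3, hg⟩
        · right
          have h4 : i = ⟨k, hk'⟩ := Fin.ext h3
          rw [← h4]
          exact hg
      · rintro (⟨i, hi, hg⟩ | hg)
        · exact ⟨i, Nat.lt_succ_of_lt hi, hg⟩
        · exact ⟨⟨k, hk'⟩, Nat.lt_succ_self k, hg⟩
    · rintro g hg ⟨i, hi, hg'⟩
      obtain ⟨k₀, _, hk₀⟩ := huniq g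
      have h3 := hk₀ i hg'
      have h4 := hk₀ ⟨k, hk'⟩ hg
      rw [h3, ← h4] at hi
      exact absurd hi (lt_irrefl _)
  · intro k l hkl
    obtain ⟨g, hg⟩ := hne (w k) (hw k)
    obtain ⟨k₀, _, hk₀⟩ := huniq g
    have h3 := hk₀ k hg
    have h5 : g ∈ gcell (F := F) cb o₁ o₂ (w l) := by
      rw [← hkl]
      exact hg
    have h4 := hk₀ l h5
    rw [h3, h4]
  · intro v hv
    obtain ⟨g, hg⟩ := hne v hv
    obtain ⟨k₀, hk₀, _⟩ := huniq g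
    refine ⟨k₀, ?_⟩
    obtain ⟨p, hp, q, hq, h1⟩ := hk₀
    obtain ⟨p', hp', q', hq', h2⟩ := hg
    refine Set.Subset.antisymm (COrd_sub cb o₁ o₂ v (w k₀) ?_) (COrd_sub cb o₁ o₂ (w k₀) v ?_)
    · refine ⟨p⁻¹ * p', (upp F cb o₁).mul_mem ((upp F cb o₁).inv_mem hp) hp', q' * q⁻¹,
        (upp F cb o₂).mul_mem hq' ((upp F cb o₂).inv_mem hq), ?_⟩
      have h3 : p⁻¹ * p' * permG F v * (q' * q⁻¹) = p⁻¹ * (p' * permG F v * q') * q⁻¹ := by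
        group
      rw [h3, ← h2, h1]
      group
    · refine ⟨p'⁻¹ * p, (upp F cb o₁).mul_mem ((upp F cb o₁).inv_mem hp') hp, q * q'⁻¹,
        (upp F cb o₂).mul_mem hq ((upp F cb o₂).inv_mem hq'), ?_⟩
      have h3 : p'⁻¹ * p * permG F (w k₀) * (q * q'⁻¹) =
          p'⁻¹ * (p * permG F (w k₀) * q) * q'⁻¹ := by
        group
      rw [h3, ← h1, h2]
      group

theorem IndOn_empty {G : Type} [Group G] [TopologicalSpace G] {H M : Subgroup G} (D : PD H M)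
    {E : Type} [AddCommGroup E] [Module ℂ E] (σ : Representation ℂ M E) (Ω : Set H)
    (hΩ : ∀ g, g ∉ Ω) (f : D.IndSp σ) (hf : f ∈ IndOn D σ Ω) : f = 0 :=
  Subtype.ext (funext fun g => hf g (hΩ g))

theorem IndOn_univ {G : Type} [Group G] [TopologicalSpace G] {H M : Subgroup G} (D : PD H M)
    {E : Type} [AddCommGroup E] [Module ℂ E] (σ : Representation ℂ M E) (Ω : Set H)
    (hΩ : ∀ g, g ∈ Ω) (f : D.IndSp σ) : f ∈ IndOn D σ Ω :=
  fun g hg => absurd (hΩ g) hg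

/-- induction along the cells -/
theorem cell_ind (cb : κ → ι₀) (c₁ : κ → ι₁) (o₁ : κ → ℤ)
    (h₁ : ∀ i j, c₁ i = c₁ j ↔ cb i = cb j ∧ o₁ i = o₁ j) (o₂ : κ → ℤ)
    (σ : Representation ℂ (lev F c₁) E) (L : (parD c₁ cb o₁ h₁).IndSp σ →ₗ[ℂ] W)
    (key : ∀ (v : Equiv.Perm κ) (Ω' Ω : Set (lev F cb)), CStep (F := F) cb o₁ o₂ v Ω' Ω →
      (∀ f ∈ IndOn (parD c₁ cb o₁ h₁) σ Ω', L f = 0) →
      ∀ f ∈ IndOn (parD c₁ cb o₁ h₁) σ Ω, L f = 0) : L = 0 := by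
  obtain ⟨r, w, Ω, h0, hr, hs, -, -⟩ := cell_chain (F := F) cb o₁ o₂
  have h1 : ∀ k : ℕ, k ≤ r → ∀ f ∈ IndOn (parD c₁ cb o₁ h₁) σ (Ω k), L f = 0 := by
    intro k
    induction k with
    | zero =>
      intro _ f hf
      rw [IndOn_empty _ σ (Ω 0) h0 f hf, map_zero]
    | succ k ih =>
      intro hk
      exact key (w ⟨k, hk⟩) (Ω k) (Ω (k + 1)) (hs ⟨k, hk⟩) (ih (Nat.le_of_lt hk))
  refine LinearMap.ext fun f => ?_
  exact h1 r le_rfl f (IndOn_univ _ σ (Ω r) hr f)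

/-- the leading cell -/
theorem cell_lead (cb : κ → ι₀) (o₁ o₂ : κ → ℤ) (v₀ : Equiv.Perm κ)
    (hv₀ : ∀ i, cb (v₀ i) = cb i) :
    ∃ Ω' Ω : Set (lev F cb), CStep (F := F) cb o₁ o₂ v₀ Ω' Ω ∧
      ∀ (ι₁ : Type) (c₁ : κ → ι₁) (h₁ : ∀ i j, c₁ i = c₁ j ↔ cb i = cb j ∧ o₁ i = o₁ j)
        (E W : Type) [AddCommGroup E] [Module ℂ E] [AddCommGroup W] [Module ℂ W]
        (σ : Representation ℂ (lev F c₁) E) (L : (parD c₁ cb o₁ h₁).IndSp σ →ₗ[ℂ] W),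
        (∀ (v : Equiv.Perm κ) (Ω₁ Ω₂ : Set (lev F cb)), CStep (F := F) cb o₁ o₂ v Ω₁ Ω₂ →
          gcell (F := F) cb o₁ o₂ v ≠ gcell (F := F) cb o₁ o₂ v₀ →
          (∀ f ∈ IndOn (parD c₁ cb o₁ h₁) σ Ω₁, L f = 0) →
          ∀ f ∈ IndOn (parD c₁ cb o₁ h₁) σ Ω₂, L f = 0) →
        (∀ f ∈ IndOn (parD c₁ cb o₁ h₁) σ Ω', L f = 0) ∧
        ((∀ f ∈ IndOn (parD c₁ cb o₁ h₁) σ Ω, L f = 0) → L = 0) := by
  obtain ⟨r, w, Ω, h0, hr, hs, hinj, hsurj⟩ := cell_chain (F := F) cb o₁ o₂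
  obtain ⟨k₀, hk₀⟩ := hsurj v₀ hv₀
  refine ⟨Ω k₀.1, Ω (k₀.1 + 1), (hs k₀).congr hv₀ hk₀, ?_⟩
  intro ι₁ c₁ h₁ E W _ _ _ _ σ L key
  have hlt : ∀ k : ℕ, k ≤ k₀.1 → ∀ f ∈ IndOn (parD c₁ cb o₁ h₁) σ (Ω k), L f = 0 := by
    intro k
    induction k with
    | zero =>
      intro _ f hf
      rw [IndOn_empty _ σ (Ω 0) h0 f hf, map_zero]
    | succ k ih =>
      intro hk
      have hk' : k < r := lt_trans hk k₀.2
      refine key (w ⟨k, hk'⟩) (Ω k) (Ω (k + 1)) (hs ⟨k, hk'⟩) ?_ (ih (Nat.le_of_lt hk))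
      intro he
      rw [← hk₀] at he
      have := hinj _ _ he
      rw [← this] at hk
      exact absurd hk (lt_irrefl k)
  refine ⟨hlt k₀.1 le_rfl, fun h3 => ?_⟩
  have hgt : ∀ k : ℕ, k₀.1 + 1 + k ≤ r →
      ∀ f ∈ IndOn (parD c₁ cb o₁ h₁) σ (Ω (k₀.1 + 1 + k)), L f = 0 := by
    intro k
    induction k with
    | zero =>
      intro _
      exact h3
    | succ k ih =>
      intro hk
      have hk' : k₀.1 + 1 + k < r := hk
      refine key (w ⟨_, hk'⟩) (Ω (k₀.1 + 1 + k)) (Ω (k₀.1 + 1 + k + 1)) (hs ⟨_, hk'⟩) ?_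
        (ih (Nat.le_of_lt hk'))
      intro he
      rw [← hk₀] at he
      have := hinj _ _ he
      have h4 : k₀.1 + 1 + k = k₀.1 := congrArg Fin.val this
      omega
  refine LinearMap.ext fun f => ?_
  have h5 : k₀.1 + 1 + (r - (k₀.1 + 1)) = r := by
    have := k₀.2
    omega
  have h6 := hgt (r - (k₀.1 + 1)) (by omega)
  rw [h5] at h6
  exact h6 f (IndOn_univ _ σ (Ω r) hr f)

section

variable (cb : κ → ι₀) (c₁ : κ → ι₁) (o₁ : κ → ℤ)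
  (h₁ : ∀ i j, c₁ i = c₁ j ↔ cb i = cb j ∧ o₁ i = o₁ j) (c₂ : κ → ι₂) (o₂ : κ → ℤ)
  (h₂ : ∀ i j, c₂ i = c₂ j ↔ cb i = cb j ∧ o₂ i = o₂ j) (w : Equiv.Perm κ)
  (Ω' Ω : Set (lev F cb)) (hs : CStep cb o₁ o₂ w Ω' Ω)
  (σ : Representation ℂ (lev F c₁) E)
  (L : (parD c₁ cb o₁ h₁).IndSp σ →ₗ[ℂ] W)

/-- the map `a` of `fun_live` is equivariant -/
theorem step_equi (hσ : IsSm σ) (hl : ∀ i j, c₁ (w i) = c₁ (w j) ↔ c₂ i = c₂ j)
    (a : E →ₗ[ℂ] W) (ha : ∀ f ∈ IndOn (parD c₁ cb o₁ h₁) σ Ω,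
      L f = a ((glCD (F := F) cb o₁ c₂ o₂ h₂ w hs.hw).Lam f.1 1))
    (m : lev F cb) (hm : m.1 ∈ lev F c₂) (b : W →ₗ[ℂ] W)
    (hL : ∀ f, L ((parD c₁ cb o₁ h₁).Ind σ m f) = b (L f)) (e : E) :
    a (cfac cb o₁ c₂ o₂ h₂ w hs.hw m •
        σ ⟨permG F w * m.1 * (permG F w)⁻¹, permG_conj_mem c₁ c₂ w hl m.1 hm⟩ e) = b (a e) := by
  obtain ⟨f, hf, rfl⟩ := gl_surj cb c₁ o₁ h₁ c₂ o₂ h₂ w Ω' Ω hs σ hσ
    (fun i j h => (hl i j).1 h) e
  obtain ⟨h3, h4⟩ := lam_equi cb c₁ o₁ h₁ c₂ o₂ h₂ w Ω' Ω hs σ hσ hl f hf m hm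
  rw [← h4, ← ha _ h3, hL, ha f hf]

/-- post-composition with an equivariant map preserves the induced space -/
theorem IndSp_comp {G : Type} [Group G] [TopologicalSpace G] {H M : Subgroup G} (D : PD H M)
    {E E' : Type} [AddCommGroup E] [Module ℂ E] [AddCommGroup E'] [Module ℂ E']
    (σ : Representation ℂ M E) (σ' : Representation ℂ M E') (x : E →ₗ[ℂ] E') (hx : Equi σ σ' x)
    (f : D.IndSp σ) : (fun g => x (f.1 g)) ∈ D.IndSp σ' := by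
  obtain ⟨h1, U, hU, h2⟩ := f.2
  refine ⟨fun m hm n hn g => ?_, U, hU, fun g u hu => ?_⟩
  · show x (f.1 _) = σ' _ (x (f.1 g))
    rw [h1 m hm n hn g, hx]
  · show x (f.1 _) = x (f.1 g)
    rw [h2 g u hu]

/-- the map `a` of `fun_live` is natural -/
theorem step_nat (hσ : IsSm σ) (hl : ∀ i j, c₁ (w i) = c₁ (w j) → c₂ i = c₂ j)
    (a : E →ₗ[ℂ] W) (ha : ∀ f ∈ IndOn (parD c₁ cb o₁ h₁) σ Ω,
      L f = a ((glCD (F := F) cb o₁ c₂ o₂ h₂ w hs.hw).Lam f.1 1))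
    (x : E →ₗ[ℂ] E) (hx : Equi σ σ x) (y : W →ₗ[ℂ] W)
    (hL : ∀ f : (parD c₁ cb o₁ h₁).IndSp σ,
      L ⟨fun g => x (f.1 g), IndSp_comp _ σ σ x hx f⟩ = y (L f)) (e : E) :
    a (x e) = y (a e) := by
  obtain ⟨f, hf, rfl⟩ := gl_surj cb c₁ o₁ h₁ c₂ o₂ h₂ w Ω' Ω hs σ hσ hl e
  have h1m : (1 : lev F cb) ∈ (glCD (F := F) cb o₁ c₂ o₂ h₂ w hs.hw).M := (lev F c₂).one_mem
  have h3 := lam_map (glCD (F := F) cb o₁ c₂ o₂ h₂ w hs.hw) (aP c₁ cb o₁ h₁ σ)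
    (gl_live cb c₁ o₁ h₁ c₂ o₂ h₂ w hs.hw σ hl) f.1 ((mem_IndSp_iff c₁ cb o₁ h₁ σ f.1).1 f.2)
    (gl_csupp cb c₁ o₁ h₁ c₂ o₂ h₂ w Ω' Ω hs σ hσ f hf) x 1 h1m
  have h4 : (⟨fun g => x (f.1 g), IndSp_comp _ σ σ x hx f⟩ : (parD c₁ cb o₁ h₁).IndSp σ) ∈
      IndOn (parD c₁ cb o₁ h₁) σ Ω := by
    intro g hg
    show x (f.1 g) = 0
    rw [hf g hg, map_zero]
  rw [← ha f hf, ← hL, ha _ h4, ← h3]

end

end

end Pool.Agent.Lib.MP_ca1492_al.P
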