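import Mathlib
import Pool.Agent.Lib.MP_ca1492_al.P.CLead

/-!
# MP_ca1492_al, p-adic side, module CHom: homomorphisms between induced representations

* `cellT w`: the linear maps `a : E → W` with `a (cfac_w(m) σ(w m w⁻¹) e) = σ₂(m) a(e)`
  (`m ∈ lev F c₂`), `w` associate.
* `lam_jac`: the cell functional factors through the Jacquet module.
* `hom_step`: a homomorphism `Ind σ → Ind₂ σ₂` whose value at `1` vanishes on `IndOn Ω'` has a leading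
  term in `cellT w` for the step `Ω' ⊆ Ω`.
* `lead_surj`: if `σ₂` is injective every element of `cellT w` is a leading term.
* `hom_bound`: `dim Hom(Ind σ, Ind₂ σ₂) ≤ ∑ dim cellT`.
-/

set_option autoImplicit false

namespace Pool.Agent.Lib.MP_ca1492_al.P

open Topology Matrix ValuativeRel

noncomputable section

variable {F : Type} [Field F] [ValuativeRel F] [TopologicalSpace F]
  [IsNonarchimedeanLocalField F] {κ : Type} [Fintype κ] [DecidableEq κ]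
variable {E W : Type} [AddCommGroup E] [Module ℂ E] [AddCommGroup W] [Module ℂ W]
variable {ι₀ ι₁ ι₂ : Type}

/-- the twisted homomorphisms of the cell `w` -/
def cellT (cb : κ → ι₀) (c₁ : κ → ι₁) (o₁ : κ → ℤ) (c₂ : κ → ι₂) (o₂ : κ → ℤ)
    (h₂ : ∀ i j, c₂ i = c₂ j ↔ cb i = cb j ∧ o₂ i = o₂ j) (w : Equiv.Perm κ)
    (σ : Representation ℂ (lev F c₁) E) (σ₂ : Representation ℂ (lev F c₂) W) :
    Submodule ℂ (E →ₗ[ℂ] W) where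
  carrier := {a | ∀ (hw : ∀ i, cb (w i) = cb i) (hl : ∀ i j, c₁ (w i) = c₁ (w j) ↔ c₂ i = c₂ j)
    (m : lev F cb) (hm : m.1 ∈ lev F c₂) (e : E),
    a (cfac cb o₁ c₂ o₂ h₂ w hw m •
      σ ⟨permG F w * m.1 * (permG F w)⁻¹, permG_conj_mem c₁ c₂ w hl m.1 hm⟩ e) =
        σ₂ ⟨m.1, hm⟩ (a e)}
  add_mem' := by
    intro a b ha hb hw hl m hm e
    rw [LinearMap.add_apply, LinearMap.add_apply, ha hw hl m hm, hb hw hl m hm, map_add]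
  zero_mem' := by
    intro hw hl m hm e
    rw [LinearMap.zero_apply, LinearMap.zero_apply, map_zero]
  smul_mem' := by
    intro c a ha hw hl m hm e
    rw [LinearMap.smul_apply, LinearMap.smul_apply, ha hw hl m hm, map_smul]

/-- a homomorphism into an induced representation is determined by its value at `1` -/
theorem hom_eq_zero_of_ev {G : Type} [Group G] [TopologicalSpace G] [IsTopologicalGroup G]
    {H M : Subgroup G} (D : PD H M) {V : Type} [AddCommGroup V] [Module ℂ V]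
    (π : Representation ℂ H V) (σ : Representation ℂ M W) (Φ : V →ₗ[ℂ] D.IndSp σ)
    (hΦ : Equi π (D.Ind σ) Φ) (h : ∀ f, (Φ f).1 1 = 0) : Φ = 0 := by
  refine LinearMap.ext fun f => Subtype.ext (funext fun g => ?_)
  have h1 := h (π g f)
  rw [hΦ] at h1
  have h2 : (D.Ind σ g (Φ f)).1 1 = (Φ f).1 g := by
    show (Φ f).1 (1 * g) = _
    rw [one_mul]
  rw [h2] at h1
  exact h1

/-- invariance of the value at `1` under `N` -/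
theorem ev_inv {G : Type} [Group G] [TopologicalSpace G] [IsTopologicalGroup G]
    {H M : Subgroup G} (D : PD H M) {V : Type} [AddCommGroup V] [Module ℂ V]
    (π : Representation ℂ H V) (σ : Representation ℂ M W) (Φ : V →ₗ[ℂ] D.IndSp σ)
    (hΦ : Equi π (D.Ind σ) Φ) (n : H) (hn : n.1 ∈ D.N) (f : V) :
    (Φ (π n f)).1 1 = (Φ f).1 1 := by
  rw [hΦ]
  show (Φ f).1 (1 * n) = (Φ f).1 1
  have h1 := (Φ f).2.1 1 M.one_mem n.1 hn 1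
  have h2 : (⟨1, D.hM M.one_mem⟩ * ⟨n.1, D.hN hn⟩ * 1 : H) = 1 * n := by
    apply Subtype.ext
    show (1 : G) * n.1 * 1 = 1 * n.1
    rw [mul_one]
  rw [h2] at h1
  rw [h1]
  have h3 : σ ⟨1, M.one_mem⟩ = 1 := map_one σ
  rw [h3, Module.End.one_apply]

/-- equivariance of the value at `1` under `M` -/
theorem ev_equi {G : Type} [Group G] [TopologicalSpace G] [IsTopologicalGroup G]
    {H M : Subgroup G} (D : PD H M) {V : Type} [AddCommGroup V] [Module ℂ V]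
    (π : Representation ℂ H V) (σ : Representation ℂ M W) (Φ : V →ₗ[ℂ] D.IndSp σ)
    (hΦ : Equi π (D.Ind σ) Φ) (m : H) (hm : m.1 ∈ M) (f : V) :
    (Φ (π m f)).1 1 = σ ⟨m.1, hm⟩ ((Φ f).1 1) := by
  rw [hΦ]
  show (Φ f).1 (1 * m) = _
  have h1 := (Φ f).2.1 m.1 hm 1 D.N.one_mem 1
  have h2 : (⟨m.1, D.hM hm⟩ * ⟨1, D.hN D.N.one_mem⟩ * 1 : H) = 1 * m := by
    apply Subtype.ext
    show m.1 * (1 : G) * 1 = 1 * m.1
    rw [mul_one, mul_one, one_mul]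
  rw [h2] at h1
  exact h1

/-- the value at `1` as a linear map -/
def evL {G : Type} [Group G] [TopologicalSpace G] [IsTopologicalGroup G]
    {H M : Subgroup G} (D : PD H M) {V : Type} [AddCommGroup V] [Module ℂ V]
    (σ : Representation ℂ M W) (Φ : V →ₗ[ℂ] D.IndSp σ) : V →ₗ[ℂ] W where
  toFun f := (Φ f).1 1
  map_add' a b := by
    rw [map_add]
    rfl
  map_smul' c a := by
    rw [map_smul]
    rfl

section

variable (cb : κ → ι₀) (c₁ : κ → ι₁) (o₁ : κ → ℤ)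
  (h₁ : ∀ i j, c₁ i = c₁ j ↔ cb i = cb j ∧ o₁ i = o₁ j) (c₂ : κ → ι₂) (o₂ : κ → ℤ)
  (h₂ : ∀ i j, c₂ i = c₂ j ↔ cb i = cb j ∧ o₂ i = o₂ j) (w : Equiv.Perm κ)
  (Ω' Ω : Set (lev F cb)) (hs : CStep cb o₁ o₂ w Ω' Ω)
  (σ : Representation ℂ (lev F c₁) E) (σ₂ : Representation ℂ (lev F c₂) W)

include hs in
/-- `IndOn Ω` is stable under right translation by `upp F cb o₂` -/
theorem IndOn_right (f : (parD c₁ cb o₁ h₁).IndSp σ) (hf : f ∈ IndOn (parD c₁ cb o₁ h₁) σ Ω)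
    (q : lev F cb) (hq : q.1 ∈ upp F cb o₂) :
    (parD c₁ cb o₁ h₁).Ind σ q f ∈ IndOn (parD c₁ cb o₁ h₁) σ Ω := by
  intro g hg
  have hgm : g * q ∉ Ω := by
    intro hgm
    apply hg
    rcases (hs.union (g * q)).1 hgm with h3 | h3
    · have h4 := hs.right' (g * q) q⁻¹ ((upp F cb o₂).inv_mem hq) h3
      rw [mul_inv_cancel_right] at h4
      exact (hs.union g).2 (Or.inl h4)
    · obtain ⟨p, hp, q', hq', he⟩ := h3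
      refine (hs.union g).2 (Or.inr ⟨p, hp, q' * q.1⁻¹,
        (upp F cb o₂).mul_mem hq' ((upp F cb o₂).inv_mem hq), ?_⟩)
      have h5 : g.1 = (g * q).1 * q.1⁻¹ := by
        rw [Subgroup.coe_mul, mul_inv_cancel_right]
      rw [h5, he]
      simp only [mul_assoc]
  exact hf (g * q) hgm

/-- the cell functional factors through the Jacquet module -/
theorem lam_jac (hσ : IsSm σ) (hl : ∀ i j, c₁ (w i) = c₁ (w j) → c₂ i = c₂ j)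
    (f : (parD c₁ cb o₁ h₁).IndSp σ) (hf : f ∈ IndOn (parD c₁ cb o₁ h₁) σ Ω)
    (hk : f ∈ (parD c₂ cb o₂ h₂).kerJ ((parD c₁ cb o₁ h₁).Ind σ)) :
    (glCD (F := F) cb o₁ c₂ o₂ h₂ w hs.hw).Lam f.1 1 = 0 := by
  obtain ⟨K, hK, hKc, h0⟩ := ((parD c₂ cb o₂ h₂).mem_kerJ_iff _
    ((parD c₁ cb o₁ h₁).ind_smooth σ) f).1 hk
  obtain ⟨Λ, hΛ, hinv⟩ := lam_lin cb c₁ o₁ h₁ c₂ o₂ h₂ w Ω' Ω hs σ hσ hl 1 (lev F c₂).one_mem
  have hKc' := PD.compact_subgroupOf K (hK.trans (parD c₂ cb o₂ h₂).hN) hKc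
  obtain ⟨U, hU, hfU⟩ := (isSm_iff _).1 ((parD c₁ cb o₁ h₁).ind_smooth σ) f
  obtain ⟨s, hne, hsK, -, hs'⟩ := avg_sum (K.subgroupOf (lev F cb)) hKc' U hU
  have h1 := hs' _ ((parD c₁ cb o₁ h₁).Ind σ) f (fun u hu => hfU u hu)
  rw [h0] at h1
  have hmem : ∀ k ∈ s, (parD c₁ cb o₁ h₁).Ind σ k f ∈ IndOn (parD c₁ cb o₁ h₁) σ Ω := by
    intro k hk
    have h2 : k.1 ∈ uni F cb o₂ := hK (hsK k hk)
    exact IndOn_right cb c₁ o₁ h₁ o₂ w Ω' Ω hs σ f hf k h2.1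
  have h2 : (∑ k ∈ s.attach, (⟨(parD c₁ cb o₁ h₁).Ind σ k.1 f, hmem k.1 k.2⟩ :
      IndOn (parD c₁ cb o₁ h₁) σ Ω)) = 0 := by
    apply Subtype.ext
    rw [Submodule.coe_sum, Submodule.coe_zero]
    have h3 : (∑ k ∈ s.attach, ((⟨(parD c₁ cb o₁ h₁).Ind σ k.1 f, hmem k.1 k.2⟩ :
        IndOn (parD c₁ cb o₁ h₁) σ Ω) : (parD c₁ cb o₁ h₁).IndSp σ)) =
        ∑ k ∈ s, (parD c₁ cb o₁ h₁).Ind σ k f :=
      Finset.sum_attach s (fun k => (parD c₁ cb o₁ h₁).Ind σ k f)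
    rw [h3]
    have h4 : ((s.card : ℂ))⁻¹ ≠ 0 := inv_ne_zero (Nat.cast_ne_zero.2 hne.card_pos.ne')
    exact (smul_eq_zero.1 h1.symm).resolve_left h4
  have h3 := congrArg Λ h2
  rw [map_sum, map_zero] at h3
  have h4 : ∀ k ∈ s.attach, Λ (⟨(parD c₁ cb o₁ h₁).Ind σ k.1 f, hmem k.1 k.2⟩ :
      IndOn (parD c₁ cb o₁ h₁) σ Ω) = Λ ⟨f, hf⟩ := by
    intro k _
    have h5 : k.1.1 ∈ uni F cb o₂ := hK (hsK k.1 k.2)
    rw [hΛ, hΛ]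
    exact hinv k.1 h5 ⟨f, hf⟩
  rw [Finset.sum_congr rfl h4, Finset.sum_const, Finset.card_attach] at h3
  have h5 : (s.card : ℂ) • Λ ⟨f, hf⟩ = 0 := by
    rw [← h3, Nat.cast_smul_eq_nsmul]
  have h6 := (smul_eq_zero.1 h5).resolve_left (Nat.cast_ne_zero.2 hne.card_pos.ne')
  rw [hΛ] at h6
  exact h6

/-- leading term of a homomorphism -/
theorem hom_step (hσ : IsSm σ) (hl : ∀ i j, c₁ (w i) = c₁ (w j) ↔ c₂ i = c₂ j)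
    (Φ : (parD c₁ cb o₁ h₁).IndSp σ →ₗ[ℂ] (parD c₂ cb o₂ h₂).IndSp σ₂)
    (hΦ : Equi ((parD c₁ cb o₁ h₁).Ind σ) ((parD c₂ cb o₂ h₂).Ind σ₂) Φ)
    (h0 : ∀ f ∈ IndOn (parD c₁ cb o₁ h₁) σ Ω', (Φ f).1 1 = 0) :
    ∃! a : E →ₗ[ℂ] W, a ∈ cellT cb c₁ o₁ c₂ o₂ h₂ w σ σ₂ ∧
      ∀ f ∈ IndOn (parD c₁ cb o₁ h₁) σ Ω,
        (Φ f).1 1 = a ((glCD (F := F) cb o₁ c₂ o₂ h₂ w hs.hw).Lam f.1 1) := by
  obtain ⟨a, ha, huniq⟩ := fun_live cb c₁ o₁ h₁ c₂ o₂ h₂ w Ω' Ω hs σ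
    (evL (parD c₂ cb o₂ h₂) σ₂ Φ)
    (fun n hn f => ev_inv (parD c₂ cb o₂ h₂) _ σ₂ Φ hΦ n hn f) h0 hσ hl
  refine ⟨a, ⟨?_, ha⟩, fun b hb => huniq b hb.2⟩
  intro hw hl' m hm e
  exact step_equi cb c₁ o₁ h₁ c₂ o₂ h₂ w Ω' Ω hs σ (evL (parD c₂ cb o₂ h₂) σ₂ Φ) hσ hl a ha m hm
    (σ₂ ⟨m.1, hm⟩) (fun f => ev_equi (parD c₂ cb o₂ h₂) _ σ₂ Φ hΦ m hm f) e

/-- every twisted homomorphism is a leading term if `σ₂` is injective -/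
theorem lead_surj (hσ : IsSm σ) (hi : IsInjSm σ₂)
    (hl : ∀ i j, c₁ (w i) = c₁ (w j) ↔ c₂ i = c₂ j) (a : E →ₗ[ℂ] W)
    (ha : a ∈ cellT cb c₁ o₁ c₂ o₂ h₂ w σ σ₂) :
    ∃ Φ : (parD c₁ cb o₁ h₁).IndSp σ →ₗ[ℂ] (parD c₂ cb o₂ h₂).IndSp σ₂,
      Equi ((parD c₁ cb o₁ h₁).Ind σ) ((parD c₂ cb o₂ h₂).Ind σ₂) Φ ∧
      ∀ f ∈ IndOn (parD c₁ cb o₁ h₁) σ Ω,
        (Φ f).1 1 = a ((glCD (F := F) cb o₁ c₂ o₂ h₂ w hs.hw).Lam f.1 1) := by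
  set D₁ := parD (F := F) c₁ cb o₁ h₁ with hD₁
  set D₂ := parD (F := F) c₂ cb o₂ h₂ with hD₂
  obtain ⟨Λ, hΛ, -⟩ := lam_lin cb c₁ o₁ h₁ c₂ o₂ h₂ w Ω' Ω hs σ hσ (fun i j h => (hl i j).1 h) 1
    (lev F c₂).one_mem
  set q : D₁.IndSp σ →ₗ[ℂ] (D₁.IndSp σ ⧸ D₂.kerJ (D₁.Ind σ)) := (D₂.kerJ (D₁.Ind σ)).mkQ with hq
  set U : Submodule ℂ (D₁.IndSp σ ⧸ D₂.kerJ (D₁.Ind σ)) := (IndOn D₁ σ Ω).map q with hU
  have hstab : Stab (D₂.Jac (D₁.Ind σ)) U := by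
    rintro m x ⟨f, hf, rfl⟩
    have hm : m.1 ∈ upp F cb o₂ := CFun_lev_upp cb c₂ o₂ h₂ m.1 m.2
    exact ⟨D₁.Ind σ ⟨m.1, D₂.hM m.2⟩ f,
      IndOn_right cb c₁ o₁ h₁ o₂ w Ω' Ω hs σ f hf ⟨m.1, D₂.hM m.2⟩ hm, rfl⟩
  -- the restriction of `q` to `IndOn Ω`, onto `U`
  let g : IndOn D₁ σ Ω →ₗ[ℂ] U := LinearMap.codRestrict U (q ∘ₗ (IndOn D₁ σ Ω).subtype)
    (fun f => ⟨f.1, f.2, rfl⟩)
  have hg : Function.Surjective g := by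
    rintro ⟨x, f, hf, rfl⟩
    exact ⟨⟨f, hf⟩, rfl⟩
  obtain ⟨S, hS⟩ := g.exists_rightInverse_of_surjective (LinearMap.range_eq_top.2 hg)
  have hS' : ∀ u, g (S u) = u := fun u => LinearMap.congr_fun hS u
  have hker : ∀ f : IndOn D₁ σ Ω, g f = 0 → Λ f = 0 := by
    intro f hf
    have h1 : q f.1 = 0 := congrArg Subtype.val hf
    rw [hq, Submodule.mkQ_apply, Submodule.Quotient.mk_eq_zero] at h1
    rw [hΛ]
    exact lam_jac cb c₁ o₁ h₁ c₂ o₂ h₂ w Ω' Ω hs σ hσ (fun i j h => (hl i j).1 h) f.1 f.2 h1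
  have hfac : ∀ f : IndOn D₁ σ Ω, Λ (S (g f)) = Λ f := by
    intro f
    rw [← sub_eq_zero, ← map_sub]
    exact hker _ (by rw [map_sub, hS', sub_self])
  let φ : U →ₗ[ℂ] W := a ∘ₗ Λ ∘ₗ S
  have hφ : ∀ f : IndOn D₁ σ Ω, φ (g f) = a (Λ f) := fun f => by
    show a (Λ (S (g f))) = _
    rw [hfac]
  have hequi : Equi (subRep (D₂.Jac (D₁.Ind σ)) U hstab) σ₂ φ := by
    intro m u
    obtain ⟨f, rfl⟩ := hg u
    have hm1 : m.1 ∈ lev F cb := D₂.hM m.2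
    have hm : m.1 ∈ upp F cb o₂ := CFun_lev_upp cb c₂ o₂ h₂ m.1 m.2
    have hmem := IndOn_right cb c₁ o₁ h₁ o₂ w Ω' Ω hs σ f.1 f.2 ⟨m.1, hm1⟩ hm
    have h1 : subRep (D₂.Jac (D₁.Ind σ)) U hstab m (g f) = g ⟨D₁.Ind σ ⟨m.1, hm1⟩ f.1, hmem⟩ :=
      rfl
    rw [h1, hφ, hφ, hΛ, hΛ]
    obtain ⟨-, h4⟩ := lam_equi cb c₁ o₁ h₁ c₂ o₂ h₂ w Ω' Ω hs σ hσ hl f.1 f.2 ⟨m.1, hm1⟩ m.2
    have h5 := ha hs.hw hl ⟨m.1, hm1⟩ m.2
      ((glCD (F := F) cb o₁ c₂ o₂ h₂ w hs.hw).Lam f.1.1 1)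
    rw [← h4] at h5
    exact h5
  obtain ⟨Ψ, hΨ, hext⟩ := hi _ (D₂.Jac (D₁.Ind σ)) (D₂.jac_smooth _ (D₁.ind_smooth σ)) U hstab φ
    hequi
  obtain ⟨Φ, hΦ, hΦe⟩ := D₂.frob_inv (D₁.Ind σ) (D₁.ind_smooth σ) σ₂ Ψ hΨ
  refine ⟨Φ, hΦ, fun f hf => ?_⟩
  rw [hΦe, map_one, Module.End.one_apply]
  have h1 := hext (g ⟨f, hf⟩)
  rw [hφ, hΛ] at h1
  exact h1

end

end

end Pool.Agent.Lib.MP_ca1492_al.P
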