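import Mathlib

/-!
# MP_ca1492_al, p-adic side, module Gi: generalized index, compact open subgroups of a subgroup

`gi A B = [A : A ∩ B] / [B : A ∩ B]` plays the role of `vol A / vol B`. No measure theory.

Proofs. `cj m A` is the image of `A` under the automorphism `g ↦ m g m⁻¹`
(`Subgroup.relIndex_map_map_of_injective` for `relIndex_cj`).
* `gi_mul`: put `D = A ⊓ B ⊓ C`, of finite index in `A`, `B`, `C` (`Subgroup.relIndex_inf_ne_zero`,
  `Subgroup.Commensurable.trans`); for any `D ≤ A ⊓ B` with `D.relIndex A ≠ 0`, `D.relIndex B ≠ 0`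
  one has `gi A B = D.relIndex A / D.relIndex B` (`Subgroup.relIndex_mul_relIndex` and
  `Subgroup.inf_relIndex_left` etc.). Prove this as a first lemma.
* `co_comm`: `A` compact, `B = N ∩ O` with `O` open: the left cosets `a * O`, `a ∈ A`, cover `A`;
  finitely many suffice, and `a * O ∩ A ⊆ a * B` because `A ≤ N`. So `B.relIndex A ≠ 0`.
* `co_sup`: `B` compact with `A ≤ B ≤ N`, `A` open in `N`: `B = N ∩ ⋃_{b ∈ B} b O`.
* `co_stab`: for a compact subgroup `K` normalizing `N`, and `A` compact open in `N`: the set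
  `{(k, a) | k⁻¹ a k ∈ O}` is open and contains `{1} × A`; by compactness of `A` there is a
  neighbourhood `U` of `1` with `k⁻¹ a k ∈ O` for `k ∈ U`, `a ∈ A`, so `cj k⁻¹ A ≤ A` for
  `k ∈ K ∩ U`, and `cj k A = A` for `k ∈ K ∩ U ∩ U⁻¹`. So the subgroup `{k ∈ K | cj k A = A}` is
  open in `K`, of finite index; take the intersection of the finitely many conjugates `cj k A`.
-/

set_option autoImplicit false

namespace Pool.Agent.Lib.MP_ca1492_al.P

open Topology

noncomputable section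

variable {G : Type} [Group G]

/-- the conjugate `m A m⁻¹` -/
def cj (m : G) (A : Subgroup G) : Subgroup G := A.map (MulAut.conj m).toMonoidHom

/-- the generalized index `[A : A ∩ B] / [B : A ∩ B]` -/
def gi (A B : Subgroup G) : ℝ := (B.relIndex A : ℝ) / (A.relIndex B : ℝ)

/-- `A` is a compact open subgroup of the subgroup `N` -/
def CO [TopologicalSpace G] (N A : Subgroup G) : Prop :=
  A ≤ N ∧ IsCompact (A : Set G) ∧ ∃ O : Set G, IsOpen O ∧ (A : Set G) = (N : Set G) ∩ O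

/-- `m` normalizes `N` -/
def Nrm (N : Subgroup G) (m : G) : Prop := ∀ g : G, m * g * m⁻¹ ∈ N ↔ g ∈ N

theorem mem_cj {m : G} {A : Subgroup G} {g : G} : g ∈ cj m A ↔ m⁻¹ * g * m ∈ A := by
  unfold cj
  rw [Subgroup.mem_map]
  constructor
  · rintro ⟨y, hy, rfl⟩
    simpa [MulAut.conj_apply, mul_assoc] using hy
  · intro h
    exact ⟨_, h, by simp [MulAut.conj_apply, mul_assoc]⟩

theorem cj_one (A : Subgroup G) : cj 1 A = A := by
  ext x
  rw [mem_cj]
  simp

theorem cj_mul (m m' : G) (A : Subgroup G) : cj (m * m') A = cj m (cj m' A) := by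
  ext x
  rw [mem_cj, mem_cj, mem_cj]
  have e : (m * m')⁻¹ * x * (m * m') = m'⁻¹ * (m⁻¹ * x * m) * m' := by group
  rw [e]

theorem cj_mono (m : G) {A B : Subgroup G} (h : A ≤ B) : cj m A ≤ cj m B := by
  intro x hx
  rw [mem_cj] at hx ⊢
  exact h hx

theorem cj_inf (m : G) (A B : Subgroup G) : cj m (A ⊓ B) = cj m A ⊓ cj m B := by
  ext x
  rw [Subgroup.mem_inf, mem_cj, mem_cj, mem_cj, Subgroup.mem_inf]

theorem relIndex_cj (m : G) (A B : Subgroup G) : (cj m A).relIndex (cj m B) = A.relIndex B := by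
  exact Subgroup.relIndex_map_map_of_injective _ _ (MulAut.conj m).injective

theorem cj_eq_of_nrm {N : Subgroup G} {m : G} (h : Nrm N m) : cj m N = N := by
  ext x
  rw [mem_cj, ← h (m⁻¹ * x * m)]
  have e : m * (m⁻¹ * x * m) * m⁻¹ = x := by group
  rw [e]

theorem nrm_one (N : Subgroup G) : Nrm N 1 := by
  intro g
  simp

theorem nrm_mul {N : Subgroup G} {m m' : G} (h : Nrm N m) (h' : Nrm N m') : Nrm N (m * m') := by
  intro g
  have e : m * m' * g * (m * m')⁻¹ = m * (m' * g * m'⁻¹) * m⁻¹ := by group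
  rw [e, h, h']

theorem nrm_inv {N : Subgroup G} {m : G} (h : Nrm N m) : Nrm N m⁻¹ := by
  intro g
  rw [← h (m⁻¹ * g * m⁻¹⁻¹)]
  have e : m * (m⁻¹ * g * m⁻¹⁻¹) * m⁻¹ = g := by group
  rw [e]

theorem gi_self (A : Subgroup G) : gi A A = 1 := by
  unfold gi
  rw [Subgroup.relIndex_self, Nat.cast_one, div_one]

theorem gi_pos {A B : Subgroup G} (h : A.Commensurable B) : 0 < gi A B := by
  unfold gi
  have h1 : 0 < B.relIndex A := Nat.pos_of_ne_zero h.2
  have h2 : 0 < A.relIndex B := Nat.pos_of_ne_zero h.1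
  positivity

theorem gi_eq_of_le {A B D : Subgroup G} (hA : D ≤ A) (hB : D ≤ B) (h : D.relIndex A ≠ 0)
    (h' : D.relIndex B ≠ 0) : gi A B = (D.relIndex A : ℝ) / (D.relIndex B : ℝ) := by
  have e1 := Subgroup.relIndex_mul_relIndex D (A ⊓ B) A (le_inf hA hB) inf_le_left
  have e2 := Subgroup.relIndex_mul_relIndex D (A ⊓ B) B (le_inf hA hB) inf_le_right
  rw [Subgroup.inf_relIndex_left] at e1
  rw [Subgroup.inf_relIndex_right] at e2
  have h3 : D.relIndex (A ⊓ B) ≠ 0 := by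
    intro h0
    rw [h0, zero_mul] at e1
    exact h e1.symm
  have h4 : ((D.relIndex (A ⊓ B) : ℕ) : ℝ) ≠ 0 := Nat.cast_ne_zero.2 h3
  unfold gi
  rw [← e1, ← e2, Nat.cast_mul, Nat.cast_mul, mul_div_mul_left _ _ h4]

theorem gi_mul {A B C : Subgroup G} (h : A.Commensurable B) (h' : B.Commensurable C) :
    gi A B * gi B C = gi A C := by
  have h'' := h.trans h'
  have one : ∀ X : Subgroup G, X.relIndex X ≠ 0 := fun X => by
    rw [Subgroup.relIndex_self]
    exact one_ne_zero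
  have dA : (A ⊓ B ⊓ C).relIndex A ≠ 0 :=
    Subgroup.relIndex_inf_ne_zero (Subgroup.relIndex_inf_ne_zero (one A) h.2) h''.2
  have dB : (A ⊓ B ⊓ C).relIndex B ≠ 0 :=
    Subgroup.relIndex_inf_ne_zero (Subgroup.relIndex_inf_ne_zero h.1 (one B)) h'.2
  have dC : (A ⊓ B ⊓ C).relIndex C ≠ 0 :=
    Subgroup.relIndex_inf_ne_zero (Subgroup.relIndex_inf_ne_zero h''.1 h'.1) (one C)
  have lA : A ⊓ B ⊓ C ≤ A := inf_le_left.trans inf_le_left
  have lB : A ⊓ B ⊓ C ≤ B := inf_le_left.trans inf_le_right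
  have lC : A ⊓ B ⊓ C ≤ C := inf_le_right
  rw [gi_eq_of_le lA lB dA dB, gi_eq_of_le lB lC dB dC, gi_eq_of_le lA lC dA dC]
  have dB' : (((A ⊓ B ⊓ C).relIndex B : ℕ) : ℝ) ≠ 0 := Nat.cast_ne_zero.2 dB
  have dC' : (((A ⊓ B ⊓ C).relIndex C : ℕ) : ℝ) ≠ 0 := Nat.cast_ne_zero.2 dC
  field_simp

theorem gi_symm (A B : Subgroup G) : gi B A = (gi A B)⁻¹ := by
  unfold gi
  rw [inv_div]

theorem gi_of_le {A B : Subgroup G} (h : B ≤ A) : gi A B = B.relIndex A := by
  unfold gi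
  rw [Subgroup.relIndex_eq_one.2 h, Nat.cast_one, div_one]

theorem gi_cj (m : G) (A B : Subgroup G) : gi (cj m A) (cj m B) = gi A B := by
  unfold gi
  rw [relIndex_cj, relIndex_cj]

section Top

variable [TopologicalSpace G] [IsTopologicalGroup G]

theorem Gi_index {N A B : Subgroup G} (hA : CO N A) (hB : CO N B) : B.relIndex A ≠ 0 := by
  have hc : CompactSpace A := isCompact_iff_compactSpace.1 hA.2.1
  obtain ⟨O, hO, hBO⟩ := hB.2.2
  have ho : IsOpen ((B.subgroupOf A : Subgroup A) : Set A) := by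
    have e : ((B.subgroupOf A : Subgroup A) : Set A) = (fun x : A => (x : G)) ⁻¹' O := by
      ext x
      constructor
      · intro hx
        have h4 : (x : G) ∈ (B : Set G) := hx
        rw [hBO] at h4
        exact h4.2
      · intro hx
        have h4 : (x : G) ∈ (N : Set G) ∩ O := ⟨hA.1 x.2, hx⟩
        rw [← hBO] at h4
        exact h4
    rw [e]
    exact hO.preimage continuous_subtype_val
  have hf : Finite (A ⧸ B.subgroupOf A) := Subgroup.quotient_finite_of_isOpen _ ho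
  have : (B.subgroupOf A).FiniteIndex := Subgroup.finiteIndex_of_finite_quotient
  exact this.index_ne_zero

theorem co_comm {N A B : Subgroup G} (hA : CO N A) (hB : CO N B) : A.Commensurable B := by
  exact ⟨Gi_index hB hA, Gi_index hA hB⟩

theorem co_inf [T2Space G] {N A B : Subgroup G} (hA : CO N A) (hB : CO N B) :
    CO N (A ⊓ B) := by
  obtain ⟨h1, h2, O, hO, h3⟩ := hA
  obtain ⟨_, h2', O', hO', h3'⟩ := hB
  refine ⟨inf_le_left.trans h1, h2.inter h2', O ∩ O', hO.inter hO', ?_⟩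
  rw [Subgroup.coe_inf, h3, h3']
  ext x
  constructor
  · rintro ⟨⟨a, b⟩, _, c⟩
    exact ⟨a, b, c⟩
  · rintro ⟨a, b, c⟩
    exact ⟨⟨a, b⟩, a, c⟩

theorem co_cj {N A : Subgroup G} {m : G} (hm : Nrm N m) (hA : CO N A) : CO N (cj m A) := by
  obtain ⟨h1, h2, O, hO, h3⟩ := hA
  refine ⟨?_, ?_, (fun x => m⁻¹ * x * m) ⁻¹' O, hO.preimage (by fun_prop), ?_⟩
  · have h4 := cj_mono m h1
    rwa [cj_eq_of_nrm hm] at h4
  · have e : (cj m A : Set G) = (fun x => m * x * m⁻¹) '' (A : Set G) := by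
      ext x
      constructor
      · intro hx
        exact ⟨_, mem_cj.1 hx, by group⟩
      · rintro ⟨y, hy, rfl⟩
        refine mem_cj.2 ?_
        have h6 : m⁻¹ * (m * y * m⁻¹) * m = y := by group
        rw [h6]
        exact hy
    rw [e]
    exact h2.image (by fun_prop)
  · ext x
    have h4 : x ∈ N ↔ m⁻¹ * x * m ∈ N := by
      rw [← mem_cj, cj_eq_of_nrm hm]
    have h5 : m⁻¹ * x * m ∈ A ↔ m⁻¹ * x * m ∈ N ∧ m⁻¹ * x * m ∈ O := by
      rw [← SetLike.mem_coe, h3]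
      rfl
    constructor
    · intro hx
      obtain ⟨a, b⟩ := h5.1 (mem_cj.1 hx)
      exact ⟨h4.2 a, b⟩
    · rintro ⟨a, b⟩
      exact mem_cj.2 (h5.2 ⟨h4.1 a, b⟩)

theorem co_sup {N A B : Subgroup G} (hA : CO N A) (hAB : A ≤ B) (hBN : B ≤ N)
    (hB : IsCompact (B : Set G)) : CO N B := by
  obtain ⟨h1, h2, O, hO, h3⟩ := hA
  refine ⟨hBN, hB, ⋃ b ∈ B, (fun x => b⁻¹ * x) ⁻¹' O,
    isOpen_biUnion fun b _ => hO.preimage (by fun_prop), ?_⟩
  ext x
  constructor
  · intro hx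
    refine ⟨hBN hx, ?_⟩
    rw [Set.mem_iUnion₂]
    refine ⟨x, hx, ?_⟩
    show x⁻¹ * x ∈ O
    rw [inv_mul_cancel]
    have h4 : (1 : G) ∈ (A : Set G) := A.one_mem
    rw [h3] at h4
    exact h4.2
  · rintro ⟨hx, hx'⟩
    rw [Set.mem_iUnion₂] at hx'
    obtain ⟨b, hb, hbx⟩ := hx'
    have h4 : b⁻¹ * x ∈ (N : Set G) ∩ O := ⟨N.mul_mem (N.inv_mem (hBN hb)) hx, hbx⟩
    rw [← h3] at h4
    have h5 : x = b * (b⁻¹ * x) := by group
    show x ∈ B
    rw [h5]
    exact B.mul_mem hb (hAB h4)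

/-- the intersection with a smaller closed subgroup -/
theorem co_sub [T2Space G] {N A N' : Subgroup G} (hA : CO N A) (hN : N' ≤ N)
    (hc : IsClosed (N' : Set G)) : CO N' (A ⊓ N') := by
  obtain ⟨h1, h2, O, hO, h3⟩ := hA
  refine ⟨inf_le_right, h2.inter_right hc, O, hO, ?_⟩
  rw [Subgroup.coe_inf, h3]
  ext x
  constructor
  · rintro ⟨⟨_, b⟩, c⟩
    exact ⟨c, b⟩
  · rintro ⟨a, b⟩
    exact ⟨⟨hN a, b⟩, a⟩

theorem co_of_basis (hG : ∀ U ∈ 𝓝 (1 : G), ∃ K : Subgroup G, IsOpen (K : Set G) ∧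
      IsCompact (K : Set G) ∧ (K : Set G) ⊆ U) (N : Subgroup G) (hN : IsClosed (N : Set G))
    (U : Set G) (hU : U ∈ 𝓝 (1 : G)) : ∃ A : Subgroup G, CO N A ∧ (A : Set G) ⊆ U := by
  obtain ⟨K, hKo, hKc, hKU⟩ := hG U hU
  refine ⟨N ⊓ K, ⟨inf_le_left, ?_, K, hKo, rfl⟩, fun x hx => hKU hx.2⟩
  rw [inf_comm]
  exact hKc.inter_right hN

theorem co_stab [T2Space G] {N A : Subgroup G} (hA : CO N A) (K : Subgroup G)
    (hK : IsCompact (K : Set G)) (hn : ∀ k ∈ K, Nrm N k) :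
    ∃ A' : Subgroup G, CO N A' ∧ A' ≤ A ∧ ∀ k ∈ K, cj k A' = A' := by
  obtain ⟨O, hO, hAO⟩ := hA.2.2
  have hmA : ∀ x, x ∈ A ↔ x ∈ N ∧ x ∈ O := fun x => by
    rw [← SetLike.mem_coe, hAO]
    rfl
  have hn' : IsOpen {p : G × G | p.1⁻¹ * p.2 * p.1 ∈ O} :=
    hO.preimage (by fun_prop)
  obtain ⟨u, v, hu, _, h1u, hAv, huv⟩ := generalized_tube_lemma (isCompact_singleton (x := (1 : G)))
    hA.2.1 hn' (by
      rintro ⟨a, b⟩ ⟨ha, hb⟩
      have ha' : a = 1 := ha
      subst ha'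
      show (1 : G)⁻¹ * b * 1 ∈ O
      have hb' : b ∈ A := hb
      simpa using ((hmA b).1 hb').2)
  have key : ∀ k ∈ K, k ∈ u → A ≤ cj k A := by
    intro k hk hku a ha
    rw [mem_cj, hmA]
    have h1 : ((k, a) : G × G) ∈ {p : G × G | p.1⁻¹ * p.2 * p.1 ∈ O} := huv ⟨hku, hAv ha⟩
    refine ⟨?_, h1⟩
    have h2 := nrm_inv (hn k hk) a
    rw [inv_inv] at h2
    exact h2.2 (hA.1 ha)
  let T : Subgroup K :=
    { carrier := {k | cj (k : G) A = A}
      mul_mem' := by
        intro a b ha hb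
        have ha' : cj (a : G) A = A := ha
        have hb' : cj (b : G) A = A := hb
        show cj ((a * b : K) : G) A = A
        rw [Subgroup.coe_mul, cj_mul, hb', ha']
      one_mem' := by
        show cj ((1 : K) : G) A = A
        rw [Subgroup.coe_one, cj_one]
      inv_mem' := by
        intro a ha
        have ha' : cj (a : G) A = A := ha
        show cj ((a⁻¹ : K) : G) A = A
        conv_lhs => rw [← ha']
        rw [← cj_mul, Subgroup.coe_inv, inv_mul_cancel, cj_one] }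
  have hT : IsOpen (T : Set K) := by
    refine T.isOpen_of_mem_nhds (g := 1) ?_
    have h1 : IsOpen ((fun k : K => (k : G)) ⁻¹' (u ∩ (fun x => x⁻¹) ⁻¹' u)) :=
      (hu.inter (hu.preimage continuous_inv)).preimage continuous_subtype_val
    refine Filter.mem_of_superset (h1.mem_nhds ?_) ?_
    · refine ⟨h1u rfl, ?_⟩
      show ((1 : K) : G)⁻¹ ∈ u
      rw [Subgroup.coe_one, inv_one]
      exact h1u rfl
    · rintro k ⟨hk1, hk2⟩
      show cj (k : G) A = A
      have h3 := key k k.2 hk1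
      have h4 := key (k : G)⁻¹ (K.inv_mem k.2) hk2
      refine le_antisymm ?_ h3
      have h5 := cj_mono (k : G) h4
      rwa [← cj_mul, mul_inv_cancel, cj_one] at h5
  have hc : CompactSpace K := isCompact_iff_compactSpace.1 hK
  have hf : Finite (K ⧸ T) := Subgroup.quotient_finite_of_isOpen _ hT
  have hout : ∀ k : K, cj (((k : K ⧸ T).out : K) : G) A = cj (k : G) A := by
    intro k
    obtain ⟨t, ht⟩ := QuotientGroup.mk_out_eq_mul T k
    have ht' : cj ((t : K) : G) A = A := t.2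
    rw [ht, Subgroup.coe_mul, cj_mul, ht']
  have hmem : ∀ x, x ∈ (⨅ q : K ⧸ T, cj ((q.out : K) : G) A) ↔ ∀ k ∈ K, x ∈ cj k A := by
    intro x
    rw [Subgroup.mem_iInf]
    constructor
    · intro h k hk
      rw [← hout ⟨k, hk⟩]
      exact h _
    · intro h q
      exact h _ (q.out : K).2
  have hCO : ∀ q : K ⧸ T, CO N (cj ((q.out : K) : G) A) := fun q => co_cj (hn _ (q.out : K).2) hA
  choose! O' hO' hO'' using fun q => (hCO q).2.2
  refine ⟨⨅ q : K ⧸ T, cj ((q.out : K) : G) A, ⟨?_, ?_, ⋂ q, O' q, isOpen_iInter_of_finite hO',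
    ?_⟩, ?_, ?_⟩
  · exact (iInf_le _ (QuotientGroup.mk 1 : K ⧸ T)).trans (hCO _).1
  · rw [Subgroup.coe_iInf]
    refine (hCO (QuotientGroup.mk 1 : K ⧸ T)).2.1.of_isClosed_subset
      (isClosed_iInter fun q => (hCO q).2.1.isClosed) (Set.iInter_subset _ _)
  · rw [Subgroup.coe_iInf]
    ext x
    rw [Set.mem_iInter]
    constructor
    · intro h
      refine ⟨(hCO (QuotientGroup.mk 1 : K ⧸ T)).1 (h _), Set.mem_iInter.2 fun q => ?_⟩
      have h1 := h q
      rw [hO'' q] at h1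
      exact h1.2
    · rintro ⟨h1, h2⟩ q
      rw [hO'' q]
      exact ⟨h1, Set.mem_iInter.1 h2 q⟩
  · intro x hx
    have h1 := (hmem x).1 hx 1 K.one_mem
    rwa [cj_one] at h1
  · intro k hk
    ext x
    rw [mem_cj, hmem, hmem]
    constructor
    · intro h k' hk'
      have h1 := h (k⁻¹ * k') (K.mul_mem (K.inv_mem hk) hk')
      rw [mem_cj] at h1 ⊢
      have e : (k⁻¹ * k')⁻¹ * (k⁻¹ * x * k) * (k⁻¹ * k') = k'⁻¹ * x * k' := by group
      rwa [e] at h1
    · intro h k' hk'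
      have h1 := h (k * k') (K.mul_mem hk hk')
      rw [mem_cj] at h1 ⊢
      have e : (k * k')⁻¹ * x * (k * k') = k'⁻¹ * (k⁻¹ * x * k) * k' := by group
      rwa [e] at h1

end Top

end

end Pool.Agent.Lib.MP_ca1492_al.P
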