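import Mathlib
import Pool.Agent.Lib.MP_ca1492_al.P.Gi

/-!
# MP_ca1492_al, p-adic side, module Modc: the modulus character without measures

`mdl N m = vol (m A m⁻¹) / vol A` for any compact open subgroup `A` of `N` (`m` normalizes `N`).

* `mdl_eq` (independence of `A`): `gi (cj m A) A = gi (cj m A) (cj m A') * gi (cj m A') A' *
  gi A' A` (`gi_mul`, all subgroups are `CO N`, hence commensurable) and
  `gi (cj m A) (cj m A') = gi A A'` (`gi_cj`), `gi A A' * gi A' A = 1` (`gi_symm`, `gi_pos`).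
* `mdl_mul`: `gi (cj (m m') A) A = gi (cj m (cj m' A)) (cj m A) * gi (cj m A) A`, `gi_cj`.
* `mdl_compact`: take a `K`-stable `A'` (`co_stab`); `cj k A' = A'`, `gi_self`.
* `mdl_of_mem`: if every element of `N` lies in a compact subgroup of `N` then `mdl N m = 1` for
  `m ∈ N` (`mdl_compact`, elements of `N` normalize `N`).
-/

set_option autoImplicit false

namespace Pool.Agent.Lib.MP_ca1492_al.P

open Topology

noncomputable section

variable {G : Type} [Group G] [TopologicalSpace G]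

open Classical in
/-- the modulus of `m` on `N` -/
def mdl (N : Subgroup G) (m : G) : ℝ :=
  if h : ∃ A : Subgroup G, CO N A then gi (cj m h.choose) h.choose else 1

variable [IsTopologicalGroup G]

/-- independence of the compact open subgroup -/
theorem Modc_indep {N A A' : Subgroup G} (hA : CO N A) (hA' : CO N A') {m : G} (hm : Nrm N m) :
    gi (cj m A') A' = gi (cj m A) A := by
  have c1 : (cj m A').Commensurable (cj m A) := co_comm (co_cj hm hA') (co_cj hm hA)
  have c2 : (cj m A).Commensurable A' := co_comm (co_cj hm hA) hA'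
  have c3 : (cj m A).Commensurable A := co_comm (co_cj hm hA) hA
  have c4 : A.Commensurable A' := co_comm hA hA'
  have h1 : gi (cj m A') A' = gi A' A * (gi (cj m A) A * gi A A') := by
    rw [gi_mul c3 c4, ← gi_cj m A' A, gi_mul c1 c2]
  have h2 : gi A' A * gi A A' = 1 := by
    rw [gi_mul c4.symm c4, gi_self]
  calc gi (cj m A') A' = gi A' A * (gi (cj m A) A * gi A A') := h1
    _ = gi (cj m A) A * (gi A' A * gi A A') := by ring
    _ = gi (cj m A) A := by rw [h2, mul_one]

/-- conjugates of compact open subgroups -/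
theorem Modc_co {N A : Subgroup G} (hA : CO N A) (x : G) : CO (cj x N) (cj x A) := by
  obtain ⟨h1, h2, O, hO, h3⟩ := hA
  refine ⟨cj_mono x h1, ?_, {g | x⁻¹ * g * x ∈ O}, ?_, ?_⟩
  · have h4 : ((cj x A : Subgroup G) : Set G) = (fun g => x * g * x⁻¹) '' (A : Set G) := by
      ext g
      rw [SetLike.mem_coe, mem_cj, Set.mem_image]
      constructor
      · intro h
        exact ⟨_, h, by group⟩
      · rintro ⟨y, hy, rfl⟩
        have h5 : x⁻¹ * (x * y * x⁻¹) * x = y := by group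
        rw [h5]
        exact hy
    rw [h4]
    exact h2.image (by fun_prop)
  · exact hO.preimage (by fun_prop)
  · ext g
    rw [Set.mem_inter_iff, SetLike.mem_coe, SetLike.mem_coe, mem_cj, mem_cj]
    have h5 : x⁻¹ * g * x ∈ (A : Set G) ↔ x⁻¹ * g * x ∈ (N : Set G) ∩ O := by rw [h3]
    exact h5

/-- conjugates of normalizing elements -/
theorem Modc_nrm {N : Subgroup G} {m : G} (hm : Nrm N m) (x : G) :
    Nrm (cj x N) (x * m * x⁻¹) := by
  intro g
  rw [mem_cj, mem_cj]
  have h1 : x⁻¹ * (x * m * x⁻¹ * g * (x * m * x⁻¹)⁻¹) * x = m * (x⁻¹ * g * x) * m⁻¹ := by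
    group
  rw [h1]
  exact hm _

theorem mdl_eq {N A : Subgroup G} (hA : CO N A) {m : G} (hm : Nrm N m) :
    mdl N m = gi (cj m A) A := by
  have h : ∃ A : Subgroup G, CO N A := ⟨A, hA⟩
  unfold mdl
  rw [dif_pos h]
  exact Modc_indep hA h.choose_spec hm

theorem mdl_pos {N : Subgroup G} {m : G} (hm : Nrm N m) : 0 < mdl N m := by
  by_cases h : ∃ A : Subgroup G, CO N A
  · obtain ⟨A, hA⟩ := h
    rw [mdl_eq hA hm]
    exact gi_pos (co_comm (co_cj hm hA) hA)
  · unfold mdl
    rw [dif_neg h]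
    exact one_pos

theorem mdl_one (N : Subgroup G) : mdl N 1 = 1 := by
  by_cases h : ∃ A : Subgroup G, CO N A
  · obtain ⟨A, hA⟩ := h
    rw [mdl_eq hA (nrm_one N), cj_one, gi_self]
  · unfold mdl
    rw [dif_neg h]

theorem mdl_mul {N : Subgroup G} {m m' : G} (hm : Nrm N m) (hm' : Nrm N m') :
    mdl N (m * m') = mdl N m * mdl N m' := by
  by_cases h : ∃ A : Subgroup G, CO N A
  · obtain ⟨A, hA⟩ := h
    have c1 : (cj m (cj m' A)).Commensurable (cj m A) :=
      co_comm (co_cj hm (co_cj hm' hA)) (co_cj hm hA)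
    have c2 : (cj m A).Commensurable A := co_comm (co_cj hm hA) hA
    rw [mdl_eq hA (nrm_mul hm hm'), mdl_eq hA hm, mdl_eq hA hm', cj_mul, ← gi_mul c1 c2, gi_cj,
      mul_comm]
  · unfold mdl
    rw [dif_neg h, dif_neg h, dif_neg h, mul_one]

theorem mdl_inv {N : Subgroup G} {m : G} (hm : Nrm N m) : mdl N m⁻¹ = (mdl N m)⁻¹ := by
  have h1 : mdl N m⁻¹ * mdl N m = 1 := by
    rw [← mdl_mul (nrm_inv hm) hm, inv_mul_cancel, mdl_one]
  exact eq_inv_of_mul_eq_one_left h1

theorem mdl_compact [T2Space G] {N : Subgroup G} (K : Subgroup G) (hK : IsCompact (K : Set G))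
    (hn : ∀ k ∈ K, Nrm N k) : ∀ k ∈ K, mdl N k = 1 := by
  intro k hk
  by_cases h : ∃ A : Subgroup G, CO N A
  · obtain ⟨A, hA⟩ := h
    obtain ⟨A', hA', -, h1⟩ := co_stab hA K hK hn
    rw [mdl_eq hA' (hn k hk), h1 k hk, gi_self]
  · unfold mdl
    rw [dif_neg h]

theorem mdl_of_mem [T2Space G] {N : Subgroup G}
    (h : ∀ n ∈ N, ∃ K : Subgroup G, K ≤ N ∧ IsCompact (K : Set G) ∧ n ∈ K) :
    ∀ n ∈ N, mdl N n = 1 := by
  intro n hn
  obtain ⟨K, hKN, hK, hnK⟩ := h n hn
  refine mdl_compact K hK (fun k hk g => ?_) n hnK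
  have hkN := hKN hk
  constructor
  · intro h1
    have h2 := N.mul_mem (N.mul_mem (N.inv_mem hkN) h1) hkN
    have h3 : k⁻¹ * (k * g * k⁻¹) * k = g := by group
    rwa [h3] at h2
  · intro h1
    exact N.mul_mem (N.mul_mem hkN h1) (N.inv_mem hkN)

/-- conjugation: `mdl (x N x⁻¹) (x m x⁻¹) = mdl N m` -/
theorem mdl_conj {N : Subgroup G} {m : G} (hm : Nrm N m) (x : G) :
    mdl (cj x N) (x * m * x⁻¹) = mdl N m := by
  by_cases h : ∃ A : Subgroup G, CO N A
  · obtain ⟨A, hA⟩ := h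
    rw [mdl_eq (Modc_co hA x) (Modc_nrm hm x), mdl_eq hA hm, ← cj_mul, inv_mul_cancel_right,
      cj_mul, gi_cj]
  · have h' : ¬ ∃ A : Subgroup G, CO (cj x N) A := by
      rintro ⟨A, hA⟩
      apply h
      have h1 := Modc_co hA x⁻¹
      rw [← cj_mul, inv_mul_cancel, cj_one] at h1
      exact ⟨_, h1⟩
    unfold mdl
    rw [dif_neg h, dif_neg h']

end

end Pool.Agent.Lib.MP_ca1492_al.P
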