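import Mathlib
import Pool.Agent.Lib.MP_ca1492_al.P.Gi
import Pool.Agent.Lib.MP_ca1492_al.P.ParD
import Pool.Agent.Lib.MP_ca1492_al.P.Pat

/-!
# MP_ca1492_al, p-adic side, module PatTop: topology of pattern groups

* `uniS_isClosed`: the conditions `g i j = δ i j` (`mem_uniS_iff`) are closed (`gl_t2`, entries are
  continuous: `Units.continuous_val` and `continuous_apply`, `F` is `T2` by `locF_t2`).
* `co_uniS`: `uniS F S ⊓ Kc F κ m` is compact open in `uniS F S` (`Kc_isOpen`, `Kc_isCompact`).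
* `uniS_lim`: with a height function `h` of `S` (`ht_exists`): `uniS F S ≤ uni F (fun _ => ()) h`
  (`uniS_le_uni`), so by `uni_exh` a compact `C ⊆ uniS F S` lies in a compact subgroup `K` of
  `uni F (fun _ => ()) h`; `A₀ = K ⊓ uniS F S` is compact. It remains to make it open: let `B` be the
  subgroup generated by `A₀` and the compact open `A₁ = uniS F S ⊓ Kc F κ 0`: apply `uni_exh` to the
  compact set `A₀ ∪ A₁` instead of `C`: `K ⊇ A₀ ∪ A₁`, and `K ⊓ uniS F S` is compact and contains the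
  open subgroup `A₁` of `uniS F S`, so it is open (`co_sup`).
* `lev_Kc_compact`: `lev F c ⊓ Kc F κ 0` is compact.
* `nrm_uniS`: the elements of `lev F c` normalize `uniS F S` if `S.Dep c` (`uniS_nrm` for `m`, `m⁻¹`).
* `uni_isOpenCell`: `upp F cb o * uni F cb (-o)` is open in `lev F cb`: see module `Cell0`.
-/

set_option autoImplicit false

namespace Pool.Agent.Lib.MP_ca1492_al.P

open Topology Matrix ValuativeRel

noncomputable section

variable {F : Type} [Field F] [ValuativeRel F] [TopologicalSpace F]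
  [IsNonarchimedeanLocalField F]
variable {κ : Type} [Fintype κ] [DecidableEq κ]

theorem PatTop_entry (i j : κ) : Continuous fun g : GL κ F => (g : Matrix κ κ F) i j :=
  (Units.continuous_val (M := Matrix κ κ F)).matrix_elem i j

theorem PatTop_co {N : Subgroup (GL κ F)} (hN : IsClosed (N : Set (GL κ F))) (m : ℕ) :
    CO N (N ⊓ Kc F κ m) := by
  refine ⟨inf_le_left, ?_, (Kc F κ m : Set (GL κ F)), Kc_isOpen m, Subgroup.coe_inf _ _⟩
  rw [Subgroup.coe_inf]
  exact (Kc_isCompact m).inter_left hN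

theorem uniS_isClosed (S : Pat κ) : IsClosed (uniS F S : Set (GL κ F)) := by
  haveI : T2Space F := locF_t2
  have h1 : (uniS F S : Set (GL κ F)) = ⋂ i : κ, ⋂ j : κ, ⋂ _ : ¬ S.r i j,
      {g : GL κ F | (g : Matrix κ κ F) i j = (1 : Matrix κ κ F) i j} := by
    ext g
    rw [SetLike.mem_coe, mem_uniS_iff]
    simp only [Set.mem_iInter, Set.mem_setOf_eq]
  rw [h1]
  exact isClosed_iInter fun i => isClosed_iInter fun j => isClosed_iInter fun _ =>
    isClosed_eq (PatTop_entry i j) continuous_const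

theorem co_uniS (S : Pat κ) (m : ℕ) : CO (uniS F S) (uniS F S ⊓ Kc F κ m) :=
  PatTop_co (uniS_isClosed S) m

theorem uniS_lim (S : Pat κ) (C : Set (GL κ F)) (hC : IsCompact C)
    (hCS : C ⊆ (uniS F S : Set (GL κ F))) :
    ∃ A : Subgroup (GL κ F), CO (uniS F S) A ∧ C ⊆ (A : Set (GL κ F)) := by
  obtain ⟨h, hh⟩ := ht_exists S
  have hle : uniS F S ≤ uni F (fun _ : κ => ()) h := uniS_le_uni hh
  have hA1 := co_uniS (F := F) S 0
  obtain ⟨K, hK1, hK2, hK3⟩ := uni_exh (F := F) (fun _ : κ => ()) h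
    (C ∪ ((uniS F S ⊓ Kc F κ 0 : Subgroup (GL κ F)) : Set (GL κ F))) (hC.union hA1.2.1)
    (Set.union_subset (fun g hg => hle (hCS hg)) (fun g hg => hle (hA1.1 hg)))
  refine ⟨K ⊓ uniS F S, ?_, ?_⟩
  · refine co_sup hA1 (le_inf (fun g hg => hK3 (Or.inr hg)) inf_le_left) inf_le_right ?_
    rw [Subgroup.coe_inf]
    exact hK2.inter_right (uniS_isClosed S)
  · intro g hg
    exact ⟨hK3 (Or.inl hg), hCS hg⟩

theorem co_lev {ι : Type} (c : κ → ι) (m : ℕ) : CO (lev F c) (lev F c ⊓ Kc F κ m) :=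
  PatTop_co (lev_isClosed c) m

theorem co_upp {ι : Type} (cb : κ → ι) (o : κ → ℤ) (m : ℕ) :
    CO (upp F cb o) (upp F cb o ⊓ Kc F κ m) :=
  PatTop_co (upp_isClosed cb o) m

theorem nrm_uniS {ι : Type} {S : Pat κ} {c : κ → ι} (hS : S.Dep c) (m : GL κ F)
    (hm : m ∈ lev F c) : Nrm (uniS F S) m := by
  intro g
  refine ⟨fun h => ?_, fun h => uniS_nrm hS m g hm h⟩
  have h1 := uniS_nrm hS m⁻¹ (m * g * m⁻¹) ((lev F c).inv_mem hm) h
  have h2 : m⁻¹ * (m * g * m⁻¹) * m⁻¹⁻¹ = g := by group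
  rwa [h2] at h1

theorem dep_patO {ι ι' : Type} (c : κ → ι) (cb : κ → ι') (o : κ → ℤ)
    (h : ∀ i j, c i = c j → cb i = cb j ∧ o i = o j) : (patO cb o).Dep c := by
  rintro i i' j j' hi hj ⟨h1, h2⟩
  obtain ⟨a1, a2⟩ := h i i' hi
  obtain ⟨b1, b2⟩ := h j j' hj
  exact ⟨by rw [← a1, ← b1, h1], by rw [← a2, ← b2]; exact h2⟩

theorem PatTop_perm (w : Equiv.Perm κ) (m : ℕ) (g : GL κ F) :
    (∀ i j, ((((permG F w)⁻¹ * g * permG F w : GL κ F) : Matrix κ κ F) - 1) i j ∈ lat F m) ↔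
      ∀ i j, ((g : Matrix κ κ F) - 1) i j ∈ lat F m := by
  have h0 : ∀ i j, ((((permG F w)⁻¹ * g * permG F w : GL κ F) : Matrix κ κ F) - 1) i j =
      ((g : Matrix κ κ F) - 1) (w i) (w j) := by
    intro i j
    rw [Matrix.sub_apply, Matrix.sub_apply, permG_conj_apply, Matrix.one_apply, Matrix.one_apply]
    simp only [EmbeddingLike.apply_eq_iff_eq]
  constructor
  · intro h i j
    have h1 := h (w.symm i) (w.symm j)
    rw [h0, Equiv.apply_symm_apply, Equiv.apply_symm_apply] at h1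
    exact h1
  · intro h i j
    rw [h0]
    exact h _ _

/-- conjugation by `permG w` preserves `Kc m` -/
theorem permG_Kc (w : Equiv.Perm κ) (m : ℕ) (g : GL κ F) :
    (permG F w)⁻¹ * g * permG F w ∈ Kc F κ m ↔ g ∈ Kc F κ m := by
  have h1 : ((permG F w)⁻¹ * g * permG F w)⁻¹ = (permG F w)⁻¹ * g⁻¹ * permG F w := by group
  have h2 := PatTop_perm (F := F) w m g
  have h3 := PatTop_perm (F := F) w m g⁻¹
  rw [← h1] at h3
  exact and_congr h2 h3

/-- a continuous function on `GL κ F` built from the entries -/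
theorem continuous_entry (i j : κ) : Continuous fun g : GL κ F => (g : Matrix κ κ F) i j :=
  PatTop_entry i j

theorem continuous_entry_inv (i j : κ) :
    Continuous fun g : GL κ F => ((g⁻¹ : GL κ F) : Matrix κ κ F) i j :=
  (Units.continuous_coe_inv (M := Matrix κ κ F)).matrix_elem i j

end

end Pool.Agent.Lib.MP_ca1492_al.P
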