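import Mathlib
import Pool.Agent.Lib.MP_ca1492_al.P.Cartan
import Pool.Agent.Lib.MP_ca1492_al.P.Modc
import Pool.Agent.Lib.MP_ca1492_al.P.PatTop

/-!
# MP_ca1492_al, p-adic side, module Torus: the modulus of diagonal matrices on pattern groups

`(dia l) g (dia l)⁻¹` has the entries `ϖ ^ (l i - l j) g i j`, so `dia l` normalizes `uniS F S`.

`mdl_dia_single`: `l = Pi.single a 1` (value `1` at `a`, `0` elsewhere). Take
`A = uniS F S ⊓ Kc F κ 0` (`co_uniS`, `mdl_eq`), `B = cj (dia l) A`. Then
`A ⊓ B = {g ∈ A | g a j ∈ lat 1 for all j with S.r a j}` and, as a subgroup of `B`,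
`B = {g ∈ uniS | g i j ∈ lat (l i - l j)}`, `A ⊓ B = {g ∈ B | g i a ∈ lat 0 for all i with S.r i a}`.
(For `g ∈ uniS F S` the condition on the entries of `g` implies the same condition for `g⁻¹`: use
that `{g ∈ uniS F S | ∀ i j, S.r i j → g i j ∈ lat (l i - l j)}` is closed under products and
inverses, by induction on the height as in `mem_uniS_iff`; the case `l = 0` describes `A`.)
Index in `A`: two elements `g, h ∈ A` satisfy `g h⁻¹ ∈ B` iff the rows `a` of `g` and `h` are
congruent modulo `lat 1`: `(g h⁻¹) a j = Σ_k g a k (h⁻¹) k j ≡ Σ_k h a k (h⁻¹) k j = δ a j`, and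
conversely multiply by `h`. Every row is possible (`uniS_mk`, or elementary matrices), so
`B.relIndex A = q ^ #{j | S.r a j}` (`lat_index 0 1`: `lat 0 / lat 1` has `q` elements; right cosets:
`g ↦ (g a j mod lat 1)_j` is a bijection from `(A ⊓ B) \ A` to `(lat 0 / lat 1) ^ #`). In the same
way with columns, `g⁻¹ h`, `A.relIndex B = q ^ #{i | S.r i a}`
(`lat (-1) / lat 0` has `q` elements). So `gi B A = q ^ (#{i | S.r i a} - #{j | S.r a j})`.

`mdl_dia`: `dia` is additive in `l` (`dia_add`), `mdl_mul`, `mdl_inv`; write `l` as a sum of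
`l a • Pi.single a 1`.
-/

set_option autoImplicit false

namespace Pool.Agent.Lib.MP_ca1492_al.P

open Topology Matrix ValuativeRel

noncomputable section

variable {F : Type} [Field F] [ValuativeRel F] [TopologicalSpace F]
  [IsNonarchimedeanLocalField F]
variable {κ : Type} [Fintype κ] [DecidableEq κ]

theorem nrm_dia (S : Pat κ) (l : κ → ℤ) : Nrm (uniS F S) (dia F l) := by
  refine nrm_uniS (c := (id : κ → κ)) ?_ (dia F l) (dia_mem_lev id l)
  rintro i i' j j' h h' hr
  have h1 : i = i' := h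
  have h2 : j = j' := h'
  rw [← h1, ← h2]
  exact hr

/-- entries of a conjugate by a diagonal matrix -/
theorem Torus_entry (l : κ → ℤ) (g : GL κ F) (i j : κ) :
    (((dia F l)⁻¹ * g * dia F l : GL κ F) : Matrix κ κ F) i j =
      unifF F ^ (-(l i)) * (g : Matrix κ κ F) i j * unifF F ^ (l j) := by
  have h1 : (((dia F l)⁻¹ * g * dia F l : GL κ F) : Matrix κ κ F) =
      Matrix.diagonal (fun i => unifF F ^ (-(l i))) * (g : Matrix κ κ F) *
        Matrix.diagonal (fun i => unifF F ^ (l i)) := by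
    rw [Units.val_mul, Units.val_mul]
    rfl
  rw [h1, Matrix.mul_diagonal, Matrix.diagonal_mul]

theorem Torus_ord_pow (n : ℕ) : ordF F (unifF F ^ n) = n := by
  induction n with
  | zero => rw [pow_zero, ordF_one]; rfl
  | succ n ih =>
    rw [pow_succ, ordF_mul _ _ (pow_ne_zero n unifF_ne_zero) unifF_ne_zero, ih, ord_unifF]
    push_cast
    ring

theorem Torus_ord_zpow (n : ℤ) : ordF F (unifF F ^ n) = n := by
  obtain ⟨k, rfl | rfl⟩ := n.eq_nat_or_neg
  · rw [zpow_natCast, Torus_ord_pow]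
  · rw [_root_.zpow_neg, zpow_natCast, ordF_inv, Torus_ord_pow]

theorem Torus_lat {x : F} {m k k' : ℤ} :
    unifF F ^ k * x * unifF F ^ k' ∈ lat F m ↔ x ∈ lat F (m - k - k') := by
  have hk := zpow_ne_zero k (unifF_ne_zero (F := F))
  have hk' := zpow_ne_zero k' (unifF_ne_zero (F := F))
  rw [mem_lat, mem_lat]
  by_cases hx : x = 0
  · subst hx
    simp
  · rw [ordF_mul _ _ (mul_ne_zero hk hx) hk', ordF_mul _ _ hk hx, Torus_ord_zpow, Torus_ord_zpow]
    have h1 : unifF F ^ k * x * unifF F ^ k' ≠ 0 := mul_ne_zero (mul_ne_zero hk hx) hk'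
    simp only [h1, hx, false_or]
    constructor <;> intro h <;> linarith

theorem Torus_one_mem (i j : κ) : (1 : Matrix κ κ F) i j ∈ lat F 0 := by
  rw [Matrix.one_apply]
  split_ifs
  · rw [mem_lat, ordF_one]
    exact Or.inr le_rfl
  · exact (lat F 0).zero_mem

/-- for unipotent matrices of a pattern the integrality of the inverse is automatic -/
theorem Torus_Kc {S : Pat κ} {g : GL κ F} (hg : g ∈ uniS F S) :
    g ∈ Kc F κ 0 ↔ ∀ i j, S.r i j → (g : Matrix κ κ F) i j ∈ lat F 0 := by
  have hsub : ∀ i j, S.r i j → ((g : Matrix κ κ F) - 1) i j = (g : Matrix κ κ F) i j := by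
    intro i j hij
    rw [Matrix.sub_apply, Matrix.one_apply_ne, sub_zero]
    rintro rfl
    exact S.ir i hij
  have hzero : ∀ i j, ¬ S.r i j → ((g : Matrix κ κ F) - 1) i j = 0 := by
    intro i j hij
    rw [Matrix.sub_apply, (hg i j hij).1, sub_self]
  constructor
  · rintro ⟨h1, -⟩ i j hij
    have := h1 i j
    rw [hsub i j hij] at this
    exact this
  · intro h
    have h1 : ∀ i j, ((g : Matrix κ κ F) - 1) i j ∈ lat F 0 := by
      intro i j
      by_cases hij : S.r i j
      · rw [hsub i j hij]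
        exact h i j hij
      · rw [hzero i j hij]
        exact (lat F 0).zero_mem
    have hwf : WellFounded (fun i j : κ => S.r j i) := by
      have : IsTrans κ (fun i j : κ => S.r j i) := ⟨fun a b c h h' => S.tr c b a h' h⟩
      have : Std.Irrefl (fun i j : κ => S.r j i) := ⟨fun a h => S.ir a h⟩
      exact Finite.wellFounded_of_trans_of_irrefl _
    have hinv : ∀ i : κ, ∀ j, ((g⁻¹ : GL κ F) : Matrix κ κ F) i j ∈ lat F 0 := by
      intro i
      refine hwf.induction (C := fun i => ∀ j, ((g⁻¹ : GL κ F) : Matrix κ κ F) i j ∈ lat F 0) i ?_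
      intro i ih j
      have e : ((g⁻¹ : GL κ F) : Matrix κ κ F) = 1 - ((g : Matrix κ κ F) - 1) *
          ((g⁻¹ : GL κ F) : Matrix κ κ F) := by
        rw [sub_mul, Matrix.one_mul, ← Units.val_mul, mul_inv_cancel, Units.val_one]
        abel
      rw [e, Matrix.sub_apply, Matrix.mul_apply]
      refine (lat F 0).sub_mem (Torus_one_mem i j) ((lat F 0).sum_mem fun k _ => ?_)
      by_cases hik : S.r i k
      · have := lat_mul (h1 i k) (ih k hik j)
        rwa [add_zero] at this
      · rw [hzero i k hik, zero_mul]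
        exact (lat F 0).zero_mem
    refine ⟨h1, fun i j => ?_⟩
    rw [Matrix.sub_apply]
    exact (lat F 0).sub_mem (hinv i j) (Torus_one_mem i j)

/-- description of the conjugates of the integral points -/
theorem Torus_cj {S : Pat κ} {l : κ → ℤ} {g : GL κ F} :
    g ∈ cj (dia F l) (uniS F S ⊓ Kc F κ 0) ↔
      g ∈ uniS F S ∧ ∀ i j, S.r i j → (g : Matrix κ κ F) i j ∈ lat F (l i - l j) := by
  rw [mem_cj, Subgroup.mem_inf]
  have hn : (dia F l)⁻¹ * g * dia F l ∈ uniS F S ↔ g ∈ uniS F S := by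
    have := nrm_dia (F := F) S l ((dia F l)⁻¹ * g * dia F l)
    rw [← this]
    have e : dia F l * ((dia F l)⁻¹ * g * dia F l) * (dia F l)⁻¹ = g := by group
    rw [e]
  constructor
  · rintro ⟨h1, h2⟩
    refine ⟨hn.1 h1, fun i j hij => ?_⟩
    have h3 := (Torus_Kc h1).1 h2 i j hij
    rw [Torus_entry, Torus_lat] at h3
    have e : (0 : ℤ) - -(l i) - l j = l i - l j := by ring
    rwa [e] at h3
  · rintro ⟨h1, h2⟩
    refine ⟨hn.2 h1, (Torus_Kc (hn.2 h1)).2 fun i j hij => ?_⟩
    rw [Torus_entry, Torus_lat]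
    have e : (0 : ℤ) - -(l i) - l j = l i - l j := by ring
    rw [e]
    exact h2 i j hij

/-- an index computation: cosets given by finitely many coordinates modulo a subgroup -/
theorem Torus_index {G : Type} [Group G] (A B : Subgroup G) {T : Type} [Fintype T]
    (M M' : AddSubgroup F) (φ : G → T → F) (h1 : ∀ g ∈ A, ∀ t, φ g t ∈ M)
    (h2 : ∀ g ∈ A, ∀ h ∈ A, (g⁻¹ * h ∈ B ↔ ∀ t, φ g t - φ h t ∈ M'))
    (h3 : ∀ y : T → F, (∀ t, y t ∈ M) → ∃ g ∈ A, ∀ t, φ g t = y t) :
    B.relIndex A = (M'.relIndex M) ^ Fintype.card T := by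
  classical
  have key : ∀ x y : A, (QuotientGroup.leftRel (B.subgroupOf A)) x y ↔
      (fun t => (QuotientAddGroup.mk (⟨φ x.1 t, h1 x.1 x.2 t⟩ : M) :
        M ⧸ M'.addSubgroupOf M)) =
      (fun t => (QuotientAddGroup.mk (⟨φ y.1 t, h1 y.1 y.2 t⟩ : M) :
        M ⧸ M'.addSubgroupOf M)) := by
    intro x y
    rw [QuotientGroup.leftRel_apply, Subgroup.mem_subgroupOf, Subgroup.coe_mul, Subgroup.coe_inv,
      h2 x.1 x.2 y.1 y.2, funext_iff]
    refine forall_congr' fun t => ?_
    rw [QuotientAddGroup.eq, AddSubgroup.mem_addSubgroupOf]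
    rw [← M'.neg_mem_iff]
    have e : (((-(⟨φ x.1 t, h1 x.1 x.2 t⟩ : M)) + ⟨φ y.1 t, h1 y.1 y.2 t⟩ : M) : F) =
        -(φ x.1 t - φ y.1 t) := by
      show -(φ x.1 t) + φ y.1 t = _
      ring
    rw [e]
  let f : A ⧸ B.subgroupOf A → (T → M ⧸ M'.addSubgroupOf M) :=
    Quotient.lift (fun x : A => fun t => (QuotientAddGroup.mk (⟨φ x.1 t, h1 x.1 x.2 t⟩ : M) :
        M ⧸ M'.addSubgroupOf M)) (fun x y h => (key x y).1 h)
  have hf : Function.Bijective f := by
    constructor
    · intro x y
      refine Quotient.inductionOn₂ x y fun a b hab => ?_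
      exact Quotient.sound ((key a b).2 hab)
    · intro y
      have : ∀ t, ∃ z : M, QuotientAddGroup.mk z = y t := fun t =>
        QuotientAddGroup.mk_surjective (y t)
      choose z hz using this
      obtain ⟨g, hg, hgy⟩ := h3 (fun t => (z t : F)) (fun t => (z t).2)
      refine ⟨QuotientGroup.mk (⟨g, hg⟩ : A), funext fun t => ?_⟩
      show (QuotientAddGroup.mk (⟨φ g t, h1 g hg t⟩ : M) : M ⧸ M'.addSubgroupOf M) = y t
      rw [← hz t]
      congr 1
      exact Subtype.ext (hgy t)
  rw [Subgroup.relIndex, Subgroup.index, Nat.card_congr (Equiv.ofBijective f hf), Nat.card_fun,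
    Nat.card_eq_fintype_card (α := T)]
  rfl

open Classical in
/-- number of successors minus number of predecessors -/
def dg (S : Pat κ) (a : κ) : ℤ :=
  ((Finset.univ.filter fun j => S.r a j).card : ℤ) - (Finset.univ.filter fun j => S.r j a).card

open Classical in
theorem relIndex_row (S : Pat κ) (a : κ) :
    (cj (dia F (Pi.single a 1)) (uniS F S ⊓ Kc F κ 0)).relIndex (uniS F S ⊓ Kc F κ 0) =
      qF F ^ (Finset.univ.filter fun j => S.r a j).card := by
  have hq : (lat F 1).relIndex (lat F 0) = qF F := by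
    have := lat_index (F := F) 0 1
    rwa [pow_one, Nat.cast_one, zero_add] at this
  have hA : ∀ g ∈ uniS F S ⊓ Kc F κ 0, ∀ i j, (g : Matrix κ κ F) i j ∈ lat F 0 := by
    intro g hg i j
    have h1 := hg.2.1 i j
    have h2 := (lat F 0).add_mem h1 (Torus_one_mem i j)
    rw [Matrix.sub_apply] at h2
    simpa using h2
  have hB : ∀ x ∈ uniS F S ⊓ Kc F κ 0, x ∈ cj (dia F (Pi.single a 1)) (uniS F S ⊓ Kc F κ 0) ↔
      ∀ j, S.r a j → (x : Matrix κ κ F) a j ∈ lat F 1 := by
    intro x hx
    rw [Torus_cj]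
    constructor
    · rintro ⟨-, h⟩ j hj
      have h1 := h a j hj
      have hne : j ≠ a := by
        rintro rfl
        exact S.ir _ hj
      rwa [Pi.single_eq_same, Pi.single_eq_of_ne hne, sub_zero] at h1
    · intro h
      refine ⟨hx.1, fun i j hij => ?_⟩
      by_cases hi : i = a
      · subst hi
        have hne : j ≠ i := by
          rintro rfl
          exact S.ir _ hij
        rw [Pi.single_eq_same, Pi.single_eq_of_ne hne, sub_zero]
        exact h j hij
      · rw [Pi.single_eq_of_ne hi]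
        by_cases hj : j = a
        · subst hj
          rw [Pi.single_eq_same]
          exact lat_anti (by norm_num) (hA x hx i j)
        · rw [Pi.single_eq_of_ne hj, sub_zero]
          exact hA x hx i j
  rw [← hq, ← Fintype.card_subtype]
  refine Torus_index (T := {j // S.r a j}) _ _ (lat F 0) (lat F 1)
    (fun g t => ((g⁻¹ : GL κ F) : Matrix κ κ F) a t.1) ?_ ?_ ?_
  · intro g hg t
    exact hA _ (Subgroup.inv_mem _ hg) a t.1
  · intro g hg h hh
    have hg' := Subgroup.inv_mem _ hg
    have hh' := Subgroup.inv_mem _ hh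
    have hx : g⁻¹ * h ∈ uniS F S ⊓ Kc F κ 0 := Subgroup.mul_mem _ hg' hh
    rw [hB _ hx]
    constructor
    · intro hj t
      have e : ((g⁻¹ : GL κ F) : Matrix κ κ F) - ((h⁻¹ : GL κ F) : Matrix κ κ F) =
          (((g⁻¹ * h : GL κ F) : Matrix κ κ F) - 1) * ((h⁻¹ : GL κ F) : Matrix κ κ F) := by
        rw [sub_mul, Matrix.one_mul, ← Units.val_mul, mul_assoc, mul_inv_cancel, mul_one]
      show ((g⁻¹ : GL κ F) : Matrix κ κ F) a t.1 - ((h⁻¹ : GL κ F) : Matrix κ κ F) a t.1 ∈ _
      rw [← Matrix.sub_apply, e, Matrix.mul_apply]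
      refine (lat F 1).sum_mem fun k _ => ?_
      by_cases hk : S.r a k
      · have h1 : (((g⁻¹ * h : GL κ F) : Matrix κ κ F) - 1) a k ∈ lat F 1 := by
          rw [Matrix.sub_apply, Matrix.one_apply_ne, sub_zero]
          · exact hj k hk
          · rintro rfl
            exact S.ir _ hk
        have := lat_mul h1 (hA _ hh' k t.1)
        rwa [add_zero] at this
      · rw [Matrix.sub_apply, (hx.1 a k hk).1, sub_self, zero_mul]
        exact (lat F 1).zero_mem
    · intro ht j hj
      have e : ((g⁻¹ * h : GL κ F) : Matrix κ κ F) - 1 =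
          (((g⁻¹ : GL κ F) : Matrix κ κ F) - ((h⁻¹ : GL κ F) : Matrix κ κ F)) *
            (h : Matrix κ κ F) := by
        rw [sub_mul, ← Units.val_mul, ← Units.val_mul, inv_mul_cancel, Units.val_one]
      have e2 : ((g⁻¹ * h : GL κ F) : Matrix κ κ F) a j =
          (((g⁻¹ * h : GL κ F) : Matrix κ κ F) - 1) a j := by
        rw [Matrix.sub_apply, Matrix.one_apply_ne, sub_zero]
        rintro rfl
        exact S.ir _ hj
      rw [e2, e, Matrix.mul_apply]
      refine (lat F 1).sum_mem fun k _ => ?_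
      by_cases hk : S.r a k
      · have h1 : (((g⁻¹ : GL κ F) : Matrix κ κ F) - ((h⁻¹ : GL κ F) : Matrix κ κ F)) a k ∈
            lat F 1 := ht ⟨k, hk⟩
        have := lat_mul h1 (hA _ hh k j)
        rwa [add_zero] at this
      · rw [Matrix.sub_apply, (hg'.1 a k hk).1, (hh'.1 a k hk).1, sub_self, zero_mul]
        exact (lat F 1).zero_mem
  · intro y hy
    obtain ⟨w, hw, hwe⟩ := uniS_mk (F := F) S
      (fun i j => if h : i = a ∧ S.r a j then y ⟨j, h.2⟩ else 0)
    have hwA : w ∈ uniS F S ⊓ Kc F κ 0 := by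
      refine ⟨hw, (Torus_Kc hw).2 fun i j hij => ?_⟩
      rw [hwe i j hij]
      split_ifs with h
      · exact hy _
      · exact (lat F 0).zero_mem
    refine ⟨w⁻¹, Subgroup.inv_mem _ hwA, fun t => ?_⟩
    rw [inv_inv, hwe a t.1 t.2, dif_pos ⟨rfl, t.2⟩]

open Classical in
theorem relIndex_col (S : Pat κ) (a : κ) :
    (uniS F S ⊓ Kc F κ 0).relIndex (cj (dia F (Pi.single a 1)) (uniS F S ⊓ Kc F κ 0)) =
      qF F ^ (Finset.univ.filter fun j => S.r j a).card := by
  have hq : (lat F 0).relIndex (lat F (-1)) = qF F := by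
    have := lat_index (F := F) (-1) 1
    rwa [pow_one, Nat.cast_one, neg_add_cancel] at this
  have hB : ∀ g ∈ cj (dia F (Pi.single a 1)) (uniS F S ⊓ Kc F κ 0),
      g ∈ uniS F S ∧ (∀ i, (g : Matrix κ κ F) i a ∈ lat F (-1)) ∧
        ∀ i k, i ≠ a → k ≠ a → (g : Matrix κ κ F) i k ∈ lat F 0 := by
    intro g hg
    rw [Torus_cj] at hg
    refine ⟨hg.1, fun i => ?_, fun i k hi hk => ?_⟩
    · by_cases h : S.r i a
      · have h1 := hg.2 i a h
        have hne : i ≠ a := by
          rintro rfl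
          exact S.ir _ h
        rwa [Pi.single_eq_same, Pi.single_eq_of_ne hne, zero_sub] at h1
      · rw [(hg.1 i a h).1]
        exact lat_anti (by norm_num) (Torus_one_mem i a)
    · by_cases h : S.r i k
      · have h1 := hg.2 i k h
        rwa [Pi.single_eq_of_ne hi, Pi.single_eq_of_ne hk, sub_zero] at h1
      · rw [(hg.1 i k h).1]
        exact Torus_one_mem i k
  have hAB : ∀ x ∈ cj (dia F (Pi.single a 1)) (uniS F S ⊓ Kc F κ 0), x ∈ uniS F S ⊓ Kc F κ 0 ↔
      ∀ i, S.r i a → (x : Matrix κ κ F) i a ∈ lat F 0 := by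
    intro x hx
    rw [Torus_cj] at hx
    constructor
    · intro h i hi
      exact (Torus_Kc h.1).1 h.2 i a hi
    · intro h
      refine ⟨hx.1, (Torus_Kc hx.1).2 fun i j hij => ?_⟩
      by_cases hj : j = a
      · subst hj
        exact h i hij
      · have h1 := hx.2 i j hij
        rw [Pi.single_eq_of_ne hj, sub_zero] at h1
        by_cases hi : i = a
        · subst hi
          rw [Pi.single_eq_same] at h1
          exact lat_anti (by norm_num) h1
        · rwa [Pi.single_eq_of_ne hi] at h1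
  rw [← hq, ← Fintype.card_subtype]
  refine Torus_index (T := {j // S.r j a}) _ _ (lat F (-1)) (lat F 0)
    (fun g t => (g : Matrix κ κ F) t.1 a) ?_ ?_ ?_
  · intro g hg t
    exact (hB g hg).2.1 t.1
  · intro g hg h hh
    have hg' := Subgroup.inv_mem _ hg
    have hx : g⁻¹ * h ∈ cj (dia F (Pi.single a 1)) (uniS F S ⊓ Kc F κ 0) :=
      Subgroup.mul_mem _ hg' hh
    rw [hAB _ hx]
    constructor
    · intro hj t
      have e : (h : Matrix κ κ F) - (g : Matrix κ κ F) =
          (g : Matrix κ κ F) * (((g⁻¹ * h : GL κ F) : Matrix κ κ F) - 1) := by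
        rw [mul_sub, Matrix.mul_one, ← Units.val_mul, ← mul_assoc, mul_inv_cancel, one_mul]
      show (g : Matrix κ κ F) t.1 a - (h : Matrix κ κ F) t.1 a ∈ _
      rw [← (lat F 0).neg_mem_iff, neg_sub, ← Matrix.sub_apply, e, Matrix.mul_apply]
      refine (lat F 0).sum_mem fun k _ => ?_
      by_cases hk : S.r k a
      · have hka : k ≠ a := by
          rintro rfl
          exact S.ir _ hk
        have hta : t.1 ≠ a := by
          intro h'
          have := t.2
          rw [h'] at this
          exact S.ir _ this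
        have h1 : (((g⁻¹ * h : GL κ F) : Matrix κ κ F) - 1) k a ∈ lat F 0 := by
          rw [Matrix.sub_apply, Matrix.one_apply_ne hka, sub_zero]
          exact hj k hk
        have := lat_mul ((hB g hg).2.2 t.1 k hta hka) h1
        rwa [add_zero] at this
      · rw [Matrix.sub_apply, ((hB _ hx).1 k a hk).1, sub_self, mul_zero]
        exact (lat F 0).zero_mem
    · intro ht j hj
      have hja : j ≠ a := by
        rintro rfl
        exact S.ir _ hj
      have e : ((g⁻¹ * h : GL κ F) : Matrix κ κ F) - 1 =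
          ((g⁻¹ : GL κ F) : Matrix κ κ F) * ((h : Matrix κ κ F) - (g : Matrix κ κ F)) := by
        rw [mul_sub, ← Units.val_mul, ← Units.val_mul, inv_mul_cancel, Units.val_one]
      have e2 : ((g⁻¹ * h : GL κ F) : Matrix κ κ F) j a =
          (((g⁻¹ * h : GL κ F) : Matrix κ κ F) - 1) j a := by
        rw [Matrix.sub_apply, Matrix.one_apply_ne hja, sub_zero]
      rw [e2, e, Matrix.mul_apply]
      refine (lat F 0).sum_mem fun k _ => ?_
      by_cases hk : S.r k a
      · have hka : k ≠ a := by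
          rintro rfl
          exact S.ir _ hk
        have h1 : ((h : Matrix κ κ F) - (g : Matrix κ κ F)) k a ∈ lat F 0 := by
          have := (lat F 0).neg_mem (ht ⟨k, hk⟩)
          rw [neg_sub] at this
          exact this
        have := lat_mul ((hB _ hg').2.2 j k hja hka) h1
        rwa [add_zero] at this
      · rw [Matrix.sub_apply, ((hB h hh).1 k a hk).1, ((hB g hg).1 k a hk).1, sub_self, mul_zero]
        exact (lat F 0).zero_mem
  · intro y hy
    obtain ⟨w, hw, hwe⟩ := uniS_mk (F := F) S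
      (fun i j => if h : j = a ∧ S.r i a then y ⟨i, h.2⟩ else 0)
    refine ⟨w, Torus_cj.2 ⟨hw, fun i j hij => ?_⟩, fun t => ?_⟩
    · rw [hwe i j hij]
      split_ifs with h
      · have hne : i ≠ a := by
          rintro rfl
          exact S.ir _ h.2
        have e : (Pi.single a 1 : κ → ℤ) i - (Pi.single a 1 : κ → ℤ) j = -1 := by
          rw [h.1, Pi.single_eq_same, Pi.single_eq_of_ne hne, zero_sub]
        rw [e]
        exact hy _
      · exact AddSubgroup.zero_mem _
    · rw [hwe t.1 a t.2, dif_pos ⟨rfl, t.2⟩]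

theorem mdl_dia_single (S : Pat κ) (a : κ) :
    mdl (uniS F S) (dia F (Pi.single a 1)) = (qF F : ℝ) ^ (- dg S a) := by
  classical
  have hq : (qF F : ℝ) ≠ 0 := by
    have := one_lt_qF (F := F)
    positivity
  rw [mdl_eq (co_uniS S 0) (nrm_dia S _), gi, relIndex_row, relIndex_col, dg]
  push_cast
  rw [neg_sub, zpow_sub₀ hq, zpow_natCast, zpow_natCast]

theorem mdl_dia (S : Pat κ) (l : κ → ℤ) :
    mdl (uniS F S) (dia F l) = (qF F : ℝ) ^ (- ∑ a, dg S a * l a) := by
  classical
  have hq : (0 : ℝ) < (qF F : ℝ) := by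
    have := one_lt_qF (F := F)
    positivity
  have hadd : ∀ l l' : κ → ℤ, mdl (uniS F S) (dia F (l + l')) =
      mdl (uniS F S) (dia F l) * mdl (uniS F S) (dia F l') := by
    intro l l'
    rw [← mdl_mul (nrm_dia S l) (nrm_dia S l'), ← dia_add]
    rfl
  have hpos : ∀ l : κ → ℤ, 0 < mdl (uniS F S) (dia F l) := fun l => mdl_pos (nrm_dia S l)
  have hzero : mdl (uniS F S) (dia F (0 : κ → ℤ)) = 1 := by
    have h1 := hadd 0 0
    rw [add_zero] at h1
    have h2 := hpos 0
    nlinarith [mul_right_cancel₀ h2.ne' (show (1 : ℝ) * mdl (uniS F S) (dia F (0 : κ → ℤ)) =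
      mdl (uniS F S) (dia F (0 : κ → ℤ)) * mdl (uniS F S) (dia F (0 : κ → ℤ)) by
        rw [one_mul]; exact h1)]
  let L : (κ → ℤ) →+ ℝ :=
    { toFun := fun l => Real.log (mdl (uniS F S) (dia F l))
      map_zero' := by rw [hzero, Real.log_one]
      map_add' := fun l l' => by rw [hadd, Real.log_mul (hpos l).ne' (hpos l').ne'] }
  have hL : L l = ∑ a, l a * L (Pi.single a 1) := by
    have h1 := LinearMap.pi_apply_eq_sum_univ L.toIntLinearMap l
    have h2 : L l = ∑ i, l i • L (fun j => if i = j then 1 else 0) := h1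
    rw [h2]
    refine Finset.sum_congr rfl fun a _ => ?_
    rw [zsmul_eq_mul]
    congr 2
    funext j
    rw [Pi.single_apply]
    by_cases h : a = j
    · rw [if_pos h, if_pos h.symm]
    · rw [if_neg h, if_neg fun h' => h h'.symm]
  have hs : ∀ a, L (Pi.single a 1) = -(dg S a : ℝ) * Real.log (qF F) := by
    intro a
    show Real.log (mdl (uniS F S) (dia F (Pi.single a 1))) = _
    rw [mdl_dia_single, Real.log_zpow]
    push_cast
    ring
  have h3 : mdl (uniS F S) (dia F l) = Real.exp (L l) := (Real.exp_log (hpos l)).symm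
  have h4 : L l = ((- ∑ a, dg S a * l a : ℤ) : ℝ) * Real.log (qF F) := by
    rw [hL]
    push_cast
    rw [← Finset.sum_neg_distrib, Finset.sum_mul]
    refine Finset.sum_congr rfl fun a _ => ?_
    rw [hs a]
    ring
  rw [h3, h4, mul_comm, Real.exp_mul, Real.exp_log hq, Real.rpow_intCast]

end

end Pool.Agent.Lib.MP_ca1492_al.P
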