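import Mathlib
import Pool.Agent.Lib.MP_ca1492_al.P.CLead
import Pool.Agent.Lib.MP_ca1492_al.P.Torus

/-!
# MP_ca1492_al, p-adic side, module CTest: contraction, test functions

* `contract`: diagonal matrices contract `uni F cb (-o)` into `Kc m`.
* `step_big`: `P₁ v (v⁻¹ N₁⁻ v) ⊆ Ω` for a step `Ω' ⊆ Ω` of the cell of `v`.
* `IsTest ... v m e f`: `f` is the function supported in `P₁ v (Kc m)`, right invariant under `Kc m`,
  with `f v = e`; `test_exists`, `test_uniq`, `test_mem` (`f ∈ IndOn Ω` if `1 ≤ m`).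
* `test_lam`: the cell functional of `f` is `tcon • e`, with a constant `tcon ≠ 0` which depends only
  on the cell and on `m`.
-/

set_option autoImplicit false

namespace Pool.Agent.Lib.MP_ca1492_al.P

open Topology Matrix ValuativeRel

noncomputable section

variable {F : Type} [Field F] [ValuativeRel F] [TopologicalSpace F]
  [IsNonarchimedeanLocalField F] {κ : Type} [Fintype κ] [DecidableEq κ]
variable {E W : Type} [AddCommGroup E] [Module ℂ E] [AddCommGroup W] [Module ℂ W]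
variable {ι₀ ι₁ ι₂ : Type}

theorem CTest_bound (y : GL κ F) : ∃ M : ℕ, ∀ i j, (y : Matrix κ κ F) i j ∈ lat F (-(M : ℤ)) := by
  obtain ⟨M, hM⟩ := lat_exhaust (F := F)
    (Set.range fun p : κ × κ => (y : Matrix κ κ F) p.1 p.2) (Set.finite_range _).isCompact
  exact ⟨M, fun i j => hM ⟨(i, j), rfl⟩⟩

theorem CTest_entry (cb : κ → ι₀) (o : κ → ℤ) (y : GL κ F)
    (hy : y ∈ uni F cb (fun i => - o i)) (m M : ℕ)
    (hM : ∀ i j, (y : Matrix κ κ F) i j ∈ lat F (-(M : ℤ))) (i j : κ) :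
    ((((dia F (fun i => -((m + M : ℕ) : ℤ) * o i))⁻¹ * y *
      dia F (fun i => -((m + M : ℕ) : ℤ) * o i) : GL κ F) : Matrix κ κ F) - 1) i j ∈
      lat F (m : ℤ) := by
  rw [Matrix.sub_apply, Torus_entry]
  rcases lt_trichotomy (o i) (o j) with h | h | h
  · have hij : i ≠ j := by
      rintro rfl
      exact lt_irrefl _ h
    rw [hy.1.2 i j (neg_lt_neg h), Matrix.one_apply_ne hij, mul_zero, zero_mul, sub_zero]
    exact (lat F (m : ℤ)).zero_mem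
  · rw [hy.2 i j (congrArg Neg.neg h)]
    by_cases hij : i = j
    · subst hij
      rw [Matrix.one_apply_eq, mul_one, ← zpow_add₀ unifF_ne_zero, neg_add_cancel, zpow_zero,
        sub_self]
      exact (lat F (m : ℤ)).zero_mem
    · rw [Matrix.one_apply_ne hij, mul_zero, zero_mul, sub_zero]
      exact (lat F (m : ℤ)).zero_mem
  · have hij : i ≠ j := by
      rintro rfl
      exact lt_irrefl _ h
    rw [Matrix.one_apply_ne hij, sub_zero, Torus_lat]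
    refine lat_anti ?_ (hM i j)
    push_cast
    nlinarith

theorem contract (cb : κ → ι₀) (o : κ → ℤ) (x : GL κ F) (hx : x ∈ uni F cb (fun i => - o i))
    (m : ℕ) : ∃ l : κ → ℤ, (∀ i j, o i = o j → l i = l j) ∧
      (dia F l)⁻¹ * x * dia F l ∈ Kc F κ m := by
  obtain ⟨M₁, hM₁⟩ := CTest_bound x
  obtain ⟨M₂, hM₂⟩ := CTest_bound x⁻¹
  have h1 : ∀ i j, (x : Matrix κ κ F) i j ∈ lat F (-((M₁ + M₂ : ℕ) : ℤ)) := fun i j =>
    lat_anti (by push_cast; omega) (hM₁ i j)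
  have h2 : ∀ i j, ((x⁻¹ : GL κ F) : Matrix κ κ F) i j ∈ lat F (-((M₁ + M₂ : ℕ) : ℤ)) :=
    fun i j => lat_anti (by push_cast; omega) (hM₂ i j)
  refine ⟨fun i => -((m + (M₁ + M₂) : ℕ) : ℤ) * o i, fun i j hij => by
    show -((m + (M₁ + M₂) : ℕ) : ℤ) * o i = -((m + (M₁ + M₂) : ℕ) : ℤ) * o j
    rw [hij], ?_, ?_⟩
  · exact CTest_entry cb o x hx m (M₁ + M₂) h1
  · have e : ((dia F (fun i => -((m + (M₁ + M₂) : ℕ) : ℤ) * o i))⁻¹ * x *
        dia F (fun i => -((m + (M₁ + M₂) : ℕ) : ℤ) * o i))⁻¹ =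
        (dia F (fun i => -((m + (M₁ + M₂) : ℕ) : ℤ) * o i))⁻¹ * x⁻¹ *
          dia F (fun i => -((m + (M₁ + M₂) : ℕ) : ℤ) * o i) := by group
    rw [e]
    exact CTest_entry cb o x⁻¹ ((uni F cb (fun i => - o i)).inv_mem hx) m (M₁ + M₂) h2

theorem CTest_dia_upp (cb : κ → ι₀) (o : κ → ℤ) (l : κ → ℤ) : dia F l ∈ upp F cb o := by
  refine ⟨dia_mem_lev cb l, fun i j hij => ?_⟩
  have h1 := dia_mem_lev (F := F) o l
  exact h1 i j (by omega)

/-- conjugation by `permG v`, `cb ∘ v = cb` -/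
theorem CTest_conj (cb : κ → ι₀) (o : κ → ℤ) (v : Equiv.Perm κ) (hv : ∀ i, cb (v i) = cb i)
    (x : GL κ F) (hx : x ∈ upp F cb (fun i => o (v i))) :
    permG F v * x * (permG F v)⁻¹ ∈ upp F cb o := by
  rw [← upp_perm cb o v]
  have e : (permG F v)⁻¹ * (permG F v * x * (permG F v)⁻¹) * permG F v = x := by group
  rw [e]
  have e2 : cb ∘ v = cb := funext hv
  rw [e2]
  exact hx

/-- the big cell at `v` is contained in `Ω` -/
theorem step_big (cb : κ → ι₀) (o₁ o₂ : κ → ℤ) (v : Equiv.Perm κ) (Ω' Ω : Set (lev F cb))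
    (hs : CStep (F := F) cb o₁ o₂ v Ω' Ω) (g : lev F cb) (p x : GL κ F) (hp : p ∈ upp F cb o₁)
    (hx : x ∈ uni F cb (fun i => - o₁ (v i))) (hg : g.1 = p * permG F v * x) : g ∈ Ω := by
  set v' : lev F cb := ⟨permG F v, permG_mem_lev' cb v hs.hw⟩ with hv'
  have hv'Ω : v' ∈ Ω := (hs.union v').2 (Or.inr (CLead_mem_self cb o₁ o₂ v hs.hw v' rfl))
  -- a neighbourhood of `1`
  have h1 : IsOpen ((fun y : lev F cb => v' * y) ⁻¹' Ω) := hs.opn.preimage (by fun_prop)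
  obtain ⟨U, hU, hUe⟩ := isOpen_induced_iff.1 h1
  have h1U : (1 : GL κ F) ∈ U := by
    have h2 : (1 : lev F cb) ∈ Subtype.val ⁻¹' U := by
      rw [hUe]
      show v' * 1 ∈ Ω
      rw [mul_one]
      exact hv'Ω
    exact h2
  obtain ⟨m, hm⟩ := Kc_basis U (hU.mem_nhds h1U)
  obtain ⟨l, -, hl⟩ := contract cb (fun i => o₁ (v i)) x hx m
  have hd : dia F l ∈ lev F cb := dia_mem_lev cb l
  have hyl : (dia F l)⁻¹ * x * dia F l ∈ lev F cb :=
    (lev F cb).mul_mem ((lev F cb).mul_mem ((lev F cb).inv_mem hd) hx.1.1) hd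
  have h3 : v' * ⟨_, hyl⟩ ∈ Ω := by
    have h4 : (⟨_, hyl⟩ : lev F cb) ∈ Subtype.val ⁻¹' U := hm hl
    rw [hUe] at h4
    exact h4
  -- stability
  have hleft : ∀ (a : lev F cb), a.1 ∈ upp F cb o₁ → ∀ g ∈ Ω, a * g ∈ Ω := by
    intro a ha g hg
    rcases (hs.union g).1 hg with h5 | ⟨p', hp', q', hq', he⟩
    · exact (hs.union _).2 (Or.inl (hs.left' g a ha h5))
    · refine (hs.union _).2 (Or.inr ⟨a.1 * p', (upp F cb o₁).mul_mem ha hp', q', hq', ?_⟩)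
      rw [Subgroup.coe_mul, he]
      simp only [mul_assoc]
  have hright : ∀ (b : lev F cb), b.1 ∈ upp F cb o₂ → ∀ g ∈ Ω, g * b ∈ Ω := by
    intro b hb g hg
    rcases (hs.union g).1 hg with h5 | ⟨p', hp', q', hq', he⟩
    · exact (hs.union _).2 (Or.inl (hs.right' g b hb h5))
    · refine (hs.union _).2 (Or.inr ⟨p', hp', q' * b.1, (upp F cb o₂).mul_mem hq' hb, ?_⟩)
      rw [Subgroup.coe_mul, he]
      simp only [mul_assoc]
  have ha : p * (permG F v * dia F l * (permG F v)⁻¹) ∈ upp F cb o₁ :=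
    (upp F cb o₁).mul_mem hp (CTest_conj cb o₁ v hs.hw _ (CTest_dia_upp cb _ l))
  have h6 := hright ⟨(dia F l)⁻¹, (lev F cb).inv_mem hd⟩
    ((upp F cb o₂).inv_mem (CTest_dia_upp cb o₂ l)) _ (hleft ⟨_, ha.1⟩ ha _ h3)
  have h7 : g = ⟨p * (permG F v * dia F l * (permG F v)⁻¹), ha.1⟩ * (v' * ⟨_, hyl⟩) *
      ⟨(dia F l)⁻¹, (lev F cb).inv_mem hd⟩ := by
    apply Subtype.ext
    show g.1 = p * (permG F v * dia F l * (permG F v)⁻¹) *
      (permG F v * ((dia F l)⁻¹ * x * dia F l)) * (dia F l)⁻¹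
    rw [hg]
    group
  rw [h7]
  exact h6

/-! ### test functions -/

/-- `f` is the test function of level `m` at `v` with value `e` -/
structure IsTest (cb : κ → ι₀) (c₁ : κ → ι₁) (o₁ : κ → ℤ)
    (h₁ : ∀ i j, c₁ i = c₁ j ↔ cb i = cb j ∧ o₁ i = o₁ j) (σ : Representation ℂ (lev F c₁) E)
    (v : Equiv.Perm κ) (hv : ∀ i, cb (v i) = cb i) (m : ℕ) (e : E)
    (f : (parD c₁ cb o₁ h₁).IndSp σ) : Prop where
  supp : ∀ g : lev F cb, f.1 g ≠ 0 → ∃ p ∈ upp F cb o₁, ∃ k ∈ Kc F κ m,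
    g.1 = p * permG F v * k
  inv : ∀ g k : lev F cb, k.1 ∈ Kc F κ m → f.1 (g * k) = f.1 g
  val : f.1 ⟨permG F v, permG_mem_lev' cb v hv⟩ = e

section

variable (cb : κ → ι₀) (c₁ : κ → ι₁) (o₁ : κ → ℤ)
  (h₁ : ∀ i j, c₁ i = c₁ j ↔ cb i = cb j ∧ o₁ i = o₁ j) (σ : Representation ℂ (lev F c₁) E)
  (v : Equiv.Perm κ) (hv : ∀ i, cb (v i) = cb i) (m : ℕ)

/-- the Levi projection of an element of `Kc m` -/
theorem prL_Kc (p : PPs F cb o₁) (hp : p.1.1 ∈ Kc F κ m) : (prL c₁ cb o₁ h₁ p).1 ∈ Kc F κ m := by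
  have key : ∀ A : Matrix κ κ F, (∀ i j, (A - 1) i j ∈ lat F (m : ℤ)) →
      ∀ i j, (blkO o₁ A - 1) i j ∈ lat F (m : ℤ) := by
    intro A hA i j
    rw [Matrix.sub_apply]
    simp only [blkO, Matrix.of_apply]
    by_cases hij : o₁ i = o₁ j
    · rw [if_pos hij]
      exact hA i j
    · rw [if_neg hij, Matrix.one_apply_ne, sub_zero]
      · exact (lat F (m : ℤ)).zero_mem
      · rintro rfl
        exact hij rfl
  exact ⟨key _ hp.1, key _ hp.2⟩

theorem CTest_fix (e : E) (he : ∀ k : lev F c₁, k.1 ∈ Kc F κ m → σ k e = e) (p q : PPs F cb o₁)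
    (k k' : GL κ F) (hk : k ∈ Kc F κ m) (hk' : k' ∈ Kc F κ m)
    (h : p.1.1 * permG F v * k = q.1.1 * permG F v * k') :
    aP c₁ cb o₁ h₁ σ p e = aP c₁ cb o₁ h₁ σ q e := by
  have h1 : (p⁻¹ * q).1.1 ∈ Kc F κ m := by
    rw [← permG_Kc v]
    have h2 : (permG F v)⁻¹ * (p⁻¹ * q).1.1 * permG F v = k * k'⁻¹ := by
      have h3 : (p⁻¹ * q).1.1 = (p.1.1)⁻¹ * q.1.1 := rfl
      have h4 : permG F v * k = (p.1.1)⁻¹ * (q.1.1 * permG F v * k') := by
        rw [← h]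
        group
      calc (permG F v)⁻¹ * (p⁻¹ * q).1.1 * permG F v
          = (permG F v)⁻¹ * ((p.1.1)⁻¹ * (q.1.1 * permG F v * k')) * k'⁻¹ := by
            rw [h3]
            group
        _ = k * k'⁻¹ := by
            rw [← h4]
            group
    rw [h2]
    exact (Kc F κ m).mul_mem hk ((Kc F κ m).inv_mem hk')
  have h5 : aP c₁ cb o₁ h₁ σ (p⁻¹ * q) e = e := he _ (prL_Kc cb c₁ o₁ h₁ m _ h1)
  have h6 : q = p * (p⁻¹ * q) := by group
  rw [h6, map_mul, Module.End.mul_apply, h5]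

open Classical in
/-- the test function -/
def testF (e : E) (g : lev F cb) : E :=
  if h : ∃ p : PPs F cb o₁, ∃ k ∈ Kc F κ m, g.1 = p.1.1 * permG F v * k then
    aP c₁ cb o₁ h₁ σ h.choose e else 0

theorem testF_apply (e : E) (he : ∀ k : lev F c₁, k.1 ∈ Kc F κ m → σ k e = e)
    (p : PPs F cb o₁) (k : GL κ F) (hk : k ∈ Kc F κ m) (g : lev F cb)
    (hg : g.1 = p.1.1 * permG F v * k) :
    testF cb c₁ o₁ h₁ σ v m e g = aP c₁ cb o₁ h₁ σ p e := by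
  have hex : ∃ p : PPs F cb o₁, ∃ k ∈ Kc F κ m, g.1 = p.1.1 * permG F v * k := ⟨p, k, hk, hg⟩
  unfold testF
  rw [dif_pos hex]
  obtain ⟨k', hk', hg'⟩ := hex.choose_spec
  exact CTest_fix cb c₁ o₁ h₁ σ v m e he _ p k' k hk' hk (by rw [← hg', hg])

theorem testF_not (e : E) (g : lev F cb)
    (hg : ¬ ∃ p : PPs F cb o₁, ∃ k ∈ Kc F κ m, g.1 = p.1.1 * permG F v * k) :
    testF cb c₁ o₁ h₁ σ v m e g = 0 := by
  unfold testF
  rw [dif_neg hg]

theorem test_exists (e : E) (he : ∀ k : lev F c₁, k.1 ∈ Kc F κ m → σ k e = e) :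
    ∃ f, IsTest cb c₁ o₁ h₁ σ v hv m e f := by
  have hinv : ∀ g k : lev F cb, k.1 ∈ Kc F κ m →
      testF cb c₁ o₁ h₁ σ v m e (g * k) = testF cb c₁ o₁ h₁ σ v m e g := by
    intro g k hk
    by_cases hg : ∃ p : PPs F cb o₁, ∃ k ∈ Kc F κ m, g.1 = p.1.1 * permG F v * k
    · obtain ⟨p, k', hk', hpk⟩ := hg
      rw [testF_apply cb c₁ o₁ h₁ σ v m e he p k' hk' g hpk,
        testF_apply cb c₁ o₁ h₁ σ v m e he p (k' * k.1) ((Kc F κ m).mul_mem hk' hk) (g * k) (by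
          rw [Subgroup.coe_mul, hpk]
          simp only [mul_assoc])]
    · rw [testF_not cb c₁ o₁ h₁ σ v m e g hg, testF_not]
      rintro ⟨p, k', hk', hpk⟩
      refine hg ⟨p, k' * (k.1)⁻¹, (Kc F κ m).mul_mem hk' ((Kc F κ m).inv_mem hk), ?_⟩
      rw [← mul_assoc, ← hpk, Subgroup.coe_mul, mul_inv_cancel_right]
  have hIS : testF cb c₁ o₁ h₁ σ v m e ∈ (parD c₁ cb o₁ h₁).IndSp σ := by
    rw [mem_IndSp_iff]
    refine ⟨fun p g => ?_, (Kc F κ m).subgroupOf (lev F cb),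
      (Kc_isOpen m).preimage continuous_subtype_val, fun g u hu => hinv g u hu⟩
    by_cases hg : ∃ p : PPs F cb o₁, ∃ k ∈ Kc F κ m, g.1 = p.1.1 * permG F v * k
    · obtain ⟨q, k, hk, hpk⟩ := hg
      rw [testF_apply cb c₁ o₁ h₁ σ v m e he q k hk g hpk,
        testF_apply cb c₁ o₁ h₁ σ v m e he (p * q) k hk (p * g) (by
          rw [Subgroup.coe_mul, hpk]
          show p.1.1 * (q.1.1 * permG F v * k) = (p.1.1 * q.1.1) * permG F v * k
          simp only [mul_assoc]), map_mul, Module.End.mul_apply]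
    · rw [testF_not cb c₁ o₁ h₁ σ v m e g hg, testF_not, map_zero]
      rintro ⟨q, k, hk, hpk⟩
      refine hg ⟨p⁻¹ * q, k, hk, ?_⟩
      have h2 : (p⁻¹ * q).1.1 = (p.1.1)⁻¹ * q.1.1 := rfl
      rw [h2, mul_assoc (p.1.1)⁻¹, mul_assoc (p.1.1)⁻¹, ← hpk, Subgroup.coe_mul,
        inv_mul_cancel_left]
  refine ⟨⟨testF cb c₁ o₁ h₁ σ v m e, hIS⟩, ?_, hinv, ?_⟩
  · intro g hg
    by_contra hcon
    refine hg (testF_not cb c₁ o₁ h₁ σ v m e g ?_)
    rintro ⟨p, k, hk, hpk⟩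
    exact hcon ⟨p.1.1, p.2, k, hk, hpk⟩
  · show testF cb c₁ o₁ h₁ σ v m e _ = e
    rw [testF_apply cb c₁ o₁ h₁ σ v m e he 1 1 (Kc F κ m).one_mem _ (by
      show permG F v = 1 * permG F v * 1
      rw [one_mul, mul_one]), map_one, Module.End.one_apply]

variable {cb c₁ o₁ h₁ σ v hv m}

theorem IsTest.apply {e : E} {f : (parD c₁ cb o₁ h₁).IndSp σ}
    (hf : IsTest cb c₁ o₁ h₁ σ v hv m e f) (p : PPs F cb o₁) (k : lev F cb)
    (hk : k.1 ∈ Kc F κ m) :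
    f.1 (p.1 * ⟨permG F v, permG_mem_lev' cb v hv⟩ * k) = aP c₁ cb o₁ h₁ σ p e := by
  rw [hf.inv _ k hk, ((mem_IndSp_iff c₁ cb o₁ h₁ σ f.1).1 f.2).1 p, hf.val]

theorem test_uniq {e : E} {f f' : (parD c₁ cb o₁ h₁).IndSp σ}
    (hf : IsTest cb c₁ o₁ h₁ σ v hv m e f) (hf' : IsTest cb c₁ o₁ h₁ σ v hv m e f') : f = f' := by
  have key : ∀ g : lev F cb, (∃ p ∈ upp F cb o₁, ∃ k ∈ Kc F κ m, g.1 = p * permG F v * k) →
      f.1 g = f'.1 g := by
    rintro g ⟨p, hp, k, hk, hpk⟩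
    have hkl : k ∈ lev F cb := by
      have h2 : k = (permG F v)⁻¹ * (p⁻¹ * g.1) := by
        rw [hpk]
        group
      rw [h2]
      exact (lev F cb).mul_mem ((lev F cb).inv_mem (permG_mem_lev' cb v hv))
        ((lev F cb).mul_mem ((lev F cb).inv_mem hp.1) g.2)
    have h3 : g = (⟨⟨p, hp.1⟩, hp⟩ : PPs F cb o₁).1 * ⟨permG F v, permG_mem_lev' cb v hv⟩ *
        ⟨k, hkl⟩ := Subtype.ext hpk
    rw [h3, hf.apply ⟨⟨p, hp.1⟩, hp⟩ ⟨k, hkl⟩ hk, hf'.apply ⟨⟨p, hp.1⟩, hp⟩ ⟨k, hkl⟩ hk]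
  refine Subtype.ext (funext fun g => ?_)
  by_cases h1 : f.1 g = 0
  · by_cases h2 : f'.1 g = 0
    · rw [h1, h2]
    · exact key g (hf'.supp g h2)
  · exact key g (hf.supp g h1)

/-- decomposition of the support -/
theorem CTest_iwahori (cb : κ → ι₀) (o₁ : κ → ℤ) (v : Equiv.Perm κ) (hv : ∀ i, cb (v i) = cb i)
    (m : ℕ) (hm : 1 ≤ m) (p k : GL κ F) (hp : p ∈ upp F cb o₁) (hk : k ∈ Kc F κ m)
    (hkl : k ∈ lev F cb) : ∃ p' ∈ upp F cb o₁, ∃ n ∈ uni F cb (fun i => - o₁ (v i)),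
      n ∈ Kc F κ m ∧ p * permG F v * k = p' * permG F v * n := by
  obtain ⟨q, hq, n, hn, -, hnK, rfl⟩ := iwahori cb (fun i => o₁ (v i)) m hm k hk hkl
  refine ⟨p * (permG F v * q * (permG F v)⁻¹),
    (upp F cb o₁).mul_mem hp (CTest_conj cb o₁ v hv q hq), n, hn, hnK, ?_⟩
  group

theorem test_mem (hm : 1 ≤ m) {e : E} {f : (parD c₁ cb o₁ h₁).IndSp σ}
    (hf : IsTest cb c₁ o₁ h₁ σ v hv m e f) (o₂ : κ → ℤ) (Ω' Ω : Set (lev F cb))
    (hs : CStep (F := F) cb o₁ o₂ v Ω' Ω) : f ∈ IndOn (parD c₁ cb o₁ h₁) σ Ω := by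
  intro g hg
  by_contra hne
  obtain ⟨p, hp, k, hk, hpk⟩ := hf.supp g hne
  have hkl : k ∈ lev F cb := by
    have h2 : k = (permG F v)⁻¹ * (p⁻¹ * g.1) := by
      rw [hpk]
      group
    rw [h2]
    exact (lev F cb).mul_mem ((lev F cb).inv_mem (permG_mem_lev' cb v hv))
      ((lev F cb).mul_mem ((lev F cb).inv_mem hp.1) g.2)
  obtain ⟨p', hp', n, hn, -, he⟩ := CTest_iwahori cb o₁ v hv m hm p k hp hk hkl
  exact hg (step_big cb o₁ o₂ v Ω' Ω hs g p' n hp' hn (by rw [hpk, he]))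

end

section

variable (cb : κ → ι₀) (o₁ : κ → ℤ) (c₂ : κ → ι₂) (o₂ : κ → ℤ)
  (h₂ : ∀ i j, c₂ i = c₂ j ↔ cb i = cb j ∧ o₂ i = o₂ j) (v : Equiv.Perm κ)
  (hv : ∀ i, cb (v i) = cb i) (m : ℕ)

open Classical in
/-- the indicator function of `B (N₂ ∩ Kc m)` -/
def tind (n : lev F cb) : ℂ :=
  if ∃ b ∈ (glCD (F := F) cb o₁ c₂ o₂ h₂ v hv).B, ∃ k : lev F cb, k.1 ∈ uni F cb o₂ ∧
    k.1 ∈ Kc F κ m ∧ n = b * k then 1 else 0

/-- the constant: the volume of `B \ B (N₂ ∩ Kc m)` -/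
def tcon : ℂ :=
  iq (glCD (F := F) cb o₁ c₂ o₂ h₂ v hv).N (glCD (F := F) cb o₁ c₂ o₂ h₂ v hv).B
    (glCD (F := F) cb o₁ c₂ o₂ h₂ v hv).N₀ (tind (F := F) cb o₁ c₂ o₂ h₂ v hv m)

open Classical in
theorem tind_LI : LI (glCD (F := F) cb o₁ c₂ o₂ h₂ v hv).N
    (glCD (F := F) cb o₁ c₂ o₂ h₂ v hv).B (tind (F := F) cb o₁ c₂ o₂ h₂ v hv m) := by
  refine ⟨?_, ⟨(Kc F κ m).subgroupOf (lev F cb),
    (Kc_isOpen m).preimage continuous_subtype_val, ?_⟩,
    ((uni F cb o₂ ⊓ Kc F κ m).subgroupOf (lev F cb) : Set (lev F cb)), ?_, ?_, ?_⟩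
  · intro b hb n _
    unfold tind
    refine if_congr ?_ rfl rfl
    constructor
    · rintro ⟨b', hb', k, hk, hk', he⟩
      refine ⟨b⁻¹ * b', (glCD (F := F) cb o₁ c₂ o₂ h₂ v hv).B.mul_mem
        ((glCD (F := F) cb o₁ c₂ o₂ h₂ v hv).B.inv_mem hb) hb', k, hk, hk', ?_⟩
      rw [mul_assoc, ← he, inv_mul_cancel_left]
    · rintro ⟨b', hb', k, hk, hk', he⟩
      refine ⟨b * b', (glCD (F := F) cb o₁ c₂ o₂ h₂ v hv).B.mul_mem hb hb', k, hk, hk', ?_⟩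
      rw [mul_assoc, ← he]
  · intro n _ u hu huN
    have hu' : u.1 ∈ Kc F κ m := hu
    have huN' : u.1 ∈ uni F cb o₂ := huN
    unfold tind
    refine if_congr ?_ rfl rfl
    constructor
    · rintro ⟨b', hb', k, hk, hk', he⟩
      refine ⟨b', hb', k * u⁻¹, (uni F cb o₂).mul_mem hk ((uni F cb o₂).inv_mem huN'),
        (Kc F κ m).mul_mem hk' ((Kc F κ m).inv_mem hu'), ?_⟩
      rw [← mul_assoc, ← he, mul_inv_cancel_right]
    · rintro ⟨b', hb', k, hk, hk', he⟩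
      refine ⟨b', hb', k * u, (uni F cb o₂).mul_mem hk huN',
        (Kc F κ m).mul_mem hk' hu', ?_⟩
      rw [← mul_assoc, ← he]
  · refine CGLb_compact _ (inf_le_left.trans (uni_le cb o₂)) ?_
    rw [Subgroup.coe_inf, Set.inter_comm]
    exact (Kc_isCompact m).inter_right (uni_isClosed cb o₂)
  · intro x hx
    exact hx.1
  · intro n _ h0
    unfold tind at h0
    by_cases h : ∃ b ∈ (glCD (F := F) cb o₁ c₂ o₂ h₂ v hv).B, ∃ k : lev F cb,
        k.1 ∈ uni F cb o₂ ∧ k.1 ∈ Kc F κ m ∧ n = b * k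
    · obtain ⟨b, hb, k, hk, hk', he⟩ := h
      refine ⟨b, hb, ?_⟩
      rw [he, inv_mul_cancel_left]
      exact ⟨hk, hk'⟩
    · rw [if_neg h] at h0
      exact absurd rfl h0

theorem tcon_ne_zero : tcon (F := F) cb o₁ c₂ o₂ h₂ v hv m ≠ 0 := by
  have : T2Space (lev F cb) := lev_t2 cb
  have : LocallyCompactSpace (lev F cb) := lev_locallyCompact cb
  have : SigmaCompactSpace (lev F cb) := lev_sigma cb
  obtain ⟨c, hc, he⟩ := iq_two (glCD (F := F) cb o₁ c₂ o₂ h₂ v hv).iqd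
    (tind (F := F) cb o₁ c₂ o₂ h₂ v hv m) (tind_LI cb o₁ c₂ o₂ h₂ v hv m) (1 : ℂ) (by
      intro n _
      unfold tind
      split_ifs
      · exact Or.inr rfl
      · exact Or.inl rfl) (by
      unfold tind
      rw [if_pos]
      exact ⟨1, Subgroup.one_mem _, 1, (uni F cb o₂).one_mem, (Kc F κ m).one_mem,
        by rw [mul_one]⟩)
  unfold tcon
  rw [he, smul_eq_mul, mul_one]
  exact hc

/-- the cell functional on the test functions -/
theorem test_lam (hm : 1 ≤ m) (c₁ : κ → ι₁)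
    (h₁ : ∀ i j, c₁ i = c₁ j ↔ cb i = cb j ∧ o₁ i = o₁ j) (σ : Representation ℂ (lev F c₁) E)
    (hl : ∀ i j, c₁ (v i) = c₁ (v j) → c₂ i = c₂ j) (e : E)
    (f : (parD c₁ cb o₁ h₁).IndSp σ) (hf : IsTest cb c₁ o₁ h₁ σ v hv m e f) :
    (glCD (F := F) cb o₁ c₂ o₂ h₂ v hv).Lam f.1 1 =
      tcon (F := F) cb o₁ c₂ o₂ h₂ v hv m • e := by
  have : T2Space (lev F cb) := lev_t2 cb
  have : LocallyCompactSpace (lev F cb) := lev_locallyCompact cb
  have : SigmaCompactSpace (lev F cb) := lev_sigma cb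
  have h1 := iq_map (glCD (F := F) cb o₁ c₂ o₂ h₂ v hv).iqd
    (tind (F := F) cb o₁ c₂ o₂ h₂ v hv m) (tind_LI cb o₁ c₂ o₂ h₂ v hv m)
    (LinearMap.toSpanSingleton ℂ E e)
  have hLI : LI (glCD (F := F) cb o₁ c₂ o₂ h₂ v hv).N
      (glCD (F := F) cb o₁ c₂ o₂ h₂ v hv).B
      (fun n => LinearMap.toSpanSingleton ℂ E e (tind (F := F) cb o₁ c₂ o₂ h₂ v hv m n)) :=
    LI_map _ (tind_LI cb o₁ c₂ o₂ h₂ v hv m) _
  have h2 : (glCD (F := F) cb o₁ c₂ o₂ h₂ v hv).Lam f.1 1 =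
      iq (glCD (F := F) cb o₁ c₂ o₂ h₂ v hv).N (glCD (F := F) cb o₁ c₂ o₂ h₂ v hv).B
        (glCD (F := F) cb o₁ c₂ o₂ h₂ v hv).N₀
        (fun n => LinearMap.toSpanSingleton ℂ E e
          (tind (F := F) cb o₁ c₂ o₂ h₂ v hv m n)) := by
    unfold CD.Lam
    symm
    refine iq_congr (glCD (F := F) cb o₁ c₂ o₂ h₂ v hv).iqd _ _ hLI ?_
    intro n hn
    have hn' : n.1 ∈ uni F cb o₂ := hn
    show tind (F := F) cb o₁ c₂ o₂ h₂ v hv m n • e =
      f.1 ((⟨permG F v, permG_mem_lev' cb v hv⟩ : lev F cb) * n * 1)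
    rw [mul_one]
    obtain ⟨b, hb, x, hx, hnb⟩ := uni_split cb o₂ (fun i => o₁ (v i)) n.1 hn'
    have hbl : b ∈ lev F cb := hb.1.1.1
    have hxl : x ∈ lev F cb := hx.1.1.1
    have hbP : permG F v * b * (permG F v)⁻¹ ∈ upp F cb o₁ := CTest_conj cb o₁ v hv b hb.2
    have hbB : (⟨b, hbl⟩ : lev F cb) ∈ (glCD (F := F) cb o₁ c₂ o₂ h₂ v hv).B := by
      refine ⟨hb.1, ?_⟩
      exact mem_cjS.2 hbP
    have hneq : n = ⟨b, hbl⟩ * ⟨x, hxl⟩ := Subtype.ext hnb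
    -- the value at `v n`
    have h3 : f.1 ((⟨permG F v, permG_mem_lev' cb v hv⟩ : lev F cb) * n) =
        f.1 ((⟨permG F v, permG_mem_lev' cb v hv⟩ : lev F cb) * ⟨x, hxl⟩) := by
      have h4 : (⟨permG F v, permG_mem_lev' cb v hv⟩ : lev F cb) * n =
          (⟨⟨permG F v * b * (permG F v)⁻¹, hbP.1⟩, hbP⟩ : PPs F cb o₁).1 *
            ((⟨permG F v, permG_mem_lev' cb v hv⟩ : lev F cb) * ⟨x, hxl⟩) := by
        rw [hneq]
        apply Subtype.ext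
        show permG F v * (b * x) = (permG F v * b * (permG F v)⁻¹) * (permG F v * x)
        group
      rw [h4, ((mem_IndSp_iff c₁ cb o₁ h₁ σ f.1).1 f.2).1]
      refine gl_live cb c₁ o₁ h₁ c₂ o₂ h₂ v hv σ hl _ ?_ _
      show (permG F v)⁻¹ * (permG F v * b * (permG F v)⁻¹) * permG F v ∈ uni F cb o₂
      have h5 : (permG F v)⁻¹ * (permG F v * b * (permG F v)⁻¹) * permG F v = b := by group
      rw [h5]
      exact hb.1
    rw [h3]
    by_cases hxK : x ∈ Kc F κ m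
    · have h6 : tind (F := F) cb o₁ c₂ o₂ h₂ v hv m n = 1 := by
        unfold tind
        rw [if_pos]
        exact ⟨⟨b, hbl⟩, hbB, ⟨x, hxl⟩, hx.1, hxK, hneq⟩
      rw [h6, one_smul, hf.inv _ ⟨x, hxl⟩ hxK, hf.val]
    · have h6 : tind (F := F) cb o₁ c₂ o₂ h₂ v hv m n = 0 := by
        unfold tind
        rw [if_neg]
        rintro ⟨b', hb', k, hk, hk', he⟩
        have hb'1 : b'.1 ∈ uni F cb o₂ := hb'.1
        have hb'2 : permG F v * b'.1 * (permG F v)⁻¹ ∈ upp F cb o₁ := by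
          have h10 : b' ∈ cjS (glCD (F := F) cb o₁ c₂ o₂ h₂ v hv).w
            (glCD (F := F) cb o₁ c₂ o₂ h₂ v hv).P := hb'.2
          have h11 := mem_cjS.1 h10
          exact h11
        have hb'3 : b'.1 ∈ upp F cb (fun i => o₁ (v i)) := by
          have h7 := (upp_perm cb o₁ v _).2 hb'2
          have e : (permG F v)⁻¹ * (permG F v * b'.1 * (permG F v)⁻¹) * permG F v = b'.1 := by
            group
          rw [e] at h7
          have e2 : cb ∘ v = cb := funext hv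
          rw [e2] at h7
          exact h7
        obtain ⟨q, hq, y, hy, -, hyK, hqy⟩ := iwahori cb (fun i => o₁ (v i)) m hm k.1 hk' k.2
        have h8 : b * x = (b'.1 * q) * y := by
          rw [← hnb, he, Subgroup.coe_mul, hqy, mul_assoc]
        have h9 := upp_opp_unique cb (fun i => o₁ (v i)) b (b'.1 * q) x y hb.2
          ((upp F cb (fun i => o₁ (v i))).mul_mem hb'3 hq) hx.2 hy h8
        exact hxK (h9.2 ▸ hyK)
      rw [h6, zero_smul]
      symm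
      by_contra hne
      obtain ⟨p, hp, k, hk, hpk⟩ := hf.supp _ hne
      have hpk' : permG F v * x = p * permG F v * k := hpk
      have hkl : k ∈ lev F cb := by
        have h7 : k = (permG F v)⁻¹ * (p⁻¹ * (permG F v * x)) := by
          rw [hpk']
          group
        rw [h7]
        exact (lev F cb).mul_mem ((lev F cb).inv_mem (permG_mem_lev' cb v hv))
          ((lev F cb).mul_mem ((lev F cb).inv_mem hp.1)
            ((lev F cb).mul_mem (permG_mem_lev' cb v hv) hxl))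
      obtain ⟨q, hq, y, hy, -, hyK, hqy⟩ := iwahori cb (fun i => o₁ (v i)) m hm k hk hkl
      have hp' : (permG F v)⁻¹ * p * permG F v ∈ upp F cb (fun i => o₁ (v i)) := by
        have h7 := (upp_perm cb o₁ v p).2 hp
        have e2 : cb ∘ v = cb := funext hv
        rw [e2] at h7
        exact h7
      have h8 : 1 * x = ((permG F v)⁻¹ * p * permG F v * q) * y := by
        have h9 : x = (permG F v)⁻¹ * (permG F v * x) := by group
        rw [one_mul, h9, hpk', hqy]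
        group
      have h9 := upp_opp_unique cb (fun i => o₁ (v i)) 1 _ x y (Subgroup.one_mem _)
        ((upp F cb (fun i => o₁ (v i))).mul_mem hp' hq) hx.2 hy h8
      exact hxK (h9.2 ▸ hyK)
  rw [h2, h1]
  rfl

end

end

end Pool.Agent.Lib.MP_ca1492_al.P
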