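import Mathlib
import Pool.Agent.Lib.MP_ca1492_al.P.CHom
import Pool.Agent.Lib.MP_ca1492_al.P.CTest

/-!
# MP_ca1492_al, p-adic side, module CHomB: leading terms and dimension bound

* `bigv`: the big cell at `v`: `P₁ v (v⁻¹ N₁⁻ v)`. `HasLead Φ a`: for `f` supported in the big cell at
  `v`, `(Φ f)(1) = a (Λ_v f)`. `HasLead.test`: values on the test functions, `HasLead.uniq`.
* `hom_lead_exists`: if no cell except the one of `v` has twisted homomorphisms (commuting with given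
  operators) then `Φ` has a leading term `a` at `v`, and `a = 0` implies `Φ = 0`.
* `hom_lead_onto`: existence of `Φ` with given leading term, if `σ₂` is injective.
* `hom_bound`: `dim Hom(Ind σ, Ind₂ σ₂) ≤ ∑ dim cellT`.
-/

set_option autoImplicit false

namespace Pool.Agent.Lib.MP_ca1492_al.P

open Topology Matrix ValuativeRel

noncomputable section

variable {F : Type} [Field F] [ValuativeRel F] [TopologicalSpace F]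
  [IsNonarchimedeanLocalField F] {κ : Type} [Fintype κ] [DecidableEq κ]
variable {E W : Type} [AddCommGroup E] [Module ℂ E] [AddCommGroup W] [Module ℂ W]
variable {ι₀ ι₁ ι₂ : Type}

/-- the big cell at `v` -/
def bigv (F : Type) [Field F] {κ : Type} [Fintype κ] [DecidableEq κ] {ι₀ : Type} (cb : κ → ι₀)
    (o₁ : κ → ℤ) (v : Equiv.Perm κ) : Set (lev F cb) :=
  {g | ∃ p ∈ upp F cb o₁, ∃ x ∈ uni F cb (fun i => - o₁ (v i)), g.1 = p * permG F v * x}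

theorem bigv_sub (cb : κ → ι₀) (o₁ o₂ : κ → ℤ) (v : Equiv.Perm κ) (Ω' Ω : Set (lev F cb))
    (hs : CStep (F := F) cb o₁ o₂ v Ω' Ω) : bigv F cb o₁ v ⊆ Ω := by
  rintro g ⟨p, hp, x, hx, hg⟩
  exact step_big cb o₁ o₂ v Ω' Ω hs g p x hp hx hg

theorem IndOn_mono {G : Type} [Group G] [TopologicalSpace G] {H M : Subgroup G} (D : PD H M)
    (σ : Representation ℂ M E) {Ω' Ω : Set H} (h : Ω' ⊆ Ω) : IndOn D σ Ω' ≤ IndOn D σ Ω :=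
  fun _ hf g hg => hf g fun h' => hg (h h')

section

variable (cb : κ → ι₀) (c₁ : κ → ι₁) (o₁ : κ → ℤ)
  (h₁ : ∀ i j, c₁ i = c₁ j ↔ cb i = cb j ∧ o₁ i = o₁ j) (c₂ : κ → ι₂) (o₂ : κ → ℤ)
  (h₂ : ∀ i j, c₂ i = c₂ j ↔ cb i = cb j ∧ o₂ i = o₂ j) (v : Equiv.Perm κ)
  (hv : ∀ i, cb (v i) = cb i)
  (σ : Representation ℂ (lev F c₁) E) (σ₂ : Representation ℂ (lev F c₂) W)

/-- `a` is the leading term of `Φ` at `v` -/
def HasLead (Φ : (parD c₁ cb o₁ h₁).IndSp σ →ₗ[ℂ] (parD c₂ cb o₂ h₂).IndSp σ₂)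
    (a : E →ₗ[ℂ] W) : Prop :=
  ∀ f ∈ IndOn (parD c₁ cb o₁ h₁) σ (bigv F cb o₁ v),
    (Φ f).1 1 = a ((glCD (F := F) cb o₁ c₂ o₂ h₂ v hv).Lam f.1 1)

variable {cb c₁ o₁ h₁ c₂ o₂ h₂ v hv σ σ₂}

theorem test_mem_big {m : ℕ} (hm : 1 ≤ m) {e : E} {f : (parD c₁ cb o₁ h₁).IndSp σ}
    (hf : IsTest cb c₁ o₁ h₁ σ v hv m e f) :
    f ∈ IndOn (parD c₁ cb o₁ h₁) σ (bigv F cb o₁ v) := by
  intro g hg
  by_contra hne
  obtain ⟨p, hp, k, hk, hpk⟩ := hf.supp g hne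
  have hkl : k ∈ lev F cb := by
    have h2 : k = (permG F v)⁻¹ * (p⁻¹ * g.1) := by
      rw [hpk]
      group
    rw [h2]
    exact (lev F cb).mul_mem ((lev F cb).inv_mem (permG_mem_lev' cb v hv))
      ((lev F cb).mul_mem ((lev F cb).inv_mem hp.1) g.2)
  obtain ⟨p', hp', n, hn, -, he⟩ := CTest_iwahori cb o₁ v hv m hm p k hp hk hkl
  exact hg ⟨p', hp', n, hn, by rw [hpk, he]⟩

/-- the value on a test function -/
theorem HasLead.test {Φ : (parD c₁ cb o₁ h₁).IndSp σ →ₗ[ℂ] (parD c₂ cb o₂ h₂).IndSp σ₂}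
    {a : E →ₗ[ℂ] W} (h : HasLead cb c₁ o₁ h₁ c₂ o₂ h₂ v hv σ σ₂ Φ a)
    (hl : ∀ i j, c₁ (v i) = c₁ (v j) → c₂ i = c₂ j) {m : ℕ} (hm : 1 ≤ m) {e : E}
    {f : (parD c₁ cb o₁ h₁).IndSp σ} (hf : IsTest cb c₁ o₁ h₁ σ v hv m e f) :
    (Φ f).1 1 = tcon (F := F) cb o₁ c₂ o₂ h₂ v hv m • a e := by
  rw [h f (test_mem_big hm hf), test_lam cb o₁ c₂ o₂ h₂ v hv m hm c₁ h₁ σ hl e f hf, map_smul]

/-- every vector is the value of a test function -/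
theorem CHomB_test (hσ : IsSm σ) (e : E) : ∃ m : ℕ, 1 ≤ m ∧ ∃ f : (parD c₁ cb o₁ h₁).IndSp σ,
    IsTest cb c₁ o₁ h₁ σ v hv m e f := by
  obtain ⟨U, hU, hUe⟩ := isOpen_induced_iff.1 (hσ e)
  have h1U : (1 : GL κ F) ∈ U := by
    have h2 : (1 : lev F c₁) ∈ Subtype.val ⁻¹' U := by
      rw [hUe]
      show σ 1 e = e
      rw [map_one, Module.End.one_apply]
    exact h2
  obtain ⟨m, hm⟩ := Kc_basis U (hU.mem_nhds h1U)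
  refine ⟨m + 1, Nat.le_add_left 1 m, test_exists cb c₁ o₁ h₁ σ v hv (m + 1) e ?_⟩
  intro k hk
  have h3 : k ∈ Subtype.val ⁻¹' U := hm (Kc_anti (Nat.le_succ m) hk)
  rw [hUe] at h3
  exact h3

theorem HasLead.uniq {Φ : (parD c₁ cb o₁ h₁).IndSp σ →ₗ[ℂ] (parD c₂ cb o₂ h₂).IndSp σ₂}
    {a a' : E →ₗ[ℂ] W} (hσ : IsSm σ) (hl : ∀ i j, c₁ (v i) = c₁ (v j) → c₂ i = c₂ j)
    (h : HasLead cb c₁ o₁ h₁ c₂ o₂ h₂ v hv σ σ₂ Φ a)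
    (h' : HasLead cb c₁ o₁ h₁ c₂ o₂ h₂ v hv σ σ₂ Φ a') : a = a' := by
  refine LinearMap.ext fun e => ?_
  obtain ⟨m, hm, f, hf⟩ := CHomB_test (cb := cb) (c₁ := c₁) (o₁ := o₁) (h₁ := h₁) (v := v)
    (hv := hv) hσ e
  have h3 := h.test hl hm hf
  rw [h'.test hl hm hf] at h3
  have h4 := tcon_ne_zero (F := F) cb o₁ c₂ o₂ h₂ v hv m
  have h5 : tcon (F := F) cb o₁ c₂ o₂ h₂ v hv m • (a' e - a e) = 0 := by
    rw [smul_sub, h3, sub_self]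
  exact (sub_eq_zero.1 ((smul_eq_zero.1 h5).resolve_left h4)).symm

/-- leading terms are determined by the values on the test functions -/
theorem HasLead.of_test {Φ : (parD c₁ cb o₁ h₁).IndSp σ →ₗ[ℂ] (parD c₂ cb o₂ h₂).IndSp σ₂}
    {a b : E →ₗ[ℂ] W} (hσ : IsSm σ) (hl : ∀ i j, c₁ (v i) = c₁ (v j) → c₂ i = c₂ j)
    (h : HasLead cb c₁ o₁ h₁ c₂ o₂ h₂ v hv σ σ₂ Φ a)
    (h' : ∀ e : E, ∃ M : ℕ, ∀ m, M ≤ m → ∀ f, IsTest cb c₁ o₁ h₁ σ v hv m e f →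
      (Φ f).1 1 = tcon (F := F) cb o₁ c₂ o₂ h₂ v hv m • b e) : a = b := by
  refine LinearMap.ext fun e => ?_
  obtain ⟨M, hM⟩ := h' e
  obtain ⟨U, hU, hUe⟩ := isOpen_induced_iff.1 (hσ e)
  have h1U : (1 : GL κ F) ∈ U := by
    have h2 : (1 : lev F c₁) ∈ Subtype.val ⁻¹' U := by
      rw [hUe]
      show σ 1 e = e
      rw [map_one, Module.End.one_apply]
    exact h2
  obtain ⟨m, hm⟩ := Kc_basis U (hU.mem_nhds h1U)
  obtain ⟨f, hf⟩ := test_exists cb c₁ o₁ h₁ σ v hv (m + M + 1) e (fun k hk => by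
    have h3 : k ∈ Subtype.val ⁻¹' U := hm (Kc_anti (by omega) hk)
    rw [hUe] at h3
    exact h3)
  have h3 := h.test hl (by omega) hf
  rw [hM _ (by omega) f hf] at h3
  have h4 := tcon_ne_zero (F := F) cb o₁ c₂ o₂ h₂ v hv (m + M + 1)
  have h5 : tcon (F := F) cb o₁ c₂ o₂ h₂ v hv (m + M + 1) • (b e - a e) = 0 := by
    rw [smul_sub, h3, sub_self]
  exact (sub_eq_zero.1 ((smul_eq_zero.1 h5).resolve_left h4)).symm

variable (cb c₁ o₁ h₁ c₂ o₂ h₂ v hv σ σ₂)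

/-- existence of the leading term; it determines `Φ` -/
theorem hom_lead_exists (hσ : IsSm σ) (hc : Cusp c₁ σ)
    (hlive : ∀ w : Equiv.Perm κ, (∀ i, cb (w i) = cb i) →
      (∀ i j, c₁ (w i) = c₁ (w j) → c₂ i = c₂ j) → ∀ i j, c₁ (w i) = c₁ (w j) ↔ c₂ i = c₂ j)
    (hlv : ∀ i j, c₁ (v i) = c₁ (v j) ↔ c₂ i = c₂ j)
    {A : Type} (x : A → E →ₗ[ℂ] E) (y : A → W →ₗ[ℂ] W) (hx : ∀ α, Equi σ σ (x α))
    (hy : ∀ α, Equi σ₂ σ₂ (y α))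
    (hkill : ∀ w : Equiv.Perm κ, (∀ i, cb (w i) = cb i) →
      (∀ i j, c₁ (w i) = c₁ (w j) ↔ c₂ i = c₂ j) →
      gcell (F := F) cb o₁ o₂ w ≠ gcell (F := F) cb o₁ o₂ v →
      ∀ b ∈ cellT cb c₁ o₁ c₂ o₂ h₂ w σ σ₂, (∀ α e, b (x α e) = y α (b e)) → b = 0)
    (Φ : (parD c₁ cb o₁ h₁).IndSp σ →ₗ[ℂ] (parD c₂ cb o₂ h₂).IndSp σ₂)
    (hΦ : Equi ((parD c₁ cb o₁ h₁).Ind σ) ((parD c₂ cb o₂ h₂).Ind σ₂) Φ)
    (hΦx : ∀ α f, Φ ((parD c₁ cb o₁ h₁).IndMap σ σ (x α) (hx α) f) =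
      (parD c₂ cb o₂ h₂).IndMap σ₂ σ₂ (y α) (hy α) (Φ f)) :
    ∃ a ∈ cellT cb c₁ o₁ c₂ o₂ h₂ v σ σ₂, (∀ α e, a (x α e) = y α (a e)) ∧
      HasLead cb c₁ o₁ h₁ c₂ o₂ h₂ v hv σ σ₂ Φ a ∧ (a = 0 → Φ = 0) := by
  obtain ⟨Ω', Ω, hs, hmain⟩ := cell_lead (F := F) cb o₁ o₂ v hv
  -- the step for a live cell gives an `A`-linear twisted homomorphism
  have hnat : ∀ (w : Equiv.Perm κ) (Ω₁ Ω₂ : Set (lev F cb))
      (hs' : CStep (F := F) cb o₁ o₂ w Ω₁ Ω₂)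
      (hl : ∀ i j, c₁ (w i) = c₁ (w j) ↔ c₂ i = c₂ j) (b : E →ₗ[ℂ] W),
      (∀ f ∈ IndOn (parD c₁ cb o₁ h₁) σ Ω₂,
        (Φ f).1 1 = b ((glCD (F := F) cb o₁ c₂ o₂ h₂ w hs'.hw).Lam f.1 1)) →
      ∀ α e, b (x α e) = y α (b e) := by
    intro w Ω₁ Ω₂ hs' hl b hb α e
    refine step_nat cb c₁ o₁ h₁ c₂ o₂ h₂ w Ω₁ Ω₂ hs' σ (evL (parD c₂ cb o₂ h₂) σ₂ Φ) hσ
      (fun i j h => (hl i j).1 h) b hb (x α) (hx α) (y α) (fun f => ?_) e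
    have h3 := hΦx α f
    show (Φ _).1 1 = y α ((Φ f).1 1)
    have h4 : (⟨fun g => x α (f.1 g), IndSp_comp _ σ σ (x α) (hx α) f⟩ :
        (parD c₁ cb o₁ h₁).IndSp σ) = (parD c₁ cb o₁ h₁).IndMap σ σ (x α) (hx α) f := rfl
    rw [h4, h3]
    rfl
  obtain ⟨h0, hinj⟩ := hmain ι₁ c₁ h₁ E W σ (evL (parD c₂ cb o₂ h₂) σ₂ Φ) (by
    intro w Ω₁ Ω₂ hs' hne hz
    by_cases hlw : ∀ i j, c₁ (w i) = c₁ (w j) → c₂ i = c₂ j
    · have hl := hlive w hs'.hw hlw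
      obtain ⟨b, ⟨hb1, hb2⟩, -⟩ := hom_step cb c₁ o₁ h₁ c₂ o₂ h₂ w Ω₁ Ω₂ hs' σ σ₂ hσ hl Φ hΦ hz
      have hb0 := hkill w hs'.hw hl hne b hb1 (hnat w Ω₁ Ω₂ hs' hl b hb2)
      intro f hf
      have h3 := hb2 f hf
      rw [hb0, LinearMap.zero_apply] at h3
      exact h3
    · exact fun_dead cb c₁ o₁ h₁ c₂ o₂ h₂ w Ω₁ Ω₂ hs' σ (evL (parD c₂ cb o₂ h₂) σ₂ Φ)
        (fun n hn f => ev_inv (parD c₂ cb o₂ h₂) _ σ₂ Φ hΦ n hn f) hz hσ hc hlw)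
  obtain ⟨a, ⟨ha1, ha2⟩, -⟩ := hom_step cb c₁ o₁ h₁ c₂ o₂ h₂ v Ω' Ω hs σ σ₂ hσ hlv Φ hΦ h0
  refine ⟨a, ha1, hnat v Ω' Ω hs hlv a ha2, ?_, ?_⟩
  · intro f hf
    exact ha2 f (IndOn_mono _ σ (bigv_sub cb o₁ o₂ v Ω' Ω hs) hf)
  · intro ha0
    have h3 := hinj (fun f hf => by
      have h4 := ha2 f hf
      rw [ha0, LinearMap.zero_apply] at h4
      exact h4)
    exact hom_eq_zero_of_ev (parD c₂ cb o₂ h₂) _ σ₂ Φ hΦ (fun f => LinearMap.congr_fun h3 f)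

/-- existence of homomorphisms with given leading term -/
theorem hom_lead_onto (hσ : IsSm σ) (hi : IsInjSm σ₂)
    (hlv : ∀ i j, c₁ (v i) = c₁ (v j) ↔ c₂ i = c₂ j) (a : E →ₗ[ℂ] W)
    (ha : a ∈ cellT cb c₁ o₁ c₂ o₂ h₂ v σ σ₂) :
    ∃ Φ : (parD c₁ cb o₁ h₁).IndSp σ →ₗ[ℂ] (parD c₂ cb o₂ h₂).IndSp σ₂,
      Equi ((parD c₁ cb o₁ h₁).Ind σ) ((parD c₂ cb o₂ h₂).Ind σ₂) Φ ∧
      HasLead cb c₁ o₁ h₁ c₂ o₂ h₂ v hv σ σ₂ Φ a := by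
  obtain ⟨Ω', Ω, hs, -⟩ := cell_lead (F := F) cb o₁ o₂ v hv
  obtain ⟨Φ, hΦ, h⟩ := lead_surj cb c₁ o₁ h₁ c₂ o₂ h₂ v Ω' Ω hs σ σ₂ hσ hi hlv a ha
  exact ⟨Φ, hΦ, fun f hf => h f (IndOn_mono _ σ (bigv_sub cb o₁ o₂ v Ω' Ω hs) hf)⟩

/-- the functionals on `Ind σ` which are invariant under `N₂` and equivariant under `lev F c₂` -/
def fnl : Submodule ℂ ((parD c₁ cb o₁ h₁).IndSp σ →ₗ[ℂ] W) where
  carrier := {L | (∀ n : lev F cb, n.1 ∈ uni F cb o₂ → ∀ f,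
      L ((parD c₁ cb o₁ h₁).Ind σ n f) = L f) ∧
    ∀ (m : lev F cb) (hm : m.1 ∈ lev F c₂) (f : (parD c₁ cb o₁ h₁).IndSp σ),
      L ((parD c₁ cb o₁ h₁).Ind σ m f) = σ₂ ⟨m.1, hm⟩ (L f)}
  add_mem' := by
    intro a b ha hb
    refine ⟨fun n hn f => ?_, fun m hm f => ?_⟩
    · rw [LinearMap.add_apply, LinearMap.add_apply, ha.1 n hn, hb.1 n hn]
    · rw [LinearMap.add_apply, LinearMap.add_apply, ha.2 m hm, hb.2 m hm, map_add]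
  zero_mem' := by
    refine ⟨fun n hn f => rfl, fun m hm f => ?_⟩
    rw [LinearMap.zero_apply, LinearMap.zero_apply, map_zero]
  smul_mem' := by
    intro c a ha
    refine ⟨fun n hn f => ?_, fun m hm f => ?_⟩
    · rw [LinearMap.smul_apply, LinearMap.smul_apply, ha.1 n hn]
    · rw [LinearMap.smul_apply, LinearMap.smul_apply, ha.2 m hm, map_smul]

/-- leading term of a functional -/
theorem fnl_step (hσ : IsSm σ) (w : Equiv.Perm κ) (Ω' Ω : Set (lev F cb))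
    (hs : CStep (F := F) cb o₁ o₂ w Ω' Ω) (hl : ∀ i j, c₁ (w i) = c₁ (w j) ↔ c₂ i = c₂ j)
    (L : (parD c₁ cb o₁ h₁).IndSp σ →ₗ[ℂ] W) (hL : L ∈ fnl cb c₁ o₁ h₁ c₂ o₂ σ σ₂)
    (h0 : ∀ f ∈ IndOn (parD c₁ cb o₁ h₁) σ Ω', L f = 0) :
    ∃! a : E →ₗ[ℂ] W, a ∈ cellT cb c₁ o₁ c₂ o₂ h₂ w σ σ₂ ∧
      ∀ f ∈ IndOn (parD c₁ cb o₁ h₁) σ Ω,
        L f = a ((glCD (F := F) cb o₁ c₂ o₂ h₂ w hs.hw).Lam f.1 1) := by
  obtain ⟨a, ha, huniq⟩ := fun_live cb c₁ o₁ h₁ c₂ o₂ h₂ w Ω' Ω hs σ L hL.1 h0 hσ hl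
  refine ⟨a, ⟨?_, ha⟩, fun b hb => huniq b hb.2⟩
  intro hw hl' m hm e
  exact step_equi cb c₁ o₁ h₁ c₂ o₂ h₂ w Ω' Ω hs σ L hσ hl a ha m hm
    (σ₂ ⟨m.1, hm⟩) (fun f => hL.2 m hm f) e

/-- one step of the dimension count, live cell -/
theorem CHomB_step (hσ : IsSm σ) (w : Equiv.Perm κ) (Ω' Ω : Set (lev F cb))
    (hs : CStep (F := F) cb o₁ o₂ w Ω' Ω) (hl : ∀ i j, c₁ (w i) = c₁ (w j) ↔ c₂ i = c₂ j)
    (H' H : Submodule ℂ ((parD c₁ cb o₁ h₁).IndSp σ →ₗ[ℂ] W))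
    (hH' : ∀ Φ, Φ ∈ H' ↔ Φ ∈ fnl cb c₁ o₁ h₁ c₂ o₂ σ σ₂ ∧
      ∀ f ∈ IndOn (parD c₁ cb o₁ h₁) σ Ω', Φ f = 0)
    (hH : ∀ Φ, Φ ∈ H ↔ Φ ∈ fnl cb c₁ o₁ h₁ c₂ o₂ σ σ₂ ∧
      ∀ f ∈ IndOn (parD c₁ cb o₁ h₁) σ Ω, Φ f = 0) :
    Module.rank ℂ H' ≤ Module.rank ℂ (cellT cb c₁ o₁ c₂ o₂ h₂ w σ σ₂) + Module.rank ℂ H := by
  have hex : ∀ Φ : H', ∃! a : E →ₗ[ℂ] W, a ∈ cellT cb c₁ o₁ c₂ o₂ h₂ w σ σ₂ ∧
      ∀ f ∈ IndOn (parD c₁ cb o₁ h₁) σ Ω,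
        Φ.1 f = a ((glCD (F := F) cb o₁ c₂ o₂ h₂ w hs.hw).Lam f.1 1) := fun Φ =>
    fnl_step cb c₁ o₁ h₁ c₂ o₂ h₂ σ σ₂ hσ w Ω' Ω hs hl Φ.1 ((hH' Φ.1).1 Φ.2).1
      ((hH' Φ.1).1 Φ.2).2
  choose a ha hau using hex
  let φ : H' →ₗ[ℂ] cellT cb c₁ o₁ c₂ o₂ h₂ w σ σ₂ :=
    { toFun := fun Φ => ⟨a Φ, (ha Φ).1⟩
      map_add' := by
        intro Φ Ψ
        apply Subtype.ext
        symm
        refine hau (Φ + Ψ) _ ⟨Submodule.add_mem _ (ha Φ).1 (ha Ψ).1, fun f hf => ?_⟩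
        have h1 := (ha Φ).2 f hf
        have h2 := (ha Ψ).2 f hf
        show Φ.1 f + Ψ.1 f = (a Φ + a Ψ) _
        rw [LinearMap.add_apply, ← h1, ← h2]
      map_smul' := by
        intro c Φ
        apply Subtype.ext
        symm
        refine hau (c • Φ) _ ⟨Submodule.smul_mem _ c (ha Φ).1, fun f hf => ?_⟩
        have h1 := (ha Φ).2 f hf
        show c • Φ.1 f = (c • a Φ) _
        rw [LinearMap.smul_apply, ← h1] }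
  have h1 := LinearMap.rank_range_add_rank_ker φ
  have h2 : Module.rank ℂ (LinearMap.range φ) ≤
      Module.rank ℂ (cellT cb c₁ o₁ c₂ o₂ h₂ w σ σ₂) := Submodule.rank_le _
  have h3 : Module.rank ℂ (LinearMap.ker φ) ≤ Module.rank ℂ H := by
    have h4 : ∀ Φ : LinearMap.ker φ, Φ.1.1 ∈ H := by
      intro Φ
      rw [hH]
      refine ⟨((hH' Φ.1.1).1 Φ.1.2).1, ?_⟩
      intro f hf
      have h5 := (ha Φ.1).2 f hf
      have h6 : a Φ.1 = 0 := congrArg Subtype.val (LinearMap.mem_ker.1 Φ.2)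
      rw [h6, LinearMap.zero_apply] at h5
      exact h5
    let ψ : LinearMap.ker φ →ₗ[ℂ] H := LinearMap.codRestrict H
      (H'.subtype ∘ₗ (LinearMap.ker φ).subtype) h4
    refine LinearMap.rank_le_of_injective ψ ?_
    intro x y hxy
    have h7 : (ψ x).1 = (ψ y).1 := congrArg Subtype.val hxy
    exact Subtype.ext (Subtype.ext h7)
  rw [← h1]
  exact add_le_add h2 h3

open Classical in
/-- bound for the dimension of the space of functionals -/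
theorem fnl_bound (hσ : IsSm σ) (hc : Cusp c₁ σ)
    (hlive : ∀ w : Equiv.Perm κ, (∀ i, cb (w i) = cb i) →
      (∀ i j, c₁ (w i) = c₁ (w j) → c₂ i = c₂ j) → ∀ i j, c₁ (w i) = c₁ (w j) ↔ c₂ i = c₂ j)
    {T : Type} [Fintype T] (t : T → Equiv.Perm κ)
    (hcov : ∀ w : Equiv.Perm κ, (∀ i, cb (w i) = cb i) →
      (∀ i j, c₁ (w i) = c₁ (w j) ↔ c₂ i = c₂ j) → (∃ b ∈ cellT cb c₁ o₁ c₂ o₂ h₂ w σ σ₂, b ≠ 0) →
      ∃ s : T, (∀ i, cb (t s i) = cb i) ∧ (∀ i j, c₁ (t s i) = c₁ (t s j) ↔ c₂ i = c₂ j) ∧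
        gcell (F := F) cb o₁ o₂ (t s) = gcell (F := F) cb o₁ o₂ w)
    (hfin : ∀ s, Module.Finite ℂ (cellT cb c₁ o₁ c₂ o₂ h₂ (t s) σ σ₂)) :
    Module.Finite ℂ (fnl cb c₁ o₁ h₁ c₂ o₂ σ σ₂) ∧
    Module.finrank ℂ (fnl cb c₁ o₁ h₁ c₂ o₂ σ σ₂) ≤
      ∑ s, Module.finrank ℂ (cellT cb c₁ o₁ c₂ o₂ h₂ (t s) σ σ₂) := by
  obtain ⟨r, w, Ω, h0, hr, hs, hinj, hsurj⟩ := cell_chain (F := F) cb o₁ o₂
  let Hk : ℕ → Submodule ℂ ((parD c₁ cb o₁ h₁).IndSp σ →ₗ[ℂ] W) :=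
    fun k =>
    { carrier := {Φ | Φ ∈ fnl cb c₁ o₁ h₁ c₂ o₂ σ σ₂ ∧
        ∀ f ∈ IndOn (parD c₁ cb o₁ h₁) σ (Ω k), Φ f = 0}
      add_mem' := by
        intro a b ha hb
        refine ⟨Submodule.add_mem _ ha.1 hb.1, fun f hf => ?_⟩
        rw [LinearMap.add_apply, ha.2 f hf, hb.2 f hf, add_zero]
      zero_mem' := ⟨Submodule.zero_mem _, fun f _ => rfl⟩
      smul_mem' := by
        intro c a ha
        refine ⟨Submodule.smul_mem _ c ha.1, fun f hf => ?_⟩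
        rw [LinearMap.smul_apply, ha.2 f hf, smul_zero] }
  have hHk : ∀ k Φ, Φ ∈ Hk k ↔ Φ ∈ fnl cb c₁ o₁ h₁ c₂ o₂ σ σ₂ ∧
      ∀ f ∈ IndOn (parD c₁ cb o₁ h₁) σ (Ω k), Φ f = 0 :=
    fun k Φ => Iff.rfl
  let good : Fin r → T → Prop := fun k s => (∀ i, cb (t s i) = cb i) ∧
    (∀ i j, c₁ (t s i) = c₁ (t s j) ↔ c₂ i = c₂ j) ∧
    gcell (F := F) cb o₁ o₂ (t s) = gcell (F := F) cb o₁ o₂ (w k)
  let ch : Fin r → ℕ := fun k => if h : ∃ s, good k s then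
    Module.finrank ℂ (cellT cb c₁ o₁ c₂ o₂ h₂ (t h.choose) σ σ₂) else 0
  let D : ℕ → ℕ := fun k => if h : k < r then ch ⟨k, h⟩ else 0
  have hstep : ∀ k : Fin r,
      Module.rank ℂ (Hk k.1) ≤ (ch k : Cardinal) + Module.rank ℂ (Hk (k.1 + 1)) := by
    intro k
    by_cases h : ∃ s, good k s
    · have h1 : ch k = Module.finrank ℂ (cellT cb c₁ o₁ c₂ o₂ h₂ (t h.choose) σ σ₂) := dif_pos h
      obtain ⟨g1, g2, g3⟩ := h.choose_spec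
      have h2 := CHomB_step cb c₁ o₁ h₁ c₂ o₂ h₂ σ σ₂ hσ (t h.choose) (Ω k.1) (Ω (k.1 + 1))
        ((hs k).congr g1 g3.symm) g2 (Hk k.1) (Hk (k.1 + 1)) (hHk k.1) (hHk (k.1 + 1))
      have := hfin h.choose
      rw [h1, Module.finrank_eq_rank]
      exact h2
    · have h1 : Hk k.1 ≤ Hk (k.1 + 1) := by
        intro Φ hΦ
        by_cases hlw : ∀ i j, c₁ (w k i) = c₁ (w k j) → c₂ i = c₂ j
        · have hl := hlive (w k) (hs k).hw hlw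
          obtain ⟨b, ⟨hb1, hb2⟩, -⟩ := fnl_step cb c₁ o₁ h₁ c₂ o₂ h₂ σ σ₂ hσ (w k) (Ω k.1)
            (Ω (k.1 + 1)) (hs k) hl Φ hΦ.1 hΦ.2
          have hb0 : b = 0 := by
            by_contra hb0
            exact h (hcov (w k) (hs k).hw hl ⟨b, hb1, hb0⟩)
          refine ⟨hΦ.1, ?_⟩
          intro f hf
          have h3 := hb2 f hf
          rw [hb0, LinearMap.zero_apply] at h3
          exact h3
        · exact ⟨hΦ.1, fun_dead cb c₁ o₁ h₁ c₂ o₂ h₂ (w k) (Ω k.1) (Ω (k.1 + 1)) (hs k) σ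
            Φ hΦ.1.1 hΦ.2 hσ hc hlw⟩
      have h2 : Module.rank ℂ (Hk k.1) ≤ Module.rank ℂ (Hk (k.1 + 1)) := Submodule.rank_mono h1
      exact h2.trans (self_le_add_left _ _)
  have hbound : ∀ m k : ℕ, k + m = r →
      Module.rank ℂ (Hk k) ≤ ((∑ j ∈ Finset.Ico k r, D j : ℕ) : Cardinal) := by
    intro m
    induction m with
    | zero =>
      intro k hk
      rw [add_zero] at hk
      subst hk
      have h1 : Hk k = ⊥ := by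
        rw [eq_bot_iff]
        intro Φ hΦ
        rw [Submodule.mem_bot]
        exact LinearMap.ext fun f => hΦ.2 f (IndOn_univ _ σ (Ω k) hr f)
      rw [h1, rank_bot]
      simp
    | succ m ih =>
      intro k hk
      have hkr : k < r := by omega
      have h1 := hstep ⟨k, hkr⟩
      have h2 := ih (k + 1) (by omega)
      have h3 : ∑ j ∈ Finset.Ico k r, D j = D k + ∑ j ∈ Finset.Ico (k + 1) r, D j :=
        Finset.sum_eq_sum_Ico_succ_bot hkr D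
      have h4 : D k = ch ⟨k, hkr⟩ := dif_pos hkr
      rw [h3, h4, Nat.cast_add]
      exact h1.trans (add_le_add le_rfl h2)
  have hH0 : fnl cb c₁ o₁ h₁ c₂ o₂ σ σ₂ = Hk 0 := by
    refine le_antisymm (fun Φ hΦ => ⟨hΦ, fun f hf => ?_⟩) (fun Φ hΦ => hΦ.1)
    rw [IndOn_empty _ σ (Ω 0) h0 f hf, map_zero]
  rw [hH0]
  have h1 : Module.rank ℂ (Hk 0) ≤ ((∑ j ∈ Finset.Ico 0 r, D j : ℕ) : Cardinal) :=
    hbound r 0 (zero_add r)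
  have h2 : ∑ j ∈ Finset.Ico 0 r, D j ≤
      ∑ s, Module.finrank ℂ (cellT cb c₁ o₁ c₂ o₂ h₂ (t s) σ σ₂) := by
    rw [Nat.Ico_zero_eq_range, Finset.sum_range]
    have h3 : ∀ k : Fin r, D k.1 = ch k := fun k => dif_pos k.2
    rw [Finset.sum_congr rfl fun k _ => h3 k]
    have h4 : ∑ k : Fin r, ch k = ∑ k : {k : Fin r // ∃ s, good k s},
        Module.finrank ℂ (cellT cb c₁ o₁ c₂ o₂ h₂ (t k.2.choose) σ σ₂) := by
      rw [← Finset.sum_filter_add_sum_filter_not Finset.univ (fun k : Fin r => ∃ s, good k s) ch]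
      have h5 : ∑ k ∈ Finset.univ.filter (fun k : Fin r => ¬ ∃ s, good k s), ch k = 0 := by
        refine Finset.sum_eq_zero fun k hk => ?_
        exact dif_neg (Finset.mem_filter.1 hk).2
      rw [h5, add_zero]
      rw [Finset.sum_subtype (Finset.univ.filter (fun k : Fin r => ∃ s, good k s))
        (p := fun k => ∃ s, good k s) (fun k => by simp) ch]
      exact Finset.sum_congr rfl fun k _ => dif_pos k.2
    rw [h4]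
    have hinj' : Function.Injective fun k : {k : Fin r // ∃ s, good k s} => k.2.choose := by
      intro k l hkl
      have hk := k.2.choose_spec
      have hl := l.2.choose_spec
      have hkl' : k.2.choose = l.2.choose := hkl
      rw [hkl'] at hk
      exact Subtype.ext (hinj k.1 l.1 (hk.2.2.symm.trans hl.2.2))
    have h6 := Finset.sum_image (s := Finset.univ) (f := fun s : T =>
      Module.finrank ℂ (cellT cb c₁ o₁ c₂ o₂ h₂ (t s) σ σ₂))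
      (g := fun k : {k : Fin r // ∃ s, good k s} => k.2.choose) (fun a _ b _ hab => hinj' hab)
    rw [← h6]
    exact Finset.sum_le_sum_of_subset (Finset.subset_univ _)
  have h3 : Module.Finite ℂ (Hk 0) := by
    rw [← Module.rank_lt_aleph0_iff]
    exact lt_of_le_of_lt h1 (Cardinal.natCast_lt_aleph0)
  refine ⟨h3, ?_⟩
  exact (Module.finrank_le_of_rank_le h1).trans h2

/-- the value at `1` is a functional -/
theorem evL_mem_fnl (Φ : (parD c₁ cb o₁ h₁).IndSp σ →ₗ[ℂ] (parD c₂ cb o₂ h₂).IndSp σ₂)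
    (hΦ : Equi ((parD c₁ cb o₁ h₁).Ind σ) ((parD c₂ cb o₂ h₂).Ind σ₂) Φ) :
    evL (parD c₂ cb o₂ h₂) σ₂ Φ ∈ fnl cb c₁ o₁ h₁ c₂ o₂ σ σ₂ :=
  ⟨fun n hn f => ev_inv (parD c₂ cb o₂ h₂) _ σ₂ Φ hΦ n hn f,
    fun m hm f => ev_equi (parD c₂ cb o₂ h₂) _ σ₂ Φ hΦ m hm f⟩

/-- bound for the dimension of the space of homomorphisms -/
theorem hom_bound (hσ : IsSm σ) (hc : Cusp c₁ σ)
    (hlive : ∀ w : Equiv.Perm κ, (∀ i, cb (w i) = cb i) →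
      (∀ i j, c₁ (w i) = c₁ (w j) → c₂ i = c₂ j) → ∀ i j, c₁ (w i) = c₁ (w j) ↔ c₂ i = c₂ j)
    {T : Type} [Fintype T] (t : T → Equiv.Perm κ)
    (hcov : ∀ w : Equiv.Perm κ, (∀ i, cb (w i) = cb i) →
      (∀ i j, c₁ (w i) = c₁ (w j) ↔ c₂ i = c₂ j) → (∃ b ∈ cellT cb c₁ o₁ c₂ o₂ h₂ w σ σ₂, b ≠ 0) →
      ∃ s : T, (∀ i, cb (t s i) = cb i) ∧ (∀ i j, c₁ (t s i) = c₁ (t s j) ↔ c₂ i = c₂ j) ∧
        gcell (F := F) cb o₁ o₂ (t s) = gcell (F := F) cb o₁ o₂ w)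
    (hfin : ∀ s, Module.Finite ℂ (cellT cb c₁ o₁ c₂ o₂ h₂ (t s) σ σ₂)) :
    Module.Finite ℂ (homG ((parD c₁ cb o₁ h₁).Ind σ) ((parD c₂ cb o₂ h₂).Ind σ₂)) ∧
    Module.finrank ℂ (homG ((parD c₁ cb o₁ h₁).Ind σ) ((parD c₂ cb o₂ h₂).Ind σ₂)) ≤
      ∑ s, Module.finrank ℂ (cellT cb c₁ o₁ c₂ o₂ h₂ (t s) σ σ₂) := by
  obtain ⟨h1, h2⟩ := fnl_bound cb c₁ o₁ h₁ c₂ o₂ h₂ σ σ₂ hσ hc hlive t hcov hfin
  let ψ : homG ((parD c₁ cb o₁ h₁).Ind σ) ((parD c₂ cb o₂ h₂).Ind σ₂) →ₗ[ℂ]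
      fnl cb c₁ o₁ h₁ c₂ o₂ σ σ₂ :=
    { toFun := fun Φ => ⟨evL (parD c₂ cb o₂ h₂) σ₂ Φ.1,
        evL_mem_fnl cb c₁ o₁ h₁ c₂ o₂ h₂ σ σ₂ Φ.1 Φ.2⟩
      map_add' := fun a b => rfl
      map_smul' := fun c a => rfl }
  have hinj : Function.Injective ψ := by
    intro Φ Ψ h
    apply Subtype.ext
    rw [← sub_eq_zero]
    refine hom_eq_zero_of_ev (parD c₂ cb o₂ h₂) ((parD c₁ cb o₁ h₁).Ind σ) σ₂ (Φ.1 - Ψ.1) ?_ ?_
    · intro g f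
      rw [LinearMap.sub_apply, LinearMap.sub_apply, Φ.2 g f, Ψ.2 g f, map_sub]
    · intro f
      have h3 : (Φ.1 f).1 1 = (Ψ.1 f).1 1 := LinearMap.congr_fun (congrArg Subtype.val h) f
      show (Φ.1 f).1 1 - (Ψ.1 f).1 1 = 0
      rw [h3, sub_self]
  exact ⟨Module.Finite.of_injective ψ hinj,
    (LinearMap.finrank_le_finrank_of_injective hinj).trans h2⟩

end

end

end Pool.Agent.Lib.MP_ca1492_al.P
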