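import Mathlib

/-!
# MP_ca1492_al, p-adic side, module IsoPs: power series acting on polynomials

`MvPowerSeries ι ℂ` acts on `MvPolynomial ι ℂ`, the variable `X x` acts as `∂ / ∂ u_x`: with
`e β = u^β / β!` the action is `f e β = Σ_{α + γ = β} f_α e γ`.

* `fac_ne_zero`, `psEnd_mono`: definition of `psEnd` on the monomials.
* `psEnd_mul`: both sides on `u^β`; the sum over `antidiagonal` twice, coefficients
  `f_α g_α' (β! / γ!) u^γ` with `α + α' + γ = β` (`Finset.sum_antidiagonal_antidiagonal...`, or the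
  formulation `psEnd f (e β) = Σ f_α e γ` and `MvPowerSeries.coeff_mul`).
* `psEnd_X`: `pderiv x (u^β) = β x u^(β - e_x)`; in the sum only `α = single x 1` contributes.
* `psEnd_inj`: the constant coefficient of `psEnd f (u^β)` is `f_β β!`.
* `psEnd_of_pderiv`: `D` commutes with all `pderiv x`. Put `f_β = (constant coefficient of D (u^β)) /
  β!`. For a polynomial `p` the coefficient of `u^γ` is the constant coefficient of
  `∂^γ p / γ!` (`∂^γ` the iterated derivative; prove by induction, or: two polynomials `p, q` are equal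
  if `constantCoeff (∂^γ p) = constantCoeff (∂^γ q)` for all `γ`; equivalently prove by induction on
  the degree of `β` that `D (u^β) = psEnd f (u^β)`: the difference is killed by all `pderiv x` by
  induction (both commute with `pderiv x`, which maps `u^β` to a multiple of a smaller monomial), so
  it is a constant, and the constant coefficients agree by the choice of `f_β`).
* `pderiv_of_shift`: `D` commutes with all `shiftP`. For a polynomial `p` and `t : ℤ` we have
  `shiftP (t e_x) p = Σ_k t^k / k! ∂_x^k p` (finite sum: Taylor's formula; check it on monomials, or: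
  there are finitely many polynomials `p_k` (independent of `t`) with `shiftP (t e_x) p = Σ t^k p_k`
  and `p_1 = ∂_x p`; the set of the `p` with this property is a subalgebra containing the constants and
  the variables). So `Σ t^k D p_k = Σ t^k (D p)_k` for all integers `t`; comparing coefficients (for
  every monomial, two polynomials in `t` which agree at all integers) `D p_1 = (D p)_1`.
* `psEnd_shift`: `psEnd f` commutes with all `pderiv x` (ring homomorphism, `psEnd_X`), and
  `shiftP y p` is a finite combination of iterated derivatives of `p` by Taylor's formula; or: the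
  polynomial `E_β(y) = Π C(...)`: `shiftP y (e β) = Σ_{α + γ = β} (y^α / α!) e γ` (binomial theorem),
  i.e. `shiftP y = psEnd (exp(y))` with the power series `f_α = y^α / α!`, and multiplication of power
  series is commutative.
-/

set_option autoImplicit false

namespace Pool.Agent.Lib.MP_ca1492_al.P

open MvPolynomial

noncomputable section

variable {ι : Type}

/-- `β! = Π (β x)!` -/
def fac (β : ι →₀ ℕ) : ℂ := β.prod fun _ n => (n.factorial : ℂ)

theorem fac_ne_zero (β : ι →₀ ℕ) : fac β ≠ 0 := by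
  unfold fac Finsupp.prod
  rw [Finset.prod_ne_zero_iff]
  intro i _
  show ((β i).factorial : ℂ) ≠ 0
  exact_mod_cast Nat.factorial_ne_zero _

theorem IsoPs_fac_zero : fac (0 : ι →₀ ℕ) = 1 := by
  unfold fac
  exact Finsupp.prod_zero_index

theorem IsoPs_fac_add (γ : ι →₀ ℕ) (x : ι) :
    fac (γ + Finsupp.single x 1) = ((γ x : ℂ) + 1) * fac γ := by
  classical
  have h1 := Finsupp.mul_prod_erase' (γ + Finsupp.single x 1) x
    (fun _ n => (n.factorial : ℂ)) (fun _ => by simp)
  have h2 := Finsupp.mul_prod_erase' γ x (fun _ n => (n.factorial : ℂ)) (fun _ => by simp)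
  have h3 : (γ + Finsupp.single x 1).erase x = γ.erase x := by
    ext y
    by_cases hy : y = x
    · subst hy
      rw [Finsupp.erase_same, Finsupp.erase_same]
    · rw [Finsupp.erase_ne hy, Finsupp.erase_ne hy, Finsupp.add_apply,
        Finsupp.single_eq_of_ne hy, add_zero]
  have h4 : (γ + Finsupp.single x 1 : ι →₀ ℕ) x = γ x + 1 := by
    rw [Finsupp.add_apply, Finsupp.single_eq_same]
  unfold fac
  rw [← h1, ← h2, h3, h4, Nat.factorial_succ]
  push_cast
  ring

open Classical in
/-- the action of a power series on polynomials -/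
def psEnd (f : MvPowerSeries ι ℂ) : MvPolynomial ι ℂ →ₗ[ℂ] MvPolynomial ι ℂ :=
  (MvPolynomial.basisMonomials ι ℂ).constr ℂ fun β =>
    ∑ p ∈ Finset.HasAntidiagonal.antidiagonal β, monomial p.2 (MvPowerSeries.coeff p.1 f * (fac β / fac p.2))

open Classical in
theorem psEnd_mono (f : MvPowerSeries ι ℂ) (β : ι →₀ ℕ) :
    psEnd f (monomial β 1) =
      ∑ p ∈ Finset.HasAntidiagonal.antidiagonal β, monomial p.2 (MvPowerSeries.coeff p.1 f * (fac β / fac p.2)) := by
  have h : (monomial β (1 : ℂ) : MvPolynomial ι ℂ) = MvPolynomial.basisMonomials ι ℂ β := by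
    rw [MvPolynomial.coe_basisMonomials]
  unfold psEnd
  rw [h, Module.Basis.constr_basis]

/-- the normalised monomials -/
def IsoPs_e (β : ι →₀ ℕ) : MvPolynomial ι ℂ := monomial β (fac β)⁻¹

theorem IsoPs_mono (β : ι →₀ ℕ) :
    (monomial β (1 : ℂ) : MvPolynomial ι ℂ) = fac β • IsoPs_e β := by
  unfold IsoPs_e
  rw [MvPolynomial.smul_monomial, smul_eq_mul, mul_inv_cancel₀ (fac_ne_zero β)]

theorem IsoPs_ext {D D' : MvPolynomial ι ℂ →ₗ[ℂ] MvPolynomial ι ℂ}
    (h : ∀ β, D (IsoPs_e β) = D' (IsoPs_e β)) : D = D' := by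
  apply (MvPolynomial.basisMonomials ι ℂ).ext
  intro β
  rw [MvPolynomial.coe_basisMonomials]
  show D (monomial β 1) = D' (monomial β 1)
  rw [IsoPs_mono, map_smul, map_smul, h]

open Classical in
theorem IsoPs_psEnd (f : MvPowerSeries ι ℂ) (β : ι →₀ ℕ) :
    psEnd f (IsoPs_e β) = ∑ p ∈ Finset.HasAntidiagonal.antidiagonal β,
      MvPowerSeries.coeff p.1 f • IsoPs_e p.2 := by
  have h : IsoPs_e β = (fac β)⁻¹ • (monomial β (1 : ℂ) : MvPolynomial ι ℂ) := by
    unfold IsoPs_e
    rw [MvPolynomial.smul_monomial, smul_eq_mul, mul_one]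
  rw [h, map_smul, psEnd_mono, Finset.smul_sum]
  refine Finset.sum_congr rfl fun p _ => ?_
  unfold IsoPs_e
  rw [MvPolynomial.smul_monomial, MvPolynomial.smul_monomial, smul_eq_mul, smul_eq_mul]
  congr 1
  have h1 := fac_ne_zero β
  have h2 := fac_ne_zero p.2
  field_simp

theorem psEnd_one : psEnd (1 : MvPowerSeries ι ℂ) = LinearMap.id := by
  classical
  apply IsoPs_ext
  intro β
  rw [IsoPs_psEnd, Finset.sum_eq_single (0, β)]
  · rw [MvPowerSeries.coeff_zero_one, one_smul, LinearMap.id_apply]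
  · rintro ⟨a, b⟩ hp hne
    rw [MvPowerSeries.coeff_one, if_neg, zero_smul]
    rintro h
    simp only at h
    subst h
    rw [Finset.HasAntidiagonal.mem_antidiagonal] at hp
    simp only [zero_add] at hp
    exact hne (by rw [hp])
  · intro h
    exact absurd (Finset.HasAntidiagonal.mem_antidiagonal.mpr (zero_add β)) h

theorem psEnd_add (f g : MvPowerSeries ι ℂ) : psEnd (f + g) = psEnd f + psEnd g := by
  classical
  apply IsoPs_ext
  intro β
  rw [LinearMap.add_apply, IsoPs_psEnd, IsoPs_psEnd, IsoPs_psEnd, ← Finset.sum_add_distrib]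
  refine Finset.sum_congr rfl fun p _ => ?_
  rw [map_add, add_smul]

theorem psEnd_smul (a : ℂ) (g : MvPowerSeries ι ℂ) : psEnd (a • g) = a • psEnd g := by
  classical
  apply IsoPs_ext
  intro β
  rw [LinearMap.smul_apply, IsoPs_psEnd, IsoPs_psEnd, Finset.smul_sum]
  refine Finset.sum_congr rfl fun p _ => ?_
  rw [map_smul, smul_eq_mul, mul_smul]

theorem psEnd_mul (f g : MvPowerSeries ι ℂ) : psEnd (f * g) = psEnd f ∘ₗ psEnd g := by
  classical
  apply IsoPs_ext
  intro β
  rw [LinearMap.comp_apply, IsoPs_psEnd, IsoPs_psEnd, map_sum]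
  have h1 : ∀ p ∈ Finset.HasAntidiagonal.antidiagonal β,
      psEnd f (MvPowerSeries.coeff p.1 g • IsoPs_e p.2) =
      ∑ r ∈ Finset.HasAntidiagonal.antidiagonal p.2,
        (MvPowerSeries.coeff p.1 g * MvPowerSeries.coeff r.1 f) • IsoPs_e r.2 := by
    intro p _
    rw [map_smul, IsoPs_psEnd, Finset.smul_sum]
    refine Finset.sum_congr rfl fun r _ => ?_
    rw [smul_smul]
  rw [Finset.sum_congr rfl h1]
  have h2 : ∀ p ∈ Finset.HasAntidiagonal.antidiagonal β,
      MvPowerSeries.coeff p.1 (f * g) • IsoPs_e p.2 =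
      ∑ r ∈ Finset.HasAntidiagonal.antidiagonal p.1,
        (MvPowerSeries.coeff r.2 g * MvPowerSeries.coeff r.1 f) • IsoPs_e p.2 := by
    intro p _
    rw [MvPowerSeries.coeff_mul, Finset.sum_smul]
    refine Finset.sum_congr rfl fun r _ => ?_
    rw [mul_comm]
  rw [Finset.sum_congr rfl h2, Finset.sum_sigma', Finset.sum_sigma']
  refine Finset.sum_nbij' (fun x => ⟨(x.2.2, x.2.1 + x.1.2), (x.2.1, x.1.2)⟩)
    (fun x => ⟨(x.2.1 + x.1.1, x.2.2), (x.2.1, x.1.1)⟩) ?_ ?_ ?_ ?_ ?_
  · rintro ⟨⟨a, b⟩, ⟨c, d⟩⟩ h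
    simp only [Finset.mem_sigma, Finset.HasAntidiagonal.mem_antidiagonal] at h ⊢
    obtain ⟨h1, h2⟩ := h
    refine ⟨?_, trivial⟩
    rw [← h1, ← h2]
    abel
  · rintro ⟨⟨a, b⟩, ⟨c, d⟩⟩ h
    simp only [Finset.mem_sigma, Finset.HasAntidiagonal.mem_antidiagonal] at h ⊢
    obtain ⟨h1, h2⟩ := h
    refine ⟨?_, trivial⟩
    rw [← h1, ← h2]
    abel
  · rintro ⟨⟨a, b⟩, ⟨c, d⟩⟩ h
    simp only [Finset.mem_sigma, Finset.HasAntidiagonal.mem_antidiagonal] at h
    obtain ⟨h1, h2⟩ := h
    subst h2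
    rfl
  · rintro ⟨⟨a, b⟩, ⟨c, d⟩⟩ h
    simp only [Finset.mem_sigma, Finset.HasAntidiagonal.mem_antidiagonal] at h
    obtain ⟨h1, h2⟩ := h
    subst h2
    rfl
  · rintro ⟨⟨a, b⟩, ⟨c, d⟩⟩ _
    rfl

/-- the action as an algebra homomorphism -/
def psHom (ι : Type) : MvPowerSeries ι ℂ →ₐ[ℂ] Module.End ℂ (MvPolynomial ι ℂ) :=
  AlgHom.ofLinearMap
    { toFun := psEnd
      map_add' := psEnd_add
      map_smul' := psEnd_smul } psEnd_one psEnd_mul

theorem IsoPs_pderiv_zero (x : ι) (β : ι →₀ ℕ) (h : β x = 0) : pderiv x (IsoPs_e β) = 0 := by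
  unfold IsoPs_e
  rw [pderiv_monomial, h, Nat.cast_zero, mul_zero, monomial_zero]

theorem IsoPs_pderiv_add (x : ι) (γ : ι →₀ ℕ) :
    pderiv x (IsoPs_e (γ + Finsupp.single x 1)) = IsoPs_e γ := by
  unfold IsoPs_e
  rw [pderiv_monomial, add_tsub_cancel_right, IsoPs_fac_add, Finsupp.add_apply,
    Finsupp.single_eq_same]
  congr 1
  have h1 := fac_ne_zero γ
  have h2 : ((γ x : ℂ) + 1) ≠ 0 := by exact_mod_cast Nat.succ_ne_zero (γ x)
  push_cast
  field_simp

theorem IsoPs_cases (x : ι) (β : ι →₀ ℕ) :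
    β x = 0 ∨ ∃ γ, β = γ + Finsupp.single x 1 := by
  classical
  rcases Nat.eq_zero_or_pos (β x) with h | h
  · exact Or.inl h
  · right
    refine ⟨β - Finsupp.single x 1, ?_⟩
    rw [tsub_add_cancel_of_le]
    rw [Finsupp.single_le_iff]
    exact h

theorem psEnd_X (x : ι) (p : MvPolynomial ι ℂ) :
    psEnd (MvPowerSeries.X x) p = MvPolynomial.pderiv x p := by
  classical
  have key : psEnd (MvPowerSeries.X x) = ((MvPolynomial.pderiv x : Derivation ℂ _ _) :
      MvPolynomial ι ℂ →ₗ[ℂ] MvPolynomial ι ℂ) := by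
    apply IsoPs_ext
    intro β
    rw [IsoPs_psEnd]
    show _ = pderiv x (IsoPs_e β)
    rcases IsoPs_cases x β with h | ⟨γ, rfl⟩
    · rw [IsoPs_pderiv_zero x β h]
      refine Finset.sum_eq_zero fun q hq => ?_
      rw [MvPowerSeries.coeff_X, if_neg, zero_smul]
      intro h'
      rw [Finset.HasAntidiagonal.mem_antidiagonal] at hq
      rw [← hq, Finsupp.add_apply, h', Finsupp.single_eq_same] at h
      omega
    · rw [IsoPs_pderiv_add, Finset.sum_eq_single (Finsupp.single x 1, γ)]
      · rw [MvPowerSeries.coeff_X, if_pos rfl, one_smul]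
      · rintro ⟨a, b⟩ hq hne
        rw [MvPowerSeries.coeff_X, if_neg, zero_smul]
        intro h'
        have h'' : a = Finsupp.single x 1 := h'
        subst h''
        rw [Finset.HasAntidiagonal.mem_antidiagonal] at hq
        have hq' : Finsupp.single x 1 + b = γ + Finsupp.single x 1 := hq
        rw [add_comm] at hq'
        exact hne (by rw [add_right_cancel hq'])
      · intro h
        exact absurd (Finset.HasAntidiagonal.mem_antidiagonal.mpr (add_comm _ _)) h
  rw [key]
  rfl

theorem psEnd_C (a : ℂ) (p : MvPolynomial ι ℂ) : psEnd (MvPowerSeries.C a) p = a • p := by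
  have h : (MvPowerSeries.C a : MvPowerSeries ι ℂ) = a • 1 := by
    rw [MvPowerSeries.smul_eq_C_mul, mul_one]
  rw [h, psEnd_smul, psEnd_one]
  rfl

theorem IsoPs_cc (γ : ι →₀ ℕ) [Decidable (γ = 0)] :
    constantCoeff (IsoPs_e γ) = if γ = 0 then (1 : ℂ) else 0 := by
  classical
  unfold IsoPs_e
  rw [constantCoeff_monomial]
  by_cases h : γ = 0
  · rw [if_pos h, if_pos h, h, IsoPs_fac_zero, inv_one]
  · rw [if_neg h, if_neg h]

theorem IsoPs_cc_psEnd (f : MvPowerSeries ι ℂ) (β : ι →₀ ℕ) :
    constantCoeff (psEnd f (IsoPs_e β)) = MvPowerSeries.coeff β f := by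
  classical
  rw [IsoPs_psEnd, map_sum, Finset.sum_eq_single (β, 0)]
  · rw [MvPolynomial.smul_eq_C_mul, map_mul, constantCoeff_C, IsoPs_cc, if_pos rfl, mul_one]
  · rintro ⟨a, b⟩ hq hne
    rw [MvPolynomial.smul_eq_C_mul, map_mul, IsoPs_cc, if_neg, mul_zero]
    intro h
    have h' : b = 0 := h
    subst h'
    rw [Finset.HasAntidiagonal.mem_antidiagonal] at hq
    have hq' : a + 0 = β := hq
    rw [add_zero] at hq'
    exact hne (by rw [hq'])
  · intro h
    exact absurd (Finset.HasAntidiagonal.mem_antidiagonal.mpr (add_zero β)) h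

theorem psEnd_inj : Function.Injective (psEnd : MvPowerSeries ι ℂ → _) := by
  intro f g h
  ext β
  rw [← IsoPs_cc_psEnd, ← IsoPs_cc_psEnd, h]

theorem IsoPs_const (P : MvPolynomial ι ℂ) (h : ∀ x, pderiv x P = 0) :
    P = C (constantCoeff P) := by
  classical
  ext γ
  rw [coeff_C]
  by_cases h0 : 0 = γ
  · subst h0
    rw [if_pos rfl, constantCoeff_eq]
  · rw [if_neg h0]
    obtain ⟨x, hx⟩ : ∃ x, γ x ≠ 0 := by
      by_contra hcon
      push Not at hcon
      exact h0 (Finsupp.ext fun x => (hcon x).symm)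
    rcases IsoPs_cases x γ with h1 | ⟨δ, rfl⟩
    · exact absurd h1 hx
    · have h2 := congrArg (coeff δ) (h x)
      rw [coeff_pderiv, coeff_zero] at h2
      rcases mul_eq_zero.mp h2 with h3 | h3
      · exact h3
      · exfalso
        have h4 : ((δ x : ℂ) + 1) ≠ 0 := by exact_mod_cast Nat.succ_ne_zero (δ x)
        exact h4 h3

theorem IsoPs_comm (f : MvPowerSeries ι ℂ) (x : ι) (p : MvPolynomial ι ℂ) :
    psEnd f (pderiv x p) = pderiv x (psEnd f p) := by
  have h1 : psEnd (f * MvPowerSeries.X x) = psEnd (MvPowerSeries.X x * f) := by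
    rw [mul_comm]
  rw [psEnd_mul, psEnd_mul] at h1
  have h2 := LinearMap.congr_fun h1 p
  rw [LinearMap.comp_apply, LinearMap.comp_apply, psEnd_X, psEnd_X] at h2
  exact h2

theorem psEnd_of_pderiv (D : MvPolynomial ι ℂ →ₗ[ℂ] MvPolynomial ι ℂ)
    (hD : ∀ x p, D (pderiv x p) = pderiv x (D p)) : ∃ f : MvPowerSeries ι ℂ, D = psEnd f := by
  classical
  let f : MvPowerSeries ι ℂ := fun β => constantCoeff (D (IsoPs_e β))
  have hf : ∀ β, MvPowerSeries.coeff β f = constantCoeff (D (IsoPs_e β)) := fun β => rfl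
  refine ⟨f, IsoPs_ext ?_⟩
  have key : ∀ n : ℕ, ∀ β : ι →₀ ℕ, β.degree = n → D (IsoPs_e β) = psEnd f (IsoPs_e β) := by
    intro n
    induction n with
    | zero =>
      intro β hβ
      have h1 : ∀ x, pderiv x (D (IsoPs_e β) - psEnd f (IsoPs_e β)) = 0 := by
        intro x
        rw [map_sub, ← hD, ← IsoPs_comm]
        rcases IsoPs_cases x β with h | ⟨γ, rfl⟩
        · rw [IsoPs_pderiv_zero x β h, map_zero, map_zero, sub_zero]
        · exfalso
          rw [map_add, Finsupp.degree_single] at hβ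
          omega
      have h2 := IsoPs_const _ h1
      rw [map_sub, IsoPs_cc_psEnd, hf, sub_self, map_zero] at h2
      exact sub_eq_zero.mp h2
    | succ n ih =>
      intro β hβ
      have h1 : ∀ x, pderiv x (D (IsoPs_e β) - psEnd f (IsoPs_e β)) = 0 := by
        intro x
        rw [map_sub, ← hD, ← IsoPs_comm]
        rcases IsoPs_cases x β with h | ⟨γ, rfl⟩
        · rw [IsoPs_pderiv_zero x β h, map_zero, map_zero, sub_zero]
        · rw [IsoPs_pderiv_add, ih γ, sub_self]
          rw [map_add, Finsupp.degree_single] at hβ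
          omega
      have h2 := IsoPs_const _ h1
      rw [map_sub, IsoPs_cc_psEnd, hf, sub_self, map_zero] at h2
      exact sub_eq_zero.mp h2
  intro β
  exact key _ β rfl

end

end Pool.Agent.Lib.MP_ca1492_al.P
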