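import Mathlib

/-!
# MP_ca1492_al, p-adic side, module IsoU: locally unipotent operators and their powers

`LUop A`: every `y` is killed by a power of `A - 1`.

* `lu_pow_stab`: let `U` be stable under `A ^ N`, `n = A - 1`, `B = A ^ N - 1 = (1 + n) ^ N - 1`. In
  `ℂ[X]` we have `((1 + X) ^ N - 1) ^ i = N ^ i X ^ i + X ^ (i + 1) R_i(X)` (`X` divides
  `(1 + X) ^ N - 1` and the quotient has value `N` at `0`). Let `y ∈ U` and `n ^ k y = 0`. Claim
  `n ^ i y ∈ U` for all `i`: clear for `i ≥ k`; downward induction: if it is true for all `i' > i` then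
  `N ^ i • n ^ i y = B ^ i y - n ^ (i + 1) R_i(n) y ∈ U` (the last term is a combination of the
  `n ^ i' y`, `i' > i`). Take `i = 1`.
* `lu_pow`: powers of locally unipotent operators are locally unipotent (`A ^ N - 1 = n * w`, `w` a
  polynomial in `n`).
* `lu_scalar`: if `B` is locally unipotent and `μ ≠ 1` then `μ B - 1` is injective:
  `μ B z = z` means `(1 - μ) z = μ (B - 1) z`, so (`μ ≠ 0` if `z ≠ 0`) `(B - 1) z = ν z` with
  `ν ≠ 0`, `(B - 1) ^ k z = ν ^ k z`, so `z = 0`.
* `lu_pow_comm`: put `B = A ^ N`, `B' = A' ^ N`, `T B = μ B' T`. If `μ ≠ 1`: for every `y` there is `k`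
  with `(B - 1) ^ k y = 0`, so `0 = T ((B - 1) ^ k y) = (μ B' - 1) ^ k (T y)`, so `T y = 0`
  (`lu_scalar`), contradiction to `T ≠ 0`. So `μ = 1`. The graph `{(y, T y)}` is a subspace of
  `Y × Y'` stable under `(A × A') ^ N`; `A × A'` (`LinearMap.prodMap`) is locally unipotent; by
  `lu_pow_stab` the graph is stable under `A × A'`: `T (A y) = A' (T y)`.
-/

set_option autoImplicit false

namespace Pool.Agent.Lib.MP_ca1492_al.P

noncomputable section

variable {Y Y' : Type} [AddCommGroup Y] [Module ℂ Y] [AddCommGroup Y'] [Module ℂ Y']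

/-- locally unipotent operators -/
def LUop (A : Module.End ℂ Y) : Prop := ∀ y, ∃ k : ℕ, ((A - 1) ^ k) y = 0

/-- the quotient `((1 + X) ^ N - 1) / X` -/
def IsoUQ (N : ℕ) : Polynomial ℂ := ∑ j ∈ Finset.range N, (1 + Polynomial.X) ^ j

theorem IsoUQ_mul (N : ℕ) :
    IsoUQ N * Polynomial.X = (1 + Polynomial.X : Polynomial ℂ) ^ N - 1 := by
  have h := geom_sum_mul (1 + Polynomial.X : Polynomial ℂ) N
  rw [add_sub_cancel_left] at h
  exact h

theorem IsoUQ_coeff (N : ℕ) : (IsoUQ N).coeff 0 = N := by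
  rw [Polynomial.coeff_zero_eq_eval_zero, IsoUQ, Polynomial.eval_finsetSum]
  simp

/-- `((1 + X) ^ N - 1) ^ i = N ^ i X ^ i + X ^ (i + 1) R` -/
theorem IsoU_exp (N i : ℕ) : ∃ R : Polynomial ℂ,
    ((1 + Polynomial.X : Polynomial ℂ) ^ N - 1) ^ i =
      Polynomial.C ((N : ℂ) ^ i) * Polynomial.X ^ i + R * Polynomial.X ^ (i + 1) := by
  have h1 : Polynomial.X ∣ (IsoUQ N) ^ i - Polynomial.C ((N : ℂ) ^ i) := by
    rw [Polynomial.X_dvd_iff, Polynomial.coeff_sub, Polynomial.coeff_C_zero,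
      Polynomial.coeff_zero_eq_eval_zero, Polynomial.eval_pow,
      ← Polynomial.coeff_zero_eq_eval_zero, IsoUQ_coeff, sub_self]
  obtain ⟨R, hR⟩ := h1
  refine ⟨R, ?_⟩
  rw [← IsoUQ_mul, mul_pow, sub_eq_iff_eq_add.1 hR]
  ring

theorem IsoU_aeval (A : Module.End ℂ Y) :
    Polynomial.aeval (A - 1) (1 + Polynomial.X : Polynomial ℂ) = A := by
  rw [map_add, map_one, Polynomial.aeval_X, add_sub_cancel]

theorem lu_pow_stab (A : Module.End ℂ Y) (hA : LUop A) (N : ℕ) (hN : 0 < N) (U : Submodule ℂ Y)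
    (hU : ∀ y ∈ U, (A ^ N) y ∈ U) : ∀ y ∈ U, A y ∈ U := by
  intro y hy
  obtain ⟨k, hk⟩ := hA y
  have hN0 : (N : ℂ) ≠ 0 := Nat.cast_ne_zero.2 hN.ne'
  -- powers of `B`
  have hB : ∀ i : ℕ, ((A ^ N - 1) ^ i) y ∈ U := by
    intro i
    induction i with
    | zero => simpa using hy
    | succ i ih =>
      rw [pow_succ', Module.End.mul_apply, LinearMap.sub_apply, Module.End.one_apply]
      exact U.sub_mem (hU _ ih) ih
  -- downward induction
  have key : ∀ j i : ℕ, k ≤ i + j → ((A - 1) ^ i) y ∈ U := by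
    intro j
    induction j with
    | zero =>
      intro i hi
      have : i = (i - k) + k := by omega
      rw [this, pow_add, Module.End.mul_apply, hk, map_zero]
      exact U.zero_mem
    | succ j ih =>
      intro i hi
      obtain ⟨R, hR⟩ := IsoU_exp N i
      have h1 := congrArg (fun p => (Polynomial.aeval (A - 1) p) y) hR
      simp only [map_add, map_mul, map_pow, map_sub, map_one, Polynomial.aeval_X,
        Polynomial.aeval_C] at h1
      rw [add_sub_cancel, LinearMap.add_apply, Module.End.mul_apply, Module.End.mul_apply] at h1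
      have h2 : (Polynomial.aeval (A - 1) R) (((A - 1) ^ (i + 1)) y) ∈ U := by
        rw [Polynomial.aeval_eq_sum_range, LinearMap.sum_apply]
        refine U.sum_mem fun m _ => ?_
        rw [LinearMap.smul_apply, ← Module.End.mul_apply, ← pow_add]
        exact U.smul_mem _ (ih _ (by omega))
      have h3 : ((N : ℂ) ^ i) • ((A - 1) ^ i) y ∈ U := by
        have h4 : ((N : ℂ) ^ i) • ((A - 1) ^ i) y = ((A ^ N - 1) ^ i) y -
            (Polynomial.aeval (A - 1) R) (((A - 1) ^ (i + 1)) y) := by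
          rw [h1, add_sub_cancel_right, ← map_pow, Module.algebraMap_end_apply]
        rw [h4]
        exact U.sub_mem (hB i) h2
      have h5 : ((A - 1) ^ i) y = ((N : ℂ) ^ i)⁻¹ • (((N : ℂ) ^ i) • ((A - 1) ^ i) y) := by
        rw [smul_smul, inv_mul_cancel₀ (pow_ne_zero i hN0), one_smul]
      rw [h5]
      exact U.smul_mem _ h3
  have h6 := key k 1 (by omega)
  rw [pow_one, LinearMap.sub_apply, Module.End.one_apply] at h6
  have h7 : A y = (A y - y) + y := by abel
  rw [h7]
  exact U.add_mem h6 hy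

theorem lu_pow (A : Module.End ℂ Y) (hA : LUop A) (N : ℕ) : LUop (A ^ N) := by
  intro y
  obtain ⟨k, hk⟩ := hA y
  refine ⟨k, ?_⟩
  have h1 : (A ^ N - 1) ^ k = Polynomial.aeval (A - 1) ((IsoUQ N) ^ k) * (A - 1) ^ k := by
    have h2 := congrArg (Polynomial.aeval (A - 1)) (congrArg (fun p => p ^ k) (IsoUQ_mul N))
    simp only [mul_pow, map_mul, map_pow, Polynomial.aeval_X, map_sub, map_one, map_add] at h2
    rw [add_sub_cancel] at h2
    rw [← h2, map_pow]
  rw [h1, Module.End.mul_apply, hk, map_zero]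

theorem lu_scalar (B : Module.End ℂ Y) (hB : LUop B) (μ : ℂ) (hμ : μ ≠ 1) (z : Y)
    (hz : μ • B z = z) : z = 0 := by
  by_contra hne
  have hμ0 : μ ≠ 0 := by
    rintro rfl
    rw [zero_smul] at hz
    exact hne hz.symm
  have h1 : B z = μ⁻¹ • z := by
    rw [← hz, smul_smul, inv_mul_cancel₀ hμ0, one_smul, hz]
  have h2 : ∀ k : ℕ, ((B - 1) ^ k) z = (μ⁻¹ - 1) ^ k • z := by
    intro k
    induction k with
    | zero => simp
    | succ k ih =>
      rw [pow_succ', Module.End.mul_apply, ih, map_smul, LinearMap.sub_apply,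
        Module.End.one_apply, h1, pow_succ, mul_smul, sub_smul, one_smul]
  obtain ⟨k, hk⟩ := hB z
  rw [h2, smul_eq_zero] at hk
  rcases hk with hk | hk
  · have h3 : μ⁻¹ - 1 = 0 := by
      by_contra h4
      exact pow_ne_zero k h4 hk
    have h5 : μ⁻¹ = 1 := sub_eq_zero.1 h3
    exact hμ (inv_eq_one.1 h5)
  · exact hne hk

theorem IsoU_prod (A : Module.End ℂ Y) (A' : Module.End ℂ Y') (k : ℕ) (y : Y) (y' : Y') :
    ((A.prodMap A') ^ k) (y, y') = ((A ^ k) y, (A' ^ k) y') := by
  induction k with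
  | zero => simp
  | succ k ih =>
    rw [pow_succ', Module.End.mul_apply, ih, LinearMap.prodMap_apply, pow_succ', pow_succ',
      Module.End.mul_apply, Module.End.mul_apply]

theorem IsoU_prod_sub (A : Module.End ℂ Y) (A' : Module.End ℂ Y') :
    A.prodMap A' - 1 = (A - 1).prodMap (A' - 1) := by
  refine LinearMap.ext fun p => ?_
  obtain ⟨y, y'⟩ := p
  rw [LinearMap.sub_apply, LinearMap.prodMap_apply, LinearMap.prodMap_apply,
    LinearMap.sub_apply, LinearMap.sub_apply, Module.End.one_apply, Module.End.one_apply,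
    Module.End.one_apply, Prod.mk_sub_mk]

theorem IsoU_kill (A : Module.End ℂ Y) (y : Y) {k m : ℕ} (h : ((A - 1) ^ k) y = 0)
    (hkm : k ≤ m) : ((A - 1) ^ m) y = 0 := by
  have : m = (m - k) + k := by omega
  rw [this, pow_add, Module.End.mul_apply, h, map_zero]

theorem lu_pow_comm (A : Module.End ℂ Y) (A' : Module.End ℂ Y') (hA : LUop A) (hA' : LUop A')
    (N : ℕ) (hN : 0 < N) (T : Y →ₗ[ℂ] Y') (h0 : T ≠ 0) (μ : ℂ)
    (hT : ∀ y, T ((A ^ N) y) = μ • (A' ^ N) (T y)) : ∀ y, T (A y) = A' (T y) := by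
  have hB := lu_pow A hA N
  have hB' := lu_pow A' hA' N
  have hμ : μ = 1 := by
    by_contra hμ
    apply h0
    have h1 : ∀ k : ℕ, ∀ y, ((A ^ N - 1) ^ k) y = 0 → T y = 0 := by
      intro k
      induction k with
      | zero =>
        intro y hy
        rw [pow_zero, Module.End.one_apply] at hy
        rw [hy, map_zero]
      | succ k ih =>
        intro y hy
        rw [pow_succ, Module.End.mul_apply] at hy
        have h2 := ih _ hy
        rw [LinearMap.sub_apply, Module.End.one_apply, map_sub, hT, sub_eq_zero] at h2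
        exact lu_scalar (A' ^ N) hB' μ hμ (T y) h2
    refine LinearMap.ext fun y => ?_
    obtain ⟨k, hk⟩ := hB y
    rw [h1 k y hk, LinearMap.zero_apply]
  subst hμ
  have hAA : LUop (A.prodMap A') := by
    rintro ⟨y, y'⟩
    obtain ⟨k, hk⟩ := hA y
    obtain ⟨k', hk'⟩ := hA' y'
    refine ⟨max k k', ?_⟩
    rw [IsoU_prod_sub, IsoU_prod, IsoU_kill A y hk (le_max_left _ _),
      IsoU_kill A' y' hk' (le_max_right _ _)]
    rfl
  have hst : ∀ p ∈ T.graph, ((A.prodMap A') ^ N) p ∈ T.graph := by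
    rintro ⟨y, y'⟩ hp
    rw [LinearMap.mem_graph_iff] at hp
    have hp' : y' = T y := hp
    rw [IsoU_prod, LinearMap.mem_graph_iff]
    show (A' ^ N) y' = T ((A ^ N) y)
    rw [hT, one_smul, hp']
  intro y
  have h3 := lu_pow_stab (A.prodMap A') hAA N hN T.graph hst (y, T y)
    ((LinearMap.mem_graph_iff T _).2 rfl)
  rw [LinearMap.mem_graph_iff] at h3
  exact h3.symm

end

end Pool.Agent.Lib.MP_ca1492_al.P
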