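import Mathlib
import Pool.Agent.Lib.MP_ca1492_al.P.IsoU
import Pool.Agent.Lib.MP_ca1492_al.P.Schur
import Pool.Agent.Lib.MP_ca1492_al.P.SmBasic

/-!
# MP_ca1492_al, p-adic side, module IsoTw: `π ⊗ σ`, `σ` a locally unipotent representation of the
value group

`v : G →* Multiplicative A` surjective, `twt v π σ` = the representation `g ↦ π g ⊗ σ (v g)` on
`V ⊗ O`. `CS v π π'`: there is `N > 0` such that for every `a ∈ A` there is an element `z` of `G` with
`v z = a ^ N` which acts by scalars on `π` and `π'`.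

Proofs.
* `lu_map`: `map id (σ a)` is locally unipotent on `V ⊗ O` (its `k`-th power minus ... : `(map id B - 1)
  ^ k = map id ((B - 1) ^ k)`, and a tensor is a finite sum of pure tensors, take the maximal `k`).
* `twt_comm`: `z` as in `CS` for `a`: `twt z = μ • (map id (σ a)) ^ N` on the source and
  `μ' • (map id (σ' a)) ^ N` on the target. So `T ((map id (σ a)) ^ N x) =
  (μ⁻¹ μ') • (map id (σ' a)) ^ N (T x)`. Apply `lu_pow_comm`.
* `twt_comm'`: `map (π g) id = map id (σ (v g)⁻¹) ∘ twt g`.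
* `twt_iso`: `T ≠ 0`, so `T (x ⊗ o) ≠ 0` for some `x`, `o`; choose a linear form `l` on `O'` with
  `(id ⊗ l) (T (x ⊗ o)) ≠ 0` (`id ⊗ l : V' ⊗ O' → V' ⊗ ℂ ≃ V'`; these maps separate
  the elements of `V' ⊗ O'`: choose a basis of `O'`). The map `x ↦ (id ⊗ l) (T (x ⊗ o))` is
  equivariant by `twt_comm'` and nonzero, so bijective (`irr_equi`).
* `twt_hom`: if `T = 0` take `t = 0`. Otherwise for fixed `o` the map `x ↦ T (x ⊗ o)` is equivariant
  from `π` to `tens π O'` (`twt_comm'`), so by `isotyp` there is `o'` with `T (x ⊗ o) = x ⊗ o'` for all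
  `x`; `o'` is unique (`V ≠ 0`: `x ⊗ o' = 0` for a nonzero `x` implies `o' = 0`), so `o ↦ o'` is a
  linear map `t`; `T (x ⊗ σ a o) = map id (σ' a) (T (x ⊗ o))` (`twt_comm`) gives `t (σ a o) = σ' a (t o)`.
* `twt_sub`: for `a ∈ A` and `z` as in `CS` (with `π' = π`): `U` is stable under
  `twt z = μ (map id (σ a)) ^ N`, so by `lu_pow_stab` under `map id (σ a)`; hence also under
  `map (π g) id = map id (σ (v g)⁻¹) ∘ twt g`, i.e. `U` is stable for `tens π O`. By `tens_sub`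
  `U = V ⊗ O'`. For `o ∈ O'` and `a`: `x ⊗ σ a o ∈ U = V ⊗ O'` for all `x`, so `σ a o ∈ O'` (take a
  linear form on `V` with value `1` at a nonzero `x` and apply it to the first factor).
* `twt_emb`: apply `twt_sub` to the range of `i` and use that
  `map id O'.subtype : V ⊗ O' → V ⊗ O` is injective.
-/

set_option autoImplicit false

namespace Pool.Agent.Lib.MP_ca1492_al.P

open Topology TensorProduct

noncomputable section

variable {G : Type} [Group G] {A : Type} [AddCommGroup A]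
variable {V V' O O' E : Type} [AddCommGroup V] [Module ℂ V] [AddCommGroup V'] [Module ℂ V']
  [AddCommGroup O] [Module ℂ O] [AddCommGroup O'] [Module ℂ O'] [AddCommGroup E] [Module ℂ E]

/-- `g ↦ π g ⊗ σ (v g)` -/
def twt (v : G →* Multiplicative A) (π : Representation ℂ G V)
    (σ : Representation ℂ (Multiplicative A) O) : Representation ℂ G (V ⊗[ℂ] O) where
  toFun g := TensorProduct.map (π g) (σ (v g))
  map_one' := by
    rw [map_one, map_one, map_one]
    exact TensorProduct.map_id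
  map_mul' := by
    intro a b
    rw [map_mul, map_mul, map_mul]
    exact TensorProduct.map_comp _ _ _ _

/-- locally unipotent representations -/
def LU (σ : Representation ℂ (Multiplicative A) O) : Prop := ∀ a, LUop (σ a)

/-- enough elements of `G` act by scalars -/
def CS (v : G →* Multiplicative A) (π : Representation ℂ G V) (π' : Representation ℂ G V') :
    Prop :=
  ∃ N : ℕ, 0 < N ∧ ∀ a : Multiplicative A, ∃ z : G, v z = a ^ N ∧ ∃ μ μ' : ℂ, μ ≠ 0 ∧ μ' ≠ 0 ∧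
    (∀ x, π z x = μ • x) ∧ ∀ x, π' z x = μ' • x

variable {v : G →* Multiplicative A} {π : Representation ℂ G V} {π' : Representation ℂ G V'}
  {σ : Representation ℂ (Multiplicative A) O} {σ' : Representation ℂ (Multiplicative A) O'}

theorem IsoTw_pow_add {Y : Type} [AddCommGroup Y] [Module ℂ Y] (B : Module.End ℂ Y) (k m : ℕ)
    (y : Y) (h : (B ^ k) y = 0) : (B ^ (m + k)) y = 0 := by
  rw [pow_add, Module.End.mul_apply, h, map_zero]

theorem lu_map (B : Module.End ℂ O) (hB : LUop B) :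
    LUop (TensorProduct.map (LinearMap.id : V →ₗ[ℂ] V) B : Module.End ℂ (V ⊗[ℂ] O)) := by
  have h1 : (TensorProduct.map (LinearMap.id : V →ₗ[ℂ] V) B : Module.End ℂ (V ⊗[ℂ] O)) - 1 =
      LinearMap.lTensor V (B - 1) := by
    rw [LinearMap.lTensor_sub]
    congr 1
    exact (LinearMap.lTensor_id V O).symm
  intro y
  rw [h1]
  induction y using TensorProduct.induction_on with
  | zero => exact ⟨0, map_zero _⟩
  | tmul x o =>
    obtain ⟨k, hk⟩ := hB o
    refine ⟨k, ?_⟩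
    rw [LinearMap.lTensor_pow, LinearMap.lTensor_tmul, hk, TensorProduct.tmul_zero]
  | add a b ha hb =>
    obtain ⟨k, hk⟩ := ha
    obtain ⟨m, hm⟩ := hb
    refine ⟨m + k, ?_⟩
    rw [map_add, IsoTw_pow_add _ _ _ _ hk, add_comm m k, IsoTw_pow_add _ _ _ _ hm, add_zero]

theorem IsoTw_pow (σ : Representation ℂ (Multiplicative A) O) (a : Multiplicative A) (N : ℕ)
    (x : V ⊗[ℂ] O) : TensorProduct.map LinearMap.id (σ (a ^ N)) x =
      ((TensorProduct.map (LinearMap.id : V →ₗ[ℂ] V) (σ a) : Module.End ℂ (V ⊗[ℂ] O)) ^ N) x := by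
  rw [map_pow]
  change LinearMap.lTensor V ((σ a) ^ N) x = ((LinearMap.lTensor V (σ a)) ^ N) x
  rw [LinearMap.lTensor_pow]

theorem IsoTw_scal (z : G) (a : Multiplicative A) (N : ℕ) (hz : v z = a ^ N) (μ : ℂ)
    (hμ : ∀ x, π z x = μ • x) (x : V ⊗[ℂ] O) : twt v π σ z x =
      μ • ((TensorProduct.map (LinearMap.id : V →ₗ[ℂ] V) (σ a) : Module.End ℂ (V ⊗[ℂ] O)) ^ N) x := by
  rw [← IsoTw_pow]
  have h1 : (π z : V →ₗ[ℂ] V) = μ • LinearMap.id := LinearMap.ext hμ
  change TensorProduct.map (π z) (σ (v z)) x = _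
  rw [h1, hz, TensorProduct.map_smul_left, LinearMap.smul_apply]

theorem twt_comm (hCS : CS v π π') (hσ : LU σ) (hσ' : LU σ') (T : V ⊗[ℂ] O →ₗ[ℂ] V' ⊗[ℂ] O')
    (hT : Equi (twt v π σ) (twt v π' σ') T) (h0 : T ≠ 0) (a : Multiplicative A)
    (x : V ⊗[ℂ] O) :
    T (TensorProduct.map LinearMap.id (σ a) x) = TensorProduct.map LinearMap.id (σ' a) (T x) := by
  obtain ⟨N, hN, hz⟩ := hCS
  obtain ⟨z, hz, μ, μ', hμ0, hμ0', hμ, hμ'⟩ := hz a
  refine lu_pow_comm _ _ (lu_map (σ a) (hσ a)) (lu_map (σ' a) (hσ' a)) N hN T h0 (μ⁻¹ * μ') ?_ x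
  intro y
  have h1 := hT z y
  rw [IsoTw_scal z a N hz μ hμ, IsoTw_scal z a N hz μ' hμ', map_smul] at h1
  rw [mul_smul, ← h1, smul_smul, inv_mul_cancel₀ hμ0, one_smul]

theorem IsoTw_unt (g : G) (x : V ⊗[ℂ] O) : TensorProduct.map (π g) LinearMap.id x =
    TensorProduct.map LinearMap.id (σ (v g)⁻¹) (twt v π σ g x) := by
  change _ = TensorProduct.map LinearMap.id (σ (v g)⁻¹) (TensorProduct.map (π g) (σ (v g)) x)
  rw [← LinearMap.comp_apply, ← TensorProduct.map_comp]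
  have h1 : (σ (v g)⁻¹) ∘ₗ (σ (v g)) = LinearMap.id := by
    have : (σ (v g)⁻¹) * (σ (v g)) = 1 := by rw [← map_mul, inv_mul_cancel, map_one]
    exact this
  rw [h1, LinearMap.id_comp]

theorem twt_comm' (hCS : CS v π π') (hσ : LU σ) (hσ' : LU σ') (T : V ⊗[ℂ] O →ₗ[ℂ] V' ⊗[ℂ] O')
    (hT : Equi (twt v π σ) (twt v π' σ') T) (h0 : T ≠ 0) (g : G) (x : V ⊗[ℂ] O) :
    T (TensorProduct.map (π g) LinearMap.id x) = TensorProduct.map (π' g) LinearMap.id (T x) := by
  rw [IsoTw_unt (v := v) (σ := σ), twt_comm hCS hσ hσ' T hT h0, hT g x,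
    ← IsoTw_unt (v := v) (σ := σ')]

theorem twt_iso (hi : Irr π) (hi' : Irr π') (hCS : CS v π π') (hσ : LU σ) (hσ' : LU σ')
    (T : V ⊗[ℂ] O →ₗ[ℂ] V' ⊗[ℂ] O') (hT : Equi (twt v π σ) (twt v π' σ') T) (h0 : T ≠ 0) :
    Iso π π' := by
  let _ : TopologicalSpace G := ⊥
  have _ : DiscreteTopology G := ⟨rfl⟩
  obtain ⟨x, o, hxo⟩ : ∃ x o, T (x ⊗ₜ[ℂ] o) ≠ 0 := by
    by_contra hcon
    push Not at hcon
    apply h0
    ext x o
    exact hcon x o
  obtain ⟨l, hl⟩ : ∃ l : O' →ₗ[ℂ] ℂ, TensorProduct.rid ℂ V' (l.lTensor V' (T (x ⊗ₜ[ℂ] o))) ≠ 0 := by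
    by_contra hcon
    push Not at hcon
    apply hxo
    apply schur_sep
    intro l
    rw [hcon l, map_zero, map_zero]
  have h1 : ∀ (g : G) (y : V' ⊗[ℂ] O'),
      TensorProduct.rid ℂ V' (l.lTensor V' (TensorProduct.map (π' g) LinearMap.id y)) =
        π' g (TensorProduct.rid ℂ V' (l.lTensor V' y)) := by
    intro g y
    induction y using TensorProduct.induction_on with
    | zero => simp
    | tmul x o => simp
    | add a b ha hb => rw [map_add, map_add, map_add, ha, hb, map_add, map_add, map_add]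
  let f : V →ₗ[ℂ] V' := (TensorProduct.rid ℂ V').toLinearMap ∘ₗ l.lTensor V' ∘ₗ T ∘ₗ
    (TensorProduct.mk ℂ V O).flip o
  have hf : Equi π π' f := by
    intro g y
    change TensorProduct.rid ℂ V' (l.lTensor V' (T ((π g y) ⊗ₜ[ℂ] o))) =
      π' g (TensorProduct.rid ℂ V' (l.lTensor V' (T (y ⊗ₜ[ℂ] o))))
    rw [← h1, ← twt_comm' hCS hσ hσ' T hT h0 g, TensorProduct.map_tmul, LinearMap.id_apply]
  have hf0 : f ≠ 0 := by
    intro h
    apply hl
    exact LinearMap.congr_fun h x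
  have hb := irr_equi π π' f hf hi hi' hf0
  exact ⟨LinearEquiv.ofBijective f hb, hf⟩

/-- a linear form with value `1` at a nonzero vector -/
theorem IsoTw_form {x : V} (hx : x ≠ 0) : ∃ φ : V →ₗ[ℂ] ℂ, φ x = 1 := by
  by_contra hcon
  apply hx
  rw [← Module.forall_dual_apply_eq_zero_iff ℂ x]
  intro φ
  by_contra h1
  apply hcon
  exact ⟨(φ x)⁻¹ • φ, by simp [h1]⟩

theorem twt_hom (hi : Irr π) (hs : ∀ S : V →ₗ[ℂ] V, Equi π π S → ∃ c : ℂ, ∀ x, S x = c • x)
    (hv : Function.Surjective v) (hCS : CS v π π) (hσ : LU σ) (hσ' : LU σ')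
    (T : V ⊗[ℂ] O →ₗ[ℂ] V ⊗[ℂ] O') (hT : Equi (twt v π σ) (twt v π σ') T) :
    ∃ t : O →ₗ[ℂ] O', Equi σ σ' t ∧ T = TensorProduct.map LinearMap.id t := by
  let _ : TopologicalSpace G := ⊥
  have _ : DiscreteTopology G := ⟨rfl⟩
  by_cases h0 : T = 0
  · refine ⟨0, fun a o => ?_, ?_⟩
    · simp
    · rw [h0, TensorProduct.map_zero_right]
  obtain ⟨x₀, hx₀⟩ := hi.1
  obtain ⟨φ, hφ⟩ := IsoTw_form hx₀
  have hex : ∀ o : O, ∃ o' : O', ∀ x : V, T (x ⊗ₜ[ℂ] o) = x ⊗ₜ[ℂ] o' := by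
    intro o
    obtain ⟨o', ho'⟩ := isotyp π hi hs (T ∘ₗ (TensorProduct.mk ℂ V O).flip o) (by
      intro g y
      change T ((π g y) ⊗ₜ[ℂ] o) = TensorProduct.map (π g) LinearMap.id (T (y ⊗ₜ[ℂ] o))
      rw [← twt_comm' hCS hσ hσ' T hT h0 g, TensorProduct.map_tmul, LinearMap.id_apply])
    exact ⟨o', ho'⟩
  let t : O →ₗ[ℂ] O' := (TensorProduct.lid ℂ O').toLinearMap ∘ₗ φ.rTensor O' ∘ₗ T ∘ₗ
    (TensorProduct.mk ℂ V O) x₀
  have ht : ∀ o x, T (x ⊗ₜ[ℂ] o) = x ⊗ₜ[ℂ] t o := by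
    intro o x
    obtain ⟨o', ho'⟩ := hex o
    have h1 : t o = o' := by
      change TensorProduct.lid ℂ O' (φ.rTensor O' (T (x₀ ⊗ₜ[ℂ] o))) = o'
      rw [ho', LinearMap.rTensor_tmul, TensorProduct.lid_tmul, hφ, one_smul]
    rw [h1, ho']
  refine ⟨t, fun a o => ?_, ?_⟩
  · have h1 := twt_comm hCS hσ hσ' T hT h0 a (x₀ ⊗ₜ[ℂ] o)
    rw [TensorProduct.map_tmul, LinearMap.id_apply, ht, ht, TensorProduct.map_tmul,
      LinearMap.id_apply] at h1
    have h2 := congrArg (fun y => TensorProduct.lid ℂ O' (φ.rTensor O' y)) h1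
    simp only [LinearMap.rTensor_tmul, TensorProduct.lid_tmul, hφ, one_smul] at h2
    exact h2
  · ext x o
    simp only [TensorProduct.AlgebraTensorModule.curry_apply, TensorProduct.curry_apply,
      LinearMap.coe_restrictScalars]
    rw [ht, TensorProduct.map_tmul, LinearMap.id_apply]

theorem twt_sub (hi : Irr π) (hs : ∀ S : V →ₗ[ℂ] V, Equi π π S → ∃ c : ℂ, ∀ x, S x = c • x)
    (hv : Function.Surjective v) (hCS : CS v π π) (hσ : LU σ) (U : Submodule ℂ (V ⊗[ℂ] O))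
    (hU : Stab (twt v π σ) U) :
    ∃ X : Submodule ℂ O, Stab σ X ∧
      U = LinearMap.range (TensorProduct.map (LinearMap.id : V →ₗ[ℂ] V) X.subtype) := by
  let _ : TopologicalSpace G := ⊥
  have _ : DiscreteTopology G := ⟨rfl⟩
  have hL : ∀ (a : Multiplicative A), ∀ y ∈ U, TensorProduct.map LinearMap.id (σ a) y ∈ U := by
    intro a
    obtain ⟨N, hN, hz⟩ := hCS
    obtain ⟨z, hz, μ, μ', hμ0, hμ0', hμ, hμ'⟩ := hz a
    refine lu_pow_stab _ (lu_map (σ a) (hσ a)) N hN U ?_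
    intro y hy
    have h1 := hU z y hy
    rw [IsoTw_scal z a N hz μ hμ] at h1
    have h2 := U.smul_mem μ⁻¹ h1
    rwa [smul_smul, inv_mul_cancel₀ hμ0, one_smul] at h2
  have hst : Stab (tens π O) U := by
    intro g y hy
    change TensorProduct.map (π g) LinearMap.id y ∈ U
    rw [IsoTw_unt (v := v) (σ := σ)]
    exact hL _ _ (hU g y hy)
  obtain ⟨X, hX⟩ := tens_sub π hi hs U hst
  refine ⟨X, ?_, hX⟩
  obtain ⟨x₀, hx₀⟩ := hi.1
  obtain ⟨φ, hφ⟩ := IsoTw_form hx₀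
  intro a o ho
  have h1 : x₀ ⊗ₜ[ℂ] o ∈ U := by
    rw [hX]
    exact ⟨x₀ ⊗ₜ[ℂ] (⟨o, ho⟩ : X), by rw [TensorProduct.map_tmul]; rfl⟩
  have h2 := hL a _ h1
  rw [TensorProduct.map_tmul, LinearMap.id_apply, hX] at h2
  obtain ⟨w, hw⟩ := h2
  have h3 : ∀ w : V ⊗[ℂ] X, TensorProduct.lid ℂ O (φ.rTensor O
      (TensorProduct.map (LinearMap.id : V →ₗ[ℂ] V) X.subtype w)) ∈ X := by
    intro w
    induction w using TensorProduct.induction_on with
    | zero => simp
    | tmul x o =>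
      rw [TensorProduct.map_tmul, LinearMap.rTensor_tmul, TensorProduct.lid_tmul]
      exact X.smul_mem _ o.2
    | add a b ha hb =>
      rw [map_add, map_add, map_add]
      exact X.add_mem ha hb
  have h4 := h3 w
  rw [hw, LinearMap.rTensor_tmul, TensorProduct.lid_tmul, hφ, one_smul] at h4
  exact h4

/-- representations embedded in `V ⊗ O` are of the form `V ⊗ X` -/
theorem twt_emb (hi : Irr π) (hs : ∀ S : V →ₗ[ℂ] V, Equi π π S → ∃ c : ℂ, ∀ x, S x = c • x)
    (hv : Function.Surjective v) (hCS : CS v π π) (hσ : LU σ) (ρ : Representation ℂ G E)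
    (i : E →ₗ[ℂ] V ⊗[ℂ] O) (hi' : Equi ρ (twt v π σ) i) (hinj : Function.Injective i) :
    ∃ (X : Submodule ℂ O) (hX : Stab σ X) (e : E ≃ₗ[ℂ] V ⊗[ℂ] X),
      Equi ρ (twt v π (subRep σ X hX)) (e : E →ₗ[ℂ] V ⊗[ℂ] X) ∧
      ∀ y, TensorProduct.map LinearMap.id X.subtype (e y) = i y := by
  have hst : Stab (twt v π σ) (LinearMap.range i) := by
    rintro g _ ⟨y, rfl⟩
    exact ⟨ρ g y, hi' g y⟩
  obtain ⟨X, hX, hU⟩ := twt_sub hi hs hv hCS hσ (LinearMap.range i) hst
  have hJ : Function.Injective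
      (TensorProduct.map (LinearMap.id : V →ₗ[ℂ] V) X.subtype) :=
    Module.Flat.lTensor_preserves_injective_linearMap (M := V) X.subtype X.injective_subtype
  let e : E ≃ₗ[ℂ] V ⊗[ℂ] X := (LinearEquiv.ofInjective i hinj).trans
    ((LinearEquiv.ofEq _ _ hU).trans (LinearEquiv.ofInjective _ hJ).symm)
  have he : ∀ y, TensorProduct.map LinearMap.id X.subtype (e y) = i y := by
    intro y
    have h1 : (LinearEquiv.ofInjective _ hJ) (e y) =
        (LinearEquiv.ofEq _ _ hU) (LinearEquiv.ofInjective i hinj y) :=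
      LinearEquiv.apply_symm_apply _ _
    exact congrArg Subtype.val h1
  have hcomm : ∀ (g : G) (w : V ⊗[ℂ] X),
      TensorProduct.map LinearMap.id X.subtype (twt v π (subRep σ X hX) g w) =
        twt v π σ g (TensorProduct.map LinearMap.id X.subtype w) := by
    intro g w
    induction w using TensorProduct.induction_on with
    | zero => simp
    | tmul x o => rfl
    | add a b ha hb => rw [map_add, map_add, map_add, map_add, ha, hb]
  refine ⟨X, hX, e, fun g y => ?_, he⟩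
  apply hJ
  change TensorProduct.map LinearMap.id X.subtype (e (ρ g y)) =
    TensorProduct.map LinearMap.id X.subtype (twt v π (subRep σ X hX) g (e y))
  rw [hcomm, he, he, hi' g y]

end

end Pool.Agent.Lib.MP_ca1492_al.P
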