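import Mathlib
import Pool.Agent.Lib.MP_ca1492_al.P.IsoPs
import Pool.Agent.Lib.MP_ca1492_al.P.IsoTw
import Pool.Agent.Lib.MP_ca1492_al.P.PolInj

/-!
# MP_ca1492_al, p-adic side, module IsoPs2: translations and power series

* `pderiv_of_shift`: `D` commutes with all `shiftP`. For a polynomial `p` there are finitely many
  polynomials `p_k`, `k < n` (independent of `t`) with `shiftP (t e_x) p = Σ t^k p_k` for all
  `t : ℤ` and `p_1 = ∂_x p` (`n ≥ 2`, allow zeros): the set of the `p` with this property is closed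
  under sums and products and contains the constants and the variables (`MvPolynomial.induction_on`; for
  the product with `X_y` only). So `Σ t^k D p_k = Σ t^k (D p)_k` for all integers `t`;
  comparing coefficients (for every monomial, two polynomials in `t` of `Polynomial ℂ` which agree at
  all integers are equal) `D p_1 = (D p)_1`.
* `psEnd_shift`: `psEnd f` commutes with `shiftP y`. With `e β = u^β / β!`:
  `shiftP y (e β) = Σ_{α + γ = β} (y^α / α!) e γ`, i.e. `shiftP y = psEnd (exp y)` where `exp y` is the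
  power series with coefficients `y^α / α! = Π (y x)^(α x) / (α x)!`, and power series commute.
  (Alternatively: an operator `D` commuting with all `pderiv x` commutes with `shiftP y`, because
  `shiftP (e_x) = Σ_k ∂_x^k / k!`, check on monomials, and `shiftP` is multiplicative; for
  `y` with finite support. The exponential is also fine for infinite `ι`, since `β` has
  finite support.)
* `psEnd_of_shift`: `pderiv_of_shift` and `psEnd_of_pderiv`.
* `lu_pol`: `shiftP y - 1` lowers the total degree (or: is locally nilpotent, by induction on the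
  degree of monomials).
-/

set_option autoImplicit false

namespace Pool.Agent.Lib.MP_ca1492_al.P

open MvPolynomial

noncomputable section

variable {ι : Type}

theorem IsoPs2_mulX (y : ι → ℤ) (p : MvPolynomial ι ℂ) (i : ι) :
    shiftP y (p * X i) = shiftP y p * (X i + C (y i : ℂ)) := by
  unfold shiftP
  simp only [AlgHom.toLinearMap_apply, map_mul, aeval_X]

theorem IsoPs2_mul (y : ι → ℤ) (p q : MvPolynomial ι ℂ) :
    shiftP y (p * q) = shiftP y p * shiftP y q := by
  unfold shiftP
  simp only [AlgHom.toLinearMap_apply, map_mul]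

theorem IsoPs2_C (y : ι → ℤ) (a : ℂ) : shiftP y (C a : MvPolynomial ι ℂ) = C a := by
  unfold shiftP
  simp only [AlgHom.toLinearMap_apply]
  exact AlgHom.commutes _ _

open Classical in
/-- the shift in the variable `x`, as a polynomial in the parameter -/
def IsoPs2_Q (x : ι) : MvPolynomial ι ℂ →ₐ[ℂ] Polynomial (MvPolynomial ι ℂ) :=
  MvPolynomial.aeval fun i =>
    Polynomial.C (X i) + Polynomial.C (C (if i = x then (1 : ℂ) else 0)) * Polynomial.X

open Classical in
theorem IsoPs2_Q_mulX (x : ι) (p : MvPolynomial ι ℂ) (i : ι) :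
    IsoPs2_Q x (p * X i) = IsoPs2_Q x p *
      (Polynomial.C (X i) + Polynomial.C (C (if i = x then (1 : ℂ) else 0)) * Polynomial.X) := by
  unfold IsoPs2_Q
  rw [map_mul, aeval_X]

theorem IsoPs2_Q_C (x : ι) (a : ℂ) : IsoPs2_Q x (C a) = Polynomial.C (C a) := by
  have h : (C a : MvPolynomial ι ℂ) = algebraMap ℂ _ a := rfl
  rw [h, AlgHom.commutes]
  rfl

theorem IsoPs2_Q_coeff0 (x : ι) (p : MvPolynomial ι ℂ) : (IsoPs2_Q x p).coeff 0 = p := by
  induction p using MvPolynomial.induction_on with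
  | C a => rw [IsoPs2_Q_C, Polynomial.coeff_C_zero]
  | add p q hp hq => rw [map_add, Polynomial.coeff_add, hp, hq]
  | mul_X p i hp =>
    rw [IsoPs2_Q_mulX, Polynomial.mul_coeff_zero, hp, Polynomial.coeff_add,
      Polynomial.coeff_C_zero, Polynomial.mul_coeff_zero, Polynomial.coeff_X_zero, mul_zero,
      add_zero]

theorem IsoPs2_Q_coeff1 (x : ι) (p : MvPolynomial ι ℂ) :
    (IsoPs2_Q x p).coeff 1 = pderiv x p := by
  classical
  induction p using MvPolynomial.induction_on with
  | C a => rw [IsoPs2_Q_C, pderiv_C, Polynomial.coeff_C_of_ne_zero one_ne_zero]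
  | add p q hp hq => rw [map_add, Polynomial.coeff_add, hp, hq, map_add]
  | mul_X p i hp =>
    rw [IsoPs2_Q_mulX, mul_add, Polynomial.coeff_add, Polynomial.coeff_mul_C, hp,
      ← mul_assoc, Polynomial.coeff_mul_X, Polynomial.coeff_mul_C, IsoPs2_Q_coeff0,
      Derivation.leibniz, pderiv_X, smul_eq_mul, smul_eq_mul, Pi.single_apply]
    split_ifs with h1 <;> simp [mul_comm, add_comm]

open Classical in
theorem IsoPs2_Q_eval (x : ι) (t : ℤ) (p : MvPolynomial ι ℂ) :
    (IsoPs2_Q x p).eval (C (t : ℂ)) = shiftP (Pi.single x t) p := by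
  induction p using MvPolynomial.induction_on with
  | C a => rw [IsoPs2_Q_C, Polynomial.eval_C, IsoPs2_C]
  | add p q hp hq => rw [map_add, Polynomial.eval_add, hp, hq, map_add]
  | mul_X p i hp =>
    rw [IsoPs2_Q_mulX, Polynomial.eval_mul, hp, IsoPs2_mulX, Polynomial.eval_add,
      Polynomial.eval_C, Polynomial.eval_mul, Polynomial.eval_C, Polynomial.eval_X, ← C_mul,
      Pi.single_apply]
    split_ifs with h1 <;> simp

/-- apply a linear map to the coefficients -/
def IsoPs2_map (D : MvPolynomial ι ℂ →ₗ[ℂ] MvPolynomial ι ℂ) (q : Polynomial (MvPolynomial ι ℂ)) :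
    Polynomial (MvPolynomial ι ℂ) :=
  ∑ k ∈ q.support, Polynomial.monomial k (D (q.coeff k))

theorem IsoPs2_map_coeff (D : MvPolynomial ι ℂ →ₗ[ℂ] MvPolynomial ι ℂ)
    (q : Polynomial (MvPolynomial ι ℂ)) (k : ℕ) :
    (IsoPs2_map D q).coeff k = D (q.coeff k) := by
  unfold IsoPs2_map
  rw [Polynomial.finsetSum_coeff]
  simp only [Polynomial.coeff_monomial]
  rw [Finset.sum_ite_eq' q.support k]
  split_ifs with h
  · rfl
  · rw [Polynomial.notMem_support_iff.mp h, map_zero]

theorem IsoPs2_map_eval (D : MvPolynomial ι ℂ →ₗ[ℂ] MvPolynomial ι ℂ)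
    (q : Polynomial (MvPolynomial ι ℂ)) (a : ℂ) :
    (IsoPs2_map D q).eval (C a) = D (q.eval (C a)) := by
  unfold IsoPs2_map
  rw [Polynomial.eval_finsetSum, Polynomial.eval_eq_sum, Polynomial.sum, map_sum]
  refine Finset.sum_congr rfl fun k _ => ?_
  rw [Polynomial.eval_monomial, ← C_pow, mul_comm, mul_comm (q.coeff k), ← smul_eq_C_mul,
    ← smul_eq_C_mul, map_smul]

theorem pderiv_of_shift (D : MvPolynomial ι ℂ →ₗ[ℂ] MvPolynomial ι ℂ)
    (hD : ∀ (y : ι → ℤ) p, D (shiftP y p) = shiftP y (D p)) (x : ι) (p : MvPolynomial ι ℂ) :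
    D (pderiv x p) = pderiv x (D p) := by
  classical
  have h1 : IsoPs2_map D (IsoPs2_Q x p) = IsoPs2_Q x (D p) := by
    refine Polynomial.eq_of_infinite_eval_eq _ _ ?_
    have h2 : Set.Infinite (Set.range fun t : ℤ => (C (t : ℂ) : MvPolynomial ι ℂ)) := by
      refine Set.infinite_range_of_injective fun s t hst => ?_
      exact Int.cast_injective (C_injective ι ℂ hst)
    refine h2.mono ?_
    rintro _ ⟨t, rfl⟩
    change (IsoPs2_map D (IsoPs2_Q x p)).eval (C (t : ℂ)) = (IsoPs2_Q x (D p)).eval (C (t : ℂ))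
    rw [IsoPs2_map_eval, IsoPs2_Q_eval, IsoPs2_Q_eval, hD]
  have h3 := congrArg (fun q : Polynomial (MvPolynomial ι ℂ) => q.coeff 1) h1
  simp only [IsoPs2_map_coeff, IsoPs2_Q_coeff1] at h3
  exact h3

theorem IsoPs2_comm (y : ι → ℤ) (x : ι) (p : MvPolynomial ι ℂ) :
    shiftP y (pderiv x p) = pderiv x (shiftP y p) := by
  classical
  induction p using MvPolynomial.induction_on with
  | C a => rw [pderiv_C, map_zero, IsoPs2_C, pderiv_C]
  | add p q hp hq => rw [map_add, map_add, hp, hq, map_add, map_add]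
  | mul_X p i hp =>
    rw [IsoPs2_mulX, Derivation.leibniz, Derivation.leibniz, map_add (pderiv x), pderiv_C,
      add_zero, map_add, smul_eq_mul, smul_eq_mul, smul_eq_mul, smul_eq_mul, IsoPs2_mul,
      mul_comm (X i), IsoPs2_mulX, hp, pderiv_X, Pi.single_apply, mul_comm (X i + C (y i : ℂ))]
    split_ifs with h1
    · have h2 : shiftP y (1 : MvPolynomial ι ℂ) = 1 := by
        rw [← C_1, IsoPs2_C]
      rw [h2]
    · rw [map_zero]

theorem psEnd_shift (f : MvPowerSeries ι ℂ) (y : ι → ℤ) (p : MvPolynomial ι ℂ) :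
    psEnd f (shiftP y p) = shiftP y (psEnd f p) := by
  obtain ⟨g, hg⟩ := psEnd_of_pderiv (shiftP y) (fun x p => IsoPs2_comm y x p)
  have h1 : psEnd f ∘ₗ psEnd g = psEnd g ∘ₗ psEnd f := by
    rw [← psEnd_mul, ← psEnd_mul, mul_comm]
  rw [hg]
  exact congrArg (fun T : MvPolynomial ι ℂ →ₗ[ℂ] MvPolynomial ι ℂ => T p) h1

theorem psEnd_of_shift (D : MvPolynomial ι ℂ →ₗ[ℂ] MvPolynomial ι ℂ)
    (hD : ∀ (y : ι → ℤ) p, D (shiftP y p) = shiftP y (D p)) :
    ∃ f : MvPowerSeries ι ℂ, D = psEnd f :=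
  psEnd_of_pderiv D fun x p => pderiv_of_shift D hD x p

theorem IsoPs2_pow (y : ι → ℤ) (i : ι) (p : MvPolynomial ι ℂ) (m : ℕ) :
    ((shiftP y - 1 : Module.End ℂ (MvPolynomial ι ℂ)) ^ (m + 1)) (p * X i) =
      ((shiftP y - 1 : Module.End ℂ (MvPolynomial ι ℂ)) ^ (m + 1)) p * X i +
        ((m : ℂ) + 1) • (y i : ℂ) •
          shiftP y (((shiftP y - 1 : Module.End ℂ (MvPolynomial ι ℂ)) ^ m) p) := by
  have key : ∀ q : MvPolynomial ι ℂ,
      (shiftP y - 1 : Module.End ℂ (MvPolynomial ι ℂ)) (q * X i) =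
        (shiftP y - 1 : Module.End ℂ (MvPolynomial ι ℂ)) q * X i + (y i : ℂ) • shiftP y q := by
    intro q
    rw [LinearMap.sub_apply, LinearMap.sub_apply, IsoPs2_mulX, Module.End.one_apply,
      Module.End.one_apply, smul_eq_C_mul]
    ring
  have hcomm : ∀ q : MvPolynomial ι ℂ,
      (shiftP y - 1 : Module.End ℂ (MvPolynomial ι ℂ)) (shiftP y q) =
        shiftP y ((shiftP y - 1 : Module.End ℂ (MvPolynomial ι ℂ)) q) := by
    intro q
    rw [LinearMap.sub_apply, LinearMap.sub_apply, Module.End.one_apply, Module.End.one_apply,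
      map_sub]
  obtain ⟨N, hN⟩ : ∃ N : Module.End ℂ (MvPolynomial ι ℂ), N = shiftP y - 1 := ⟨_, rfl⟩
  rw [← hN] at key hcomm ⊢
  induction m with
  | zero =>
    rw [zero_add, pow_one, key, pow_zero, Module.End.one_apply, Nat.cast_zero, zero_add, one_smul]
  | succ m ih =>
    rw [pow_succ', Module.End.mul_apply, ih, map_add, key, map_smul, map_smul, hcomm,
      ← Module.End.mul_apply N (N ^ m) p, ← pow_succ', ← Module.End.mul_apply N (N ^ (m + 1)) p,
      ← pow_succ', add_assoc]
    congr 1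
    push_cast
    module

theorem lu_pol : LU (polRep ι) := by
  intro a p
  change ∃ k : ℕ, ((shiftP (Multiplicative.toAdd a) - 1 :
    Module.End ℂ (MvPolynomial ι ℂ)) ^ k) p = 0
  obtain ⟨y, hy⟩ : ∃ y : ι → ℤ, y = Multiplicative.toAdd a := ⟨_, rfl⟩
  rw [← hy]
  induction p using MvPolynomial.induction_on with
  | C c =>
    refine ⟨1, ?_⟩
    rw [pow_one, LinearMap.sub_apply, IsoPs2_C, Module.End.one_apply, sub_self]
  | add p q hp hq =>
    obtain ⟨k, hk⟩ := hp
    obtain ⟨l, hl⟩ := hq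
    refine ⟨k + l, ?_⟩
    rw [map_add]
    have h1 : ((shiftP y - 1 : Module.End ℂ (MvPolynomial ι ℂ)) ^ (k + l)) p = 0 := by
      rw [add_comm, pow_add, Module.End.mul_apply, hk, map_zero]
    have h2 : ((shiftP y - 1 : Module.End ℂ (MvPolynomial ι ℂ)) ^ (k + l)) q = 0 := by
      rw [pow_add, Module.End.mul_apply, hl, map_zero]
    rw [h1, h2, add_zero]
  | mul_X p i hp =>
    obtain ⟨k, hk⟩ := hp
    refine ⟨k + 1, ?_⟩
    rw [IsoPs2_pow, hk, pow_succ', Module.End.mul_apply, hk, map_zero, map_zero, zero_mul,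
      smul_zero, smul_zero, add_zero]

end

end Pool.Agent.Lib.MP_ca1492_al.P
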