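import Mathlib
import Pool.Agent.Lib.MP_ca1492_al.P.HatInj
import Pool.Agent.Lib.MP_ca1492_al.P.IsoPs2

/-!
# MP_ca1492_al, p-adic side, module IsoHat: homomorphisms between the representations `hat c π`

* `hat_eq`: by definition.
* `vlH_surj`: `vl_surj` with `dial`.
* `cs_cusp`: `N = (card κ)!`. For `a : ι → ℤ` put `b x = (N / n_x) * a x`, `n_x = #{i | c i = x}`,
  `1 ≤ n_x ≤ card κ` (`c` surjective), so `n_x ∣ N` and `vl c (dia (b ∘ c)) x = n_x * b x = N * a x`
  (`vl_dia`). `dial F c (b ∘ c)` acts by nonzero scalars (`cusp_central`).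
* `hat_hom_zero`, `hat_end`, `hat_emb`: `twt_iso`, `twt_hom` + `psEnd_of_shift`, `twt_emb`; scalars:
  `schur` with `cusp_adm`.
* `polK` is the representation of `ℤ^ι` on `k`-tuples of polynomials, locally unipotent since each
  component is.
-/

set_option autoImplicit false

namespace Pool.Agent.Lib.MP_ca1492_al.P

open Topology Matrix ValuativeRel TensorProduct

noncomputable section

variable {F : Type} [Field F] [ValuativeRel F] [TopologicalSpace F]
  [IsNonarchimedeanLocalField F]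
variable {κ : Type} [Fintype κ] [DecidableEq κ]
variable {V V' E : Type} [AddCommGroup V] [Module ℂ V] [AddCommGroup V'] [Module ℂ V']
  [AddCommGroup E] [Module ℂ E]
variable {ι : Type} [DecidableEq ι] (c : κ → ι)

variable (F) in
/-- the block valuations as a homomorphism -/
def vlH : lev F c →* Multiplicative (ι → ℤ) where
  toFun m := Multiplicative.ofAdd (vl c m.1)
  map_one' := by
    have h : vl c ((1 : lev F c) : GL κ F) = 0 := by
      funext x
      exact vl_one c x
    rw [h]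
    rfl
  map_mul' := by
    intro a b
    have h : vl c ((a * b : lev F c) : GL κ F) = vl c a.1 + vl c b.1 := by
      funext x
      exact vl_mul c a.1 b.1 a.2 b.2 x
    rw [h]
    rfl

theorem hat_eq (π : Representation ℂ (lev F c) V) : hat c π = twt (vlH F c) π (polRep ι) := rfl

theorem vlH_surj (hcs : Function.Surjective c) : Function.Surjective (vlH F c) := by
  intro y
  obtain ⟨l, hl⟩ := vl_surj (F := F) c hcs (Multiplicative.toAdd y)
  refine ⟨dial F c l, ?_⟩
  change Multiplicative.ofAdd (vl c (dia F l)) = y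
  rw [hl]
  rfl

theorem cs_cusp (hcs : Function.Surjective c) (π : Representation ℂ (lev F c) V) (hπ : IsSm π)
    (hi : Irr π) (hc : Cusp c π) (π' : Representation ℂ (lev F c) V') (hπ' : IsSm π')
    (hi' : Irr π') (hc' : Cusp c π') : CS (vlH F c) π π' := by
  refine ⟨(Fintype.card κ).factorial, Nat.factorial_pos _, fun a => ?_⟩
  let nx : ι → ℕ := fun x => (Finset.univ.filter (fun i => c i = x)).card
  let b : ι → ℤ := fun x =>
    (((Fintype.card κ).factorial / nx x : ℕ) : ℤ) * (Multiplicative.toAdd a) x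
  obtain ⟨μ, hμ, h1⟩ := cusp_central c π hπ hi hc b
  obtain ⟨μ', hμ', h1'⟩ := cusp_central c π' hπ' hi' hc' b
  refine ⟨dial F c (fun i => b (c i)), ?_, μ, μ', hμ, hμ', h1, h1'⟩
  change Multiplicative.ofAdd (vl c (dia F (fun i => b (c i)))) = a ^ (Fintype.card κ).factorial
  have h2 : vl c (dia F (fun i => b (c i))) =
      (Fintype.card κ).factorial • Multiplicative.toAdd a := by
    funext x
    rw [vl_dia, Finset.sum_congr rfl (fun i hi => by rw [(Finset.mem_filter.1 hi).2] :
      ∀ i ∈ Finset.univ.filter (fun i => c i = x), b (c i) = b x), Finset.sum_const,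
      Pi.smul_apply]
    have h3 : 0 < nx x := by
      obtain ⟨i, hi⟩ := hcs x
      exact Finset.card_pos.2 ⟨i, Finset.mem_filter.2 ⟨Finset.mem_univ i, hi⟩⟩
    have h4 : nx x ∣ (Fintype.card κ).factorial :=
      Nat.dvd_factorial h3 (Finset.card_le_univ _)
    change nx x • ((((Fintype.card κ).factorial / nx x : ℕ) : ℤ) * (Multiplicative.toAdd a) x) = _
    rw [nsmul_eq_mul, nsmul_eq_mul, ← mul_assoc, ← Nat.cast_mul, Nat.mul_div_cancel' h4]
  rw [h2]
  rfl

theorem cusp_scalar (π : Representation ℂ (lev F c) V) (hπ : IsSm π)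
    (hi : Irr π) (hc : Cusp c π) (S : V →ₗ[ℂ] V) (hS : Equi π π S) :
    ∃ z : ℂ, ∀ x, S x = z • x := by
  exact schur π hπ hi (cusp_adm c π hπ hi hc) S hS

theorem hat_hom_zero (hcs : Function.Surjective c) (π : Representation ℂ (lev F c) V)
    (hπ : IsSm π) (hi : Irr π) (hc : Cusp c π) (π' : Representation ℂ (lev F c) V')
    (hπ' : IsSm π') (hi' : Irr π') (hc' : Cusp c π') (hn : ¬ Iso π π')
    (T : V ⊗[ℂ] MvPolynomial ι ℂ →ₗ[ℂ] V' ⊗[ℂ] MvPolynomial ι ℂ)
    (hT : Equi (hat c π) (hat c π') T) : T = 0 := by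
  by_contra h0
  exact hn (twt_iso hi hi' (cs_cusp c hcs π hπ hi hc π' hπ' hi' hc') lu_pol lu_pol T hT h0)

theorem hat_end (hcs : Function.Surjective c) (π : Representation ℂ (lev F c) V)
    (hπ : IsSm π) (hi : Irr π) (hc : Cusp c π)
    (T : V ⊗[ℂ] MvPolynomial ι ℂ →ₗ[ℂ] V ⊗[ℂ] MvPolynomial ι ℂ)
    (hT : Equi (hat c π) (hat c π) T) :
    ∃ f : MvPowerSeries ι ℂ, T = TensorProduct.map LinearMap.id (psEnd f) := by
  obtain ⟨t, ht, hTt⟩ := twt_hom hi (cusp_scalar c π hπ hi hc) (vlH_surj c hcs)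
    (cs_cusp c hcs π hπ hi hc π hπ hi hc) lu_pol lu_pol T hT
  obtain ⟨f, hf⟩ := psEnd_of_shift t (fun y p => ht (Multiplicative.ofAdd y) p)
  exact ⟨f, by rw [hTt, hf]⟩

theorem hat_end' (π : Representation ℂ (lev F c) V) (f : MvPowerSeries ι ℂ) :
    Equi (hat c π) (hat c π) (TensorProduct.map LinearMap.id (psEnd f)) := by
  intro m t
  rw [hat_apply, hat_apply]
  induction t using TensorProduct.induction_on with
  | zero => simp
  | tmul v p =>
    rw [TensorProduct.map_tmul, TensorProduct.map_tmul, TensorProduct.map_tmul,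
      TensorProduct.map_tmul, psEnd_shift]
    rfl
  | add a b ha hb => rw [map_add, map_add, map_add, map_add, ha, hb]

/-- translations on `k`-tuples of polynomials -/
def polK (ι : Type) (k : ℕ) : Representation ℂ (Multiplicative (ι → ℤ))
    (Fin k → MvPolynomial ι ℂ) where
  toFun y := LinearMap.pi fun j => (polRep ι y) ∘ₗ LinearMap.proj j
  map_one' := by
    refine LinearMap.ext fun p => funext fun j => ?_
    simp
  map_mul' := by
    intro a b
    refine LinearMap.ext fun p => funext fun j => ?_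
    simp

theorem lu_polK (ι : Type) (k : ℕ) : LU (polK ι k) := by
  intro a y
  have h := fun j : Fin k => lu_pol a (y j)
  choose n hn using h
  refine ⟨∑ j, n j, ?_⟩
  have h1 : ∀ (N : ℕ) (j : Fin k), (((polK ι k a - 1) ^ N) y) j =
      (((polRep ι a - 1 : Module.End ℂ (MvPolynomial ι ℂ)) ^ N) (y j)) := by
    intro N
    induction N with
    | zero => intro j; rfl
    | succ N ih =>
      intro j
      rw [pow_succ', pow_succ', Module.End.mul_apply, Module.End.mul_apply, ← ih j]
      rfl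
  funext j
  rw [h1]
  exact IsoU_kill (polRep ι a) (y j) (hn j)
    (Finset.single_le_sum (f := n) (fun i _ => Nat.zero_le _) (Finset.mem_univ j))

theorem IsoHat_pi (k : ℕ) (A : V →ₗ[ℂ] V) (B : MvPolynomial ι ℂ →ₗ[ℂ] MvPolynomial ι ℂ)
    (B' : (Fin k → MvPolynomial ι ℂ) →ₗ[ℂ] (Fin k → MvPolynomial ι ℂ))
    (hB : ∀ p j, B' p j = B (p j)) (t : V ⊗[ℂ] (Fin k → MvPolynomial ι ℂ)) (j : Fin k) :
    TensorProduct.piRight ℂ ℂ V (fun _ : Fin k => MvPolynomial ι ℂ)
      (TensorProduct.map A B' t) j =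
      TensorProduct.map A B (TensorProduct.piRight ℂ ℂ V
        (fun _ : Fin k => MvPolynomial ι ℂ) t j) := by
  induction t using TensorProduct.induction_on with
  | zero => simp
  | tmul v p =>
    rw [TensorProduct.map_tmul]
    change (A v) ⊗ₜ[ℂ] (B' p j) = TensorProduct.map A B (v ⊗ₜ[ℂ] (p j))
    rw [TensorProduct.map_tmul, hB]
  | add a b ha hb =>
    rw [map_add, map_add, map_add, Pi.add_apply, Pi.add_apply, map_add, ha, hb]

/-- representations embedded in `hat^k` -/
theorem hat_emb (hcs : Function.Surjective c) (π : Representation ℂ (lev F c) V)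
    (hπ : IsSm π) (hi : Irr π) (hc : Cusp c π) (k : ℕ) (ρ : Representation ℂ (lev F c) E)
    (i : E →ₗ[ℂ] (Fin k → V ⊗[ℂ] MvPolynomial ι ℂ)) (hinj : Function.Injective i)
    (hie : ∀ m e j, i (ρ m e) j = hat c π m (i e j)) :
    ∃ (X : Submodule ℂ (Fin k → MvPolynomial ι ℂ)) (hX : Stab (polK ι k) X)
      (e : E ≃ₗ[ℂ] V ⊗[ℂ] X),
      Equi ρ (twt (vlH F c) π (subRep (polK ι k) X hX)) (e : E →ₗ[ℂ] V ⊗[ℂ] X) := by
  let J := TensorProduct.piRight ℂ ℂ V (fun _ : Fin k => MvPolynomial ι ℂ)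
  let i' : E →ₗ[ℂ] V ⊗[ℂ] (Fin k → MvPolynomial ι ℂ) := J.symm.toLinearMap ∘ₗ i
  have h1 : Equi ρ (twt (vlH F c) π (polK ι k)) i' := by
    intro m e
    apply J.injective
    funext j
    have h2 := IsoHat_pi k (π m) (shiftP (vl c m.1)) (polK ι k (vlH F c m)) (fun p j => rfl)
      (J.symm (i e)) j
    change J (J.symm (i (ρ m e))) j = J (TensorProduct.map (π m) (polK ι k (vlH F c m))
      (J.symm (i e))) j
    change J (TensorProduct.map (π m) (polK ι k (vlH F c m)) (J.symm (i e))) j =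
      TensorProduct.map (π m) (shiftP (vl c m.1)) (J (J.symm (i e)) j) at h2
    rw [h2, LinearEquiv.apply_symm_apply, LinearEquiv.apply_symm_apply, hie, hat_apply]
  have h3 : Function.Injective i' := J.symm.injective.comp hinj
  obtain ⟨X, hX, e, he, _⟩ := twt_emb hi (cusp_scalar c π hπ hi hc) (vlH_surj c hcs)
    (cs_cusp c hcs π hπ hi hc π hπ hi hc) (lu_polK ι k) ρ i' h1 h3
  exact ⟨X, hX, e, he⟩

end

end Pool.Agent.Lib.MP_ca1492_al.P
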