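import Mathlib
import Pool.Agent.Lib.MP_ca1492_al.P.CFun
import Pool.Agent.Lib.MP_ca1492_al.P.HatInj
import Pool.Agent.Lib.MP_ca1492_al.P.IsoPs2

/-!
# MP_ca1492_al, p-adic side, module Kill: power series operators are surjective, the kill lemma

* `psEnd_surj`: `psEnd f` is surjective for `f ≠ 0`: a linear form `λ` on the polynomials which
  vanishes on the range corresponds to the power series `g` with coefficients `λ (e β)`, and
  `f g = 0`.
* `comm_ps`, `comm_shift`: linear maps `V ⊗ Pol → V' ⊗ Pol` commuting with the `∂_x` commute with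
  `psEnd f` and `shiftP y`.
* `kill_lemma`: no nonzero `O`-linear map between `(hat π)^w` and `hat π'` if `w` moves a block.
* `Kill_cusp_hat`, `Kill_cusp_twist`: cuspidality of `hat c π` and of twists.
-/

set_option autoImplicit false

namespace Pool.Agent.Lib.MP_ca1492_al.P

open Topology Matrix ValuativeRel TensorProduct MvPolynomial

noncomputable section

section

variable {ι : Type}

theorem psEnd_surj (f : MvPowerSeries ι ℂ) (hf : f ≠ 0) : Function.Surjective (psEnd f) := by
  classical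
  rw [← LinearMap.range_eq_top]
  by_contra hne
  obtain ⟨l, hl0, hl⟩ := Submodule.exists_le_ker_of_lt_top _ (lt_top_iff_ne_top.2 hne)
  let g : MvPowerSeries ι ℂ := fun β => l (IsoPs_e β)
  have hg : ∀ β, MvPowerSeries.coeff β g = l (IsoPs_e β) := fun β => rfl
  have h1 : f * g = 0 := by
    ext γ
    rw [MvPowerSeries.coeff_mul, map_zero]
    have h2 : l (psEnd f (IsoPs_e γ)) = 0 := LinearMap.mem_ker.1 (hl ⟨_, rfl⟩)
    rw [IsoPs_psEnd, map_sum] at h2
    rw [← h2]
    refine Finset.sum_congr rfl fun p _ => ?_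
    rw [map_smul, smul_eq_mul, hg]
  have h2 : g = 0 := (mul_eq_zero.1 h1).resolve_left hf
  apply hl0
  apply (MvPolynomial.basisMonomials ι ℂ).ext
  intro β
  rw [MvPolynomial.coe_basisMonomials]
  show l (monomial β 1) = 0
  rw [IsoPs_mono, map_smul, ← hg, h2, map_zero, smul_zero]

theorem psEnd_ne (f : MvPowerSeries ι ℂ) (hf : psEnd f ≠ 0) : f ≠ 0 := by
  rintro rfl
  apply hf
  have h := psEnd_smul (0 : ℂ) (0 : MvPowerSeries ι ℂ)
  rwa [zero_smul, zero_smul] at h

/-- a nonzero operator commuting with the derivatives is surjective -/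
theorem comm_surj (D : MvPolynomial ι ℂ →ₗ[ℂ] MvPolynomial ι ℂ)
    (hD : ∀ x p, D (pderiv x p) = pderiv x (D p)) (h0 : D ≠ 0) : Function.Surjective D := by
  obtain ⟨f, rfl⟩ := psEnd_of_pderiv D hD
  exact psEnd_surj f (psEnd_ne f h0)

theorem shiftP_X (u : ι → ℤ) (x : ι) : shiftP u (X x : MvPolynomial ι ℂ) = X x + C (u x : ℂ) := by
  unfold shiftP
  rw [AlgHom.toLinearMap_apply, aeval_X]

theorem shiftP_one (u : ι → ℤ) : shiftP u (1 : MvPolynomial ι ℂ) = 1 := by
  unfold shiftP
  rw [AlgHom.toLinearMap_apply, map_one]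

/-- `μ shift(u') - μ' shift(u)` is surjective if `u' ≠ u`, `μ' ≠ 0` -/
theorem shift_surj (μ μ' : ℂ) (hμ : μ' ≠ 0) (u u' : ι → ℤ) (hu : u' ≠ u) :
    Function.Surjective (μ • shiftP u' - μ' • shiftP u :
      MvPolynomial ι ℂ →ₗ[ℂ] MvPolynomial ι ℂ) := by
  refine comm_surj _ (fun x p => ?_) ?_
  · rw [LinearMap.sub_apply, LinearMap.smul_apply, LinearMap.smul_apply, LinearMap.sub_apply,
      LinearMap.smul_apply, LinearMap.smul_apply, IsoPs2_comm, IsoPs2_comm, map_sub]
    congr 1
    · exact ((pderiv x).map_smul μ _).symm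
    · exact ((pderiv x).map_smul μ' _).symm
  · intro h
    have h1 := LinearMap.congr_fun h (1 : MvPolynomial ι ℂ)
    rw [LinearMap.sub_apply, LinearMap.smul_apply, LinearMap.smul_apply, shiftP_one, shiftP_one,
      LinearMap.zero_apply, ← sub_smul] at h1
    have h2 : μ - μ' = 0 := (smul_eq_zero.1 h1).resolve_right one_ne_zero
    have h3 : μ = μ' := sub_eq_zero.1 h2
    apply hu
    funext x
    have h4 := LinearMap.congr_fun h (X x : MvPolynomial ι ℂ)
    rw [LinearMap.sub_apply, LinearMap.smul_apply, LinearMap.smul_apply, shiftP_X, shiftP_X,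
      LinearMap.zero_apply, h3, ← smul_sub, add_sub_add_left_eq_sub, ← map_sub] at h4
    have h5 := (smul_eq_zero.1 h4).resolve_left hμ
    rw [C_eq_zero, sub_eq_zero] at h5
    exact_mod_cast h5

variable {V V' : Type} [AddCommGroup V] [Module ℂ V] [AddCommGroup V'] [Module ℂ V']

/-- the slices of `V' ⊗ Pol` separate points -/
theorem slice_sep {P : Type} [AddCommGroup P] [Module ℂ P] (z : V' ⊗[ℂ] P)
    (h : ∀ l : V' →ₗ[ℂ] ℂ, TensorProduct.lid ℂ P (LinearMap.rTensor P l z) = 0) : z = 0 := by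
  classical
  let b := Module.Basis.ofVectorSpace ℂ V'
  apply (TensorProduct.equivFinsuppOfBasisLeft (N := P) b).injective
  rw [map_zero]
  ext i
  have key : ∀ y : V' ⊗[ℂ] P, TensorProduct.equivFinsuppOfBasisLeft b y i =
      TensorProduct.lid ℂ P (LinearMap.rTensor P (b.coord i) y) := by
    intro y
    induction y using TensorProduct.induction_on with
    | zero => simp
    | tmul v p =>
      rw [TensorProduct.equivFinsuppOfBasisLeft_apply_tmul_apply, LinearMap.rTensor_tmul,
        TensorProduct.lid_tmul]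
      rfl
    | add x y hx hy =>
      rw [map_add, Finsupp.add_apply, hx, hy, map_add, map_add]
  rw [key, h]
  rfl

/-- the slice operators of `T` -/
def slice (T : V ⊗[ℂ] MvPolynomial ι ℂ →ₗ[ℂ] V' ⊗[ℂ] MvPolynomial ι ℂ) (v : V)
    (l : V' →ₗ[ℂ] ℂ) : MvPolynomial ι ℂ →ₗ[ℂ] MvPolynomial ι ℂ :=
  (TensorProduct.lid ℂ (MvPolynomial ι ℂ)).toLinearMap ∘ₗ
    (LinearMap.rTensor (MvPolynomial ι ℂ) l) ∘ₗ T ∘ₗ (TensorProduct.mk ℂ V (MvPolynomial ι ℂ) v)

theorem slice_nat (l : V' →ₗ[ℂ] ℂ) (D : MvPolynomial ι ℂ →ₗ[ℂ] MvPolynomial ι ℂ)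
    (z : V' ⊗[ℂ] MvPolynomial ι ℂ) :
    TensorProduct.lid ℂ (MvPolynomial ι ℂ) (LinearMap.rTensor (MvPolynomial ι ℂ) l
      (TensorProduct.map LinearMap.id D z)) =
    D (TensorProduct.lid ℂ (MvPolynomial ι ℂ) (LinearMap.rTensor (MvPolynomial ι ℂ) l z)) := by
  induction z using TensorProduct.induction_on with
  | zero => simp
  | tmul v p =>
    rw [TensorProduct.map_tmul, LinearMap.rTensor_tmul, LinearMap.rTensor_tmul,
      TensorProduct.lid_tmul, TensorProduct.lid_tmul, map_smul]
    rfl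
  | add x y hx hy => rw [map_add, map_add, map_add, map_add, map_add, map_add, hx, hy]

theorem comm_ps (T : V ⊗[ℂ] MvPolynomial ι ℂ →ₗ[ℂ] V' ⊗[ℂ] MvPolynomial ι ℂ)
    (hT : ∀ x e, T (TensorProduct.map LinearMap.id (psEnd (MvPowerSeries.X x)) e) =
      TensorProduct.map LinearMap.id (psEnd (MvPowerSeries.X x)) (T e))
    (f : MvPowerSeries ι ℂ) (e : V ⊗[ℂ] MvPolynomial ι ℂ) :
    T (TensorProduct.map LinearMap.id (psEnd f) e) =
      TensorProduct.map LinearMap.id (psEnd f) (T e) := by
  induction e using TensorProduct.induction_on with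
  | zero => simp
  | add x y hx hy => rw [map_add, map_add, hx, hy, map_add, map_add]
  | tmul v p =>
    rw [← sub_eq_zero]
    refine slice_sep _ fun l => ?_
    rw [map_sub, map_sub, slice_nat, TensorProduct.map_tmul, LinearMap.id_apply, sub_eq_zero]
    obtain ⟨g, hg⟩ := psEnd_of_pderiv (slice T v l) (fun x p => by
      show TensorProduct.lid ℂ (MvPolynomial ι ℂ) (LinearMap.rTensor (MvPolynomial ι ℂ) l
        (T (v ⊗ₜ (pderiv x p)))) = _
      have h1 : (v ⊗ₜ[ℂ] (pderiv x p) : V ⊗[ℂ] MvPolynomial ι ℂ) =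
          TensorProduct.map LinearMap.id (psEnd (MvPowerSeries.X x)) (v ⊗ₜ p) := by
        rw [TensorProduct.map_tmul, psEnd_X]
        rfl
      rw [h1, hT, slice_nat, psEnd_X]
      rfl)
    have h2 : psEnd g (psEnd f p) = psEnd f (psEnd g p) := by
      rw [← LinearMap.comp_apply, ← psEnd_mul, mul_comm, psEnd_mul, LinearMap.comp_apply]
    rw [← hg] at h2
    exact h2

theorem comm_shift (T : V ⊗[ℂ] MvPolynomial ι ℂ →ₗ[ℂ] V' ⊗[ℂ] MvPolynomial ι ℂ)
    (hT : ∀ x e, T (TensorProduct.map LinearMap.id (psEnd (MvPowerSeries.X x)) e) =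
      TensorProduct.map LinearMap.id (psEnd (MvPowerSeries.X x)) (T e))
    (u : ι → ℤ) (e : V ⊗[ℂ] MvPolynomial ι ℂ) :
    T (TensorProduct.map LinearMap.id (shiftP u) e) =
      TensorProduct.map LinearMap.id (shiftP u) (T e) := by
  obtain ⟨g, hg⟩ := psEnd_of_pderiv (shiftP u) (fun x p => IsoPs2_comm u x p)
  rw [hg]
  exact comm_ps T hT g e

end

variable {F : Type} [Field F] [ValuativeRel F] [TopologicalSpace F]
  [IsNonarchimedeanLocalField F] {κ : Type} [Fintype κ] [DecidableEq κ]
variable {V V' : Type} [AddCommGroup V] [Module ℂ V] [AddCommGroup V'] [Module ℂ V']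
variable {ι : Type} [DecidableEq ι] (c : κ → ι)

/-- conjugation of diagonal matrices by permutations -/
theorem permG_dia (w : Equiv.Perm κ) (l : κ → ℤ) :
    permG F w * dia F l * (permG F w)⁻¹ = dia F (fun i => l (w.symm i)) := by
  apply Units.ext
  ext i j
  obtain ⟨i, rfl⟩ := w.surjective i
  obtain ⟨j, rfl⟩ := w.surjective j
  rw [permG_conj, dia_apply, dia_apply]
  simp only [EmbeddingLike.apply_eq_iff_eq, Equiv.symm_apply_apply]

/-- the kill lemma, with a relabelling `s` of the blocks in the target -/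
theorem kill_core (π : Representation ℂ (lev F c) V) (hπ : IsSm π) (hi : Irr π) (hc : Cusp c π)
    (π' : Representation ℂ (lev F c) V') (hπ' : IsSm π') (hi' : Irr π') (hc' : Cusp c π')
    (w : Equiv.Perm κ) (hl : ∀ i j, c (w i) = c (w j) ↔ c i = c j) (s : ι → ι)
    (hne : ∃ i, s (c (w i)) ≠ c i)
    (b : V ⊗[ℂ] MvPolynomial ι ℂ →ₗ[ℂ] V' ⊗[ℂ] MvPolynomial ι ℂ)
    (hb : ∀ (m : lev F c) (e : V ⊗[ℂ] MvPolynomial ι ℂ),
      b (hat c π ⟨permG F w * m.1 * (permG F w)⁻¹, permG_conj_mem c c w hl m.1 m.2⟩ e) =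
        TensorProduct.map (π' m) (shiftP (fun x => vl c m.1 (s x))) (b e))
    (hO : ∀ x e, b (TensorProduct.map LinearMap.id (psEnd (MvPowerSeries.X x)) e) =
      TensorProduct.map LinearMap.id (psEnd (MvPowerSeries.X x)) (b e)) : b = 0 := by
  obtain ⟨i₀, hi₀⟩ := hne
  let a : ι → ℤ := fun t => if t = c i₀ then 1 else 0
  let a' : ι → ℤ := fun t => if t = c (w i₀) then 1 else 0
  have hz : permG F w * (dial F c fun i => a (c i)).1 * (permG F w)⁻¹ =
      (dial F c fun i => a' (c i)).1 := by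
    show permG F w * dia F (fun i => a (c i)) * (permG F w)⁻¹ = dia F (fun i => a' (c i))
    rw [permG_dia]
    congr 1
    funext k
    obtain ⟨k, rfl⟩ := w.surjective k
    rw [Equiv.symm_apply_apply]
    simp only [a, a']
    refine if_congr ?_ rfl rfl
    exact (hl k i₀).symm
  obtain ⟨μ, -, hμ⟩ := cusp_central c π hπ hi hc a'
  obtain ⟨μ', hμ0, hμ'⟩ := cusp_central c π' hπ' hi' hc' a
  set u : ι → ℤ := fun x => vl c (dial F c fun i => a (c i)).1 (s x) with hu
  set u' : ι → ℤ := vl c (dial F c fun i => a' (c i)).1 with hu'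
  have huu : u' ≠ u := by
    intro h
    have h1 := congrFun h (c (w i₀))
    rw [hu, hu'] at h1
    change vl c (dia F fun i => a' (c i)) (c (w i₀)) =
      vl c (dia F fun i => a (c i)) (s (c (w i₀))) at h1
    rw [vl_dia, vl_dia] at h1
    have h2 : ∑ i ∈ Finset.univ.filter (fun i => c i = s (c (w i₀))), a (c i) = 0 := by
      refine Finset.sum_eq_zero fun i hi => ?_
      rw [(Finset.mem_filter.1 hi).2]
      exact if_neg hi₀
    have h3 : 0 < ∑ i ∈ Finset.univ.filter (fun i => c i = c (w i₀)), a' (c i) := by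
      refine Finset.sum_pos (fun i hi => ?_) ⟨w i₀, ?_⟩
      · rw [(Finset.mem_filter.1 hi).2]
        show (0 : ℤ) < if c (w i₀) = c (w i₀) then 1 else 0
        rw [if_pos rfl]
        exact one_pos
      · exact Finset.mem_filter.2 ⟨Finset.mem_univ _, rfl⟩
    rw [h2] at h1
    exact absurd h1 h3.ne'
  have hsurj := shift_surj μ μ' hμ0 u u' huu
  have hkey : ∀ e, b (TensorProduct.map LinearMap.id (μ • shiftP u' - μ' • shiftP u) e) = 0 := by
    intro e
    have h1 := hb (dial F c fun i => a (c i)) e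
    have h2 : hat c π ⟨permG F w * (dial F c fun i => a (c i)).1 * (permG F w)⁻¹,
        permG_conj_mem c c w hl _ (dial F c fun i => a (c i)).2⟩ e =
        μ • TensorProduct.map LinearMap.id (shiftP u') e := by
      have h3 : (⟨permG F w * (dial F c fun i => a (c i)).1 * (permG F w)⁻¹,
          permG_conj_mem c c w hl _ (dial F c fun i => a (c i)).2⟩ : lev F c) =
          dial F c fun i => a' (c i) := Subtype.ext hz
      rw [h3]
      show TensorProduct.map (π (dial F c fun i => a' (c i))) (shiftP u') e = _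
      have h4 : (π (dial F c fun i => a' (c i)) : V →ₗ[ℂ] V) = μ • LinearMap.id :=
        LinearMap.ext hμ
      rw [h4, TensorProduct.map_smul_left, LinearMap.smul_apply]
    have h3 : TensorProduct.map (π' (dial F c fun i => a (c i)))
        (shiftP (fun x => vl c (dial F c fun i => a (c i)).1 (s x))) (b e) =
        μ' • TensorProduct.map LinearMap.id (shiftP u) (b e) := by
      have h4 : (π' (dial F c fun i => a (c i)) : V' →ₗ[ℂ] V') = μ' • LinearMap.id :=
        LinearMap.ext hμ'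
      rw [h4, TensorProduct.map_smul_left, LinearMap.smul_apply]
    rw [h2, h3, ← comm_shift b hO, map_smul b, ← sub_eq_zero] at h1
    rw [← h1, ← map_smul b, ← map_smul b, ← map_sub b]
    congr 1
    have h4 : TensorProduct.map (LinearMap.id : V →ₗ[ℂ] V) (μ • shiftP u' - μ' • shiftP u) =
        μ • TensorProduct.map LinearMap.id (shiftP u') -
          μ' • TensorProduct.map LinearMap.id (shiftP u) := by
      apply TensorProduct.ext'
      intro v p
      rw [LinearMap.sub_apply, LinearMap.smul_apply, LinearMap.smul_apply,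
        TensorProduct.map_tmul, TensorProduct.map_tmul, TensorProduct.map_tmul,
        LinearMap.sub_apply, LinearMap.smul_apply, LinearMap.smul_apply,
        TensorProduct.tmul_sub, TensorProduct.tmul_smul, TensorProduct.tmul_smul]
    rw [h4, LinearMap.sub_apply, LinearMap.smul_apply, LinearMap.smul_apply]
  have hs2 : Function.Surjective (TensorProduct.map (LinearMap.id : V →ₗ[ℂ] V)
      (μ • shiftP u' - μ' • shiftP u)) :=
    TensorProduct.map_surjective Function.surjective_id hsurj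
  refine LinearMap.ext fun e => ?_
  obtain ⟨e', rfl⟩ := hs2 e
  rw [hkey, LinearMap.zero_apply]

/-- the kill lemma: no nonzero `O`-linear map `(hat π)^w → hat π'` if `w` moves a block -/
theorem kill_lemma (π : Representation ℂ (lev F c) V) (hπ : IsSm π) (hi : Irr π) (hc : Cusp c π)
    (π' : Representation ℂ (lev F c) V') (hπ' : IsSm π') (hi' : Irr π') (hc' : Cusp c π')
    (w : Equiv.Perm κ) (hl : ∀ i j, c (w i) = c (w j) ↔ c i = c j) (hne : ∃ i, c (w i) ≠ c i)
    (b : V ⊗[ℂ] MvPolynomial ι ℂ →ₗ[ℂ] V' ⊗[ℂ] MvPolynomial ι ℂ)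
    (hb : ∀ (m : lev F c) (e : V ⊗[ℂ] MvPolynomial ι ℂ),
      b (hat c π ⟨permG F w * m.1 * (permG F w)⁻¹, permG_conj_mem c c w hl m.1 m.2⟩ e) =
        hat c π' m (b e))
    (hO : ∀ x e, b (TensorProduct.map LinearMap.id (psEnd (MvPowerSeries.X x)) e) =
      TensorProduct.map LinearMap.id (psEnd (MvPowerSeries.X x)) (b e)) : b = 0 :=
  kill_core c π hπ hi hc π' hπ' hi' hc' w hl id hne b hb hO

omit [DecidableEq ι] in
theorem rename_pderiv (s : Equiv.Perm ι) (x : ι) (p : MvPolynomial ι ℂ) :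
    rename s.symm (pderiv (s x) p) = pderiv x (rename s.symm p) := by
  classical
  induction p using MvPolynomial.induction_on with
  | C a => rw [pderiv_C, map_zero, rename_C, pderiv_C]
  | add p q hp hq => rw [map_add, map_add, hp, hq, map_add, map_add]
  | mul_X p i hp =>
    rw [Derivation.leibniz, map_mul (rename s.symm), rename_X, Derivation.leibniz, pderiv_X,
      pderiv_X, smul_eq_mul, smul_eq_mul, smul_eq_mul, smul_eq_mul, map_add, map_mul, map_mul, hp,
      rename_X]
    congr 1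
    congr 1
    rw [Pi.single_apply, Pi.single_apply]
    by_cases h : i = s x
    · subst h
      rw [if_pos rfl, if_pos (s.symm_apply_apply x), map_one]
    · rw [if_neg h, if_neg (fun h' => h (by rw [← h', Equiv.apply_symm_apply])), map_zero]

omit [DecidableEq ι] in
theorem rename_shift (s : Equiv.Perm ι) (u : ι → ℤ) (p : MvPolynomial ι ℂ) :
    rename s.symm (shiftP u p) = shiftP (fun x => u (s x)) (rename s.symm p) := by
  induction p using MvPolynomial.induction_on with
  | C a => rw [IsoPs2_C, rename_C, IsoPs2_C]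
  | add p q hp hq => rw [map_add, map_add, hp, hq, map_add, map_add]
  | mul_X p i hp =>
    rw [IsoPs2_mulX, map_mul (rename s.symm), hp, map_mul (rename s.symm), rename_X, IsoPs2_mulX,
      map_add, rename_X, rename_C, Equiv.apply_symm_apply]

/-- the kill lemma, semilinear form: `b ∂_x = ∂_(s x) b` -/
theorem kill_semi (π : Representation ℂ (lev F c) V) (hπ : IsSm π) (hi : Irr π) (hc : Cusp c π)
    (π' : Representation ℂ (lev F c) V') (hπ' : IsSm π') (hi' : Irr π') (hc' : Cusp c π')
    (w : Equiv.Perm κ) (hl : ∀ i j, c (w i) = c (w j) ↔ c i = c j) (s : Equiv.Perm ι)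
    (hne : ∃ i, s (c (w i)) ≠ c i)
    (b : V ⊗[ℂ] MvPolynomial ι ℂ →ₗ[ℂ] V' ⊗[ℂ] MvPolynomial ι ℂ)
    (hb : ∀ (m : lev F c) (e : V ⊗[ℂ] MvPolynomial ι ℂ),
      b (hat c π ⟨permG F w * m.1 * (permG F w)⁻¹, permG_conj_mem c c w hl m.1 m.2⟩ e) =
        hat c π' m (b e))
    (hO : ∀ x e, b (TensorProduct.map LinearMap.id (psEnd (MvPowerSeries.X x)) e) =
      TensorProduct.map LinearMap.id (psEnd (MvPowerSeries.X (s x))) (b e)) : b = 0 := by
  let R : V' ⊗[ℂ] MvPolynomial ι ℂ →ₗ[ℂ] V' ⊗[ℂ] MvPolynomial ι ℂ :=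
    TensorProduct.map LinearMap.id (rename s.symm).toLinearMap
  have hR : Function.Injective R := by
    have h1 : (TensorProduct.map LinearMap.id (rename s).toLinearMap :
        V' ⊗[ℂ] MvPolynomial ι ℂ →ₗ[ℂ] V' ⊗[ℂ] MvPolynomial ι ℂ) ∘ₗ R = LinearMap.id := by
      apply TensorProduct.ext'
      intro v p
      show v ⊗ₜ[ℂ] (rename s (rename s.symm p)) = v ⊗ₜ p
      rw [rename_rename, Equiv.self_comp_symm, rename_id_apply]
    intro x y hxy
    have h2 := congrArg (TensorProduct.map LinearMap.id (rename s).toLinearMap :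
        V' ⊗[ℂ] MvPolynomial ι ℂ →ₗ[ℂ] V' ⊗[ℂ] MvPolynomial ι ℂ) hxy
    rw [← LinearMap.comp_apply, ← LinearMap.comp_apply, h1] at h2
    exact h2
  have hR1 : ∀ (m : lev F c) (z : V' ⊗[ℂ] MvPolynomial ι ℂ),
      R (TensorProduct.map (π' m) (shiftP (vl c m.1)) z) =
        TensorProduct.map (π' m) (shiftP (fun x => vl c m.1 (s x))) (R z) := by
    intro m z
    induction z using TensorProduct.induction_on with
    | zero => simp
    | add x y hx hy => rw [map_add, map_add, map_add, map_add, hx, hy]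
    | tmul v p =>
      show π' m v ⊗ₜ[ℂ] (rename s.symm (shiftP (vl c m.1) p)) =
        π' m v ⊗ₜ[ℂ] (shiftP (fun x => vl c m.1 (s x)) (rename s.symm p))
      rw [rename_shift]
  have hR2 : ∀ (x : ι) (z : V' ⊗[ℂ] MvPolynomial ι ℂ),
      R (TensorProduct.map LinearMap.id (psEnd (MvPowerSeries.X (s x))) z) =
        TensorProduct.map LinearMap.id (psEnd (MvPowerSeries.X x)) (R z) := by
    intro x z
    induction z using TensorProduct.induction_on with
    | zero => simp
    | add x y hx hy => rw [map_add, map_add, map_add, map_add, hx, hy]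
    | tmul v p =>
      show v ⊗ₜ[ℂ] (rename s.symm (psEnd (MvPowerSeries.X (s x)) p)) =
        v ⊗ₜ[ℂ] (psEnd (MvPowerSeries.X x) (rename s.symm p))
      rw [psEnd_X, psEnd_X, rename_pderiv]
  have h0 : R ∘ₗ b = 0 := by
    refine kill_core c π hπ hi hc π' hπ' hi' hc' w hl s hne (R ∘ₗ b) ?_ ?_
    · intro m e
      rw [LinearMap.comp_apply, LinearMap.comp_apply, hb]
      exact hR1 m (b e)
    · intro x e
      rw [LinearMap.comp_apply, LinearMap.comp_apply, hO]
      exact hR2 x (b e)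
  refine LinearMap.ext fun e => hR ?_
  have h1 := LinearMap.congr_fun h0 e
  rw [LinearMap.comp_apply, LinearMap.zero_apply] at h1
  rw [h1, LinearMap.zero_apply, map_zero]

/-- cuspidality of `hat c π` -/
theorem Kill_cusp_hat (π : Representation ℂ (lev F c) V) (hc : Cusp c π) : Cusp c (hat c π) := by
  intro o ho
  have h1 := hc o ho
  rw [eq_top_iff]
  intro z _
  induction z using TensorProduct.induction_on with
  | zero => exact Submodule.zero_mem _
  | add x y hx hy => exact Submodule.add_mem _ (hx trivial) (hy trivial)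
  | tmul v p =>
    have hv : v ∈ (stdD F c o).kerJ π := by
      rw [h1]
      trivial
    refine Submodule.span_induction (p := fun v _ => v ⊗ₜ[ℂ] p ∈ (stdD F c o).kerJ (hat c π))
      ?_ ?_ ?_ ?_ hv
    · rintro x ⟨n, hn, v, rfl⟩
      refine Submodule.subset_span ⟨n, hn, v ⊗ₜ p, ?_⟩
      have h2 : vl c n = 0 := by
        funext x
        exact vl_uni c o n hn x
      show (π _ v - v) ⊗ₜ[ℂ] p = TensorProduct.map (π _) (shiftP (vl c n)) (v ⊗ₜ p) - v ⊗ₜ p
      rw [h2, shiftP_zero, TensorProduct.map_tmul, TensorProduct.sub_tmul]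
      rfl
    · rw [TensorProduct.zero_tmul]
      exact Submodule.zero_mem _
    · intro x y _ _ hx hy
      rw [TensorProduct.add_tmul]
      exact Submodule.add_mem _ hx hy
    · intro a x _ hx
      rw [← TensorProduct.smul_tmul']
      exact Submodule.smul_mem _ _ hx

omit [DecidableEq ι] in
/-- cuspidality of twists -/
theorem Kill_cusp_twist (χ : lev F c →* ℂˣ) (hχ : ∀ (o : κ → ℤ) (n : lev F c), n.1 ∈ uni F c o → χ n = 1)
    (π : Representation ℂ (lev F c) V) (hc : Cusp c π) : Cusp c (twist χ π) := by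
  intro o ho
  rw [← hc o ho]
  unfold PD.kerJ
  congr 1
  ext x
  constructor
  · rintro ⟨n, hn, v, rfl⟩
    refine ⟨n, hn, v, ?_⟩
    show ((χ _ : ℂˣ) : ℂ) • π _ v - v = _
    rw [hχ o ⟨n, (stdD F c o).hN hn⟩ hn, Units.val_one, one_smul]
  · rintro ⟨n, hn, v, rfl⟩
    refine ⟨n, hn, v, ?_⟩
    show _ = ((χ _ : ℂˣ) : ℂ) • π _ v - v
    rw [hχ o ⟨n, (stdD F c o).hN hn⟩ hn, Units.val_one, one_smul]

end

end Pool.Agent.Lib.MP_ca1492_al.P
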