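import Mathlib
import Pool.Agent.Lib.MP_ca1492_al.P.CHomB
import Pool.Agent.Lib.MP_ca1492_al.P.IsoHat
import Pool.Agent.Lib.MP_ca1492_al.P.Kill

/-!
# MP_ca1492_al, p-adic side, module HatLead: leading terms for `hat c π`

Normalised setting: characters `χ₁`, `χ₂` of `lev F c` with `cfac_w(m) χ₁(w m w⁻¹) = χ₂(m)` for all
associate `w` (`hN`; for the square roots of the moduli this is `cfac_half`).
`semi_lead`: `Φ : Ind₁ (χ₁ hat π) → Ind₂ (χ₂ hat π')` equivariant and semilinear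
(`Φ X_x = X_(s x) Φ`), `v` a block permutation with `s (c (v i)) = c i`: `Φ` has a leading term `a` at
`v`, which is semilinear and satisfies `a (hat π (v m v⁻¹) e) = hat π' m (a e)`; it determines `Φ`.
`hat_lead`: for `s = 1`, `π' = π` the leading term is a power series.
-/

set_option autoImplicit false

namespace Pool.Agent.Lib.MP_ca1492_al.P

open Topology Matrix ValuativeRel TensorProduct MvPolynomial

noncomputable section

variable {F : Type} [Field F] [ValuativeRel F] [TopologicalSpace F]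
  [IsNonarchimedeanLocalField F] {κ : Type} [Fintype κ] [DecidableEq κ]
variable {V V' : Type} [AddCommGroup V] [Module ℂ V] [AddCommGroup V'] [Module ℂ V']
variable {ι₀ ι : Type}

/-- block permutations which agree on the blocks define the same cell -/
theorem gcell_eq_of_blocks (cb : κ → ι₀) (c : κ → ι) (o₁ : κ → ℤ)
    (h₁ : ∀ i j, c i = c j ↔ cb i = cb j ∧ o₁ i = o₁ j) (o₂ : κ → ℤ) (v w : Equiv.Perm κ)
    (h : ∀ i, c (w i) = c (v i)) :
    gcell (F := F) cb o₁ o₂ w = gcell (F := F) cb o₁ o₂ v := by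
  have key : ∀ v w : Equiv.Perm κ, (∀ i, c (w i) = c (v i)) →
      gcell (F := F) cb o₁ o₂ w ⊆ gcell (F := F) cb o₁ o₂ v := by
    intro v w h
    have h1 : permG F (w * v⁻¹) ∈ lev F c := by
      refine permG_mem_lev' c (w * v⁻¹) fun i => ?_
      obtain ⟨i, rfl⟩ := v.surjective i
      rw [Equiv.Perm.mul_apply, ← Equiv.Perm.mul_apply v⁻¹ v i, inv_mul_cancel, Equiv.Perm.one_apply]
      exact h i
    have h2 : permG F (w * v⁻¹) ∈ upp F cb o₁ := CFun_lev_upp cb c o₁ h₁ _ h1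
    refine COrd_sub cb o₁ o₂ v w ⟨permG F (w * v⁻¹), h2, 1, (upp F cb o₂).one_mem, ?_⟩
    rw [← permG_mul, inv_mul_cancel_right, mul_one]
  exact Set.Subset.antisymm (key v w h) (key w v fun i => (h i).symm)

variable [DecidableEq ι]

section

variable (cb : κ → ι₀) (c : κ → ι) (o₁ : κ → ℤ)
  (h₁ : ∀ i j, c i = c j ↔ cb i = cb j ∧ o₁ i = o₁ j) (o₂ : κ → ℤ)
  (h₂ : ∀ i j, c i = c j ↔ cb i = cb j ∧ o₂ i = o₂ j)
  (χ₁ χ₂ : lev F c →* ℂˣ)
  (hN : ∀ (w : Equiv.Perm κ) (hw : ∀ i, cb (w i) = cb i)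
    (hl : ∀ i j, c (w i) = c (w j) ↔ c i = c j) (m : lev F cb) (hm : m.1 ∈ lev F c),
    cfac cb o₁ c o₂ h₂ w hw m *
      (χ₁ ⟨permG F w * m.1 * (permG F w)⁻¹, permG_conj_mem c c w hl m.1 hm⟩ : ℂ) =
        (χ₂ ⟨m.1, hm⟩ : ℂ))

include hN in
/-- normalised form of `cellT` -/
theorem cellT_norm {E W : Type} [AddCommGroup E] [Module ℂ E] [AddCommGroup W] [Module ℂ W]
    (σ : Representation ℂ (lev F c) E) (σ₂ : Representation ℂ (lev F c) W) (w : Equiv.Perm κ)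
    (hw : ∀ i, cb (w i) = cb i) (hl : ∀ i j, c (w i) = c (w j) ↔ c i = c j) (b : E →ₗ[ℂ] W) :
    b ∈ cellT cb c o₁ c o₂ h₂ w (twist χ₁ σ) (twist χ₂ σ₂) ↔
      ∀ (m : lev F c) (e : E),
        b (σ ⟨permG F w * m.1 * (permG F w)⁻¹, permG_conj_mem c c w hl m.1 m.2⟩ e) =
          σ₂ m (b e) := by
  have key : ∀ (m : lev F cb) (hm : m.1 ∈ lev F c) (e : E),
      (b (cfac cb o₁ c o₂ h₂ w hw m • twist χ₁ σ
        ⟨permG F w * m.1 * (permG F w)⁻¹, permG_conj_mem c c w hl m.1 hm⟩ e) =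
          twist χ₂ σ₂ ⟨m.1, hm⟩ (b e)) ↔
      b (σ ⟨permG F w * m.1 * (permG F w)⁻¹, permG_conj_mem c c w hl m.1 hm⟩ e) =
          σ₂ ⟨m.1, hm⟩ (b e) := by
    intro m hm e
    have h3 : cfac cb o₁ c o₂ h₂ w hw m • twist χ₁ σ
        ⟨permG F w * m.1 * (permG F w)⁻¹, permG_conj_mem c c w hl m.1 hm⟩ e =
        (χ₂ ⟨m.1, hm⟩ : ℂ) •
          σ ⟨permG F w * m.1 * (permG F w)⁻¹, permG_conj_mem c c w hl m.1 hm⟩ e := by
      rw [← hN w hw hl m hm]
      show cfac cb o₁ c o₂ h₂ w hw m • ((χ₁ _ : ℂˣ) : ℂ) • σ _ e = _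
      rw [smul_smul]
    rw [h3, map_smul]
    show (χ₂ ⟨m.1, hm⟩ : ℂ) • b _ = (χ₂ ⟨m.1, hm⟩ : ℂ) • σ₂ _ (b e) ↔ _
    exact ⟨fun h => smul_right_injective W (Units.ne_zero _) h, fun h => by rw [h]⟩
  have hcl : ∀ m : lev F c, m.1 ∈ lev F cb := fun m => (CFun_lev_upp cb c o₂ h₂ m.1 m.2).1
  constructor
  · intro hb m e
    exact (key ⟨m.1, hcl m⟩ m.2 e).1 (hb hw hl ⟨m.1, hcl m⟩ m.2 e)
  · intro hb hw' hl' m hm e
    exact (key m hm e).2 (hb ⟨m.1, hm⟩ e)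

include hN in
/-- leading terms of semilinear homomorphisms -/
theorem semi_lead (π : Representation ℂ (lev F c) V) (hπ : IsSm π) (hi : Irr π) (hc : Cusp c π)
    (π' : Representation ℂ (lev F c) V') (hπ' : IsSm π') (hi' : Irr π') (hc' : Cusp c π')
    (hs₁ : IsSm (twist χ₁ (hat c π)))
    (hχ₁ : ∀ (o : κ → ℤ) (n : lev F c), n.1 ∈ uni F c o → χ₁ n = 1)
    (v : Equiv.Perm κ) (hv : ∀ i, cb (v i) = cb i) (hlv : ∀ i j, c (v i) = c (v j) ↔ c i = c j)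
    (s : Equiv.Perm ι) (hsv : ∀ i, s (c (v i)) = c i)
    (hx : ∀ x : ι, Equi (twist χ₁ (hat c π)) (twist χ₁ (hat c π))
      (TensorProduct.map LinearMap.id (psEnd (MvPowerSeries.X x))))
    (hx' : ∀ x : ι, Equi (twist χ₂ (hat c π')) (twist χ₂ (hat c π'))
      (TensorProduct.map LinearMap.id (psEnd (MvPowerSeries.X x))))
    (Φ : (parD c cb o₁ h₁).IndSp (twist χ₁ (hat c π)) →ₗ[ℂ]
      (parD c cb o₂ h₂).IndSp (twist χ₂ (hat c π')))
    (hΦ : Equi ((parD c cb o₁ h₁).Ind (twist χ₁ (hat c π)))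
      ((parD c cb o₂ h₂).Ind (twist χ₂ (hat c π'))) Φ)
    (hΦx : ∀ x f, Φ ((parD c cb o₁ h₁).IndMap _ _
        (TensorProduct.map LinearMap.id (psEnd (MvPowerSeries.X x))) (hx x) f) =
      (parD c cb o₂ h₂).IndMap _ _
        (TensorProduct.map LinearMap.id (psEnd (MvPowerSeries.X (s x)))) (hx' (s x)) (Φ f)) :
    ∃ a : V ⊗[ℂ] MvPolynomial ι ℂ →ₗ[ℂ] V' ⊗[ℂ] MvPolynomial ι ℂ,
      (∀ (m : lev F c) (e : V ⊗[ℂ] MvPolynomial ι ℂ),
        a (hat c π ⟨permG F v * m.1 * (permG F v)⁻¹, permG_conj_mem c c v hlv m.1 m.2⟩ e) =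
          hat c π' m (a e)) ∧
      (∀ x e, a (TensorProduct.map LinearMap.id (psEnd (MvPowerSeries.X x)) e) =
        TensorProduct.map LinearMap.id (psEnd (MvPowerSeries.X (s x))) (a e)) ∧
      HasLead cb c o₁ h₁ c o₂ h₂ v hv (twist χ₁ (hat c π)) (twist χ₂ (hat c π')) Φ a ∧
      (a = 0 → Φ = 0) := by
  have hkill : ∀ w : Equiv.Perm κ, (∀ i, cb (w i) = cb i) →
      (∀ i j, c (w i) = c (w j) ↔ c i = c j) →
      gcell (F := F) cb o₁ o₂ w ≠ gcell (F := F) cb o₁ o₂ v →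
      ∀ b ∈ cellT cb c o₁ c o₂ h₂ w (twist χ₁ (hat c π)) (twist χ₂ (hat c π')),
        (∀ (x : ι) (e : V ⊗[ℂ] MvPolynomial ι ℂ),
          b (TensorProduct.map LinearMap.id (psEnd (MvPowerSeries.X x)) e) =
          TensorProduct.map LinearMap.id (psEnd (MvPowerSeries.X (s x))) (b e)) → b = 0 := by
    intro w hw hl hne b hb hbx
    have hne' : ∃ i, s (c (w i)) ≠ c i := by
      by_contra hcon
      push Not at hcon
      refine hne (gcell_eq_of_blocks cb c o₁ h₁ o₂ v w fun i => ?_)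
      exact s.injective ((hcon i).trans (hsv i).symm)
    exact kill_semi c π hπ hi hc π' hπ' hi' hc' w hl s hne' b
      ((cellT_norm cb c o₁ o₂ h₂ χ₁ χ₂ hN _ _ w hw hl b).1 hb) hbx
  obtain ⟨a, ha1, ha2, ha3, ha4⟩ := hom_lead_exists cb c o₁ h₁ c o₂ h₂ v hv
    (twist χ₁ (hat c π)) (twist χ₂ (hat c π')) hs₁
    (Kill_cusp_twist c χ₁ hχ₁ _ (Kill_cusp_hat c π hc))
    (fun w _ hl => CLead_assoc c w hl) hlv
    (fun x : ι => TensorProduct.map LinearMap.id (psEnd (MvPowerSeries.X x)))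
    (fun x : ι => TensorProduct.map LinearMap.id (psEnd (MvPowerSeries.X (s x)))) hx
    (fun x => hx' (s x)) hkill Φ hΦ hΦx
  exact ⟨a, (cellT_norm cb c o₁ o₂ h₂ χ₁ χ₂ hN _ _ v hv hlv a).1 ha1, ha2, ha3, ha4⟩

include hN in
/-- leading terms of `O`-linear homomorphisms are power series -/
theorem hat_lead (hcs : Function.Surjective c)
    (π : Representation ℂ (lev F c) V) (hπ : IsSm π) (hi : Irr π) (hc : Cusp c π)
    (hs₁ : IsSm (twist χ₁ (hat c π)))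
    (hχ₁ : ∀ (o : κ → ℤ) (n : lev F c), n.1 ∈ uni F c o → χ₁ n = 1)
    (hx : ∀ x : ι, Equi (twist χ₁ (hat c π)) (twist χ₁ (hat c π))
      (TensorProduct.map LinearMap.id (psEnd (MvPowerSeries.X x))))
    (hx' : ∀ x : ι, Equi (twist χ₂ (hat c π)) (twist χ₂ (hat c π))
      (TensorProduct.map LinearMap.id (psEnd (MvPowerSeries.X x))))
    (Φ : (parD c cb o₁ h₁).IndSp (twist χ₁ (hat c π)) →ₗ[ℂ]
      (parD c cb o₂ h₂).IndSp (twist χ₂ (hat c π)))
    (hΦ : Equi ((parD c cb o₁ h₁).Ind (twist χ₁ (hat c π)))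
      ((parD c cb o₂ h₂).Ind (twist χ₂ (hat c π))) Φ)
    (hΦx : ∀ x f, Φ ((parD c cb o₁ h₁).IndMap _ _
        (TensorProduct.map LinearMap.id (psEnd (MvPowerSeries.X x))) (hx x) f) =
      (parD c cb o₂ h₂).IndMap _ _
        (TensorProduct.map LinearMap.id (psEnd (MvPowerSeries.X x))) (hx' x) (Φ f)) :
    ∃! f : MvPowerSeries ι ℂ,
      HasLead cb c o₁ h₁ c o₂ h₂ 1 (fun _ => rfl) (twist χ₁ (hat c π)) (twist χ₂ (hat c π)) Φ
        (TensorProduct.map LinearMap.id (psEnd f)) ∧ (f = 0 → Φ = 0) := by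
  obtain ⟨a, ha1, -, ha3, ha4⟩ := semi_lead cb c o₁ h₁ o₂ h₂ χ₁ χ₂ hN π hπ hi hc π hπ hi hc hs₁ hχ₁
    1 (fun _ => rfl) (fun _ _ => Iff.rfl) 1 (fun _ => rfl) hx hx' Φ hΦ hΦx
  have ha1' : Equi (hat c π) (hat c π) a := by
    intro m e
    have h3 := ha1 m e
    have h4 : (⟨permG F 1 * m.1 * (permG F 1)⁻¹,
        permG_conj_mem c c 1 (fun _ _ => Iff.rfl) m.1 m.2⟩ : lev F c) = m := by
      apply Subtype.ext
      show permG F 1 * m.1 * (permG F 1)⁻¹ = m.1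
      rw [permG_one, one_mul, inv_one, mul_one]
    rw [h4] at h3
    exact h3
  obtain ⟨f, rfl⟩ := hat_end c hcs π hπ hi hc a ha1'
  refine ⟨f, ⟨ha3, fun h0 => ha4 ?_⟩, ?_⟩
  · rw [h0]
    have h3 : psEnd (0 : MvPowerSeries ι ℂ) = 0 := by
      have h := psEnd_smul (0 : ℂ) (0 : MvPowerSeries ι ℂ)
      rwa [zero_smul, zero_smul] at h
    rw [h3, TensorProduct.map_zero_right]
  · rintro g ⟨hg, -⟩
    have h3 := HasLead.uniq hs₁ (fun i j h => h) hg ha3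
    apply psEnd_inj
    obtain ⟨v, hv⟩ := hi.1
    refine LinearMap.ext fun p => ?_
    have h4 := LinearMap.congr_fun h3 (v ⊗ₜ p)
    rw [TensorProduct.map_tmul, TensorProduct.map_tmul] at h4
    rw [← sub_eq_zero]
    have h5 : v ⊗ₜ[ℂ] (psEnd g p - psEnd f p) = 0 := by
      rw [TensorProduct.tmul_sub, sub_eq_zero]
      exact h4
    obtain ⟨φ, hφ⟩ := IsoTw_form hv
    have h6 := congrArg (fun z => TensorProduct.lid ℂ (MvPolynomial ι ℂ)
      (LinearMap.rTensor (MvPolynomial ι ℂ) φ z)) h5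
    simp only [LinearMap.rTensor_tmul, TensorProduct.lid_tmul, hφ, one_smul, map_zero] at h6
    exact h6

end

end

end Pool.Agent.Lib.MP_ca1492_al.P
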