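import Mathlib
import Pool.Agent.Lib.MP_ca1492_al.P.CIntB

/-!
# MP_ca1492_al, p-adic side, module CFub: the integral over a group, Fubini

`intg N N₀ φ = iq N ⊥ N₀ φ` is the integral of a compactly supported locally constant function on `N`,
normalized by `vol N₀ = 1`. `Split N N₁ N₂ N₀`: `N = N₁ N₂` uniquely, `N₀ = (N₀ ∩ N₁)(N₀ ∩ N₂)` and the
compact subgroups `K` with `K = (K ∩ N₁)(K ∩ N₂)` are cofinal.

* `mean_prod`: `K = K₁ K₂`. For `k = a b ∈ K` (`a ∈ K₁`, `b ∈ K₂`) put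
  `G(k) = mean K₁ (x ↦ mean K₂ (y ↦ φ (x k y)))`; by `mean_left`/`mean_right` on `K₁`, `K₂`
  `G(k) = G(1)`. And `mean K G = mean K φ`: exchange of the finite sums and left and right invariance of
  `mean K` (twice `mean_fub` and its mirror image; or directly by `mean_eq` for a normal finite index
  subgroup `U` of `K` under which `φ` is invariant on both sides: the normal core of `rst K φ`, note that
  `φ(u k) = φ(k (k⁻¹ u k)) = φ(k)`).
* `index_prod`: apply `mean_prod` to the indicator function of `N₀`, values in `ℂ`: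
  `1 / [K : N₀] = 1 / ([K₁ : N₀ ∩ N₁] [K₂ : N₀ ∩ N₂])` (by uniqueness of the decomposition
  `k₁ k₂ ∈ N₀` iff `k₁ ∈ N₀` and `k₂ ∈ N₀`).
* `intg_prod`, `iq_section`: choose `K` large and split, `iq_eq`.
-/

set_option autoImplicit false

namespace Pool.Agent.Lib.MP_ca1492_al.P

open Topology

noncomputable section

variable {A : Type} [Group A] [TopologicalSpace A] [IsTopologicalGroup A]
variable {E E' : Type} [AddCommGroup E] [Module ℂ E] [AddCommGroup E'] [Module ℂ E']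

/-- the integral over `N` normalized by `vol N₀ = 1` -/
def intg {A E : Type} [Group A] [TopologicalSpace A] [AddCommGroup E] [Module ℂ E]
    (N N₀ : Subgroup A) (φ : A → E) : E := iq N ⊥ N₀ φ

/-- locally constant with compact support on `N` -/
def LCC {A E : Type} [Group A] [TopologicalSpace A] [AddCommGroup E] (N : Subgroup A)
    (φ : A → E) : Prop := LI N ⊥ φ

/-- `N = N₁ N₂`, compatible with `N₀`, cofinally many compact subgroups split -/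
structure Split {A : Type} [Group A] [TopologicalSpace A] (N N₁ N₂ N₀ : Subgroup A) : Prop where
  le₁ : N₁ ≤ N
  le₂ : N₂ ≤ N
  cl₁ : IsClosed (N₁ : Set A)
  cl₂ : IsClosed (N₂ : Set A)
  dec : ∀ n ∈ N, ∃ n₁ ∈ N₁, ∃ n₂ ∈ N₂, n = n₁ * n₂
  disj : ∀ n, n ∈ N₁ → n ∈ N₂ → n = 1
  dec₀ : ∀ n ∈ N₀, ∃ n₁ ∈ N₁ ⊓ N₀, ∃ n₂ ∈ N₂ ⊓ N₀, n = n₁ * n₂
  cof : ∀ C : Set A, IsCompact C → C ⊆ (N : Set A) → ∃ K : Subgroup A, K ≤ N ∧
    IsCompact (K : Set A) ∧ C ⊆ (K : Set A) ∧ N₀ ≤ K ∧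
    ∀ k ∈ K, ∃ n₁ ∈ N₁ ⊓ K, ∃ n₂ ∈ N₂ ⊓ K, k = n₁ * n₂

omit [TopologicalSpace A] [IsTopologicalGroup A] in
/-- the inner mean is tame -/
theorem CFub_tm_inner (K K₂ : Subgroup A) (h₂ : K₂ ≤ K) (φ : A → E) (hφ : Tm K φ) :
    Tm K (fun x => mean K₂ (fun y => φ (x * y))) := by
  have hfi : (rst K φ).FiniteIndex := hφ
  refine Subgroup.finiteIndex_of_le (H := (rst K φ).normalCore) ?_
  intro u hu k
  show mean K₂ (fun y => φ (k * u * y)) = mean K₂ (fun y => φ (k * y))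
  refine mean_congr K₂ _ _ fun y hy => ?_
  have hn : (rst K φ).normalCore.Normal := inferInstance
  have h1 := hn.conj_mem u hu (⟨y, h₂ hy⟩ : K)⁻¹
  have h2 := Subgroup.normalCore_le _ h1 (k * ⟨y, h₂ hy⟩)
  simp only [Subgroup.coe_mul, Subgroup.coe_inv, inv_inv] at h2
  rw [← h2]
  congr 1
  group

omit [TopologicalSpace A] [IsTopologicalGroup A] in
theorem mean_prod (K K₁ K₂ : Subgroup A) (h₁ : K₁ ≤ K) (h₂ : K₂ ≤ K)
    (h : ∀ k ∈ K, ∃ a ∈ K₁, ∃ b ∈ K₂, k = a * b) (φ : A → E) (hφ : Tm K φ) :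
    mean K φ = mean K₁ (fun x => mean K₂ (fun y => φ (x * y))) := by
  set ψ : A → E := fun x => mean K₂ (fun y => φ (x * y)) with hψ
  have tψ : Tm K ψ := CFub_tm_inner K K₂ h₂ φ hφ
  have e1 : mean K φ = mean K ψ := (CMeanB_fub_right K₂ K h₂ φ hφ).symm
  have e2 : mean K ψ = mean K (fun k => mean K₁ (fun x => ψ (x * k))) := mean_fub K₁ K h₁ ψ tψ
  have tψ1 : Tm K₁ ψ := CMeanB_tm_le K₁ K h₁ ψ tψ
  have e3 : ∀ k ∈ K, mean K₁ (fun x => ψ (x * k)) = mean K₁ ψ := by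
    intro k hk
    obtain ⟨a, ha, b, hb, rfl⟩ := h k hk
    rw [← mean_right K₁ ψ tψ1 a ha]
    refine mean_congr K₁ _ _ fun x hx => ?_
    have h5 := mean_left K₂ (fun y => φ (x * a * y)) (CMeanB_tm_le K₂ K h₂ _
      (tm_left K φ hφ (x * a) (K.mul_mem (h₁ hx) (h₁ ha)))) b hb
    show mean K₂ (fun y => φ (x * (a * b) * y)) = mean K₂ (fun y => φ (x * a * y))
    rw [← h5]
    refine mean_congr K₂ _ _ fun y _ => ?_
    show φ (x * (a * b) * y) = φ (x * a * (b * y))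
    congr 1
    group
  rw [e1, e2, mean_congr K _ (fun _ => mean K₁ ψ) e3, mean_const]

theorem CFub_core_fin (U : Subgroup A) (hU : IsOpen (U : Set A)) (s : Finset A) :
    ∃ U' : Subgroup A, IsOpen (U' : Set A) ∧ ∀ x ∈ s, ∀ u ∈ U', x⁻¹ * u * x ∈ U := by
  classical
  induction s using Finset.induction_on with
  | empty => exact ⟨⊤, isOpen_univ, by simp⟩
  | insert x s _ ih =>
    obtain ⟨U', hU', h⟩ := ih
    refine ⟨U' ⊓ U.comap (MulAut.conj x⁻¹).toMonoidHom, ?_, ?_⟩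
    · have e : ((U.comap (MulAut.conj x⁻¹).toMonoidHom : Subgroup A) : Set A) =
          (fun y => x⁻¹ * y * x) ⁻¹' (U : Set A) := by
        ext y
        simp
      rw [Subgroup.coe_inf, e]
      exact hU'.inter (hU.preimage (by fun_prop))
    · intro y hy u hu
      rcases Finset.mem_insert.1 hy with rfl | hy
      · have h4 : (MulAut.conj y⁻¹).toMonoidHom u ∈ U := hu.2
        simpa [MulAut.conj_apply] using h4
      · exact h y hy u hu.1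

/-- the intersection of the conjugates of an open subgroup under a compact subgroup is open -/
theorem CFub_core (U : Subgroup A) (hU : IsOpen (U : Set A)) (K : Subgroup A)
    (hK : IsCompact (K : Set A)) :
    ∃ U' : Subgroup A, IsOpen (U' : Set A) ∧ ∀ k ∈ K, ∀ u ∈ U', k⁻¹ * u * k ∈ U := by
  obtain ⟨s, -, -, hex, -⟩ := avg_sum K hK U hU
  obtain ⟨U', hU', h⟩ := CFub_core_fin U hU s
  refine ⟨U', hU', fun k hk u hu => ?_⟩
  obtain ⟨x, ⟨hx, hxk⟩, -⟩ := hex k hk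
  have h1 := h x hx u hu
  have h2 : k⁻¹ * u * k = (x⁻¹ * k)⁻¹ * (x⁻¹ * u * x) * (x⁻¹ * k) := by group
  rw [h2]
  exact U.mul_mem (U.mul_mem (U.inv_mem hxk) h1) hxk

variable {N N₁ N₂ N₀ : Subgroup A}

omit [IsTopologicalGroup A] in
theorem CFub_supp {φ : A → E} (hφ : LCC N φ) :
    ∃ C : Set A, IsCompact C ∧ C ⊆ (N : Set A) ∧ ∀ n ∈ N, φ n ≠ 0 → n ∈ C := by
  obtain ⟨_, _, C, hC, hCN, h3⟩ := hφ
  refine ⟨C, hC, hCN, fun n hn h0 => ?_⟩
  obtain ⟨b, hb, hbn⟩ := h3 n hn h0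
  rw [Subgroup.mem_bot] at hb
  rw [hb, inv_one, one_mul] at hbn
  exact hbn

omit [IsTopologicalGroup A] in
theorem CFub_mk (φ : A → E) (U : Subgroup A) (hU : IsOpen (U : Set A))
    (h2 : ∀ n ∈ N, ∀ u ∈ U, u ∈ N → φ (n * u) = φ n) (C : Set A) (hC : IsCompact C)
    (hCN : C ⊆ (N : Set A)) (h3 : ∀ n ∈ N, φ n ≠ 0 → n ∈ C) : LCC N φ := by
  refine ⟨fun b hb n _ => ?_, ⟨U, hU, h2⟩, C, hC, hCN, fun n hn h0 => ⟨1, Subgroup.one_mem _, ?_⟩⟩
  · rw [Subgroup.mem_bot] at hb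
    rw [hb, one_mul]
  · rw [inv_one, one_mul]
    exact h3 n hn h0

omit [TopologicalSpace A] [IsTopologicalGroup A] in
theorem CFub_ratio (K : Subgroup A) : ratio ⊥ N₀ K = (N₀.relIndex K : ℂ) := by
  unfold ratio
  rw [inf_bot_eq, inf_bot_eq, Subgroup.relIndex_self, Nat.cast_one, inv_one, mul_one]

theorem CFub_eq (hN : IQ N ⊥ N₀) (φ : A → E) (hφ : LCC N φ) (K : Subgroup A) (h1 : N₀ ≤ K)
    (h2 : K ≤ N) (h3 : IsCompact (K : Set A)) (h4 : ∀ n ∈ N, φ n ≠ 0 → n ∈ K) :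
    intg N N₀ φ = (N₀.relIndex K : ℂ) • mean K φ := by
  unfold intg
  rw [iq_eq hN φ hφ K ⟨h1, h2, h3, fun n hn h0 => ⟨1, Subgroup.one_mem _, ?_⟩⟩, CFub_ratio]
  rw [inv_one, one_mul]
  exact h4 n hn h0

omit [IsTopologicalGroup A] in
theorem CFub_bot_closed (h : Split N N₁ N₂ N₀) : IsClosed ((⊥ : Subgroup A) : Set A) := by
  have e : ((⊥ : Subgroup A) : Set A) = (N₁ : Set A) ∩ (N₂ : Set A) := by
    ext x
    rw [Subgroup.coe_bot, Set.mem_singleton_iff]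
    constructor
    · rintro rfl
      exact ⟨N₁.one_mem, N₂.one_mem⟩
    · rintro ⟨h1, h2⟩
      exact h.disj x h1 h2
  rw [e]
  exact h.cl₁.inter h.cl₂

omit [IsTopologicalGroup A] in
theorem CFub_iq {B : Subgroup A} (hN : IQ N B N₀) (N' : Subgroup A) (hle : N' ≤ N)
    (hcl : IsClosed (N' : Set A)) (hb : IsClosed ((⊥ : Subgroup A) : Set A)) :
    IQ N' ⊥ (N₀ ⊓ N') where
  B_le := bot_le
  B_cl := hb
  N₀_le := inf_le_right
  N₀_cpt := by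
    rw [Subgroup.coe_inf]
    exact hN.N₀_cpt.inter_right hcl
  N₀_op := by
    obtain ⟨O, hO, he⟩ := hN.N₀_op
    refine ⟨O, hO, ?_⟩
    rw [Subgroup.coe_inf, he]
    ext x
    constructor
    · rintro ⟨⟨_, h2⟩, h3⟩
      exact ⟨h3, h2⟩
    · rintro ⟨h1, h2⟩
      exact ⟨⟨hle h1, h2⟩, h1⟩
  exh := by
    intro C hC hCN
    obtain ⟨K, hK, hKc, hCK⟩ := hN.exh C hC (fun x hx => hle (hCN hx))
    refine ⟨K ⊓ N', inf_le_right, ?_, fun x hx => ⟨hCK hx, hCN hx⟩⟩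
    rw [Subgroup.coe_inf]
    exact hKc.inter_right hcl

omit [IsTopologicalGroup A] in
theorem CFub_uniq (h : Split N N₁ N₂ N₀) {x y a b : A} (hx : x ∈ N₁) (hy : y ∈ N₂) (ha : a ∈ N₁)
    (hb : b ∈ N₂) (e : x * y = a * b) : x = a ∧ y = b := by
  have h1 : a⁻¹ * x = b * y⁻¹ := by
    rw [inv_mul_eq_iff_eq_mul, ← mul_assoc, ← e]
    group
  have h2 := h.disj (a⁻¹ * x) (N₁.mul_mem (N₁.inv_mem ha) hx)
    (by
      rw [h1]
      exact N₂.mul_mem hb (N₂.inv_mem hy))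
  have h3 : x = a := by
    rw [inv_mul_eq_one] at h2
    exact h2.symm
  refine ⟨h3, ?_⟩
  rw [h3] at e
  exact mul_left_cancel e

omit [IsTopologicalGroup A] in
theorem CFub_mem (h : Split N N₁ N₂ N₀) {K : Subgroup A}
    (hs : ∀ k ∈ K, ∃ n₁ ∈ N₁ ⊓ K, ∃ n₂ ∈ N₂ ⊓ K, k = n₁ * n₂) {x y : A} (hx : x ∈ N₁)
    (hy : y ∈ N₂) (hxy : x * y ∈ K) : x ∈ K ∧ y ∈ K := by
  obtain ⟨a, ha, b, hb, e⟩ := hs _ hxy
  obtain ⟨e1, e2⟩ := CFub_uniq h hx hy ha.1 hb.1 e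
  rw [e1, e2]
  exact ⟨ha.2, hb.2⟩

omit [TopologicalSpace A] [IsTopologicalGroup A] in
open Classical in
theorem CFub_tm_ind (K K' : Subgroup A) (hi : K'.relIndex K ≠ 0) (e : E) :
    Tm K (fun x => if x ∈ K' then e else 0) := by
  have hfi : (K'.subgroupOf K).FiniteIndex := ⟨hi⟩
  refine Subgroup.finiteIndex_of_le (H := K'.subgroupOf K) ?_
  intro u hu k
  have h1 : (u : A) ∈ K' := hu
  show (if (k : A) * u ∈ K' then e else 0) = if (k : A) ∈ K' then e else 0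
  rw [K'.mul_mem_cancel_right h1]

omit [TopologicalSpace A] [IsTopologicalGroup A] in
open Classical in
theorem CFub_mean_ind (K K' : Subgroup A) (hle : K' ≤ K) (hi : K'.relIndex K ≠ 0) (e : E) :
    mean K (fun x => if x ∈ K' then e else 0) = ((K'.relIndex K : ℂ))⁻¹ • e := by
  rw [mean_supp K' K hle hi _ (CFub_tm_ind K K' hi e) (fun k _ hk => if_neg hk)]
  congr 1
  rw [mean_congr K' _ (fun _ => e) (fun k hk => if_pos hk), mean_const]

omit [TopologicalSpace A] [IsTopologicalGroup A] in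
/-- the mean is invariant under inversion -/
theorem CFub_mean_inv (K : Subgroup A) (φ : A → E) (hφ : Tm K φ) :
    mean K (fun x => φ x⁻¹) = mean K φ := by
  have hfi : (rst K φ).FiniteIndex := hφ
  have hU : (rst K φ).normalCore.FiniteIndex := inferInstance
  have hn : (rst K φ).normalCore.Normal := inferInstance
  have hf : Finite (K ⧸ (rst K φ).normalCore) := Subgroup.finite_quotient_of_finiteIndex
  have hle : (rst K φ).normalCore ≤ rst K (fun x => φ x⁻¹) := by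
    intro u hu k
    show φ ((k : A) * u)⁻¹ = φ (k : A)⁻¹
    have h1 := hn.conj_mem _ ((rst K φ).normalCore.inv_mem hu) k
    have h2 := (rst K φ).normalCore_le h1 k⁻¹
    simp only [Subgroup.coe_mul, Subgroup.coe_inv] at h2
    rw [← h2]
    congr 1
    group
  rw [mean_eq K _ _ hU hle, mean_eq K φ _ hU (rst K φ).normalCore_le]
  congr 1
  rw [← finsum_comp_equiv (Equiv.inv (K ⧸ (rst K φ).normalCore))
    (f := fun q : K ⧸ (rst K φ).normalCore => φ ((q.out : K) : A))]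
  refine finsum_congr fun q => ?_
  induction q using QuotientGroup.induction_on with
  | H g =>
    have h1 := CMeanA_out (rst K φ).normalCore (rst K φ).normalCore_le g⁻¹
    have h2 := CMeanA_out (rst K φ).normalCore hle g
    exact h2.trans h1.symm

/-- the hypotheses for the integral over `N₁` -/
theorem Split.iq₁ [T2Space A] (hN : IQ N ⊥ N₀) (h : Split N N₁ N₂ N₀) : IQ N₁ ⊥ (N₀ ⊓ N₁) :=
  CFub_iq hN N₁ h.le₁ h.cl₁ (CFub_bot_closed h)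

theorem Split.iq₂ [T2Space A] (hN : IQ N ⊥ N₀) (h : Split N N₁ N₂ N₀) : IQ N₂ ⊥ (N₀ ⊓ N₂) :=
  CFub_iq hN N₂ h.le₂ h.cl₂ (CFub_bot_closed h)

theorem index_prod (h : Split N N₁ N₂ N₀) (K : Subgroup A) (hK : K ≤ N) (h0 : N₀ ≤ K)
    (hi : N₀.relIndex K ≠ 0) (hs : ∀ k ∈ K, ∃ n₁ ∈ N₁ ⊓ K, ∃ n₂ ∈ N₂ ⊓ K, k = n₁ * n₂) :
    N₀.relIndex K = (N₀ ⊓ N₁).relIndex (K ⊓ N₁) * (N₀ ⊓ N₂).relIndex (K ⊓ N₂) := by
  classical
  have ii : ∀ N' : Subgroup A, (N₀ ⊓ N').relIndex (K ⊓ N') ≠ 0 := by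
    intro N'
    refine Subgroup.relIndex_inf_ne_zero ?_ ?_
    · intro h1
      exact hi (Subgroup.relIndex_eq_zero_of_le_right inf_le_left h1)
    · rw [Subgroup.relIndex_eq_one.2 inf_le_right]
      exact one_ne_zero
  have e0 := CFub_mean_ind K N₀ h0 hi (1 : ℂ)
  have e1 := mean_prod K (K ⊓ N₁) (K ⊓ N₂) inf_le_left inf_le_left (fun k hk => by
    obtain ⟨a, ha, b, hb, e⟩ := hs k hk
    exact ⟨a, ⟨ha.2, ha.1⟩, b, ⟨hb.2, hb.1⟩, e⟩) (fun x => if x ∈ N₀ then (1 : ℂ) else 0)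
    (CFub_tm_ind K N₀ hi 1)
  have e2 : ∀ x ∈ K ⊓ N₁, mean (K ⊓ N₂) (fun y => if x * y ∈ N₀ then (1 : ℂ) else 0) =
      if x ∈ N₀ ⊓ N₁ then (((N₀ ⊓ N₂).relIndex (K ⊓ N₂) : ℂ))⁻¹ else 0 := by
    intro x hx
    by_cases hx0 : x ∈ N₀
    · have e3 : ∀ y ∈ K ⊓ N₂, (if x * y ∈ N₀ then (1 : ℂ) else 0) =
          if y ∈ N₀ ⊓ N₂ then (1 : ℂ) else 0 := by
        intro y hy
        by_cases hy0 : y ∈ N₀
        · rw [if_pos (N₀.mul_mem hx0 hy0), if_pos (show y ∈ N₀ ⊓ N₂ from ⟨hy0, hy.2⟩)]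
        · rw [if_neg, if_neg (fun h' : y ∈ N₀ ⊓ N₂ => hy0 h'.1)]
          intro h'
          apply hy0
          have h5 := N₀.mul_mem (N₀.inv_mem hx0) h'
          rwa [inv_mul_cancel_left] at h5
      rw [if_pos (show x ∈ N₀ ⊓ N₁ from ⟨hx0, hx.2⟩), mean_congr (K ⊓ N₂) _ _ e3,
        CFub_mean_ind (K ⊓ N₂) (N₀ ⊓ N₂) (inf_le_inf_right _ h0) (ii N₂), smul_eq_mul, mul_one]
    · rw [if_neg (fun h' : x ∈ N₀ ⊓ N₁ => hx0 h'.1), mean_congr (K ⊓ N₂) _ (fun _ => (0 : ℂ)) ?_,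
        mean_const]
      intro y hy
      rw [if_neg]
      intro h'
      obtain ⟨a, ha, b, hb, e⟩ := h.dec₀ _ h'
      obtain ⟨e4, _⟩ := CFub_uniq h hx.2 hy.2 ha.1 hb.1 e
      apply hx0
      rw [e4]
      exact ha.2
  rw [e0, mean_congr (K ⊓ N₁) _ _ e2,
    CFub_mean_ind (K ⊓ N₁) (N₀ ⊓ N₁) (inf_le_inf_right _ h0) (ii N₁), smul_eq_mul, smul_eq_mul,
    mul_one, ← mul_inv, inv_inj] at e1
  exact_mod_cast e1

/-- Fubini -/
theorem intg_prod (hN : IQ N ⊥ N₀) (h : Split N N₁ N₂ N₀) (φ : A → E) (hφ : LCC N φ) :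
    (∀ x ∈ N₁, LCC N₂ (fun y => φ (x * y))) ∧
      LCC N₁ (fun x => intg N₂ (N₀ ⊓ N₂) (fun y => φ (x * y))) ∧
      intg N N₀ φ = intg N₁ (N₀ ⊓ N₁) (fun x => intg N₂ (N₀ ⊓ N₂) (fun y => φ (x * y))) := by
  obtain ⟨C, hC, hCN, h3⟩ := CFub_supp hφ
  have hφ' := hφ
  obtain ⟨_, ⟨U, hU, h2⟩, _⟩ := hφ'
  obtain ⟨K, hKN, hKc, hCK, hN₀K, hs⟩ := h.cof C hC hCN
  have hiq₁ : IQ N₁ ⊥ (N₀ ⊓ N₁) := CFub_iq hN N₁ h.le₁ h.cl₁ (CFub_bot_closed h)
  have hiq₂ : IQ N₂ ⊥ (N₀ ⊓ N₂) := CFub_iq hN N₂ h.le₂ h.cl₂ (CFub_bot_closed h)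
  have hK₁c : IsCompact ((K ⊓ N₁ : Subgroup A) : Set A) := by
    rw [Subgroup.coe_inf]
    exact hKc.inter_right h.cl₁
  have hK₂c : IsCompact ((K ⊓ N₂ : Subgroup A) : Set A) := by
    rw [Subgroup.coe_inf]
    exact hKc.inter_right h.cl₂
  have hmul : ∀ x ∈ N₁, ∀ y ∈ N₂, x * y ∈ N := fun x hx y hy => N.mul_mem (h.le₁ hx) (h.le₂ hy)
  have hsup : ∀ x ∈ N₁, ∀ y ∈ N₂, φ (x * y) ≠ 0 → x ∈ K ∧ y ∈ K := fun x hx y hy h0 =>
    CFub_mem h hs hx hy (hCK (h3 _ (hmul x hx y hy) h0))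
  -- (a)
  have ha : ∀ x ∈ N₁, LCC N₂ (fun y => φ (x * y)) := by
    intro x hx
    refine CFub_mk _ U hU ?_ ((K ⊓ N₂ : Subgroup A) : Set A) hK₂c (fun y hy => hy.2) ?_
    · intro n hn u hu huN
      show φ (x * (n * u)) = φ (x * n)
      rw [← mul_assoc]
      exact h2 _ (hmul x hx n hn) u hu (h.le₂ huN)
    · intro n hn h0
      exact ⟨(hsup x hx n hn h0).2, hn⟩
  -- (b)
  have hz : ∀ x ∈ N₁, x ∉ K → intg N₂ (N₀ ⊓ N₂) (fun y => φ (x * y)) = 0 := by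
    intro x hx hxK
    have h5 : intg N₂ (N₀ ⊓ N₂) (fun y => φ (x * y)) = intg N₂ (N₀ ⊓ N₂) (fun _ => (0 : E)) := by
      refine iq_congr hiq₂ _ _ (ha x hx) fun y hy => ?_
      by_contra h0
      exact hxK (hsup x hx y hy h0).1
    rw [h5]
    have h6 : LCC N₂ (fun _ : A => (0 : E)) :=
      CFub_mk _ ⊤ isOpen_univ (fun _ _ _ _ _ => rfl) ∅ isCompact_empty (Set.empty_subset _)
        (fun _ _ h0 => absurd rfl h0)
    exact (iq_zero_iff hiq₂ _ h6).2 fun K' _ => mean_const K' 0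
  have hb : LCC N₁ (fun x => intg N₂ (N₀ ⊓ N₂) (fun y => φ (x * y))) := by
    obtain ⟨U', hU', hcore⟩ := CFub_core U hU K hKc
    refine CFub_mk _ U' hU' ?_ ((K ⊓ N₁ : Subgroup A) : Set A) hK₁c (fun y hy => hy.2) ?_
    · intro n hn u hu huN
      show intg N₂ (N₀ ⊓ N₂) (fun y => φ (n * u * y)) = intg N₂ (N₀ ⊓ N₂) (fun y => φ (n * y))
      refine iq_congr hiq₂ _ _ (ha (n * u) (N₁.mul_mem hn huN)) fun y hy => ?_
      by_cases hyK : y ∈ K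
      · have h5 := h2 (n * y) (hmul n hn y hy) (y⁻¹ * u * y) (hcore y hyK u hu)
          (N.mul_mem (N.mul_mem (N.inv_mem (h.le₂ hy)) (h.le₁ huN)) (h.le₂ hy))
        rw [← h5]
        congr 1
        group
      · have h5 : φ (n * u * y) = 0 := by
          by_contra h0
          exact hyK (hsup (n * u) (N₁.mul_mem hn huN) y hy h0).2
        have h6 : φ (n * y) = 0 := by
          by_contra h0
          exact hyK (hsup n hn y hy h0).2
        rw [h5, h6]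
    · intro n hn h0
      by_contra hnK
      exact h0 (hz n hn fun h' => hnK ⟨h', hn⟩)
  refine ⟨ha, hb, ?_⟩
  -- (c)
  have tK : Tm K φ := tm_of_LI φ hφ K hKN hKc
  obtain ⟨hi, _⟩ := index_ne_zero hN N₀ K le_rfl hN₀K hKN hKc
  have c1 := CFub_eq hN φ hφ K hN₀K hKN hKc (fun n hn h0 => hCK (h3 n hn h0))
  have c2 := CFub_eq hiq₁ _ hb (K ⊓ N₁) (inf_le_inf_right _ hN₀K) inf_le_right hK₁c
    (fun n hn h0 => by
      by_contra hnK
      exact h0 (hz n hn fun h' => hnK ⟨h', hn⟩))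
  have c3 : ∀ x ∈ K ⊓ N₁, intg N₂ (N₀ ⊓ N₂) (fun y => φ (x * y)) =
      ((N₀ ⊓ N₂).relIndex (K ⊓ N₂) : ℂ) • mean (K ⊓ N₂) (fun y => φ (x * y)) := fun x hx =>
    CFub_eq hiq₂ _ (ha x hx.2) (K ⊓ N₂) (inf_le_inf_right _ hN₀K) inf_le_right hK₂c
      (fun n hn h0 => ⟨(hsup x hx.2 n hn h0).2, hn⟩)
  have t1 : Tm (K ⊓ N₁) (fun x => mean (K ⊓ N₂) (fun y => φ (x * y))) :=
    CMeanB_tm_le (K ⊓ N₁) K inf_le_left _ (CFub_tm_inner K (K ⊓ N₂) inf_le_left φ tK)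
  have c4 := mean_map (K ⊓ N₁) (fun x => mean (K ⊓ N₂) (fun y => φ (x * y))) t1
    ((((N₀ ⊓ N₂).relIndex (K ⊓ N₂) : ℕ) : ℂ) • (LinearMap.id : E →ₗ[ℂ] E))
  simp only [LinearMap.smul_apply, LinearMap.id_coe, id_eq] at c4
  have c5 := mean_prod K (K ⊓ N₁) (K ⊓ N₂) inf_le_left inf_le_left (fun k hk => by
    obtain ⟨a, ha, b, hb, e⟩ := hs k hk
    exact ⟨a, ⟨ha.2, ha.1⟩, b, ⟨hb.2, hb.1⟩, e⟩) φ tK
  rw [c1, c2, mean_congr (K ⊓ N₁) _ _ c3, c4, ← c5, smul_smul,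
    index_prod h K hKN hN₀K hi hs, Nat.cast_mul]

/-- the integral over `B \ N` is the integral over a complement -/
theorem iq_section (hN : IQ N N₁ N₀) (h : Split N N₁ N₂ N₀) (φ : A → E) (hφ : LI N N₁ φ) :
    LCC N₂ φ ∧ iq N N₁ N₀ φ = intg N₂ (N₀ ⊓ N₂) φ := by
  have hφ' := hφ
  obtain ⟨h1, ⟨U, hU, h2⟩, C, hC, hCN, h3⟩ := hφ'
  obtain ⟨K, hKN, hKc, hCK, hN₀K, hs⟩ := h.cof C hC hCN
  have hiq₂ : IQ N₂ ⊥ (N₀ ⊓ N₂) := CFub_iq hN N₂ h.le₂ h.cl₂ (CFub_bot_closed h)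
  have hK₂c : IsCompact ((K ⊓ N₂ : Subgroup A) : Set A) := by
    rw [Subgroup.coe_inf]
    exact hKc.inter_right h.cl₂
  have hsup : ∀ n ∈ N₂, φ n ≠ 0 → n ∈ K ⊓ N₂ := by
    intro n hn h0
    obtain ⟨b, hb, hbn⟩ := h3 n (h.le₂ hn) h0
    exact ⟨(CFub_mem h hs (N₁.inv_mem hb) hn (hCK hbn)).2, hn⟩
  have hl : LCC N₂ φ := CFub_mk φ U hU (fun n hn u hu huN => h2 n (h.le₂ hn) u hu (h.le₂ huN))
    ((K ⊓ N₂ : Subgroup A) : Set A) hK₂c (fun y hy => hy.2) hsup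
  refine ⟨hl, ?_⟩
  have tK : Tm K φ := tm_of_LI φ hφ K hKN hKc
  obtain ⟨hi, hi'⟩ := index_ne_zero hN N₀ K le_rfl hN₀K hKN hKc
  have hG : GoodK N N₁ N₀ φ K := ⟨hN₀K, hKN, hKc, fun n hn h0 => by
    obtain ⟨b, hb, hbn⟩ := h3 n hn h0
    exact ⟨b, hb, hCK hbn⟩⟩
  have c5 := mean_prod K (K ⊓ N₁) (K ⊓ N₂) inf_le_left inf_le_left (fun k hk => by
    obtain ⟨a, ha, b, hb, e⟩ := hs k hk
    exact ⟨a, ⟨ha.2, ha.1⟩, b, ⟨hb.2, hb.1⟩, e⟩) φ tK
  have c6 : ∀ x ∈ K ⊓ N₁, mean (K ⊓ N₂) (fun y => φ (x * y)) = mean (K ⊓ N₂) φ := by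
    intro x hx
    exact mean_congr (K ⊓ N₂) _ _ fun y hy => h1 x hx.2 y (h.le₂ hy.2)
  rw [iq_eq hN φ hφ K hG, CFub_eq hiq₂ φ hl (K ⊓ N₂) (inf_le_inf_right _ hN₀K) inf_le_right hK₂c
    hsup, c5, mean_congr (K ⊓ N₁) _ _ c6, mean_const]
  congr 1
  unfold ratio
  rw [index_prod h K hKN hN₀K hi hs, Nat.cast_mul]
  have hi'' : (((N₀ ⊓ N₁).relIndex (K ⊓ N₁) : ℕ) : ℂ) ≠ 0 := Nat.cast_ne_zero.2 hi'
  field_simp

/-- left invariance -/
theorem intg_left (hN : IQ N ⊥ N₀) (φ : A → E) (hφ : LCC N φ) (n : A) (hn : n ∈ N) :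
    LCC N (fun x => φ (n * x)) ∧ intg N N₀ (fun x => φ (n * x)) = intg N N₀ φ := by
  obtain ⟨C, hC, hCN, h3⟩ := CFub_supp hφ
  have hφ' := hφ
  obtain ⟨_, ⟨U, hU, h2⟩, _⟩ := hφ'
  obtain ⟨K, hKN, hKc, hCK⟩ := hN.exh ((N₀ : Set A) ∪ C ∪ {n})
    ((hN.N₀_cpt.union hC).union isCompact_singleton)
    (Set.union_subset (Set.union_subset hN.N₀_le hCN) (Set.singleton_subset_iff.2 hn))
  have hnK : n ∈ K := hCK (Or.inr (Set.mem_singleton n))
  have hN₀K : N₀ ≤ K := fun x hx => hCK (Or.inl (Or.inl hx))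
  have hsup : ∀ x ∈ N, φ x ≠ 0 → x ∈ K := fun x hx h0 => hCK (Or.inl (Or.inr (h3 x hx h0)))
  have hsup' : ∀ x ∈ N, φ (n * x) ≠ 0 → x ∈ K := by
    intro x hx h0
    have h5 := K.mul_mem (K.inv_mem hnK) (hsup _ (N.mul_mem hn hx) h0)
    rwa [inv_mul_cancel_left] at h5
  have hl : LCC N (fun x => φ (n * x)) := by
    refine CFub_mk _ U hU ?_ (K : Set A) hKc hKN hsup'
    intro x hx u hu huN
    show φ (n * (x * u)) = φ (n * x)
    rw [← mul_assoc]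
    exact h2 _ (N.mul_mem hn hx) u hu huN
  refine ⟨hl, ?_⟩
  rw [CFub_eq hN _ hl K hN₀K hKN hKc hsup', CFub_eq hN φ hφ K hN₀K hKN hKc hsup,
    mean_left K φ (tm_of_LI φ hφ K hKN hKc) n hnK]

/-- inversion -/
theorem intg_inv (hN : IQ N ⊥ N₀) (φ : A → E) (hφ : LCC N φ) :
    LCC N (fun x => φ x⁻¹) ∧ intg N N₀ (fun x => φ x⁻¹) = intg N N₀ φ := by
  obtain ⟨C, hC, hCN, h3⟩ := CFub_supp hφ
  have hφ' := hφ
  obtain ⟨_, ⟨U, hU, h2⟩, _⟩ := hφ'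
  obtain ⟨K, hKN, hKc, hCK⟩ := hN.exh ((N₀ : Set A) ∪ C) (hN.N₀_cpt.union hC)
    (Set.union_subset hN.N₀_le hCN)
  have hN₀K : N₀ ≤ K := fun x hx => hCK (Or.inl hx)
  have hsup : ∀ x ∈ N, φ x ≠ 0 → x ∈ K := fun x hx h0 => hCK (Or.inr (h3 x hx h0))
  have hsup' : ∀ x ∈ N, φ x⁻¹ ≠ 0 → x ∈ K := by
    intro x hx h0
    have h5 := K.inv_mem (hsup _ (N.inv_mem hx) h0)
    rwa [inv_inv] at h5
  have hl : LCC N (fun x => φ x⁻¹) := by
    by_cases hall : ∀ x ∈ N, φ x = 0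
    · refine CFub_mk _ ⊤ isOpen_univ ?_ (K : Set A) hKc hKN hsup'
      intro x hx u _ huN
      show φ (x * u)⁻¹ = φ x⁻¹
      rw [hall _ (N.inv_mem (N.mul_mem hx huN)), hall _ (N.inv_mem hx)]
    · push Not at hall
      obtain ⟨x₀, hx₀, hne⟩ := hall
      obtain ⟨U', hU', hcore⟩ := CFub_core U hU K hKc
      have hUK : ∀ u ∈ U, u ∈ N → u ∈ K := by
        intro u hu huN
        have h5 : x₀ * u ∈ K := by
          refine hsup _ (N.mul_mem hx₀ huN) ?_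
          rw [h2 x₀ hx₀ u hu huN]
          exact hne
        have h6 := K.mul_mem (K.inv_mem (hsup x₀ hx₀ hne)) h5
        rwa [inv_mul_cancel_left] at h6
      refine CFub_mk _ U' hU' ?_ (K : Set A) hKc hKN hsup'
      intro x hx u hu huN
      show φ (x * u)⁻¹ = φ x⁻¹
      have huU : u ∈ U := by
        have h5 := hcore 1 K.one_mem u hu
        rwa [inv_one, one_mul, mul_one] at h5
      have huK : u ∈ K := hUK u huU huN
      by_cases hxK : x ∈ K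
      · have h5 := hcore x⁻¹ (K.inv_mem hxK) u⁻¹ (U'.inv_mem hu)
        rw [inv_inv] at h5
        have h6 := h2 x⁻¹ (N.inv_mem hx) (x * u⁻¹ * x⁻¹) h5
          (N.mul_mem (N.mul_mem hx (N.inv_mem huN)) (N.inv_mem hx))
        rw [← h6]
        congr 1
        group
      · have h5 : φ x⁻¹ = 0 := by
          by_contra h0
          exact hxK (hsup' x hx h0)
        have h6 : φ (x * u)⁻¹ = 0 := by
          by_contra h0
          have h7 := K.mul_mem (hsup' (x * u) (N.mul_mem hx huN) h0) (K.inv_mem huK)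
          rw [mul_inv_cancel_right] at h7
          exact hxK h7
        rw [h5, h6]
  refine ⟨hl, ?_⟩
  rw [CFub_eq hN _ hl K hN₀K hKN hKc hsup', CFub_eq hN φ hφ K hN₀K hKN hKc hsup,
    CFub_mean_inv K φ (tm_of_LI φ hφ K hKN hKc)]

open Classical in
/-- the integral of the indicator function of a compact subgroup `K` with `N₀ ≤ K`, or `K ≤ N₀` of
finite index -/
theorem intg_ind (hN : IQ N ⊥ N₀) (K : Subgroup A) (hK : K ≤ N) (hc : IsCompact (K : Set A))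
    (ho : ∃ O : Set A, IsOpen O ∧ (K : Set A) = (N : Set A) ∩ O) (e : E) :
    intg N N₀ (fun x => if x ∈ K then e else 0) =
      (((N₀ ⊓ K).relIndex K : ℂ) * (((N₀ ⊓ K).relIndex N₀ : ℂ))⁻¹) • e := by
  have hKiq : IQ N ⊥ K := ⟨bot_le, hN.B_cl, hK, hc, ho, hN.exh⟩
  have hval : ∀ K' : Subgroup A, GoodK N ⊥ N₀ (fun x => if x ∈ K then e else 0) K' →
      ratio ⊥ N₀ K' • mean K' (fun x => if x ∈ K then e else 0) =
        (((N₀ ⊓ K).relIndex K : ℂ) * (((N₀ ⊓ K).relIndex N₀ : ℂ))⁻¹) • e := by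
    intro K' hG
    by_cases he : e = 0
    · have h5 : mean K' (fun x => if x ∈ K then e else 0) = 0 := by
        rw [mean_congr K' _ (fun _ => (0 : E)) (fun k _ => by
          simp only [he]
          exact ite_self 0)]
        exact mean_const K' 0
      rw [h5, he, smul_zero, smul_zero]
    · have hKK' : K ≤ K' := by
        intro x hx
        obtain ⟨b, hb, hbx⟩ := hG.2.2.2 x (hK hx) (by
          show (if x ∈ K then e else 0) ≠ 0
          rw [if_pos hx]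
          exact he)
        rw [Subgroup.mem_bot] at hb
        rwa [hb, inv_one, one_mul] at hbx
      obtain ⟨i1, _⟩ := index_ne_zero hKiq K K' le_rfl hKK' hG.2.1 hG.2.2.1
      obtain ⟨i2, _⟩ := index_ne_zero hN N₀ K' le_rfl hG.1 hG.2.1 hG.2.2.1
      have i3 : (N₀ ⊓ K).relIndex K' ≠ 0 := Subgroup.relIndex_inf_ne_zero i2 i1
      have e1 : (N₀ ⊓ K).relIndex N₀ * N₀.relIndex K' = (N₀ ⊓ K).relIndex K' :=
        Subgroup.relIndex_mul_relIndex _ _ _ inf_le_left hG.1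
      have e2 : (N₀ ⊓ K).relIndex K * K.relIndex K' = (N₀ ⊓ K).relIndex K' :=
        Subgroup.relIndex_mul_relIndex _ _ _ inf_le_right hKK'
      have i4 : (N₀ ⊓ K).relIndex N₀ ≠ 0 := by
        intro h0
        rw [h0, zero_mul] at e1
        exact i3 e1.symm
      rw [CFub_ratio, CFub_mean_ind K' K hKK' i1, smul_smul]
      congr 1
      have e3 : (((N₀ ⊓ K).relIndex N₀ : ℕ) : ℂ) * (N₀.relIndex K' : ℂ) =
          ((N₀ ⊓ K).relIndex K : ℂ) * (K.relIndex K' : ℂ) := by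
        rw [← Nat.cast_mul, ← Nat.cast_mul, e1, e2]
      have i1' : ((K.relIndex K' : ℕ) : ℂ) ≠ 0 := Nat.cast_ne_zero.2 i1
      have i4' : (((N₀ ⊓ K).relIndex N₀ : ℕ) : ℂ) ≠ 0 := Nat.cast_ne_zero.2 i4
      field_simp
      linear_combination e3
  obtain ⟨K', hK'N, hK'c, hK'⟩ := hN.exh ((N₀ : Set A) ∪ (K : Set A)) (hN.N₀_cpt.union hc)
    (Set.union_subset hN.N₀_le hK)
  have hex : ∃ K', GoodK N ⊥ N₀ (fun x => if x ∈ K then e else 0) K' := by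
    refine ⟨K', fun x hx => hK' (Or.inl hx), hK'N, hK'c, fun n _ h0 => ?_⟩
    refine ⟨1, Subgroup.one_mem _, ?_⟩
    rw [inv_one, one_mul]
    by_contra hn
    apply h0
    show (if n ∈ K then e else 0) = 0
    rw [if_neg]
    intro h'
    exact hn (hK' (Or.inr h'))
  unfold intg iq
  rw [dif_pos hex]
  exact hval _ hex.choose_spec

end

end Pool.Agent.Lib.MP_ca1492_al.P
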