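import Mathlib
import Pool.Agent.Lib.MP_ca1492_al.P.CFub
import Pool.Agent.Lib.MP_ca1492_al.P.CGLb
import Pool.Agent.Lib.MP_ca1492_al.P.CLive
import Pool.Agent.Lib.MP_ca1492_al.P.Fact
import Pool.Agent.Lib.MP_ca1492_al.P.PatTop

/-!
# MP_ca1492_al, p-adic side, module PInt: integrals over pattern groups

`intS S φ` = integral of `φ` over `uniS F S`, normalized by `vol (uniS F S ∩ Kc 0) = 1`.

* `iq_uniS`: `uniS_isClosed`, `co_uniS`, `uniS_lim`; `⊥` is closed (`gl_t2`).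
* `uniS_fact_int`: as `uniS_fact` (module Fact), recursion on the height: `g = (1 + X)(1 + Y)`, i.e.
  `X i j + Y i j = (g - 1) i j - (X Y) i j`, where `X` has its entries in `S₁`, `Y` in `S₂`; by
  induction on the height distance all entries are in `lat m` (`lat_mul`, `m ≥ 0`). The inverse of a
  matrix in `uniS` with entries of `g - 1` in `lat m` has the same property (the inverse of
  `1 + X`, `X` nilpotent, is `Σ (-X)^k`; or by `uniS` recursion as in `mem_uniS_iff`). Alternatively: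
  `g = a b` from `uniS_fact`, and the entries of `a`, `b` are computed by the recursion from the
  entries of `g` because of uniqueness.
* `split_uniS`: `dec`, `disj` from the module Fact, `dec₀` from `uniS_fact_int` with `m = 0`. `cof`: let
  `h` be a height function of `S` (`ht_exists`), `t = dia h`, `K_k = {g ∈ uniS F S | t^(-k) g t^k ∈ Kc 0}`
  (a subgroup, conjugate in `GL κ F` of `uniS F S ∩ Kc 0` because `t` normalizes `uniS F S`, compact).
  `(t^(-k) g t^k) i j = ϖ^(k (h j - h i)) g i j`. The `K_k` are increasing, contain `uniS F S ∩ Kc 0`, and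
  exhaust: for compact `C` there is `k` with all entries of `g`, `g⁻¹`, `g ∈ C` in `lat (-k)`
  (`lat_exhaust`), then `C ⊆ K_k`. Every `g ∈ K_k` factors: conjugate, use `dec₀`, conjugate back
  (`t` normalizes `uniS F S₁`, `uniS F S₂`).
* `intS_fub`: `intg_prod`; note `N0S F S ⊓ uniS F S₁ = N0S F S₁`.
* `intS_conj`: `iq_conj` with `B = ⊥`, `chi (N₀ ⊓ ⊥) m = 1`.
* `intS_ind`: `intg_ind`; `[uniS ∩ Kc 0 : uniS ∩ Kc m] = q^(m |S|)`: by induction on `m` and on `S`,
  or: count `uniS(O / p^m)`: the map `g ↦ (g i j mod lat m)_{S}` from `uniS ∩ Kc 0` has fibres the left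
  cosets `g (uniS ∩ Kc m)` (`g⁻¹ g' ∈ Kc m` iff `g' - g` has entries in `lat m`, for `g, g' ∈ Kc 0`), and
  is onto `(O / lat m)^S`, `lat_index`.
* `iq_sub`: transport along the inclusion `H → G`; for `K ≤ N ≤ H` everything (`GoodK`, `ratio`,
  `mean`) is the same for `K.subgroupOf H`; compare through `iq_eq`.
* `lam_eq_intS`: `Lam f m = iq N B N₀ (n ↦ f (w n m))` in `lev F cb`; pass to `GL κ F` with `iq_sub`
  and use `iq_section` with `N₁ = B = uni cb o₂ ∩ upp cb (o₁ ∘ w) = uniS (patUp cb o₂ (o₁ ∘ w))`,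
  `N₂ = uniS (patDn cb o₂ (o₁ ∘ w))`.
-/

set_option autoImplicit false

namespace Pool.Agent.Lib.MP_ca1492_al.P

open Topology Matrix ValuativeRel

noncomputable section

section abs

variable {G : Type} [Group G] [TopologicalSpace G] [IsTopologicalGroup G]
variable {E : Type} [AddCommGroup E] [Module ℂ E]

theorem PInt_compact (H : Subgroup G) (C : Set G) (hC : IsCompact C) (hCH : C ⊆ (H : Set G)) :
    IsCompact ((fun x : H => (x : G)) ⁻¹' C) := by
  rw [Topology.IsEmbedding.subtypeVal.isCompact_iff]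
  have h : (Subtype.val '' ((fun x : H => (x : G)) ⁻¹' C)) = C := by
    ext x
    constructor
    · rintro ⟨y, hy, rfl⟩
      exact hy
    · intro hx
      exact ⟨⟨x, hCH hx⟩, hx, rfl⟩
  rw [h]
  exact hC

theorem mean_sub (H K : Subgroup G) (hK : K ≤ H) (φ : G → E) :
    mean (K.subgroupOf H) (fun x : H => φ x.1) = mean K φ := by
  classical
  have hmem : ∀ x : K.subgroupOf H, x ∈ rst (K.subgroupOf H) (fun x : H => φ x.1) ↔
      Subgroup.subgroupOfEquivOfLe hK x ∈ rst K φ := by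
    intro x
    constructor
    · intro hx k
      have h1 := hx ((Subgroup.subgroupOfEquivOfLe hK).symm k)
      exact h1
    · intro hx k
      have h1 := hx (Subgroup.subgroupOfEquivOfLe hK k)
      exact h1
  obtain ⟨g, hg⟩ : ∃ g : (K.subgroupOf H ⧸ rst (K.subgroupOf H) (fun x : H => φ x.1)) →
      K ⧸ rst K φ, ∀ a : K.subgroupOf H, g (QuotientGroup.mk a) =
        QuotientGroup.mk (Subgroup.subgroupOfEquivOfLe hK a) := by
    refine ⟨Quotient.map' (Subgroup.subgroupOfEquivOfLe hK) ?_, fun a => rfl⟩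
    intro a b h
    rw [QuotientGroup.leftRel_apply] at h ⊢
    rw [← map_inv, ← map_mul]
    exact (hmem _).1 h
  have hb : Function.Bijective g := by
    constructor
    · intro p q hpq
      induction p using QuotientGroup.induction_on with
      | H a =>
        induction q using QuotientGroup.induction_on with
        | H b =>
          rw [hg, hg, QuotientGroup.eq, ← map_inv, ← map_mul] at hpq
          exact QuotientGroup.eq.2 ((hmem _).2 hpq)
    · intro q
      induction q using QuotientGroup.induction_on with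
      | H k =>
        refine ⟨QuotientGroup.mk ((Subgroup.subgroupOfEquivOfLe hK).symm k), ?_⟩
        rw [hg, MulEquiv.apply_symm_apply]
  have hidx : (rst (K.subgroupOf H) (fun x : H => φ x.1)).index = (rst K φ).index :=
    Nat.card_congr (Equiv.ofBijective g hb)
  unfold mean
  rw [hidx, ← finsum_comp_equiv (Equiv.ofBijective g hb)
    (f := fun q : K ⧸ rst K φ => φ ((q.out : K) : G))]
  congr 1
  refine finsum_congr fun q => ?_
  induction q using QuotientGroup.induction_on with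
  | H a =>
    have h1 := CMeanA_out (A := H) (K := K.subgroupOf H) (φ := fun x : H => φ x.1)
      (rst (K.subgroupOf H) (fun x : H => φ x.1)) le_rfl a
    have h2 := CMeanA_out (K := K) (φ := φ) (rst K φ) le_rfl (Subgroup.subgroupOfEquivOfLe hK a)
    show φ _ = φ (((g (QuotientGroup.mk a)).out : K) : G)
    rw [hg]
    exact h1.trans h2.symm

theorem LI_sub (H N B : Subgroup G) (hN : N ≤ H) (hB : B ≤ N) (φ : G → E) (hφ : LI N B φ) :
    LI (N.subgroupOf H) (B.subgroupOf H) (fun x : H => φ x.1) := by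
  obtain ⟨h1, ⟨U, hU, h2⟩, C, hC, hCN, h3⟩ := hφ
  refine ⟨fun b hb n hn => h1 b.1 hb n.1 hn, ⟨U.subgroupOf H, hU.preimage continuous_subtype_val,
    fun n hn u hu huN => h2 n.1 hn u.1 hu huN⟩, (fun x : H => (x : G)) ⁻¹' C,
    PInt_compact H C hC (hCN.trans hN), fun x hx => hCN hx, fun n hn h0 => ?_⟩
  obtain ⟨b, hb, hbn⟩ := h3 n.1 hn h0
  exact ⟨⟨b, hN (hB hb)⟩, hb, hbn⟩

theorem PInt_IQ (H N B N₀ : Subgroup G) (hN : N ≤ H) (h : IQ N B N₀) :
    IQ (N.subgroupOf H) (B.subgroupOf H) (N₀.subgroupOf H) where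
  B_le := fun x hx => h.B_le hx
  B_cl := h.B_cl.preimage continuous_subtype_val
  N₀_le := fun x hx => h.N₀_le hx
  N₀_cpt := PInt_compact H N₀ h.N₀_cpt (fun x hx => hN (h.N₀_le hx))
  N₀_op := by
    obtain ⟨O, hO, he⟩ := h.N₀_op
    refine ⟨(fun x : H => (x : G)) ⁻¹' O, hO.preimage continuous_subtype_val, ?_⟩
    ext x
    have h1 : (x : G) ∈ (N₀ : Set G) ↔ (x : G) ∈ (N : Set G) ∩ O := by rw [he]
    exact h1
  exh := by
    intro C hC hCN
    obtain ⟨K, hK, hKc, hCK⟩ := h.exh (Subtype.val '' C) (hC.image continuous_subtype_val) (by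
      rintro _ ⟨x, hx, rfl⟩
      exact hCN hx)
    exact ⟨K.subgroupOf H, fun x hx => hK hx, PInt_compact H K hKc (fun x hx => hN (hK hx)),
      fun x hx => hCK ⟨x, hx, rfl⟩⟩

theorem iq_sub (H N B N₀ : Subgroup G) (hN : N ≤ H) (h : IQ N B N₀) (φ : G → E)
    (hφ : LI N B φ) :
    iq (N.subgroupOf H) (B.subgroupOf H) (N₀.subgroupOf H) (fun x : H => φ x.1) =
      iq N B N₀ φ := by
  obtain ⟨K, hK, _⟩ := good_exists h φ hφ ∅ isCompact_empty (Set.empty_subset _)
  have hKH : K ≤ H := hK.2.1.trans hN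
  have hK' : GoodK (N.subgroupOf H) (B.subgroupOf H) (N₀.subgroupOf H) (fun x : H => φ x.1)
      (K.subgroupOf H) := by
    refine ⟨fun x hx => hK.1 hx, fun x hx => hK.2.1 hx,
      PInt_compact H K hK.2.2.1 (fun x hx => hKH hx), fun n hn h0 => ?_⟩
    obtain ⟨b, hb, hbn⟩ := hK.2.2.2 n.1 hn h0
    exact ⟨⟨b, hN (h.B_le hb)⟩, hb, hbn⟩
  rw [iq_eq h φ hφ K hK, iq_eq (PInt_IQ H N B N₀ hN h) _ (LI_sub H N B hN h.B_le φ hφ)
    (K.subgroupOf H) hK', mean_sub H K hKH]
  congr 1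
  unfold ratio
  have e1 : (N₀.subgroupOf H).relIndex (K.subgroupOf H) = N₀.relIndex K :=
    Subgroup.relIndex_subgroupOf hKH
  have e2 : (N₀.subgroupOf H ⊓ B.subgroupOf H).relIndex (K.subgroupOf H ⊓ B.subgroupOf H) =
      (N₀ ⊓ B).relIndex (K ⊓ B) :=
    Subgroup.relIndex_subgroupOf (H := N₀ ⊓ B) (K := K ⊓ B) (L := H)
      (inf_le_left.trans hKH)
  rw [e1, e2]

end abs

variable {F : Type} [Field F] [ValuativeRel F] [TopologicalSpace F]
  [IsNonarchimedeanLocalField F] {κ : Type} [Fintype κ] [DecidableEq κ]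
variable {E E' : Type} [AddCommGroup E] [Module ℂ E] [AddCommGroup E'] [Module ℂ E']

/-- the integral points of a pattern group -/
def N0S (F : Type) [Field F] [ValuativeRel F] [TopologicalSpace F]
    [IsNonarchimedeanLocalField F] {κ : Type} [Fintype κ] [DecidableEq κ] (S : Pat κ) :
    Subgroup (GL κ F) := uniS F S ⊓ Kc F κ 0

/-- the integral over a pattern group -/
def intS (S : Pat κ) (φ : GL κ F → E) : E := intg (uniS F S) (N0S F S) φ

theorem PInt_IQB (S : Pat κ) (B : Subgroup (GL κ F)) (hB : B ≤ uniS F S)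
    (hc : IsClosed (B : Set (GL κ F))) : IQ (uniS F S) B (N0S F S) where
  B_le := hB
  B_cl := hc
  N₀_le := inf_le_left
  N₀_cpt := (co_uniS S 0).2.1
  N₀_op := (co_uniS S 0).2.2
  exh := by
    intro C hC hCN
    obtain ⟨A, hA, hCA⟩ := uniS_lim S C hC hCN
    exact ⟨A, hA.1, hA.2.1, hCA⟩

theorem iq_uniS (S : Pat κ) : IQ (uniS F S) ⊥ (N0S F S) := by
  have : T2Space (GL κ F) := gl_t2
  exact PInt_IQB S ⊥ bot_le (by rw [Subgroup.coe_bot]; exact isClosed_singleton)

/-- for elements of pattern groups the entries of the inverse need not be tested -/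
theorem PInt_Kc {S : Pat κ} {g : GL κ F} (hg : g ∈ uniS F S) (m : ℕ) :
    g ∈ Kc F κ m ↔ ∀ i j, S.r i j → (g : Matrix κ κ F) i j ∈ lat F m := by
  constructor
  · intro h i j hij
    have h1 := h.1 i j
    have hne : i ≠ j := by
      rintro rfl
      exact S.ir i hij
    rw [Matrix.sub_apply, Matrix.one_apply_ne hne, sub_zero] at h1
    exact h1
  · intro h
    have h0 : ∀ i j, ((g : Matrix κ κ F) - 1) i j ∈ lat F m := by
      intro i j
      by_cases hij : S.r i j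
      · have hne : i ≠ j := by
          rintro rfl
          exact S.ir i hij
        rw [Matrix.sub_apply, Matrix.one_apply_ne hne, sub_zero]
        exact h i j hij
      · rw [Matrix.sub_apply, (hg i j hij).1, sub_self]
        exact (lat F m).zero_mem
    refine ⟨h0, ?_⟩
    have h1 : (g : Matrix κ κ F) * ((g⁻¹ : GL κ F) : Matrix κ κ F) = 1 := by
      rw [← Units.val_mul, mul_inv_cancel, Units.val_one]
    have h2 : ∀ i, ∀ j, (((g⁻¹ : GL κ F) : Matrix κ κ F) - 1) i j ∈ lat F m := by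
      intro i
      refine (Pat_wf S).induction (C := fun i => ∀ j,
        (((g⁻¹ : GL κ F) : Matrix κ κ F) - 1) i j ∈ lat F m) i ?_
      intro i ih j
      have h3 : ((g⁻¹ : GL κ F) : Matrix κ κ F) - 1 =
          -(((g : Matrix κ κ F) - 1) * (((g⁻¹ : GL κ F) : Matrix κ κ F) - 1)) -
            ((g : Matrix κ κ F) - 1) := by
        have h4 : ((g : Matrix κ κ F) - 1) * (((g⁻¹ : GL κ F) : Matrix κ κ F) - 1) =
            (g : Matrix κ κ F) * ((g⁻¹ : GL κ F) : Matrix κ κ F) - (g : Matrix κ κ F) -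
              ((g⁻¹ : GL κ F) : Matrix κ κ F) + 1 := by noncomm_ring
        rw [h4, h1]
        noncomm_ring
      rw [h3, Matrix.sub_apply, Matrix.neg_apply, Matrix.mul_apply]
      refine (lat F m).sub_mem ((lat F m).neg_mem ((lat F m).sum_mem fun k _ => ?_)) (h0 i j)
      by_cases hk : S.r i k
      · exact lat_anti (by omega : (m : ℤ) ≤ (m : ℤ) + (m : ℤ)) (lat_mul (h0 i k) (ih k hk j))
      · rw [Matrix.sub_apply, (hg i k hk).1, sub_self, zero_mul]
        exact (lat F m).zero_mem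
    exact fun i j => h2 i j

theorem PInt_aux {S S₁ S₂ : Pat κ} (h : ∀ i j, S.r i j ↔ S₁.r i j ∨ S₂.r i j) (ht : κ → ℤ)
    (hh : ∀ i j, S.r i j → ht i < ht j) (g : κ → κ → F) (m : ℕ)
    (hg : ∀ i j, S.r i j → g i j ∈ lat F m) (t : ℕ) :
    ∃ X Y : Matrix κ κ F, ((∀ i j, ¬ S₁.r i j → X i j = 0) ∧ (∀ i j, ¬ S₂.r i j → Y i j = 0) ∧
      ∀ i j, S.r i j → ht j - ht i ≤ t → (X + Y + X * Y) i j = g i j) ∧
      (∀ i j, X i j ∈ lat F m) ∧ ∀ i j, Y i j ∈ lat F m := by
  classical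
  induction t with
  | zero =>
    refine ⟨0, 0, ⟨fun _ _ _ => rfl, fun _ _ _ => rfl, fun i j hij hle => ?_⟩,
      fun _ _ => (lat F m).zero_mem, fun _ _ => (lat F m).zero_mem⟩
    have := hh i j hij
    push_cast at hle
    omega
  | succ t ih =>
    obtain ⟨X, Y, ⟨hX, hY, hXY⟩, iX, iY⟩ := ih
    have iXY : ∀ i j, (X * Y) i j ∈ lat F m := by
      intro i j
      rw [Matrix.mul_apply]
      exact (lat F m).sum_mem fun k _ =>
        lat_anti (by omega : (m : ℤ) ≤ (m : ℤ) + (m : ℤ)) (lat_mul (iX i k) (iY k j))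
    have key : ∀ X' Y' : Matrix κ κ F, (∀ i j, ¬ S₁.r i j → X' i j = 0) →
        (∀ i j, ¬ S₂.r i j → Y' i j = 0) → (∀ i j, ht j - ht i ≤ t → X' i j = X i j) →
        (∀ i j, ht j - ht i ≤ t → Y' i j = Y i j) → ∀ i j, ht j - ht i ≤ (t : ℤ) + 1 →
        (X' * Y') i j = (X * Y) i j := by
      intro X' Y' h1 h2 h3 h4 i j hij
      rw [Matrix.mul_apply, Matrix.mul_apply]
      refine Finset.sum_congr rfl fun k _ => ?_
      by_cases hik : S₁.r i k
      · by_cases hkj : S₂.r k j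
        · have e1 := hh i k ((h i k).2 (Or.inl hik))
          have e2 := hh k j ((h k j).2 (Or.inr hkj))
          rw [h3 i k (by omega), h4 k j (by omega)]
        · rw [h2 k j hkj, hY k j hkj, mul_zero, mul_zero]
      · rw [h1 i k hik, hX i k hik, zero_mul, zero_mul]
    refine ⟨Matrix.of fun i j => if S₁.r i j ∧ ht j - ht i = (t : ℤ) + 1 then
        g i j - (Y i j + (X * Y) i j) else X i j,
      Matrix.of fun i j => if (¬ S₁.r i j ∧ S₂.r i j) ∧ ht j - ht i = (t : ℤ) + 1 then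
        g i j - (X i j + (X * Y) i j) else Y i j, ⟨?_, ?_, ?_⟩, ?_, ?_⟩
    · intro i j hij
      simp [hij, hX i j hij]
    · intro i j hij
      simp [hij, hY i j hij]
    · intro i j hij hle
      push_cast at hle
      rw [Matrix.add_apply, Matrix.add_apply, key _ _ ?_ ?_ ?_ ?_ i j hle]
      · by_cases heq : ht j - ht i = (t : ℤ) + 1
        · by_cases h1 : S₁.r i j
          · simp only [Matrix.of_apply, h1, heq, not_true_eq_false, false_and, and_self, if_true,
              if_false]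
            ring
          · have h2 : S₂.r i j := ((h i j).1 hij).resolve_left h1
            simp only [Matrix.of_apply, h1, h2, heq, not_false_eq_true, false_and, and_self,
              if_true, if_false]
            ring
        · have h3 := hXY i j hij (by omega)
          simp only [Matrix.of_apply, heq, and_false, if_false]
          rw [Matrix.add_apply, Matrix.add_apply] at h3
          exact h3
      · intro i j hij
        simp [hij, hX i j hij]
      · intro i j hij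
        simp [hij, hY i j hij]
      · intro i j hij
        have : ¬ (ht j - ht i = (t : ℤ) + 1) := by omega
        simp [this]
      · intro i j hij
        have : ¬ (ht j - ht i = (t : ℤ) + 1) := by omega
        simp [this]
    · intro i j
      rw [Matrix.of_apply]
      split_ifs with h1
      · exact (lat F m).sub_mem (hg i j ((h i j).2 (Or.inl h1.1)))
          ((lat F m).add_mem (iY i j) (iXY i j))
      · exact iX i j
    · intro i j
      rw [Matrix.of_apply]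
      split_ifs with h1
      · exact (lat F m).sub_mem (hg i j ((h i j).2 (Or.inr h1.1.2)))
          ((lat F m).add_mem (iX i j) (iXY i j))
      · exact iY i j

theorem uniS_fact_int {S S₁ S₂ : Pat κ} (h : ∀ i j, S.r i j ↔ S₁.r i j ∨ S₂.r i j) (m : ℕ)
    (g : GL κ F) (hg : g ∈ uniS F S) (hm : g ∈ Kc F κ m) :
    ∃ a ∈ uniS F S₁, a ∈ Kc F κ m ∧ ∃ b ∈ uniS F S₂, b ∈ Kc F κ m ∧ g = a * b := by
  classical
  obtain ⟨ht, hh⟩ := ht_exists S
  obtain ⟨X, Y, ⟨hX, hY, hXY⟩, iX, iY⟩ := PInt_aux h ht hh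
    (fun i j => (g : Matrix κ κ F) i j) m ((PInt_Kc hg m).1 hm)
    (∑ i, ∑ j, (ht j - ht i).natAbs)
  have hbd : ∀ i j, ht j - ht i ≤ ((∑ i, ∑ j, (ht j - ht i).natAbs : ℕ) : ℤ) := by
    intro i j
    have h1 : (ht j - ht i).natAbs ≤ ∑ j, (ht j - ht i).natAbs :=
      Finset.single_le_sum (f := fun j => (ht j - ht i).natAbs) (fun _ _ => Nat.zero_le _)
        (Finset.mem_univ j)
    have h2 : ∑ j, (ht j - ht i).natAbs ≤ ∑ i, ∑ j, (ht j - ht i).natAbs :=
      Finset.single_le_sum (f := fun i => ∑ j, (ht j - ht i).natAbs) (fun _ _ => Nat.zero_le _)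
        (Finset.mem_univ i)
    have h3 : ht j - ht i ≤ ((ht j - ht i).natAbs : ℤ) := Int.le_natAbs
    exact h3.trans (by exact_mod_cast h1.trans h2)
  obtain ⟨a, ha, ha'⟩ := uniS_mk (F := F) S₁ X
  obtain ⟨b, hb, hb'⟩ := uniS_mk (F := F) S₂ Y
  have eA : (a : Matrix κ κ F) = 1 + X := Fact_mat ha ha' hX
  have eB : (b : Matrix κ κ F) = 1 + Y := Fact_mat hb hb' hY
  refine ⟨a, ha, (PInt_Kc ha m).2 fun i j hij => by rw [ha' i j hij]; exact iX i j,
    b, hb, (PInt_Kc hb m).2 fun i j hij => by rw [hb' i j hij]; exact iY i j, Units.ext ?_⟩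
  rw [Units.val_mul, eA, eB]
  have e : (1 + X) * (1 + Y) = 1 + (X + Y + X * Y) := by noncomm_ring
  rw [e]
  ext i j
  rw [Matrix.add_apply]
  by_cases hij : S.r i j
  · have hne : i ≠ j := by
      rintro rfl
      exact S.ir i hij
    rw [Matrix.one_apply_ne hne, zero_add]
    exact (hXY i j hij (hbd i j)).symm
  · rw [(mem_uniS_iff.1 hg) i j hij]
    have h1 : ¬ S₁.r i j := fun h' => hij ((h i j).2 (Or.inl h'))
    have h2 : ¬ S₂.r i j := fun h' => hij ((h i j).2 (Or.inr h'))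
    have h3 : (X * Y) i j = 0 := by
      rw [Matrix.mul_apply]
      refine Finset.sum_eq_zero fun k _ => ?_
      by_cases hik : S₁.r i k
      · by_cases hkj : S₂.r k j
        · exact absurd (S.tr i k j ((h i k).2 (Or.inl hik)) ((h k j).2 (Or.inr hkj))) hij
        · rw [hY k j hkj, mul_zero]
      · rw [hX i k hik, zero_mul]
    rw [Matrix.add_apply, Matrix.add_apply, hX i j h1, hY i j h2, h3]
    ring

theorem PInt_ordpow (e : ℤ) : unifF F ^ e ∈ lat F e := by
  have hϖ0 : unifF F ≠ 0 := unifF_ne_zero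
  have hnat : ∀ n : ℕ, ordF F (unifF F ^ n) = n := by
    intro n
    induction n with
    | zero => simpa using ordF_one (F := F)
    | succ n ih =>
      rw [pow_succ, ordF_mul _ _ (pow_ne_zero _ hϖ0) hϖ0, ih, ord_unifF]
      push_cast
      ring
  refine Or.inr (le_of_eq ?_)
  obtain ⟨n, rfl | rfl⟩ := e.eq_nat_or_neg
  · rw [zpow_natCast, hnat]
  · rw [_root_.zpow_neg, zpow_natCast, ordF_inv, hnat]

theorem PInt_dia_conj (l : κ → ℤ) (g : GL κ F) (i j : κ) :
    (((dia F l)⁻¹ * g * dia F l : GL κ F) : Matrix κ κ F) i j =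
      unifF F ^ (l j - l i) * (g : Matrix κ κ F) i j := by
  rw [Units.val_mul, Units.val_mul]
  show (Matrix.diagonal (fun i => unifF F ^ (-(l i))) * (g : Matrix κ κ F) *
    Matrix.diagonal (fun i => unifF F ^ (l i))) i j = _
  rw [Matrix.mul_diagonal, Matrix.diagonal_mul, zpow_sub₀ unifF_ne_zero, _root_.zpow_neg]
  field_simp

theorem PInt_nrm (S : Pat κ) (l : κ → ℤ) (g : GL κ F) :
    (dia F l)⁻¹ * g * dia F l ∈ uniS F S ↔ g ∈ uniS F S := by
  have h1 : Nrm (uniS F S) (dia F l)⁻¹ := nrm_uniS (c := (id : κ → κ)) (fun i i' j j' hi hj h => by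
    simp only [id] at hi hj
    rw [← hi, ← hj]
    exact h) _ ((lev F (id : κ → κ)).inv_mem (dia_mem_lev _ l))
  have h2 := h1 g
  rw [inv_inv] at h2
  exact h2

theorem PInt_conj_Kc {S : Pat κ} {h : κ → ℤ} (hh : ∀ i j, S.r i j → h i < h j) (M : ℕ)
    {g : GL κ F} (hg : g ∈ uniS F S)
    (hgM : ∀ i j, S.r i j → (g : Matrix κ κ F) i j ∈ lat F (-(M : ℤ))) :
    (dia F (fun i => (M : ℤ) * h i))⁻¹ * g * dia F (fun i => (M : ℤ) * h i) ∈ Kc F κ 0 := by
  refine (PInt_Kc ((PInt_nrm S _ g).2 hg) 0).2 fun i j hij => ?_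
  rw [PInt_dia_conj]
  refine lat_anti ?_ (lat_mul (PInt_ordpow _) (hgM i j hij))
  have h4 : (M : ℤ) * 1 ≤ (M : ℤ) * (h j - h i) :=
    mul_le_mul_of_nonneg_left (by have := hh i j hij; omega) (by positivity)
  have h5 : (M : ℤ) * (h j - h i) = (M : ℤ) * h j - (M : ℤ) * h i := by ring
  push_cast
  linarith

theorem split_uniS {S S₁ S₂ : Pat κ} (h : ∀ i j, S.r i j ↔ S₁.r i j ∨ S₂.r i j)
    (hd : ∀ i j, S₁.r i j → ¬ S₂.r i j) :
    Split (uniS F S) (uniS F S₁) (uniS F S₂) (N0S F S) where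
  le₁ := uniS_mono fun i j hij => (h i j).2 (Or.inl hij)
  le₂ := uniS_mono fun i j hij => (h i j).2 (Or.inr hij)
  cl₁ := uniS_isClosed S₁
  cl₂ := uniS_isClosed S₂
  dec := fun n hn => uniS_fact h n hn
  disj := fun n hn hn' => uniS_inf_trivial hd n hn hn'
  dec₀ := by
    intro n hn
    obtain ⟨a, ha, ha', b, hb, hb', e⟩ := uniS_fact_int h 0 n hn.1 hn.2
    exact ⟨a, ⟨ha, uniS_mono (fun i j hij => (h i j).2 (Or.inl hij)) ha, ha'⟩,
      b, ⟨hb, uniS_mono (fun i j hij => (h i j).2 (Or.inr hij)) hb, hb'⟩, e⟩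
  cof := by
    intro C hC hCN
    obtain ⟨ht, hh⟩ := ht_exists S
    have hent : ∀ i j : κ, ∃ m : ℕ, ∀ g ∈ C, (g : Matrix κ κ F) i j ∈ lat F (-(m : ℤ)) := by
      intro i j
      obtain ⟨m, hm⟩ := lat_exhaust _ (hC.image (continuous_entry (F := F) i j))
      exact ⟨m, fun g hg => hm ⟨g, hg, rfl⟩⟩
    choose m hm using hent
    obtain ⟨M, hM⟩ : ∃ M : ℕ, ∀ i j, m i j ≤ M :=
      ⟨∑ i, ∑ j, m i j, fun i j => le_trans
        (Finset.single_le_sum (f := fun j => m i j) (fun _ _ => Nat.zero_le _)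
          (Finset.mem_univ j))
        (Finset.single_le_sum (f := fun i => ∑ j, m i j) (fun _ _ => Nat.zero_le _)
          (Finset.mem_univ i))⟩
    obtain ⟨t, htd⟩ : ∃ t : GL κ F, t = dia F (fun i => (M : ℤ) * ht i) := ⟨_, rfl⟩
    have hcj : ∀ x, x ∈ cj t (Kc F κ 0) ↔ t⁻¹ * x * t ∈ Kc F κ 0 := fun x => mem_cj
    refine ⟨uniS F S ⊓ cj t (Kc F κ 0), inf_le_left, ?_, ?_, ?_, ?_⟩
    · have h1 : ((uniS F S ⊓ cj t (Kc F κ 0) : Subgroup (GL κ F)) : Set (GL κ F)) =
          (uniS F S : Set (GL κ F)) ∩ (fun x => t * x * t⁻¹) '' (Kc F κ 0 : Set (GL κ F)) := by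
        ext x
        constructor
        · rintro ⟨hx, hx'⟩
          exact ⟨hx, t⁻¹ * x * t, (hcj x).1 hx', by group⟩
        · rintro ⟨hx, y, hy, rfl⟩
          refine ⟨hx, (hcj _).2 ?_⟩
          have e : t⁻¹ * (t * y * t⁻¹) * t = y := by group
          show t⁻¹ * (t * y * t⁻¹) * t ∈ Kc F κ 0
          rw [e]
          exact hy
      rw [h1]
      exact ((Kc_isCompact 0).image (by fun_prop)).inter_left (uniS_isClosed S)
    · intro g hg
      refine ⟨hCN hg, (hcj g).2 ?_⟩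
      rw [htd]
      exact PInt_conj_Kc hh M (hCN hg) fun i j _ =>
        lat_anti (by have := hM i j; omega) (hm i j g hg)
    · intro g hg
      refine ⟨hg.1, (hcj g).2 ?_⟩
      rw [htd]
      exact PInt_conj_Kc hh M hg.1 fun i j hij =>
        lat_anti (by push_cast; omega) ((PInt_Kc hg.1 0).1 hg.2 i j hij)
    · intro k hk
      have hk' : t⁻¹ * k * t ∈ uniS F S := by
        rw [htd]
        exact (PInt_nrm S _ k).2 hk.1
      obtain ⟨a, ha, ha', b, hb, hb', e⟩ := uniS_fact_int h 0 _ hk' ((hcj k).1 hk.2)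
      have key : ∀ (S' : Pat κ) (x : GL κ F), (∀ i j, S'.r i j → S.r i j) → x ∈ uniS F S' →
          x ∈ Kc F κ 0 → t * x * t⁻¹ ∈ uniS F S' ⊓ (uniS F S ⊓ cj t (Kc F κ 0)) := by
        intro S' x hS' hx hx'
        have e1 : t⁻¹ * (t * x * t⁻¹) * t = x := by group
        have h1 : t * x * t⁻¹ ∈ uniS F S' := by
          rw [htd] at e1 ⊢
          exact (PInt_nrm S' _ _).1 (by rw [e1]; exact hx)
        refine ⟨h1, uniS_mono hS' h1, (hcj _).2 ?_⟩
        rw [e1]
        exact hx'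
      refine ⟨t * a * t⁻¹, key S₁ a (fun i j hij => (h i j).2 (Or.inl hij)) ha ha',
        t * b * t⁻¹, key S₂ b (fun i j hij => (h i j).2 (Or.inr hij)) hb hb', ?_⟩
      have e2 : k = t * (t⁻¹ * k * t) * t⁻¹ := by group
      rw [e2, e]
      group

theorem PInt_N0 {S S' : Pat κ} (h : ∀ i j, S'.r i j → S.r i j) :
    N0S F S ⊓ uniS F S' = N0S F S' := by
  ext x
  constructor
  · rintro ⟨⟨_, h2⟩, h3⟩
    exact ⟨h3, h2⟩
  · rintro ⟨h1, h2⟩
    exact ⟨⟨uniS_mono h h1, h2⟩, h1⟩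

theorem intS_fub {S S₁ S₂ : Pat κ} (h : ∀ i j, S.r i j ↔ S₁.r i j ∨ S₂.r i j)
    (hd : ∀ i j, S₁.r i j → ¬ S₂.r i j) (φ : GL κ F → E) (hφ : LCC (uniS F S) φ) :
    (∀ x ∈ uniS F S₁, LCC (uniS F S₂) (fun y => φ (x * y))) ∧
      LCC (uniS F S₁) (fun x => intS S₂ (fun y => φ (x * y))) ∧
      intS S φ = intS S₁ (fun x => intS S₂ (fun y => φ (x * y))) := by
  have h1 := intg_prod (iq_uniS (F := F) S) (split_uniS h hd) φ hφ
  rw [PInt_N0 fun i j hij => (h i j).2 (Or.inl hij),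
    PInt_N0 fun i j hij => (h i j).2 (Or.inr hij)] at h1
  exact h1

theorem intS_conj {ι : Type} {S : Pat κ} {c : κ → ι} (hS : S.Dep c) (m : GL κ F)
    (hm : m ∈ lev F c) (φ : GL κ F → E) (hφ : LCC (uniS F S) φ) :
    LCC (uniS F S) (fun n => φ (m * n * m⁻¹)) ∧
      intS S (fun n => φ (m * n * m⁻¹)) = (chi (N0S F S) m)⁻¹ • intS S φ := by
  have hN : ∀ n, m * n * m⁻¹ ∈ uniS F S ↔ n ∈ uniS F S := nrm_uniS hS m hm
  have hB : ∀ n, m * n * m⁻¹ ∈ (⊥ : Subgroup (GL κ F)) ↔ n ∈ (⊥ : Subgroup (GL κ F)) := by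
    intro n
    rw [Subgroup.mem_bot, Subgroup.mem_bot]
    constructor
    · intro h
      have h1 : m * n = m := by rw [mul_inv_eq_one] at h; exact h
      exact mul_eq_left.1 h1
    · rintro rfl
      group
  refine ⟨LI_conj φ hφ m hN hB, ?_⟩
  have h1 := iq_conj (iq_uniS (F := F) S) φ hφ m hN hB
  have h2 : chi (N0S F S ⊓ ⊥) m = 1 := by
    unfold chi
    rw [inf_bot_eq, Subgroup.map_bot, inf_bot_eq, Subgroup.relIndex_self]
    norm_num
  rw [h2, one_mul] at h1
  exact h1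

open Classical in
theorem PInt_index (S : Pat κ) (m : ℕ) :
    (uniS F S ⊓ Kc F κ m).relIndex (N0S F S) =
      qF F ^ (m * (Finset.univ.filter fun p : κ × κ => S.r p.1 p.2).card) := by
  have h0 : ∀ g : N0S F S, ∀ i j, ((g : GL κ F) : Matrix κ κ F) i j ∈ lat F 0 :=
    fun g i j => Cong_K0_entry g.2.2 i j
  obtain ⟨Ψ, hΨ⟩ : ∃ Ψ : N0S F S → ({p : κ × κ // S.r p.1 p.2} →
      (lat F 0 ⧸ (lat F m).addSubgroupOf (lat F 0))), ∀ g p, Ψ g p =
        QuotientAddGroup.mk ⟨((g : GL κ F) : Matrix κ κ F) p.1.1 p.1.2, h0 g _ _⟩ :=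
    ⟨_, fun _ _ => rfl⟩
  have hfib : ∀ g g' : N0S F S, Ψ g = Ψ g' ↔
      g⁻¹ * g' ∈ (uniS F S ⊓ Kc F κ m).subgroupOf (N0S F S) := by
    intro g g'
    have hmem : g⁻¹ * g' ∈ (uniS F S ⊓ Kc F κ m).subgroupOf (N0S F S) ↔
        ∀ i j, S.r i j → ((g' : GL κ F) : Matrix κ κ F) i j -
          ((g : GL κ F) : Matrix κ κ F) i j ∈ lat F m := by
      rw [Subgroup.mem_subgroupOf]
      have hu : ((g⁻¹ * g' : N0S F S) : GL κ F) ∈ uniS F S :=
        (uniS F S).mul_mem ((uniS F S).inv_mem g.2.1) g'.2.1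
      have e1 : (((g⁻¹ * g' : N0S F S) : GL κ F) : Matrix κ κ F) =
          (((g : GL κ F)⁻¹ : GL κ F) : Matrix κ κ F) * ((g' : GL κ F) : Matrix κ κ F) := by
        rw [← Units.val_mul]
        rfl
      have e2 : (((g : GL κ F)⁻¹ : GL κ F) : Matrix κ κ F) * ((g : GL κ F) : Matrix κ κ F) = 1 := by
        rw [← Units.val_mul, inv_mul_cancel, Units.val_one]
      have e3 : ((g : GL κ F) : Matrix κ κ F) *
          (((g : GL κ F)⁻¹ : GL κ F) : Matrix κ κ F) = 1 := by
        rw [← Units.val_mul, mul_inv_cancel, Units.val_one]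
      have ginv : ∀ i j, (((g : GL κ F)⁻¹ : GL κ F) : Matrix κ κ F) i j ∈ lat F 0 :=
        fun i j => Cong_K0_entry ((Kc F κ 0).inv_mem g.2.2) i j
      constructor
      · rintro ⟨_, h2⟩ i j _
        have e4 : ((g' : GL κ F) : Matrix κ κ F) - ((g : GL κ F) : Matrix κ κ F) =
            ((g : GL κ F) : Matrix κ κ F) *
              ((((g⁻¹ * g' : N0S F S) : GL κ F) : Matrix κ κ F) - 1) := by
          rw [e1, Matrix.mul_sub, ← Matrix.mul_assoc, e3, Matrix.one_mul, Matrix.mul_one]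
        have e5 : ((g' : GL κ F) : Matrix κ κ F) i j - ((g : GL κ F) : Matrix κ κ F) i j =
            (((g : GL κ F) : Matrix κ κ F) *
              ((((g⁻¹ * g' : N0S F S) : GL κ F) : Matrix κ κ F) - 1)) i j := by
          rw [← e4, Matrix.sub_apply]
        rw [e5, Matrix.mul_apply]
        refine (lat F m).sum_mem fun k _ => ?_
        exact lat_anti (by omega : (m : ℤ) ≤ 0 + (m : ℤ)) (lat_mul (h0 g i k) (h2.1 k j))
      · intro h
        refine ⟨hu, (PInt_Kc hu m).2 fun i j hij => ?_⟩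
        have hne : i ≠ j := by
          rintro rfl
          exact S.ir i hij
        have h' : ∀ i j, (((g' : GL κ F) : Matrix κ κ F) - ((g : GL κ F) : Matrix κ κ F)) i j ∈
            lat F m := by
          intro i j
          rw [Matrix.sub_apply]
          by_cases hij : S.r i j
          · exact h i j hij
          · rw [(g.2.1 i j hij).1, (g'.2.1 i j hij).1, sub_self]
            exact (lat F m).zero_mem
        have e4 : (((g⁻¹ * g' : N0S F S) : GL κ F) : Matrix κ κ F) - 1 =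
            (((g : GL κ F)⁻¹ : GL κ F) : Matrix κ κ F) *
              (((g' : GL κ F) : Matrix κ κ F) - ((g : GL κ F) : Matrix κ κ F)) := by
          rw [e1, Matrix.mul_sub, e2]
        have e5 : (((g⁻¹ * g' : N0S F S) : GL κ F) : Matrix κ κ F) i j =
            ((((g⁻¹ * g' : N0S F S) : GL κ F) : Matrix κ κ F) - 1) i j := by
          rw [Matrix.sub_apply, Matrix.one_apply_ne hne, sub_zero]
        rw [e5, e4, Matrix.mul_apply]
        refine (lat F m).sum_mem fun k _ => ?_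
        exact lat_anti (by omega : (m : ℤ) ≤ 0 + (m : ℤ)) (lat_mul (ginv i k) (h' k j))
    rw [hmem]
    constructor
    · intro h i j hij
      have h1 := congrFun h ⟨(i, j), hij⟩
      rw [hΨ, hΨ, QuotientAddGroup.eq, AddSubgroup.mem_addSubgroupOf] at h1
      have h2 : -((g : GL κ F) : Matrix κ κ F) i j + ((g' : GL κ F) : Matrix κ κ F) i j ∈
        lat F m := h1
      rwa [neg_add_eq_sub] at h2
    · intro h
      funext p
      rw [hΨ, hΨ, QuotientAddGroup.eq, AddSubgroup.mem_addSubgroupOf]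
      show -((g : GL κ F) : Matrix κ κ F) p.1.1 p.1.2 +
        ((g' : GL κ F) : Matrix κ κ F) p.1.1 p.1.2 ∈ lat F m
      rw [neg_add_eq_sub]
      exact h p.1.1 p.1.2 p.2
  have hsurj : Function.Surjective Ψ := by
    intro y
    have hy : ∀ p, ∃ x : lat F 0, QuotientAddGroup.mk x = y p :=
      fun p => QuotientAddGroup.mk_surjective (y p)
    choose x hx using hy
    obtain ⟨g, hg, hg'⟩ := uniS_mk (F := F) S
      (fun i j => if hij : S.r i j then (x ⟨(i, j), hij⟩ : F) else 0)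
    have hg0 : g ∈ N0S F S := by
      refine ⟨hg, (PInt_Kc hg 0).2 fun i j hij => ?_⟩
      rw [hg' i j hij, dif_pos hij]
      exact (x ⟨(i, j), hij⟩).2
    refine ⟨⟨g, hg0⟩, ?_⟩
    funext p
    rw [hΨ, ← hx p]
    congr 1
    apply Subtype.ext
    show (g : Matrix κ κ F) p.1.1 p.1.2 = x p
    rw [hg' p.1.1 p.1.2 p.2, dif_pos p.2]
  obtain ⟨Θ, hΘ⟩ : ∃ Θ : (N0S F S ⧸ (uniS F S ⊓ Kc F κ m).subgroupOf (N0S F S)) →
      ({p : κ × κ // S.r p.1 p.2} → (lat F 0 ⧸ (lat F m).addSubgroupOf (lat F 0))),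
      ∀ g : N0S F S, Θ (QuotientGroup.mk g) = Ψ g := by
    refine ⟨Quotient.lift Ψ ?_, fun _ => rfl⟩
    intro a b hab
    exact (hfib a b).2 (QuotientGroup.leftRel_apply.1 hab)
  have hbij : Function.Bijective Θ := by
    constructor
    · intro p q hpq
      induction p using QuotientGroup.induction_on with
      | H a =>
        induction q using QuotientGroup.induction_on with
        | H b =>
          rw [hΘ, hΘ] at hpq
          exact QuotientGroup.eq.2 ((hfib a b).1 hpq)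
    · intro y
      obtain ⟨g, hg⟩ := hsurj y
      exact ⟨QuotientGroup.mk g, by rw [hΘ, hg]⟩
  have h1 : (uniS F S ⊓ Kc F κ m).relIndex (N0S F S) =
      Nat.card ({p : κ × κ // S.r p.1 p.2} →
        (lat F 0 ⧸ (lat F m).addSubgroupOf (lat F 0))) :=
    Nat.card_congr (Equiv.ofBijective Θ hbij)
  have h2 : Nat.card (lat F 0 ⧸ (lat F m).addSubgroupOf (lat F 0)) = qF F ^ m := by
    have h3 := lat_index (F := F) 0 m
    rw [zero_add] at h3
    exact h3
  rw [h1, Nat.card_fun, h2, Nat.card_eq_fintype_card, Fintype.card_subtype, pow_mul]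

open Classical in
/-- volume of the congruence subgroups -/
theorem intS_ind (S : Pat κ) (m : ℕ) (e : E) :
    intS S (fun x : GL κ F => if x ∈ Kc F κ m then e else 0) =
      ((qF F : ℂ) ^ (m * (Finset.univ.filter fun p : κ × κ => S.r p.1 p.2).card))⁻¹ • e := by
  have hco := co_uniS (F := F) S m
  have hl : LCC (uniS F S) (fun x : GL κ F => if x ∈ Kc F κ m then e else 0) := by
    refine CFub_mk _ (Kc F κ m) (Kc_isOpen m) ?_
      ((uniS F S ⊓ Kc F κ m : Subgroup (GL κ F)) : Set (GL κ F)) hco.2.1 (fun x hx => hx.1) ?_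
    · intro n _ u hu _
      show (if n * u ∈ Kc F κ m then e else 0) = if n ∈ Kc F κ m then e else 0
      rw [(Kc F κ m).mul_mem_cancel_right hu]
    · intro n hn h0
      refine ⟨hn, ?_⟩
      by_contra h1
      apply h0
      show (if n ∈ Kc F κ m then e else 0) = 0
      exact if_neg h1
  have h1 : intS S (fun x : GL κ F => if x ∈ Kc F κ m then e else 0) =
      intS S (fun x : GL κ F => if x ∈ uniS F S ⊓ Kc F κ m then e else 0) := by
    refine iq_congr (iq_uniS S) _ _ hl fun n hn => ?_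
    by_cases h2 : n ∈ Kc F κ m
    · rw [if_pos h2, if_pos (show n ∈ uniS F S ⊓ Kc F κ m from ⟨hn, h2⟩)]
    · rw [if_neg h2, if_neg fun h3 => h2 h3.2]
  rw [h1]
  have h2 := intg_ind (iq_uniS (F := F) S) (uniS F S ⊓ Kc F κ m) hco.1 hco.2.1 hco.2.2 e
  have hle : uniS F S ⊓ Kc F κ m ≤ N0S F S := inf_le_inf_left _ (Kc_anti (Nat.zero_le m))
  rw [inf_eq_right.2 hle, Subgroup.relIndex_self, PInt_index] at h2
  have h3 : intS S (fun x : GL κ F => if x ∈ uniS F S ⊓ Kc F κ m then e else 0) = _ := h2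
  rw [h3]
  push_cast
  rw [one_mul]

/-- a function which is `LI` on subgroups of `lev` is `LI` -/
theorem PInt_LI {ι : Type} (cb : κ → ι) (N B : Subgroup (GL κ F)) (hN : N ≤ lev F cb)
    (hB : B ≤ N) (φ : GL κ F → E)
    (hφ : LI (N.subgroupOf (lev F cb)) (B.subgroupOf (lev F cb)) (fun x : lev F cb => φ x.1)) :
    LI N B φ := by
  obtain ⟨h1, ⟨U, hU, h2⟩, C, hC, hCN, h3⟩ := hφ
  obtain ⟨O, hO, hOU⟩ := isOpen_induced_iff.1 hU
  have h1O : (1 : GL κ F) ∈ O := by
    have h4 : (1 : lev F cb) ∈ (Subtype.val ⁻¹' O : Set (lev F cb)) := by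
      rw [hOU]
      exact U.one_mem
    exact h4
  obtain ⟨k, hk⟩ := Kc_basis (F := F) (κ := κ) O (hO.mem_nhds h1O)
  refine ⟨fun b hb n hn => h1 ⟨b, hN (hB hb)⟩ hb ⟨n, hN hn⟩ hn, ⟨Kc F κ k, Kc_isOpen k,
    fun n hn u hu huN => ?_⟩, Subtype.val '' C, hC.image continuous_subtype_val, ?_,
    fun n hn h0 => ?_⟩
  · refine h2 ⟨n, hN hn⟩ hn ⟨u, hN huN⟩ ?_ huN
    have h4 : (⟨u, hN huN⟩ : lev F cb) ∈ (Subtype.val ⁻¹' O : Set (lev F cb)) := hk hu
    rw [hOU] at h4
    exact h4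
  · rintro _ ⟨x, hx, rfl⟩
    exact hCN hx
  · obtain ⟨b, hb, hbn⟩ := h3 ⟨n, hN hn⟩ hn h0
    exact ⟨b.1, hb, _, hbn, rfl⟩

open Classical in
/-- the cell functional as an integral over the pattern group `patDn` -/
theorem lam_eq_intS {ι₀ ι₁ ι₂ : Type} (cb : κ → ι₀) (c₁ : κ → ι₁) (o₁ : κ → ℤ)
    (h₁ : ∀ i j, c₁ i = c₁ j ↔ cb i = cb j ∧ o₁ i = o₁ j) (c₂ : κ → ι₂) (o₂ : κ → ℤ)
    (h₂ : ∀ i j, c₂ i = c₂ j ↔ cb i = cb j ∧ o₂ i = o₂ j) (w : Equiv.Perm κ)
    (hw : ∀ i, cb (w i) = cb i) (σ : Representation ℂ (lev F c₁) E)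
    (hl : ∀ i j, c₁ (w i) = c₁ (w j) → c₂ i = c₂ j) (f : (parD c₁ cb o₁ h₁).IndSp σ)
    (hf : (glCD (F := F) cb o₁ c₂ o₂ h₂ w hw).Csupp f.1) (m : lev F cb)
    (hm : m.1 ∈ lev F c₂) :
    LCC (uniS F (patDn cb o₂ (fun i => o₁ (w i))))
      (fun n => if h : n ∈ lev F cb then
        f.1 (⟨permG F w, permG_mem_lev' cb w hw⟩ * ⟨n, h⟩ * m) else 0) ∧
    (glCD (F := F) cb o₁ c₂ o₂ h₂ w hw).Lam f.1 m =
      intS (patDn cb o₂ (fun i => o₁ (w i)))
        (fun n => if h : n ∈ lev F cb then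
          f.1 (⟨permG F w, permG_mem_lev' cb w hw⟩ * ⟨n, h⟩ * m) else 0) := by
  obtain ⟨φ, hφd⟩ : ∃ φ : GL κ F → E, φ = fun n => if h : n ∈ lev F cb then
      f.1 (⟨permG F w, permG_mem_lev' cb w hw⟩ * ⟨n, h⟩ * m) else 0 := ⟨_, rfl⟩
  rw [← hφd]
  have hφ1 : (fun x : lev F cb => φ x.1) = fun n : lev F cb =>
      f.1 (⟨permG F w, permG_mem_lev' cb w hw⟩ * n * m) := by
    funext x
    rw [hφd]
    simp only
    rw [dif_pos x.2]
  have hNle : uniS F (patO cb o₂) ≤ lev F cb := uniS_le_lev fun i j h => h.1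
  have hBle : uniS F (patUp cb o₂ (fun i => o₁ (w i))) ≤ uniS F (patO cb o₂) :=
    uniS_mono fun i j h => ⟨h.1, h.2.1⟩
  have eN : (glCD (F := F) cb o₁ c₂ o₂ h₂ w hw).N =
      (uniS F (patO cb o₂)).subgroupOf (lev F cb) := by
    rw [← uni_eq_uniS]
    rfl
  have eN₀ : (glCD (F := F) cb o₁ c₂ o₂ h₂ w hw).N₀ =
      (N0S F (patO cb o₂)).subgroupOf (lev F cb) := by
    unfold N0S
    rw [← uni_eq_uniS]
    rfl
  have eB : (glCD (F := F) cb o₁ c₂ o₂ h₂ w hw).B =
      (uniS F (patUp cb o₂ (fun i => o₁ (w i)))).subgroupOf (lev F cb) := by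
    ext x
    rw [CLive_mem_B, Subgroup.mem_subgroupOf, uniS_patUp, Subgroup.mem_inf]
    have hcw : cb ∘ w = cb := funext hw
    have h3 := upp_perm (F := F) cb o₁ w (permG F w * x.1 * (permG F w)⁻¹)
    have h4 : (permG F w)⁻¹ * (permG F w * x.1 * (permG F w)⁻¹) * permG F w = x.1 := by group
    rw [h4, hcw] at h3
    constructor
    · rintro ⟨h5, h6⟩
      exact ⟨h5, h3.2 h6⟩
    · rintro ⟨h5, h6⟩
      exact ⟨h5, h3.1 h6⟩
  have hIS : f.1 ∈ IS (glCD (F := F) cb o₁ c₂ o₂ h₂ w hw).P (aP c₁ cb o₁ h₁ σ) :=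
    (mem_IndSp_iff c₁ cb o₁ h₁ σ f.1).1 f.2
  have hLI := lam_LI (glCD (F := F) cb o₁ c₂ o₂ h₂ w hw) (aP c₁ cb o₁ h₁ σ)
    (gl_live cb c₁ o₁ h₁ c₂ o₂ h₂ w hw σ hl) f.1 hIS hf m hm
  have hfun : (fun n => f.1 ((glCD (F := F) cb o₁ c₂ o₂ h₂ w hw).w * n * m)) =
      fun x : lev F cb => φ x.1 := by
    rw [hφ1]
    rfl
  rw [hfun, eN, eB] at hLI
  have hLI' := PInt_LI cb _ _ hNle hBle φ hLI
  have hIQ : IQ (uniS F (patO cb o₂)) (uniS F (patUp cb o₂ (fun i => o₁ (w i))))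
      (N0S F (patO cb o₂)) := PInt_IQB _ _ hBle (uniS_isClosed _)
  have hsplit : Split (uniS F (patO cb o₂)) (uniS F (patUp cb o₂ (fun i => o₁ (w i))))
      (uniS F (patDn cb o₂ (fun i => o₁ (w i)))) (N0S F (patO cb o₂)) := by
    refine split_uniS (fun i j => ?_) fun i j h h' => absurd h.2.2 (not_le.2 h'.2.2)
    show (cb i = cb j ∧ o₂ i < o₂ j) ↔ (cb i = cb j ∧ o₂ i < o₂ j ∧ o₁ (w i) ≤ o₁ (w j)) ∨
      (cb i = cb j ∧ o₂ i < o₂ j ∧ o₁ (w j) < o₁ (w i))
    have := le_or_gt (o₁ (w i)) (o₁ (w j))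
    tauto
  have h5 := iq_section hIQ hsplit φ hLI'
  rw [PInt_N0 (S := patO cb o₂) (S' := patDn cb o₂ (fun i => o₁ (w i)))
    fun i j h => ⟨h.1, h.2.1⟩] at h5
  refine ⟨h5.1, ?_⟩
  have h6 := iq_sub (lev F cb) _ _ _ hNle hIQ φ hLI'
  unfold CD.Lam
  rw [hfun, eN, eB, eN₀, h6]
  exact h5.2

end

end Pool.Agent.Lib.MP_ca1492_al.P
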