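import Mathlib
import Pool.Agent.Lib.MP_ca1492_al.P.Pat

/-!
# MP_ca1492_al, p-adic side, module Bdet: determinants of the blocks (any field)

`blm c k g`: the matrix `g` with all blocks except the one of colour `k` replaced by the identity;
`bdk c k g = det (blm c k g)`.

Proofs. `blm_mul`: if `g` or `h` is block diagonal then for `c i = c j = k` the entry
`(g h) i j = Σ_l g i l * h l j` only involves `l` with `c l = k`; the other entries are clear.
`bdk_mul`: `Matrix.det_mul`. `bdk_ne_zero`: `bdk g * bdk g⁻¹ = bdk 1 = 1`.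
`bdk_diag`: `blm` of a diagonal matrix is diagonal. `bdk_uniS`: `blm c k g` is again unipotent with
pattern `S` (`S.r i j` and `c i = c j = k`): it is block triangular for a height function of `S` with
injective refinement, diagonal entries `1`; or: `det = 1` by `Matrix.det_of_upperTriangular` for a
linear order; see how `uniS_mk` was proved in `Pat.lean`. `bdk_perm`: conjugation by a permutation
matrix is reindexing (`Matrix.det_permute` / `det_submatrix_equiv_self`), `permG_conj_apply`.
`det_eq_prod`: for `g ∈ lev F c`: by `blm_mul` the matrices `blm c k g` (different `k`) commute and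
their product over `k ∈ image c` is `g`; or `Matrix.BlockTriangular.det` with an order of colours.
-/

set_option autoImplicit false

namespace Pool.Agent.Lib.MP_ca1492_al.P

open Matrix

noncomputable section

variable {F : Type} [Field F] {κ : Type} [Fintype κ] [DecidableEq κ]

open Classical in
/-- replace all blocks except the one of colour `k` by the identity -/
def blm {ι : Type} (c : κ → ι) (k : ι) (g : Matrix κ κ F) : Matrix κ κ F :=
  Matrix.of fun i j => if c i = k ∧ c j = k then g i j else (1 : Matrix κ κ F) i j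

/-- the determinant of the block of colour `k` -/
def bdk {ι : Type} (c : κ → ι) (k : ι) (g : Matrix κ κ F) : F := (blm c k g).det

theorem Bdet_apply {ι : Type} (c : κ → ι) (k : ι) (g : Matrix κ κ F) (i j : κ) :
    (c i = k ∧ c j = k → blm c k g i j = g i j) ∧
      (¬ (c i = k ∧ c j = k) → blm c k g i j = (1 : Matrix κ κ F) i j) := by
  constructor
  · intro h
    rw [blm, Matrix.of_apply, if_pos h]
  · intro h
    rw [blm, Matrix.of_apply, if_neg h]

theorem blm_one {ι : Type} (c : κ → ι) (k : ι) : blm c k (1 : Matrix κ κ F) = 1 := by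
  ext i j
  by_cases h : c i = k ∧ c j = k
  · exact (Bdet_apply c k _ i j).1 h
  · exact (Bdet_apply c k _ i j).2 h

theorem blm_mul {ι : Type} (c : κ → ι) (k : ι) (g h : GL κ F) (hg : g ∈ lev F c) :
    blm c k ((g * h : GL κ F) : Matrix κ κ F) = blm c k (g : Matrix κ κ F) *
      blm c k (h : Matrix κ κ F) := by
  ext i j
  rw [Units.val_mul]
  by_cases hi : c i = k
  · by_cases hj : c j = k
    · rw [(Bdet_apply c k _ i j).1 ⟨hi, hj⟩, Matrix.mul_apply, Matrix.mul_apply]
      refine Finset.sum_congr rfl fun l _ => ?_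
      by_cases hl : c l = k
      · rw [(Bdet_apply c k _ i l).1 ⟨hi, hl⟩, (Bdet_apply c k _ l j).1 ⟨hl, hj⟩]
      · have h1 : (g : Matrix κ κ F) i l = 0 := hg i l (fun h => hl (h ▸ hi))
        have h2 : i ≠ l := fun h => hl (h ▸ hi)
        rw [(Bdet_apply c k _ i l).2 (fun h => hl h.2), h1, Matrix.one_apply_ne h2, zero_mul,
          zero_mul]
    · rw [(Bdet_apply c k _ i j).2 (fun h => hj h.2), Matrix.mul_apply]
      have h1 : ∀ l, blm c k (h : Matrix κ κ F) l j = (1 : Matrix κ κ F) l j :=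
        fun l => (Bdet_apply c k _ l j).2 (fun h => hj h.2)
      simp only [h1]
      rw [← Matrix.mul_apply, Matrix.mul_one, (Bdet_apply c k _ i j).2 (fun h => hj h.2)]
  · rw [(Bdet_apply c k _ i j).2 (fun h => hi h.1), Matrix.mul_apply]
    have h1 : ∀ l, blm c k (g : Matrix κ κ F) i l = (1 : Matrix κ κ F) i l :=
      fun l => (Bdet_apply c k _ i l).2 (fun h => hi h.1)
    simp only [h1]
    rw [← Matrix.mul_apply, Matrix.one_mul, (Bdet_apply c k _ i j).2 (fun h => hi h.1)]

theorem bdk_one {ι : Type} (c : κ → ι) (k : ι) : bdk c k (1 : Matrix κ κ F) = 1 := by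
  rw [bdk, blm_one, Matrix.det_one]

theorem bdk_mul {ι : Type} (c : κ → ι) (k : ι) (g h : GL κ F) (hg : g ∈ lev F c) :
    bdk c k ((g * h : GL κ F) : Matrix κ κ F) = bdk c k (g : Matrix κ κ F) *
      bdk c k (h : Matrix κ κ F) := by
  rw [bdk, blm_mul c k g h hg, Matrix.det_mul]
  rfl

theorem bdk_ne_zero {ι : Type} (c : κ → ι) (k : ι) (g : GL κ F) (hg : g ∈ lev F c) :
    bdk c k (g : Matrix κ κ F) ≠ 0 := by
  have h := bdk_mul c k g g⁻¹ hg
  rw [mul_inv_cancel, Units.val_one, bdk_one] at h
  intro h0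
  rw [h0, zero_mul] at h
  exact one_ne_zero h

theorem bdk_inv {ι : Type} (c : κ → ι) (k : ι) (g : GL κ F) (hg : g ∈ lev F c) :
    bdk c k ((g⁻¹ : GL κ F) : Matrix κ κ F) = (bdk c k (g : Matrix κ κ F))⁻¹ := by
  have h := bdk_mul c k g g⁻¹ hg
  rw [mul_inv_cancel, Units.val_one, bdk_one] at h
  exact eq_inv_of_mul_eq_one_right h.symm

open Classical in
theorem bdk_diag {ι : Type} (c : κ → ι) (k : ι) (t : κ → F) :
    bdk c k (Matrix.diagonal t) = ∏ i ∈ Finset.univ.filter (fun i => c i = k), t i := by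
  have h : blm c k (Matrix.diagonal t) = Matrix.diagonal (fun i => if c i = k then t i else 1) := by
    ext i j
    by_cases hij : i = j
    · subst hij
      rw [Matrix.diagonal_apply_eq]
      by_cases h : c i = k
      · rw [(Bdet_apply c k _ i i).1 ⟨h, h⟩, Matrix.diagonal_apply_eq, if_pos h]
      · rw [(Bdet_apply c k _ i i).2 (fun h' => h h'.1), Matrix.one_apply_eq, if_neg h]
    · rw [Matrix.diagonal_apply_ne _ hij]
      by_cases h : c i = k ∧ c j = k
      · rw [(Bdet_apply c k _ i j).1 h, Matrix.diagonal_apply_ne _ hij]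
      · rw [(Bdet_apply c k _ i j).2 h, Matrix.one_apply_ne hij]
  rw [bdk, h, Matrix.det_diagonal, Finset.prod_filter]

theorem bdk_of_not_mem {ι : Type} (c : κ → ι) (k : ι) (hk : ∀ i, c i ≠ k) (g : Matrix κ κ F) :
    bdk c k g = 1 := by
  have h : blm c k g = 1 := by
    ext i j
    exact (Bdet_apply c k _ i j).2 (fun h => hk i h.1)
  rw [bdk, h, Matrix.det_one]

theorem bdk_uniS {ι : Type} (c : κ → ι) (k : ι) {S : Pat κ} (g : GL κ F) (hg : g ∈ uniS F S) :
    bdk c k (g : Matrix κ κ F) = 1 := by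
  obtain ⟨h, hh⟩ := ht_exists S
  have h1 : ∀ i j, ¬ S.r i j → blm c k (g : Matrix κ κ F) i j = (1 : Matrix κ κ F) i j := by
    intro i j hij
    by_cases h' : c i = k ∧ c j = k
    · rw [(Bdet_apply c k _ i j).1 h', (hg i j hij).1]
    · exact (Bdet_apply c k _ i j).2 h'
  have hb : Matrix.BlockTriangular (blm c k (g : Matrix κ κ F)) h := by
    intro i j hij
    rw [h1 i j (fun h' => absurd (hh i j h') (not_lt.2 hij.le)), Matrix.one_apply_ne]
    rintro rfl
    exact lt_irrefl _ hij
  rw [bdk, hb.det]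
  refine Finset.prod_eq_one fun a _ => ?_
  have h2 : (blm c k (g : Matrix κ κ F)).toSquareBlock h a = 1 := by
    ext ⟨i, hi⟩ ⟨j, hj⟩
    rw [Matrix.toSquareBlock_def, Matrix.of_apply]
    rw [h1 i j (fun h' => absurd (hh i j h') (by rw [hi, hj]; exact lt_irrefl _))]
    by_cases hij : i = j
    · subst hij
      rw [Matrix.one_apply_eq, Matrix.one_apply_eq]
    · rw [Matrix.one_apply_ne hij, Matrix.one_apply_ne (fun h' => hij (congrArg Subtype.val h'))]
  rw [h2, Matrix.det_one]

/-- renaming the colours -/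
theorem bdk_congr {ι ι' : Type} (c : κ → ι) (c' : κ → ι') (k : ι) (k' : ι')
    (h : ∀ i, c i = k ↔ c' i = k') (g : Matrix κ κ F) : bdk c k g = bdk c' k' g := by
  have h1 : blm c k g = blm c' k' g := by
    ext i j
    by_cases h' : c i = k ∧ c j = k
    · rw [(Bdet_apply c k _ i j).1 h', (Bdet_apply c' k' _ i j).1 ⟨(h i).1 h'.1, (h j).1 h'.2⟩]
    · rw [(Bdet_apply c k _ i j).2 h',
        (Bdet_apply c' k' _ i j).2 (fun h2 => h' ⟨(h i).2 h2.1, (h j).2 h2.2⟩)]
  rw [bdk, h1, bdk]

theorem bdk_perm {ι : Type} (c : κ → ι) (k : ι) (w : Equiv.Perm κ) (g : GL κ F) :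
    bdk (c ∘ w) k (((permG F w)⁻¹ * g * permG F w : GL κ F) : Matrix κ κ F) =
      bdk c k (g : Matrix κ κ F) := by
  have h1 : blm (c ∘ w) k (((permG F w)⁻¹ * g * permG F w : GL κ F) : Matrix κ κ F) =
      (blm c k (g : Matrix κ κ F)).submatrix w w := by
    ext i j
    rw [Matrix.submatrix_apply]
    by_cases h' : c (w i) = k ∧ c (w j) = k
    · rw [(Bdet_apply c k _ (w i) (w j)).1 h', (Bdet_apply (c ∘ w) k _ i j).1 h',
        permG_conj_apply]
    · rw [(Bdet_apply c k _ (w i) (w j)).2 h', (Bdet_apply (c ∘ w) k _ i j).2 h']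
      by_cases hij : i = j
      · subst hij
        rw [Matrix.one_apply_eq, Matrix.one_apply_eq]
      · rw [Matrix.one_apply_ne hij, Matrix.one_apply_ne (fun h => hij (w.injective h))]
  rw [bdk, h1, Matrix.det_submatrix_equiv_self, bdk]

open Classical in
theorem Bdet_block {ι : Type} (c : κ → ι) (k : ι) (M : Matrix κ κ F) :
    bdk c k M = (M.toSquareBlock c k).det := by
  have h := Matrix.twoBlockTriangular_det (blm c k M) (fun i => c i = k) (fun i hi j _ => by
    rw [(Bdet_apply c k _ i j).2 (fun h => hi h.1), Matrix.one_apply_ne]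
    rintro rfl
    contradiction)
  have h1 : Matrix.toSquareBlockProp (blm c k M) (fun i => c i = k) =
      Matrix.toSquareBlockProp M (fun i => c i = k) := by
    ext ⟨i, hi⟩ ⟨j, hj⟩
    exact (Bdet_apply c k _ i j).1 ⟨hi, hj⟩
  have h2 : Matrix.toSquareBlockProp (blm c k M) (fun i => ¬ c i = k) = 1 := by
    ext ⟨i, hi⟩ ⟨j, hj⟩
    change blm c k M i j = _
    rw [(Bdet_apply c k _ i j).2 (fun h => hi h.1)]
    by_cases hij : i = j
    · subst hij
      rw [Matrix.one_apply_eq, Matrix.one_apply_eq]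
    · rw [Matrix.one_apply_ne hij, Matrix.one_apply_ne (fun h' => hij (congrArg Subtype.val h'))]
  rw [bdk, h, h1, h2, Matrix.det_one, mul_one]
  rfl

theorem Bdet_inst {K n : Type} [CommRing K] (i₁ i₂ : Fintype n) (d₁ d₂ : DecidableEq n)
    (M : Matrix n n K) :
    @Matrix.det n d₁ i₁ K _ M = @Matrix.det n d₂ i₂ K _ M := by
  have h1 : i₁ = i₂ := Subsingleton.elim _ _
  have h2 : d₁ = d₂ := Subsingleton.elim _ _
  subst h1 h2
  rfl

open Classical in
theorem Bdet_prod {ι : Type} (c : κ → ι) (M : Matrix κ κ F)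
    (hM : ∀ i j, c i ≠ c j → M i j = 0) :
    M.det = ∏ k ∈ Finset.univ.image c, bdk c k M := by
  let _ : LinearOrder ι := linearOrderOfSTO WellOrderingRel
  have hb : Matrix.BlockTriangular M c := by
    intro i j hij
    exact hM i j (ne_of_gt hij)
  rw [hb.det]
  refine Finset.prod_congr (by ext x; simp only [Finset.mem_image]) fun k _ => ?_
  rw [Bdet_block]
  exact Bdet_inst _ _ _ _ _

open Classical in
theorem det_eq_prod {ι : Type} (c : κ → ι) (g : GL κ F) (hg : g ∈ lev F c) :
    (g : Matrix κ κ F).det = ∏ k ∈ Finset.univ.image c, bdk c k (g : Matrix κ κ F) := by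
  exact Bdet_prod c _ hg

open Classical in
/-- the determinant of a coarser block -/
theorem bdk_coarse {ι ι' : Type} (c : κ → ι) (cb : κ → ι') (f : ι → ι')
    (hf : ∀ i, f (c i) = cb i) (k' : ι') (g : GL κ F) (hg : g ∈ lev F c) :
    bdk cb k' (g : Matrix κ κ F) =
      ∏ k ∈ (Finset.univ.image c).filter (fun k => f k = k'), bdk c k (g : Matrix κ κ F) := by
  have hB : ∀ i j, c i ≠ c j → blm cb k' (g : Matrix κ κ F) i j = 0 := by
    intro i j hij
    by_cases h' : cb i = k' ∧ cb j = k'
    · rw [(Bdet_apply cb k' _ i j).1 h']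
      exact hg i j hij
    · rw [(Bdet_apply cb k' _ i j).2 h', Matrix.one_apply_ne]
      rintro rfl
      exact hij rfl
  rw [bdk, Bdet_prod c _ hB, Finset.prod_filter]
  refine Finset.prod_congr rfl fun k _ => ?_
  split_ifs with hk
  · have h1 : blm c k (blm cb k' (g : Matrix κ κ F)) = blm c k (g : Matrix κ κ F) := by
      ext i j
      by_cases h' : c i = k ∧ c j = k
      · rw [(Bdet_apply c k _ i j).1 h', (Bdet_apply c k _ i j).1 h',
          (Bdet_apply cb k' _ i j).1 ⟨by rw [← hf, h'.1, hk], by rw [← hf, h'.2, hk]⟩]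
      · rw [(Bdet_apply c k _ i j).2 h', (Bdet_apply c k _ i j).2 h']
    rw [bdk, h1, bdk]
  · have h1 : blm c k (blm cb k' (g : Matrix κ κ F)) = 1 := by
      ext i j
      by_cases h' : c i = k ∧ c j = k
      · rw [(Bdet_apply c k _ i j).1 h',
          (Bdet_apply cb k' _ i j).2 (fun h2 => hk (by rw [← h2.1, ← hf, h'.1]))]
      · rw [(Bdet_apply c k _ i j).2 h']
    rw [bdk, h1, Matrix.det_one]

/-- block upper triangular matrices: the determinant of a block of the big group is the one of the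
Levi part `m` of `g = m n` -/
theorem bdk_levi {ι : Type} (cb : κ → ι) (o : κ → ℤ) (k : ι) (m n : GL κ F)
    (hm : m ∈ lev F cb) (hn : n ∈ uni F cb o) :
    bdk cb k ((m * n : GL κ F) : Matrix κ κ F) = bdk cb k (m : Matrix κ κ F) := by
  rw [bdk_mul cb k m n hm]
  rw [uni_eq_uniS] at hn
  rw [bdk_uniS cb k n hn, mul_one]

end

end Pool.Agent.Lib.MP_ca1492_al.P
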