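import Mathlib
import Pool.Agent.Lib.MP_ca1492_al.P.Bdet
import Pool.Agent.Lib.MP_ca1492_al.P.Cartan

/-!
# MP_ca1492_al, p-adic side, module BdetTop: block valuations

`bord c k g = ordF (bdk c k g)`.
* `bord_Kc`: `g ∈ Kc F κ 0 ⊓ lev F c`: all entries of `g`, `g⁻¹` are in `lat 0`, so `bdk g`,
  `bdk g⁻¹` are in `lat 0` (sums of products, `Matrix.det_apply`) and their product is `1`.
* `bord_dia`: `bdk_diag`, `ord_unifF`, `ordF (x ^ n) = n * ordF x`.
* `bord_locally_const`: `bdk` is continuous and `{x | ordF x = ordF x₀}` is a neighbourhood of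
  `x₀ ≠ 0` (`x₀ + lat (ordF x₀ + 1)`); or: it is a homomorphism on `lev F c` trivial on
  the open subgroup `Kc 0`.
* `bord_surj`: `dia l` with `l i = n` at one index.
-/

set_option autoImplicit false

namespace Pool.Agent.Lib.MP_ca1492_al.P

open Topology Matrix ValuativeRel

noncomputable section

variable {F : Type} [Field F] [ValuativeRel F] [TopologicalSpace F]
  [IsNonarchimedeanLocalField F]
variable {κ : Type} [Fintype κ] [DecidableEq κ]

/-- the valuation of the determinant of the block of colour `k` -/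
def bord {ι : Type} (c : κ → ι) (k : ι) (g : GL κ F) : ℤ :=
  ordF F (bdk c k (g : Matrix κ κ F))

theorem bord_one {ι : Type} (c : κ → ι) (k : ι) : bord c k (1 : GL κ F) = 0 := by
  unfold bord
  rw [Units.val_one, bdk_one, ordF_one]

theorem bord_mul {ι : Type} (c : κ → ι) (k : ι) (g h : GL κ F) (hg : g ∈ lev F c)
    (hh : h ∈ lev F c) : bord c k (g * h) = bord c k g + bord c k h := by
  unfold bord
  rw [bdk_mul c k g h hg, ordF_mul _ _ (bdk_ne_zero c k g hg) (bdk_ne_zero c k h hh)]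

theorem bord_inv {ι : Type} (c : κ → ι) (k : ι) (g : GL κ F) (hg : g ∈ lev F c) :
    bord c k g⁻¹ = - bord c k g := by
  unfold bord
  rw [bdk_inv c k g hg, ordF_inv]

theorem BdetTop_mul {x y : F} (hx : x ∈ lat F ((0 : ℕ) : ℤ)) (hy : y ∈ lat F ((0 : ℕ) : ℤ)) :
    x * y ∈ lat F ((0 : ℕ) : ℤ) := by
  have h := lat_mul hx hy
  have h0 : (((0 : ℕ) : ℤ)) + ((0 : ℕ) : ℤ) = ((0 : ℕ) : ℤ) := by simp
  rwa [h0] at h

theorem BdetTop_det (A : Matrix κ κ F) (hA : ∀ i j, A i j ∈ lat F ((0 : ℕ) : ℤ)) :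
    A.det ∈ lat F ((0 : ℕ) : ℤ) := by
  rw [Matrix.det_apply]
  refine (lat F _).sum_mem fun σ _ => ?_
  have h1 : (∏ i, A (σ i) i) ∈ lat F ((0 : ℕ) : ℤ) :=
    Finset.prod_induction _ (fun x => x ∈ lat F ((0 : ℕ) : ℤ)) (fun _ _ => BdetTop_mul)
      Cartan_one_lat (fun i _ => hA _ _)
  rcases Int.units_eq_one_or (Equiv.Perm.sign σ) with h | h
  · rw [h, one_smul]
    exact h1
  · rw [h, Units.neg_smul, one_smul]
    exact (lat F _).neg_mem h1

theorem BdetTop_bdet {ι : Type} (c : κ → ι) (k : ι) (A : Matrix κ κ F)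
    (hA : ∀ i j, (A - 1) i j ∈ lat F ((0 : ℕ) : ℤ)) : bdk c k A ∈ lat F ((0 : ℕ) : ℤ) := by
  refine BdetTop_det _ fun i j => ?_
  unfold blm
  rw [Matrix.of_apply]
  split_ifs with h
  · have h1 : A i j = (A - 1) i j + (1 : Matrix κ κ F) i j := by
      rw [Matrix.sub_apply]
      ring
    rw [h1]
    exact (lat F _).add_mem (hA i j) (Cartan_one i j)
  · exact Cartan_one i j

theorem bord_Kc {ι : Type} (c : κ → ι) (k : ι) (g : GL κ F) (hg : g ∈ lev F c)
    (hg' : g ∈ Kc F κ 0) : bord c k g = 0 := by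
  have h1 : bdk c k (g : Matrix κ κ F) ∈ lat F ((0 : ℕ) : ℤ) := BdetTop_bdet c k _ hg'.1
  have h2 : bdk c k ((g⁻¹ : GL κ F) : Matrix κ κ F) ∈ lat F ((0 : ℕ) : ℤ) :=
    BdetTop_bdet c k _ hg'.2
  rw [mem_lat] at h1 h2
  have h3 := h1.resolve_left (bdk_ne_zero c k g hg)
  have h4 := h2.resolve_left (bdk_ne_zero c k g⁻¹ ((lev F c).inv_mem hg))
  have h5 := bord_inv c k g hg
  unfold bord at h5 ⊢
  rw [Nat.cast_zero] at h3 h4
  omega

theorem BdetTop_open {ι : Type} (c : κ → ι) (g : GL κ F) (hg : g ∈ lev F c) :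
    ∃ U : Set (GL κ F), IsOpen U ∧ g ∈ U ∧ ∀ h ∈ U, h ∈ lev F c → ∀ k, bord c k h = bord c k g := by
  refine ⟨(fun h : GL κ F => g⁻¹ * h) ⁻¹' (Kc F κ 0 : Set (GL κ F)), ?_, ?_, ?_⟩
  · exact (Kc_isOpen 0).preimage (continuous_const.mul continuous_id)
  · show g⁻¹ * g ∈ Kc F κ 0
    rw [inv_mul_cancel]
    exact (Kc F κ 0).one_mem
  · intro h hh hh2 k
    have h1 : g⁻¹ * h ∈ lev F c := (lev F c).mul_mem ((lev F c).inv_mem hg) hh2
    have h2 := bord_Kc c k (g⁻¹ * h) h1 hh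
    have h3 := bord_mul c k g (g⁻¹ * h) hg h1
    rw [mul_inv_cancel_left, h2, add_zero] at h3
    exact h3

theorem BdetTop_pow {ι : Type} (c : κ → ι) (k : ι) (g : GL κ F) (hg : g ∈ lev F c) (n : ℕ) :
    bord c k (g ^ n) = n * bord c k g := by
  induction n with
  | zero => rw [pow_zero, bord_one, Nat.cast_zero, zero_mul]
  | succ n ih =>
    rw [pow_succ, bord_mul c k _ _ ((lev F c).pow_mem hg n) hg, ih]
    push_cast
    ring

/-- compact subgroups of `lev F c` have block valuations zero -/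
theorem bord_compact {ι : Type} (c : κ → ι) (k : ι) (K : Subgroup (GL κ F))
    (hK : IsCompact (K : Set (GL κ F))) (hKc : K ≤ lev F c) (g : GL κ F) (hg : g ∈ K) :
    bord c k g = 0 := by
  by_contra hne
  have hU : ∀ x ∈ (K : Set (GL κ F)), {h : GL κ F | h ∈ lev F c → bord c k h = bord c k x} ∈
      nhds x := by
    intro x hx
    obtain ⟨U, hU, hxU, hU'⟩ := BdetTop_open c x (hKc hx)
    exact Filter.mem_of_superset (hU.mem_nhds hxU) (fun h hh hh2 => hU' h hh hh2 k)
  obtain ⟨t, -, ht⟩ := hK.elim_nhds_subcover _ hU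
  have hfin : (Set.range (fun n : ℕ => bord c k (g ^ n))).Finite := by
    refine (t.finite_toSet.image (bord c k)).subset ?_
    rintro _ ⟨n, rfl⟩
    have h1 : g ^ n ∈ (K : Set (GL κ F)) := K.pow_mem hg n
    have h2 := ht h1
    rw [Set.mem_iUnion₂] at h2
    obtain ⟨x, hx, hx2⟩ := h2
    exact ⟨x, hx, (hx2 (hKc h1)).symm⟩
  refine (Set.infinite_range_of_injective ?_) hfin
  intro a b hab
  have h3 : bord c k (g ^ a) = bord c k (g ^ b) := hab
  rw [BdetTop_pow c k g (hKc hg), BdetTop_pow c k g (hKc hg)] at h3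
  have h4 := mul_right_cancel₀ hne h3
  exact_mod_cast h4

theorem BdetTop_prod {α : Type} (s : Finset α) (t : α → F) (ht : ∀ a ∈ s, t a ≠ 0) :
    ordF F (∏ a ∈ s, t a) = ∑ a ∈ s, ordF F (t a) := by
  classical
  induction s using Finset.induction_on with
  | empty => rw [Finset.prod_empty, Finset.sum_empty, ordF_one]
  | insert a s ha ih =>
    rw [Finset.prod_insert ha, Finset.sum_insert ha, ordF_mul _ _ (ht a (Finset.mem_insert_self a s))
      (Finset.prod_ne_zero_iff.mpr fun b hb => ht b (Finset.mem_insert_of_mem hb)),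
      ih fun b hb => ht b (Finset.mem_insert_of_mem hb)]

open Classical in
theorem bord_dia {ι : Type} (c : κ → ι) (k : ι) (l : κ → ℤ) :
    bord c k (dia F l) = ∑ i ∈ Finset.univ.filter (fun i => c i = k), l i := by
  have h1 : ((dia F l : GL κ F) : Matrix κ κ F) = Matrix.diagonal fun i => unifF F ^ (l i) := rfl
  unfold bord
  rw [h1, bdk_diag, BdetTop_prod _ _ (fun i _ => zpow_ne_zero _ unifF_ne_zero)]
  exact Finset.sum_congr rfl fun i _ => Cartan_ord_zpow (l i)

theorem bord_uniS {ι : Type} (c : κ → ι) (k : ι) {S : Pat κ} (g : GL κ F)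
    (hg : g ∈ uniS F S) : bord c k g = 0 := by
  unfold bord
  rw [bdk_uniS c k g hg, ordF_one]

theorem bord_perm {ι : Type} (c : κ → ι) (k : ι) (w : Equiv.Perm κ) (g : GL κ F) :
    bord (c ∘ w) k ((permG F w)⁻¹ * g * permG F w) = bord c k g := by
  unfold bord
  rw [bdk_perm]

open Classical in
theorem bord_coarse {ι ι' : Type} (c : κ → ι) (cb : κ → ι') (f : ι → ι')
    (hf : ∀ i, f (c i) = cb i) (k' : ι') (g : GL κ F) (hg : g ∈ lev F c) :
    bord cb k' g = ∑ k ∈ (Finset.univ.image c).filter (fun k => f k = k'), bord c k g := by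
  unfold bord
  rw [bdk_coarse c cb f hf k' g hg, BdetTop_prod _ _ (fun k _ => bdk_ne_zero c k g hg)]

/-- the subgroup of the elements of `lev F c` with all block valuations zero is open in `lev F c` -/
theorem bord_open {ι : Type} (c : κ → ι) (g : GL κ F) (hg : g ∈ lev F c) :
    ∃ U : Set (GL κ F), IsOpen U ∧ g ∈ U ∧ ∀ h ∈ U, h ∈ lev F c → ∀ k, bord c k h = bord c k g :=
  BdetTop_open c g hg

end

end Pool.Agent.Lib.MP_ca1492_al.P
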