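import Mathlib
import Pool.Agent.Lib.MP_ca1492_al.P.BdetTop
import Pool.Agent.Lib.MP_ca1492_al.P.Torus

/-!
# MP_ca1492_al, p-adic side, module ModMain: the modulus of `lev F c` on pattern groups

`mdl_uniS`: by `cartan` `m = k₁ (dia l) k₂` with `k₁, k₂ ∈ Kc 0 ⊓ lev F c` (compact, normalizing
`uniS F S`): `mdl k₁ = mdl k₂ = 1` (`mdl_compact`), `bord k₁ = bord k₂ = 0` (`bord_Kc`); both sides
are multiplicative (`mdl_mul`, `bord_mul`), so it is enough to treat `dia l`: `mdl_dia`, `bord_dia`,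
`Σ_a dg S a * l a = Σ_k e k * Σ_{c a = k} l a`.
`mdl_uni`: the case of the unipotent radical: `S = patO cb o`, `uni_eq_uniS`.
`mdl_pull`: conjugation by a permutation (`mdl_conj`).
-/

set_option autoImplicit false

namespace Pool.Agent.Lib.MP_ca1492_al.P

open Topology Matrix ValuativeRel

noncomputable section

variable {F : Type} [Field F] [ValuativeRel F] [TopologicalSpace F]
  [IsNonarchimedeanLocalField F]
variable {κ : Type} [Fintype κ] [DecidableEq κ]

/-- elements of `lev F c ⊓ Kc 0` have modulus `1` -/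
theorem ModMain_Kc {ι : Type} {S : Pat κ} {c : κ → ι} (hS : S.Dep c) (k : GL κ F)
    (hk : k ∈ lev F c) (hk' : k ∈ Kc F κ 0) : mdl (uniS F S) k = 1 := by
  haveI : T2Space (GL κ F) := gl_t2
  exact mdl_compact (lev F c ⊓ Kc F κ 0) (co_lev c 0).2.1
    (fun x hx => nrm_uniS hS x hx.1) k ⟨hk, hk'⟩

open Classical in
/-- reduction to diagonal matrices, for all patterns at once -/
theorem ModMain_cartan {ι : Type} (c : κ → ι) (m : GL κ F) (hm : m ∈ lev F c) :
    ∃ l : κ → ℤ, (∀ S : Pat κ, S.Dep c →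
      mdl (uniS F S) m = (qF F : ℝ) ^ (- ∑ a, dg S a * l a)) ∧
      ∀ k, bord c k m = ∑ i ∈ Finset.univ.filter (fun i => c i = k), l i := by
  obtain ⟨k₁, h1, k₂, h2, h3, h4, l, rfl⟩ := cartan c m hm
  have hd : dia F l ∈ lev F c := dia_mem_lev c l
  refine ⟨l, fun S hS => ?_, fun k => ?_⟩
  · rw [mdl_mul (nrm_uniS hS _ ((lev F c).mul_mem h3 hd)) (nrm_uniS hS _ h4),
      mdl_mul (nrm_uniS hS _ h3) (nrm_uniS hS _ hd), ModMain_Kc hS k₁ h3 h1,
      ModMain_Kc hS k₂ h4 h2, one_mul, mul_one, mdl_dia]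
  · rw [bord_mul c k _ _ ((lev F c).mul_mem h3 hd) h4, bord_mul c k _ _ h3 hd,
      bord_Kc c k k₁ h3 h1, bord_Kc c k k₂ h4 h2, zero_add, add_zero, bord_dia]

/-- the difference depends on the colour only -/
theorem ModMain_dg {ι : Type} {S : Pat κ} {c : κ → ι} (hS : S.Dep c) (i i' : κ)
    (h : c i = c i') : dg S i = dg S i' := by
  classical
  have h1 : ∀ j, S.r i j ↔ S.r i' j := fun j =>
    ⟨fun h2 => hS i i' j j h rfl h2, fun h2 => hS i' i j j h.symm rfl h2⟩
  have h2 : ∀ j, S.r j i ↔ S.r j i' := fun j =>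
    ⟨fun h2 => hS j j i i' rfl h h2, fun h2 => hS j j i' i rfl h.symm h2⟩
  unfold dg
  simp only [h1, h2]

theorem ModMain_e {ι : Type} {S : Pat κ} {c : κ → ι} (hS : S.Dep c) :
    ∃ e : ι → ℤ, ∀ i, e (c i) = dg S i := by
  classical
  refine ⟨fun k => if h : ∃ i, c i = k then dg S h.choose else 0, fun i => ?_⟩
  have h : ∃ i', c i' = c i := ⟨i, rfl⟩
  show (if h : ∃ i', c i' = c i then dg S h.choose else 0) = _
  rw [dif_pos h]
  exact ModMain_dg hS _ _ h.choose_spec

theorem ModMain_q : (qF F : ℝ) ≠ 0 := by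
  have h := one_lt_qF (F := F)
  have h2 : (qF F : ℝ) ≠ 0 := by
    intro h3
    have h4 : qF F = 0 := by exact_mod_cast h3
    omega
  exact h2

open Classical in
/-- the modulus of a Levi subgroup on a pattern group -/
theorem mdl_uniS {ι : Type} {S : Pat κ} {c : κ → ι} (hS : S.Dep c) (e : ι → ℤ)
    (he : ∀ i, e (c i) = dg S i) (m : GL κ F) (hm : m ∈ lev F c) :
    mdl (uniS F S) m =
      (qF F : ℝ) ^ (- ∑ k ∈ Finset.univ.image c, e k * bord c k m) := by
  obtain ⟨l, h1, h2⟩ := ModMain_cartan c m hm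
  rw [h1 S hS]
  congr 2
  rw [← Finset.sum_fiberwise_of_maps_to (s := Finset.univ) (t := Finset.univ.image c) (g := c)
    (fun x _ => Finset.mem_image_of_mem c (Finset.mem_univ x))]
  apply Finset.sum_congr rfl
  intro k _
  rw [h2 k, Finset.mul_sum]
  apply Finset.sum_congr rfl
  intro a ha
  rw [← he a, (Finset.mem_filter.1 ha).2]

open Classical in
theorem mdl_uni {ι ι' : Type} (c : κ → ι) (cb : κ → ι') (o : κ → ℤ)
    (h : ∀ i j, c i = c j → cb i = cb j ∧ o i = o j) (e : ι → ℤ)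
    (he : ∀ i, e (c i) = dg (patO cb o) i) (m : GL κ F) (hm : m ∈ lev F c) :
    mdl (uni F cb o) m =
      (qF F : ℝ) ^ (- ∑ k ∈ Finset.univ.image c, e k * bord c k m) := by
  rw [uni_eq_uniS]
  exact mdl_uniS (dep_patO c cb o h) e he m hm

/-- opposite pattern: inverse modulus -/
theorem mdl_op {ι : Type} {S : Pat κ} {c : κ → ι} (hS : S.Dep c) (m : GL κ F)
    (hm : m ∈ lev F c) : mdl (uniS F S.op) m = (mdl (uniS F S) m)⁻¹ := by
  classical
  obtain ⟨l, h1, -⟩ := ModMain_cartan c m hm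
  have hS' : S.op.Dep c := fun i i' j j' hi hj h => hS j j' i i' hj hi h
  have h3 : ∀ a, dg S.op a = - dg S a := by
    intro a
    unfold dg Pat.op
    ring
  rw [h1 S hS, h1 S.op hS', ← _root_.zpow_neg]
  congr 1
  simp only [h3, neg_mul, Finset.sum_neg_distrib]

/-- the modulus of a disjoint union of patterns is the product -/
theorem mdl_add {ι : Type} {S S₁ S₂ : Pat κ} {c : κ → ι} (hS₁ : S₁.Dep c) (hS₂ : S₂.Dep c)
    (h : ∀ i j, S.r i j ↔ S₁.r i j ∨ S₂.r i j) (hd : ∀ i j, S₁.r i j → ¬ S₂.r i j)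
    (m : GL κ F) (hm : m ∈ lev F c) :
    mdl (uniS F S) m = mdl (uniS F S₁) m * mdl (uniS F S₂) m := by
  classical
  obtain ⟨l, h1, -⟩ := ModMain_cartan c m hm
  have hS : S.Dep c := by
    intro i i' j j' hi hj h2
    rcases (h i j).1 h2 with h3 | h3
    · exact (h i' j').2 (Or.inl (hS₁ i i' j j' hi hj h3))
    · exact (h i' j').2 (Or.inr (hS₂ i i' j j' hi hj h3))
  have h3 : ∀ a, dg S a = dg S₁ a + dg S₂ a := by
    intro a
    have e1 : (Finset.univ.filter fun j => S.r a j).card =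
        (Finset.univ.filter fun j => S₁.r a j).card +
          (Finset.univ.filter fun j => S₂.r a j).card := by
      rw [← Finset.card_union_of_disjoint, ← Finset.filter_or]
      · simp only [h]
      · exact Finset.disjoint_filter.2 fun j _ h4 => hd a j h4
    have e2 : (Finset.univ.filter fun j => S.r j a).card =
        (Finset.univ.filter fun j => S₁.r j a).card +
          (Finset.univ.filter fun j => S₂.r j a).card := by
      rw [← Finset.card_union_of_disjoint, ← Finset.filter_or]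
      · simp only [h]
      · exact Finset.disjoint_filter.2 fun j _ h4 => hd j a h4
    unfold dg
    rw [e1, e2]
    push_cast
    ring
  rw [h1 S hS, h1 S₁ hS₁, h1 S₂ hS₂, ← zpow_add₀ ModMain_q]
  congr 1
  simp only [h3, add_mul, Finset.sum_add_distrib]
  ring

/-- elements of compact subgroups and unipotent elements of the Levi subgroup have modulus `1` -/
theorem mdl_uni_one {ι : Type} {S S' : Pat κ} {c : κ → ι} (hS : S.Dep c) (m : GL κ F)
    (hm : m ∈ lev F c) (hm' : m ∈ uniS F S') : mdl (uniS F S) m = 1 := by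
  classical
  obtain ⟨e, he⟩ := ModMain_e hS
  rw [mdl_uniS hS e he m hm]
  have h1 : ∀ k ∈ Finset.univ.image c, e k * bord c k m = 0 := by
    intro k _
    rw [bord_uniS c k m hm', mul_zero]
  rw [Finset.sum_congr rfl h1, Finset.sum_const_zero, neg_zero, zpow_zero]

end

end Pool.Agent.Lib.MP_ca1492_al.P
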