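import Mathlib
import Pool.Agent.Lib.MP_ca1492_al.P.CGLb
import Pool.Agent.Lib.MP_ca1492_al.P.Fact
import Pool.Agent.Lib.MP_ca1492_al.P.ModMain

/-!
# MP_ca1492_al, p-adic side, module ModCell: the modulus factor of the cell data `glCD`

`chi_eq_mdl`: the two definitions of the modulus agree.
`glCD_chi`: for the cell data `D = glCD cb o₁ c₂ o₂ h₂ w hw` the factor
`chi (D.N₀ ⊓ D.B) m * (chi D.N₀ m)⁻¹` is the inverse of the modulus of `m` on the pattern group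
`uni cb o₂ ∩ w⁻¹ (uni cb (-o₁)) w`.
-/

set_option autoImplicit false

namespace Pool.Agent.Lib.MP_ca1492_al.P

open Topology Matrix ValuativeRel

noncomputable section

theorem chi_eq_mdl {G : Type} [Group G] [TopologicalSpace G] [IsTopologicalGroup G]
    {N A : Subgroup G} (hA : CO N A) {m : G} (hm : Nrm N m) :
    chi A m = ((mdl N m : ℝ) : ℂ) := by
  rw [mdl_eq hA hm]
  unfold chi gi
  show (((A ⊓ cj m A).relIndex (cj m A) : ℕ) : ℂ) * (((A ⊓ cj m A).relIndex A : ℕ) : ℂ)⁻¹ = _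
  rw [Subgroup.inf_relIndex_right, Subgroup.inf_relIndex_left, Complex.ofReal_div,
    Complex.ofReal_natCast, Complex.ofReal_natCast, div_eq_mul_inv]

theorem chi_subgroupOf {G : Type} [Group G] (H A : Subgroup G) (hA : A ≤ H) (m : H) :
    chi (A.subgroupOf H) m = chi A (m : G) := by
  have h1 : (A.subgroupOf H).map H.subtype = A := by
    rw [Subgroup.subgroupOf_map_subtype, inf_eq_left.2 hA]
  have h2 : ((A.subgroupOf H).map (MulAut.conj m).toMonoidHom).map H.subtype =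
      A.map (MulAut.conj (m : G)).toMonoidHom := by
    rw [Subgroup.map_map]
    conv_rhs => rw [← h1]
    rw [Subgroup.map_map]
    congr 1
  have h3 : ∀ X Y : Subgroup H, (X.map H.subtype ⊓ Y.map H.subtype).relIndex
      (Y.map H.subtype) = (X ⊓ Y).relIndex Y := by
    intro X Y
    rw [← Subgroup.map_inf _ _ _ H.subtype_injective]
    exact Subgroup.relIndex_map_map_of_injective _ _ H.subtype_injective
  have h4 : ∀ X Y : Subgroup H, (X.map H.subtype ⊓ Y.map H.subtype).relIndex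
      (X.map H.subtype) = (X ⊓ Y).relIndex X := by
    intro X Y
    rw [← Subgroup.map_inf _ _ _ H.subtype_injective]
    exact Subgroup.relIndex_map_map_of_injective _ _ H.subtype_injective
  unfold chi
  rw [← h3, ← h4, h1, h2]

variable {F : Type} [Field F] [ValuativeRel F] [TopologicalSpace F]
  [IsNonarchimedeanLocalField F]
variable {κ : Type} [Fintype κ] [DecidableEq κ]

/-- `chi` on the compact open subgroup `uniS F S ⊓ Kc F κ 0` -/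
theorem chi_pat {ι : Type} {S : Pat κ} {c : κ → ι} (hS : S.Dep c) (m : GL κ F)
    (hm : m ∈ lev F c) : chi (uniS F S ⊓ Kc F κ 0) m = ((mdl (uniS F S) m : ℝ) : ℂ) :=
  chi_eq_mdl (co_uniS S 0) (nrm_uniS hS m hm)

theorem dep_patUp {ι ι' : Type} (c : κ → ι) (cb : κ → ι') (o o' : κ → ℤ)
    (h : ∀ i j, c i = c j → cb i = cb j ∧ o i = o j ∧ o' i = o' j) : (patUp cb o o').Dep c := by
  rintro i i' j j' hi hj ⟨h1, h2, h3⟩
  obtain ⟨a1, a2, a3⟩ := h i i' hi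
  obtain ⟨b1, b2, b3⟩ := h j j' hj
  exact ⟨by rw [← a1, ← b1, h1], by rw [← a2, ← b2]; exact h2, by rw [← a3, ← b3]; exact h3⟩

theorem dep_patDn {ι ι' : Type} (c : κ → ι) (cb : κ → ι') (o o' : κ → ℤ)
    (h : ∀ i j, c i = c j → cb i = cb j ∧ o i = o j ∧ o' i = o' j) : (patDn cb o o').Dep c := by
  rintro i i' j j' hi hj ⟨h1, h2, h3⟩
  obtain ⟨a1, a2, a3⟩ := h i i' hi
  obtain ⟨b1, b2, b3⟩ := h j j' hj
  exact ⟨by rw [← a1, ← b1, h1], by rw [← a2, ← b2]; exact h2, by rw [← a3, ← b3]; exact h3⟩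

/-- `N₀` of the cell data -/
theorem glCD_N₀ {ι₀ ι₂ : Type} (cb : κ → ι₀) (o₁ : κ → ℤ) (c₂ : κ → ι₂) (o₂ : κ → ℤ)
    (h₂ : ∀ i j, c₂ i = c₂ j ↔ cb i = cb j ∧ o₂ i = o₂ j) (w : Equiv.Perm κ)
    (hw : ∀ i, cb (w i) = cb i) :
    (glCD (F := F) cb o₁ c₂ o₂ h₂ w hw).N₀ =
      (uniS F (patO cb o₂) ⊓ Kc F κ 0).subgroupOf (lev F cb) := by
  rw [← uni_eq_uniS]
  rfl

/-- `N₀ ∩ B` of the cell data -/
theorem glCD_B {ι₀ ι₂ : Type} (cb : κ → ι₀) (o₁ : κ → ℤ) (c₂ : κ → ι₂) (o₂ : κ → ℤ)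
    (h₂ : ∀ i j, c₂ i = c₂ j ↔ cb i = cb j ∧ o₂ i = o₂ j) (w : Equiv.Perm κ)
    (hw : ∀ i, cb (w i) = cb i) :
    (glCD (F := F) cb o₁ c₂ o₂ h₂ w hw).B =
      (uniS F (patUp cb o₂ (fun i => o₁ (w i)))).subgroupOf (lev F cb) := by
  have hcw : cb ∘ w = cb := funext hw
  rw [uniS_patUp]
  ext x
  have h1 : x ∈ cjS (glCD (F := F) cb o₁ c₂ o₂ h₂ w hw).w
      (glCD (F := F) cb o₁ c₂ o₂ h₂ w hw).P ↔ permG F w * (x : GL κ F) * (permG F w)⁻¹ ∈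
        upp F cb o₁ := mem_cjS
  have h2 : permG F w * (x : GL κ F) * (permG F w)⁻¹ ∈ upp F cb o₁ ↔
      (x : GL κ F) ∈ upp F cb (fun i => o₁ (w i)) := by
    rw [← upp_perm cb o₁ w, hcw]
    have h3 : (permG F w)⁻¹ * (permG F w * (x : GL κ F) * (permG F w)⁻¹) * permG F w = x := by
      group
    rw [h3]
    rfl
  unfold CD.B
  rw [Subgroup.mem_inf, h1, h2, Subgroup.mem_subgroupOf, Subgroup.mem_inf]
  rfl

/-- `N₀ ∩ B` of the cell data -/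
theorem glCD_N₀B {ι₀ ι₂ : Type} (cb : κ → ι₀) (o₁ : κ → ℤ) (c₂ : κ → ι₂) (o₂ : κ → ℤ)
    (h₂ : ∀ i j, c₂ i = c₂ j ↔ cb i = cb j ∧ o₂ i = o₂ j) (w : Equiv.Perm κ)
    (hw : ∀ i, cb (w i) = cb i) :
    (glCD (F := F) cb o₁ c₂ o₂ h₂ w hw).N₀ ⊓ (glCD (F := F) cb o₁ c₂ o₂ h₂ w hw).B =
      (uniS F (patUp cb o₂ (fun i => o₁ (w i))) ⊓ Kc F κ 0).subgroupOf (lev F cb) := by
  rw [glCD_N₀, glCD_B]
  ext x
  rw [Subgroup.mem_inf, Subgroup.mem_subgroupOf, Subgroup.mem_subgroupOf,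
    Subgroup.mem_subgroupOf, Subgroup.mem_inf, Subgroup.mem_inf]
  constructor
  · rintro ⟨⟨-, h1⟩, h2⟩
    exact ⟨h2, h1⟩
  · rintro ⟨h2, h1⟩
    have h3 : uniS F (patUp cb o₂ (fun i => o₁ (w i))) ≤ uniS F (patO cb o₂) :=
      uniS_mono fun i j h => ⟨h.1, h.2.1⟩
    exact ⟨⟨h3 h2, h1⟩, h2⟩

/-- the modulus factor of the live cell -/
theorem glCD_chi {ι₀ ι₂ ι : Type} (cb : κ → ι₀) (o₁ : κ → ℤ) (c₂ : κ → ι₂) (o₂ : κ → ℤ)
    (h₂ : ∀ i j, c₂ i = c₂ j ↔ cb i = cb j ∧ o₂ i = o₂ j) (w : Equiv.Perm κ)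
    (hw : ∀ i, cb (w i) = cb i) (c : κ → ι)
    (hc : ∀ i j, c i = c j → cb i = cb j ∧ o₂ i = o₂ j ∧ o₁ (w i) = o₁ (w j))
    (m : lev F cb) (hm : (m : GL κ F) ∈ lev F c) :
    chi ((glCD (F := F) cb o₁ c₂ o₂ h₂ w hw).N₀ ⊓ (glCD (F := F) cb o₁ c₂ o₂ h₂ w hw).B) m *
      (chi (glCD (F := F) cb o₁ c₂ o₂ h₂ w hw).N₀ m)⁻¹ =
      (((mdl (uniS F (patDn cb o₂ (fun i => o₁ (w i)))) (m : GL κ F))⁻¹ : ℝ) : ℂ) := by
  have hO : (patO cb o₂).Dep c := dep_patO c cb o₂ fun i j h => ⟨(hc i j h).1, (hc i j h).2.1⟩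
  have hU : (patUp cb o₂ (fun i => o₁ (w i))).Dep c := dep_patUp c cb o₂ _ hc
  have hD : (patDn cb o₂ (fun i => o₁ (w i))).Dep c := dep_patDn c cb o₂ _ hc
  have hle : ∀ S : Pat κ, (∀ i j, S.r i j → cb i = cb j) →
      uniS F S ⊓ Kc F κ 0 ≤ lev F cb := fun S h => inf_le_left.trans (uniS_le_lev h)
  have k1 : uniS F (patUp cb o₂ (fun i => o₁ (w i))) ⊓ Kc F κ 0 ≤ lev F cb :=
    hle _ fun i j h => h.1
  have k2 : uniS F (patO cb o₂) ⊓ Kc F κ 0 ≤ lev F cb := hle _ fun i j h => h.1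
  rw [glCD_N₀B, glCD_N₀, chi_subgroupOf _ _ k1, chi_subgroupOf _ _ k2, chi_pat hU _ hm,
    chi_pat hO _ hm]
  have h1 : mdl (uniS F (patO cb o₂)) (m : GL κ F) =
      mdl (uniS F (patUp cb o₂ (fun i => o₁ (w i)))) (m : GL κ F) *
        mdl (uniS F (patDn cb o₂ (fun i => o₁ (w i)))) (m : GL κ F) := by
    refine mdl_add hU hD (fun i j => ?_) (fun i j h h' => ?_) _ hm
    · constructor
      · intro h
        rcases le_or_gt (o₁ (w i)) (o₁ (w j)) with h' | h'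
        · exact Or.inl ⟨h.1, h.2, h'⟩
        · exact Or.inr ⟨h.1, h.2, h'⟩
      · rintro (h | h)
        · exact ⟨h.1, h.2.1⟩
        · exact ⟨h.1, h.2.1⟩
    · exact absurd h'.2.2 (not_lt.2 h.2.2)
  have h2 : (mdl (uniS F (patUp cb o₂ (fun i => o₁ (w i)))) (m : GL κ F)) ≠ 0 :=
    (mdl_pos (nrm_uniS hU _ hm)).ne'
  have h3 : (mdl (uniS F (patDn cb o₂ (fun i => o₁ (w i)))) (m : GL κ F)) ≠ 0 :=
    (mdl_pos (nrm_uniS hD _ hm)).ne'
  rw [h1, ← Complex.ofReal_inv, ← Complex.ofReal_mul]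
  congr 1
  field_simp

end

end Pool.Agent.Lib.MP_ca1492_al.P
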