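import Mathlib
import Pool.Agent.Lib.MP_ca1492_al.P.CFun
import Pool.Agent.Lib.MP_ca1492_al.P.ModCell

/-!
# MP_ca1492_al, p-adic side, module CNorm: normalisation

`dlt c cb o h` = modulus character of `lev F c` on `uni F cb o` (values `mdl (uni F cb o) m`);
`dlh` its positive square root. `dlt_vl`, `dlh_vl`: formulas in the block valuations `vl c m x`.
`cfac_eq`: the factor of the live cell is the modulus on `patDn cb o₂ (o₁ ∘ w)`.
`cfac_sq`, `cfac_half`: normalisation of the live cell in the associate case.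
-/

set_option autoImplicit false

namespace Pool.Agent.Lib.MP_ca1492_al.P

open Topology Matrix ValuativeRel

noncomputable section

variable {F : Type} [Field F] [ValuativeRel F] [TopologicalSpace F]
  [IsNonarchimedeanLocalField F]
variable {κ : Type} [Fintype κ] [DecidableEq κ]

/-- the two block determinants agree -/
theorem bdk_eq_bdet {ι : Type} [DecidableEq ι] (c : κ → ι) (x : ι) (g : Matrix κ κ F) :
    bdk c x g = bdet c x g := by
  rw [Bdet_block]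
  unfold bdet
  have h1 : g.toSquareBlock c x =
      g.submatrix (Subtype.val : {i // c i = x} → κ) Subtype.val := rfl
  rw [h1]
  exact Bdet_inst _ _ _ _ _

theorem bord_eq_vl {ι : Type} [DecidableEq ι] (c : κ → ι) (x : ι) (g : GL κ F) :
    bord c x g = vl c g x := by
  unfold bord vl
  rw [bdk_eq_bdet]

/-- modulus on a pattern group in terms of the block valuations -/
theorem mdl_uniS_vl {ι : Type} [DecidableEq ι] {S : Pat κ} {c : κ → ι} (hS : S.Dep c)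
    (e : ι → ℤ) (he : ∀ i, e (c i) = dg S i) (m : GL κ F) (hm : m ∈ lev F c) :
    mdl (uniS F S) m = (qF F : ℝ) ^ (- ∑ x ∈ Finset.univ.image c, e x * vl c m x) := by
  rw [mdl_uniS hS e he m hm]
  simp only [bord_eq_vl]
  exact congrArg (fun s : Finset ι => (qF F : ℝ) ^ (- ∑ x ∈ s, e x * vl c m x))
    (Finset.ext fun x => by simp only [Finset.mem_image])

theorem Nrm_uni {ι ι' : Type} (c : κ → ι) (cb : κ → ι') (o : κ → ℤ)
    (h : ∀ i j, c i = c j ↔ cb i = cb j ∧ o i = o j) (m : GL κ F) (hm : m ∈ lev F c) :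
    Nrm (uni F cb o) m := by
  rw [uni_eq_uniS]
  exact nrm_uniS (dep_patO c cb o fun i j hij => (h i j).1 hij) m hm

/-- the modulus character of `lev F c` on `uni F cb o` -/
def dlt {ι ι' : Type} (c : κ → ι) (cb : κ → ι') (o : κ → ℤ)
    (h : ∀ i j, c i = c j ↔ cb i = cb j ∧ o i = o j) : lev F c →* ℂˣ where
  toFun m := Units.mk0 ((mdl (uni F cb o) (m : GL κ F) : ℝ) : ℂ)
    (Complex.ofReal_ne_zero.2 (mdl_pos (Nrm_uni c cb o h m.1 m.2)).ne')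
  map_one' := by
    apply Units.ext
    show ((mdl (uni F cb o) (1 : GL κ F) : ℝ) : ℂ) = 1
    rw [mdl_one, Complex.ofReal_one]
  map_mul' := by
    intro a b
    apply Units.ext
    show ((mdl (uni F cb o) ((a : GL κ F) * b) : ℝ) : ℂ) =
      ((mdl (uni F cb o) (a : GL κ F) : ℝ) : ℂ) * ((mdl (uni F cb o) (b : GL κ F) : ℝ) : ℂ)
    rw [mdl_mul (Nrm_uni c cb o h a.1 a.2) (Nrm_uni c cb o h b.1 b.2), Complex.ofReal_mul]

/-- the square root of the modulus character -/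
def dlh {ι ι' : Type} (c : κ → ι) (cb : κ → ι') (o : κ → ℤ)
    (h : ∀ i j, c i = c j ↔ cb i = cb j ∧ o i = o j) : lev F c →* ℂˣ where
  toFun m := Units.mk0 ((Real.sqrt (mdl (uni F cb o) (m : GL κ F)) : ℝ) : ℂ)
    (Complex.ofReal_ne_zero.2 (Real.sqrt_pos.2 (mdl_pos (Nrm_uni c cb o h m.1 m.2))).ne')
  map_one' := by
    apply Units.ext
    show ((Real.sqrt (mdl (uni F cb o) (1 : GL κ F)) : ℝ) : ℂ) = 1
    rw [mdl_one, Real.sqrt_one, Complex.ofReal_one]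
  map_mul' := by
    intro a b
    apply Units.ext
    show ((Real.sqrt (mdl (uni F cb o) ((a : GL κ F) * b)) : ℝ) : ℂ) =
      ((Real.sqrt (mdl (uni F cb o) (a : GL κ F)) : ℝ) : ℂ) *
        ((Real.sqrt (mdl (uni F cb o) (b : GL κ F)) : ℝ) : ℂ)
    rw [mdl_mul (Nrm_uni c cb o h a.1 a.2) (Nrm_uni c cb o h b.1 b.2),
      Real.sqrt_mul (mdl_pos (Nrm_uni c cb o h a.1 a.2)).le, Complex.ofReal_mul]

section

variable {ι ι' : Type} (c : κ → ι) (cb : κ → ι') (o : κ → ℤ)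
  (h : ∀ i j, c i = c j ↔ cb i = cb j ∧ o i = o j)

theorem dlt_val (m : lev F c) :
    (dlt c cb o h m : ℂ) = ((mdl (uni F cb o) (m : GL κ F) : ℝ) : ℂ) := rfl

theorem dlh_val (m : lev F c) :
    (dlh c cb o h m : ℂ) = ((Real.sqrt (mdl (uni F cb o) (m : GL κ F)) : ℝ) : ℂ) := rfl

theorem dlh_sq (m : lev F c) : dlh c cb o h m * dlh c cb o h m = dlt c cb o h m := by
  apply Units.ext
  rw [Units.val_mul, dlh_val, dlt_val, ← Complex.ofReal_mul,
    Real.mul_self_sqrt (mdl_pos (Nrm_uni c cb o h m.1 m.2)).le]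

theorem dlt_Kc (m : lev F c) (hm : (m : GL κ F) ∈ Kc F κ 0) : dlt c cb o h m = 1 := by
  apply Units.ext
  have h1 : mdl (uni F cb o) (m : GL κ F) = 1 := by
    rw [uni_eq_uniS]
    exact ModMain_Kc (dep_patO c cb o fun i j hij => (h i j).1 hij) m.1 m.2 hm
  rw [dlt_val, h1, Complex.ofReal_one, Units.val_one]

theorem dlh_Kc (m : lev F c) (hm : (m : GL κ F) ∈ Kc F κ 0) : dlh c cb o h m = 1 := by
  apply Units.ext
  have h1 : mdl (uni F cb o) (m : GL κ F) = 1 := by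
    rw [uni_eq_uniS]
    exact ModMain_Kc (dep_patO c cb o fun i j hij => (h i j).1 hij) m.1 m.2 hm
  rw [dlh_val, h1, Real.sqrt_one, Complex.ofReal_one, Units.val_one]

theorem CNorm_open {χ : lev F c →* ℂˣ} (hχ : ∀ m : lev F c, (m : GL κ F) ∈ Kc F κ 0 → χ m = 1) :
    IsOpen {m : lev F c | χ m = 1} := by
  have h2 : IsOpen ((χ.ker : Subgroup (lev F c)) : Set (lev F c)) := by
    refine Subgroup.isOpen_of_mem_nhds _ (g := 1) ?_
    refine Filter.mem_of_superset ((((Kc_isOpen (F := F) (κ := κ) 0).preimage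
      (continuous_subtype_val (p := fun x => x ∈ lev F c))).mem_nhds ?_)) ?_
    · exact (Kc F κ 0).one_mem
    · intro m hm
      exact hχ m hm
  exact h2

theorem dlt_open : IsOpen {m : lev F c | dlt c cb o h m = 1} :=
  CNorm_open c (dlt_Kc c cb o h)

theorem dlh_open : IsOpen {m : lev F c | dlh c cb o h m = 1} :=
  CNorm_open c (dlh_Kc c cb o h)

/-- the exponents of the modulus -/
theorem dlt_vl [DecidableEq ι] (e : ι → ℤ) (he : ∀ i, e (c i) = dg (patO cb o) i)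
    (m : lev F c) : (dlt c cb o h m : ℂ) =
      (((qF F : ℝ) ^ (- ∑ x ∈ Finset.univ.image c, e x * vl c m.1 x) : ℝ) : ℂ) := by
  rw [dlt_val, uni_eq_uniS, mdl_uniS_vl (dep_patO c cb o fun i j hij => (h i j).1 hij) e he
    m.1 m.2]

theorem dlh_vl [DecidableEq ι] (e : ι → ℤ) (he : ∀ i, e (c i) = dg (patO cb o) i)
    (m : lev F c) : (dlh c cb o h m : ℂ) =
      (((qF F : ℝ) ^ (((- ∑ x ∈ Finset.univ.image c, e x * vl c m.1 x : ℤ) : ℝ) / 2) : ℝ) : ℂ) := by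
  have hq : (0 : ℝ) ≤ (qF F : ℝ) := Nat.cast_nonneg _
  rw [dlh_val, uni_eq_uniS, mdl_uniS_vl (dep_patO c cb o fun i j hij => (h i j).1 hij) e he
    m.1 m.2, Real.sqrt_eq_rpow, ← Real.rpow_intCast, ← Real.rpow_mul hq]
  congr 2
  ring

end

/-! ### the factor of the live cell -/

section

variable {ι₀ ι₁ ι₂ : Type} (cb : κ → ι₀) (c₁ : κ → ι₁) (o₁ : κ → ℤ)
  (h₁ : ∀ i j, c₁ i = c₁ j ↔ cb i = cb j ∧ o₁ i = o₁ j) (c₂ : κ → ι₂) (o₂ : κ → ℤ)
  (h₂ : ∀ i j, c₂ i = c₂ j ↔ cb i = cb j ∧ o₂ i = o₂ j) (w : Equiv.Perm κ)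
  (hw : ∀ i, cb (w i) = cb i)

include h₁ h₂ in
theorem CNorm_c₂ (hl : ∀ i j, c₁ (w i) = c₁ (w j) ↔ c₂ i = c₂ j) (i j : κ) (hij : c₂ i = c₂ j) :
    cb i = cb j ∧ o₂ i = o₂ j ∧ o₁ (w i) = o₁ (w j) := by
  obtain ⟨h3, h4⟩ := (h₂ i j).1 hij
  exact ⟨h3, h4, ((h₁ (w i) (w j)).1 ((hl i j).2 hij)).2⟩

include h₁ in
theorem cfac_eq (hl : ∀ i j, c₁ (w i) = c₁ (w j) ↔ c₂ i = c₂ j) (m : lev F cb)
    (hm : m.1 ∈ lev F c₂) : cfac cb o₁ c₂ o₂ h₂ w hw m =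
      ((mdl (uniS F (patDn cb o₂ (fun i => o₁ (w i)))) m.1 : ℝ) : ℂ) := by
  have hc := CNorm_c₂ cb c₁ o₁ h₁ c₂ o₂ h₂ w hl
  unfold cfac
  rw [glCD_chi cb o₁ c₂ o₂ h₂ w hw c₂ hc m⁻¹ ((lev F c₂).inv_mem hm)]
  have h3 : ((m⁻¹ : lev F cb) : GL κ F) = (m.1)⁻¹ := rfl
  rw [h3, mdl_inv (nrm_uniS (dep_patDn c₂ cb o₂ _ hc) m.1 hm), inv_inv]

include h₁ h₂ hw in
theorem cfac_real (hl : ∀ i j, c₁ (w i) = c₁ (w j) ↔ c₂ i = c₂ j) (m : GL κ F)
    (hm : m ∈ lev F c₂) :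
    mdl (uni F cb o₂) m = mdl (uniS F (patDn cb o₂ (fun i => o₁ (w i)))) m *
      mdl (uniS F (patDn cb o₂ (fun i => o₁ (w i)))) m * mdl (uni F cb (fun i => o₁ (w i))) m := by
  have hc := CNorm_c₂ cb c₁ o₁ h₁ c₂ o₂ h₂ w hl
  have hU : (patUp cb o₂ (fun i => o₁ (w i))).Dep c₂ := dep_patUp c₂ cb o₂ _ hc
  have hD : (patDn cb o₂ (fun i => o₁ (w i))).Dep c₂ := dep_patDn c₂ cb o₂ _ hc
  have hD' : (patDn cb o₂ (fun i => o₁ (w i))).op.Dep c₂ :=
    fun i i' j j' hi hj h => hD j j' i i' hj hi h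
  have hne : ∀ i j, cb i = cb j → o₁ (w i) = o₁ (w j) → o₂ i = o₂ j := by
    intro i j h3 h4
    exact ((h₂ i j).1 ((hl i j).1 ((h₁ (w i) (w j)).2 ⟨by rw [hw, hw, h3], h4⟩))).2
  have h3 : mdl (uniS F (patO cb o₂)) m =
      mdl (uniS F (patUp cb o₂ (fun i => o₁ (w i)))) m *
        mdl (uniS F (patDn cb o₂ (fun i => o₁ (w i)))) m := by
    refine mdl_add hU hD (fun i j => ?_) (fun i j h h' => ?_) _ hm
    · constructor
      · intro h
        rcases le_or_gt (o₁ (w i)) (o₁ (w j)) with h' | h'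
        · exact Or.inl ⟨h.1, h.2, h'⟩
        · exact Or.inr ⟨h.1, h.2, h'⟩
      · rintro (h | h)
        · exact ⟨h.1, h.2.1⟩
        · exact ⟨h.1, h.2.1⟩
    · exact absurd h'.2.2 (not_lt.2 h.2.2)
  have h4 : mdl (uniS F (patO cb (fun i => o₁ (w i)))) m =
      mdl (uniS F (patUp cb o₂ (fun i => o₁ (w i)))) m *
        mdl (uniS F (patDn cb o₂ (fun i => o₁ (w i))).op) m := by
    refine mdl_add hU hD' (fun i j => ?_) (fun i j h h' => ?_) _ hm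
    · constructor
      · rintro ⟨h5, h6⟩
        have h6' : o₁ (w i) < o₁ (w j) := h6
        rcases lt_trichotomy (o₂ i) (o₂ j) with h' | h' | h'
        · exact Or.inl ⟨h5, h', h6'.le⟩
        · exact absurd (hc i j ((h₂ i j).2 ⟨h5, h'⟩)).2.2 h6'.ne
        · exact Or.inr ⟨h5.symm, h', h6'⟩
      · rintro (h | h)
        · refine ⟨h.1, lt_of_le_of_ne h.2.2 fun h7 => ?_⟩
          exact absurd (hne i j h.1 h7) h.2.1.ne
        · exact ⟨h.1.symm, h.2.2⟩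
    · exact absurd h'.2.1 (not_lt.2 h.2.1.le)
  have hDp : mdl (uniS F (patDn cb o₂ (fun i => o₁ (w i)))) m ≠ 0 :=
    (mdl_pos (nrm_uniS hD _ hm)).ne'
  rw [uni_eq_uniS, uni_eq_uniS, h3, h4, mdl_op hD m hm]
  field_simp

include h₁ h₂ hw in
/-- conjugation by the permutation matrix -/
theorem mdl_uni_conj (hl : ∀ i j, c₁ (w i) = c₁ (w j) ↔ c₂ i = c₂ j) (m : GL κ F)
    (hm : m ∈ lev F c₂) :
    mdl (uni F cb o₁) (permG F w * m * (permG F w)⁻¹) =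
      mdl (uni F cb (fun i => o₁ (w i))) m := by
  have hcw : cb ∘ w = cb := funext hw
  have hc := CNorm_c₂ cb c₁ o₁ h₁ c₂ o₂ h₂ w hl
  have h3 : cj (permG F w) (uni F cb (fun i => o₁ (w i))) = uni F cb o₁ := by
    ext g
    rw [mem_cj, ← uni_perm cb o₁ w g, hcw]
    rfl
  have h4 : Nrm (uni F cb (fun i => o₁ (w i))) m := by
    rw [uni_eq_uniS]
    exact nrm_uniS (dep_patO c₂ cb _ fun i j hij => ⟨(hc i j hij).1, (hc i j hij).2.2⟩) m hm
  rw [← mdl_conj h4 (permG F w), h3]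

/-- the normalisation of the live cell -/
theorem cfac_half (hl : ∀ i j, c₁ (w i) = c₁ (w j) ↔ c₂ i = c₂ j) (m : lev F cb)
    (hm : m.1 ∈ lev F c₂) : cfac cb o₁ c₂ o₂ h₂ w hw m *
      (dlh c₁ cb o₁ h₁ ⟨permG F w * m.1 * (permG F w)⁻¹, permG_conj_mem c₁ c₂ w hl m.1 hm⟩ : ℂ) =
      (dlh c₂ cb o₂ h₂ ⟨m.1, hm⟩ : ℂ) := by
  have hc := CNorm_c₂ cb c₁ o₁ h₁ c₂ o₂ h₂ w hl
  have hD : (patDn cb o₂ (fun i => o₁ (w i))).Dep c₂ := dep_patDn c₂ cb o₂ _ hc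
  have hDp : 0 ≤ mdl (uniS F (patDn cb o₂ (fun i => o₁ (w i)))) m.1 :=
    (mdl_pos (nrm_uniS hD _ hm)).le
  rw [cfac_eq cb c₁ o₁ h₁ c₂ o₂ h₂ w hw hl m hm, dlh_val, dlh_val, ← Complex.ofReal_mul]
  congr 1
  show _ * Real.sqrt (mdl (uni F cb o₁) (permG F w * m.1 * (permG F w)⁻¹)) =
    Real.sqrt (mdl (uni F cb o₂) m.1)
  rw [mdl_uni_conj cb c₁ o₁ h₁ c₂ o₂ h₂ w hw hl m.1 hm,
    cfac_real cb c₁ o₁ h₁ c₂ o₂ h₂ w hw hl m.1 hm,
    Real.sqrt_mul (mul_nonneg hDp hDp), Real.sqrt_mul_self hDp]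

end

end

end Pool.Agent.Lib.MP_ca1492_al.P
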