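import Mathlib
import Pool.Agent.Lib.MP_ca1492_al.P.SmBasic

/-!
# MP_ca1492_al, p-adic side, module SmCat: the abelian category of smooth representations

`SmRep G` = full subcategory of `Rep ℂ G` of the smooth representations. It is closed under
subobjects, quotients and finite products: kernels, cokernels and finite (bi)products in `Rep ℂ G`
are computed on the underlying spaces; use `smooth_of_inj` (kernel `ι` is injective on elements),
`smooth_of_surj` (cokernel `π` is surjective), and for products the projections: an object `X`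
with finitely many morphisms `p_i` to smooth objects which are jointly injective is smooth
(`X → ∏ X_i`, stabilizer of `x` contains the finite intersection of the stabilizers of `p_i x`).
Then `Abelian (SmRep G)` is an instance (`Mathlib.CategoryTheory.Abelian.Subcategory`).
-/

set_option autoImplicit false

namespace Pool.Agent.Lib.MP_ca1492_al.P

open Topology CategoryTheory

noncomputable section

variable (G : Type) [Group G] [TopologicalSpace G] [IsTopologicalGroup G]

/-- smooth objects of `Rep ℂ G` -/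
def smP : ObjectProperty (Rep.{0} ℂ G) := fun A => IsSm A.ρ

theorem SmCat_sub : (smP G).IsClosedUnderSubobjects where
  prop_of_mono {X Y} f _ hY := by
    have hi : Function.Injective f.hom := (Rep.mono_iff_injective f).1 inferInstance
    exact smooth_of_inj X.ρ Y.ρ hY f.hom.toLinearMap
      (fun g v => Rep.hom_comm_apply f g v) hi

theorem SmCat_quo : (smP G).IsClosedUnderQuotients where
  prop_of_epi {X Y} f _ hX := by
    have hi : Function.Surjective f.hom := (Rep.epi_iff_surjective f).1 inferInstance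
    exact smooth_of_surj X.ρ Y.ρ hX f.hom.toLinearMap
      (fun g v => Rep.hom_comm_apply f g v) hi

/-- an object with finitely many jointly injective morphisms to smooth objects is smooth -/
theorem SmCat_joint {G : Type} [Group G] [TopologicalSpace G] {J : Type} [Finite J]
    (X : Rep.{0} ℂ G) (Y : J → Rep.{0} ℂ G) (hY : ∀ j, IsSm (Y j).ρ) (p : ∀ j, X ⟶ Y j)
    (hj : ∀ x : X, (∀ j, (p j).hom x = 0) → x = 0) : IsSm X.ρ := by
  intro x
  have h1 : {g : G | X.ρ g x = x} = ⋂ j, {g : G | (Y j).ρ g ((p j).hom x) = (p j).hom x} := by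
    ext g
    simp only [Set.mem_ofPred_eq, Set.mem_iInter]
    constructor
    · intro h j
      rw [← Rep.hom_comm_apply (p j) g x, h]
    · intro h
      have h2 := hj (X.ρ g x - x) (fun j => by
        rw [map_sub, Rep.hom_comm_apply (p j) g x, h j, sub_self])
      exact sub_eq_zero.1 h2
  rw [h1]
  exact isOpen_iInter_of_finite fun j => hY j _

/-- the projections of a limit cone over a discrete diagram are jointly injective -/
theorem SmCat_inj {G : Type} [Group G] {J : Type} (F : Discrete J ⥤ Rep.{0} ℂ G)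
    (c : Limits.Cone F) (hc : Limits.IsLimit c) (x : c.pt)
    (hx : ∀ j, (c.π.app j).hom x = 0) : x = 0 := by
  let K : Submodule ℂ c.pt := ⨅ j, LinearMap.ker (c.π.app j).hom.toLinearMap
  have hK : ∀ g, K ≤ K.comap (c.pt.ρ g) := by
    intro g y hy
    simp only [K, Submodule.mem_comap, Submodule.mem_iInf, LinearMap.mem_ker] at hy ⊢
    intro j
    have h1 := Rep.hom_comm_apply (c.π.app j) g y
    have h2 : (c.π.app j).hom y = 0 := hy j
    rw [h2, map_zero] at h1
    exact h1
  have h3 : Rep.subtype c.pt K hK = 0 := by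
    refine hc.hom_ext fun j => ?_
    rw [Limits.zero_comp]
    apply Rep.hom_ext
    apply Representation.IntertwiningMap.ext
    refine LinearMap.ext fun y => ?_
    have hy := y.2
    simp only [K, Submodule.mem_iInf, LinearMap.mem_ker] at hy
    exact hy j
  have hxK : x ∈ K := by
    simp only [K, Submodule.mem_iInf, LinearMap.mem_ker]
    exact hx
  have h4 : (Rep.subtype c.pt K hK).hom ⟨x, hxK⟩ = 0 := by
    rw [h3]
    rfl
  exact h4

instance smP_zero : (smP G).ContainsZero := by
  refine ⟨Rep.of (Representation.trivial ℂ G PUnit), ?_, ?_⟩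
  · rw [Rep.isZero_iff]
    infer_instance
  · intro v
    have h1 : {g : G | (Representation.trivial ℂ G PUnit.{1}) g v = v} = Set.univ := by
      ext g
      simp
    show IsOpen {g : G | (Representation.trivial ℂ G PUnit.{1}) g v = v}
    rw [h1]
    exact isOpen_univ

instance smP_kernels : (smP G).IsClosedUnderKernels := by
  have := SmCat_sub G
  infer_instance

instance smP_cokernels : (smP G).IsClosedUnderCokernels := by
  have := SmCat_quo G
  infer_instance

instance smP_products : (smP G).IsClosedUnderFiniteProducts where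
  isClosedUnderLimitsOfShape J _ := by
    refine ⟨?_⟩
    rintro X ⟨p⟩
    refine SmCat_joint X (fun j : J => p.diag.obj ⟨j⟩) (fun j => p.prop_diag_obj ⟨j⟩)
      (fun j => p.π.app ⟨j⟩) ?_
    intro x hx
    exact SmCat_inj p.diag p.cone p.isLimit x (fun ⟨j⟩ => hx j)

instance smP_iso : (smP G).IsClosedUnderIsomorphisms := by
  have := SmCat_sub G
  infer_instance

/-- the category of smooth complex representations of `G` -/
abbrev SmRep := (smP G).FullSubcategory

instance : Abelian (SmRep G) := inferInstance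

variable {G}

/-- an object of `SmRep G` -/
def ofSm {V : Type} [AddCommGroup V] [Module ℂ V] (π : Representation ℂ G V) (hπ : IsSm π) :
    SmRep G := ⟨Rep.of π, hπ⟩

/-- a morphism of `SmRep G` -/
def homSm {V W : Type} [AddCommGroup V] [Module ℂ V] [AddCommGroup W] [Module ℂ W]
    (π : Representation ℂ G V) (hπ : IsSm π) (σ : Representation ℂ G W) (hσ : IsSm σ)
    (f : V →ₗ[ℂ] W) (hf : Equi π σ f) : ofSm π hπ ⟶ ofSm σ hσ :=
  (smP G).homMk (Rep.ofHom ⟨f, fun g => LinearMap.ext fun v => hf g v⟩)

theorem homSm_mono {V W : Type} [AddCommGroup V] [Module ℂ V] [AddCommGroup W] [Module ℂ W]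
    (π : Representation ℂ G V) (hπ : IsSm π) (σ : Representation ℂ G W) (hσ : IsSm σ)
    (f : V →ₗ[ℂ] W) (hf : Equi π σ f) (hi : Function.Injective f) :
    Mono (homSm π hπ σ hσ f hf) := by
  have h1 : Mono ((smP G).ι.map (homSm π hπ σ hσ f hf)) :=
    (Rep.mono_iff_injective _).2 hi
  exact (smP G).ι.mono_of_mono_map h1

theorem homSm_epi {V W : Type} [AddCommGroup V] [Module ℂ V] [AddCommGroup W] [Module ℂ W]
    (π : Representation ℂ G V) (hπ : IsSm π) (σ : Representation ℂ G W) (hσ : IsSm σ)
    (f : V →ₗ[ℂ] W) (hf : Equi π σ f) (hi : Function.Surjective f) :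
    Epi (homSm π hπ σ hσ f hf) := by
  have h1 : Epi ((smP G).ι.map (homSm π hπ σ hσ f hf)) :=
    (Rep.epi_iff_surjective _).2 hi
  exact (smP G).ι.epi_of_epi_map h1

/-- a short exact sequence of representations gives a short exact sequence in `SmRep G` -/
theorem homSm_shortExact {U V W : Type} [AddCommGroup U] [Module ℂ U] [AddCommGroup V]
    [Module ℂ V] [AddCommGroup W] [Module ℂ W]
    (ρ : Representation ℂ G U) (hρ : IsSm ρ)
    (π : Representation ℂ G V) (hπ : IsSm π) (σ : Representation ℂ G W) (hσ : IsSm σ)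
    (i : U →ₗ[ℂ] V) (hi : Equi ρ π i) (p : V →ₗ[ℂ] W) (hp : Equi π σ p)
    (hinj : Function.Injective i) (hsurj : Function.Surjective p)
    (hex : LinearMap.range i = LinearMap.ker p)
    (h0 : homSm ρ hρ π hπ i hi ≫ homSm π hπ σ hσ p hp = 0) :
    (ShortComplex.mk (homSm ρ hρ π hπ i hi) (homSm π hπ σ hσ p hp) h0).ShortExact := by
  have hm : Mono (homSm ρ hρ π hπ i hi) := homSm_mono ρ hρ π hπ i hi hinj
  have he : Epi (homSm π hπ σ hσ p hp) := homSm_epi π hπ σ hσ p hp hsurj
  let e : U ≃ₗ[ℂ] LinearMap.range i := LinearEquiv.ofInjective i hinj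
  have he1 : ∀ y : LinearMap.range i, i (e.symm y) = y.1 := fun y =>
    congrArg Subtype.val (e.apply_symm_apply y)
  have hl : Limits.IsLimit (Limits.KernelFork.ofι (homSm ρ hρ π hπ i hi) h0) := by
    refine Limits.KernelFork.IsLimit.ofι' _ h0 (fun {A} k hk => ?_)
    have hk1 : ∀ a : A.obj, p (k.hom.hom a) = 0 := by
      intro a
      have h1 : (k ≫ homSm π hπ σ hσ p hp).hom.hom a =
          (0 : A ⟶ ofSm σ hσ).hom.hom a := by rw [hk]
      exact h1
    have hk2 : ∀ a : A.obj, k.hom.hom a ∈ LinearMap.range i := by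
      intro a
      rw [hex]
      exact hk1 a
    let l : A.obj →ₗ[ℂ] U :=
      e.symm.toLinearMap ∘ₗ LinearMap.codRestrict (LinearMap.range i) k.hom.hom.toLinearMap hk2
    have hl1 : ∀ a : A.obj, i (l a) = k.hom.hom a := fun a => he1 ⟨k.hom.hom a, hk2 a⟩
    have hl2 : ∀ g, l ∘ₗ A.obj.ρ g = ρ g ∘ₗ l := by
      intro g
      refine LinearMap.ext fun a => hinj ?_
      show i (l (A.obj.ρ g a)) = i (ρ g (l a))
      rw [hl1, hi, hl1]
      exact Rep.hom_comm_apply k.hom g a
    refine ⟨(smP G).homMk (Rep.ofHom (ρ := A.obj.ρ) (σ := ρ) ⟨l, hl2⟩), ?_⟩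
    apply ObjectProperty.hom_ext
    apply Rep.hom_ext
    apply Representation.IntertwiningMap.ext
    exact LinearMap.ext fun a => hl1 a
  exact { exact := ShortComplex.exact_of_f_is_kernel _ hl
          mono_f := hm
          epi_g := he }

/-- representations with the extension property are injective objects -/
theorem injective_of_isInjSm {W : Type} [AddCommGroup W] [Module ℂ W]
    (σ : Representation ℂ G W) (hσ : IsSm σ) (hi : IsInjSm σ) : Injective (ofSm σ hσ) := by
  refine ⟨fun {X Y} g f hf => ?_⟩
  have hpm := (smP G).preservesMonomorphisms_ι_of_isNormalEpiCategory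
  have h1 : Mono f.hom := hpm.preserves f
  have hinj : Function.Injective f.hom.hom := (Rep.mono_iff_injective _).1 h1
  let f1 : X.obj →ₗ[ℂ] Y.obj := f.hom.hom.toLinearMap
  have hinj1 : Function.Injective f1 := hinj
  let e : X.obj ≃ₗ[ℂ] LinearMap.range f1 := LinearEquiv.ofInjective f1 hinj1
  have he1 : ∀ y : LinearMap.range f1, f1 (e.symm y) = y.1 := fun y =>
    congrArg Subtype.val (e.apply_symm_apply y)
  have hU : Stab Y.obj.ρ (LinearMap.range f1) :=
    range_stab X.obj.ρ Y.obj.ρ f1 (fun g v => Rep.hom_comm_apply f.hom g v)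
  let g1 : X.obj →ₗ[ℂ] W := g.hom.hom.toLinearMap
  have hg1 : Equi X.obj.ρ σ g1 := fun a v => Rep.hom_comm_apply g.hom a v
  obtain ⟨F, hF1, hF2⟩ := hi Y.obj Y.obj.ρ Y.property (LinearMap.range f1) hU
    (g1 ∘ₗ e.symm.toLinearMap) (by
      intro a v
      show g1 (e.symm (subRep Y.obj.ρ (LinearMap.range f1) hU a v)) = σ a (g1 (e.symm v))
      rw [← hg1]
      congr 1
      apply hinj1
      rw [he1]
      show Y.obj.ρ a v.1 = f1 (X.obj.ρ a (e.symm v))
      have h2 : f1 (X.obj.ρ a (e.symm v)) = Y.obj.ρ a (f1 (e.symm v)) :=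
        Rep.hom_comm_apply f.hom a _
      rw [h2, he1])
  refine ⟨(smP G).homMk (Rep.ofHom (ρ := Y.obj.ρ) (σ := σ)
    ⟨F, fun a => LinearMap.ext fun v => hF1 a v⟩), ?_⟩
  apply ObjectProperty.hom_ext
  apply Rep.hom_ext
  apply Representation.IntertwiningMap.ext
  refine LinearMap.ext fun x => ?_
  show F (f1 x) = g1 x
  have h3 := hF2 (e x)
  have h4 : (e x).1 = f1 x := rfl
  rw [← h4, h3]
  show g1 (e.symm (e x)) = g1 x
  rw [e.symm_apply_apply]

end

end Pool.Agent.Lib.MP_ca1492_al.P
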