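import Mathlib
import Pool.Agent.Lib.MP_ca1492_al.P.SmCat

/-!
# MP_ca1492_al: the statement of Q1 for `GL_n` over a nonarchimedean local field

`F` is a nonarchimedean local field, `GL κ F` the group of invertible matrices with rows and
columns indexed by the finite type `κ`, with its topology.
-/

set_option autoImplicit false

namespace Pool.Agent.Lib.MP_ca1492_al.Q

open Topology Matrix TensorProduct CategoryTheory CategoryTheory.Abelian ValuativeRel
open Pool.Agent.Lib.MP_ca1492_al.P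

noncomputable section

variable (F : Type) [Field F] [ValuativeRel F] [TopologicalSpace F]
  [IsNonarchimedeanLocalField F]

open Classical in
/-- The normalized absolute value of `F`: `|0| = 0` and `|x| = q ^ (-v x)`, where `v` is the
normalized valuation and `q` is the number of elements of the residue field. -/
def absF (x : F) : ℝ :=
  if x = 0 then 0 else
    (Nat.card (IsLocalRing.ResidueField (Valuation.integer (valuation F))) : ℝ) ^
      (WithZero.log (IsNonarchimedeanLocalField.valueGroupWithZeroIsoInt F (valuation F x)))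

theorem absF_one : absF F 1 = 1 := by
  unfold absF
  rw [if_neg one_ne_zero, map_one, map_one, WithZero.log_one, zpow_zero]

theorem absF_mul (x y : F) : absF F (x * y) = absF F x * absF F y := by
  unfold absF
  by_cases hx : x = 0
  · simp [hx]
  by_cases hy : y = 0
  · simp [hy]
  have h0 : (Nat.card (IsLocalRing.ResidueField (Valuation.integer (valuation F))) : ℝ) ≠ 0 := by
    haveI : Finite (IsLocalRing.ResidueField (Valuation.integer (valuation F))) :=
      inferInstanceAs (Finite 𝓀[F])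
    exact_mod_cast Nat.card_pos.ne'
  rw [if_neg hx, if_neg hy, if_neg (mul_ne_zero hx hy), map_mul, map_mul, WithZero.log_mul,
    zpow_add₀ h0]
  · exact (map_ne_zero _).2 ((valuation F).ne_zero_iff.2 hx)
  · exact (map_ne_zero _).2 ((valuation F).ne_zero_iff.2 hy)

theorem absF_nonneg (x : F) : 0 ≤ absF F x := by
  unfold absF
  split_ifs
  · exact le_refl 0
  · positivity

/-- A complex representation `π` of the group `GL κ F` on the space `V`, for some finite index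
type `κ`. -/
structure GLRep where
  κ : Type
  [fκ : Fintype κ]
  [dκ : DecidableEq κ]
  V : Type
  [aV : AddCommGroup V]
  [mV : Module ℂ V]
  π : Representation ℂ (GL κ F) V

attribute [instance] GLRep.fκ GLRep.dκ GLRep.aV GLRep.mV

/-- the element `(g₁ u; 0 g₂)` of the block upper triangular group -/
def blk {κ₁ κ₂ : Type} [Fintype κ₁] [DecidableEq κ₁] [Fintype κ₂] [DecidableEq κ₂]
    (g₁ : GL κ₁ F) (g₂ : GL κ₂ F) (u : Matrix κ₁ κ₂ F) : GL (κ₁ ⊕ κ₂) F where
  val := Matrix.fromBlocks (g₁ : Matrix κ₁ κ₁ F) u 0 (g₂ : Matrix κ₂ κ₂ F)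
  inv := Matrix.fromBlocks ((g₁⁻¹ : GL κ₁ F) : Matrix κ₁ κ₁ F)
    (-(((g₁⁻¹ : GL κ₁ F) : Matrix κ₁ κ₁ F) * u * ((g₂⁻¹ : GL κ₂ F) : Matrix κ₂ κ₂ F))) 0
    ((g₂⁻¹ : GL κ₂ F) : Matrix κ₂ κ₂ F)
  val_inv := by
    have h1 : (g₁ : Matrix κ₁ κ₁ F) * ((g₁⁻¹ : GL κ₁ F) : Matrix κ₁ κ₁ F) = 1 := by
      rw [← Units.val_mul, mul_inv_cancel, Units.val_one]
    have h2 : (g₂ : Matrix κ₂ κ₂ F) * ((g₂⁻¹ : GL κ₂ F) : Matrix κ₂ κ₂ F) = 1 := by
      rw [← Units.val_mul, mul_inv_cancel, Units.val_one]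
    have h3 : (g₁ : Matrix κ₁ κ₁ F) * (-(((g₁⁻¹ : GL κ₁ F) : Matrix κ₁ κ₁ F) * u *
        ((g₂⁻¹ : GL κ₂ F) : Matrix κ₂ κ₂ F))) + u * ((g₂⁻¹ : GL κ₂ F) : Matrix κ₂ κ₂ F) = 0 := by
      rw [Matrix.mul_neg, ← Matrix.mul_assoc, ← Matrix.mul_assoc, h1, Matrix.one_mul,
        neg_add_cancel]
    rw [Matrix.fromBlocks_multiply, h3, h1, h2]
    simp
  inv_val := by
    have h1 : ((g₁⁻¹ : GL κ₁ F) : Matrix κ₁ κ₁ F) * (g₁ : Matrix κ₁ κ₁ F) = 1 := by
      rw [← Units.val_mul, inv_mul_cancel, Units.val_one]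
    have h2 : ((g₂⁻¹ : GL κ₂ F) : Matrix κ₂ κ₂ F) * (g₂ : Matrix κ₂ κ₂ F) = 1 := by
      rw [← Units.val_mul, inv_mul_cancel, Units.val_one]
    have h3 : ((g₁⁻¹ : GL κ₁ F) : Matrix κ₁ κ₁ F) * u + -(((g₁⁻¹ : GL κ₁ F) : Matrix κ₁ κ₁ F) * u *
        ((g₂⁻¹ : GL κ₂ F) : Matrix κ₂ κ₂ F)) * (g₂ : Matrix κ₂ κ₂ F) = 0 := by
      rw [Matrix.neg_mul, Matrix.mul_assoc _ _ (g₂ : Matrix κ₂ κ₂ F), h2, Matrix.mul_one,
        add_neg_cancel]
    rw [Matrix.fromBlocks_multiply, h3, h1, h2]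
    simp

variable {F}

namespace GLRep

variable (A B : GLRep F)

/-- all vectors have open stabilizers -/
def Smooth : Prop := IsSm A.π

/-- irreducible: nonzero, and no proper nonzero stable subspace -/
def Irred : Prop := Irr A.π

/-- the square root of the modulus character of the block upper triangular group -/
def sqmod {κ₁ κ₂ : Type} [Fintype κ₁] [DecidableEq κ₁] [Fintype κ₂] [DecidableEq κ₂]
    (g₁ : GL κ₁ F) (g₂ : GL κ₂ F) : ℝ :=
  (absF F (g₁ : Matrix κ₁ κ₁ F).det) ^ ((Fintype.card κ₂ : ℝ) / 2) *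
    (absF F (g₂ : Matrix κ₂ κ₂ F).det) ^ (-(Fintype.card κ₁ : ℝ) / 2)

/-- The space of the normalized parabolic induction of `A ⊗ B`: functions `f` on
`GL (κ₁ ⊕ κ₂) F` with values in `A.V ⊗ B.V`, invariant under right translation by some open
subgroup, such that `f (p g) = δ_P(p)^(1/2) (A(g₁) ⊗ B(g₂)) f(g)` for `p = (g₁ u; 0 g₂)`. -/
def indSp : Submodule ℂ (GL (A.κ ⊕ B.κ) F → A.V ⊗[ℂ] B.V) where
  carrier := {f | (∀ (g₁ : GL A.κ F) (g₂ : GL B.κ F) (u : Matrix A.κ B.κ F)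
      (g : GL (A.κ ⊕ B.κ) F), f (blk F g₁ g₂ u * g) =
        (sqmod g₁ g₂ : ℂ) • TensorProduct.map (A.π g₁) (B.π g₂) (f g)) ∧
    ∃ U : Subgroup (GL (A.κ ⊕ B.κ) F), IsOpen (U : Set (GL (A.κ ⊕ B.κ) F)) ∧
      ∀ g, ∀ u ∈ U, f (g * u) = f g}
  add_mem' := by
    rintro a b ⟨ha, Ua, hUa, ha'⟩ ⟨hb, Ub, hUb, hb'⟩
    refine ⟨fun g₁ g₂ u g => ?_, Ua ⊓ Ub, hUa.inter hUb, fun g u hu => ?_⟩
    · simp only [Pi.add_apply]
      rw [ha, hb, map_add, smul_add]
    · simp only [Pi.add_apply]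
      rw [ha' g u hu.1, hb' g u hu.2]
  zero_mem' := ⟨fun g₁ g₂ u g => by simp, ⊤, isOpen_univ, fun g u _ => rfl⟩
  smul_mem' := by
    rintro c a ⟨ha, Ua, hUa, ha'⟩
    refine ⟨fun g₁ g₂ u g => ?_, Ua, hUa, fun g u hu => ?_⟩
    · simp only [Pi.smul_apply]
      rw [ha, map_smul, smul_comm]
    · simp only [Pi.smul_apply]
      rw [ha' g u hu]

/-- Right translation on `indSp`. -/
def indRep : Representation ℂ (GL (A.κ ⊕ B.κ) F) (indSp A B) where
  toFun g :=
    { toFun := fun f => ⟨fun x => f.1 (x * g), by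
        obtain ⟨h1, U, hU, h2⟩ := f.2
        refine ⟨fun g₁ g₂ u x => ?_, U.map (MulAut.conj g).toMonoidHom, ?_, ?_⟩
        · have := h1 g₁ g₂ u (x * g)
          rw [← mul_assoc] at this
          exact this
        · have : ((U.map (MulAut.conj g).toMonoidHom : Subgroup (GL (A.κ ⊕ B.κ) F)) :
              Set (GL (A.κ ⊕ B.κ) F)) = (fun x => g⁻¹ * x * g) ⁻¹' (U : Set _) := by
            ext x
            simp only [Subgroup.coe_map, Set.mem_image, Set.mem_preimage, SetLike.mem_coe]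
            constructor
            · rintro ⟨y, hy, rfl⟩
              simpa [MulAut.conj_apply, mul_assoc] using hy
            · intro hx
              exact ⟨_, hx, by simp [MulAut.conj_apply, mul_assoc]⟩
          rw [this]
          exact hU.preimage (by fun_prop)
        · rintro x u ⟨y, hy, rfl⟩
          have := h2 (x * g) y hy
          simp only [MulEquiv.coe_toMonoidHom, MulAut.conj_apply] at *
          rw [← this]
          group⟩
      map_add' := fun a b => rfl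
      map_smul' := fun c a => rfl }
  map_one' := by
    refine LinearMap.ext fun f => Subtype.ext (funext fun x => ?_)
    simp
  map_mul' := by
    intro a b
    refine LinearMap.ext fun f => Subtype.ext (funext fun x => ?_)
    simp [mul_assoc]

/-- The product `A × B` (normalized parabolic induction), a representation of
`GL (κ₁ ⊕ κ₂) F`. -/
def mul : GLRep F := ⟨A.κ ⊕ B.κ, indSp A B, indRep A B⟩

/-- the trivial representation of the trivial group `GL_0(F)` -/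
def one : GLRep F := ⟨Empty, ℂ, Representation.trivial ℂ (GL Empty F) ℂ⟩

/-- The product `A₁ × (A₂ × (... × A_r))` (induction in stages). -/
def prodL : List (GLRep F) → GLRep F
  | [] => one
  | [A] => A
  | A :: B :: L => mul A (prodL (B :: L))

/-- the twist `A ν^s`, `ν = |det|` -/
def tw (s : ℝ) : GLRep F where
  κ := A.κ
  V := A.V
  π :=
    { toFun := fun g => (((absF F (g : Matrix A.κ A.κ F).det) ^ s : ℝ) : ℂ) • A.π g
      map_one' := by
        rw [Units.val_one, Matrix.det_one, absF_one, Real.one_rpow, map_one]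
        simp
      map_mul' := by
        intro g h
        rw [Units.val_mul, Matrix.det_mul, absF_mul, Real.mul_rpow (absF_nonneg _ _)
          (absF_nonneg _ _), map_mul]
        ext v
        simp only [LinearMap.smul_apply, Module.End.mul_apply, map_smul]
        rw [smul_smul, Complex.ofReal_mul, mul_comm] }

/-- identification of `GL κ F` and `GL κ' F` for a bijection of the index sets -/
def glRe {κ κ' : Type} [Fintype κ] [DecidableEq κ] [Fintype κ'] [DecidableEq κ'] (e : κ ≃ κ') :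
    GL κ F ≃* GL κ' F :=
  Units.mapEquiv (Matrix.reindexAlgEquiv F F e).toMulEquiv

/-- `B` is a quotient of `A` -/
def Quot : Prop :=
  ∃ (e : A.κ ≃ B.κ) (f : A.V →ₗ[ℂ] B.V), Function.Surjective f ∧
    ∀ (g : GL A.κ F) (v : A.V), f (A.π g v) = B.π (glRe e g) (f v)

/-- `A` and `B` are isomorphic -/
def Isom : Prop :=
  ∃ (e : A.κ ≃ B.κ) (f : A.V ≃ₗ[ℂ] B.V),
    ∀ (g : GL A.κ F) (v : A.V), f (A.π g v) = B.π (glRe e g) (f v)

/-- Cuspidal: smooth, irreducible, of positive degree, and the Jacquet modules for all proper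
parabolic subgroups vanish: for every proper nonempty set `S` of indices the vectors
`A(n) v - v`, `n` in the unipotent radical of the stabilizer of the coordinate subspace of `S`,
span the space. -/
def Cusp : Prop :=
  A.Smooth ∧ A.Irred ∧ Nonempty A.κ ∧
    ∀ S : Set A.κ, S.Nonempty → Sᶜ.Nonempty →
      Submodule.span ℂ {x : A.V | ∃ (n : GL A.κ F) (v : A.V),
        (∀ i j, ¬ (i ∈ S ∧ j ∉ S) →
          (n : Matrix A.κ A.κ F) i j = (1 : Matrix A.κ A.κ F) i j) ∧ x = A.π n v - v} = ⊤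

/-- The central character is unitary. -/
def UnitCentral : Prop :=
  ∀ z : Fˣ, ∃ c : ℂ, ‖c‖ = 1 ∧ ∀ v, A.π (Matrix.GeneralLinearGroup.scalar A.κ z) v = c • v

/-- `δ` is the discrete series representation attached to `ρ ⊠ S_a`: the irreducible quotient of
`ρ ν^(-(a-1)/2) × ρ ν^(-(a-3)/2) × ... × ρ ν^((a-1)/2)`. -/
def IsDS (ρ : GLRep F) (a : ℕ) (δ : GLRep F) : Prop :=
  δ.Irred ∧ (prodL ((List.range a).map fun i : ℕ => ρ.tw ((i : ℝ) - ((a : ℝ) - 1) / 2))).Quot δ

/-- `σ` is `Sp(δ, b)`: the irreducible quotient of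
`δ ν^((b-1)/2) × δ ν^((b-3)/2) × ... × δ ν^(-(b-1)/2)`. -/
def IsSp (δ : GLRep F) (b : ℕ) (σ : GLRep F) : Prop :=
  σ.Irred ∧ (prodL ((List.range b).map fun j : ℕ => δ.tw (((b : ℝ) - 1) / 2 - (j : ℝ)))).Quot σ

end GLRep

open GLRep

/-- An Arthur parameter `⊕ ρ_j ⊠ S_{a_j} ⊠ S_{b_j}`: a list of triples `(ρ, a, b)`, `ρ` a cuspidal
representation with unitary central character, `a, b ≥ 1`. -/
structure APar (F : Type) [Field F] [ValuativeRel F] [TopologicalSpace F]
    [IsNonarchimedeanLocalField F] where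
  L : List (GLRep F × ℕ × ℕ)
  cusp : ∀ x ∈ L, x.1.Cusp ∧ x.1.UnitCentral ∧ 0 < x.2.1 ∧ 0 < x.2.2

/-- `π` is the representation of Arthur type attached to `ψ`:
`π ≅ Sp(δ_1, b_1) × ... × Sp(δ_r, b_r)`. -/
def APar.Att (ψ : APar F) (π : GLRep F) : Prop :=
  ∃ σ : List (GLRep F),
    List.Forall₂ (fun (x : GLRep F × ℕ × ℕ) (s : GLRep F) =>
      ∃ δ : GLRep F, IsDS x.1 x.2.1 δ ∧ IsSp δ x.2.2 s) ψ.L σ ∧ (prodL σ).Isom π

open Classical in
/-- The multiplicity of `ρ ⊠ S_c` in the restriction of `ψ` to `W_F × ΔSL_2`: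
`S_a ⊗ S_b = ⊕ S_c`, `c = a + b - 1 - 2 i`, `0 ≤ i < min a b`. -/
def APar.mult (ψ : APar F) (ρ : GLRep F) (c : ℕ) : ℕ :=
  ψ.L.countP fun x => decide (x.1.Isom ρ ∧ ∃ i < min x.2.1 x.2.2, c + 2 * i + 1 = x.2.1 + x.2.2)

open Classical in
/-- The multiplicity of `τ` in the cuspidal support of `π_ψ`: the number of `(j, i, k)`, `i < a_j`,
`k < b_j`, such that `ρ_j ν^(i - (a_j - 1)/2 + k - (b_j - 1)/2) ≅ τ`. -/
def APar.supp (ψ : APar F) (τ : GLRep F) : ℕ :=
  (ψ.L.map fun x => ((Finset.range x.2.1 ×ˢ Finset.range x.2.2).filter fun p =>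
    (x.1.tw ((p.1 : ℝ) - ((x.2.1 : ℝ) - 1) / 2 + ((p.2 : ℝ) - ((x.2.2 : ℝ) - 1) / 2))).Isom
      τ).card).sum

/-- Q1: for irreducible representations `π₁, π₂` of Arthur type of `GL_n(F)`, with parameters
`ψ₁, ψ₂`:
`Ext^*(π₁, π₂) ≠ 0` iff the restrictions of `ψ₁`, `ψ₂` to `W_F × ΔSL_2` are isomorphic, iff
`π₁`, `π₂` have the same cuspidal support. -/
def Q1 (F : Type) [Field F] [ValuativeRel F] [TopologicalSpace F]
    [IsNonarchimedeanLocalField F] : Prop :=
  ∀ (n : ℕ) (V₁ V₂ : Type) [AddCommGroup V₁] [Module ℂ V₁] [AddCommGroup V₂] [Module ℂ V₂]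
    (π₁ : Representation ℂ (GL (Fin n) F) V₁) (π₂ : Representation ℂ (GL (Fin n) F) V₂)
    (h₁ : IsSm π₁) (h₂ : IsSm π₂) (_ : Irr π₁) (_ : Irr π₂) (ψ₁ ψ₂ : APar F)
    (_ : ψ₁.Att ⟨Fin n, V₁, π₁⟩) (_ : ψ₂.Att ⟨Fin n, V₂, π₂⟩),
    letI := HasExt.standard (SmRep (GL (Fin n) F))
    ((∃ i, Nontrivial (Ext.{1} (ofSm π₁ h₁) (ofSm π₂ h₂) i)) ↔
      ∀ (ρ : GLRep F) (c : ℕ), ψ₁.mult ρ c = ψ₂.mult ρ c) ∧
    ((∀ (ρ : GLRep F) (c : ℕ), ψ₁.mult ρ c = ψ₂.mult ρ c) ↔
      ∀ τ : GLRep F, ψ₁.supp τ = ψ₂.supp τ)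

end

end Pool.Agent.Lib.MP_ca1492_al.Q
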