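import Mathlib
import Pool.Agent.Lib.MP_ca1492_al.P.Dual

/-!
# MP_ca1492_al, p-adic side, module TrGrp: transport along isomorphisms of topological groups

`pull φ π g = π (φ g)`. Everything is transported because stabilizers, stable subspaces, invariants
of subgroups correspond under the homeomorphism `φ` (`K ↦ K.comap φ`, `K.map φ`).
* `pull_inj`: given a smooth `ρ` of `G` on `E`, a stable `U` and `f : U → W` equivariant for
  `pull φ σ`, apply the extension property of `σ` to `pull φ.symm ρ`, the same `U` and `f`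
  (`pull φ (pull φ.symm ρ) = ρ`).
-/

set_option autoImplicit false

namespace Pool.Agent.Lib.MP_ca1492_al.P

open Topology

noncomputable section

variable {G G' : Type} [Group G] [TopologicalSpace G] [IsTopologicalGroup G]
  [Group G'] [TopologicalSpace G'] [IsTopologicalGroup G']
variable {V W : Type} [AddCommGroup V] [Module ℂ V] [AddCommGroup W] [Module ℂ W]

/-- transport of a representation -/
def pull (φ : G ≃ₜ* G') (π : Representation ℂ G' V) : Representation ℂ G V :=
  π.comp φ.toMulEquiv.toMonoidHom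

theorem pull_apply (φ : G ≃ₜ* G') (π : Representation ℂ G' V) (g : G) (v : V) :
    pull φ π g v = π (φ g) v := rfl

theorem pull_pull_symm (φ : G ≃ₜ* G') (π : Representation ℂ G V) :
    pull φ (pull φ.symm π) = π := by
  refine MonoidHom.ext fun g => ?_
  show π (φ.symm (φ g)) = π g
  rw [φ.symm_apply_apply]

theorem pull_symm_pull (φ : G ≃ₜ* G') (π : Representation ℂ G' V) :
    pull φ.symm (pull φ π) = π := by
  refine MonoidHom.ext fun g => ?_
  show π (φ (φ.symm g)) = π g
  rw [φ.apply_symm_apply]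

theorem TrGrp_sm (φ : G ≃ₜ* G') (π : Representation ℂ G' V) (h : IsSm π) : IsSm (pull φ π) :=
  fun v => (h v).preimage φ.continuous_toFun

theorem pull_sm (φ : G ≃ₜ* G') (π : Representation ℂ G' V) : IsSm (pull φ π) ↔ IsSm π := by
  refine ⟨fun h => ?_, TrGrp_sm φ π⟩
  have h1 := TrGrp_sm φ.symm _ h
  rwa [pull_symm_pull] at h1

theorem TrGrp_stab (φ : G ≃ₜ* G') (π : Representation ℂ G' V) (U : Submodule ℂ V)
    (h : Stab π U) : Stab (pull φ π) U := fun g v hv => h (φ g) v hv

theorem pull_stab (φ : G ≃ₜ* G') (π : Representation ℂ G' V) (U : Submodule ℂ V) :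
    Stab (pull φ π) U ↔ Stab π U := by
  refine ⟨fun h => ?_, TrGrp_stab φ π U⟩
  have h1 := TrGrp_stab φ.symm _ U h
  rwa [pull_symm_pull] at h1

theorem pull_irr (φ : G ≃ₜ* G') (π : Representation ℂ G' V) : Irr (pull φ π) ↔ Irr π := by
  unfold Irr
  simp only [pull_stab]

theorem pull_fg (φ : G ≃ₜ* G') (π : Representation ℂ G' V) : Fg (pull φ π) ↔ Fg π := by
  unfold Fg
  simp only [pull_stab]

theorem TrGrp_fix (φ : G ≃ₜ* G') (π : Representation ℂ G' V) (K : Subgroup G') :
    fix (pull φ π) (K.comap φ.toMulEquiv.toMonoidHom) = fix π K := by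
  ext v
  constructor
  · intro hv k hk
    have h1 := hv (φ.symm k) (by
      show φ (φ.symm k) ∈ K
      rw [φ.apply_symm_apply]
      exact hk)
    rw [pull_apply, φ.apply_symm_apply] at h1
    exact h1
  · intro hv k hk
    exact hv (φ k) hk

theorem TrGrp_adm (φ : G ≃ₜ* G') (π : Representation ℂ G' V) (h : Adm (pull φ π)) : Adm π := by
  intro K hK
  have h1 := h (K.comap φ.toMulEquiv.toMonoidHom) (hK.preimage φ.continuous_toFun)
  rwa [TrGrp_fix] at h1

theorem pull_adm (φ : G ≃ₜ* G') (π : Representation ℂ G' V) : Adm (pull φ π) ↔ Adm π := by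
  refine ⟨TrGrp_adm φ π, fun h => ?_⟩
  refine TrGrp_adm φ.symm _ ?_
  rwa [pull_symm_pull]

theorem pull_equi (φ : G ≃ₜ* G') (π : Representation ℂ G' V) (σ : Representation ℂ G' W)
    (f : V →ₗ[ℂ] W) : Equi (pull φ π) (pull φ σ) f ↔ Equi π σ f := by
  refine ⟨fun h g v => ?_, fun h g v => h (φ g) v⟩
  have h1 := h (φ.symm g) v
  rw [pull_apply, pull_apply, φ.apply_symm_apply] at h1
  exact h1

theorem pull_equi' (φ : G ≃ₜ* G') (π : Representation ℂ G V) (σ : Representation ℂ G' W)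
    (f : V →ₗ[ℂ] W) : Equi π (pull φ σ) f ↔ Equi (pull φ.symm π) σ f := by
  have h := pull_equi φ (pull φ.symm π) σ f
  rw [pull_pull_symm] at h
  exact h

theorem pull_iso (φ : G ≃ₜ* G') (π : Representation ℂ G' V) (σ : Representation ℂ G' W) :
    Iso (pull φ π) (pull φ σ) ↔ Iso π σ := by
  unfold Iso
  simp only [pull_equi]

theorem TrGrp_inj (φ : G ≃ₜ* G') (σ : Representation ℂ G' W) (h : IsInjSm σ) :
    IsInjSm (pull φ σ) := by
  intro E _ _ ρ hρ U hU f hf
  have hU' : Stab (pull φ.symm ρ) U := (pull_stab φ.symm ρ U).2 hU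
  obtain ⟨F, hF, hFu⟩ := h E (pull φ.symm ρ) ((pull_sm φ.symm ρ).2 hρ) U hU' f (by
    intro g v
    have h1 := hf (φ.symm g) v
    rw [pull_apply, φ.apply_symm_apply] at h1
    exact h1)
  exact ⟨F, (pull_equi' φ ρ σ F).2 hF, hFu⟩

theorem pull_inj (φ : G ≃ₜ* G') (σ : Representation ℂ G' W) :
    IsInjSm (pull φ σ) ↔ IsInjSm σ := by
  refine ⟨fun h => ?_, TrGrp_inj φ σ⟩
  have h1 := TrGrp_inj φ.symm _ h
  rwa [pull_symm_pull] at h1

theorem TrGrp_hasCO (φ : G ≃ₜ* G') (h : HasCO G) : HasCO G' := by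
  intro U hU
  have h1 : (fun g => φ g) ⁻¹' U ∈ nhds (1 : G) := by
    refine φ.continuous_toFun.continuousAt.preimage_mem_nhds ?_
    show U ∈ nhds (φ 1)
    rw [map_one]
    exact hU
  obtain ⟨K, hK1, hK2, hK3⟩ := h _ h1
  have hset : ((K.comap φ.symm.toMulEquiv.toMonoidHom : Subgroup G') : Set G') =
      (fun g => φ g) '' (K : Set G) := by
    ext g
    constructor
    · intro hg
      exact ⟨φ.symm g, hg, φ.apply_symm_apply g⟩
    · rintro ⟨x, hx, rfl⟩
      show φ.symm (φ x) ∈ K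
      rw [φ.symm_apply_apply]
      exact hx
  refine ⟨K.comap φ.symm.toMulEquiv.toMonoidHom, hK1.preimage φ.symm.continuous_toFun, ?_, ?_⟩
  · rw [hset]
    exact hK2.image φ.continuous_toFun
  · rw [hset]
    rintro _ ⟨x, hx, rfl⟩
    exact hK3 hx

theorem pull_hasCO (φ : G ≃ₜ* G') : HasCO G ↔ HasCO G' :=
  ⟨TrGrp_hasCO φ, TrGrp_hasCO φ.symm⟩

end

end Pool.Agent.Lib.MP_ca1492_al.P
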