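import Mathlib
import Pool.Agent.Lib.MP_ca1492_al.P.CuspAdm
import Pool.Agent.Lib.MP_ca1492_al.P.Statement
import Pool.Agent.Lib.MP_ca1492_al.P.TrGrp

/-!
# MP_ca1492_al, p-adic side, module TrCusp: `GL κ F` and the block group of the constant colouring,
cuspidal representations

`levC κ : GL κ F ≃ₜ* lev F (fun _ : κ => ())`; `glT e : GL κ F ≃ₜ* GL κ' F` for a bijection `e`
(the map `glRe e` of `Statement.lean`).

* continuity: `continuous_induced_rng`, resp. `Units.continuous_iff` and continuity of the entries.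
* `cusp_levC`: let `o : κ → ℤ` be not constant, `o i₀ < o j₀` for some `i₀, j₀`, `S = {i | o i ≤ o i₀}`
  (proper, nonempty). If `n i j = δ_ij` unless `i ∈ S`, `j ∉ S`, then `n ∈ uni F _ o`: if
  `o j < o i` or (`o i = o j`, `i ≠ j`) then not (`i ∈ S` and `j ∉ S`). So the span of
  the `A.π n v - v` for `N_S`, which is everything, is contained in `kerJ`.
* `cusp_of_levC` (converse): for `S` proper nonempty take `o i = 0` for `i ∈ S` and `o i = 1` otherwise;
  the group `uni F _ o` consists of the `n` with `n i j = δ_ij` unless `i ∈ S`, `j ∉ S`.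
* `glcusp_adm`, `glcusp_scalar`: `cusp_adm`, `schur` for `pull (levC κ).symm A.π`.
* `isom_cusp`: cuspidality is invariant under `Isom`; under a bijection `e` of the index sets the
  group `N_S` is mapped to `N_(e S)`.
-/

set_option autoImplicit false

namespace Pool.Agent.Lib.MP_ca1492_al.P

open Topology Matrix ValuativeRel
open Pool.Agent.Lib.MP_ca1492_al.Q (GLRep)

noncomputable section

variable {F : Type} [Field F] [ValuativeRel F] [TopologicalSpace F]
  [IsNonarchimedeanLocalField F]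
variable {κ κ' : Type} [Fintype κ] [DecidableEq κ] [Fintype κ'] [DecidableEq κ']

variable (F κ) in
/-- the full group as block group of the constant colouring -/
def levC : GL κ F ≃ₜ* lev F (fun _ : κ => ()) where
  toFun g := ⟨g, fun _ _ h => absurd rfl h⟩
  invFun g := g.1
  left_inv _ := rfl
  right_inv _ := rfl
  map_mul' _ _ := rfl
  continuous_toFun := continuous_id.subtype_mk _
  continuous_invFun := continuous_subtype_val

theorem glRe_cont (e : κ ≃ κ') : Continuous (Q.GLRep.glRe (F := F) e) := by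
  rw [Units.continuous_iff]
  constructor
  · have h : (Units.val ∘ (Q.GLRep.glRe (F := F) e)) =
        fun g : GL κ F => Matrix.reindex e e (g : Matrix κ κ F) := rfl
    rw [h]
    exact Continuous.matrix_reindex Units.continuous_val e e
  · have h : (fun g : GL κ F => (((Q.GLRep.glRe (F := F) e g)⁻¹ : GL κ' F) : Matrix κ' κ' F)) =
        fun g : GL κ F => Matrix.reindex e e ((g⁻¹ : GL κ F) : Matrix κ κ F) := by
      funext g
      rw [← map_inv]
      rfl
    rw [h]
    exact Continuous.matrix_reindex (Units.continuous_val.comp continuous_inv) e e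

theorem TrCusp_entry (e : κ ≃ κ') (g : GL κ F) (i j : κ') :
    (Q.GLRep.glRe (F := F) e g : Matrix κ' κ' F) i j = (g : Matrix κ κ F) (e.symm i) (e.symm j) :=
  rfl

theorem glRe_symm (e : κ ≃ κ') (g : GL κ' F) :
    (Q.GLRep.glRe (F := F) e).symm g = Q.GLRep.glRe (F := F) e.symm g := by
  refine Units.ext (Matrix.ext fun i j => ?_)
  rfl

variable (F) in
/-- reindexing as a topological isomorphism -/
def glT (e : κ ≃ κ') : GL κ F ≃ₜ* GL κ' F where
  toMulEquiv := Q.GLRep.glRe (F := F) e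
  continuous_toFun := glRe_cont e
  continuous_invFun := by
    have h : (fun g => (Q.GLRep.glRe (F := F) e).symm g) =
        fun g => Q.GLRep.glRe (F := F) e.symm g := funext fun g => glRe_symm e g
    show Continuous (fun g => (Q.GLRep.glRe (F := F) e).symm g)
    rw [h]
    exact glRe_cont e.symm

theorem glT_apply (e : κ ≃ κ') (g : GL κ F) (i j : κ) :
    (glT F e g : Matrix κ' κ' F) (e i) (e j) = (g : Matrix κ κ F) i j := by
  have h : (glT F e g : Matrix κ' κ' F) (e i) (e j) =
      (g : Matrix κ κ F) (e.symm (e i)) (e.symm (e j)) := rfl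
  rw [h, Equiv.symm_apply_apply, Equiv.symm_apply_apply]

variable (A B : GLRep F)

/-- a representation of `GL κ F` as a representation of the block group -/
def GLRep.lev : Representation ℂ (lev F (fun _ : A.κ => ())) A.V :=
  pull (levC F A.κ).symm A.π

theorem glev_apply (g : Pool.Agent.Lib.MP_ca1492_al.P.lev F (fun _ : A.κ => ())) (v : A.V) :
    GLRep.lev A g v = A.π g.1 v := rfl

theorem cusp_levC (hA : A.Cusp) : Cusp (fun _ : A.κ => ()) (GLRep.lev A) := by
  intro o hij
  obtain ⟨i₀, j₀, ho⟩ : ∃ i₀ j₀, o i₀ < o j₀ := by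
    obtain ⟨i, j, -, h⟩ := hij
    rcases lt_or_gt_of_ne h with h1 | h1
    · exact ⟨i, j, h1⟩
    · exact ⟨j, i, h1⟩
  have h1 := hA.2.2.2 {i | o i ≤ o i₀} ⟨i₀, le_refl (o i₀)⟩ ⟨j₀, not_le.2 ho⟩
  rw [eq_top_iff, ← h1]
  refine Submodule.span_mono ?_
  rintro x ⟨n, v, hn, rfl⟩
  have hnu : n ∈ uni F (fun _ : A.κ => ()) o := by
    refine ⟨⟨fun i j h => absurd rfl h, fun i j hlt => ?_⟩, fun i j heq => ?_⟩
    · rw [hn i j (fun h => h.2 (hlt.le.trans h.1)), Matrix.one_apply_ne]
      rintro rfl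
      exact lt_irrefl _ hlt
    · exact hn i j (fun h => h.2 (heq.symm.le.trans h.1))
  exact ⟨n, hnu, v, rfl⟩

theorem cusp_of_levC (hs : IsSm A.π) (hi : Irr A.π) (hn : Nonempty A.κ)
    (hc : Cusp (fun _ : A.κ => ()) (GLRep.lev A)) : A.Cusp := by
  classical
  refine ⟨hs, hi, hn, fun S hS hSc => ?_⟩
  obtain ⟨i₀, hi₀⟩ := hS
  obtain ⟨j₀, hj₀⟩ := hSc
  have hj₀' : j₀ ∉ S := hj₀
  have h1 := hc (fun i => if i ∈ S then 0 else 1) ⟨i₀, j₀, rfl, by
    simp only [if_pos hi₀, if_neg hj₀']
    norm_num⟩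
  rw [eq_top_iff, ← h1]
  refine Submodule.span_mono ?_
  rintro x ⟨n, hnu, v, rfl⟩
  refine ⟨n, v, fun i j hij => ?_, rfl⟩
  by_cases hi' : i ∈ S
  · have hj' : j ∈ S := by
      by_contra h
      exact hij ⟨hi', h⟩
    exact hnu.2 i j (by simp only [if_pos hi', if_pos hj'])
  · by_cases hj' : j ∈ S
    · have h2 : (n : Matrix A.κ A.κ F) i j = 0 := hnu.1.2 i j (by
        simp only [if_neg hi', if_pos hj']
        norm_num)
      rw [h2, Matrix.one_apply_ne]
      rintro rfl
      exact hi' hj'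
    · exact hnu.2 i j (by simp only [if_neg hi', if_neg hj'])

theorem glcusp_adm (hA : A.Cusp) : Adm A.π :=
  (pull_adm (levC F A.κ).symm A.π).1 (cusp_adm (fun _ : A.κ => ()) (GLRep.lev A)
    ((pull_sm (levC F A.κ).symm A.π).2 hA.1) ((pull_irr (levC F A.κ).symm A.π).2 hA.2.1)
    (cusp_levC A hA))

theorem glcusp_scalar (hA : A.Cusp) (S : A.V →ₗ[ℂ] A.V) (hS : Equi A.π A.π S) :
    ∃ z : ℂ, ∀ x, S x = z • x :=
  schur A.π hA.1 hA.2.1 (glcusp_adm A hA) S hS

theorem TrCusp_glRe_symm_apply (e : κ ≃ κ') (g : GL κ' F) :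
    Q.GLRep.glRe (F := F) e (Q.GLRep.glRe (F := F) e.symm g) = g := by
  rw [← glRe_symm, MulEquiv.apply_symm_apply]

theorem isom_symm (h : A.Isom B) : B.Isom A := by
  obtain ⟨e, f, hf⟩ := h
  refine ⟨e.symm, f.symm, fun g v => ?_⟩
  apply f.injective
  rw [LinearEquiv.apply_symm_apply, hf, TrCusp_glRe_symm_apply, LinearEquiv.apply_symm_apply]

theorem isom_trans (C : GLRep F) (h : A.Isom B) (h' : B.Isom C) : A.Isom C := by
  obtain ⟨e, f, hf⟩ := h
  obtain ⟨e', f', hf'⟩ := h'
  refine ⟨e.trans e', f.trans f', fun g v => ?_⟩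
  rw [LinearEquiv.trans_apply, hf, hf', LinearEquiv.trans_apply]
  rfl

theorem isom_cusp (h : A.Isom B) (hA : A.Cusp) : B.Cusp := by
  obtain ⟨e, f, hf⟩ := h
  obtain ⟨hs, ⟨⟨v₀, hv₀⟩, hirr⟩, hn, hc⟩ := hA
  have hB : ∀ (g : GL B.κ F) (w : B.V),
      B.π g w = f (A.π (Q.GLRep.glRe e.symm g) (f.symm w)) := by
    intro g w
    rw [hf, TrCusp_glRe_symm_apply, LinearEquiv.apply_symm_apply]
  refine ⟨fun w => ?_, ⟨⟨f v₀, fun h0 => hv₀ (f.map_eq_zero_iff.1 h0)⟩, fun U hU => ?_⟩,
    hn.map e, fun S hS hSc => ?_⟩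
  · have h1 : {g : GL B.κ F | B.π g w = w} =
        (Q.GLRep.glRe (F := F) e.symm) ⁻¹' {g : GL A.κ F | A.π g (f.symm w) = f.symm w} := by
      ext g
      show B.π g w = w ↔ A.π (Q.GLRep.glRe e.symm g) (f.symm w) = f.symm w
      rw [hB, LinearEquiv.eq_symm_apply]
    rw [h1]
    exact (hs (f.symm w)).preimage (glRe_cont e.symm)
  · have h1 : Stab A.π (U.comap (f : A.V →ₗ[ℂ] B.V)) := by
      intro g v hv
      show f (A.π g v) ∈ U
      rw [hf]
      exact hU _ _ hv
    rcases hirr _ h1 with h2 | h2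
    · left
      rw [Submodule.eq_bot_iff]
      intro w hw
      have h3 : f.symm w ∈ U.comap (f : A.V →ₗ[ℂ] B.V) := by
        show f (f.symm w) ∈ U
        rwa [LinearEquiv.apply_symm_apply]
      rw [h2, Submodule.mem_bot] at h3
      exact f.symm.map_eq_zero_iff.1 h3
    · right
      rw [Submodule.eq_top_iff']
      intro w
      have h3 : f.symm w ∈ U.comap (f : A.V →ₗ[ℂ] B.V) := by
        rw [h2]
        exact Submodule.mem_top
      have h4 : f (f.symm w) ∈ U := h3
      rwa [LinearEquiv.apply_symm_apply] at h4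
  · obtain ⟨i₀, hi₀⟩ := hS
    obtain ⟨j₀, hj₀⟩ := hSc
    have h1 := hc (e ⁻¹' S) ⟨e.symm i₀, by
      show e (e.symm i₀) ∈ S
      rwa [Equiv.apply_symm_apply]⟩ ⟨e.symm j₀, by
      show ¬ e (e.symm j₀) ∈ S
      rw [Equiv.apply_symm_apply]
      exact hj₀⟩
    have h2 := congrArg (Submodule.map (f : A.V →ₗ[ℂ] B.V)) h1
    rw [Submodule.map_span, Submodule.map_top, LinearEquiv.range] at h2
    rw [eq_top_iff, ← h2]
    refine Submodule.span_mono ?_
    rintro x ⟨y, ⟨n, v, hnS, rfl⟩, rfl⟩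
    refine ⟨Q.GLRep.glRe e n, f v, fun i j hij => ?_, ?_⟩
    · rw [TrCusp_entry, hnS (e.symm i) (e.symm j) (fun h => hij ⟨by
        have h3 : e (e.symm i) ∈ S := h.1
        rwa [Equiv.apply_symm_apply] at h3, by
        have h3 : ¬ e (e.symm j) ∈ S := h.2
        rwa [Equiv.apply_symm_apply] at h3⟩), Matrix.one_apply, Matrix.one_apply]
      congr 1
      exact propext e.symm.injective.eq_iff
    · show f (A.π n v - v) = _
      rw [map_sub, hf]

/-- the bijection of the index sets does not matter (permutation matrices are in `GL`) -/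
theorem isom_any (h : A.Isom B) (e : A.κ ≃ B.κ) : ∃ f : A.V ≃ₗ[ℂ] B.V,
    ∀ (g : GL A.κ F) (v : A.V), f (A.π g v) = B.π (Q.GLRep.glRe e g) (f v) := by
  obtain ⟨e₀, f₀, hf₀⟩ := h
  set P : GL B.κ F := permG F (e₀.symm.trans e) with hP
  have h1 : B.π P * B.π P⁻¹ = 1 := by rw [← map_mul, mul_inv_cancel, map_one]
  have h2 : B.π P⁻¹ * B.π P = 1 := by rw [← map_mul, inv_mul_cancel, map_one]
  let L : B.V ≃ₗ[ℂ] B.V :=
    { B.π P with
      invFun := B.π P⁻¹
      left_inv := fun v => by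
        show (B.π P⁻¹) (B.π P v) = v
        rw [← Module.End.mul_apply, h2, Module.End.one_apply]
      right_inv := fun v => by
        show (B.π P) (B.π P⁻¹ v) = v
        rw [← Module.End.mul_apply, h1, Module.End.one_apply] }
  refine ⟨f₀.trans L, fun g v => ?_⟩
  have h3 : Q.GLRep.glRe e g * P = P * Q.GLRep.glRe e₀ g := by
    refine Units.ext (Matrix.ext fun i j => ?_)
    rw [Units.val_mul, Units.val_mul, Matrix.mul_apply, Matrix.mul_apply]
    have hPe : ∀ i j : B.κ, (P : Matrix B.κ B.κ F) i j =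
        if (e₀.symm.trans e) j = i then 1 else 0 := fun i j => rfl
    rw [Finset.sum_eq_single (e (e₀.symm j)), Finset.sum_eq_single (e₀ (e.symm i))]
    · rw [hPe, hPe, if_pos (show (e₀.symm.trans e) j = e (e₀.symm j) from rfl),
        if_pos (show (e₀.symm.trans e) (e₀ (e.symm i)) = i by simp), TrCusp_entry, TrCusp_entry]
      simp
    · intro k _ hk
      rw [hPe, if_neg, zero_mul]
      intro h
      apply hk
      rw [← h]
      simp
    · intro h
      exact absurd (Finset.mem_univ _) h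
    · intro k _ hk
      rw [hPe, if_neg, mul_zero]
      intro h
      apply hk
      rw [← h]
      rfl
    · intro h
      exact absurd (Finset.mem_univ _) h
  show B.π P (f₀ (A.π g v)) = B.π (Q.GLRep.glRe e g) (B.π P (f₀ v))
  rw [hf₀, ← Module.End.mul_apply, ← Module.End.mul_apply, ← map_mul, ← map_mul, h3]

end

end Pool.Agent.Lib.MP_ca1492_al.P
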