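import Mathlib
import Pool.Agent.Lib.MP_ca1492_al.P.CNorm
import Pool.Agent.Lib.MP_ca1492_al.P.TrCusp

/-!
# MP_ca1492_al, p-adic side, module LevT: transport of block groups along a bijection of the index
sets

`e : κ ≃ κ'`, `glT F e : GL κ F ≃ₜ* GL κ' F`, `(glT F e g) (e i) (e j) = g i j` (`glT_apply`).

* `lev_T`, `upp_T`, `uni_T`: entrywise.
* `levT`: restriction of `glT`.
* `vl_T`: the submatrix on the class `x` is the same up to the bijection of the classes.
* `cusp_T`: `o' ↦ o = o' ∘ e`, `uni_T`; the vectors `ρ n v - v` are the same.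
* `indT`: `f ↦ f ∘ levT`: `(parD c' cb' o' h').IndSp σ ≃ (parD c cb o h).IndSp (pull (levT e hc) σ)`; the open
  subgroup is pulled back by the homeomorphism `levT`.
* `mdl_T`, `dlh_T`: `mdl` is defined by indices of subgroups, which are preserved by the isomorphism
  `glT` (`mdl_eq` for `CO`-subgroups `A` and their images), `dlh` is the square root. Or use
  `dlh_vl`, `vl_T` and the fact that `dg (patO cb o) i = dg (patO cb' o') (e i)` (counting).
-/

set_option autoImplicit false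

namespace Pool.Agent.Lib.MP_ca1492_al.P

open Topology Matrix ValuativeRel

noncomputable section

variable {F : Type} [Field F] [ValuativeRel F] [TopologicalSpace F]
  [IsNonarchimedeanLocalField F]
variable {κ κ' : Type} [Fintype κ] [DecidableEq κ] [Fintype κ'] [DecidableEq κ']
variable {ι ι' J J' : Type} (e : κ ≃ κ')
variable {V : Type} [AddCommGroup V] [Module ℂ V]

omit [ValuativeRel F] [TopologicalSpace F] [IsNonarchimedeanLocalField F] [Fintype κ]
  [Fintype κ'] in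
theorem LevT_one (i j : κ) : (1 : Matrix κ' κ' F) (e i) (e j) = (1 : Matrix κ κ F) i j := by
  rw [Matrix.one_apply, Matrix.one_apply]
  simp only [e.apply_eq_iff_eq]

theorem lev_T (c : κ → ι) (c' : κ' → ι') (hc : ∀ i j, c' (e i) = c' (e j) ↔ c i = c j)
    (g : GL κ F) : glT F e g ∈ lev F c' ↔ g ∈ lev F c := by
  constructor
  · intro hg i j hij
    have h1 := hg (e i) (e j) (fun h => hij ((hc i j).1 h))
    rwa [glT_apply] at h1
  · intro hg a b hab
    obtain ⟨i, rfl⟩ := e.surjective a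
    obtain ⟨j, rfl⟩ := e.surjective b
    rw [glT_apply]
    exact hg i j (fun h => hab ((hc i j).2 h))

theorem upp_T (c : κ → ι) (c' : κ' → ι') (hc : ∀ i j, c' (e i) = c' (e j) ↔ c i = c j)
    (o : κ → ℤ) (o' : κ' → ℤ) (ho : ∀ i, o' (e i) = o i)
    (g : GL κ F) : glT F e g ∈ upp F c' o' ↔ g ∈ upp F c o := by
  constructor
  · rintro ⟨h1, h2⟩
    refine ⟨(lev_T e c c' hc g).1 h1, fun i j hij => ?_⟩
    have h3 := h2 (e i) (e j) (by rw [ho, ho]; exact hij)
    rwa [glT_apply] at h3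
  · rintro ⟨h1, h2⟩
    refine ⟨(lev_T e c c' hc g).2 h1, fun a b hab => ?_⟩
    obtain ⟨i, rfl⟩ := e.surjective a
    obtain ⟨j, rfl⟩ := e.surjective b
    rw [ho, ho] at hab
    rw [glT_apply]
    exact h2 i j hab

theorem uni_T (c : κ → ι) (c' : κ' → ι') (hc : ∀ i j, c' (e i) = c' (e j) ↔ c i = c j)
    (o : κ → ℤ) (o' : κ' → ℤ) (ho : ∀ i, o' (e i) = o i)
    (g : GL κ F) : glT F e g ∈ uni F c' o' ↔ g ∈ uni F c o := by
  constructor
  · rintro ⟨h1, h2⟩
    refine ⟨(upp_T e c c' hc o o' ho g).1 h1, fun i j hij => ?_⟩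
    have h3 := h2 (e i) (e j) (by rw [ho, ho]; exact hij)
    rwa [glT_apply, LevT_one] at h3
  · rintro ⟨h1, h2⟩
    refine ⟨(upp_T e c c' hc o o' ho g).2 h1, fun a b hab => ?_⟩
    obtain ⟨i, rfl⟩ := e.surjective a
    obtain ⟨j, rfl⟩ := e.surjective b
    rw [ho, ho] at hab
    rw [glT_apply, LevT_one]
    exact h2 i j hab

variable (F) in
/-- the isomorphism of block groups -/
def levT {c : κ → ι} {c' : κ' → ι'} (hc : ∀ i j, c' (e i) = c' (e j) ↔ c i = c j) :
    lev F c ≃ₜ* lev F c' where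
  toFun g := ⟨glT F e g.1, (lev_T e c c' hc g.1).2 g.2⟩
  invFun g := ⟨(glT F e).symm g.1, (lev_T e c c' hc _).1 (by
    have h := g.2
    rwa [← (glT F e).apply_symm_apply g.1] at h)⟩
  left_inv g := Subtype.ext ((glT F e).symm_apply_apply g.1)
  right_inv g := Subtype.ext ((glT F e).apply_symm_apply g.1)
  map_mul' a b := Subtype.ext (map_mul (glT F e) a.1 b.1)
  continuous_toFun := ((glT F e).continuous_toFun.comp continuous_subtype_val).subtype_mk _
  continuous_invFun := ((glT F e).symm.continuous_toFun.comp continuous_subtype_val).subtype_mk _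

theorem levT_val {c : κ → ι} {c' : κ' → ι'} (hc : ∀ i j, c' (e i) = c' (e j) ↔ c i = c j)
    (g : lev F c) : (levT F e hc g).1 = glT F e g.1 := rfl

theorem vl_T [DecidableEq ι] (c : κ → ι) (c' : κ' → ι) (hc : ∀ i, c' (e i) = c i) (g : GL κ F)
    (x : ι) : vl c' (glT F e g) x = vl c g x := by
  unfold vl bdet
  congr 1
  have h0 : ∀ i, c i = x ↔ c' (e i) = x := fun i => by rw [hc]
  let E : {i // c i = x} ≃ {a // c' a = x} := e.subtypeEquiv h0
  have h1 : (g : Matrix κ κ F).submatrix (Subtype.val : {i // c i = x} → κ) Subtype.val =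
      (((glT F e g : GL κ' F) : Matrix κ' κ' F).submatrix
        (Subtype.val : {a // c' a = x} → κ') Subtype.val).submatrix
        E E := by
    ext i j
    exact (glT_apply e g i.1 j.1).symm
  rw [h1, Matrix.det_submatrix_equiv_self]

theorem LevT_kerJ {c : κ → ι} {c' : κ' → ι'} (hc : ∀ i j, c' (e i) = c' (e j) ↔ c i = c j)
    (ρ : Representation ℂ (lev F c') V) (o : κ → ℤ) (o' : κ' → ℤ) (ho : ∀ i, o' (e i) = o i) :
    (stdD F c o).kerJ (pull (levT F e hc) ρ) = (stdD F c' o').kerJ ρ := by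
  unfold PD.kerJ
  congr 1
  ext x
  constructor
  · rintro ⟨n, hn, v, rfl⟩
    exact ⟨glT F e n, (uni_T e c c' hc o o' ho n).2 hn, v, rfl⟩
  · rintro ⟨n, hn, v, rfl⟩
    have hn' : glT F e ((glT F e).symm n) ∈ uni F c' o' := by
      rw [(glT F e).apply_symm_apply]
      exact hn
    refine ⟨(glT F e).symm n, (uni_T e c c' hc o o' ho _).1 hn', v, ?_⟩
    rw [pull_apply]
    congr 3
    exact Subtype.ext ((glT F e).apply_symm_apply n).symm

theorem cusp_T {c : κ → ι} {c' : κ' → ι'} (hc : ∀ i j, c' (e i) = c' (e j) ↔ c i = c j)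
    (ρ : Representation ℂ (lev F c') V) : Cusp c (pull (levT F e hc) ρ) ↔ Cusp c' ρ := by
  constructor
  · rintro h o' ⟨a, b, hab, hne⟩
    obtain ⟨i, rfl⟩ := e.surjective a
    obtain ⟨j, rfl⟩ := e.surjective b
    rw [← LevT_kerJ e hc ρ (fun i => o' (e i)) o' fun _ => rfl]
    exact h _ ⟨i, j, (hc i j).1 hab, hne⟩
  · rintro h o ⟨i, j, hij, hne⟩
    rw [LevT_kerJ e hc ρ o (fun a => o (e.symm a)) fun i => by rw [e.symm_apply_apply]]
    refine h _ ⟨e i, e j, (hc i j).2 hij, ?_⟩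
    rw [e.symm_apply_apply, e.symm_apply_apply]
    exact hne

section

variable {G G' : Type} [Group G] [TopologicalSpace G] [Group G'] [TopologicalSpace G']

theorem LevT_mem_map (φ : G ≃ₜ* G') (A : Subgroup G) (g : G) :
    φ g ∈ A.map φ.toMulEquiv.toMonoidHom ↔ g ∈ A := by
  rw [Subgroup.mem_map]
  constructor
  · rintro ⟨x, hx, h⟩
    have h1 : x = g := φ.injective h
    rwa [← h1]
  · intro h
    exact ⟨g, h, rfl⟩

theorem LevT_co (φ : G ≃ₜ* G') {N : Subgroup G} {N' : Subgroup G'} (h : ∀ g, φ g ∈ N' ↔ g ∈ N)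
    {A : Subgroup G} (hA : CO N A) : CO N' (A.map φ.toMulEquiv.toMonoidHom) := by
  obtain ⟨h1, h2, O, hO, h3⟩ := hA
  refine ⟨?_, ?_, φ.symm ⁻¹' O, hO.preimage φ.symm.continuous_toFun, ?_⟩
  · rintro _ ⟨x, hx, rfl⟩
    exact (h x).2 (h1 hx)
  · exact h2.image φ.continuous_toFun
  · ext y
    obtain ⟨x, rfl⟩ := φ.surjective y
    have h4 : x ∈ (A : Set G) ↔ x ∈ (N : Set G) ∩ O := by rw [h3]
    rw [SetLike.mem_coe, LevT_mem_map, Set.mem_inter_iff, SetLike.mem_coe, h, Set.mem_preimage,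
      φ.symm_apply_apply]
    exact h4

theorem LevT_cj (φ : G ≃ₜ* G') (A : Subgroup G) (m : G) :
    cj (φ m) (A.map φ.toMulEquiv.toMonoidHom) = (cj m A).map φ.toMulEquiv.toMonoidHom := by
  ext y
  obtain ⟨x, rfl⟩ := φ.surjective y
  rw [LevT_mem_map, mem_cj, mem_cj, ← map_inv, ← map_mul, ← map_mul, LevT_mem_map]

theorem LevT_gi (φ : G ≃ₜ* G') (A B : Subgroup G) :
    gi (A.map φ.toMulEquiv.toMonoidHom) (B.map φ.toMulEquiv.toMonoidHom) = gi A B := by
  unfold gi
  rw [Subgroup.relIndex_map_map_of_injective _ _ φ.injective,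
    Subgroup.relIndex_map_map_of_injective _ _ φ.injective]

theorem LevT_nrm (φ : G ≃ₜ* G') {N : Subgroup G} {N' : Subgroup G'} (h : ∀ g, φ g ∈ N' ↔ g ∈ N)
    {m : G} (hm : Nrm N m) : Nrm N' (φ m) := by
  intro y
  obtain ⟨x, rfl⟩ := φ.surjective y
  rw [← map_inv, ← map_mul, ← map_mul, h, h]
  exact hm x

/-- the modulus is invariant under isomorphisms of topological groups -/
theorem LevT_mdl [IsTopologicalGroup G] [IsTopologicalGroup G'] (φ : G ≃ₜ* G') {N : Subgroup G}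
    {N' : Subgroup G'} (h : ∀ g, φ g ∈ N' ↔ g ∈ N) {m : G} (hm : Nrm N m) :
    mdl N' (φ m) = mdl N m := by
  by_cases hex : ∃ A : Subgroup G, CO N A
  · obtain ⟨A, hA⟩ := hex
    rw [mdl_eq (LevT_co φ h hA) (LevT_nrm φ h hm), mdl_eq hA hm, LevT_cj, LevT_gi]
  · have hex' : ¬ ∃ A : Subgroup G', CO N' A := by
      rintro ⟨A, hA⟩
      apply hex
      have h' : ∀ g, φ.symm g ∈ N ↔ g ∈ N' := fun g => by
        rw [← h, φ.apply_symm_apply]
      exact ⟨_, LevT_co φ.symm h' hA⟩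
    unfold mdl
    rw [dif_neg hex, dif_neg hex']

end

section

variable (c : κ → ι) (cb : κ → J) (o : κ → ℤ)
  (h : ∀ i j, c i = c j ↔ cb i = cb j ∧ o i = o j)
  (c' : κ' → ι') (cb' : κ' → J') (o' : κ' → ℤ)
  (h' : ∀ i j, c' i = c' j ↔ cb' i = cb' j ∧ o' i = o' j)
  (hc : ∀ i j, c' (e i) = c' (e j) ↔ c i = c j) (hcb : ∀ i j, cb' (e i) = cb' (e j) ↔ cb i = cb j)
  (ho : ∀ i, o' (e i) = o i)

include hcb ho in
theorem dlh_T (m : lev F c) : dlh c' cb' o' h' (levT F e hc m) = dlh c cb o h m := by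
  apply Units.ext
  rw [dlh_val, dlh_val, levT_val, LevT_mdl (glT F e) (uni_T e cb cb' hcb o o' ho)
    (Nrm_uni c cb o h m.1 m.2)]

include ho in
theorem indT (σ : Representation ℂ (lev F c') V) :
    ∃ Θ : (parD c' cb' o' h').IndSp σ ≃ₗ[ℂ] (parD c cb o h).IndSp (pull (levT F e hc) σ),
      (∀ f g, (Θ f).1 g = f.1 (levT F e hcb g)) ∧
      ∀ (g : lev F cb) f, Θ ((parD c' cb' o' h').Ind σ (levT F e hcb g) f) =
        (parD c cb o h).Ind (pull (levT F e hc) σ) g (Θ f) := by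
  have key : ∀ (m : GL κ F) (hm : m ∈ lev F c) (n : GL κ F) (hn : n ∈ uni F cb o)
      (g : lev F cb), levT F e hcb (⟨m, (parD c cb o h).hM hm⟩ * ⟨n, (parD c cb o h).hN hn⟩ * g) =
        ⟨glT F e m, (parD c' cb' o' h').hM ((lev_T e c c' hc m).2 hm)⟩ *
          ⟨glT F e n, (parD c' cb' o' h').hN ((uni_T e cb cb' hcb o o' ho n).2 hn)⟩ *
            levT F e hcb g := by
    intro m hm n hn g
    rw [map_mul, map_mul]
    rfl
  have key' : ∀ (m : GL κ' F) (hm : m ∈ lev F c') (n : GL κ' F) (hn : n ∈ uni F cb' o')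
      (g : lev F cb'), ∃ (hm' : (glT F e).symm m ∈ lev F c) (hn' : (glT F e).symm n ∈ uni F cb o),
        (levT F e hcb).symm (⟨m, (parD c' cb' o' h').hM hm⟩ *
          ⟨n, (parD c' cb' o' h').hN hn⟩ * g) =
        ⟨(glT F e).symm m, (parD c cb o h).hM hm'⟩ *
          ⟨(glT F e).symm n, (parD c cb o h).hN hn'⟩ * (levT F e hcb).symm g := by
    intro m hm n hn g
    have hm' : (glT F e).symm m ∈ lev F c := by
      rw [← lev_T e c c' hc, (glT F e).apply_symm_apply]
      exact hm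
    have hn' : (glT F e).symm n ∈ uni F cb o := by
      rw [← uni_T e cb cb' hcb o o' ho, (glT F e).apply_symm_apply]
      exact hn
    refine ⟨hm', hn', ?_⟩
    rw [map_mul, map_mul]
    rfl
  refine ⟨{
    toFun := fun f => ⟨fun g => f.1 (levT F e hcb g), ?_, ?_⟩
    map_add' := fun a b => rfl
    map_smul' := fun a b => rfl
    invFun := fun f => ⟨fun g => f.1 ((levT F e hcb).symm g), ?_, ?_⟩
    left_inv := fun f => Subtype.ext (funext fun g => by
      show f.1 (levT F e hcb ((levT F e hcb).symm g)) = f.1 g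
      rw [(levT F e hcb).apply_symm_apply])
    right_inv := fun f => Subtype.ext (funext fun g => by
      show f.1 ((levT F e hcb).symm (levT F e hcb g)) = f.1 g
      rw [(levT F e hcb).symm_apply_apply]) }, fun _ _ => rfl, ?_⟩
  · intro m hm n hn g
    show f.1 (levT F e hcb (⟨m, (parD c cb o h).hM hm⟩ * ⟨n, (parD c cb o h).hN hn⟩ * g)) = _
    rw [key m hm n hn g]
    exact f.2.1 _ ((lev_T e c c' hc m).2 hm) _ ((uni_T e cb cb' hcb o o' ho n).2 hn) _
  · obtain ⟨_, U, hU, h2⟩ := f.2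
    refine ⟨U.comap (levT F e hcb).toMulEquiv.toMonoidHom,
      hU.preimage (levT F e hcb).continuous_toFun, fun g u hu => ?_⟩
    show f.1 (levT F e hcb (g * u)) = f.1 (levT F e hcb g)
    rw [map_mul]
    exact h2 _ _ hu
  · intro m hm n hn g
    obtain ⟨hm', hn', h3⟩ := key' m hm n hn g
    show f.1 ((levT F e hcb).symm (⟨m, (parD c' cb' o' h').hM hm⟩ *
          ⟨n, (parD c' cb' o' h').hN hn⟩ * g)) = _
    rw [h3]
    refine (f.2.1 _ hm' _ hn' _).trans ?_
    rw [pull_apply]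
    congr 2
    exact Subtype.ext ((glT F e).apply_symm_apply m)
  · obtain ⟨_, U, hU, h2⟩ := f.2
    refine ⟨U.comap (levT F e hcb).symm.toMulEquiv.toMonoidHom,
      hU.preimage (levT F e hcb).symm.continuous_toFun, fun g u hu => ?_⟩
    show f.1 ((levT F e hcb).symm (g * u)) = f.1 ((levT F e hcb).symm g)
    rw [map_mul]
    exact h2 _ _ hu
  · intro g f
    refine Subtype.ext (funext fun x => ?_)
    show f.1 (levT F e hcb x * levT F e hcb g) = f.1 (levT F e hcb (x * g))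
    rw [map_mul]

end

omit [ValuativeRel F] [TopologicalSpace F] [IsNonarchimedeanLocalField F] in
theorem LevT_recol_lev (cb : κ → J) (cb' : κ → J') (hcb : ∀ i j, cb' i = cb' j ↔ cb i = cb j) :
    lev F cb' = lev F cb := by
  ext g
  constructor
  · intro hg i j hij
    exact hg i j fun h => hij ((hcb i j).1 h)
  · intro hg i j hij
    exact hg i j fun h => hij ((hcb i j).2 h)

omit [ValuativeRel F] [TopologicalSpace F] [IsNonarchimedeanLocalField F] in
theorem LevT_recol_uni (cb : κ → J) (o : κ → ℤ) (cb' : κ → J') (o' : κ → ℤ)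
    (hcb : ∀ i j, cb' i = cb' j ↔ cb i = cb j)
    (ho : ∀ i j, cb i = cb j → (o' i < o' j ↔ o i < o j)) (g : GL κ F) (hg : g ∈ uni F cb o) :
    g ∈ uni F cb' o' := by
  have h0 : ∀ i j, cb i ≠ cb j → (1 : Matrix κ κ F) i j = 0 := by
    intro i j hij
    rw [Matrix.one_apply_ne]
    rintro rfl
    exact hij rfl
  refine ⟨⟨?_, fun i j hij => ?_⟩, fun i j hij => ?_⟩
  · rw [LevT_recol_lev cb cb' hcb]
    exact hg.1.1
  · by_cases h : cb j = cb i
    · exact hg.1.2 i j ((ho j i h).1 hij)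
    · exact hg.1.1 i j fun h' => h h'.symm
  · by_cases h : cb i = cb j
    · have h1 := ho i j h
      have h2 := ho j i h.symm
      exact hg.2 i j (by omega)
    · rw [hg.1.1 i j h, h0 i j h]

theorem LevT_recol_ind (c : κ → ι) (cb : κ → J) (o : κ → ℤ)
    (h : ∀ i j, c i = c j ↔ cb i = cb j ∧ o i = o j)
    (cb' : κ → J') (o' : κ → ℤ) (h' : ∀ i j, c i = c j ↔ cb' i = cb' j ∧ o' i = o' j)
    (hcb : ∀ i j, cb' i = cb' j ↔ cb i = cb j)
    (ho : ∀ i j, cb i = cb j → (o' i < o' j ↔ o i < o j)) (σ : Representation ℂ (lev F c) V)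
    (f : GL κ F → V) (hf : (fun g : lev F cb => f g.1) ∈ (parD c cb o h).IndSp σ) :
      (fun g : lev F cb' => f g.1) ∈ (parD c cb' o' h').IndSp σ := by
  have hle : lev F cb' ≤ lev F cb := (LevT_recol_lev cb cb' hcb).le
  obtain ⟨h1, U, hU, h2⟩ := hf
  refine ⟨fun m hm n hn g => ?_, U.comap (Subgroup.inclusion hle),
    hU.preimage (continuous_subtype_val.subtype_mk _), fun g u hu => ?_⟩
  · have hn' : n ∈ uni F cb o := LevT_recol_uni cb' o' cb o (fun i j => (hcb i j).symm)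
      (fun i j hij => (ho i j ((hcb i j).1 hij)).symm) n hn
    exact h1 m hm n hn' ⟨g.1, hle g.2⟩
  · exact h2 ⟨g.1, hle g.2⟩ _ hu

/-- recolouring: an injective change of colours does not change the block group; same index set -/
theorem ind_recolour (c : κ → ι) (cb : κ → J) (o : κ → ℤ)
    (h : ∀ i j, c i = c j ↔ cb i = cb j ∧ o i = o j)
    (cb' : κ → J') (o' : κ → ℤ) (h' : ∀ i j, c i = c j ↔ cb' i = cb' j ∧ o' i = o' j)
    (hcb : ∀ i j, cb' i = cb' j ↔ cb i = cb j)
    (ho : ∀ i j, cb i = cb j → (o' i < o' j ↔ o i < o j)) (σ : Representation ℂ (lev F c) V)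
    (f : GL κ F → V) :
    (fun g : lev F cb => f g.1) ∈ (parD c cb o h).IndSp σ ↔
      (fun g : lev F cb' => f g.1) ∈ (parD c cb' o' h').IndSp σ :=
  ⟨LevT_recol_ind c cb o h cb' o' h' hcb ho σ f,
    LevT_recol_ind c cb' o' h' cb o h (fun i j => (hcb i j).symm)
      (fun i j hij => (ho i j ((hcb i j).1 hij)).symm) σ f⟩

end

end Pool.Agent.Lib.MP_ca1492_al.P
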