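import Mathlib
import Pool.Agent.Lib.MP_ca1492_al.P.CGLa
import Pool.Agent.Lib.MP_ca1492_al.P.Frob
import Pool.Agent.Lib.MP_ca1492_al.P.Iwasawa

/-!
# MP_ca1492_al, p-adic side, module IndEx: parabolic induction is exact and preserves admissibility

`H = lev F cb`, `P = upp cb o`, `D = parD c cb o h`.

* `dc_fin`: for an open subgroup `U` of `H` there is a finite set `s ⊆ H` with `H = P s U`: by
  `iwasawa` `H = P K`, `K = Kc 0 ∩ lev cb` compact, covered by finitely many cosets `x U`, `x ∈ K`.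
* `ind_surj`: `f' ∈ Ind σ'` right invariant under the compact open subgroup `K'` (`CGLa_lev_hasCO`).
  Choose a finite set `s` of representatives of the DISTINCT double cosets `P x K'`. For `x ∈ s` the
  vector `f' x` is fixed by `C_x = P ∩ x K' x⁻¹` (acting through `aP σ'`), a compact subgroup of `P`
  (`P` closed). `aP σ`, `aP σ'` are smooth (`aP_smooth`), so by `fix_surj` (applied to the group `↥P`)
  there is `e_x ∈ E` fixed by `C_x` with `T e_x = f' x`. Define `f (p x k) = aP σ p (e_x)`: well defined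
  (`p x k = p₁ x k₁` implies `p₁⁻¹ p = x k₁ k⁻¹ x⁻¹ ∈ C_x`), in `IS`, and `T ∘ f = f'`.
  (`mem_IndSp_iff`.)
* `ind_adm`: for an open `U` choose a compact open `K' ≤ U` and `s` finite with `H = P s K'`;
  `fix (Ind σ) U ≤ fix (Ind σ) K'` and `f ↦ (f x)_{x ∈ s}` is injective on the latter with values in
  `∏ fix σ (lev c ∩ x K' x⁻¹)` (`lev c ∩ x K' x⁻¹` is open in `lev c`, `prL` is the identity on
  `lev c`), a finite dimensional space.
-/

set_option autoImplicit false

namespace Pool.Agent.Lib.MP_ca1492_al.P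

open Topology Matrix ValuativeRel

noncomputable section

variable {F : Type} [Field F] [ValuativeRel F] [TopologicalSpace F]
  [IsNonarchimedeanLocalField F] {κ : Type} [Fintype κ] [DecidableEq κ]
variable {E E' : Type} [AddCommGroup E] [Module ℂ E] [AddCommGroup E'] [Module ℂ E']
variable {ι ι' : Type}

/-- the subgroup `P ∩ x K x⁻¹` of `P` -/
def IndEx_C {A : Type} [Group A] (P K : Subgroup A) (x : A) : Subgroup P :=
  K.comap ((MulAut.conj x⁻¹).toMonoidHom.comp P.subtype)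

theorem IndEx_mem_C {A : Type} [Group A] {P K : Subgroup A} {x : A} {p : P} :
    p ∈ IndEx_C P K x ↔ x⁻¹ * (p : A) * x ∈ K := by
  show x⁻¹ * (p : A) * x⁻¹⁻¹ ∈ K ↔ _
  rw [inv_inv]

theorem IndEx_C_open {A : Type} [Group A] [TopologicalSpace A] [IsTopologicalGroup A]
    (P K : Subgroup A) (hK : IsOpen (K : Set A)) (x : A) :
    IsOpen (IndEx_C P K x : Set P) := by
  have h1 : (IndEx_C P K x : Set P) = (fun p : P => x⁻¹ * (p : A) * x) ⁻¹' (K : Set A) := by
    ext p
    exact IndEx_mem_C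
  rw [h1]
  exact hK.preimage ((continuous_const.mul continuous_subtype_val).mul continuous_const)

theorem IndEx_C_compact {A : Type} [Group A] [TopologicalSpace A] [IsTopologicalGroup A]
    (P K : Subgroup A) (hP : IsClosed (P : Set A)) (hK : IsCompact (K : Set A)) (x : A) :
    IsCompact (IndEx_C P K x : Set P) := by
  have h1 : (IndEx_C P K x : Set P) =
      (Subtype.val : P → A) ⁻¹' ((fun y => x * y * x⁻¹) '' (K : Set A)) := by
    ext p
    rw [SetLike.mem_coe, IndEx_mem_C]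
    constructor
    · intro h
      exact ⟨_, h, by group⟩
    · rintro ⟨y, hy, h⟩
      have h2 : x * y * x⁻¹ = (p : A) := h
      have h3 : x⁻¹ * (p : A) * x = y := by
        rw [← h2]
        group
      rw [h3]
      exact hy
  rw [h1]
  exact hP.isClosedEmbedding_subtypeVal.isCompact_preimage
    (hK.image ((continuous_const.mul continuous_id).mul continuous_const))

theorem IndEx_fix {A : Type} [Group A] (P K : Subgroup A) (a : Representation ℂ P E)
    (f : A → E) (h1 : ∀ (p : P) (g : A), f (p * g) = a p (f g))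
    (h2 : ∀ g, ∀ k ∈ K, f (g * k) = f g) (x : A) : f x ∈ fix a (IndEx_C P K x) := by
  intro p hp
  rw [← h1 p x]
  have h3 := h2 x _ (IndEx_mem_C.1 hp)
  rw [← h3]
  congr 1
  group

/-- lifting of an element of the induced space, abstract form -/
theorem IndEx_surj {A : Type} [Group A] [TopologicalSpace A] [IsTopologicalGroup A]
    (P : Subgroup A) (hP : IsClosed (P : Set A)) (hco : HasCO A)
    (a : Representation ℂ P E) (a' : Representation ℂ P E') (ha : IsSm a) (ha' : IsSm a')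
    (T : E →ₗ[ℂ] E') (hT : Equi a a' T) (hs : Function.Surjective T) (f' : A → E')
    (hf' : f' ∈ IS P a') : ∃ f ∈ IS P a, ∀ g, T (f g) = f' g := by
  obtain ⟨h1, U, hU, h2⟩ := hf'
  obtain ⟨K, hKo, hKc, hKU⟩ := hco U (hU.mem_nhds U.one_mem)
  have h2' : ∀ g, ∀ k ∈ K, f' (g * k) = f' g := fun g k hk => h2 g k (hKU hk)
  have he : ∀ x, ∃ e ∈ fix a (IndEx_C P K x), T e = f' x := fun x =>
    fix_surj a a' ha ha' (IndEx_C P K x) (IndEx_C_compact P K hP hKc x) T hT hs (f' x)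
      (IndEx_fix P K a' f' h1 h2' x)
  choose e he1 he2 using he
  let S : Setoid A :=
    { r := fun g g' => ∃ p ∈ P, ∃ k ∈ K, g' = p * g * k
      iseqv := by
        refine ⟨fun g => ⟨1, P.one_mem, 1, K.one_mem, by group⟩, ?_, ?_⟩
        · rintro g g' ⟨p, hp, k, hk, rfl⟩
          exact ⟨p⁻¹, P.inv_mem hp, k⁻¹, K.inv_mem hk, by group⟩
        · rintro g g' g'' ⟨p, hp, k, hk, rfl⟩ ⟨q, hq, l, hl, rfl⟩
          exact ⟨q * p, P.mul_mem hq hp, k * l, K.mul_mem hk hl, by group⟩ }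
  let r : A → A := fun g => (Quotient.mk S g).out
  have hr : ∀ g, ∃ p ∈ P, ∃ k ∈ K, g = p * r g * k := fun g => Quotient.mk_out (s := S) g
  have hr2 : ∀ g, ∀ p ∈ P, ∀ k ∈ K, r (p * g * k) = r g := by
    intro g p hp k hk
    have h3 : Quotient.mk S (p * g * k) = Quotient.mk S g :=
      Quotient.sound (s := S) ⟨p⁻¹, P.inv_mem hp, k⁻¹, K.inv_mem hk, by group⟩
    exact congrArg Quotient.out h3
  choose p hp k hk hg using hr
  have key : ∀ (g q l : A) (hq : q ∈ P), l ∈ K → g = q * r g * l →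
      a ⟨p g, hp g⟩ (e (r g)) = a ⟨q, hq⟩ (e (r g)) := by
    intro g q l hq hl hgq
    have h3 : (⟨p g, hp g⟩ : P) = ⟨q, hq⟩ * (⟨q, hq⟩⁻¹ * ⟨p g, hp g⟩) := by group
    have h4 : (⟨q, hq⟩⁻¹ * ⟨p g, hp g⟩ : P) ∈ IndEx_C P K (r g) := by
      rw [IndEx_mem_C]
      have h5 : p g * r g * k g = q * r g * l := (hg g).symm.trans hgq
      have h6 : (r g)⁻¹ * ((⟨q, hq⟩⁻¹ * ⟨p g, hp g⟩ : P) : A) * r g = l * (k g)⁻¹ := by
        show (r g)⁻¹ * (q⁻¹ * p g) * r g = _
        calc (r g)⁻¹ * (q⁻¹ * p g) * r g = (r g)⁻¹ * q⁻¹ * (p g * r g * k g) * (k g)⁻¹ := by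
              group
          _ = _ := by
              rw [h5]
              group
      rw [h6]
      exact K.mul_mem hl (K.inv_mem (hk g))
    rw [h3, map_mul, Module.End.mul_apply, he1 (r g) _ h4]
  refine ⟨fun g => a ⟨p g, hp g⟩ (e (r g)), ⟨fun q g => ?_, K, hKo, fun g u hu => ?_⟩,
    fun g => ?_⟩
  · have h3 : r (q * g) = r g := by
      have := hr2 g q q.2 1 K.one_mem
      rwa [mul_one] at this
    have h4 := key (q * g) (q * p g) (k g) (P.mul_mem q.2 (hp g)) (hk g) (by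
      rw [h3]
      conv_lhs => rw [hg g]
      group)
    show a ⟨p (q * g), hp (q * g)⟩ (e (r (q * g))) = _
    rw [h4, h3]
    have h5 : (⟨q * p g, P.mul_mem q.2 (hp g)⟩ : P) = q * ⟨p g, hp g⟩ := rfl
    rw [h5, map_mul, Module.End.mul_apply]
  · have h3 : r (g * u) = r g := by
      have := hr2 g 1 P.one_mem u hu
      rwa [one_mul] at this
    have h4 := key (g * u) (p g) (k g * u) (hp g) (K.mul_mem (hk g) hu) (by
      rw [h3]
      conv_lhs => rw [hg g]
      group)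
    show a ⟨p (g * u), hp (g * u)⟩ (e (r (g * u))) = _
    rw [h4, h3]
  · show T (a ⟨p g, hp g⟩ (e (r g))) = f' g
    rw [hT, he2, ← h1]
    conv_rhs => rw [hg g]
    exact (h2' _ _ (hk g)).symm

theorem dc_fin (cb : κ → ι') (o : κ → ℤ) (U : Subgroup (lev F cb))
    (hU : IsOpen (U : Set (lev F cb))) :
    ∃ s : Finset (lev F cb), ∀ g : lev F cb, ∃ p ∈ PPs F cb o, ∃ x ∈ s, ∃ u ∈ U,
      g = p * x * u := by
  have hK : IsCompact ((Subtype.val : lev F cb → GL κ F) ⁻¹' (Kc F κ 0 : Set (GL κ F))) :=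
    (lev_isClosed (F := F) cb).isClosedEmbedding_subtypeVal.isCompact_preimage (Kc_isCompact 0)
  obtain ⟨s, -, hs⟩ := hK.elim_nhds_subcover (fun x => (fun y => x⁻¹ * y) ⁻¹' (U : Set (lev F cb)))
    (fun x _ => (hU.preimage (continuous_const.mul continuous_id)).mem_nhds (by
      show x⁻¹ * x ∈ U
      rw [inv_mul_cancel]
      exact U.one_mem))
  refine ⟨s, fun g => ?_⟩
  obtain ⟨p, hp, k, hk, hkl, hg⟩ := iwasawa cb o g.1 g.2
  have h1 := hs (show (⟨k, hkl⟩ : lev F cb) ∈ _ from hk)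
  simp only [Set.mem_iUnion] at h1
  obtain ⟨x, hx, hxk⟩ := h1
  refine ⟨⟨p, hp.1⟩, hp, x, hx, x⁻¹ * ⟨k, hkl⟩, hxk, ?_⟩
  apply Subtype.ext
  show g.1 = p * x.1 * (x.1⁻¹ * k)
  rw [hg]
  group

theorem IndEx_PPs_closed (cb : κ → ι') (o : κ → ℤ) :
    IsClosed (PPs F cb o : Set (lev F cb)) :=
  (upp_isClosed (F := F) cb o).preimage continuous_subtype_val

theorem ind_surj (c : κ → ι) (cb : κ → ι') (o : κ → ℤ)
    (h : ∀ i j, c i = c j ↔ cb i = cb j ∧ o i = o j) (σ : Representation ℂ (lev F c) E)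
    (σ' : Representation ℂ (lev F c) E') (hσ : IsSm σ) (hσ' : IsSm σ') (T : E →ₗ[ℂ] E')
    (hT : Equi σ σ' T) (hs : Function.Surjective T) :
    Function.Surjective ((parD c cb o h).IndMap σ σ' T hT) := by
  intro f'
  obtain ⟨f, hf, hf2⟩ := IndEx_surj (PPs F cb o) (IndEx_PPs_closed cb o) (CGLa_lev_hasCO cb)
    (aP c cb o h σ) (aP c cb o h σ') (aP_smooth c cb o h σ hσ) (aP_smooth c cb o h σ' hσ') T
    (fun p v => hT _ v) hs f'.1 ((mem_IndSp_iff c cb o h σ' f'.1).1 f'.2)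
  refine ⟨⟨f, (mem_IndSp_iff c cb o h σ f).2 hf⟩, Subtype.ext (funext fun g => hf2 g)⟩

theorem ind_injective (c : κ → ι) (cb : κ → ι') (o : κ → ℤ)
    (h : ∀ i j, c i = c j ↔ cb i = cb j ∧ o i = o j) (σ : Representation ℂ (lev F c) E)
    (σ' : Representation ℂ (lev F c) E') (T : E →ₗ[ℂ] E')
    (hT : Equi σ σ' T) (hs : Function.Injective T) :
    Function.Injective ((parD c cb o h).IndMap σ σ' T hT) := by
  intro f f' hff
  refine Subtype.ext (funext fun g => hs ?_)
  exact congrFun (congrArg Subtype.val hff) g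

/-- the kernel of the induced map consists of the functions with values in the kernel -/
theorem ind_ker (c : κ → ι) (cb : κ → ι') (o : κ → ℤ)
    (h : ∀ i j, c i = c j ↔ cb i = cb j ∧ o i = o j) (σ : Representation ℂ (lev F c) E)
    (σ' : Representation ℂ (lev F c) E') (T : E →ₗ[ℂ] E')
    (hT : Equi σ σ' T) (f : (parD c cb o h).IndSp σ) :
    (parD c cb o h).IndMap σ σ' T hT f = 0 ↔ ∀ g, T (f.1 g) = 0 := by
  constructor
  · intro hf g
    exact congrFun (congrArg Subtype.val hf) g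
  · intro hf
    exact Subtype.ext (funext fun g => hf g)

theorem IndEx_aP_adm (c : κ → ι) (cb : κ → ι') (o : κ → ℤ)
    (h : ∀ i j, c i = c j ↔ cb i = cb j ∧ o i = o j) (σ : Representation ℂ (lev F c) E)
    (ha : Adm σ) : Adm (aP c cb o h σ) := by
  intro V hV
  have h1 : ∀ m : lev F c, m.1 ∈ lev F cb := fun m => (prL_lev c cb o h m.1 m.2).1
  have h2 : ∀ m : lev F c, (⟨m.1, h1 m⟩ : lev F cb) ∈ PPs F cb o :=
    fun m => (prL_lev c cb o h m.1 m.2).2.1
  have h3 : ∀ m : lev F c, prL c cb o h ⟨⟨m.1, h1 m⟩, h2 m⟩ = m :=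
    fun m => (prL_lev c cb o h m.1 m.2).2.2
  let i : lev F c →* PPs F cb o :=
    { toFun := fun m => ⟨⟨m.1, h1 m⟩, h2 m⟩
      map_one' := rfl
      map_mul' := fun a b => rfl }
  have hi : Continuous i :=
    (continuous_subtype_val.subtype_mk (fun m : lev F c => h1 m)).subtype_mk h2
  haveI := ha (V.comap i) (hV.preimage hi)
  refine Submodule.finiteDimensional_of_le (S₂ := fix σ (V.comap i)) ?_
  intro v hv m hm
  have h4 : aP c cb o h σ (i m) v = v := hv (i m) hm
  have h5 : aP c cb o h σ (i m) = σ m := by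
    show σ (prL c cb o h (i m)) = σ m
    rw [show prL c cb o h (i m) = m from h3 m]
  rwa [h5] at h4

theorem ind_adm (c : κ → ι) (cb : κ → ι') (o : κ → ℤ)
    (h : ∀ i j, c i = c j ↔ cb i = cb j ∧ o i = o j) (σ : Representation ℂ (lev F c) E)
    (hσ : IsSm σ) (ha : Adm σ) : Adm ((parD c cb o h).Ind σ) := by
  intro U hU
  obtain ⟨s, hs⟩ := dc_fin (F := F) cb o U hU
  have haP := IndEx_aP_adm c cb o h σ ha
  have hinv : ∀ f ∈ fix ((parD c cb o h).Ind σ) U, ∀ g, ∀ u ∈ U, f.1 (g * u) = f.1 g := by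
    intro f hf g u hu
    exact congrFun (congrArg Subtype.val (hf u hu)) g
  have hmem : ∀ (f : fix ((parD c cb o h).Ind σ) U) (x : lev F cb),
      f.1.1 x ∈ fix (aP c cb o h σ) (IndEx_C (PPs F cb o) U x) := fun f x =>
    IndEx_fix (PPs F cb o) U (aP c cb o h σ) f.1.1
      ((mem_IndSp_iff c cb o h σ f.1.1).1 f.1.2).1 (hinv f.1 f.2) x
  haveI hfd : ∀ x : s, FiniteDimensional ℂ (fix (aP c cb o h σ) (IndEx_C (PPs F cb o) U x.1)) :=
    fun x => haP _ (IndEx_C_open (PPs F cb o) U hU x.1)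
  let L : fix ((parD c cb o h).Ind σ) U →ₗ[ℂ]
      ((x : s) → fix (aP c cb o h σ) (IndEx_C (PPs F cb o) U x.1)) :=
    { toFun := fun f x => ⟨f.1.1 x.1, hmem f x.1⟩
      map_add' := fun f f' => rfl
      map_smul' := fun t f => rfl }
  refine FiniteDimensional.of_injective L ?_
  intro f f' hff
  refine Subtype.ext (Subtype.ext (funext fun g => ?_))
  obtain ⟨p, hp, x, hx, u, hu, rfl⟩ := hs g
  have h1 : f.1.1 x = f'.1.1 x := congrArg Subtype.val (congrFun hff ⟨x, hx⟩)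
  have h2 := ((mem_IndSp_iff c cb o h σ f.1.1).1 f.1.2).1 ⟨p, hp⟩ x
  have h3 := ((mem_IndSp_iff c cb o h σ f'.1.1).1 f'.1.2).1 ⟨p, hp⟩ x
  rw [hinv f.1 f.2 _ u hu, hinv f'.1 f'.2 _ u hu]
  exact h2.trans ((congrArg _ h1).trans h3.symm)

end

end Pool.Agent.Lib.MP_ca1492_al.P
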