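import Mathlib
import Pool.Agent.Lib.MP_ca1492_al.P.CuspDefs
import Pool.Agent.Lib.MP_ca1492_al.P.Schur

/-!
# MP_ca1492_al, p-adic side, module ExtT: external tensor products of representations of block
groups

`c₁ : κ₁ → ι₁`, `c₂ : κ₂ → ι₂`, `c = Sum.map c₁ c₂ : κ₁ ⊕ κ₂ → ι₁ ⊕ ι₂`. An element of `lev F c` is a block
diagonal matrix with blocks `pr₁ g ∈ lev F c₁` and `pr₂ g ∈ lev F c₂`.

* `pr₁`, `pr₂` are multiplicative since the off diagonal blocks vanish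
  (`(g h)₁₁ = g₁₁ h₁₁ + g₁₂ h₂₁`), see `extT_mul`.
* `pr₁_cont`: the topology of `GL` is induced by `g ↦ (g, g⁻¹)` (`Units.continuous_iff`) and the
  entries are continuous.
* `lsum_pr`: `g = lsum (pr₁ g) (pr₂ g)` by comparing entries.
* `ext_smooth`: induction on the tensor; the stabilizer of `v₁ ⊗ v₂` contains the intersection of the
  preimages of the stabilizers of `v₁` and `v₂` under the continuous maps `pr₁`, `pr₂`.
* `ext_irr`: `U ≤ V₁ ⊗ V₂` stable. Restricting to the elements `lsum h₁ 1` we see that `U` is stable for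
  `tens ρ₁ V₂`, so `U = V₁ ⊗ O'` (`tens_sub`), and restricting to `lsum 1 h₂` that `O'` is stable under `ρ₂`
  (`v₁ ⊗ ρ₂ h₂ o ∈ V₁ ⊗ O'` for a nonzero `v₁` implies `ρ₂ h₂ o ∈ O'`: apply a linear form on
  `V₁`). So `O' = ⊥` or `⊤` and `U = ⊥` or `⊤`. Nonzero: `v₁ ⊗ v₂ ≠ 0` for nonzero `v₁`, `v₂`.
* `ext_cusp`: let `o` be nonconstant on a class of `c`, e.g. `c (inl i) = c (inl j)` and
  `o (inl i) ≠ o (inl j)` (indices `inl i`, `inr j` are never in the same class). Put `o₁ = o ∘ inl`. For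
  `n₁ ∈ uni F c₁ o₁` the element `lsum n₁ 1` is in `uni F c o`, and
  `(ρ₁ n₁ v₁ - v₁) ⊗ v₂ = ext (lsum n₁ 1) (v₁ ⊗ v₂) - v₁ ⊗ v₂ ∈ kerJ`. As the `ρ₁ n₁ v₁ - v₁` span `V₁`
  (`Cusp c₁ ρ₁`), all `v₁ ⊗ v₂` are in `kerJ`. The other case is symmetric.
* `vl_inl`: the submatrix of `g` on `{i | c i = inl x}` is the submatrix of `pr₁ g` on `{i | c₁ i = x}`
  (reindexed by a bijection, `Matrix.det_submatrix_equiv_self`).
* `ext_map`, `ext_iso`: the tensor product of equivariant maps is equivariant.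
-/

set_option autoImplicit false

namespace Pool.Agent.Lib.MP_ca1492_al.P

open Topology Matrix ValuativeRel TensorProduct

noncomputable section

variable {F : Type} [Field F] [ValuativeRel F] [TopologicalSpace F]
  [IsNonarchimedeanLocalField F]
variable {κ₁ κ₂ : Type} [Fintype κ₁] [DecidableEq κ₁] [Fintype κ₂] [DecidableEq κ₂]
variable {ι₁ ι₂ : Type} (c₁ : κ₁ → ι₁) (c₂ : κ₂ → ι₂)
variable {V₁ V₂ W₁ W₂ : Type} [AddCommGroup V₁] [Module ℂ V₁] [AddCommGroup V₂] [Module ℂ V₂]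
  [AddCommGroup W₁] [Module ℂ W₁] [AddCommGroup W₂] [Module ℂ W₂]

variable {c₁ c₂} in
theorem extT_mul (g h : GL (κ₁ ⊕ κ₂) F) (hg : g ∈ lev F (Sum.map c₁ c₂)) :
    ((g : Matrix (κ₁ ⊕ κ₂) (κ₁ ⊕ κ₂) F) * (h : Matrix (κ₁ ⊕ κ₂) (κ₁ ⊕ κ₂) F)).toBlocks₁₁ =
      (g : Matrix (κ₁ ⊕ κ₂) (κ₁ ⊕ κ₂) F).toBlocks₁₁ *
        (h : Matrix (κ₁ ⊕ κ₂) (κ₁ ⊕ κ₂) F).toBlocks₁₁ ∧
    ((g : Matrix (κ₁ ⊕ κ₂) (κ₁ ⊕ κ₂) F) * (h : Matrix (κ₁ ⊕ κ₂) (κ₁ ⊕ κ₂) F)).toBlocks₂₂ =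
      (g : Matrix (κ₁ ⊕ κ₂) (κ₁ ⊕ κ₂) F).toBlocks₂₂ *
        (h : Matrix (κ₁ ⊕ κ₂) (κ₁ ⊕ κ₂) F).toBlocks₂₂ := by
  constructor
  · ext i j
    simp only [Matrix.toBlocks₁₁, Matrix.of_apply, Matrix.mul_apply, Fintype.sum_sum_type]
    rw [Finset.sum_eq_zero (s := (Finset.univ : Finset κ₂)), add_zero]
    intro k _
    rw [hg (Sum.inl i) (Sum.inr k) (by simp), zero_mul]
  · ext i j
    simp only [Matrix.toBlocks₂₂, Matrix.of_apply, Matrix.mul_apply, Fintype.sum_sum_type]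
    rw [Finset.sum_eq_zero (s := (Finset.univ : Finset κ₁)), zero_add]
    intro k _
    rw [hg (Sum.inr i) (Sum.inl k) (by simp), zero_mul]

theorem extT_one₁ : (1 : Matrix (κ₁ ⊕ κ₂) (κ₁ ⊕ κ₂) F).toBlocks₁₁ = 1 := by
  rw [← Matrix.fromBlocks_one, Matrix.toBlocks_fromBlocks₁₁]

theorem extT_one₂ : (1 : Matrix (κ₁ ⊕ κ₂) (κ₁ ⊕ κ₂) F).toBlocks₂₂ = 1 := by
  rw [← Matrix.fromBlocks_one, Matrix.toBlocks_fromBlocks₂₂]

variable (F) in
/-- the first block -/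
def pr₁ : lev F (Sum.map c₁ c₂) →* lev F c₁ where
  toFun g := ⟨⟨(g.1 : Matrix (κ₁ ⊕ κ₂) (κ₁ ⊕ κ₂) F).toBlocks₁₁,
      ((g.1⁻¹ : GL (κ₁ ⊕ κ₂) F) : Matrix (κ₁ ⊕ κ₂) (κ₁ ⊕ κ₂) F).toBlocks₁₁, by
        rw [← (extT_mul g.1 g.1⁻¹ g.2).1, ← Units.val_mul, mul_inv_cancel, Units.val_one]
        exact extT_one₁, by
        rw [← (extT_mul g.1⁻¹ g.1 ((lev F (Sum.map c₁ c₂)).inv_mem g.2)).1, ← Units.val_mul,
          inv_mul_cancel, Units.val_one]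
        exact extT_one₁⟩, fun i j hij => g.2 (Sum.inl i) (Sum.inl j) (by
          intro h
          exact hij (Sum.inl_injective h))⟩
  map_one' := Subtype.ext (Units.ext extT_one₁)
  map_mul' := fun a b => Subtype.ext (Units.ext (extT_mul a.1 b.1 a.2).1)

variable (F) in
/-- the second block -/
def pr₂ : lev F (Sum.map c₁ c₂) →* lev F c₂ where
  toFun g := ⟨⟨(g.1 : Matrix (κ₁ ⊕ κ₂) (κ₁ ⊕ κ₂) F).toBlocks₂₂,
      ((g.1⁻¹ : GL (κ₁ ⊕ κ₂) F) : Matrix (κ₁ ⊕ κ₂) (κ₁ ⊕ κ₂) F).toBlocks₂₂, by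
        rw [← (extT_mul g.1 g.1⁻¹ g.2).2, ← Units.val_mul, mul_inv_cancel, Units.val_one]
        exact extT_one₂, by
        rw [← (extT_mul g.1⁻¹ g.1 ((lev F (Sum.map c₁ c₂)).inv_mem g.2)).2, ← Units.val_mul,
          inv_mul_cancel, Units.val_one]
        exact extT_one₂⟩, fun i j hij => g.2 (Sum.inr i) (Sum.inr j) (by
          intro h
          exact hij (Sum.inr_injective h))⟩
  map_one' := Subtype.ext (Units.ext extT_one₂)
  map_mul' := fun a b => Subtype.ext (Units.ext (extT_mul a.1 b.1 a.2).2)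

/-- block diagonal element with given blocks -/
def lsum (h₁ : lev F c₁) (h₂ : lev F c₂) : lev F (Sum.map c₁ c₂) :=
  ⟨⟨Matrix.fromBlocks (h₁.1 : Matrix κ₁ κ₁ F) 0 0 (h₂.1 : Matrix κ₂ κ₂ F),
    Matrix.fromBlocks ((h₁.1⁻¹ : GL κ₁ F) : Matrix κ₁ κ₁ F) 0 0
      ((h₂.1⁻¹ : GL κ₂ F) : Matrix κ₂ κ₂ F), by
      rw [Matrix.fromBlocks_multiply, ← Units.val_mul, ← Units.val_mul]
      simp, by
      rw [Matrix.fromBlocks_multiply, ← Units.val_mul, ← Units.val_mul]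
      simp⟩, by
      rintro (i | i) (j | j) hij
      · exact h₁.2 i j (fun h => hij (congrArg Sum.inl h))
      · rfl
      · rfl
      · exact h₂.2 i j (fun h => hij (congrArg Sum.inr h))⟩

theorem pr₁_lsum (h₁ : lev F c₁) (h₂ : lev F c₂) : pr₁ F c₁ c₂ (lsum c₁ c₂ h₁ h₂) = h₁ :=
  Subtype.ext (Units.ext (Matrix.toBlocks_fromBlocks₁₁ _ _ _ _))

theorem pr₂_lsum (h₁ : lev F c₁) (h₂ : lev F c₂) : pr₂ F c₁ c₂ (lsum c₁ c₂ h₁ h₂) = h₂ :=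
  Subtype.ext (Units.ext (Matrix.toBlocks_fromBlocks₂₂ _ _ _ _))

theorem lsum_pr (g : lev F (Sum.map c₁ c₂)) :
    lsum c₁ c₂ (pr₁ F c₁ c₂ g) (pr₂ F c₁ c₂ g) = g := by
  refine Subtype.ext (Units.ext ?_)
  ext (i | i) (j | j)
  · rfl
  · exact (g.2 (Sum.inl i) (Sum.inr j) (by simp)).symm
  · exact (g.2 (Sum.inr i) (Sum.inl j) (by simp)).symm
  · rfl

theorem pr₁_cont : Continuous (pr₁ F c₁ c₂) := by
  refine Continuous.subtype_mk (Units.continuous_iff.2 ⟨?_, ?_⟩) _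
  · refine continuous_matrix fun i j => ?_
    have h : Continuous fun g : lev F (Sum.map c₁ c₂) =>
        (g.1 : Matrix (κ₁ ⊕ κ₂) (κ₁ ⊕ κ₂) F) (Sum.inl i) (Sum.inl j) :=
      (Units.continuous_val.comp continuous_subtype_val).matrix_elem _ _
    exact h
  · refine continuous_matrix fun i j => ?_
    have h : Continuous fun g : lev F (Sum.map c₁ c₂) =>
        ((g.1⁻¹ : GL (κ₁ ⊕ κ₂) F) : Matrix (κ₁ ⊕ κ₂) (κ₁ ⊕ κ₂) F) (Sum.inl i) (Sum.inl j) :=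
      (Units.continuous_val.comp (continuous_inv.comp continuous_subtype_val)).matrix_elem _ _
    exact h

theorem pr₂_cont : Continuous (pr₂ F c₁ c₂) := by
  refine Continuous.subtype_mk (Units.continuous_iff.2 ⟨?_, ?_⟩) _
  · refine continuous_matrix fun i j => ?_
    have h : Continuous fun g : lev F (Sum.map c₁ c₂) =>
        (g.1 : Matrix (κ₁ ⊕ κ₂) (κ₁ ⊕ κ₂) F) (Sum.inr i) (Sum.inr j) :=
      (Units.continuous_val.comp continuous_subtype_val).matrix_elem _ _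
    exact h
  · refine continuous_matrix fun i j => ?_
    have h : Continuous fun g : lev F (Sum.map c₁ c₂) =>
        ((g.1⁻¹ : GL (κ₁ ⊕ κ₂) F) : Matrix (κ₁ ⊕ κ₂) (κ₁ ⊕ κ₂) F) (Sum.inr i) (Sum.inr j) :=
      (Units.continuous_val.comp (continuous_inv.comp continuous_subtype_val)).matrix_elem _ _
    exact h

theorem lsum_cont : Continuous (fun h : lev F c₁ × lev F c₂ => lsum c₁ c₂ h.1 h.2) := by
  have h1 : Continuous fun h : lev F c₁ × lev F c₂ => (h.1.1 : Matrix κ₁ κ₁ F) :=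
    Units.continuous_val.comp (continuous_subtype_val.comp continuous_fst)
  have h2 : Continuous fun h : lev F c₁ × lev F c₂ => (h.2.1 : Matrix κ₂ κ₂ F) :=
    Units.continuous_val.comp (continuous_subtype_val.comp continuous_snd)
  have h3 : Continuous fun h : lev F c₁ × lev F c₂ =>
      ((h.1.1⁻¹ : GL κ₁ F) : Matrix κ₁ κ₁ F) :=
    Units.continuous_val.comp (continuous_inv.comp (continuous_subtype_val.comp continuous_fst))
  have h4 : Continuous fun h : lev F c₁ × lev F c₂ =>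
      ((h.2.1⁻¹ : GL κ₂ F) : Matrix κ₂ κ₂ F) :=
    Units.continuous_val.comp (continuous_inv.comp (continuous_subtype_val.comp continuous_snd))
  refine Continuous.subtype_mk (Units.continuous_iff.2 ⟨?_, ?_⟩) _
  · exact h1.matrix_fromBlocks continuous_const continuous_const h2
  · exact h3.matrix_fromBlocks continuous_const continuous_const h4

variable {c₁ c₂}

/-- the external tensor product -/
def ext (ρ₁ : Representation ℂ (lev F c₁) V₁) (ρ₂ : Representation ℂ (lev F c₂) V₂) :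
    Representation ℂ (lev F (Sum.map c₁ c₂)) (V₁ ⊗[ℂ] V₂) where
  toFun g := TensorProduct.map (ρ₁ (pr₁ F c₁ c₂ g)) (ρ₂ (pr₂ F c₁ c₂ g))
  map_one' := by
    rw [map_one, map_one, map_one, map_one]
    exact TensorProduct.map_id
  map_mul' := by
    intro a b
    rw [map_mul, map_mul, map_mul, map_mul]
    exact TensorProduct.map_comp _ _ _ _

theorem ext_lsum (ρ₁ : Representation ℂ (lev F c₁) V₁) (ρ₂ : Representation ℂ (lev F c₂) V₂)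
    (h₁ : lev F c₁) (h₂ : lev F c₂) (v₁ : V₁) (v₂ : V₂) :
    ext ρ₁ ρ₂ (lsum c₁ c₂ h₁ h₂) (v₁ ⊗ₜ[ℂ] v₂) = (ρ₁ h₁ v₁) ⊗ₜ[ℂ] (ρ₂ h₂ v₂) := by
  change TensorProduct.map (ρ₁ (pr₁ F c₁ c₂ (lsum c₁ c₂ h₁ h₂)))
    (ρ₂ (pr₂ F c₁ c₂ (lsum c₁ c₂ h₁ h₂))) (v₁ ⊗ₜ[ℂ] v₂) = _
  rw [pr₁_lsum, pr₂_lsum, TensorProduct.map_tmul]

theorem extT_tmul (ρ₁ : Representation ℂ (lev F c₁) V₁) (ρ₂ : Representation ℂ (lev F c₂) V₂)
    (g : lev F (Sum.map c₁ c₂)) (v₁ : V₁) (v₂ : V₂) :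
    ext ρ₁ ρ₂ g (v₁ ⊗ₜ[ℂ] v₂) =
      (ρ₁ (pr₁ F c₁ c₂ g) v₁) ⊗ₜ[ℂ] (ρ₂ (pr₂ F c₁ c₂ g) v₂) := rfl

/-- stabilizers -/
def extT_st {G V : Type} [Group G] [AddCommGroup V] [Module ℂ V] (π : Representation ℂ G V)
    (v : V) : Subgroup G where
  carrier := {g | π g v = v}
  mul_mem' := by
    intro a b ha hb
    simp only [Set.mem_ofPred_eq] at *
    rw [map_mul, Module.End.mul_apply, hb, ha]
  one_mem' := by simp
  inv_mem' := by
    intro a ha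
    simp only [Set.mem_ofPred_eq] at *
    have h1 : π a⁻¹ (π a v) = v := by
      rw [← Module.End.mul_apply, ← map_mul]
      simp
    rwa [ha] at h1

theorem extT_dual (v : V₁) (hv : v ≠ 0) : ∃ φ : V₁ →ₗ[ℂ] ℂ, φ v = 1 := by
  by_contra hcon
  apply hv
  rw [← Module.forall_dual_apply_eq_zero_iff ℂ v]
  intro φ
  by_contra h1
  apply hcon
  exact ⟨(φ v)⁻¹ • φ, by simp [h1]⟩

theorem extT_ne (v₁ : V₁) (v₂ : V₂) (h₁ : v₁ ≠ 0) (h₂ : v₂ ≠ 0) : v₁ ⊗ₜ[ℂ] v₂ ≠ 0 := by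
  intro h
  obtain ⟨φ, hφ⟩ := extT_dual v₁ h₁
  have h3 : TensorProduct.lid ℂ V₂ (φ.rTensor V₂ (v₁ ⊗ₜ[ℂ] v₂)) = 0 := by
    rw [h, map_zero, map_zero]
  rw [LinearMap.rTensor_tmul, TensorProduct.lid_tmul, hφ, one_smul] at h3
  exact h₂ h3

/-- a nonzero equivariant map between irreducible representations is an isomorphism -/
theorem extT_schur {G V W : Type} [Group G] [AddCommGroup V] [Module ℂ V] [AddCommGroup W]
    [Module ℂ W] (π : Representation ℂ G V) (σ : Representation ℂ G W) (hπ : Irr π)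
    (hσ : Irr σ) (T : V →ₗ[ℂ] W) (hT : Equi π σ T) (h0 : T ≠ 0) : Iso π σ := by
  have hk : Stab π (LinearMap.ker T) := by
    intro g v hv
    rw [LinearMap.mem_ker] at hv ⊢
    rw [hT g v, hv, map_zero]
  have hr : Stab σ (LinearMap.range T) := by
    rintro g _ ⟨v, rfl⟩
    exact ⟨π g v, hT g v⟩
  have h1 : LinearMap.ker T = ⊥ := by
    rcases hπ.2 _ hk with h | h
    · exact h
    · exact absurd (LinearMap.ker_eq_top.1 h) h0
  have h2 : LinearMap.range T = ⊤ := by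
    rcases hσ.2 _ hr with h | h
    · exact absurd (LinearMap.range_eq_bot.1 h) h0
    · exact h
  exact ⟨LinearEquiv.ofBijective T ⟨LinearMap.ker_eq_bot.1 h1, LinearMap.range_eq_top.1 h2⟩,
    fun g v => hT g v⟩

theorem ext_smooth (ρ₁ : Representation ℂ (lev F c₁) V₁) (ρ₂ : Representation ℂ (lev F c₂) V₂)
    (h₁ : IsSm ρ₁) (h₂ : IsSm ρ₂) : IsSm (ext ρ₁ ρ₂) := by
  intro x
  change IsOpen ((extT_st (ext ρ₁ ρ₂) x : Subgroup _) : Set (lev F (Sum.map c₁ c₂)))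
  induction x using TensorProduct.induction_on with
  | zero =>
    have : (extT_st (ext ρ₁ ρ₂) (0 : V₁ ⊗[ℂ] V₂)) = ⊤ := by
      rw [eq_top_iff]
      intro g _
      exact map_zero _
    rw [this]
    exact isOpen_univ
  | tmul v₁ v₂ =>
    have ho : IsOpen ((((extT_st ρ₁ v₁).comap (pr₁ F c₁ c₂)) ⊓
        ((extT_st ρ₂ v₂).comap (pr₂ F c₁ c₂)) : Subgroup _) : Set (lev F (Sum.map c₁ c₂))) :=
      ((h₁ v₁).preimage (pr₁_cont c₁ c₂)).inter ((h₂ v₂).preimage (pr₂_cont c₁ c₂))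
    refine Subgroup.isOpen_mono ?_ ho
    rintro g ⟨hg1, hg2⟩
    have e1 : ρ₁ (pr₁ F c₁ c₂ g) v₁ = v₁ := hg1
    have e2 : ρ₂ (pr₂ F c₁ c₂ g) v₂ = v₂ := hg2
    change ext ρ₁ ρ₂ g (v₁ ⊗ₜ[ℂ] v₂) = v₁ ⊗ₜ[ℂ] v₂
    rw [extT_tmul, e1, e2]
  | add a b ha hb =>
    have ho : IsOpen (((extT_st (ext ρ₁ ρ₂) a ⊓ extT_st (ext ρ₁ ρ₂) b : Subgroup _)) :
        Set (lev F (Sum.map c₁ c₂))) := ha.inter hb
    refine Subgroup.isOpen_mono ?_ ho
    rintro g ⟨hg1, hg2⟩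
    have e1 : ext ρ₁ ρ₂ g a = a := hg1
    have e2 : ext ρ₁ ρ₂ g b = b := hg2
    change ext ρ₁ ρ₂ g (a + b) = a + b
    rw [map_add, e1, e2]

theorem ext_irr (ρ₁ : Representation ℂ (lev F c₁) V₁) (ρ₂ : Representation ℂ (lev F c₂) V₂)
    (hs : ∀ S : V₁ →ₗ[ℂ] V₁, Equi ρ₁ ρ₁ S → ∃ z : ℂ, ∀ x, S x = z • x)
    (h₁ : Irr ρ₁) (h₂ : Irr ρ₂) : Irr (ext ρ₁ ρ₂) := by
  obtain ⟨⟨v₁, hv₁⟩, -⟩ := id h₁
  obtain ⟨⟨v₂, hv₂⟩, hirr₂⟩ := id h₂
  refine ⟨⟨v₁ ⊗ₜ[ℂ] v₂, extT_ne v₁ v₂ hv₁ hv₂⟩, fun U hU => ?_⟩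
  have hU1 : Stab (tens ρ₁ V₂) U := by
    intro g x hx
    have h : tens ρ₁ V₂ g = ext ρ₁ ρ₂ (lsum c₁ c₂ g 1) := by
      refine TensorProduct.ext' fun a b => ?_
      rw [ext_lsum, map_one]
      rfl
    rw [h]
    exact hU _ x hx
  obtain ⟨O', hO'⟩ := tens_sub ρ₁ h₁ hs U hU1
  have hO : Stab ρ₂ O' := by
    intro h o ho
    have h3 : v₁ ⊗ₜ[ℂ] o ∈ U := by
      rw [hO']
      exact ⟨v₁ ⊗ₜ[ℂ] (⟨o, ho⟩ : O'), by simp⟩
    have h4 := hU (lsum c₁ c₂ 1 h) _ h3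
    rw [ext_lsum, map_one, Module.End.one_apply, hO'] at h4
    obtain ⟨x, hx⟩ := h4
    obtain ⟨φ, hφ⟩ := extT_dual v₁ hv₁
    have h5 : ∀ y : V₁ ⊗[ℂ] O', TensorProduct.lid ℂ V₂ (φ.rTensor V₂ (TensorProduct.map
        (LinearMap.id : V₁ →ₗ[ℂ] V₁) O'.subtype y)) ∈ O' := by
      intro y
      induction y using TensorProduct.induction_on with
      | zero => simp
      | tmul a b =>
        rw [TensorProduct.map_tmul, LinearMap.rTensor_tmul, TensorProduct.lid_tmul]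
        exact O'.smul_mem _ b.2
      | add a b ha hb =>
        simp only [map_add]
        exact O'.add_mem ha hb
    have h6 := h5 x
    rw [hx, LinearMap.rTensor_tmul, TensorProduct.lid_tmul, hφ, one_smul] at h6
    exact h6
  rcases hirr₂ O' hO with h | h
  · left
    rw [hO', LinearMap.range_eq_bot]
    refine TensorProduct.ext' fun a b => ?_
    have hb : (b : V₂) = 0 := by
      have h7 : (b : V₂) ∈ (⊥ : Submodule ℂ V₂) := h ▸ b.2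
      exact (Submodule.mem_bot ℂ).1 h7
    rw [TensorProduct.map_tmul, Submodule.subtype_apply, hb, TensorProduct.tmul_zero]
    rfl
  · right
    rw [eq_top_iff]
    intro x _
    rw [hO']
    induction x using TensorProduct.induction_on with
    | zero => exact Submodule.zero_mem _
    | tmul a b => exact ⟨a ⊗ₜ[ℂ] (⟨b, by rw [h]; trivial⟩ : O'), by simp⟩
    | add a b ha hb => exact Submodule.add_mem _ (ha trivial) (hb trivial)

theorem extT_uni₁ (o : κ₁ ⊕ κ₂ → ℤ) (n : GL κ₁ F) (hn : n ∈ uni F c₁ (fun i => o (Sum.inl i)))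
    (hn' : n ∈ lev F c₁) : (lsum c₁ c₂ ⟨n, hn'⟩ 1).1 ∈ uni F (Sum.map c₁ c₂) o := by
  refine ⟨⟨(lsum c₁ c₂ ⟨n, hn'⟩ 1).2, ?_⟩, ?_⟩
  · rintro (i | i) (j | j) hij
    · exact hn.1.2 i j hij
    · rfl
    · rfl
    · change (1 : Matrix κ₂ κ₂ F) i j = 0
      rw [Matrix.one_apply_ne]
      rintro rfl
      exact lt_irrefl _ hij
  · rintro (i | i) (j | j) hij
    · change (n : Matrix κ₁ κ₁ F) i j = _
      rw [hn.2 i j hij, Matrix.one_apply, Matrix.one_apply]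
      simp only [Sum.inl.injEq]
    · change (0 : F) = _
      rw [Matrix.one_apply_ne (by simp)]
    · change (0 : F) = _
      rw [Matrix.one_apply_ne (by simp)]
    · change (1 : Matrix κ₂ κ₂ F) i j = _
      rw [Matrix.one_apply, Matrix.one_apply]
      simp only [Sum.inr.injEq]

theorem extT_uni₂ (o : κ₁ ⊕ κ₂ → ℤ) (n : GL κ₂ F) (hn : n ∈ uni F c₂ (fun i => o (Sum.inr i)))
    (hn' : n ∈ lev F c₂) : (lsum c₁ c₂ 1 ⟨n, hn'⟩).1 ∈ uni F (Sum.map c₁ c₂) o := by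
  refine ⟨⟨(lsum c₁ c₂ 1 ⟨n, hn'⟩).2, ?_⟩, ?_⟩
  · rintro (i | i) (j | j) hij
    · change (1 : Matrix κ₁ κ₁ F) i j = 0
      rw [Matrix.one_apply_ne]
      rintro rfl
      exact lt_irrefl _ hij
    · rfl
    · rfl
    · exact hn.1.2 i j hij
  · rintro (i | i) (j | j) hij
    · change (1 : Matrix κ₁ κ₁ F) i j = _
      rw [Matrix.one_apply, Matrix.one_apply]
      simp only [Sum.inl.injEq]
    · change (0 : F) = _
      rw [Matrix.one_apply_ne (by simp)]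
    · change (0 : F) = _
      rw [Matrix.one_apply_ne (by simp)]
    · change (n : Matrix κ₂ κ₂ F) i j = _
      rw [hn.2 i j hij, Matrix.one_apply, Matrix.one_apply]
      simp only [Sum.inr.injEq]

theorem ext_cusp (ρ₁ : Representation ℂ (lev F c₁) V₁) (ρ₂ : Representation ℂ (lev F c₂) V₂)
    (h₁ : Cusp c₁ ρ₁) (h₂ : Cusp c₂ ρ₂) : Cusp (Sum.map c₁ c₂) (ext ρ₁ ρ₂) := by
  rintro o ⟨i, j, hij, ho⟩
  rw [eq_top_iff]
  intro x _
  rcases i with i | i <;> rcases j with j | j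
  · have hk := h₁ (fun i => o (Sum.inl i)) ⟨i, j, Sum.inl_injective hij, ho⟩
    induction x using TensorProduct.induction_on with
    | zero => exact Submodule.zero_mem _
    | add a b ha hb => exact Submodule.add_mem _ (ha trivial) (hb trivial)
    | tmul a b =>
      have ha : a ∈ (stdD F c₁ (fun i => o (Sum.inl i))).kerJ ρ₁ := by
        rw [hk]
        trivial
      refine Submodule.span_induction (p := fun y _ => y ⊗ₜ[ℂ] b ∈
        (stdD F (Sum.map c₁ c₂) o).kerJ (ext ρ₁ ρ₂)) ?_ ?_ ?_ ?_ ha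
      · rintro _ ⟨n, hn, v, rfl⟩
        refine Submodule.subset_span ⟨(lsum c₁ c₂ ⟨n, hn.1.1⟩ 1).1, extT_uni₁ o n hn hn.1.1,
          v ⊗ₜ[ℂ] b, ?_⟩
        rw [TensorProduct.sub_tmul]
        congr 1
        change _ = ext ρ₁ ρ₂ (lsum c₁ c₂ ⟨n, hn.1.1⟩ 1) (v ⊗ₜ[ℂ] b)
        rw [ext_lsum, map_one]
        rfl
      · rw [TensorProduct.zero_tmul]
        exact Submodule.zero_mem _
      · intro y z _ _ hy hz
        rw [TensorProduct.add_tmul]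
        exact Submodule.add_mem _ hy hz
      · intro z y _ hy
        rw [← TensorProduct.smul_tmul']
        exact Submodule.smul_mem _ _ hy
  · exact absurd hij (by simp)
  · exact absurd hij (by simp)
  · have hk := h₂ (fun i => o (Sum.inr i)) ⟨i, j, Sum.inr_injective hij, ho⟩
    induction x using TensorProduct.induction_on with
    | zero => exact Submodule.zero_mem _
    | add a b ha hb => exact Submodule.add_mem _ (ha trivial) (hb trivial)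
    | tmul a b =>
      have hb : b ∈ (stdD F c₂ (fun i => o (Sum.inr i))).kerJ ρ₂ := by
        rw [hk]
        trivial
      refine Submodule.span_induction (p := fun y _ => a ⊗ₜ[ℂ] y ∈
        (stdD F (Sum.map c₁ c₂) o).kerJ (ext ρ₁ ρ₂)) ?_ ?_ ?_ ?_ hb
      · rintro _ ⟨n, hn, v, rfl⟩
        refine Submodule.subset_span ⟨(lsum c₁ c₂ 1 ⟨n, hn.1.1⟩).1, extT_uni₂ o n hn hn.1.1,
          a ⊗ₜ[ℂ] v, ?_⟩
        rw [TensorProduct.tmul_sub]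
        congr 1
        change _ = ext ρ₁ ρ₂ (lsum c₁ c₂ 1 ⟨n, hn.1.1⟩) (a ⊗ₜ[ℂ] v)
        rw [ext_lsum, map_one]
        rfl
      · rw [TensorProduct.tmul_zero]
        exact Submodule.zero_mem _
      · intro y z _ _ hy hz
        rw [TensorProduct.tmul_add]
        exact Submodule.add_mem _ hy hz
      · intro z y _ hy
        rw [TensorProduct.tmul_smul]
        exact Submodule.smul_mem _ _ hy

theorem vl_inl [DecidableEq ι₁] [DecidableEq ι₂] (g : lev F (Sum.map c₁ c₂)) (x : ι₁) :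
    vl (Sum.map c₁ c₂) g.1 (Sum.inl x) = vl c₁ (pr₁ F c₁ c₂ g).1 x := by
  have hinj : Function.Bijective (fun i : {i // c₁ i = x} =>
      (⟨Sum.inl i.1, congrArg Sum.inl i.2⟩ : {i // Sum.map c₁ c₂ i = Sum.inl x})) := by
    refine ⟨fun i j h => Subtype.ext (Sum.inl_injective (congrArg Subtype.val h)), ?_⟩
    rintro ⟨i | i, hi⟩
    · exact ⟨⟨i, Sum.inl_injective hi⟩, rfl⟩
    · exact absurd hi (by simp)
  unfold vl bdet
  rw [← Matrix.det_submatrix_equiv_self (Equiv.ofBijective _ hinj)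
    ((g.1 : Matrix (κ₁ ⊕ κ₂) (κ₁ ⊕ κ₂) F).submatrix
      (Subtype.val : {i // Sum.map c₁ c₂ i = Sum.inl x} → κ₁ ⊕ κ₂) Subtype.val)]
  rfl

theorem vl_inr [DecidableEq ι₁] [DecidableEq ι₂] (g : lev F (Sum.map c₁ c₂)) (x : ι₂) :
    vl (Sum.map c₁ c₂) g.1 (Sum.inr x) = vl c₂ (pr₂ F c₁ c₂ g).1 x := by
  have hinj : Function.Bijective (fun i : {i // c₂ i = x} =>
      (⟨Sum.inr i.1, congrArg Sum.inr i.2⟩ : {i // Sum.map c₁ c₂ i = Sum.inr x})) := by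
    refine ⟨fun i j h => Subtype.ext (Sum.inr_injective (congrArg Subtype.val h)), ?_⟩
    rintro ⟨i | i, hi⟩
    · exact absurd hi (by simp)
    · exact ⟨⟨i, Sum.inr_injective hi⟩, rfl⟩
  unfold vl bdet
  rw [← Matrix.det_submatrix_equiv_self (Equiv.ofBijective _ hinj)
    ((g.1 : Matrix (κ₁ ⊕ κ₂) (κ₁ ⊕ κ₂) F).submatrix
      (Subtype.val : {i // Sum.map c₁ c₂ i = Sum.inr x} → κ₁ ⊕ κ₂) Subtype.val)]
  rfl

theorem ext_map (ρ₁ : Representation ℂ (lev F c₁) V₁) (ρ₂ : Representation ℂ (lev F c₂) V₂)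
    (τ₁ : Representation ℂ (lev F c₁) W₁) (τ₂ : Representation ℂ (lev F c₂) W₂)
    (f₁ : V₁ →ₗ[ℂ] W₁) (f₂ : V₂ →ₗ[ℂ] W₂) (h₁ : Equi ρ₁ τ₁ f₁) (h₂ : Equi ρ₂ τ₂ f₂) :
    Equi (ext ρ₁ ρ₂) (ext τ₁ τ₂) (TensorProduct.map f₁ f₂) := by
  intro g x
  induction x using TensorProduct.induction_on with
  | zero => simp only [map_zero]
  | tmul a b =>
    rw [extT_tmul, TensorProduct.map_tmul, TensorProduct.map_tmul, extT_tmul, h₁, h₂]
  | add a b ha hb => simp only [map_add, ha, hb]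

theorem extT_iso₁ (ρ₁ : Representation ℂ (lev F c₁) V₁) (ρ₂ : Representation ℂ (lev F c₂) V₂)
    (τ₁ : Representation ℂ (lev F c₁) W₁) (τ₂ : Representation ℂ (lev F c₂) W₂)
    (h₁ : Irr ρ₁) (h₂ : Irr ρ₂) (h₁' : Irr τ₁)
    (h : Iso (ext ρ₁ ρ₂) (ext τ₁ τ₂)) : Iso ρ₁ τ₁ := by
  obtain ⟨e, he⟩ := h
  obtain ⟨⟨v₁, hv₁⟩, -⟩ := id h₁
  obtain ⟨⟨v₂, hv₂⟩, -⟩ := id h₂
  obtain ⟨l, hl⟩ : ∃ l : W₂ →ₗ[ℂ] ℂ,
      TensorProduct.rid ℂ W₁ (l.lTensor W₁ (e (v₁ ⊗ₜ[ℂ] v₂))) ≠ 0 := by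
    by_contra hcon
    push Not at hcon
    have h3 : e (v₁ ⊗ₜ[ℂ] v₂) = 0 := by
      apply schur_sep
      intro l
      rw [hcon l, map_zero, map_zero]
    exact extT_ne v₁ v₂ hv₁ hv₂ (by rwa [LinearEquiv.map_eq_zero_iff] at h3)
  have h4 : ∀ (g : lev F c₁) (x : W₁ ⊗[ℂ] W₂),
      TensorProduct.rid ℂ W₁ (l.lTensor W₁ (ext τ₁ τ₂ (lsum c₁ c₂ g 1) x)) =
        τ₁ g (TensorProduct.rid ℂ W₁ (l.lTensor W₁ x)) := by
    intro g x
    induction x using TensorProduct.induction_on with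
    | zero => simp only [map_zero]
    | tmul a b =>
      rw [ext_lsum, map_one, Module.End.one_apply, LinearMap.lTensor_tmul,
        LinearMap.lTensor_tmul, TensorProduct.rid_tmul, TensorProduct.rid_tmul, map_smul]
    | add a b ha hb => simp only [map_add, ha, hb]
  refine extT_schur ρ₁ τ₁ h₁ h₁' ((TensorProduct.rid ℂ W₁).toLinearMap ∘ₗ l.lTensor W₁ ∘ₗ
    (e : V₁ ⊗[ℂ] V₂ →ₗ[ℂ] W₁ ⊗[ℂ] W₂) ∘ₗ (TensorProduct.mk ℂ V₁ V₂).flip v₂) ?_ ?_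
  · intro g v
    change TensorProduct.rid ℂ W₁ (l.lTensor W₁ (e (ρ₁ g v ⊗ₜ[ℂ] v₂))) =
      τ₁ g (TensorProduct.rid ℂ W₁ (l.lTensor W₁ (e (v ⊗ₜ[ℂ] v₂))))
    have h5 : ρ₁ g v ⊗ₜ[ℂ] v₂ = ext ρ₁ ρ₂ (lsum c₁ c₂ g 1) (v ⊗ₜ[ℂ] v₂) := by
      rw [ext_lsum, map_one]
      rfl
    rw [h5, ← h4]
    congr 2
    exact he _ _
  · intro h0
    exact hl (LinearMap.congr_fun h0 v₁)

theorem extT_iso₂ (ρ₁ : Representation ℂ (lev F c₁) V₁) (ρ₂ : Representation ℂ (lev F c₂) V₂)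
    (τ₁ : Representation ℂ (lev F c₁) W₁) (τ₂ : Representation ℂ (lev F c₂) W₂)
    (h₁ : Irr ρ₁) (h₂ : Irr ρ₂) (h₂' : Irr τ₂)
    (h : Iso (ext ρ₁ ρ₂) (ext τ₁ τ₂)) : Iso ρ₂ τ₂ := by
  obtain ⟨e, he⟩ := h
  obtain ⟨⟨v₁, hv₁⟩, -⟩ := id h₁
  obtain ⟨⟨v₂, hv₂⟩, -⟩ := id h₂
  obtain ⟨l, hl⟩ : ∃ l : W₁ →ₗ[ℂ] ℂ,
      TensorProduct.lid ℂ W₂ (l.rTensor W₂ (e (v₁ ⊗ₜ[ℂ] v₂))) ≠ 0 := by
    by_contra hcon
    push Not at hcon
    have h3 : TensorProduct.comm ℂ W₁ W₂ (e (v₁ ⊗ₜ[ℂ] v₂)) = 0 := by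
      apply schur_sep
      intro l
      rw [map_zero, map_zero]
      rw [← hcon l]
      have h6 : ∀ x : W₁ ⊗[ℂ] W₂, TensorProduct.rid ℂ W₂ (l.lTensor W₂
          (TensorProduct.comm ℂ W₁ W₂ x)) = TensorProduct.lid ℂ W₂ (l.rTensor W₂ x) := by
        intro x
        induction x using TensorProduct.induction_on with
        | zero => simp only [map_zero]
        | tmul a b => simp
        | add a b ha hb => simp only [map_add, ha, hb]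
      exact h6 _
    rw [LinearEquiv.map_eq_zero_iff, LinearEquiv.map_eq_zero_iff] at h3
    exact extT_ne v₁ v₂ hv₁ hv₂ h3
  have h4 : ∀ (g : lev F c₂) (x : W₁ ⊗[ℂ] W₂),
      TensorProduct.lid ℂ W₂ (l.rTensor W₂ (ext τ₁ τ₂ (lsum c₁ c₂ 1 g) x)) =
        τ₂ g (TensorProduct.lid ℂ W₂ (l.rTensor W₂ x)) := by
    intro g x
    induction x using TensorProduct.induction_on with
    | zero => simp only [map_zero]
    | tmul a b =>
      rw [ext_lsum, map_one, Module.End.one_apply, LinearMap.rTensor_tmul,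
        LinearMap.rTensor_tmul, TensorProduct.lid_tmul, TensorProduct.lid_tmul, map_smul]
    | add a b ha hb => simp only [map_add, ha, hb]
  refine extT_schur ρ₂ τ₂ h₂ h₂' ((TensorProduct.lid ℂ W₂).toLinearMap ∘ₗ l.rTensor W₂ ∘ₗ
    (e : V₁ ⊗[ℂ] V₂ →ₗ[ℂ] W₁ ⊗[ℂ] W₂) ∘ₗ (TensorProduct.mk ℂ V₁ V₂) v₁) ?_ ?_
  · intro g v
    change TensorProduct.lid ℂ W₂ (l.rTensor W₂ (e (v₁ ⊗ₜ[ℂ] ρ₂ g v))) =
      τ₂ g (TensorProduct.lid ℂ W₂ (l.rTensor W₂ (e (v₁ ⊗ₜ[ℂ] v))))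
    have h5 : v₁ ⊗ₜ[ℂ] ρ₂ g v = ext ρ₁ ρ₂ (lsum c₁ c₂ 1 g) (v₁ ⊗ₜ[ℂ] v) := by
      rw [ext_lsum, map_one]
      rfl
    rw [h5, ← h4]
    congr 2
    exact he _ _
  · intro h0
    exact hl (LinearMap.congr_fun h0 v₂)

/-- isomorphic external tensor products have isomorphic factors -/
theorem ext_iso (ρ₁ : Representation ℂ (lev F c₁) V₁) (ρ₂ : Representation ℂ (lev F c₂) V₂)
    (τ₁ : Representation ℂ (lev F c₁) W₁) (τ₂ : Representation ℂ (lev F c₂) W₂)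
    (h₁ : Irr ρ₁) (h₂ : Irr ρ₂) (h₁' : Irr τ₁) (h₂' : Irr τ₂) :
    Iso (ext ρ₁ ρ₂) (ext τ₁ τ₂) ↔ Iso ρ₁ τ₁ ∧ Iso ρ₂ τ₂ := by
  constructor
  · intro h
    exact ⟨extT_iso₁ ρ₁ ρ₂ τ₁ τ₂ h₁ h₂ h₁' h, extT_iso₂ ρ₁ ρ₂ τ₁ τ₂ h₁ h₂ h₂' h⟩
  · rintro ⟨⟨e₁, he₁⟩, ⟨e₂, he₂⟩⟩
    exact ⟨TensorProduct.congr e₁ e₂, ext_map ρ₁ ρ₂ τ₁ τ₂ e₁ e₂ he₁ he₂⟩

end

end Pool.Agent.Lib.MP_ca1492_al.P
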