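import Mathlib
import Pool.Agent.Lib.MP_ca1492_al.P.CNorm
import Pool.Agent.Lib.MP_ca1492_al.P.Statement

/-!
# MP_ca1492_al, p-adic side, module SqMod: `sqmod` of the statement is the square root `dlh` of the
modulus character
-/

set_option autoImplicit false

namespace Pool.Agent.Lib.MP_ca1492_al.P

open Topology Matrix ValuativeRel
open Pool.Agent.Lib.MP_ca1492_al.Q (absF blk)

noncomputable section

variable {F : Type} [Field F] [ValuativeRel F] [TopologicalSpace F]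
  [IsNonarchimedeanLocalField F]

theorem absF_eq (x : F) (hx : x ≠ 0) : absF F x = (qF F : ℝ) ^ (- ordF F x) := by
  unfold absF ordF qF
  rw [if_neg hx, neg_neg]

variable {κ₁ κ₂ : Type} [Fintype κ₁] [DecidableEq κ₁] [Fintype κ₂] [DecidableEq κ₂]

theorem blk_val (g₁ : GL κ₁ F) (g₂ : GL κ₂ F) (u : Matrix κ₁ κ₂ F) :
    ((blk F g₁ g₂ u : GL (κ₁ ⊕ κ₂) F) : Matrix (κ₁ ⊕ κ₂) (κ₁ ⊕ κ₂) F) =
      Matrix.fromBlocks (g₁ : Matrix κ₁ κ₁ F) u 0 (g₂ : Matrix κ₂ κ₂ F) := rfl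

theorem blk_mem_lev {ι : Type} (c : κ₁ ⊕ κ₂ → ι) (a b : ι) (ha : ∀ i, c (Sum.inl i) = a)
    (hb : ∀ j, c (Sum.inr j) = b) (g₁ : GL κ₁ F) (g₂ : GL κ₂ F) :
    blk F g₁ g₂ 0 ∈ lev F c := by
  rintro (i | i) (j | j) hij
  · exact absurd ((ha i).trans (ha j).symm) hij
  · rfl
  · rfl
  · exact absurd ((hb i).trans (hb j).symm) hij

theorem SqMod_vl_left {ι : Type} [DecidableEq ι] (c : κ₁ ⊕ κ₂ → ι) (a b : ι) (hab : a ≠ b)
    (ha : ∀ i, c (Sum.inl i) = a) (hb : ∀ j, c (Sum.inr j) = b) (g₁ : GL κ₁ F) (g₂ : GL κ₂ F) :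
    vl c (blk F g₁ g₂ 0) a = ordF F (g₁ : Matrix κ₁ κ₁ F).det := by
  unfold vl bdet
  let e : κ₁ ≃ {x // c x = a} :=
    { toFun := fun i => ⟨Sum.inl i, ha i⟩
      invFun := fun x => match x with
        | ⟨Sum.inl i, _⟩ => i
        | ⟨Sum.inr j, hj⟩ => absurd ((hb j).symm.trans hj).symm hab
      left_inv := fun i => rfl
      right_inv := by
        rintro ⟨i | j, hx⟩
        · rfl
        · exact absurd ((hb j).symm.trans hx).symm hab }
  rw [← Matrix.det_submatrix_equiv_self e]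
  rfl

theorem SqMod_vl_right {ι : Type} [DecidableEq ι] (c : κ₁ ⊕ κ₂ → ι) (a b : ι) (hab : a ≠ b)
    (ha : ∀ i, c (Sum.inl i) = a) (hb : ∀ j, c (Sum.inr j) = b) (g₁ : GL κ₁ F) (g₂ : GL κ₂ F) :
    vl c (blk F g₁ g₂ 0) b = ordF F (g₂ : Matrix κ₂ κ₂ F).det := by
  unfold vl bdet
  let e : κ₂ ≃ {x // c x = b} :=
    { toFun := fun i => ⟨Sum.inr i, hb i⟩
      invFun := fun x => match x with
        | ⟨Sum.inr i, _⟩ => i
        | ⟨Sum.inl j, hj⟩ => absurd ((ha j).symm.trans hj) hab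
      left_inv := fun i => rfl
      right_inv := by
        rintro ⟨j | i, hx⟩
        · exact absurd ((ha j).symm.trans hx) hab
        · rfl }
  rw [← Matrix.det_submatrix_equiv_self e]
  rfl

open Classical in
/-- the exponents -/
theorem SqMod_dg_left {ι' : Type} (cb : κ₁ ⊕ κ₂ → ι') (o : κ₁ ⊕ κ₂ → ℤ)
    (hcb : ∀ x y, cb x = cb y) (hl : ∀ i i', o (Sum.inl i) = o (Sum.inl i'))
    (hlr : ∀ i j, o (Sum.inl i) < o (Sum.inr j)) (i : κ₁) :
    dg (patO cb o) (Sum.inl i) = Fintype.card κ₂ := by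
  unfold dg
  have h1 : (Finset.univ.filter fun j : κ₁ ⊕ κ₂ => (patO cb o).r (Sum.inl i) j) =
      Finset.univ.map Function.Embedding.inr := by
    ext x
    simp only [Finset.mem_filter, Finset.mem_univ, true_and, Finset.mem_map,
      Function.Embedding.inr_apply]
    constructor
    · rintro ⟨-, h2⟩
      rcases x with i' | j
      · exact absurd (hl i i') h2.ne
      · exact ⟨j, rfl⟩
    · rintro ⟨j, rfl⟩
      exact ⟨hcb _ _, hlr i j⟩
  have h2 : (Finset.univ.filter fun j : κ₁ ⊕ κ₂ => (patO cb o).r j (Sum.inl i)) = ∅ := by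
    ext x
    simp only [Finset.mem_filter, Finset.mem_univ, true_and]
    constructor
    · rintro ⟨-, h2⟩
      rcases x with i' | j
      · exact absurd (hl i' i) h2.ne
      · exact absurd (hlr i j) (not_lt.2 h2.le)
    · intro h2
      exact absurd h2 (Finset.notMem_empty _)
  rw [h1, h2, Finset.card_map, Finset.card_univ, Finset.card_empty]
  simp

open Classical in
theorem SqMod_dg_right {ι' : Type} (cb : κ₁ ⊕ κ₂ → ι') (o : κ₁ ⊕ κ₂ → ℤ)
    (hcb : ∀ x y, cb x = cb y) (hr : ∀ j j', o (Sum.inr j) = o (Sum.inr j'))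
    (hlr : ∀ i j, o (Sum.inl i) < o (Sum.inr j)) (j : κ₂) :
    dg (patO cb o) (Sum.inr j) = - Fintype.card κ₁ := by
  unfold dg
  have h1 : (Finset.univ.filter fun i : κ₁ ⊕ κ₂ => (patO cb o).r i (Sum.inr j)) =
      Finset.univ.map Function.Embedding.inl := by
    ext x
    simp only [Finset.mem_filter, Finset.mem_univ, true_and, Finset.mem_map,
      Function.Embedding.inl_apply]
    constructor
    · rintro ⟨-, h2⟩
      rcases x with i' | j'
      · exact ⟨i', rfl⟩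
      · exact absurd (hr j' j) h2.ne
    · rintro ⟨i, rfl⟩
      exact ⟨hcb _ _, hlr i j⟩
  have h2 : (Finset.univ.filter fun i : κ₁ ⊕ κ₂ => (patO cb o).r (Sum.inr j) i) = ∅ := by
    ext x
    simp only [Finset.mem_filter, Finset.mem_univ, true_and]
    constructor
    · rintro ⟨-, h2⟩
      rcases x with i' | j'
      · exact absurd (hlr i' j) (not_lt.2 h2.le)
      · exact absurd (hr j j') h2.ne
    · intro h2
      exact absurd h2 (Finset.notMem_empty _)
  rw [h1, h2, Finset.card_map, Finset.card_univ, Finset.card_empty]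
  simp

/-- the square root of the modulus character for two blocks -/
theorem dlh_blk {ι ι' : Type} (c : κ₁ ⊕ κ₂ → ι) (cb : κ₁ ⊕ κ₂ → ι') (o : κ₁ ⊕ κ₂ → ℤ)
    (h : ∀ i j, c i = c j ↔ cb i = cb j ∧ o i = o j) (a b : ι) (hab : a ≠ b)
    (ha : ∀ i, c (Sum.inl i) = a) (hb : ∀ j, c (Sum.inr j) = b)
    (hcb : ∀ x y, cb x = cb y) (hlr : ∀ i j, o (Sum.inl i) < o (Sum.inr j))
    (g₁ : GL κ₁ F) (g₂ : GL κ₂ F) :
    (dlh c cb o h ⟨blk F g₁ g₂ 0, blk_mem_lev c a b ha hb g₁ g₂⟩ : ℂ) =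
      ((Pool.Agent.Lib.MP_ca1492_al.Q.GLRep.sqmod g₁ g₂ : ℝ) : ℂ) := by
  classical
  have hl : ∀ i i', o (Sum.inl i) = o (Sum.inl i') := fun i i' =>
    ((h _ _).1 ((ha i).trans (ha i').symm)).2
  have hr : ∀ j j', o (Sum.inr j) = o (Sum.inr j') := fun j j' =>
    ((h _ _).1 ((hb j).trans (hb j').symm)).2
  set e : ι → ℤ := fun x => if x = a then (Fintype.card κ₂ : ℤ) else - (Fintype.card κ₁ : ℤ) with he'
  have hea : e a = Fintype.card κ₂ := if_pos rfl
  have heb : e b = - Fintype.card κ₁ := if_neg (Ne.symm hab)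
  have he : ∀ i, e (c i) = dg (patO cb o) i := by
    rintro (i | j)
    · rw [SqMod_dg_left cb o hcb hl hlr i, ha, hea]
    · rw [SqMod_dg_right cb o hcb hr hlr j, hb, heb]
  have hm := blk_mem_lev (F := F) c a b ha hb g₁ g₂
  have hsum : ∑ x ∈ Finset.univ.image c, e x * vl c (blk F g₁ g₂ 0) x =
      (Fintype.card κ₂ : ℤ) * ordF F (g₁ : Matrix κ₁ κ₁ F).det -
        (Fintype.card κ₁ : ℤ) * ordF F (g₂ : Matrix κ₂ κ₂ F).det := by
    have h1 : ∑ x ∈ Finset.univ.image c, e x * vl c (blk F g₁ g₂ 0) x =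
        ∑ x ∈ {a, b}, e x * vl c (blk F g₁ g₂ 0) x := by
      refine Finset.sum_subset ?_ ?_
      · intro x hx
        obtain ⟨y, -, rfl⟩ := Finset.mem_image.1 hx
        rcases y with i | j
        · rw [ha]; simp
        · rw [hb]; simp
      · intro x _ hx
        have h2 : ∀ i, c i ≠ x := fun i hi => hx (Finset.mem_image.2 ⟨i, Finset.mem_univ _, hi⟩)
        have h3 : vl c (blk F g₁ g₂ 0) x = 0 := by
          rw [← bord_eq_vl]
          unfold bord
          rw [bdk_of_not_mem c x h2, ordF_one]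
        rw [h3, mul_zero]
    rw [h1, Finset.sum_pair hab, hea, heb, SqMod_vl_left c a b hab ha hb,
      SqMod_vl_right c a b hab ha hb]
    ring
  have hd₁ : (g₁ : Matrix κ₁ κ₁ F).det ≠ 0 := (Matrix.isUnits_det_units g₁).ne_zero
  have hd₂ : (g₂ : Matrix κ₂ κ₂ F).det ≠ 0 := (Matrix.isUnits_det_units g₂).ne_zero
  have hq : (0 : ℝ) < (qF F : ℝ) := by
    have := one_lt_qF (F := F)
    exact_mod_cast (by omega : 0 < qF F)
  rw [dlh_vl c cb o h e he]
  congr 1
  show (qF F : ℝ) ^ (((- ∑ x ∈ Finset.univ.image c, e x * vl c (blk F g₁ g₂ 0) x : ℤ) : ℝ) / 2) = _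
  rw [hsum]
  unfold Pool.Agent.Lib.MP_ca1492_al.Q.GLRep.sqmod
  rw [absF_eq _ hd₁, absF_eq _ hd₂, ← Real.rpow_intCast, ← Real.rpow_intCast,
    ← Real.rpow_mul hq.le, ← Real.rpow_mul hq.le, ← Real.rpow_add hq]
  congr 1
  push_cast
  ring

end

end Pool.Agent.Lib.MP_ca1492_al.P
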