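import Mathlib
import Pool.Agent.Lib.MP_ca1492_al.P.ExtT
import Pool.Agent.Lib.MP_ca1492_al.P.SqMod
import Pool.Agent.Lib.MP_ca1492_al.P.TrCusp

/-!
# MP_ca1492_al, p-adic side, module TrMul: the product of `Statement.lean` as parabolic induction

`κ = A.κ ⊕ B.κ`, `c = c2 = Sum.map (fun _ => ()) (fun _ => ())`, `o = o2 = Sum.elim (fun _ => 0)
(fun _ => 1)`.

* `mul_ind`: both spaces consist of functions on the same group (`lev F (fun _ => ())` is all of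
  `GL`); `blk F g₁ g₂ u = blk F g₁ g₂ 0 * n` with `n = (1, g₁⁻¹ u; 0, 1) ∈ uni F _ o2`, and conversely an
  element of `lev F c2` is `blk F g₁ g₂ 0`, an element of `uni F _ o2` is `blk F 1 1 u`;
  `ext (GLRep.lev A) (GLRep.lev B) (blk F g₁ g₂ 0) = A.π g₁ ⊗ B.π g₂`; `dlh (blk F g₁ g₂ 0) = sqmod g₁ g₂`
  (`dlh_blk`). Open subgroups of `GL` and of `lev F (fun _ => ())` correspond by the homeomorphism
  `levC`.
-/

set_option autoImplicit false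

namespace Pool.Agent.Lib.MP_ca1492_al.P

open Topology Matrix ValuativeRel TensorProduct
open Pool.Agent.Lib.MP_ca1492_al.Q (GLRep)

noncomputable section

variable {F : Type} [Field F] [ValuativeRel F] [TopologicalSpace F]
  [IsNonarchimedeanLocalField F]

/-- colouring with two blocks -/
abbrev c2 (κ₁ κ₂ : Type) : κ₁ ⊕ κ₂ → Unit ⊕ Unit := Sum.map (fun _ => ()) (fun _ => ())

/-- order with two blocks -/
abbrev o2 (κ₁ κ₂ : Type) : κ₁ ⊕ κ₂ → ℤ := Sum.elim (fun _ => 0) (fun _ => 1)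

theorem c2_cond (κ₁ κ₂ : Type) (i j : κ₁ ⊕ κ₂) :
    c2 κ₁ κ₂ i = c2 κ₁ κ₂ j ↔
      (fun _ : κ₁ ⊕ κ₂ => ()) i = (fun _ : κ₁ ⊕ κ₂ => ()) j ∧ o2 κ₁ κ₂ i = o2 κ₁ κ₂ j := by
  rcases i with i | i <;> rcases j with j | j <;> simp

variable {κ₁ κ₂ : Type} [Fintype κ₁] [DecidableEq κ₁] [Fintype κ₂] [DecidableEq κ₂]

theorem TrMul_blk (g₁ : GL κ₁ F) (g₂ : GL κ₂ F) (u : Matrix κ₁ κ₂ F) :
    Q.blk F g₁ g₂ u = Q.blk F g₁ g₂ 0 * Q.blk F 1 1 (((g₁⁻¹ : GL κ₁ F) : Matrix κ₁ κ₁ F) * u) := by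
  have h : (g₁ : Matrix κ₁ κ₁ F) * ((g₁⁻¹ : GL κ₁ F) : Matrix κ₁ κ₁ F) = 1 := by
    rw [← Units.val_mul, mul_inv_cancel, Units.val_one]
  apply Units.ext
  rw [Units.val_mul, blk_val, blk_val, blk_val, Matrix.fromBlocks_multiply, ← Matrix.mul_assoc, h]
  simp

theorem TrMul_blk' (g₁ : GL κ₁ F) (g₂ : GL κ₂ F) (u : Matrix κ₁ κ₂ F) :
    Q.blk F g₁ g₂ 0 * Q.blk F 1 1 u = Q.blk F g₁ g₂ ((g₁ : Matrix κ₁ κ₁ F) * u) := by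
  apply Units.ext
  rw [Units.val_mul, blk_val, blk_val, blk_val, Matrix.fromBlocks_multiply]
  simp

theorem TrMul_uni (u : Matrix κ₁ κ₂ F) :
    Q.blk F 1 1 u ∈ uni F (fun _ : κ₁ ⊕ κ₂ => ()) (o2 κ₁ κ₂) := by
  refine ⟨⟨fun _ _ h => absurd rfl h, ?_⟩, ?_⟩
  · rintro (i | i) (j | j) hij
    · exact absurd hij (by simp)
    · exact absurd hij (by simp)
    · rfl
    · exact absurd hij (by simp)
  · rintro (i | i) (j | j) hij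
    · show (1 : Matrix κ₁ κ₁ F) i j = (1 : Matrix (κ₁ ⊕ κ₂) (κ₁ ⊕ κ₂) F) (Sum.inl i) (Sum.inl j)
      rw [Matrix.one_apply, Matrix.one_apply]
      simp only [Sum.inl.injEq]
    · exact absurd hij (by simp)
    · exact absurd hij (by simp)
    · show (1 : Matrix κ₂ κ₂ F) i j = (1 : Matrix (κ₁ ⊕ κ₂) (κ₁ ⊕ κ₂) F) (Sum.inr i) (Sum.inr j)
      rw [Matrix.one_apply, Matrix.one_apply]
      simp only [Sum.inr.injEq]

theorem TrMul_uni' (n : GL (κ₁ ⊕ κ₂) F)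
    (hn : n ∈ uni F (fun _ : κ₁ ⊕ κ₂ => ()) (o2 κ₁ κ₂)) :
    n = Q.blk F 1 1 (n : Matrix (κ₁ ⊕ κ₂) (κ₁ ⊕ κ₂) F).toBlocks₁₂ := by
  apply Units.ext
  rw [blk_val]
  ext (i | i) (j | j)
  · have h1 := hn.2 (Sum.inl i) (Sum.inl j) (by simp)
    rw [h1, Matrix.fromBlocks_apply₁₁, Units.val_one, Matrix.one_apply, Matrix.one_apply]
    simp only [Sum.inl.injEq]
  · rfl
  · have h1 := hn.1.2 (Sum.inr i) (Sum.inl j) (by simp)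
    rw [h1]
    rfl
  · have h1 := hn.2 (Sum.inr i) (Sum.inr j) (by simp)
    rw [h1, Matrix.fromBlocks_apply₂₂, Units.val_one, Matrix.one_apply, Matrix.one_apply]
    simp only [Sum.inr.injEq]

theorem TrMul_lev (m : lev F (c2 κ₁ κ₂)) :
    (m : GL (κ₁ ⊕ κ₂) F) = Q.blk F (pr₁ F (fun _ => ()) (fun _ => ()) m).1
      (pr₂ F (fun _ => ()) (fun _ => ()) m).1 0 := by
  apply Units.ext
  rw [blk_val]
  ext (i | i) (j | j)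
  · rfl
  · exact m.2 (Sum.inl i) (Sum.inr j) (by simp)
  · exact m.2 (Sum.inr i) (Sum.inl j) (by simp)
  · rfl

theorem TrMul_blk_mem (g₁ : GL κ₁ F) (g₂ : GL κ₂ F) : Q.blk F g₁ g₂ 0 ∈ lev F (c2 κ₁ κ₂) :=
  blk_mem_lev _ (Sum.inl ()) (Sum.inr ()) (fun _ => rfl) (fun _ => rfl) g₁ g₂

theorem TrMul_pr₁ (g₁ : GL κ₁ F) (g₂ : GL κ₂ F) :
    (pr₁ F (fun _ => ()) (fun _ => ()) ⟨_, TrMul_blk_mem g₁ g₂⟩).1 = g₁ := by
  apply Units.ext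
  ext i j
  rfl

theorem TrMul_pr₂ (g₁ : GL κ₁ F) (g₂ : GL κ₂ F) :
    (pr₂ F (fun _ => ()) (fun _ => ()) ⟨_, TrMul_blk_mem g₁ g₂⟩).1 = g₂ := by
  apply Units.ext
  ext i j
  rfl

theorem TrMul_tau₀ (A B : GLRep F) (g₁ : GL A.κ F) (g₂ : GL B.κ F) (x : A.V ⊗[ℂ] B.V) :
    twist (dlh (c2 A.κ B.κ) (fun _ => ()) (o2 A.κ B.κ) (c2_cond A.κ B.κ))
      (ext (GLRep.lev A) (GLRep.lev B)) ⟨_, TrMul_blk_mem g₁ g₂⟩ x =
      (Q.GLRep.sqmod g₁ g₂ : ℂ) • TensorProduct.map (A.π g₁) (B.π g₂) x := by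
  have h1 := dlh_blk (F := F) (c2 A.κ B.κ) (fun _ => ()) (o2 A.κ B.κ) (c2_cond A.κ B.κ)
    (Sum.inl ()) (Sum.inr ()) (by simp) (fun _ => rfl) (fun _ => rfl) (fun _ _ => rfl)
    (fun _ _ => by simp) g₁ g₂
  show (dlh (c2 A.κ B.κ) (fun _ => ()) (o2 A.κ B.κ) (c2_cond A.κ B.κ)
      ⟨_, TrMul_blk_mem g₁ g₂⟩ : ℂ) • TensorProduct.map
        (A.π (pr₁ F (fun _ => ()) (fun _ => ()) ⟨_, TrMul_blk_mem g₁ g₂⟩).1)
        (B.π (pr₂ F (fun _ => ()) (fun _ => ()) ⟨_, TrMul_blk_mem g₁ g₂⟩).1) x = _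
  rw [TrMul_pr₁, TrMul_pr₂]
  congr 1

theorem TrMul_fwd (A B : GLRep F) (f : GL (A.κ ⊕ B.κ) F → A.V ⊗[ℂ] B.V)
    (hf : f ∈ Q.GLRep.indSp A B) :
    (fun g : lev F (fun _ : A.κ ⊕ B.κ => ()) => f g.1) ∈
      (parD (F := F) (c2 A.κ B.κ) (fun _ => ()) (o2 A.κ B.κ) (c2_cond A.κ B.κ)).IndSp
        (twist (dlh (c2 A.κ B.κ) (fun _ => ()) (o2 A.κ B.κ) (c2_cond A.κ B.κ))
          (ext (GLRep.lev A) (GLRep.lev B))) := by
  obtain ⟨h1, U, hU, h2⟩ := hf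
  refine ⟨fun m hm n hn g => ?_, U.subgroupOf _, hU.preimage continuous_subtype_val,
    fun g u hu => h2 g.1 u.1 hu⟩
  show f (m * n * g.1) = _
  have e1 := TrMul_lev (F := F) ⟨m, hm⟩
  have e2 := TrMul_uni' n hn
  set g₁ := (pr₁ F (fun _ => ()) (fun _ => ()) ⟨m, hm⟩).1 with hg₁
  set g₂ := (pr₂ F (fun _ => ()) (fun _ => ()) ⟨m, hm⟩).1 with hg₂
  have e3 : m = Q.blk F g₁ g₂ 0 := e1
  have e4 : (⟨m, hm⟩ : lev F (c2 A.κ B.κ)) = ⟨_, TrMul_blk_mem g₁ g₂⟩ := Subtype.ext e3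
  rw [e4, TrMul_tau₀, e3, e2, TrMul_blk', h1]

theorem TrMul_bwd (A B : GLRep F) (f : lev F (fun _ : A.κ ⊕ B.κ => ()) → A.V ⊗[ℂ] B.V)
    (hf : f ∈ (parD (F := F) (c2 A.κ B.κ) (fun _ => ()) (o2 A.κ B.κ)
        (c2_cond A.κ B.κ)).IndSp
        (twist (dlh (c2 A.κ B.κ) (fun _ => ()) (o2 A.κ B.κ) (c2_cond A.κ B.κ))
          (ext (GLRep.lev A) (GLRep.lev B)))) :
    (fun g => f (levC F (A.κ ⊕ B.κ) g)) ∈ Q.GLRep.indSp A B := by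
  obtain ⟨h1, U, hU, h2⟩ := hf
  refine ⟨fun g₁ g₂ u g => ?_, U.comap (levC F (A.κ ⊕ B.κ)).toMulEquiv.toMonoidHom,
    hU.preimage (levC F (A.κ ⊕ B.κ)).continuous, fun g u hu => by
      show f (levC F (A.κ ⊕ B.κ) (g * u)) = f (levC F (A.κ ⊕ B.κ) g)
      rw [map_mul]
      exact h2 _ _ hu⟩
  have h3 := h1 (Q.blk F g₁ g₂ 0) (TrMul_blk_mem g₁ g₂)
    (Q.blk F 1 1 (((g₁⁻¹ : GL A.κ F) : Matrix A.κ A.κ F) * u)) (TrMul_uni _)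
    (levC F (A.κ ⊕ B.κ) g)
  rw [TrMul_tau₀] at h3
  show f (levC F (A.κ ⊕ B.κ) (Q.blk F g₁ g₂ u * g)) = _
  rw [← h3]
  congr 1
  apply Subtype.ext
  show Q.blk F g₁ g₂ u * g = _ * _ * g
  rw [TrMul_blk g₁ g₂ u]

theorem mul_ind (A B : GLRep F) :
    ∃ Θ : Q.GLRep.indSp A B ≃ₗ[ℂ]
        (parD (F := F) (c2 A.κ B.κ) (fun _ => ()) (o2 A.κ B.κ) (c2_cond A.κ B.κ)).IndSp
          (twist (dlh (c2 A.κ B.κ) (fun _ => ()) (o2 A.κ B.κ) (c2_cond A.κ B.κ))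
            (ext (GLRep.lev A) (GLRep.lev B))),
      (∀ f g, (Θ f).1 g = f.1 g.1) ∧
      ∀ (g : GL (A.κ ⊕ B.κ) F) f, Θ (Q.GLRep.indRep A B g f) =
        (parD (F := F) (c2 A.κ B.κ) (fun _ => ()) (o2 A.κ B.κ) (c2_cond A.κ B.κ)).Ind
          (twist (dlh (c2 A.κ B.κ) (fun _ => ()) (o2 A.κ B.κ) (c2_cond A.κ B.κ))
            (ext (GLRep.lev A) (GLRep.lev B))) (levC F (A.κ ⊕ B.κ) g) (Θ f) := by
  refine ⟨{ toFun := fun f => ⟨_, TrMul_fwd A B f.1 f.2⟩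
            map_add' := fun _ _ => rfl
            map_smul' := fun _ _ => rfl
            invFun := fun f => ⟨_, TrMul_bwd A B f.1 f.2⟩
            left_inv := fun _ => rfl
            right_inv := fun _ => rfl }, fun _ _ => rfl, fun _ _ => rfl⟩

end

end Pool.Agent.Lib.MP_ca1492_al.P
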