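import Mathlib
import Pool.Agent.Lib.MP_ca1492_al.P.ExtT
import Pool.Agent.Lib.MP_ca1492_al.P.HatInj

/-!
# MP_ca1492_al, p-adic side, module ExtHat: `hat` of an external tensor product

`polSum : MvPolynomial ι₁ ℂ ⊗ MvPolynomial ι₂ ℂ ≃ MvPolynomial (ι₁ ⊕ ι₂) ℂ`,
`p ⊗ q ↦ rename inl p * rename inr q` (bijective: monomial bases, `Finsupp.sumFinsuppEquivProdFinsupp`;
or `MvPolynomial.sumAlgEquiv` and `MvPolynomial.algebraTensorAlgEquiv`).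
`shiftP z (rename inl p * rename inr q) = rename inl (shiftP (z ∘ inl) p) * rename inr (shiftP (z ∘ inr) q)`
(`shiftP` is an algebra homomorphism, compare on variables). `hat_ext`: rearrange the factors
(`TensorProduct.tensorTensorTensorComm`), `vl_inl`, `vl_inr`.
-/

set_option autoImplicit false

namespace Pool.Agent.Lib.MP_ca1492_al.P

open Topology Matrix ValuativeRel TensorProduct

noncomputable section

theorem polSum (ι₁ ι₂ : Type) : ∃ e : (MvPolynomial ι₁ ℂ ⊗[ℂ] MvPolynomial ι₂ ℂ) ≃ₗ[ℂ]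
    MvPolynomial (ι₁ ⊕ ι₂) ℂ, ∀ p q, e (p ⊗ₜ[ℂ] q) =
      MvPolynomial.rename Sum.inl p * MvPolynomial.rename Sum.inr q := by
  refine ⟨(MvPolynomial.tensorEquivSum ℂ ι₁ ι₂ ℂ).toLinearEquiv.restrictScalars ℂ, ?_⟩
  have key : ∀ t : MvPolynomial ι₁ ℂ ⊗[ℂ] MvPolynomial ι₂ ℂ,
      MvPolynomial.tensorEquivSum ℂ ι₁ ι₂ ℂ t =
        Algebra.TensorProduct.productMap (MvPolynomial.rename (R := ℂ) (Sum.inl : ι₁ → ι₁ ⊕ ι₂))
          (MvPolynomial.rename (R := ℂ) (Sum.inr : ι₂ → ι₁ ⊕ ι₂)) t := by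
    intro t
    have h : (MvPolynomial.tensorEquivSum ℂ ι₁ ι₂ ℂ).toAlgHom =
        Algebra.TensorProduct.productMap (MvPolynomial.rename (R := ℂ) (Sum.inl : ι₁ → ι₁ ⊕ ι₂))
          (MvPolynomial.rename (R := ℂ) (Sum.inr : ι₂ → ι₁ ⊕ ι₂)) := by
      apply Algebra.TensorProduct.ext
      · apply MvPolynomial.algHom_ext
        intro i
        simp
      · apply MvPolynomial.algHom_ext
        intro i
        simp
    exact DFunLike.congr_fun h t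
  intro p q
  refine (key (p ⊗ₜ[ℂ] q)).trans ?_
  rw [Algebra.TensorProduct.productMap_apply_tmul]

theorem shiftP_sum {ι₁ ι₂ : Type} (z : ι₁ ⊕ ι₂ → ℤ) (p : MvPolynomial ι₁ ℂ)
    (q : MvPolynomial ι₂ ℂ) :
    shiftP z (MvPolynomial.rename Sum.inl p * MvPolynomial.rename Sum.inr q) =
      MvPolynomial.rename Sum.inl (shiftP (fun a => z (Sum.inl a)) p) *
        MvPolynomial.rename Sum.inr (shiftP (fun b => z (Sum.inr b)) q) := by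
  have hl : (MvPolynomial.aeval (fun i => (MvPolynomial.X i + MvPolynomial.C (z i : ℂ) :
        MvPolynomial (ι₁ ⊕ ι₂) ℂ))).comp (MvPolynomial.rename (R := ℂ) Sum.inl) =
      (MvPolynomial.rename (R := ℂ) Sum.inl).comp (MvPolynomial.aeval (fun i : ι₁ =>
        (MvPolynomial.X i + MvPolynomial.C (z (Sum.inl i) : ℂ) : MvPolynomial ι₁ ℂ))) := by
    apply MvPolynomial.algHom_ext
    intro i
    simp
  have hr : (MvPolynomial.aeval (fun i => (MvPolynomial.X i + MvPolynomial.C (z i : ℂ) :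
        MvPolynomial (ι₁ ⊕ ι₂) ℂ))).comp (MvPolynomial.rename (R := ℂ) Sum.inr) =
      (MvPolynomial.rename (R := ℂ) Sum.inr).comp (MvPolynomial.aeval (fun i : ι₂ =>
        (MvPolynomial.X i + MvPolynomial.C (z (Sum.inr i) : ℂ) : MvPolynomial ι₂ ℂ))) := by
    apply MvPolynomial.algHom_ext
    intro i
    simp
  have h1 := DFunLike.congr_fun hl p
  have h2 := DFunLike.congr_fun hr q
  rw [AlgHom.comp_apply, AlgHom.comp_apply] at h1 h2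
  change MvPolynomial.aeval (fun i => (MvPolynomial.X i + MvPolynomial.C (z i : ℂ) :
        MvPolynomial (ι₁ ⊕ ι₂) ℂ)) _ = _
  rw [map_mul, h1, h2]
  rfl

variable {F : Type} [Field F] [ValuativeRel F] [TopologicalSpace F]
  [IsNonarchimedeanLocalField F]
variable {κ₁ κ₂ : Type} [Fintype κ₁] [DecidableEq κ₁] [Fintype κ₂] [DecidableEq κ₂]
variable {ι₁ ι₂ : Type} [DecidableEq ι₁] [DecidableEq ι₂] (c₁ : κ₁ → ι₁) (c₂ : κ₂ → ι₂)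
variable {V₁ V₂ : Type} [AddCommGroup V₁] [Module ℂ V₁] [AddCommGroup V₂] [Module ℂ V₂]

theorem hat_ext (ρ₁ : Representation ℂ (lev F c₁) V₁) (ρ₂ : Representation ℂ (lev F c₂) V₂) :
    ∃ e : ((V₁ ⊗[ℂ] MvPolynomial ι₁ ℂ) ⊗[ℂ] (V₂ ⊗[ℂ] MvPolynomial ι₂ ℂ)) ≃ₗ[ℂ]
        ((V₁ ⊗[ℂ] V₂) ⊗[ℂ] MvPolynomial (ι₁ ⊕ ι₂) ℂ),
      Equi (ext (hat c₁ ρ₁) (hat c₂ ρ₂)) (hat (Sum.map c₁ c₂) (ext ρ₁ ρ₂)) (e : _ →ₗ[ℂ] _) ∧
      ∀ v₁ p v₂ q, e ((v₁ ⊗ₜ[ℂ] p) ⊗ₜ[ℂ] (v₂ ⊗ₜ[ℂ] q)) = (v₁ ⊗ₜ[ℂ] v₂) ⊗ₜ[ℂ]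
        (MvPolynomial.rename Sum.inl p * MvPolynomial.rename Sum.inr q) := by
  obtain ⟨e₀, he₀⟩ := polSum ι₁ ι₂
  set e : ((V₁ ⊗[ℂ] MvPolynomial ι₁ ℂ) ⊗[ℂ] (V₂ ⊗[ℂ] MvPolynomial ι₂ ℂ)) ≃ₗ[ℂ]
        ((V₁ ⊗[ℂ] V₂) ⊗[ℂ] MvPolynomial (ι₁ ⊕ ι₂) ℂ) :=
    (TensorProduct.tensorTensorTensorComm ℂ V₁ (MvPolynomial ι₁ ℂ) V₂ (MvPolynomial ι₂ ℂ)).trans
      (TensorProduct.congr (LinearEquiv.refl ℂ (V₁ ⊗[ℂ] V₂)) e₀) with hedef
  have he : ∀ v₁ p v₂ q, e ((v₁ ⊗ₜ[ℂ] p) ⊗ₜ[ℂ] (v₂ ⊗ₜ[ℂ] q)) = (v₁ ⊗ₜ[ℂ] v₂) ⊗ₜ[ℂ]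
        (MvPolynomial.rename Sum.inl p * MvPolynomial.rename Sum.inr q) := by
    intro v₁ p v₂ q
    rw [hedef, LinearEquiv.trans_apply, TensorProduct.tensorTensorTensorComm_tmul,
      TensorProduct.congr_tmul, he₀]
    rfl
  refine ⟨e, ?_, he⟩
  intro g t
  have hcomp : (e : _ →ₗ[ℂ] _) ∘ₗ (ext (hat c₁ ρ₁) (hat c₂ ρ₂) g) =
      (hat (Sum.map c₁ c₂) (ext ρ₁ ρ₂) g) ∘ₗ
        (e : _ →ₗ[ℂ] ((V₁ ⊗[ℂ] V₂) ⊗[ℂ] MvPolynomial (ι₁ ⊕ ι₂) ℂ)) := by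
    apply TensorProduct.ext_fourfold'
    intro v₁ p v₂ q
    rw [LinearMap.comp_apply, LinearMap.comp_apply, LinearEquiv.coe_coe, extT_tmul, hat_apply,
      hat_apply, TensorProduct.map_tmul, TensorProduct.map_tmul, he, he, hat_apply,
      TensorProduct.map_tmul, extT_tmul, shiftP_sum]
    have h1 : (fun a => vl (Sum.map c₁ c₂) g.1 (Sum.inl a)) = vl c₁ (pr₁ F c₁ c₂ g).1 := by
      funext a
      exact vl_inl g a
    have h2 : (fun b => vl (Sum.map c₁ c₂) g.1 (Sum.inr b)) = vl c₂ (pr₂ F c₁ c₂ g).1 := by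
      funext b
      exact vl_inr g b
    rw [h1, h2]
  exact LinearMap.congr_fun hcomp t

end

end Pool.Agent.Lib.MP_ca1492_al.P
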