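import Mathlib
import Pool.Agent.Lib.MP_ca1492_al.P.CDef

/-!
# MP_ca1492_al, p-adic side, module ISProd: induction from a product of subgroups

`tenF (f₁ ⊗ f₂) (x₁, x₂) = f₁ x₁ ⊗ f₂ x₂`. `IS P a` = induced space of functions (`CDef`).

* `tenF_inj`: a nonzero element of `(X₁ → E₁) ⊗ (X₂ → E₂)` is `Σ_k f_k ⊗ g_k` with linearly independent
  `g_k` and some `f_k ≠ 0` (choose a basis of `X₂ → E₂`). If the image is zero then for every linear form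
  `l` on `E₁` and `x₁`: `Σ_k l (f_k x₁) • g_k = 0` (apply `l ⊗ id`, for all `x₂`), so
  `l (f_k x₁) = 0` for all `l`, `x₁`, `k`; `f_k = 0`, contradiction.
* `tensor_fix`: `Γ₁`, `Γ₂` arbitrary sets of operators, `F_i` the common fixed space of `Γ_i`. A tensor
  `t` fixed by all `γ₁ ⊗ id` and `id ⊗ γ₂` lies in the image of `F₁ ⊗ F₂`: write `t = Σ_k x_k ⊗ b_k` with
  a basis `b` of `E₂`: `(γ₁ x_k - x_k) = 0` for all `k`, so `x_k ∈ F₁`: `t` is in the image of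
  `F₁ ⊗ E₂`. Choose a basis `c` of `F₁` (linearly independent in `E₁`), `t = Σ c_j ⊗ y_j`; as the `c_j` are
  independent in `E₁`, `γ₂ y_j = y_j`, `y_j ∈ F₂`.
* `isprod`: choose finite sets `W_i` of representatives of the DISTINCT double cosets `P_i w U_i` of
  `A_i` (`h_i`). For `w₁ ∈ W₁`, `w₂ ∈ W₂` the tensor `t = f (w₁, w₂)` is fixed by `a₁ p ⊗ id` for
  `p ∈ P₁`, `w₁⁻¹ p w₁ ∈ U₁` (`f (p w₁, w₂) = f (w₁ (w₁⁻¹ p w₁), w₂) = f (w₁, w₂)`, take `p₂ = 1`) and by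
  `id ⊗ a₂ p` similarly, so by `tensor_fix` `t = Σ_j x_j ⊗ y_j` with `x_j` fixed by these `p ∈ P₁`, `y_j`
  by those `p ∈ P₂`. For such `x` there is `φ ∈ IS P₁ a₁` supported on `P₁ w₁ U₁` with
  `φ (p w₁ u) = a₁ p x` (`is_bump`), similarly for `y`. The sum over `w₁`, `w₂`, `j` of `φ ⊗ ψ` is the
  required element: both sides agree at `(w₁, w₂)` and have the same equivariance on both sides.
* `is_bump`: well defined since `p w u = p' w u'` implies `p'⁻¹ p = w u' u⁻¹ w⁻¹`.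
-/

set_option autoImplicit false

namespace Pool.Agent.Lib.MP_ca1492_al.P

open Topology TensorProduct

noncomputable section

section Func

variable {X₁ X₂ E₁ E₂ : Type} [AddCommGroup E₁] [Module ℂ E₁] [AddCommGroup E₂] [Module ℂ E₂]

variable (X₁ X₂ E₁ E₂) in
/-- `f₁ ⊗ f₂ ↦ ((x₁, x₂) ↦ f₁ x₁ ⊗ f₂ x₂)` -/
def tenF : (X₁ → E₁) ⊗[ℂ] (X₂ → E₂) →ₗ[ℂ] (X₁ × X₂ → E₁ ⊗[ℂ] E₂) :=
  TensorProduct.lift (LinearMap.mk₂ ℂ (fun f₁ f₂ x => f₁ x.1 ⊗ₜ[ℂ] f₂ x.2)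
    (fun a b c => by
      funext x
      exact TensorProduct.add_tmul _ _ _)
    (fun a b c => by
      funext x
      exact TensorProduct.smul_tmul' _ _ _)
    (fun a b c => by
      funext x
      exact TensorProduct.tmul_add _ _ _)
    (fun a b c => by
      funext x
      exact TensorProduct.tmul_smul _ _ _))

theorem tenF_tmul (f₁ : X₁ → E₁) (f₂ : X₂ → E₂) (x : X₁ × X₂) :
    tenF X₁ X₂ E₁ E₂ (f₁ ⊗ₜ[ℂ] f₂) x = f₁ x.1 ⊗ₜ[ℂ] f₂ x.2 := rfl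

theorem tenF_inj : Function.Injective (tenF X₁ X₂ E₁ E₂) := by
  classical
  rw [injective_iff_map_eq_zero]
  intro t ht
  let b := Module.Basis.ofVectorSpace ℂ (X₂ → E₂)
  let e := TensorProduct.equivFinsuppOfBasisRight (M := X₁ → E₁) b
  have ht' : t = (e t).sum fun k f => f ⊗ₜ[ℂ] b k := by
    rw [← TensorProduct.equivFinsuppOfBasisRight_symm_apply]
    exact (e.symm_apply_apply t).symm
  rw [← e.map_eq_zero_iff]
  generalize e t = c at ht'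
  ext k x₁
  rw [Finsupp.coe_zero, Pi.zero_apply, Pi.zero_apply]
  by_cases hk : k ∈ c.support
  · rw [← Module.forall_dual_apply_eq_zero_iff ℂ]
    intro l
    have h1 : ∑ k ∈ c.support, l (c k x₁) • b k = 0 := by
      funext x₂
      have h2 := congrFun ht (x₁, x₂)
      rw [ht', Finsupp.sum, map_sum, Finset.sum_apply] at h2
      have h3 := congrArg ((TensorProduct.lid ℂ E₂ : ℂ ⊗[ℂ] E₂ →ₗ[ℂ] E₂) ∘ₗ TensorProduct.map l LinearMap.id) h2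
      rw [map_sum] at h3
      rw [Finset.sum_apply]
      refine Eq.trans (Finset.sum_congr rfl fun i _ => ?_) (h3.trans (map_zero _))
      rw [tenF_tmul]
      simp
    exact linearIndependent_iff'.1 b.linearIndependent c.support (fun k => l (c k x₁)) h1 k hk
  · rw [Finsupp.notMem_support_iff.1 hk]
    rfl

theorem ISProd_sum {κ : Type*} (s : Finset κ) (X : κ → E₁) (Y : κ → E₂) (P : E₁ → Prop)
    (Q : E₂ → Prop) (hX : ∀ k, P (X k)) (hY : ∀ k, Q (Y k)) :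
    ∃ (n : ℕ) (x : Fin n → E₁) (y : Fin n → E₂), (∀ j, P (x j)) ∧ (∀ j, Q (y j)) ∧
      ∑ k ∈ s, X k ⊗ₜ[ℂ] Y k = ∑ j, x j ⊗ₜ[ℂ] y j := by
  refine ⟨s.card, fun j => X (s.equivFin.symm j), fun j => Y (s.equivFin.symm j),
    fun j => hX _, fun j => hY _, ?_⟩
  rw [← Finset.sum_coe_sort s]
  exact (Equiv.sum_comp s.equivFin.symm (fun k : s => X k ⊗ₜ[ℂ] Y k)).symm

/-- the common fixed space -/
def ISProd_F {E : Type} [AddCommGroup E] [Module ℂ E] (Γ : Set (E →ₗ[ℂ] E)) : Submodule ℂ E where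
  carrier := {x | ∀ γ ∈ Γ, γ x = x}
  add_mem' := by
    intro a b ha hb γ hγ
    rw [map_add, ha γ hγ, hb γ hγ]
  zero_mem' := fun γ _ => map_zero γ
  smul_mem' := by
    intro c a ha γ hγ
    rw [map_smul, ha γ hγ]

theorem tensor_fix (Γ₁ : Set (E₁ →ₗ[ℂ] E₁)) (Γ₂ : Set (E₂ →ₗ[ℂ] E₂)) (t : E₁ ⊗[ℂ] E₂)
    (h₁ : ∀ γ ∈ Γ₁, TensorProduct.map γ LinearMap.id t = t)
    (h₂ : ∀ γ ∈ Γ₂, TensorProduct.map LinearMap.id γ t = t) :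
    ∃ (n : ℕ) (x : Fin n → E₁) (y : Fin n → E₂), (∀ j, ∀ γ ∈ Γ₁, γ (x j) = x j) ∧
      (∀ j, ∀ γ ∈ Γ₂, γ (y j) = y j) ∧ t = ∑ j, x j ⊗ₜ[ℂ] y j := by
  classical
  let b := Module.Basis.ofVectorSpace ℂ E₂
  let e := TensorProduct.equivFinsuppOfBasisRight (M := E₁) b
  have ht : t = (e t).sum fun k f => f ⊗ₜ[ℂ] b k := by
    rw [← TensorProduct.equivFinsuppOfBasisRight_symm_apply]
    exact (e.symm_apply_apply t).symm
  have hx : ∀ k, e t k ∈ ISProd_F Γ₁ := by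
    intro k γ hγ
    have h3 : e (TensorProduct.map γ LinearMap.id t) = (e t).mapRange γ (map_zero γ) := by
      rw [← e.symm.injective.eq_iff, e.symm_apply_apply]
      conv_lhs => rw [ht]
      rw [Finsupp.sum, map_sum]
      change _ = (TensorProduct.equivFinsuppOfBasisRight b).symm _
      rw [TensorProduct.equivFinsuppOfBasisRight_symm_apply, Finsupp.sum_mapRange_index
        (h := fun i m => m ⊗ₜ[ℂ] b i) (fun k => TensorProduct.zero_tmul _ _)]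
      rfl
    have h4 := congrArg (fun c : _ →₀ E₁ => c k) h3
    rw [h₁ γ hγ] at h4
    exact h4.symm
  obtain ⟨t', ht'⟩ : ∃ t' : ISProd_F Γ₁ ⊗[ℂ] E₂,
      TensorProduct.map (ISProd_F Γ₁).subtype LinearMap.id t' = t := by
    refine ⟨∑ k ∈ (e t).support, (⟨e t k, hx k⟩ : ISProd_F Γ₁) ⊗ₜ[ℂ] b k, ?_⟩
    rw [map_sum]
    exact ht.symm
  let c := Module.Basis.ofVectorSpace ℂ (ISProd_F Γ₁)
  let e' := TensorProduct.equivFinsuppOfBasisLeft (N := E₂) c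
  have h5 : t' = (e' t').sum fun k y => c k ⊗ₜ[ℂ] y := by
    rw [← TensorProduct.equivFinsuppOfBasisLeft_symm_apply]
    exact (e'.symm_apply_apply t').symm
  have hy : ∀ k, ∀ γ ∈ Γ₂, γ (e' t' k) = e' t' k := by
    intro k γ hγ
    have hinj : Function.Injective (TensorProduct.map (ISProd_F Γ₁).subtype
        (LinearMap.id : E₂ →ₗ[ℂ] E₂)) :=
      Module.Flat.rTensor_preserves_injective_linearMap (M := E₂) (ISProd_F Γ₁).subtype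
        Subtype.val_injective
    have h6 : TensorProduct.map LinearMap.id γ t' = t' := by
      apply hinj
      rw [ht', ← LinearMap.comp_apply, ← TensorProduct.map_comp]
      have h7 := h₂ γ hγ
      rw [← ht', ← LinearMap.comp_apply, ← TensorProduct.map_comp, ht'] at h7
      exact h7
    have h3 : e' (TensorProduct.map LinearMap.id γ t') = (e' t').mapRange γ (map_zero γ) := by
      rw [← e'.symm.injective.eq_iff, e'.symm_apply_apply]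
      conv_lhs => rw [h5]
      rw [Finsupp.sum, map_sum]
      change _ = (TensorProduct.equivFinsuppOfBasisLeft c).symm _
      rw [TensorProduct.equivFinsuppOfBasisLeft_symm_apply, Finsupp.sum_mapRange_index
        (fun k => TensorProduct.tmul_zero _ _)]
      rfl
    have h4 := congrArg (fun c : _ →₀ E₂ => c k) h3
    rw [h6] at h4
    exact h4.symm
  obtain ⟨n, x, y, h8, h9, h10⟩ := ISProd_sum (e' t').support (fun k => ((c k : ISProd_F Γ₁) : E₁))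
    (fun k => e' t' k) (fun x => ∀ γ ∈ Γ₁, γ x = x) (fun y => ∀ γ ∈ Γ₂, γ y = y)
    (fun k => (c k).2) hy
  refine ⟨n, x, y, h8, h9, ?_⟩
  rw [← h10, ← ht']
  conv_lhs => rw [h5]
  rw [Finsupp.sum, map_sum]
  rfl

end Func

variable {A A₁ A₂ : Type} [Group A] [TopologicalSpace A] [IsTopologicalGroup A]
  [Group A₁] [TopologicalSpace A₁] [IsTopologicalGroup A₁]
  [Group A₂] [TopologicalSpace A₂] [IsTopologicalGroup A₂]
variable {E E₁ E₂ : Type} [AddCommGroup E] [Module ℂ E] [AddCommGroup E₁] [Module ℂ E₁]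
  [AddCommGroup E₂] [Module ℂ E₂]

/-- finitely many double cosets `P w U` for every open subgroup `U` -/
def Fdc (P : Subgroup A) : Prop :=
  ∀ U : Subgroup A, IsOpen (U : Set A) → ∃ W : Finset A, ∀ g : A, ∃ w ∈ W, g ∈ dc P U w

theorem ISProd_dc {P U : Subgroup A} {w w' g : A} (h : g ∈ dc P U w) (h' : g ∈ dc P U w') :
    dc P U w = dc P U w' := by
  have key : ∀ {w w' : A}, g ∈ dc P U w → g ∈ dc P U w' → dc P U w ⊆ dc P U w' := by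
    rintro w w' ⟨p, hp, u, hu, h1⟩ ⟨p', hp', u', hu', h2⟩ x ⟨q, hq, v, hv, rfl⟩
    refine ⟨q * p⁻¹ * p', P.mul_mem (P.mul_mem hq (P.inv_mem hp)) hp', u' * u⁻¹ * v,
      U.mul_mem (U.mul_mem hu' (U.inv_mem hu)) hv, ?_⟩
    have h3 : w = p⁻¹ * (p' * w' * u') * u⁻¹ := by
      rw [← h2, h1]
      group
    rw [h3]
    group
  exact Set.Subset.antisymm (key h h') (key h' h)

theorem is_bump (P : Subgroup A) (a : Representation ℂ P E) (U : Subgroup A)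
    (hU : IsOpen (U : Set A)) (w : A) (x : E)
    (hx : ∀ p : P, w⁻¹ * (p : A) * w ∈ U → a p x = x) :
    ∃ φ : IS P a, (∀ (p : P) (u : A), u ∈ U → φ.1 (p * w * u) = a p x) ∧
      (∀ g, g ∉ dc P U w → φ.1 g = 0) ∧ ∀ g, ∀ u ∈ U, φ.1 (g * u) = φ.1 g := by
  classical
  have hwd : ∀ (p q : A) (hp : p ∈ P) (hq : q ∈ P) (u v : A), u ∈ U → v ∈ U →
      p * w * u = q * w * v → a ⟨p, hp⟩ x = a ⟨q, hq⟩ x := by
    intro p q hp hq u v hu hv h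
    have h1 : (⟨p, hp⟩ : P) = ⟨q, hq⟩ * (⟨q, hq⟩⁻¹ * ⟨p, hp⟩) := by group
    rw [h1, map_mul, Module.End.mul_apply, hx]
    change w⁻¹ * (q⁻¹ * p) * w ∈ U
    have h2 : w⁻¹ * (q⁻¹ * p) * w = v * u⁻¹ := by
      calc w⁻¹ * (q⁻¹ * p) * w = w⁻¹ * q⁻¹ * (p * w * u) * u⁻¹ := by group
        _ = v * u⁻¹ := by
          rw [h]
          group
    rw [h2]
    exact U.mul_mem hv (U.inv_mem hu)
  let f : A → E := fun g => if h : g ∈ dc P U w then a ⟨h.choose, h.choose_spec.1⟩ x else 0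
  have hf1 : ∀ (p : P) (u : A), u ∈ U → f (p * w * u) = a p x := by
    intro p u hu
    have h : (p : A) * w * u ∈ dc P U w := ⟨p, p.2, u, hu, rfl⟩
    have h1 : f (p * w * u) = a ⟨h.choose, h.choose_spec.1⟩ x := dif_pos h
    rw [h1]
    obtain ⟨v, hv, h2⟩ := h.choose_spec.2
    exact hwd _ _ h.choose_spec.1 p.2 v u hv hu h2.symm
  have hf2 : ∀ g, g ∉ dc P U w → f g = 0 := fun g h => dif_neg h
  have hf3 : ∀ g, ∀ u ∈ U, f (g * u) = f g := by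
    intro g u hu
    by_cases h : g ∈ dc P U w
    · obtain ⟨p, hp, v, hv, rfl⟩ := h
      rw [mul_assoc (p * w) v u, hf1 ⟨p, hp⟩ _ (U.mul_mem hv hu), hf1 ⟨p, hp⟩ _ hv]
    · rw [hf2 g h, hf2]
      rintro ⟨p, hp, v, hv, h1⟩
      refine h ⟨p, hp, v * u⁻¹, U.mul_mem hv (U.inv_mem hu), ?_⟩
      rw [← mul_assoc, ← h1]
      group
  have hf4 : ∀ (q : P) (g : A), f (q * g) = a q (f g) := by
    intro q g
    by_cases h : g ∈ dc P U w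
    · obtain ⟨p, hp, v, hv, rfl⟩ := h
      have h1 : (q : A) * (p * w * v) = ((q * ⟨p, hp⟩ : P) : A) * w * v := by
        change (q : A) * (p * w * v) = ((q : A) * p) * w * v
        group
      rw [h1, hf1 _ _ hv, hf1 ⟨p, hp⟩ _ hv, map_mul, Module.End.mul_apply]
    · rw [hf2 g h, map_zero, hf2]
      rintro ⟨p, hp, v, hv, h1⟩
      refine h ⟨(q : A)⁻¹ * p, P.mul_mem (P.inv_mem q.2) hp, v, hv, ?_⟩
      have h2 : g = (q : A)⁻¹ * (q * g) := by group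
      rw [h2, h1]
      group
  exact ⟨⟨f, hf4, U, hU, hf3⟩, hf1, hf2, hf3⟩

theorem ISProd_cell (P₁ : Subgroup A₁) (P₂ : Subgroup A₂) (a₁ : Representation ℂ P₁ E₁)
    (a₂ : Representation ℂ P₂ E₂) (f : A₁ × A₂ → E₁ ⊗[ℂ] E₂)
    (hf : ∀ (p₁ : P₁) (p₂ : P₂) (g₁ : A₁) (g₂ : A₂), f (p₁ * g₁, p₂ * g₂) =
      TensorProduct.map (a₁ p₁) (a₂ p₂) (f (g₁, g₂)))
    (U₁ : Subgroup A₁) (U₂ : Subgroup A₂) (hU₁ : IsOpen (U₁ : Set A₁))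
    (hU₂ : IsOpen (U₂ : Set A₂))
    (hU : ∀ g₁ g₂, ∀ u₁ ∈ U₁, ∀ u₂ ∈ U₂, f (g₁ * u₁, g₂ * u₂) = f (g₁, g₂)) (w₁ : A₁) (w₂ : A₂) :
    ∃ t : IS P₁ a₁ ⊗[ℂ] IS P₂ a₂,
      (∀ g₁ g₂, g₁ ∈ dc P₁ U₁ w₁ → g₂ ∈ dc P₂ U₂ w₂ → tenF A₁ A₂ E₁ E₂
        (TensorProduct.map (IS P₁ a₁).subtype (IS P₂ a₂).subtype t) (g₁, g₂) = f (g₁, g₂)) ∧
      (∀ g₁ g₂, ¬ (g₁ ∈ dc P₁ U₁ w₁ ∧ g₂ ∈ dc P₂ U₂ w₂) → tenF A₁ A₂ E₁ E₂
        (TensorProduct.map (IS P₁ a₁).subtype (IS P₂ a₂).subtype t) (g₁, g₂) = 0) := by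
  obtain ⟨n, x, y, hx, hy, ht⟩ := tensor_fix
    {γ | ∃ p : P₁, w₁⁻¹ * (p : A₁) * w₁ ∈ U₁ ∧ γ = a₁ p}
    {γ | ∃ p : P₂, w₂⁻¹ * (p : A₂) * w₂ ∈ U₂ ∧ γ = a₂ p} (f (w₁, w₂)) (by
      rintro _ ⟨p, hp, rfl⟩
      have h1 := hf p 1 w₁ w₂
      rw [map_one] at h1
      have h2 := hU w₁ w₂ _ hp 1 U₂.one_mem
      have h3 : w₁ * (w₁⁻¹ * (p : A₁) * w₁) = p * w₁ := by group
      have h4 : ((1 : P₂) : A₂) * w₂ = w₂ * 1 := by
        rw [OneMemClass.coe_one, one_mul, mul_one]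
      rw [h4, ← h3, h2] at h1
      exact h1.symm) (by
      rintro _ ⟨p, hp, rfl⟩
      have h1 := hf 1 p w₁ w₂
      rw [map_one] at h1
      have h2 := hU w₁ w₂ 1 U₁.one_mem _ hp
      have h3 : w₂ * (w₂⁻¹ * (p : A₂) * w₂) = p * w₂ := by group
      have h4 : ((1 : P₁) : A₁) * w₁ = w₁ * 1 := by
        rw [OneMemClass.coe_one, one_mul, mul_one]
      rw [h4, ← h3, h2] at h1
      exact h1.symm)
  have hb1 := fun j => is_bump P₁ a₁ U₁ hU₁ w₁ (x j) fun p hp => hx j _ ⟨p, hp, rfl⟩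
  have hb2 := fun j => is_bump P₂ a₂ U₂ hU₂ w₂ (y j) fun p hp => hy j _ ⟨p, hp, rfl⟩
  choose φ hφ1 hφ2 _ using hb1
  choose ψ hψ1 hψ2 _ using hb2
  have hval : ∀ g₁ g₂, tenF A₁ A₂ E₁ E₂ (TensorProduct.map (IS P₁ a₁).subtype
      (IS P₂ a₂).subtype (∑ j, φ j ⊗ₜ[ℂ] ψ j)) (g₁, g₂) =
      ∑ j, (φ j).1 g₁ ⊗ₜ[ℂ] (ψ j).1 g₂ := by
    intro g₁ g₂
    rw [map_sum, map_sum, Finset.sum_apply]
    rfl
  refine ⟨∑ j, φ j ⊗ₜ[ℂ] ψ j, fun g₁ g₂ h1 h2 => ?_, fun g₁ g₂ h => ?_⟩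
  · obtain ⟨p₁, hp₁, u₁, hu₁, rfl⟩ := h1
    obtain ⟨p₂, hp₂, u₂, hu₂, rfl⟩ := h2
    rw [hval, hU _ _ u₁ hu₁ u₂ hu₂]
    have h3 := hf ⟨p₁, hp₁⟩ ⟨p₂, hp₂⟩ w₁ w₂
    rw [h3, ht, map_sum]
    refine Finset.sum_congr rfl fun j _ => ?_
    rw [TensorProduct.map_tmul]
    have h4 := hφ1 j ⟨p₁, hp₁⟩ u₁ hu₁
    have h5 := hψ1 j ⟨p₂, hp₂⟩ u₂ hu₂
    rw [← h4, ← h5]
  · rw [hval]
    refine Finset.sum_eq_zero fun j _ => ?_
    by_cases h1 : g₁ ∈ dc P₁ U₁ w₁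
    · have h2 : g₂ ∉ dc P₂ U₂ w₂ := fun h2 => h ⟨h1, h2⟩
      rw [hψ2 j g₂ h2, TensorProduct.tmul_zero]
    · rw [hφ2 j g₁ h1, TensorProduct.zero_tmul]

theorem isprod (P₁ : Subgroup A₁) (P₂ : Subgroup A₂) (a₁ : Representation ℂ P₁ E₁)
    (a₂ : Representation ℂ P₂ E₂) (h₁ : Fdc P₁) (h₂ : Fdc P₂) (f : A₁ × A₂ → E₁ ⊗[ℂ] E₂)
    (hf : ∀ (p₁ : P₁) (p₂ : P₂) (g₁ : A₁) (g₂ : A₂), f (p₁ * g₁, p₂ * g₂) =
      TensorProduct.map (a₁ p₁) (a₂ p₂) (f (g₁, g₂)))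
    (U₁ : Subgroup A₁) (U₂ : Subgroup A₂) (hU₁ : IsOpen (U₁ : Set A₁))
    (hU₂ : IsOpen (U₂ : Set A₂))
    (hU : ∀ g₁ g₂, ∀ u₁ ∈ U₁, ∀ u₂ ∈ U₂, f (g₁ * u₁, g₂ * u₂) = f (g₁, g₂)) :
    ∃ t : IS P₁ a₁ ⊗[ℂ] IS P₂ a₂, tenF A₁ A₂ E₁ E₂
      (TensorProduct.map (IS P₁ a₁).subtype (IS P₂ a₂).subtype t) = f := by
  classical
  obtain ⟨W₁, hW₁⟩ := h₁ U₁ hU₁
  obtain ⟨W₂, hW₂⟩ := h₂ U₂ hU₂
  have hT : ∀ c₁ c₂ : Set _, ∃ t : IS P₁ a₁ ⊗[ℂ] IS P₂ a₂, c₁ ∈ W₁.image (dc P₁ U₁) →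
      c₂ ∈ W₂.image (dc P₂ U₂) →
      (∀ g₁ g₂, g₁ ∈ c₁ → g₂ ∈ c₂ → tenF A₁ A₂ E₁ E₂
        (TensorProduct.map (IS P₁ a₁).subtype (IS P₂ a₂).subtype t) (g₁, g₂) = f (g₁, g₂)) ∧
      (∀ g₁ g₂, ¬ (g₁ ∈ c₁ ∧ g₂ ∈ c₂) → tenF A₁ A₂ E₁ E₂
        (TensorProduct.map (IS P₁ a₁).subtype (IS P₂ a₂).subtype t) (g₁, g₂) = 0) := by
    intro c₁ c₂
    by_cases h : c₁ ∈ W₁.image (dc P₁ U₁) ∧ c₂ ∈ W₂.image (dc P₂ U₂)
    · obtain ⟨w₁, -, rfl⟩ := Finset.mem_image.1 h.1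
      obtain ⟨w₂, -, rfl⟩ := Finset.mem_image.1 h.2
      obtain ⟨t, ht⟩ := ISProd_cell P₁ P₂ a₁ a₂ f hf U₁ U₂ hU₁ hU₂ hU w₁ w₂
      exact ⟨t, fun _ _ => ht⟩
    · exact ⟨0, fun h3 h4 => absurd ⟨h3, h4⟩ h⟩
  choose T hT using hT
  refine ⟨∑ c₁ ∈ W₁.image (dc P₁ U₁), ∑ c₂ ∈ W₂.image (dc P₂ U₂), T c₁ c₂, ?_⟩
  funext ⟨g₁, g₂⟩
  obtain ⟨w₁, hw₁, hg₁⟩ := hW₁ g₁
  obtain ⟨w₂, hw₂, hg₂⟩ := hW₂ g₂
  have hm₁ : dc P₁ U₁ w₁ ∈ W₁.image (dc P₁ U₁) := Finset.mem_image_of_mem _ hw₁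
  have hm₂ : dc P₂ U₂ w₂ ∈ W₂.image (dc P₂ U₂) := Finset.mem_image_of_mem _ hw₂
  simp only [map_sum, Finset.sum_apply]
  rw [Finset.sum_eq_single (dc P₁ U₁ w₁), Finset.sum_eq_single (dc P₂ U₂ w₂)]
  · exact (hT _ _ hm₁ hm₂).1 g₁ g₂ hg₁ hg₂
  · intro c₂ hc₂ hne
    refine (hT _ _ hm₁ hc₂).2 g₁ g₂ fun h => hne ?_
    obtain ⟨w, -, rfl⟩ := Finset.mem_image.1 hc₂
    exact ISProd_dc h.2 hg₂
  · intro h
    exact absurd hm₂ h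
  · intro c₁ hc₁ hne
    refine Finset.sum_eq_zero fun c₂ hc₂ => (hT _ _ hc₁ hc₂).2 g₁ g₂ fun h => hne ?_
    obtain ⟨w, -, rfl⟩ := Finset.mem_image.1 hc₁
    exact ISProd_dc h.1 hg₁
  · intro h
    exact absurd hm₁ h

end

end Pool.Agent.Lib.MP_ca1492_al.P
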