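import Mathlib
import Pool.Agent.Lib.MP_ca1492_al.P.ExtT
import Pool.Agent.Lib.MP_ca1492_al.P.ISProd
import Pool.Agent.Lib.MP_ca1492_al.P.IndEx

/-!
# MP_ca1492_al, p-adic side, module ExtInd: induction of external tensor products

`c_i : κ_i → ι_i`, `cb_i : κ_i → ι_i'`, `o_i` with `h_i`. `Ind (ext σ₁ σ₂) ≅ ext (Ind σ₁) (Ind σ₂)`,
`(f₁ ⊗ f₂)(g) = f₁ (pr₁ g) ⊗ f₂ (pr₂ g)`.

* `sum_cond`: by cases on `inl`/`inr`.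
* `ext_ind_fun`: for `f_i ∈ IndSp σ_i` the function `g ↦ f₁ (pr₁ g) ⊗ f₂ (pr₂ g)` is in
  `IndSp (ext σ₁ σ₂)`: for `m ∈ lev (Sum.map c₁ c₂)`, `n ∈ uni (Sum.map cb₁ cb₂) (Sum.elim o₁ o₂)` (all as
  elements of `lev F (Sum.map cb₁ cb₂)`): `pr_i (m n g) = pr_i m * pr_i n * pr_i g`, `pr_i n ∈ uni F cb_i o_i`,
  `pr_i m ∈ lev F c_i` (the blocks of `m` as an element of the two block groups are the same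
  matrices); right invariant under the intersection of the preimages of the two open groups.
* `ext_ind`: the map is `TensorProduct.lift` of this bilinear map. Injective: `tenF_inj` (composed with
  `lsum : lev × lev → lev`, which is bijective; and `map subtype subtype` is injective over a
  field). Surjective: for `f ∈ IndSp (ext σ₁ σ₂)` apply `isprod` to `(g₁, g₂) ↦ f (lsum g₁ g₂)`,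
  `P_i = PPs F cb_i o_i`, `a_i = aP c_i cb_i o_i h_i σ_i` (`mem_IndSp_iff`; `Fdc` is `dc_fin`); the open subgroup `U` of
  `f` contains `lsum (U₁ × U₂)` for open subgroups `U₁, U₂` (`lsum_cont`; take
  `U₁ = {g₁ | lsum g₁ 1 ∈ U}`, `U₂ = {g₂ | lsum 1 g₂ ∈ U}`, `lsum g₁ g₂ = lsum g₁ 1 * lsum 1 g₂`). For
  `p_i ∈ P_i`: `lsum p₁ p₂ ∈ PPs F (Sum.map cb₁ cb₂) (Sum.elim o₁ o₂)` and `prL (lsum p₁ p₂) = lsum (prL p₁)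
  (prL p₂)`.
* equivariance: `pr_i (g h) = pr_i g * pr_i h`.
-/

set_option autoImplicit false

namespace Pool.Agent.Lib.MP_ca1492_al.P

open Topology Matrix ValuativeRel TensorProduct

noncomputable section

variable {F : Type} [Field F] [ValuativeRel F] [TopologicalSpace F]
  [IsNonarchimedeanLocalField F]
variable {κ₁ κ₂ : Type} [Fintype κ₁] [DecidableEq κ₁] [Fintype κ₂] [DecidableEq κ₂]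
variable {ι₁ ι₂ ι₁' ι₂' : Type} (c₁ : κ₁ → ι₁) (c₂ : κ₂ → ι₂) (cb₁ : κ₁ → ι₁') (cb₂ : κ₂ → ι₂')
  (o₁ : κ₁ → ℤ) (o₂ : κ₂ → ℤ)
  (h₁ : ∀ i j, c₁ i = c₁ j ↔ cb₁ i = cb₁ j ∧ o₁ i = o₁ j)
  (h₂ : ∀ i j, c₂ i = c₂ j ↔ cb₂ i = cb₂ j ∧ o₂ i = o₂ j)
variable {V₁ V₂ : Type} [AddCommGroup V₁] [Module ℂ V₁] [AddCommGroup V₂] [Module ℂ V₂]

include h₁ h₂ in
theorem sum_cond (i j : κ₁ ⊕ κ₂) : Sum.map c₁ c₂ i = Sum.map c₁ c₂ j ↔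
    Sum.map cb₁ cb₂ i = Sum.map cb₁ cb₂ j ∧ Sum.elim o₁ o₂ i = Sum.elim o₁ o₂ j := by
  rcases i with i | i <;> rcases j with j | j
  · simpa using h₁ i j
  · simp
  · simp
  · simpa using h₂ i j

variable {cb₁ cb₂ o₁ o₂} in
theorem ExtInd_upp₁ (p : lev F (Sum.map cb₁ cb₂))
    (hp : p ∈ PPs F (Sum.map cb₁ cb₂) (Sum.elim o₁ o₂)) : pr₁ F cb₁ cb₂ p ∈ PPs F cb₁ o₁ := by
  show (pr₁ F cb₁ cb₂ p).1 ∈ upp F cb₁ o₁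
  have hp' : p.1 ∈ upp F (Sum.map cb₁ cb₂) (Sum.elim o₁ o₂) := hp
  exact ⟨(pr₁ F cb₁ cb₂ p).2, fun i j hij => hp'.2 (Sum.inl i) (Sum.inl j) hij⟩

variable {cb₁ cb₂ o₁ o₂} in
theorem ExtInd_upp₂ (p : lev F (Sum.map cb₁ cb₂))
    (hp : p ∈ PPs F (Sum.map cb₁ cb₂) (Sum.elim o₁ o₂)) : pr₂ F cb₁ cb₂ p ∈ PPs F cb₂ o₂ := by
  show (pr₂ F cb₁ cb₂ p).1 ∈ upp F cb₂ o₂
  have hp' : p.1 ∈ upp F (Sum.map cb₁ cb₂) (Sum.elim o₁ o₂) := hp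
  exact ⟨(pr₂ F cb₁ cb₂ p).2, fun i j hij => hp'.2 (Sum.inr i) (Sum.inr j) hij⟩

theorem ExtInd_prL₁ (p : PPs F (Sum.map cb₁ cb₂) (Sum.elim o₁ o₂)) :
    pr₁ F c₁ c₂ (prL (Sum.map c₁ c₂) (Sum.map cb₁ cb₂) (Sum.elim o₁ o₂)
        (sum_cond c₁ c₂ cb₁ cb₂ o₁ o₂ h₁ h₂) p) =
      prL c₁ cb₁ o₁ h₁ ⟨pr₁ F cb₁ cb₂ p.1, ExtInd_upp₁ p.1 p.2⟩ := by
  apply Subtype.ext
  apply Units.ext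
  ext i j
  rfl

theorem ExtInd_prL₂ (p : PPs F (Sum.map cb₁ cb₂) (Sum.elim o₁ o₂)) :
    pr₂ F c₁ c₂ (prL (Sum.map c₁ c₂) (Sum.map cb₁ cb₂) (Sum.elim o₁ o₂)
        (sum_cond c₁ c₂ cb₁ cb₂ o₁ o₂ h₁ h₂) p) =
      prL c₂ cb₂ o₂ h₂ ⟨pr₂ F cb₁ cb₂ p.1, ExtInd_upp₂ p.1 p.2⟩ := by
  apply Subtype.ext
  apply Units.ext
  ext i j
  rfl

theorem ExtInd_aP (σ₁ : Representation ℂ (lev F c₁) V₁) (σ₂ : Representation ℂ (lev F c₂) V₂)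
    (p : PPs F (Sum.map cb₁ cb₂) (Sum.elim o₁ o₂)) :
    aP (Sum.map c₁ c₂) (Sum.map cb₁ cb₂) (Sum.elim o₁ o₂)
        (sum_cond c₁ c₂ cb₁ cb₂ o₁ o₂ h₁ h₂) (ext σ₁ σ₂) p =
      TensorProduct.map (aP c₁ cb₁ o₁ h₁ σ₁ ⟨pr₁ F cb₁ cb₂ p.1, ExtInd_upp₁ p.1 p.2⟩)
        (aP c₂ cb₂ o₂ h₂ σ₂ ⟨pr₂ F cb₁ cb₂ p.1, ExtInd_upp₂ p.1 p.2⟩) := by
  show TensorProduct.map (σ₁ (pr₁ F c₁ c₂ _)) (σ₂ (pr₂ F c₁ c₂ _)) = _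
  rw [ExtInd_prL₁ c₁ c₂ cb₁ cb₂ o₁ o₂ h₁ h₂ p, ExtInd_prL₂ c₁ c₂ cb₁ cb₂ o₁ o₂ h₁ h₂ p]
  rfl

theorem ext_ind_fun (σ₁ : Representation ℂ (lev F c₁) V₁) (σ₂ : Representation ℂ (lev F c₂) V₂)
    (f₁ : (parD c₁ cb₁ o₁ h₁).IndSp σ₁) (f₂ : (parD c₂ cb₂ o₂ h₂).IndSp σ₂) :
    (fun g => f₁.1 (pr₁ F cb₁ cb₂ g) ⊗ₜ[ℂ] f₂.1 (pr₂ F cb₁ cb₂ g)) ∈
      (parD (Sum.map c₁ c₂) (Sum.map cb₁ cb₂) (Sum.elim o₁ o₂)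
        (sum_cond c₁ c₂ cb₁ cb₂ o₁ o₂ h₁ h₂)).IndSp (ext σ₁ σ₂) := by
  rw [mem_IndSp_iff]
  obtain ⟨hf₁, U₁, hU₁, hf₁'⟩ := (mem_IndSp_iff c₁ cb₁ o₁ h₁ σ₁ f₁.1).1 f₁.2
  obtain ⟨hf₂, U₂, hU₂, hf₂'⟩ := (mem_IndSp_iff c₂ cb₂ o₂ h₂ σ₂ f₂.1).1 f₂.2
  refine ⟨fun p g => ?_, U₁.comap (pr₁ F cb₁ cb₂) ⊓ U₂.comap (pr₂ F cb₁ cb₂),
    (hU₁.preimage (pr₁_cont cb₁ cb₂)).inter (hU₂.preimage (pr₂_cont cb₁ cb₂)),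
    fun g u hu => ?_⟩
  · rw [ExtInd_aP c₁ c₂ cb₁ cb₂ o₁ o₂ h₁ h₂ σ₁ σ₂ p]
    have e₁ := hf₁ ⟨pr₁ F cb₁ cb₂ p.1, ExtInd_upp₁ p.1 p.2⟩ (pr₁ F cb₁ cb₂ g)
    have e₂ := hf₂ ⟨pr₂ F cb₁ cb₂ p.1, ExtInd_upp₂ p.1 p.2⟩ (pr₂ F cb₁ cb₂ g)
    show f₁.1 (pr₁ F cb₁ cb₂ (p.1 * g)) ⊗ₜ[ℂ] f₂.1 (pr₂ F cb₁ cb₂ (p.1 * g)) = _
    rw [map_mul, map_mul, TensorProduct.map_tmul, ← e₁, ← e₂]
  · show f₁.1 (pr₁ F cb₁ cb₂ (g * u)) ⊗ₜ[ℂ] f₂.1 (pr₂ F cb₁ cb₂ (g * u)) = _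
    rw [map_mul, map_mul, hf₁' _ _ hu.1, hf₂' _ _ hu.2]

/-- the bilinear map `f₁ ⊗ f₂ ↦ (g ↦ f₁ (pr₁ g) ⊗ f₂ (pr₂ g))` -/
def ExtInd_map (σ₁ : Representation ℂ (lev F c₁) V₁) (σ₂ : Representation ℂ (lev F c₂) V₂) :
    ((parD c₁ cb₁ o₁ h₁).IndSp σ₁ ⊗[ℂ] (parD c₂ cb₂ o₂ h₂).IndSp σ₂) →ₗ[ℂ]
      (parD (Sum.map c₁ c₂) (Sum.map cb₁ cb₂) (Sum.elim o₁ o₂)
        (sum_cond c₁ c₂ cb₁ cb₂ o₁ o₂ h₁ h₂)).IndSp (ext σ₁ σ₂) :=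
  TensorProduct.lift (LinearMap.mk₂ ℂ
    (fun f₁ f₂ => ⟨_, ext_ind_fun c₁ c₂ cb₁ cb₂ o₁ o₂ h₁ h₂ σ₁ σ₂ f₁ f₂⟩)
    (fun _ _ _ => Subtype.ext (funext fun _ => TensorProduct.add_tmul _ _ _))
    (fun _ _ _ => Subtype.ext (funext fun _ => TensorProduct.smul_tmul' _ _ _))
    (fun _ _ _ => Subtype.ext (funext fun _ => TensorProduct.tmul_add _ _ _))
    (fun _ _ _ => Subtype.ext (funext fun _ => TensorProduct.tmul_smul _ _ _)))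

theorem ExtInd_map_tmul (σ₁ : Representation ℂ (lev F c₁) V₁)
    (σ₂ : Representation ℂ (lev F c₂) V₂) (f₁ : (parD c₁ cb₁ o₁ h₁).IndSp σ₁)
    (f₂ : (parD c₂ cb₂ o₂ h₂).IndSp σ₂) (g : lev F (Sum.map cb₁ cb₂)) :
    (ExtInd_map c₁ c₂ cb₁ cb₂ o₁ o₂ h₁ h₂ σ₁ σ₂ (f₁ ⊗ₜ[ℂ] f₂)).1 g =
      f₁.1 (pr₁ F cb₁ cb₂ g) ⊗ₜ[ℂ] f₂.1 (pr₂ F cb₁ cb₂ g) := rfl

theorem ExtInd_map_lsum (σ₁ : Representation ℂ (lev F c₁) V₁)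
    (σ₂ : Representation ℂ (lev F c₂) V₂)
    (t : (parD c₁ cb₁ o₁ h₁).IndSp σ₁ ⊗[ℂ] (parD c₂ cb₂ o₂ h₂).IndSp σ₂)
    (x : lev F cb₁ × lev F cb₂) :
    (ExtInd_map c₁ c₂ cb₁ cb₂ o₁ o₂ h₁ h₂ σ₁ σ₂ t).1 (lsum cb₁ cb₂ x.1 x.2) =
      tenF (lev F cb₁) (lev F cb₂) V₁ V₂
        (TensorProduct.map ((parD c₁ cb₁ o₁ h₁).IndSp σ₁).subtype
          ((parD c₂ cb₂ o₂ h₂).IndSp σ₂).subtype t) x := by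
  induction t with
  | zero =>
    rw [map_zero, map_zero, map_zero]
    rfl
  | tmul f₁ f₂ =>
    rw [ExtInd_map_tmul, pr₁_lsum, pr₂_lsum, TensorProduct.map_tmul, tenF_tmul]
    rfl
  | add a b ha hb =>
    rw [map_add, map_add, map_add, Pi.add_apply, ← ha, ← hb]
    rfl

theorem ExtInd_inj (σ₁ : Representation ℂ (lev F c₁) V₁)
    (σ₂ : Representation ℂ (lev F c₂) V₂) :
    Function.Injective (ExtInd_map c₁ c₂ cb₁ cb₂ o₁ o₂ h₁ h₂ σ₁ σ₂) := by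
  intro t t' htt
  have h3 : Function.Injective (TensorProduct.map ((parD c₁ cb₁ o₁ h₁).IndSp σ₁).subtype
      ((parD c₂ cb₂ o₂ h₂).IndSp σ₂).subtype) :=
    TensorProduct.map_injective_of_flat_flat _ _ (Submodule.injective_subtype _)
      (Submodule.injective_subtype _)
  apply h3
  apply tenF_inj
  funext x
  rw [← ExtInd_map_lsum, ← ExtInd_map_lsum, htt]

theorem ExtInd_lsum_mul (a₁ b₁ : lev F cb₁) (a₂ b₂ : lev F cb₂) :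
    lsum cb₁ cb₂ (a₁ * b₁) (a₂ * b₂) = lsum cb₁ cb₂ a₁ a₂ * lsum cb₁ cb₂ b₁ b₂ := by
  rw [← lsum_pr cb₁ cb₂ (lsum cb₁ cb₂ a₁ a₂ * lsum cb₁ cb₂ b₁ b₂), map_mul, map_mul, pr₁_lsum,
    pr₁_lsum, pr₂_lsum, pr₂_lsum]

theorem ExtInd_lsum_one : lsum (F := F) cb₁ cb₂ 1 1 = 1 := by
  rw [← lsum_pr cb₁ cb₂ (1 : lev F (Sum.map cb₁ cb₂)), map_one, map_one]

/-- the homomorphism `g₁ ↦ lsum g₁ 1` -/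
def ExtInd_i₁ : lev F cb₁ →* lev F (Sum.map cb₁ cb₂) where
  toFun g := lsum cb₁ cb₂ g 1
  map_one' := ExtInd_lsum_one cb₁ cb₂
  map_mul' := fun a b => by
    have h := ExtInd_lsum_mul cb₁ cb₂ a b 1 1
    rwa [mul_one] at h

/-- the homomorphism `g₂ ↦ lsum 1 g₂` -/
def ExtInd_i₂ : lev F cb₂ →* lev F (Sum.map cb₁ cb₂) where
  toFun g := lsum cb₁ cb₂ 1 g
  map_one' := ExtInd_lsum_one cb₁ cb₂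
  map_mul' := fun a b => by
    have h := ExtInd_lsum_mul cb₁ cb₂ 1 1 a b
    rwa [mul_one] at h

theorem ExtInd_i₁_cont : Continuous (ExtInd_i₁ (F := F) cb₁ cb₂) :=
  (lsum_cont cb₁ cb₂).comp (continuous_id.prodMk continuous_const)

theorem ExtInd_i₂_cont : Continuous (ExtInd_i₂ (F := F) cb₁ cb₂) :=
  (lsum_cont cb₁ cb₂).comp (continuous_const.prodMk continuous_id)

theorem ExtInd_lsum_upp (p₁ : PPs F cb₁ o₁) (p₂ : PPs F cb₂ o₂) :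
    lsum cb₁ cb₂ p₁.1 p₂.1 ∈ PPs F (Sum.map cb₁ cb₂) (Sum.elim o₁ o₂) := by
  show (lsum cb₁ cb₂ p₁.1 p₂.1).1 ∈ upp F (Sum.map cb₁ cb₂) (Sum.elim o₁ o₂)
  have h₁' : p₁.1.1 ∈ upp F cb₁ o₁ := p₁.2
  have h₂' : p₂.1.1 ∈ upp F cb₂ o₂ := p₂.2
  refine ⟨(lsum cb₁ cb₂ p₁.1 p₂.1).2, ?_⟩
  rintro (i | i) (j | j) hij
  · exact h₁'.2 i j hij
  · rfl
  · rfl
  · exact h₂'.2 i j hij

theorem ExtInd_fdc {κ ι' : Type} [Fintype κ] [DecidableEq κ] (cb : κ → ι') (o : κ → ℤ) :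
    Fdc (PPs F cb o) := by
  intro U hU
  obtain ⟨s, hs⟩ := dc_fin (F := F) cb o U hU
  refine ⟨s, fun g => ?_⟩
  obtain ⟨p, hp, x, hx, u, hu, h⟩ := hs g
  exact ⟨x, hx, p, hp, u, hu, h⟩

theorem ExtInd_surj (σ₁ : Representation ℂ (lev F c₁) V₁)
    (σ₂ : Representation ℂ (lev F c₂) V₂) :
    Function.Surjective (ExtInd_map c₁ c₂ cb₁ cb₂ o₁ o₂ h₁ h₂ σ₁ σ₂) := by
  intro f
  obtain ⟨hf, U, hU, hf'⟩ := (mem_IndSp_iff (Sum.map c₁ c₂) (Sum.map cb₁ cb₂) (Sum.elim o₁ o₂)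
    (sum_cond c₁ c₂ cb₁ cb₂ o₁ o₂ h₁ h₂) (ext σ₁ σ₂) f.1).1 f.2
  obtain ⟨t, ht⟩ := isprod (PPs F cb₁ o₁) (PPs F cb₂ o₂) (aP c₁ cb₁ o₁ h₁ σ₁)
    (aP c₂ cb₂ o₂ h₂ σ₂) (ExtInd_fdc cb₁ o₁) (ExtInd_fdc cb₂ o₂)
    (fun x => f.1 (lsum cb₁ cb₂ x.1 x.2)) (by
      intro p₁ p₂ g₁ g₂
      show f.1 (lsum cb₁ cb₂ (p₁.1 * g₁) (p₂.1 * g₂)) = _
      rw [ExtInd_lsum_mul]
      have h3 := hf ⟨lsum cb₁ cb₂ p₁.1 p₂.1, ExtInd_lsum_upp cb₁ cb₂ o₁ o₂ p₁ p₂⟩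
        (lsum cb₁ cb₂ g₁ g₂)
      rw [ExtInd_aP c₁ c₂ cb₁ cb₂ o₁ o₂ h₁ h₂ σ₁ σ₂] at h3
      have e₁ : (⟨pr₁ F cb₁ cb₂ (lsum cb₁ cb₂ p₁.1 p₂.1), ExtInd_upp₁ _
          (ExtInd_lsum_upp cb₁ cb₂ o₁ o₂ p₁ p₂)⟩ : PPs F cb₁ o₁) = p₁ :=
        Subtype.ext (pr₁_lsum cb₁ cb₂ p₁.1 p₂.1)
      have e₂ : (⟨pr₂ F cb₁ cb₂ (lsum cb₁ cb₂ p₁.1 p₂.1), ExtInd_upp₂ _
          (ExtInd_lsum_upp cb₁ cb₂ o₁ o₂ p₁ p₂)⟩ : PPs F cb₂ o₂) = p₂ :=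
        Subtype.ext (pr₂_lsum cb₁ cb₂ p₁.1 p₂.1)
      rw [e₁, e₂] at h3
      exact h3)
    (U.comap (ExtInd_i₁ cb₁ cb₂)) (U.comap (ExtInd_i₂ cb₁ cb₂))
    (hU.preimage (ExtInd_i₁_cont cb₁ cb₂)) (hU.preimage (ExtInd_i₂_cont cb₁ cb₂)) (by
      intro g₁ g₂ u₁ hu₁ u₂ hu₂
      show f.1 (lsum cb₁ cb₂ (g₁ * u₁) (g₂ * u₂)) = f.1 (lsum cb₁ cb₂ g₁ g₂)
      rw [ExtInd_lsum_mul]
      refine hf' _ _ ?_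
      have h3 : lsum cb₁ cb₂ u₁ u₂ = ExtInd_i₁ cb₁ cb₂ u₁ * ExtInd_i₂ cb₁ cb₂ u₂ := by
        show _ = lsum cb₁ cb₂ u₁ 1 * lsum cb₁ cb₂ 1 u₂
        rw [← ExtInd_lsum_mul, mul_one, one_mul]
      rw [h3]
      exact U.mul_mem hu₁ hu₂)
  have hs₁ : IS (PPs F cb₁ o₁) (aP c₁ cb₁ o₁ h₁ σ₁) = (parD c₁ cb₁ o₁ h₁).IndSp σ₁ :=
    Submodule.ext fun x => (mem_IndSp_iff c₁ cb₁ o₁ h₁ σ₁ x).symm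
  have hs₂ : IS (PPs F cb₂ o₂) (aP c₂ cb₂ o₂ h₂ σ₂) = (parD c₂ cb₂ o₂ h₂).IndSp σ₂ :=
    Submodule.ext fun x => (mem_IndSp_iff c₂ cb₂ o₂ h₂ σ₂ x).symm
  refine ⟨TensorProduct.map (LinearEquiv.ofEq _ _ hs₁).toLinearMap
    (LinearEquiv.ofEq _ _ hs₂).toLinearMap t, ?_⟩
  refine Subtype.ext (funext fun g => ?_)
  rw [← lsum_pr cb₁ cb₂ g]
  have h5 : TensorProduct.map ((parD c₁ cb₁ o₁ h₁).IndSp σ₁).subtype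
      ((parD c₂ cb₂ o₂ h₂).IndSp σ₂).subtype (TensorProduct.map
        (LinearEquiv.ofEq _ _ hs₁).toLinearMap (LinearEquiv.ofEq _ _ hs₂).toLinearMap t) =
      TensorProduct.map (IS (PPs F cb₁ o₁) (aP c₁ cb₁ o₁ h₁ σ₁)).subtype
        (IS (PPs F cb₂ o₂) (aP c₂ cb₂ o₂ h₂ σ₂)).subtype t := by
    rw [← LinearMap.comp_apply, ← TensorProduct.map_comp]
    rfl
  have h4 := ExtInd_map_lsum c₁ c₂ cb₁ cb₂ o₁ o₂ h₁ h₂ σ₁ σ₂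
    (TensorProduct.map (LinearEquiv.ofEq _ _ hs₁).toLinearMap
      (LinearEquiv.ofEq _ _ hs₂).toLinearMap t) (pr₁ F cb₁ cb₂ g, pr₂ F cb₁ cb₂ g)
  rw [h5] at h4
  exact h4.trans (congrFun ht (pr₁ F cb₁ cb₂ g, pr₂ F cb₁ cb₂ g))

theorem ext_ind (σ₁ : Representation ℂ (lev F c₁) V₁) (σ₂ : Representation ℂ (lev F c₂) V₂) :
    ∃ e : ((parD c₁ cb₁ o₁ h₁).IndSp σ₁ ⊗[ℂ] (parD c₂ cb₂ o₂ h₂).IndSp σ₂) ≃ₗ[ℂ]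
      (parD (Sum.map c₁ c₂) (Sum.map cb₁ cb₂) (Sum.elim o₁ o₂)
        (sum_cond c₁ c₂ cb₁ cb₂ o₁ o₂ h₁ h₂)).IndSp (ext σ₁ σ₂),
      Equi (ext ((parD c₁ cb₁ o₁ h₁).Ind σ₁) ((parD c₂ cb₂ o₂ h₂).Ind σ₂))
        ((parD (Sum.map c₁ c₂) (Sum.map cb₁ cb₂) (Sum.elim o₁ o₂)
          (sum_cond c₁ c₂ cb₁ cb₂ o₁ o₂ h₁ h₂)).Ind (ext σ₁ σ₂)) (e : _ →ₗ[ℂ] _) ∧
      ∀ f₁ f₂ g, (e (f₁ ⊗ₜ[ℂ] f₂)).1 g =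
        f₁.1 (pr₁ F cb₁ cb₂ g) ⊗ₜ[ℂ] f₂.1 (pr₂ F cb₁ cb₂ g) := by
  refine ⟨LinearEquiv.ofBijective (ExtInd_map c₁ c₂ cb₁ cb₂ o₁ o₂ h₁ h₂ σ₁ σ₂)
    ⟨ExtInd_inj c₁ c₂ cb₁ cb₂ o₁ o₂ h₁ h₂ σ₁ σ₂, ExtInd_surj c₁ c₂ cb₁ cb₂ o₁ o₂ h₁ h₂ σ₁ σ₂⟩,
    ?_, fun f₁ f₂ g => rfl⟩
  intro g v
  show ExtInd_map c₁ c₂ cb₁ cb₂ o₁ o₂ h₁ h₂ σ₁ σ₂ _ =
    (parD (Sum.map c₁ c₂) (Sum.map cb₁ cb₂) (Sum.elim o₁ o₂)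
      (sum_cond c₁ c₂ cb₁ cb₂ o₁ o₂ h₁ h₂)).Ind (ext σ₁ σ₂) g
      (ExtInd_map c₁ c₂ cb₁ cb₂ o₁ o₂ h₁ h₂ σ₁ σ₂ v)
  induction v with
  | zero => rw [map_zero, map_zero, map_zero]
  | tmul f₁ f₂ =>
    refine Subtype.ext (funext fun x => ?_)
    rw [extT_tmul, ExtInd_map_tmul]
    show f₁.1 (pr₁ F cb₁ cb₂ x * pr₁ F cb₁ cb₂ g) ⊗ₜ[ℂ]
      f₂.1 (pr₂ F cb₁ cb₂ x * pr₂ F cb₁ cb₂ g) =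
      f₁.1 (pr₁ F cb₁ cb₂ (x * g)) ⊗ₜ[ℂ] f₂.1 (pr₂ F cb₁ cb₂ (x * g))
    rw [map_mul, map_mul]
  | add a b ha hb => rw [map_add, map_add, map_add, map_add, ha, hb]

end

end Pool.Agent.Lib.MP_ca1492_al.P
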