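import Mathlib
import Pool.Agent.Lib.MP_ca1492_al.P.ExtT

/-!
# MP_ca1492_al, p-adic side, module IndTw: twists of external tensor products
-/

set_option autoImplicit false

namespace Pool.Agent.Lib.MP_ca1492_al.P

open Topology Matrix ValuativeRel TensorProduct

noncomputable section

section Abs

variable {G : Type} [Group G]
variable {W : Type} [AddCommGroup W] [Module ℂ W]

theorem twist_equi {X : Type} [AddCommGroup X] [Module ℂ X] (χ : G →* ℂˣ)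
    (π : Representation ℂ G W) (π' : Representation ℂ G X) (f : W →ₗ[ℂ] X) (h : Equi π π' f) :
    Equi (twist χ π) (twist χ π') f := by
  intro g v
  show f ((χ g : ℂ) • π g v) = (χ g : ℂ) • π' g (f v)
  rw [map_smul, h g v]

theorem twist_twist (χ χ' : G →* ℂˣ) (π : Representation ℂ G W) :
    twist χ (twist χ' π) = twist (χ * χ') π := by
  refine MonoidHom.ext fun g => LinearMap.ext fun v => ?_
  show (χ g : ℂ) • (χ' g : ℂ) • π g v = ((χ g * χ' g : ℂˣ) : ℂ) • π g v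
  rw [smul_smul, Units.val_mul]

theorem twist_one (π : Representation ℂ G W) : twist 1 π = π := by
  refine MonoidHom.ext fun g => LinearMap.ext fun v => ?_
  show ((1 : ℂˣ) : ℂ) • π g v = π g v
  rw [Units.val_one, one_smul]

end Abs

variable {F : Type} [Field F] [ValuativeRel F] [TopologicalSpace F]
  [IsNonarchimedeanLocalField F]

variable {κ₁ κ₂ : Type} [Fintype κ₁] [DecidableEq κ₁] [Fintype κ₂] [DecidableEq κ₂]
variable {ι₁ ι₂ : Type} (c₁ : κ₁ → ι₁) (c₂ : κ₂ → ι₂)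
variable {V₁ V₂ : Type} [AddCommGroup V₁] [Module ℂ V₁] [AddCommGroup V₂] [Module ℂ V₂]

theorem ext_twist (χ₁ : lev F c₁ →* ℂˣ) (χ₂ : lev F c₂ →* ℂˣ)
    (σ₁ : Representation ℂ (lev F c₁) V₁) (σ₂ : Representation ℂ (lev F c₂) V₂) :
    ext (twist χ₁ σ₁) (twist χ₂ σ₂) =
      twist ((χ₁.comp (pr₁ F c₁ c₂)) * (χ₂.comp (pr₂ F c₁ c₂))) (ext σ₁ σ₂) := by
  refine MonoidHom.ext fun g => TensorProduct.ext' fun a b => ?_
  show ((χ₁ (pr₁ F c₁ c₂ g) : ℂ) • σ₁ (pr₁ F c₁ c₂ g) a) ⊗ₜ[ℂ]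
      ((χ₂ (pr₂ F c₁ c₂ g) : ℂ) • σ₂ (pr₂ F c₁ c₂ g) b) =
    ((χ₁ (pr₁ F c₁ c₂ g) * χ₂ (pr₂ F c₁ c₂ g) : ℂˣ) : ℂ) •
      ((σ₁ (pr₁ F c₁ c₂ g) a) ⊗ₜ[ℂ] (σ₂ (pr₂ F c₁ c₂ g) b))
  rw [TensorProduct.tmul_smul, ← TensorProduct.smul_tmul', smul_smul, Units.val_mul, mul_comm]

end

end Pool.Agent.Lib.MP_ca1492_al.P
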