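import Mathlib
import Pool.Agent.Lib.MP_ca1492_al.P.CuspDefs
import Pool.Agent.Lib.MP_ca1492_al.P.Statement

/-!
# MP_ca1492_al, p-adic side, module TenDefs: the block diagonal group of a family of index sets and
external tensor products of families of representations

`K : ι → Type` a finite family of finite index sets, `M = lev F (Sigma.fst : (Σ a, K a) → ι)` the
block diagonal matrices. `blkM a` = block `a`, `dgM` = block diagonal matrix with given blocks,
`inM a` = block `a` in place, other blocks `1`.
For `R : ι → GLRep F`: `tenRep R` = the representation of `M` on `⨂[ℂ] a, (R a).V`.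

* `blkM`: multiplicative on block diagonal matrices (`(g h) (a,x) (a,y) = Σ_z g (a,x) (a,z) h (a,z) (a,y)`,
  the other terms vanish).
* `blkM_dgM`, `dgM_blkM`: entries.
* continuity: `Units.continuous_iff`, entries of `g` and `g⁻¹` are continuous.
* `vl_blkM`: the submatrix on `{i // i.1 = a}` is `blkM a m` up to the reindexing
  `{i : Σ a, K a // i.1 = a} ≃ K a` (`Matrix.det_submatrix_equiv_self`).
-/

set_option autoImplicit false

namespace Pool.Agent.Lib.MP_ca1492_al.P

open Topology Matrix ValuativeRel TensorProduct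
open Pool.Agent.Lib.MP_ca1492_al.Q (GLRep)

noncomputable section

variable {F : Type} [Field F] [ValuativeRel F] [TopologicalSpace F]
  [IsNonarchimedeanLocalField F]
variable {ι : Type} [Fintype ι] [DecidableEq ι]

section Blocks

variable (K : ι → Type) [∀ a, Fintype (K a)] [∀ a, DecidableEq (K a)]

variable {K} in
theorem TenDefs_mul (a : ι) (g h : GL (Σ a, K a) F) (hg : g ∈ lev F (Sigma.fst : (Σ a, K a) → ι)) :
    ((g : Matrix (Σ a, K a) (Σ a, K a) F) * (h : Matrix (Σ a, K a) (Σ a, K a) F)).submatrix
        (Sigma.mk a) (Sigma.mk a) =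
      (g : Matrix (Σ a, K a) (Σ a, K a) F).submatrix (Sigma.mk a) (Sigma.mk a) *
      (h : Matrix (Σ a, K a) (Σ a, K a) F).submatrix (Sigma.mk a) (Sigma.mk a) := by
  ext x y
  simp only [Matrix.submatrix_apply, Matrix.mul_apply, Fintype.sum_sigma]
  rw [Finset.sum_eq_single a]
  · intro b _ hb
    refine Finset.sum_eq_zero fun z _ => ?_
    rw [hg ⟨a, x⟩ ⟨b, z⟩ (fun h => hb h.symm), zero_mul]
  · intro h
    exact absurd (Finset.mem_univ a) h

variable (F) in
/-- the block `a` of a block diagonal matrix -/
def blkM (a : ι) : lev F (Sigma.fst : (Σ a, K a) → ι) →* GL (K a) F where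
  toFun g := ⟨(g.1 : Matrix (Σ a, K a) (Σ a, K a) F).submatrix (Sigma.mk a) (Sigma.mk a),
      ((g.1⁻¹ : GL (Σ a, K a) F) : Matrix (Σ a, K a) (Σ a, K a) F).submatrix
        (Sigma.mk a) (Sigma.mk a), by
        rw [← TenDefs_mul a g.1 g.1⁻¹ g.2, ← Units.val_mul, mul_inv_cancel, Units.val_one]
        exact Matrix.submatrix_one _ sigma_mk_injective, by
        rw [← TenDefs_mul a g.1⁻¹ g.1 ((lev F _).inv_mem g.2), ← Units.val_mul,
          inv_mul_cancel, Units.val_one]
        exact Matrix.submatrix_one _ sigma_mk_injective⟩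
  map_one' := Units.ext (Matrix.submatrix_one _ sigma_mk_injective)
  map_mul' := fun g h => Units.ext (TenDefs_mul a g.1 h.1 g.2)

theorem blkM_apply (a : ι) (g : lev F (Sigma.fst : (Σ a, K a) → ι)) (x y : K a) :
    (blkM F K a g : Matrix (K a) (K a) F) x y =
      (g.1 : Matrix (Σ a, K a) (Σ a, K a) F) ⟨a, x⟩ ⟨a, y⟩ := rfl

variable (F) in
/-- the block diagonal matrix with given blocks -/
def dgM : (∀ a, GL (K a) F) →* lev F (Sigma.fst : (Σ a, K a) → ι) where
  toFun h := ⟨⟨Matrix.blockDiagonal' fun a => (h a : Matrix (K a) (K a) F),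
      Matrix.blockDiagonal' fun a => ((h a)⁻¹ : GL (K a) F).val, by
      rw [← Matrix.blockDiagonal'_mul, ← Matrix.blockDiagonal'_one]
      congr 1
      funext a
      rw [← Units.val_mul, mul_inv_cancel, Units.val_one]
      rfl, by
      rw [← Matrix.blockDiagonal'_mul, ← Matrix.blockDiagonal'_one]
      congr 1
      funext a
      rw [← Units.val_mul, inv_mul_cancel, Units.val_one]
      rfl⟩, by
      rintro ⟨a, x⟩ ⟨b, y⟩ hab
      exact Matrix.blockDiagonal'_apply_ne (fun a => (h a : Matrix (K a) (K a) F)) x y hab⟩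
  map_one' := Subtype.ext (Units.ext (by
    show Matrix.blockDiagonal' (fun a => (1 : Matrix (K a) (K a) F)) = 1
    exact Matrix.blockDiagonal'_one))
  map_mul' := fun g h => Subtype.ext (Units.ext (by
    show Matrix.blockDiagonal' (fun a => (g a : Matrix (K a) (K a) F) *
      (h a : Matrix (K a) (K a) F)) = _
    exact Matrix.blockDiagonal'_mul _ _))

theorem blkM_dgM (h : ∀ a, GL (K a) F) (a : ι) : blkM F K a (dgM F K h) = h a := by
  refine Units.ext (Matrix.ext fun x y => ?_)
  exact Matrix.blockDiagonal'_apply_eq (fun a => (h a : Matrix (K a) (K a) F)) a x y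

theorem dgM_blkM (g : lev F (Sigma.fst : (Σ a, K a) → ι)) :
    dgM F K (fun a => blkM F K a g) = g := by
  refine Subtype.ext (Units.ext (Matrix.ext ?_))
  rintro ⟨a, x⟩ ⟨b, y⟩
  by_cases hab : a = b
  · subst hab
    exact Matrix.blockDiagonal'_apply_eq
      (fun a => (blkM F K a g : Matrix (K a) (K a) F)) a x y
  · have h1 := g.2 ⟨a, x⟩ ⟨b, y⟩ hab
    rw [h1]
    exact Matrix.blockDiagonal'_apply_ne
      (fun a => (blkM F K a g : Matrix (K a) (K a) F)) x y hab

theorem blkM_cont (a : ι) : Continuous (blkM F K a) := by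
  rw [Units.continuous_iff]
  constructor
  · have h1 : Continuous fun g : lev F (Sigma.fst : (Σ a, K a) → ι) =>
        (g.1 : Matrix (Σ a, K a) (Σ a, K a) F) := Units.continuous_val.comp continuous_subtype_val
    exact h1.matrix_submatrix _ _
  · have h1 : Continuous fun g : lev F (Sigma.fst : (Σ a, K a) → ι) =>
        ((g.1⁻¹ : GL (Σ a, K a) F) : Matrix (Σ a, K a) (Σ a, K a) F) :=
      Units.continuous_coe_inv.comp continuous_subtype_val
    exact h1.matrix_submatrix _ _

theorem dgM_cont : Continuous (dgM F K) := by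
  refine continuous_induced_rng.2 ?_
  rw [Units.continuous_iff]
  constructor
  · have h1 : Continuous fun h : ∀ a, GL (K a) F => fun a => (h a : Matrix (K a) (K a) F) :=
      continuous_pi fun a => Units.continuous_val.comp (continuous_apply a)
    exact h1.matrix_blockDiagonal'
  · have h1 : Continuous fun h : ∀ a, GL (K a) F => fun a => ((h a)⁻¹ : GL (K a) F).val :=
      continuous_pi fun a => Units.continuous_coe_inv.comp (continuous_apply a)
    exact h1.matrix_blockDiagonal'

variable (F) in
/-- the block `a` in place -/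
def inM (a : ι) : GL (K a) F →* lev F (Sigma.fst : (Σ a, K a) → ι) :=
  (dgM F K).comp (MonoidHom.mulSingle (fun a => GL (K a) F) a)

theorem blkM_inM (a : ι) (h : GL (K a) F) : blkM F K a (inM F K a h) = h := by
  refine (blkM_dgM K _ a).trans ?_
  exact Pi.mulSingle_eq_same (M := fun a => GL (K a) F) a h

theorem blkM_inM_ne (a b : ι) (hab : b ≠ a) (h : GL (K a) F) :
    blkM F K b (inM F K a h) = 1 := by
  refine (blkM_dgM K _ b).trans ?_
  exact Pi.mulSingle_eq_of_ne (M := fun a => GL (K a) F) hab h

theorem inM_cont (a : ι) : Continuous (inM F K a) := by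
  have h1 : Continuous fun h : GL (K a) F => (Pi.mulSingle a h : ∀ a, GL (K a) F) :=
    continuous_mulSingle (A := fun a => GL (K a) F) a
  exact (dgM_cont K).comp h1

theorem vl_blkM (a : ι) (g : lev F (Sigma.fst : (Σ a, K a) → ι)) :
    vl (Sigma.fst : (Σ a, K a) → ι) g.1 a =
      ordF F (blkM F K a g : Matrix (K a) (K a) F).det := by
  let e : K a ≃ {i : Σ a, K a // i.1 = a} :=
    { toFun := fun x => ⟨⟨a, x⟩, rfl⟩
      invFun := fun i => cast (congrArg K i.2) i.1.2
      left_inv := fun x => rfl
      right_inv := by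
        rintro ⟨⟨b, x⟩, hb⟩
        have hb' : b = a := hb
        subst hb'
        rfl }
  have h1 : bdet (Sigma.fst : (Σ a, K a) → ι) a (g.1 : Matrix (Σ a, K a) (Σ a, K a) F) =
      (blkM F K a g : Matrix (K a) (K a) F).det :=
    (Matrix.det_submatrix_equiv_self e ((g.1 : Matrix (Σ a, K a) (Σ a, K a) F).submatrix
      (Subtype.val : {i : Σ a, K a // i.1 = a} → (Σ a, K a)) Subtype.val)).symm
  unfold vl
  rw [h1]

end Blocks

variable (R : ι → GLRep F)

/-- the index set of the block matrices of a family of representations -/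
abbrev sk : Type := Σ a, (R a).κ

/-- the colouring of the index set -/
abbrev sc : sk R → ι := Sigma.fst

/-- the external tensor product -/
def tenRep : Representation ℂ (lev F (sc R)) (⨂[ℂ] a, (R a).V) where
  toFun m := PiTensorProduct.map fun a => (R a).π (blkM F (fun a => (R a).κ) a m)
  map_one' := by
    simp only [map_one]
    exact PiTensorProduct.map_id
  map_mul' := by
    intro g h
    simp only [map_mul]
    exact PiTensorProduct.map_comp _ _

theorem tenRep_tprod (m : lev F (sc R)) (v : ∀ a, (R a).V) :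
    tenRep R m (PiTensorProduct.tprod ℂ v) =
      PiTensorProduct.tprod ℂ fun a => (R a).π (blkM F (fun a => (R a).κ) a m) (v a) :=
  PiTensorProduct.map_tprod _ _

end

end Pool.Agent.Lib.MP_ca1492_al.P
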