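import Mathlib
import Pool.Agent.Lib.MP_ca1492_al.D5.Mhom
import Pool.Agent.Lib.MP_ca1492_al.P.TenDefs

/-!
# MP_ca1492_al, p-adic side, module TenAw: block permutations preserving the letters

`J` = set of letters, `RJ : J → GLRep F`, `l : ι → J` the letters of the strands,
`R a = RJ (l a)`. For a permutation `w` of the strands with `l (w a) = l a`: `bperm w` permutes the
blocks, `Aw w (⊗ v_a) = ⊗_b v_(w⁻¹ b)`.

* `castV`, `castK` are identities transported along an equality of letters; all statements about them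
  are proved by `subst`/`cases` on the equality.
* `blk_conj`: block `w a` of `ẇ m ẇ⁻¹` is block `a` of `m` (`permG_conj`), with casts.
* `Aw_inter`: on pure tensors: `tenRep R (ẇ m ẇ⁻¹) (Aw w (⊗ v)) = ⊗_b π_b(block b of ẇ m ẇ⁻¹)
  (cast (v (w⁻¹ b)))` and block `b` of `ẇ m ẇ⁻¹` is the cast of the block `w⁻¹ b` of `m`
  (`castV_rho`).
* `Aw_mul`, `Aw_one`: on pure tensors, casts compose (`castV_trans`, proof irrelevance).
-/

set_option autoImplicit false

namespace Pool.Agent.Lib.MP_ca1492_al.P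

open Topology Matrix ValuativeRel TensorProduct
open Pool.Agent.Lib.MP_ca1492_al.Q (GLRep)

noncomputable section

variable {F : Type} [Field F] [ValuativeRel F] [TopologicalSpace F]
  [IsNonarchimedeanLocalField F]

variable {J : Type} (RJ : J → GLRep F)

/-- identification of the spaces of equal letters -/
def castV : {j j' : J} → j = j' → ((RJ j).V ≃ₗ[ℂ] (RJ j').V)
  | _, _, rfl => LinearEquiv.refl ℂ _

/-- identification of the index sets of equal letters -/
def castK : {j j' : J} → j = j' → ((RJ j).κ ≃ (RJ j').κ)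
  | _, _, rfl => Equiv.refl _

theorem castV_trans {j j' j'' : J} (h : j = j') (h' : j' = j'') (v : (RJ j).V) :
    castV RJ h' (castV RJ h v) = castV RJ (h.trans h') v := by
  subst h
  subst h'
  rfl

theorem TenAw_castK_trans {j j' j'' : J} (h : j = j') (h' : j' = j'') (x : (RJ j).κ) :
    castK RJ h' (castK RJ h x) = castK RJ (h.trans h') x := by
  subst h
  subst h'
  rfl

theorem castV_rho {j j' : J} (h : j = j') (g : GL (RJ j).κ F) (g' : GL (RJ j').κ F)
    (hg : ∀ x y, (g' : Matrix (RJ j').κ (RJ j').κ F) (castK RJ h x) (castK RJ h y) =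
      (g : Matrix (RJ j).κ (RJ j).κ F) x y) (v : (RJ j).V) :
    (RJ j').π g' (castV RJ h v) = castV RJ h ((RJ j).π g v) := by
  subst h
  have h1 : g' = g := Units.ext (Matrix.ext fun x y => hg x y)
  rw [h1]
  rfl

variable {ι : Type} [Fintype ι] [DecidableEq ι] (l : ι → J)

/-- the block permutation -/
def bperm (w : Equiv.Perm ι) (hw : ∀ a, l (w a) = l a) : Equiv.Perm (sk fun a => RJ (l a)) :=
  Equiv.sigmaCongr w fun a => castK RJ (hw a).symm

theorem bperm_fst (w : Equiv.Perm ι) (hw : ∀ a, l (w a) = l a) (i : sk fun a => RJ (l a)) :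
    (bperm RJ l w hw i).1 = w i.1 := rfl

theorem bperm_cls (w : Equiv.Perm ι) (hw : ∀ a, l (w a) = l a) (i j : sk fun a => RJ (l a)) :
    sc (fun a => RJ (l a)) (bperm RJ l w hw i) = sc (fun a => RJ (l a)) (bperm RJ l w hw j) ↔
      sc (fun a => RJ (l a)) i = sc (fun a => RJ (l a)) j := by
  change w i.1 = w j.1 ↔ i.1 = j.1
  exact w.injective.eq_iff

theorem bperm_mul (w w' : Equiv.Perm ι) (hw : ∀ a, l (w a) = l a) (hw' : ∀ a, l (w' a) = l a)
    (h : ∀ a, l ((w * w') a) = l a) :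
    bperm RJ l (w * w') h = bperm RJ l w hw * bperm RJ l w' hw' := by
  refine Equiv.ext fun i => ?_
  obtain ⟨a, x⟩ := i
  change (⟨w (w' a), castK RJ (h a).symm x⟩ : Σ a, (RJ (l a)).κ) =
    ⟨w (w' a), castK RJ (hw (w' a)).symm (castK RJ (hw' a).symm x)⟩
  rw [TenAw_castK_trans]
  rfl

theorem TenAw_sig {b b' : ι} (h : b' = b) {j : J} (e : j = l b') (e' : j = l b)
    (x : (RJ j).κ) :
    (⟨b', castK RJ e x⟩ : Σ a, (RJ (l a)).κ) = ⟨b, castK RJ e' x⟩ := by
  subst h
  rfl

theorem bperm_one (h : ∀ a, l ((1 : Equiv.Perm ι) a) = l a) : bperm RJ l 1 h = 1 := by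
  refine Equiv.ext fun i => ?_
  obtain ⟨a, x⟩ := i
  rfl

theorem Aw_letter (w : Equiv.Perm ι) (hw : ∀ a, l (w a) = l a) (b : ι) :
    l (w.symm b) = l b := by
  rw [← hw (w.symm b), Equiv.apply_symm_apply]

/-- `⊗ v_a ↦ ⊗_b v_(w⁻¹ b)` -/
def Aw (w : Equiv.Perm ι) (hw : ∀ a, l (w a) = l a) :
    (⨂[ℂ] a, (RJ (l a)).V) ≃ₗ[ℂ] (⨂[ℂ] a, (RJ (l a)).V) :=
  (PiTensorProduct.reindex ℂ (fun a => (RJ (l a)).V) w).trans
    (PiTensorProduct.congr fun b => castV RJ (Aw_letter l w hw b))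

theorem Aw_tprod (w : Equiv.Perm ι) (hw : ∀ a, l (w a) = l a) (v : ∀ a, (RJ (l a)).V) :
    Aw RJ l w hw (PiTensorProduct.tprod ℂ v) =
      PiTensorProduct.tprod ℂ fun b => castV RJ (Aw_letter l w hw b) (v (w.symm b)) := by
  unfold Aw
  rw [LinearEquiv.trans_apply, PiTensorProduct.reindex_tprod, PiTensorProduct.congr_tprod]

theorem Aw_mul (w w' : Equiv.Perm ι) (hw : ∀ a, l (w a) = l a) (hw' : ∀ a, l (w' a) = l a)
    (h : ∀ a, l ((w * w') a) = l a) (t : ⨂[ℂ] a, (RJ (l a)).V) :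
    Aw RJ l (w * w') h t = Aw RJ l w hw (Aw RJ l w' hw' t) := by
  induction t using PiTensorProduct.induction_on with
  | smul_tprod r v =>
    rw [map_smul, map_smul, map_smul, Aw_tprod, Aw_tprod, Aw_tprod]
    congr 1
    congr 1
    funext b
    rw [castV_trans]
    rfl
  | add x y hx hy => rw [map_add, map_add, map_add, hx, hy]

theorem Aw_one (h : ∀ a, l ((1 : Equiv.Perm ι) a) = l a) (t : ⨂[ℂ] a, (RJ (l a)).V) :
    Aw RJ l 1 h t = t := by
  induction t using PiTensorProduct.induction_on with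
  | smul_tprod r v =>
    rw [map_smul, Aw_tprod]
    rfl
  | add x y hx hy => rw [map_add, hx, hy]

theorem Aw_inter (w : Equiv.Perm ι) (hw : ∀ a, l (w a) = l a)
    (m : lev F (sc fun a => RJ (l a))) (t : ⨂[ℂ] a, (RJ (l a)).V) :
    cjR (sc fun a => RJ (l a)) (bperm RJ l w hw) (bperm_cls RJ l w hw)
        (tenRep fun a => RJ (l a)) m (Aw RJ l w hw t) =
      Aw RJ l w hw (tenRep (fun a => RJ (l a)) m t) := by
  induction t using PiTensorProduct.induction_on with
  | smul_tprod r v =>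
    rw [map_smul, map_smul, map_smul, map_smul]
    congr 1
    have h1 : ∀ x, cjR (sc fun a => RJ (l a)) (bperm RJ l w hw) (bperm_cls RJ l w hw)
        (tenRep fun a => RJ (l a)) m x =
        tenRep (fun a => RJ (l a)) ⟨permG F (bperm RJ l w hw) * m.1 *
          (permG F (bperm RJ l w hw))⁻¹, permG_conj_mem _ _ _ (bperm_cls RJ l w hw) m.1 m.2⟩ x :=
      fun x => rfl
    rw [Aw_tprod, h1, tenRep_tprod, tenRep_tprod, Aw_tprod]
    congr 1
    funext b
    refine castV_rho RJ (Aw_letter l w hw b) _ _ (fun x y => ?_) (v (w.symm b))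
    rw [blkM_apply, blkM_apply, ← permG_conj (bperm RJ l w hw) m.1]
    have h2 : ∀ x : (RJ (l (w.symm b))).κ, bperm RJ l w hw ⟨w.symm b, x⟩ =
        ⟨b, castK RJ (Aw_letter l w hw b) x⟩ :=
      fun x => TenAw_sig RJ l (w.apply_symm_apply b) (hw (w.symm b)).symm (Aw_letter l w hw b) x
    rw [h2, h2]
  | add x y hx hy => rw [map_add, map_add, map_add, map_add, hx, hy]

/-- `Aw` is an isomorphism of the conjugate with the representation -/
theorem Aw_isA (w : Equiv.Perm ι) (hw : ∀ a, l (w a) = l a) :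
    ∃ A : (⨂[ℂ] a, (RJ (l a)).V) ≃ₗ[ℂ] (⨂[ℂ] a, (RJ (l a)).V),
      (∀ t, A (Aw RJ l w hw t) = t) ∧
      IsA (sc fun a => RJ (l a)) (bperm RJ l w hw) (bperm_cls RJ l w hw)
        (tenRep fun a => RJ (l a)) A := by
  refine ⟨(Aw RJ l w hw).symm, fun t => (Aw RJ l w hw).symm_apply_apply t, fun m v => ?_⟩
  obtain ⟨t, rfl⟩ := (Aw RJ l w hw).surjective v
  show (Aw RJ l w hw).symm (cjR (sc fun a => RJ (l a)) (bperm RJ l w hw) (bperm_cls RJ l w hw)
    (tenRep fun a => RJ (l a)) m (Aw RJ l w hw t)) =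
      tenRep (fun a => RJ (l a)) m ((Aw RJ l w hw).symm (Aw RJ l w hw t))
  rw [Aw_inter, LinearEquiv.symm_apply_apply, LinearEquiv.symm_apply_apply]

/-- block valuations of the conjugate -/
theorem vl_conj {κ : Type} [Fintype κ] [DecidableEq κ] {ι : Type} [DecidableEq ι] (c : κ → ι)
    (w : Equiv.Perm κ) (wb : Equiv.Perm ι) (hw : ∀ i, c (w i) = wb (c i)) (m : GL κ F) (a : ι) :
    vl c (permG F w * m * (permG F w)⁻¹) (wb a) = vl c m a := by
  unfold vl bdet
  congr 1
  have hi : ∀ i : κ, c i = a ↔ c (w i) = wb a := fun i => by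
    rw [hw]
    exact wb.injective.eq_iff.symm
  rw [← Matrix.det_submatrix_equiv_self (w.subtypeEquiv hi)]
  congr 1
  ext i j
  exact permG_conj w m i.1 j.1

end

end Pool.Agent.Lib.MP_ca1492_al.P
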