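import Mathlib
import Pool.Agent.Lib.MP_ca1492_al.P.ExtT
import Pool.Agent.Lib.MP_ca1492_al.P.LevT
import Pool.Agent.Lib.MP_ca1492_al.P.TenDefs

/-!
# MP_ca1492_al, p-adic side, module TenSum: external tensor products over a disjoint union

`skS R : sk R ≃ sk (R ∘ inl) ⊕ sk (R ∘ inr)` (`Equiv.sumSigmaDistrib`) for `R : ι₁ ⊕ ι₂ → GLRep F`.

* `skS_cls'`: by cases.
* `ten_sum`: `PiTensorProduct.tmulEquivDep : (⨂ a, N (inl a)) ⊗ (⨂ b, N (inr b)) ≃ ⨂ x, N x` on pure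
  tensors; block `inl a` of `m` is block `a` of `pr₁ (levT m)` (entries: `glT_apply`).
-/

set_option autoImplicit false

namespace Pool.Agent.Lib.MP_ca1492_al.P

open Topology Matrix ValuativeRel TensorProduct
open Pool.Agent.Lib.MP_ca1492_al.Q (GLRep)

noncomputable section

variable {F : Type} [Field F] [ValuativeRel F] [TopologicalSpace F]
  [IsNonarchimedeanLocalField F]
variable {ι₁ ι₂ : Type} [Fintype ι₁] [DecidableEq ι₁] [Fintype ι₂] [DecidableEq ι₂]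
  (R : ι₁ ⊕ ι₂ → GLRep F)

/-- the index set of a disjoint union of families -/
def skS : sk R ≃ sk (fun a => R (Sum.inl a)) ⊕ sk (fun b => R (Sum.inr b)) :=
  Equiv.sumSigmaDistrib fun x => (R x).κ

theorem skS_cls' (i : sk R) :
    Sum.map (sc fun a => R (Sum.inl a)) (sc fun b => R (Sum.inr b)) (skS R i) = sc R i := by
  rcases i with ⟨x | x, y⟩ <;> rfl

theorem skS_cls (i j : sk R) :
    Sum.map (sc fun a => R (Sum.inl a)) (sc fun b => R (Sum.inr b)) (skS R i) =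
        Sum.map (sc fun a => R (Sum.inl a)) (sc fun b => R (Sum.inr b)) (skS R j) ↔
      sc R i = sc R j := by
  rw [skS_cls', skS_cls']

/-- two linear maps which agree on pure tensors -/
theorem TenSum_ext (R₁ : ι₁ → GLRep F) (R₂ : ι₂ → GLRep F) {W : Type} [AddCommGroup W]
    [Module ℂ W]
    (f g : ((⨂[ℂ] a, (R₁ a).V) ⊗[ℂ] (⨂[ℂ] b, (R₂ b).V)) →ₗ[ℂ] W)
    (h : ∀ (v₁ : ∀ a, (R₁ a).V) (v₂ : ∀ b, (R₂ b).V),
      f ((PiTensorProduct.tprod ℂ v₁) ⊗ₜ[ℂ] (PiTensorProduct.tprod ℂ v₂)) =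
        g ((PiTensorProduct.tprod ℂ v₁) ⊗ₜ[ℂ] (PiTensorProduct.tprod ℂ v₂))) : f = g := by
  refine TensorProduct.ext ?_
  refine PiTensorProduct.ext ?_
  ext v₁ : 1
  refine PiTensorProduct.ext ?_
  ext v₂
  exact h v₁ v₂

theorem TenSum_blk₁ (m : lev F (sc R)) (a : ι₁) :
    (blkM F (fun x => (R x).κ) (Sum.inl a) m : GL (R (Sum.inl a)).κ F) =
      blkM F (fun a => (R (Sum.inl a)).κ) a
        (pr₁ F (sc fun a => R (Sum.inl a)) (sc fun b => R (Sum.inr b))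
          (levT F (skS R) (skS_cls R) m)) := by
  refine Units.ext ?_
  ext x y
  have h := glT_apply (skS R) m.1 ⟨Sum.inl a, x⟩ ⟨Sum.inl a, y⟩
  exact h.symm

theorem TenSum_blk₂ (m : lev F (sc R)) (b : ι₂) :
    (blkM F (fun x => (R x).κ) (Sum.inr b) m : GL (R (Sum.inr b)).κ F) =
      blkM F (fun b => (R (Sum.inr b)).κ) b
        (pr₂ F (sc fun a => R (Sum.inl a)) (sc fun b => R (Sum.inr b))
          (levT F (skS R) (skS_cls R) m)) := by
  refine Units.ext ?_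
  ext x y
  have h := glT_apply (skS R) m.1 ⟨Sum.inr b, x⟩ ⟨Sum.inr b, y⟩
  exact h.symm

theorem ten_sum : ∃ e : ((⨂[ℂ] a, (R (Sum.inl a)).V) ⊗[ℂ] (⨂[ℂ] b, (R (Sum.inr b)).V)) ≃ₗ[ℂ]
      (⨂[ℂ] x, (R x).V),
    (∀ (v₁ : ∀ a, (R (Sum.inl a)).V) (v₂ : ∀ b, (R (Sum.inr b)).V),
      e ((PiTensorProduct.tprod ℂ v₁) ⊗ₜ[ℂ] (PiTensorProduct.tprod ℂ v₂)) =
        PiTensorProduct.tprod ℂ (fun x => Sum.rec (motive := fun x => (R x).V) v₁ v₂ x)) ∧
    ∀ (m : lev F (sc R)) t,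
      tenRep R m (e t) =
        e (ext (tenRep fun a => R (Sum.inl a)) (tenRep fun b => R (Sum.inr b))
          (levT F (skS R) (skS_cls R) m) t) := by
  let e : ((⨂[ℂ] a, (R (Sum.inl a)).V) ⊗[ℂ] (⨂[ℂ] b, (R (Sum.inr b)).V)) ≃ₗ[ℂ]
      (⨂[ℂ] x, (R x).V) :=
    PiTensorProduct.tmulEquivDep ℂ (fun x => (R x).V)
  have he : ∀ (v₁ : ∀ a, (R (Sum.inl a)).V) (v₂ : ∀ b, (R (Sum.inr b)).V),
      e ((PiTensorProduct.tprod ℂ v₁) ⊗ₜ[ℂ] (PiTensorProduct.tprod ℂ v₂)) =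
        PiTensorProduct.tprod ℂ (fun x => Sum.rec (motive := fun x => (R x).V) v₁ v₂ x) :=
    fun v₁ v₂ => PiTensorProduct.tmulEquivDep_apply ℂ (fun x => (R x).V) v₁ v₂
  refine ⟨e, he, fun m t => ?_⟩
  have key : (tenRep R m).comp e.toLinearMap = e.toLinearMap.comp
      (ext (tenRep fun a => R (Sum.inl a)) (tenRep fun b => R (Sum.inr b))
        (levT F (skS R) (skS_cls R) m)) := by
    refine TenSum_ext (fun a => R (Sum.inl a)) (fun b => R (Sum.inr b)) _ _ fun v₁ v₂ => ?_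
    rw [LinearMap.comp_apply, LinearMap.comp_apply, LinearEquiv.coe_coe, he v₁ v₂]
    have e2 : ext (tenRep fun a => R (Sum.inl a)) (tenRep fun b => R (Sum.inr b))
        (levT F (skS R) (skS_cls R) m)
        ((PiTensorProduct.tprod ℂ v₁) ⊗ₜ[ℂ] (PiTensorProduct.tprod ℂ v₂)) =
        (tenRep (fun a => R (Sum.inl a))
          (pr₁ F (sc fun a => R (Sum.inl a)) (sc fun b => R (Sum.inr b))
            (levT F (skS R) (skS_cls R) m))
          (PiTensorProduct.tprod ℂ v₁)) ⊗ₜ[ℂ]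
        (tenRep (fun b => R (Sum.inr b))
          (pr₂ F (sc fun a => R (Sum.inl a)) (sc fun b => R (Sum.inr b))
            (levT F (skS R) (skS_cls R) m))
          (PiTensorProduct.tprod ℂ v₂)) := rfl
    rw [e2, tenRep_tprod, tenRep_tprod, tenRep_tprod, he]
    congr 1
    funext x
    rcases x with a | b
    · change (R (Sum.inl a)).π (blkM F (fun x => (R x).κ) (Sum.inl a) m) (v₁ a) = _
      rw [TenSum_blk₁]
    · change (R (Sum.inr b)).π (blkM F (fun x => (R x).κ) (Sum.inr b) m) (v₂ b) = _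
      rw [TenSum_blk₂]
  exact LinearMap.congr_fun key t

end

end Pool.Agent.Lib.MP_ca1492_al.P
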