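import Mathlib
import Pool.Agent.Lib.MP_ca1492_al.P.Loc
import Pool.Agent.Lib.MP_ca1492_al.P.Statement

/-!
# MP_ca1492_al: elementary facts about isomorphisms, quotients, twists and products of `GLRep`
-/

set_option autoImplicit false
set_option linter.unusedSectionVars false

namespace Pool.Agent.Lib.MP_ca1492_al.Q

open Topology Matrix TensorProduct Pool.Agent.Lib.MP_ca1492_al.P

noncomputable section

variable {F : Type} [Field F] [ValuativeRel F] [TopologicalSpace F]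
  [IsNonarchimedeanLocalField F]

namespace GLRep

section glre

variable {κ κ' κ'' : Type} [Fintype κ] [DecidableEq κ] [Fintype κ'] [DecidableEq κ']
  [Fintype κ''] [DecidableEq κ'']

theorem GLRepB_val (e : κ ≃ κ') (g : GL κ F) :
    ((glRe e g : GL κ' F) : Matrix κ' κ' F) = (g : Matrix κ κ F).submatrix e.symm e.symm := rfl

theorem GLRepB_inv (e : κ ≃ κ') (g : GL κ F) :
    (((glRe e g)⁻¹ : GL κ' F) : Matrix κ' κ' F) =
      ((g⁻¹ : GL κ F) : Matrix κ κ F).submatrix e.symm e.symm := rfl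

theorem GLRepB_refl (g : GL κ F) : glRe (Equiv.refl κ) g = g := by
  apply Units.ext
  rw [GLRepB_val]
  rfl

theorem GLRepB_trans (e : κ ≃ κ') (e' : κ' ≃ κ'') (g : GL κ F) :
    glRe e' (glRe e g) = glRe (e.trans e') g := by
  apply Units.ext
  rw [GLRepB_val, GLRepB_val, GLRepB_val]
  rfl

theorem GLRepB_symm (e : κ ≃ κ') (g : GL κ F) : glRe e.symm (glRe e g) = g := by
  rw [GLRepB_trans, Equiv.self_trans_symm, GLRepB_refl]

theorem GLRepB_symm' (e : κ ≃ κ') (g : GL κ' F) : glRe e (glRe e.symm g) = g := by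
  rw [GLRepB_trans, Equiv.symm_trans_self, GLRepB_refl]

theorem GLRepB_det (e : κ ≃ κ') (g : GL κ F) :
    ((glRe e g : GL κ' F) : Matrix κ' κ' F).det = (g : Matrix κ κ F).det := by
  rw [GLRepB_val, Matrix.det_submatrix_equiv_self]

theorem GLRepB_cont (e : κ ≃ κ') : Continuous (glRe e : GL κ F → GL κ' F) := by
  rw [Units.continuous_iff]
  refine ⟨?_, ?_⟩
  · refine continuous_matrix fun i j => ?_
    exact (Units.continuous_val (M := Matrix κ κ F)).matrix_elem (e.symm i) (e.symm j)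
  · refine continuous_matrix fun i j => ?_
    exact (Units.continuous_iff.1 (continuous_id : Continuous (id : GL κ F → GL κ F))).2.matrix_elem
      (e.symm i) (e.symm j)

theorem GLRepB_blk {κ₁ κ₂ κ₁' κ₂' : Type} [Fintype κ₁] [DecidableEq κ₁] [Fintype κ₂]
    [DecidableEq κ₂] [Fintype κ₁'] [DecidableEq κ₁'] [Fintype κ₂'] [DecidableEq κ₂']
    (e : κ₁ ≃ κ₁') (e' : κ₂ ≃ κ₂') (g₁ : GL κ₁ F) (g₂ : GL κ₂ F) (u : Matrix κ₁ κ₂ F) :
    glRe (Equiv.sumCongr e e') (blk F g₁ g₂ u) =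
      blk F (glRe e g₁) (glRe e' g₂) (u.submatrix e.symm e'.symm) := by
  apply Units.ext
  rw [GLRepB_val]
  ext i j
  rcases i with i | i <;> rcases j with j | j <;> rfl

theorem GLRepB_detblk {κ₁ κ₂ : Type} [Fintype κ₁] [DecidableEq κ₁] [Fintype κ₂]
    [DecidableEq κ₂] (g₁ : GL κ₁ F) (g₂ : GL κ₂ F) (u : Matrix κ₁ κ₂ F) :
    ((blk F g₁ g₂ u : GL (κ₁ ⊕ κ₂) F) : Matrix (κ₁ ⊕ κ₂) (κ₁ ⊕ κ₂) F).det =
      (g₁ : Matrix κ₁ κ₁ F).det * (g₂ : Matrix κ₂ κ₂ F).det :=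
  Matrix.det_fromBlocks_zero₂₁ _ _ _

end glre

theorem GLRepB_pos {x : F} (hx : x ≠ 0) : 0 < absF F x := by
  unfold absF
  rw [if_neg hx]
  have h0 : 0 < (Nat.card (IsLocalRing.ResidueField (Valuation.integer (ValuativeRel.valuation F)))) :=
    lt_trans Nat.zero_lt_one (one_lt_qF (F := F))
  exact zpow_pos (by exact_mod_cast h0) _

theorem GLRepB_detne {κ : Type} [Fintype κ] [DecidableEq κ] (g : GL κ F) :
    (g : Matrix κ κ F).det ≠ 0 := by
  have h := (Matrix.isUnit_iff_isUnit_det (g : Matrix κ κ F)).1 g.isUnit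
  exact h.ne_zero

theorem GLRepB_dpos {κ : Type} [Fintype κ] [DecidableEq κ] (g : GL κ F) :
    0 < absF F (g : Matrix κ κ F).det := GLRepB_pos (GLRepB_detne g)

/-- the number `|det g| ^ s` -/
def GLRepB_c {κ : Type} [Fintype κ] [DecidableEq κ] (s : ℝ) (g : GL κ F) : ℂ :=
  (((absF F (g : Matrix κ κ F).det) ^ s : ℝ) : ℂ)

theorem GLRepB_c_mul {κ : Type} [Fintype κ] [DecidableEq κ] (s : ℝ) (g h : GL κ F) :
    GLRepB_c s (g * h) = GLRepB_c s g * GLRepB_c s h := by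
  unfold GLRepB_c
  rw [Units.val_mul, Matrix.det_mul, absF_mul, Real.mul_rpow (absF_nonneg _ _) (absF_nonneg _ _),
    Complex.ofReal_mul]

theorem GLRepB_c_ne {κ : Type} [Fintype κ] [DecidableEq κ] (s : ℝ) (g : GL κ F) :
    GLRepB_c s g ≠ 0 := by
  unfold GLRepB_c
  rw [Complex.ofReal_ne_zero]
  exact (Real.rpow_pos_of_pos (GLRepB_dpos g) s).ne'

theorem GLRepB_c_re {κ κ' : Type} [Fintype κ] [DecidableEq κ] [Fintype κ'] [DecidableEq κ']
    (s : ℝ) (e : κ ≃ κ') (g : GL κ F) : GLRepB_c s (glRe e g) = GLRepB_c s g := by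
  unfold GLRepB_c
  rw [GLRepB_det]

theorem GLRepB_c_blk {κ₁ κ₂ : Type} [Fintype κ₁] [DecidableEq κ₁] [Fintype κ₂]
    [DecidableEq κ₂] (s : ℝ) (g₁ : GL κ₁ F) (g₂ : GL κ₂ F) (u : Matrix κ₁ κ₂ F) :
    GLRepB_c s (blk F g₁ g₂ u) = GLRepB_c s g₁ * GLRepB_c s g₂ := by
  unfold GLRepB_c
  rw [GLRepB_detblk, absF_mul, Real.mul_rpow (absF_nonneg _ _) (absF_nonneg _ _),
    Complex.ofReal_mul]

theorem GLRepB_tw_apply (A : GLRep F) (s : ℝ) (g : GL A.κ F) (v : A.V) :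
    (A.tw s).π g v = GLRepB_c s g • A.π g v := rfl

theorem Isom.refl (A : GLRep F) : A.Isom A :=
  ⟨Equiv.refl _, LinearEquiv.refl ℂ _, fun g v => by rw [GLRepB_refl]; rfl⟩

theorem Isom.symm {A B : GLRep F} (h : A.Isom B) : B.Isom A := by
  obtain ⟨e, f, hf⟩ := h
  refine ⟨e.symm, f.symm, fun g v => ?_⟩
  apply f.injective
  rw [hf, LinearEquiv.apply_symm_apply, LinearEquiv.apply_symm_apply, GLRepB_symm']

theorem Isom.trans {A B C : GLRep F} (h : A.Isom B) (h' : B.Isom C) : A.Isom C := by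
  obtain ⟨e, f, hf⟩ := h
  obtain ⟨e', f', hf'⟩ := h'
  refine ⟨e.trans e', f.trans f', fun g v => ?_⟩
  rw [LinearEquiv.trans_apply, LinearEquiv.trans_apply, hf, hf', GLRepB_trans]

/-- PROOF: compose. -/
theorem Quot.isom {A A' B B' : GLRep F} (h : A.Quot B) (h1 : A'.Isom A) (h2 : B.Isom B') :
    A'.Quot B' := by
  obtain ⟨e, f, hs, hf⟩ := h
  obtain ⟨e1, f1, hf1⟩ := h1
  obtain ⟨e2, f2, hf2⟩ := h2
  refine ⟨(e1.trans e).trans e2, (f2 : B.V →ₗ[ℂ] B'.V) ∘ₗ f ∘ₗ (f1 : A'.V →ₗ[ℂ] A.V), ?_, ?_⟩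
  · intro y
    obtain ⟨x, hx⟩ := hs (f2.symm y)
    refine ⟨f1.symm x, ?_⟩
    change f2 (f (f1 (f1.symm x))) = y
    rw [LinearEquiv.apply_symm_apply, hx, LinearEquiv.apply_symm_apply]
  · intro g v
    change f2 (f (f1 (A'.π g v))) = B'.π _ (f2 (f (f1 v)))
    rw [hf1, hf, hf2, GLRepB_trans, GLRepB_trans]
    rfl

theorem Isom.tw {A B : GLRep F} (h : A.Isom B) (s : ℝ) : (A.tw s).Isom (B.tw s) := by
  obtain ⟨e, f, hf⟩ := h
  have key : ∀ (g : GL A.κ F) (v : A.V), f (GLRepB_c s g • A.π g v) =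
      GLRepB_c s (glRe e g) • B.π (glRe e g) (f v) := by
    intro g v
    rw [map_smul, hf, GLRepB_c_re]
  exact ⟨e, f, key⟩

theorem Quot.tw {A B : GLRep F} (h : A.Quot B) (s : ℝ) : (A.tw s).Quot (B.tw s) := by
  obtain ⟨e, f, hs, hf⟩ := h
  have key : ∀ (g : GL A.κ F) (v : A.V), f (GLRepB_c s g • A.π g v) =
      GLRepB_c s (glRe e g) • B.π (glRe e g) (f v) := by
    intro g v
    rw [map_smul, hf, GLRepB_c_re]
  exact ⟨e, f, hs, key⟩

theorem Irred.tw {A : GLRep F} (h : A.Irred) (s : ℝ) : (A.tw s).Irred := by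
  obtain ⟨h1, h2⟩ := h
  refine ⟨h1, fun U hU => h2 U fun g v hv => ?_⟩
  have h3 : GLRepB_c s g • A.π g v ∈ U := hU g v hv
  have h4 : (GLRepB_c s g)⁻¹ • (GLRepB_c s g • A.π g v) = A.π g v := by
    rw [smul_smul, inv_mul_cancel₀ (GLRepB_c_ne s g), one_smul]
  exact Eq.mp (congrArg (fun z : A.V => z ∈ U) h4) (U.smul_mem _ h3)

/-- |det| ^ s * |det| ^ s' = |det| ^ (s + s') (the determinant is not zero, so |det| > 0:
`Real.rpow_add`). -/
theorem tw_tw (A : GLRep F) (s s' : ℝ) : ((A.tw s).tw s').Isom (A.tw (s + s')) := by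
  have key : ∀ (g : GL A.κ F) (v : A.V), GLRepB_c s' g • (GLRepB_c s g • A.π g v) =
      GLRepB_c (s + s') (glRe (Equiv.refl A.κ) g) • A.π (glRe (Equiv.refl A.κ) g) v := by
    intro g v
    rw [GLRepB_refl, smul_smul]
    congr 1
    unfold GLRepB_c
    rw [← Complex.ofReal_mul, ← Real.rpow_add (GLRepB_dpos g), add_comm]
  exact ⟨Equiv.refl A.κ, LinearEquiv.refl ℂ A.V, key⟩

theorem tw_zero (A : GLRep F) : (A.tw 0).Isom A := by
  have key : ∀ (g : GL A.κ F) (v : A.V), GLRepB_c 0 g • A.π g v =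
      A.π (glRe (Equiv.refl A.κ) g) v := by
    intro g v
    rw [GLRepB_refl]
    unfold GLRepB_c
    rw [Real.rpow_zero, Complex.ofReal_one, one_smul]
  exact ⟨Equiv.refl A.κ, LinearEquiv.refl ℂ A.V, key⟩

theorem GLRepB_sqmod {κ₁ κ₂ κ₁' κ₂' : Type} [Fintype κ₁] [DecidableEq κ₁] [Fintype κ₂]
    [DecidableEq κ₂] [Fintype κ₁'] [DecidableEq κ₁'] [Fintype κ₂'] [DecidableEq κ₂']
    (e : κ₁ ≃ κ₁') (e' : κ₂ ≃ κ₂') (g₁ : GL κ₁ F) (g₂ : GL κ₂ F) :
    sqmod (glRe e g₁) (glRe e' g₂) = sqmod g₁ g₂ := by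
  unfold sqmod
  rw [GLRepB_det, GLRepB_det, Fintype.card_congr e, Fintype.card_congr e']

/-- the map of the induced representations -/
def GLRepB_map {A A' B B' : GLRep F} (e : A.κ ≃ A'.κ) (f : A.V ≃ₗ[ℂ] A'.V)
    (hf : ∀ (g : GL A.κ F) (v : A.V), f (A.π g v) = A'.π (glRe e g) (f v))
    (e' : B.κ ≃ B'.κ) (f' : B.V ≃ₗ[ℂ] B'.V)
    (hf' : ∀ (g : GL B.κ F) (v : B.V), f' (B.π g v) = B'.π (glRe e' g) (f' v)) :
    indSp A B →ₗ[ℂ] indSp A' B' where
  toFun h := ⟨fun x => TensorProduct.map (f : A.V →ₗ[ℂ] A'.V) (f' : B.V →ₗ[ℂ] B'.V)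
      (h.1 (glRe (Equiv.sumCongr e e').symm x)), by
    obtain ⟨h1, U, hU, h2⟩ := h.2
    refine ⟨fun g₁ g₂ u x => ?_, U.comap (glRe (Equiv.sumCongr e e').symm).toMonoidHom, ?_,
      fun x u hu => ?_⟩
    · have e1 : glRe (Equiv.sumCongr e e').symm (blk F g₁ g₂ u) =
          blk F (glRe e.symm g₁) (glRe e'.symm g₂) (u.submatrix e e') :=
        GLRepB_blk e.symm e'.symm g₁ g₂ u
      have e2 : glRe (Equiv.sumCongr e e').symm (blk F g₁ g₂ u * x) =
          blk F (glRe e.symm g₁) (glRe e'.symm g₂) (u.submatrix e e') *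
            glRe (Equiv.sumCongr e e').symm x := by
        rw [map_mul, e1]
      change TensorProduct.map (f : A.V →ₗ[ℂ] A'.V) (f' : B.V →ₗ[ℂ] B'.V)
        (h.1 (glRe (Equiv.sumCongr e e').symm (blk F g₁ g₂ u * x))) = _ •
          TensorProduct.map (A'.π g₁) (B'.π g₂)
            (TensorProduct.map (f : A.V →ₗ[ℂ] A'.V) (f' : B.V →ₗ[ℂ] B'.V)
              (h.1 (glRe (Equiv.sumCongr e e').symm x)))
      rw [e2, h1, map_smul, GLRepB_sqmod]
      congr 1
      have h3 : (f : A.V →ₗ[ℂ] A'.V) ∘ₗ A.π (glRe e.symm g₁) =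
          A'.π g₁ ∘ₗ (f : A.V →ₗ[ℂ] A'.V) := by
        refine LinearMap.ext fun v => ?_
        have := hf (glRe e.symm g₁) v
        rw [GLRepB_symm'] at this
        exact this
      have h3' : (f' : B.V →ₗ[ℂ] B'.V) ∘ₗ B.π (glRe e'.symm g₂) =
          B'.π g₂ ∘ₗ (f' : B.V →ₗ[ℂ] B'.V) := by
        refine LinearMap.ext fun v => ?_
        have := hf' (glRe e'.symm g₂) v
        rw [GLRepB_symm'] at this
        exact this
      rw [← LinearMap.comp_apply, ← TensorProduct.map_comp, h3, h3', TensorProduct.map_comp,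
        LinearMap.comp_apply]
    · exact hU.preimage (GLRepB_cont _)
    · have h3 : glRe (Equiv.sumCongr e e').symm u ∈ U := hu
      change TensorProduct.map (f : A.V →ₗ[ℂ] A'.V) (f' : B.V →ₗ[ℂ] B'.V)
        (h.1 (glRe (Equiv.sumCongr e e').symm (x * u))) =
          TensorProduct.map (f : A.V →ₗ[ℂ] A'.V) (f' : B.V →ₗ[ℂ] B'.V)
              (h.1 (glRe (Equiv.sumCongr e e').symm x))
      rw [map_mul, h2 _ _ h3]⟩
  map_add' a b := Subtype.ext (funext fun x => map_add _ _ _)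
  map_smul' c a := Subtype.ext (funext fun x =>
    (TensorProduct.map (f : A.V →ₗ[ℂ] A'.V) (f' : B.V →ₗ[ℂ] B'.V)).map_smul c _)

/-- PROOF: f ↦ (e ⊗ e') ∘ f ∘ (reindexing of the group by Equiv.sumCongr). -/
theorem Isom.mul {A A' B B' : GLRep F} (h : A.Isom A') (h' : B.Isom B') :
    (A.mul B).Isom (A'.mul B') := by
  obtain ⟨e, f, hf⟩ := h
  obtain ⟨e', f', hf'⟩ := h'
  have hs : ∀ (g : GL A'.κ F) (v : A'.V), f.symm (A'.π g v) = A.π (glRe e.symm g) (f.symm v) := by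
    intro g v
    apply f.injective
    rw [hf, LinearEquiv.apply_symm_apply, LinearEquiv.apply_symm_apply, GLRepB_symm']
  have hs' : ∀ (g : GL B'.κ F) (v : B'.V),
      f'.symm (B'.π g v) = B.π (glRe e'.symm g) (f'.symm v) := by
    intro g v
    apply f'.injective
    rw [hf', LinearEquiv.apply_symm_apply, LinearEquiv.apply_symm_apply, GLRepB_symm']
  have key : ∀ (g : GL (A.κ ⊕ B.κ) F) (v : indSp A B),
      GLRepB_map e f hf e' f' hf' (indRep A B g v) =
        indRep A' B' (glRe (Equiv.sumCongr e e') g) (GLRepB_map e f hf e' f' hf' v) := by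
    intro g v
    refine Subtype.ext (funext fun x => ?_)
    change TensorProduct.map (f : A.V →ₗ[ℂ] A'.V) (f' : B.V →ₗ[ℂ] B'.V)
      (v.1 (glRe (Equiv.sumCongr e e').symm x * g)) =
      TensorProduct.map (f : A.V →ₗ[ℂ] A'.V) (f' : B.V →ₗ[ℂ] B'.V)
        (v.1 (glRe (Equiv.sumCongr e e').symm (x * glRe (Equiv.sumCongr e e') g)))
    rw [map_mul, GLRepB_symm]
  have k1 : ∀ a : indSp A' B', GLRepB_map e f hf e' f' hf'
      (GLRepB_map e.symm f.symm hs e'.symm f'.symm hs' a) = a := by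
    intro a
    refine Subtype.ext (funext fun x => ?_)
    change TensorProduct.map (f : A.V →ₗ[ℂ] A'.V) (f' : B.V →ₗ[ℂ] B'.V)
      (TensorProduct.map (f.symm : A'.V →ₗ[ℂ] A.V) (f'.symm : B'.V →ₗ[ℂ] B.V)
        (a.1 (glRe (Equiv.sumCongr e.symm e'.symm).symm
          (glRe (Equiv.sumCongr e e').symm x)))) = a.1 x
    rw [← LinearMap.comp_apply, ← TensorProduct.map_comp, LinearEquiv.comp_symm,
      LinearEquiv.comp_symm, TensorProduct.map_id, LinearMap.id_apply]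
    exact congrArg a.1 (GLRepB_symm' (Equiv.sumCongr e e') x)
  have k2 : ∀ a : indSp A B, GLRepB_map e.symm f.symm hs e'.symm f'.symm hs'
      (GLRepB_map e f hf e' f' hf' a) = a := by
    intro a
    refine Subtype.ext (funext fun x => ?_)
    change TensorProduct.map (f.symm : A'.V →ₗ[ℂ] A.V) (f'.symm : B'.V →ₗ[ℂ] B.V)
      (TensorProduct.map (f : A.V →ₗ[ℂ] A'.V) (f' : B.V →ₗ[ℂ] B'.V)
        (a.1 (glRe (Equiv.sumCongr e e').symm
          (glRe (Equiv.sumCongr e.symm e'.symm).symm x)))) = a.1 x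
    rw [← LinearMap.comp_apply, ← TensorProduct.map_comp, LinearEquiv.symm_comp,
      LinearEquiv.symm_comp, TensorProduct.map_id, LinearMap.id_apply]
    exact congrArg a.1 (GLRepB_symm (Equiv.sumCongr e e') x)
  exact ⟨Equiv.sumCongr e e', LinearEquiv.ofLinearMap (GLRepB_map e f hf e' f' hf')
    (GLRepB_map e.symm f.symm hs e'.symm f'.symm hs') (LinearMap.ext k1) (LinearMap.ext k2), key⟩

/-! ### the open subgroup `|det| = 1` -/

theorem GLRepB_abs_one (x : F) : absF F x = 1 ↔ x ≠ 0 ∧ ordF F x = 0 := by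
  have h0 : (1 : ℝ) < (Nat.card (IsLocalRing.ResidueField (Valuation.integer
      (ValuativeRel.valuation F))) : ℝ) := by
    exact_mod_cast one_lt_qF (F := F)
  unfold absF
  by_cases hx : x = 0
  · rw [if_pos hx]
    constructor
    · intro h
      exact absurd h zero_ne_one
    · intro h
      exact absurd hx h.1
  · rw [if_neg hx]
    have h1 : ordF F x = - WithZero.log
      (IsNonarchimedeanLocalField.valueGroupWithZeroIsoInt F (ValuativeRel.valuation F x)) := rfl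
    rw [h1, neg_eq_zero]
    constructor
    · intro h
      refine ⟨hx, ?_⟩
      by_contra hne
      exact hne ((zpow_eq_one_iff_right₀ (by linarith) h0.ne').1 h)
    · intro h
      rw [h.2, zpow_zero]

theorem GLRepB_abs_open : IsOpen {x : F | absF F x = 1} := by
  have h1 : {x : F | absF F x = 1} = (lat F 0 : Set F) ∩ (lat F 1 : Set F)ᶜ := by
    ext x
    rw [Set.mem_ofPred_eq, GLRepB_abs_one, Set.mem_inter_iff, Set.mem_compl_iff, SetLike.mem_coe,
      SetLike.mem_coe, mem_lat, mem_lat]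
    constructor
    · rintro ⟨h1, h2⟩
      refine ⟨Or.inr h2.ge, ?_⟩
      rintro (h3 | h3)
      · exact h1 h3
      · omega
    · rintro ⟨h1, h2⟩
      rw [not_or] at h2
      exact ⟨h2.1, by
        have := h1.resolve_left h2.1
        have := h2.2
        omega⟩
  rw [h1]
  exact (lat_isOpen 0).inter (AddSubgroup.isClosed_of_isOpen (lat F 1) (lat_isOpen 1)).isOpen_compl

/-- the subgroup `|det| = 1` -/
def GLRepB_W (F : Type) [Field F] [ValuativeRel F] [TopologicalSpace F]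
    [IsNonarchimedeanLocalField F] (κ : Type) [Fintype κ] [DecidableEq κ] :
    Subgroup (GL κ F) where
  carrier := {g | absF F (g : Matrix κ κ F).det = 1}
  mul_mem' := by
    intro a b ha hb
    change absF F ((a * b : GL κ F) : Matrix κ κ F).det = 1
    have ha' : absF F (a : Matrix κ κ F).det = 1 := ha
    have hb' : absF F (b : Matrix κ κ F).det = 1 := hb
    rw [Units.val_mul, Matrix.det_mul, absF_mul, ha', hb', one_mul]
  one_mem' := by
    change absF F ((1 : GL κ F) : Matrix κ κ F).det = 1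
    rw [Units.val_one, Matrix.det_one, absF_one]
  inv_mem' := by
    intro a ha
    change absF F ((a⁻¹ : GL κ F) : Matrix κ κ F).det = 1
    have ha' : absF F (a : Matrix κ κ F).det = 1 := ha
    have h1 : ((a⁻¹ : GL κ F) : Matrix κ κ F).det * (a : Matrix κ κ F).det = 1 := by
      rw [← Matrix.det_mul, ← Units.val_mul, inv_mul_cancel, Units.val_one, Matrix.det_one]
    have h2 := congrArg (absF F) h1
    rwa [absF_mul, ha', mul_one, absF_one] at h2

theorem GLRepB_W_open (κ : Type) [Fintype κ] [DecidableEq κ] :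
    IsOpen (GLRepB_W F κ : Set (GL κ F)) := by
  have hc : Continuous fun g : GL κ F => (g : Matrix κ κ F).det :=
    (Units.continuous_val (M := Matrix κ κ F)).matrix_det
  exact GLRepB_abs_open.preimage hc

theorem GLRepB_W_c {κ : Type} [Fintype κ] [DecidableEq κ] (s : ℝ) {g : GL κ F}
    (hg : g ∈ GLRepB_W F κ) : GLRepB_c s g = 1 := by
  have h : absF F (g : Matrix κ κ F).det = 1 := hg
  unfold GLRepB_c
  rw [h, Real.one_rpow, Complex.ofReal_one]

theorem GLRepB_map_c {V₁ V₂ : Type} [AddCommGroup V₁] [Module ℂ V₁] [AddCommGroup V₂]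
    [Module ℂ V₂] (a b : ℂ) (f : V₁ →ₗ[ℂ] V₁) (g : V₂ →ₗ[ℂ] V₂) (x : V₁ ⊗[ℂ] V₂) :
    TensorProduct.map (a • f) (b • g) x = (a * b) • TensorProduct.map f g x := by
  rw [TensorProduct.map_smul_left, TensorProduct.map_smul_right, smul_smul]
  rfl

theorem GLRepB_fwd (A B : GLRep F) (s : ℝ) (h : indSp A B) :
    (∀ (g₁ : GL A.κ F) (g₂ : GL B.κ F) (u : Matrix A.κ B.κ F) (x : GL (A.κ ⊕ B.κ) F),
      GLRepB_c s (blk F g₁ g₂ u * x) • h.1 (blk F g₁ g₂ u * x) =
        (sqmod g₁ g₂ : ℂ) • TensorProduct.map (GLRepB_c s g₁ • A.π g₁) (GLRepB_c s g₂ • B.π g₂)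
          (GLRepB_c s x • h.1 x)) ∧
    ∃ U : Subgroup (GL (A.κ ⊕ B.κ) F), IsOpen (U : Set (GL (A.κ ⊕ B.κ) F)) ∧
      ∀ x, ∀ u ∈ U, GLRepB_c s (x * u) • h.1 (x * u) = GLRepB_c s x • h.1 x := by
  obtain ⟨h1, U, hU, h2⟩ := h.2
  refine ⟨fun g₁ g₂ u x => ?_, U ⊓ GLRepB_W F _, hU.inter (GLRepB_W_open _),
    fun x u hu => ?_⟩
  · rw [h1, GLRepB_map_c, map_smul, GLRepB_c_mul, GLRepB_c_blk, smul_smul, smul_smul,
      smul_smul]
    congr 1
    ring
  · rw [h2 x u hu.1, GLRepB_c_mul, GLRepB_W_c s hu.2, mul_one]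

theorem GLRepB_bwd (A B : GLRep F) (s : ℝ) (h : GL (A.κ ⊕ B.κ) F → A.V ⊗[ℂ] B.V)
    (h1 : ∀ (g₁ : GL A.κ F) (g₂ : GL B.κ F) (u : Matrix A.κ B.κ F) (x : GL (A.κ ⊕ B.κ) F),
      h (blk F g₁ g₂ u * x) =
        (sqmod g₁ g₂ : ℂ) • TensorProduct.map (GLRepB_c s g₁ • A.π g₁) (GLRepB_c s g₂ • B.π g₂)
          (h x))
    (h2 : ∃ U : Subgroup (GL (A.κ ⊕ B.κ) F), IsOpen (U : Set (GL (A.κ ⊕ B.κ) F)) ∧
      ∀ x, ∀ u ∈ U, h (x * u) = h x) :
    (∀ (g₁ : GL A.κ F) (g₂ : GL B.κ F) (u : Matrix A.κ B.κ F) (x : GL (A.κ ⊕ B.κ) F),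
      (GLRepB_c s (blk F g₁ g₂ u * x))⁻¹ • h (blk F g₁ g₂ u * x) =
        (sqmod g₁ g₂ : ℂ) • TensorProduct.map (A.π g₁) (B.π g₂) ((GLRepB_c s x)⁻¹ • h x)) ∧
    ∃ U : Subgroup (GL (A.κ ⊕ B.κ) F), IsOpen (U : Set (GL (A.κ ⊕ B.κ) F)) ∧
      ∀ x, ∀ u ∈ U, (GLRepB_c s (x * u))⁻¹ • h (x * u) = (GLRepB_c s x)⁻¹ • h x := by
  obtain ⟨U, hU, h2⟩ := h2
  refine ⟨fun g₁ g₂ u x => ?_, U ⊓ GLRepB_W F _, hU.inter (GLRepB_W_open _),
    fun x u hu => ?_⟩
  · rw [h1, GLRepB_map_c, map_smul, GLRepB_c_mul, GLRepB_c_blk, smul_smul, smul_smul,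
      smul_smul]
    congr 1
    have e1 := GLRepB_c_ne s g₁
    have e2 := GLRepB_c_ne s g₂
    have e3 := GLRepB_c_ne s x
    field_simp
  · rw [h2 x u hu.1, GLRepB_c_mul, GLRepB_W_c s hu.2, mul_one]

/-- multiplication by `|det| ^ s` -/
def GLRepB_twm (A B : GLRep F) (s : ℝ) :
    indSp A B →ₗ[ℂ] indSp (A.tw s) (B.tw s) where
  toFun h := ⟨fun x : GL (A.κ ⊕ B.κ) F => GLRepB_c s x • h.1 x, GLRepB_fwd A B s h⟩
  map_add' a b := Subtype.ext (funext fun x => smul_add (GLRepB_c s x) (a.1 x) (b.1 x))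
  map_smul' c a := Subtype.ext (funext fun x => smul_comm (GLRepB_c s x) c (a.1 x))

/-- division by `|det| ^ s` -/
def GLRepB_twi (A B : GLRep F) (s : ℝ) :
    indSp (A.tw s) (B.tw s) →ₗ[ℂ] indSp A B where
  toFun h := ⟨fun x : GL (A.κ ⊕ B.κ) F => (GLRepB_c s x)⁻¹ • (h.1 x : A.V ⊗[ℂ] B.V),
    GLRepB_bwd A B s h.1 h.2.1 h.2.2⟩
  map_add' a b := Subtype.ext (funext fun x =>
    smul_add (GLRepB_c s x)⁻¹ (a.1 x : A.V ⊗[ℂ] B.V) (b.1 x : A.V ⊗[ℂ] B.V))
  map_smul' c a := Subtype.ext (funext fun x =>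
    smul_comm (GLRepB_c s x)⁻¹ c (a.1 x : A.V ⊗[ℂ] B.V))

/-- PROOF: f ↦ (g ↦ |det g| ^ s • f g): det (blk g₁ g₂ u) = det g₁ * det g₂; g ↦ |det g| ^ s is invariant
under right translation by an open subgroup (e.g. the preimage of 1 under g ↦ |det g| ^ s is open:
|·| is locally constant on Fˣ; use that the twisted function is a vector of a smooth representation, or
directly a small open subgroup with |det| = 1; `Pool.Agent.Lib.MP_ca1492_al.P.Cong`/`Loc` have congruence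
subgroups). -/
theorem mul_tw (A B : GLRep F) (s : ℝ) : ((A.mul B).tw s).Isom ((A.tw s).mul (B.tw s)) := by
  have key : ∀ (g : GL (A.κ ⊕ B.κ) F) (v : indSp A B),
      GLRepB_twm A B s (GLRepB_c s g • indRep A B g v) =
        indRep (A.tw s) (B.tw s) (glRe (Equiv.refl (A.κ ⊕ B.κ)) g) (GLRepB_twm A B s v) := by
    intro g v
    rw [GLRepB_refl]
    have h1 : ∀ x : GL (A.κ ⊕ B.κ) F, GLRepB_c s x • (GLRepB_c s g • v.1 (x * g)) =
        GLRepB_c s (x * g) • v.1 (x * g) := by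
      intro x
      rw [smul_smul, GLRepB_c_mul]
    exact Subtype.ext (funext h1)
  have k1 : ∀ a : indSp (A.tw s) (B.tw s), GLRepB_twm A B s (GLRepB_twi A B s a) = a := by
    intro a
    have h1 : ∀ x : GL (A.κ ⊕ B.κ) F,
        GLRepB_c s x • ((GLRepB_c s x)⁻¹ • (a.1 x : A.V ⊗[ℂ] B.V)) = a.1 x :=
      fun x => smul_inv_smul₀ (GLRepB_c_ne s x) _
    exact Subtype.ext (funext h1)
  have k2 : ∀ a : indSp A B, GLRepB_twi A B s (GLRepB_twm A B s a) = a := by
    intro a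
    have h1 : ∀ x : GL (A.κ ⊕ B.κ) F, (GLRepB_c s x)⁻¹ • (GLRepB_c s x • a.1 x) = a.1 x :=
      fun x => inv_smul_smul₀ (GLRepB_c_ne s x) _
    exact Subtype.ext (funext h1)
  exact ⟨Equiv.refl (A.κ ⊕ B.κ), LinearEquiv.ofLinearMap (GLRepB_twm A B s) (GLRepB_twi A B s)
    (LinearMap.ext k1) (LinearMap.ext k2), key⟩

/-- PROOF: induction on the list with the three cases of `prodL`. -/
theorem prodL_congr {L L' : List (GLRep F)} (h : List.Forall₂ (fun A B => A.Isom B) L L') :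
    (prodL L).Isom (prodL L') := by
  induction h with
  | nil => exact Isom.refl _
  | cons hab hrest ih =>
    cases hrest with
    | nil => exact hab
    | cons h1 h2 => exact Isom.mul hab ih

/-- For L = []: the twist of the representation of the trivial group is isomorphic to it (det = 1). -/
theorem prodL_tw (L : List (GLRep F)) (s : ℝ) :
    ((prodL L).tw s).Isom (prodL (L.map (fun A => A.tw s))) := by
  induction L with
  | nil =>
    have key : ∀ (g : GL Empty F) (v : ℂ), GLRepB_c s g • (Representation.trivial ℂ (GL Empty F) ℂ) g v =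
        (Representation.trivial ℂ (GL Empty F) ℂ) (glRe (Equiv.refl Empty) g) v := by
      intro g v
      have h1 : GLRepB_c s g = 1 := by
        unfold GLRepB_c
        rw [Matrix.det_isEmpty, absF_one, Real.one_rpow, Complex.ofReal_one]
      rw [h1, one_smul]
      rfl
    exact ⟨Equiv.refl Empty, LinearEquiv.refl ℂ ℂ, key⟩
  | cons A L ih =>
    cases L with
    | nil => exact Isom.refl _
    | cons B L => exact (mul_tw A (prodL (B :: L)) s).trans (Isom.mul (Isom.refl _) ih)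

end GLRep

end

end Pool.Agent.Lib.MP_ca1492_al.Q
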