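import Mathlib
import Pool.Agent.Lib.MP_ca1492_al.P.TenDefs
import Pool.Agent.Lib.MP_ca1492_al.P.TrCusp

/-!
# MP_ca1492_al, p-adic side, module TenIrr: external tensor products of cuspidal representations

* `ten_smooth`: `PiTensorProduct.induction_on` (or `span_tprod_eq_top`); the stabilizer of `tprod v`
  contains the intersection over the finitely many `a` of the preimages of the stabilizers of `v a`
  under the continuous maps `blkM a`.
* `ten_slot`: `U ≤ ⨂ V_a` stable under `tenRep R`. Fix `a`. Under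
  `PiTensorProduct.equivPiTensorComplSingletonTensor a` (`⨂ V ≃ V_a ⊗ (⨂ of the others)`, direction and
  form as in Mathlib) the elements `inM a h` act by `(R a).π h` on the first factor and trivially on
  the other, so the image of `U` is stable for `tens (R a).π _` and by `tens_sub` equal to `V_a ⊗ O'`;
  hence `U` is stable under `T ⊗ id` for every linear `T : V_a → V_a`, that is under
  `PiTensorProduct.map (Function.update (fun _ => id) a T)`.
* `ten_irr`: let `U ≠ ⊥` be stable. By `ten_slot` `U` is stable under `PiTensorProduct.map T` for every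
  family `T a : V_a → V_a` (composition of the maps with one nontrivial slot: induction over a
  `Finset` of slots, `PiTensorProduct.map_comp`). Choose bases `b a` of `V_a`
  (`Module.Basis.ofVectorSpace`) and a nonzero `t ∈ U`; a coordinate `t_p ≠ 0` with respect to
  `Basis.piTensorProduct b`. For `x a ∈ V_a` arbitrary let `T a v = (coordinate p a of v) • x a`. Then
  `map T t = t_p • tprod x` (check on the basis), so `tprod x ∈ U`, and `U = ⊤`
  (`PiTensorProduct.span_tprod_eq_top`). Nonzero vector: `tprod` of nonzero vectors is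
  nonzero (complete each `v a` to a basis, or apply the linear form `⊗ l a` given by
  `PiTensorProduct.lift (MultilinearMap.mkPiAlgebra ...)`/`dualDistrib` with `l a (v a) = 1`).
* `ten_cusp`: let `o (a, x) ≠ o (a, y)`. It is enough to show that every `tprod v` is in `kerJ`. Put
  `o₁ = fun x => o ⟨a, x⟩` (not constant). By `cusp_levC` for `R a` the space `V_a` is spanned by the
  `(R a).π n w - w` with `n ∈ uni F _ o₁`. The map `w ↦ tprod (update v a w)` is linear, and
  `tprod (update v a ((R a).π n w - w)) = tenRep R (inM a n) (tprod (update v a w)) -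
  tprod (update v a w)` with `inM a n ∈ uni F (sc R) o`.
* `ten_adm`, `ten_scalar`: `cusp_adm`, `cusp_scalar` style: `Adm` by `cusp_adm`, `schur`.
* `tprod_ne_zero`, `ten_sep`: for `t ≠ 0` in `⨂ V_a` and a slot `a₀` there are linear forms `l b` (`b ≠ a₀`)
  such that the contraction `⨂ V → V_{a₀}` does not kill `t` (choose bases). The contraction is
  `ctr l a₀ : tprod v ↦ (∏_{b ≠ a₀} l b (v b)) • v a₀`.
-/

set_option autoImplicit false

namespace Pool.Agent.Lib.MP_ca1492_al.P

open Topology Matrix ValuativeRel TensorProduct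
open Pool.Agent.Lib.MP_ca1492_al.Q (GLRep)

noncomputable section

variable {F : Type} [Field F] [ValuativeRel F] [TopologicalSpace F]
  [IsNonarchimedeanLocalField F]
variable {ι : Type} [Fintype ι] [DecidableEq ι] (R : ι → GLRep F)

/-- a linear form which does not vanish at a nonzero vector -/
theorem TenIrr_form {V : Type} [AddCommGroup V] [Module ℂ V] (v : V) (hv : v ≠ 0) :
    ∃ l : V →ₗ[ℂ] ℂ, l v ≠ 0 := by
  set b := Module.Basis.ofVectorSpace ℂ V with hb
  have h : b.repr v ≠ 0 := by
    intro h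
    exact hv (b.repr.map_eq_zero_iff.1 h)
  obtain ⟨p, hp⟩ := Finsupp.ne_iff.1 h
  exact ⟨b.coord p, hp⟩

theorem tprod_ne_zero (v : ∀ a, (R a).V) (hv : ∀ a, v a ≠ 0) :
    PiTensorProduct.tprod ℂ v ≠ 0 := by
  choose l hl using fun a => TenIrr_form (v a) (hv a)
  intro h
  have h1 : PiTensorProduct.lift ((MultilinearMap.mkPiAlgebra ℂ ι ℂ).compLinearMap l)
      (PiTensorProduct.tprod ℂ v) = ∏ a, l a (v a) := by
    rw [PiTensorProduct.lift.tprod]
    simp
  rw [h, map_zero] at h1
  exact Finset.prod_ne_zero_iff.2 (fun a _ => hl a) h1.symm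

omit [Fintype ι] [DecidableEq ι] in
theorem TenIrr_prod (d : DecidableEq ι) (s : Finset ι) (l : ∀ a, (R a).V →ₗ[ℂ] ℂ)
    (v : ∀ a, (R a).V) (i : ι) :
    (i ∉ s → ∀ z, ∏ b ∈ s, l b (Function.update v i z b) = ∏ b ∈ s, l b (v b)) ∧
    (i ∈ s → ∃ c : ℂ, ∀ z, ∏ b ∈ s, l b (Function.update v i z b) = l i z * c) := by
  constructor
  · intro hi z
    refine Finset.prod_congr rfl fun b hb => ?_
    rw [Function.update_of_ne]
    rintro rfl
    exact hi hb
  · intro hi
    refine ⟨∏ b ∈ s.erase i, l b (v b), fun z => ?_⟩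
    rw [← Finset.mul_prod_erase _ _ hi, Function.update_self]
    congr 1
    refine Finset.prod_congr rfl fun b hb => ?_
    rw [Function.update_of_ne (Finset.ne_of_mem_erase hb)]

/-- the slots different from `a₀` -/
def TenIrr_s (a₀ : ι) : Finset ι := Finset.univ.erase a₀

theorem TenIrr_mem_s (a₀ i : ι) : i ∈ TenIrr_s a₀ ↔ i ≠ a₀ := by
  unfold TenIrr_s
  rw [Finset.mem_erase]
  exact ⟨fun h => h.1, fun h => ⟨h, Finset.mem_univ i⟩⟩

/-- the contraction as a multilinear map -/
def TenIrr_ctr (a₀ : ι) (s : Finset ι) (hs : ∀ i, i ∈ s ↔ i ≠ a₀) (l : ∀ a, (R a).V →ₗ[ℂ] ℂ) :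
    MultilinearMap ℂ (fun a => (R a).V) (R a₀).V where
  toFun v := (∏ b ∈ s, l b (v b)) • v a₀
  map_update_add' := by
    intro d v i x y
    by_cases h : i = a₀
    · subst h
      have h0 : i ∉ s := fun h => (hs i).1 h rfl
      have h1 : ∀ z : (R i).V, (∏ b ∈ s, l b (@Function.update ι (fun a => (R a).V) d v i z b)) •
          @Function.update ι (fun a => (R a).V) d v i z i = (∏ b ∈ s, l b (v b)) • z := by
        intro z
        rw [Function.update_self]
        exact congrArg (fun c : ℂ => c • z) ((TenIrr_prod R d s l v i).1 h0 z)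
      exact (h1 (x + y)).trans ((smul_add _ x y).trans
        (congrArg₂ (fun p q => p + q) (h1 x).symm (h1 y).symm))
    · obtain ⟨c, hc⟩ := (TenIrr_prod R d s l v i).2 ((hs i).2 h)
      have h1 : ∀ z : (R i).V, (∏ b ∈ s, l b (@Function.update ι (fun a => (R a).V) d v i z b)) •
          @Function.update ι (fun a => (R a).V) d v i z a₀ = (l i z * c) • v a₀ := by
        intro z
        rw [Function.update_of_ne (Ne.symm h)]
        exact congrArg (fun c : ℂ => c • v a₀) (hc z)
      refine (h1 (x + y)).trans (Eq.trans ?_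
        (congrArg₂ (fun p q => p + q) (h1 x).symm (h1 y).symm))
      show (l i (x + y) * c) • v a₀ = (l i x * c) • v a₀ + (l i y * c) • v a₀
      rw [map_add, add_mul, add_smul]
  map_update_smul' := by
    intro d v i c x
    by_cases h : i = a₀
    · subst h
      have h0 : i ∉ s := fun h => (hs i).1 h rfl
      have h1 : ∀ z : (R i).V, (∏ b ∈ s, l b (@Function.update ι (fun a => (R a).V) d v i z b)) •
          @Function.update ι (fun a => (R a).V) d v i z i = (∏ b ∈ s, l b (v b)) • z := by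
        intro z
        rw [Function.update_self]
        exact congrArg (fun c : ℂ => c • z) ((TenIrr_prod R d s l v i).1 h0 z)
      exact (h1 (c • x)).trans ((smul_comm _ c x).trans (congrArg (fun p => c • p) (h1 x).symm))
    · obtain ⟨c', hc⟩ := (TenIrr_prod R d s l v i).2 ((hs i).2 h)
      have h1 : ∀ z : (R i).V, (∏ b ∈ s, l b (@Function.update ι (fun a => (R a).V) d v i z b)) •
          @Function.update ι (fun a => (R a).V) d v i z a₀ = (l i z * c') • v a₀ := by
        intro z
        rw [Function.update_of_ne (Ne.symm h)]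
        exact congrArg (fun c : ℂ => c • v a₀) (hc z)
      refine (h1 (c • x)).trans (Eq.trans ?_ (congrArg (fun p => c • p) (h1 x).symm))
      show (l i (c • x) * c') • v a₀ = c • (l i x * c') • v a₀
      rw [map_smul, smul_eq_mul, mul_assoc, mul_smul]

/-- contraction with linear forms in all slots except `a₀` -/
theorem exists_ctr (a₀ : ι) (l : ∀ a, (R a).V →ₗ[ℂ] ℂ) :
    ∃ C : (⨂[ℂ] a, (R a).V) →ₗ[ℂ] (R a₀).V, ∀ v : ∀ a, (R a).V,
      C (PiTensorProduct.tprod ℂ v) = (∏ b ∈ Finset.univ.erase a₀, l b (v b)) • v a₀ :=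
  ⟨PiTensorProduct.lift (TenIrr_ctr R a₀ (TenIrr_s a₀) (fun i => TenIrr_mem_s a₀ i) l), fun v => by
    rw [PiTensorProduct.lift.tprod]
    rfl⟩

/-- the bases -/
def TenIrr_b (a : ι) : Module.Basis (Module.Basis.ofVectorSpaceIndex ℂ (R a).V) ℂ (R a).V :=
  Module.Basis.ofVectorSpace ℂ (R a).V

/-- a nonzero coordinate -/
theorem TenIrr_coord (t : ⨂[ℂ] a, (R a).V) (ht : t ≠ 0) :
    ∃ p, (Basis.piTensorProduct (TenIrr_b R)).repr t p ≠ 0 := by
  have h : (Basis.piTensorProduct (TenIrr_b R)).repr t ≠ 0 := by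
    intro h
    exact ht ((Basis.piTensorProduct (TenIrr_b R)).repr.map_eq_zero_iff.1 h)
  obtain ⟨p, hp⟩ := Finsupp.ne_iff.1 h
  exact ⟨p, hp⟩

theorem ten_sep (a₀ : ι) (t : ⨂[ℂ] a, (R a).V) (ht : t ≠ 0) :
    ∃ (l : ∀ a, (R a).V →ₗ[ℂ] ℂ) (C : (⨂[ℂ] a, (R a).V) →ₗ[ℂ] (R a₀).V),
      (∀ v : ∀ a, (R a).V,
        C (PiTensorProduct.tprod ℂ v) = (∏ b ∈ Finset.univ.erase a₀, l b (v b)) • v a₀) ∧
      C t ≠ 0 := by
  obtain ⟨p, hp⟩ := TenIrr_coord R t ht
  obtain ⟨C, hC⟩ := exists_ctr R a₀ fun a => (TenIrr_b R a).coord (p a)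
  refine ⟨_, C, hC, ?_⟩
  intro h0
  have h1 : ((TenIrr_b R a₀).coord (p a₀)).comp C =
      (Basis.piTensorProduct (TenIrr_b R)).coord p := by
    apply PiTensorProduct.ext
    ext v
    rw [LinearMap.compMultilinearMap_apply, LinearMap.compMultilinearMap_apply,
      LinearMap.comp_apply, hC, map_smul, smul_eq_mul, Module.Basis.coord_apply,
      Module.Basis.coord_apply, Basis.piTensorProduct_repr_tprod_apply,
      ← Finset.prod_erase_mul _ _ (Finset.mem_univ a₀)]
    rfl
  have h2 := LinearMap.congr_fun h1 t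
  rw [LinearMap.comp_apply, h0, map_zero] at h2
  exact hp h2.symm

theorem ten_smooth (hR : ∀ a, IsSm (R a).π) : IsSm (tenRep R) := by
  rw [isSm_iff]
  intro t
  induction t using PiTensorProduct.induction_on with
  | smul_tprod r v =>
    choose U hU hv using fun a => (isSm_iff (R a).π).1 (hR a) (v a)
    refine ⟨⨅ a, (U a).comap (blkM F (fun a => (R a).κ) a), ?_, ?_⟩
    · rw [Subgroup.coe_iInf]
      exact isOpen_iInter_of_finite fun a => (hU a).preimage (blkM_cont (fun a => (R a).κ) a)
    · intro k hk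
      rw [map_smul, tenRep_tprod]
      congr 2
      funext a
      exact hv a _ ((Subgroup.mem_iInf.1 hk) a)
  | add x y hx hy =>
    obtain ⟨U, hU, hx⟩ := hx
    obtain ⟨U', hU', hy⟩ := hy
    exact ⟨U ⊓ U', hU.inter hU', fun k hk => by rw [map_add, hx k hk.1, hy k hk.2]⟩

/-- a linear map in one slot -/
def TenIrr_slot (a : ι) (T : (R a).V →ₗ[ℂ] (R a).V) :
    (⨂[ℂ] a, (R a).V) →ₗ[ℂ] ⨂[ℂ] a, (R a).V :=
  PiTensorProduct.map (Function.update
      (fun b => (LinearMap.id : (R b).V →ₗ[ℂ] (R b).V)) a T)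

theorem TenIrr_slot_tprod (a : ι) (T : (R a).V →ₗ[ℂ] (R a).V) (v : ∀ a, (R a).V) :
    TenIrr_slot R a T (PiTensorProduct.tprod ℂ v) =
      PiTensorProduct.tprod ℂ (Function.update v a (T (v a))) := by
  unfold TenIrr_slot
  rw [PiTensorProduct.map_tprod]
  congr 1
  funext b
  by_cases h : b = a
  · subst h
    rw [Function.update_self, Function.update_self]
  · rw [Function.update_of_ne h, Function.update_of_ne h]
    rfl

theorem TenIrr_slot_mul (a : ι) (S T : (R a).V →ₗ[ℂ] (R a).V) (t : ⨂[ℂ] a, (R a).V) :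
    TenIrr_slot R a (S * T) t = TenIrr_slot R a S (TenIrr_slot R a T t) := by
  have h : TenIrr_slot R a (S * T) = (TenIrr_slot R a S).comp (TenIrr_slot R a T) := by
    apply PiTensorProduct.ext
    ext v
    rw [LinearMap.compMultilinearMap_apply, LinearMap.compMultilinearMap_apply,
      LinearMap.comp_apply, TenIrr_slot_tprod, TenIrr_slot_tprod, TenIrr_slot_tprod,
      Function.update_idem, Function.update_self]
    rfl
  exact LinearMap.congr_fun h t

theorem TenIrr_slot_add (a : ι) (S T : (R a).V →ₗ[ℂ] (R a).V) (t : ⨂[ℂ] a, (R a).V) :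
    TenIrr_slot R a (S + T) t = TenIrr_slot R a S t + TenIrr_slot R a T t := by
  unfold TenIrr_slot
  rw [PiTensorProduct.map_update_add]
  rfl

theorem TenIrr_slot_smul (a : ι) (c : ℂ) (T : (R a).V →ₗ[ℂ] (R a).V) (t : ⨂[ℂ] a, (R a).V) :
    TenIrr_slot R a (c • T) t = c • TenIrr_slot R a T t := by
  unfold TenIrr_slot
  rw [PiTensorProduct.map_update_smul]
  rfl

theorem TenIrr_slot_one (a : ι) (t : ⨂[ℂ] a, (R a).V) :
    TenIrr_slot R a 1 t = t := by
  unfold TenIrr_slot
  have h : Function.update (fun b => (LinearMap.id : (R b).V →ₗ[ℂ] (R b).V)) a 1 =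
      fun b => LinearMap.id := by
    funext b
    by_cases h : b = a
    · subst h
      rw [Function.update_self]
      rfl
    · rw [Function.update_of_ne h]
  rw [h, PiTensorProduct.map_id]
  rfl

theorem TenIrr_inM (a : ι) (h : GL (R a).κ F) (t : ⨂[ℂ] a, (R a).V) :
    tenRep R (inM F (fun a => (R a).κ) a h) t = TenIrr_slot R a ((R a).π h) t := by
  have h1 : tenRep R (inM F (fun a => (R a).κ) a h) = TenIrr_slot R a ((R a).π h) := by
    apply PiTensorProduct.ext
    ext v
    rw [LinearMap.compMultilinearMap_apply, LinearMap.compMultilinearMap_apply,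
      TenIrr_slot_tprod, tenRep_tprod]
    congr 1
    funext b
    by_cases hb : b = a
    · subst hb
      rw [Function.update_self, blkM_inM]
    · rw [Function.update_of_ne hb, blkM_inM_ne (fun a => (R a).κ) a b hb, map_one]
      rfl
  rw [h1]

theorem TenIrr_adjoin (a : ι) (U : Submodule ℂ (⨂[ℂ] a, (R a).V)) (hU : Stab (tenRep R) U)
    (T : Module.End ℂ (R a).V)
    (hT : T ∈ Algebra.adjoin ℂ (Set.range (fun g : GL (R a).κ F =>
      ((R a).π g : Module.End ℂ (R a).V)))) :
    ∀ t ∈ U, TenIrr_slot R a T t ∈ U := by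
  induction hT using Algebra.adjoin_induction with
  | mem x hx =>
    obtain ⟨g, rfl⟩ := hx
    intro t ht
    rw [← TenIrr_inM]
    exact hU _ t ht
  | algebraMap c =>
    intro t ht
    rw [Algebra.algebraMap_eq_smul_one, TenIrr_slot_smul, TenIrr_slot_one]
    exact U.smul_mem c ht
  | add x y _ _ hx hy =>
    intro t ht
    rw [TenIrr_slot_add]
    exact U.add_mem (hx t ht) (hy t ht)
  | mul x y _ _ hx hy =>
    intro t ht
    rw [TenIrr_slot_mul]
    exact hx _ (hy t ht)

theorem TenIrr_finite (a : ι) (t : ⨂[ℂ] a, (R a).V) :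
    ∃ s : Finset (R a).V, ∀ T T' : (R a).V →ₗ[ℂ] (R a).V, (∀ v ∈ s, T v = T' v) →
      TenIrr_slot R a T t = TenIrr_slot R a T' t := by
  classical
  induction t using PiTensorProduct.induction_on with
  | smul_tprod r v =>
    refine ⟨{v a}, fun T T' h => ?_⟩
    rw [map_smul, map_smul, TenIrr_slot_tprod, TenIrr_slot_tprod,
      h (v a) (Finset.mem_singleton_self _)]
  | add x y hx hy =>
    obtain ⟨s, hs⟩ := hx
    obtain ⟨s', hs'⟩ := hy
    refine ⟨s ∪ s', fun T T' h => ?_⟩
    rw [map_add, map_add, hs T T' fun v hv => h v (Finset.mem_union_left _ hv),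
      hs' T T' fun v hv => h v (Finset.mem_union_right _ hv)]

theorem ten_slot (a : ι) (hi : Irr (R a).π)
    (hs : ∀ S : (R a).V →ₗ[ℂ] (R a).V, Equi (R a).π (R a).π S → ∃ z : ℂ, ∀ x, S x = z • x)
    (U : Submodule ℂ (⨂[ℂ] a, (R a).V)) (hU : Stab (tenRep R) U)
    (T : (R a).V →ₗ[ℂ] (R a).V) (t : ⨂[ℂ] a, (R a).V) (ht : t ∈ U) :
    PiTensorProduct.map (Function.update
      (fun b => (LinearMap.id : (R b).V →ₗ[ℂ] (R b).V)) a T) t ∈ U := by
  obtain ⟨s, hs'⟩ := TenIrr_finite R a t
  obtain ⟨T', hT', h⟩ := schur_density (R a).π hi hs T s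
  have h1 := TenIrr_adjoin R a U hU T' hT' t ht
  rw [← hs' T T' h] at h1
  exact h1

theorem TenIrr_multi (hR : ∀ a, (R a).Cusp) (U : Submodule ℂ (⨂[ℂ] a, (R a).V))
    (hU : Stab (tenRep R) U) (T : ∀ a, (R a).V →ₗ[ℂ] (R a).V) (t : ⨂[ℂ] a, (R a).V)
    (ht : t ∈ U) (s : Finset ι) :
    PiTensorProduct.map (fun b => if b ∈ s then T b else LinearMap.id) t ∈ U := by
  induction s using Finset.induction_on with
  | empty =>
    simp only [Finset.notMem_empty, if_false]
    rw [PiTensorProduct.map_id]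
    exact ht
  | insert a s ha ih =>
    have h1 := ten_slot R a (hR a).2.1 (fun S hS => glcusp_scalar (R a) (hR a) S hS) U hU (T a) _ ih
    rw [← LinearMap.comp_apply, ← PiTensorProduct.map_comp] at h1
    have h2 : (fun b => Function.update (fun b => (LinearMap.id : (R b).V →ₗ[ℂ] (R b).V)) a (T a) b ∘ₗ
        (if b ∈ s then T b else LinearMap.id)) =
        fun b => if b ∈ insert a s then T b else LinearMap.id := by
      funext b
      by_cases hb : b = a
      · subst hb
        rw [Function.update_self, if_neg ha, if_pos (Finset.mem_insert_self _ _),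
          LinearMap.comp_id]
      · rw [Function.update_of_ne hb, LinearMap.id_comp]
        by_cases hbs : b ∈ s
        · rw [if_pos hbs, if_pos (Finset.mem_insert_of_mem hbs)]
        · rw [if_neg hbs, if_neg]
          intro h
          rcases Finset.mem_insert.1 h with h | h
          · exact hb h
          · exact hbs h
    rw [h2] at h1
    exact h1

theorem ten_irr (hR : ∀ a, (R a).Cusp) : Irr (tenRep R) := by
  constructor
  · choose v hv using fun a => (hR a).2.1.1
    exact ⟨_, tprod_ne_zero R v hv⟩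
  · intro U hU
    by_cases hb : U = ⊥
    · exact Or.inl hb
    right
    obtain ⟨t, ht, ht0⟩ := Submodule.exists_mem_ne_zero_of_ne_bot hb
    obtain ⟨p, hp⟩ := TenIrr_coord R t ht0
    rw [eq_top_iff, ← PiTensorProduct.span_tprod_eq_top, Submodule.span_le]
    rintro _ ⟨x, rfl⟩
    let T : ∀ a, (R a).V →ₗ[ℂ] (R a).V := fun a =>
      ((TenIrr_b R a).coord (p a)).smulRight (x a)
    have h1 := TenIrr_multi R hR U hU T t ht Finset.univ
    simp only [Finset.mem_univ, if_true] at h1
    have h2 : PiTensorProduct.map T = ((Basis.piTensorProduct (TenIrr_b R)).coord p).smulRight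
        (PiTensorProduct.tprod ℂ x) := by
      apply PiTensorProduct.ext
      ext v
      rw [LinearMap.compMultilinearMap_apply, LinearMap.compMultilinearMap_apply,
        PiTensorProduct.map_tprod, LinearMap.smulRight_apply, Module.Basis.coord_apply,
        Basis.piTensorProduct_repr_tprod_apply]
      exact MultilinearMap.map_smul_univ _ _ _
    rw [h2, LinearMap.smulRight_apply, Module.Basis.coord_apply] at h1
    exact (U.smul_mem_iff hp).1 h1

theorem TenIrr_uni (a : ι) (o : sk R → ℤ) (n : GL (R a).κ F)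
    (hn : n ∈ uni F (fun _ : (R a).κ => ()) (fun x => o ⟨a, x⟩)) :
    (inM F (fun a => (R a).κ) a n).1 ∈ uni F (sc R) o := by
  have hl : (inM F (fun a => (R a).κ) a n).1 ∈ Pool.Agent.Lib.MP_ca1492_al.P.lev F (sc R) :=
    (inM F (fun a => (R a).κ) a n).2
  have he : ∀ (b : ι) (x y : (R b).κ),
      ((inM F (fun a => (R a).κ) a n).1 : Matrix (sk R) (sk R) F) ⟨b, x⟩ ⟨b, y⟩ =
        (blkM F (fun a => (R a).κ) b (inM F (fun a => (R a).κ) a n) :
          Matrix (R b).κ (R b).κ F) x y := fun b x y => rfl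
  refine ⟨⟨hl, ?_⟩, ?_⟩
  · rintro ⟨b, x⟩ ⟨c, y⟩ h
    by_cases hbc : b = c
    · subst hbc
      rw [he]
      by_cases hb : b = a
      · subst hb
        rw [blkM_inM]
        exact hn.1.2 x y h
      · rw [blkM_inM_ne (fun a => (R a).κ) a b hb, Units.val_one, Matrix.one_apply_ne]
        rintro rfl
        exact lt_irrefl _ h
    · exact hl _ _ hbc
  · rintro ⟨b, x⟩ ⟨c, y⟩ h
    by_cases hbc : b = c
    · subst hbc
      rw [he]
      by_cases hb : b = a
      · subst hb
        rw [blkM_inM, hn.2 x y h, Matrix.one_apply, Matrix.one_apply]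
        congr 1
        exact propext ⟨fun h => by rw [h], fun h => eq_of_heq (Sigma.mk.inj h).2⟩
      · rw [blkM_inM_ne (fun a => (R a).κ) a b hb, Units.val_one, Matrix.one_apply, Matrix.one_apply]
        congr 1
        exact propext ⟨fun h => by rw [h], fun h => eq_of_heq (Sigma.mk.inj h).2⟩
    · rw [hl _ _ hbc, Matrix.one_apply_ne]
      intro h'
      exact hbc (congrArg Sigma.fst h')

theorem ten_cusp (hR : ∀ a, (R a).Cusp) : Cusp (sc R) (tenRep R) := by
  rintro o ⟨⟨a, x⟩, ⟨a', y⟩, haa, ho⟩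
  have haa' : a = a' := haa
  subst haa'
  have hc := cusp_levC (R a) (hR a) (fun x => o ⟨a, x⟩) ⟨x, y, rfl, ho⟩
  rw [eq_top_iff, ← PiTensorProduct.span_tprod_eq_top, Submodule.span_le]
  rintro _ ⟨v, rfl⟩
  let L : (R a).V →ₗ[ℂ] ⨂[ℂ] a, (R a).V := (PiTensorProduct.tprod ℂ).toLinearMap v a
  have hL : ∀ w, L w = PiTensorProduct.tprod ℂ (Function.update v a w) := fun w => rfl
  have h1 : (⊤ : Submodule ℂ (R a).V) ≤
      ((stdD F (sc R) o).kerJ (tenRep R)).comap L := by
    rw [← hc]
    refine Submodule.span_le.2 ?_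
    rintro _ ⟨n, hn, w, rfl⟩
    rw [SetLike.mem_coe, Submodule.mem_comap, map_sub]
    have h2 : L (GLRep.lev (R a) ⟨n, fun _ _ h => absurd rfl h⟩ w) =
        tenRep R (inM F (fun a => (R a).κ) a n) (L w) := by
      rw [TenIrr_inM, hL, hL, TenIrr_slot_tprod, Function.update_idem, Function.update_self]
      rfl
    rw [h2]
    exact Submodule.subset_span ⟨(inM F (fun a => (R a).κ) a n).1, TenIrr_uni R a o n hn,
      L w, rfl⟩
  have h3 := h1 (Submodule.mem_top (x := v a))
  rw [Submodule.mem_comap, hL, Function.update_eq_self] at h3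
  exact h3

theorem ten_adm (hR : ∀ a, (R a).Cusp) : Adm (tenRep R) :=
  cusp_adm (sc R) (tenRep R) (ten_smooth R fun a => (hR a).1) (ten_irr R hR) (ten_cusp R hR)

theorem ten_scalar (hR : ∀ a, (R a).Cusp) (S : (⨂[ℂ] a, (R a).V) →ₗ[ℂ] (⨂[ℂ] a, (R a).V))
    (hS : Equi (tenRep R) (tenRep R) S) : ∃ z : ℂ, ∀ x, S x = z • x :=
  schur (tenRep R) (ten_smooth R fun a => (hR a).1) (ten_irr R hR) (ten_adm R hR) S hS

/-- the colouring is onto if all the representations are cuspidal (index sets nonempty) -/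
theorem sc_surj (hR : ∀ a, (R a).Cusp) : Function.Surjective (sc R) := by
  intro a
  obtain ⟨x⟩ := (hR a).2.2.1
  exact ⟨⟨a, x⟩, rfl⟩

end

end Pool.Agent.Lib.MP_ca1492_al.P
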