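import Mathlib
import Pool.Agent.Lib.MP_ca1492_al.D5.Mhom
import Pool.Agent.Lib.MP_ca1492_al.P.TenIrr

/-!
# MP_ca1492_al, p-adic side, module TenIso: conjugates of external tensor products

`u` a permutation of `sk R` mapping the block `a` to the block `ub a`. If `ρ(u m u⁻¹)` is isomorphic to
`ρ` (`ρ = tenRep R`) then `R a` is isomorphic to `R (ub a)` for all `a`.

Proof of `ten_conj_isom`. Let `e : (R a).κ ≃ (R (ub a)).κ`, `u ⟨a, x⟩ = ⟨ub a, e x⟩`. For
`h ∈ GL (R a).κ F`: `u (inM a h) u⁻¹ = inM (ub a) (glRe e h)` (`permG_conj`, entries). Let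
`T : V → V` be the isomorphism: `T (ρ (inM (ub a) (glRe e h)) x) = ρ (inM a h) (T x)`. Choose nonzero
`v b ∈ V_b`; `S₁ : V_{ub a} → V`, `y ↦ tprod (update v (ub a) y)`, linear, intertwines `(R (ub a)).π g` with
`ρ (inM (ub a) g)` (`tenRep_tprod`, `blkM_inM`, `blkM_inM_ne`), nonzero. `T (S₁ y) ≠ 0` for `y = v (ub a)`;
choose a contraction `C : V → V_a` with `C (T (S₁ y)) ≠ 0` (`ten_sep`), it intertwines `ρ (inM a h)` with
`(R a).π h` (check on pure tensors). So `C ∘ T ∘ S₁ : V_{ub a} → V_a` is nonzero and intertwines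
`(R (ub a)).π (glRe e h)` with `(R a).π h`; both are irreducible, so it is bijective (kernel and
image are stable; `irr_equi` for the representation `h ↦ (R (ub a)).π (glRe e h)`, irreducible by
`pull_irr`). Its inverse gives `(R a).Isom (R (ub a))`.
-/

set_option autoImplicit false

namespace Pool.Agent.Lib.MP_ca1492_al.P

open Topology Matrix ValuativeRel TensorProduct
open Pool.Agent.Lib.MP_ca1492_al.Q (GLRep)

noncomputable section

variable {F : Type} [Field F] [ValuativeRel F] [TopologicalSpace F]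
  [IsNonarchimedeanLocalField F]
variable {ι : Type} [Fintype ι] [DecidableEq ι] (R : ι → GLRep F)

/-- elements of the block group with the same blocks are equal -/
theorem TenIso_ext {K : ι → Type} [∀ a, Fintype (K a)] [∀ a, DecidableEq (K a)]
    (g h : lev F (Sigma.fst : (Σ a, K a) → ι)) (hgh : ∀ a, blkM F K a g = blkM F K a h) :
    g = h := by
  rw [← dgM_blkM K g, ← dgM_blkM K h]
  congr 1
  funext a
  exact hgh a

/-- the bijection of the index sets of the blocks `a` and `ub a` -/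
theorem TenIso_equiv (u : Equiv.Perm (sk R)) (ub : Equiv.Perm ι)
    (hu : ∀ i, (u i).1 = ub i.1) (a : ι) :
    ∃ e : (R a).κ ≃ (R (ub a)).κ, ∀ x, u ⟨a, x⟩ = ⟨ub a, e x⟩ := by
  have h1 : ∀ x : (R a).κ, ∃ y : (R (ub a)).κ, u ⟨a, x⟩ = ⟨ub a, y⟩ := by
    intro x
    have h2 := hu ⟨a, x⟩
    rcases h3 : u ⟨a, x⟩ with ⟨b, y⟩
    rw [h3] at h2
    change b = ub a at h2
    subst h2
    exact ⟨y, rfl⟩
  choose e he using h1
  refine ⟨Equiv.ofBijective e ⟨fun x y hxy => ?_, fun y => ?_⟩, he⟩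
  · have h2 : u ⟨a, x⟩ = u ⟨a, y⟩ := by rw [he, he, hxy]
    exact eq_of_heq (Sigma.mk.inj (u.injective h2)).2
  · have h2 := hu (u.symm ⟨ub a, y⟩)
    rw [Equiv.apply_symm_apply] at h2
    have h3 : a = (u.symm ⟨ub a, y⟩).1 := ub.injective h2
    rcases h4 : u.symm ⟨ub a, y⟩ with ⟨b, x⟩
    rw [h4] at h3
    change a = b at h3
    subst h3
    refine ⟨x, ?_⟩
    have h5 : u ⟨a, x⟩ = ⟨ub a, y⟩ := by rw [← h4, Equiv.apply_symm_apply]
    rw [he] at h5
    exact eq_of_heq (Sigma.mk.inj h5).2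

/-- blocks of the conjugate -/
theorem TenIso_blk (u : Equiv.Perm (sk R)) (ub : Equiv.Perm ι)
    (hl : ∀ i j, sc R (u i) = sc R (u j) ↔ sc R i = sc R j) (a : ι)
    (e : (R a).κ ≃ (R (ub a)).κ) (he : ∀ x, u ⟨a, x⟩ = ⟨ub a, e x⟩) (m : lev F (sc R)) :
    blkM F (fun a => (R a).κ) (ub a)
        ⟨permG F u * m.1 * (permG F u)⁻¹, permG_conj_mem (sc R) (sc R) u hl m.1 m.2⟩ =
      Q.GLRep.glRe (F := F) e (blkM F (fun a => (R a).κ) a m) := by
  apply Units.ext
  ext x y
  obtain ⟨x, rfl⟩ := e.surjective x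
  obtain ⟨y, rfl⟩ := e.surjective y
  have h1 : (blkM F (fun a => (R a).κ) (ub a)
      ⟨permG F u * m.1 * (permG F u)⁻¹, permG_conj_mem (sc R) (sc R) u hl m.1 m.2⟩ :
      Matrix (R (ub a)).κ (R (ub a)).κ F) (e x) (e y) =
      ((permG F u * m.1 * (permG F u)⁻¹ : GL (sk R) F) : Matrix (sk R) (sk R) F)
        ⟨ub a, e x⟩ ⟨ub a, e y⟩ := rfl
  rw [h1, ← he, ← he, permG_conj]
  exact (glT_apply e (blkM F (fun a => (R a).κ) a m) x y).symm

/-- the conjugate of one block in place -/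
theorem TenIso_inM (u : Equiv.Perm (sk R)) (ub : Equiv.Perm ι) (hu : ∀ i, (u i).1 = ub i.1)
    (hl : ∀ i j, sc R (u i) = sc R (u j) ↔ sc R i = sc R j) (a : ι)
    (e : (R a).κ ≃ (R (ub a)).κ) (he : ∀ x, u ⟨a, x⟩ = ⟨ub a, e x⟩) (h : GL (R a).κ F) :
    (⟨permG F u * (inM F (fun a => (R a).κ) a h).1 * (permG F u)⁻¹,
        permG_conj_mem (sc R) (sc R) u hl (inM F (fun a => (R a).κ) a h).1
          (inM F (fun a => (R a).κ) a h).2⟩ : lev F (sc R)) =
      inM F (fun a => (R a).κ) (ub a) (Q.GLRep.glRe (F := F) e h) := by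
  apply TenIso_ext
  intro b
  obtain ⟨a', rfl⟩ := ub.surjective b
  by_cases haa : a' = a
  · subst haa
    rw [TenIso_blk R u ub hl a' e he, blkM_inM, blkM_inM]
  · obtain ⟨e', he'⟩ := TenIso_equiv R u ub hu a'
    rw [TenIso_blk R u ub hl a' e' he', blkM_inM_ne _ _ _ haa,
      blkM_inM_ne _ _ _ (fun h' => haa (ub.injective h')), map_one]

/-- the action of one block on a pure tensor -/
theorem TenIso_act (a : ι) (h : GL (R a).κ F) (v : ∀ a, (R a).V) :
    tenRep R (inM F (fun a => (R a).κ) a h) (PiTensorProduct.tprod ℂ v) =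
      PiTensorProduct.tprod ℂ (Function.update v a ((R a).π h (v a))) := by
  rw [tenRep_tprod]
  congr 1
  funext c
  by_cases hc : c = a
  · subst hc
    rw [Function.update_self, blkM_inM]
  · rw [Function.update_of_ne hc, blkM_inM_ne _ _ _ hc, map_one]
    rfl

theorem ten_conj_isom (hR : ∀ a, (R a).Cusp) (u : Equiv.Perm (sk R)) (ub : Equiv.Perm ι)
    (hu : ∀ i, (u i).1 = ub i.1) (hl : ∀ i j, sc R (u i) = sc R (u j) ↔ sc R i = sc R j)
    (h : Iso (cjR (sc R) u hl (tenRep R)) (tenRep R)) (a : ι) : (R a).Isom (R (ub a)) := by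
  obtain ⟨T, hT⟩ := h
  obtain ⟨e, he⟩ := TenIso_equiv R u ub hu a
  have hT' : ∀ (h : GL (R a).κ F) (x : ⨂[ℂ] a, (R a).V),
      T (tenRep R (inM F (fun a => (R a).κ) (ub a) (Q.GLRep.glRe (F := F) e h)) x) =
        tenRep R (inM F (fun a => (R a).κ) a h) (T x) := by
    intro h x
    rw [← TenIso_inM R u ub hu hl a e he h]
    exact hT (inM F (fun a => (R a).κ) a h) x
  have hv : ∀ b, ∃ v : (R b).V, v ≠ 0 := fun b => (hR b).2.1.1
  choose v hv using hv
  let S₁ : (R (ub a)).V →ₗ[ℂ] (⨂[ℂ] a, (R a).V) :=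
    (PiTensorProduct.tprod ℂ (s := fun a => (R a).V)).toLinearMap v (ub a)
  have hS₁ : ∀ y, S₁ y = PiTensorProduct.tprod ℂ (Function.update v (ub a) y) := fun _ => rfl
  have hS₁e : ∀ (g : GL (R (ub a)).κ F) (y : (R (ub a)).V),
      S₁ ((R (ub a)).π g y) = tenRep R (inM F (fun a => (R a).κ) (ub a) g) (S₁ y) := by
    intro g y
    rw [hS₁, hS₁, TenIso_act, Function.update_self, Function.update_idem]
  have ht : T (S₁ (v (ub a))) ≠ 0 := by
    intro h0
    have h1 : S₁ (v (ub a)) = 0 := by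
      apply T.injective
      rw [h0, map_zero]
    rw [hS₁, Function.update_eq_self] at h1
    exact tprod_ne_zero R v hv h1
  obtain ⟨l, C, hC, hCt⟩ := ten_sep R a _ ht
  have hCe : ∀ (h : GL (R a).κ F) (x : ⨂[ℂ] a, (R a).V),
      C (tenRep R (inM F (fun a => (R a).κ) a h) x) = (R a).π h (C x) := by
    intro h x
    have h1 : C ∘ₗ tenRep R (inM F (fun a => (R a).κ) a h) = (R a).π h ∘ₗ C := by
      apply PiTensorProduct.ext
      ext w
      change C (tenRep R (inM F (fun a => (R a).κ) a h) (PiTensorProduct.tprod ℂ w)) =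
        (R a).π h (C (PiTensorProduct.tprod ℂ w))
      rw [TenIso_act, hC, hC, Function.update_self, map_smul]
      congr 1
      refine Finset.prod_congr rfl fun b hb => ?_
      rw [Function.update_of_ne (Finset.ne_of_mem_erase hb)]
    exact LinearMap.congr_fun h1 x
  let f : (R (ub a)).V →ₗ[ℂ] (R a).V := C ∘ₗ (T : (⨂[ℂ] a, (R a).V) →ₗ[ℂ] _) ∘ₗ S₁
  have hfa : ∀ y, f y = C (T (S₁ y)) := fun _ => rfl
  have hf : ∀ (h : GL (R a).κ F) (y : (R (ub a)).V),
      f ((R (ub a)).π (Q.GLRep.glRe (F := F) e h) y) = (R a).π h (f y) := by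
    intro h y
    rw [hfa, hfa, hS₁e, hT', hCe]
  have hbij : Function.Bijective f := by
    refine irr_equi (pull (glT F e) (R (ub a)).π) (R a).π f (fun h y => hf h y)
      ((pull_irr _ _).2 (hR (ub a)).2.1) (hR a).2.1 ?_
    intro h0
    apply hCt
    rw [← hfa, h0]
    rfl
  let E := LinearEquiv.ofBijective f hbij
  refine ⟨e, E.symm, fun g x => ?_⟩
  apply E.injective
  rw [LinearEquiv.apply_symm_apply]
  have h2 : E ((R (ub a)).π (Q.GLRep.glRe (F := F) e g) (E.symm x)) =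
      (R a).π g (E (E.symm x)) := hf g (E.symm x)
  rw [h2, LinearEquiv.apply_symm_apply]

/-- a permutation which permutes the classes induces a permutation of the strands -/
theorem exists_ub (hR : ∀ a, (R a).Cusp) (u : Equiv.Perm (sk R))
    (hl : ∀ i j, sc R (u i) = sc R (u j) ↔ sc R i = sc R j) :
    ∃ ub : Equiv.Perm ι, ∀ i, (u i).1 = ub i.1 := by
  have hs := sc_surj R hR
  choose s hs using hs
  have hinj : Function.Injective fun a => sc R (u (s a)) := by
    intro a b hab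
    have h1 := (hl (s a) (s b)).1 hab
    rwa [hs, hs] at h1
  refine ⟨Equiv.ofBijective _ (Finite.injective_iff_bijective.1 hinj), fun i => ?_⟩
  exact (hl i (s i.1)).2 (hs i.1).symm

end

end Pool.Agent.Lib.MP_ca1492_al.P
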