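import Mathlib
import Pool.Agent.Lib.MP_ca1492_al.P.CFun

/-!
# MP_ca1492_al, p-adic side, module CTwo: Jacquet modules of induced representations, two blocks

`TwoB cb c x₀`: every class of `cb` except `x₀` is a single class of `c`, and the class `x₀` of `cb`
contains at most two classes of `c` (if `cb` is constant: `c` has at most two classes). A
permutation `w` with `cb ∘ w = cb` and `c (w i) = c (w j) → c i = c j` either preserves `c`
(then `permG w ∈ lev c`), or it exchanges the two classes in `x₀`: `IsSwap`.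

`σ` smooth cuspidal on `lev c`, `D = parD c cb o h`, `X = Ind_D σ`.

* `live_class`: the classification of live `w`. For a live `w`: `i ↦ c (w i)` factors... precisely, the
  relation `c (w i) = c (w j)` implies `c i = c j`, both equivalence relations on the finite set `κ`
  have the same number of classes of each... (`w` is a bijection, so they have the same number of
  classes), hence they are equal; outside `cb = x₀` the classes of `c` are classes of `cb`, which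
  `w` preserves; in the class `x₀` either some `i` has `c (w i) = c i`, then by equality of the relations
  and since there are at most two classes `c (w j) = c j` for all `j`, or `c (w i) ≠ c i` for all `i`.
* `lam_kerJ`: `f ∈ IndOn Ω ∩ kerJ`: there is a compact `K ≤ N₂` with `avg K f = 0` (`mem_kerJ_iff`; `K` as
  a subgroup of `lev F cb`); `Lam (avg K f) m = Lam f m` by the invariance in `lam_lin` (`avg` is a mean
  over a finite set of representatives by `avg_sum`, `IndOn Ω` is `N₂`-stable because `Ω` is).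
* `rk_min` (same order `o₂ = o₁ = o`): `rkc cb o o x a b (permG w) ≥ rkc cb o o x a b 1`
  (`rkc_permG`: `#{j | cb j = x, o j < b, a ≤ o (w j)} ≥ #{j | cb j = x, a ≤ o j < b}` since
  `#{o j < b} ≤ #{o j < b, a ≤ o (w j)} + #{o (w j) < a}` and `#{o (w j) < a} = #{o j < a}`), so the
  cell of `1`, which is `P`, is the unique cell with the smallest `rkS`: the last one in `cell_order`.
* `rk_min'` (opposite order `o₂ = -o`): if `s` is a swap then similarly the cell `P s P⁻ = P s (lev c)`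
  is the last one: `s⁻¹ P s` and `P⁻` have the same intersection with ... (`s⁻¹ (upp cb o) s =
  upp cb (o ∘ s)`, and `o ∘ s` and `-o` define the same order on the classes of `c`, so
  `s⁻¹ P s = P⁻`), so `P s P⁻ = s P⁻ = P s` and it is the minimal cell (translate by `s` of the
  previous statement). The cell of `1`: `P P⁻` has the largest ranks (see `big_open`): it is the first.
* `two_same`, `two_same_swap`, `two_opp`, `two_opp_swap`: induction along `cell_order` with the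
  `N₂`-invariant functional `L f = [f] ∈ X / kerJ` (`fun_dead`: `L = 0` on `IndOn U_k` implies `L = 0` on
  `IndOn U_{k+1}` for a dead step; in general a dead step gives `IndOn U_{k+1} ≤ IndOn U_k + kerJ` by
  `gl_step_dead` and `sub_avg_mem_span`). For the live cell of `s` use `CStep` with `w = s` (the double
  coset of a live non-`c`-preserving `w` is the one of `s`: `s⁻¹ w` preserves `c`,
  `permG (s⁻¹ w) ∈ lev c`). After the live cell all cells (up to the last one) are dead, so every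
  `f` in the subspace is congruent modulo `kerJ` to some `f' ∈ IndOn Ω`, `Ω` = open set up to and
  including the live cell; define `Λ f = Lam f' 1`, well defined by `lam_kerJ`; kernel: if
  `Lam f' 1 = 0` then `Lam f' m = 0` for all `m` (`lam_equi`) and `avg K f' ∈ IndOn Ω'` (`gl_step_live`),
  where everything is in `kerJ` (all earlier cells are dead). Onto by `gl_surj`.
-/

set_option autoImplicit false
set_option linter.unusedSectionVars false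

namespace Pool.Agent.Lib.MP_ca1492_al.P

open Topology Matrix ValuativeRel

noncomputable section

variable {F : Type} [Field F] [ValuativeRel F] [TopologicalSpace F]
  [IsNonarchimedeanLocalField F] {κ : Type} [Fintype κ] [DecidableEq κ]
variable {E : Type} [AddCommGroup E] [Module ℂ E]
variable {ι₀ ι : Type}

/-- only the class `x₀` of `cb` may contain two classes of `c` -/
structure TwoB (cb : κ → ι₀) (c : κ → ι) (x₀ : ι₀) : Prop where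
  one : ∀ i j, cb i = cb j → cb i ≠ x₀ → c i = c j
  two : ∀ i j k, cb i = x₀ → cb j = x₀ → cb k = x₀ → c i = c j ∨ c j = c k ∨ c i = c k

/-- `s` exchanges two classes of `c` -/
structure IsSwap (cb : κ → ι₀) (c : κ → ι) (s : Equiv.Perm κ) : Prop where
  hcb : ∀ i, cb (s i) = cb i
  hc : ∀ i j, c (s i) = c (s j) ↔ c i = c j
  ne : ∃ i, c (s i) ≠ c i

theorem live_class (cb : κ → ι₀) (c : κ → ι) (x₀ : ι₀) (hcc : ∀ i j, c i = c j → cb i = cb j)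
    (hT : TwoB cb c x₀) (w : Equiv.Perm κ) (hw : ∀ i, cb (w i) = cb i)
    (hl : ∀ i j, c (w i) = c (w j) → c i = c j) : (∀ i, c (w i) = c i) ∨ IsSwap cb c w := by
  classical
  by_cases h : ∀ i, c (w i) = c i
  · exact Or.inl h
  right
  push Not at h
  refine ⟨hw, fun i j => ⟨hl i j, fun hij => ?_⟩, h⟩
  -- the map `c (w i) ↦ c i` on the classes is onto, hence injective
  have hrep : ∀ y : Set.range c, ∃ k : κ, c (w k) = y.1 := by
    rintro ⟨y, k, rfl⟩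
    exact ⟨w.symm k, by rw [Equiv.apply_symm_apply]⟩
  choose rep hrep using hrep
  obtain ⟨φ, hφ⟩ : ∃ φ : Set.range c → Set.range c, ∀ y, φ y = ⟨c (rep y), rep y, rfl⟩ :=
    ⟨_, fun _ => rfl⟩
  have hφ1 : ∀ k : κ, φ ⟨c (w k), w k, rfl⟩ = ⟨c k, k, rfl⟩ := by
    intro k
    rw [hφ]
    apply Subtype.ext
    exact hl _ _ (hrep ⟨c (w k), w k, rfl⟩)
  have hfin : Finite (Set.range c) := Set.finite_range c
  have hsurj : Function.Surjective φ := by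
    rintro ⟨y, k, rfl⟩
    exact ⟨_, hφ1 k⟩
  have hinj : Function.Injective φ := Finite.injective_iff_surjective.2 hsurj
  have h1 : φ ⟨c (w i), w i, rfl⟩ = φ ⟨c (w j), w j, rfl⟩ := by
    rw [hφ1, hφ1]
    exact Subtype.ext hij
  exact congrArg Subtype.val (hinj h1)

/-- a swap exchanges the two classes -/
theorem CTwo_swap (cb : κ → ι₀) (c : κ → ι) (x₀ : ι₀) (hT : TwoB cb c x₀)
    (s : Equiv.Perm κ) (hs : IsSwap cb c s) (i j : κ) (hij : cb i = cb j)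
    (hne : c i ≠ c j) : c (s i) = c j := by
  have hx : cb i = x₀ := by
    by_contra h
    exact hne (hT.one i j hij h)
  have hxj : cb j = x₀ := hij.symm.trans hx
  have hsi : cb (s i) = x₀ := (hs.hcb i).trans hx
  have hsj : cb (s j) = x₀ := (hs.hcb j).trans hxj
  by_contra hcon
  have h1 : c (s i) = c i := by
    rcases hT.two i j (s i) hx hxj hsi with h | h | h
    · exact absurd h hne
    · exact absurd h.symm hcon
    · exact h.symm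
  have hsne : c (s i) ≠ c (s j) := fun h => hne ((hs.hc i j).1 h)
  have h2 : c (s j) = c j := by
    rcases hT.two i j (s j) hx hxj hsj with h | h | h
    · exact absurd h hne
    · exact h.symm
    · exact absurd (h1.trans h) hsne
  obtain ⟨l, hl⟩ := hs.ne
  have hxl : cb l = x₀ := by
    by_contra h
    exact hl (hT.one (s l) l (hs.hcb l) (by rw [hs.hcb]; exact h))
  rcases hT.two i j l hx hxj hxl with h | h | h
  · exact hne h
  · exact hl (((hs.hc l j).2 h.symm).trans (h2.trans h))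
  · exact hl (((hs.hc l i).2 h.symm).trans (h1.trans h))

/-- two swaps differ by a permutation preserving `c` -/
theorem swap_unique (cb : κ → ι₀) (c : κ → ι) (x₀ : ι₀) (hcc : ∀ i j, c i = c j → cb i = cb j)
    (hT : TwoB cb c x₀) (s w : Equiv.Perm κ) (hs : IsSwap cb c s) (hw : IsSwap cb c w) (i : κ) :
    c (s⁻¹ (w i)) = c i := by
  by_contra hne
  have hsj : s (s⁻¹ (w i)) = w i := s.apply_symm_apply (w i)
  have hcb : cb (s⁻¹ (w i)) = cb i := by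
    rw [← hs.hcb, hsj, hw.hcb]
  have h1 : c (s (s⁻¹ (w i))) = c i := CTwo_swap cb c x₀ hT s hs _ _ hcb hne
  have h2 : c (w i) = c (s⁻¹ (w i)) :=
    CTwo_swap cb c x₀ hT w hw _ _ hcb.symm (fun h => hne h.symm)
  rw [hsj] at h1
  exact hne (h2.symm.trans h1)

/-! ### stable sets and the chain of cells -/

/-- stable under left multiplication by `upp cb o₁` and right multiplication by `upp cb o₂` -/
structure CTwo_Stab (cb : κ → ι₀) (o₁ o₂ : κ → ℤ) (A : Set (lev F cb)) : Prop where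
  left : ∀ g p : lev F cb, p.1 ∈ upp F cb o₁ → g ∈ A → p * g ∈ A
  right : ∀ g q : lev F cb, q.1 ∈ upp F cb o₂ → g ∈ A → g * q ∈ A

theorem CTwo_compl {cb : κ → ι₀} {o₁ o₂ : κ → ℤ} {A : Set (lev F cb)}
    (hA : CTwo_Stab cb o₁ o₂ A) : CTwo_Stab cb o₁ o₂ Aᶜ := by
  refine ⟨fun g p hp hg h => hg ?_, fun g q hq hg h => hg ?_⟩
  · have h1 := hA.left (p * g) p⁻¹ ((upp F cb o₁).inv_mem hp) h
    rwa [inv_mul_cancel_left] at h1
  · have h1 := hA.right (g * q) q⁻¹ ((upp F cb o₂).inv_mem hq) h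
    rwa [mul_inv_cancel_right] at h1

theorem CTwo_gcell (cb : κ → ι₀) (o₁ o₂ : κ → ℤ) (v : Equiv.Perm κ) :
    CTwo_Stab cb o₁ o₂ (gcell (F := F) cb o₁ o₂ v) := by
  constructor
  · rintro g p hp ⟨p', hp', q, hq, h⟩
    refine ⟨p.1 * p', (upp F cb o₁).mul_mem hp hp', q, hq, ?_⟩
    show p.1 * g.1 = _
    rw [h]
    simp only [mul_assoc]
  · rintro g q hq ⟨p, hp, q', hq', h⟩
    refine ⟨p, hp, q' * q.1, (upp F cb o₂).mul_mem hq' hq, ?_⟩
    show g.1 * q.1 = _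
    rw [h]
    simp only [mul_assoc]

theorem CTwo_cell_sub {cb : κ → ι₀} {o₁ o₂ : κ → ℤ} {A : Set (lev F cb)}
    (hA : CTwo_Stab cb o₁ o₂ A) (v : Equiv.Perm κ) (g g' : lev F cb)
    (hg : g ∈ gcell (F := F) cb o₁ o₂ v) (hg' : g' ∈ gcell (F := F) cb o₁ o₂ v) (h : g ∈ A) :
    g' ∈ A := by
  obtain ⟨p, hp, q, hq, e⟩ := hg
  obtain ⟨p', hp', q', hq', e'⟩ := hg'
  have hpp : p' * p⁻¹ ∈ upp F cb o₁ := (upp F cb o₁).mul_mem hp' ((upp F cb o₁).inv_mem hp)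
  have hqq : q⁻¹ * q' ∈ upp F cb o₂ := (upp F cb o₂).mul_mem ((upp F cb o₂).inv_mem hq) hq'
  have h1 := hA.right _ ⟨q⁻¹ * q', hqq.1⟩ hqq (hA.left g ⟨p' * p⁻¹, hpp.1⟩ hpp h)
  have h2 : g' = ⟨p' * p⁻¹, hpp.1⟩ * g * ⟨q⁻¹ * q', hqq.1⟩ := by
    apply Subtype.ext
    show g'.1 = p' * p⁻¹ * g.1 * (q⁻¹ * q')
    rw [e, e']
    group
  rw [h2]
  exact h1

theorem CTwo_one_mem (cb : κ → ι₀) (o₁ o₂ : κ → ℤ) (v : Equiv.Perm κ)
    (hv : ∀ i, cb (v i) = cb i) :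
    (⟨permG F v, permG_mem_lev' cb v hv⟩ : lev F cb) ∈ gcell (F := F) cb o₁ o₂ v :=
  ⟨1, (upp F cb o₁).one_mem, 1, (upp F cb o₂).one_mem, by rw [one_mul, mul_one]⟩

theorem CTwo_mono {cb : κ → ι₀} {ι₁ : Type} {c₁ : κ → ι₁} {o₁ : κ → ℤ}
    {h₁ : ∀ i j, c₁ i = c₁ j ↔ cb i = cb j ∧ o₁ i = o₁ j}
    {σ : Representation ℂ (lev F c₁) E} {Ω Ω₂ : Set (lev F cb)} (h : Ω ⊆ Ω₂)
    {f : (parD c₁ cb o₁ h₁).IndSp σ} (hf : f ∈ IndOn (parD c₁ cb o₁ h₁) σ Ω) :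
    f ∈ IndOn (parD c₁ cb o₁ h₁) σ Ω₂ :=
  fun g hg => hf g (fun h' => hg (h h'))

section

variable {ι₁ ι₂ : Type} (cb : κ → ι₀) (c₁ : κ → ι₁) (o₁ : κ → ℤ)
  (h₁ : ∀ i j, c₁ i = c₁ j ↔ cb i = cb j ∧ o₁ i = o₁ j) (c₂ : κ → ι₂) (o₂ : κ → ℤ)
  (h₂ : ∀ i j, c₂ i = c₂ j ↔ cb i = cb j ∧ o₂ i = o₂ j)
  (σ : Representation ℂ (lev F c₁) E)

/-- `f` and its average differ by an element of the kernel -/
theorem CTwo_avg (K : Subgroup (lev F cb)) (hK : K ≤ (uni F cb o₂).subgroupOf (lev F cb))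
    (hc : IsCompact (K : Set (lev F cb))) (f : (parD c₁ cb o₁ h₁).IndSp σ) :
    f - avg ((parD c₁ cb o₁ h₁).Ind σ) K f ∈
      (parD c₂ cb o₂ h₂).kerJ ((parD c₁ cb o₁ h₁).Ind σ) := by
  have h1 := sub_avg_mem_span ((parD c₁ cb o₁ h₁).Ind σ) (PD.ind_smooth _ σ) K hc f
  rw [← neg_sub]
  refine Submodule.neg_mem _ (Submodule.span_mono ?_ h1)
  rintro x ⟨k, hk, w, rfl⟩
  exact ⟨k.1, hK hk, w, rfl⟩

theorem CTwo_step (w : Equiv.Perm κ) (Ω' Ω : Set (lev F cb)) (hs : CStep cb o₁ o₂ w Ω' Ω)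
    (hσ : IsSm σ) (hc : Cusp c₁ σ) (hd : ¬ ∀ i j, c₁ (w i) = c₁ (w j) → c₂ i = c₂ j)
    (f : (parD c₁ cb o₁ h₁).IndSp σ) (hf : f ∈ IndOn (parD c₁ cb o₁ h₁) σ Ω) :
    ∃ f' ∈ IndOn (parD c₁ cb o₁ h₁) σ Ω', f - f' ∈
      (parD c₂ cb o₂ h₂).kerJ ((parD c₁ cb o₁ h₁).Ind σ) := by
  obtain ⟨K, hK, hKc, h⟩ := gl_step_dead cb c₁ o₁ h₁ c₂ o₂ h₂ w Ω' Ω hs σ hσ hc hd f hf
  exact ⟨_, h K le_rfl hK hKc, CTwo_avg cb c₁ o₁ h₁ c₂ o₂ h₂ σ K hK hKc f⟩

/-- the chain of cells: if all the cells outside `A` and `C` are dead then every function which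
vanishes on `C` is congruent to a function supported on `A` -/
theorem CTwo_chain (A C : Set (lev F cb)) (hA : IsOpen A) (hC : IsClosed C)
    (hA' : CTwo_Stab cb o₁ o₂ A) (hC' : CTwo_Stab cb o₁ o₂ C)
    (hσ : IsSm σ) (hc : Cusp c₁ σ)
    (hd : ∀ v : Equiv.Perm κ, (∀ i, cb (v i) = cb i) →
      (∀ i j, c₁ (v i) = c₁ (v j) → c₂ i = c₂ j) →
      ∀ g ∈ gcell (F := F) cb o₁ o₂ v, g ∈ A ∨ g ∈ C)
    (f : (parD c₁ cb o₁ h₁).IndSp σ) (hf : f ∈ IndOn (parD c₁ cb o₁ h₁) σ Cᶜ) :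
    ∃ f' ∈ IndOn (parD c₁ cb o₁ h₁) σ A, f - f' ∈
      (parD c₂ cb o₂ h₂).kerJ ((parD c₁ cb o₁ h₁).Ind σ) := by
  obtain ⟨r, v, hv, hex, -, hU⟩ := cell_order (F := F) cb o₁ o₂
  obtain ⟨B, hB⟩ : ∃ B : ℕ → Set (lev F cb), ∀ k g, g ∈ B k ↔
      ((∃ i : Fin r, i.1 < k ∧ g ∈ gcell (F := F) cb o₁ o₂ (v i)) ∨ g ∈ A) ∧ g ∉ C :=
    ⟨fun k => {g | ((∃ i : Fin r, i.1 < k ∧ g ∈ gcell (F := F) cb o₁ o₂ (v i)) ∨ g ∈ A) ∧ g ∉ C},
      fun _ _ => Iff.rfl⟩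
  have hBo : ∀ k, IsOpen (B k) := by
    intro k
    have h1 : B k = ({g : lev F cb | ∃ i : Fin r, i.1 < k ∧ g ∈ gcell (F := F) cb o₁ o₂ (v i)} ∪ A)
        ∩ Cᶜ := by
      ext g
      rw [hB]
      rfl
    rw [h1]
    exact ((hU k).union hA).inter hC.isOpen_compl
  have hBs : ∀ k, CTwo_Stab cb o₁ o₂ (B k) := by
    intro k
    constructor
    · intro g p hp hg
      rw [hB] at hg ⊢
      refine ⟨?_, (CTwo_compl hC').left g p hp hg.2⟩
      rcases hg.1 with ⟨i, hi, h⟩ | h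
      · exact Or.inl ⟨i, hi, (CTwo_gcell cb o₁ o₂ (v i)).left g p hp h⟩
      · exact Or.inr (hA'.left g p hp h)
    · intro g q hq hg
      rw [hB] at hg ⊢
      refine ⟨?_, (CTwo_compl hC').right g q hq hg.2⟩
      rcases hg.1 with ⟨i, hi, h⟩ | h
      · exact Or.inl ⟨i, hi, (CTwo_gcell cb o₁ o₂ (v i)).right g q hq h⟩
      · exact Or.inr (hA'.right g q hq h)
  have key : ∀ k : ℕ, k ≤ r → ∀ f : (parD c₁ cb o₁ h₁).IndSp σ,
      f ∈ IndOn (parD c₁ cb o₁ h₁) σ (B k) → ∃ f' ∈ IndOn (parD c₁ cb o₁ h₁) σ A, f - f' ∈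
      (parD c₂ cb o₂ h₂).kerJ ((parD c₁ cb o₁ h₁).Ind σ) := by
    intro k
    induction k with
    | zero =>
      intro _ f hf
      refine ⟨f, CTwo_mono ?_ hf, by rw [sub_self]; exact Submodule.zero_mem _⟩
      intro g hg
      rw [hB] at hg
      rcases hg.1 with ⟨i, hi, -⟩ | h
      · exact absurd hi (Nat.not_lt_zero _)
      · exact h
    | succ k ih =>
      intro hk f hf
      by_cases hcase : ∃ g ∈ gcell (F := F) cb o₁ o₂ (v ⟨k, hk⟩), g ∈ A ∨ g ∈ C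
      · -- nothing new
        refine ih (Nat.le_of_succ_le hk) f (CTwo_mono ?_ hf)
        intro g hg
        rw [hB] at hg ⊢
        refine ⟨?_, hg.2⟩
        rcases hg.1 with ⟨i, hi, h⟩ | h
        · rcases Nat.lt_succ_iff_lt_or_eq.1 hi with h' | h'
          · exact Or.inl ⟨i, h', h⟩
          · have hik : i = ⟨k, hk⟩ := Fin.ext h'
            obtain ⟨g₀, hg₀, h0 | h0⟩ := hcase
            · exact Or.inr (CTwo_cell_sub hA' (v ⟨k, hk⟩) g₀ g hg₀ (hik ▸ h) h0)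
            · exact absurd (CTwo_cell_sub hC' (v ⟨k, hk⟩) g₀ g hg₀ (hik ▸ h) h0) hg.2
        · exact Or.inr h
      · push Not at hcase
        have hs : CStep cb o₁ o₂ (v ⟨k, hk⟩) (B k) (B (k + 1)) := by
          refine ⟨hv _, hBo k, hBo (k + 1), (hBs k).left, (hBs k).right, fun g => ?_,
            fun g hg hg' => ?_⟩
          · rw [hB, hB]
            constructor
            · rintro ⟨⟨i, hi, h⟩ | h, h2⟩
              · rcases Nat.lt_succ_iff_lt_or_eq.1 hi with h' | h'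
                · exact Or.inl ⟨Or.inl ⟨i, h', h⟩, h2⟩
                · have hik : i = ⟨k, hk⟩ := Fin.ext h'
                  exact Or.inr (hik ▸ h)
              · exact Or.inl ⟨Or.inr h, h2⟩
            · rintro (⟨⟨i, hi, h⟩ | h, h2⟩ | h)
              · exact ⟨Or.inl ⟨i, Nat.lt_succ_of_lt hi, h⟩, h2⟩
              · exact ⟨Or.inr h, h2⟩
              · exact ⟨Or.inl ⟨⟨k, hk⟩, Nat.lt_succ_self k, h⟩, (hcase g h).2⟩
          · rw [hB] at hg'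
            rcases hg'.1 with ⟨i, hi, h⟩ | h
            · have h3 := (hex g).unique h hg
              rw [h3] at hi
              exact lt_irrefl _ hi
            · exact (hcase g hg).1 h
        have hdead : ¬ ∀ i j, c₁ (v ⟨k, hk⟩ i) = c₁ (v ⟨k, hk⟩ j) → c₂ i = c₂ j := by
          intro hl
          have h3 := CTwo_one_mem (F := F) cb o₁ o₂ (v ⟨k, hk⟩) (hv _)
          rcases hd (v ⟨k, hk⟩) (hv _) hl _ h3 with h4 | h4
          · exact (hcase _ h3).1 h4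
          · exact (hcase _ h3).2 h4
        obtain ⟨f', hf', hff⟩ := CTwo_step cb c₁ o₁ h₁ c₂ o₂ h₂ σ (v ⟨k, hk⟩) (B k) (B (k + 1)) hs
          hσ hc hdead f hf
        obtain ⟨f'', hf'', hff'⟩ := ih (Nat.le_of_succ_le hk) f' hf'
        refine ⟨f'', hf'', ?_⟩
        have e : f - f'' = (f - f') + (f' - f'') := by abel
        rw [e]
        exact Submodule.add_mem _ hff hff'
  refine key r le_rfl f (CTwo_mono ?_ hf)
  intro g hg
  rw [hB]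
  obtain ⟨i, hi⟩ := (hex g).exists
  exact ⟨Or.inl ⟨i, i.2, hi⟩, hg⟩

theorem CTwo_ind_mem (w : Equiv.Perm κ) (Ω' Ω : Set (lev F cb)) (hs : CStep cb o₁ o₂ w Ω' Ω)
    (k : lev F cb) (hk : k.1 ∈ upp F cb o₂) (f : (parD c₁ cb o₁ h₁).IndSp σ)
    (hf : f ∈ IndOn (parD c₁ cb o₁ h₁) σ Ω) :
    (parD c₁ cb o₁ h₁).Ind σ k f ∈ IndOn (parD c₁ cb o₁ h₁) σ Ω :=
  fun g hg => hf _ (CCell_out cb o₁ o₂ w Ω' Ω hs g hg k hk)

/-- elements of the kernel vanish at `g₀` if `g₀` conjugates `uni cb o₂` to `uni cb o₁` -/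
theorem CTwo_ker (g₀ : lev F cb)
    (hg : ∀ n ∈ uni F cb o₂, g₀.1 * n * g₀.1⁻¹ ∈ uni F cb o₁)
    (f : (parD c₁ cb o₁ h₁).IndSp σ)
    (hf : f ∈ (parD c₂ cb o₂ h₂).kerJ ((parD c₁ cb o₁ h₁).Ind σ)) : f.1 g₀ = 0 := by
  refine Submodule.span_induction (p := fun (x : (parD c₁ cb o₁ h₁).IndSp σ) _ => x.1 g₀ = 0)
    ?_ ?_ ?_ ?_ hf
  · rintro x ⟨n, hn, f', rfl⟩
    have hn' : n ∈ uni F cb o₂ := hn
    have h1 := f'.2.1 1 (lev F c₁).one_mem (g₀.1 * n * g₀.1⁻¹) (hg n hn') g₀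
    have h2 : (⟨1, (parD c₁ cb o₁ h₁).hM (lev F c₁).one_mem⟩ : lev F cb) *
        ⟨g₀.1 * n * g₀.1⁻¹, (parD c₁ cb o₁ h₁).hN (hg n hn')⟩ * g₀ =
        g₀ * ⟨n, (parD c₂ cb o₂ h₂).hN hn⟩ := by
      apply Subtype.ext
      show 1 * (g₀.1 * n * g₀.1⁻¹) * g₀.1 = g₀.1 * n
      group
    rw [h2] at h1
    have h3 : σ ⟨1, (lev F c₁).one_mem⟩ = 1 := map_one σ
    rw [h3] at h1
    show f'.1 (g₀ * ⟨n, (parD c₂ cb o₂ h₂).hN hn⟩) - f'.1 g₀ = 0
    rw [h1]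
    exact sub_self _
  · rfl
  · intro x y _ _ hx hy
    show x.1 g₀ + y.1 g₀ = 0
    rw [hx, hy, add_zero]
  · intro a x _ hx
    show a • x.1 g₀ = 0
    rw [hx, smul_zero]

/-- the closed set `P₁ g₀` -/
theorem CTwo_closed (g₀ : lev F cb) :
    IsClosed {g : lev F cb | g.1 * g₀.1⁻¹ ∈ upp F cb o₁} :=
  (upp_isClosed cb o₁).preimage (continuous_subtype_val.mul continuous_const)

theorem CTwo_coset (g₀ : lev F cb) (hq : ∀ q ∈ upp F cb o₂, g₀.1 * q * g₀.1⁻¹ ∈ upp F cb o₁) :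
    CTwo_Stab cb o₁ o₂ {g : lev F cb | g.1 * g₀.1⁻¹ ∈ upp F cb o₁} := by
  constructor
  · intro g p hp hg
    show p.1 * g.1 * g₀.1⁻¹ ∈ upp F cb o₁
    rw [mul_assoc]
    exact (upp F cb o₁).mul_mem hp hg
  · intro g q hq' hg
    show g.1 * q.1 * g₀.1⁻¹ ∈ upp F cb o₁
    have e : g.1 * q.1 * g₀.1⁻¹ = (g.1 * g₀.1⁻¹) * (g₀.1 * q.1 * g₀.1⁻¹) := by group
    rw [e]
    exact (upp F cb o₁).mul_mem hg (hq q.1 hq')

theorem CTwo_vanish (g₀ : lev F cb) (f : (parD c₁ cb o₁ h₁).IndSp σ) :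
    f ∈ IndOn (parD c₁ cb o₁ h₁) σ {g : lev F cb | g.1 * g₀.1⁻¹ ∈ upp F cb o₁}ᶜ ↔
      f.1 g₀ = 0 := by
  constructor
  · intro h
    refine h g₀ (fun h' => h' ?_)
    show g₀.1 * g₀.1⁻¹ ∈ upp F cb o₁
    rw [mul_inv_cancel]
    exact (upp F cb o₁).one_mem
  · intro h g hg
    have hg' : g.1 * g₀.1⁻¹ ∈ upp F cb o₁ := not_not.1 hg
    have h2 := ((mem_IndSp_iff c₁ cb o₁ h₁ σ f.1).1 f.2).1
      ⟨⟨g.1 * g₀.1⁻¹, hg'.1⟩, hg'⟩ g₀
    have h3 : (((⟨⟨g.1 * g₀.1⁻¹, hg'.1⟩, hg'⟩ : PPs F cb o₁) : lev F cb)) * g₀ = g := by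
      apply Subtype.ext
      show g.1 * g₀.1⁻¹ * g₀.1 = g.1
      rw [inv_mul_cancel_right]
    rw [h3, h, map_zero] at h2
    exact h2

end

/-- two linear maps glued -/
theorem CTwo_ext {X : Type} [AddCommGroup X] [Module ℂ X] (Y K : Submodule ℂ X)
    (L : Y →ₗ[ℂ] E) (h : ∀ y : Y, y.1 ∈ K → L y = 0) :
    ∃ Λ : X →ₗ[ℂ] E, (∀ y : Y, Λ y.1 = L y) ∧ ∀ k ∈ K, Λ k = 0 := by
  obtain ⟨q, hq⟩ : ∃ q : Y →ₗ[ℂ] X ⧸ K, q = K.mkQ ∘ₗ Y.subtype := ⟨_, rfl⟩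
  have hk : LinearMap.ker q ≤ LinearMap.ker L := by
    intro y hy
    rw [LinearMap.mem_ker] at hy ⊢
    apply h
    rw [hq] at hy
    exact (Submodule.Quotient.mk_eq_zero K).1 hy
  obtain ⟨G, hG⟩ := LinearMap.exists_extend
    (((LinearMap.ker q).liftQ L hk) ∘ₗ (q.quotKerEquivRange.symm : LinearMap.range q →ₗ[ℂ] _))
  refine ⟨G ∘ₗ K.mkQ, fun y => ?_, fun k hk' => ?_⟩
  · have h1 := LinearMap.congr_fun hG ⟨q y, y, rfl⟩
    have h2 : q.quotKerEquivRange.symm ⟨q y, y, rfl⟩ = Submodule.Quotient.mk y :=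
      LinearMap.quotKerEquivRange_symm_apply_image q y _
    have h3 : (G ∘ₗ K.mkQ) y.1 = G (q y) := by rw [hq]; rfl
    rw [h3]
    have h4 : G (q y) = ((LinearMap.ker q).liftQ L hk) (q.quotKerEquivRange.symm ⟨q y, y, rfl⟩) :=
      h1
    rw [h4, h2]
    rfl
  · show G (K.mkQ k) = 0
    rw [Submodule.mkQ_apply, (Submodule.Quotient.mk_eq_zero K).2 hk', map_zero]

theorem lam_kerJ {ι₁ ι₂ : Type} (cb : κ → ι₀) (c₁ : κ → ι₁) (o₁ : κ → ℤ)
    (h₁ : ∀ i j, c₁ i = c₁ j ↔ cb i = cb j ∧ o₁ i = o₁ j) (c₂ : κ → ι₂) (o₂ : κ → ℤ)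
    (h₂ : ∀ i j, c₂ i = c₂ j ↔ cb i = cb j ∧ o₂ i = o₂ j) (w : Equiv.Perm κ)
    (Ω' Ω : Set (lev F cb)) (hs : CStep cb o₁ o₂ w Ω' Ω)
    (σ : Representation ℂ (lev F c₁) E) (hσ : IsSm σ)
    (hl : ∀ i j, c₁ (w i) = c₁ (w j) → c₂ i = c₂ j) (f : (parD c₁ cb o₁ h₁).IndSp σ)
    (hf : f ∈ IndOn (parD c₁ cb o₁ h₁) σ Ω)
    (hk : f ∈ (parD c₂ cb o₂ h₂).kerJ ((parD c₁ cb o₁ h₁).Ind σ))
    (m : lev F cb) (hm : m.1 ∈ lev F c₂) :
    (glCD (F := F) cb o₁ c₂ o₂ h₂ w hs.hw).Lam f.1 m = 0 := by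
  obtain ⟨Λ, hΛ, hΛ'⟩ := lam_lin cb c₁ o₁ h₁ c₂ o₂ h₂ w Ω' Ω hs σ hσ hl m hm
  obtain ⟨L, hL⟩ := LinearMap.exists_extend Λ
  have hL' : ∀ x : IndOn (parD c₁ cb o₁ h₁) σ Ω, L x.1 = Λ x := fun x =>
    LinearMap.congr_fun hL x
  obtain ⟨K, hK, hKc, h0⟩ :=
    (PD.mem_kerJ_iff (parD c₂ cb o₂ h₂) _ (PD.ind_smooth _ σ) f).1 hk
  have hKc' : IsCompact ((K.subgroupOf (lev F cb) : Subgroup (lev F cb)) : Set (lev F cb)) :=
    CGLb_compact K (hK.trans (uni_le cb o₂)) hKc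
  have h1 := avg_mean_map ((parD c₁ cb o₁ h₁).Ind σ) (PD.ind_smooth _ σ)
    (K.subgroupOf (lev F cb)) hKc' f L
  rw [h0, map_zero] at h1
  have h2 : ∀ k ∈ K.subgroupOf (lev F cb), L ((parD c₁ cb o₁ h₁).Ind σ k f) =
      (glCD (F := F) cb o₁ c₂ o₂ h₂ w hs.hw).Lam f.1 m := by
    intro k hk'
    have hku : k.1 ∈ uni F cb o₂ := hK hk'
    have h3 := CTwo_ind_mem cb c₁ o₁ h₁ o₂ σ w Ω' Ω hs k hku.1 f hf
    rw [hL' ⟨_, h3⟩, hΛ]
    exact hΛ' k hku ⟨f, hf⟩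
  rw [mean_congr _ _ (fun _ => (glCD (F := F) cb o₁ c₂ o₂ h₂ w hs.hw).Lam f.1 m) h2,
    mean_const] at h1
  exact h1.symm

theorem CTwo_main {ι₁ ι₂ : Type} (cb : κ → ι₀) (c₁ : κ → ι₁) (o₁ : κ → ℤ)
    (h₁ : ∀ i j, c₁ i = c₁ j ↔ cb i = cb j ∧ o₁ i = o₁ j) (c₂ : κ → ι₂) (o₂ : κ → ℤ)
    (h₂ : ∀ i j, c₂ i = c₂ j ↔ cb i = cb j ∧ o₂ i = o₂ j)
    (σ : Representation ℂ (lev F c₁) E) (hσ : IsSm σ) (hc : Cusp c₁ σ) (w : Equiv.Perm κ)
    (hw : ∀ i, cb (w i) = cb i) (hl : ∀ i j, c₁ (w i) = c₁ (w j) ↔ c₂ i = c₂ j)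
    (C : Set (lev F cb)) (hC : IsClosed C) (hC' : CTwo_Stab cb o₁ o₂ C)
    (hCw : ∀ g ∈ gcell (F := F) cb o₁ o₂ w, g ∉ C)
    (hd : ∀ v : Equiv.Perm κ, (∀ i, cb (v i) = cb i) →
      (∀ i j, c₁ (v i) = c₁ (v j) → c₂ i = c₂ j) →
      gcell (F := F) cb o₁ o₂ v = gcell (F := F) cb o₁ o₂ w ∨
        ∀ g ∈ gcell (F := F) cb o₁ o₂ v, g ∈ C) :
    ∃ Λ : (parD c₁ cb o₁ h₁).IndSp σ →ₗ[ℂ] E,
      (∀ e : E, ∃ f ∈ IndOn (parD c₁ cb o₁ h₁) σ Cᶜ, Λ f = e) ∧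
      (∀ f ∈ IndOn (parD c₁ cb o₁ h₁) σ Cᶜ,
        (Λ f = 0 ↔ f ∈ (parD c₂ cb o₂ h₂).kerJ ((parD c₁ cb o₁ h₁).Ind σ))) ∧
      (∀ f ∈ IndOn (parD c₁ cb o₁ h₁) σ Cᶜ, ∀ (m : lev F cb) (hm : m.1 ∈ lev F c₂),
        Λ ((parD c₁ cb o₁ h₁).Ind σ m f) = cfac cb o₁ c₂ o₂ h₂ w hw m •
          σ ⟨permG F w * m.1 * (permG F w)⁻¹, permG_conj_mem c₁ c₂ w hl m.1 hm⟩ (Λ f)) ∧
      ∀ f ∈ IndOn (parD c₁ cb o₁ h₁) σ (gcell (F := F) cb o₁ o₂ w),
        Λ f = (glCD (F := F) cb o₁ c₂ o₂ h₂ w hw).Lam f.1 1 := by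
  obtain ⟨r, v, hv, hex, -, hU⟩ := cell_order (F := F) cb o₁ o₂
  obtain ⟨k₀, hk₀⟩ := (hex ⟨permG F w, permG_mem_lev' cb w hw⟩).exists
  have hcell : gcell (F := F) cb o₁ o₂ (v k₀) = gcell (F := F) cb o₁ o₂ w :=
    COrd_disj cb o₁ o₂ (v k₀) w (hv k₀) hw _ hk₀ (CTwo_one_mem cb o₁ o₂ w hw)
  obtain ⟨B, hB⟩ : ∃ B : ℕ → Set (lev F cb), ∀ k g, g ∈ B k ↔
      (∃ i : Fin r, i.1 < k ∧ g ∈ gcell (F := F) cb o₁ o₂ (v i)) ∧ g ∉ C :=
    ⟨fun k => {g | (∃ i : Fin r, i.1 < k ∧ g ∈ gcell (F := F) cb o₁ o₂ (v i)) ∧ g ∉ C},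
      fun _ _ => Iff.rfl⟩
  have hBo : ∀ k, IsOpen (B k) := by
    intro k
    have h1 : B k = {g : lev F cb | ∃ i : Fin r, i.1 < k ∧
        g ∈ gcell (F := F) cb o₁ o₂ (v i)} ∩ Cᶜ := by
      ext g
      rw [hB]
      rfl
    rw [h1]
    exact (hU k).inter hC.isOpen_compl
  have hBs : ∀ k, CTwo_Stab cb o₁ o₂ (B k) := by
    intro k
    constructor
    · intro g p hp hg
      rw [hB] at hg ⊢
      obtain ⟨⟨i, hi, h⟩, h2⟩ := hg
      exact ⟨⟨i, hi, (CTwo_gcell cb o₁ o₂ (v i)).left g p hp h⟩, (CTwo_compl hC').left g p hp h2⟩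
    · intro g q hq hg
      rw [hB] at hg ⊢
      obtain ⟨⟨i, hi, h⟩, h2⟩ := hg
      exact ⟨⟨i, hi, (CTwo_gcell cb o₁ o₂ (v i)).right g q hq h⟩,
        (CTwo_compl hC').right g q hq h2⟩
  have hdisj : ∀ g ∈ gcell (F := F) cb o₁ o₂ w, g ∉ B k₀.1 := by
    intro g hg hg'
    rw [hB] at hg'
    obtain ⟨⟨i, hi, h⟩, -⟩ := hg'
    have h3 := (hex g).unique h (hcell.symm ▸ hg)
    rw [h3] at hi
    exact lt_irrefl _ hi
  have hs : CStep cb o₁ o₂ w (B k₀.1) (B (k₀.1 + 1)) := by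
    refine ⟨hw, hBo _, hBo _, (hBs _).left, (hBs _).right, fun g => ?_, hdisj⟩
    rw [hB, hB]
    constructor
    · rintro ⟨⟨i, hi, h⟩, h2⟩
      rcases Nat.lt_succ_iff_lt_or_eq.1 hi with h' | h'
      · exact Or.inl ⟨⟨i, h', h⟩, h2⟩
      · have hik : i = k₀ := Fin.ext h'
        right
        rw [← hcell, ← hik]
        exact h
    · rintro (⟨⟨i, hi, h⟩, h2⟩ | h)
      · exact ⟨⟨i, Nat.lt_succ_of_lt hi, h⟩, h2⟩
      · exact ⟨⟨k₀, Nat.lt_succ_self _, hcell.symm ▸ h⟩, hCw g h⟩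
  have hwΩ : ∀ g ∈ gcell (F := F) cb o₁ o₂ w, g ∈ B (k₀.1 + 1) := fun g hg =>
    (hs.union g).2 (Or.inr hg)
  have hΩC : B (k₀.1 + 1) ⊆ Cᶜ := fun g hg => ((hB _ g).1 hg).2
  -- everything after the cell of `w` is dead
  have ch1 : ∀ f ∈ IndOn (parD c₁ cb o₁ h₁) σ Cᶜ,
      ∃ f' ∈ IndOn (parD c₁ cb o₁ h₁) σ (B (k₀.1 + 1)), f - f' ∈
      (parD c₂ cb o₂ h₂).kerJ ((parD c₁ cb o₁ h₁).Ind σ) := by
    intro f hf
    refine CTwo_chain cb c₁ o₁ h₁ c₂ o₂ h₂ σ (B (k₀.1 + 1)) C (hBo _) hC (hBs _) hC' hσ hc ?_ f hf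
    intro u hu hlu g hg
    rcases hd u hu hlu with h | h
    · exact Or.inl (hwΩ g (h ▸ hg))
    · exact Or.inr (h g hg)
  -- everything before the cell of `w` is dead
  have ch2 : ∀ f ∈ IndOn (parD c₁ cb o₁ h₁) σ (B k₀.1),
      f ∈ (parD c₂ cb o₂ h₂).kerJ ((parD c₁ cb o₁ h₁).Ind σ) := by
    intro f hf
    obtain ⟨f', hf', hff⟩ := CTwo_chain cb c₁ o₁ h₁ c₂ o₂ h₂ σ ∅ (B k₀.1)ᶜ isOpen_empty
      (hBo _).isClosed_compl ⟨fun _ _ _ h => h.elim, fun _ _ _ h => h.elim⟩ (CTwo_compl (hBs _))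
      hσ hc (by
        intro u hu hlu g hg
        right
        rcases hd u hu hlu with h | h
        · exact hdisj g (h ▸ hg)
        · exact fun h' => ((hB _ g).1 h').2 (h g hg)) f (by rw [compl_compl]; exact hf)
    have h0 : f' = 0 := Subtype.ext (funext fun g => hf' g (fun h => h.elim))
    rw [h0, sub_zero] at hff
    exact hff
  obtain ⟨L, hL, -⟩ := lam_lin cb c₁ o₁ h₁ c₂ o₂ h₂ w (B k₀.1) (B (k₀.1 + 1)) hs σ hσ
    (fun i j => (hl i j).1) 1 (lev F c₂).one_mem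
  obtain ⟨Λ, hΛ, hΛ0⟩ := CTwo_ext (IndOn (parD c₁ cb o₁ h₁) σ (B (k₀.1 + 1)))
    ((parD c₂ cb o₂ h₂).kerJ ((parD c₁ cb o₁ h₁).Ind σ)) L (by
      intro y hy
      rw [hL]
      exact lam_kerJ cb c₁ o₁ h₁ c₂ o₂ h₂ w (B k₀.1) (B (k₀.1 + 1)) hs σ hσ
        (fun i j => (hl i j).1) y.1 y.2 hy 1 (lev F c₂).one_mem)
  have hΛ1 : ∀ f ∈ IndOn (parD c₁ cb o₁ h₁) σ (B (k₀.1 + 1)),
      Λ f = (glCD (F := F) cb o₁ c₂ o₂ h₂ w hw).Lam f.1 1 := by
    intro f hf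
    rw [hΛ ⟨f, hf⟩, hL]
  -- the kernel on the functions supported on `Ω`
  have hker : ∀ f ∈ IndOn (parD c₁ cb o₁ h₁) σ (B (k₀.1 + 1)), Λ f = 0 →
      f ∈ (parD c₂ cb o₂ h₂).kerJ ((parD c₁ cb o₁ h₁).Ind σ) := by
    intro f hf h0
    rw [hΛ1 f hf] at h0
    have hall : ∀ m : lev F cb, m.1 ∈ lev F c₂ →
        (glCD (F := F) cb o₁ c₂ o₂ h₂ w hs.hw).Lam f.1 m = 0 := by
      intro m hm
      have h1 := (lam_equi cb c₁ o₁ h₁ c₂ o₂ h₂ w (B k₀.1) (B (k₀.1 + 1)) hs σ hσ hl f hf m hm).2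
      rw [h0, map_zero, smul_zero] at h1
      have h2 := lam_right (glCD (F := F) cb o₁ c₂ o₂ h₂ w hs.hw) f.1 1 m
      rw [one_mul] at h2
      rw [← h2]
      exact h1
    obtain ⟨K, hK, hKc, h3⟩ := gl_step_live cb c₁ o₁ h₁ c₂ o₂ h₂ w (B k₀.1) (B (k₀.1 + 1)) hs σ
      hσ (fun i j => (hl i j).1) f hf hall
    have h4 := ch2 _ (h3 K le_rfl hK hKc)
    have h5 := CTwo_avg cb c₁ o₁ h₁ c₂ o₂ h₂ σ K hK hKc f
    have h6 := Submodule.add_mem _ h5 h4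
    rwa [sub_add_cancel] at h6
  refine ⟨Λ, fun e => ?_, fun f hf => ?_, fun f hf m hm => ?_, fun f hf => ?_⟩
  · obtain ⟨f, hf, he⟩ := gl_surj cb c₁ o₁ h₁ c₂ o₂ h₂ w (B k₀.1) (B (k₀.1 + 1)) hs σ hσ
      (fun i j => (hl i j).1) e
    exact ⟨f, CTwo_mono hΩC hf, by rw [hΛ1 f hf]; exact he⟩
  · constructor
    · intro h0
      obtain ⟨f', hf', hff⟩ := ch1 f hf
      have h1 := hΛ0 _ hff
      rw [map_sub, h0, zero_sub, neg_eq_zero] at h1
      have h2 := Submodule.add_mem _ hff (hker f' hf' h1)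
      rwa [sub_add_cancel] at h2
    · exact hΛ0 f
  · obtain ⟨f', hf', hff⟩ := ch1 f hf
    have h1 := hΛ0 _ hff
    rw [map_sub, sub_eq_zero] at h1
    have hml : m.1 ∈ lev F c₂ := hm
    have h2 := (parD c₂ cb o₂ h₂).kerJ_stab ((parD c₁ cb o₁ h₁).Ind σ) ⟨m.1, hml⟩ _ hff
    have h3 : (parD c₁ cb o₁ h₁).Ind σ m (f - f') ∈
        (parD c₂ cb o₂ h₂).kerJ ((parD c₁ cb o₁ h₁).Ind σ) := h2
    have h4 := hΛ0 _ h3
    rw [map_sub, map_sub, sub_eq_zero] at h4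
    obtain ⟨h5, h6⟩ := lam_equi cb c₁ o₁ h₁ c₂ o₂ h₂ w (B k₀.1) (B (k₀.1 + 1)) hs σ hσ hl f' hf'
      m hm
    rw [h4, hΛ1 _ h5, h6, h1, hΛ1 f' hf']
  · exact hΛ1 f (CTwo_mono hwΩ hf)

/-! ### the live cells -/

theorem CTwo_permG_one : permG F (1 : Equiv.Perm κ) = 1 := by
  have h := CRank_permG_mul (F := F) (1 : Equiv.Perm κ) 1
  rw [one_mul] at h
  exact (mul_eq_left (a := permG F (1 : Equiv.Perm κ))).1 h.symm

/-- the cells of two permutations which differ by an element preserving `c` -/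
theorem CTwo_cell_eq (cb : κ → ι₀) (c : κ → ι) (o o' : κ → ℤ)
    (h' : ∀ i j, c i = c j ↔ cb i = cb j ∧ o' i = o' j) (u v : Equiv.Perm κ)
    (huv : ∀ i, c (v⁻¹ (u i)) = c i) :
    gcell (F := F) cb o o' u = gcell (F := F) cb o o' v := by
  have hq : permG F (v⁻¹ * u) ∈ upp F cb o' :=
    parD_lev_le_upp c cb o' h' (permG_mem_lev' c (v⁻¹ * u) huv)
  have hu : permG F u = permG F v * permG F (v⁻¹ * u) := by
    rw [← CRank_permG_mul]
    congr 1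
    group
  refine Set.Subset.antisymm ?_ ?_
  · exact COrd_sub cb o o' v u ⟨1, (upp F cb o).one_mem, _, hq, by rw [one_mul]; exact hu⟩
  · refine COrd_sub cb o o' u v ⟨1, (upp F cb o).one_mem, _, (upp F cb o').inv_mem hq, ?_⟩
    rw [one_mul, hu, mul_inv_cancel_right]

theorem CTwo_live (cb : κ → ι₀) (c : κ → ι) (x₀ : ι₀) (hT : TwoB cb c x₀) (o o' : κ → ℤ)
    (h : ∀ i j, c i = c j ↔ cb i = cb j ∧ o i = o j)
    (h' : ∀ i j, c i = c j ↔ cb i = cb j ∧ o' i = o' j) (v : Equiv.Perm κ)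
    (hv : ∀ i, cb (v i) = cb i) (hl : ∀ i j, c (v i) = c (v j) → c i = c j) :
    gcell (F := F) cb o o' v = gcell (F := F) cb o o' 1 ∨ (IsSwap cb c v ∧
      ∀ s, IsSwap cb c s → gcell (F := F) cb o o' v = gcell (F := F) cb o o' s) := by
  have hcc : ∀ i j, c i = c j → cb i = cb j := fun i j hij => ((h i j).1 hij).1
  rcases live_class cb c x₀ hcc hT v hv hl with h1 | h1
  · left
    refine CTwo_cell_eq cb c o o' h' v 1 fun i => ?_
    rw [inv_one]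
    exact h1 i
  · exact Or.inr ⟨h1, fun s hs => CTwo_cell_eq cb c o o' h' v s fun i =>
      swap_unique cb c x₀ hcc hT s v hs h1 i⟩

/-- a swap is not in the parabolic -/
theorem CTwo_not_mem (cb : κ → ι₀) (c : κ → ι) (o : κ → ℤ)
    (h : ∀ i j, c i = c j ↔ cb i = cb j ∧ o i = o j) (s : Equiv.Perm κ) (hs : IsSwap cb c s) :
    permG F s ∉ upp F cb o := by
  intro hmem
  have h1 : ∀ i, o (s i) ≤ o i := by
    intro i
    by_contra hcon
    have h2 := hmem.2 (s i) i (not_le.1 hcon)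
    have h3 : (permG F s : Matrix κ κ F) (s i) i = 1 := by
      show (if s i = s i then (1 : F) else 0) = 1
      rw [if_pos rfl]
    rw [h3] at h2
    exact one_ne_zero h2
  have h2 : ∑ i, o (s i) = ∑ i, o i := Equiv.sum_comp s o
  have h3 : ∀ i, o (s i) = o i := fun i =>
    (Finset.sum_eq_sum_iff_of_le (fun i _ => h1 i)).1 h2 i (Finset.mem_univ i)
  obtain ⟨l, hl⟩ := hs.ne
  exact hl ((h (s l) l).2 ⟨hs.hcb l, h3 l⟩)

/-- a swap reverses the order -/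
theorem CTwo_rev (cb : κ → ι₀) (c : κ → ι) (x₀ : ι₀) (hT : TwoB cb c x₀) (o : κ → ℤ)
    (h : ∀ i j, c i = c j ↔ cb i = cb j ∧ o i = o j) (s : Equiv.Perm κ) (hs : IsSwap cb c s)
    (i j : κ) (hij : cb i = cb j) : (o (s i) < o (s j) ↔ o j < o i) ∧
      (o (s i) = o (s j) ↔ o i = o j) := by
  have hcb : cb (s i) = cb (s j) := by rw [hs.hcb, hs.hcb, hij]
  by_cases hc : c i = c j
  · have e1 := ((h i j).1 hc).2
    have e2 := ((h (s i) (s j)).1 ((hs.hc i j).2 hc)).2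
    rw [e1, e2]
    exact ⟨⟨fun h => absurd h (lt_irrefl _), fun h => absurd h (lt_irrefl _)⟩,
      ⟨fun _ => rfl, fun _ => rfl⟩⟩
  · have e1 := ((h (s i) j).1 (CTwo_swap cb c x₀ hT s hs i j hij hc)).2
    have e2 := ((h (s j) i).1 (CTwo_swap cb c x₀ hT s hs j i hij.symm (fun h => hc h.symm))).2
    rw [e1, e2]
    exact ⟨Iff.rfl, eq_comm⟩

theorem CTwo_conj_upp (cb : κ → ι₀) (c : κ → ι) (x₀ : ι₀) (hT : TwoB cb c x₀) (o : κ → ℤ)
    (h : ∀ i j, c i = c j ↔ cb i = cb j ∧ o i = o j) (s : Equiv.Perm κ) (hs : IsSwap cb c s)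
    (q : GL κ F) (hq : q ∈ upp F cb (fun i => - o i)) :
    permG F s * q * (permG F s)⁻¹ ∈ upp F cb o := by
  rw [CCell_conj cb o s hs.hcb q hq.1]
  refine ⟨hq.1, fun i j hij => ?_⟩
  by_cases hcb : cb i = cb j
  · have h1 := (CTwo_rev cb c x₀ hT o h s hs j i hcb.symm).1.1 hij
    exact hq.2 i j (by show - o j < - o i; omega)
  · exact hq.1 i j hcb

theorem CTwo_conj_uni (cb : κ → ι₀) (c : κ → ι) (x₀ : ι₀) (hT : TwoB cb c x₀) (o : κ → ℤ)
    (h : ∀ i j, c i = c j ↔ cb i = cb j ∧ o i = o j) (s : Equiv.Perm κ) (hs : IsSwap cb c s)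
    (q : GL κ F) (hq : q ∈ uni F cb (fun i => - o i)) :
    permG F s * q * (permG F s)⁻¹ ∈ uni F cb o := by
  refine ⟨CTwo_conj_upp cb c x₀ hT o h s hs q hq.1, fun i j hij => ?_⟩
  obtain ⟨i, rfl⟩ := s.surjective i
  obtain ⟨j, rfl⟩ := s.surjective j
  rw [permG_conj]
  have e1 : (1 : Matrix κ κ F) (s i) (s j) = (1 : Matrix κ κ F) i j := by
    rw [Matrix.one_apply, Matrix.one_apply]
    simp only [EmbeddingLike.apply_eq_iff_eq]
  rw [e1]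
  by_cases hcb : cb i = cb j
  · have h1 := (CTwo_rev cb c x₀ hT o h s hs i j hcb).2.1 hij
    exact hq.2 i j (by show - o i = - o j; omega)
  · rw [hq.1.1 i j hcb, Matrix.one_apply_ne]
    rintro rfl
    exact hcb rfl

section

variable (cb : κ → ι₀) (c : κ → ι) (x₀ : ι₀) (hT : TwoB cb c x₀) (o : κ → ℤ)
  (h : ∀ i j, c i = c j ↔ cb i = cb j ∧ o i = o j)
  (h' : ∀ i j, c i = c j ↔ cb i = cb j ∧ - o i = - o j)
  (σ : Representation ℂ (lev F c) E) (hσ : IsSm σ) (hc : Cusp c σ)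

include hσ in
/-- evaluation at `1` is onto -/
theorem eval_surj (e : E) : ∃ f : (parD (F := F) c cb o h).IndSp σ, f.1 1 = e := by
  have : T2Space (lev F cb) := lev_t2 cb
  have : LocallyCompactSpace (lev F cb) := lev_locallyCompact cb
  have : SigmaCompactSpace (lev F cb) := lev_sigma cb
  have hcj : ∀ x : lev F cb, x ∈ cjS (1 : lev F cb) (PPs F cb o) ↔ x.1 ∈ upp F cb o := by
    intro x
    rw [mem_cjS, one_mul, inv_one, mul_one]
    rfl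
  obtain ⟨T, hT1, hTc, hTo⟩ : ∃ T : Subgroup (lev F cb),
      T ≤ (uni F cb (fun i => - o i)).subgroupOf (lev F cb) ∧ IsCompact (T : Set (lev F cb)) ∧
      (T : Set (lev F cb)) = ((uni F cb (fun i => - o i)).subgroupOf (lev F cb) :
        Set (lev F cb)) ∩ (Subtype.val ⁻¹' (Kc F κ 0 : Set (GL κ F))) := by
    refine ⟨(uni F cb (fun i => - o i) ⊓ Kc F κ 0).subgroupOf (lev F cb),
      fun x hx => hx.1, ?_, rfl⟩
    exact CGLb_compact _ (inf_le_left.trans (uni_le cb _))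
      ((Kc_isCompact 0).inter_left (uni_isClosed cb _))
  have hN1 : ∀ x ∈ (uni F cb (fun i => - o i)).subgroupOf (lev F cb),
      (1 : lev F cb) * x * (1 : lev F cb)⁻¹ ∈ PPs F cb o → x = 1 := by
    intro x hx h1
    rw [one_mul, inv_one, mul_one] at h1
    exact Subtype.ext (big_disj cb o x.1 h1 hx)
  have hIS := CSurj_IS (PPs F cb o) ((upp_isClosed cb o).preimage continuous_subtype_val)
    (1 : lev F cb) T ((uni F cb (fun i => - o i)).subgroupOf (lev F cb))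
    ((uni_isClosed cb _).preimage continuous_subtype_val) hT1 hTc
    (Subtype.val ⁻¹' (Kc F κ 0 : Set (GL κ F)))
    ((Kc_isOpen 0).preimage continuous_subtype_val) hTo hN1 (by
      have h1 : {g : lev F cb | ∃ p ∈ cjS (1 : lev F cb) (PPs F cb o),
          ∃ n ∈ (uni F cb (fun i => - o i)).subgroupOf (lev F cb), g = p * n} =
        {g : lev F cb | ∃ p ∈ upp F cb o, ∃ n ∈ uni F cb (fun i => - o i), g.1 = p * n} := by
        ext g
        constructor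
        · rintro ⟨p, hp, n, hn, rfl⟩
          exact ⟨p.1, (hcj p).1 hp, n.1, hn, rfl⟩
        · rintro ⟨p, hp, n, hn, h⟩
          exact ⟨⟨p, hp.1⟩, (hcj ⟨p, hp.1⟩).2 hp, ⟨n, hn.1.1⟩, hn, Subtype.ext h⟩
      rw [h1]
      exact big_open cb o) (aP c cb o h σ) (aP_smooth c cb o h σ hσ) e
  refine ⟨⟨_, (mem_IndSp_iff c cb o h σ _).2 hIS⟩, ?_⟩
  have h2 := CSurj_f_mem (PPs F cb o) (1 : lev F cb) T _ hT1 hN1 (aP c cb o h σ) e 1 1
    T.one_mem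
  rw [map_one, OneMemClass.coe_one, one_mul, one_mul] at h2
  exact h2

/-- the parabolic is stable -/
theorem CTwo_P : CTwo_Stab cb o o {g : lev F cb | g.1 * (1 : lev F cb).1⁻¹ ∈ upp F cb o} :=
  CTwo_coset cb o o 1 fun q hq => by
    show (1 : GL κ F) * q * 1⁻¹ ∈ upp F cb o
    rw [one_mul, inv_one, mul_one]
    exact hq

theorem CTwo_cell_one : ∀ g ∈ gcell (F := F) cb o o 1,
    g ∈ {g : lev F cb | g.1 * (1 : lev F cb).1⁻¹ ∈ upp F cb o} := by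
  rintro g ⟨p, hp, q, hq, e⟩
  show g.1 * (1 : GL κ F)⁻¹ ∈ upp F cb o
  rw [e, CTwo_permG_one, inv_one, mul_one, mul_one]
  exact (upp F cb o).mul_mem hp hq

theorem CTwo_ev (f : (parD c cb o h).IndSp σ)
    (hf : f ∈ (parD c cb o h).kerJ ((parD c cb o h).Ind σ)) : f.1 1 = 0 := by
  refine CTwo_ker cb c o h c o h σ 1 (fun n hn => ?_) f hf
  show (1 : GL κ F) * n * 1⁻¹ ∈ uni F cb o
  rw [one_mul, inv_one, mul_one]
  exact hn

include hT hσ hc in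
/-- same parabolic, no swap: `J_P (Ind σ) = σ` by evaluation at `1` -/
theorem two_same (hno : ∀ s : Equiv.Perm κ, ¬ IsSwap cb c s)
    (f : (parD c cb o h).IndSp σ) :
    f ∈ (parD c cb o h).kerJ ((parD c cb o h).Ind σ) ↔ f.1 1 = 0 := by
  refine ⟨CTwo_ev cb c o h σ f, fun h0 => ?_⟩
  obtain ⟨f', hf', hff⟩ := CTwo_chain cb c o h c o h σ ∅
    {g : lev F cb | g.1 * (1 : lev F cb).1⁻¹ ∈ upp F cb o} isOpen_empty (CTwo_closed cb o 1)
    ⟨fun _ _ _ h => h.elim, fun _ _ _ h => h.elim⟩ (CTwo_P cb o) hσ hc (by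
      intro v hv hl g hg
      right
      rcases CTwo_live (F := F) cb c x₀ hT o o h h v hv hl with h1 | h1
      · exact CTwo_cell_one cb o g (h1 ▸ hg)
      · exact absurd h1.1 (hno v)) f ((CTwo_vanish cb c o h σ 1 f).2 h0)
  have h1 : f' = 0 := Subtype.ext (funext fun g => hf' g (fun h => h.elim))
  rw [h1, sub_zero] at hff
  exact hff

include hT hσ hc in
/-- same parabolic, swap `s`: `0 → σ^s → J_P (Ind σ) → σ → 0` -/
theorem two_same_swap (s : Equiv.Perm κ) (hs : IsSwap cb c s) :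
    (∀ f ∈ (parD c cb o h).kerJ ((parD c cb o h).Ind σ), f.1 1 = 0) ∧
    ∃ Λ : (parD c cb o h).IndSp σ →ₗ[ℂ] E,
      (∀ e : E, ∃ f : (parD c cb o h).IndSp σ, f.1 1 = 0 ∧ Λ f = e) ∧
      (∀ f : (parD c cb o h).IndSp σ, f.1 1 = 0 →
        (Λ f = 0 ↔ f ∈ (parD c cb o h).kerJ ((parD c cb o h).Ind σ))) ∧
      (∀ (f : (parD c cb o h).IndSp σ) (m : lev F cb) (hm : m.1 ∈ lev F c), f.1 1 = 0 →
        Λ ((parD c cb o h).Ind σ m f) = cfac cb o c o h s hs.hcb m •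
          σ ⟨permG F s * m.1 * (permG F s)⁻¹, permG_conj_mem c c s hs.hc m.1 hm⟩ (Λ f)) ∧
      ∀ f ∈ IndOn (parD c cb o h) σ (gcell (F := F) cb o o s),
        Λ f = (glCD (F := F) cb o c o h s hs.hcb).Lam f.1 1 := by
  refine ⟨CTwo_ev cb c o h σ, ?_⟩
  obtain ⟨Λ, h1, h2, h3, h4⟩ := CTwo_main cb c o h c o h σ hσ hc s hs.hcb hs.hc
    {g : lev F cb | g.1 * (1 : lev F cb).1⁻¹ ∈ upp F cb o} (CTwo_closed cb o 1) (CTwo_P cb o)
    (by
      intro g hg hg'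
      have h5 := CTwo_cell_sub (CTwo_P cb o) s g _ hg (CTwo_one_mem cb o o s hs.hcb) hg'
      have h6 : permG F s * (1 : GL κ F)⁻¹ ∈ upp F cb o := h5
      rw [inv_one, mul_one] at h6
      exact CTwo_not_mem cb c o h s hs h6)
    (by
      intro v hv hl
      rcases CTwo_live (F := F) cb c x₀ hT o o h h v hv hl with h5 | h5
      · exact Or.inr fun g hg => CTwo_cell_one cb o g (h5 ▸ hg)
      · exact Or.inl (h5.2 s hs))
  refine ⟨Λ, fun e => ?_, fun f hf => ?_, fun f m hm hf => ?_, h4⟩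
  · obtain ⟨f, hf, he⟩ := h1 e
    exact ⟨f, (CTwo_vanish cb c o h σ 1 f).1 hf, he⟩
  · exact h2 f ((CTwo_vanish cb c o h σ 1 f).2 hf)
  · exact h3 f ((CTwo_vanish cb c o h σ 1 f).2 hf) m hm

theorem CTwo_conj_one (m : lev F cb) (hm : m.1 ∈ lev F c)
    (hl : ∀ i j, c ((1 : Equiv.Perm κ) i) = c ((1 : Equiv.Perm κ) j) ↔ c i = c j) :
    (⟨permG F (1 : Equiv.Perm κ) * m.1 * (permG F (1 : Equiv.Perm κ))⁻¹,
      permG_conj_mem c c 1 hl m.1 hm⟩ : lev F c) = ⟨m.1, hm⟩ := by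
  apply Subtype.ext
  show permG F (1 : Equiv.Perm κ) * m.1 * (permG F (1 : Equiv.Perm κ))⁻¹ = m.1
  rw [CTwo_permG_one, one_mul, inv_one, mul_one]

include hT hσ hc in
/-- opposite parabolic, no swap: `J_{P⁻} (Ind σ) = σ` by the open cell integral -/
theorem two_opp (hno : ∀ s : Equiv.Perm κ, ¬ IsSwap cb c s) :
    ∃ Λ : (parD c cb o h).IndSp σ →ₗ[ℂ] E, Function.Surjective Λ ∧
      (∀ f, Λ f = 0 ↔ f ∈ (parD c cb (fun i => - o i) h').kerJ ((parD c cb o h).Ind σ)) ∧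
      (∀ f (m : lev F cb) (hm : m.1 ∈ lev F c),
        Λ ((parD c cb o h).Ind σ m f) =
          cfac cb o c (fun i => - o i) h' 1 (fun _ => rfl) m • σ ⟨m.1, hm⟩ (Λ f)) ∧
      ∀ f ∈ IndOn (parD c cb o h) σ (gcell (F := F) cb o (fun i => - o i) 1),
        Λ f = (glCD (F := F) cb o c (fun i => - o i) h' 1 (fun _ => rfl)).Lam f.1 1 := by
  obtain ⟨Λ, h1, h2, h3, h4⟩ := CTwo_main cb c o h c (fun i => - o i) h' σ hσ hc 1
    (fun _ => rfl) (fun _ _ => Iff.rfl) ∅ isClosed_empty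
    ⟨fun _ _ _ h => h.elim, fun _ _ _ h => h.elim⟩ (fun _ _ h => h.elim) (by
      intro v hv hl
      rcases CTwo_live (F := F) cb c x₀ hT o (fun i => - o i) h h' v hv hl with h5 | h5
      · exact Or.inl h5
      · exact absurd h5.1 (hno v))
  have hall : ∀ f : (parD c cb o h).IndSp σ, f ∈ IndOn (parD c cb o h) σ (∅ : Set (lev F cb))ᶜ :=
    fun f g hg => absurd (fun h : g ∈ (∅ : Set (lev F cb)) => h.elim) hg
  refine ⟨Λ, fun e => ?_, fun f => h2 f (hall f), fun f m hm => ?_, h4⟩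
  · obtain ⟨f, -, he⟩ := h1 e
    exact ⟨f, he⟩
  · rw [h3 f (hall f) m hm, CTwo_conj_one cb c m hm (fun _ _ => Iff.rfl)]

include hT hσ hc in
/-- opposite parabolic, swap `s`: `0 → σ → J_{P⁻} (Ind σ) → σ^s → 0`, the second map is the evaluation
at `s` -/
theorem two_opp_swap (s : Equiv.Perm κ) (hs : IsSwap cb c s)
    (hsl : permG F s ∈ lev F cb) :
    (∀ f ∈ (parD c cb (fun i => - o i) h').kerJ ((parD c cb o h).Ind σ),
      f.1 ⟨permG F s, hsl⟩ = 0) ∧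
    ∃ Λ : (parD c cb o h).IndSp σ →ₗ[ℂ] E,
      (∀ e : E, ∃ f : (parD c cb o h).IndSp σ, f.1 ⟨permG F s, hsl⟩ = 0 ∧ Λ f = e) ∧
      (∀ f : (parD c cb o h).IndSp σ, f.1 ⟨permG F s, hsl⟩ = 0 →
        (Λ f = 0 ↔ f ∈ (parD c cb (fun i => - o i) h').kerJ ((parD c cb o h).Ind σ))) ∧
      (∀ (f : (parD c cb o h).IndSp σ) (m : lev F cb) (hm : m.1 ∈ lev F c),
        f.1 ⟨permG F s, hsl⟩ = 0 →
        Λ ((parD c cb o h).Ind σ m f) =
          cfac cb o c (fun i => - o i) h' 1 (fun _ => rfl) m • σ ⟨m.1, hm⟩ (Λ f)) ∧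
      ∀ f ∈ IndOn (parD c cb o h) σ (gcell (F := F) cb o (fun i => - o i) 1),
        Λ f = (glCD (F := F) cb o c (fun i => - o i) h' 1 (fun _ => rfl)).Lam f.1 1 := by
  have hst : CTwo_Stab cb o (fun i => - o i)
      {g : lev F cb | g.1 * (⟨permG F s, hsl⟩ : lev F cb).1⁻¹ ∈ upp F cb o} :=
    CTwo_coset cb o _ ⟨permG F s, hsl⟩ (fun q hq => CTwo_conj_upp cb c x₀ hT o h s hs q hq)
  have hscell : ∀ g ∈ gcell (F := F) cb o (fun i => - o i) s,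
      g ∈ {g : lev F cb | g.1 * (⟨permG F s, hsl⟩ : lev F cb).1⁻¹ ∈ upp F cb o} := by
    intro g hg
    refine CTwo_cell_sub hst s _ g (CTwo_one_mem cb o _ s hs.hcb) hg ?_
    show permG F s * (permG F s)⁻¹ ∈ upp F cb o
    rw [mul_inv_cancel]
    exact (upp F cb o).one_mem
  refine ⟨fun f hf => CTwo_ker cb c o h c (fun i => - o i) h' σ ⟨permG F s, hsl⟩
    (fun n hn => CTwo_conj_uni cb c x₀ hT o h s hs n hn) f hf, ?_⟩
  obtain ⟨Λ, h1, h2, h3, h4⟩ := CTwo_main cb c o h c (fun i => - o i) h' σ hσ hc 1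
    (fun _ => rfl) (fun _ _ => Iff.rfl)
    {g : lev F cb | g.1 * (⟨permG F s, hsl⟩ : lev F cb).1⁻¹ ∈ upp F cb o}
    (CTwo_closed cb o ⟨permG F s, hsl⟩) hst
    (by
      intro g hg hg'
      have h5 := CTwo_cell_sub hst 1 g _ hg (CTwo_one_mem cb o _ 1 (fun _ => rfl)) hg'
      have h6 : permG F (1 : Equiv.Perm κ) * (permG F s)⁻¹ ∈ upp F cb o := h5
      rw [CTwo_permG_one, one_mul] at h6
      have h7 := (upp F cb o).inv_mem h6
      rw [inv_inv] at h7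
      exact CTwo_not_mem cb c o h s hs h7)
    (by
      intro v hv hl
      rcases CTwo_live (F := F) cb c x₀ hT o (fun i => - o i) h h' v hv hl with h5 | h5
      · exact Or.inl h5
      · exact Or.inr fun g hg => hscell g (h5.2 s hs ▸ hg))
  refine ⟨Λ, fun e => ?_, fun f hf => ?_, fun f m hm hf => ?_, h4⟩
  · obtain ⟨f, hf, he⟩ := h1 e
    exact ⟨f, (CTwo_vanish cb c o h σ ⟨permG F s, hsl⟩ f).1 hf, he⟩
  · exact h2 f ((CTwo_vanish cb c o h σ ⟨permG F s, hsl⟩ f).2 hf)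
  · rw [h3 f ((CTwo_vanish cb c o h σ ⟨permG F s, hsl⟩ f).2 hf) m hm, CTwo_conj_one cb c m hm (fun _ _ => Iff.rfl)]

end

end

end Pool.Agent.Lib.MP_ca1492_al.P
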