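import Mathlib
import Pool.Agent.Lib.MP_ca1492_al.P.ModCell

/-!
# MP_ca1492_al, p-adic side, module ModLev: unimodularity of `lev F cb`

* `modLev_dia`: let `W = {w : Perm κ | cb (w i) = cb i}`. `dia (l ∘ w) = (permG w)⁻¹ (dia l) (permG w)`
  (`permG_conj_apply`) and `permG w ∈ lev F cb`, so `mdl` (a homomorphism on `lev F cb` to the positive
  reals, `mdl_mul`, `mdl_inv`, `nrm_self`) has the same value at `dia (l ∘ w)` and `dia l`. The product
  of all `dia (l ∘ w)`, `w ∈ W`, is `dia L`, `L i = ∑ w ∈ W, l (w i)`, which is constant on the classes of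
  `cb` (reindex `w ↦ w * swap i j`), hence central in `lev F cb` (`dia_central`), so `cj (dia L) B = B` for
  `B ≤ lev F cb` and `mdl (dia L) = gi B B = 1` (`mdl_eq`, `co_lev`). So
  `mdl (dia l) ^ card W = 1`, and a positive real with this property is `1`.
* `mdl_lev`: `cartan`, `mdl_mul`, `mdl_compact` for `lev F cb ⊓ Kc F κ 0`.
* `mdl_subgroupOf`: `chi_eq_mdl` for `G` and for `H`, `chi_subgroupOf`; `CO (N.subgroupOf H)
  (A.subgroupOf H)`: `CGLb_compact`.
* `mdl_top_lev`: `Subgroup.subgroupOf_self`.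
-/

set_option autoImplicit false

namespace Pool.Agent.Lib.MP_ca1492_al.P

open Topology Matrix ValuativeRel

noncomputable section

variable {F : Type} [Field F] [ValuativeRel F] [TopologicalSpace F]
  [IsNonarchimedeanLocalField F]
variable {κ : Type} [Fintype κ] [DecidableEq κ]

theorem modLev_nrm {G : Type} [Group G] {N : Subgroup G} {m : G} (hm : m ∈ N) : Nrm N m := by
  intro g
  constructor
  · intro h
    have h1 := N.mul_mem (N.mul_mem (N.inv_mem hm) h) hm
    have h2 : m⁻¹ * (m * g * m⁻¹) * m = g := by group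
    rwa [h2] at h1
  · intro h
    exact N.mul_mem (N.mul_mem hm h) (N.inv_mem hm)

theorem modLev_conj {G : Type} [Group G] [TopologicalSpace G] [IsTopologicalGroup G]
    {N : Subgroup G} {x m : G} (hx : Nrm N x) (hm : Nrm N m) :
    mdl N (x⁻¹ * m * x) = mdl N m := by
  rw [mdl_mul (nrm_mul (nrm_inv hx) hm) hx, mdl_mul (nrm_inv hx) hm, mdl_inv hx]
  have h1 := (mdl_pos hx).ne'
  field_simp

theorem modLev_perm (l : κ → ℤ) (w : Equiv.Perm κ) :
    dia F (fun i => l (w i)) = (permG F w)⁻¹ * dia F l * permG F w := by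
  refine Units.ext (Matrix.ext fun i j => ?_)
  rw [permG_conj_apply, dia_apply, dia_apply]
  simp only [EmbeddingLike.apply_eq_iff_eq]

theorem modLev_zero : dia F (fun _ : κ => (0 : ℤ)) = 1 := by
  refine Units.ext (Matrix.ext fun i j => ?_)
  rw [dia_apply, zpow_zero, Units.val_one, Matrix.one_apply]

theorem modLev_sum {ι : Type} (cb : κ → ι) (l : κ → ℤ) (s : Finset (Equiv.Perm κ))
    (hs : ∀ w ∈ s, ∀ i, cb (w i) = cb i) :
    mdl (lev F cb) (dia F (fun i => ∑ w ∈ s, l (w i))) = mdl (lev F cb) (dia F l) ^ s.card := by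
  classical
  induction s using Finset.induction_on with
  | empty =>
    simp only [Finset.sum_empty, Finset.card_empty, pow_zero]
    rw [modLev_zero, mdl_one]
  | insert w s hw ih =>
    have h1 : (fun i => ∑ w' ∈ insert w s, l (w' i)) =
        fun i => (fun i => l (w i)) i + (fun i => ∑ w' ∈ s, l (w' i)) i := by
      funext i
      rw [Finset.sum_insert hw]
    rw [h1, dia_add, mdl_mul (modLev_nrm (dia_mem_lev cb _)) (modLev_nrm (dia_mem_lev cb _)),
      ih (fun w' h' => hs w' (Finset.mem_insert_of_mem h')), Finset.card_insert_of_notMem hw,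
      pow_succ, mul_comm, modLev_perm,
      modLev_conj (modLev_nrm (permG_mem_lev' cb w (hs w (Finset.mem_insert_self w s))))
        (modLev_nrm (dia_mem_lev cb l))]

theorem modLev_central {ι : Type} (cb : κ → ι) (a : ι → ℤ) :
    mdl (lev F cb) (dia F (fun i => a (cb i))) = 1 := by
  set d := dia F (fun i => a (cb i)) with hd
  have h1 : cj d (lev F cb ⊓ Kc F κ 0) = lev F cb ⊓ Kc F κ 0 := by
    ext g
    rw [mem_cj]
    constructor
    · intro h
      have h2 : d * (d⁻¹ * g * d) = (d⁻¹ * g * d) * d := dia_central cb a _ h.1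
      have h3 : d⁻¹ * g * d = g := by
        have h4 : d * (d⁻¹ * g * d) = g * d := by group
        rw [h4] at h2
        exact (mul_right_cancel h2).symm
      rwa [h3] at h
    · intro h
      have h2 : d * g = g * d := dia_central cb a _ h.1
      have h3 : d⁻¹ * g * d = g := by
        rw [mul_assoc, ← h2]
        group
      rwa [h3]
  rw [mdl_eq (co_lev cb 0) (modLev_nrm (dia_mem_lev cb _)), h1, gi_self]

theorem modLev_dia {ι : Type} (cb : κ → ι) (l : κ → ℤ) : mdl (lev F cb) (dia F l) = 1 := by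
  classical
  set W : Finset (Equiv.Perm κ) := Finset.univ.filter (fun w => ∀ i, cb (w i) = cb i) with hW
  have hmW : ∀ w, w ∈ W ↔ ∀ i, cb (w i) = cb i := fun w => by
    rw [hW, Finset.mem_filter]
    exact ⟨fun h => h.2, fun h => ⟨Finset.mem_univ _, h⟩⟩
  have hf : (fun i => ∑ w ∈ W, l (w i)).FactorsThrough cb := by
    intro i j hij
    refine Finset.sum_equiv (Equiv.mulRight (Equiv.swap i j)) (fun w => ?_) (fun w _ => ?_)
    · have hsw : ∀ x, cb (Equiv.swap i j x) = cb x := by
        intro x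
        by_cases hx : x = i
        · rw [hx, Equiv.swap_apply_left, hij]
        · by_cases hx' : x = j
          · rw [hx', Equiv.swap_apply_right, hij]
          · rw [Equiv.swap_apply_of_ne_of_ne hx hx']
      rw [hmW, hmW, Equiv.coe_mulRight]
      constructor
      · intro h x
        rw [Equiv.Perm.mul_apply, h, hsw]
      · intro h x
        have h1 := h (Equiv.swap i j x)
        rw [Equiv.Perm.mul_apply, Equiv.swap_apply_self, hsw] at h1
        exact h1
    · rw [Equiv.coe_mulRight, Equiv.Perm.mul_apply, Equiv.swap_apply_right]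
  obtain ⟨a, ha⟩ := (Function.factorsThrough_iff _).1 hf
  have h1 := modLev_sum (F := F) cb l W (fun w hw => (hmW w).1 hw)
  have h2 : (fun i => ∑ w ∈ W, l (w i)) = fun i => a (cb i) := ha
  rw [h2, modLev_central] at h1
  have h3 : W.card ≠ 0 := by
    refine Finset.card_ne_zero_of_mem (a := 1) ?_
    rw [hmW]
    intro i
    rfl
  exact (pow_eq_one_iff_of_nonneg
    (mdl_pos (modLev_nrm (dia_mem_lev (F := F) cb l))).le h3).1 h1.symm

/-- `lev F cb` is unimodular -/
theorem mdl_lev {ι : Type} (cb : κ → ι) (m : GL κ F) (hm : m ∈ lev F cb) :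
    mdl (lev F cb) m = 1 := by
  have : T2Space (GL κ F) := gl_t2
  obtain ⟨k₁, h1, k₂, h2, h3, h4, l, rfl⟩ := cartan cb m hm
  have hd : dia F l ∈ lev F cb := dia_mem_lev cb l
  have hk := mdl_compact (N := lev F cb) (lev F cb ⊓ Kc F κ 0) (co_lev cb 0).2.1
    (fun x hx => modLev_nrm hx.1)
  rw [mdl_mul (modLev_nrm ((lev F cb).mul_mem h3 hd)) (modLev_nrm h4),
    mdl_mul (modLev_nrm h3) (modLev_nrm hd), hk k₁ ⟨h3, h1⟩, hk k₂ ⟨h4, h2⟩, modLev_dia,
    one_mul, one_mul]

theorem co_subgroupOf {G : Type} [Group G] [TopologicalSpace G] {H N A : Subgroup G}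
    (hN : N ≤ H) (hA : CO N A) : CO (N.subgroupOf H) (A.subgroupOf H) := by
  obtain ⟨h1, h2, O, hO, h3⟩ := hA
  refine ⟨fun x hx => h1 hx, CGLb_compact A (h1.trans hN) h2, Subtype.val ⁻¹' O,
    hO.preimage continuous_subtype_val, ?_⟩
  ext x
  have h4 : (x : G) ∈ (A : Set G) ↔ (x : G) ∈ (N : Set G) ∩ O := by rw [h3]
  exact h4

theorem nrm_subgroupOf {G : Type} [Group G] {H N : Subgroup G} (m : H)
    (hm : Nrm N (m : G)) : Nrm (N.subgroupOf H) m := by
  intro g
  exact hm g

theorem mdl_subgroupOf {G : Type} [Group G] [TopologicalSpace G] [IsTopologicalGroup G]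
    {H N A : Subgroup G} (hN : N ≤ H) (hA : CO N A) (m : H) (hm : Nrm N (m : G)) :
    mdl (N.subgroupOf H) m = mdl N (m : G) := by
  have e1 := chi_eq_mdl hA hm
  have e2 := chi_eq_mdl (co_subgroupOf hN hA) (nrm_subgroupOf m hm)
  rw [chi_subgroupOf H A (hA.1.trans hN) m, e1] at e2
  exact (Complex.ofReal_injective e2).symm

/-- the group `lev F cb` is unimodular -/
theorem mdl_top_lev {ι : Type} (cb : κ → ι) (m : lev F cb) :
    mdl (⊤ : Subgroup (lev F cb)) m = 1 := by
  rw [← Subgroup.subgroupOf_self (lev F cb),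
    mdl_subgroupOf le_rfl (co_lev cb 0) m (modLev_nrm m.2), mdl_lev cb m.1 m.2]

end

end Pool.Agent.Lib.MP_ca1492_al.P
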