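import Mathlib

/-!
# MP_ca1492_al, p-adic side, module Semi: index of a semidirect product

`A = A₁ A₂`, `B = B₁ B₂` with `A₁ ∩ A₂ = 1`, `A₂` normalizing `A₁`, `B₂` normalizing `B₁`,
`B₁ ≤ A₁`, `B₂ ≤ A₂`. Then `[A : B] = [A₁ : B₁] [A₂ : B₂]`.
Proof: `C = A₁ B₂` is a subgroup, `B ≤ C ≤ A`, `[A : C] = [A₂ : B₂]` (`A = A₂ C`, `C ∩ A₂ = B₂`),
`[C : B] = [A₁ : B₁]` (`C = A₁ B`, `B ∩ A₁ = B₁`). `Subgroup.relIndex_mul_relIndex`. The indices may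
be infinite (`relIndex = 0`), so we use bijections of quotients (`Nat.card_congr`).
-/

set_option autoImplicit false

namespace Pool.Agent.Lib.MP_ca1492_al.P

/-- if `L = K H` then `[L : H] = [K : H ∩ K]` -/
theorem Semi_index {G : Type} [Group G] {H K L : Subgroup G} (hKL : K ≤ L)
    (h : ∀ g ∈ L, ∃ k ∈ K, ∃ x ∈ H, g = k * x) : H.relIndex L = H.relIndex K := by
  let e : K ⧸ H.subgroupOf K ↪ L ⧸ H.subgroupOf L := Subgroup.quotientSubgroupOfEmbeddingOfLE H hKL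
  have hs : Function.Surjective e := by
    intro q
    obtain ⟨g, rfl⟩ := QuotientGroup.mk_surjective q
    obtain ⟨k, hk, x, hx, hg⟩ := h g.1 g.2
    refine ⟨((⟨k, hk⟩ : K) : K ⧸ H.subgroupOf K), ?_⟩
    have h1 : e ((⟨k, hk⟩ : K) : K ⧸ H.subgroupOf K) =
        ((⟨k, hKL hk⟩ : L) : L ⧸ H.subgroupOf L) := rfl
    rw [h1, QuotientGroup.eq, Subgroup.mem_subgroupOf]
    have h2 : (((⟨k, hKL hk⟩ : L)⁻¹ * g : L) : G) = x := by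
      rw [Subgroup.coe_mul, Subgroup.coe_inv, hg, inv_mul_cancel_left]
    rw [h2]
    exact hx
  exact (Nat.card_congr (Equiv.ofBijective e ⟨e.injective, hs⟩)).symm

/-- index of a product of subgroups -/
theorem relIndex_semi {G : Type} [Group G] {N₁ N₂ A A₁ A₂ B B₁ B₂ : Subgroup G}
    (hd : ∀ g, g ∈ N₁ → g ∈ N₂ → g = 1) (hA₁ : A₁ ≤ N₁) (hA₂ : A₂ ≤ N₂) (hB₁ : B₁ ≤ A₁)
    (hB₂ : B₂ ≤ A₂) (hA : ∀ g, g ∈ A ↔ ∃ a ∈ A₁, ∃ b ∈ A₂, g = a * b)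
    (hB : ∀ g, g ∈ B ↔ ∃ a ∈ B₁, ∃ b ∈ B₂, g = a * b)
    (hn : ∀ b ∈ A₂, ∀ a ∈ A₁, b * a * b⁻¹ ∈ A₁) (hn' : ∀ b ∈ B₂, ∀ a ∈ B₁, b * a * b⁻¹ ∈ B₁) :
    B.relIndex A = B₁.relIndex A₁ * B₂.relIndex A₂ := by
  let C : Subgroup G :=
    { carrier := {g | ∃ a ∈ A₁, ∃ b ∈ B₂, g = a * b}
      mul_mem' := by
        rintro _ _ ⟨a, ha, b, hb, rfl⟩ ⟨a', ha', b', hb', rfl⟩
        refine ⟨a * (b * a' * b⁻¹), A₁.mul_mem ha (hn b (hB₂ hb) a' ha'), b * b',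
          B₂.mul_mem hb hb', ?_⟩
        group
      one_mem' := ⟨1, A₁.one_mem, 1, B₂.one_mem, by simp⟩
      inv_mem' := by
        rintro _ ⟨a, ha, b, hb, rfl⟩
        refine ⟨b⁻¹ * a⁻¹ * (b⁻¹)⁻¹, hn b⁻¹ (A₂.inv_mem (hB₂ hb)) a⁻¹ (A₁.inv_mem ha), b⁻¹,
          B₂.inv_mem hb, ?_⟩
        group }
  have hC : ∀ g, g ∈ C ↔ ∃ a ∈ A₁, ∃ b ∈ B₂, g = a * b := fun g => Iff.rfl
  have hBC : B ≤ C := by
    intro g hg
    obtain ⟨a, ha, b, hb, rfl⟩ := (hB g).1 hg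
    exact (hC _).2 ⟨a, hB₁ ha, b, hb, rfl⟩
  have hCA : C ≤ A := by
    intro g hg
    obtain ⟨a, ha, b, hb, rfl⟩ := (hC g).1 hg
    exact (hA _).2 ⟨a, ha, b, hB₂ hb, rfl⟩
  have hA₁C : A₁ ≤ C := fun a ha => (hC a).2 ⟨a, ha, 1, B₂.one_mem, by simp⟩
  have hB₂B : B₂ ≤ B := fun b hb => (hB b).2 ⟨1, B₁.one_mem, b, hb, by simp⟩
  have hB₁B : B₁ ≤ B := fun a ha => (hB a).2 ⟨a, ha, 1, B₂.one_mem, by simp⟩
  have hA₂A : A₂ ≤ A := fun b hb => (hA b).2 ⟨1, A₁.one_mem, b, hb, by simp⟩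
  -- `[C : B] = [A₁ : B₁]`
  have h1 : B.relIndex C = B₁.relIndex A₁ := by
    rw [Semi_index hA₁C fun g hg => ?_, ← Subgroup.inf_relIndex_right B A₁]
    · congr 1
      ext g
      constructor
      · rintro ⟨hgB, hgA⟩
        obtain ⟨a, ha, b, hb, rfl⟩ := (hB g).1 hgB
        have hb1 : b ∈ A₁ := by
          have := A₁.mul_mem (A₁.inv_mem (hB₁ ha)) hgA
          rwa [inv_mul_cancel_left] at this
        have hb2 : b = 1 := hd b (hA₁ hb1) (hA₂ (hB₂ hb))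
        rw [hb2, mul_one]
        exact ha
      · intro hg
        exact ⟨hB₁B hg, hB₁ hg⟩
    · obtain ⟨a, ha, b, hb, rfl⟩ := (hC g).1 hg
      exact ⟨a, ha, b, hB₂B hb, rfl⟩
  -- `[A : C] = [A₂ : B₂]`
  have h2 : C.relIndex A = B₂.relIndex A₂ := by
    rw [Semi_index hA₂A fun g hg => ?_, ← Subgroup.inf_relIndex_right C A₂]
    · congr 1
      ext g
      constructor
      · rintro ⟨hgC, hgA⟩
        obtain ⟨a, ha, b, hb, rfl⟩ := (hC g).1 hgC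
        have ha1 : a ∈ A₂ := by
          have := A₂.mul_mem hgA (A₂.inv_mem (hB₂ hb))
          rwa [mul_inv_cancel_right] at this
        have ha2 : a = 1 := hd a (hA₁ ha) (hA₂ ha1)
        rw [ha2, one_mul]
        exact hb
      · intro hg
        exact ⟨hBC (hB₂B hg), hB₂ hg⟩
    · obtain ⟨a, ha, b, hb, rfl⟩ := (hA g).1 hg
      refine ⟨b, hb, b⁻¹ * a * (b⁻¹)⁻¹, hA₁C (hn b⁻¹ (A₂.inv_mem hb) a ha), ?_⟩
      group
  rw [← Subgroup.relIndex_mul_relIndex B C A hBC hCA, h1, h2]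

end Pool.Agent.Lib.MP_ca1492_al.P
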