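import Mathlib
import Pool.Agent.Lib.MP_ca1492_al.P.CNorm
import Pool.Agent.Lib.MP_ca1492_al.P.ModLev
import Pool.Agent.Lib.MP_ca1492_al.P.Semi

/-!
# MP_ca1492_al, p-adic side, module ModUpp: the modulus of the parabolic subgroup

* `upp_Kc`: `g ∈ upp F cb o ⊓ Kc F κ 0` iff `g = n m` with `n ∈ uni F cb o ⊓ Kc F κ 0`,
  `m ∈ lev F c ⊓ Kc F κ 0` (the Levi projection of `g`: its entries with `o i = o j`; entries of `g` and
  `g⁻¹` in `lat 0`; see `ParD.lean`, `CGLa.lean` (`prL`) for the decomposition).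
* `mdl_upp_lev` (`m ∈ lev F c`): put `N = uni ⊓ Kc 0`, `L = lev c ⊓ Kc 0`, `B = upp ⊓ Kc 0 = N L`;
  `cj m B = (cj m N) (cj m L)`, `B ⊓ cj m B = (N ⊓ cj m N) (L ⊓ cj m L)` (uniqueness of the decomposition);
  `relIndex_semi` twice: `gi (cj m B) B = gi (cj m N) N * gi (cj m L) L`
  (`gi A B = (A ⊓ B).relIndex A / (A ⊓ B).relIndex B`); `mdl_eq`; the second factor is
  `mdl (lev F c) m = 1` (`mdl_lev`).
* `mdl_upp_uni` (`n ∈ uni`): `n` lies in a compact subgroup of `uni F cb o` (`uni_exh`), `mdl_compact`.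
* `mdl_PPs`: `mdl_subgroupOf` for `H = lev F cb`; `p = m n` with `m = prL p` and `n = m⁻¹ p ∈ uni`
  (`prL_mem_uni`), `mdl_mul`.
-/

set_option autoImplicit false

namespace Pool.Agent.Lib.MP_ca1492_al.P

open Topology Matrix ValuativeRel

noncomputable section

variable {F : Type} [Field F] [ValuativeRel F] [TopologicalSpace F]
  [IsNonarchimedeanLocalField F]
variable {κ : Type} [Fintype κ] [DecidableEq κ]

theorem ModUpp_self {G : Type} [Group G] {N : Subgroup G} {k : G} (hk : k ∈ N) : Nrm N k := by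
  intro g
  constructor
  · intro h1
    have h2 := N.mul_mem (N.mul_mem (N.inv_mem hk) h1) hk
    have h3 : k⁻¹ * (k * g * k⁻¹) * k = g := by group
    rwa [h3] at h2
  · intro h1
    exact N.mul_mem (N.mul_mem hk h1) (N.inv_mem hk)

/-- generalized index of products -/
theorem ModUpp_gi {G : Type} [Group G] {N L A A₁ A₂ B B₁ B₂ : Subgroup G}
    (hd : ∀ g, g ∈ N → g ∈ L → g = 1) (hA₁ : A₁ ≤ N) (hA₂ : A₂ ≤ L) (hB₁ : B₁ ≤ N)
    (hB₂ : B₂ ≤ L) (hA : ∀ g, g ∈ A ↔ ∃ a ∈ A₁, ∃ b ∈ A₂, g = a * b)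
    (hB : ∀ g, g ∈ B ↔ ∃ a ∈ B₁, ∃ b ∈ B₂, g = a * b)
    (hn : ∀ b ∈ A₂, ∀ a ∈ A₁, b * a * b⁻¹ ∈ A₁) (hn' : ∀ b ∈ B₂, ∀ a ∈ B₁, b * a * b⁻¹ ∈ B₁) :
    gi A B = gi A₁ B₁ * gi A₂ B₂ := by
  have hD : ∀ g, g ∈ A ⊓ B ↔ ∃ a ∈ A₁ ⊓ B₁, ∃ b ∈ A₂ ⊓ B₂, g = a * b := by
    intro g
    rw [Subgroup.mem_inf, hA, hB]
    constructor
    · rintro ⟨⟨a, ha, b, hb, h1⟩, a', ha', b', hb', h2⟩
      have h3 : a'⁻¹ * a = b' * b⁻¹ := by
        rw [h1] at h2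
        have h4 : a'⁻¹ * (a * b) * b⁻¹ = a'⁻¹ * (a' * b') * b⁻¹ := by rw [h2]
        simpa [mul_assoc] using h4
      have h4 : a'⁻¹ * a = 1 := hd _ (N.mul_mem (N.inv_mem (hB₁ ha')) (hA₁ ha))
        (by rw [h3]; exact L.mul_mem (hB₂ hb') (L.inv_mem (hA₂ hb)))
      have h5 : a' = a := inv_mul_eq_one.mp h4
      rw [h4] at h3
      have h6 : b' = b := (mul_inv_eq_one.mp h3.symm)
      subst h5 h6
      exact ⟨_, ⟨ha, ha'⟩, _, ⟨hb, hb'⟩, h1⟩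
    · rintro ⟨a, ha, b, hb, h1⟩
      exact ⟨⟨a, ha.1, b, hb.1, h1⟩, a, ha.2, b, hb.2, h1⟩
  have hDn : ∀ b ∈ A₂ ⊓ B₂, ∀ a ∈ A₁ ⊓ B₁, b * a * b⁻¹ ∈ A₁ ⊓ B₁ :=
    fun b hb a ha => ⟨hn b hb.1 a ha.1, hn' b hb.2 a ha.2⟩
  have e1 := relIndex_semi hd hA₁ hA₂ (inf_le_left : A₁ ⊓ B₁ ≤ A₁) (inf_le_left : A₂ ⊓ B₂ ≤ A₂)
    hA hD hn hDn
  have e2 := relIndex_semi hd hB₁ hB₂ (inf_le_right : A₁ ⊓ B₁ ≤ B₁) (inf_le_right : A₂ ⊓ B₂ ≤ B₂)
    hB hD hn' hDn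
  rw [Subgroup.inf_relIndex_left, Subgroup.inf_relIndex_left, Subgroup.inf_relIndex_left] at e1
  rw [Subgroup.inf_relIndex_right, Subgroup.inf_relIndex_right, Subgroup.inf_relIndex_right] at e2
  unfold gi
  rw [e1, e2]
  push_cast
  rw [div_mul_div_comm]

section

variable {ι ι' : Type} (c : κ → ι) (cb : κ → ι') (o : κ → ℤ)
  (h : ∀ i j, c i = c j ↔ cb i = cb j ∧ o i = o j)

include h in
theorem upp_Kc (g : GL κ F) : g ∈ upp F cb o ⊓ Kc F κ 0 ↔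
    ∃ n ∈ uni F cb o ⊓ Kc F κ 0, ∃ m ∈ lev F c ⊓ Kc F κ 0, g = n * m := by
  constructor
  · rintro ⟨hg, hgK⟩
    let p : PPs F cb o := ⟨⟨g, hg.1⟩, hg⟩
    have hmK : (prL c cb o h p).1 ∈ Kc F κ 0 := by
      have key : ∀ q : PPs F cb o, q.1.1 ∈ Kc F κ 0 → ∀ i j,
          (((prL c cb o h q).1 : Matrix κ κ F) - 1) i j ∈ lat F (0 : ℕ) := by
        intro q hq i j
        rw [Matrix.sub_apply, prL_apply]
        by_cases hij : o i = o j
        · rw [if_pos hij]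
          exact hq.1 i j
        · have hne : i ≠ j := fun h1 => hij (by rw [h1])
          rw [if_neg hij, Matrix.one_apply_ne hne, sub_zero]
          exact (lat F (0 : ℕ)).zero_mem
      refine ⟨key p hgK, fun i j => ?_⟩
      have h1 : (((prL c cb o h p).1⁻¹ : GL κ F)) = (prL c cb o h p⁻¹).1 := by
        rw [map_inv]
        rfl
      rw [h1]
      exact key p⁻¹ ((Kc F κ 0).inv_mem hgK) i j
    have hm : (prL c cb o h p).1 ∈ lev F c := (prL c cb o h p).2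
    obtain ⟨h1, h2, h3⟩ := prL_lev c cb o h _ hm
    have hn : g * (prL c cb o h p).1⁻¹ ∈ uni F cb o := by
      have h4 : prL c cb o h (p * (⟨⟨(prL c cb o h p).1, h1⟩, h2⟩ : PPs F cb o)⁻¹) = 1 := by
        rw [map_mul, map_inv, h3]
        exact mul_inv_cancel _
      exact (prL_mem_uni c cb o h _).1 h4
    refine ⟨g * (prL c cb o h p).1⁻¹, ⟨hn, (Kc F κ 0).mul_mem hgK ((Kc F κ 0).inv_mem hmK)⟩,
      (prL c cb o h p).1, ⟨hm, hmK⟩, ?_⟩
    rw [inv_mul_cancel_right]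
  · rintro ⟨n, hn, m, hm, rfl⟩
    exact ⟨(upp F cb o).mul_mem hn.1.1 (parD_lev_le_upp c cb o h hm.1),
      (Kc F κ 0).mul_mem hn.2 hm.2⟩

include h in
theorem mdl_upp_lev (m : GL κ F) (hm : m ∈ lev F c) :
    mdl (upp F cb o) m = mdl (uni F cb o) m := by
  have hmu : m ∈ upp F cb o := parD_lev_le_upp c cb o h hm
  have hN : Nrm (uni F cb o) m := Nrm_uni c cb o h m hm
  have hCN : CO (uni F cb o) (uni F cb o ⊓ Kc F κ 0) := by
    rw [uni_eq_uniS]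
    exact co_uniS _ 0
  rw [mdl_eq (co_upp cb o 0) (ModUpp_self hmu), mdl_eq hCN hN]
  have h1 : gi (cj m (lev F c ⊓ Kc F κ 0)) (lev F c ⊓ Kc F κ 0) = 1 := by
    rw [← mdl_eq (co_lev c 0) (ModUpp_self hm), mdl_lev c m hm]
  have hn : ∀ b ∈ lev F c ⊓ Kc F κ 0, ∀ a ∈ uni F cb o ⊓ Kc F κ 0,
      b * a * b⁻¹ ∈ uni F cb o ⊓ Kc F κ 0 := fun b hb a ha =>
    ⟨uni_norm c cb o h b a hb.1 ha.1,
      (Kc F κ 0).mul_mem ((Kc F κ 0).mul_mem hb.2 ha.2) ((Kc F κ 0).inv_mem hb.2)⟩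
  have h2 := ModUpp_gi (N := uni F cb o) (L := lev F c) (A := cj m (upp F cb o ⊓ Kc F κ 0))
    (A₁ := cj m (uni F cb o ⊓ Kc F κ 0)) (A₂ := cj m (lev F c ⊓ Kc F κ 0))
    (B := upp F cb o ⊓ Kc F κ 0) (B₁ := uni F cb o ⊓ Kc F κ 0) (B₂ := lev F c ⊓ Kc F κ 0)
    (fun g hg hg' => uni_disj c cb o h g hg' hg)
    (by
      have h3 := cj_mono m (inf_le_left : uni F cb o ⊓ Kc F κ 0 ≤ uni F cb o)
      rwa [cj_eq_of_nrm hN] at h3)
    (by
      have h3 := cj_mono m (inf_le_left : lev F c ⊓ Kc F κ 0 ≤ lev F c)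
      rwa [cj_eq_of_nrm (ModUpp_self hm)] at h3)
    inf_le_left inf_le_left
    (by
      intro g
      rw [mem_cj, upp_Kc c cb o h]
      constructor
      · rintro ⟨a, ha, b, hb, hab⟩
        refine ⟨m * a * m⁻¹, ?_, m * b * m⁻¹, ?_, ?_⟩
        · rw [mem_cj]
          have e : m⁻¹ * (m * a * m⁻¹) * m = a := by group
          rwa [e]
        · rw [mem_cj]
          have e : m⁻¹ * (m * b * m⁻¹) * m = b := by group
          rwa [e]
        · have e : g = m * (m⁻¹ * g * m) * m⁻¹ := by group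
          rw [e, hab]
          group
      · rintro ⟨a, ha, b, hb, rfl⟩
        rw [mem_cj] at ha hb
        exact ⟨_, ha, _, hb, by group⟩)
    (upp_Kc c cb o h)
    (by
      intro b hb a ha
      rw [mem_cj] at ha hb ⊢
      have e : m⁻¹ * (b * a * b⁻¹) * m = (m⁻¹ * b * m) * (m⁻¹ * a * m) * (m⁻¹ * b * m)⁻¹ := by
        group
      rw [e]
      exact hn _ hb _ ha)
    hn
  rw [h2, h1, mul_one]

theorem mdl_upp_uni (n : GL κ F) (hn : n ∈ uni F cb o) : mdl (upp F cb o) n = 1 := by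
  have ht : T2Space (GL κ F) := gl_t2
  obtain ⟨K, hK, hKc, hnK⟩ := uni_exh cb o {n} isCompact_singleton
    (Set.singleton_subset_iff.2 hn)
  exact mdl_compact K hKc (fun k hk => ModUpp_self (hK hk).1) n (hnK rfl)

/-- the modulus of `upp` in terms of the modulus character of the Levi subgroup -/
theorem mdl_PPs (p : PPs F cb o) :
    ((mdl (PPs F cb o) (p : lev F cb) : ℝ) : ℂ) = (dlt c cb o h (prL c cb o h p) : ℂ) := by
  have hp : p.1.1 ∈ upp F cb o := p.2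
  have hle : upp F cb o ≤ lev F cb := fun g hg => hg.1
  have h0 : mdl (PPs F cb o) (p : lev F cb) = mdl (upp F cb o) p.1.1 :=
    mdl_subgroupOf hle (co_upp cb o 0) p.1 (ModUpp_self hp)
  have hm : (prL c cb o h p).1 ∈ lev F c := (prL c cb o h p).2
  obtain ⟨h1, h2, h3⟩ := prL_lev c cb o h _ hm
  have hn : (prL c cb o h p).1⁻¹ * p.1.1 ∈ uni F cb o := by
    have h4 : prL c cb o h ((⟨⟨(prL c cb o h p).1, h1⟩, h2⟩ : PPs F cb o)⁻¹ * p) = 1 := by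
      rw [map_mul, map_inv, h3]
      exact inv_mul_cancel _
    exact (prL_mem_uni c cb o h _).1 h4
  have h5 : p.1.1 = (prL c cb o h p).1 * ((prL c cb o h p).1⁻¹ * p.1.1) := by
    rw [mul_inv_cancel_left]
  rw [h0, dlt_val]
  congr 1
  conv_lhs => rw [h5]
  rw [mdl_mul (ModUpp_self (parD_lev_le_upp c cb o h hm)) (ModUpp_self hn.1),
    mdl_upp_uni cb o _ hn, mul_one, mdl_upp_lev c cb o h _ hm]

end

end

end Pool.Agent.Lib.MP_ca1492_al.P
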