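import Mathlib
import Pool.Agent.Lib.MP_ca1492_al.P.Modc

/-!
# MP_ca1492_al, p-adic side, module InvA: the functions supported on one double coset `P y U`

`A` a topological group, `P` a closed subgroup, `K` a compact open subgroup with `A = P K`; `mdl P p` is
the modulus of `p ∈ P` acting on `P` by conjugation. `Hyu P y U` is the function supported on
`P y U` with `Hyu P y U (p y u) = mdl P p` (`U` compact open).

* `mdl_self_cpt`: `mdl_compact` with the compact subgroup `B` and `Nrm P b` for `b ∈ P`.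
* `Hyu_mem`: if `p y u = p' y u'` then `p⁻¹ p' = y u u'⁻¹ y⁻¹ ∈ P ⊓ cj y U`, a compact subgroup of `P`
  (`P` closed), so `mdl P (p⁻¹ p') = 1`; `mdl_mul`.
* `Hyu_left`, `Hyu_right`: from `Hyu_mem`, `Hyu_not` (the support is stable).
* `Hyu_shift`: `g x = p y u` iff `g = p (y x⁻¹) (x u x⁻¹)`; both sides are computed by `Hyu_mem`.
* `Hyu_base`: `g = q p y u` iff `g = q' y u` with `q' = q p`; `mdl P q = mdl P q' * (mdl P p)⁻¹`.
-/

set_option autoImplicit false

namespace Pool.Agent.Lib.MP_ca1492_al.P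

open Topology

noncomputable section

variable {A : Type} [Group A] [TopologicalSpace A] [IsTopologicalGroup A] [T2Space A]

/-- Iwasawa data: `A = P K`, `A` unimodular -/
structure IwD (P K : Subgroup A) : Prop where
  P_cl : IsClosed (P : Set A)
  K_cpt : IsCompact (K : Set A)
  K_open : IsOpen (K : Set A)
  iw : ∀ g : A, ∃ p ∈ P, ∃ k ∈ K, g = p * k
  umod : ∀ x : A, mdl (⊤ : Subgroup A) x = 1

open Classical in
/-- the function supported on `P y U` -/
def Hyu (P : Subgroup A) (y : A) (U : Subgroup A) (g : A) : ℂ :=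
  if h : ∃ p ∈ P, ∃ u ∈ U, g = p * y * u then ((mdl P h.choose : ℝ) : ℂ) else 0

theorem nrm_self {P : Subgroup A} {p : A} (hp : p ∈ P) : Nrm P p := by
  intro g
  constructor
  · intro h1
    have h2 := P.mul_mem (P.mul_mem (P.inv_mem hp) h1) hp
    have h3 : p⁻¹ * (p * g * p⁻¹) * p = g := by group
    rwa [h3] at h2
  · intro h1
    exact P.mul_mem (P.mul_mem hp h1) (P.inv_mem hp)

theorem nrm_top (x : A) : Nrm (⊤ : Subgroup A) x := fun _ =>
  ⟨fun _ => Subgroup.mem_top _, fun _ => Subgroup.mem_top _⟩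

theorem co_top {U : Subgroup A} (hU : IsOpen (U : Set A)) (hc : IsCompact (U : Set A)) :
    CO ⊤ U := by
  refine ⟨le_top, hc, U, hU, ?_⟩
  rw [Subgroup.coe_top, Set.univ_inter]

theorem cj_open {U : Subgroup A} (hU : IsOpen (U : Set A)) (x : A) :
    IsOpen ((cj x U : Subgroup A) : Set A) := by
  have h4 : ((cj x U : Subgroup A) : Set A) = (fun g => x⁻¹ * g * x) ⁻¹' (U : Set A) := by
    ext g
    rw [SetLike.mem_coe, mem_cj]
    rfl
  rw [h4]
  exact hU.preimage (by fun_prop)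

theorem cj_cpt {U : Subgroup A} (hU : IsCompact (U : Set A)) (x : A) :
    IsCompact ((cj x U : Subgroup A) : Set A) := by
  have h4 : ((cj x U : Subgroup A) : Set A) = (fun g => x * g * x⁻¹) '' (U : Set A) := by
    ext g
    rw [SetLike.mem_coe, mem_cj, Set.mem_image]
    constructor
    · intro h
      exact ⟨_, h, by group⟩
    · rintro ⟨y, hy, rfl⟩
      have h5 : x⁻¹ * (x * y * x⁻¹) * x = y := by group
      rw [h5]
      exact hy
  rw [h4]
  exact hU.image (by fun_prop)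

theorem co_P {P U : Subgroup A} (hP : IsClosed (P : Set A)) (hU : IsOpen (U : Set A))
    (hc : IsCompact (U : Set A)) : CO P (P ⊓ U) := by
  refine ⟨inf_le_left, ?_, U, hU, by rw [Subgroup.coe_inf]⟩
  rw [Subgroup.coe_inf]
  exact hc.inter_left hP

/-- the modulus is trivial on compact subgroups -/
theorem mdl_self_cpt {P B : Subgroup A} (hB : IsCompact (B : Set A)) (hBP : B ≤ P) (p : A)
    (hp : p ∈ B) : mdl P p = 1 :=
  mdl_compact B hB (fun _ hk => nrm_self (hBP hk)) p hp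

section

variable {P : Subgroup A} (hP : IsClosed (P : Set A)) {U : Subgroup A}
  (hU : IsCompact (U : Set A)) (y : A)

include hP hU in
theorem Hyu_mem (p : A) (hp : p ∈ P) (u : A) (hu : u ∈ U) :
    Hyu P y U (p * y * u) = ((mdl P p : ℝ) : ℂ) := by
  have h : ∃ p' ∈ P, ∃ u' ∈ U, p * y * u = p' * y * u' := ⟨p, hp, u, hu, rfl⟩
  unfold Hyu
  rw [dif_pos h]
  obtain ⟨h1, u', hu', h2⟩ := h.choose_spec
  generalize h.choose = p' at h1 h2 ⊢
  have h3 : p⁻¹ * p' = y * (u * u'⁻¹) * y⁻¹ := by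
    have h4 : p' = p * y * u * u'⁻¹ * y⁻¹ := by
      rw [h2]
      group
    rw [h4]
    group
  have h5 : p⁻¹ * p' ∈ P ⊓ cj y U := by
    refine ⟨P.mul_mem (P.inv_mem hp) h1, ?_⟩
    show p⁻¹ * p' ∈ cj y U
    rw [mem_cj, h3]
    have h6 : y⁻¹ * (y * (u * u'⁻¹) * y⁻¹) * y = u * u'⁻¹ := by group
    rw [h6]
    exact U.mul_mem hu (U.inv_mem hu')
  have h7 : IsCompact ((P ⊓ cj y U : Subgroup A) : Set A) := by
    rw [Subgroup.coe_inf]
    exact (cj_cpt hU y).inter_left hP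
  have h8 : mdl P (p⁻¹ * p') = 1 := mdl_self_cpt h7 inf_le_left _ h5
  have h9 : mdl P p' = mdl P p := by
    have h10 := mdl_mul (N := P) (nrm_self hp) (nrm_self (P.mul_mem (P.inv_mem hp) h1))
    rw [mul_inv_cancel_left, h8, mul_one] at h10
    exact h10
  rw [h9]

omit [IsTopologicalGroup A] [T2Space A] in
theorem Hyu_not (g : A) (hg : ¬ ∃ p ∈ P, ∃ u ∈ U, g = p * y * u) : Hyu P y U g = 0 := by
  unfold Hyu
  rw [dif_neg hg]

include hP hU in
theorem Hyu_left (p : A) (hp : p ∈ P) (g : A) :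
    Hyu P y U (p * g) = ((mdl P p : ℝ) : ℂ) * Hyu P y U g := by
  by_cases hg : ∃ q ∈ P, ∃ u ∈ U, g = q * y * u
  · obtain ⟨q, hq, u, hu, rfl⟩ := hg
    have h1 : p * (q * y * u) = (p * q) * y * u := by group
    rw [h1, Hyu_mem hP hU y (p * q) (P.mul_mem hp hq) u hu, Hyu_mem hP hU y q hq u hu,
      mdl_mul (nrm_self hp) (nrm_self hq), Complex.ofReal_mul]
  · have hg' : ¬ ∃ q ∈ P, ∃ u ∈ U, p * g = q * y * u := by
      rintro ⟨q, hq, u, hu, h⟩
      apply hg
      refine ⟨p⁻¹ * q, P.mul_mem (P.inv_mem hp) hq, u, hu, ?_⟩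
      have h1 : g = p⁻¹ * (p * g) := by group
      rw [h1, h]
      group
    rw [Hyu_not y _ hg, Hyu_not y _ hg', mul_zero]

include hP hU in
theorem Hyu_right (g : A) (u : A) (hu : u ∈ U) : Hyu P y U (g * u) = Hyu P y U g := by
  by_cases hg : ∃ q ∈ P, ∃ u ∈ U, g = q * y * u
  · obtain ⟨q, hq, u', hu', rfl⟩ := hg
    rw [mul_assoc (q * y) u' u, Hyu_mem hP hU y q hq (u' * u) (U.mul_mem hu' hu),
      Hyu_mem hP hU y q hq u' hu']
  · have hg' : ¬ ∃ q ∈ P, ∃ u' ∈ U, g * u = q * y * u' := by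
      rintro ⟨q, hq, u', hu', h⟩
      apply hg
      refine ⟨q, hq, u' * u⁻¹, U.mul_mem hu' (U.inv_mem hu), ?_⟩
      have h1 : g = (g * u) * u⁻¹ := by group
      rw [h1, h]
      group
    rw [Hyu_not y _ hg, Hyu_not y _ hg']

include hP hU in
theorem Hyu_shift (x g : A) : Hyu P y U (g * x) = Hyu P (y * x⁻¹) (cj x U) g := by
  by_cases hg : ∃ q ∈ P, ∃ u ∈ U, g * x = q * y * u
  · obtain ⟨q, hq, u, hu, h⟩ := hg
    have hu' : x * u * x⁻¹ ∈ cj x U := by
      rw [mem_cj]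
      have h6 : x⁻¹ * (x * u * x⁻¹) * x = u := by group
      rw [h6]
      exact hu
    have h1 : g = q * (y * x⁻¹) * (x * u * x⁻¹) := by
      have h2 : g = (g * x) * x⁻¹ := by group
      rw [h2, h]
      group
    rw [h, Hyu_mem hP hU y q hq u hu, h1,
      Hyu_mem hP (cj_cpt hU x) (y * x⁻¹) q hq (x * u * x⁻¹) hu']
  · have hg' : ¬ ∃ q ∈ P, ∃ u ∈ cj x U, g = q * (y * x⁻¹) * u := by
      rintro ⟨q, hq, u, hu, h⟩
      apply hg
      rw [mem_cj] at hu
      refine ⟨q, hq, x⁻¹ * u * x, hu, ?_⟩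
      rw [h]
      group
    rw [Hyu_not y _ hg, Hyu_not _ _ hg']

include hP hU in
theorem Hyu_base (p : A) (hp : p ∈ P) (g : A) :
    Hyu P (p * y) U g = (((mdl P p)⁻¹ : ℝ) : ℂ) * Hyu P y U g := by
  by_cases hg : ∃ q ∈ P, ∃ u ∈ U, g = q * y * u
  · obtain ⟨q, hq, u, hu, rfl⟩ := hg
    have h1 : q * y * u = (q * p⁻¹) * (p * y) * u := by group
    have h2 : Hyu P (p * y) U (q * y * u) = ((mdl P (q * p⁻¹) : ℝ) : ℂ) := by
      rw [h1]
      exact Hyu_mem hP hU (p * y) (q * p⁻¹) (P.mul_mem hq (P.inv_mem hp)) u hu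
    rw [h2, Hyu_mem hP hU y q hq u hu, mdl_mul (nrm_self hq) (nrm_self (P.inv_mem hp)),
      mdl_inv (nrm_self hp), Complex.ofReal_mul, mul_comm]
  · have hg' : ¬ ∃ q ∈ P, ∃ u ∈ U, g = q * (p * y) * u := by
      rintro ⟨q, hq, u, hu, h⟩
      apply hg
      refine ⟨q * p, P.mul_mem hq hp, u, hu, ?_⟩
      rw [h]
      group
    rw [Hyu_not y _ hg, Hyu_not _ _ hg', mul_zero]

end

end

end Pool.Agent.Lib.MP_ca1492_al.P
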