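import Mathlib
import Pool.Agent.Lib.MP_ca1492_al.P.CMeanB
import Pool.Agent.Lib.MP_ca1492_al.P.InvA

/-!
# MP_ca1492_al, p-adic side, module InvB: the mean over `K` of the functions `Hyu`

* `inv_k` (`k ∈ K`, `U ≤ K` open): by `mean_right` the mean is the one of `φ x = Hyu P k U (x * k)`;
  on `K` this is left invariant under `B = P ⊓ K` (`Hyu_left`, `mdl_self_cpt`), and vanishes on `K`
  outside `B (cj k U)`: if `x k = p k u` then `p = x (k u k⁻¹)⁻¹ ∈ P ∩ K`. `mean_cosets` with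
  `K₁ = cj k U ≤ K`: the mean is `[B : B ⊓ K₁] / [K : K₁]` times `mean K₁ φ = 1` (`mean_congr`, `mean_const`,
  `Hyu_mem` with `p = 1`). `P ⊓ K ⊓ cj k U = P ⊓ cj k U`; `gi_of_le`; `[K : cj k U] = [K : U]` because
  `cj k K = K` (`relIndex_cj`). `Tm`: `tm_of_open` (`cj k U` is open).
* `inv_y` (any `y = p k`): `Hyu_base`, `cj_mul`: `P ⊓ cj (p k) U = cj p (P ⊓ cj k U)`,
  `gi (P ⊓ K) (cj p X) = gi (P ⊓ K) (cj p (P ⊓ K)) * gi (cj p (P ⊓ K)) (cj p X)`, `gi_cj`, `gi_symm`,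
  `mdl_eq : mdl P p = gi (cj p (P ⊓ K)) (P ⊓ K)`.
* `inv_shift`: `Hyu_shift`, `inv_y` for `y x⁻¹`, `cj x U`: `cj (y x⁻¹) (cj x U) = cj y U`;
  `gi K (cj x U) = gi K U * gi U (cj x U)`, and `gi (cj x U) U = mdl ⊤ x = 1`.
-/

set_option autoImplicit false

namespace Pool.Agent.Lib.MP_ca1492_al.P

open Topology

noncomputable section

variable {A : Type} [Group A] [TopologicalSpace A] [IsTopologicalGroup A] [T2Space A]
variable {P K U : Subgroup A}

theorem cj_of_mem {K : Subgroup A} {k : A} (hk : k ∈ K) : cj k K = K := by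
  ext x
  rw [mem_cj, Subgroup.mul_mem_cancel_right K hk, Subgroup.mul_mem_cancel_left K (K.inv_mem hk)]

theorem cpt_of_le (D : IwD P K) (hU : IsOpen (U : Set A)) (hUK : U ≤ K) :
    IsCompact (U : Set A) := by
  exact D.K_cpt.of_isClosed_subset (Subgroup.isClosed_of_isOpen U hU) hUK

/-- functions right invariant under an open subgroup are tame on `K` -/
theorem tm_K {E : Type} [AddCommGroup E] [Module ℂ E] (D : IwD P K) (hU : IsOpen (U : Set A))
    (φ : A → E) (h : ∀ g, ∀ u ∈ U, φ (g * u) = φ g) : Tm K φ := by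
  exact tm_of_open K D.K_cpt φ U hU fun k _ u hu _ => h k u hu

theorem InvB_tm (D : IwD P K) (hU : IsOpen (U : Set A)) (hUK : U ≤ K) (y : A) :
    Tm K (Hyu P y U) :=
  tm_K D hU _ fun g u hu => Hyu_right D.P_cl (cpt_of_le D hU hUK) y g u hu

theorem InvB_relIndex (D : IwD P K) (hU : IsOpen (U : Set A)) (hUK : U ≤ K) :
    U.relIndex K ≠ 0 :=
  Gi_index (co_top D.K_open D.K_cpt) (co_top hU (cpt_of_le D hU hUK))

theorem InvB_coPK (D : IwD P K) : CO P (P ⊓ K) := co_P D.P_cl D.K_open D.K_cpt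

theorem InvB_coP (D : IwD P K) (hU : IsOpen (U : Set A)) (hUK : U ≤ K) (y : A) :
    CO P (P ⊓ cj y U) :=
  co_P D.P_cl (cj_open hU y) (cj_cpt (cpt_of_le D hU hUK) y)

theorem inv_k (D : IwD P K) (hU : IsOpen (U : Set A)) (hUK : U ≤ K) (k : A) (hk : k ∈ K) :
    mean K (Hyu P k U) = ((gi (P ⊓ K) (P ⊓ cj k U) * (gi K U)⁻¹ : ℝ) : ℂ) := by
  have hc := cpt_of_le D hU hUK
  have hcK : cj k U ≤ K := by
    have h1 := cj_mono k hUK
    rwa [cj_of_mem hk] at h1
  have hri : (cj k U).relIndex K = U.relIndex K := by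
    have h1 := relIndex_cj k U K
    rwa [cj_of_mem hk] at h1
  have hT := InvB_tm D hU hUK k
  rw [← mean_right K (Hyu P k U) hT k hk]
  have hBc : IsCompact ((P ⊓ K : Subgroup A) : Set A) := (InvB_coPK D).2.1
  have h1 := mean_cosets (P ⊓ K) (cj k U) K inf_le_right hcK
    (by rw [hri]; exact InvB_relIndex D hU hUK) (fun x => Hyu P k U (x * k))
    (tm_right K _ hT k hk) (by
      intro b hb x _
      have e1 : b * x * k = b * (x * k) := mul_assoc _ _ _
      show Hyu P k U (b * x * k) = Hyu P k U (x * k)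
      rw [e1, Hyu_left D.P_cl hc k b hb.1, mdl_self_cpt hBc inf_le_left b hb]
      simp) (by
      intro x hx hne
      by_contra hno
      apply hne
      apply Hyu_not
      rintro ⟨p, hp, u, hu, hpu⟩
      apply hno
      have e1 : p = x * (k * u⁻¹ * k⁻¹) := by
        have e2 : x * (k * u⁻¹ * k⁻¹) = x * k * u⁻¹ * k⁻¹ := by group
        rw [e2, hpu]
        group
      have hpK : p ∈ K := by
        rw [e1]
        exact K.mul_mem hx (K.mul_mem (K.mul_mem hk (K.inv_mem (hUK hu))) (K.inv_mem hk))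
      refine ⟨p, ⟨hp, hpK⟩, ?_⟩
      rw [mem_cj]
      have e2 : k⁻¹ * (p⁻¹ * x) * k = k⁻¹ * p⁻¹ * (x * k) := by group
      have e3 : k⁻¹ * p⁻¹ * (p * k * u) = u := by group
      rw [e2, hpu, e3]
      exact hu)
  rw [h1]
  have h2 : mean (cj k U) (fun x => Hyu P k U (x * k)) = (1 : ℂ) := by
    rw [mean_congr (cj k U) (fun x => Hyu P k U (x * k)) (fun _ => (1 : ℂ)), mean_const]
    intro x hx
    have hu := mem_cj.1 hx
    have e1 : x * k = 1 * k * (k⁻¹ * x * k) := by group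
    show Hyu P k U (x * k) = 1
    rw [e1, Hyu_mem D.P_cl hc k 1 P.one_mem _ hu, mdl_one]
    simp
  have h3 : P ⊓ K ⊓ cj k U = P ⊓ cj k U := by
    rw [inf_assoc, inf_eq_right.2 hcK]
  rw [h2, h3, hri, gi_of_le (inf_le_inf_left P hcK), gi_of_le hUK]
  simp

theorem inv_y (D : IwD P K) (hU : IsOpen (U : Set A)) (hUK : U ≤ K) (y : A) :
    mean K (Hyu P y U) = ((gi (P ⊓ K) (P ⊓ cj y U) * (gi K U)⁻¹ : ℝ) : ℂ) := by
  obtain ⟨p, hp, k, hk, rfl⟩ := D.iw y
  have hc := cpt_of_le D hU hUK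
  have hN : Nrm P p := nrm_self hp
  have h1 : Hyu P (p * k) U = fun g => (((mdl P p)⁻¹ : ℝ) : ℂ) * Hyu P k U g := by
    funext g
    exact Hyu_base D.P_cl hc k p hp g
  have h2 := mean_map K (Hyu P k U) (InvB_tm D hU hUK k)
    ((((mdl P p)⁻¹ : ℝ) : ℂ) • (LinearMap.id : ℂ →ₗ[ℂ] ℂ))
  simp only [LinearMap.smul_apply, LinearMap.id_coe, id_eq, smul_eq_mul] at h2
  rw [h1, h2, inv_k D hU hUK k hk, ← Complex.ofReal_mul]
  congr 1
  have hX := InvB_coP D hU hUK k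
  have hPK := InvB_coPK D
  have e1 : P ⊓ cj (p * k) U = cj p (P ⊓ cj k U) := by
    rw [cj_inf, cj_eq_of_nrm hN, cj_mul]
  have e2 : gi (P ⊓ K) (cj p (P ⊓ cj k U)) = (mdl P p)⁻¹ * gi (P ⊓ K) (P ⊓ cj k U) := by
    rw [← gi_mul (co_comm hPK (co_cj hN hPK)) (co_comm (co_cj hN hPK) (co_cj hN hX)), gi_cj,
      gi_symm (cj p (P ⊓ K)) (P ⊓ K), ← mdl_eq hPK hN]
  rw [e1, e2, mul_assoc]

theorem inv_y_pos (D : IwD P K) (hU : IsOpen (U : Set A)) (hUK : U ≤ K) (y : A) :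
    0 < gi (P ⊓ K) (P ⊓ cj y U) * (gi K U)⁻¹ := by
  have h1 : 0 < gi (P ⊓ K) (P ⊓ cj y U) :=
    gi_pos (co_comm (InvB_coPK D) (InvB_coP D hU hUK y))
  have h2 : 0 < gi K U :=
    gi_pos (co_comm (co_top D.K_open D.K_cpt) (co_top hU (cpt_of_le D hU hUK)))
  positivity

theorem inv_shift (D : IwD P K) (hU : IsOpen (U : Set A)) (hUK : U ≤ K) (x : A)
    (hx : cj x U ≤ K) (y : A) :
    mean K (fun g => Hyu P y U (g * x)) = mean K (Hyu P y U) := by
  have hc := cpt_of_le D hU hUK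
  have h1 : (fun g => Hyu P y U (g * x)) = Hyu P (y * x⁻¹) (cj x U) := by
    funext g
    exact Hyu_shift D.P_cl hc y x g
  have hcx : CO (⊤ : Subgroup A) (cj x U) := co_top (cj_open hU x) (cj_cpt hc x)
  have hcU : CO (⊤ : Subgroup A) U := co_top hU hc
  have hcK : CO (⊤ : Subgroup A) K := co_top D.K_open D.K_cpt
  have h2 : gi (cj x U) U = 1 := by
    rw [← mdl_eq hcU (nrm_top x)]
    exact D.umod x
  have h3 : gi K (cj x U) = gi K U := by
    rw [← gi_mul (co_comm hcK hcU) (co_comm hcU hcx), gi_symm (cj x U) U, h2, inv_one, mul_one]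
  rw [h1, inv_y D (cj_open hU x) hx, inv_y D hU hUK y, h3, ← cj_mul, inv_mul_cancel_right]

end

end Pool.Agent.Lib.MP_ca1492_al.P
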