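import Mathlib
import Pool.Agent.Lib.MP_ca1492_al.P.InvB

/-!
# MP_ca1492_al, p-adic side, module InvC: the invariant functional on `Ind (mdl P)`

* `dc_reps`: the double cosets `P \ A / U` are finite in number (`A = P K` and `K / U` is finite); choose
  representatives in `K`. Let `r` be the equivalence relation `k ~ k'` iff `∃ p ∈ P, ∃ u ∈ U, k' = p k u`
  on `K` (subtype); the quotient is finite since `K ⧸ U.subgroupOf K` maps onto it
  (`Subgroup.quotient_finite_of_isOpen`); `s` = the image of `Quotient.out`.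
* `Hyu_sum`: `g = p y u` with the unique `y ∈ s`; all other terms vanish (`Hyu_not`), and
  `h y * Hyu P y U g = h y * mdl P p = h (p y u)`.
* `inv_main`: take `U = U₀ ⊓ K ⊓ cj x⁻¹ K` (open); `cj x U ≤ K`; `Hyu_sum`, `CMeanB_mean_sum`, `mean_map`
  (multiplication by a constant), `inv_shift`.
-/

set_option autoImplicit false

namespace Pool.Agent.Lib.MP_ca1492_al.P

open Topology

noncomputable section

variable {A : Type} [Group A] [TopologicalSpace A] [IsTopologicalGroup A] [T2Space A]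
variable {P K U : Subgroup A}

theorem dc_reps (D : IwD P K) (hU : IsOpen (U : Set A)) (hUK : U ≤ K) :
    ∃ s : Finset A, (∀ y ∈ s, y ∈ K) ∧
      ∀ g : A, ∃! y, y ∈ s ∧ ∃ p ∈ P, ∃ u ∈ U, g = p * y * u := by
  classical
  let S : Setoid K :=
    { r := fun k k' => ∃ p ∈ P, ∃ u ∈ U, (k' : A) = p * k * u
      iseqv :=
        { refl := fun k => ⟨1, P.one_mem, 1, U.one_mem, by simp⟩
          symm := by
            rintro k k' ⟨p, hp, u, hu, h⟩
            refine ⟨p⁻¹, P.inv_mem hp, u⁻¹, U.inv_mem hu, ?_⟩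
            rw [h]
            group
          trans := by
            rintro k k' k'' ⟨p, hp, u, hu, h⟩ ⟨p', hp', u', hu', h'⟩
            refine ⟨p' * p, P.mul_mem hp' hp, u * u', U.mul_mem hu hu', ?_⟩
            rw [h', h]
            group } }
  have hc : CompactSpace K := isCompact_iff_compactSpace.mp D.K_cpt
  have hUo : IsOpen ((U.subgroupOf K : Subgroup K) : Set K) := hU.preimage continuous_subtype_val
  have hf : Finite (K ⧸ U.subgroupOf K) := Subgroup.quotient_finite_of_isOpen _ hUo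
  have hf2 : Finite (Quotient S) := by
    refine Finite.of_surjective (fun q : K ⧸ U.subgroupOf K => (Quotient.mk S q.out)) ?_
    intro q
    induction q using Quotient.inductionOn with
    | h k =>
      refine ⟨QuotientGroup.mk k, Quotient.sound ?_⟩
      obtain ⟨u, hu⟩ := QuotientGroup.mk_out_eq_mul (U.subgroupOf K) k
      refine ⟨1, P.one_mem, ((u : K) : A)⁻¹, U.inv_mem u.2, ?_⟩
      rw [hu, Subgroup.coe_mul]
      group
  let := Fintype.ofFinite (Quotient S)
  refine ⟨Finset.univ.image (fun q : Quotient S => ((q.out : K) : A)), ?_, ?_⟩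
  · intro y hy
    obtain ⟨q, _, rfl⟩ := Finset.mem_image.1 hy
    exact q.out.2
  · intro g
    obtain ⟨p, hp, k, hk, hg⟩ := D.iw g
    have hr : S (Quotient.mk S ⟨k, hk⟩).out ⟨k, hk⟩ := Quotient.mk_out (s := S) (⟨k, hk⟩ : K)
    obtain ⟨p', hp', u', hu', h'⟩ := hr
    refine ⟨(((Quotient.mk S ⟨k, hk⟩).out : K) : A), ⟨?_, p * p', P.mul_mem hp hp', u', hu', ?_⟩, ?_⟩
    · exact Finset.mem_image.2 ⟨_, Finset.mem_univ _, rfl⟩
    · have h2 : k = p' * (((Quotient.mk S ⟨k, hk⟩).out : K) : A) * u' := h'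
      rw [hg]
      conv_lhs => rw [h2]
      group
    · rintro y ⟨hy, p₁, hp₁, u₁, hu₁, h₁⟩
      obtain ⟨q, _, rfl⟩ := Finset.mem_image.1 hy
      have h3 : q = Quotient.mk S ⟨k, hk⟩ := by
        rw [← Quotient.out_eq q]
        refine Quotient.sound ?_
        refine ⟨p⁻¹ * p₁, P.mul_mem (P.inv_mem hp) hp₁, u₁, hu₁, ?_⟩
        show k = _
        have h4 : k = p⁻¹ * g := by rw [hg]; group
        rw [h4, h₁]
        group
      rw [h3]

theorem Hyu_sum (D : IwD P K) (hU : IsOpen (U : Set A)) (hUK : U ≤ K) (h : A → ℂ)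
    (hl : ∀ p ∈ P, ∀ g, h (p * g) = ((mdl P p : ℝ) : ℂ) * h g)
    (hr : ∀ g, ∀ u ∈ U, h (g * u) = h g) (s : Finset A)
    (hs : ∀ g : A, ∃! y, y ∈ s ∧ ∃ p ∈ P, ∃ u ∈ U, g = p * y * u) (g : A) :
    h g = ∑ y ∈ s, h y * Hyu P y U g := by
  obtain ⟨y, ⟨hy, p, hp, u, hu, hg⟩, huniq⟩ := hs g
  rw [Finset.sum_eq_single y]
  · rw [hg, Hyu_mem D.P_cl (cpt_of_le D hU hUK) y p hp u hu, hr _ u hu, hl p hp, mul_comm]
  · intro z hz hzy
    rw [Hyu_not z g, mul_zero]
    rintro ⟨p', hp', u', hu', h'⟩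
    exact hzy (huniq z ⟨hz, p', hp', u', hu', h'⟩)
  · intro hy'
    exact absurd hy hy'

/-- the mean over `K` is invariant under right translations -/
theorem inv_main (D : IwD P K) (h : A → ℂ)
    (hl : ∀ p ∈ P, ∀ g, h (p * g) = ((mdl P p : ℝ) : ℂ) * h g)
    (U₀ : Subgroup A) (hU₀ : IsOpen (U₀ : Set A)) (hr : ∀ g, ∀ u ∈ U₀, h (g * u) = h g) (x : A) :
    mean K (fun g => h (g * x)) = mean K h := by
  classical
  let U : Subgroup A := U₀ ⊓ (K ⊓ cj x⁻¹ K)
  have hU : IsOpen (U : Set A) := hU₀.inter (D.K_open.inter (cj_open D.K_open x⁻¹))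
  have hUK : U ≤ K := inf_le_right.trans inf_le_left
  have hxU : cj x U ≤ K := by
    have h1 : cj x U ≤ cj x (cj x⁻¹ K) := cj_mono x (inf_le_right.trans inf_le_right)
    rwa [← cj_mul, mul_inv_cancel, cj_one] at h1
  have hUc : IsCompact (U : Set A) := cpt_of_le D hU hUK
  have hrU : ∀ g, ∀ u ∈ U, h (g * u) = h g := fun g u hu => hr g u hu.1
  obtain ⟨s, _, hs⟩ := dc_reps D hU hUK
  have key := Hyu_sum D hU hUK h hl hrU s hs
  have t1 : ∀ y ∈ s, Tm K (fun g => h y * Hyu P y U g) := fun y _ =>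
    tm_K D hU _ (fun g u hu => by rw [Hyu_right D.P_cl hUc y g u hu])
  have t2 : ∀ y ∈ s, Tm K (fun g => h y * Hyu P y U (g * x)) := fun y _ =>
    tm_K D (cj_open hU x) _ (fun g u hu => by
      have e : g * u * x = g * x * (x⁻¹ * u * x) := by group
      rw [e, Hyu_right D.P_cl hUc y (g * x) _ (mem_cj.1 hu)])
  have e1 : mean K h = ∑ y ∈ s, h y * mean K (Hyu P y U) := by
    have : h = fun g => ∑ y ∈ s, h y * Hyu P y U g := funext key
    conv_lhs => rw [this]
    rw [CMeanB_mean_sum K s _ t1]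
    refine Finset.sum_congr rfl fun y _ => ?_
    exact mean_map K (Hyu P y U) (tm_K D hU _ (fun g u hu => Hyu_right D.P_cl hUc y g u hu))
      (LinearMap.lsmul ℂ ℂ (h y))
  have e2 : mean K (fun g => h (g * x)) = ∑ y ∈ s, h y * mean K (fun g => Hyu P y U (g * x)) := by
    have : (fun g => h (g * x)) = fun g => ∑ y ∈ s, h y * Hyu P y U (g * x) :=
      funext fun g => key (g * x)
    rw [this, CMeanB_mean_sum K s _ t2]
    refine Finset.sum_congr rfl fun y _ => ?_
    exact mean_map K (fun g => Hyu P y U (g * x)) (tm_K D (cj_open hU x) _ (fun g u hu => by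
      have e : g * u * x = g * x * (x⁻¹ * u * x) := by group
      rw [e, Hyu_right D.P_cl hUc y (g * x) _ (mem_cj.1 hu)]))
      (LinearMap.lsmul ℂ ℂ (h y))
  rw [e1, e2]
  refine Finset.sum_congr rfl fun y _ => ?_
  rw [inv_shift D hU hUK x hxU y]

end

end Pool.Agent.Lib.MP_ca1492_al.P
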