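import Mathlib
import Pool.Agent.Lib.MP_ca1492_al.P.CDef
import Pool.Agent.Lib.MP_ca1492_al.P.Dual
import Pool.Agent.Lib.MP_ca1492_al.P.InvC

/-!
# MP_ca1492_al, p-adic side, module PairA: pairing of induced representations, abstract form

`a`, `a'` smooth representations of `P`, `β (a p e) (a' p e') = mdl P p * β e e'`. The pairing is
`(f, f') ↦ mean K (k ↦ β (f k) (f' k))`.

* `pairA_add_left` etc.: `mean_add`, `mean_map`; tameness: `tm_K` with a common open subgroup.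
* `pairA_inv`: `inv_main` for `h g = β (f g) (f' g)`.
* `bump`: for `e ∈ E'`, `k ∈ A` and an open subgroup `U₀` there are an open subgroup `U ≤ U₀` and
  `f' ∈ IS P a'` with `f' (p k u) = a' p e` for `p ∈ P`, `u ∈ U` and `f' = 0` off `P k U`. Let
  `V = {p ∈ P | a' p e = e}`, open in `P`, say `V = P ∩ O`, `O` open in `A`; take `U ≤ U₀` open with
  `k U k⁻¹ ⊆ O` and compact (`U ≤ U₀ ⊓ K`, small: the compact open subgroups are a basis at `1`: hypothesis
  `hb : HasCO A`). Well defined: `p k u = p₁ k u₁` gives `p₁⁻¹ p ∈ P ∩ k U k⁻¹ ⊆ V`. Right `U`-invariant.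
* `pairA_left`: if `f ≠ 0` then `f k ≠ 0` for a `k ∈ K` (`f (p k) = a p (f k)`); `e'` with
  `β (f k) e' ≠ 0`; `U₀ = K ⊓` (invariance group of `f`); `bump` gives `f'`; `β (f g) (f' g) =
  β (f k) e' * Hyu P k U g`; `inv_k`, `inv_y_pos`, `mean_map`.
* `pairA_right`: `pairA_left` for `β.flip`.
-/

set_option autoImplicit false

namespace Pool.Agent.Lib.MP_ca1492_al.P

open Topology

noncomputable section

variable {A : Type} [Group A] [TopologicalSpace A] [IsTopologicalGroup A] [T2Space A]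
variable {P K : Subgroup A}
variable {E E' : Type} [AddCommGroup E] [Module ℂ E] [AddCommGroup E'] [Module ℂ E']
variable (D : IwD P K) (a : Representation ℂ P E) (a' : Representation ℂ P E')
  (β : E →ₗ[ℂ] E' →ₗ[ℂ] ℂ)
  (hβ : ∀ (p : P) (e : E) (e' : E'), β (a p e) (a' p e') = ((mdl P (p : A) : ℝ) : ℂ) * β e e')

include D in
theorem pairA_tm (f : A → E) (f' : A → E') (hf : f ∈ IS P a) (hf' : f' ∈ IS P a') :
    Tm K (fun k => β (f k) (f' k)) := by
  obtain ⟨-, U, hU, h⟩ := hf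
  obtain ⟨-, U', hU', h'⟩ := hf'
  refine tm_K (U := U ⊓ U') D (hU.inter hU') _ fun g u hu => ?_
  show β (f (g * u)) (f' (g * u)) = _
  rw [h g u hu.1, h' g u hu.2]

include D in
theorem pairA_add_left (f₁ f₂ : A → E) (f' : A → E') (hf₁ : f₁ ∈ IS P a) (hf₂ : f₂ ∈ IS P a)
    (hf' : f' ∈ IS P a') : mean K (fun k => β ((f₁ + f₂) k) (f' k)) =
      mean K (fun k => β (f₁ k) (f' k)) + mean K (fun k => β (f₂ k) (f' k)) := by
  rw [← mean_add K _ _ (pairA_tm D a a' β f₁ f' hf₁ hf') (pairA_tm D a a' β f₂ f' hf₂ hf')]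
  congr 1
  funext k
  rw [Pi.add_apply, map_add, LinearMap.add_apply]

include D in
theorem pairA_add_right (f : A → E) (f₁ f₂ : A → E') (hf : f ∈ IS P a) (hf₁ : f₁ ∈ IS P a')
    (hf₂ : f₂ ∈ IS P a') : mean K (fun k => β (f k) ((f₁ + f₂) k)) =
      mean K (fun k => β (f k) (f₁ k)) + mean K (fun k => β (f k) (f₂ k)) := by
  rw [← mean_add K _ _ (pairA_tm D a a' β f f₁ hf hf₁) (pairA_tm D a a' β f f₂ hf hf₂)]
  congr 1
  funext k
  rw [Pi.add_apply, map_add]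

include D in
theorem pairA_smul_left (c : ℂ) (f : A → E) (f' : A → E') (hf : f ∈ IS P a) (hf' : f' ∈ IS P a') :
    mean K (fun k => β ((c • f) k) (f' k)) = c • mean K (fun k => β (f k) (f' k)) := by
  have h := mean_map K _ (pairA_tm D a a' β f f' hf hf') (c • (LinearMap.id : ℂ →ₗ[ℂ] ℂ))
  refine Eq.trans ?_ (h.trans rfl)
  congr 1
  funext k
  rw [Pi.smul_apply, map_smul, LinearMap.smul_apply]
  rfl

include D in
theorem pairA_smul_right (c : ℂ) (f : A → E) (f' : A → E') (hf : f ∈ IS P a) (hf' : f' ∈ IS P a') :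
    mean K (fun k => β (f k) ((c • f') k)) = c • mean K (fun k => β (f k) (f' k)) := by
  have h := mean_map K _ (pairA_tm D a a' β f f' hf hf') (c • (LinearMap.id : ℂ →ₗ[ℂ] ℂ))
  refine Eq.trans ?_ (h.trans rfl)
  congr 1
  funext k
  rw [Pi.smul_apply, map_smul]
  rfl

include D hβ in
theorem pairA_inv (f : A → E) (f' : A → E') (hf : f ∈ IS P a) (hf' : f' ∈ IS P a') (x : A) :
    mean K (fun k => β (f (k * x)) (f' (k * x))) = mean K (fun k => β (f k) (f' k)) := by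
  obtain ⟨hf1, U, hU, h⟩ := hf
  obtain ⟨hf1', U', hU', h'⟩ := hf'
  refine inv_main D (fun g => β (f g) (f' g)) (fun p hp g => ?_) (U ⊓ U') (hU.inter hU')
    (fun g u hu => ?_) x
  · show β (f (p * g)) (f' (p * g)) = _
    have e1 := hf1 ⟨p, hp⟩ g
    have e2 := hf1' ⟨p, hp⟩ g
    simp only at e1 e2
    rw [e1, e2, hβ]
  · show β (f (g * u)) (f' (g * u)) = _
    rw [h g u hu.1, h' g u hu.2]

omit [TopologicalSpace A] [IsTopologicalGroup A] [T2Space A] in
theorem PairA_wd (e : E') (k : A) (U : Subgroup A)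
    (hO : ∀ u ∈ U, ∀ h : k * u * k⁻¹ ∈ P, a' ⟨k * u * k⁻¹, h⟩ e = e) (p p₁ : P) (u u₁ : A)
    (hu : u ∈ U) (hu₁ : u₁ ∈ U) (h : (p : A) * k * u = p₁ * k * u₁) : a' p e = a' p₁ e := by
  have h1 : (p₁⁻¹ * p : P).1 = k * (u₁ * u⁻¹) * k⁻¹ := by
    show p₁.1⁻¹ * p.1 = _
    have h2 : p.1 = p₁.1 * k * u₁ * u⁻¹ * k⁻¹ := by
      rw [← h]
      group
    rw [h2]
    group
  have h2 : k * (u₁ * u⁻¹) * k⁻¹ ∈ P := by
    rw [← h1]
    exact (p₁⁻¹ * p).2
  have h3 := hO _ (U.mul_mem hu₁ (U.inv_mem hu)) h2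
  have h4 : (⟨_, h2⟩ : P) = p₁⁻¹ * p := Subtype.ext h1.symm
  rw [h4, map_mul, Module.End.mul_apply] at h3
  have h5 := congrArg (a' p₁) h3
  rw [← Module.End.mul_apply, ← map_mul, mul_inv_cancel, map_one, Module.End.one_apply] at h5
  exact h5

open Classical in
/-- the function supported on `P k U` with value `a' p e` at `p k u` -/
def PairA_bump (e : E') (k : A) (U : Subgroup A) (g : A) : E' :=
  if h : ∃ p : P, ∃ u ∈ U, g = (p : A) * k * u then a' h.choose e else 0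

omit [TopologicalSpace A] [IsTopologicalGroup A] [T2Space A] in
theorem PairA_bump_mem (e : E') (k : A) (U : Subgroup A)
    (hO : ∀ u ∈ U, ∀ h : k * u * k⁻¹ ∈ P, a' ⟨k * u * k⁻¹, h⟩ e = e) (p : P) (u : A)
    (hu : u ∈ U) : PairA_bump a' e k U ((p : A) * k * u) = a' p e := by
  have h : ∃ p' : P, ∃ u' ∈ U, (p : A) * k * u = (p' : A) * k * u' := ⟨p, u, hu, rfl⟩
  unfold PairA_bump
  rw [dif_pos h]
  obtain ⟨u', hu', he⟩ := h.choose_spec
  exact (PairA_wd a' e k U hO p h.choose u u' hu hu' he).symm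

omit [TopologicalSpace A] [IsTopologicalGroup A] [T2Space A] in
theorem PairA_bump_not (e : E') (k : A) (U : Subgroup A) (g : A)
    (h : ¬ ∃ p : P, ∃ u ∈ U, g = (p : A) * k * u) : PairA_bump a' e k U g = 0 := by
  unfold PairA_bump
  rw [dif_neg h]

/-- functions supported on one double coset -/
theorem bump (hP : IsClosed (P : Set A))
    (hb : HasCO A)
    (ha' : IsSm a') (e : E') (k : A) (U₀ : Subgroup A) (hU₀ : IsOpen (U₀ : Set A)) :
    ∃ U : Subgroup A, IsOpen (U : Set A) ∧ IsCompact (U : Set A) ∧ U ≤ U₀ ∧ ∃ f' ∈ IS P a',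
      (∀ (p : P), ∀ u ∈ U, f' (p * k * u) = a' p e) ∧
      ∀ g, (¬ ∃ p ∈ P, ∃ u ∈ U, g = p * k * u) → f' g = 0 := by
  obtain ⟨O, hO, hOV⟩ := isOpen_induced_iff.1 (ha' e)
  have hOm : ∀ p : P, (p : A) ∈ O ↔ a' p e = e := by
    intro p
    have h1 : p ∈ Subtype.val ⁻¹' O ↔ p ∈ {g : P | a' g e = e} := by rw [hOV]
    exact h1
  have hN : {x : A | x ∈ U₀ ∧ k * x * k⁻¹ ∈ O} ∈ 𝓝 (1 : A) := by
    have h1 : IsOpen {x : A | x ∈ U₀ ∧ k * x * k⁻¹ ∈ O} :=
      hU₀.inter (hO.preimage (by fun_prop))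
    refine h1.mem_nhds ⟨U₀.one_mem, ?_⟩
    have h2 : k * 1 * k⁻¹ = ((1 : P) : A) := by
      rw [mul_one, mul_inv_cancel, Subgroup.coe_one]
    rw [h2, hOm, map_one, Module.End.one_apply]
  obtain ⟨U, hU, hUc, hUN⟩ := hb _ hN
  have hUO : ∀ u ∈ U, ∀ h : k * u * k⁻¹ ∈ P, a' ⟨k * u * k⁻¹, h⟩ e = e := by
    intro u hu h
    exact (hOm ⟨_, h⟩).1 (hUN hu).2
  refine ⟨U, hU, hUc, fun u hu => (hUN hu).1, PairA_bump a' e k U, ⟨?_, U, hU, ?_⟩,
    fun p u hu => PairA_bump_mem a' e k U hUO p u hu, ?_⟩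
  · intro p g
    by_cases h : ∃ p' : P, ∃ u ∈ U, g = (p' : A) * k * u
    · obtain ⟨p', u, hu, rfl⟩ := h
      have e1 : (p : A) * ((p' : A) * k * u) = ((p * p' : P) : A) * k * u := by
        rw [Subgroup.coe_mul]
        group
      rw [e1, PairA_bump_mem a' e k U hUO _ u hu, PairA_bump_mem a' e k U hUO _ u hu, map_mul,
        Module.End.mul_apply]
    · have h' : ¬ ∃ p' : P, ∃ u ∈ U, (p : A) * g = (p' : A) * k * u := by
        rintro ⟨p', u, hu, h1⟩
        apply h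
        refine ⟨p⁻¹ * p', u, hu, ?_⟩
        have h2 : g = (p : A)⁻¹ * ((p : A) * g) := by group
        rw [h2, h1, Subgroup.coe_mul, Subgroup.coe_inv]
        group
      rw [PairA_bump_not a' e k U _ h, PairA_bump_not a' e k U _ h', map_zero]
  · intro g v hv
    by_cases h : ∃ p' : P, ∃ u ∈ U, g = (p' : A) * k * u
    · obtain ⟨p', u, hu, rfl⟩ := h
      have e1 : (p' : A) * k * u * v = (p' : A) * k * (u * v) := by group
      rw [e1, PairA_bump_mem a' e k U hUO _ _ (U.mul_mem hu hv),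
        PairA_bump_mem a' e k U hUO _ u hu]
    · have h' : ¬ ∃ p' : P, ∃ u ∈ U, g * v = (p' : A) * k * u := by
        rintro ⟨p', u, hu, h1⟩
        apply h
        refine ⟨p', u * v⁻¹, U.mul_mem hu (U.inv_mem hv), ?_⟩
        have h2 : g = g * v * v⁻¹ := by group
        rw [h2, h1]
        group
      rw [PairA_bump_not a' e k U _ h, PairA_bump_not a' e k U _ h']
  · intro g hg
    refine PairA_bump_not a' e k U g ?_
    rintro ⟨p, u, hu, h⟩
    exact hg ⟨p, p.2, u, hu, h⟩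

include D hβ in
theorem pairA_left
    (hb : HasCO A)
    (ha' : IsSm a') (hk : ∀ e, (∀ e', β e e' = 0) → e = 0) (f : A → E) (hf : f ∈ IS P a)
    (h0 : ∀ f' ∈ IS P a', mean K (fun k => β (f k) (f' k)) = 0) : f = 0 := by
  by_contra hne
  obtain ⟨g, hg⟩ : ∃ g, f g ≠ 0 := by
    by_contra hcon
    push Not at hcon
    exact hne (funext hcon)
  obtain ⟨hf1, U₁, hU₁, hf2⟩ := hf
  obtain ⟨p, hp, k, hkK, rfl⟩ := D.iw g
  have hfk : f k ≠ 0 := by
    intro h1
    apply hg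
    have h2 := hf1 ⟨p, hp⟩ k
    simp only at h2
    rw [h2, h1, map_zero]
  obtain ⟨e', he'⟩ : ∃ e', β (f k) e' ≠ 0 := by
    by_contra hcon
    push Not at hcon
    exact hfk (hk _ hcon)
  obtain ⟨U, hU, hUc, hUle, f', hf', hb1, hb2⟩ := bump a' D.P_cl hb ha' e' k (K ⊓ U₁)
    (D.K_open.inter hU₁)
  have hfun : (fun g => β (f g) (f' g)) = fun g =>
      (β (f k) e' • (LinearMap.id : ℂ →ₗ[ℂ] ℂ)) (Hyu P k U g) := by
    funext g
    by_cases h : ∃ p ∈ P, ∃ u ∈ U, g = p * k * u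
    · obtain ⟨p, hp, u, hu, rfl⟩ := h
      have e1 : f (p * k * u) = a ⟨p, hp⟩ (f k) := by
        rw [mul_assoc]
        have h2 := hf1 ⟨p, hp⟩ (k * u)
        simp only at h2
        rw [h2, hf2 k u (hUle hu).2]
      have e2 := hb1 ⟨p, hp⟩ u hu
      simp only at e2
      rw [e1, e2, hβ, Hyu_mem D.P_cl hUc k p hp u hu]
      show _ = β (f k) e' • ((mdl P p : ℝ) : ℂ)
      rw [smul_eq_mul, mul_comm]
    · rw [hb2 g h, map_zero, Hyu_not k g h, map_zero]
  have hT : Tm K (Hyu P k U) := tm_K (U := U) D hU _ fun g u hu =>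
    Hyu_right D.P_cl hUc k g u hu
  have h1 := h0 f' hf'
  rw [hfun, mean_map K _ hT, inv_y D hU (hUle.trans inf_le_left) k] at h1
  have h2 := inv_y_pos D hU (hUle.trans inf_le_left) k
  have h3 : β (f k) e' • (((gi (P ⊓ K) (P ⊓ cj k U) * (gi K U)⁻¹ : ℝ)) : ℂ) = 0 := h1
  rw [smul_eq_mul, mul_eq_zero] at h3
  rcases h3 with h3 | h3
  · exact he' h3
  · exact absurd (Complex.ofReal_eq_zero.1 h3) h2.ne'

include D hβ in
theorem pairA_right
    (hb : HasCO A)
    (ha : IsSm a) (hk : ∀ e', (∀ e, β e e' = 0) → e' = 0) (f' : A → E') (hf' : f' ∈ IS P a')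
    (h0 : ∀ f ∈ IS P a, mean K (fun k => β (f k) (f' k)) = 0) : f' = 0 := by
  refine pairA_left D a' a β.flip (fun p e e' => ?_) hb ha (fun e he => hk e fun e' => he e')
    f' hf' (fun f hf => h0 f hf)
  rw [LinearMap.flip_apply, LinearMap.flip_apply, hβ]

end

end Pool.Agent.Lib.MP_ca1492_al.P
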