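import Mathlib
import Pool.Agent.Lib.MP_ca1492_al.P.ModUpp
import Pool.Agent.Lib.MP_ca1492_al.P.PairA

/-!
# MP_ca1492_al, p-adic side, module PairI: the contragredient pairing of induced representations

`σ`, `σ'` representations of `lev F c`, `β : E → E' → ℂ` bilinear with
`β (σ m e) (σ' m e') = dlt m * β e e'` (`dlt` = modulus character, module CNorm). Then
`ipair` is the pairing `(f, f') ↦ mean over Kc 0 of β (f k) (f' k)` on `Ind σ × Ind σ'`.

* `iwD_lev`: `iwasawa`, `mdl_top_lev`, `upp_isClosed`, `Kc_isCompact`, `Kc_isOpen`.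
* `ipair_inv`, `ipair_left`, `ipair_right`: `pairA_inv`, `pairA_left`, `pairA_right` through
  `mem_IndSp_iff` and `mdl_PPs` (`aP c cb o h σ p = σ (prL p)`), `CGLa_lev_hasCO`.
* `ipair_map`: pointwise.
-/

set_option autoImplicit false

namespace Pool.Agent.Lib.MP_ca1492_al.P

open Topology Matrix ValuativeRel

noncomputable section

variable {F : Type} [Field F] [ValuativeRel F] [TopologicalSpace F]
  [IsNonarchimedeanLocalField F]
variable {κ : Type} [Fintype κ] [DecidableEq κ]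

/-- the integral points of `lev F cb` -/
def Klv (F : Type) [Field F] [ValuativeRel F] [TopologicalSpace F]
    [IsNonarchimedeanLocalField F] {κ : Type} [Fintype κ] [DecidableEq κ] {ι : Type}
    (cb : κ → ι) : Subgroup (lev F cb) := (Kc F κ 0).subgroupOf (lev F cb)

theorem iwD_lev {ι : Type} (cb : κ → ι) (o : κ → ℤ) : IwD (PPs F cb o) (Klv F cb) where
  P_cl := (upp_isClosed (F := F) cb o).preimage continuous_subtype_val
  K_cpt := by
    have h1 : ((Klv F cb : Subgroup (lev F cb)) : Set (lev F cb)) =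
        Subtype.val ⁻¹' (Kc F κ 0 : Set (GL κ F)) := rfl
    rw [h1]
    exact (lev_isClosed (F := F) cb).isClosedEmbedding_subtypeVal.isCompact_preimage
      (Kc_isCompact 0)
  K_open := (Kc_isOpen (F := F) (κ := κ) 0).preimage continuous_subtype_val
  iw := by
    intro g
    obtain ⟨p, hp, k, hk, hkl, hg⟩ := iwasawa cb o g.1 g.2
    exact ⟨⟨p, hp.1⟩, hp, ⟨k, hkl⟩, hk, Subtype.ext hg⟩
  umod := mdl_top_lev cb

section

variable {ι ι' : Type} (c : κ → ι) (cb : κ → ι') (o : κ → ℤ)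
  (h : ∀ i j, c i = c j ↔ cb i = cb j ∧ o i = o j)
variable {E E' : Type} [AddCommGroup E] [Module ℂ E] [AddCommGroup E'] [Module ℂ E']
variable (σ : Representation ℂ (lev F c) E) (σ' : Representation ℂ (lev F c) E')
  (β : E →ₗ[ℂ] E' →ₗ[ℂ] ℂ)

/-- the pairing on induced representations -/
def ipair : (parD c cb o h).IndSp σ →ₗ[ℂ] (parD c cb o h).IndSp σ' →ₗ[ℂ] ℂ :=
  haveI : T2Space (lev F cb) := lev_t2 cb
  LinearMap.mk₂ ℂ (fun f f' => mean (Klv F cb) (fun k => β (f.1 k) (f'.1 k)))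
    (fun f₁ f₂ f' => pairA_add_left (iwD_lev cb o) (aP c cb o h σ) (aP c cb o h σ') β f₁.1 f₂.1
      f'.1 ((mem_IndSp_iff c cb o h σ f₁.1).1 f₁.2) ((mem_IndSp_iff c cb o h σ f₂.1).1 f₂.2)
      ((mem_IndSp_iff c cb o h σ' f'.1).1 f'.2))
    (fun r f f' => pairA_smul_left (iwD_lev cb o) (aP c cb o h σ) (aP c cb o h σ') β r f.1
      f'.1 ((mem_IndSp_iff c cb o h σ f.1).1 f.2)
      ((mem_IndSp_iff c cb o h σ' f'.1).1 f'.2))
    (fun f f₁ f₂ => pairA_add_right (iwD_lev cb o) (aP c cb o h σ) (aP c cb o h σ') β f.1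
      f₁.1 f₂.1 ((mem_IndSp_iff c cb o h σ f.1).1 f.2)
      ((mem_IndSp_iff c cb o h σ' f₁.1).1 f₁.2) ((mem_IndSp_iff c cb o h σ' f₂.1).1 f₂.2))
    (fun r f f' => pairA_smul_right (iwD_lev cb o) (aP c cb o h σ) (aP c cb o h σ') β r f.1
      f'.1 ((mem_IndSp_iff c cb o h σ f.1).1 f.2)
      ((mem_IndSp_iff c cb o h σ' f'.1).1 f'.2))

theorem ipair_apply (f : (parD c cb o h).IndSp σ) (f' : (parD c cb o h).IndSp σ') :
    ipair c cb o h σ σ' β f f' = mean (Klv F cb) (fun k => β (f.1 k) (f'.1 k)) := rfl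

theorem PairI_β
    (hβ : ∀ (m : lev F c) (e : E) (e' : E'),
      β (σ m e) (σ' m e') = (dlt c cb o h m : ℂ) * β e e')
    (p : PPs F cb o) (e : E) (e' : E') :
    β (aP c cb o h σ p e) (aP c cb o h σ' p e') =
      ((mdl (PPs F cb o) (p : lev F cb) : ℝ) : ℂ) * β e e' := by
  rw [mdl_PPs c cb o h p]
  exact hβ _ e e'

/-- invariance under `lev F cb` -/
theorem ipair_inv
    (hβ : ∀ (m : lev F c) (e : E) (e' : E'),
      β (σ m e) (σ' m e') = (dlt c cb o h m : ℂ) * β e e')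
    (g : lev F cb) (f : (parD c cb o h).IndSp σ) (f' : (parD c cb o h).IndSp σ') :
    ipair c cb o h σ σ' β ((parD c cb o h).Ind σ g f) ((parD c cb o h).Ind σ' g f') =
      ipair c cb o h σ σ' β f f' := by
  haveI : T2Space (lev F cb) := lev_t2 cb
  exact pairA_inv (iwD_lev cb o) (aP c cb o h σ) (aP c cb o h σ') β
    (PairI_β c cb o h σ σ' β hβ) f.1 f'.1 ((mem_IndSp_iff c cb o h σ f.1).1 f.2)
    ((mem_IndSp_iff c cb o h σ' f'.1).1 f'.2) g

/-- the left kernel vanishes -/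
theorem ipair_left
    (hβ : ∀ (m : lev F c) (e : E) (e' : E'),
      β (σ m e) (σ' m e') = (dlt c cb o h m : ℂ) * β e e')
    (hσ' : IsSm σ') (hk : ∀ e, (∀ e', β e e' = 0) → e = 0)
    (f : (parD c cb o h).IndSp σ) (h0 : ∀ f', ipair c cb o h σ σ' β f f' = 0) : f = 0 := by
  haveI : T2Space (lev F cb) := lev_t2 cb
  refine Subtype.ext ?_
  exact pairA_left (iwD_lev cb o) (aP c cb o h σ) (aP c cb o h σ') β
    (PairI_β c cb o h σ σ' β hβ) (CGLa_lev_hasCO cb) (aP_smooth c cb o h σ' hσ') hk f.1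
    ((mem_IndSp_iff c cb o h σ f.1).1 f.2)
    (fun f' hf' => h0 ⟨f', (mem_IndSp_iff c cb o h σ' f').2 hf'⟩)

/-- the right kernel vanishes -/
theorem ipair_right
    (hβ : ∀ (m : lev F c) (e : E) (e' : E'),
      β (σ m e) (σ' m e') = (dlt c cb o h m : ℂ) * β e e')
    (hσ : IsSm σ) (hk : ∀ e', (∀ e, β e e' = 0) → e' = 0)
    (f' : (parD c cb o h).IndSp σ') (h0 : ∀ f, ipair c cb o h σ σ' β f f' = 0) : f' = 0 := by
  haveI : T2Space (lev F cb) := lev_t2 cb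
  refine Subtype.ext ?_
  exact pairA_right (iwD_lev cb o) (aP c cb o h σ) (aP c cb o h σ') β
    (PairI_β c cb o h σ σ' β hβ) (CGLa_lev_hasCO cb) (aP_smooth c cb o h σ hσ) hk f'.1
    ((mem_IndSp_iff c cb o h σ' f'.1).1 f'.2)
    (fun f hf => h0 ⟨f, (mem_IndSp_iff c cb o h σ f).2 hf⟩)

end

/-- functoriality: adjoint maps -/
theorem ipair_map {ι ι' : Type} (c : κ → ι) (cb : κ → ι') (o : κ → ℤ)
    (h : ∀ i j, c i = c j ↔ cb i = cb j ∧ o i = o j)
    {E E' E₂ E₂' : Type} [AddCommGroup E] [Module ℂ E] [AddCommGroup E'] [Module ℂ E']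
    [AddCommGroup E₂] [Module ℂ E₂] [AddCommGroup E₂'] [Module ℂ E₂']
    (σ : Representation ℂ (lev F c) E) (σ' : Representation ℂ (lev F c) E')
    (σ₂ : Representation ℂ (lev F c) E₂) (σ₂' : Representation ℂ (lev F c) E₂')
    (β : E →ₗ[ℂ] E' →ₗ[ℂ] ℂ) (β₂ : E₂ →ₗ[ℂ] E₂' →ₗ[ℂ] ℂ)
    (T : E →ₗ[ℂ] E₂) (hT : Equi σ σ₂ T) (T' : E₂' →ₗ[ℂ] E') (hT' : Equi σ₂' σ' T')
    (hTT : ∀ e e', β₂ (T e) e' = β e (T' e'))
    (f : (parD c cb o h).IndSp σ) (f' : (parD c cb o h).IndSp σ₂') :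
    ipair c cb o h σ₂ σ₂' β₂ ((parD c cb o h).IndMap σ σ₂ T hT f) f' =
      ipair c cb o h σ σ' β f ((parD c cb o h).IndMap σ₂' σ' T' hT' f') := by
  rw [ipair_apply, ipair_apply]
  congr 1
  funext k
  exact hTT _ _

end

end Pool.Agent.Lib.MP_ca1492_al.P
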