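import Mathlib
import Pool.Agent.Lib.MP_ca1492_al.P.CFun
import Pool.Agent.Lib.MP_ca1492_al.P.CuspInj2

/-!
# MP_ca1492_al, p-adic side, module FaithA: cuspidal subquotients of Jacquet modules of induced
representations

`X = Ind_{D₁} σ`, `σ` smooth cuspidal on `lev c₁`; `J = X / kerJ` the Jacquet module for
`D₂ = parD c₂ cb o₂ h₂`; `τ` an irreducible smooth cuspidal representation of `lev c₂` which is a
quotient (`q`, surjective) of a stable subspace `Y₁` of `J`.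

Proof of `faith`. Take the enumeration `w_0, ..., w_{r-1}` of `cell_order`, `U_k` the open sets,
`X_k = IndOn D₁ σ U_k`, `J_k` = image of `X_k` in `J`. `J_0 = 0`, `J_r = J`. The `X_k` and so the `J_k`
are stable under `lev c₂` (`U_k` is right `P₂`-stable). Let `k` be minimal with
`q (Y₁ ∩ J_{k+1}) ≠ 0` (it exists since `q ≠ 0`). So `q` vanishes on `Y₁ ∩ J_k`, and
`q (Y₁ ∩ J_{k+1}) = W` by irreducibility. Write `w = w_k`.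
* If `w` is dead then `X_{k+1} ≤ X_k + kerJ` (`gl_step_dead`, `sub_avg_mem_span`), `J_{k+1} = J_k`,
  contradiction.
* So `w` is live: `c₁ (w i) = c₁ (w j) → c₂ i = c₂ j`. For `m ∈ lev c₂` the functional
  `Λ_m : X_{k+1} → E`, `f ↦ Lam f m` (`lam_lin`) vanishes on `X_{k+1} ∩ kerJ`: if `f ∈ X_{k+1} ∩ kerJ`
  there is a compact `K ≤ N₂` with `avg K f = 0` (`mem_kerJ_iff`), and `Λ_m (avg K f) = Λ_m f` because
  `Λ_m` is `N₂`-invariant on `X_{k+1}` (average over a finite set of representatives, `avg_sum`; `X_{k+1}`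
  is `N₂`-stable). So `Λ_m` descends to `J_{k+1}`; if `Λ_m y = 0` for all `m` then `y ∈ J_k`
  (`gl_step_live`).
* If `w` is not associate: there are `i, j` with `c₂ i = c₂ j` and `c₁ (w i) ≠ c₁ (w j)`, so
  `o = o₁ ∘ w` is not constant on a class of `c₂`. For `h ∈ uni F c₂ o`, `w h w⁻¹ ∈ uni F cb o₁` acts
  trivially, and `Λ_{h m} y = Λ_m y` (`lam_left`, factor `1`: `chi` of an element `h` of a compact
  subgroup normalizing `N₂` and `B` is `1`; or without moduli: `factor(h)` is a homomorphism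
  `uni F c₂ o → ℂˣ` with values in powers of positive rationals, trivial because `uni` is a union of
  compact subgroups, and a bounded subgroup of the positive rationals is trivial). Let `M⁰ = lev0 c₂`.
  `cusp0_lift`: `τ|M⁰` is `HasLift`, so there is an `M⁰`-equivariant `s : W → Y₁ ∩ J_{k+1}` with
  `q ∘ s = id`. Fix `m ∈ lev c₂`. The linear map `v ↦ Λ_m (s v)` kills `τ(u) v - v` for
  `u = m⁻¹ h m`, `h ∈ uni F c₂ o`: `Λ_m (s (τ(u) v)) = Λ_m (u (s v)) = Λ_{m u} (s v) = Λ_{h m} (s v)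
  = Λ_m (s v)` (`u ∈ lev0 c₂`). These vectors span `W` (`Cusp c₂ τ` for `o`, transported by `τ(m⁻¹)`). So
  `Λ_m (s v) = 0` for all `m`, `s v ∈ J_k`, `v = q (s v) = 0` for all `v`: contradiction.
* So `w` is associate: `c₁ (w i) = c₁ (w j) ↔ c₂ i = c₂ j`. `Λ = Λ_1 : J_{k+1} → E` has kernel `J_k`
  (`lam_equi`: `Λ_1 (m y) = Λ_m y = cfac m • σ(w m w⁻¹) Λ_1 y`). `E' = Λ (Y₁ ∩ J_{k+1})`,
  `r (Λ y) = q y`: well defined. `E'` is stable under `σ(w m w⁻¹)`, `m ∈ lev c₂`, i.e. under all of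
  `σ(lev c₁)`.
-/

set_option autoImplicit false

namespace Pool.Agent.Lib.MP_ca1492_al.P

open Topology Matrix ValuativeRel

noncomputable section

variable {F : Type} [Field F] [ValuativeRel F] [TopologicalSpace F]
  [IsNonarchimedeanLocalField F] {κ : Type} [Fintype κ] [DecidableEq κ]
variable {E W : Type} [AddCommGroup E] [Module ℂ E] [AddCommGroup W] [Module ℂ W]
variable {ι₀ ι₁ ι₂ : Type}

theorem FaithA_chi_one {A : Type} [Group A] (N₀ K : Subgroup A) (m : A) (h1 : N₀ ≤ K)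
    (h3 : N₀.relIndex K ≠ 0) (hK : ∀ x, m * x * m⁻¹ ∈ K ↔ x ∈ K) : chi N₀ m = 1 := by
  have hK₁ : K = K.map (MulAut.conj m).toMonoidHom := by
    ext x
    constructor
    · intro hx
      refine ⟨m⁻¹ * x * m, ?_, ?_⟩
      · show m⁻¹ * x * m ∈ K
        rw [← hK]
        have e : m * (m⁻¹ * x * m) * m⁻¹ = x := by group
        rw [e]
        exact hx
      · show m * (m⁻¹ * x * m) * m⁻¹ = x
        group
    · rintro ⟨y, hy, rfl⟩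
      exact (hK y).2 hy
  obtain ⟨-, h⟩ := CIntB_chi N₀ K K m hK₁ h1 h1 h3 h3
  have h' : (N₀.relIndex K : ℂ) ≠ 0 := Nat.cast_ne_zero.2 h3
  exact mul_left_cancel₀ h' (by rw [mul_one, ← h])

theorem FaithA_bound (o : κ → ℤ) : ∃ L : ℤ, ∀ i j, o i - o j < L := by
  refine ⟨1 + ∑ i, ∑ j, |o i - o j|, fun i j => ?_⟩
  have h1 : |o i - o j| ≤ ∑ j, |o i - o j| :=
    Finset.single_le_sum (f := fun j => |o i - o j|) (fun _ _ => abs_nonneg _) (Finset.mem_univ j)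
  have h2 : ∑ j, |o i - o j| ≤ ∑ i, ∑ j, |o i - o j| :=
    Finset.single_le_sum (f := fun i => ∑ j, |o i - o j|)
      (fun _ _ => Finset.sum_nonneg fun _ _ => abs_nonneg _) (Finset.mem_univ i)
  have h3 := le_abs_self (o i - o j)
  omega

/-- a common refinement of the order functions `o₂` and `o` -/
theorem FaithA_refine (cb : κ → ι₀) (c₂ : κ → ι₂) (o₂ : κ → ℤ)
    (h₂ : ∀ i j, c₂ i = c₂ j ↔ cb i = cb j ∧ o₂ i = o₂ j) (o : κ → ℤ) :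
    ∃ o' : κ → ℤ, uni F cb o₂ ≤ uni F cb o' ∧ uni F c₂ o ≤ uni F cb o' := by
  obtain ⟨L, hL⟩ := FaithA_bound o
  have key : ∀ i j, o₂ i < o₂ j → L * o₂ i + o i < L * o₂ j + o j := by
    intro i j hij
    have h0 : 0 < L := by
      have := hL i i
      omega
    have h1 := hL i j
    have h3 : L * o₂ i ≤ L * (o₂ j - 1) := mul_le_mul_of_nonneg_left (by omega) h0.le
    have h4 : L * (o₂ j - 1) = L * o₂ j - L := by ring
    omega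
  refine ⟨fun i => L * o₂ i + o i, ?_, ?_⟩
  · intro g hg
    refine ⟨⟨hg.1.1, fun i j hij => ?_⟩, fun i j hij => ?_⟩
    · replace hij : L * o₂ j + o j < L * o₂ i + o i := hij
      rcases lt_trichotomy (o₂ i) (o₂ j) with h | h | h
      · have := key i j h
        omega
      · rw [hg.2 i j h, Matrix.one_apply_ne]
        rintro rfl
        exact lt_irrefl _ hij
      · exact hg.1.2 i j h
    · replace hij : L * o₂ i + o i = L * o₂ j + o j := hij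
      rcases lt_trichotomy (o₂ i) (o₂ j) with h | h | h
      · have := key i j h
        omega
      · exact hg.2 i j h
      · have := key j i h
        omega
  · intro g hg
    refine ⟨⟨lev_le c₂ cb (fun i j hij => ((h₂ i j).1 hij).1) hg.1.1, fun i j hij => ?_⟩,
      fun i j hij => ?_⟩
    · replace hij : L * o₂ j + o j < L * o₂ i + o i := hij
      by_cases hc : c₂ i = c₂ j
      · have h5 := ((h₂ i j).1 hc).2
        rw [h5] at hij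
        exact hg.1.2 i j (by omega)
      · exact hg.1.1 i j hc
    · replace hij : L * o₂ i + o i = L * o₂ j + o j := hij
      by_cases hc : c₂ i = c₂ j
      · have h5 := ((h₂ i j).1 hc).2
        rw [h5] at hij
        exact hg.2 i j (by omega)
      · rw [hg.1.1 i j hc, Matrix.one_apply_ne]
        rintro rfl
        exact hc rfl

/-- `w m w⁻¹` is in the first parabolic subgroup -/
theorem FaithA_conj_upp (cb : κ → ι₀) (o₁ : κ → ℤ) (c₂ : κ → ι₂) (w : Equiv.Perm κ)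
    (hw : ∀ i, cb (w i) = cb i) (o : κ → ℤ) (ho : ∀ i, o i = o₁ (w i)) (m : lev F cb)
    (hm : m.1 ∈ uni F c₂ o) : permG F w * m.1 * (permG F w)⁻¹ ∈ uni F cb o₁ := by
  have hwl : permG F w ∈ lev F cb := permG_mem_lev' cb w hw
  refine ⟨⟨(lev F cb).mul_mem ((lev F cb).mul_mem hwl m.2) ((lev F cb).inv_mem hwl),
    fun a b hab => ?_⟩, fun a b hab => ?_⟩
  · obtain ⟨i, rfl⟩ := w.surjective a
    obtain ⟨j, rfl⟩ := w.surjective b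
    rw [permG_conj]
    exact hm.1.2 i j (by rw [ho, ho]; exact hab)
  · obtain ⟨i, rfl⟩ := w.surjective a
    obtain ⟨j, rfl⟩ := w.surjective b
    rw [permG_conj, hm.2 i j (by rw [ho, ho]; exact hab), Matrix.one_apply, Matrix.one_apply]
    simp only [w.injective.eq_iff]

theorem FaithA_chi_uni (cb : κ → ι₀) (o₁ : κ → ℤ) (c₂ : κ → ι₂) (o₂ : κ → ℤ)
    (h₂ : ∀ i j, c₂ i = c₂ j ↔ cb i = cb j ∧ o₂ i = o₂ j) (w : Equiv.Perm κ)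
    (hw : ∀ i, cb (w i) = cb i) (o : κ → ℤ) (ho : ∀ i, o i = o₁ (w i)) (m : lev F cb)
    (hm : m.1 ∈ uni F c₂ o) :
    chi (glCD (F := F) cb o₁ c₂ o₂ h₂ w hw).N₀ m = 1 ∧
    chi ((glCD (F := F) cb o₁ c₂ o₂ h₂ w hw).N₀ ⊓ (glCD (F := F) cb o₁ c₂ o₂ h₂ w hw).B) m =
      1 := by
  obtain ⟨o', ho1, ho2⟩ := FaithA_refine (F := F) cb c₂ o₂ h₂ o
  have hC : IsCompact ((uni F cb o₂ ⊓ Kc F κ 0 : Subgroup (GL κ F)) : Set (GL κ F)) :=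
    (Kc_isCompact 0).inter_left (uni_isClosed cb o₂)
  obtain ⟨K', hK', hK'c, hK'C⟩ := uni_exh cb o'
    (((uni F cb o₂ ⊓ Kc F κ 0 : Subgroup (GL κ F)) : Set (GL κ F)) ∪ {m.1})
    (hC.union isCompact_singleton) (by
      rintro x (hx | hx)
      · exact ho1 hx.1
      · rw [Set.mem_singleton_iff] at hx
        rw [hx]
        exact ho2 hm)
  set D := glCD (F := F) cb o₁ c₂ o₂ h₂ w hw with hD
  have hmK' : m.1 ∈ K' := hK'C (Or.inr rfl)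
  have hKc : IsCompact (((K' ⊓ uni F cb o₂).subgroupOf (lev F cb) : Subgroup (lev F cb)) :
      Set (lev F cb)) :=
    CGLb_compact _ (inf_le_right.trans (uni_le cb o₂)) (hK'c.inter_right (uni_isClosed cb o₂))
  have h1 : D.N₀ ≤ (K' ⊓ uni F cb o₂).subgroupOf (lev F cb) :=
    fun x hx => ⟨hK'C (Or.inl hx), hx.1⟩
  have h3 : (K' ⊓ uni F cb o₂).subgroupOf (lev F cb) ≤ D.N := fun x hx => hx.2
  obtain ⟨h4, h5⟩ := index_ne_zero D.iqd D.N₀ _ le_rfl h1 h3 hKc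
  have hml : m.1 ∈ lev F c₂ := hm.1.1
  have hK : ∀ x : lev F cb, m * x * m⁻¹ ∈ (K' ⊓ uni F cb o₂).subgroupOf (lev F cb) ↔
      x ∈ (K' ⊓ uni F cb o₂).subgroupOf (lev F cb) := by
    intro x
    constructor
    · rintro ⟨hx1, hx2⟩
      have e : x.1 = m.1⁻¹ * (m * x * m⁻¹ : lev F cb).1 * m.1 := by
        push_cast
        group
      refine ⟨?_, ?_⟩
      · show x.1 ∈ K'
        rw [e]
        exact K'.mul_mem (K'.mul_mem (K'.inv_mem hmK') hx1) hmK'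
      · show x.1 ∈ uni F cb o₂
        have h6 := uni_norm c₂ cb o₂ h₂ m.1⁻¹ _ ((lev F c₂).inv_mem hml) hx2
        rw [inv_inv] at h6
        rw [e]
        exact h6
    · rintro ⟨hx1, hx2⟩
      exact ⟨K'.mul_mem (K'.mul_mem hmK' hx1) (K'.inv_mem hmK'),
        uni_norm c₂ cb o₂ h₂ m.1 _ hml hx2⟩
  have hPm : D.w * m * D.w⁻¹ ∈ D.P := (FaithA_conj_upp cb o₁ c₂ w hw o ho m hm).1
  have hB : ∀ x : lev F cb, m * x * m⁻¹ ∈ (K' ⊓ uni F cb o₂).subgroupOf (lev F cb) ⊓ D.B ↔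
      x ∈ (K' ⊓ uni F cb o₂).subgroupOf (lev F cb) ⊓ D.B := by
    intro x
    rw [Subgroup.mem_inf, Subgroup.mem_inf, hK]
    refine and_congr_right fun hx => ?_
    rw [CLive_mem_B, CLive_mem_B]
    have e : D.w * (m * x * m⁻¹) * D.w⁻¹ =
        (D.w * m * D.w⁻¹) * (D.w * x * D.w⁻¹) * (D.w * m * D.w⁻¹)⁻¹ := by group
    rw [e]
    constructor
    · rintro ⟨-, h7⟩
      refine ⟨h3 hx, ?_⟩
      have h8 := D.P.mul_mem (D.P.mul_mem (D.P.inv_mem hPm) h7) hPm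
      have e2 : (D.w * m * D.w⁻¹)⁻¹ * ((D.w * m * D.w⁻¹) * (D.w * x * D.w⁻¹) *
        (D.w * m * D.w⁻¹)⁻¹) * (D.w * m * D.w⁻¹) = D.w * x * D.w⁻¹ := by group
      rwa [e2] at h8
    · rintro ⟨-, h7⟩
      exact ⟨h3 ((hK x).2 hx), D.P.mul_mem (D.P.mul_mem hPm h7) (D.P.inv_mem hPm)⟩
  exact ⟨FaithA_chi_one _ _ m h1 h4 hK,
    FaithA_chi_one _ _ m (inf_le_inf_right _ h1) h5 hB⟩

/-- the modulus factor of `lam_left` is `1` on unipotent elements -/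
theorem cfac_uni (cb : κ → ι₀) (o₁ : κ → ℤ) (c₂ : κ → ι₂) (o₂ : κ → ℤ)
    (h₂ : ∀ i j, c₂ i = c₂ j ↔ cb i = cb j ∧ o₂ i = o₂ j) (w : Equiv.Perm κ)
    (hw : ∀ i, cb (w i) = cb i) (o : κ → ℤ) (ho : ∀ i, o i = o₁ (w i)) (m : lev F cb)
    (hm : m.1 ∈ uni F c₂ o) : cfac cb o₁ c₂ o₂ h₂ w hw m = 1 := by
  obtain ⟨h1, h2⟩ := FaithA_chi_uni cb o₁ c₂ o₂ h₂ w hw o ho m⁻¹ ((uni F c₂ o).inv_mem hm)
  unfold cfac
  rw [h1, h2, inv_one, mul_one]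

section abs

variable {G : Type} [Group G] [TopologicalSpace G] [IsTopologicalGroup G]
variable {V Y : Type} [AddCommGroup V] [Module ℂ V] [AddCommGroup Y] [Module ℂ Y]

/-- an invariant functional on a stable subspace kills the vectors with average zero -/
theorem FaithA_kill (π : Representation ℂ G V) (hπ : IsSm π) (K : Subgroup G)
    (hK : IsCompact (K : Set G)) (X : Submodule ℂ V) (hX : ∀ k ∈ K, ∀ v ∈ X, π k v ∈ X)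
    (Λ : X →ₗ[ℂ] E) (hΛ : ∀ k (hk : k ∈ K) (v : X), Λ ⟨π k v.1, hX k hk v.1 v.2⟩ = Λ v)
    (v : X) (h0 : avg π K v.1 = 0) : Λ v = 0 := by
  obtain ⟨U, hU, hv, -⟩ := Avg_open_fix₂ π hπ v.1 v.1
  obtain ⟨s, hne, hsK, -, hs⟩ := avg_sum K hK U hU
  have hc : ((s.card : ℕ) : ℂ) ≠ 0 := Nat.cast_ne_zero.2 (Finset.card_ne_zero.2 hne)
  rw [hs V π v.1 hv, smul_eq_zero] at h0
  have h1 : ∑ k ∈ s, π k v.1 = 0 := h0.resolve_left (inv_ne_zero hc)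
  have h2 : ∑ k ∈ s.attach, (⟨π k.1 v.1, hX k.1 (hsK k.1 k.2) v.1 v.2⟩ : X) = 0 := by
    apply Subtype.ext
    rw [AddSubmonoidClass.coe_finset_sum]
    show ∑ k ∈ s.attach, π k.1 v.1 = 0
    rw [Finset.sum_attach s (fun k => π k v.1)]
    exact h1
  have h3 := congrArg Λ h2
  rw [map_sum, map_zero, Finset.sum_congr rfl (g := fun _ => Λ v)
    (fun k _ => hΛ k.1 (hsK k.1 k.2) v), Finset.sum_const, Finset.card_attach,
    ← Nat.cast_smul_eq_nsmul ℂ, smul_eq_zero] at h3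
  exact h3.resolve_left hc

omit [TopologicalSpace G] [IsTopologicalGroup G] [Group G] in
theorem FaithA_factor (p : V →ₗ[ℂ] E) (hp : Function.Surjective p) (q : V →ₗ[ℂ] W)
    (h : ∀ a, p a = 0 → q a = 0) : ∃ r : E →ₗ[ℂ] W, ∀ a, r (p a) = q a := by
  obtain ⟨s, hs⟩ := p.exists_rightInverse_of_surjective (LinearMap.range_eq_top.2 hp)
  refine ⟨q ∘ₗ s, fun a => ?_⟩
  have h1 : p (s (p a) - a) = 0 := by
    rw [map_sub, ← LinearMap.comp_apply, hs, LinearMap.id_apply, sub_self]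
  have h2 := h _ h1
  rw [map_sub, sub_eq_zero] at h2
  exact h2

theorem FaithA_desc (K X' : Submodule ℂ V) (Λ : X' →ₗ[ℂ] E) (h : ∀ f : X', f.1 ∈ K → Λ f = 0) :
    ∃ Λ' : X'.map K.mkQ →ₗ[ℂ] E, ∀ (f : V) (hf : f ∈ X'),
      Λ' ⟨K.mkQ f, Submodule.mem_map_of_mem hf⟩ = Λ ⟨f, hf⟩ := by
  obtain ⟨r, hr⟩ := FaithA_factor (K.mkQ.submoduleMap X') (K.mkQ.submoduleMap_surjective X') Λ
    (fun a ha => h a (by
      have h1 := congrArg Subtype.val ha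
      exact (Submodule.Quotient.mk_eq_zero K).1 h1))
  exact ⟨r, fun f hf => hr ⟨f, hf⟩⟩

theorem FaithA_onto {M : Type} [Group M] (ρ : Representation ℂ M V) (τ : Representation ℂ M W)
    (hi : Irr τ) (Y₁ I : Submodule ℂ V) (hY : Stab ρ Y₁) (hI : Stab ρ I) (q : Y₁ →ₗ[ℂ] W)
    (hq : Equi (subRep ρ Y₁ hY) τ q) (hn : ∃ y : Y₁, y.1 ∈ I ∧ q y ≠ 0) (v : W) :
    ∃ y : Y₁, y.1 ∈ I ∧ q y = v := by
  have h1 : Stab τ ((I.comap Y₁.subtype).map q) := by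
    rintro m _ ⟨y, hy, rfl⟩
    exact ⟨subRep ρ Y₁ hY m y, hI m _ hy, hq m y⟩
  rcases hi.2 _ h1 with h2 | h2
  · obtain ⟨y, hy, h0⟩ := hn
    exfalso
    apply h0
    have h3 : q y ∈ (I.comap Y₁.subtype).map q := ⟨y, hy, rfl⟩
    rw [h2] at h3
    exact (Submodule.mem_bot ℂ).1 h3
  · have h3 : v ∈ (I.comap Y₁.subtype).map q := by
      rw [h2]
      exact Submodule.mem_top
    obtain ⟨y, hy, rfl⟩ := h3
    exact ⟨y, hy, rfl⟩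

/-- associate case, abstract form -/
theorem FaithA_assoc {M G₁ : Type} [Group M] [Group G₁] (ρ : Representation ℂ M Y)
    (τ : Representation ℂ M W) (σ : Representation ℂ G₁ E) (q : Y →ₗ[ℂ] W) (hq : Equi ρ τ q)
    (hs : Function.Surjective q) (Λ : Y →ₗ[ℂ] E) (cf : M → ℂ) (φ : M → G₁)
    (hφ : Function.Surjective φ) (h1 : ∀ m y, Λ (ρ m y) = cf m • σ (φ m) (Λ y))
    (h2 : ∀ y, Λ y = 0 → q y = 0) :
    ∃ (E' : Submodule ℂ E) (hE : Stab σ E') (r : E' →ₗ[ℂ] W), Function.Surjective r ∧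
      ∀ m (e : E'), cf m • r (subRep σ E' hE (φ m) e) = τ m (r e) := by
  obtain ⟨r, hr⟩ := FaithA_factor Λ.rangeRestrict Λ.surjective_rangeRestrict q
    (fun a ha => h2 a (congrArg Subtype.val ha))
  have hE : Stab σ (LinearMap.range Λ) := by
    rintro g _ ⟨y, rfl⟩
    obtain ⟨m, rfl⟩ := hφ g
    by_cases hc : cf m = 0
    · have h3 : Λ y = 0 := by
        have h4 := h1 m (ρ m⁻¹ y)
        rw [hc, zero_smul, ← Module.End.mul_apply, ← map_mul, mul_inv_cancel, map_one,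
          Module.End.one_apply] at h4
        exact h4
      rw [h3, map_zero]
      exact Submodule.zero_mem _
    · refine ⟨(cf m)⁻¹ • ρ m y, ?_⟩
      rw [map_smul, h1, smul_smul, inv_mul_cancel₀ hc, one_smul]
  refine ⟨LinearMap.range Λ, hE, r, ?_, ?_⟩
  · intro v
    obtain ⟨y, rfl⟩ := hs v
    exact ⟨_, hr y⟩
  · rintro m ⟨_, y, rfl⟩
    have e1 : (⟨Λ y, y, rfl⟩ : LinearMap.range Λ) = Λ.rangeRestrict y := rfl
    rw [e1, hr, ← hq, ← hr, ← map_smul]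
    congr 1
    apply Subtype.ext
    exact (h1 m y).symm

/-- live cell, not associate: abstract form -/
theorem FaithA_nonassoc {M M₀ : Subgroup G} (h0 : M₀ ≤ M) (ρ : Representation ℂ M Y)
    (hρ : IsSm ρ) (τ : Representation ℂ M W) (hτ : IsSm τ) (hlift : HasLift (resLE h0 τ))
    (q : Y →ₗ[ℂ] W) (hq : Equi ρ τ q) (hs : Function.Surjective q) (Nn : Subgroup G)
    (hNn : ∀ n ∈ Nn, ∀ m ∈ M, m⁻¹ * n * m ∈ M₀) (hNM : Nn ≤ M)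
    (hsp : ∀ v : W, v ∈ Submodule.span ℂ
      {x | ∃ (n : G) (hn : n ∈ Nn) (v : W), x = τ ⟨n, hNM hn⟩ v - v})
    (Λ : M → Y →ₗ[ℂ] E) (h1 : ∀ m u y, Λ m (ρ u y) = Λ (m * u) y)
    (h2 : ∀ y, (∀ m, Λ m y = 0) → q y = 0)
    (h3 : ∀ (n : G) (hn : n ∈ Nn) (m : M) (y : Y), Λ (⟨n, hNM hn⟩ * m) y = Λ m y) (v : W) :
    v = 0 := by
  obtain ⟨s, hs1, hs2⟩ := hlift Y W (resLE h0 ρ) (resLE h0 τ) (smooth_resLE h0 ρ hρ)
    (smooth_resLE h0 τ hτ) q (fun g y => hq _ y) hs LinearMap.id (fun g v => rfl)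
  have key : ∀ (m : M) (x : W), Λ m (s (τ m⁻¹ x)) = 0 := by
    intro m x
    refine Submodule.span_induction (p := fun x _ => Λ m (s (τ m⁻¹ x)) = 0) ?_ ?_ ?_ ?_ (hsp x)
    · rintro y ⟨n, hn, v, rfl⟩
      have e1 : τ m⁻¹ (τ ⟨n, hNM hn⟩ v) =
          resLE h0 τ ⟨m.1⁻¹ * n * m.1, hNn n hn m.1 m.2⟩ (τ m⁻¹ v) := by
        show τ m⁻¹ (τ ⟨n, hNM hn⟩ v) = τ ⟨m.1⁻¹ * n * m.1, _⟩ (τ m⁻¹ v)
        rw [← Module.End.mul_apply, ← Module.End.mul_apply, ← map_mul, ← map_mul]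
        congr 2
        apply Subtype.ext
        show m.1⁻¹ * n = m.1⁻¹ * n * m.1 * m.1⁻¹
        group
      rw [map_sub, map_sub, map_sub, e1, hs1, sub_eq_zero]
      show Λ m (ρ ⟨m.1⁻¹ * n * m.1, _⟩ (s (τ m⁻¹ v))) = _
      rw [h1]
      have e2 : m * (⟨m.1⁻¹ * n * m.1, h0 (hNn n hn m.1 m.2)⟩ : M) = ⟨n, hNM hn⟩ * m := by
        apply Subtype.ext
        show m.1 * (m.1⁻¹ * n * m.1) = n * m.1
        group
      have e3 := congrArg (fun z => Λ z (s (τ m⁻¹ v))) e2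
      exact e3.trans (h3 n hn m _)
    · rw [map_zero, map_zero, map_zero]
    · intro a b _ _ ha hb
      rw [map_add, map_add, map_add, ha, hb, add_zero]
    · intro c a _ ha
      rw [map_smul, map_smul, map_smul, ha, smul_zero]
  have h4 : q (s v) = 0 := by
    refine h2 _ fun m => ?_
    have h5 := key m (τ m v)
    rwa [← Module.End.mul_apply, ← map_mul, inv_mul_cancel, map_one, Module.End.one_apply] at h5
  have h5 := LinearMap.congr_fun hs2 v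
  rw [LinearMap.comp_apply, h4] at h5
  exact h5.symm

end abs

section step

variable (cb : κ → ι₀) (c₁ : κ → ι₁) (o₁ : κ → ℤ)
  (h₁ : ∀ i j, c₁ i = c₁ j ↔ cb i = cb j ∧ o₁ i = o₁ j) (c₂ : κ → ι₂) (o₂ : κ → ℤ)
  (h₂ : ∀ i j, c₂ i = c₂ j ↔ cb i = cb j ∧ o₂ i = o₂ j) (w : Equiv.Perm κ)
  (Ω' Ω : Set (lev F cb)) (hst : CStep cb o₁ o₂ w Ω' Ω)
  (σ : Representation ℂ (lev F c₁) E)

include hst in
theorem FaithA_on_stab (m : lev F cb) (hm : m.1 ∈ upp F cb o₂)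
    (f : (parD c₁ cb o₁ h₁).IndSp σ) (hf : f ∈ IndOn (parD c₁ cb o₁ h₁) σ Ω) :
    (parD c₁ cb o₁ h₁).Ind σ m f ∈ IndOn (parD c₁ cb o₁ h₁) σ Ω := by
  intro g hg
  show f.1 (g * m) = 0
  apply hf
  intro hgm
  apply hg
  rw [hst.union] at hgm ⊢
  rcases hgm with h | ⟨p, hp, q, hq, h⟩
  · left
    have e : g = g * m * m⁻¹ := by group
    rw [e]
    exact hst.right' _ _ ((upp F cb o₂).inv_mem hm) h
  · right
    refine ⟨p, hp, q * m.1⁻¹, (upp F cb o₂).mul_mem hq ((upp F cb o₂).inv_mem hm), ?_⟩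
    have h' : g.1 * m.1 = p * permG F w * q := h
    rw [← mul_assoc, ← h']
    group

include hst in
theorem FaithA_stabI :
    Stab ((parD c₂ cb o₂ h₂).Jac ((parD c₁ cb o₁ h₁).Ind σ))
      ((IndOn (parD c₁ cb o₁ h₁) σ Ω).map
        ((parD c₂ cb o₂ h₂).kerJ ((parD c₁ cb o₁ h₁).Ind σ)).mkQ) := by
  rintro m _ ⟨f, hf, rfl⟩
  exact ⟨(parD c₁ cb o₁ h₁).Ind σ ⟨m.1, (parD c₂ cb o₂ h₂).hM m.2⟩ f,
    FaithA_on_stab cb c₁ o₁ h₁ o₂ w Ω' Ω hst σ _ (parD_lev_le_upp c₂ cb o₂ h₂ m.2) f hf, rfl⟩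

theorem FaithA_mk_inv (n : lev F cb) (hn : n.1 ∈ uni F cb o₂)
    (f : (parD c₁ cb o₁ h₁).IndSp σ) :
    ((parD c₂ cb o₂ h₂).kerJ ((parD c₁ cb o₁ h₁).Ind σ)).mkQ ((parD c₁ cb o₁ h₁).Ind σ n f) =
      ((parD c₂ cb o₂ h₂).kerJ ((parD c₁ cb o₁ h₁).Ind σ)).mkQ f := by
  rw [← sub_eq_zero, ← map_sub]
  exact (Submodule.Quotient.mk_eq_zero _).2 (Submodule.subset_span ⟨n.1, hn, f, rfl⟩)

include hst in
theorem FaithA_dead (hσ : IsSm σ) (hc : Cusp c₁ σ)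
    (hd : ¬ ∀ i j, c₁ (w i) = c₁ (w j) → c₂ i = c₂ j) :
    (IndOn (parD c₁ cb o₁ h₁) σ Ω).map
        ((parD c₂ cb o₂ h₂).kerJ ((parD c₁ cb o₁ h₁).Ind σ)).mkQ ≤
      (IndOn (parD c₁ cb o₁ h₁) σ Ω').map
        ((parD c₂ cb o₂ h₂).kerJ ((parD c₁ cb o₁ h₁).Ind σ)).mkQ := by
  rintro _ ⟨f, hf, rfl⟩
  have h := fun_dead cb c₁ o₁ h₁ c₂ o₂ h₂ w Ω' Ω hst σ
    (((IndOn (parD c₁ cb o₁ h₁) σ Ω').map
      ((parD c₂ cb o₂ h₂).kerJ ((parD c₁ cb o₁ h₁).Ind σ)).mkQ).mkQ ∘ₗ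
      ((parD c₂ cb o₂ h₂).kerJ ((parD c₁ cb o₁ h₁).Ind σ)).mkQ)
    (fun n hn f => by
      rw [LinearMap.comp_apply, LinearMap.comp_apply,
        FaithA_mk_inv cb c₁ o₁ h₁ c₂ o₂ h₂ σ n hn f])
    (fun f hf => (Submodule.Quotient.mk_eq_zero _).2 (Submodule.mem_map_of_mem hf))
    hσ hc hd f hf
  exact (Submodule.Quotient.mk_eq_zero _).1 h

theorem FaithA_live_zero (hσ : IsSm σ) (hl : ∀ i j, c₁ (w i) = c₁ (w j) → c₂ i = c₂ j)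
    (f : (parD c₁ cb o₁ h₁).IndSp σ) (hf : f ∈ IndOn (parD c₁ cb o₁ h₁) σ Ω)
    (hf0 : ∀ m : lev F cb, m.1 ∈ lev F c₂ →
      (glCD (F := F) cb o₁ c₂ o₂ h₂ w hst.hw).Lam f.1 m = 0) :
    ((parD c₂ cb o₂ h₂).kerJ ((parD c₁ cb o₁ h₁).Ind σ)).mkQ f ∈
      (IndOn (parD c₁ cb o₁ h₁) σ Ω').map
        ((parD c₂ cb o₂ h₂).kerJ ((parD c₁ cb o₁ h₁).Ind σ)).mkQ := by
  have h := fun_live_zero cb c₁ o₁ h₁ c₂ o₂ h₂ w Ω' Ω hst σ
    (((IndOn (parD c₁ cb o₁ h₁) σ Ω').map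
      ((parD c₂ cb o₂ h₂).kerJ ((parD c₁ cb o₁ h₁).Ind σ)).mkQ).mkQ ∘ₗ
      ((parD c₂ cb o₂ h₂).kerJ ((parD c₁ cb o₁ h₁).Ind σ)).mkQ)
    (fun n hn f => by
      rw [LinearMap.comp_apply, LinearMap.comp_apply,
        FaithA_mk_inv cb c₁ o₁ h₁ c₂ o₂ h₂ σ n hn f])
    (fun f hf => (Submodule.Quotient.mk_eq_zero _).2 (Submodule.mem_map_of_mem hf))
    hσ hl f hf hf0
  exact (Submodule.Quotient.mk_eq_zero _).1 h

theorem FaithA_lam (hσ : IsSm σ) (hl : ∀ i j, c₁ (w i) = c₁ (w j) → c₂ i = c₂ j)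
    (m : lev F cb) (hm : m.1 ∈ lev F c₂) :
    ∃ Λ : (IndOn (parD c₁ cb o₁ h₁) σ Ω).map
        ((parD c₂ cb o₂ h₂).kerJ ((parD c₁ cb o₁ h₁).Ind σ)).mkQ →ₗ[ℂ] E,
      ∀ (f : (parD c₁ cb o₁ h₁).IndSp σ) (hf : f ∈ IndOn (parD c₁ cb o₁ h₁) σ Ω),
        Λ ⟨((parD c₂ cb o₂ h₂).kerJ ((parD c₁ cb o₁ h₁).Ind σ)).mkQ f,
          Submodule.mem_map_of_mem hf⟩ =
          (glCD (F := F) cb o₁ c₂ o₂ h₂ w hst.hw).Lam f.1 m := by
  obtain ⟨Λ, hΛ1, hΛ2⟩ := lam_lin cb c₁ o₁ h₁ c₂ o₂ h₂ w Ω' Ω hst σ hσ hl m hm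
  have hk : ∀ f : IndOn (parD c₁ cb o₁ h₁) σ Ω,
      f.1 ∈ (parD c₂ cb o₂ h₂).kerJ ((parD c₁ cb o₁ h₁).Ind σ) → Λ f = 0 := by
    intro f hf
    obtain ⟨K, hK, hKc, h0⟩ := (PD.mem_kerJ_iff _ _ (PD.ind_smooth _ σ) f.1).1 hf
    have hK' : K ≤ uni F cb o₂ := hK
    refine FaithA_kill _ (PD.ind_smooth _ σ) (K.subgroupOf (lev F cb))
      (CGLb_compact K (hK'.trans (uni_le cb o₂)) hKc) _
      (fun k hk v hv => FaithA_on_stab cb c₁ o₁ h₁ o₂ w Ω' Ω hst σ k (hK' hk).1 v hv) Λ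
      (fun k hk v => ?_) f h0
    rw [hΛ1, hΛ1]
    exact hΛ2 k (hK' hk) v
  obtain ⟨Λ', hΛ'⟩ := FaithA_desc _ _ Λ hk
  exact ⟨Λ', fun f hf => by rw [hΛ' f hf, hΛ1]⟩

theorem FaithA_lam_uni (hσ : IsSm σ) (hl : ∀ i j, c₁ (w i) = c₁ (w j) → c₂ i = c₂ j)
    (o : κ → ℤ) (ho : ∀ i, o i = o₁ (w i)) (f : (parD c₁ cb o₁ h₁).IndSp σ)
    (hf : f ∈ IndOn (parD c₁ cb o₁ h₁) σ Ω) (n m : lev F cb) (hn : n.1 ∈ uni F c₂ o)
    (hm : m.1 ∈ lev F c₂) :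
    (glCD (F := F) cb o₁ c₂ o₂ h₂ w hst.hw).Lam f.1 (n * m) =
      (glCD (F := F) cb o₁ c₂ o₂ h₂ w hst.hw).Lam f.1 m := by
  have hu := FaithA_conj_upp cb o₁ c₂ w hst.hw o ho n hn
  have h := lam_left (glCD (F := F) cb o₁ c₂ o₂ h₂ w hst.hw) (aP c₁ cb o₁ h₁ σ)
    (gl_live cb c₁ o₁ h₁ c₂ o₂ h₂ w hst.hw σ hl) f.1
    ((mem_IndSp_iff c₁ cb o₁ h₁ σ f.1).1 f.2)
    (gl_csupp cb c₁ o₁ h₁ c₂ o₂ h₂ w Ω' Ω hst σ hσ f hf) m hm n hn.1.1 hu.1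
  have h2 := cfac_uni cb o₁ c₂ o₂ h₂ w hst.hw o ho n hn
  unfold cfac at h2
  rw [h, h2, one_smul]
  have h3 : prL c₁ cb o₁ h₁ ⟨(glCD (F := F) cb o₁ c₂ o₂ h₂ w hst.hw).w * n *
      ((glCD (F := F) cb o₁ c₂ o₂ h₂ w hst.hw).w)⁻¹, hu.1⟩ = 1 :=
    (prL_mem_uni c₁ cb o₁ h₁ _).2 hu
  refine Eq.trans (congrArg (fun z => σ z ((glCD (F := F) cb o₁ c₂ o₂ h₂ w hst.hw).Lam f.1 m))
    h3) ?_
  show σ 1 _ = _
  rw [map_one, Module.End.one_apply]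

end step

theorem FaithA_lev0 [DecidableEq ι₂] (c₂ : κ → ι₂) (o : κ → ℤ) (n m : GL κ F)
    (hn : n ∈ uni F c₂ o) (hm : m ∈ lev F c₂) : m⁻¹ * n * m ∈ lev0 F c₂ := by
  have hn0 := uni_le_lev0 c₂ o hn
  have hmi := (lev F c₂).inv_mem hm
  refine ⟨(lev F c₂).mul_mem ((lev F c₂).mul_mem hmi hn0.1) hm, fun x => ?_⟩
  rw [vl_mul c₂ _ _ ((lev F c₂).mul_mem hmi hn0.1) hm, vl_mul c₂ _ _ hmi hn0.1,
    vl_inv c₂ m hm, hn0.2 x]
  omega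

theorem FaithA_conj_surj (c₁ : κ → ι₁) (c₂ : κ → ι₂) (w : Equiv.Perm κ)
    (hl : ∀ i j, c₁ (w i) = c₁ (w j) ↔ c₂ i = c₂ j) :
    Function.Surjective (fun m : lev F c₂ =>
      (⟨permG F w * m.1 * (permG F w)⁻¹, permG_conj_mem c₁ c₂ w hl m.1 m.2⟩ : lev F c₁)) := by
  intro g
  refine ⟨⟨(permG F w)⁻¹ * g.1 * permG F w, fun i j hij => ?_⟩, ?_⟩
  · rw [CGLb_conj]
    exact g.2 _ _ (fun h => hij ((hl i j).1 h))
  · apply Subtype.ext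
    show permG F w * ((permG F w)⁻¹ * g.1 * permG F w) * (permG F w)⁻¹ = g.1
    group

theorem FaithA_step [DecidableEq ι₂] (cb : κ → ι₀) (c₁ : κ → ι₁) (o₁ : κ → ℤ)
    (h₁ : ∀ i j, c₁ i = c₁ j ↔ cb i = cb j ∧ o₁ i = o₁ j) (c₂ : κ → ι₂) (o₂ : κ → ℤ)
    (h₂ : ∀ i j, c₂ i = c₂ j ↔ cb i = cb j ∧ o₂ i = o₂ j)
    (σ : Representation ℂ (lev F c₁) E) (hσ : IsSm σ) (hc : Cusp c₁ σ)
    (τ : Representation ℂ (lev F c₂) W) (hτ : IsSm τ) (hi : Irr τ) (hcτ : Cusp c₂ τ)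
    (Y₁ : Submodule ℂ ((parD c₁ cb o₁ h₁).IndSp σ ⧸
      (parD c₂ cb o₂ h₂).kerJ ((parD c₁ cb o₁ h₁).Ind σ)))
    (hY : Stab ((parD c₂ cb o₂ h₂).Jac ((parD c₁ cb o₁ h₁).Ind σ)) Y₁)
    (q : Y₁ →ₗ[ℂ] W) (hq : Equi (subRep _ Y₁ hY) τ q)
    (w : Equiv.Perm κ) (Ω' Ω : Set (lev F cb)) (hst : CStep cb o₁ o₂ w Ω' Ω)
    (hz : ∀ y : Y₁, y.1 ∈ (IndOn (parD c₁ cb o₁ h₁) σ Ω').map
        ((parD c₂ cb o₂ h₂).kerJ ((parD c₁ cb o₁ h₁).Ind σ)).mkQ → q y = 0)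
    (hn : ∃ y : Y₁, y.1 ∈ (IndOn (parD c₁ cb o₁ h₁) σ Ω).map
        ((parD c₂ cb o₂ h₂).kerJ ((parD c₁ cb o₁ h₁).Ind σ)).mkQ ∧ q y ≠ 0) :
    ∃ (w : Equiv.Perm κ) (hw : ∀ i, cb (w i) = cb i)
      (hl : ∀ i j, c₁ (w i) = c₁ (w j) ↔ c₂ i = c₂ j) (E' : Submodule ℂ E) (hE : Stab σ E')
      (r : E' →ₗ[ℂ] W), Function.Surjective r ∧
      ∀ (m : GL κ F) (hm : m ∈ lev F c₂) (hm' : m ∈ lev F cb) (e : E'),
        cfac cb o₁ c₂ o₂ h₂ w hw ⟨m, hm'⟩ •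
          r (subRep σ E' hE ⟨permG F w * m * (permG F w)⁻¹, permG_conj_mem c₁ c₂ w hl m hm⟩ e) =
          τ ⟨m, hm⟩ (r e) := by
  have hlive : ∀ i j, c₁ (w i) = c₁ (w j) → c₂ i = c₂ j := by
    by_contra hd
    obtain ⟨y, hy, h0⟩ := hn
    exact h0 (hz y (FaithA_dead cb c₁ o₁ h₁ c₂ o₂ h₂ w Ω' Ω hst σ hσ hc hd hy))
  have hI := FaithA_stabI cb c₁ o₁ h₁ c₂ o₂ h₂ w Ω' Ω hst σ
  have honto := FaithA_onto _ τ hi Y₁ _ hY hI q hq hn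
  have hlam := fun m : lev F c₂ => FaithA_lam cb c₁ o₁ h₁ c₂ o₂ h₂ w Ω' Ω hst σ hσ hlive
    ⟨m.1, (parD c₂ cb o₂ h₂).hM m.2⟩ m.2
  have hzero := FaithA_live_zero cb c₁ o₁ h₁ c₂ o₂ h₂ w Ω' Ω hst σ hσ hlive
  have hstab : ∀ (m : lev F c₂) (f : (parD c₁ cb o₁ h₁).IndSp σ),
      f ∈ IndOn (parD c₁ cb o₁ h₁) σ Ω →
      (parD c₁ cb o₁ h₁).Ind σ ⟨m.1, (parD c₂ cb o₂ h₂).hM m.2⟩ f ∈
        IndOn (parD c₁ cb o₁ h₁) σ Ω := fun m f hf =>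
    FaithA_on_stab cb c₁ o₁ h₁ o₂ w Ω' Ω hst σ _ (parD_lev_le_upp c₂ cb o₂ h₂ m.2) f hf
  have hIx : ∀ y ∈ (IndOn (parD c₁ cb o₁ h₁) σ Ω).map
      ((parD c₂ cb o₂ h₂).kerJ ((parD c₁ cb o₁ h₁).Ind σ)).mkQ,
      ∃ f ∈ IndOn (parD c₁ cb o₁ h₁) σ Ω,
        ((parD c₂ cb o₂ h₂).kerJ ((parD c₁ cb o₁ h₁).Ind σ)).mkQ f = y := fun y hy => hy
  have hmem : ∀ f ∈ IndOn (parD c₁ cb o₁ h₁) σ Ω,
      ((parD c₂ cb o₂ h₂).kerJ ((parD c₁ cb o₁ h₁).Ind σ)).mkQ f ∈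
        (IndOn (parD c₁ cb o₁ h₁) σ Ω).map
          ((parD c₂ cb o₂ h₂).kerJ ((parD c₁ cb o₁ h₁).Ind σ)).mkQ :=
    fun f hf => Submodule.mem_map_of_mem hf
  replace hlam : ∀ m : lev F c₂, ∃ Λ : (IndOn (parD c₁ cb o₁ h₁) σ Ω).map
        ((parD c₂ cb o₂ h₂).kerJ ((parD c₁ cb o₁ h₁).Ind σ)).mkQ →ₗ[ℂ] E,
      ∀ (f : (parD c₁ cb o₁ h₁).IndSp σ) (hf : f ∈ IndOn (parD c₁ cb o₁ h₁) σ Ω),
        Λ ⟨((parD c₂ cb o₂ h₂).kerJ ((parD c₁ cb o₁ h₁).Ind σ)).mkQ f, hmem f hf⟩ =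
          (glCD (F := F) cb o₁ c₂ o₂ h₂ w hst.hw).Lam f.1
            ⟨m.1, (parD c₂ cb o₂ h₂).hM m.2⟩ := hlam
  have hsm : IsSm ((parD c₂ cb o₂ h₂).Jac ((parD c₁ cb o₁ h₁).Ind σ)) :=
    PD.jac_smooth _ _ (PD.ind_smooth _ σ)
  have hjac : ∀ (m : lev F c₂) (f : (parD c₁ cb o₁ h₁).IndSp σ),
      (parD c₂ cb o₂ h₂).Jac ((parD c₁ cb o₁ h₁).Ind σ) m
        (((parD c₂ cb o₂ h₂).kerJ ((parD c₁ cb o₁ h₁).Ind σ)).mkQ f) =
      ((parD c₂ cb o₂ h₂).kerJ ((parD c₁ cb o₁ h₁).Ind σ)).mkQ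
        ((parD c₁ cb o₁ h₁).Ind σ ⟨m.1, (parD c₂ cb o₂ h₂).hM m.2⟩ f) := fun m f => rfl
  revert hI honto hIx hmem hlam
  generalize (IndOn (parD c₁ cb o₁ h₁) σ Ω).map
    ((parD c₂ cb o₂ h₂).kerJ ((parD c₁ cb o₁ h₁).Ind σ)).mkQ = I
  intro hI honto hIx hmem hlam
  choose Λ hΛ using hlam
  have hYI : Stab ((parD c₂ cb o₂ h₂).Jac ((parD c₁ cb o₁ h₁).Ind σ)) (Y₁ ⊓ I) :=
    fun m y hy => ⟨hY m y hy.1, hI m y hy.2⟩
  let ρ := subRep ((parD c₂ cb o₂ h₂).Jac ((parD c₁ cb o₁ h₁).Ind σ)) (Y₁ ⊓ I) hYI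
  have hρs : IsSm ρ := smooth_sub _ hsm _ hYI
  let q' : ↥(Y₁ ⊓ I) →ₗ[ℂ] W := q ∘ₗ Submodule.inclusion inf_le_left
  have hqe : Equi ρ τ q' := fun m y => hq m (Submodule.inclusion inf_le_left y)
  have hqs : Function.Surjective q' := by
    intro v
    obtain ⟨y, hy, rfl⟩ := honto v
    exact ⟨⟨y.1, y.2, hy⟩, rfl⟩
  let Λ' : lev F c₂ → ↥(Y₁ ⊓ I) →ₗ[ℂ] E := fun m => Λ m ∘ₗ Submodule.inclusion inf_le_right
  have hrep : ∀ (m : lev F c₂) (y : ↥(Y₁ ⊓ I)) (f : (parD c₁ cb o₁ h₁).IndSp σ),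
      f ∈ IndOn (parD c₁ cb o₁ h₁) σ Ω →
      ((parD c₂ cb o₂ h₂).kerJ ((parD c₁ cb o₁ h₁).Ind σ)).mkQ f = y.1 →
      Λ' m y = (glCD (F := F) cb o₁ c₂ o₂ h₂ w hst.hw).Lam f.1
        ⟨m.1, (parD c₂ cb o₂ h₂).hM m.2⟩ := by
    intro m y f hf hy
    rw [← hΛ m f hf]
    show Λ m (Submodule.inclusion inf_le_right y) = _
    refine congrArg (Λ m) ?_
    apply Subtype.ext
    exact hy.symm
  have hex : ∀ y : ↥(Y₁ ⊓ I), ∃ f ∈ IndOn (parD c₁ cb o₁ h₁) σ Ω,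
      ((parD c₂ cb o₂ h₂).kerJ ((parD c₁ cb o₁ h₁).Ind σ)).mkQ f = y.1 :=
    fun y => hIx _ y.2.2
  have hact : ∀ (m : lev F c₂) (y : ↥(Y₁ ⊓ I)) (f : (parD c₁ cb o₁ h₁).IndSp σ),
      ((parD c₂ cb o₂ h₂).kerJ ((parD c₁ cb o₁ h₁).Ind σ)).mkQ f = y.1 →
      ((parD c₂ cb o₂ h₂).kerJ ((parD c₁ cb o₁ h₁).Ind σ)).mkQ
        ((parD c₁ cb o₁ h₁).Ind σ ⟨m.1, (parD c₂ cb o₂ h₂).hM m.2⟩ f) = (ρ m y).1 := by
    intro m y f hy
    show _ = (parD c₂ cb o₂ h₂).Jac ((parD c₁ cb o₁ h₁).Ind σ) m y.1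
    rw [← hy, hjac]
  have hA : ∀ (m u : lev F c₂) (y : ↥(Y₁ ⊓ I)), Λ' m (ρ u y) = Λ' (m * u) y := by
    intro m u y
    obtain ⟨f, hf, hy⟩ := hex y
    rw [hrep m _ _ (hstab u f hf) (hact u y f hy), hrep (m * u) y f hf hy]
    exact lam_right (glCD (F := F) cb o₁ c₂ o₂ h₂ w hst.hw) f.1
      ⟨m.1, (parD c₂ cb o₂ h₂).hM m.2⟩ ⟨u.1, (parD c₂ cb o₂ h₂).hM u.2⟩
  have hB : ∀ y : ↥(Y₁ ⊓ I), (∀ m, Λ' m y = 0) → q' y = 0 := by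
    intro y h
    obtain ⟨f, hf, hy⟩ := hex y
    refine hz (Submodule.inclusion inf_le_left y) ?_
    show y.1 ∈ _
    rw [← hy]
    refine hzero f hf fun m hm => ?_
    rw [← h ⟨m.1, hm⟩, hrep ⟨m.1, hm⟩ y f hf hy]
  by_cases ha : ∀ i j, c₂ i = c₂ j → c₁ (w i) = c₁ (w j)
  · have hl : ∀ i j, c₁ (w i) = c₁ (w j) ↔ c₂ i = c₂ j := fun i j => ⟨hlive i j, ha i j⟩
    have hC : ∀ (m : lev F c₂) (y : ↥(Y₁ ⊓ I)), Λ' 1 (ρ m y) =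
        cfac cb o₁ c₂ o₂ h₂ w hst.hw ⟨m.1, (parD c₂ cb o₂ h₂).hM m.2⟩ •
          σ ⟨permG F w * m.1 * (permG F w)⁻¹, permG_conj_mem c₁ c₂ w hl m.1 m.2⟩ (Λ' 1 y) := by
      intro m y
      obtain ⟨f, hf, hy⟩ := hex y
      rw [hrep 1 _ _ (hstab m f hf) (hact m y f hy), hrep 1 y f hf hy]
      exact (lam_equi cb c₁ o₁ h₁ c₂ o₂ h₂ w Ω' Ω hst σ hσ hl f hf
        ⟨m.1, (parD c₂ cb o₂ h₂).hM m.2⟩ m.2).2
    obtain ⟨E', hE, r, hr1, hr2⟩ := FaithA_assoc ρ τ σ q' hqe hqs (Λ' 1)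
      (fun m => cfac cb o₁ c₂ o₂ h₂ w hst.hw ⟨m.1, (parD c₂ cb o₂ h₂).hM m.2⟩)
      (fun m => ⟨permG F w * m.1 * (permG F w)⁻¹, permG_conj_mem c₁ c₂ w hl m.1 m.2⟩)
      (FaithA_conj_surj c₁ c₂ w hl) hC (by
        intro y hy
        refine hB y fun m => ?_
        rw [← one_mul m, ← hA, hC, hy, map_zero, smul_zero])
    exact ⟨w, hst.hw, hl, E', hE, r, hr1, fun m hm hm' e => hr2 ⟨m, hm⟩ e⟩
  · exfalso
    push Not at ha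
    obtain ⟨i, j, hij, hne⟩ := ha
    have hon : o₁ (w i) ≠ o₁ (w j) := by
      intro h
      apply hne
      refine (h₁ _ _).2 ⟨?_, h⟩
      rw [hst.hw, hst.hw]
      exact ((h₂ i j).1 hij).1
    have hker := hcτ (fun i => o₁ (w i)) ⟨i, j, hij, hon⟩
    obtain ⟨v, hv⟩ := hi.1
    refine hv (FaithA_nonassoc (lev0_le c₂) ρ hρs τ hτ (cusp0_lift c₂ τ hτ hi hcτ) q' hqe hqs
      (uni F c₂ (fun i => o₁ (w i))) (fun n hn m hm => FaithA_lev0 c₂ _ n m hn hm)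
      (uni_le c₂ _) (fun v => ?_) Λ' hA hB (fun n hn m y => ?_) v)
    · have h5 : v ∈ (stdD F c₂ (fun i => o₁ (w i))).kerJ τ := by
        rw [hker]
        exact Submodule.mem_top
      exact h5
    · obtain ⟨f, hf, hy⟩ := hex y
      rw [hrep _ y f hf hy, hrep _ y f hf hy]
      exact FaithA_lam_uni cb c₁ o₁ h₁ c₂ o₂ h₂ w Ω' Ω hst σ hσ hlive (fun i => o₁ (w i))
        (fun i => rfl) f hf ⟨n, (parD c₂ cb o₂ h₂).hM (uni_le c₂ _ hn)⟩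
        ⟨m.1, (parD c₂ cb o₂ h₂).hM m.2⟩ hn m.2

theorem faith [DecidableEq ι₂] (cb : κ → ι₀) (c₁ : κ → ι₁) (o₁ : κ → ℤ)
    (h₁ : ∀ i j, c₁ i = c₁ j ↔ cb i = cb j ∧ o₁ i = o₁ j) (c₂ : κ → ι₂) (o₂ : κ → ℤ)
    (h₂ : ∀ i j, c₂ i = c₂ j ↔ cb i = cb j ∧ o₂ i = o₂ j)
    (σ : Representation ℂ (lev F c₁) E) (hσ : IsSm σ) (hc : Cusp c₁ σ)
    (τ : Representation ℂ (lev F c₂) W) (hτ : IsSm τ) (hi : Irr τ) (hcτ : Cusp c₂ τ)
    (Y₁ : Submodule ℂ ((parD c₁ cb o₁ h₁).IndSp σ ⧸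
      (parD c₂ cb o₂ h₂).kerJ ((parD c₁ cb o₁ h₁).Ind σ)))
    (hY : Stab ((parD c₂ cb o₂ h₂).Jac ((parD c₁ cb o₁ h₁).Ind σ)) Y₁)
    (q : Y₁ →ₗ[ℂ] W) (hq : Equi (subRep _ Y₁ hY) τ q) (hs : Function.Surjective q) :
    ∃ (w : Equiv.Perm κ) (hw : ∀ i, cb (w i) = cb i)
      (hl : ∀ i j, c₁ (w i) = c₁ (w j) ↔ c₂ i = c₂ j) (E' : Submodule ℂ E) (hE : Stab σ E')
      (r : E' →ₗ[ℂ] W), Function.Surjective r ∧
      ∀ (m : GL κ F) (hm : m ∈ lev F c₂) (hm' : m ∈ lev F cb) (e : E'),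
        cfac cb o₁ c₂ o₂ h₂ w hw ⟨m, hm'⟩ •
          r (subRep σ E' hE ⟨permG F w * m * (permG F w)⁻¹, permG_conj_mem c₁ c₂ w hl m hm⟩ e) =
          τ ⟨m, hm⟩ (r e) := by
  classical
  obtain ⟨r, w, hw, huniq, -, hopen⟩ := cell_order (F := F) cb o₁ o₂
  set U : ℕ → Set (lev F cb) := fun k =>
    {g : lev F cb | ∃ i : Fin r, i.1 < k ∧ g ∈ gcell (F := F) cb o₁ o₂ (w i)} with hU
  have hex : ∃ k : ℕ, ∃ y : Y₁, y.1 ∈ (IndOn (parD c₁ cb o₁ h₁) σ (U k)).map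
      ((parD c₂ cb o₂ h₂).kerJ ((parD c₁ cb o₁ h₁).Ind σ)).mkQ ∧ q y ≠ 0 := by
    obtain ⟨v, hv⟩ := hi.1
    obtain ⟨y, rfl⟩ := hs v
    refine ⟨r, y, ?_, hv⟩
    obtain ⟨f, hf⟩ := Submodule.mkQ_surjective _ y.1
    refine ⟨f, ?_, hf⟩
    intro g hg
    exfalso
    apply hg
    obtain ⟨k, hk, -⟩ := huniq g
    exact ⟨k, k.2, hk⟩
  have hspec := Nat.find_spec hex
  have hmin := fun k => Nat.find_min hex (m := k)
  set k₀ := Nat.find hex with hk₀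
  have hk0 : k₀ ≠ 0 := by
    intro h0
    obtain ⟨y, ⟨f, hf, hfy⟩, hy⟩ := hspec
    rw [h0] at hf
    have hf0 : f = 0 := by
      apply Subtype.ext
      funext g
      refine hf g ?_
      rintro ⟨i, hi', -⟩
      exact absurd hi' (Nat.not_lt_zero _)
    rw [hf0, map_zero] at hfy
    have hy0 : y = 0 := Subtype.ext hfy.symm
    rw [hy0, map_zero] at hy
    exact hy rfl
  obtain ⟨k, hk⟩ := Nat.exists_eq_succ_of_ne_zero hk0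
  have hkr : k < r := by
    by_contra hcon
    push Not at hcon
    refine hmin k (by omega) ?_
    obtain ⟨y, ⟨f, hf, hfy⟩, hy⟩ := hspec
    refine ⟨y, ⟨f, fun g hg => ?_, hfy⟩, hy⟩
    refine hf g fun hg' => hg ?_
    obtain ⟨i, -, hi'⟩ := hg'
    exact ⟨i, by omega, hi'⟩
  rw [hk] at hspec
  have hst : CStep cb o₁ o₂ (w ⟨k, hkr⟩) (U k) (U (k + 1)) := by
    refine ⟨hw _, hopen k, hopen (k + 1), ?_, ?_, ?_, ?_⟩
    · rintro g p hp ⟨i, hi', p', hp', q', hq', h⟩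
      refine ⟨i, hi', p.1 * p', (upp F cb o₁).mul_mem hp hp', q', hq', ?_⟩
      show p.1 * g.1 = _
      rw [h]
      group
    · rintro g p hp ⟨i, hi', p', hp', q', hq', h⟩
      refine ⟨i, hi', p', hp', q' * p.1, (upp F cb o₂).mul_mem hq' hp, ?_⟩
      show g.1 * p.1 = _
      rw [h]
      group
    · intro g
      constructor
      · rintro ⟨i, hi', h⟩
        by_cases hik : i.1 < k
        · exact Or.inl ⟨i, hik, h⟩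
        · right
          have e : i = ⟨k, hkr⟩ := Fin.ext (by
            show i.1 = k
            omega)
          rw [← e]
          exact h
      · rintro (⟨i, hi', h⟩ | h)
        · exact ⟨i, by omega, h⟩
        · exact ⟨⟨k, hkr⟩, Nat.lt_succ_self k, h⟩
    · rintro g h ⟨i, hi', h'⟩
      have e := (huniq g).unique h h'
      rw [← e] at hi'
      exact lt_irrefl _ hi'
  refine FaithA_step cb c₁ o₁ h₁ c₂ o₂ h₂ σ hσ hc τ hτ hi hcτ Y₁ hY q hq (w ⟨k, hkr⟩) (U k)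
    (U (k + 1)) hst ?_ hspec
  intro y hy
  by_contra hne
  exact hmin k (by omega) ⟨y, hy, hne⟩

end

end Pool.Agent.Lib.MP_ca1492_al.P
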