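import Mathlib
import Pool.Agent.Lib.MP_ca1492_al.P.CuspDefs
import Pool.Agent.Lib.MP_ca1492_al.P.Iwasawa
import Pool.Agent.Lib.MP_ca1492_al.P.Jac

/-!
# MP_ca1492_al, p-adic side, module JacFg: Jacquet modules of finitely generated representations,
existence of cuspidal quotients of Jacquet modules

* `jac_fg`: let `S` generate `V`. By `iwasawa` `lev cb = M N (Kc 0 ∩ lev cb)` (with `upp_decomp`),
  so `V` is spanned by `π(m n k) s`, and modulo `kerJ` by `π(m) (π(k) s)` (note
  `m n = (m n m⁻¹) m`); the set `{π(k) s}` is finite (`orb_finite`).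
* `exists_cusp_quo`: among the functions `o` (up to the equivalence relation `(cb, o)` on `κ` there
  are finitely many possibilities) with `kerJ ≠ ⊤` choose one with the maximal number of classes of
  `(cb, o)`; there is one: for constant `o` we have `uni = 1`, `kerJ = ⊥ ≠ ⊤`. `J = Jac π` is
  nonzero and finitely generated, so it has an irreducible quotient `σ` (`exists_irr_quo`). `σ` is
  cuspidal: if `o'` is nonconstant on a class of `(cb, o)` and `kerJ σ ≠ ⊤` for `o'`, then (right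
  exactness, `jac_surj`) `kerJ (Jac π) ≠ ⊤` for `o'`, and by `PD.jac_trans` and `parD_chain` with
  `o'' i = B * o i + o' i` (`B` larger than `2 max |o'|`), `kerJ π ≠ ⊤` for `o''`; the number of
  classes of `(cb, o'')` is larger. (`lev (cb, o'')` is the same group as `lev ((cb, o), o')`; only
  the statement `kerJ ≠ ⊤` matters, which can be expressed inside `V`: by the proof of `jac_trans`,
  `kerJ` for `o''` is the preimage of `kerJ` for `o'` of `Jac π`.)
-/

set_option autoImplicit false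

namespace Pool.Agent.Lib.MP_ca1492_al.P

open Topology Matrix ValuativeRel

noncomputable section

variable {F : Type} [Field F] [ValuativeRel F] [TopologicalSpace F]
  [IsNonarchimedeanLocalField F]
variable {κ : Type} [Fintype κ] [DecidableEq κ]
variable {V : Type} [AddCommGroup V] [Module ℂ V]

theorem jac_fg {ι : Type} (cb : κ → ι) (o : κ → ℤ) (π : Representation ℂ (lev F cb) V)
    (hπ : IsSm π) (hfg : Fg π) : Fg ((stdD F cb o).Jac π) := by
  classical
  obtain ⟨s, hs⟩ := hfg
  set D := stdD F cb o with hD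
  -- the compact subgroup
  set K : Subgroup (lev F cb) := (Kc F κ 0 ⊓ lev F cb).subgroupOf (lev F cb) with hK
  have hKc : IsCompact (K : Set (lev F cb)) := by
    refine PD.compact_subgroupOf _ inf_le_right ?_
    rw [Subgroup.coe_inf]
    exact (Kc_isCompact 0).inter_right (lev_isClosed cb)
  have hfin : (⋃ v ∈ s, orb π K v).Finite :=
    s.finite_toSet.biUnion (fun v _ => Avg_orb_finite π hπ K hKc v)
  refine ⟨hfin.toFinset.image (fun v => (Submodule.Quotient.mk v : V ⧸ D.kerJ π)),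
    fun U hU hsU => ?_⟩
  -- the stable subspace of all `v` with `π g v` in `U` modulo `kerJ`
  set W : Submodule ℂ V := ⨅ g : lev F cb, (U.comap (D.kerJ π).mkQ).comap (π g) with hW
  have hmem : ∀ v, v ∈ W ↔ ∀ g : lev F cb,
      (Submodule.Quotient.mk (π g v) : V ⧸ D.kerJ π) ∈ U := by
    intro v
    rw [hW, Submodule.mem_iInf]
    rfl
  have hWst : Stab π W := by
    intro g v hv
    rw [hmem] at hv ⊢
    intro g'
    have h1 := hv (g' * g)
    rwa [map_mul, Module.End.mul_apply] at h1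
  have hWs : ∀ v ∈ s, v ∈ W := by
    intro v hv
    rw [hmem]
    intro g
    obtain ⟨p, hp, k, hk, hkl, hg⟩ := iwasawa cb o g.1 g.2
    obtain ⟨m, hm, n, hn, rfl⟩ := (upp_decomp (fun i => (cb i, o i)) cb o
      (by intro i j; exact Prod.mk.injEq _ _ _ _ ▸ Iff.rfl) p).1 hp
    have hnD : n ∈ D.N := hn
    have e1 : g = (⟨m, D.hM hm⟩ : lev F cb) * ((⟨n, D.hN hnD⟩ : lev F cb) * ⟨k, hkl⟩) := by
      apply Subtype.ext
      rw [hg]
      simp only [Subgroup.coe_mul, mul_assoc]
    have e2 : (Submodule.Quotient.mk (π ⟨k, hkl⟩ v) : V ⧸ D.kerJ π) ∈ U := by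
      apply hsU
      rw [Finset.mem_image]
      refine ⟨π ⟨k, hkl⟩ v, ?_, rfl⟩
      rw [Set.Finite.mem_toFinset, Set.mem_iUnion₂]
      exact ⟨v, hv, ⟨k, hkl⟩, ⟨hk, hkl⟩, rfl⟩
    have e3 : (Submodule.Quotient.mk (π ⟨n, D.hN hnD⟩ (π ⟨k, hkl⟩ v)) : V ⧸ D.kerJ π) =
        Submodule.Quotient.mk (π ⟨k, hkl⟩ v) := by
      rw [Submodule.Quotient.eq]
      exact Submodule.subset_span ⟨n, hnD, _, rfl⟩
    rw [e1, map_mul, map_mul, Module.End.mul_apply, Module.End.mul_apply]
    have e4 := hU ⟨m, hm⟩ _ (e3 ▸ e2)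
    exact e4
  have hWt := hs W hWst hWs
  rw [eq_top_iff]
  rintro x -
  obtain ⟨v, rfl⟩ := Submodule.Quotient.mk_surjective _ x
  have h1 := (hmem v).1 (hWt ▸ Submodule.mem_top) 1
  simpa using h1

open Classical in
/-- the number of pairs of indices in the same class -/
def JacFg_q {κ : Type} [Fintype κ] {ι : Type} (cb : κ → ι) (o : κ → ℤ) : ℕ :=
  (Finset.univ.filter (fun p : κ × κ => cb p.1 = cb p.2 ∧ o p.1 = o p.2)).card

/-- the lexicographic refinement of `o` by `o'` -/
def JacFg_o {κ : Type} [Fintype κ] (o o' : κ → ℤ) (i : κ) : ℤ :=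
  (2 * ∑ j, |o' j| + 1) * o i + o' i

theorem JacFg_o_lt {κ : Type} [Fintype κ] (o o' : κ → ℤ) (i j : κ) :
    JacFg_o o o' i < JacFg_o o o' j ↔ o i < o j ∨ (o i = o j ∧ o' i < o' j) := by
  unfold JacFg_o
  have hi : |o' i| ≤ ∑ j, |o' j| :=
    Finset.single_le_sum (f := fun j => |o' j|) (fun _ _ => abs_nonneg _) (Finset.mem_univ i)
  have hj : |o' j| ≤ ∑ j, |o' j| :=
    Finset.single_le_sum (f := fun j => |o' j|) (fun _ _ => abs_nonneg _) (Finset.mem_univ j)
  generalize (∑ j, |o' j|) = S at *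
  rw [abs_le] at hi hj
  obtain ⟨hi1, hi2⟩ := hi
  obtain ⟨hj1, hj2⟩ := hj
  have hS : 0 ≤ S := by linarith
  rcases lt_trichotomy (o i) (o j) with h | h | h
  · simp only [h, true_or, iff_true]
    nlinarith [mul_le_mul_of_nonneg_left (Int.add_one_le_iff.2 h) (by linarith : 0 ≤ 2 * S + 1)]
  · rw [h]
    simp
  · have h' : ¬ (o i < o j) := not_lt.2 h.le
    have h'' : o i ≠ o j := h.ne'
    simp only [h', h'', false_and, or_false, iff_false, not_lt]
    nlinarith [mul_le_mul_of_nonneg_left (Int.add_one_le_iff.2 h) (by linarith : 0 ≤ 2 * S + 1)]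

theorem JacFg_o_eq {κ : Type} [Fintype κ] (o o' : κ → ℤ) (i j : κ) :
    JacFg_o o o' i = JacFg_o o o' j ↔ o i = o j ∧ o' i = o' j := by
  constructor
  · intro h
    have h1 := (JacFg_o_lt o o' i j).not.1 (by rw [h]; exact lt_irrefl _)
    have h2 := (JacFg_o_lt o o' j i).not.1 (by rw [h]; exact lt_irrefl _)
    omega
  · rintro ⟨h1, h2⟩
    unfold JacFg_o
    rw [h1, h2]

theorem JacFg_q_lt {κ : Type} [Fintype κ] {ι : Type} (cb : κ → ι) (o o' : κ → ℤ)
    (h : ∃ i j, (cb i, o i) = (cb j, o j) ∧ o' i ≠ o' j) :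
    JacFg_q cb (JacFg_o o o') < JacFg_q cb o := by
  classical
  unfold JacFg_q
  apply Finset.card_lt_card
  rw [Finset.ssubset_iff_of_subset]
  · obtain ⟨i, j, h1, h2⟩ := h
    rw [Prod.mk.injEq] at h1
    refine ⟨(i, j), ?_, ?_⟩
    · simpa using h1
    · simp only [Finset.mem_filter, Finset.mem_univ, true_and, not_and]
      intro _ h3
      exact h2 ((JacFg_o_eq o o' i j).1 h3).2
  · intro p hp
    simp only [Finset.mem_filter, Finset.mem_univ, true_and] at hp ⊢
    exact ⟨hp.1, ((JacFg_o_eq o o' _ _).1 hp.2).1⟩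

/-- for a constant order function nothing happens -/
theorem JacFg_const {ι : Type} (cb : κ → ι) (π : Representation ℂ (lev F cb) V) :
    (stdD F cb (fun _ => 0)).kerJ π = ⊥ := by
  rw [eq_bot_iff]
  refine Submodule.span_le.2 ?_
  rintro x ⟨n, hn, v, rfl⟩
  have hn' : n ∈ uni F cb (fun _ => 0) := hn
  have h1 : n = 1 := by
    apply Units.ext
    ext i j
    rw [hn'.2 i j rfl, Units.val_one]
  subst h1
  rw [SetLike.mem_coe, Submodule.mem_bot]
  have h2 : (⟨1, (stdD F cb (fun _ => 0)).hN hn⟩ : lev F cb) = 1 := rfl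
  rw [h2, map_one, Module.End.one_apply, sub_self]

theorem exists_cusp_quo {ι : Type} (cb : κ → ι) (π : Representation ℂ (lev F cb) V)
    (hπ : IsSm π) (hfg : Fg π) (h0 : ∃ v : V, v ≠ 0) :
    ∃ (o : κ → ℤ) (U : Submodule ℂ (V ⧸ (stdD F cb o).kerJ π))
      (hU : Stab ((stdD F cb o).Jac π) U),
      Irr (quoRep ((stdD F cb o).Jac π) U hU) ∧
      Cusp (fun i => (cb i, o i)) (quoRep ((stdD F cb o).Jac π) U hU) := by
  classical
  -- a choice of `o` with the smallest number of pairs in the same class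
  obtain ⟨o, ho, hmin⟩ := (measure (JacFg_q cb)).wf.has_min
    {o : κ → ℤ | (stdD F cb o).kerJ π ≠ ⊤} ⟨fun _ => 0, by
      intro h
      obtain ⟨v, hv⟩ := h0
      have h1 : v ∈ (stdD F cb (fun _ => 0)).kerJ π := h ▸ Submodule.mem_top
      rw [JacFg_const] at h1
      exact hv ((Submodule.mem_bot ℂ).1 h1)⟩
  have hJ0 : ∃ x : V ⧸ (stdD F cb o).kerJ π, x ≠ 0 := by
    by_contra hcon
    push Not at hcon
    apply ho
    rw [eq_top_iff]
    rintro v -
    exact (Submodule.Quotient.mk_eq_zero _).1 (hcon (Submodule.Quotient.mk v))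
  obtain ⟨U, hU, hirr⟩ := exists_irr_quo ((stdD F cb o).Jac π) (jac_fg cb o π hπ hfg) hJ0
  refine ⟨o, U, hU, hirr, ?_⟩
  intro o' ho'
  by_contra hne
  -- the Jacquet module of `Jac π` is nonzero
  have h1 : (stdD F (fun i => (cb i, o i)) o').kerJ ((stdD F cb o).Jac π) ≠ ⊤ := by
    intro htop
    apply hne
    rw [eq_top_iff]
    rintro x -
    obtain ⟨y, rfl⟩ := Submodule.Quotient.mk_surjective _ x
    have h2 := (stdD F (fun i => (cb i, o i)) o').kerJ_map ((stdD F cb o).Jac π)
      (quoRep ((stdD F cb o).Jac π) U hU) U.mkQ (fun g v => rfl)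
    exact h2 (htop ▸ Submodule.mem_top : y ∈ _)
  -- the composed parabolic
  have h3 : (stdD F cb (JacFg_o o o')).kerJ π ≠ ⊤ := by
    have hch := parD_chain (F := F) (fun i => ((cb i, o i), o' i)) (fun i => (cb i, o i)) cb o o'
      (JacFg_o o o') (by intro i j; exact Prod.mk.injEq _ _ _ _ ▸ Iff.rfl)
      (by intro i j; exact Prod.mk.injEq _ _ _ _ ▸ Iff.rfl)
      (by
        intro i j
        rw [Prod.mk.injEq, Prod.mk.injEq, JacFg_o_eq]
        tauto)
      (fun i j _ => JacFg_o_lt o o' i j)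
    intro htop
    have h4 := PD.Chain_ker hch π
    apply h1
    rw [eq_top_iff]
    rintro x -
    obtain ⟨v, rfl⟩ := Submodule.Quotient.mk_surjective _ x
    have h5 : v ∈ (stdD F cb (JacFg_o o o')).kerJ π := htop ▸ Submodule.mem_top
    have h6 : v ∈ LinearMap.ker ((Submodule.mkQ ((stdD F (fun i => (cb i, o i)) o').kerJ
        ((stdD F cb o).Jac π))).comp ((stdD F cb o).kerJ π).mkQ) := by
      have h7 := h4 ▸ h5
      exact h7
    rw [LinearMap.mem_ker, LinearMap.comp_apply, Submodule.mkQ_apply, Submodule.mkQ_apply,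
      Submodule.Quotient.mk_eq_zero] at h6
    exact h6
  exact hmin _ h3 (JacFg_q_lt cb o o' ho')

end

end Pool.Agent.Lib.MP_ca1492_al.P
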