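import Mathlib
import Pool.Agent.Lib.MP_ca1492_al.P.FaithA
import Pool.Agent.Lib.MP_ca1492_al.P.JacFg

/-!
# MP_ca1492_al, p-adic side, module FaithB: nonzero subquotients of induced representations have
nonzero Jacquet modules for an order of the blocks of the inducing data

`X = Ind_{D₁} σ`, `σ` smooth cuspidal on `lev c₁`, `X₁ ≤ X` stable, `p : X₁ → V` equivariant and onto,
`V ≠ 0`.

Proof. Choose `v ≠ 0` in `V` and the finitely generated stable subspace `V' ∋ v`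
(`exists_fg_sub`). `exists_cusp_quo` for `subRep π V'`: an order function `o₂`, `c₂ = (cb, o₂)`, and a
quotient `τ` of `Jac V'` which is irreducible and cuspidal, `q₂ : Jac V' → W` (`W` the quotient space).
`X₁' = p⁻¹(V')` is a stable subspace of `X`, `p' : X₁' → V'` onto. `Y₁` = image of `Jac X₁'` in
`Jac X` (`jac_inj`: `Jac X₁' → Jac X` is injective); `q : Y₁ → W` = the composition
`Jac X₁' → Jac V' → W` (onto). `faith` gives `w`, `E'`, `r`. Put `o = o₂ ∘ w⁻¹`. Then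
`c₁ i = c₁ j ↔ c₂ (w⁻¹ i) = c₂ (w⁻¹ j) ↔ cb i = cb j ∧ o i = o j`. Conjugation by `permG w` maps
`uni F cb o₂` onto `uni F cb o` and `lev F c₂` onto `lev F c₁`. So `T = q₂' ∘ π(permG w)⁻¹ : V' → W`
kills `kerJ` for `o`, is onto, and intertwines with `τ'(m₁) = τ(w⁻¹ m₁ w)`, `m₁ ∈ lev c₁`. The relation
of `faith` for `m = w⁻¹ m₁ w` is the last statement with `χ m₁ = cfac ... (w⁻¹ m₁ w)`.
-/

set_option autoImplicit false

namespace Pool.Agent.Lib.MP_ca1492_al.P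

open Topology Matrix ValuativeRel

noncomputable section

variable {F : Type} [Field F] [ValuativeRel F] [TopologicalSpace F]
  [IsNonarchimedeanLocalField F] {κ : Type} [Fintype κ] [DecidableEq κ]
variable {E V : Type} [AddCommGroup E] [Module ℂ E] [AddCommGroup V] [Module ℂ V]
variable {ι₀ ι₁ : Type}

theorem conj_lev_mem (cb : κ → ι₀) (w : Equiv.Perm κ) (hw : ∀ i, cb (w i) = cb i) (m : GL κ F)
    (hm : m ∈ lev F cb) : (permG F w)⁻¹ * m * permG F w ∈ lev F cb := by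
  intro i j hij
  rw [CGLb_conj]
  exact hm _ _ (by rwa [hw, hw])

/-! ### the quotient of a stable subspace of the Jacquet module -/

theorem FaithB_q {G : Type} [Group G] [TopologicalSpace G] [IsTopologicalGroup G]
    {H M : Subgroup G} (D : PD H M) {X A B : Type} [AddCommGroup X] [Module ℂ X]
    [AddCommGroup A] [Module ℂ A] [AddCommGroup B] [Module ℂ B]
    (ρ : Representation ℂ H X) (hρ : IsSm ρ) (α : Representation ℂ H A) (hα : IsSm α)
    (β : Representation ℂ H B) (f : A →ₗ[ℂ] X) (hf : Equi α ρ f) (hi : Function.Injective f)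
    (p : A →ₗ[ℂ] B) (hp : Equi α β p) (hs : Function.Surjective p)
    (U : Submodule ℂ (B ⧸ D.kerJ β)) (hU : Stab (D.Jac β) U) :
    ∃ (Y : Submodule ℂ (X ⧸ D.kerJ ρ)) (hY : Stab (D.Jac ρ) Y)
      (q : Y →ₗ[ℂ] ((B ⧸ D.kerJ β) ⧸ U)),
      Equi (subRep (D.Jac ρ) Y hY) (quoRep (D.Jac β) U hU) q ∧ Function.Surjective q := by
  have hinj := D.jac_inj α ρ hα hρ f hf hi
  set Φ := D.JMap α ρ f hf with hΦ
  have hΦe : Equi (D.Jac α) (D.Jac ρ) Φ := D.JMap_equi α ρ f hf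
  have hPe := D.JMap_equi α β p hp
  set e := LinearEquiv.ofInjective Φ hinj with he
  have hY := range_stab (D.Jac α) (D.Jac ρ) Φ hΦe
  refine ⟨LinearMap.range Φ, hY, U.mkQ ∘ₗ (D.JMap α β p hp) ∘ₗ (e.symm : _ →ₗ[ℂ] _), ?_, ?_⟩
  · intro g y
    obtain ⟨a, rfl⟩ := e.surjective y
    have h1 : subRep (D.Jac ρ) (LinearMap.range Φ) hY g (e a) = e (D.Jac α g a) := by
      refine Subtype.ext ?_
      show D.Jac ρ g (Φ a) = Φ (D.Jac α g a)
      rw [hΦe g a]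
    rw [h1]
    show U.mkQ (D.JMap α β p hp (e.symm (e (D.Jac α g a)))) =
      U.mkQ (D.Jac β g (D.JMap α β p hp (e.symm (e a))))
    rw [LinearEquiv.symm_apply_apply, LinearEquiv.symm_apply_apply, hPe g a]
  · intro z
    obtain ⟨b, rfl⟩ := U.mkQ_surjective z
    obtain ⟨a, rfl⟩ := D.jac_surj α β p hp hs b
    refine ⟨e a, ?_⟩
    show U.mkQ (D.JMap α β p hp (e.symm (e a))) = _
    rw [LinearEquiv.symm_apply_apply]

theorem FaithB_core {G : Type} [Group G] [TopologicalSpace G] [IsTopologicalGroup G]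
    {H M : Subgroup G} (D : PD H M) {X A V : Type} [AddCommGroup X] [Module ℂ X]
    [AddCommGroup A] [Module ℂ A] [AddCommGroup V] [Module ℂ V]
    (ρ : Representation ℂ H X) (hρ : IsSm ρ) (α : Representation ℂ H A) (hα : IsSm α)
    (π : Representation ℂ H V) (f : A →ₗ[ℂ] X) (hf : Equi α ρ f) (hi : Function.Injective f)
    (p : A →ₗ[ℂ] V) (hp : Equi α π p) (hs : Function.Surjective p)
    (V' : Submodule ℂ V) (hV : Stab π V')
    (U : Submodule ℂ (V' ⧸ D.kerJ (subRep π V' hV))) (hU : Stab (D.Jac (subRep π V' hV)) U) :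
    ∃ (Y : Submodule ℂ (X ⧸ D.kerJ ρ)) (hY : Stab (D.Jac ρ) Y)
      (q : Y →ₗ[ℂ] ((V' ⧸ D.kerJ (subRep π V' hV)) ⧸ U)),
      Equi (subRep (D.Jac ρ) Y hY) (quoRep (D.Jac (subRep π V' hV)) U hU) q ∧
        Function.Surjective q := by
  have hA : Stab α (V'.comap p) := by
    intro g x hx
    rw [Submodule.mem_comap] at hx ⊢
    rw [hp g x]
    exact hV g _ hx
  have hα' := smooth_sub α hα (V'.comap p) hA
  let f' : (V'.comap p) →ₗ[ℂ] X := f ∘ₗ (V'.comap p).subtype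
  have hf' : Equi (subRep α (V'.comap p) hA) ρ f' := fun g x => hf g x.1
  have hfi : Function.Injective f' := fun a b hab => Subtype.ext (hi hab)
  let p' : (V'.comap p) →ₗ[ℂ] V' := p.restrict (p := V'.comap p) (q := V') (fun x hx => hx)
  have hp' : Equi (subRep α (V'.comap p) hA) (subRep π V' hV) p' := fun g x =>
    Subtype.ext (hp g x.1)
  have hps' : Function.Surjective p' := by
    rintro ⟨y, hy⟩
    obtain ⟨x, rfl⟩ := hs y
    exact ⟨⟨x, hy⟩, rfl⟩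
  exact FaithB_q D ρ hρ (subRep α (V'.comap p) hA) hα' (subRep π V' hV) f' hf' hfi p' hp' hps'
    U hU

/-! ### conjugation by the permutation matrix -/

theorem FaithB_mem {ι₂ : Type} (c₁ : κ → ι₁) (c₂ : κ → ι₂) (w : Equiv.Perm κ)
    (hl : ∀ i j, c₁ (w i) = c₁ (w j) ↔ c₂ i = c₂ j) (m : GL κ F) (hm : m ∈ lev F c₁) :
    (permG F w)⁻¹ * m * permG F w ∈ lev F c₂ := by
  intro i j hij
  rw [CGLb_conj]
  exact hm _ _ (fun h => hij ((hl i j).1 h))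

/-- conjugation by the permutation matrix as a homomorphism -/
def FaithB_cw {ι₂ : Type} (c₁ : κ → ι₁) (c₂ : κ → ι₂) (w : Equiv.Perm κ)
    (hl : ∀ i j, c₁ (w i) = c₁ (w j) ↔ c₂ i = c₂ j) : lev F c₁ →* lev F c₂ where
  toFun m := ⟨(permG F w)⁻¹ * m.1 * permG F w, FaithB_mem c₁ c₂ w hl m.1 m.2⟩
  map_one' := by
    apply Subtype.ext
    show (permG F w)⁻¹ * 1 * permG F w = 1
    group
  map_mul' a b := by
    apply Subtype.ext
    show (permG F w)⁻¹ * (a.1 * b.1) * permG F w =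
      ((permG F w)⁻¹ * a.1 * permG F w) * ((permG F w)⁻¹ * b.1 * permG F w)
    group

theorem FaithB_cw_apply {ι₂ : Type} (c₁ : κ → ι₁) (c₂ : κ → ι₂) (w : Equiv.Perm κ)
    (hl : ∀ i j, c₁ (w i) = c₁ (w j) ↔ c₂ i = c₂ j) (m : lev F c₁) :
    FaithB_cw c₁ c₂ w hl m =
      ⟨(permG F w)⁻¹ * m.1 * permG F w, FaithB_mem c₁ c₂ w hl m.1 m.2⟩ := rfl

theorem FaithB_cw_surj {ι₂ : Type} (c₁ : κ → ι₁) (c₂ : κ → ι₂) (w : Equiv.Perm κ)
    (hl : ∀ i j, c₁ (w i) = c₁ (w j) ↔ c₂ i = c₂ j) :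
    Function.Surjective (FaithB_cw (F := F) c₁ c₂ w hl) := by
  intro m
  refine ⟨⟨permG F w * m.1 * (permG F w)⁻¹, permG_conj_mem c₁ c₂ w hl m.1 m.2⟩, ?_⟩
  apply Subtype.ext
  show (permG F w)⁻¹ * (permG F w * m.1 * (permG F w)⁻¹) * permG F w = m.1
  group

theorem FaithB_cw_cont {ι₂ : Type} (c₁ : κ → ι₁) (c₂ : κ → ι₂) (w : Equiv.Perm κ)
    (hl : ∀ i j, c₁ (w i) = c₁ (w j) ↔ c₂ i = c₂ j) :
    Continuous (FaithB_cw (F := F) c₁ c₂ w hl) := by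
  refine Continuous.subtype_mk ?_ _
  exact (continuous_const.mul continuous_subtype_val).mul continuous_const

theorem FaithB_sm {ι₂ : Type} (c₁ : κ → ι₁) (c₂ : κ → ι₂) (w : Equiv.Perm κ)
    (hl : ∀ i j, c₁ (w i) = c₁ (w j) ↔ c₂ i = c₂ j) (τ : Representation ℂ (lev F c₂) V)
    (hτ : IsSm τ) : IsSm (τ.comp (FaithB_cw c₁ c₂ w hl)) := fun v =>
  (hτ v).preimage (FaithB_cw_cont c₁ c₂ w hl)

theorem FaithB_irr {ι₂ : Type} (c₁ : κ → ι₁) (c₂ : κ → ι₂) (w : Equiv.Perm κ)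
    (hl : ∀ i j, c₁ (w i) = c₁ (w j) ↔ c₂ i = c₂ j) (τ : Representation ℂ (lev F c₂) V)
    (hτ : Irr τ) : Irr (τ.comp (FaithB_cw c₁ c₂ w hl)) := by
  refine ⟨hτ.1, fun U hU => hτ.2 U fun g v hv => ?_⟩
  obtain ⟨m, rfl⟩ := FaithB_cw_surj c₁ c₂ w hl g
  exact hU m v hv

theorem FaithB_uni {ι₂ : Type} (c₁ : κ → ι₁) (c₂ : κ → ι₂) (w : Equiv.Perm κ)
    (hl : ∀ i j, c₁ (w i) = c₁ (w j) ↔ c₂ i = c₂ j) (o : κ → ℤ) (n : GL κ F)
    (hn : n ∈ uni F c₂ (fun i => o (w i))) :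
    permG F w * n * (permG F w)⁻¹ ∈ uni F c₁ o := by
  refine ⟨⟨permG_conj_mem c₁ c₂ w hl n hn.1.1, fun i j hij => ?_⟩, fun i j hij => ?_⟩
  · obtain ⟨i, rfl⟩ := w.surjective i
    obtain ⟨j, rfl⟩ := w.surjective j
    rw [permG_conj]
    exact hn.1.2 i j hij
  · obtain ⟨i, rfl⟩ := w.surjective i
    obtain ⟨j, rfl⟩ := w.surjective j
    rw [permG_conj, hn.2 i j hij, Matrix.one_apply, Matrix.one_apply]
    simp only [w.injective.eq_iff]

theorem FaithB_uni' (cb : κ → ι₀) (w : Equiv.Perm κ) (hw : ∀ i, cb (w i) = cb i)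
    (o : κ → ℤ) (n : GL κ F) (hn : n ∈ uni F cb o) :
    (permG F w)⁻¹ * n * permG F w ∈ uni F cb (fun i => o (w i)) := by
  refine ⟨⟨conj_lev_mem cb w hw n hn.1.1, fun i j hij => ?_⟩, fun i j hij => ?_⟩
  · rw [CGLb_conj]
    exact hn.1.2 _ _ hij
  · rw [CGLb_conj, hn.2 _ _ hij, Matrix.one_apply, Matrix.one_apply]
    simp only [w.injective.eq_iff]

theorem FaithB_cusp {ι₂ : Type} (c₁ : κ → ι₁) (c₂ : κ → ι₂) (w : Equiv.Perm κ)
    (hl : ∀ i j, c₁ (w i) = c₁ (w j) ↔ c₂ i = c₂ j) (τ : Representation ℂ (lev F c₂) V)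
    (hτ : Cusp c₂ τ) : Cusp c₁ (τ.comp (FaithB_cw c₁ c₂ w hl)) := by
  rintro o ⟨i, j, hij, ho⟩
  have h1 := hτ (fun i => o (w i)) ⟨w.symm i, w.symm j, by
    rw [← hl, Equiv.apply_symm_apply, Equiv.apply_symm_apply]
    exact hij, by
    show o (w (w.symm i)) ≠ o (w (w.symm j))
    rw [Equiv.apply_symm_apply, Equiv.apply_symm_apply]
    exact ho⟩
  rw [eq_top_iff, ← h1]
  refine Submodule.span_le.2 ?_
  rintro x ⟨n, hn, v, rfl⟩
  have hn' : permG F w * n * (permG F w)⁻¹ ∈ (stdD F c₁ o).N := FaithB_uni c₁ c₂ w hl o n hn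
  refine Submodule.subset_span ⟨permG F w * n * (permG F w)⁻¹, hn', v, ?_⟩
  have h2 : FaithB_cw c₁ c₂ w hl ⟨permG F w * n * (permG F w)⁻¹, (stdD F c₁ o).hN hn'⟩ =
      ⟨n, (stdD F c₂ (fun i => o (w i))).hN hn⟩ := by
    apply Subtype.ext
    show (permG F w)⁻¹ * (permG F w * n * (permG F w)⁻¹) * permG F w = n
    group
  rw [MonoidHom.comp_apply, h2]

/-- the quotient map of the Jacquet module transported by the permutation -/
theorem FaithB_T {W : Type} [AddCommGroup W] [Module ℂ W] (cb : κ → ι₀) (c₁ : κ → ι₁)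
    (w : Equiv.Perm κ) (hw : ∀ i, cb (w i) = cb i) (o : κ → ℤ)
    (h : ∀ i j, c₁ i = c₁ j ↔ cb i = cb j ∧ o i = o j)
    (hl : ∀ i j, c₁ (w i) = c₁ (w j) ↔ (cb i, o (w i)) = (cb j, o (w j)))
    (β : Representation ℂ (lev F cb) V)
    (τ : Representation ℂ (lev F (fun i => (cb i, o (w i)))) W)
    (q : (V ⧸ (stdD F cb (fun i => o (w i))).kerJ β) →ₗ[ℂ] W)
    (hq : Equi ((stdD F cb (fun i => o (w i))).Jac β) τ q) (hs : Function.Surjective q) :
    ∃ T : (V ⧸ (parD c₁ cb o h).kerJ β) →ₗ[ℂ] W, Function.Surjective T ∧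
      Equi ((parD c₁ cb o h).Jac β)
        (τ.comp (FaithB_cw c₁ (fun i => (cb i, o (w i))) w hl)) T := by
  have hwl : permG F w ∈ lev F cb := permG_mem_lev' cb w hw
  set g : lev F cb := ⟨permG F w, hwl⟩ with hg
  have hgi : ∀ x : V, β g⁻¹ (β g x) = x := by
    intro x
    rw [← Module.End.mul_apply, ← map_mul, inv_mul_cancel, map_one, Module.End.one_apply]
  set t : V →ₗ[ℂ] W := q ∘ₗ ((stdD F cb (fun i => o (w i))).kerJ β).mkQ ∘ₗ (β g⁻¹ : V →ₗ[ℂ] V) with ht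
  have htv : ∀ v, t v = q (Submodule.Quotient.mk (β g⁻¹ v)) := fun v => rfl
  have hconj : ∀ (x : lev F cb) (v : V), β g⁻¹ (β x v) = β (g⁻¹ * x * g) (β g⁻¹ v) := by
    intro x v
    rw [← Module.End.mul_apply, ← Module.End.mul_apply, ← map_mul, ← map_mul]
    congr 2
    group
  have hker : (parD c₁ cb o h).kerJ β ≤ LinearMap.ker t := by
    refine Submodule.span_le.2 ?_
    rintro x ⟨n, hn, v, rfl⟩
    have hn' : (permG F w)⁻¹ * n * permG F w ∈ (stdD F cb (fun i => o (w i))).N := FaithB_uni' cb w hw o n hn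
    show t _ = 0
    rw [map_sub, htv, htv, hconj, sub_eq_zero]
    congr 1
    have h3 : g⁻¹ * (⟨n, (parD c₁ cb o h).hN hn⟩ : lev F cb) * g =
        ⟨(permG F w)⁻¹ * n * permG F w, (stdD F cb (fun i => o (w i))).hN hn'⟩ := rfl
    rw [h3]
    exact (stdD F cb (fun i => o (w i))).frob_mk_apply β _ hn' _
  refine ⟨((parD c₁ cb o h).kerJ β).liftQ t hker, ?_, ?_⟩
  · intro y
    obtain ⟨x, rfl⟩ := hs y
    obtain ⟨v, rfl⟩ := Submodule.Quotient.mk_surjective _ x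
    refine ⟨Submodule.Quotient.mk (β g v), ?_⟩
    show t (β g v) = _
    rw [htv, hgi]
  · intro m x
    obtain ⟨v, rfl⟩ := Submodule.Quotient.mk_surjective _ x
    have hm : m.1 ∈ lev F cb := (parD c₁ cb o h).hM m.2
    show t (β ⟨m.1, (parD c₁ cb o h).hM m.2⟩ v) =
      τ (FaithB_cw c₁ (fun i => (cb i, o (w i))) w hl m) (t v)
    rw [htv, htv, hconj, ← hq]
    rfl

/-- `V` a nonzero subquotient of `Ind σ`. Then for an order `o` of the blocks `c₁` there are a stable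
`V' ≤ V` and an irreducible smooth representation `τ'` of `lev c₁` on `W` which is a quotient of the
Jacquet module of `V'` for `o`, and, up to the modulus character, a subquotient of `σ`. -/
theorem faith_sub (cb : κ → ι₀) (c₁ : κ → ι₁) (o₁ : κ → ℤ)
    (h₁ : ∀ i j, c₁ i = c₁ j ↔ cb i = cb j ∧ o₁ i = o₁ j)
    (σ : Representation ℂ (lev F c₁) E) (hσ : IsSm σ) (hc : Cusp c₁ σ)
    (X₁ : Submodule ℂ ((parD c₁ cb o₁ h₁).IndSp σ))
    (hX : Stab ((parD c₁ cb o₁ h₁).Ind σ) X₁)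
    (π : Representation ℂ (lev F cb) V) (p : X₁ →ₗ[ℂ] V)
    (hp : Equi (V := X₁) (W := V) (subRep ((parD c₁ cb o₁ h₁).Ind σ) X₁ hX) π p) (hs : Function.Surjective p) (h0 : ∃ v : V, v ≠ 0) :
    ∃ (o : κ → ℤ) (h : ∀ i j, c₁ i = c₁ j ↔ cb i = cb j ∧ o i = o j)
      (V' : Submodule ℂ V) (hV : Stab π V') (W : Type) (_ : AddCommGroup W) (_ : Module ℂ W)
      (τ : Representation ℂ (lev F c₁) W)
      (T : (V' ⧸ (parD c₁ cb o h).kerJ (subRep π V' hV)) →ₗ[ℂ] W)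
      (E' : Submodule ℂ E) (hE : Stab σ E') (r : E' →ₗ[ℂ] W)
      (w : Equiv.Perm κ) (hw : ∀ i, cb (w i) = cb i),
      IsSm τ ∧ Irr τ ∧ Cusp c₁ τ ∧ Function.Surjective T ∧
      Equi ((parD c₁ cb o h).Jac (subRep π V' hV)) τ T ∧ Function.Surjective r ∧
      ∀ (m : GL κ F) (hm : m ∈ lev F c₁) (hm' : m ∈ lev F cb) (e : E'),
        cfac cb o₁ (fun i => (cb i, o (w i))) (fun i => o (w i))
            (fun i j => Prod.mk.injEq _ _ _ _ ▸ Iff.rfl) w hw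
            ⟨(permG F w)⁻¹ * m * permG F w, conj_lev_mem cb w hw m hm'⟩ •
          r (subRep σ E' hE ⟨m, hm⟩ e) = τ ⟨m, hm⟩ (r e) := by
  classical
  have hρ : IsSm ((parD c₁ cb o₁ h₁).Ind σ) := PD.ind_smooth (parD c₁ cb o₁ h₁) σ
  have hρ₁ := smooth_sub ((parD c₁ cb o₁ h₁).Ind σ) hρ X₁ hX
  have hπ : IsSm π := smooth_of_surj _ π hρ₁ p hp hs
  obtain ⟨v, hv⟩ := h0
  obtain ⟨V', hV, hvV, hfg⟩ := exists_fg_sub π v
  obtain ⟨o₂, U, hU, hirr, hcusp⟩ := exists_cusp_quo cb (subRep π V' hV) (smooth_sub π hπ V' hV)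
    hfg ⟨⟨v, hvV⟩, fun h => hv (congrArg Subtype.val h)⟩
  obtain ⟨Y₁, hY, q, hq, hqs⟩ := FaithB_core (A := X₁) (stdD F cb o₂)
    ((parD c₁ cb o₁ h₁).Ind σ) hρ (subRep ((parD c₁ cb o₁ h₁).Ind σ) X₁ hX) hρ₁ π
    X₁.subtype (fun g x => rfl) X₁.injective_subtype p hp hs V' hV U hU
  have hτ : IsSm (quoRep ((stdD F cb o₂).Jac (subRep π V' hV)) U hU) :=
    smooth_quo _ ((stdD F cb o₂).jac_smooth _ (smooth_sub π hπ V' hV)) U hU
  obtain ⟨w, hw, hl, E', hE, r, hr, hrel⟩ := faith cb c₁ o₁ h₁ (fun i => (cb i, o₂ i)) o₂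
    (by intro i j; exact Prod.mk.injEq _ _ _ _ ▸ Iff.rfl) σ hσ hc
    (quoRep ((stdD F cb o₂).Jac (subRep π V' hV)) U hU) hτ hirr hcusp Y₁ hY q hq hqs
  obtain ⟨o, rfl⟩ : ∃ o : κ → ℤ, o₂ = fun i => o (w i) :=
    ⟨fun i => o₂ (w.symm i), by funext i; simp⟩
  have h : ∀ i j, c₁ i = c₁ j ↔ cb i = cb j ∧ o i = o j := by
    intro i j
    obtain ⟨i, rfl⟩ := w.surjective i
    obtain ⟨j, rfl⟩ := w.surjective j
    rw [hl i j, Prod.mk.injEq, hw, hw]
  obtain ⟨T, hTs, hTe⟩ := FaithB_T cb c₁ w hw o h hl (subRep π V' hV)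
    (quoRep ((stdD F cb (fun i => o (w i))).Jac (subRep π V' hV)) U hU) U.mkQ
    (fun g x => rfl) U.mkQ_surjective
  refine ⟨o, h, V', hV, _, inferInstance, inferInstance,
    (quoRep ((stdD F cb (fun i => o (w i))).Jac (subRep π V' hV)) U hU).comp
      (FaithB_cw c₁ (fun i => (cb i, o (w i))) w hl), T, E', hE, r, w, hw,
    FaithB_sm c₁ _ w hl _ hτ, FaithB_irr c₁ _ w hl _ hirr, FaithB_cusp c₁ _ w hl _ hcusp,
    hTs, hTe, hr, ?_⟩
  intro m hm hm' e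
  have h1 := hrel ((permG F w)⁻¹ * m * permG F w) (FaithB_mem c₁ _ w hl m hm)
    (conj_lev_mem cb w hw m hm') e
  have h2 : (⟨permG F w * ((permG F w)⁻¹ * m * permG F w) * (permG F w)⁻¹,
      permG_conj_mem c₁ _ w hl _ (FaithB_mem c₁ _ w hl m hm)⟩ : lev F c₁) = ⟨m, hm⟩ := by
    apply Subtype.ext
    show permG F w * ((permG F w)⁻¹ * m * permG F w) * (permG F w)⁻¹ = m
    group
  rw [h2] at h1
  exact h1

/-- in particular the Jacquet module of `V` for this order does not vanish -/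
theorem faith_jac (cb : κ → ι₀) (c₁ : κ → ι₁) (o₁ : κ → ℤ)
    (h₁ : ∀ i j, c₁ i = c₁ j ↔ cb i = cb j ∧ o₁ i = o₁ j)
    (σ : Representation ℂ (lev F c₁) E) (hσ : IsSm σ) (hc : Cusp c₁ σ)
    (X₁ : Submodule ℂ ((parD c₁ cb o₁ h₁).IndSp σ))
    (hX : Stab ((parD c₁ cb o₁ h₁).Ind σ) X₁)
    (π : Representation ℂ (lev F cb) V) (p : X₁ →ₗ[ℂ] V)
    (hp : Equi (V := X₁) (W := V) (subRep ((parD c₁ cb o₁ h₁).Ind σ) X₁ hX) π p) (hs : Function.Surjective p) (h0 : ∃ v : V, v ≠ 0) :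
    ∃ (o : κ → ℤ) (h : ∀ i j, c₁ i = c₁ j ↔ cb i = cb j ∧ o i = o j),
      (parD c₁ cb o h).kerJ π ≠ ⊤ := by
  obtain ⟨o, h, V', hV, W, _, _, τ, T, E', hE, r, w, hw, -, hirr, -, hTs, -, -, -⟩ :=
    faith_sub cb c₁ o₁ h₁ σ hσ hc X₁ hX π p hp hs h0
  refine ⟨o, h, fun htop => ?_⟩
  have hρ : IsSm ((parD c₁ cb o₁ h₁).Ind σ) := PD.ind_smooth (parD c₁ cb o₁ h₁) σ
  have hρ₁ := smooth_sub ((parD c₁ cb o₁ h₁).Ind σ) hρ X₁ hX
  have hπ : IsSm π := smooth_of_surj _ π hρ₁ p hp hs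
  obtain ⟨x, hx⟩ := hirr.1
  obtain ⟨y, rfl⟩ := hTs x
  have hinj := (parD c₁ cb o h).jac_inj (subRep π V' hV) π (smooth_sub π hπ V' hV) hπ
    V'.subtype (fun g v => rfl) V'.injective_subtype
  apply hx
  have h1 : y = 0 := by
    apply hinj
    rw [map_zero]
    obtain ⟨z, hz⟩ := Submodule.Quotient.mk_surjective _
      ((parD c₁ cb o h).JMap (subRep π V' hV) π V'.subtype (fun g v => rfl) y)
    rw [← hz, Submodule.Quotient.mk_eq_zero, htop]
    exact Submodule.mem_top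
  rw [h1, map_zero]

end

end Pool.Agent.Lib.MP_ca1492_al.P
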