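import Mathlib
import Pool.Agent.Lib.MP_ca1492_al.Mod.RectM
import Pool.Agent.Lib.MP_ca1492_al.P.Statement

/-!
# MP_ca1492_al: the interface between the p-adic side and the KLR side

`Link S c d`: for each n a relation `Rel n A M`: the module M over `R (datS S) n` is the module
Hom_G(A, W) of the representation A (W the sum of the injective objects attached to the words of length
n in the letters (l, i) ∈ S, (l, i) ↔ c l ν^(i - d l / 2)).
-/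

set_option autoImplicit false

namespace Pool.Agent.Lib.MP_ca1492_al.Q

open Topology Matrix TensorProduct CategoryTheory CategoryTheory.Abelian ValuativeRel CA1492
open Pool.Agent.Lib.MP_ca1492_al.P

noncomputable section

variable (F : Type) [Field F] [ValuativeRel F] [TopologicalSpace F]
  [IsNonarchimedeanLocalField F]

/-- The interface. -/
structure Link {Λ : Type} [DecidableEq Λ] (S : Finset (Λ × ℤ)) (c : Λ → GLRep F) (d : Λ → ℤ) where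
  Rel : (n : ℕ) → GLRep F → RMod (datS S) n → Prop
  letter : ∀ (l : Λ) (i : ℤ), (l, i) ∈ S →
    Rel 1 ((c l).tw ((i : ℝ) - (d l : ℝ) / 2)) (DR S ⟨l, i, 1, 1⟩ 1)
  one : ∀ M : RMod (datS S) 0, Module.finrank ℂ M.V = 1 → Rel 0 GLRep.one M
  mul : ∀ {m k : ℕ} {A B : GLRep F} {M : RMod (datS S) m} {N : RMod (datS S) k},
    Rel m A M → Rel k B N → Rel (m + k) (A.mul B) (M.ind N)
  iso : ∀ {n : ℕ} {A B : GLRep F} {M N : RMod (datS S) n}, Rel n A M → A.Isom B → RIso M N → Rel n B N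
  quot : ∀ {n : ℕ} {A B : GLRep F} {M : RMod (datS S) n}, Rel n A M → A.Quot B →
    ∃ N : RMod (datS S) n, Rel n B N ∧ ∃ f : N.V →ₗ[R (datS S) n] M.V, Function.Injective f
  irred : ∀ {n : ℕ} {A : GLRep F} {M : RMod (datS S) n}, Rel n A M → A.Irred →
    IsSimpleModule (R (datS S) n) M.V
  ext : ∀ (n N : ℕ) (V₁ V₂ : Type) [AddCommGroup V₁] [Module ℂ V₁] [AddCommGroup V₂] [Module ℂ V₂]
    (π₁ : Representation ℂ (GL (Fin N) F) V₁) (π₂ : Representation ℂ (GL (Fin N) F) V₂)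
    (h₁ : IsSm π₁) (h₂ : IsSm π₂) (M₁ M₂ : RMod (datS S) n),
    Rel n ⟨Fin N, V₁, π₁⟩ M₁ → Rel n ⟨Fin N, V₂, π₂⟩ M₂ →
    (∃ i, Nontrivial (Ext.{0} (ModuleCat.of (R (datS S) n) M₂.V)
      (ModuleCat.of (R (datS S) n) M₁.V) i)) →
    letI := HasExt.standard (SmRep (GL (Fin N) F))
    ∃ i, Nontrivial (Ext.{1} (ofSm π₁ h₁) (ofSm π₂ h₂) i)
  ext_wt : ∀ (n₁ n₂ N : ℕ) (V₁ V₂ : Type) [AddCommGroup V₁] [Module ℂ V₁] [AddCommGroup V₂]
    [Module ℂ V₂] (π₁ : Representation ℂ (GL (Fin N) F) V₁)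
    (π₂ : Representation ℂ (GL (Fin N) F) V₂) (h₁ : IsSm π₁) (h₂ : IsSm π₂)
    (M₁ : RMod (datS S) n₁) (M₂ : RMod (datS S) n₂),
    Rel n₁ ⟨Fin N, V₁, π₁⟩ M₁ → Rel n₂ ⟨Fin N, V₂, π₂⟩ M₂ →
    letI := HasExt.standard (SmRep (GL (Fin N) F))
    (∃ i, Nontrivial (Ext.{1} (ofSm π₁ h₁) (ofSm π₂ h₂) i)) →
    ∃ (w₁ : Wd (datS S) n₁) (w₂ : Wd (datS S) n₂),
      (∃ v : M₁.V, (ew w₁ : R (datS S) n₁) • v ≠ 0) ∧
      (∃ v : M₂.V, (ew w₂ : R (datS S) n₂) • v ≠ 0) ∧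
      (wl w₁ : Multiset (Λ × ℤ)) = (wl w₂ : Multiset (Λ × ℤ))

end

end Pool.Agent.Lib.MP_ca1492_al.Q
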