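import Mathlib
import Pool.Agent.Lib.MP_ca1492_al.Mod.Stage
import Pool.Agent.Lib.MP_ca1492_al.Mod.SubIso
import Pool.Agent.Lib.MP_ca1492_al.P.GLRepB
import Pool.Agent.Lib.MP_ca1492_al.P.Link

/-!
# MP_ca1492_al: the modules of the Arthur type representations under a `Link`
-/

set_option autoImplicit false

namespace Pool.Agent.Lib.MP_ca1492_al.Q

open Topology Matrix TensorProduct CategoryTheory CategoryTheory.Abelian ValuativeRel CA1492
open Pool.Agent.Lib.MP_ca1492_al.P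

noncomputable section

variable {F : Type} [Field F] [ValuativeRel F] [TopologicalSpace F]
  [IsNonarchimedeanLocalField F]

variable {Λ : Type} [DecidableEq Λ] {S : Finset (Λ × ℤ)} {c : Λ → GLRep F} {d : Λ → ℤ}

omit [DecidableEq Λ] in
/-- Membership in the contents of a rectangle. -/
theorem Asm_mem_cont (r : PC.Rect Λ) (i j : ℕ) (hi : i < r.a) (hj : j < r.b) :
    (r.l, r.t + (j : ℤ) - (i : ℤ)) ∈ r.cont := by
  unfold PC.Rect.cont
  rw [Multiset.mem_map]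
  exact ⟨(⟨i, hi⟩, ⟨j, hj⟩), Finset.mem_univ _, rfl⟩

omit [DecidableEq Λ] in
theorem Asm_cont_mem {r : PC.Rect Λ} {x : Λ × ℤ} (hx : x ∈ r.cont) :
    ∃ i j : ℕ, i < r.a ∧ j < r.b ∧ x = (r.l, r.t + (j : ℤ) - (i : ℤ)) := by
  unfold PC.Rect.cont at hx
  rw [Multiset.mem_map] at hx
  obtain ⟨p, -, rfl⟩ := hx
  exact ⟨p.1, p.2, p.1.2, p.2.2, rfl⟩

theorem Asm_forall₂_map {α β γ : Type*} {R : β → γ → Prop} (f : α → β) (g : α → γ) (L : List α)
    (h : ∀ x ∈ L, R (f x) (g x)) : List.Forall₂ R (L.map f) (L.map g) := by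
  induction L with
  | nil => exact List.Forall₂.nil
  | cons a L ih =>
    exact List.Forall₂.cons (h a (List.mem_cons_self ..))
      (ih fun x hx => h x (List.mem_cons_of_mem _ hx))

theorem Asm_forall₂_trans {α β γ δ : Type*} {R : α → β → Prop} {R' : α → γ → Prop}
    {R'' : β → δ → Prop} (g : γ → δ) (h : ∀ x y z, R x y → R' x z → R'' y (g z)) :
    ∀ (L : List α) (L' : List β) (L'' : List γ), List.Forall₂ R L L' → List.Forall₂ R' L L'' →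
      List.Forall₂ R'' L' (L''.map g)
  | [], _, _, List.Forall₂.nil, List.Forall₂.nil => List.Forall₂.nil
  | _ :: L, _, _, List.Forall₂.cons h1 h2, List.Forall₂.cons h3 h4 =>
    List.Forall₂.cons (h _ _ _ h1 h3) (Asm_forall₂_trans g h L _ _ h2 h4)

theorem Asm_forall₂_mem {α β : Type*} {R : α → β → Prop} :
    ∀ (L : List α) (L' : List β), List.Forall₂ R L L' → ∀ y ∈ L', ∃ x ∈ L, R x y
  | [], _, List.Forall₂.nil, y, hy => absurd hy List.not_mem_nil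
  | a :: L, _, List.Forall₂.cons (b := b) h1 h2, y, hy => by
    rcases List.mem_cons.1 hy with rfl | hy
    · exact ⟨a, List.mem_cons_self .., h1⟩
    · obtain ⟨x, hx, hxy⟩ := Asm_forall₂_mem L _ h2 y hy
      exact ⟨x, List.mem_cons_of_mem _ hx, hxy⟩

theorem Asm_sum_const {α : Type*} (L : List α) (a : ℕ) :
    (L.map (fun _ => a)).sum = L.length * a := by
  rw [List.map_const', List.sum_replicate, smul_eq_mul]

theorem Asm_coe {α β : Type} {γ : Type*} (L : List α) (g : α → β) (f : β → γ) :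
    List.map f (do let a ← L; pure (g a)) = L.map (fun a => f (g a)) := by
  induction L with
  | nil => rfl
  | cons a L ih =>
    rw [List.map_cons, ← ih]
    rfl

theorem Asm_ds {ρ δ : GLRep F} {a : ℕ} (hδ : GLRep.IsDS ρ a δ) :
    (GLRep.prodL ((List.range a).map fun i : ℕ => ρ.tw ((i : ℝ) - ((a : ℝ) - 1) / 2))).Quot δ := by
  have h := hδ.2
  first
  | exact h
  | (rw [Asm_coe] at h; exact h)

theorem Asm_sp {δ σ : GLRep F} {b : ℕ} (hσ : GLRep.IsSp δ b σ) :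
    (GLRep.prodL ((List.range b).map fun j : ℕ => δ.tw (((b : ℝ) - 1) / 2 - (j : ℝ)))).Quot σ := by
  have h := hσ.2
  first
  | exact h
  | (rw [Asm_coe] at h; exact h)

/-- Products. PROOF: induction on the list with the three cases of `prodL` and `IsProd`. -/
theorem Link.prod (K : Link F S c d) (L : List (GLRep F)) (Ms : List (Σ m, RMod (datS S) m))
    (h : List.Forall₂ (fun A M => K.Rel M.1 A M.2) L Ms) :
    ∃ (n : ℕ) (M : RMod (datS S) n), K.Rel n (GLRep.prodL L) M ∧ IsProd (datS S) Ms n M := by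
  induction h with
  | nil =>
    obtain ⟨M, hM⟩ := exists_prod (D := datS S) (n := 0) [] rfl
    exact ⟨0, M, K.one M hM.2, hM⟩
  | @cons A M L' Ms' hA hL ih =>
    cases hL with
    | nil => exact ⟨M.1, M.2, hA, rfl, RIso.refl _⟩
    | @cons B M' L'' Ms'' hB hL' =>
      obtain ⟨n, N, hN, hP⟩ := ih
      exact ⟨M.1 + n, M.2.ind N, K.mul hA hN, n, N, rfl, hP, RIso.refl _⟩

/-- Segments. PROOF. δ.tw s is a quotient of (prodL ..).tw s ≅ prodL of the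
ρ.tw (i - (a-1)/2 + s) (`prodL_tw`, `tw_tw`), i = 0, ..., a - 1, and ρ ≅ c l: the letters with index
T - a + 1 + i by hT. `Link.prod`, K.letter (the letters are in r.cont), K.quot, K.irred
(`Irred.tw`), `seg_sub`, K.iso; the number of letters is a (`IsProd.length`). -/
theorem Link.ds (K : Link F S c d) {ρ δ : GLRep F} {a : ℕ} (ha : 0 < a) (l : Λ) (hρ : ρ.Isom (c l))
    (hδ : GLRep.IsDS ρ a δ) (s : ℝ) (T : ℤ) (hT : 2 * (T : ℝ) - ((a : ℝ) - 1) - (d l : ℝ) = 2 * s)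
    (hS : ∀ x ∈ (PC.Rect.mk l T a 1).cont, x ∈ S) :
    K.Rel a (δ.tw s) (DR S ⟨l, T, a, 1⟩ a) := by
  have hmem : ∀ i ∈ List.range a, (l, T - (a : ℤ) + 1 + (i : ℤ)) ∈ S := by
    intro i hi
    have hi' := List.mem_range.1 hi
    have h1 := hS _ (Asm_mem_cont (PC.Rect.mk l T a 1) (a - 1 - i) 0 (by simp only; omega)
      (by simp only; omega))
    have h2 : T - (a : ℤ) + 1 + (i : ℤ) = T + ((0 : ℕ) : ℤ) - ((a - 1 - i : ℕ) : ℤ) := by omega
    rw [h2]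
    exact h1
  obtain ⟨n, M, hRel, hM⟩ := K.prod
    ((List.range a).map fun i : ℕ =>
      (c l).tw (((T - (a : ℤ) + 1 + (i : ℤ) : ℤ) : ℝ) - (d l : ℝ) / 2))
    ((List.range a).map (fun i : ℕ =>
      (⟨1, DR S ⟨l, T - (a : ℤ) + 1 + (i : ℤ), 1, 1⟩ 1⟩ : Σ m, RMod (datS S) m)))
    (Asm_forall₂_map _ _ _ fun i hi => K.letter l _ (hmem i hi))
  have hn : a = n := by
    have h := hM.length
    rw [List.map_map] at h
    have h2 := Asm_sum_const (List.range a) 1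
    rw [List.length_range, mul_one] at h2
    exact h2.symm.trans h
  subst hn
  have hiso : (GLRep.prodL ((List.range a).map fun i : ℕ =>
      (c l).tw (((T - (a : ℤ) + 1 + (i : ℤ) : ℤ) : ℝ) - (d l : ℝ) / 2))).Isom
      ((GLRep.prodL ((List.range a).map fun i : ℕ => ρ.tw ((i : ℝ) - ((a : ℝ) - 1) / 2))).tw s) := by
    refine GLRep.Isom.symm ((GLRep.prodL_tw _ s).trans (GLRep.prodL_congr ?_))
    rw [List.map_map]
    refine Asm_forall₂_map _ _ _ fun i _ => ?_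
    have he : (i : ℝ) - ((a : ℝ) - 1) / 2 + s =
        ((T - (a : ℤ) + 1 + (i : ℤ) : ℤ) : ℝ) - (d l : ℝ) / 2 := by
      push_cast
      linarith
    have h1 := GLRep.tw_tw ρ ((i : ℝ) - ((a : ℝ) - 1) / 2) s
    rw [he] at h1
    exact h1.trans (hρ.tw _)
  obtain ⟨X, hX, f, hf⟩ := K.quot hRel (((Asm_ds hδ).tw s).isom hiso (GLRep.Isom.refl _))
  have := K.irred hX (hδ.1.tw s)
  exact K.iso hX (GLRep.Isom.refl _) (seg_sub l T a ha hS hM X f hf)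

/-- Rectangles. PROOF: σ is a quotient of the product of the δ.tw ((b-1)/2 - j), j = 0, ..., b-1; by
`Link.ds` the factor j has the module of the column with top T = t + b - 1 - j
(2 T - (a-1) - d = 2 ((b-1)/2 - j) by 2 t - a + b = d). `Link.prod`, K.quot, K.irred, `rect_sub`, K.iso. -/
theorem Link.sp (K : Link F S c d) {ρ δ σ : GLRep F} (r : PC.Rect Λ) (ha : 0 < r.a) (hb : 0 < r.b)
    (hr : 2 * r.t - r.a + r.b = d r.l) (hρ : ρ.Isom (c r.l)) (hδ : GLRep.IsDS ρ r.a δ)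
    (hσ : GLRep.IsSp δ r.b σ) (hS : ∀ x ∈ r.cont, x ∈ S) :
    K.Rel (r.a * r.b) σ (DR S r (r.a * r.b)) := by
  have hcol : ∀ j ∈ List.range r.b, K.Rel r.a (δ.tw (((r.b : ℝ) - 1) / 2 - (j : ℝ)))
      (DR S ⟨r.l, r.t + (r.b : ℤ) - 1 - (j : ℤ), r.a, 1⟩ r.a) := by
    intro j hj
    have hj' := List.mem_range.1 hj
    refine K.ds ha r.l hρ hδ _ _ ?_ ?_
    · have hr' : 2 * (r.t : ℝ) - (r.a : ℝ) + (r.b : ℝ) = (d r.l : ℝ) := by exact_mod_cast hr
      push_cast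
      linarith
    · intro x hx
      obtain ⟨i, k, hi, hk, rfl⟩ := Asm_cont_mem hx
      simp only at hi hk
      have h1 := hS _ (Asm_mem_cont r i (r.b - 1 - j) hi (by omega))
      have h2 : r.t + (r.b : ℤ) - 1 - (j : ℤ) + (k : ℤ) - (i : ℤ) =
          r.t + ((r.b - 1 - j : ℕ) : ℤ) - (i : ℤ) := by omega
      simp only
      rw [h2]
      exact h1
  obtain ⟨n, M, hRel, hM⟩ := K.prod
    ((List.range r.b).map fun j : ℕ => δ.tw (((r.b : ℝ) - 1) / 2 - (j : ℝ)))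
    ((List.range r.b).map (fun j : ℕ =>
      (⟨r.a, DR S ⟨r.l, r.t + (r.b : ℤ) - 1 - (j : ℤ), r.a, 1⟩ r.a⟩ : Σ m, RMod (datS S) m)))
    (Asm_forall₂_map _ _ _ hcol)
  have hn : r.a * r.b = n := by
    have h := hM.length
    rw [List.map_map] at h
    have h2 := Asm_sum_const (List.range r.b) r.a
    rw [List.length_range, mul_comm] at h2
    exact h2.symm.trans h
  subst hn
  obtain ⟨X, hX, f, hf⟩ := K.quot hRel (Asm_sp hσ)
  have := K.irred hX hσ.1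
  exact K.iso hX (GLRep.Isom.refl _) (rect_sub r.l r.t r.a r.b ha hb hS hM X f hf)

/-- The condition relating a triple (ρ, a, b) and a rectangle. -/
def RectOf (S : Finset (Λ × ℤ)) (c : Λ → GLRep F) (d : Λ → ℤ) (x : GLRep F × ℕ × ℕ)
    (r : PC.Rect Λ) : Prop :=
  x.1.Isom (c r.l) ∧ r.a = x.2.1 ∧ r.b = x.2.2 ∧ 0 < r.a ∧ 0 < r.b ∧ 2 * r.t - r.a + r.b = d r.l ∧
    ∀ y ∈ r.cont, y ∈ S

/-- Arthur type representations. PROOF: `Link.sp`, `Link.prod`, K.iso. -/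
theorem Link.att (K : Link F S c d) (ψ : APar F) (rs : List (PC.Rect Λ))
    (h : List.Forall₂ (RectOf S c d) ψ.L rs) (π : GLRep F) (hπ : ψ.Att π) :
    ∃ (n : ℕ) (M : RMod (datS S) n), K.Rel n π M ∧ IsAr S rs n M := by
  obtain ⟨σ, hσ, hiso⟩ := hπ
  obtain ⟨n, M, hRel, hM⟩ := K.prod σ
    (rs.map (fun r => (⟨r.a * r.b, DR S r (r.a * r.b)⟩ : Σ m, RMod (datS S) m)))
    (Asm_forall₂_trans _ (by
      rintro x s r ⟨δ, hδ, hs⟩ ⟨h1, h2, h3, h4, h5, h6, h7⟩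
      rw [← h2] at hδ
      rw [← h3] at hs
      exact K.sp r h4 h5 h6 h1 hδ hs h7) _ _ _ hσ h)
  exact ⟨n, M, K.iso hRel hiso (RIso.refl _), hM⟩

/-- The words of the module of a product of rectangles have the contents of the rectangles.
PROOF: `IsAr.lift` for lam = 1: GLift 1 M (chL rs); `dim_word`: if ew w • v ≠ 0 then chL rs (wl w) ≠ 0, and
`PC.wt_list`. -/
theorem IsAr_wt {rs : List (PC.Rect Λ)} {n : ℕ} {M : RMod (datS S) n} (hM : IsAr S rs n M)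
    (hS : ∀ r ∈ rs, ∀ x ∈ r.cont, x ∈ S) (w : Wd (datS S) n) (v : M.V)
    (h : (ew w : R (datS S) n) • v ≠ 0) :
    (wl w : Multiset (Λ × ℤ)) = (rs.map PC.Rect.cont).sum := by
  have h1 := hM.lift hS 1
  have h2 := (dim_word h1 w).1
  have h3 : (PC.chL rs : PC.QSh Λ ℂ 1) (wl w) ≠ 0 := fun h0 => h (h2 h0 v)
  exact PC.wt_list rs (wl w) h3

/-- The equivalence of non-vanishing with equality of the contents, for given lists of rectangles.
PROOF. (←) `Link.att` for both, the numbers of letters agree (`IsAr.card`), `stage1_aux` (for the lists in the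
order rs₂, rs₁), K.ext. (→) K.ext_wt, `IsAr_wt`. -/
theorem Link.main (K : Link F S c d) (N : ℕ) (V₁ V₂ : Type) [AddCommGroup V₁] [Module ℂ V₁]
    [AddCommGroup V₂] [Module ℂ V₂] (π₁ : Representation ℂ (GL (Fin N) F) V₁)
    (π₂ : Representation ℂ (GL (Fin N) F) V₂) (h₁ : IsSm π₁) (h₂ : IsSm π₂) (ψ₁ ψ₂ : APar F)
    (hπ₁ : ψ₁.Att ⟨Fin N, V₁, π₁⟩) (hπ₂ : ψ₂.Att ⟨Fin N, V₂, π₂⟩)
    (rs₁ rs₂ : List (PC.Rect Λ)) (hr₁ : List.Forall₂ (RectOf S c d) ψ₁.L rs₁)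
    (hr₂ : List.Forall₂ (RectOf S c d) ψ₂.L rs₂)
    (hfin : ∀ (n : ℕ) (lam : ℂˣ) (A B : FObj (datS S) n lam), PosNe lam →
      ExtT.FinExt (ModuleCat.of (R (datS S) n) A.V) (ModuleCat.of (R (datS S) n) B.V) (n + 1)) :
    letI := HasExt.standard (SmRep (GL (Fin N) F))
    ((∃ i, Nontrivial (Ext.{1} (ofSm π₁ h₁) (ofSm π₂ h₂) i)) ↔
      (rs₁.map PC.Rect.cont).sum = (rs₂.map PC.Rect.cont).sum) := by
  obtain ⟨n₁, M₁, hR₁, hA₁⟩ := K.att ψ₁ rs₁ hr₁ _ hπ₁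
  obtain ⟨n₂, M₂, hR₂, hA₂⟩ := K.att ψ₂ rs₂ hr₂ _ hπ₂
  have hS₁ : ∀ r ∈ rs₁, ∀ x ∈ r.cont, x ∈ S := fun r hr => by
    obtain ⟨x, -, h⟩ := Asm_forall₂_mem _ _ hr₁ r hr
    exact h.2.2.2.2.2.2
  have hS₂ : ∀ r ∈ rs₂, ∀ x ∈ r.cont, x ∈ S := fun r hr => by
    obtain ⟨x, -, h⟩ := Asm_forall₂_mem _ _ hr₂ r hr
    exact h.2.2.2.2.2.2
  constructor
  · intro hE
    obtain ⟨w₁, w₂, ⟨v₁, hv₁⟩, ⟨v₂, hv₂⟩, hw⟩ :=
      K.ext_wt n₁ n₂ N V₁ V₂ π₁ π₂ h₁ h₂ M₁ M₂ hR₁ hR₂ hE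
    rw [← IsAr_wt hA₁ hS₁ w₁ v₁ hv₁, ← IsAr_wt hA₂ hS₂ w₂ v₂ hv₂]
    exact hw
  · intro hc
    have hn : n₁ = n₂ := by rw [← hA₁.card, ← hA₂.card, hc]
    subst hn
    refine K.ext n₁ N V₁ V₂ π₁ π₂ h₁ h₂ M₁ M₂ hR₁ hR₂ ?_
    refine stage1_aux rs₂ rs₁ d (fun r hr => ?_) (fun r hr => ?_) hc.symm hS₂ M₂ M₁ hA₂ hA₁
      (hfin n₁)
    · obtain ⟨x, -, h⟩ := Asm_forall₂_mem _ _ hr₂ r hr
      exact ⟨h.2.2.2.1, h.2.2.2.2.1, h.2.2.2.2.2.1⟩
    · obtain ⟨x, -, h⟩ := Asm_forall₂_mem _ _ hr₁ r hr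
      exact ⟨h.2.2.2.1, h.2.2.2.2.1, h.2.2.2.2.2.1⟩

end

end Pool.Agent.Lib.MP_ca1492_al.Q
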