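import Mathlib
import Pool.Agent.Lib.MP_ca1492_al.P.Statement
import Pool.Agent.Lib.MP_ca1492_al.P.StatementU

/-!
# MP_ca1492_al: comparison of the two forms of the statement

`P/Statement.lean` (namespace Q) and `P/StatementU.lean` (namespace U) are the same statement; the second one
has shorter terms.
-/

set_option autoImplicit false

namespace Pool.Agent.Lib.MP_ca1492_al.U

open Topology Matrix TensorProduct CategoryTheory CategoryTheory.Abelian ValuativeRel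
open Pool.Agent.Lib.MP_ca1492_al.P

noncomputable section

variable {F : Type} [Field F] [ValuativeRel F] [TopologicalSpace F]
  [IsNonarchimedeanLocalField F]

/-- the same representation -/
def toQ (A : GLRep F) : Q.GLRep F := ⟨A.κ, A.V, A.π⟩

/-- the same representation -/
def ofQ (A : Q.GLRep F) : GLRep F := ⟨A.κ, A.V, A.π⟩

theorem toQ_ofQ (A : Q.GLRep F) : toQ (ofQ A) = A := rfl

theorem ofQ_toQ (A : GLRep F) : ofQ (toQ A) = A := rfl

theorem toQ_tw (A : GLRep F) (s : ℝ) : toQ (A.tw s) = (toQ A).tw s := rfl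

theorem toQ_one : toQ (GLRep.one : GLRep F) = Q.GLRep.one := rfl

theorem toQ_mul (A B : GLRep F) : toQ (A.mul B) = (toQ A).mul (toQ B) := rfl

theorem toQ_prodL : ∀ L : List (GLRep F), toQ (GLRep.prodL L) = Q.GLRep.prodL (L.map toQ)
  | [] => rfl
  | [_] => rfl
  | A :: B :: L => by
    have h := toQ_prodL (B :: L)
    show toQ (A.mul (GLRep.prodL (B :: L))) =
      (toQ A).mul (Q.GLRep.prodL ((B :: L).map toQ))
    rw [toQ_mul, h]

theorem quot_iff (A B : GLRep F) : A.Quot B ↔ (toQ A).Quot (toQ B) := Iff.rfl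

theorem isom_iff (A B : GLRep F) : A.Isom B ↔ (toQ A).Isom (toQ B) := Iff.rfl

theorem irred_iff (A : GLRep F) : A.Irred ↔ (toQ A).Irred := Iff.rfl

theorem cusp_iff (A : GLRep F) : A.Cusp ↔ (toQ A).Cusp := Iff.rfl

theorem unit_iff (A : GLRep F) : A.UnitCentral ↔ (toQ A).UnitCentral := Iff.rfl

theorem isDS_iff (ρ : GLRep F) (a : ℕ) (δ : GLRep F) :
    GLRep.IsDS ρ a δ ↔ Q.GLRep.IsDS (toQ ρ) a (toQ δ) := by
  unfold GLRep.IsDS Q.GLRep.IsDS
  rw [irred_iff, quot_iff, toQ_prodL, List.map_map]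
  rfl

theorem isSp_iff (δ : GLRep F) (b : ℕ) (σ : GLRep F) :
    GLRep.IsSp δ b σ ↔ Q.GLRep.IsSp (toQ δ) b (toQ σ) := by
  unfold GLRep.IsSp Q.GLRep.IsSp
  rw [irred_iff, quot_iff, toQ_prodL, List.map_map]
  rfl

/-- the same parameter -/
def toA (ψ : APar F) : Q.APar F where
  L := ψ.L.map fun x => (toQ x.1, x.2)
  cusp := by
    intro x hx
    obtain ⟨y, hy, rfl⟩ := List.mem_map.1 hx
    exact ψ.cusp y hy

theorem att_iff (ψ : APar F) (π : GLRep F) (h : ψ.Att π) : (toA ψ).Att (toQ π) := by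
  obtain ⟨σ, h1, h2⟩ := h
  refine ⟨σ.map toQ, ?_, ?_⟩
  · rw [show (toA ψ).L = ψ.L.map fun x => (toQ x.1, x.2) from rfl, List.forall₂_map_left_iff,
      List.forall₂_map_right_iff]
    refine h1.imp ?_
    rintro x s ⟨δ, hδ, hs⟩
    exact ⟨toQ δ, (isDS_iff _ _ _).1 hδ, (isSp_iff _ _ _).1 hs⟩
  · rw [isom_iff, toQ_prodL] at h2
    exact h2

theorem mult_eq (ψ : APar F) (ρ : GLRep F) (c : ℕ) : ψ.mult ρ c = (toA ψ).mult (toQ ρ) c := by
  unfold APar.mult Q.APar.mult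
  rw [show (toA ψ).L = ψ.L.map fun x => (toQ x.1, x.2) from rfl, List.countP_map]
  rfl

theorem supp_eq (ψ : APar F) (τ : GLRep F) : ψ.supp τ = (toA ψ).supp (toQ τ) := by
  unfold APar.supp Q.APar.supp
  rw [show (toA ψ).L = ψ.L.map fun x => (toQ x.1, x.2) from rfl, List.map_map]
  rfl

theorem of_Q (h : Q.Q1 F) : Q1 F := by
  intro n V₁ V₂ _ _ _ _ π₁ π₂ h₁ h₂ i₁ i₂ ψ₁ ψ₂ a₁ a₂
  obtain ⟨k1, k2⟩ := h n V₁ V₂ π₁ π₂ h₁ h₂ i₁ i₂ (toA ψ₁) (toA ψ₂) (att_iff _ _ a₁)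
    (att_iff _ _ a₂)
  have hm : (∀ (ρ : Q.GLRep F) (c : ℕ), (toA ψ₁).mult ρ c = (toA ψ₂).mult ρ c) ↔
      ∀ (ρ : GLRep F) (c : ℕ), ψ₁.mult ρ c = ψ₂.mult ρ c := by
    constructor
    · intro h ρ c
      rw [mult_eq, mult_eq, h]
    · intro h ρ c
      have h3 := h (ofQ ρ) c
      rw [mult_eq, mult_eq] at h3
      exact h3
  have hs : (∀ τ : Q.GLRep F, (toA ψ₁).supp τ = (toA ψ₂).supp τ) ↔
      ∀ τ : GLRep F, ψ₁.supp τ = ψ₂.supp τ := by
    constructor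
    · intro h τ
      rw [supp_eq, supp_eq, h]
    · intro h τ
      have h3 := h (ofQ τ)
      rw [supp_eq, supp_eq] at h3
      exact h3
  rw [← hm, ← hs]
  exact ⟨k1, k2⟩

end

end Pool.Agent.Lib.MP_ca1492_al.U
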