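import Pool.Agent.Lib.MP_ca1492_al.P.CCell
import Pool.Agent.Lib.MP_ca1492_al.P.PInt

/-!
# MP_ca1492_al, p-adic side, module CLevi: functions supported in the big cell

`D = parD c cb o h`, `P = upp cb o`, `N⁻ = uni cb (-o)`. Every locally constant compactly supported
function `e : N⁻ → E` is the restriction of a unique `f ∈ Ind_D σ` vanishing off the open set
`P N⁻`.

* `big_ext`: `f g = aP σ p (e n)` if `g = p n`, `p ∈ P`, `n ∈ N⁻` (unique), `0` otherwise.
  Right invariance: `e` is right invariant under `N⁻ ∩ U`, vanishes off a compact set `C ⊆ N⁻`, takes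
  finitely many values; let `V ⊆ P` be an open subgroup of `P` fixing all the values of `e`, and
  `V (N⁻ ∩ U)`, open in `lev cb` (`mul_isOpen` (COrbB) with `big_open`). For `n ∈ C` and `u` near `1`:
  `n u = (n u n⁻¹) n` with `n u n⁻¹ ∈ V · (N⁻ ∩ n U n⁻¹)`... choose by compactness of `C` a neighbourhood
  `W` of `1` with `n u ∈ V n (N⁻ ∩ U)` for `n ∈ C`, `u ∈ W` (the set `V n (N⁻ ∩ U) = V (N⁻ ∩ n U n⁻¹) n`
  is open and contains `n`; tube lemma). The set of all `u` with `f (g u) = f g` for all `g` is a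
  subgroup containing `W ∩ W⁻¹`.
* `big_uniq`: clear.
* `big_csupp`: for `f` vanishing off `P N⁻` the restriction to `N⁻` has compact support: `{f ≠ 0}` is
  closed, `= P C` with `C` compact in `P N⁻` (`iwasawa`), project to `N⁻` (`orbit_compact`).
* `big_lam`: for `w = 1`, `c₂ = c`, `o₂ = -o`: `Lam f 1 = intS (patO cb (-o)) (f on N⁻)`
  (`lam_eq_intS`; `patDn cb (-o) o` is the pattern `cb i = cb j, -o i < -o j`).
-/

set_option autoImplicit false

namespace Pool.Agent.Lib.MP_ca1492_al.P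

open Topology Matrix ValuativeRel

noncomputable section

variable {F : Type} [Field F] [ValuativeRel F] [TopologicalSpace F]
  [IsNonarchimedeanLocalField F] {κ : Type} [Fintype κ] [DecidableEq κ]
variable {E : Type} [AddCommGroup E] [Module ℂ E]
variable {ι₀ ι : Type}

/-- the big cell `P N⁻` -/
def big (F : Type) [Field F] {κ : Type} [Fintype κ] [DecidableEq κ] {ι₀ : Type} (cb : κ → ι₀)
    (o : κ → ℤ) : Set (lev F cb) :=
  {g | ∃ p ∈ upp F cb o, ∃ n ∈ uni F cb (fun i => - o i), g.1 = p * n}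

variable (cb : κ → ι₀) (c : κ → ι) (o : κ → ℤ)
  (h : ∀ i j, c i = c j ↔ cb i = cb j ∧ o i = o j) (σ : Representation ℂ (lev F c) E)

theorem CLevi_perm : permG F (1 : Equiv.Perm κ) = 1 := by
  apply Units.ext
  ext i j
  show (if (1 : Equiv.Perm κ) j = i then (1 : F) else 0) = (1 : Matrix κ κ F) i j
  rw [Matrix.one_apply, Equiv.Perm.one_apply]
  by_cases hij : i = j
  · rw [if_pos hij, if_pos hij.symm]
  · rw [if_neg hij, if_neg (Ne.symm hij)]

theorem CLevi_trans {A : Type} [Group A] [TopologicalSpace A] [IsTopologicalGroup A]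
    (P : Subgroup A) (a : Representation ℂ P E) (φ : A → E) (hφ : φ ∈ IS P a) (x : A) :
    (fun g => φ (g * x)) ∈ IS P a := by
  obtain ⟨h1, U, hU, h2⟩ := hφ
  refine ⟨fun p g => ?_, U.comap (MulAut.conj x⁻¹).toMonoidHom, ?_, fun g u hu => ?_⟩
  · show φ (p * g * x) = a p (φ (g * x))
    rw [mul_assoc, h1]
  · have e : ((U.comap (MulAut.conj x⁻¹).toMonoidHom : Subgroup A) : Set A) =
        (fun y => x⁻¹ * y * x) ⁻¹' (U : Set A) := by
      ext y
      simp
    rw [e]
    exact hU.preimage (by fun_prop)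
  · show φ (g * u * x) = φ (g * x)
    have hu' : x⁻¹ * u * x ∈ U := by
      have h4 : (MulAut.conj x⁻¹).toMonoidHom u ∈ U := hu
      simpa using h4
    rw [← h2 (g * x) _ hu']
    congr 1
    group

include h in
theorem CLevi_h' (i j : κ) : c i = c j ↔ cb i = cb j ∧ - o i = - o j := by
  rw [h i j, neg_inj]

include h in
theorem CLevi_step : CStep (F := F) cb o (fun i => - o i) (1 : Equiv.Perm κ) ∅ (big F cb o) where
  hw := fun _ => rfl
  open' := isOpen_empty
  opn := big_open cb o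
  left' := fun g p _ hg => absurd hg (Set.notMem_empty _)
  right' := fun g q _ hg => absurd hg (Set.notMem_empty _)
  union := by
    intro g
    constructor
    · rintro ⟨p, hp, n, hn, hg⟩
      right
      refine ⟨p, hp, n, hn.1, ?_⟩
      rw [CLevi_perm, mul_one]
      exact hg
    · rintro (hg | ⟨p, hp, q, hq, hg⟩)
      · exact absurd hg (Set.notMem_empty _)
      · obtain ⟨m, hm, n, hn, hmn⟩ :=
          (upp_decomp c cb (fun i => - o i) (CLevi_h' cb c o h) q).1 hq
        refine ⟨p * m, (upp F cb o).mul_mem hp (parD_lev_le_upp c cb o h hm), n, hn, ?_⟩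
        rw [hg, CLevi_perm, mul_one, hmn, mul_assoc]
  disj := fun g _ hg => hg

theorem big_ext (hσ : IsSm σ) (e : lev F cb → E)
    (he : LCC ((uni F cb (fun i => - o i)).subgroupOf (lev F cb)) e) :
    ∃ f ∈ IndOn (parD c cb o h) σ (big F cb o),
      ∀ n : lev F cb, n.1 ∈ uni F cb (fun i => - o i) → f.1 n = e n := by
  classical
  have i1 : T2Space (lev F cb) := lev_t2 cb
  have i2 : LocallyCompactSpace (lev F cb) := lev_locallyCompact cb
  have i3 : SigmaCompactSpace (lev F cb) := lev_sigma cb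
  set N' : Subgroup (lev F cb) := (uni F cb (fun i => - o i)).subgroupOf (lev F cb) with hN'
  have hN'c : IsClosed (N' : Set (lev F cb)) :=
    (uni_isClosed cb _).preimage continuous_subtype_val
  have hPc : IsClosed (PPs F cb o : Set (lev F cb)) :=
    (upp_isClosed cb o).preimage continuous_subtype_val
  have hdisj : ∀ x ∈ N', (1 : lev F cb) * x * 1⁻¹ ∈ PPs F cb o → x = 1 := by
    intro x hx hx'
    rw [one_mul, inv_one, mul_one] at hx'
    exact Subtype.ext (big_disj cb o x.1 hx' hx)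
  have hopen : IsOpen {g | ∃ p ∈ cjS (1 : lev F cb) (PPs F cb o), ∃ n ∈ N', g = p * n} := by
    have e1 : {g | ∃ p ∈ cjS (1 : lev F cb) (PPs F cb o), ∃ n ∈ N', g = p * n} =
        {g : lev F cb | ∃ p ∈ upp F cb o, ∃ n ∈ uni F cb (fun i => - o i), g.1 = p * n} := by
      ext g
      constructor
      · rintro ⟨p, hp, n, hn, rfl⟩
        rw [mem_cjS, one_mul, inv_one, mul_one] at hp
        exact ⟨p.1, hp, n.1, hn, rfl⟩
      · rintro ⟨p, hp, n, hn, hg⟩
        refine ⟨⟨p, hp.1⟩, ?_, ⟨n, hn.1.1⟩, hn, Subtype.ext hg⟩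
        rw [mem_cjS, one_mul, inv_one, mul_one]
        exact hp
    rw [e1]
    exact big_open cb o
  obtain ⟨C, hC, hCN, hsupp⟩ := CFub_supp he
  obtain ⟨_, ⟨U, hU, hinv⟩, _⟩ := he
  obtain ⟨K₀, hK₀o, hK₀c, hK₀U⟩ := CGLa_lev_hasCO cb (U : Set (lev F cb))
    (hU.mem_nhds U.one_mem)
  have hNK₀ : IsCompact ((N' ⊓ K₀ : Subgroup (lev F cb)) : Set (lev F cb)) := by
    rw [Subgroup.coe_inf]
    exact hK₀c.inter_left hN'c
  obtain ⟨K, hKN, hKc, hCK⟩ := (glCD (F := F) cb o c (fun i => - o i)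
    (CLevi_h' cb c o h) 1 (fun _ => rfl)).exh
    (C ∪ ((N' ⊓ K₀ : Subgroup (lev F cb)) : Set (lev F cb))) (hC.union hNK₀)
    (Set.union_subset hCN (fun x hx => hx.1))
  obtain ⟨U', hU', hcore⟩ := CFub_core K₀ hK₀o K hKc
  have hU'K₀ : ∀ u ∈ U', u ∈ K₀ := by
    intro u hu
    have h5 := hcore 1 K.one_mem u hu
    rwa [inv_one, one_mul, mul_one] at h5
  have hTK : ∀ t ∈ N' ⊓ U', t ∈ K := fun t ht => hCK (Or.inr ⟨ht.1, hU'K₀ t ht.2⟩)
  have hTc : IsCompact ((N' ⊓ U' : Subgroup (lev F cb)) : Set (lev F cb)) := by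
    refine hK₀c.of_isClosed_subset ?_ (fun t ht => hU'K₀ t ht.2)
    rw [Subgroup.coe_inf]
    exact hN'c.inter (Subgroup.isClosed_of_isOpen U' hU')
  obtain ⟨s, -, hsK, hex, -⟩ := avg_sum K hKc U' hU'
  set f : lev F cb → E := fun g =>
    ∑ x ∈ s, CSurj_f (PPs F cb o) 1 (N' ⊓ U') (aP c cb o h σ) (e x⁻¹) (g * x) with hf
  have hIS : f ∈ IS (PPs F cb o) (aP c cb o h σ) := by
    have e1 : f = ∑ x ∈ s, fun g : lev F cb =>
        CSurj_f (PPs F cb o) 1 (N' ⊓ U') (aP c cb o h σ) (e x⁻¹) (g * x) := by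
      funext g
      rw [Finset.sum_apply]
    rw [e1]
    refine Submodule.sum_mem _ fun x _ => ?_
    refine CLevi_trans (PPs F cb o) (aP c cb o h σ) _ ?_ x
    exact CSurj_IS (PPs F cb o) hPc 1 (N' ⊓ U') N' hN'c inf_le_left hTc (U' : Set (lev F cb)) hU'
      (Subgroup.coe_inf _ _) hdisj hopen (aP c cb o h σ) (aP_smooth c cb o h σ hσ) (e x⁻¹)
  refine ⟨⟨f, (mem_IndSp_iff c cb o h σ f).2 hIS⟩, ?_, ?_⟩
  · intro g hg
    show f g = 0
    rw [hf]
    refine Finset.sum_eq_zero fun x hx => ?_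
    refine CSurj_f_not _ _ _ _ _ _ ?_
    rintro ⟨p, t, ht, hgx⟩
    apply hg
    refine ⟨p.1.1, p.2, t.1 * x.1⁻¹, ?_, ?_⟩
    · exact N'.mul_mem ht.1 (N'.inv_mem (hKN (hsK x hx)))
    · have e1 : g = p.1 * (t * x⁻¹) := by
        have e2 : g = g * x * x⁻¹ := by group
        rw [e2, hgx]
        group
      exact congrArg Subtype.val e1
  · intro n hn
    have hnN : n ∈ N' := hn
    show f n = e n
    rw [hf]
    have hval : ∀ x ∈ s, CSurj_f (PPs F cb o) 1 (N' ⊓ U') (aP c cb o h σ) (e x⁻¹) (n * x) =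
        if n * x ∈ U' then e x⁻¹ else 0 := by
      intro x hx
      have hxN : x ∈ N' := hKN (hsK x hx)
      by_cases hnx : n * x ∈ U'
      · rw [if_pos hnx]
        have h5 := CSurj_f_mem (PPs F cb o) 1 (N' ⊓ U') N' inf_le_left hdisj (aP c cb o h σ)
          (e x⁻¹) 1 (n * x) ⟨N'.mul_mem hnN hxN, hnx⟩
        rw [map_one, Module.End.one_apply] at h5
        rw [← h5]
        congr 1
        show n * x = 1 * 1 * (n * x)
        group
      · rw [if_neg hnx]
        refine CSurj_f_not _ _ _ _ _ _ ?_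
        rintro ⟨p, t, ht, hgx⟩
        apply hnx
        have h6 : (p : lev F cb) = n * x * t⁻¹ := by
          rw [hgx]
          group
        have h7 : n * x * t⁻¹ = 1 := by
          refine hdisj _ (N'.mul_mem (N'.mul_mem hnN hxN) (N'.inv_mem ht.1)) ?_
          rw [← h6, one_mul, inv_one, mul_one]
          exact p.2
        rw [mul_inv_eq_one] at h7
        rw [h7]
        exact ht.2
    show ∑ x ∈ s, CSurj_f (PPs F cb o) 1 (N' ⊓ U') (aP c cb o h σ) (e x⁻¹) (n * x) = e n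
    rw [Finset.sum_congr rfl hval]
    by_cases hnK : n ∈ K
    · obtain ⟨x, ⟨hx, hxn⟩, hu⟩ := hex n⁻¹ (K.inv_mem hnK)
      have hxn' : n * x ∈ U' := by
        have h5 := U'.inv_mem hxn
        rw [_root_.mul_inv_rev, inv_inv, inv_inv] at h5
        exact h5
      rw [Finset.sum_eq_single x]
      · rw [if_pos hxn']
        have hxK : x ∈ K := hsK x hx
        have h5 := hcore x⁻¹ (K.inv_mem hxK) (n * x) hxn'
        have h6 := hinv x⁻¹ (N'.inv_mem (hKN hxK)) _ (hK₀U h5)
          (N'.mul_mem (N'.mul_mem (N'.inv_mem (N'.inv_mem (hKN hxK)))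
            (N'.mul_mem hnN (hKN hxK))) (N'.inv_mem (hKN hxK)))
        rw [← h6]
        congr 1
        group
      · intro y hy hyx
        rw [if_neg]
        intro h5
        apply hyx
        refine hu y ⟨hy, ?_⟩
        have h6 := U'.inv_mem h5
        rw [_root_.mul_inv_rev] at h6
        exact h6
      · intro h5
        exact absurd hx h5
    · have h5 : e n = 0 := by
        by_contra h0
        exact hnK (hCK (Or.inl (hsupp n hnN h0)))
      rw [h5]
      refine Finset.sum_eq_zero fun x hx => ?_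
      rw [if_neg]
      intro h6
      apply hnK
      have h7 := K.mul_mem (hTK (n * x) ⟨N'.mul_mem hnN (hKN (hsK x hx)), h6⟩)
        (K.inv_mem (hsK x hx))
      rwa [mul_inv_cancel_right] at h7

theorem big_uniq (f f' : (parD c cb o h).IndSp σ) (hf : f ∈ IndOn (parD c cb o h) σ (big F cb o))
    (hf' : f' ∈ IndOn (parD c cb o h) σ (big F cb o))
    (he : ∀ n : lev F cb, n.1 ∈ uni F cb (fun i => - o i) → f.1 n = f'.1 n) : f = f' := by
  apply Subtype.ext
  funext g
  by_cases hg : g ∈ big F cb o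
  · obtain ⟨p, hp, n, hn, hpn⟩ := hg
    have h1 := ((mem_IndSp_iff c cb o h σ f.1).1 f.2).1
    have h2 := ((mem_IndSp_iff c cb o h σ f'.1).1 f'.2).1
    have e1 : g = ((⟨⟨p, hp.1⟩, hp⟩ : PPs F cb o) : lev F cb) * ⟨n, hn.1.1⟩ := Subtype.ext hpn
    rw [e1, h1, h2, he ⟨n, hn.1.1⟩ hn]
  · rw [hf g hg, hf' g hg]

theorem big_csupp (hσ : IsSm σ) (f : (parD c cb o h).IndSp σ)
    (hf : f ∈ IndOn (parD c cb o h) σ (big F cb o)) :
    LCC ((uni F cb (fun i => - o i)).subgroupOf (lev F cb)) f.1 := by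
  obtain ⟨CM, CN, -, hCM, hCN, hCNN, hs⟩ := gl_csupp cb c o h c (fun i => - o i)
    (CLevi_h' cb c o h) 1 ∅ (big F cb o) (CLevi_step cb c o h) σ hσ f hf
  obtain ⟨-, U, hU, hinv⟩ := (mem_IndSp_iff c cb o h σ f.1).1 f.2
  refine CFub_mk f.1 U hU (fun n _ u hu _ => hinv n u hu) CN hCN hCNN fun n hn h0 => ?_
  have hcell : n ∈ cell (glCD (F := F) cb o c (fun i => - o i) (CLevi_h' cb c o h) 1
      (fun _ => rfl)).P (glCD (F := F) cb o c (fun i => - o i) (CLevi_h' cb c o h) 1
      (fun _ => rfl)).M (glCD (F := F) cb o c (fun i => - o i) (CLevi_h' cb c o h) 1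
      (fun _ => rfl)).N (glCD (F := F) cb o c (fun i => - o i) (CLevi_h' cb c o h) 1
      (fun _ => rfl)).w := by
    refine ⟨1, Subgroup.one_mem _, 1, Subgroup.one_mem _, n, hn, Subtype.ext ?_⟩
    show n.1 = 1 * permG F 1 * 1 * n.1
    rw [CLevi_perm]
    group
  obtain ⟨p, hp, m, hm, d, hd, hn'⟩ := hs n hcell h0
  have e1 : n.1 = p.1 * m.1 * d.1 := by
    have e2 : n.1 = p.1 * permG F 1 * m.1 * d.1 := congrArg Subtype.val hn'
    rw [e2, CLevi_perm, mul_one]
  have e3 : p.1 * m.1 = n.1 * d.1⁻¹ := by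
    rw [e1]
    group
  have e4 : p.1 * m.1 = 1 := by
    refine big_disj cb o _ ((upp F cb o).mul_mem hp (parD_lev_le_upp c cb o h (hCM hm))) ?_
    rw [e3]
    exact (uni F cb (fun i => - o i)).mul_mem hn ((uni F cb (fun i => - o i)).inv_mem (hCNN hd))
  have e5 : n = d := by
    apply Subtype.ext
    rw [e1, e4, one_mul]
  rw [e5]
  exact hd

/-- on the big cell the cell functional of `w = 1` is the integral over `N⁻` -/
theorem big_lam (hσ : IsSm σ) (h' : ∀ i j, c i = c j ↔ cb i = cb j ∧ - o i = - o j)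
    (f : (parD c cb o h).IndSp σ) (hf : f ∈ IndOn (parD c cb o h) σ (big F cb o)) :
    (glCD (F := F) cb o c (fun i => - o i) h' 1 (fun _ => rfl)).Lam f.1 1 =
      intg ((uni F cb (fun i => - o i)).subgroupOf (lev F cb))
        ((uni F cb (fun i => - o i) ⊓ Kc F κ 0).subgroupOf (lev F cb)) f.1 := by
  have hw : (glCD (F := F) cb o c (fun i => - o i) h' 1 (fun _ => rfl)).w = 1 :=
    Subtype.ext CLevi_perm
  have hB : (glCD (F := F) cb o c (fun i => - o i) h' 1 (fun _ => rfl)).B = ⊥ := by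
    rw [eq_bot_iff]
    rintro x ⟨hx1, hx2⟩
    have hx3 : x ∈ cjS (glCD (F := F) cb o c (fun i => - o i) h' 1 (fun _ => rfl)).w
      (glCD (F := F) cb o c (fun i => - o i) h' 1 (fun _ => rfl)).P := hx2
    rw [mem_cjS, hw, one_mul, inv_one, mul_one] at hx3
    rw [Subgroup.mem_bot]
    exact Subtype.ext (big_disj cb o x.1 hx3 hx1)
  have e1 : (glCD (F := F) cb o c (fun i => - o i) h' 1 (fun _ => rfl)).Lam f.1 1 =
      iq (glCD (F := F) cb o c (fun i => - o i) h' 1 (fun _ => rfl)).N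
        (glCD (F := F) cb o c (fun i => - o i) h' 1 (fun _ => rfl)).B
        (glCD (F := F) cb o c (fun i => - o i) h' 1 (fun _ => rfl)).N₀
        (fun n => f.1 ((glCD (F := F) cb o c (fun i => - o i) h' 1 (fun _ => rfl)).w * n * 1)) :=
    rfl
  rw [e1, hB, hw]
  simp only [one_mul, mul_one]
  rfl

end

end Pool.Agent.Lib.MP_ca1492_al.P
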