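import Mathlib
import Pool.Agent.Lib.MP_ca1492_al.P.CDef

/-!
# MP_ca1492_al, p-adic side, module COrbA: finitely many double cosets, Baire category

* `orbit_order`. `Γ = P × Q` acts on `A` by `(p, q) g = p g q⁻¹`; the orbits are the double cosets;
  `Γ` is sigma compact (closed subgroups of a sigma compact space). CLAIM: if `Z ⊆ A` is closed,
  nonempty and a finite union of orbits, then one of these orbits is open in `Z`. Proof: `Z` is
  locally compact Hausdorff, so a Baire space; it is the union of countably many compact (so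
  closed) sets of the form `K₁ w K₂`, `K₁ ⊆ P`, `K₂ ⊆ Q` compact; one of them has nonempty interior
  in `Z`; so the orbit `O` of `w` has an interior point in `Z`, and by homogeneity (`Γ` acts by
  homeomorphisms of `A` preserving `Z` and `O`, transitively on `O`) every point of `O` is interior.
  Now enumerate: after `w_0, ..., w_{k-1}` with open union `U_k ≠ A` apply the claim to `Z = A \ U_k`
  and take for `w_k` a representative in `W` of the orbit found; `U_{k+1} = U_k ∪ O` is open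
  because `O` is open in `Z = A \ U_k` (`O = Z ∩ V`, `V` open, `U_k ∪ O = U_k ∪ V`). It stops because
  the number of orbits is finite. (Induct on the number of orbits not yet chosen.)
-/

set_option autoImplicit false

namespace Pool.Agent.Lib.MP_ca1492_al.P

open Topology

variable {A : Type} [Group A] [TopologicalSpace A] [IsTopologicalGroup A] [T2Space A]
  [LocallyCompactSpace A] [SigmaCompactSpace A]

omit [TopologicalSpace A] [IsTopologicalGroup A] [T2Space A] [LocallyCompactSpace A]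
  [SigmaCompactSpace A] in
theorem COrbA_self (P Q : Subgroup A) (w : A) : w ∈ dc P Q w :=
  ⟨1, P.one_mem, 1, Q.one_mem, by simp⟩

omit [TopologicalSpace A] [IsTopologicalGroup A] [T2Space A] [LocallyCompactSpace A]
  [SigmaCompactSpace A] in
theorem COrbA_mul (P Q : Subgroup A) {w g p q : A} (hp : p ∈ P) (hq : q ∈ Q) :
    p * g * q ∈ dc P Q w ↔ g ∈ dc P Q w := by
  constructor
  · rintro ⟨a, ha, b, hb, h⟩
    refine ⟨p⁻¹ * a, P.mul_mem (P.inv_mem hp) ha, b * q⁻¹, Q.mul_mem hb (Q.inv_mem hq), ?_⟩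
    have : g = p⁻¹ * (p * g * q) * q⁻¹ := by group
    rw [this, h]
    group
  · rintro ⟨a, ha, b, hb, rfl⟩
    exact ⟨p * a, P.mul_mem hp ha, b * q, Q.mul_mem hb hq, by group⟩

/-- one orbit is open in a closed invariant set which is a finite union of orbits -/
theorem COrbA_claim (P Q : Subgroup A) (hP : IsClosed (P : Set A)) (hQ : IsClosed (Q : Set A))
    (W : Set A) (hW : W.Finite) (Z : Set A) (hZ : IsClosed Z) (hne : Z.Nonempty)
    (hs : ∀ z ∈ Z, ∀ p ∈ P, ∀ q ∈ Q, p * z * q ∈ Z)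
    (h : ∀ z ∈ Z, ∃ w ∈ W, z ∈ dc P Q w) :
    ∃ w ∈ W, ∃ V : Set A, IsOpen V ∧ dc P Q w = Z ∩ V := by
  haveI : SigmaCompactSpace P := hP.isClosedEmbedding_subtypeVal.sigmaCompactSpace
  haveI : SigmaCompactSpace Q := hQ.isClosedEmbedding_subtypeVal.sigmaCompactSpace
  haveI : LocallyCompactSpace Z := hZ.isClosedEmbedding_subtypeVal.locallyCompactSpace
  haveI : Nonempty Z := hne.to_subtype
  haveI : Countable W := hW.countable.to_subtype
  let f : W × ℕ × ℕ → Set Z := fun t =>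
    Subtype.val ⁻¹' ((fun s : P × Q => (s.1 : A) * t.1 * (s.2 : A)) ''
      (compactCovering P t.2.1 ×ˢ compactCovering Q t.2.2))
  have hc : ∀ t, IsClosed (f t) := by
    intro t
    refine IsClosed.preimage continuous_subtype_val (IsCompact.isClosed ?_)
    refine ((isCompact_compactCovering P _).prod (isCompact_compactCovering Q _)).image ?_
    fun_prop
  have hU : ⋃ t, f t = Set.univ := by
    refine Set.eq_univ_of_forall fun z => ?_
    obtain ⟨w, hw, p, hp, q, hq, hz⟩ := h z.1 z.2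
    obtain ⟨m, hm⟩ := exists_mem_compactCovering (⟨p, hp⟩ : P)
    obtain ⟨n, hn⟩ := exists_mem_compactCovering (⟨q, hq⟩ : Q)
    refine Set.mem_iUnion.2 ⟨⟨⟨w, hw⟩, m, n⟩, ?_⟩
    exact ⟨(⟨p, hp⟩, ⟨q, hq⟩), ⟨hm, hn⟩, hz.symm⟩
  obtain ⟨⟨w, m, n⟩, z0, hz0⟩ := nonempty_interior_of_iUnion_of_closed hc hU
  obtain ⟨V1, hV1, hV1o, hz1⟩ := mem_interior.1 hz0
  obtain ⟨V0, hV0, rfl⟩ := isOpen_induced_iff.1 hV1o
  have hsub : ∀ z ∈ Z, z ∈ V0 → z ∈ dc P Q w.1 := by
    intro z hz hzV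
    obtain ⟨⟨p, q⟩, -, hpq⟩ := hV1 (show (⟨z, hz⟩ : Z) ∈ Subtype.val ⁻¹' V0 from hzV)
    exact ⟨p, p.2, q, q.2, hpq.symm⟩
  have hz0w : z0.1 ∈ dc P Q w.1 := hsub z0.1 z0.2 hz1
  obtain ⟨p0, hp0, q0, hq0, h0⟩ := hz0w
  refine ⟨w.1, w.2, ⋃ (p : P) (q : Q), (fun g : A => (p : A) * g * (q : A)) ⁻¹' V0, ?_, ?_⟩
  · refine isOpen_iUnion fun p => isOpen_iUnion fun q => hV0.preimage ?_
    fun_prop
  · ext g
    constructor
    · rintro ⟨p, hp, q, hq, rfl⟩
      constructor
      · have : p * w.1 * q = (p * p0⁻¹) * z0.1 * (q0⁻¹ * q) := by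
          rw [h0]
          group
        rw [this]
        exact hs z0.1 z0.2 _ (P.mul_mem hp (P.inv_mem hp0)) _ (Q.mul_mem (Q.inv_mem hq0) hq)
      · refine Set.mem_iUnion.2 ⟨⟨p0 * p⁻¹, P.mul_mem hp0 (P.inv_mem hp)⟩,
          Set.mem_iUnion.2 ⟨⟨q⁻¹ * q0, Q.mul_mem (Q.inv_mem hq) hq0⟩, ?_⟩⟩
        show (p0 * p⁻¹) * (p * w.1 * q) * (q⁻¹ * q0) ∈ V0
        have : (p0 * p⁻¹) * (p * w.1 * q) * (q⁻¹ * q0) = z0.1 := by
          rw [h0]
          group
        rw [this]
        exact hz1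
    · rintro ⟨hg, hgV⟩
      obtain ⟨p, hp⟩ := Set.mem_iUnion.1 hgV
      obtain ⟨q, hq⟩ := Set.mem_iUnion.1 hp
      exact (COrbA_mul P Q p.2 q.2).1 (hsub _ (hs g hg p p.2 q q.2) hq)

theorem COrbA_induct (P Q : Subgroup A) (hP : IsClosed (P : Set A)) (hQ : IsClosed (Q : Set A))
    (n : ℕ) : ∀ W : Finset A, W.card = n → ∀ Z : Set A, IsClosed Z →
    (∀ z ∈ Z, ∀ p ∈ P, ∀ q ∈ Q, p * z * q ∈ Z) →
    (∀ z ∈ Z, ∃ w ∈ W, z ∈ dc P Q w) →
    ∃ (r : ℕ) (w : Fin r → A), (∀ i, w i ∈ W) ∧ (∀ i, dc P Q (w i) ⊆ Z) ∧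
      (∀ i j, w j ∈ dc P Q (w i) → i = j) ∧
      (∀ z ∈ Z, ∃ i, z ∈ dc P Q (w i)) ∧
      ∀ k : ℕ, IsOpen (Zᶜ ∪ {g | ∃ i : Fin r, i.1 < k ∧ g ∈ dc P Q (w i)}) := by
  classical
  induction n with
  | zero =>
    intro W hW Z hZ hs h
    have hZe : Z = ∅ := by
      refine Set.eq_empty_of_forall_notMem fun z hz => ?_
      obtain ⟨w, hw, -⟩ := h z hz
      rw [Finset.card_eq_zero.1 hW] at hw
      exact absurd hw (Finset.notMem_empty w)
    subst hZe
    refine ⟨0, Fin.elim0, fun i => i.elim0, fun i => i.elim0, fun i => i.elim0,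
      fun z hz => absurd hz (Set.notMem_empty z), fun k => ?_⟩
    simp
  | succ n ih =>
    intro W hW Z hZ hs h
    rcases Z.eq_empty_or_nonempty with hZe | hne
    · subst hZe
      refine ⟨0, Fin.elim0, fun i => i.elim0, fun i => i.elim0, fun i => i.elim0,
        fun z hz => absurd hz (Set.notMem_empty z), fun k => ?_⟩
      simp
    obtain ⟨w0, hw0, V, hV, hVe⟩ := COrbA_claim P Q hP hQ (W : Set A) W.finite_toSet Z hZ hne hs h
    have hd : ∀ z, z ∈ Z → (z ∉ dc P Q w0 ↔ z ∉ V) := by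
      intro z hz
      rw [hVe]
      simp [hz]
    have hZ' : IsClosed (Z ∩ Vᶜ) := hZ.inter hV.isClosed_compl
    have hmem : ∀ z, z ∈ Z ∩ Vᶜ ↔ z ∈ Z ∧ z ∉ dc P Q w0 := by
      intro z
      constructor
      · rintro ⟨h1, h2⟩
        exact ⟨h1, (hd z h1).2 h2⟩
      · rintro ⟨h1, h2⟩
        exact ⟨h1, (hd z h1).1 h2⟩
    have hs' : ∀ z ∈ Z ∩ Vᶜ, ∀ p ∈ P, ∀ q ∈ Q, p * z * q ∈ Z ∩ Vᶜ := by
      intro z hz p hp q hq
      rw [hmem] at hz ⊢
      exact ⟨hs z hz.1 p hp q hq, fun hh => hz.2 ((COrbA_mul P Q hp hq).1 hh)⟩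
    have hc' : ∀ z ∈ Z ∩ Vᶜ, ∃ w ∈ W.erase w0, z ∈ dc P Q w := by
      intro z hz
      rw [hmem] at hz
      obtain ⟨w, hw, hzw⟩ := h z hz.1
      refine ⟨w, Finset.mem_erase.2 ⟨?_, hw⟩, hzw⟩
      rintro rfl
      exact hz.2 hzw
    have hw0' : w0 ∈ W := hw0
    obtain ⟨r, w, h1, h2, h3, h4, h5⟩ := ih (W.erase w0)
      (by rw [Finset.card_erase_of_mem hw0', hW]; rfl) (Z ∩ Vᶜ) hZ' hs' hc'
    have hsub0 : dc P Q w0 ⊆ Z := by
      rw [hVe]
      exact Set.inter_subset_left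
    refine ⟨r + 1, Fin.cons w0 w, ?_, ?_, ?_, ?_, ?_⟩
    · intro i
      refine Fin.cases ?_ (fun j => ?_) i
      · simpa using hw0'
      · simpa using Finset.mem_of_mem_erase (h1 j)
    · intro i
      refine Fin.cases ?_ (fun j => ?_) i
      · simpa using hsub0
      · rw [Fin.cons_succ]
        exact (h2 j).trans Set.inter_subset_left
    · intro i j
      refine Fin.cases ?_ (fun i' => ?_) i
      · refine Fin.cases (fun _ => rfl) (fun j' => ?_) j
        intro hh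
        rw [Fin.cons_zero, Fin.cons_succ] at hh
        exact absurd hh ((hmem _).1 (h2 j' (COrbA_self P Q _))).2
      · refine Fin.cases ?_ (fun j' => ?_) j
        · intro hh
          rw [Fin.cons_zero, Fin.cons_succ] at hh
          exact absurd (COrbA_self P Q w0) ((hmem _).1 (h2 i' hh)).2
        · intro hh
          rw [Fin.cons_succ, Fin.cons_succ] at hh
          rw [h3 i' j' hh]
    · intro z hz
      by_cases hz0 : z ∈ dc P Q w0
      · exact ⟨0, by simpa using hz0⟩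
      · obtain ⟨i, hi⟩ := h4 z ((hmem z).2 ⟨hz, hz0⟩)
        exact ⟨i.succ, by simpa using hi⟩
    · intro k
      cases k with
      | zero =>
        have : (Zᶜ ∪ {g | ∃ i : Fin (r + 1), i.1 < 0 ∧
            g ∈ dc P Q ((Fin.cons w0 w : Fin (r + 1) → A) i)}) = Zᶜ := by
          ext g
          simp
        rw [this]
        exact hZ.isOpen_compl
      | succ k =>
        have : (Zᶜ ∪ {g | ∃ i : Fin (r + 1), i.1 < k + 1 ∧
            g ∈ dc P Q ((Fin.cons w0 w : Fin (r + 1) → A) i)}) =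
            (Z ∩ Vᶜ)ᶜ ∪ {g | ∃ i : Fin r, i.1 < k ∧ g ∈ dc P Q (w i)} := by
          ext g
          constructor
          · rintro (hg | ⟨i, hi, hg⟩)
            · exact Or.inl fun hh => hg hh.1
            · revert hi hg
              refine Fin.cases ?_ (fun j => ?_) i
              · intro _ hg
                rw [Fin.cons_zero] at hg
                exact Or.inl fun hh => ((hmem g).1 hh).2 hg
              · intro hj hg
                rw [Fin.cons_succ] at hg
                exact Or.inr ⟨j, by simpa using hj, hg⟩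
          · rintro (hg | ⟨i, hi, hg⟩)
            · by_cases hgZ : g ∈ Z
              · by_cases hg0 : g ∈ dc P Q w0
                · exact Or.inr ⟨0, by simp, by simpa using hg0⟩
                · exact absurd ((hmem g).2 ⟨hgZ, hg0⟩) hg
              · exact Or.inl hgZ
            · exact Or.inr ⟨i.succ, by simpa using hi, by simpa using hg⟩
        rw [this]
        exact h5 k

theorem orbit_order (P Q : Subgroup A) (hP : IsClosed (P : Set A)) (hQ : IsClosed (Q : Set A))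
    (W : Set A) (hW : W.Finite) (h : ∀ g, ∃ w ∈ W, g ∈ dc P Q w) :
    ∃ (r : ℕ) (w : Fin r → A), (∀ i, w i ∈ W) ∧ (∀ i j, w j ∈ dc P Q (w i) → i = j) ∧
      (∀ g, ∃ i, g ∈ dc P Q (w i)) ∧
      ∀ k : ℕ, IsOpen {g | ∃ i : Fin r, i.1 < k ∧ g ∈ dc P Q (w i)} := by
  obtain ⟨r, w, h1, -, h3, h4, h5⟩ := COrbA_induct P Q hP hQ _ hW.toFinset rfl Set.univ
    isClosed_univ (fun _ _ _ _ _ _ => Set.mem_univ _)
    (fun z _ => by
      obtain ⟨w, hw, hz⟩ := h z
      exact ⟨w, hW.mem_toFinset.2 hw, hz⟩)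
  refine ⟨r, w, fun i => hW.mem_toFinset.1 (h1 i), h3, fun g => h4 g (Set.mem_univ _), fun k => ?_⟩
  have := h5 k
  rwa [Set.compl_univ, Set.empty_union] at this

end Pool.Agent.Lib.MP_ca1492_al.P
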